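import Pool.Agent.Lib.MP_2347b2_mp.F.Cost

/-!
The explicit mismatch bounds for large `R`.
-/

namespace Pool.Agent.Lib.MP_2347b2_mp.F

variable {s B : ℝ} {k : ℕ}

theorem bg_sqrt (hs : 200 ≤ s) : √(s ^ 2) = s := Real.sqrt_sq (by linarith)

theorem bg_sqrt2 (hs : 200 ≤ s) : √(2 * s ^ 2) ≤ 1.4143 * s :=
  Real.sqrt_le_iff.mpr ⟨by linarith, by nlinarith [sq_nonneg s]⟩

theorem bg_sqrt3 (hs : 200 ≤ s) : √(2 / s ^ 2) ≤ 1.4143 / s := by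
  have h : 0 < s := by linarith
  refine Real.sqrt_le_iff.mpr ⟨by positivity, ?_⟩
  rw [div_pow]
  gcongr
  norm_num

theorem bg_log (hs : 200 ≤ s) {y : ℝ} (h0 : 0 < y) (h : y ≤ 12 * s ^ 3) :
    1 + max 0 (Real.log y) ≤ 0.101 * s := by
  have hs0 : 0 < s := by linarith
  have h1 : y ≤ (2 ^ 9 * (2.29 * s / 512)) ^ 3 := by
    refine h.trans ?_
    have : (2 ^ 9 * (2.29 * s / 512)) ^ 3 = 2.29 ^ 3 * s ^ 3 := by ring
    rw [this]
    gcongr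
    norm_num
  have h2 := Real.log_le_log h0 h1
  rw [Real.log_pow, Real.log_mul (by positivity) (by positivity), Real.log_pow] at h2
  have h3 := Real.log_le_sub_one_of_pos (x := 2.29 * s / 512) (by positivity)
  have h4 := Real.log_two_lt_d9
  push_cast at h2
  have h5 : Real.log y ≤ 0.101 * s - 1 := by linarith
  have h6 := max_le (a := 0) (by linarith) h5
  linarith

theorem bg_VV (hs : 200 ≤ s) (hB : 100 ≤ B) : 0 ≤ VV (s ^ 2) B ∧ VV (s ^ 2) B ≤ 1.489 * s / √B := by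
  have h1 : 10 ≤ √B := Real.le_sqrt_of_sq_le (by linarith)
  have h2 := bg_sqrt2 hs
  unfold VV
  refine ⟨div_nonneg (Real.sqrt_nonneg _) (by linarith), ?_⟩
  rw [div_le_div_iff₀ (by linarith) (by linarith)]
  have h3 : √(2 * s ^ 2) * √B ≤ 1.4143 * s * √B := by gcongr
  nlinarith [mul_le_mul hs h1 (by norm_num) (by linarith), mul_nonneg (by linarith : 0 ≤ s)
    (by linarith : 0 ≤ √B - 10)]

theorem bg_VV2 (hs : 200 ≤ s) (hB : 100 ≤ B) : VV (s ^ 2) B ^ 2 ≤ 2.22 * s ^ 2 / B := by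
  obtain ⟨h0, h1⟩ := bg_VV hs hB
  refine (pow_le_pow_left₀ h0 h1 2).trans ?_
  rw [div_pow, Real.sq_sqrt (by linarith), mul_pow]
  gcongr
  norm_num

theorem bg_GG (hs : 200 ≤ s) (hB : 100 ≤ B) :
    0 ≤ GG (s ^ 2) B ∧ GG (s ^ 2) B ≤ 1.489 * s ^ 3 / B := by
  obtain ⟨h0, h1⟩ := bg_VV hs hB
  have h2 : 0 < √B := Real.sqrt_pos.mpr (by linarith)
  unfold GG
  refine ⟨by positivity, ?_⟩
  calc s ^ 2 * VV (s ^ 2) B / √B ≤ s ^ 2 * (1.489 * s / √B) / √B := by gcongr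
    _ = 1.489 * s ^ 3 / (√B * √B) := by field_simp
    _ = _ := by rw [Real.mul_self_sqrt (by linarith)]

theorem bg_F0 (hs : 200 ≤ s) (hk : (k : ℝ) ≤ 1.4143 * s) :
    0 ≤ F0 k (s ^ 2) ∧ F0 k (s ^ 2) + 4 ≤ 1.01 * s ^ 2 := by
  have h0 : (0 : ℝ) ≤ k := Nat.cast_nonneg k
  unfold F0
  refine ⟨by positivity, ?_⟩
  have h1 : (k : ℝ) ^ 2 ≤ (1.4143 * s) ^ 2 := by gcongr
  have h2 : |s ^ 2 - (k : ℝ) ^ 2 - k| ≤ 1.01 * s ^ 2 - 4.5 := by
    rw [abs_le]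
    constructor <;> nlinarith [sq_nonneg (k : ℝ)]
  linarith

theorem bg_top (hs : 200 ≤ s) (hk : (k : ℝ) ≤ 1.4143 * s) :
    0 ≤ topI k (s ^ 2) ∧ topI k (s ^ 2) ≤ 0.004 := by
  obtain ⟨h0, h1⟩ := bg_F0 hs hk
  have hs0 : 0 < s := by linarith
  unfold topI
  rw [bg_sqrt hs]
  refine ⟨by positivity, ?_⟩
  rw [div_le_iff₀ (by positivity)]
  have h2 : F0 k (s ^ 2) * s ≤ 1.01 * s ^ 2 * s := by gcongr; linarith
  have h3 : 200 * s ^ 3 ≤ s * s ^ 3 := by gcongr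
  have h4 : 200 * s ^ 2 ≤ s * s ^ 2 := by gcongr
  nlinarith

theorem bg_e (hs : 200 ≤ s) : 80 / (s ^ 2) ^ 2 ≤ 0.001 := by
  have h : (200 : ℝ) ^ 2 ≤ s ^ 2 := by gcongr
  have h' : ((200 : ℝ) ^ 2) ^ 2 ≤ (s ^ 2) ^ 2 := by gcongr
  rw [div_le_iff₀ (by linarith)]
  linarith

theorem ek_nonneg (hk : 2 ≤ k) : 0 ≤ ek k := by
  have h : (2 : ℝ) ≤ k := by exact_mod_cast hk
  have h1 : 0 < (k : ℝ) ^ 2 - 1 := by nlinarith
  unfold ek
  positivity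

theorem bg_ub (hk : 2 ≤ k) {R : ℝ} (hR : 0 ≤ R) :
    0 ≤ ub k R ∧ ub k R ≤ ek k * (1.125 * R) := by
  have h : (2 : ℝ) ≤ k := by exact_mod_cast hk
  have he := ek_nonneg hk
  unfold ub
  refine ⟨mul_nonneg he (le_max_left _ _), mul_le_mul_of_nonneg_left (max_le (by linarith) ?_) he⟩
  have h1 : 1 / (2 * (k : ℝ) ^ 2) ≤ 1 / 8 := by
    apply one_div_le_one_div_of_le (by norm_num); nlinarith
  have h2 := mul_le_mul_of_nonneg_left h1 hR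
  nlinarith

theorem bg_D1 (hs : 200 ≤ s) {U : ℝ} (h0 : 0 ≤ U) (hU : U ≤ s ^ 2 / 2) :
    0 ≤ D1 (s ^ 2) U ∧ D1 (s ^ 2) U ≤ 0.99 / s := by
  have hs0 : 0 < s := by linarith
  have hp := Real.pi_gt_d2
  have ht : U / s ^ 2 ≤ 1 / 2 := by rw [div_le_iff₀ (by positivity)]; linarith
  have ht0 : 0 ≤ U / s ^ 2 := by positivity
  have h3 := bg_sqrt3 hs
  unfold D1
  rw [bg_sqrt hs]
  generalize U / s ^ 2 = t at ht ht0
  refine ⟨by positivity, ?_⟩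
  have h4 : (11 / 2 + 60 * t) / s ^ 2 ≤ 0.1775 / s := by
    rw [div_le_div_iff₀ (by positivity) hs0]
    nlinarith [mul_le_mul_of_nonneg_right ht hs0.le]
  have h5 : 3 * t / s ≤ 1.5 / s := by gcongr; linarith
  rw [div_le_iff₀ (by linarith)]
  have h6 : 0.99 / s * 3.14 ≤ 0.99 / s * Real.pi := by gcongr
  have e : 0.99 / s * 3.14 = 1.4143 / s + 0.1775 / s + 1.5 / s + 0.0168 / s := by ring
  have h7 : 0 ≤ 0.0168 / s := by positivity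
  linarith

theorem bg_J1 (hs : 200 ≤ s) (hk : 2 ≤ k) (hU : Uk k ≤ s ^ 2 / 2) :
    J1 k (s ^ 2) ≤ 23.9 / k + 0.43 := by
  have hs0 : 0 < s := by linarith
  have hx : (2 : ℝ) ≤ k := by exact_mod_cast hk
  have hU0 : 0 ≤ Uk k := by unfold Uk; positivity
  have hks : (k : ℝ) ≤ 1.4143 * s := by
    unfold Uk at hU
    by_contra hc
    have := not_le.mp hc
    nlinarith
  obtain ⟨f0, f1⟩ := bg_F0 hs hks
  obtain ⟨-, t1⟩ := bg_top hs hks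
  have hs2 : (200 : ℝ) ^ 2 ≤ s ^ 2 := by gcongr
  have hB : 1.5 * s ^ 2 ≤ 2 * s ^ 2 - Uk k := by linarith
  obtain ⟨g0, g1⟩ := bg_GG hs (B := 2 * s ^ 2 - Uk k) (by linarith)
  have g2 : GG (s ^ 2) (2 * s ^ 2 - Uk k) ≤ 0.993 * s := by
    refine g1.trans ?_
    rw [div_le_iff₀ (by linarith)]
    have : 0.993 * s * (1.5 * s ^ 2) ≤ 0.993 * s * (2 * s ^ 2 - Uk k) := by gcongr
    have h3 : 0 ≤ s ^ 3 := by positivity
    nlinarith
  have hl : 1 + Real.log (2 * s ^ 2 * k) ≤ 0.101 * s := by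
    have h1 := bg_log hs (y := 2 * s ^ 2 * k) (by positivity) (by
      have : 2 * s ^ 2 * k ≤ 2 * s ^ 2 * (1.4143 * s) := by gcongr
      have h3 : 0 ≤ s ^ 3 := by positivity
      nlinarith)
    linarith [le_max_right 0 (Real.log (2 * s ^ 2 * k))]
  have ht : Uk k / s ^ 2 ≤ 1 / 2 := by rw [div_le_iff₀ (by positivity)]; linarith
  have ht0 : 0 ≤ Uk k / s ^ 2 := by positivity
  have hL : (k : ℝ) ≤ √(Lk k) := Real.le_sqrt_of_sq_le (by unfold Lk; linarith)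
  have he := bg_e hs
  unfold J1
  rw [bg_sqrt hs]
  generalize Uk k / s ^ 2 = t at ht ht0
  have hA : 5 / 2 * (1.15 + 1.8 * t + 10 * t ^ 2) / (√(Lk k) * s * (s / 2 - 2.5 - 2 * t))
      ≤ 23.6 / (k * s ^ 2) := by
    calc _ ≤ 11.375 / (k * s * (0.4825 * s)) := by
          gcongr
          · nlinarith
          · linarith
      _ ≤ _ := by
          rw [div_le_div_iff₀ (by positivity) (by positivity)]
          have : 0 ≤ k * s ^ 2 := by positivity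
          nlinarith
  have hB2 : 4 * GG (s ^ 2) (2 * s ^ 2 - Uk k) * (1 + Real.log (2 * s ^ 2 * k)) / (s ^ 2) ^ 2
      ≤ 0.402 / s ^ 2 := by
    calc _ ≤ 4 * GG (s ^ 2) (2 * s ^ 2 - Uk k) * (0.101 * s) / (s ^ 2) ^ 2 := by gcongr
      _ ≤ 4 * (0.993 * s) * (0.101 * s) / (s ^ 2) ^ 2 := by gcongr
      _ = 0.401172 / s ^ 2 := by field_simp; norm_num
      _ ≤ _ := by gcongr; norm_num
  have h1 := mul_le_mul_of_nonneg_left (add_le_add hA hB2) (by linarith : 0 ≤ F0 k (s ^ 2) + 4)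
  have h2 : (F0 k (s ^ 2) + 4) * (23.6 / (k * s ^ 2) + 0.402 / s ^ 2)
      ≤ 1.01 * s ^ 2 * (23.6 / (k * s ^ 2) + 0.402 / s ^ 2) := by gcongr
  have e : 1.01 * s ^ 2 * (23.6 / (k * s ^ 2) + 0.402 / s ^ 2) = 23.836 / k + 0.40602 := by
    field_simp; ring
  have h3 : (23.836 : ℝ) / k ≤ 23.9 / k := by gcongr; norm_num
  linarith

theorem bg_m1 (hs : 200 ≤ s) (hk : 2 ≤ k) (hU : Uk k ≤ s ^ 2 / 2) :
    m1 k (s ^ 2) ≤ 8.1 / k ^ 2 + 1.114 * s * ek k + 0.1 := by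
  have hs0 : 0 < s := by linarith
  have hx : (2 : ℝ) ≤ k := by exact_mod_cast hk
  have hp := Real.pi_gt_d2
  obtain ⟨d0, d1⟩ := bg_D1 hs (U := Uk k) (by unfold Uk; positivity) hU
  obtain ⟨u0, u1⟩ := bg_ub hk (sq_nonneg s)
  have he := ek_nonneg hk
  have hJ := bg_J1 hs hk hU
  have h1 : J1 k (s ^ 2) / Real.pi ≤ (23.9 / k + 0.43) / 3.14 :=
    (div_le_div_of_nonneg_right hJ (by linarith)).trans (by gcongr)
  have d2 : D1 (s ^ 2) (Uk k) ≤ 0.005 := by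
    refine d1.trans ?_
    rw [div_le_iff₀ hs0]; linarith
  have h2 : 1.061 / k * (J1 k (s ^ 2) / Real.pi + D1 (s ^ 2) (Uk k))
      ≤ 1.061 / k * ((23.9 / k + 0.43) / 3.14 + 0.005) := by gcongr
  have h3 : ub k (s ^ 2) * D1 (s ^ 2) (Uk k) ≤ ek k * (1.125 * s ^ 2) * (0.99 / s) := by gcongr
  have e : ek k * (1.125 * s ^ 2) * (0.99 / s) = 1.11375 * (s * ek k) := by field_simp; ring
  have h4 : 0 ≤ s * ek k := by positivity
  have h5 : 1.061 / k * ((23.9 / k + 0.43) / 3.14 + 0.005) ≤ 8.1 / (k : ℝ) ^ 2 + 0.1 := by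
    have hi : (k : ℝ)⁻¹ ≤ 1 / 2 := by
      rw [inv_eq_one_div]; exact one_div_le_one_div_of_le (by norm_num) hx
    have hi0 : 0 ≤ (k : ℝ)⁻¹ := by positivity
    rw [div_eq_mul_inv 1.061, div_eq_mul_inv 23.9, div_eq_mul_inv 8.1, ← inv_pow]
    generalize (k : ℝ)⁻¹ = y at hi hi0
    have e2 : 1.061 * y * ((23.9 * y + 0.43) / 3.14 + 0.005)
        = 253579 / 31400 * y ^ 2 + 4728877 / 31400000 * y := by ring
    rw [e2]
    linarith [sq_nonneg y]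
  unfold m1
  linarith

theorem bg_k (hs : 200 ≤ s) (hU : s ^ 2 / 2 < Uk k) : 0.7 * s ≤ k := by
  unfold Uk at hU
  by_contra hc
  have h := (not_le.mp hc).le
  have h0 : (0 : ℝ) ≤ k := Nat.cast_nonneg k
  have h1 : (k : ℝ) ^ 2 ≤ (0.7 * s) ^ 2 := by gcongr
  nlinarith

theorem bg_B {R : ℝ} (hk : (140 : ℝ) ≤ k) : 0.92 * k ≤ Blo k R := by
  refine le_trans ?_ (le_max_right _ _)
  have h1 : √((k : ℝ) + 1) ≤ 0.085 * k := Real.sqrt_le_iff.mpr ⟨by linarith, by nlinarith⟩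
  have h2 : 2 / (k : ℝ) ≤ 0.1 := by rw [div_le_iff₀ (by linarith)]; linarith
  linarith

theorem Dt_eq (L R : ℝ) : Dt L R = 4 / 3 * (1 - 2.02 * (R / L) + 4.09 * (R / L) ^ 2) := by
  unfold Dt; ring

theorem one_le_Dt (L R : ℝ) : 1 ≤ Dt L R := by
  rw [Dt_eq]
  nlinarith [sq_nonneg (R / L - 0.247)]

theorem bg_L (hs : 200 ≤ s) (hU : s ^ 2 / 2 < Uk k) : 0.4999 * s ^ 2 ≤ Lk k := by
  have hs2 : (200 : ℝ) ^ 2 ≤ s ^ 2 := by gcongr
  unfold Uk at hU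
  unfold Lk
  linarith

theorem bg_Dt (hs : 200 ≤ s) (hU : s ^ 2 / 2 < Uk k) :
    Dt (Lk k) (s ^ 2) ≤ 18 ∧ Dt (Lk k) (s ^ 2) * s ^ 2 ≤ 1.44 * k * Blo k (s ^ 2) := by
  have hs0 : 0 < s := by linarith
  have hs2 : (200 : ℝ) ^ 2 ≤ s ^ 2 := by gcongr
  have hL := bg_L hs hU
  have hk := bg_k hs hU
  have hL0 : 0 < Lk k := by linarith
  have hy0 : 0 ≤ s ^ 2 / Lk k := by positivity
  have hy : s ^ 2 / Lk k ≤ 2.001 := by rw [div_le_iff₀ hL0]; linarith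
  have h1 : Dt (Lk k) (s ^ 2) ≤ 18 := by
    rw [Dt_eq]; nlinarith
  refine ⟨h1, ?_⟩
  rcases le_total (Lk k) (1.5 * s ^ 2) with hc | hc
  · have hB : 0.4999 * s ^ 2 ≤ Blo k (s ^ 2) := by
      refine le_trans ?_ (le_max_left _ _)
      unfold Lk at hc
      unfold Uk
      linarith
    calc _ ≤ 18 * s ^ 2 := by gcongr
      _ ≤ 1.44 * 140 * (0.4999 * s ^ 2) := by linarith
      _ ≤ _ := by gcongr; linarith
  · have hy2 : s ^ 2 / Lk k ≤ 2 / 3 := by rw [div_le_iff₀ hL0]; linarith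
    have h2 : Dt (Lk k) (s ^ 2) ≤ 1.962 := by
      rw [Dt_eq]; nlinarith
    have h3 : 1.22 * s ≤ k := by
      unfold Lk at hc
      by_contra hd
      have h := (not_le.mp hd).le
      have h0 : (0 : ℝ) ≤ k := Nat.cast_nonneg k
      have h4 : (k : ℝ) ^ 2 ≤ (1.22 * s) ^ 2 := by gcongr
      nlinarith
    have hB := bg_B (k := k) (R := s ^ 2) (by linarith)
    calc _ ≤ 1.962 * s ^ 2 := by gcongr
      _ ≤ 1.44 * (1.22 * s) * (0.92 * (1.22 * s)) := by nlinarith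
      _ ≤ 1.44 * k * (0.92 * k) := by gcongr
      _ ≤ _ := by gcongr

theorem bg_J2 (hs : 200 ≤ s) (hU : s ^ 2 / 2 < Uk k) (hks : (k : ℝ) ≤ 1.4143 * s) :
    J2 k (s ^ 2) ≤ 0.25 * k := by
  have hs0 : 0 < s := by linarith
  have hs2 : (200 : ℝ) ^ 2 ≤ s ^ 2 := by gcongr
  have hL := bg_L hs hU
  have hk := bg_k hs hU
  have hB := bg_B (k := k) (R := s ^ 2) (by linarith)
  obtain ⟨d1, d2⟩ := bg_Dt hs hU
  have d0 := one_le_Dt (Lk k) (s ^ 2)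
  obtain ⟨f0, f1⟩ := bg_F0 hs hks
  obtain ⟨t0, t1⟩ := bg_top hs hks
  have he := bg_e hs
  have hB1 : 0.644 * s ≤ Blo k (s ^ 2) := by linarith
  have hB2 : 100 ≤ Blo k (s ^ 2) := by linarith
  have v2 := bg_VV2 hs hB2
  obtain ⟨g0, g1⟩ := bg_GG hs hB2
  have h3 : 0 ≤ s ^ 3 := by positivity
  have hk0 : (0 : ℝ) < k := by linarith
  unfold J2
  rw [bg_sqrt hs]
  generalize Blo k (s ^ 2) = B at *
  generalize Dt (Lk k) (s ^ 2) = D at *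
  generalize Lk k = L at *
  generalize F0 k (s ^ 2) = F at *
  have hB0 : 0 < B := by linarith
  have hL0 : 0 < L := by linarith
  have l1 : 1 + Real.log (4 * s ^ 2 / B) ≤ 0.101 * s := by
    have h1 := bg_log hs (y := 4 * s ^ 2 / B) (by positivity) (by
      rw [div_le_iff₀ hB0]
      have : 12 * s ^ 3 * 100 ≤ 12 * s ^ 3 * B := by gcongr
      nlinarith)
    linarith [le_max_right 0 (Real.log (4 * s ^ 2 / B))]
  have l2 : 1 + max 0 (Real.log (8 * s ^ 2 * k / D)) ≤ 0.101 * s :=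
    bg_log hs (by positivity) (by
      rw [div_le_iff₀ (by linarith)]
      have : 12 * s ^ 3 * 1 ≤ 12 * s ^ 3 * D := by gcongr
      have : 8 * s ^ 2 * k ≤ 8 * s ^ 2 * (1.4143 * s) := by gcongr
      nlinarith)
  have a1 : 4 * VV (s ^ 2) B ^ 2 * (1 + Real.log (4 * s ^ 2 / B)) / (L * s ^ 2) ≤ 2.8 / s ^ 2 := by
    calc _ ≤ 4 * VV (s ^ 2) B ^ 2 * (0.101 * s) / (L * s ^ 2) := by gcongr
      _ ≤ 4 * (2.22 * s ^ 2 / B) * (0.101 * s) / (L * s ^ 2) := by gcongr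
      _ ≤ 4 * (2.22 * s ^ 2 / (0.644 * s)) * (0.101 * s) / (0.4999 * s ^ 2 * s ^ 2) := by gcongr
      _ = 4 * 2.22 * 0.101 / (0.644 * 0.4999) / s ^ 2 := by field_simp
      _ ≤ _ := by gcongr; norm_num
  have a2 : D * GG (s ^ 2) B * (1 + max 0 (Real.log (8 * s ^ 2 * k / D))) / (s ^ 2) ^ 2
      ≤ 0.217 * k / s ^ 2 := by
    calc _ ≤ D * (1.489 * s ^ 3 / B) * (0.101 * s) / (s ^ 2) ^ 2 := by gcongr
      _ = 1.489 * 0.101 * (D * s ^ 2) / (B * s ^ 2) := by field_simp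
      _ ≤ 1.489 * 0.101 * (1.44 * k * B) / (B * s ^ 2) := by gcongr
      _ = 1.489 * 0.101 * 1.44 * k / s ^ 2 := by field_simp
      _ ≤ _ := by gcongr; norm_num
  have a3 := mul_le_mul_of_nonneg_left (add_le_add a1 a2) (by linarith : 0 ≤ F + 4)
  have a4 : (F + 4) * (2.8 / s ^ 2 + 0.217 * k / s ^ 2)
      ≤ 1.01 * s ^ 2 * (2.8 / s ^ 2 + 0.217 * k / s ^ 2) := by gcongr
  have e : 1.01 * s ^ 2 * (2.8 / s ^ 2 + 0.217 * k / s ^ 2) = 2.828 + 0.21917 * k := by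
    field_simp; ring
  have a5 : 0.9 * D * topI k (s ^ 2) ≤ 0.9 * 18 * 0.004 := by gcongr
  have a6 : 1.5 * (F * (1 + s / 2) + s ^ 2) / (L * s ^ 2) ≤ 0.1 := by
    rw [div_le_iff₀ (by positivity)]
    have b1 : F * (1 + s / 2) ≤ 1.01 * s ^ 2 * (1 + s / 2) := by gcongr; linarith
    have b2 : 0.4999 * s ^ 2 * s ^ 2 ≤ L * s ^ 2 := by gcongr
    have b3 : 200 * s ^ 3 ≤ s * s ^ 3 := by gcongr
    have b4 : 200 * s ^ 2 ≤ s * s ^ 2 := by gcongr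
    nlinarith
  linarith

theorem bg_D2 (hs : 200 ≤ s) (hB : 121 ≤ B) : 0 ≤ D2 (s ^ 2) B ∧ D2 (s ^ 2) B ≤ 0.19 := by
  have hs0 : 0 < s := by linarith
  have hs2 : (200 : ℝ) ^ 2 ≤ s ^ 2 := by gcongr
  have hp := Real.pi_gt_d2
  obtain ⟨v0, v1⟩ := bg_VV hs (B := B) (by linarith)
  have h1 : 11 ≤ √B := Real.le_sqrt_of_sq_le (by linarith)
  have v2 : VV (s ^ 2) B ≤ 1.489 * s / 11 := v1.trans (by gcongr)
  unfold D2
  rw [bg_sqrt hs]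
  refine ⟨by positivity, ?_⟩
  have h2 : 23 / 10 / s ≤ 0.0115 := by rw [div_le_iff₀ hs0]; linarith
  have h3 : 3 / s ^ 2 ≤ 0.001 := by rw [div_le_iff₀ (by positivity)]; linarith
  have h4 : 21 / 5 * VV (s ^ 2) B / s ≤ 0.57 := by rw [div_le_iff₀ hs0]; linarith
  rw [div_le_iff₀ (by linarith)]
  linarith

theorem ek_le (hk : 2 ≤ k) : ek k ≤ 2 / (k : ℝ) ^ 3 := by
  have h : (2 : ℝ) ≤ k := by exact_mod_cast hk
  have h1 : 0 < (k : ℝ) ^ 2 - 1 := by nlinarith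
  unfold ek
  rw [div_le_div_iff₀ (by positivity) (by positivity)]
  obtain ⟨y, hy⟩ : ∃ y : ℝ, (k : ℝ) = 2 + y := ⟨k - 2, by ring⟩
  have hy0 : 0 ≤ y := by linarith
  rw [hy]
  have : 0 ≤ y ^ 2 := by positivity
  have : 0 ≤ y ^ 3 := by positivity
  have : 0 ≤ y ^ 4 := by positivity
  nlinarith

theorem bg_m2 (hs : 200 ≤ s) (hU : s ^ 2 / 2 < Uk k) (hks : (k : ℝ) ≤ 1.4143 * s) :
    m2 k (s ^ 2) ≤ 0.1 := by
  have hs0 : 0 < s := by linarith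
  have hp := Real.pi_gt_d2
  have hk := bg_k hs hU
  have hx : (140 : ℝ) ≤ k := by linarith
  have hk2 : 2 ≤ k := by exact_mod_cast (by linarith : (2 : ℝ) ≤ k)
  have hB := bg_B (k := k) (R := s ^ 2) hx
  obtain ⟨d0, d1⟩ := bg_D2 hs (B := Blo k (s ^ 2)) (by linarith)
  obtain ⟨u0, u1⟩ := bg_ub hk2 (sq_nonneg s)
  have hJ := bg_J2 hs hU hks
  have h1 : J2 k (s ^ 2) / Real.pi ≤ 0.25 * k / 3.14 :=
    (div_le_div_of_nonneg_right hJ (by linarith)).trans (by gcongr)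
  have h2 : 1.061 / k * (J2 k (s ^ 2) / Real.pi + D2 (s ^ 2) (Blo k (s ^ 2)))
      ≤ 1.061 / k * (0.25 * k / 3.14 + 0.002 * k) := by gcongr; linarith
  have e : 1.061 / (k : ℝ) * (0.25 * k / 3.14 + 0.002 * k) = 1.061 * (0.25 / 3.14 + 0.002) := by
    field_simp
  have u2 : ub k (s ^ 2) ≤ 0.04 := by
    refine u1.trans ?_
    calc _ ≤ 2 / (k : ℝ) ^ 3 * (1.125 * s ^ 2) := by gcongr; exact ek_le hk2
      _ ≤ 2 / (0.7 * s) ^ 3 * (1.125 * s ^ 2) := by gcongr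
      _ = 2 * 1.125 / 0.7 ^ 3 / s := by field_simp
      _ ≤ _ := by rw [div_le_iff₀ hs0]; norm_num; linarith
  have h3 : ub k (s ^ 2) * D2 (s ^ 2) (Blo k (s ^ 2)) ≤ 0.04 * 0.19 := by gcongr
  unfold m2
  rw [e] at h2
  norm_num at h2 h3 ⊢
  linarith

end Pool.Agent.Lib.MP_2347b2_mp.F
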