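import Pool.Agent.Lib.MP_2347b2_mp.F.BigA
import Pool.Agent.Lib.MP_2347b2_mp.F.BigB

namespace Pool.Agent.Lib.MP_2347b2_mp.F

theorem bg_mc {s : ℝ} {k : ℕ} (hs : 200 ≤ s) (hk : 2 ≤ k) (hks : (k : ℝ) ≤ 1.4143 * s) :
    mc k (s ^ 2) ≤ 8.1 / k ^ 2 + 1.114 * s * ek k + 0.1 := by
  have he := ek_nonneg hk
  have h0 : 0 ≤ 8.1 / (k : ℝ) ^ 2 := by positivity
  have h1 : 0 ≤ 1.114 * s * ek k := mul_nonneg (by linarith) he
  unfold mc
  split_ifs with c1 c2
  · linarith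
  · exact bg_m1 hs hk c2.2
  · have h2 : 100 ≤ s ^ 2 := by nlinarith
    have h3 : s ^ 2 / 2 < Uk k := by
      by_contra hc
      exact c2 ⟨h2, not_lt.mp hc⟩
    have := bg_m2 hs h3 hks
    linarith

theorem bg_zero {s : ℝ} {k : ℕ} (hs : 200 ≤ s) (hks : 1.4143 * s ≤ k) : mc k (s ^ 2) = 0 := by
  refine Iv.mc_deep (Iv.deep_of_sq ?_ ?_)
  · exact_mod_cast (by linarith : (3 : ℝ) ≤ k)
  · have : (1.4143 * s) ^ 2 ≤ (k : ℝ) ^ 2 := by gcongr
    nlinarith [sq_nonneg s]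

theorem ek_tele {x : ℝ} (hx : 0 ≤ x) :
    (2 * (x + 2) + 1) / (2 * ((x + 2) ^ 2 - 1) * (x + 2) * (x + 2 + 2))
      = (1 / ((x + 1) * (x + 3)) - 1 / ((x + 2) * (x + 4))) / 2 := by
  have e : (x + 2) ^ 2 - 1 = (x + 1) * (x + 3) := by ring
  rw [e]
  field_simp
  ring

theorem bg_sum {s : ℝ} (hs : 200 ≤ s) (n : ℕ) :
    ∑ k ∈ Finset.Icc 2 (n + 1), mc k (s ^ 2) ≤ 8.1 * (2 / 3 - 1 / (n + 3 / 2))
      + 1.114 * s * ((1 / 3 - 1 / ((n + 1) * (n + 3))) / 2) + 0.1 * min (n : ℝ) (1.4143 * s) := by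
  induction n with
  | zero =>
    rw [Finset.Icc_eq_empty (by norm_num), Finset.sum_empty, Nat.cast_zero,
      min_eq_left (by linarith)]
    norm_num
  | succ n ih =>
    rw [Finset.sum_Icc_succ_top (by omega)]
    have hn : (0 : ℝ) ≤ n := Nat.cast_nonneg n
    have e1 : ek (n + 1 + 1) = (1 / (((n : ℝ) + 1) * (n + 3)) - 1 / ((n + 2) * (n + 4))) / 2 := by
      rw [← ek_tele hn]; unfold ek; push_cast; ring
    have e2 : 1 / ((n : ℝ) + 2) ^ 2 ≤ 1 / (n + 3 / 2) - 1 / (n + 1 + 3 / 2) := by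
      rw [div_sub_div _ _ (by positivity) (by positivity),
        div_le_div_iff₀ (by positivity) (by positivity)]
      nlinarith
    have e3 : ((n : ℝ) + 1 + 1) * (n + 1 + 3) = (n + 2) * (n + 4) := by ring
    have he := ek_nonneg (k := n + 1 + 1) (by omega)
    have e4 : 0 ≤ 1 / ((n : ℝ) + 2) ^ 2 := by positivity
    have e5 : 1.114 * s * ((1 / 3 - 1 / (((n : ℝ) + 2) * (n + 4))) / 2)
        = 1.114 * s * ((1 / 3 - 1 / ((n + 1) * (n + 3))) / 2) + 1.114 * s * ek (n + 1 + 1) := by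
      rw [e1]; ring
    push_cast
    rw [e3, e5]
    rcases le_total ((n + 1 + 1 : ℕ) : ℝ) (1.4143 * s) with hc | hc
    · have h1 := bg_mc hs (by omega) hc
      push_cast at hc h1
      rw [min_eq_left (by linarith)] at ih ⊢
      have e6 : 8.1 / ((n : ℝ) + 1 + 1) ^ 2 = 8.1 * (1 / (n + 2) ^ 2) := by ring
      linarith
    · rw [bg_zero hs hc]
      have h1 : min (n : ℝ) (1.4143 * s) ≤ min ((n : ℝ) + 1) (1.4143 * s) :=
        min_le_min (by linarith) le_rfl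
      have h2 : 0 ≤ 1.114 * s * ek (n + 1 + 1) := mul_nonneg (by linarith) he
      linarith

theorem big_sum {R : ℝ} (hR : 400 ≤ R) (K : ℕ) :
    1 + ∑ k ∈ Finset.Icc 2 K, mc k R ≤ 0.45 * √R - 2.1 := by
  rcases le_total R 40000 with h | h
  · exact Iv.big_low hR h K
  have hs : 200 ≤ √R := Real.le_sqrt_of_sq_le (by linarith)
  have e : R = √R ^ 2 := (Real.sq_sqrt (by linarith)).symm
  generalize √R = s at hs e
  subst e
  rcases K with _ | n
  · rw [Finset.Icc_eq_empty (by norm_num), Finset.sum_empty]; linarith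
  have h1 := bg_sum hs n
  have h2 : 0 ≤ 1 / ((n : ℝ) + 3 / 2) := by positivity
  have h3 : 0 ≤ s * (1 / (((n : ℝ) + 1) * (n + 3))) := mul_nonneg (by linarith) (by positivity)
  have h4 := min_le_right (n : ℝ) (1.4143 * s)
  nlinarith

theorem deep_of_large {R : ℝ} (hR : R ≤ 900) {k : ℕ} (hk : 45 < k) : Deep k R := by
  refine Iv.deep_of_sq (by omega) ?_
  have : (45 : ℝ) ≤ k := by exact_mod_cast hk.le
  nlinarith

end Pool.Agent.Lib.MP_2347b2_mp.F
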