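import Pool.Agent.Lib.MP_2347b2_mp.F.NumMc

/-!
The elementary inequality on the interval from `400` to `40000`.
-/

namespace Pool.Agent.Lib.MP_2347b2_mp.F.Iv

variable {R : ℝ} {r : I}

theorem deep_of_sq {k : ℕ} (hk : 3 ≤ k) (h : 2 * R ≤ (k : ℝ) ^ 2) : Deep k R := by
  unfold Deep
  have hk' : (3 : ℝ) ≤ k := by exact_mod_cast hk
  have h1 : √((k : ℝ) + 1) ≤ k := Real.sqrt_le_iff.mpr ⟨by linarith, by nlinarith⟩
  have h2 : 2 / (k : ℝ) ≤ 1 := by rw [div_le_one (by linarith)]; linarith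
  linarith

theorem mc_deep {k : ℕ} (h : Deep k R) : mc k R = 0 := by unfold mc; rw [if_pos h]

theorem imc_zero (k : ℕ) (h : In R r) : In 0 (imc k r) := by
  unfold imc
  have h1 := im1_in k h
  have h2 := im2_in k h
  cases deepB k r with
  | true => exact zero_in
  | false =>
    cases (le (nat 100) r && le (iUk k) (div r (nat 2))) with
    | true => exact frc_in (hull_in h1 h1 (Or.inr (Or.inr rfl)))
    | false =>
      cases (lt r (nat 100) || lt (div r (nat 2)) (iUk k)) with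
      | true => exact frc_in (hull_in h2 h2 (Or.inr (Or.inr rfl)))
      | false => exact hull_in h1 h2 (Or.inr (Or.inr rfl))

theorem isum_in_le (a : ℕ) (h : In R r) (n : ℕ) :
    ∀ m ≤ n, In (∑ j ∈ Finset.range m, mc (a + j) R) (isum a r n) := by
  induction n with
  | zero => intro m hm; obtain rfl : m = 0 := by omega
            exact isum_in a h 0
  | succ n ih =>
    intro m hm
    rcases Nat.lt_or_ge n m with hc | hc
    · obtain rfl : m = n + 1 := by omega
      exact isum_in a h (n + 1)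
    · exact (add_in (ih m hc) (imc_zero (a + n) h)).congr (add_zero _).symm

theorem sum_cut {n : ℕ} (hn : 1 ≤ n) (h : 2 * R ≤ ((n : ℝ) + 2) ^ 2) (K : ℕ) :
    ∃ m ≤ n, ∑ k ∈ Finset.Icc 2 K, mc k R = ∑ j ∈ Finset.range m, mc (2 + j) R := by
  have e : ∑ k ∈ Finset.Icc 2 K, mc k R = ∑ j ∈ Finset.range (K - 1), mc (2 + j) R := by
    rw [← Finset.Ico_add_one_right_eq_Icc, Finset.sum_Ico_eq_sum_range]
    congr 2
  rcases le_total (K - 1) n with hc | hc
  · exact ⟨_, hc, e⟩
  · refine ⟨n, le_rfl, ?_⟩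
    rw [e]
    symm
    refine Finset.sum_subset (Finset.range_subset_range.mpr hc) fun j _ hj => ?_
    have hj' : n ≤ j := by simpa using hj
    refine mc_deep (deep_of_sq (by omega) (h.trans ?_))
    have : (n : ℝ) ≤ j := by exact_mod_cast hj'
    have h0 : (0 : ℝ) ≤ n := Nat.cast_nonneg n
    push_cast
    nlinarith

/-- check on one box -/
def chkB (a b : ℕ) : Bool :=
  le (frc (box a b 1) fun r => add (isum 2 r (sqU (2 * b))) (q 31 10))
    (mul (q 45 100) (sqrt (box a b 1)))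

theorem of_chkB {a b : ℕ} (h : chkB a b = true) (ha : (a : ℝ) ≤ R) (hb : R ≤ b) (K : ℕ) :
    1 + ∑ k ∈ Finset.Icc 2 K, mc k R ≤ 0.45 * √R - 2.1 := by
  have hR : In R (box a b 1) := box_in (by simpa using ha) (by simpa using hb)
  have h0 : 2 * R ≤ ((sqU (2 * b) : ℝ) + 2) ^ 2 := by
    have h3 : ((2 * b : ℕ) : ℝ) ≤ (sqU (2 * b) : ℝ) * sqU (2 * b) := by exact_mod_cast le_sqU _
    have h4 : (0 : ℝ) ≤ sqU (2 * b) := Nat.cast_nonneg _
    push_cast at h3
    nlinarith
  obtain ⟨m, hm, e⟩ := sum_cut (sqU_pos _) h0 K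
  have h1 : In _ (frc (box a b 1) fun r => add (isum 2 r (sqU (2 * b))) (q 31 10)) :=
    frc_in (f := fun r => add (isum 2 r (sqU (2 * b))) (q 31 10))
      (add_in (isum_in_le 2 hR _ m hm) (q_in 31 10))
  have h2 := le_of h1 (mul_in (q_in 45 100) (sqrt_in hR)) h
  rw [e]
  generalize ∑ j ∈ Finset.range m, mc (2 + j) R = t at h2 ⊢
  push_cast at h2
  linarith

/-- check on consecutive boxes -/
def runB : ℕ → List ℕ → Bool
  | _, [] => true
  | a, b :: l => chkB a b && runB b l

theorem runB_cons (a b : ℕ) (l : List ℕ) : runB a (b :: l) = (chkB a b && runB b l) := by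
  rw [runB]

theorem of_runB (K : ℕ) (l : List ℕ) (a b : ℕ) (h : runB a (b :: l) = true) (ha : (a : ℝ) ≤ R)
    (hb : R ≤ (b :: l).getLast (List.cons_ne_nil _ _)) :
    1 + ∑ k ∈ Finset.Icc 2 K, mc k R ≤ 0.45 * √R - 2.1 := by
  induction l generalizing a b with
  | nil =>
    rw [runB_cons, Bool.and_eq_true] at h
    exact of_chkB h.1 ha hb K
  | cons c l ih =>
    rw [runB_cons, Bool.and_eq_true] at h
    rcases le_total R b with hc | hc
    · exact of_chkB h.1 ha hc K
    · exact ih b c h.2 hc hb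

theorem runB_a : runB 400 [410, 420, 432, 446, 465, 490, 520, 560, 610, 670, 750, 850, 980, 1150,
    1370, 1650, 2000, 2500, 3100, 3900, 5000, 6400, 8200, 10500, 13500, 17500, 23000, 30000,
    40000] = true := by decide +kernel

theorem big_low (hR : 400 ≤ R) (hR' : R ≤ 40000) (K : ℕ) :
    1 + ∑ k ∈ Finset.Icc 2 K, mc k R ≤ 0.45 * √R - 2.1 :=
  of_runB K _ _ _ runB_a (by simpa using hR) (by simpa using hR')

end Pool.Agent.Lib.MP_2347b2_mp.F.Iv
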