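import Pool.Agent.Lib.MP_2347b2_mp.F.CBasic

namespace Pool.Agent.Lib.MP_2347b2_mp.F

open MeasureTheory Set Filter Topology Complex

variable {γ l : ℝ}

theorem mu_diff : DifferentiableOn ℂ mu UV := by
  have h : MapsTo (fun ε : ℂ => -ε) UV slitPlane := by
    intro ε hε
    rcases hε.2 with h | h
    · left
      simpa using h
    · right
      simpa using h.ne'
  exact Complex.differentiableOn_sqrt.comp differentiable_neg.differentiableOn h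

theorem can_Ec (h1 : γ ^ 2 ≤ 1) : DifferentiableOn ℂ (Ec γ) UV :=
  (Ec_diff h1).mono fun _ h => h.1

theorem can_cc_diff (h1 : γ ^ 2 ≤ 1) (l : ℝ) (j : ℕ) :
    DifferentiableOn ℂ (fun ε => cc γ l ε j) UV := by
  induction j with
  | zero => simp [cc]
  | succ j ih =>
    simp only [cc]
    exact (ih.mul (((mu_diff.const_mul 2).mul_const _).sub ((can_Ec h1).const_mul 2))).div_const _

theorem can_norm_le {z w : ℂ} (h : z ^ 2 = w) : ‖z‖ ≤ 1 + ‖w‖ := by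
  have h2 : ‖z‖ ^ 2 = ‖w‖ := by rw [← h, norm_pow]
  nlinarith [norm_nonneg z, sq_nonneg (‖z‖ - 1)]

theorem can_cc_bound (h1 : γ ^ 2 ≤ 1) (hl : -1 < l) (B : ℝ) :
    ∃ c : ℝ, 0 ≤ c ∧ ∀ ε : ℂ, ‖ε‖ ≤ B → ∀ j : ℕ, ‖cc γ l ε j‖ ≤ c ^ j / j.factorial := by
  have hl2 : 0 < 2 * l + 2 := by linarith
  have hK : 0 < 1 + 1 / (2 * l + 2) := by positivity
  refine ⟨2 * (2 + |B|) * (1 + 1 / (2 * l + 2)), by positivity, fun ε hε j => ?_⟩
  set c := 2 * (2 + |B|) * (1 + 1 / (2 * l + 2)) with hc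
  have hc0 : 0 ≤ c := by positivity
  have hB : ‖ε‖ ≤ |B| := hε.trans (le_abs_self B)
  have hm : ‖mu ε‖ ≤ 2 + |B| := by
    have := can_norm_le (mu_sq ε)
    rw [norm_neg] at this
    linarith
  have hE : ‖Ec γ ε‖ ≤ 2 + |B| := by
    have h := can_norm_le (Ec_sq γ ε)
    have h2 : ‖(1 : ℂ) + γ ^ 2 * ε‖ ≤ 1 + ‖ε‖ := by
      refine (norm_add_le _ _).trans ?_
      rw [norm_one, norm_mul, norm_pow, Complex.norm_real, Real.norm_eq_abs, sq_abs]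
      nlinarith [norm_nonneg ε]
    linarith
  induction j with
  | zero => simp [cc]
  | succ j ih =>
    have hj : (0 : ℝ) ≤ j := Nat.cast_nonneg j
    have e1 : ((j : ℂ) + l + 1) = ((j + l + 1 : ℝ) : ℂ) := by push_cast; ring
    have e2 : ((j : ℂ) + 1) * (j + 2 * l + 2) = (((j + 1) * (j + 2 * l + 2) : ℝ) : ℂ) := by
      push_cast; ring
    have p1 : (0 : ℝ) < j + l + 1 := by linarith
    have p2 : (0 : ℝ) < j + 2 * l + 2 := by linarith
    have p3 : (0 : ℝ) < (j + 1) * (j + 2 * l + 2) := by positivity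
    have n1 : ‖2 * mu ε * (j + l + 1) - 2 * Ec γ ε‖ ≤ 2 * (2 + |B|) * (j + l + 2) := by
      refine (norm_sub_le _ _).trans ?_
      rw [e1, norm_mul, norm_mul, norm_mul, Complex.norm_real, Real.norm_eq_abs, abs_of_pos p1]
      have : ‖(2 : ℂ)‖ = 2 := by simp
      rw [this]
      nlinarith [mul_le_mul_of_nonneg_right hm p1.le]
    have n2 : (j : ℝ) + l + 2 ≤ (1 + 1 / (2 * l + 2)) * (j + 2 * l + 2) := by
      have : 1 ≤ 1 / (2 * l + 2) * (j + 2 * l + 2) := by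
        rw [div_mul_eq_mul_div, le_div_iff₀ hl2]
        linarith
      linarith
    have n3 : ‖2 * mu ε * (j + l + 1) - 2 * Ec γ ε‖ ≤ c * (j + 2 * l + 2) := by
      refine n1.trans ?_
      rw [hc, mul_assoc (2 * (2 + |B|))]
      exact mul_le_mul_of_nonneg_left n2 (by positivity)
    have hf : (0 : ℝ) < j.factorial := by exact_mod_cast j.factorial_pos
    simp only [cc]
    rw [norm_div, norm_mul, e2, Complex.norm_real, Real.norm_eq_abs, abs_of_pos p3,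
      div_le_iff₀ p3]
    calc _ ≤ c ^ j / j.factorial * (c * (j + 2 * l + 2)) :=
          mul_le_mul ih n3 (norm_nonneg _) (by positivity)
      _ = _ := by
          rw [Nat.factorial_succ]
          push_cast
          field_simp
          ring

/-- the bound used for both series -/
def CanBd (a : ℕ → ℂ → ℂ) : Prop :=
  ∀ B : ℝ, ∃ c d : ℝ, 0 ≤ c ∧ ∀ ε : ℂ, ‖ε‖ ≤ B → ∀ j : ℕ, ‖a j ε‖ ≤ d * (c ^ j / j.factorial)

theorem can_term {a : ℕ → ℂ → ℂ} {c d B R r : ℝ} {ε : ℂ}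
    (h : ∀ ε : ℂ, ‖ε‖ ≤ B → ∀ j : ℕ, ‖a j ε‖ ≤ d * (c ^ j / j.factorial))
    (hε : ‖ε‖ ≤ B) (hr : |r| ≤ R) (j : ℕ) :
    ‖a j ε * (r : ℂ) ^ j‖ ≤ d * ((c * R) ^ j / j.factorial) := by
  have h2 := h ε hε j
  rw [norm_mul, norm_pow, Complex.norm_real, Real.norm_eq_abs]
  calc _ ≤ d * (c ^ j / j.factorial) * R ^ j :=
        mul_le_mul h2 (pow_le_pow_left₀ (abs_nonneg r) hr j) (by positivity)
          ((norm_nonneg _).trans h2)
    _ = _ := by rw [mul_pow]; ring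

theorem can_cont {a : ℕ → ℂ → ℂ} (hd : ∀ j, DifferentiableOn ℂ (a j) UV) (hb : CanBd a) :
    ContinuousOn (fun p : ℂ × ℝ => ∑' j, a j p.1 * (p.2 : ℂ) ^ j) (UV ×ˢ univ) := by
  intro p hp
  obtain ⟨c, d, -, h⟩ := hb (‖p.1‖ + 1)
  have hs : IsOpen ((UV ∩ Metric.ball 0 (‖p.1‖ + 1)) ×ˢ Metric.ball (0 : ℝ) (|p.2| + 1)) :=
    (isOpen_UV.inter Metric.isOpen_ball).prod Metric.isOpen_ball
  have hm : p ∈ (UV ∩ Metric.ball 0 (‖p.1‖ + 1)) ×ˢ Metric.ball (0 : ℝ) (|p.2| + 1) :=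
    ⟨⟨hp.1, by simp⟩, by simp⟩
  have hc : ContinuousOn (fun p : ℂ × ℝ => ∑' j, a j p.1 * (p.2 : ℂ) ^ j)
      ((UV ∩ Metric.ball 0 (‖p.1‖ + 1)) ×ˢ Metric.ball (0 : ℝ) (|p.2| + 1)) := by
    have hu : Summable fun j : ℕ => d * ((c * (|p.2| + 1)) ^ j / j.factorial) :=
      (Real.summable_pow_div_factorial _).mul_left d
    refine continuousOn_tsum (f := fun j (q : ℂ × ℝ) => a j q.1 * (q.2 : ℂ) ^ j)
      (fun j => ?_) hu (fun j q hq => ?_)
    · have c1 : ContinuousOn (fun q : ℂ × ℝ => a j q.1)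
          ((UV ∩ Metric.ball 0 (‖p.1‖ + 1)) ×ˢ Metric.ball (0 : ℝ) (|p.2| + 1)) :=
        (hd j).continuousOn.comp continuousOn_fst fun q hq => hq.1.1
      have c2 : Continuous fun q : ℂ × ℝ => (q.2 : ℂ) ^ j :=
        (Complex.continuous_ofReal.comp continuous_snd).pow j
      have c3 := c1.mul c2.continuousOn
      exact c3
    · refine can_term h ?_ ?_ j
      · simpa using (mem_ball_zero_iff.1 hq.1.2).le
      · simpa using (mem_ball_zero_iff.1 hq.2).le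
  exact (hc.continuousAt (hs.mem_nhds hm)).continuousWithinAt

theorem can_diff {a : ℕ → ℂ → ℂ} (hd : ∀ j, DifferentiableOn ℂ (a j) UV) (hb : CanBd a) (r : ℝ) :
    DifferentiableOn ℂ (fun ε => ∑' j, a j ε * (r : ℂ) ^ j) UV := by
  intro z hz
  obtain ⟨c, d, -, h⟩ := hb (‖z‖ + 1)
  have hs : IsOpen (UV ∩ Metric.ball 0 (‖z‖ + 1)) := isOpen_UV.inter Metric.isOpen_ball
  have hm : z ∈ UV ∩ Metric.ball 0 (‖z‖ + 1) := ⟨hz, by simp⟩
  have hu : Summable fun j : ℕ => d * ((c * |r|) ^ j / j.factorial) :=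
    (Real.summable_pow_div_factorial _).mul_left d
  have hc : DifferentiableOn ℂ (fun ε => ∑' j, a j ε * (r : ℂ) ^ j)
      (UV ∩ Metric.ball 0 (‖z‖ + 1)) :=
    Complex.differentiableOn_tsum_of_summable_norm (F := fun j ε => a j ε * (r : ℂ) ^ j) hu
      (fun j => ((hd j).mono inter_subset_left).mul_const _) hs
      (fun j w hw => can_term h (mem_ball_zero_iff.1 hw.2).le le_rfl j)
  exact (hc.differentiableAt (hs.mem_nhds hm)).differentiableWithinAt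

theorem can_bd1 (h1 : γ ^ 2 ≤ 1) (hl : -1 < l) : CanBd fun j ε => cc γ l ε j := by
  intro B
  obtain ⟨c, hc, h⟩ := can_cc_bound h1 hl B
  exact ⟨c, 1, hc, fun ε hε j => by simpa using h ε hε j⟩

theorem can_bd2 (h1 : γ ^ 2 ≤ 1) (hl : -1 < l) :
    CanBd fun j ε => ((j : ℂ) + 1) * cc γ l ε (j + 1) := by
  intro B
  obtain ⟨c, hc, h⟩ := can_cc_bound h1 hl B
  refine ⟨c, c, hc, fun ε hε j => ?_⟩
  have e : ((j : ℂ) + 1) = ((j + 1 : ℝ) : ℂ) := by push_cast; ring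
  have p : (0 : ℝ) < j + 1 := by positivity
  have hf : (0 : ℝ) < j.factorial := by exact_mod_cast j.factorial_pos
  rw [norm_mul, e, Complex.norm_real, Real.norm_eq_abs, abs_of_pos p]
  calc _ ≤ (j + 1) * (c ^ (j + 1) / (j + 1).factorial) :=
        mul_le_mul_of_nonneg_left (h ε hε (j + 1)) p.le
    _ = _ := by
        rw [Nat.factorial_succ]
        push_cast
        field_simp
        ring

theorem ser_cont2 (h1 : γ ^ 2 ≤ 1) (hl : -1 < l) :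
    ContinuousOn (fun p : ℂ × ℝ => ser γ l p.1 p.2) (UV ×ˢ univ) := by
  exact can_cont (a := fun j ε => cc γ l ε j) (can_cc_diff h1 l) (can_bd1 h1 hl)

theorem serD_cont2 (h1 : γ ^ 2 ≤ 1) (hl : -1 < l) :
    ContinuousOn (fun p : ℂ × ℝ => serD γ l p.1 p.2) (UV ×ˢ univ) := by
  exact can_cont (a := fun j ε => ((j : ℂ) + 1) * cc γ l ε (j + 1))
    (fun j => (can_cc_diff h1 l (j + 1)).const_mul _) (can_bd2 h1 hl)

theorem ser_diff (h1 : γ ^ 2 ≤ 1) (hl : -1 < l) (r : ℝ) :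
    DifferentiableOn ℂ (fun ε => ser γ l ε r) UV := by
  exact can_diff (a := fun j ε => cc γ l ε j) (can_cc_diff h1 l) (can_bd1 h1 hl) r

theorem serD_diff (h1 : γ ^ 2 ≤ 1) (hl : -1 < l) (r : ℝ) :
    DifferentiableOn ℂ (fun ε => serD γ l ε r) UV := by
  exact can_diff (a := fun j ε => ((j : ℂ) + 1) * cc γ l ε (j + 1))
    (fun j => (can_cc_diff h1 l (j + 1)).const_mul _) (can_bd2 h1 hl) r

theorem can_mu2 (s : Set ℝ) : ContinuousOn (fun p : ℂ × ℝ => mu p.1) (UV ×ˢ s) :=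
  mu_diff.continuousOn.comp continuousOn_fst fun _ hq => hq.1

theorem can_r2 : Continuous fun p : ℂ × ℝ => (p.2 : ℂ) := by fun_prop

theorem can_exp2 (s : Set ℝ) :
    ContinuousOn (fun p : ℂ × ℝ => exp (-(mu p.1 * p.2))) (UV ×ˢ s) :=
  ((can_mu2 s).mul can_r2.continuousOn).neg.cexp

theorem can_pow2 (t : ℝ) :
    ContinuousOn (fun p : ℂ × ℝ => ((p.2 ^ t : ℝ) : ℂ)) (UV ×ˢ Ioi 0) :=
  Complex.continuous_ofReal.comp_continuousOn
    (continuousOn_snd.rpow_const fun _ hq => Or.inl (ne_of_gt hq.2))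

theorem can_expd (r : ℝ) : DifferentiableOn ℂ (fun ε => exp (-(mu ε * r))) UV :=
  (mu_diff.mul_const _).neg.cexp

theorem ph_cont2 (h1 : γ ^ 2 ≤ 1) (hl : -1 < l) :
    ContinuousOn (fun p : ℂ × ℝ => ph γ l p.1 p.2) (UV ×ˢ Ioi 0) := by
  exact ((can_pow2 _).mul (can_exp2 _)).mul
    ((ser_cont2 h1 hl).mono (prod_mono_right (subset_univ _)))

theorem phD_cont2 (h1 : γ ^ 2 ≤ 1) (hl : -1 < l) :
    ContinuousOn (fun p : ℂ × ℝ => phD γ l p.1 p.2) (UV ×ˢ Ioi 0) := by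
  have c1 : ContinuousOn (fun p : ℂ × ℝ => ((l : ℂ) + 1) / p.2) (UV ×ˢ Ioi 0) :=
    ContinuousOn.div continuousOn_const can_r2.continuousOn fun q hq =>
      Complex.ofReal_ne_zero.2 (ne_of_gt hq.2)
  have c2 : ContinuousOn (fun p : ℂ × ℝ => ser γ l p.1 p.2) (UV ×ˢ Ioi 0) :=
    (ser_cont2 h1 hl).mono (prod_mono_right (subset_univ _))
  have c3 : ContinuousOn (fun p : ℂ × ℝ => serD γ l p.1 p.2) (UV ×ˢ Ioi 0) :=
    (serD_cont2 h1 hl).mono (prod_mono_right (subset_univ _))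
  have c4 := ((c1.sub (can_mu2 _)).mul c2).add c3
  have c5 := ((can_pow2 (l + 1)).mul (can_exp2 _)).mul c4
  exact c5

theorem ph_diff (h1 : γ ^ 2 ≤ 1) (hl : -1 < l) (r : ℝ) :
    DifferentiableOn ℂ (fun ε => ph γ l ε r) UV := by
  exact ((can_expd r).const_mul _).mul (ser_diff h1 hl r)

theorem phD_diff (h1 : γ ^ 2 ≤ 1) (hl : -1 < l) (r : ℝ) :
    DifferentiableOn ℂ (fun ε => phD γ l ε r) UV := by
  exact ((can_expd r).const_mul _).mul
    (((mu_diff.const_sub _).mul (ser_diff h1 hl r)).add (serD_diff h1 hl r))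

theorem can_lip {g : ℂ → ℝ → ℂ} (hc : ContinuousOn (fun p : ℂ × ℝ => g p.1 p.2) (UV ×ˢ univ))
    (hd : ∀ r, DifferentiableOn ℂ (fun ε => g ε r) UV) {ε₀ : ℂ} {δ : ℝ} (hδ : 0 < δ)
    (hs : Metric.closedBall ε₀ δ ⊆ UV) (M : ℝ) :
    ∃ C : ℝ, ∀ ε : ℂ, ‖ε - ε₀‖ < δ → ∀ r ∈ Icc 0 M,
      ‖g ε r - g ε₀ r‖ ≤ C * ‖ε - ε₀‖ ∧ ‖g ε r‖ ≤ C := by
  have hK : IsCompact (Metric.closedBall ε₀ δ ×ˢ Icc (0 : ℝ) M) :=
    (isCompact_closedBall _ _).prod isCompact_Icc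
  obtain ⟨N, hN⟩ := hK.exists_bound_of_continuousOn (hc.mono (prod_mono hs (subset_univ _)))
  refine ⟨max (2 * N / δ) N, fun ε hε r hr => ?_⟩
  have hb : ε ∈ Metric.ball ε₀ δ := by rwa [Metric.mem_ball, dist_eq_norm]
  refine ⟨?_, (hN (ε, r) ⟨Metric.ball_subset_closedBall hb, hr⟩).trans (le_max_right _ _)⟩
  have hm : MapsTo (fun ε => g ε r) (Metric.ball ε₀ δ) (Metric.closedBall (g ε₀ r) (2 * N)) := by
    intro z hz
    rw [Metric.mem_closedBall, dist_eq_norm]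
    have a1 := hN (z, r) ⟨Metric.ball_subset_closedBall hz, hr⟩
    have a2 := hN (ε₀, r) ⟨Metric.mem_closedBall_self hδ.le, hr⟩
    have a3 := norm_sub_le (g z r) (g ε₀ r)
    simp only at a1 a2
    linarith
  have h := Complex.dist_le_div_mul_dist_of_mapsTo_ball
    ((hd r).mono (Metric.ball_subset_closedBall.trans hs)) hm hb
  rw [dist_eq_norm, dist_eq_norm] at h
  exact h.trans (mul_le_mul_of_nonneg_right (le_max_left _ _) (norm_nonneg _))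

/-- Lipschitz dependence on the spectral parameter, uniformly down to the origin -/
theorem ph_lip (h1 : γ ^ 2 ≤ 1) (hl : -1 < l) {ε₀ : ℂ} (h0 : ε₀ ∈ UV) (M : ℝ) :
    ∃ C δ : ℝ, 0 < δ ∧ ∀ ε : ℂ, ‖ε - ε₀‖ < δ → ε ∈ UV ∧ ∀ r ∈ Ioc 0 M,
      ‖ph γ l ε r - ph γ l ε₀ r‖ ≤ C * ‖ε - ε₀‖ * r ^ (l + 1) ∧
      ‖phD γ l ε r - phD γ l ε₀ r‖ ≤ C * ‖ε - ε₀‖ * r ^ l ∧
      ‖ph γ l ε r‖ ≤ C * r ^ (l + 1) ∧ ‖phD γ l ε r‖ ≤ C * r ^ l := by
  obtain ⟨δ, hδ, hs⟩ := Metric.nhds_basis_closedBall.mem_iff.1 (isOpen_UV.mem_nhds h0)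
  obtain ⟨C1, k1⟩ := can_lip (g := fun ε r => exp (-(mu ε * r)) * ser γ l ε r)
    ((can_exp2 _).mul (ser_cont2 h1 hl)) (fun r => (can_expd r).mul (ser_diff h1 hl r)) hδ hs M
  have c0 : ContinuousOn (fun _ : ℂ × ℝ => ((l : ℂ) + 1)) (UV ×ˢ univ) := continuousOn_const
  have c1 := c0.sub ((can_mu2 univ).mul can_r2.continuousOn)
  have c2 := (can_exp2 univ).mul
    ((c1.mul (ser_cont2 h1 hl)).add (can_r2.continuousOn.mul (serD_cont2 h1 hl)))
  have c3 := fun r : ℝ => (can_expd r).mul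
    ((((mu_diff.mul_const (r : ℂ)).const_sub ((l : ℂ) + 1)).mul (ser_diff h1 hl r)).add
      ((serD_diff h1 hl r).const_mul (r : ℂ)))
  obtain ⟨C2, k2⟩ := can_lip
    (g := fun ε r => exp (-(mu ε * r)) * ((l + 1 - mu ε * r) * ser γ l ε r + r * serD γ l ε r))
    c2 c3 hδ hs M
  refine ⟨max C1 C2, δ, hδ, fun ε hε => ⟨hs ?_, fun r hr => ?_⟩⟩
  · rw [Metric.mem_closedBall, dist_eq_norm]
    exact hε.le
  have hr0 : 0 < r := hr.1
  have hrc : (r : ℂ) ≠ 0 := Complex.ofReal_ne_zero.2 hr0.ne'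
  obtain ⟨a1, a2⟩ := k1 ε hε r ⟨hr0.le, hr.2⟩
  obtain ⟨b1, b2⟩ := k2 ε hε r ⟨hr0.le, hr.2⟩
  have p1 : 0 < r ^ (l + 1) := Real.rpow_pos_of_pos hr0 _
  have p0 : 0 < r ^ l := Real.rpow_pos_of_pos hr0 _
  have e1 : ∀ z : ℂ, ph γ l z r = (r ^ (l + 1) : ℝ) * (exp (-(mu z * r)) * ser γ l z r) :=
    fun z => by rw [ph, mul_assoc]
  have e2 : ∀ z : ℂ, phD γ l z r = (r ^ l : ℝ) *
      (exp (-(mu z * r)) * ((l + 1 - mu z * r) * ser γ l z r + r * serD γ l z r)) := fun z => by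
    rw [phD, Real.rpow_add_one hr0.ne']
    push_cast
    field_simp
  have m1 : C1 ≤ max C1 C2 := le_max_left _ _
  have m2 : C2 ≤ max C1 C2 := le_max_right _ _
  have hn := norm_nonneg (ε - ε₀)
  refine ⟨?_, ?_, ?_, ?_⟩
  · rw [e1, e1, ← mul_sub, norm_mul, Complex.norm_real, Real.norm_eq_abs, abs_of_pos p1, mul_comm]
    exact mul_le_mul_of_nonneg_right (a1.trans (mul_le_mul_of_nonneg_right m1 hn)) p1.le
  · rw [e2, e2, ← mul_sub, norm_mul, Complex.norm_real, Real.norm_eq_abs, abs_of_pos p0, mul_comm]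
    exact mul_le_mul_of_nonneg_right (b1.trans (mul_le_mul_of_nonneg_right m2 hn)) p0.le
  · rw [e1, norm_mul, Complex.norm_real, Real.norm_eq_abs, abs_of_pos p1, mul_comm]
    exact mul_le_mul_of_nonneg_right (a2.trans m1) p1.le
  · rw [e2, norm_mul, Complex.norm_real, Real.norm_eq_abs, abs_of_pos p0, mul_comm]
    exact mul_le_mul_of_nonneg_right (b2.trans m2) p0.le

end Pool.Agent.Lib.MP_2347b2_mp.F
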