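import Pool.Agent.Lib.MP_2347b2_mp.F.Defs

namespace Pool.Agent.Lib.MP_2347b2_mp.F

open MeasureTheory Set Filter Topology Complex

variable {γ l : ℝ} {ε : ℂ}

theorem csqrt_sq (z : ℂ) : Complex.sqrt z ^ 2 = z := cpow_ofNat_inv_pow z 2

theorem csqrt_re_nonneg (z : ℂ) : 0 ≤ (Complex.sqrt z).re := by
  rw [Complex.sqrt, cpow_inv_two_re]
  exact Real.sqrt_nonneg _

theorem mu_sq (ε : ℂ) : mu ε ^ 2 = -ε := by
  exact csqrt_sq _

theorem Ec_sq (γ : ℝ) (ε : ℂ) : Ec γ ε ^ 2 = 1 + γ ^ 2 * ε := by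
  exact csqrt_sq _

theorem UU_subset : UU ⊆ UV := by
  exact fun _ h => ⟨h.1, .inr h.2⟩

theorem isOpen_UU : IsOpen UU := by
  exact (isOpen_lt continuous_const continuous_re).inter (isOpen_lt continuous_const continuous_im)

theorem isOpen_UV : IsOpen UV := by
  exact (isOpen_lt continuous_const continuous_re).inter
    ((isOpen_lt continuous_re continuous_const).union (isOpen_lt continuous_const continuous_im))

theorem Sides_subset {T : ℝ} (hT : 0 < T) : Sides T ⊆ UU := by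
  rintro z (⟨h | h, h1, -⟩ | ⟨h, -, h1⟩)
  · exact ⟨by rw [h]; norm_num, h1⟩
  · exact ⟨by rw [h]; norm_num, h1⟩
  · exact ⟨by linarith, h1 ▸ hT⟩

theorem Ell_subset {T : ℝ} : Ell T ⊆ Sides T := by
  exact union_subset_union_left _ fun _ h => ⟨.inl h.1, h.2⟩

theorem Ec_re_nonneg (γ : ℝ) (ε : ℂ) : 0 ≤ (Ec γ ε).re := csqrt_re_nonneg _

theorem Ec_re_sq (γ : ℝ) (ε : ℂ) : (Ec γ ε).re ^ 2 = 1 + γ ^ 2 * ε.re + (Ec γ ε).im ^ 2 := by
  have := congrArg re (Ec_sq γ ε)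
  simp only [sq, mul_re, add_re, one_re, ofReal_re, ofReal_im, mul_zero, sub_zero, mul_im,
    zero_mul, add_zero] at this
  linarith

theorem cb_pos (h1 : γ ^ 2 ≤ 1) {x : ℝ} (hx : -1 < x) : 0 < 1 + γ ^ 2 * x := by
  rcases le_total 0 x with h | h
  · positivity
  · nlinarith

theorem Ec_re_pos (h1 : γ ^ 2 ≤ 1) (hε : -1 < ε.re) : 0 < (Ec γ ε).re := by
  refine (Ec_re_nonneg γ ε).lt_of_ne fun h => ?_
  have := Ec_re_sq γ ε
  rw [← h] at this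
  nlinarith [cb_pos h1 hε, sq_nonneg (Ec γ ε).im]

theorem Ec_diff (h1 : γ ^ 2 ≤ 1) : DifferentiableOn ℂ (Ec γ) {ε | -1 < ε.re} := by
  refine differentiableOn_sqrt.comp (f := fun ε : ℂ => 1 + γ ^ 2 * ε) (by fun_prop)
    fun z hz => .inl ?_
  simpa [← ofReal_pow] using cb_pos h1 hz

theorem Ec_real (h1 : γ ^ 2 ≤ 1) {x : ℝ} (hx : -1 < x) :
    Ec γ x = (√(1 + γ ^ 2 * x) : ℝ) := by
  rw [Ec, show (1 + γ ^ 2 * x : ℂ) = (1 + γ ^ 2 * x : ℝ) by push_cast; rfl,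
    Complex.sqrt_of_nonneg (by exact_mod_cast (cb_pos h1 hx).le), ofReal_re]

theorem cb_re_im (γ : ℝ) (ε : ℂ) : 2 * (Ec γ ε).re * (Ec γ ε).im = γ ^ 2 * ε.im := by
  have := congrArg im (Ec_sq γ ε)
  simp only [sq, mul_re, add_im, one_im, ofReal_re, ofReal_im, mul_zero, sub_zero, mul_im,
    zero_mul, add_zero, zero_add] at this
  linarith

theorem Ec_im_nonneg (h1 : γ ^ 2 ≤ 1) (hε : -1 < ε.re) (hi : 0 ≤ ε.im) : 0 ≤ (Ec γ ε).im := by
  refine nonneg_of_mul_nonneg_right (a := 2 * (Ec γ ε).re) ?_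
    (mul_pos two_pos (Ec_re_pos h1 hε))
  rw [cb_re_im]
  positivity

theorem Ec_re_im (γ : ℝ) (ε : ℂ) : 2 * (Ec γ ε).re * (Ec γ ε).im = γ ^ 2 * ε.im := by
  exact cb_re_im γ ε

theorem cb_near (h1 : γ ^ 2 ≤ 1) (ε : ℂ) : ‖1 - Ec γ ε‖ * (1 + (Ec γ ε).re) ≤ ‖ε‖ := by
  have h2 : 1 + (Ec γ ε).re ≤ ‖1 + Ec γ ε‖ := by simpa using re_le_norm (1 + Ec γ ε)
  have h3 : (1 - Ec γ ε) * (1 + Ec γ ε) = -(γ ^ 2 * ε) := by linear_combination -Ec_sq γ ε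
  refine (mul_le_mul_of_nonneg_left h2 (norm_nonneg _)).trans ?_
  rw [← norm_mul, h3, norm_neg, norm_mul, norm_pow, norm_real, Real.norm_eq_abs, sq_abs]
  exact mul_le_of_le_one_left (norm_nonneg _) h1

/-- bounds on the strip -/
theorem Ec_strip (h1 : γ ^ 2 ≤ 1) (ha : -3 / 4 ≤ ε.re) (hb : ε.re ≤ 0) (hi : 0 ≤ ε.im) :
    1 / 2 ≤ (Ec γ ε).re ∧ (Ec γ ε).re ≤ 1 + ε.im ^ 2 / 8 ∧ (Ec γ ε).im ≤ ε.im ∧
    ‖Ec γ ε‖ ≤ 1 + ε.im ^ 2 / 4 ∧ ‖1 - Ec γ ε‖ ≤ 2 / 3 * ‖ε‖ ∧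
    √(1 + γ ^ 2 * ε.re) ≤ (Ec γ ε).re ∧ ‖Ec γ ε‖ ^ 2 ≤ 1 + γ ^ 2 * ε.re + ε.im := by
  have e0 := Ec_re_nonneg γ ε
  have e1 := Ec_re_sq γ ε
  have e2 := Ec_re_im γ ε
  have e3 := Ec_im_nonneg h1 (by linarith) hi
  have e4 := cb_near h1 ε
  have e5 : ‖Ec γ ε‖ ^ 2 = ‖1 + γ ^ 2 * ε‖ := by rw [← norm_pow, Ec_sq]
  have g0 := sq_nonneg γ
  have a1 : 1 / 4 ≤ 1 + γ ^ 2 * ε.re := by nlinarith
  have a2 : 1 + γ ^ 2 * ε.re ≤ 1 := by nlinarith
  have a3 : γ ^ 2 * ε.im ≤ ε.im := mul_le_of_le_one_left hi h1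
  have a4 : 0 ≤ γ ^ 2 * ε.im := by positivity
  have r1 : (1 + γ ^ 2 * ε).re = 1 + γ ^ 2 * ε.re := by simp [← ofReal_pow]
  have r2 : (1 + γ ^ 2 * ε).im = γ ^ 2 * ε.im := by simp [← ofReal_pow]
  have b1 : 1 / 2 ≤ (Ec γ ε).re := abs_le_of_sq_le_sq' (by nlinarith) e0 |>.2
  refine ⟨b1, ?_, by nlinarith, ?_, by nlinarith [norm_nonneg (1 - Ec γ ε)],
    Real.sqrt_le_iff.2 ⟨e0, by nlinarith⟩, ?_⟩
  · by_contra! c
    have c1 : (Ec γ ε).im ≤ ε.im / 2 := by nlinarith [sq_nonneg ε.im]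
    have c2 : (Ec γ ε).im ^ 2 ≤ (ε.im / 2) ^ 2 := by gcongr
    have c3 : (1 + ε.im ^ 2 / 8) ^ 2 < (Ec γ ε).re ^ 2 := by gcongr
    nlinarith [sq_nonneg (ε.im ^ 2)]
  · have c1 : ‖1 + γ ^ 2 * ε‖ ≤ 1 + ε.im ^ 2 / 2 := by
      refine (abs_le_of_sq_le_sq' ?_ (by positivity)).2
      rw [Complex.sq_norm, normSq_apply, r1, r2]
      nlinarith [sq_nonneg (ε.im ^ 2)]
    refine (abs_le_of_sq_le_sq' ?_ (by positivity)).2
    nlinarith [sq_nonneg (ε.im ^ 2)]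
  · rw [e5]
    refine (norm_le_abs_re_add_abs_im _).trans ?_
    rw [r1, r2, abs_of_nonneg (by linarith), abs_of_nonneg a4]
    linarith

/-- bounds on the imaginary axis -/
theorem Ec_right (h1 : γ ^ 2 ≤ 1) {θ : ℝ} (hθ : 0 ≤ θ) :
    1 ≤ (Ec γ (θ * I)).re ∧ (Ec γ (θ * I)).re ≤ 1 + θ ^ 2 / 8 ∧ 0 ≤ (Ec γ (θ * I)).im ∧
    (Ec γ (θ * I)).im ≤ θ / 2 ∧ ‖1 - Ec γ (θ * I)‖ ≤ θ / 2 ∧ 1 ≤ ‖Ec γ (θ * I)‖ := by
  have r1 : (θ * I : ℂ).re = 0 := by simp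
  have r2 : (θ * I : ℂ).im = θ := by simp
  have r3 : ‖(θ * I : ℂ)‖ = θ := by simp [abs_of_nonneg hθ]
  obtain ⟨-, b2, -, -, -, b1, -⟩ := Ec_strip (ε := θ * I) h1 (by rw [r1]; norm_num) r1.le
    (r2.symm ▸ hθ)
  have e2 := Ec_re_im γ (θ * I)
  have e3 := Ec_im_nonneg (ε := θ * I) h1 (by rw [r1]; norm_num) (r2.symm ▸ hθ)
  have e4 := cb_near h1 (θ * I)
  rw [r1, mul_zero, add_zero, Real.sqrt_one] at b1
  rw [r2] at b2 e2
  rw [r3] at e4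
  have a3 : γ ^ 2 * θ ≤ θ := mul_le_of_le_one_left hθ h1
  exact ⟨b1, b2, e3, by nlinarith, by nlinarith [norm_nonneg (1 - Ec γ (θ * I))],
    b1.trans (re_le_norm _)⟩

theorem cb_den (hl : -1 < l) (j : ℕ) : 0 < (j : ℝ) + 2 * l + 2 := by
  have : (0 : ℝ) ≤ j := j.cast_nonneg
  linarith

theorem cb_rec (hl : -1 < l) (γ : ℝ) (ε : ℂ) (j : ℕ) :
    ((j : ℂ) + 2 * l + 2) * ((j + 1) * cc γ l ε (j + 1)) =
      cc γ l ε j * (2 * mu ε * (j + l + 1) - 2 * Ec γ ε) := by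
  have h1 : (j : ℂ) + 2 * l + 2 ≠ 0 := by exact_mod_cast (cb_den hl j).ne'
  have h2 : (j : ℂ) + 1 ≠ 0 := by exact_mod_cast j.succ_ne_zero
  rw [cc]
  field_simp

theorem cc_summable (hl : -1 < l) (γ : ℝ) (ε : ℂ) (ρ : ℝ) :
    Summable fun j : ℕ => ((j : ℝ) + 1) ^ 2 * ‖cc γ l ε j‖ * |ρ| ^ j := by
  refine summable_of_ratio_norm_eventually_le (r := 1 / 2) (by norm_num) ?_
  filter_upwards [eventually_ge_atTop 1, tendsto_natCast_atTop_atTop (R := ℝ).eventually_ge_atTop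
    (8 * |ρ| * (2 * ‖mu ε‖ + 2 * ‖Ec γ ε‖))] with j j1 j2
  have j0 : (1 : ℝ) ≤ j := by exact_mod_cast j1
  have h0 := cb_den hl j
  have h1 := congrArg norm (cb_rec hl γ ε j)
  have h2 : ‖2 * mu ε * (j + l + 1) - 2 * Ec γ ε‖ ≤
      (j + 2 * l + 2) * (2 * ‖mu ε‖ + 2 * ‖Ec γ ε‖) := by
    refine (norm_sub_le _ _).trans ?_
    rw [show (j + l + 1 : ℂ) = (j + l + 1 : ℝ) by push_cast; rfl, norm_mul, norm_mul, norm_mul,
      norm_real, Real.norm_of_nonneg (by linarith), Complex.norm_two]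
    nlinarith [norm_nonneg (mu ε), norm_nonneg (Ec γ ε)]
  rw [show (j + 2 * l + 2 : ℂ) = (j + 2 * l + 2 : ℝ) by push_cast; rfl,
    show (j + 1 : ℂ) = (j + 1 : ℝ) by push_cast; rfl, norm_mul, norm_mul, norm_mul, norm_real,
    norm_real, Real.norm_of_nonneg h0.le, Real.norm_of_nonneg (by linarith)] at h1
  have h3 : (j + 1) * ‖cc γ l ε (j + 1)‖ ≤ ‖cc γ l ε j‖ * (2 * ‖mu ε‖ + 2 * ‖Ec γ ε‖) := by
    refine le_of_mul_le_mul_left ?_ h0
    rw [h1, mul_left_comm]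
    gcongr
  rw [Real.norm_of_nonneg (by positivity), Real.norm_of_nonneg (by positivity)]
  have h4 : 8 * |ρ| * ‖cc γ l ε (j + 1)‖ ≤ ‖cc γ l ε j‖ := by
    refine le_of_mul_le_mul_left ?_ (show (0 : ℝ) < j + 1 by linarith)
    have h5 := mul_le_mul_of_nonneg_left h3 (show 0 ≤ 8 * |ρ| by positivity)
    have h6 := mul_le_mul_of_nonneg_left j2 (norm_nonneg (cc γ l ε j))
    nlinarith [norm_nonneg (cc γ l ε j)]
  have h5 : ((j : ℝ) + 1 + 1) ^ 2 ≤ 4 * (j + 1) ^ 2 := by nlinarith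
  push_cast
  calc _ = ((j : ℝ) + 1 + 1) ^ 2 * (|ρ| * ‖cc γ l ε (j + 1)‖) * |ρ| ^ j := by ring
    _ ≤ 4 * (j + 1) ^ 2 * (‖cc γ l ε j‖ / 8) * |ρ| ^ j := by
      gcongr
      linarith
    _ = _ := by ring

/-- coefficients of an entire power series -/
def Ent (a : ℕ → ℂ) : Prop := ∀ ρ : ℝ, 0 ≤ ρ → Summable fun j : ℕ => ‖a j‖ * ρ ^ j

theorem Ent.cc (hl : -1 < l) (γ : ℝ) (ε : ℂ) : Ent (cc γ l ε) := fun ρ hρ => by
  refine (cc_summable hl γ ε ρ).of_nonneg_of_le (fun j => by positivity) fun j => ?_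
  have : (0 : ℝ) ≤ j := j.cast_nonneg
  rw [abs_of_nonneg hρ, mul_assoc]
  exact le_mul_of_one_le_left (by positivity) (by nlinarith)

theorem Ent.der {a : ℕ → ℂ} (h : Ent a) : Ent fun j => ((j : ℂ) + 1) * a (j + 1) := fun ρ hρ => by
  refine ((summable_nat_add_iff 1).2 (h (2 * (ρ + 1)) (by positivity))).of_nonneg_of_le
    (fun j => by positivity) fun j => ?_
  have h1 : (j : ℝ) + 1 ≤ 2 ^ (j + 1) := by exact_mod_cast (j + 1).lt_two_pow_self.le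
  have h2 : ρ ^ j ≤ (ρ + 1) ^ (j + 1) :=
    (pow_le_pow_left₀ hρ (by linarith) j).trans (pow_le_pow_right₀ (by linarith) j.le_succ)
  beta_reduce
  rw [show (j + 1 : ℂ) = (j + 1 : ℝ) by push_cast; rfl, norm_mul, norm_real,
    Real.norm_of_nonneg (by positivity), mul_pow, mul_comm _ ‖a (j + 1)‖, mul_assoc]
  gcongr

theorem Ent.summable {a : ℕ → ℂ} (h : Ent a) (r : ℝ) : Summable fun j => a j * (r : ℂ) ^ j :=
  .of_norm (by simpa using h |r| (abs_nonneg r))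

theorem Ent.hasSum {a : ℕ → ℂ} (h : Ent a) (r : ℝ) : HasSum (fun j : ℕ => j * a j * (r : ℂ) ^ j)
    (r * ∑' j : ℕ, ((j : ℂ) + 1) * a (j + 1) * (r : ℂ) ^ j) := by
  rw [← hasSum_nat_add_iff' 1]
  simp only [Finset.range_one, Finset.sum_singleton, Nat.cast_zero, zero_mul, sub_zero]
  have e : (fun j : ℕ => ((j + 1 : ℕ) : ℂ) * a (j + 1) * (r : ℂ) ^ (j + 1)) =
      fun j : ℕ => r * (((j : ℂ) + 1) * a (j + 1) * (r : ℂ) ^ j) := funext fun j => by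
    push_cast
    ring
  rw [e]
  exact (h.der.summable r).hasSum.mul_left _

theorem Ent.deriv {a : ℕ → ℂ} (h : Ent a) (r : ℝ) :
    HasDerivAt (fun r : ℝ => ∑' j, a j * (r : ℂ) ^ j)
      (∑' j : ℕ, ((j : ℂ) + 1) * a (j + 1) * (r : ℂ) ^ j) r := by
  have h0 : 0 ≤ |r| := abs_nonneg r
  have h1 := hasDerivAt_tsum_of_isPreconnected (t := Metric.ball (0 : ℝ) (|r| + 1))
    (g := fun j (r : ℝ) => ((a (j + 1)) * (r : ℂ) ^ (j + 1)))
    (g' := fun j (r : ℝ) => ((j : ℂ) + 1) * a (j + 1) * (r : ℂ) ^ j) (y₀ := r) (y := r)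
    (h.der (|r| + 1) (by positivity)) Metric.isOpen_ball (convex_ball _ _).isPreconnected
    (fun j y _ => (((hasDerivAt_pow (j + 1) (y : ℂ)).comp_ofReal).const_mul _).congr_deriv
      (by push_cast; ring))
    (fun j y hy => by
      rw [norm_mul, norm_pow, norm_real]
      gcongr
      exact (mem_ball_zero_iff.1 hy).le)
    (by simp) ((summable_nat_add_iff 1).2 (h.summable r)) (by simp)
  refine (h1.const_add (a 0)).congr_of_eventuallyEq (.of_forall fun y => ?_)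
  simpa using (h.summable y).tsum_eq_zero_add

theorem ser_deriv (hl : -1 < l) (γ : ℝ) (ε : ℂ) (r : ℝ) :
    HasDerivAt (ser γ l ε) (serD γ l ε r) r := by
  exact (Ent.cc hl γ ε).deriv r

theorem cb_zero (a : ℕ → ℂ) : ∑' j, a j * ((0 : ℝ) : ℂ) ^ j = a 0 := by
  rw [tsum_eq_single 0 fun j hj => by simp [hj]]
  simp

theorem ser_zero (γ l : ℝ) (ε : ℂ) : ser γ l ε 0 = 1 := by
  exact cb_zero _

theorem serD_cont (hl : -1 < l) (γ : ℝ) (ε : ℂ) : Continuous (serD γ l ε) := by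
  exact continuous_iff_continuousAt.2 fun r => ((Ent.cc hl γ ε).der.deriv r).continuousAt

theorem ser_cont (hl : -1 < l) (γ : ℝ) (ε : ℂ) : Continuous (ser γ l ε) :=
  continuous_iff_continuousAt.2 fun r => (ser_deriv hl γ ε r).continuousAt

theorem serD_deriv (hl : -1 < l) (γ : ℝ) (ε : ℂ) {r : ℝ} (hr : r ≠ 0) :
    HasDerivAt (serD γ l ε) (-((2 * l + 2 - 2 * mu ε * r) * serD γ l ε r
      + (2 * Ec γ ε - 2 * mu ε * (l + 1)) * ser γ l ε r) / r) r := by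
  have h := Ent.cc hl γ ε
  refine (h.der.deriv r).congr_deriv ?_
  have h1 := (((h.der.hasSum r).add ((h.der.summable r).hasSum.mul_left (2 * l + 2 : ℂ))).sub
    ((h.hasSum r).mul_left (2 * mu ε))).add
      ((h.summable r).hasSum.mul_left (2 * Ec γ ε - 2 * mu ε * (l + 1)))
  have h2 := h1.tsum_eq
  rw [tsum_congr (g := fun _ => 0) fun j => by
    linear_combination (r : ℂ) ^ j * cb_rec hl γ ε j, tsum_zero] at h2
  rw [eq_div_iff (ofReal_ne_zero.2 hr), ser, serD]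
  linear_combination -h2

theorem cb_amp (q : ℝ) (m : ℂ) {r : ℝ} (hr : 0 < r) :
    HasDerivAt (fun r : ℝ => ((r ^ q : ℝ) : ℂ) * exp (-(m * r)))
      ((r ^ q : ℝ) * exp (-(m * r)) * (q / r - m)) r := by
  have h0 : (r : ℂ) ≠ 0 := ofReal_ne_zero.2 hr.ne'
  refine ((Real.hasDerivAt_rpow_const (p := q) (.inl hr.ne')).ofReal_comp.mul
    ((hasDerivAt_id (r : ℂ)).const_mul m).neg.cexp.comp_ofReal).congr_deriv ?_
  rw [Real.rpow_sub_one hr.ne']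
  simp only [Pi.neg_apply, id, ofReal_mul, ofReal_div]
  field_simp
  ring

theorem ph_sol (hl : -1 < l) (γ : ℝ) (ε : ℂ) : Sol (Qc γ l ε) (ph γ l ε) (phD γ l ε) := by
  refine ⟨fun r hr => ?_, fun r hr => ?_⟩
  · refine ((cb_amp (l + 1) (mu ε) hr).mul (ser_deriv hl γ ε r)).congr_deriv ?_
    rw [phD]
    push_cast
    ring
  · have h0 : (r : ℂ) ≠ 0 := ofReal_ne_zero.2 hr.ne'
    have h1 : HasDerivAt (fun r : ℝ => ((l : ℂ) + 1) / r - mu ε) (-(l + 1) / r ^ 2) r :=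
      (((hasDerivAt_const (r : ℂ) ((l : ℂ) + 1)).div (hasDerivAt_id _) h0).sub_const
        _).comp_ofReal.congr_deriv (by simp)
    refine ((cb_amp (l + 1) (mu ε) hr).mul ((h1.mul (ser_deriv hl γ ε r)).add
      (serD_deriv hl γ ε hr.ne'))).congr_deriv ?_
    rw [ph, Qc, sub_eq_add_neg _ ε, ← mu_sq ε]
    simp only [Pi.add_apply, Pi.mul_apply]
    push_cast
    field_simp
    ring

theorem ph_lim (hl : -1 < l) (γ : ℝ) (ε : ℂ) :
    Tendsto (fun r : ℝ => ph γ l ε r / (r ^ (l + 1) : ℝ)) (𝓝[>] 0) (𝓝 1) := by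
  have h1 := ser_cont hl γ ε
  have h2 : Continuous fun r : ℝ => exp (-(mu ε * r)) * ser γ l ε r := by fun_prop
  refine ((h2.tendsto' 0 _ (by simp [ser_zero])).mono_left nhdsWithin_le_nhds).congr' ?_
  filter_upwards [self_mem_nhdsWithin] with r hr
  have h3 : ((r ^ (l + 1) : ℝ) : ℂ) ≠ 0 := ofReal_ne_zero.2 (Real.rpow_pos_of_pos hr _).ne'
  rw [ph]
  field_simp

theorem phD_lim (hl : -1 < l) (γ : ℝ) (ε : ℂ) :
    Tendsto (fun r : ℝ => phD γ l ε r / (r ^ l : ℝ)) (𝓝[>] 0) (𝓝 (l + 1)) := by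
  have h1 := ser_cont hl γ ε
  have h1' := serD_cont hl γ ε
  have h2 : Continuous fun r : ℝ => exp (-(mu ε * r)) *
      ((l + 1 - mu ε * r) * ser γ l ε r + r * serD γ l ε r) := by fun_prop
  refine ((h2.tendsto' 0 _ (by simp [ser_zero])).mono_left nhdsWithin_le_nhds).congr' ?_
  filter_upwards [self_mem_nhdsWithin] with r hr
  have h0 : 0 < r := hr
  have h4 : (r : ℂ) ≠ 0 := ofReal_ne_zero.2 h0.ne'
  have h3 : ((r ^ l : ℝ) : ℂ) ≠ 0 := ofReal_ne_zero.2 (Real.rpow_pos_of_pos hr _).ne'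
  rw [phD, Real.rpow_add_one h0.ne', ofReal_mul]
  field_simp

/-- the logarithmic derivative near the origin -/
theorem mm_lim (hl : -1 < l) (γ : ℝ) (ε : ℂ) :
    Tendsto (fun r : ℝ => mm γ l r ε - (l + 1) / r) (𝓝[>] 0) (𝓝 (-Ec γ ε / (l + 1))) := by
  have h0 : ser γ l ε 0 ≠ 0 := by rw [ser_zero]; exact one_ne_zero
  have h1 := (ser_cont hl γ ε).continuousAt (x := 0)
  have h2 := ((((serD_cont hl γ ε).continuousAt (x := 0)).div h1 h0).sub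
    (continuousAt_const (y := mu ε))).tendsto
  have h3 : serD γ l ε 0 / ser γ l ε 0 - mu ε = -Ec γ ε / (l + 1) := by
    have e : (l : ℂ) + 1 ≠ 0 := by exact_mod_cast (show l + 1 ≠ 0 by linarith)
    have e1 := cb_rec hl γ ε 0
    rw [ser_zero, div_one, serD, cb_zero, eq_div_iff e]
    rw [show cc γ l ε 0 = 1 from rfl] at e1
    push_cast at e1 ⊢
    linear_combination e1 / 2
  rw [← h3]
  refine (h2.mono_left nhdsWithin_le_nhds).congr' ?_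
  filter_upwards [self_mem_nhdsWithin, nhdsWithin_le_nhds (h1.eventually_ne h0)] with r hr h4
  have h5 : ((r ^ (l + 1) : ℝ) : ℂ) ≠ 0 := ofReal_ne_zero.2 (Real.rpow_pos_of_pos hr _).ne'
  have h6 := exp_ne_zero (-(mu ε * r))
  simp only [mm, ph, phD, Pi.div_apply, Pi.sub_apply]
  field_simp
  ring

theorem cb_gron {E : Type*} [NormedAddCommGroup E] [NormedSpace ℝ E] {F F' : ℝ → E}
    {a b K H : ℝ} (hK : 1 ≤ K) (hH : 0 ≤ H) (d : ∀ r ∈ Icc a b, HasDerivAt F (F' r) r)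
    (hb : ∀ r ∈ Icc a b, ‖F' r‖ ≤ K * ‖F r‖ + H) {r t : ℝ} (hr : r ∈ Icc a b) (ht : t ∈ Icc a b)
    (h : t ≤ r) : ‖F r‖ ≤ (‖F t‖ + H) * Real.exp (K * (b - a)) := by
  have s : Icc t r ⊆ Icc a b := Icc_subset_Icc ht.1 hr.2
  have h1 := norm_le_gronwallBound_of_norm_deriv_right_le (f := F) (f' := F') (a := t) (b := r)
    (fun x hx => (d x (s hx)).continuousAt.continuousWithinAt)
    (fun x hx => (d x (s (Ico_subset_Icc_self hx))).hasDerivWithinAt) le_rfl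
    (fun x hx => hb x (s (Ico_subset_Icc_self hx))) r (right_mem_Icc.2 h)
  rw [gronwallBound_of_K_ne_0 (by linarith)] at h1
  have h2 : Real.exp (K * (r - t)) ≤ Real.exp (K * (b - a)) := by
    gcongr
    exacts [hr.2, ht.1]
  have h3 : 1 ≤ Real.exp (K * (r - t)) := Real.one_le_exp (mul_nonneg (by linarith) (by linarith))
  have h4 : H / K ≤ H := div_le_self hH hK
  refine h1.trans ?_
  rw [add_mul]
  exact add_le_add (by gcongr) (mul_le_mul h4 (by linarith) (by linarith) hH)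

/-- a linear estimate for a forced equation on a compact interval -/
theorem gron {Q h u u' : ℝ → ℂ} {a b K H : ℝ} (hK : 1 ≤ K) (hH : 0 ≤ H)
    (d1 : ∀ r ∈ Icc a b, HasDerivAt u (u' r) r)
    (d2 : ∀ r ∈ Icc a b, HasDerivAt u' (Q r * u r + h r) r)
    (hQ : ∀ r ∈ Icc a b, ‖Q r‖ ≤ K) (hh : ∀ r ∈ Icc a b, ‖h r‖ ≤ H) {r t : ℝ}
    (hr : r ∈ Icc a b) (ht : t ∈ Icc a b) :
    ‖u r‖ + ‖u' r‖ ≤ 2 * (‖u t‖ + ‖u' t‖ + H) * Real.exp (K * (b - a)) := by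
  have d : ∀ r ∈ Icc a b, HasDerivAt (fun r => (u r, u' r)) (u' r, Q r * u r + h r) r :=
    fun r hr => (d1 r hr).prodMk (d2 r hr)
  have hb : ∀ r ∈ Icc a b, ‖(u' r, Q r * u r + h r)‖ ≤ K * ‖(u r, u' r)‖ + H := fun r hr => by
    have e1 : ‖u r‖ ≤ ‖(u r, u' r)‖ := norm_fst_le (u r, u' r)
    have e2 : ‖u' r‖ ≤ ‖(u r, u' r)‖ := norm_snd_le (u r, u' r)
    refine max_le (by nlinarith [norm_nonneg (u' r)]) ((norm_add_le _ _).trans ?_)
    rw [norm_mul]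
    gcongr
    exacts [hQ r hr, hh r hr]
  have key : ‖(u r, u' r)‖ ≤ (‖(u t, u' t)‖ + H) * Real.exp (K * (b - a)) := by
    rcases le_total t r with e | e
    · exact cb_gron hK hH d hb hr ht e
    · have m : ∀ x ∈ Icc (-b) (-a), -x ∈ Icc a b := fun x hx =>
        ⟨by linarith [hx.2], by linarith [hx.1]⟩
      have := cb_gron (F := fun x => (u (-x), u' (-x))) (a := -b) (b := -a) (r := -r) (t := -t)
        hK hH (fun x hx => (d _ (m x hx)).scomp x (hasDerivAt_neg' x))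
        (fun x hx => by rw [neg_one_smul, norm_neg]; exact hb _ (m x hx))
        ⟨by linarith [hr.2], by linarith [hr.1]⟩ ⟨by linarith [ht.2], by linarith [ht.1]⟩
        (by linarith)
      simpa only [neg_neg, neg_sub_neg] using this
  have e1 : ‖u r‖ ≤ ‖(u r, u' r)‖ := norm_fst_le (u r, u' r)
  have e2 : ‖u' r‖ ≤ ‖(u r, u' r)‖ := norm_snd_le (u r, u' r)
  have e3 : ‖(u t, u' t)‖ ≤ ‖u t‖ + ‖u' t‖ :=
    max_le (le_add_of_nonneg_right (norm_nonneg _)) (le_add_of_nonneg_left (norm_nonneg _))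
  have e4 : (‖(u t, u' t)‖ + H) * Real.exp (K * (b - a)) ≤
      (‖u t‖ + ‖u' t‖ + H) * Real.exp (K * (b - a)) := by gcongr
  linarith

end Pool.Agent.Lib.MP_2347b2_mp.F
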