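import Pool.Agent.Lib.MP_2347b2_mp.F.CAn

namespace Pool.Agent.Lib.MP_2347b2_mp.F

open MeasureTheory Set Filter Topology Complex

/-- the flux of the regular solution -/
noncomputable def Fx (γ l : ℝ) (ε : ℂ) (r : ℝ) : ℝ :=
  -((starRingEnd ℂ) (ph γ l ε r) * phD γ l ε r).im

variable {γ l : ℝ} {ε : ℂ}

theorem Qc_im (γ l : ℝ) (ε : ℂ) (r : ℝ) : (Qc γ l ε r).im = -(2 * (Ec γ ε).im / r + ε.im) := by
  have h : Qc γ l ε r = ((l * (l + 1) / r ^ 2 : ℝ) : ℂ) - ((2 / r : ℝ) : ℂ) * Ec γ ε - ε := by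
    unfold Qc; push_cast; ring
  rw [h, sub_im, sub_im, ofReal_im, im_ofReal_mul]; ring

theorem Qc_re (γ l : ℝ) (ε : ℂ) (r : ℝ) :
    (Qc γ l ε r).re = l * (l + 1) / r ^ 2 - 2 * (Ec γ ε).re / r - ε.re := by
  have h : Qc γ l ε r = ((l * (l + 1) / r ^ 2 : ℝ) : ℂ) - ((2 / r : ℝ) : ℂ) * Ec γ ε - ε := by
    unfold Qc; push_cast; ring
  rw [h, sub_re, sub_re, ofReal_re, re_ofReal_mul]; ring

theorem cfl_cm (z : ℂ) : (starRingEnd ℂ) z * z = ((‖z‖ ^ 2 : ℝ) : ℂ) := by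
  rw [conj_mul']; push_cast; rfl

theorem cfl_conj {u : ℝ → ℂ} {a : ℂ} {r : ℝ} (h : HasDerivAt u a r) :
    HasDerivAt (fun r => (starRingEnd ℂ) (u r)) ((starRingEnd ℂ) a) r := h.star

theorem cfl_prod {Q u u' : ℝ → ℂ} (h : Sol Q u u') {r : ℝ} (hr : 0 < r) :
    HasDerivAt (fun r => (starRingEnd ℂ) (u r) * u' r)
      (((‖u' r‖ ^ 2 : ℝ) : ℂ) + Q r * ((‖u r‖ ^ 2 : ℝ) : ℂ)) r := by
  refine ((cfl_conj (h.d1 r hr)).mul (h.d2 r hr)).congr_deriv ?_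
  rw [← cfl_cm, ← cfl_cm]; ring

theorem Sol.flux {Q u u' : ℝ → ℂ} (h : Sol Q u u') {r : ℝ} (hr : 0 < r) :
    HasDerivAt (fun r => ((starRingEnd ℂ) (u r) * u' r).im) ((Q r).im * ‖u r‖ ^ 2) r := by
  refine (imCLM.hasFDerivAt.comp_hasDerivAt r (cfl_prod h hr)).congr_deriv ?_
  rw [imCLM_apply, add_im, ofReal_im, mul_comm (Q r), im_ofReal_mul]; ring

theorem Sol.energy {Q u u' : ℝ → ℂ} (h : Sol Q u u') {r : ℝ} (hr : 0 < r) :
    HasDerivAt (fun r => ((starRingEnd ℂ) (u r) * u' r).re)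
      (‖u' r‖ ^ 2 + (Q r).re * ‖u r‖ ^ 2) r := by
  refine (reCLM.hasFDerivAt.comp_hasDerivAt r (cfl_prod h hr)).congr_deriv ?_
  rw [reCLM_apply, add_re, ofReal_re, mul_comm (Q r), re_ofReal_mul]; ring

theorem Sol.normsq {Q u u' : ℝ → ℂ} (h : Sol Q u u') {r : ℝ} (hr : 0 < r) :
    HasDerivAt (fun r => ‖u r‖ ^ 2) (2 * ((starRingEnd ℂ) (u r) * u' r).re) r := by
  have h1 := reCLM.hasFDerivAt.comp_hasDerivAt r ((cfl_conj (h.d1 r hr)).mul (h.d1 r hr))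
  have e : (fun r => ‖u r‖ ^ 2) = reCLM ∘ ((fun r => (starRingEnd ℂ) (u r)) * u) := by
    funext x
    show ‖u x‖ ^ 2 = ((starRingEnd ℂ) (u x) * u x).re
    rw [cfl_cm, ofReal_re]
  rw [e]
  refine h1.congr_deriv ?_
  simp only [reCLM_apply, add_re, mul_re, conj_re, conj_im]; ring

theorem Sol.wronskian {Q P u u' v v' : ℝ → ℂ} (h : Sol Q u u') (g : Sol P v v') {r : ℝ}
    (hr : 0 < r) : HasDerivAt (fun r => u' r * v r - u r * v' r) ((Q r - P r) * (u r * v r)) r := by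
  refine (((h.d2 r hr).mul (g.d1 r hr)).sub ((h.d1 r hr).mul (g.d2 r hr))).congr_deriv ?_
  ring

theorem Fx_deriv (hl : 0 ≤ l) (γ : ℝ) (ε : ℂ) {r : ℝ} (hr : 0 < r) :
    HasDerivAt (Fx γ l ε) ((2 * (Ec γ ε).im / r + ε.im) * ‖ph γ l ε r‖ ^ 2) r := by
  refine ((ph_sol (by linarith) γ ε).flux hr).neg.congr_deriv ?_
  rw [Qc_im]; ring

theorem Fx_lim (hl : 0 ≤ l) (γ : ℝ) (ε : ℂ) : Tendsto (Fx γ l ε) (𝓝[>] 0) (𝓝 0) := by
  have hl' : -1 < l := by linarith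
  have h1 := (continuous_conj.tendsto _).comp (ph_lim hl' γ ε)
  have h2 := (continuous_im.tendsto _).comp (h1.mul (phD_lim hl' γ ε))
  have h3 : Tendsto (fun r : ℝ => r ^ (l + 1 + l)) (𝓝[>] 0) (𝓝 0) := by
    have := (Real.continuous_rpow_const (q := l + 1 + l) (by linarith)).tendsto 0
    rw [Real.zero_rpow (by linarith)] at this
    exact this.mono_left nhdsWithin_le_nhds
  have h4 := (h2.mul h3).neg
  rw [mul_zero, neg_zero] at h4
  refine h4.congr' ?_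
  filter_upwards [self_mem_nhdsWithin] with r hr
  have hr : 0 < r := hr
  have ha : (0 : ℝ) < r ^ (l + 1) := Real.rpow_pos_of_pos hr _
  have hb : (0 : ℝ) < r ^ l := Real.rpow_pos_of_pos hr _
  have ha' : ((r ^ (l + 1) : ℝ) : ℂ) ≠ 0 := ofReal_ne_zero.2 ha.ne'
  have hb' : ((r ^ l : ℝ) : ℂ) ≠ 0 := ofReal_ne_zero.2 hb.ne'
  have e : (starRingEnd ℂ) (ph γ l ε r) * phD γ l ε r = ((r ^ (l + 1) * r ^ l : ℝ) : ℂ) *
      ((starRingEnd ℂ) (ph γ l ε r / (r ^ (l + 1) : ℝ)) * (phD γ l ε r / (r ^ l : ℝ))) := by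
    rw [map_div₀, conj_ofReal, ofReal_mul]; field_simp
  show -(((starRingEnd ℂ) (ph γ l ε r / (r ^ (l + 1) : ℝ)) * (phD γ l ε r / (r ^ l : ℝ))).im
    * r ^ (l + 1 + l)) = Fx γ l ε r
  unfold Fx
  rw [e, im_ofReal_mul, Real.rpow_add hr (l + 1) l]; ring

theorem cfl_coef (h1 : γ ^ 2 ≤ 1) (hε : ε ∈ UU) {r : ℝ} (hr : 0 < r) :
    0 < 2 * (Ec γ ε).im / r + ε.im := by
  have h2 := Ec_im_nonneg h1 hε.1 hε.2.le
  have h3 : 0 < ε.im := hε.2
  positivity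

theorem cfl_mono (h1 : γ ^ 2 ≤ 1) (hl : 0 ≤ l) (hε : ε ∈ UU) :
    MonotoneOn (Fx γ l ε) (Ioi 0) := by
  refine monotoneOn_of_deriv_nonneg (convex_Ioi _)
    (fun x hx => (Fx_deriv hl γ ε hx).continuousAt.continuousWithinAt) ?_ ?_
  · intro x hx
    rw [interior_Ioi] at hx
    exact (Fx_deriv hl γ ε hx).differentiableAt.differentiableWithinAt
  · intro x hx
    rw [interior_Ioi] at hx
    rw [(Fx_deriv hl γ ε hx).deriv]
    exact mul_nonneg (cfl_coef h1 hε hx).le (sq_nonneg _)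

theorem Fx_pos (h1 : γ ^ 2 ≤ 1) (hl : 0 ≤ l) (hε : ε ∈ UU) {r : ℝ} (hr : 0 < r) :
    0 < Fx γ l ε r := by
  have hl' : -1 < l := by linarith
  have hev : ∀ᶠ x : ℝ in 𝓝[>] 0, ph γ l ε x ≠ 0 := by
    filter_upwards [(ph_lim hl' γ ε).eventually_ne one_ne_zero] with x hx h0
    exact hx (by rw [h0, zero_div])
  obtain ⟨δ, hδ, hsub⟩ := mem_nhdsGT_iff_exists_Ioo_subset.1 hev
  have hδ : 0 < δ := hδ
  have hs : StrictMonoOn (Fx γ l ε) (Ioo 0 δ) := by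
    refine strictMonoOn_of_deriv_pos (convex_Ioo _ _)
      (fun x hx => (Fx_deriv hl γ ε hx.1).continuousAt.continuousWithinAt) ?_
    intro x hx
    rw [interior_Ioo] at hx
    rw [(Fx_deriv hl γ ε hx.1).deriv]
    exact mul_pos (cfl_coef h1 hε hx.1) (pow_pos (norm_pos_iff.2 (hsub hx)) 2)
  have hm : 0 < min r δ := lt_min hr hδ
  have hmr := min_le_left r δ
  have hmd := min_le_right r δ
  have h0 : 0 ≤ Fx γ l ε (min r δ / 3) := by
    refine le_of_tendsto (Fx_lim hl γ ε) ?_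
    filter_upwards [Ioo_mem_nhdsGT (show (0 : ℝ) < min r δ / 3 by linarith)] with x hx
    exact cfl_mono h1 hl hε hx.1 (show (0 : ℝ) < min r δ / 3 by linarith) hx.2.le
  have h2 : Fx γ l ε (min r δ / 3) < Fx γ l ε (min r δ / 2) :=
    hs ⟨by linarith, by linarith⟩ ⟨by linarith, by linarith⟩ (by linarith)
  have h3 : Fx γ l ε (min r δ / 2) ≤ Fx γ l ε r :=
    cfl_mono h1 hl hε (show (0 : ℝ) < min r δ / 2 by linarith) hr (by linarith)
  linarith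

theorem Fx_mono (h1 : γ ^ 2 ≤ 1) (hl : 0 ≤ l) (hε : ε ∈ UU) : MonotoneOn (Fx γ l ε) (Ioi 0) := by
  exact cfl_mono h1 hl hε

theorem ph_ne (h1 : γ ^ 2 ≤ 1) (hl : 0 ≤ l) (hε : ε ∈ UU) {r : ℝ} (hr : 0 < r) :
    ph γ l ε r ≠ 0 := by
  intro h0
  have := Fx_pos h1 hl hε hr
  unfold Fx at this
  rw [h0, map_zero, zero_mul, zero_im, neg_zero] at this
  exact lt_irrefl _ this

theorem Fx_eq (h1 : γ ^ 2 ≤ 1) (hl : 0 ≤ l) (hε : ε ∈ UU) {r : ℝ} (hr : 0 < r) :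
    Fx γ l ε r = -(mm γ l r ε).im * ‖ph γ l ε r‖ ^ 2 := by
  have h0 := ph_ne h1 hl hε hr
  have e : (starRingEnd ℂ) (ph γ l ε r) * phD γ l ε r
      = ((‖ph γ l ε r‖ ^ 2 : ℝ) : ℂ) * mm γ l r ε := by
    rw [← cfl_cm]; unfold mm; field_simp
  unfold Fx
  rw [e, im_ofReal_mul]; ring

theorem mm_im_neg (h1 : γ ^ 2 ≤ 1) (hl : 0 ≤ l) (hε : ε ∈ UU) {r : ℝ} (hr : 0 < r) :
    (mm γ l r ε).im < 0 := by
  have h2 := Fx_pos h1 hl hε hr
  rw [Fx_eq h1 hl hε hr] at h2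
  have h3 := (mul_pos_iff_of_pos_right (pow_pos (norm_pos_iff.2 (ph_ne h1 hl hε hr)) 2)).1 h2
  linarith

theorem mm_deriv (h1 : γ ^ 2 ≤ 1) (hl : 0 ≤ l) (hε : ε ∈ UU) {r : ℝ} (hr : 0 < r) :
    HasDerivAt (fun r => mm γ l r ε) (Qc γ l ε r - mm γ l r ε ^ 2) r := by
  have h0 := ph_ne h1 hl hε hr
  have hs := ph_sol (show -1 < l by linarith) γ ε
  refine ((hs.d2 r hr).div (hs.d1 r hr) h0).congr_deriv ?_
  unfold mm; field_simp

theorem cfl_ftc {E : Type} [NormedAddCommGroup E] [NormedSpace ℝ E] [CompleteSpace E] {f : ℝ → E}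
    (hf : ContinuousOn f (Ioi 0)) {a b : ℝ} (ha : 0 < a) (hb : 0 < b) :
    HasDerivAt (fun x => ∫ t in a..x, f t) (f b) b := by
  refine intervalIntegral.integral_hasDerivAt_right ?_
    (hf.stronglyMeasurableAtFilter isOpen_Ioi b hb) (hf.continuousAt (Ioi_mem_nhds hb))
  exact (hf.mono fun x hx => lt_of_lt_of_le (lt_min ha hb) hx.1).intervalIntegrable

theorem cfl_le {f f' : ℝ → ℝ} {a b : ℝ} (ha : 0 < a) (hab : a ≤ b)
    (hd : ∀ x, 0 < x → HasDerivAt f (f' x) x) (h0 : ∀ x, a ≤ x → 0 ≤ f' x) : f a ≤ f b := by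
  have hm : MonotoneOn f (Ici a) := by
    refine monotoneOn_of_deriv_nonneg (convex_Ici _)
      (fun x hx => (hd x (ha.trans_le hx)).continuousAt.continuousWithinAt) ?_ ?_
    · intro x hx
      rw [interior_Ici] at hx
      exact (hd x (ha.trans hx)).differentiableAt.differentiableWithinAt
    · intro x hx
      rw [interior_Ici] at hx
      rw [(hd x (ha.trans hx)).deriv]
      exact h0 x (le_of_lt hx)
  exact hm (le_refl a) hab hab

theorem cfl_pc (hl : 0 ≤ l) (γ : ℝ) (ε : ℂ) : ContinuousOn (ph γ l ε) (Ioi 0) := fun x hx =>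
  ((ph_sol (show -1 < l by linarith) γ ε).d1 x hx).continuousAt.continuousWithinAt

theorem cfl_nc (hl : 0 ≤ l) (γ : ℝ) (ε : ℂ) :
    ContinuousOn (fun r => ‖ph γ l ε r‖ ^ 2) (Ioi 0) := (cfl_pc hl γ ε).norm.pow 2

/-- the mass is controlled by the flux -/
theorem mass_le (h1 : γ ^ 2 ≤ 1) (hl : 0 ≤ l) (hε : ε ∈ UU) {a b : ℝ} (ha : 0 < a) (hab : a ≤ b) :
    ε.im * ∫ r in a..b, ‖ph γ l ε r‖ ^ 2 ≤ Fx γ l ε b - Fx γ l ε a := by
  have hc := cfl_nc hl γ ε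
  have hd : ∀ x, 0 < x → HasDerivAt (fun x => Fx γ l ε x - ε.im * ∫ r in a..x, ‖ph γ l ε r‖ ^ 2)
      ((2 * (Ec γ ε).im / x + ε.im) * ‖ph γ l ε x‖ ^ 2 - ε.im * ‖ph γ l ε x‖ ^ 2) x :=
    fun x hx => (Fx_deriv hl γ ε hx).sub ((cfl_ftc hc ha hx).const_mul _)
  have hm := cfl_le ha hab hd (fun x hx => by
    have h2 := Ec_im_nonneg h1 hε.1 hε.2.le
    have h3 : 0 < x := by linarith
    have h4 : 0 ≤ 2 * (Ec γ ε).im / x * ‖ph γ l ε x‖ ^ 2 := by positivity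
    linarith)
  simp only [intervalIntegral.integral_same] at hm
  linarith

theorem Im2_int (hl : 0 ≤ l) (γ : ℝ) (ε : ℂ) {R : ℝ} (hR : 0 < R) :
    IntervalIntegrable (fun r => ‖ph γ l ε r‖ ^ 2 / r ^ 2) volume 0 R := by
  have hs : Continuous (ser γ l ε) :=
    continuous_iff_continuousAt.2 fun x => (ser_deriv (by linarith) γ ε x).continuousAt
  have hc : Continuous fun r : ℝ => (r ^ l) ^ 2 * ‖exp (-(mu ε * r)) * ser γ l ε r‖ ^ 2 := by
    have h2 := Real.continuous_rpow_const hl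
    fun_prop
  refine (hc.intervalIntegrable 0 R).congr ?_
  intro r hr
  rw [uIoc_of_le hR.le] at hr
  have hr0 : 0 < r := hr.1
  show (r ^ l) ^ 2 * ‖exp (-(mu ε * r)) * ser γ l ε r‖ ^ 2 = ‖ph γ l ε r‖ ^ 2 / r ^ 2
  unfold ph
  rw [mul_assoc, norm_mul ((r ^ (l + 1) : ℝ) : ℂ), norm_real, Real.norm_eq_abs, mul_pow, sq_abs,
    Real.rpow_add_one hr0.ne']
  field_simp

theorem Fx_tendsto (h1 : γ ^ 2 ≤ 1) (hl : 0 ≤ l) (hε : ε ∈ UU) :
    Tendsto (Fx γ l ε) atTop atTop := by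
  by_contra hn
  have hs := ph_sol (show -1 < l by linarith) γ ε
  have hc := cfl_nc hl γ ε
  obtain ⟨B, hB⟩ : ∃ B : ℝ, ∀ r, 0 < r → Fx γ l ε r ≤ B := by
    by_contra hb
    refine hn (tendsto_atTop.2 fun B => ?_)
    obtain ⟨r, hr⟩ := not_forall.1 (not_exists.1 hb B)
    obtain ⟨hr0, hr1⟩ := Classical.not_imp.1 hr
    filter_upwards [eventually_ge_atTop r] with x hx
    exact (not_le.1 hr1).le.trans (cfl_mono h1 hl hε hr0 (hr0.trans_le hx) hx)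
  have hi : 0 < ε.im := hε.2
  have hmass : ∀ a b, 0 < a → a ≤ b → ∫ r in a..b, ‖ph γ l ε r‖ ^ 2 ≤ B / ε.im := by
    intro a b ha hab
    have h2 := mass_le h1 hl hε ha hab
    have h3 := hB b (ha.trans_le hab)
    have h4 := Fx_pos h1 hl hε ha
    rw [le_div_iff₀ hi]; linarith
  obtain ⟨C, hC0, hC⟩ : ∃ C : ℝ, 0 ≤ C ∧ ∀ x, 1 ≤ x → -C ≤ (Qc γ l ε x).re := by
    refine ⟨2 * |(Ec γ ε).re| + |ε.re|, by positivity, fun x hx => ?_⟩
    have hx0 : 0 < x := by linarith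
    have h2 : 0 ≤ l * (l + 1) / x ^ 2 := by positivity
    have h3 : 2 * (Ec γ ε).re / x ≤ 2 * |(Ec γ ε).re| := by
      rw [div_le_iff₀ hx0]
      nlinarith [le_abs_self (Ec γ ε).re, abs_nonneg (Ec γ ε).re]
    rw [Qc_re]; linarith [le_abs_self ε.re]
  have hF := Fx_pos h1 hl hε one_pos
  have hlow : ∀ b, 1 ≤ b → ((starRingEnd ℂ) (ph γ l ε 1) * phD γ l ε 1).re
      + 2 * Fx γ l ε 1 * (b - 1) - (C + 1) * (B / ε.im)
      ≤ ((starRingEnd ℂ) (ph γ l ε b) * phD γ l ε b).re := by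
    intro b hb
    have hd : ∀ x, 0 < x → HasDerivAt (fun x => ((starRingEnd ℂ) (ph γ l ε x) * phD γ l ε x).re
        - 2 * Fx γ l ε 1 * x + (C + 1) * ∫ r in (1 : ℝ)..x, ‖ph γ l ε r‖ ^ 2)
        (‖phD γ l ε x‖ ^ 2 + (Qc γ l ε x).re * ‖ph γ l ε x‖ ^ 2 - 2 * Fx γ l ε 1 * 1
          + (C + 1) * ‖ph γ l ε x‖ ^ 2) x := fun x hx =>
      ((hs.energy hx).sub ((hasDerivAt_id x).const_mul _)).add
        ((cfl_ftc hc one_pos hx).const_mul _)
    have hm := cfl_le one_pos hb hd (fun x hx => by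
      have h2 : Fx γ l ε 1 ≤ Fx γ l ε x :=
        cfl_mono h1 hl hε (show (0 : ℝ) < 1 from one_pos) (show (0 : ℝ) < x by linarith) hx
      have h3 : Fx γ l ε x ≤ ‖ph γ l ε x‖ * ‖phD γ l ε x‖ := by
        unfold Fx
        refine (neg_le_abs _).trans ((abs_im_le_norm _).trans ?_)
        rw [norm_mul, norm_conj]
      have h4 := mul_le_mul_of_nonneg_right (hC x hx) (sq_nonneg ‖ph γ l ε x‖)
      nlinarith [sq_nonneg (‖ph γ l ε x‖ - ‖phD γ l ε x‖)])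
    simp only [intervalIntegral.integral_same] at hm
    have h5 := mul_le_mul_of_nonneg_left (hmass 1 b one_pos hb) (show 0 ≤ C + 1 by linarith)
    linarith
  obtain ⟨a, ha1, ha⟩ : ∃ a : ℝ, 1 ≤ a ∧ ∀ b, a ≤ b →
      0 ≤ ((starRingEnd ℂ) (ph γ l ε b) * phD γ l ε b).re := by
    refine ⟨1 + |((starRingEnd ℂ) (ph γ l ε 1) * phD γ l ε 1).re - (C + 1) * (B / ε.im)|
      / (2 * Fx γ l ε 1), le_add_of_nonneg_right (by positivity), fun b hb => ?_⟩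
    have h2 : |((starRingEnd ℂ) (ph γ l ε 1) * phD γ l ε 1).re - (C + 1) * (B / ε.im)|
        ≤ (b - 1) * (2 * Fx γ l ε 1) := (div_le_iff₀ (by positivity)).1 (by linarith)
    have h3 := hlow b (le_trans (le_add_of_nonneg_right (by positivity)) hb)
    have h4 := neg_abs_le
      (((starRingEnd ℂ) (ph γ l ε 1) * phD γ l ε 1).re - (C + 1) * (B / ε.im))
    linarith
  have ha0 : 0 < a := by linarith
  have hN : 0 < ‖ph γ l ε a‖ ^ 2 := pow_pos (norm_pos_iff.2 (ph_ne h1 hl hε ha0)) 2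
  have hmon : ∀ b, a ≤ b → ‖ph γ l ε a‖ ^ 2 ≤ ‖ph γ l ε b‖ ^ 2 := fun b hb =>
    cfl_le ha0 hb (fun x hx => hs.normsq hx) (fun x hx => by linarith [ha x hx])
  have hgrow : ∀ b, a ≤ b → ‖ph γ l ε a‖ ^ 2 * (b - a) ≤ B / ε.im := by
    intro b hb
    have hd : ∀ x, 0 < x → HasDerivAt
        (fun x => (∫ r in a..x, ‖ph γ l ε r‖ ^ 2) - ‖ph γ l ε a‖ ^ 2 * x)
        (‖ph γ l ε x‖ ^ 2 - ‖ph γ l ε a‖ ^ 2 * 1) x := fun x hx =>
      (cfl_ftc hc ha0 hx).sub ((hasDerivAt_id x).const_mul _)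
    have hm := cfl_le ha0 hb hd (fun x hx => by linarith [hmon x hx])
    simp only [intervalIntegral.integral_same] at hm
    linarith [hmass a b ha0 hb]
  have h6 := hgrow (a + (|B / ε.im| + 1) / ‖ph γ l ε a‖ ^ 2)
    (le_add_of_nonneg_right (by positivity))
  rw [add_sub_cancel_left, mul_div_cancel₀ _ hN.ne'] at h6
  linarith [le_abs_self (B / ε.im)]

theorem cfl_ic (h1 : γ ^ 2 ≤ 1) (hl : 0 ≤ l) (hε : ε ∈ UU) :
    ContinuousOn (fun r => 1 / ph γ l ε r ^ 2) (Ioi 0) :=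
  continuousOn_const.div ((cfl_pc hl γ ε).pow 2) fun _ hx => pow_ne_zero 2 (ph_ne h1 hl hε hx)

theorem cM_deriv_right (h1 : γ ^ 2 ≤ 1) (hl : 0 ≤ l) (hε : ε ∈ UU) {R M : ℝ} (hR : 0 < R)
    (hM : 0 < M) : HasDerivAt (cM γ l ε R) (1 / ph γ l ε M ^ 2) M := by
  exact cfl_ftc (cfl_ic h1 hl hε) hR hM

theorem cM_deriv_left (h1 : γ ^ 2 ≤ 1) (hl : 0 ≤ l) (hε : ε ∈ UU) {R M : ℝ} (hR : 0 < R)
    (hM : 0 < M) : HasDerivAt (fun r => cM γ l ε r M) (-(1 / ph γ l ε R ^ 2)) R := by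
  have e : (fun r => cM γ l ε r M) = fun r => -cM γ l ε M r := by
    funext r; unfold cM; rw [intervalIntegral.integral_symm]
  rw [e]
  exact (cM_deriv_right h1 hl hε hM hR).neg

/-- an interval integral of a holomorphic family is holomorphic -/
theorem cfl_param {f : ℂ → ℝ → ℂ} {U : Set ℂ} {a b : ℝ} (hU : IsOpen U)
    (hc : ContinuousOn (fun p : ℂ × ℝ => f p.1 p.2) (U ×ˢ uIcc a b))
    (hd : ∀ r ∈ uIcc a b, DifferentiableOn ℂ (fun z => f z r) U) :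
    DifferentiableOn ℂ (fun z => ∫ r in a..b, f z r) U := by
  intro z hz
  obtain ⟨ρ, hρ, hb⟩ := Metric.nhds_basis_closedBall.mem_iff.1 (hU.mem_nhds hz)
  obtain ⟨K, hK⟩ := ((isCompact_closedBall z ρ).prod isCompact_uIcc).exists_bound_of_continuousOn
    (hc.mono (prod_mono hb subset_rfl))
  have hcz : ∀ w ∈ U, ContinuousOn (f w) (uIcc a b) := fun w hw =>
    hc.comp (f := fun r : ℝ => (w, r)) (by fun_prop) fun r hr => ⟨hw, hr⟩
  have hme : ∀ w ∈ U, AEStronglyMeasurable (f w) (volume.restrict (uIoc a b)) := fun w hw =>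
    ((hcz w hw).mono uIoc_subset_uIcc).aestronglyMeasurable measurableSet_uIoc
  have hbb : ∀ w ∈ Metric.ball z (ρ / 2), Metric.closedBall w (ρ / 2) ⊆ Metric.closedBall z ρ :=
    fun w hw => Metric.closedBall_subset_closedBall' (by linarith [Metric.mem_ball.1 hw])
  have hin : ∀ w ∈ Metric.ball z (ρ / 2), w ∈ U := fun w hw =>
    hb (hbb w hw (Metric.mem_closedBall_self (by linarith)))
  have ht : Tendsto (fun n : ℕ => z + ((ρ / ((n : ℝ) + 1) : ℝ) : ℂ)) atTop (𝓝[≠] z) := by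
    refine tendsto_nhdsWithin_iff.2 ⟨?_, Eventually.of_forall fun n => ?_⟩
    · have h1 : Tendsto (fun n : ℕ => ρ / ((n : ℝ) + 1)) atTop (𝓝 0) :=
        tendsto_const_nhds.div_atTop (tendsto_atTop_add_const_right _ _ tendsto_natCast_atTop_atTop)
      have h2 := ((continuous_ofReal.tendsto 0).comp h1).const_add z
      rw [ofReal_zero, add_zero] at h2
      exact h2
    · have h1 : (0 : ℝ) < ρ / ((n : ℝ) + 1) := by positivity
      exact fun h => ofReal_ne_zero.2 h1.ne' (add_eq_left.1 h)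
  have hU' : ∀ n : ℕ, z + ((ρ / ((n : ℝ) + 1) : ℝ) : ℂ) ∈ U := fun n => hb (by
    have h1 : (0 : ℝ) < ρ / ((n : ℝ) + 1) := by positivity
    rw [Metric.mem_closedBall, dist_eq_norm, add_sub_cancel_left, norm_real, Real.norm_eq_abs,
      abs_of_pos h1]
    exact div_le_self hρ.le (by linarith [Nat.cast_nonneg (α := ℝ) n]))
  have hm' : AEStronglyMeasurable (fun r => deriv (fun w => f w r) z)
      (volume.restrict (uIoc a b)) := by
    refine aestronglyMeasurable_of_tendsto_ae atTop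
      (f := fun (n : ℕ) r => slope (fun w => f w r) z (z + ((ρ / ((n : ℝ) + 1) : ℝ) : ℂ)))
      (fun n => ?_) ?_
    · exact ((hme _ (hU' n)).sub (hme z hz)).const_smul
        (z + ((ρ / ((n : ℝ) + 1) : ℝ) : ℂ) - z)⁻¹
    · filter_upwards [ae_restrict_mem measurableSet_uIoc] with r hr
      exact (hasDerivAt_iff_tendsto_slope.1
        ((hd r (uIoc_subset_uIcc hr)).differentiableAt (hU.mem_nhds hz)).hasDerivAt).comp ht
  refine (intervalIntegral.hasDerivAt_integral_of_dominated_loc_of_deriv_le (μ := volume)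
    (F := f) (F' := fun w r => deriv (fun w => f w r) w) (bound := fun _ => K / (ρ / 2))
    (Metric.ball_mem_nhds z (half_pos hρ)) ?_ (hcz z hz).intervalIntegrable hm' ?_
    intervalIntegrable_const ?_).2.differentiableAt.differentiableWithinAt
  · filter_upwards [hU.mem_nhds hz] with w hw using hme w hw
  · refine Eventually.of_forall fun r hr w hw => ?_
    refine norm_deriv_le_of_forall_mem_sphere_norm_le (half_pos hρ) ?_ fun y hy => ?_
    · refine DifferentiableOn.diffContOnCl ?_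
      rw [closure_ball w (half_pos hρ).ne']
      exact (hd r (uIoc_subset_uIcc hr)).mono ((hbb w hw).trans hb)
    · exact hK (y, r) ⟨hbb w hw (Metric.sphere_subset_closedBall hy), uIoc_subset_uIcc hr⟩
  · exact Eventually.of_forall fun r hr w hw =>
      ((hd r (uIoc_subset_uIcc hr)).differentiableAt (hU.mem_nhds (hin w hw))).hasDerivAt

theorem cM_diff (h1 : γ ^ 2 ≤ 1) (hl : 0 ≤ l) {R M : ℝ} (hR : 0 < R) (hM : 0 < M) :
    DifferentiableOn ℂ (fun ε => cM γ l ε R M) UU := by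
  have hl' : -1 < l := by linarith
  have hsub : uIcc R M ⊆ Ioi 0 := fun x hx => lt_of_lt_of_le (lt_min hR hM) hx.1
  refine cfl_param (f := fun ε r => 1 / ph γ l ε r ^ 2) isOpen_UU ?_ ?_
  · refine continuousOn_const.div
      (((ph_cont2 h1 hl').mono (prod_mono UU_subset hsub)).pow 2) fun p hp => ?_
    exact pow_ne_zero 2 (ph_ne h1 hl hp.1 (hsub hp.2))
  · intro r hr
    exact (differentiableOn_const _).div (((ph_diff h1 hl' r).mono UU_subset).pow 2)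
      fun z hz => pow_ne_zero 2 (ph_ne h1 hl hz (hsub hr))

end Pool.Agent.Lib.MP_2347b2_mp.F
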