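import Pool.Agent.Lib.MP_2347b2_mp.F.Lag2

namespace Pool.Agent.Lib.MP_2347b2_mp.F

open MeasureTheory Set Filter Topology

variable {γ l : ℝ}

theorem nu_pos (hl : -1 < l) (n : ℕ) : 0 < nu l n := by
  have : (0 : ℝ) ≤ n := n.cast_nonneg
  rw [nu]
  linarith

theorem NN_pos (hl : -1 < l) (n : ℕ) : 0 < NN γ l n := by
  have := nu_pos hl n
  exact Real.sqrt_pos.2 (by positivity)

theorem NN_sq (γ l : ℝ) (n : ℕ) : NN γ l n ^ 2 = nu l n ^ 2 + γ ^ 2 := by
  exact Real.sq_sqrt (by positivity)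

theorem nu_le_NN (γ : ℝ) (hl : -1 < l) (n : ℕ) : nu l n ≤ NN γ l n := by
  exact Real.le_sqrt_of_sq_le (le_add_of_nonneg_right (sq_nonneg γ))

theorem EE_pos (hl : -1 < l) (n : ℕ) : 0 < EE γ l n := by
  exact div_pos (nu_pos hl n) (NN_pos hl n)

theorem EE_le_one (hl : -1 < l) (n : ℕ) : EE γ l n ≤ 1 := by
  exact (div_le_one (NN_pos hl n)).2 (nu_le_NN γ hl n)

theorem EE_sq (hl : -1 < l) (n : ℕ) : EE γ l n ^ 2 = 1 + γ ^ 2 * ep γ l n := by
  have h := (NN_pos (γ := γ) hl n).ne'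
  have e := NN_sq γ l n
  rw [EE, ep]
  field_simp
  linarith

theorem eig_ep_mono (hl : -1 < l) : StrictMono (ep γ l) := by
  intro m n h
  have h1 : nu l m < nu l n := by
    have : (m : ℝ) < n := by exact_mod_cast h
    rw [nu, nu]
    linarith
  have h2 := nu_pos hl m
  rw [ep, ep, neg_div, neg_div, neg_lt_neg_iff, NN_sq, NN_sq]
  exact one_div_lt_one_div_of_lt (by positivity) (by gcongr)

theorem EE_mono (hl : -1 < l) : Monotone (EE γ l) := by
  intro m n h
  refine (sq_le_sq₀ (EE_pos hl m).le (EE_pos hl n).le).1 ?_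
  rw [EE_sq hl, EE_sq hl]
  have := (eig_ep_mono (γ := γ) hl).monotone h
  gcongr

theorem ep_strictMono (hl : -1 < l) : StrictMono (ep γ l) := by
  exact eig_ep_mono hl

theorem ep_neg (hl : -1 < l) (n : ℕ) : ep γ l n < 0 := by
  exact div_neg_of_neg_of_pos (by norm_num) (pow_pos (NN_pos hl n) 2)

theorem ep_tendsto (hl : -1 < l) : Tendsto (ep γ l) atTop (𝓝 0) := by
  have h1 : Tendsto (nu l) atTop atTop :=
    tendsto_atTop_add_const_right _ 1
      (tendsto_atTop_add_const_right _ l tendsto_natCast_atTop_atTop)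
  exact tendsto_const_nhds.div_atTop ((tendsto_pow_atTop two_ne_zero).comp
    (tendsto_atTop_mono (nu_le_NN γ hl) h1))

theorem eig_Gamma_pos (hl : -1 < l) (n : ℕ) : 0 < Real.Gamma (n + 2 * l + 2) := by
  have : (0 : ℝ) ≤ n := n.cast_nonneg
  exact Real.Gamma_pos_of_pos (by linarith)

theorem eig_lag_zero (hl : -1 < l) (n : ℕ) : lag (2 * l + 1) n 0 =
    Real.Gamma (n + 2 * l + 2) / ((n.factorial : ℝ) * Real.Gamma (2 * l + 2)) := by
  rw [lag_at_zero (by linarith), show (n : ℝ) + (2 * l + 1) + 1 = n + 2 * l + 2 by ring,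
    show 2 * l + 1 + 1 = 2 * l + 2 by ring]

theorem c0_pos (hl : -1 < l) (n : ℕ) : 0 < c0 γ l n := by
  have h1 := eig_Gamma_pos hl n
  have h2 := NN_pos (γ := γ) hl n
  have h3 := nu_pos hl n
  have h4 : 0 < Real.Gamma (2 * l + 2) := Real.Gamma_pos_of_pos (by linarith)
  rw [c0, cf, eig_lag_zero hl]
  positivity

theorem c0_sq (hl : -1 < l) (n : ℕ) : c0 γ l n ^ 2 = (2 / NN γ l n) ^ (2 * l + 2)
    * Real.Gamma (n + 2 * l + 2)
    / ((n.factorial : ℝ) * Real.Gamma (2 * l + 2) ^ 2 * NN γ l n * nu l n) := by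
  have h1 := eig_Gamma_pos hl n
  have h2 := NN_pos (γ := γ) hl n
  have h3 := nu_pos hl n
  have h4 : 0 < Real.Gamma (2 * l + 2) := Real.Gamma_pos_of_pos (by linarith)
  have h5 : (0 : ℝ) < n.factorial := by positivity
  rw [c0, cf, eig_lag_zero hl, mul_pow, mul_pow, Real.sq_sqrt (by positivity),
    show 2 * l + 2 = (l + 1) * 2 by ring, Real.rpow_mul (by positivity), Real.rpow_two]
  rw [show 2 * l + 2 = (l + 1) * 2 by ring] at h4
  field_simp

theorem eig_lin (N r : ℝ) : HasDerivAt (fun r : ℝ => 2 * r / N) (2 / N) r := by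
  simpa using ((hasDerivAt_id r).const_mul 2).div_const N

theorem eig_amp {N r : ℝ} (c q : ℝ) (hN : 0 < N) (hr : 0 < r) :
    HasDerivAt (fun r : ℝ => c * (2 * r / N) ^ q * Real.exp (-(r / N)))
      (c * (2 * r / N) ^ q * Real.exp (-(r / N)) * (q / r - 1 / N)) r := by
  have h0 : 2 * r / N ≠ 0 := by positivity
  refine ((((eig_lin N r).rpow_const (p := q) (.inl h0)).const_mul c).mul
    ((hasDerivAt_id r).div_const N).neg.exp).congr_deriv ?_
  rw [Real.rpow_sub_one h0]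
  simp only [Pi.neg_apply, id]
  field_simp
  ring

theorem ff_deriv (hl : -1 < l) (n : ℕ) {r : ℝ} (hr : 0 < r) :
    HasDerivAt (ff γ l n) (fd γ l n r) r := by
  refine ((eig_amp (cf γ l n) (l + 1) (NN_pos hl n) hr).mul
    ((hasDerivAt_lag (2 * l + 1) n _).comp r (eig_lin (NN γ l n) r))).congr_deriv ?_
  simp only [fd, Function.comp]
  ring

theorem fd_deriv (hl : -1 < l) (n : ℕ) {r : ℝ} (hr : 0 < r) :
    HasDerivAt (fd γ l n) (QQ γ l n r * ff γ l n r) r := by
  have hN := NN_pos (γ := γ) hl n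
  have h0 : 2 * r / NN γ l n ≠ 0 := by positivity
  have h1 : HasDerivAt (fun r : ℝ => (l + 1) / r - 1 / NN γ l n) (-(l + 1) / r ^ 2) r :=
    (((hasDerivAt_const r (l + 1)).div (hasDerivAt_id r) hr.ne').sub_const _).congr_deriv
      (by simp)
  refine ((eig_amp (cf γ l n) (l + 1) hN hr).mul
    ((h1.mul ((hasDerivAt_lag (2 * l + 1) n _).comp r (eig_lin (NN γ l n) r))).sub
      (((hasDerivAt_lagP (2 * l + 1) n h0).comp r (eig_lin (NN γ l n) r)).const_mul
        (2 / NN γ l n)))).congr_deriv ?_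
  simp only [ff, QQ, EE, ep, nu, Function.comp, Pi.sub_apply, Pi.mul_apply]
  field_simp
  ring

theorem eig_cont_lag (α : ℝ) (n : ℕ) : Continuous (lag α n) := by
  unfold lag
  fun_prop

theorem eig_cont_lagP (α : ℝ) (n : ℕ) : Continuous (lagP α n) :=
  continuous_finsetSum _ fun j _ => eig_cont_lag α j

theorem eig_split {N r : ℝ} (q : ℝ) (hN : 0 < N) (hr : 0 < r) :
    (2 * r / N) ^ q = (2 / N) ^ q * r ^ q := by
  rw [← Real.mul_rpow (by positivity) hr.le, div_mul_eq_mul_div]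

theorem ff_lim (hl : -1 < l) (n : ℕ) :
    Tendsto (fun r : ℝ => ff γ l n r / r ^ (l + 1)) (𝓝[>] 0) (𝓝 (c0 γ l n)) := by
  have h1 := eig_cont_lag (2 * l + 1) n
  have h2 : Continuous fun r : ℝ => cf γ l n * (2 / NN γ l n) ^ (l + 1) *
      Real.exp (-(r / NN γ l n)) * lag (2 * l + 1) n (2 * r / NN γ l n) := by fun_prop
  refine ((h2.tendsto' 0 _ (by simp [c0])).mono_left nhdsWithin_le_nhds).congr' ?_
  filter_upwards [self_mem_nhdsWithin] with r hr
  have h3 : 0 < r ^ (l + 1) := Real.rpow_pos_of_pos hr _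
  rw [ff, eig_split _ (NN_pos hl n) hr]
  field_simp

theorem fd_lim (hl : -1 < l) (n : ℕ) :
    Tendsto (fun r : ℝ => fd γ l n r / r ^ l) (𝓝[>] 0) (𝓝 ((l + 1) * c0 γ l n)) := by
  have h1 := eig_cont_lag (2 * l + 1) n
  have h1' := eig_cont_lagP (2 * l + 1) n
  have h2 : Continuous fun r : ℝ => cf γ l n * (2 / NN γ l n) ^ (l + 1) *
      Real.exp (-(r / NN γ l n)) * ((l + 1 - r / NN γ l n) * lag (2 * l + 1) n (2 * r / NN γ l n)
        - 2 * r / NN γ l n * lagP (2 * l + 1) n (2 * r / NN γ l n)) := by fun_prop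
  refine ((h2.tendsto' 0 _ (by simp [c0]; ring)).mono_left nhdsWithin_le_nhds).congr' ?_
  filter_upwards [self_mem_nhdsWithin] with r hr
  have h0 : 0 < r := hr
  have h3 : 0 < r ^ l := Real.rpow_pos_of_pos hr _
  rw [fd, eig_split _ (NN_pos hl n) hr, Real.rpow_add_one h0.ne']
  field_simp

theorem eig_decay {N : ℝ} (hN : 0 < N) (α q : ℝ) (n : ℕ) :
    Tendsto (fun r : ℝ => r ^ q * Real.exp (-(r / N)) * lag α n (2 * r / N)) atTop (𝓝 0) := by
  simp only [lag, Finset.mul_sum]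
  refine (Finset.sum_const_zero (s := Finset.range (n + 1)) (M := ℝ)) ▸
    tendsto_finsetSum _ fun j _ => ?_
  generalize (-1) ^ j * (∏ i ∈ Finset.range (n - j), (α + j + 1 + i))
    / (((n - j).factorial : ℝ) * (j.factorial : ℝ)) = c
  have h := (tendsto_rpow_mul_exp_neg_mul_atTop_nhds_zero (q + j) N⁻¹ (inv_pos.2 hN)).const_mul
    (c * (2 / N) ^ j)
  rw [mul_zero] at h
  refine h.congr' ?_
  filter_upwards [eventually_gt_atTop 0] with r hr
  rw [Real.rpow_add_natCast hr.ne', show -N⁻¹ * r = -(r / N) by ring]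
  ring

theorem eig_decayP {N : ℝ} (hN : 0 < N) (α q : ℝ) (n : ℕ) :
    Tendsto (fun r : ℝ => r ^ q * Real.exp (-(r / N)) * lagP α n (2 * r / N)) atTop (𝓝 0) := by
  simp only [lagP, Finset.mul_sum]
  exact (Finset.sum_const_zero (s := Finset.range n) (M := ℝ)) ▸
    tendsto_finsetSum _ fun j _ => eig_decay hN α q j

theorem ff_decay (hl : -1 < l) (n : ℕ) (p : ℝ) :
    Tendsto (fun r : ℝ => r ^ p * ff γ l n r) atTop (𝓝 0) := by
  have hN := NN_pos (γ := γ) hl n
  have h := (eig_decay hN (2 * l + 1) (p + (l + 1)) n).const_mul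
    (cf γ l n * (2 / NN γ l n) ^ (l + 1))
  rw [mul_zero] at h
  refine h.congr' ?_
  filter_upwards [eventually_gt_atTop 0] with r hr
  rw [ff, eig_split _ hN hr, Real.rpow_add hr]
  ring

theorem fd_decay (hl : -1 < l) (n : ℕ) (p : ℝ) :
    Tendsto (fun r : ℝ => r ^ p * fd γ l n r) atTop (𝓝 0) := by
  have hN := NN_pos (γ := γ) hl n
  have h := ((((eig_decay hN (2 * l + 1) (p + l) n).const_mul (l + 1)).sub
    ((eig_decay hN (2 * l + 1) (p + (l + 1)) n).const_mul (1 / NN γ l n))).sub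
    ((eig_decayP hN (2 * l + 1) (p + (l + 1)) n).const_mul (2 / NN γ l n))).const_mul
    (cf γ l n * (2 / NN γ l n) ^ (l + 1))
  simp only [mul_zero, sub_zero] at h
  refine h.congr' ?_
  filter_upwards [eventually_gt_atTop 0] with r hr
  rw [fd, eig_split _ hN hr, Real.rpow_add hr, Real.rpow_add hr, Real.rpow_add_one hr.ne']
  field_simp

end Pool.Agent.Lib.MP_2347b2_mp.F
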