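import Pool.Agent.Lib.MP_2347b2_mp.F.CBasic
import Pool.Agent.Lib.MP_2347b2_mp.F.Eig

namespace Pool.Agent.Lib.MP_2347b2_mp.F

open MeasureTheory Set Filter Topology Complex

variable {γ l : ℝ}

theorem cr_sqrt {a : ℝ} (ha : 0 ≤ a) : Complex.sqrt a = (√a : ℝ) := by
  rw [Complex.sqrt_of_nonneg (by exact_mod_cast ha), ofReal_re]

theorem cr_mu {x : ℝ} (hx : x ≤ 0) : mu x = (√(-x) : ℝ) := by
  rw [mu, ← ofReal_neg, cr_sqrt (by linarith)]

theorem cr_Ec {x : ℝ} (hx : 0 ≤ 1 + γ ^ 2 * x) : Ec γ x = (√(1 + γ ^ 2 * x) : ℝ) := by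
  rw [Ec, ← cr_sqrt hx]
  push_cast
  rfl

/-- the real coefficients -/
noncomputable def crc (l m E : ℝ) : ℕ → ℝ
  | 0 => 1
  | j + 1 => crc l m E j * (2 * m * (j + l + 1) - 2 * E) / ((j + 1) * (j + 2 * l + 2))

theorem cr_cc {ε : ℂ} {m E : ℝ} (hm : mu ε = m) (hE : Ec γ ε = E) (j : ℕ) :
    cc γ l ε j = crc l m E j := by
  induction j with
  | zero => simp [cc, crc]
  | succ j ih =>
    rw [cc, crc, ih, hm, hE]
    push_cast
    rfl

theorem cr_ser {ε : ℂ} {m E : ℝ} (hm : mu ε = m) (hE : Ec γ ε = E) (r : ℝ) :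
    ser γ l ε r = (∑' j, crc l m E j * r ^ j : ℝ) := by
  rw [ser, ofReal_tsum]
  refine tsum_congr fun j => ?_
  rw [cr_cc hm hE]
  push_cast
  rfl

theorem cr_serD {ε : ℂ} {m E : ℝ} (hm : mu ε = m) (hE : Ec γ ε = E) (r : ℝ) :
    serD γ l ε r = (∑' j : ℕ, ((j : ℝ) + 1) * crc l m E (j + 1) * r ^ j : ℝ) := by
  rw [serD, ofReal_tsum]
  refine tsum_congr fun j => ?_
  rw [cr_cc hm hE]
  push_cast
  rfl

theorem cr_ph {ε : ℂ} {m E : ℝ} (hm : mu ε = m) (hE : Ec γ ε = E) (r : ℝ) :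
    ph γ l ε r = (r ^ (l + 1) * Real.exp (-(m * r)) * ∑' j, crc l m E j * r ^ j : ℝ) := by
  rw [ph, cr_ser hm hE, hm, ofReal_mul, ofReal_mul, ofReal_exp, ofReal_neg, ofReal_mul]

theorem cr_phD {ε : ℂ} {m E : ℝ} (hm : mu ε = m) (hE : Ec γ ε = E) (r : ℝ) :
    phD γ l ε r = (r ^ (l + 1) * Real.exp (-(m * r)) *
      (((l + 1) / r - m) * ∑' j, crc l m E j * r ^ j
        + ∑' j : ℕ, ((j : ℝ) + 1) * crc l m E (j + 1) * r ^ j) : ℝ) := by
  rw [phD, cr_ser hm hE, cr_serD hm hE, hm, ofReal_mul, ofReal_mul, ofReal_exp, ofReal_neg,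
    ofReal_mul, ofReal_add, ofReal_mul, ofReal_sub, ofReal_div, ofReal_add, ofReal_one]

theorem ep_gt (hl : 0 ≤ l) (h0 : 0 < γ) (n : ℕ) : -1 < ep γ l n := by
  have h1 : 1 ≤ nu l n := by
    have : (0 : ℝ) ≤ n := n.cast_nonneg
    rw [nu]
    linarith
  have h2 : 1 < nu l n ^ 2 + γ ^ 2 := by nlinarith
  rw [ep, NN_sq, neg_div, neg_lt_neg_iff, div_lt_one (by linarith)]
  exact h2

theorem Ec_ep (hl : -1 < l) (γ : ℝ) (n : ℕ) : Ec γ (ep γ l n) = EE γ l n := by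
  rw [cr_Ec (EE_sq (γ := γ) hl n ▸ sq_nonneg _), ← EE_sq hl, Real.sqrt_sq (EE_pos hl n).le]

theorem mu_ep (hl : -1 < l) (γ : ℝ) (n : ℕ) : mu (ep γ l n) = (1 / NN γ l n : ℝ) := by
  have h := NN_pos (γ := γ) hl n
  rw [cr_mu (ep_neg hl n).le, ep, show -(-1 / NN γ l n ^ 2) = (1 / NN γ l n) ^ 2 by ring,
    Real.sqrt_sq (by positivity)]

theorem Qc_ep (hl : -1 < l) (γ : ℝ) (n : ℕ) (r : ℝ) : Qc γ l (ep γ l n) r = QQ γ l n r := by
  rw [Qc, Ec_ep hl, QQ]
  push_cast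
  rfl

theorem cr_lag_coef (hl : -1 < l) (N : ℝ) (n j : ℕ) (hj : j ≤ n) :
    lgR (2 * l + 2) n * crc l (1 / N) (nu l n / N) j
      = lgR (2 * l + 2 + j) (n - j) * lgE j (2 / N) := by
  induction j with
  | zero => simp [crc, lgE_zero]
  | succ j ih =>
    have h0 : (0 : ℝ) ≤ j := j.cast_nonneg
    have h1 : (j : ℝ) + 1 ≠ 0 := by positivity
    have h2 : (j : ℝ) + 2 * l + 2 ≠ 0 := by linarith
    obtain ⟨m, rfl⟩ : ∃ m, n = j + 1 + m := ⟨n - (j + 1), by omega⟩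
    have a := ih (by omega)
    have b := lgR_two (2 * l + 2 + j) m
    have c := lgE_succ j (2 / N)
    rw [show j + 1 + m - j = m + 1 by omega] at a
    rw [show j + 1 + m - (j + 1) = m by omega, crc, ← mul_div_assoc, ← mul_assoc, a,
      div_eq_iff (mul_ne_zero h1 h2), nu]
    push_cast
    rw [← add_assoc]
    linear_combination (-2 / N * lgE j (2 / N)) * b
      - ((j + 2 * l + 2) * lgR (2 * l + 2 + j + 1) m) * c

theorem cr_coef_zero {N : ℝ} (n j : ℕ) (hj : n < j) : crc l (1 / N) (nu l n / N) j = 0 := by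
  induction j, hj using Nat.le_induction with
  | base =>
    rw [crc, nu, show 2 * (1 / N) * (n + l + 1) - 2 * ((n + l + 1) / N) = 0 by ring, mul_zero,
      zero_div]
  | succ j _ ih => rw [crc, ih, zero_mul, zero_div]

theorem cr_lag (hl : -1 < l) (N : ℝ) (n : ℕ) (r : ℝ) :
    lag (2 * l + 1) n (2 * r / N)
      = lag (2 * l + 1) n 0 * ∑' j, crc l (1 / N) (nu l n / N) j * r ^ j := by
  rw [tsum_eq_sum (s := Finset.range (n + 1)) fun j hj => by
    rw [cr_coef_zero n j (by simpa using hj), zero_mul], lag_zero_eq, lag_eq, Finset.mul_sum]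
  refine Finset.sum_congr rfl fun j hj => ?_
  rw [← mul_assoc, show 2 * l + 1 + 1 = 2 * l + 2 by ring,
    cr_lag_coef hl N n j (Nat.lt_succ_iff.1 (Finset.mem_range.1 hj)),
    show 2 * l + 1 + j + 1 = 2 * l + 2 + j by ring, lgE, lgE,
    show -(2 * r / N) = -(2 / N) * r by ring, mul_pow]
  ring

theorem cr_ff (hl : -1 < l) (γ : ℝ) (n : ℕ) {r : ℝ} (hr : 0 < r) :
    (ff γ l n r : ℂ) = c0 γ l n * ph γ l (ep γ l n) r := by
  have h := NN_pos (γ := γ) hl n
  rw [cr_ph (mu_ep hl γ n) (Ec_ep hl γ n), ← ofReal_mul, ofReal_inj, ff, c0, cr_lag hl,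
    eig_split _ h hr, EE, show 1 / NN γ l n * r = r / NN γ l n by ring]
  ring

theorem ff_eq_ph (hl : -1 < l) (γ : ℝ) (n : ℕ) {r : ℝ} (hr : 0 < r) :
    (ff γ l n r : ℂ) = c0 γ l n * ph γ l (ep γ l n) r ∧
    (fd γ l n r : ℂ) = c0 γ l n * phD γ l (ep γ l n) r := by
  refine ⟨cr_ff hl γ n hr, (ff_deriv (γ := γ) hl n hr).ofReal_comp.unique ?_⟩
  refine (((ph_sol hl γ (ep γ l n)).d1 r hr).const_mul (c0 γ l n : ℂ)).congr_of_eventuallyEq ?_
  filter_upwards [Ioi_mem_nhds hr] with t ht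
  exact cr_ff hl γ n ht

theorem ph_real {x : ℝ} (hx : x < 0) (hx' : 0 ≤ 1 + γ ^ 2 * x) (l r : ℝ) :
    (ph γ l x r).im = 0 ∧ (phD γ l x r).im = 0 ∧ (Qc γ l x r).im = 0 := by
  refine ⟨by rw [cr_ph (cr_mu hx.le) (cr_Ec hx'), ofReal_im],
    by rw [cr_phD (cr_mu hx.le) (cr_Ec hx'), ofReal_im], ?_⟩
  have : Qc γ l x r = (l * (l + 1) / r ^ 2 - 2 * √(1 + γ ^ 2 * x) / r - x : ℝ) := by
    rw [Qc, cr_Ec hx']
    push_cast
    rfl
  rw [this, ofReal_im]

theorem cr_head (a : ℕ → ℝ) (n : ℕ) {c : ℝ} (hc : 0 < c) :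
    ∀ᶠ r : ℝ in atTop, |∑ j ∈ Finset.range n, a j * r ^ j| < c * r ^ n := by
  have h : Tendsto (fun r : ℝ => ∑ j ∈ Finset.range n, a j * (r ^ j / r ^ n)) atTop (𝓝 0) := by
    refine (Finset.sum_const_zero (s := Finset.range n) (M := ℝ)) ▸
      tendsto_finsetSum _ fun j hj => ?_
    simpa using (tendsto_pow_div_pow_atTop_zero (Finset.mem_range.1 hj)).const_mul (a j)
  have h' := h.abs
  rw [abs_zero] at h'
  filter_upwards [h'.eventually (gt_mem_nhds hc), eventually_gt_atTop 0] with r h1 hr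
  have h2 : 0 < r ^ n := pow_pos hr n
  simp only [← mul_div_assoc, ← Finset.sum_div] at h1
  rwa [abs_div, abs_of_pos h2, div_lt_iff₀ h2] at h1

theorem cr_pos (a : ℕ → ℝ) (n : ℕ) (hs : ∀ r : ℝ, Summable fun j => a j * r ^ j)
    (ha : ∀ j, n ≤ j → 0 < a j) : ∀ᶠ r : ℝ in atTop, 0 < ∑' j, a j * r ^ j := by
  filter_upwards [cr_head a n (ha n le_rfl), eventually_gt_atTop 0] with r h1 hr
  have h2 : 0 ≤ ∑' j, a (j + (n + 1)) * r ^ (j + (n + 1)) :=
    tsum_nonneg fun j => (mul_pos (ha _ (by omega)) (pow_pos hr _)).le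
  rw [← (hs r).sum_add_tsum_nat_add (n + 1), Finset.sum_range_succ]
  linarith [(abs_lt.1 h1).1]

theorem cr_summ (hl : -1 < l) {ε : ℂ} {m E : ℝ} (hm : mu ε = m) (hE : Ec γ ε = E) (r : ℝ) :
    Summable fun j => crc l m E j * r ^ j := by
  refine Summable.of_norm_bounded (cc_summable hl γ ε r) fun j => ?_
  have h0 : (0 : ℝ) ≤ j := j.cast_nonneg
  rw [cr_cc hm hE, norm_real, norm_mul, norm_pow, mul_assoc, Real.norm_eq_abs r]
  exact le_mul_of_one_le_left (by positivity) (by nlinarith)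

theorem cr_step (hl : -1 < l) (m E : ℝ) (j : ℕ) : ((j : ℝ) + 1) * crc l m E (j + 1)
    = m * crc l m E j + crc l m E j * ((m * j - 2 * E) / (j + 2 * l + 2)) := by
  have h0 : (0 : ℝ) ≤ j := j.cast_nonneg
  have h1 : (j : ℝ) + 1 ≠ 0 := by positivity
  have h2 : (j : ℝ) + 2 * l + 2 ≠ 0 := by linarith
  rw [crc]
  field_simp
  ring

theorem cr_summT (hl : -1 < l) {ε : ℂ} {m E : ℝ} (hm : mu ε = m) (hE : Ec γ ε = E) (r : ℝ) :
    Summable fun j : ℕ => crc l m E j * ((m * j - 2 * E) / (j + 2 * l + 2)) * r ^ j := by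
  have h2 : 0 < 2 * l + 2 := by linarith
  refine Summable.of_norm_bounded
    ((cc_summable hl γ ε r).mul_left ((|m| + 2 * |E|) / (2 * l + 2))) fun j => ?_
  have h0 : (0 : ℝ) ≤ j := j.cast_nonneg
  have h1 : |(m * j - 2 * E) / (j + 2 * l + 2)| ≤ (|m| + 2 * |E|) / (2 * l + 2) * (j + 1) ^ 2 := by
    rw [abs_div, abs_of_pos (show (0 : ℝ) < j + 2 * l + 2 by linarith), div_mul_eq_mul_div]
    refine div_le_div₀ (by positivity) ((abs_sub _ _).trans ?_) h2 (by linarith)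
    rw [abs_mul, abs_mul, abs_of_nonneg h0, abs_two]
    nlinarith [mul_nonneg (abs_nonneg m) h0, mul_nonneg (abs_nonneg E) h0,
      mul_nonneg (abs_nonneg m) (sq_nonneg (j : ℝ)), mul_nonneg (abs_nonneg E) (sq_nonneg (j : ℝ)),
      abs_nonneg m]
  rw [cr_cc hm hE, norm_real, norm_mul, norm_mul, norm_pow, Real.norm_eq_abs r,
    Real.norm_eq_abs (_ / _), ← mul_assoc, ← mul_assoc, mul_comm ‖_‖]
  gcongr

/-- away from the eigenvalues the regular solution grows -/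
theorem ph_grows (hl : -1 < l) {x : ℝ} (hx : x < 0) (hx' : 0 < 1 + γ ^ 2 * x)
    (hn : ∀ n, x ≠ ep γ l n) : ∀ᶠ r : ℝ in atTop, 0 < (ph γ l x r).re * (phD γ l x r).re := by
  have hm := cr_mu hx.le
  have hE := cr_Ec hx'.le
  have m0 : 0 < √(-x) := Real.sqrt_pos.2 (by linarith)
  have E0 : 0 < √(1 + γ ^ 2 * x) := Real.sqrt_pos.2 hx'
  have m2 : √(-x) ^ 2 = -x := Real.sq_sqrt (by linarith)
  have E2 : √(1 + γ ^ 2 * x) ^ 2 = 1 + γ ^ 2 * x := Real.sq_sqrt hx'.le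
  generalize √(-x) = m at hm m0 m2
  generalize √(1 + γ ^ 2 * x) = E at hE E0 E2
  have c1 : ∀ j, crc l m E j ≠ 0 := by
    intro j
    induction j with
    | zero => simp [crc]
    | succ j ih =>
      have h0 : (0 : ℝ) ≤ j := j.cast_nonneg
      have h2 : (j : ℝ) + 2 * l + 2 ≠ 0 := by linarith
      refine div_ne_zero (mul_ne_zero ih fun h => hn j ?_) (mul_ne_zero (by positivity) h2)
      have h3 : E = m * (j + l + 1) := by linarith
      rw [ep, eq_div_iff (pow_pos (NN_pos hl j) 2).ne', NN_sq, nu]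
      rw [h3, mul_pow, m2] at E2
      linarith
  obtain ⟨n, hn⟩ := exists_nat_gt (2 * E / m)
  rw [div_lt_iff₀ m0] at hn
  have c2 : ∀ j : ℕ, n ≤ j → 0 < m * j - 2 * E := fun j hj => by
    have : (n : ℝ) ≤ j := by exact_mod_cast hj
    nlinarith
  have c3 : ∀ j, n ≤ j → 0 < crc l m E n * crc l m E j := by
    intro j hj
    induction j, hj using Nat.le_induction with
    | base => exact mul_self_pos.2 (c1 n)
    | succ j hj ih =>
      have h0 : (0 : ℝ) ≤ j := j.cast_nonneg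
      have h2 : 0 < (j : ℝ) + 2 * l + 2 := by linarith
      have h3 : 0 < 2 * m * (j + l + 1) - 2 * E := by
        nlinarith [c2 j hj, mul_pos m0 h2]
      rw [crc, ← mul_div_assoc, ← mul_assoc]
      positivity
  have s1 := cr_summ hl hm hE
  have s2 := cr_summT hl hm hE
  have p1 := cr_pos (fun j => crc l m E n * crc l m E j) n
    (fun r => by simpa only [mul_assoc] using (s1 r).mul_left (crc l m E n)) c3
  have p2 := cr_pos (fun j => crc l m E n * (crc l m E j * ((m * j - 2 * E) / (j + 2 * l + 2)))) n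
    (fun r => by simpa only [mul_assoc] using (s2 r).mul_left (crc l m E n)) fun j hj => by
      have h0 : (0 : ℝ) ≤ j := j.cast_nonneg
      rw [← mul_assoc]
      exact mul_pos (c3 j hj) (div_pos (c2 j hj) (by linarith))
  filter_upwards [p1, p2, eventually_gt_atTop 0] with r q1 q2 hr
  have e : ∑' j : ℕ, ((j : ℝ) + 1) * crc l m E (j + 1) * r ^ j = m * ∑' j, crc l m E j * r ^ j
      + ∑' j : ℕ, crc l m E j * ((m * j - 2 * E) / (j + 2 * l + 2)) * r ^ j := by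
    rw [← tsum_mul_left, ← ((s1 r).mul_left m).tsum_add (s2 r)]
    exact tsum_congr fun j => by rw [cr_step hl]; ring
  simp only [mul_assoc (crc l m E n), tsum_mul_left] at q1 q2
  rw [cr_ph hm hE, cr_phD hm hE, ofReal_re, ofReal_re, e]
  generalize ∑' j, crc l m E j * r ^ j = S at q1
  generalize ∑' j : ℕ, crc l m E j * ((m * j - 2 * E) / (j + 2 * l + 2)) * r ^ j = T at q2
  have a1 : 0 < S * T := by
    have := mul_pos q1 q2
    rw [mul_mul_mul_comm] at this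
    exact (pos_iff_pos_of_mul_pos this).1 (mul_self_pos.2 (c1 n))
  have a2 : 0 ≤ (l + 1) / r * (S * S) := mul_nonneg (div_pos (by linarith) hr).le (mul_self_nonneg S)
  have a3 : 0 < r ^ (l + 1) * Real.exp (-(m * r)) := by positivity
  generalize r ^ (l + 1) * Real.exp (-(m * r)) = A at a3
  rw [show A * S * (A * (((l + 1) / r - m) * S + (m * S + T)))
    = A * A * ((l + 1) / r * (S * S) + S * T) by ring]
  positivity

theorem ff_ne_eventually (hl : -1 < l) (γ : ℝ) (n : ℕ) : ∀ᶠ r : ℝ in atTop, ff γ l n r ≠ 0 := by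
  have hN := NN_pos (γ := γ) hl n
  have h1 : cf γ l n ≠ 0 := fun h => (c0_pos (γ := γ) hl n).ne' (by rw [c0, h, zero_mul, zero_mul])
  have h2 := cr_head (fun j => (-1) ^ j * (∏ i ∈ Finset.range (n - j), (2 * l + 1 + j + 1 + i))
    / (((n - j).factorial : ℝ) * (j.factorial : ℝ))) n (c := 1 / n.factorial) (by positivity)
  have h3 : Tendsto (fun r : ℝ => 2 * r / NN γ l n) atTop atTop :=
    (tendsto_id.const_mul_atTop two_pos).atTop_div_const hN
  filter_upwards [h3.eventually h2, eventually_gt_atTop 0] with r h hr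
  refine mul_ne_zero (mul_ne_zero (mul_ne_zero h1 (by positivity)) (Real.exp_pos _).ne') ?_
  rw [lag, Finset.sum_range_succ]
  intro e
  rw [eq_neg_of_add_eq_zero_left e, abs_neg, Nat.sub_self, Finset.prod_range_zero,
    Nat.factorial_zero, Nat.cast_one, mul_one, one_mul, abs_mul, abs_div, abs_pow, abs_neg, abs_one,
    one_pow, Nat.abs_cast, abs_of_pos (by positivity)] at h
  exact h.false

end Pool.Agent.Lib.MP_2347b2_mp.F
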