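import Pool.Agent.Lib.MP_2347b2_mp.F.CFlux

namespace Pool.Agent.Lib.MP_2347b2_mp.F

open MeasureTheory Set Filter Topology Complex

/-- the subdominant solution -/
noncomputable def ps (γ l : ℝ) (ε : ℂ) (r : ℝ) : ℂ := ph γ l ε r * cI γ l ε r

/-- its derivative -/
noncomputable def psD (γ l : ℝ) (ε : ℂ) (r : ℝ) : ℂ := phD γ l ε r * cI γ l ε r - 1 / ph γ l ε r

variable {γ l : ℝ} {ε : ℂ}

/-- the second solution with a free constant -/
theorem second_sol (h1 : γ ^ 2 ≤ 1) (hl : 0 ≤ l) (hε : ε ∈ UU) {M : ℝ} (hM : 0 < M) (e : ℂ) :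
    Sol (Qc γ l ε) (fun r => ph γ l ε r * (cM γ l ε r M + e))
      (fun r => phD γ l ε r * (cM γ l ε r M + e) - 1 / ph γ l ε r) := by
  have hl' : (-1 : ℝ) < l := by linarith
  refine ⟨fun r hr => ?_, fun r hr => ?_⟩
  · have hp := ph_ne h1 hl hε hr
    have h := ((ph_sol hl' γ ε).d1 r hr).mul ((cM_deriv_left h1 hl hε hr hM).add_const e)
    refine h.congr_deriv ?_
    field_simp
    ring
  · have hp := ph_ne h1 hl hε hr
    have h := (((ph_sol hl' γ ε).d2 r hr).mul ((cM_deriv_left h1 hl hε hr hM).add_const e)).sub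
      ((hasDerivAt_const r (1 : ℂ)).div ((ph_sol hl' γ ε).d1 r hr) hp)
    refine h.congr_deriv ?_
    field_simp
    ring

theorem flux_sub (p q d : ℂ) (hp : p ≠ 0) :
    |((starRingEnd ℂ) (p * d) * (q * d - 1 / p)).im - ((starRingEnd ℂ) p * q).im * ‖d‖ ^ 2|
      ≤ ‖d‖ := by
  have e1 : (starRingEnd ℂ) (p * d) * (q * d - 1 / p)
      = (starRingEnd ℂ) p * q * ((‖d‖ ^ 2 : ℝ) : ℂ) - (starRingEnd ℂ) (p * d) / p := by
    rw [← Complex.normSq_eq_norm_sq, Complex.normSq_eq_conj_mul_self, map_mul]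
    ring
  have e2 : ‖(starRingEnd ℂ) (p * d) / p‖ = ‖d‖ := by
    have : ‖p‖ ≠ 0 := norm_ne_zero_iff.2 hp
    rw [norm_div, Complex.norm_conj, norm_mul]
    field_simp
  rw [e1, Complex.sub_im, Complex.im_mul_ofReal, sub_sub_cancel_left, abs_neg, ← e2]
  exact Complex.abs_im_le_norm _

theorem wt_pos (h1 : γ ^ 2 ≤ 1) (hε : ε ∈ UU) {r : ℝ} (hr : 0 < r) :
    ε.im ≤ 2 * (Ec γ ε).im / r + ε.im := by
  have := Ec_im_nonneg h1 hε.1 hε.2.le
  have h2 : 0 ≤ 2 * (Ec γ ε).im / r := by positivity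
  linarith

theorem flux_anti (h1 : γ ^ 2 ≤ 1) (hε : ε ∈ UU) {u u' : ℝ → ℂ} (hS : Sol (Qc γ l ε) u u') :
    AntitoneOn (fun r => ((starRingEnd ℂ) (u r) * u' r).im) (Ioi 0) := by
  refine antitoneOn_of_deriv_nonpos (convex_Ioi 0)
    (fun r hr => (hS.flux hr).continuousAt.continuousWithinAt)
    (fun r hr => ?_) (fun r hr => ?_)
  · rw [interior_Ioi] at hr
    exact (hS.flux hr).differentiableAt.differentiableWithinAt
  · rw [interior_Ioi] at hr
    rw [(hS.flux hr).deriv, Qc_im]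
    have h2 := wt_pos h1 hε hr
    have h3 : 0 < ε.im := hε.2
    have h4 : 0 ≤ ‖u r‖ ^ 2 := by positivity
    nlinarith

/-- nesting circles -/
theorem cM_le (h1 : γ ^ 2 ≤ 1) (hl : 0 ≤ l) (hε : ε ∈ UU) {M N : ℝ} (hM : 0 < M) (hMN : M ≤ N) :
    ‖cM γ l ε M N‖ ≤ 1 / Fx γ l ε M := by
  have hS := second_sol h1 hl hε (hM.trans_le hMN) 0
  have ha := flux_anti h1 hε hS (mem_Ioi.2 hM) (mem_Ioi.2 (hM.trans_le hMN)) hMN
  have h0 : cM γ l ε N N = 0 := by simp [cM]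
  simp only [h0, add_zero, mul_zero, map_zero, zero_mul, zero_im] at ha
  have hF := Fx_pos h1 hl hε hM
  have hb := abs_le.1 (flux_sub (ph γ l ε M) (phD γ l ε M) (cM γ l ε M N) (ph_ne h1 hl hε hM))
  have h2 : Fx γ l ε M * ‖cM γ l ε M N‖ ^ 2 ≤ ‖cM γ l ε M N‖ := by
    unfold Fx
    linarith [hb.1, hb.2]
  rw [le_div_iff₀ hF]
  rcases (norm_nonneg (cM γ l ε M N)).eq_or_lt with h | h
  · rw [← h]; simp
  · refine le_of_mul_le_mul_left ?_ h
    nlinarith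

theorem cM_add (h1 : γ ^ 2 ≤ 1) (hl : 0 ≤ l) (hε : ε ∈ UU) {R M N : ℝ} (hR : 0 < R) (hM : 0 < M)
    (hN : 0 < N) : cM γ l ε R N = cM γ l ε R M + cM γ l ε M N := by
  have hl' : (-1 : ℝ) < l := by linarith
  have hc : ContinuousOn (fun r => 1 / ph γ l ε r ^ 2) (Ioi 0) := fun r hr =>
    (continuousAt_const.div (((ph_sol hl' γ ε).d1 r hr).continuousAt.pow 2)
      (pow_ne_zero 2 (ph_ne h1 hl hε hr))).continuousWithinAt
  have hi : ∀ a b : ℝ, 0 < a → 0 < b →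
      IntervalIntegrable (fun r => 1 / ph γ l ε r ^ 2) volume a b := fun a b ha hb =>
    (hc.mono fun r hr => lt_of_lt_of_le (lt_min ha hb) hr.1).intervalIntegrable
  exact (intervalIntegral.integral_add_adjacent_intervals (hi R M hR hM) (hi M N hM hN)).symm

theorem cM_tendsto (h1 : γ ^ 2 ≤ 1) (hl : 0 ≤ l) (hε : ε ∈ UU) {R : ℝ} (hR : 0 < R) :
    Tendsto (cM γ l ε R) atTop (𝓝 (cI γ l ε R)) := by
  refine CauchySeq.tendsto_limUnder (Metric.cauchySeq_iff'.2 fun η hη => ?_)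
  have h0 : Tendsto (fun M => 1 / Fx γ l ε M) atTop (𝓝 0) := by
    simp only [one_div]
    exact (Fx_tendsto h1 hl hε).inv_tendsto_atTop
  obtain ⟨M, hM, hM'⟩ := ((eventually_gt_atTop (0 : ℝ)).and (h0.eventually (gt_mem_nhds hη))).exists
  refine ⟨M, fun N hN => ?_⟩
  rw [dist_eq_norm, cM_add h1 hl hε hR hM (hM.trans_le hN), add_sub_cancel_left]
  exact (cM_le h1 hl hε hM hN).trans_lt hM'

theorem cI_split (h1 : γ ^ 2 ≤ 1) (hl : 0 ≤ l) (hε : ε ∈ UU) {R M : ℝ} (hR : 0 < R) (hM : 0 < M) :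
    cI γ l ε R = cM γ l ε R M + cI γ l ε M := by
  refine tendsto_nhds_unique (cM_tendsto h1 hl hε hR) ?_
  refine ((cM_tendsto h1 hl hε hM).const_add (cM γ l ε R M)).congr' ?_
  filter_upwards [eventually_gt_atTop (0 : ℝ)] with N hN
  exact (cM_add h1 hl hε hR hM hN).symm

theorem cI_le (h1 : γ ^ 2 ≤ 1) (hl : 0 ≤ l) (hε : ε ∈ UU) {M : ℝ} (hM : 0 < M) :
    ‖cI γ l ε M‖ ≤ 1 / Fx γ l ε M := by
  refine le_of_tendsto (cM_tendsto h1 hl hε hM).norm ?_
  filter_upwards [eventually_ge_atTop M] with N hN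
  exact cM_le h1 hl hε hM hN

theorem cI_diff (h1 : γ ^ 2 ≤ 1) (hl : 0 ≤ l) {R : ℝ} (hR : 0 < R) :
    DifferentiableOn ℂ (fun ε => cI γ l ε R) UU := by
  have hl' : (-1 : ℝ) < l := by linarith
  refine TendstoLocallyUniformlyOn.differentiableOn (φ := atTop)
    (F := fun (M : ℝ) ε => cM γ l ε R M) ?_ ?_ isOpen_UU
  · refine Metric.tendstoLocallyUniformlyOn_iff.2 fun η hη ε₀ h0 => ?_
    obtain ⟨M₀, hM₀, hb⟩ := ((eventually_gt_atTop (0 : ℝ)).and
      ((Fx_tendsto h1 hl h0).eventually_gt_atTop (1 / η))).exists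
    have c1 : ContinuousWithinAt (fun ε => ph γ l ε M₀) UU ε₀ :=
      ((ph_diff h1 hl' M₀).mono UU_subset).continuousOn ε₀ h0
    have c2 : ContinuousWithinAt (fun ε => phD γ l ε M₀) UU ε₀ :=
      ((phD_diff h1 hl' M₀).mono UU_subset).continuousOn ε₀ h0
    have c3 : ContinuousWithinAt (fun ε => Fx γ l ε M₀) UU ε₀ :=
      (Complex.continuous_im.continuousAt.comp_continuousWithinAt
        ((Complex.continuous_conj.continuousAt.comp_continuousWithinAt c1).mul c2)).neg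
    have e1 : ∀ᶠ ε in 𝓝[UU] ε₀, 1 / η < Fx γ l ε M₀ := c3.eventually (lt_mem_nhds hb)
    refine ⟨_, e1.and self_mem_nhdsWithin, ?_⟩
    filter_upwards [eventually_ge_atTop M₀] with M hM ε hε
    have hM' : 0 < M := hM₀.trans_le hM
    rw [dist_eq_norm, cI_split h1 hl hε.2 hR hM', add_sub_cancel_left]
    refine (cI_le h1 hl hε.2 hM').trans_lt ?_
    have h2 : 1 / η < Fx γ l ε M := hε.1.trans_le (Fx_mono h1 hl hε.2 hM₀ hM' hM)
    rw [div_lt_iff₀ (Fx_pos h1 hl hε.2 hM')]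
    rw [div_lt_iff₀ hη] at h2
    linarith
  · filter_upwards [eventually_gt_atTop (0 : ℝ)] with M hM
    exact cM_diff h1 hl hR hM

theorem ps_sol (h1 : γ ^ 2 ≤ 1) (hl : 0 ≤ l) (hε : ε ∈ UU) :
    Sol (Qc γ l ε) (ps γ l ε) (psD γ l ε) := by
  have hS := second_sol h1 hl hε one_pos (cI γ l ε 1)
  refine ⟨fun r hr => ?_, fun r hr => ?_⟩
  · have h := hS.d1 r hr
    rw [← cI_split h1 hl hε hr one_pos] at h
    refine h.congr_of_eventuallyEq ?_
    filter_upwards [Ioi_mem_nhds hr] with t ht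
    rw [← cI_split h1 hl hε ht one_pos, ps]
  · have h := hS.d2 r hr
    rw [← cI_split h1 hl hε hr one_pos] at h
    refine h.congr_of_eventuallyEq ?_
    filter_upwards [Ioi_mem_nhds hr] with t ht
    rw [← cI_split h1 hl hε ht one_pos, psD]

theorem ps_wr (h1 : γ ^ 2 ≤ 1) (hl : 0 ≤ l) (hε : ε ∈ UU) {r : ℝ} (hr : 0 < r) :
    phD γ l ε r * ps γ l ε r - ph γ l ε r * psD γ l ε r = 1 := by
  have hp := ph_ne h1 hl hε hr
  unfold ps psD
  field_simp
  ring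

theorem ps_flux_tendsto (h1 : γ ^ 2 ≤ 1) (hl : 0 ≤ l) (hε : ε ∈ UU) :
    Tendsto (fun r => ((starRingEnd ℂ) (ps γ l ε r) * psD γ l ε r).im) atTop (𝓝 0) := by
  have h0 : Tendsto (fun M => 2 * (Fx γ l ε M)⁻¹) atTop (𝓝 0) := by
    simpa using (Fx_tendsto h1 hl hε).inv_tendsto_atTop.const_mul 2
  refine squeeze_zero_norm' ?_ h0
  filter_upwards [eventually_gt_atTop (0 : ℝ)] with M hM
  have hF := Fx_pos h1 hl hε hM
  have hb := abs_le.1 (flux_sub (ph γ l ε M) (phD γ l ε M) (cI γ l ε M) (ph_ne h1 hl hε hM))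
  have hc := cI_le h1 hl hε hM
  have h2 : Fx γ l ε M * ‖cI γ l ε M‖ ^ 2 ≤ ‖cI γ l ε M‖ := by
    rw [le_div_iff₀ hF] at hc
    nlinarith [norm_nonneg (cI γ l ε M)]
  have h3 : 0 ≤ Fx γ l ε M * ‖cI γ l ε M‖ ^ 2 := by positivity
  rw [one_div] at hc
  have h4 : ((starRingEnd ℂ) (ph γ l ε M) * phD γ l ε M).im = -Fx γ l ε M := by simp [Fx]
  rw [h4] at hb
  rw [Real.norm_eq_abs, abs_le]
  unfold ps psD
  constructor <;> linarith [hb.1, hb.2, norm_nonneg (cI γ l ε M)]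

/-- the subdominant solution is square integrable -/
theorem ps_mass (h1 : γ ^ 2 ≤ 1) (hl : 0 ≤ l) (hε : ε ∈ UU) {R : ℝ} (hR : 0 < R) :
    IntegrableOn (fun r => ‖ps γ l ε r‖ ^ 2) (Ioi R) ∧
    ∫ r in Ioi R, (2 * (Ec γ ε).im / r + ε.im) * ‖ps γ l ε r‖ ^ 2
      = ((starRingEnd ℂ) (ps γ l ε R) * psD γ l ε R).im := by
  have hS := ps_sol h1 hl hε
  have hd : ∀ r ∈ Ici R, HasDerivAt (fun r => -((starRingEnd ℂ) (ps γ l ε r) * psD γ l ε r).im)
      ((2 * (Ec γ ε).im / r + ε.im) * ‖ps γ l ε r‖ ^ 2) r := fun r hr => by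
    refine (hS.flux (hR.trans_le hr)).neg.congr_deriv ?_
    rw [Qc_im]
    ring
  have hi : 0 < ε.im := hε.2
  have hp : ∀ r ∈ Ioi R, 0 ≤ (2 * (Ec γ ε).im / r + ε.im) * ‖ps γ l ε r‖ ^ 2 := fun r hr =>
    mul_nonneg (hi.le.trans (wt_pos h1 hε (hR.trans hr))) (by positivity)
  have ht := (ps_flux_tendsto h1 hl hε).neg
  refine ⟨?_, ?_⟩
  · have hc : ContinuousOn (fun r => ‖ps γ l ε r‖ ^ 2) (Ioi R) := fun r hr =>
      ((hS.d1 r (hR.trans hr)).continuousAt.norm.pow 2).continuousWithinAt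
    refine Integrable.mono' ((integrableOn_Ioi_deriv_of_nonneg' hd hp ht).div_const ε.im)
      (hc.aestronglyMeasurable measurableSet_Ioi) ?_
    filter_upwards [ae_restrict_mem measurableSet_Ioi] with r hr
    rw [Real.norm_of_nonneg (by positivity), le_div_iff₀ hi, mul_comm]
    exact mul_le_mul_of_nonneg_right (wt_pos h1 hε (hR.trans hr)) (by positivity)
  · rw [integral_Ioi_of_hasDerivAt_of_nonneg' hd hp ht]
    simp

theorem ps_flux_pos (h1 : γ ^ 2 ≤ 1) (hl : 0 ≤ l) (hε : ε ∈ UU) {R : ℝ} (hR : 0 < R) :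
    0 < ((starRingEnd ℂ) (ps γ l ε R) * psD γ l ε R).im := by
  have hS := ps_sol h1 hl hε
  have ha := flux_anti h1 hε hS
  have hn : ∀ r, 0 < r → 0 ≤ ((starRingEnd ℂ) (ps γ l ε r) * psD γ l ε r).im := fun r hr => by
    refine le_of_tendsto (ps_flux_tendsto h1 hl hε) ?_
    filter_upwards [eventually_ge_atTop r] with t ht
    exact ha hr (hr.trans_le ht) ht
  refine (hn R hR).lt_of_ne fun h0 => ?_
  have hz : ∀ r, R < r → ((starRingEnd ℂ) (ps γ l ε r) * psD γ l ε r).im = 0 := fun r hr =>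
    le_antisymm (h0 ▸ ha hR (hR.trans hr) hr.le) (hn r (hR.trans hr))
  have hp : ∀ r, R < r → ps γ l ε r = 0 := fun r hr => by
    have d0 : HasDerivAt (fun r => ((starRingEnd ℂ) (ps γ l ε r) * psD γ l ε r).im) 0 r := by
      refine (hasDerivAt_const r (0 : ℝ)).congr_of_eventuallyEq ?_
      filter_upwards [Ioi_mem_nhds hr] with t ht
      exact hz t ht
    have e := (hS.flux (hR.trans hr)).unique d0
    rw [Qc_im] at e
    have h2 := wt_pos h1 hε (hR.trans hr)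
    have h3 : 0 < ε.im := hε.2
    rcases mul_eq_zero.1 e with e | e
    · linarith
    · simpa using e
  have hr : R < R + 1 := by linarith
  have d0 : HasDerivAt (ps γ l ε) 0 (R + 1) := by
    refine (hasDerivAt_const (R + 1) (0 : ℂ)).congr_of_eventuallyEq ?_
    filter_upwards [Ioi_mem_nhds hr] with t ht
    exact hp t ht
  have e := (hS.d1 _ (hR.trans hr)).unique d0
  have w := ps_wr h1 hl hε (hR.trans hr)
  rw [e, hp _ hr] at w
  simp at w

theorem ps_ne (h1 : γ ^ 2 ≤ 1) (hl : 0 ≤ l) (hε : ε ∈ UU) {R : ℝ} (hR : 0 < R) :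
    ps γ l ε R ≠ 0 := by
  intro h
  have := ps_flux_pos h1 hl hε hR
  simp [h] at this

theorem gg_eq (γ l R : ℝ) (ε : ℂ) : gg γ l R ε = ph γ l ε R * ps γ l ε R := by
  unfold gg ps
  ring

theorem gg_ne (h1 : γ ^ 2 ≤ 1) (hl : 0 ≤ l) (hε : ε ∈ UU) {R : ℝ} (hR : 0 < R) :
    gg γ l R ε ≠ 0 := by
  rw [gg_eq]
  exact mul_ne_zero (ph_ne h1 hl hε hR) (ps_ne h1 hl hε hR)

theorem mp_eq (h1 : γ ^ 2 ≤ 1) (hl : 0 ≤ l) (hε : ε ∈ UU) {R : ℝ} (hR : 0 < R) :
    mp γ l R ε = -psD γ l ε R / ps γ l ε R := by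
  have hp := ph_ne h1 hl hε hR
  have hq := ps_ne h1 hl hε hR
  have w := ps_wr h1 hl hε hR
  rw [mp, gg_eq, mm]
  field_simp
  linear_combination -w

theorem mp_im_neg (h1 : γ ^ 2 ≤ 1) (hl : 0 ≤ l) (hε : ε ∈ UU) {R : ℝ} (hR : 0 < R) :
    (mp γ l R ε).im < 0 := by
  have hq := ps_ne h1 hl hε hR
  have hf := ps_flux_pos h1 hl hε hR
  have hn : 0 < Complex.normSq (ps γ l ε R) := Complex.normSq_pos.2 hq
  rw [mp_eq h1 hl hε hR, Complex.div_im, ← sub_div]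
  refine div_neg_of_neg_of_pos ?_ hn
  simp only [Complex.mul_im, Complex.conj_re, Complex.conj_im, Complex.neg_im, Complex.neg_re] at hf ⊢
  linarith

theorem mp_deriv (h1 : γ ^ 2 ≤ 1) (hl : 0 ≤ l) (hε : ε ∈ UU) {R : ℝ} (hR : 0 < R) :
    HasDerivAt (fun r => mp γ l r ε) (mp γ l R ε ^ 2 - Qc γ l ε R) R := by
  have hS := ps_sol h1 hl hε
  have hq := ps_ne h1 hl hε hR
  have h := (hS.d2 R hR).neg.div (hS.d1 R hR) hq
  rw [mp_eq h1 hl hε hR]
  refine (h.congr_deriv ?_).congr_of_eventuallyEq ?_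
  · simp only [Pi.neg_apply]
    field_simp
    ring
  · filter_upwards [Ioi_mem_nhds hR] with t ht
    exact mp_eq h1 hl hε ht

theorem gg_inv (h1 : γ ^ 2 ≤ 1) (hl : 0 ≤ l) (hε : ε ∈ UU) {R : ℝ} (hR : 0 < R) :
    gg γ l R ε = 1 / (mm γ l R ε + mp γ l R ε) := by
  rw [mp, add_sub_cancel, one_div_one_div]

theorem gg_n (h1 : γ ^ 2 ≤ 1) (hl : 0 ≤ l) (hε : ε ∈ UU) {R : ℝ} (hR : 0 < R) :
    gg γ l R ε = (√R : ℝ) / (nm γ l R ε + np γ l R ε) ∧ (nm γ l R ε).im < 0 ∧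
      (np γ l R ε).im < 0 := by
  have hs : 0 < √R := Real.sqrt_pos.2 hR
  have hs' : ((√R : ℝ) : ℂ) ≠ 0 := ofReal_ne_zero.2 hs.ne'
  have e : (1 / (4 * (R : ℂ))) = ((1 / (4 * R) : ℝ) : ℂ) := by push_cast; rfl
  refine ⟨?_, ?_, ?_⟩
  · rw [gg_inv h1 hl hε hR, nm, np, ← mul_add, sub_add_add_cancel, ← div_div, div_self hs']
  · rw [nm, e, im_ofReal_mul, sub_im, ofReal_im, sub_zero]
    exact mul_neg_of_pos_of_neg hs (mm_im_neg h1 hl hε hR)
  · rw [np, e, im_ofReal_mul, add_im, ofReal_im, add_zero]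
    exact mul_neg_of_pos_of_neg hs (mp_im_neg h1 hl hε hR)

theorem gg_im_pos (h1 : γ ^ 2 ≤ 1) (hl : 0 ≤ l) (hε : ε ∈ UU) {R : ℝ} (hR : 0 < R) :
    0 < (gg γ l R ε).im := by
  have a : (mm γ l R ε + mp γ l R ε).im < 0 :=
    add_neg (mm_im_neg h1 hl hε hR) (mp_im_neg h1 hl hε hR)
  rw [gg_inv h1 hl hε hR, one_div, inv_im]
  exact div_pos (neg_pos.2 a) (normSq_pos.2 fun h => by rw [h] at a; exact lt_irrefl _ a)

theorem gab_eq (h1 : γ ^ 2 ≤ 1) (hl : 0 ≤ l) (hε : ε ∈ UU) {R : ℝ} (hR : 0 < R) (a b : ℝ) :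
    gab γ l R a b ε
      = (a * ph γ l ε R + b * phD γ l ε R) * (a * ps γ l ε R + b * psD γ l ε R) := by
  have := ph_ne h1 hl hε hR
  rw [gab, gg, mm, ps, psD]
  field_simp
  ring

theorem gab_eq' (h1 : γ ^ 2 ≤ 1) (hl : 0 ≤ l) (hε : ε ∈ UU) {R : ℝ} (hR : 0 < R) (a b : ℝ) :
    gab γ l R a b ε = (a + b * mm γ l R ε) * (a - b * mp γ l R ε) * gg γ l R ε := by
  have := gg_ne h1 hl hε hR
  rw [gab, mp]
  field_simp
  ring

theorem gab_one (γ l R : ℝ) (ε : ℂ) : gab γ l R 1 0 ε = gg γ l R ε := by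
  simp [gab]

theorem gab_im_nonneg (h1 : γ ^ 2 ≤ 1) (hl : 0 ≤ l) (hε : ε ∈ UU) {R : ℝ} (hR : 0 < R)
    (a b : ℝ) : 0 ≤ (gab γ l R a b ε).im := by
  have hm := mm_im_neg h1 hl hε hR
  have hp := mp_im_neg h1 hl hε hR
  rw [gab_eq' h1 hl hε hR, gg_inv h1 hl hε hR, mul_one_div]
  generalize mm γ l R ε = m at *
  generalize mp γ l R ε = p at *
  have e : (((a : ℂ) + b * m) * (a - b * p) / (m + p)).im
      = (-p.im * normSq (a + b * m) + -m.im * normSq (a - b * p)) / normSq (m + p) := by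
    rw [div_im, ← sub_div]
    refine congrArg (· / normSq (m + p)) ?_
    simp only [normSq_apply, mul_im, mul_re, add_re, add_im, sub_re, sub_im, ofReal_re, ofReal_im]
    ring
  rw [e]
  exact div_nonneg (add_nonneg (mul_nonneg (by linarith) (normSq_nonneg _))
    (mul_nonneg (by linarith) (normSq_nonneg _))) (normSq_nonneg _)

theorem mm_diff (h1 : γ ^ 2 ≤ 1) (hl : 0 ≤ l) {R : ℝ} (hR : 0 < R) :
    DifferentiableOn ℂ (mm γ l R) UU := by
  exact ((phD_diff h1 (by linarith) R).mono UU_subset).div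
    ((ph_diff h1 (by linarith) R).mono UU_subset) fun ε hε => ph_ne h1 hl hε hR

theorem gg_diff (h1 : γ ^ 2 ≤ 1) (hl : 0 ≤ l) {R : ℝ} (hR : 0 < R) :
    DifferentiableOn ℂ (gg γ l R) UU := by
  exact (((ph_diff h1 (by linarith) R).mono UU_subset).pow 2).mul (cI_diff h1 hl hR)

theorem mp_diff (h1 : γ ^ 2 ≤ 1) (hl : 0 ≤ l) {R : ℝ} (hR : 0 < R) :
    DifferentiableOn ℂ (mp γ l R) UU := by
  exact ((differentiableOn_const 1).div (gg_diff h1 hl hR) fun ε hε => gg_ne h1 hl hε hR).sub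
    (mm_diff h1 hl hR)

theorem gab_diff (h1 : γ ^ 2 ≤ 1) (hl : 0 ≤ l) {R : ℝ} (hR : 0 < R) (a b : ℝ) :
    DifferentiableOn ℂ (gab γ l R a b) UU := by
  have h : DifferentiableOn ℂ (fun ε => (a : ℂ) + b * mm γ l R ε) UU :=
    ((mm_diff h1 hl hR).const_mul _).const_add _
  exact ((h.pow 2).mul (gg_diff h1 hl hR)).sub (h.const_mul _)

theorem approx_im {u v : ℂ} (hu : u ≠ 0) :
    (-v / u).im * ‖u‖ ^ 2 = -((starRingEnd ℂ) u * v).im := by
  have e : (starRingEnd ℂ) u * v = -((‖u‖ ^ 2 : ℝ) * (-v / u)) := by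
    rw [← normSq_eq_norm_sq, normSq_eq_conj_mul_self]
    field_simp
  rw [e, neg_im, im_ofReal_mul]
  ring

theorem approx_flux (h1 : γ ^ 2 ≤ 1) (hε : ε ∈ UU) {u u' : ℝ → ℂ} (h : Sol (Qc γ l ε) u u')
    {M : ℝ} (hM : 0 < M) (hu : u M ≠ 0) (h0 : 0 ≤ ((starRingEnd ℂ) (u M) * u' M).im) {r : ℝ}
    (hr : r ∈ Ioo 0 M) : 0 < ((starRingEnd ℂ) (u r) * u' r).im := by
  have hQ : ∀ t, 0 < t → (Qc γ l ε t).im < 0 := fun t ht => by
    have a := Ec_im_nonneg h1 hε.1 hε.2.le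
    have b : 0 ≤ 2 * (Ec γ ε).im / t := by positivity
    rw [Qc_im]
    linarith [hε.2]
  have ha : AntitoneOn (fun r => ((starRingEnd ℂ) (u r) * u' r).im) (Ioi 0) := by
    refine antitoneOn_of_deriv_nonpos (convex_Ioi 0)
      (fun t ht => (h.flux ht).continuousAt.continuousWithinAt)
      (fun t ht => (h.flux (interior_subset ht)).differentiableAt.differentiableWithinAt)
      fun t ht => ?_
    rw [(h.flux (interior_subset ht)).deriv]
    exact mul_nonpos_of_nonpos_of_nonneg (hQ t (interior_subset ht)).le (sq_nonneg _)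
  have hs := (h.flux hM).tendsto_slope.mono_left (nhdsLT_le_nhdsNE M)
  obtain ⟨t, ht1, ht2⟩ := ((hs.eventually (gt_mem_nhds
    (mul_neg_of_neg_of_pos (hQ M hM) (pow_pos (norm_pos_iff.2 hu) 2)))).and
      (Ioo_mem_nhdsLT hr.2)).exists
  rw [slope_def_field, div_lt_iff_of_neg (sub_neg.2 ht2.2), zero_mul] at ht1
  have := ha hr.1 (hr.1.trans ht2.1) ht2.1.le
  simp only at this
  linarith

/-- approximation of `mp` by solutions of the Riccati equation with outgoing end values -/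
theorem approx (h1 : γ ^ 2 ≤ 1) (hl : 0 ≤ l) (hε : ε ∈ UU) (b : ℝ → ℂ) (hb : ∀ M, (b M).im ≤ 0) :
    ∃ q : ℝ → ℝ → ℂ, (∀ M, 0 < M → q M M = b M ∧ ∀ r ∈ Ioc 0 M,
        HasDerivAt (q M) (q M r ^ 2 - Qc γ l ε r) r ∧ (q M r).im ≤ 0 ∧ (r < M → (q M r).im < 0)) ∧
      ∀ R, 0 < R → Tendsto (fun M => q M R) atTop (𝓝 (mp γ l R ε)) := by
  let e : ℝ → ℂ := fun M => 1 / (ph γ l ε M ^ 2 * (mm γ l M ε + b M))
  let u : ℝ → ℝ → ℂ := fun M r => ph γ l ε r * (cM γ l ε r M + e M)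
  let v : ℝ → ℝ → ℂ := fun M r => phD γ l ε r * (cM γ l ε r M + e M) - 1 / ph γ l ε r
  have hmb : ∀ M, 0 < M → (mm γ l M ε + b M).im ≤ (mm γ l M ε).im := fun M hM => by
    rw [add_im]; linarith [hb M]
  have hne : ∀ M, 0 < M → mm γ l M ε + b M ≠ 0 := fun M hM h => by
    have a := hmb M hM
    rw [h, zero_im] at a
    exact absurd (mm_im_neg h1 hl hε hM) (not_lt.2 a)
  have hc : ∀ M, cM γ l ε M M = 0 := fun M => intervalIntegral.integral_same
  have huM : ∀ M, 0 < M → u M M ≠ 0 := fun M hM => by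
    have a := ph_ne h1 hl hε hM
    simp only [u, e, hc, zero_add]
    exact mul_ne_zero a (one_div_ne_zero (mul_ne_zero (pow_ne_zero 2 a) (hne M hM)))
  have hq : ∀ M, 0 < M → -v M M / u M M = b M := fun M hM => by
    have := ph_ne h1 hl hε hM
    have h2 := hne M hM
    simp only [u, v, e, hc, zero_add]
    have h3 : phD γ l ε M = mm γ l M ε * ph γ l ε M := by rw [mm]; field_simp
    rw [h3]
    field_simp
    ring
  have hJ : ∀ M, 0 < M → ∀ r ∈ Ioo 0 M, 0 < ((starRingEnd ℂ) (u M r) * v M r).im :=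
    fun M hM r hr => approx_flux h1 hε (second_sol h1 hl hε hM (e M)) hM (huM M hM) (by
      have a := approx_im (v := v M M) (huM M hM)
      rw [hq M hM] at a
      have := mul_nonpos_of_nonpos_of_nonneg (hb M) (sq_nonneg ‖u M M‖)
      exact neg_nonpos.1 (a ▸ this)) hr
  have hu : ∀ M, 0 < M → ∀ r ∈ Ioc 0 M, u M r ≠ 0 := fun M hM r hr h => by
    rcases hr.2.eq_or_lt with rfl | hlt
    · exact huM r hM h
    · have := hJ M hM r ⟨hr.1, hlt⟩
      rw [h, map_zero, zero_mul, zero_im] at this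
      exact lt_irrefl _ this
  have hlt : ∀ M, 0 < M → ∀ r ∈ Ioc 0 M, r < M → (-v M r / u M r).im < 0 := fun M hM r hr h => by
    have a := approx_im (v := v M r) (hu M hM r hr)
    have := hJ M hM r ⟨hr.1, h⟩
    exact neg_of_mul_neg_right (by rw [mul_comm, a]; linarith) (sq_nonneg ‖u M r‖)
  refine ⟨fun M r => -v M r / u M r, fun M hM => ⟨hq M hM, fun r hr => ⟨?_, ?_, hlt M hM r hr⟩⟩,
    fun R hR => ?_⟩
  · have hs := second_sol h1 hl hε hM (e M)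
    have h0 := hu M hM r hr
    refine ((hs.d2 r hr.1).fun_neg.fun_div (hs.d1 r hr.1) h0).congr_deriv ?_
    change (-(Qc γ l ε r * u M r) * u M r - -v M r * v M r) / u M r ^ 2 = _
    field_simp
    ring
  · rcases hr.2.eq_or_lt with rfl | h
    · exact (congrArg im (hq r hM)).trans_le (hb r)
    · exact (hlt M hM r hr h).le
  · have he : Tendsto e atTop (𝓝 0) := by
      refine squeeze_zero_norm' ?_ (Fx_tendsto h1 hl hε).inv_tendsto_atTop
      filter_upwards [eventually_gt_atTop 0] with M hM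
      simp only [e, norm_mul, norm_pow, one_div, norm_inv, Pi.inv_apply]
      refine inv_anti₀ (Fx_pos h1 hl hε hM) ?_
      rw [Fx_eq h1 hl hε hM, mul_comm]
      refine mul_le_mul_of_nonneg_left ?_ (sq_nonneg _)
      have a := hmb M hM
      have c := (neg_le_abs _).trans (abs_im_le_norm (mm γ l M ε + b M))
      linarith
    have t := ((((cM_tendsto h1 hl hε hR).add he).const_mul (ph γ l ε R ^ 2)).inv₀
      (by rw [add_zero]; exact gg_ne h1 hl hε hR)).sub_const (mm γ l R ε)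
    rw [add_zero, ← one_div] at t
    refine t.congr' ?_
    filter_upwards [eventually_ge_atTop R] with M hM
    have h2 := ph_ne h1 hl hε hR
    have h3 := right_ne_zero_of_mul (hu M (hR.trans_le hM) R ⟨hR, hM⟩)
    simp only [u, v, mm]
    field_simp
    ring

end Pool.Agent.Lib.MP_2347b2_mp.F
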