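import Pool.Agent.Lib.MP_2347b2_mp.F.Eig2

namespace Pool.Agent.Lib.MP_2347b2_mp.F

open MeasureTheory Set Filter Topology

variable {γ : ℝ} {k : ℕ}

theorem sk_aux (h0 : 0 < γ) (h1 : γ < 1) (hk : 1 ≤ k) : 0 < (k : ℝ) ^ 2 - γ ^ 2 :=
  sub_pos.2 (pow_lt_pow_left₀ (h1.trans_le (by exact_mod_cast hk)) h0.le two_ne_zero)

theorem sk_pos (h0 : 0 < γ) (h1 : γ < 1) (hk : 1 ≤ k) : 0 < sOf γ k := by
  exact Real.sqrt_pos.2 (sk_aux h0 h1 hk)

theorem sk_sq (h0 : 0 < γ) (h1 : γ < 1) (hk : 1 ≤ k) : sOf γ k ^ 2 = k ^ 2 - γ ^ 2 := by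
  exact Real.sq_sqrt (sk_aux h0 h1 hk).le

theorem sk_le (h0 : 0 < γ) (h1 : γ < 1) (hk : 1 ≤ k) : sOf γ k ≤ k := by
  exact le_of_sq_le_sq (by rw [sk_sq h0 h1 hk]; linarith [sq_nonneg γ]) k.cast_nonneg

theorem le_sk (h0 : 0 < γ) (h1 : γ < 1) (hk : 1 ≤ k) : (k : ℝ) - 1 / k ≤ sOf γ k := by
  have k1 : (1 : ℝ) ≤ k := by exact_mod_cast hk
  refine le_of_sq_le_sq ?_ (sk_pos h0 h1 hk).le
  have a : (1 / k : ℝ) ^ 2 ≤ 1 := pow_le_one₀ (by positivity) ((div_le_one (by linarith)).2 k1)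
  have b : (k : ℝ) * (1 / k) = 1 := mul_one_div_cancel (by linarith)
  have g : γ ^ 2 ≤ 1 := pow_le_one₀ h0.le h1.le
  rw [sk_sq h0 h1 hk]
  linarith

theorem le_sk' (h0 : 0 < γ) (h1 : γ < 1) (hk : 2 ≤ k) : (k : ℝ) - 0.27 ≤ sOf γ k := by
  have k2 : (2 : ℝ) ≤ k := by exact_mod_cast hk
  refine le_of_sq_le_sq ?_ (sk_pos h0 h1 (by omega)).le
  have g : γ ^ 2 ≤ 1 := pow_le_one₀ h0.le h1.le
  rw [sk_sq h0 h1 (by omega)]
  linarith

theorem nu_shift (s : ℝ) (m : ℕ) : nu (s - 1) (m + 1) = nu s m := by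
  rw [nu, nu]
  push_cast
  ring

theorem a2_pos (h0 : 0 < γ) (h1 : γ < 1) (hk : 1 ≤ k) (m : ℕ) :
    1 / (k + 1 : ℝ) ≤ 1 + k ^ 2 * ep γ (sOf γ k) m := by
  have k1 : (1 : ℝ) ≤ k := by exact_mod_cast hk
  have s0 := sk_pos h0 h1 hk
  have s1 := le_sk h0 h1 hk
  have s2 := sk_sq h0 h1 hk
  have a : (1 / k : ℝ) ≤ 1 := (div_le_one (by linarith)).2 k1
  have n := NN_pos (γ := γ) (show -1 < sOf γ k by linarith) m
  have w : (sOf γ k + 1) ^ 2 ≤ nu (sOf γ k) m ^ 2 := pow_le_pow_left₀ (by linarith)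
    (by rw [nu]; linarith [m.cast_nonneg (α := ℝ)]) 2
  have e : (k : ℝ) * (k + 1) ≤ NN γ (sOf γ k) m ^ 2 := by rw [NN_sq]; linarith
  have f : (k : ℝ) ^ 2 / NN γ (sOf γ k) m ^ 2 ≤ k ^ 2 / (k * (k + 1)) :=
    div_le_div_of_nonneg_left (by positivity) (by positivity) e
  rw [show (k : ℝ) ^ 2 / (k * (k + 1)) = 1 - 1 / (k + 1) by field_simp; ring] at f
  rw [ep, ← mul_div_assoc, mul_neg_one, neg_div]
  linarith

theorem lad_down (α : ℝ) (n : ℕ) (x : ℝ) :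
    x * lag (α + 1) n x = (n + α + 1) * lag α n x - (n + 1) * lag α (n + 1) x := by
  rw [lag_succ_alpha, lagP]
  induction n with
  | zero => simp [lag_zero, lag_one, add_comm]
  | succ n ih =>
    rw [Finset.sum_range_succ, mul_add, ih]
    push_cast
    linear_combination lag_rec α n x

/-- the ladder relations -/
theorem ladder_u (h0 : 0 < γ) (h1 : γ < 1) (hk : 1 ≤ k) (m : ℕ) {r : ℝ} (hr : 0 < r) :
    √(1 + k ^ 2 * ep γ (sOf γ k) m) * ff γ (sOf γ k - 1) (m + 1) r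
      = sOf γ k * fd γ (sOf γ k) m r
        - (EE γ (sOf γ k) m - sOf γ k ^ 2 / r) * ff γ (sOf γ k) m r := by
  have a := a2_pos h0 h1 hk m
  have s0 := sk_pos h0 h1 hk
  have s2 := sk_sq h0 h1 hk
  generalize sOf γ k = s at s0 s2 a ⊢
  have n := NN_pos (γ := γ) (show -1 < s by linarith) m
  have v := nu_pos (show -1 < s by linarith) m
  have eN : NN γ (s - 1) (m + 1) = NN γ s m := by rw [NN, NN, nu_shift]
  have q : (0 : ℝ) < (m + 1) * (m + 2 * s + 1) := by positivity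
  have c : √(1 + k ^ 2 * ep γ s m) * cf γ (s - 1) (m + 1) =
      (m + 1) * (m + 2 * s + 1) / NN γ s m * cf γ s m := by
    have e : 1 + k ^ 2 * ep γ s m = (m + 1) * (m + 2 * s + 1) / NN γ s m ^ 2 := by
      rw [ep, eq_div_iff (by positivity), add_mul, mul_assoc, div_mul_cancel₀ _ (by positivity),
        NN_sq, nu]
      linarith
    have g := Real.Gamma_pos_of_pos (show (0 : ℝ) < m + 2 * s + 1 by positivity)
    rw [cf, cf, eN, nu_shift, ← Real.sqrt_mul (le_trans (by positivity) a),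
      ← Real.sqrt_sq (div_pos q n).le, ← Real.sqrt_mul (sq_nonneg _), e,
      show ((m + 1 : ℕ) : ℝ) + 2 * (s - 1) + 2 = m + 2 * s + 1 by push_cast; ring,
      show (m : ℝ) + 2 * s + 2 = m + 2 * s + 1 + 1 by ring,
      Real.Gamma_add_one (s := m + 2 * s + 1) (by positivity), Nat.factorial_succ]
    refine congrArg _ ?_
    push_cast
    field_simp
  have x0 : 0 < 2 * r / NN γ s m := by positivity
  have k1 := lag_raise (2 * s) m (2 * r / NN γ s m)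
  have k2 := lad_down (2 * s - 1) (m + 1) (2 * r / NN γ s m)
  have k3 := lag_raise (2 * s - 1) (m + 1) (2 * r / NN γ s m)
  rw [← lag_succ_alpha] at k3
  rw [sub_add_cancel] at k2 k3
  push_cast at k2 k3
  have key : lag (2 * s - 1) (m + 1) (2 * r / NN γ s m) =
      ((2 * s * (2 * s + 1) - 2 * r / NN γ s m * (2 * s + m + 1)) *
        lag (2 * s + 1) m (2 * r / NN γ s m) - 2 * s * (2 * r / NN γ s m) *
        lagP (2 * s + 1) m (2 * r / NN γ s m)) / ((m + 1) * (m + 2 * s + 1)) := by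
    rw [eq_div_iff q.ne']
    linear_combination (2 * s) * k1 - (m + 1) * k2 + (m + 1) * k3
  rw [ff, ff, fd, EE, eN, ← mul_assoc, ← mul_assoc, ← mul_assoc, c, sub_add_cancel,
    Real.rpow_add_one x0.ne', show 2 * (s - 1) + 1 = 2 * s - 1 by ring, key, nu]
  field_simp
  ring

theorem ladder_v (h0 : 0 < γ) (h1 : γ < 1) (hk : 1 ≤ k) (m : ℕ) {r : ℝ} (hr : 0 < r) :
    √(1 + k ^ 2 * ep γ (sOf γ k) m) * ff γ (sOf γ k) m r
      = -(sOf γ k * fd γ (sOf γ k - 1) (m + 1) r)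
        - (EE γ (sOf γ k) m - sOf γ k ^ 2 / r) * ff γ (sOf γ k - 1) (m + 1) r := by
  have a : 0 < 1 + k ^ 2 * ep γ (sOf γ k) m := lt_of_lt_of_le (by positivity) (a2_pos h0 h1 hk m)
  have s0 := sk_pos h0 h1 hk
  have hl : -1 < sOf γ k := by linarith
  have d := ((ff_deriv (γ := γ) (show -1 < sOf γ k - 1 by linarith) (m + 1) hr).const_mul
    √(1 + k ^ 2 * ep γ (sOf γ k) m)).unique
    ((((fd_deriv (γ := γ) hl m hr).const_mul (sOf γ k)).fun_sub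
      ((((hasDerivAt_inv hr.ne').const_mul (sOf γ k ^ 2)).const_sub (EE γ (sOf γ k) m)).fun_mul
        (ff_deriv (γ := γ) hl m hr))).congr_of_eventuallyEq
      ((eventually_gt_nhds hr).mono fun x hx => ladder_u h0 h1 hk m hx))
  refine mul_left_cancel₀ (Real.sqrt_pos.2 a).ne' ?_
  rw [← mul_assoc, Real.mul_self_sqrt a.le]
  rw [QQ] at d
  linear_combination sOf γ k * d + (EE γ (sOf γ k) m - sOf γ k ^ 2 / r) * ladder_u h0 h1 hk m hr -
    ff γ (sOf γ k) m r * EE_sq (γ := γ) hl m -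
    ep γ (sOf γ k) m * ff γ (sOf γ k) m r * sk_sq h0 h1 hk

theorem ground_E (h0 : 0 < γ) (h1 : γ < 1) (hk : 1 ≤ k) :
    NN γ (sOf γ k - 1) 0 = k ∧ EE γ (sOf γ k - 1) 0 = sOf γ k / k := by
  have e : nu (sOf γ k - 1) 0 = sOf γ k := by rw [nu]; push_cast; ring
  have f : NN γ (sOf γ k - 1) 0 = k := by
    rw [NN, e, sk_sq h0 h1 hk, sub_add_cancel, Real.sqrt_sq k.cast_nonneg]
  exact ⟨f, by rw [EE, e, f]⟩

theorem ground_deriv (h0 : 0 < γ) (h1 : γ < 1) (hk : 1 ≤ k) (r : ℝ) :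
    fd γ (sOf γ k - 1) 0 r = (sOf γ k / r - 1 / k) * ff γ (sOf γ k - 1) 0 r := by
  rw [fd, ff, lagP, (ground_E h0 h1 hk).1, Finset.sum_range_zero, sub_add_cancel]
  ring

theorem YY_eq (h0 : 0 < γ) (h1 : γ < 1) (hk : 1 ≤ k) (m : ℕ) {R : ℝ} (hR : 0 < R) :
    sOf γ k * YY γ k m R = ff γ (sOf γ k - 1) (m + 1) R ^ 2 - ff γ (sOf γ k) m R ^ 2 := by
  have a : 0 < 1 + k ^ 2 * ep γ (sOf γ k) m := lt_of_lt_of_le (by positivity) (a2_pos h0 h1 hk m)
  have u := congrArg (· ^ 2) (ladder_u h0 h1 hk m hR)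
  have e := EE_sq (γ := γ) (show -1 < sOf γ k by linarith [sk_pos h0 h1 hk]) m
  simp only [mul_pow, Real.sq_sqrt a.le] at u
  rw [YY, ← mul_div_assoc, div_eq_iff a.ne']
  linear_combination -u - ff γ (sOf γ k) m R ^ 2 * e -
    ep γ (sOf γ k) m * ff γ (sOf γ k) m R ^ 2 * sk_sq h0 h1 hk

theorem Tp_eq (h0 : 0 < γ) (h1 : γ < 1) (hk : 1 ≤ k) (m : ℕ) {R : ℝ} (hR : 0 < R) :
    Tp γ k m R = ck γ k * (bt γ (sOf γ k) m R - bt γ (sOf γ k - 1) (m + 1) R) := by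
  have s0 := (sk_pos h0 h1 hk).ne'
  have e : EE γ (sOf γ k - 1) (m + 1) = EE γ (sOf γ k) m := by rw [EE, EE, NN, NN, nu_shift]
  have y := (eq_div_iff s0).2 ((mul_comm _ _).trans (YY_eq h0 h1 hk m hR))
  have g : γ ^ 2 = k ^ 2 - sOf γ k ^ 2 := by linarith [sk_sq h0 h1 hk]
  rw [Tp, bt, bt, ck, e, y, g]
  field_simp
  ring

theorem t0_le (h0 : 0 < γ) (h1 : γ < 1) (hk : 1 ≤ k) (R : ℝ) :
    t0 γ k R ≤ -(ck γ k * bt γ (sOf γ k - 1) 0 R) := by
  have s0 := sk_pos h0 h1 hk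
  have k0 : (0 : ℝ) < k := by exact_mod_cast hk
  have g : γ ^ 2 = k ^ 2 - sOf γ k ^ 2 := by linarith [sk_sq h0 h1 hk]
  have h : sOf γ k ^ 2 / k ≤ k := by rw [div_le_iff₀ k0]; linarith [sq_nonneg γ]
  rw [t0, bt, ck, (ground_E h0 h1 hk).2, g]
  refine (mul_le_mul_of_nonneg_right (show _ ≤ k * sOf γ k - R - sOf γ k ^ 2 / k by linarith)
    (sq_nonneg _)).trans_eq ?_
  field_simp
  ring

theorem lad_q {l R C : ℝ} (hl : 0 ≤ l) (hR : 0 < R) {a : ℕ → ℝ} (ha : ∀ n, |a n| ≤ C) :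
    (Summable fun n => a n * ff γ l n R ^ 2) ∧
    (Summable fun n => a n * (ff γ l n R * fd γ l n R)) ∧
    Summable fun n => a n * fd γ l n R ^ 2 := by
  have z : ∀ _ : ℕ, |(0 : ℝ)| ≤ C := fun n => abs_zero.trans_le ((abs_nonneg _).trans (ha n))
  exact ⟨(summable_quad hl hR ha z z).congr fun n => by ring,
    (summable_quad hl hR z ha z).congr fun n => by ring,
    (summable_quad hl hR z z ha).congr fun n => by ring⟩

theorem summable_YY (h0 : 0 < γ) (h1 : γ < 1) (hk : 1 ≤ k) {R : ℝ} (hR : 0 < R) {a : ℕ → ℝ}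
    {C : ℝ} (ha : ∀ n, |a n| ≤ C) : Summable fun m => a m * YY γ k m R := by
  have s0 := sk_pos h0 h1 hk
  have hl : -1 < sOf γ k := by linarith
  have b : ∀ n, |a n / (1 + k ^ 2 * ep γ (sOf γ k) n)| ≤ C * (k + 1) := fun n => by
    have p := a2_pos h0 h1 hk n
    have q : 0 < 1 + k ^ 2 * ep γ (sOf γ k) n := lt_of_lt_of_le (by positivity) p
    rw [abs_div, abs_of_pos q, show C * (k + 1 : ℝ) = C / (1 / (k + 1)) by rw [div_div_eq_mul_div, div_one]]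
    exact div_le_div₀ ((abs_nonneg _).trans (ha n)) (ha n) (by positivity) p
  have c : ∀ {x : ℕ → ℝ}, (∀ n, |x n| ≤ 1) →
      ∀ n, |a n / (1 + k ^ 2 * ep γ (sOf γ k) n) * x n| ≤ C * (k + 1) := fun hx n => by
    rw [abs_mul]
    exact (mul_le_of_le_one_right (abs_nonneg _) (hx n)).trans (b n)
  have bE := c (x := EE γ (sOf γ k)) fun n => by
    rw [abs_of_pos (EE_pos hl n)]
    exact EE_le_one hl n
  have bp := c (x := ep γ (sOf γ k)) fun n => by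
    rw [abs_of_neg (ep_neg hl n), ep, neg_div, neg_neg]
    exact (div_le_one (pow_pos (NN_pos hl n) 2)).2 (one_le_pow₀ (le_trans
      (by rw [nu]; linarith [n.cast_nonneg (α := ℝ)]) (nu_le_NN γ hl n)))
  obtain ⟨b1, b2, b3⟩ := lad_q (γ := γ) s0.le hR b
  obtain ⟨e1, e2, -⟩ := lad_q (γ := γ) s0.le hR bE
  exact (((((b3.mul_left (sOf γ k)).sub (e1.mul_left (2 * sOf γ k / R))).sub
    ((lad_q (γ := γ) s0.le hR bp).1.mul_left (sOf γ k))).add
    (b1.mul_left (sOf γ k ^ 3 / R ^ 2))).sub (e2.mul_left 2)).add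
    (b2.mul_left (2 * sOf γ k ^ 2 / R)) |>.congr fun n => by rw [YY]; ring

theorem summable_Tp (h0 : 0 < γ) (h1 : γ < 1) (hk : 1 ≤ k) {R : ℝ} (hR : 0 < R) :
    Summable fun m => Tp γ k m R := by
  have s0 := sk_pos h0 h1 hk
  have hl : -1 < sOf γ k := by linarith
  have b : ∀ n, |EE γ (sOf γ k) n| ≤ 1 := fun n => by
    rw [abs_of_pos (EE_pos hl n)]
    exact EE_le_one hl n
  have c : ∀ n, |EE γ (sOf γ k) n ^ 2| ≤ 1 := fun n => by
    rw [abs_pow]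
    exact pow_le_one₀ (abs_nonneg _) (b n)
  exact ((((summable_YY h0 h1 hk hR c).mul_left (k * (k ^ 2 - sOf γ k))).sub
    ((summable_YY h0 h1 hk hR b).mul_left (k * R))).sub
    ((summable_DD (γ := γ) s0.le hR).mul_left (2 * k : ℝ))).congr fun n => by rw [Tp]; ring

end Pool.Agent.Lib.MP_2347b2_mp.F
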