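import Pool.Agent.Lib.MP_2347b2_mp.F.Dtwo
import Pool.Agent.Lib.MP_2347b2_mp.F.Lad2

namespace Pool.Agent.Lib.MP_2347b2_mp.F

open MeasureTheory Set Filter Topology Complex

theorem xb_quot {a b x : ℂ} {S k : ℝ} (hx : ‖x‖ ≤ S) (hk0 : 0 < k)
    (hk : 1 ≤ k * (1 - ‖a‖ * ‖b‖)) : ‖x / (1 - a * b)‖ ≤ k * S := by
  have h1 : 1 - ‖a‖ * ‖b‖ ≤ ‖1 - a * b‖ := by
    have := norm_sub_norm_le (1 : ℂ) (a * b)
    rwa [norm_one, norm_mul] at this
  have h2 : 0 < 1 - ‖a‖ * ‖b‖ := (mul_pos_iff_of_pos_left hk0).1 (one_pos.trans_le hk)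
  have h3 : 0 ≤ S := (norm_nonneg _).trans hx
  have h4 : 1 ≤ k * ‖1 - a * b‖ := hk.trans (mul_le_mul_of_nonneg_left h1 hk0.le)
  rw [norm_div, div_le_iff₀ (by linarith)]
  nlinarith

theorem xb_sum {F c u v : ℂ} {s f c' u' v' : ℝ} (hs0 : 0 ≤ s) (hs : s ≤ 1) (hF : ‖F‖ ≤ f)
    (hc : ‖c‖ ≤ c') (hu : ‖u‖ ≤ u') (hv : ‖v‖ ≤ v') :
    ‖F * (c * u + s * v)‖ ≤ f * (c' * u' + v') := by
  rw [norm_mul]
  refine mul_le_mul hF ((norm_add_le _ _).trans (add_le_add ?_ ?_)) (norm_nonneg _)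
    ((norm_nonneg _).trans hF)
  · rw [norm_mul]
    exact mul_le_mul hc hu (norm_nonneg _) ((norm_nonneg _).trans hc)
  · rw [norm_mul, norm_real, Real.norm_of_nonneg hs0]
    nlinarith [norm_nonneg v]

theorem xb_fac {E ε : ℂ} {R x y : ℝ} (hR : 0 ≤ R) (hx : 0 < x) (hy : 0 < y) (hx1 : x ≤ 1)
    (hE : x ≤ ‖E‖) (hε : y ≤ 1 + ε.re) : ‖(R / E - 1) / (1 + ε)‖ ≤ (R + 1) / (x * y) := by
  have h1 : y ≤ ‖1 + ε‖ := hε.trans (by simpa using re_le_norm (1 + ε))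
  have h2 : ‖R / E - 1‖ ≤ (R + 1) / x := by
    refine (norm_sub_le _ _).trans ?_
    rw [norm_div, norm_one, norm_real, Real.norm_of_nonneg hR, add_div]
    exact add_le_add (div_le_div_of_nonneg_left hR hx hE) (one_le_one_div hx hx1)
  rw [norm_div, ← div_div]
  exact div_le_div₀ (by positivity) h2 hy h1

theorem xb_c {E : ℂ} {s R e : ℝ} (hs0 : 0 ≤ s) (hs : s ≤ 1) (hR : 0 < R) (hE : ‖E‖ ≤ e) :
    ‖E - s ^ 2 / R‖ ≤ e + 1 / R := by
  refine (norm_sub_le _ _).trans (add_le_add hE ?_)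
  rw [norm_div, norm_pow, norm_real, norm_real, Real.norm_of_nonneg hs0, Real.norm_of_nonneg hR.le]
  exact div_le_div_of_nonneg_right (pow_le_one₀ hs0 hs) hR.le

variable {γ s R : ℝ}

theorem xb_ell (h : TopH γ s R) (hs : s ≤ 1) (hR : 256 ≤ R) {ε : ℂ} (hε : ε ∈ Ell (8 / R)) :
    ‖(R / Ec γ ε - 1) / (1 + ε)
      * ((Ec γ ε - s ^ 2 / R) * (gg γ s R ε * (mm γ s R ε - mp γ s R ε))
        + s * (gg γ s R ε * (mm γ s R ε * mp γ s R ε + (2 * Ec γ ε / R + ε - s ^ 2 / R ^ 2))))‖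
      ≤ (9 / R + 90 / R * A0 ε) / (A0 ε * √(A0 ε)) := by
  have h1 := h.h1
  have hl := h.hl
  have hR0 : 0 < R := by linarith
  obtain ⟨hU, a1, a2, a3, a4, a5, a6, a7, a8, a9⟩ := ell_basic h1 h.hR hε
  have hi : 8 / R ≤ 1 / 32 := by
    rw [div_le_div_iff₀ hR0 (by norm_num)]
    linarith
  have hi0 : 0 < 8 / R := by positivity
  have hA : 0 < A0 ε := by linarith
  have hss : s * (s + 1) ≤ 2 := by nlinarith
  have b1 := rm0_le1 h (by linarith) (by linarith) hε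
  have b2 := rp0_le h hε
  have b3 := gg_ell_sq h hε
  have hsA : 0 < √(A0 ε) := Real.sqrt_pos.2 hA
  have hsq : √(A0 ε) ^ 2 = A0 ε := Real.sq_sqrt hA.le
  obtain ⟨D, hD⟩ : ∃ D, D = R ^ 2 * (A0 ε * √(A0 ε)) := ⟨_, rfl⟩
  have hD0 : 0 < D := by rw [hD]; positivity
  have hD1 : 100 ≤ D := by
    have c1 : 8 ≤ A0 ε * R := (div_le_iff₀ hR0).1 a1
    have c2 : 16 ≤ R * √(A0 ε) := le_of_sq_le_sq (by rw [mul_pow, hsq]; nlinarith) (by positivity)
    have c3 : D = (A0 ε * R) * (R * √(A0 ε)) := by rw [hD]; ring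
    rw [c3]
    nlinarith
  rw [← hD] at b1 b2
  have b4 : ‖rp0 γ s R ε‖ ≤ 0.7 / D := by
    refine b2.trans (div_le_div_of_nonneg_right ?_ hD0.le)
    have : s * (s + 1) / R ≤ 1 / 128 := by
      rw [div_le_div_iff₀ hR0 (by norm_num)]
      linarith
    linarith
  have b5 : ‖rm0 γ s R ε‖ ≤ 0.03 := b1.trans (by rw [div_le_iff₀ hD0]; linarith)
  have b6 : ‖rp0 γ s R ε‖ ≤ 0.01 := b4.trans (by rw [div_le_iff₀ hD0]; linarith)
  have b7 : (1 : ℝ) ≤ 1.01 * (1 - ‖rm0 γ s R ε‖ * ‖rp0 γ s R ε‖) := by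
    have := mul_le_mul b5 b6 (norm_nonneg _) (by norm_num)
    linarith
  have b8 : ‖rm0 γ s R ε‖ + ‖rp0 γ s R ε‖ ≤ 3 / D := by
    have : 2.2 / D + 0.7 / D ≤ 3 / D := by
      rw [← add_div]
      exact div_le_div_of_nonneg_right (by norm_num) hD0.le
    linarith
  have w0 := wf_W0 (l := s) h1 hU hR0
  have m0 := mm_im_neg h1 hl hU hR0
  have p0 := mp_im_neg h1 hl hU hR0
  have n1 : W0 γ s ε R ≠ 0 := wf_ne w0
  have n2 : W0 γ s ε R + mm γ s R ε ≠ 0 := wf_ne (add_neg w0 m0)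
  have n3 : W0 γ s ε R + mp γ s R ε ≠ 0 := wf_ne (add_neg w0 p0)
  have n4 : mm γ s R ε + mp γ s R ε ≠ 0 := wf_ne (add_neg m0 p0)
  have e1 : gg γ s R ε * (mm γ s R ε - mp γ s R ε)
      = (rp0 γ s R ε - rm0 γ s R ε) / (1 - rm0 γ s R ε * rp0 γ s R ε) := by
    rw [gg_inv h1 hl hU hR0, one_div_mul_eq_div, rf_diff n1 n2 n3 n4, rm0, rp0]
  have e2 : gg γ s R ε * (mm γ s R ε * mp γ s R ε + (2 * Ec γ ε / R + ε - s ^ 2 / R ^ 2))
      = -(W0 γ s ε R * (rm0 γ s R ε + rp0 γ s R ε)) / (1 - rm0 γ s R ε * rp0 γ s R ε)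
        + gg γ s R ε * (s / R ^ 2 : ℝ) := by
    rw [rm0, rp0, ← rf_prod n1 n2 n3 n4, W0_sq, gg_inv h1 hl hU hR0, Qc]
    push_cast
    ring
  have hW : ‖W0 γ s ε R‖ ≤ 1 := by
    have c1 : ‖W0 γ s ε R‖ ^ 2 = ‖Qc γ s ε R‖ := by rw [← W0_sq, norm_pow]
    have c2 : ‖Qc γ s ε R‖ ≤ s * (s + 1) / R ^ 2 + 2 * 1.02 / R + A0 ε := by
      have e : Qc γ s ε R = (s * (s + 1) / R ^ 2 : ℝ) - (2 / R : ℝ) * Ec γ ε - ε := by
        rw [Qc]
        push_cast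
        ring
      rw [e]
      refine (norm_sub_le _ _).trans (add_le_add ((norm_sub_le _ _).trans (add_le_add ?_ ?_)) a3)
      · rw [norm_real, Real.norm_of_nonneg (by positivity)]
      · rw [norm_mul, norm_real, Real.norm_of_nonneg (by positivity), mul_div_right_comm]
        exact mul_le_mul_of_nonneg_left a9 (by positivity)
    have c3 : s * (s + 1) / R ^ 2 ≤ 0.01 := by
      rw [div_le_iff₀ (by positivity)]
      nlinarith
    have c4 : 2 * 1.02 / R ≤ 0.01 := by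
      rw [div_le_iff₀ hR0]
      linarith
    exact le_of_sq_le_sq (by linarith) zero_le_one
  have hg : ‖gg γ s R ε * (s / R ^ 2 : ℝ)‖ ≤ 0.7 / D := by
    have c1 : ‖gg γ s R ε‖ * √(A0 ε) ≤ 0.79 := le_of_sq_le_sq (by
      rw [mul_pow, hsq]
      have := (le_div_iff₀ hA).1 b3
      linarith) (by norm_num)
    rw [norm_mul, norm_real, Real.norm_of_nonneg (by positivity), le_div_iff₀ hD0, hD]
    have c2 : ‖gg γ s R ε‖ * (s / R ^ 2) * (R ^ 2 * (A0 ε * √(A0 ε)))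
        = ‖gg γ s R ε‖ * √(A0 ε) * (s * A0 ε) := by field_simp
    have c3 : s * A0 ε ≤ 0.8 := by nlinarith
    rw [c2]
    refine (mul_le_mul c1 c3 (by positivity) (by norm_num)).trans (by norm_num)
  have q1 := xb_quot ((norm_sub_le (rp0 γ s R ε) (rm0 γ s R ε)).trans (by linarith : _ ≤ 3 / D))
    (by norm_num) b7
  have q2 := xb_quot (x := -(W0 γ s ε R * (rm0 γ s R ε + rp0 γ s R ε))) (S := 3 / D) (by
    rw [norm_neg, norm_mul]
    have := mul_le_mul hW ((norm_add_le _ _).trans b8) (norm_nonneg _) zero_le_one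
    linarith) (by norm_num) b7
  obtain ⟨y, hy⟩ : ∃ y, y = 1 + ε.re := ⟨_, rfl⟩
  have y1 : 1 / 4 ≤ y := by linarith
  have y2 : y ≤ 1 := by linarith
  have x1 : (1 + 2 * y) / 3 ≤ ‖Ec γ ε‖ := by
    refine le_trans (le_of_sq_le_sq ?_ (Ec_re_nonneg γ ε)) (re_le_norm _)
    have c1 := Ec_re_sq γ ε
    have c2 : ε.re ≤ γ ^ 2 * ε.re := by nlinarith
    nlinarith [sq_nonneg (Ec γ ε).im, mul_nonneg (sub_nonneg.2 y1) (sub_nonneg.2 y2)]
  have f1 := xb_fac (ε := ε) hR0.le (by linarith) (by linarith : 0 < y) (by linarith) x1 hy.le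
  have f2 : (R + 1) / ((1 + 2 * y) / 3 * y) ≤ (R + 1) * (1 + 10 * A0 ε) := by
    have c1 : 1 - y ≤ A0 ε := by
      have : 0 < ε.im := hU.2
      rw [A0]
      linarith
    have c2 : 1 ≤ (11 - 10 * y) * ((1 + 2 * y) / 3 * y) := by
      nlinarith [mul_nonneg (sub_nonneg.2 y2) (show 0 ≤ 20 * y ^ 2 + 8 * y - 3 by nlinarith)]
    have c3 : 0 < (1 + 2 * y) / 3 * y := by positivity
    have c4 := mul_le_mul_of_nonneg_right (show 11 - 10 * y ≤ 1 + 10 * A0 ε by linarith) c3.le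
    rw [div_le_iff₀ c3, mul_assoc]
    exact le_mul_of_one_le_right (by linarith) (by linarith)
  have f3 := xb_c hl hs hR0 a9
  have f4 : 1.02 + 1 / R ≤ 1.03 := by
    have : 1 / R ≤ 0.01 := by
      rw [div_le_iff₀ hR0]
      linarith
    linarith
  rw [e1, e2]
  refine (xb_sum hl hs (f1.trans f2) (f3.trans f4) q1
    ((norm_add_le _ _).trans (add_le_add q2 hg))).trans ?_
  have z1 : (9 / R + 90 / R * A0 ε) / (A0 ε * √(A0 ε)) = (1 + 10 * A0 ε) * (9 * R / D) := by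
    rw [hD]
    field_simp
    ring
  have z2 : (R + 1) * (1 + 10 * A0 ε) * (1.03 * (1.01 * (3 / D)) + (1.01 * (3 / D) + 0.7 / D))
      = (1 + 10 * A0 ε) * ((R + 1) * 6.8509 / D) := by
    field_simp
    ring
  rw [z1, z2]
  exact mul_le_mul_of_nonneg_left (div_le_div_of_nonneg_right (by linarith) hD0.le) (by linarith)

theorem xb_right (h1 : γ ^ 2 ≤ 1) (hl : 0 ≤ s) (hs : s ≤ 1) (hR : 256 ≤ R) {θ : ℝ} (hθ : 0 < θ)
    (hθ' : θ ≤ 8 / R) {ε : ℂ} (hε : ε = θ * I) :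
    ‖(R / Ec γ ε - 1) / (1 + ε)
      * ((Ec γ ε - s ^ 2 / R) * (gg γ s R ε * (mm γ s R ε - mp γ s R ε))
        + s * (gg γ s R ε * (mm γ s R ε * mp γ s R ε + (2 * Ec γ ε / R + ε - s ^ 2 / R ^ 2))))‖
      ≤ 1.4 * R * rmB R (2.19 / R) θ + 0.9 * √R := by
  have hR0 : 0 < R := by linarith
  have hb : bb s ≤ 2.19 := by
    rw [bb]
    nlinarith
  have hb0 := vb_bb hl
  have hU : ε ∈ UU := hε ▸ vb_UU hθ
  have ht : 16 ≤ √R := Real.le_sqrt_of_sq_le (by linarith)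
  have ht2 : √R ^ 2 = R := Real.sq_sqrt hR0.le
  have hθR : θ * R ≤ 8 := (le_div_iff₀ hR0).1 hθ'
  have hθ1 : θ ≤ 1 / 32 := by nlinarith
  have b1 := rm1_le h1 hl (by linarith) hb (by linarith) hθ hθ'
  have b2 := (gg_right_main h1 hl (by linarith) hb (by linarith) hθ hθ' rfl).1
  have b3 := rm1_three (l := s) h1 hl hθ (r := R) (by linarith)
  have b4 := (gg_right (l := s) (R := R) (B := 2 * R - 2.19) h1 hl hθ (by linarith)
    (by linarith)).1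
  have b5 := VV_le (R := R) (U := 2.19) (by linarith) (by norm_num) (by linarith)
  obtain ⟨-, -, -, -, c5, c6⟩ := Ec_right h1 hθ.le
  rw [← hε] at b1 b2 b3 b4 c5 c6
  obtain ⟨g1, m0, p0⟩ := gg_n h1 hl hU hR0
  have w0 := wf_ww (l := s) h1 hU hR0
  have n1 : ww γ s ε R ≠ 0 := wf_ne w0
  have n2 : ww γ s ε R + nm γ s R ε ≠ 0 := wf_ne (add_neg w0 m0)
  have n3 : ww γ s ε R + np γ s R ε ≠ 0 := wf_ne (add_neg w0 p0)
  have n4 : nm γ s R ε + np γ s R ε ≠ 0 := wf_ne (add_neg m0 p0)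
  have hE : ‖Ec γ ε‖ ≤ 1.016 := by
    have := norm_sub_le (1 : ℂ) (1 - Ec γ ε)
    rw [sub_sub_cancel, norm_one] at this
    linarith
  have hw : ‖ww γ s ε R‖ ≤ 3.2 := by
    have c1 : ‖ww γ s ε R‖ ^ 2 = ‖wq γ s ε R‖ := by rw [← ww_sq, norm_pow]
    have c2 : ‖wq γ s ε R‖ ≤ bb s / R + 2 * 1.016 + R * θ := by
      rw [wf_wq]
      refine (norm_sub_le _ _).trans (add_le_add ((norm_sub_le _ _).trans (add_le_add ?_ ?_)) ?_)
      · rw [norm_real, Real.norm_of_nonneg (by positivity)]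
      · rw [norm_mul, norm_real, Real.norm_of_nonneg (by norm_num)]
        linarith
      · rw [hε, norm_mul, norm_mul, norm_I, norm_real, norm_real, Real.norm_of_nonneg hR0.le,
          Real.norm_of_nonneg hθ.le, mul_one]
    have c3 : bb s / R ≤ 0.01 := by
      rw [div_le_iff₀ hR0]
      linarith
    exact le_of_sq_le_sq (by linarith) (by norm_num)
  have d1 : gg γ s R ε * (mm γ s R ε - mp γ s R ε)
      = (nm γ s R ε - np γ s R ε) / (nm γ s R ε + np γ s R ε) + gg γ s R ε * (1 / (2 * R) : ℝ) := by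
    have t0 : ((√R : ℝ) : ℂ) ≠ 0 := ofReal_ne_zero.2 (by linarith)
    have e : nm γ s R ε - np γ s R ε
        = (√R : ℝ) * (mm γ s R ε - mp γ s R ε - (1 / (2 * R) : ℝ)) := by
      rw [nm, np]
      push_cast
      ring
    rw [e, g1]
    ring
  have d2 : gg γ s R ε * (mm γ s R ε * mp γ s R ε + (2 * Ec γ ε / R + ε - s ^ 2 / R ^ 2))
      = (nm γ s R ε * np γ s R ε - ww γ s ε R ^ 2) / (nm γ s R ε + np γ s R ε) * (1 / √R : ℝ)
        - (nm γ s R ε - np γ s R ε) / (nm γ s R ε + np γ s R ε) * (1 / (4 * R) : ℝ)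
        + gg γ s R ε * ((s + 1 / 8) / R ^ 2 : ℝ) := by
    have t0 : ((√R : ℝ) : ℂ) ≠ 0 := ofReal_ne_zero.2 (by linarith)
    have t1 : (R : ℂ) = ((√R : ℝ) : ℂ) ^ 2 := by rw [← ofReal_pow, ht2]
    have e1 : mm γ s R ε = nm γ s R ε / (√R : ℝ) + 1 / (4 * R) := by
      rw [nm, mul_div_cancel_left₀ _ t0]
      ring
    have e2 : mp γ s R ε = np γ s R ε / (√R : ℝ) - 1 / (4 * R) := by
      rw [np, mul_div_cancel_left₀ _ t0]
      ring
    rw [g1, e1, e2, ww_sq, wq]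
    push_cast
    generalize ((√R : ℝ) : ℂ) = t at *
    rw [t1]
    field_simp
    ring
  rw [rf_diff n1 n2 n3 n4] at d1 d2
  rw [rf_prod n1 n2 n3 n4] at d2
  rw [← rm1, ← rp1] at d1 d2
  rw [d1, d2]
  generalize rmB R (2.19 / R) θ = M at b1 ⊢
  obtain ⟨u, hu⟩ : ∃ u, u = 1 / √R := ⟨_, rfl⟩
  have u0 : 0 < u := by rw [hu]; positivity
  have u1 : u * √R = 1 := by rw [hu]; field_simp
  have u2 : u ≤ 1 / 16 := by nlinarith
  have u3 : 1 / R = u ^ 2 := by rw [hu, div_pow, ht2, one_pow]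
  have u4 : ∀ c : ℝ, c / R = c * u ^ 2 := fun c => by rw [← u3, mul_one_div]
  have u5 : ∀ c : ℝ, c / √R = c * u := fun c => by rw [hu, mul_one_div]
  rw [u4, u5] at b2 b5
  have u6 : u ^ 2 ≤ u / 16 := by nlinarith
  have k1 : ‖rp1 γ s R ε‖ ≤ 0.3 * u := by linarith
  have k2 : (1 : ℝ) ≤ 1.06 * (1 - ‖rm1 γ s R ε‖ * ‖rp1 γ s R ε‖) := by
    have := mul_le_mul b3 k1 (norm_nonneg _) (by norm_num)
    linarith
  have M0 : 0 ≤ M := (norm_nonneg _).trans b1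
  have k3 : ‖gg γ s R ε‖ ≤ 0.74 * √R := by
    refine b4.trans ?_
    have c1 : 1.41 * √R ≤ √(2 * R - 2.19) := Real.le_sqrt_of_sq_le (by rw [mul_pow, ht2]; linarith)
    rw [GG, div_le_iff₀ (by linarith)]
    have c2 := mul_le_mul_of_nonneg_left (show VV R (2 * R - 2.19) ≤ 1.04 by linarith) hR0.le
    have c3 := mul_le_mul_of_nonneg_left c1 (show 0 ≤ 0.74 * √R by positivity)
    nlinarith
  have q1 := xb_quot ((norm_sub_le (rp1 γ s R ε) (rm1 γ s R ε)).trans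
    (by linarith : _ ≤ M + 0.3 * u)) (by norm_num) k2
  have q2 := xb_quot (x := -(ww γ s ε R * (rm1 γ s R ε + rp1 γ s R ε))) (S := 3.2 * (M + 0.3 * u))
    (by
      rw [norm_neg, norm_mul]
      exact mul_le_mul hw ((norm_add_le _ _).trans (add_le_add b1 k1)) (norm_nonneg _)
        (by norm_num)) (by norm_num) k2
  have nm' : ∀ (x : ℂ) (c X : ℝ), 0 ≤ c → ‖x‖ ≤ X → ‖x * c‖ ≤ X * c := fun x c X hc hx => by
    rw [norm_mul, norm_real, Real.norm_of_nonneg hc]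
    exact mul_le_mul_of_nonneg_right hx hc
  have r1 := nm' _ (1 / (2 * R)) _ (by positivity) k3
  have r2 := nm' _ (1 / √R) _ (by positivity) q2
  have r3 := nm' _ (1 / (4 * R)) _ (by positivity) q1
  have r4 := nm' _ ((s + 1 / 8) / R ^ 2) _ (by positivity) k3
  have f1 := xb_fac (ε := ε) hR0.le one_pos one_pos le_rfl c6 (by rw [hε]; simp)
  have f3 := xb_c hl hs hR0 hE
  refine (xb_sum hl hs f1 f3 ((norm_add_le _ _).trans (add_le_add q1 r1))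
    ((norm_add_le _ _).trans (add_le_add ((norm_sub_le _ _).trans (add_le_add r2 r3)) r4))).trans ?_
  have v1 : 0.74 * √R * (1 / (2 * R)) = 0.37 * u := by
    rw [hu]
    nth_rewrite 2 [← ht2]
    field_simp
    norm_num
  have v2 : 1 / (4 * R) = u ^ 2 / 4 := by
    rw [← u3]
    field_simp
  have v3 : 0.74 * √R * ((s + 1 / 8) / R ^ 2) ≤ 0.004 * u := by
    have c1 : 0.74 * √R * ((s + 1 / 8) / R ^ 2) = 0.74 * (s + 1 / 8) * u ^ 2 * u * (u * √R) := by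
      rw [div_eq_mul_one_div, ← one_div_pow, u3]
      ring
    have c2 : 0.74 * (s + 1 / 8) * u ^ 2 ≤ 0.004 := by nlinarith
    rw [c1, u1, mul_one]
    exact mul_le_mul_of_nonneg_right c2 u0.le
  obtain ⟨N, hN⟩ : ∃ N, N = M + 0.3 * u := ⟨_, rfl⟩
  have N0 : 0 ≤ N := by rw [hN]; positivity
  rw [v1, v2, u3, ← hu, ← hN]
  have v4 : (1.016 + u ^ 2) * (1.06 * N + 0.37 * u) ≤ 1.02 * (1.06 * N + 0.37 * u) :=
    mul_le_mul_of_nonneg_right (by linarith) (by positivity)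
  have v5 : N * u ≤ N * (1 / 16) := mul_le_mul_of_nonneg_left u2 N0
  have v6 : N * u ^ 2 ≤ N * (1 / 256) := mul_le_mul_of_nonneg_left (by linarith) N0
  have v7 : (1.016 + u ^ 2) * (1.06 * N + 0.37 * u) + (1.06 * (3.2 * N) * u + 1.06 * N * (u ^ 2 / 4)
      + 0.74 * √R * ((s + 1 / 8) / R ^ 2)) ≤ 1.3 * M + 0.78 * u := by linarith
  have v8 : (R + 1) / (1 * 1) ≤ 1.004 * R := by linarith
  refine (mul_le_mul v8 v7 (by positivity) (by positivity)).trans ?_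
  have v9 : R * u = √R := by
    nth_rewrite 1 [← ht2]
    rw [sq, mul_assoc, mul_comm √R u, u1, mul_one]
  have v10 := mul_nonneg hR0.le M0
  nlinarith

end Pool.Agent.Lib.MP_2347b2_mp.F
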