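import Pool.Agent.Lib.MP_2347b2_mp.F.Dtwo
import Pool.Agent.Lib.MP_2347b2_mp.F.Lad2
import Pool.Agent.Lib.MP_2347b2_mp.F.Ch1B

namespace Pool.Agent.Lib.MP_2347b2_mp.F

open MeasureTheory Set Filter Topology Complex

/-- the integrand of the first channel -/
noncomputable def Xi (γ s R : ℝ) (ε : ℂ) : ℂ := (R / Ec γ ε - 1) / (1 + ε)
  * ((Ec γ ε - s ^ 2 / R) * (gg γ s R ε * (mm γ s R ε - mp γ s R ε))
    + s * (gg γ s R ε * (mm γ s R ε * mp γ s R ε + (2 * Ec γ ε / R + ε - s ^ 2 / R ^ 2))))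

variable {γ R : ℝ}

theorem c1_s (h0 : 0 < γ) (h1 : γ < 1) : γ ^ 2 ≤ 1 ∧ 0 < sOf γ (1 : ℕ) ∧ sOf γ (1 : ℕ) ≤ 1 ∧
    sOf γ (1 : ℕ) ^ 2 = 1 - γ ^ 2 := by
  have a := sk_le h0 h1 (le_refl 1)
  have b := sk_sq h0 h1 (le_refl 1)
  refine ⟨pow_le_one₀ h0.le h1.le, sk_pos h0 h1 le_rfl, a.trans_eq Nat.cast_one, b.trans ?_⟩
  rw [Nat.cast_one, one_pow]

theorem topH_one (h0 : 0 < γ) (h1 : γ < 1) (hR : 100 ≤ R) : TopH γ (sOf γ (1 : ℕ)) R := by
  obtain ⟨a, b, c, d⟩ := c1_s h0 h1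
  have e : 8 / R ≤ 0.08 := by
    rw [div_le_iff₀ (by linarith)]
    linarith
  generalize sOf γ (1 : ℕ) = s at *
  have f : s ^ 2 ≤ s := by nlinarith
  exact ⟨a, b.le, by linarith, by nlinarith, by nlinarith⟩

/-- the weights of the first channel -/
noncomputable def Fw (γ R a b c : ℝ) (z : ℂ) : ℂ :=
  (R / Ec γ z - 1) / (1 + z) * (a * Ec γ z + b * z + c)

theorem c1_real (h1 : γ ^ 2 ≤ 1) (R a b c : ℝ) {x : ℝ} (hx : -1 < x) : Fw γ R a b c x =
    ((R / √(1 + γ ^ 2 * x) - 1) / (1 + x) * (a * √(1 + γ ^ 2 * x) + b * x + c) : ℝ) := by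
  rw [Fw, Ec_real h1 hx]
  push_cast
  rfl

theorem c1_Wt (h1 : γ ^ 2 ≤ 1) (R a b c : ℝ) : Wt (Fw γ R a b c) := by
  refine ⟨?_, fun x hx => by rw [c1_real h1 R a b c hx, ofReal_im]⟩
  have e := Ec_diff h1
  refine ((((differentiableOn_const _).div e fun z hz h => ?_).sub_const _).div
    (differentiableOn_id.const_add _) fun z hz h => ?_).mul
    (((e.const_mul _).add (differentiableOn_id.const_mul _)).add_const _)
  · have := Ec_re_pos h1 hz
    rw [h] at this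
    exact lt_irrefl _ this
  · have h2 : -1 < z.re := hz
    have h3 : (1 + z).re = 0 := congrArg re h
    rw [add_re, one_re] at h3
    linarith

theorem c1_ep {l : ℝ} (hl : -1 < l) (R a b c : ℝ) (n : ℕ) : (Fw γ R a b c (ep γ l n)).re =
    (R / EE γ l n - 1) / (1 + ep γ l n) * (a * EE γ l n + b * ep γ l n + c) := by
  rw [← ofReal_re (_ * (a * EE γ l n + b * ep γ l n + c)), Fw, Ec_ep hl]
  push_cast
  rfl

theorem c1_congr {T : ℝ} {g F : ℂ → ℂ} (hT : 0 < T) (h : ∀ z ∈ UU, g z = F z) :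
    ctr T g = ctr T F := by
  have a : cL T g = cL T F := intervalIntegral.integral_congr_ae (Eventually.of_forall fun θ hθ => by
    rw [uIoc_of_le hT.le] at hθ
    rw [h _ (Sides_subset hT (by simpa using g3_side (Or.inl rfl) hθ))])
  have b : cT T g = cT T F := intervalIntegral.integral_congr fun x hx => by
    rw [uIcc_of_le (by norm_num)] at hx
    rw [h _ (g3_UU hx.1 hT)]
  have c : cR T g = cR T F := intervalIntegral.integral_congr_ae (Eventually.of_forall fun θ hθ => by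
    rw [uIoc_of_le hT.le] at hθ
    rw [h _ (Sides_subset hT (by simpa using g3_side (Or.inr rfl) hθ))])
  rw [ctr, ctr, a, b, c]

theorem c1_split (h1 : γ ^ 2 ≤ 1) {s : ℝ} (hs : 0 ≤ s) (hR : 0 < R) {z : ℂ} (hz : z ∈ UU) :
    Xi γ s R z = Fw γ R 1 0 (-(s ^ 2 / R)) z * gab γ s R 1 1 z
      + Fw γ R (2 * s / R - 1) s (s ^ 2 / R - s ^ 3 / R ^ 2) z * gab γ s R 1 0 z
      + Fw γ R (-1) 0 (s ^ 2 / R - s) z * gab γ s R 0 1 z := by
  simp only [gab_eq' h1 hs hz hR, Xi, Fw]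
  push_cast
  ring

theorem c1_hyp (h0 : 0 < γ) (h1 : γ < 1) (hR : 100 ≤ R) :
    4 / 3 < (sOf γ (1 : ℕ) + 1) ^ 2 + γ ^ 2 ∧ Out γ (sOf γ (1 : ℕ)) R (8 / R) := by
  obtain ⟨a, b, c, d⟩ := c1_s h0 h1
  generalize sOf γ (1 : ℕ) = s at *
  refine ⟨by nlinarith, out_of a b.le ?_ _⟩
  rw [bb]
  nlinarith

theorem c1_good (h0 : 0 < γ) (h1 : γ < 1) (hR : 100 ≤ R) (a b c u v : ℝ) :
    Good (8 / R) fun z => Fw γ R a b c z * gab γ (sOf γ (1 : ℕ)) R u v z := by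
  obtain ⟨g, s, -⟩ := c1_s h0 h1
  obtain ⟨hL, ho⟩ := c1_hyp h0 h1 hR
  have r : 0 < R := by linarith
  have t : 0 < 8 / R := by positivity
  exact (Good.of_cont t (c1_Wt g R a b c).1.continuousOn).mul (good_gab h0 g s.le hL r t ho u v)

theorem Xi_good (h0 : 0 < γ) (h1 : γ < 1) (hR : 100 ≤ R) :
    Good (8 / R) (Xi γ (sOf γ (1 : ℕ)) R) := by
  obtain ⟨g, s, -⟩ := c1_s h0 h1
  have r : 0 < R := by linarith
  have t : 0 < 8 / R := by positivity
  obtain ⟨a, C, hC⟩ := ((c1_good h0 h1 hR _ _ _ 1 1).add (c1_good h0 h1 hR _ _ _ 1 0)).add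
    (c1_good h0 h1 hR _ _ _ 0 1)
  refine ⟨a.congr fun z hz => c1_split g s.le r hz, C, fun z hz => ?_⟩
  rw [c1_split g s.le r (Sides_subset t hz)]
  exact hC z hz

theorem c1_sum (h0 : 0 < γ) (h1 : γ < 1) (hR : 100 ≤ R) :
    HasSum (fun m => Real.pi * (EE γ (sOf γ (1 : ℕ)) m * (EE γ (sOf γ (1 : ℕ)) m - R) * YY γ 1 m R))
      (ctr (8 / R) (Xi γ (sOf γ (1 : ℕ)) R)) := by
  obtain ⟨g, s, -⟩ := c1_s h0 h1
  obtain ⟨hL, ho⟩ := c1_hyp h0 h1 hR
  have r : 0 < R := by linarith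
  have t : 0 < 8 / R := by positivity
  have l : -1 < sOf γ (1 : ℕ) := by linarith
  rw [c1_congr t fun z hz => c1_split g s.le r hz,
    ctr_add t ((c1_good h0 h1 hR _ _ _ 1 1).add (c1_good h0 h1 hR _ _ _ 1 0))
      (c1_good h0 h1 hR _ _ _ 0 1),
    ctr_add t (c1_good h0 h1 hR _ _ _ 1 1) (c1_good h0 h1 hR _ _ _ 1 0)]
  have H := fun a b c u v => hasSum_gab h0 g s.le hL r t ho u v (c1_Wt g R a b c)
  refine (((H _ _ _ 1 1).add (H _ _ _ 1 0)).add (H _ _ _ 0 1)).congr_fun fun m => ?_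
  have e := (EE_pos (γ := γ) l m).ne'
  have p : 1 + ep γ (sOf γ (1 : ℕ)) m ≠ 0 := by linarith [ep_gt s.le h0 m]
  simp only [c1_ep l, res, YY]
  generalize sOf γ (1 : ℕ) = x at *
  rw [Nat.cast_one, one_pow, one_mul (ep γ x m)]
  field_simp
  ring

theorem Sp_ctr (h0 : 0 < γ) (h1 : γ < 1) (hR : 100 ≤ R) :
    Real.pi * Sp γ 1 R ≤ ctr (8 / R) (Xi γ (sOf γ (1 : ℕ)) R) := by
  obtain ⟨g, s, s1, -⟩ := c1_s h0 h1
  have r : 0 < R := by linarith
  have a : t0 γ 1 R ≤ 0 := by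
    refine mul_nonpos_of_nonpos_of_nonneg ?_ (sq_nonneg _)
    have : ((1 : ℕ) : ℝ) * sOf γ (1 : ℕ) - R - (1 : ℕ) = sOf γ (1 : ℕ) - R - 1 := by
      rw [Nat.cast_one, one_mul]
    linarith
  have b := hasSum_le (fun m => mul_le_mul_of_nonneg_left
    (show Tp γ 1 m R ≤ EE γ (sOf γ (1 : ℕ)) m * (EE γ (sOf γ (1 : ℕ)) m - R) * YY γ 1 m R from ?_)
    Real.pi_pos.le) ((summable_Tp h0 h1 le_rfl r).hasSum.mul_left Real.pi) (c1_sum h0 h1 hR)
  · have := mul_nonpos_of_nonneg_of_nonpos Real.pi_pos.le a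
    rw [Sp, mul_add]
    linarith
  · have y := YY_eq h0 h1 le_rfl m r
    rw [Tp]
    generalize sOf γ (1 : ℕ) = x at *
    rw [Nat.cast_one]
    have u := mul_nonneg (sq_nonneg (EE γ x m))
      (add_nonneg (sq_nonneg (ff γ (x - 1) (m + 1) R)) (sq_nonneg (ff γ x m R)))
    have v : EE γ x m ^ 2 * (x * YY γ 1 m R) = _ := congrArg (EE γ x m ^ 2 * ·) y
    linarith

theorem Xi_ell (h0 : 0 < γ) (h1 : γ < 1) (hR : 256 ≤ R) {ε : ℂ} (hε : ε ∈ Ell (8 / R)) :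
    ‖Xi γ (sOf γ (1 : ℕ)) R ε‖ ≤ (9 / R + 90 / R * A0 ε) / (A0 ε * √(A0 ε)) := by
  exact xb_ell (topH_one h0 h1 (by linarith)) (by simpa using sk_le h0 h1 le_rfl) hR hε

theorem Xi_right (h0 : 0 < γ) (h1 : γ < 1) (hR : 256 ≤ R) {θ : ℝ} (hθ : 0 < θ)
    (hθ' : θ ≤ 8 / R) : ‖Xi γ (sOf γ (1 : ℕ)) R (θ * I)‖
      ≤ 1.4 * R * rmB R (2.19 / R) θ + 0.9 * √R := by
  exact xb_right (by nlinarith) (sk_pos h0 h1 le_rfl).le (by simpa using sk_le h0 h1 le_rfl) hR hθ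
    hθ' rfl

theorem c1_sqrt (hR : 256 ≤ R) : 16 ≤ √R := Real.le_sqrt_of_sq_le (by linarith)

theorem c1_left (h0 : 0 < γ) (h1 : γ < 1) (hR : 256 ≤ R) :
    |cL (8 / R) (Xi γ (sOf γ (1 : ℕ)) R)| ≤ 0.1 := by
  have r : 0 < R := by linarith
  have t : 0 < 8 / R := by positivity
  refine (cL_le (c := 200 / R) t (Xi_good h0 h1 (by linarith)) fun ε hε hre => ?_).trans ?_
  · refine (Xi_ell h0 h1 hR hε).trans ?_
    have a : 3 / 4 ≤ A0 ε := by
      have : 0 < ε.im := (Sides_subset t (Ell_subset hε)).2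
      rw [A0, hre]
      linarith
    have b : 0.8 ≤ √(A0 ε) := Real.le_sqrt_of_sq_le (by linarith)
    have e : 9 / R + 90 / R * A0 ε = (9 + 90 * A0 ε) / R := by ring
    rw [e, div_le_iff₀ (by positivity), div_mul_eq_mul_div]
    exact div_le_div_of_nonneg_right (by nlinarith) r.le
  · rw [div_mul_div_comm, div_le_iff₀ (by positivity)]
    nlinarith

theorem c1_top (h0 : 0 < γ) (h1 : γ < 1) (hR : 256 ≤ R) :
    |cT (8 / R) (Xi γ (sOf γ (1 : ℕ)) R)| ≤ 1.2 := by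
  have r : 0 < R := by linarith
  have t : 0 < 8 / R := by positivity
  refine (cT_le (f := fun A => (9 / R + 90 / R * A) / (A * √A)) t (Xi_good h0 h1 (by linarith))
    (ContinuousOn.div (by fun_prop) (by fun_prop) fun A hA => ?_)
    fun ε hε _ => Xi_ell h0 h1 hR hε).trans
    ((int_A32 t _ _ (by positivity) (by positivity)).trans ?_)
  · have : 0 < A := hA
    positivity
  · have a : 40 / R ≤ √(8 / R) := by
      refine Real.le_sqrt_of_sq_le ?_
      rw [div_pow, div_le_div_iff₀ (by positivity) r]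
      nlinarith
    have b : 2 * (9 / R) / √(8 / R) ≤ 0.5 := by
      rw [div_le_iff₀ (by positivity)]
      have : 2 * (9 / R) ≤ 0.5 * (40 / R) := by
        rw [← mul_div_assoc, ← mul_div_assoc]
        exact div_le_div_of_nonneg_right (by norm_num) r.le
      linarith
    have c : 90 / R ≤ 0.36 := by
      rw [div_le_iff₀ r]
      linarith
    linarith

theorem c1_right (h0 : 0 < γ) (h1 : γ < 1) (hR : 256 ≤ R) :
    |cR (8 / R) (Xi γ (sOf γ (1 : ℕ)) R)| ≤ 1.6 := by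
  have r : 0 < R := by linarith
  have t : 0 < 8 / R := by positivity
  have q := c1_sqrt hR
  have u0 : 0 ≤ 2.19 / R := by positivity
  have u1 : 2.19 / R ≤ 0.01 := by
    rw [div_le_iff₀ r]
    linarith
  obtain ⟨i, j⟩ := rmB_int (R := R) (t := 2.19 / R) (by linarith) u0 (by linarith)
  refine (cR_le (f := fun θ => 1.4 * R * rmB R (2.19 / R) θ + 0.9 * √R) t
    (Xi_good h0 h1 (by linarith)) ((i.const_mul _).add intervalIntegrable_const)
    fun θ a b => (abs_re_le_norm _).trans (Xi_right h0 h1 hR a b)).trans ?_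
  rw [intervalIntegral.integral_add (i.const_mul _) intervalIntegrable_const,
    intervalIntegral.integral_const_mul, intervalIntegral.integral_const, smul_eq_mul, sub_zero]
  generalize 2.19 / R = u at *
  have a : 1 / (0.375 * √R - 0.92 - 1.04 * u) ≤ 0.2 := by
    rw [div_le_iff₀ (by linarith)]
    linarith
  have b : (0.28 + 0.25 * u) / √R ≤ 0.02 := by
    rw [div_le_iff₀ (by linarith)]
    linarith
  have b0 : 0 ≤ (0.28 + 0.25 * u) / √R := by positivity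
  have a0 : 0 ≤ 1 / (0.375 * √R - 0.92 - 1.04 * u) := one_div_nonneg.2 (by linarith)
  have c : (1 + 0.92 * u) * (1 / (0.375 * √R - 0.92 - 1.04 * u)
      + 4 * ((0.28 + 0.25 * u) / √R + u / 4)) ≤ 1.01 * 0.3 :=
    mul_le_mul (by linarith) (by linarith) (by linarith) (by norm_num)
  have d : 8 / R * (0.9 * √R) ≤ 0.5 := by
    rw [div_mul_eq_mul_div, div_le_iff₀ r]
    nlinarith [Real.mul_self_sqrt r.le]
  have e := mul_le_mul_of_nonneg_left
    (j.trans (mul_le_mul_of_nonneg_left c (by positivity))) (show 0 ≤ 1.4 * R by positivity)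
  have f : 1.4 * R * (2 / R * (1.01 * 0.3)) = 0.8484 := by
    field_simp
    norm_num
  linarith

theorem ch1 (h0 : 0 < γ) (h1 : γ < 1) (hR : 256 ≤ R) : Sp γ 1 R ≤ 1 := by
  have a := abs_le.1 (c1_left h0 h1 hR)
  have b := abs_le.1 (c1_top h0 h1 hR)
  have c := abs_le.1 (c1_right h0 h1 hR)
  have d := Sp_ctr h0 h1 (by linarith : 100 ≤ R)
  rw [ctr] at d
  refine le_of_mul_le_mul_left ?_ Real.pi_pos
  linarith [Real.pi_gt_three]

end Pool.Agent.Lib.MP_2347b2_mp.F
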