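import Pool.Agent.Lib.MP_2347b2_mp.F.Ch1

namespace Pool.Agent.Lib.MP_2347b2_mp.F

open MeasureTheory Set Filter Topology Complex

theorem xc_poly {η : ℝ} (h0 : 0 ≤ η) (h1 : η ≤ 3 / 4) :
    1 ≤ (1 + 2 * η + 13.2 * η ^ 3) * ((1 + 2 * (1 - η)) / 3 * (1 - η)) := by
  have d : 0 ≤ 3 / 4 - η := sub_nonneg.2 h1
  have q : 0 ≤ 8.8 * η ^ 2 - 179 / 60 * η + 103 / 240 := by nlinarith [sq_nonneg (η - 0.17)]
  have a : 0 ≤ η * ((3 / 4 - η) * (8.8 * η ^ 2 - 179 / 60 * η + 103 / 240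
      + 8.8 * η ^ 2 * (3 / 4 - η))) := by positivity
  nlinarith

theorem xc_fin {R A η : ℝ} (hR : 100 ≤ R) (hA : 0 < A) (hA1 : A ≤ 0.83) (η0 : 0 ≤ η)
    (η1 : η ≤ 3 / 4) (η2 : η ≤ A) :
    (R + 1) * (1 + 2 * η + 13.2 * η ^ 3) * (1.03 * (1.01 * (2.9 / (R ^ 2 * (A * √A))))
      + (1.01 * ((0.3 + 0.9 * A) * (2.9 / (R ^ 2 * (A * √A)))) + 0.79 * A / (R ^ 2 * (A * √A))))
      ≤ ((3.94 + 11.35 * A) / (A * √A) + (6.33 + 78 * η)) / R := by
  have hR0 : 0 < R := by linarith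
  have hs : 0 < √A := Real.sqrt_pos.2 hA
  have hq : √A ^ 2 = A := Real.sq_sqrt hA.le
  have s1 : √A ≤ 0.912 := Real.sqrt_le_iff.2 ⟨by norm_num, by linarith⟩
  have s2 : η ^ 2 ≤ 0.867 * (A * √A) := by
    have c1 : η ≤ 0.867 * √A := le_of_sq_le_sq (by rw [mul_pow, hq]; nlinarith) (by positivity)
    have := mul_le_mul η2 c1 η0 hA.le
    linarith
  have s3 : η * A ≤ 0.912 * (A * √A) := by
    have c1 : η ≤ 0.912 * √A := by nlinarith
    nlinarith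
  obtain ⟨P, hP⟩ : ∃ P, P = A * √A := ⟨_, rfl⟩
  have P0 : 0 < P := by rw [hP]; positivity
  rw [← hP] at s2 s3 ⊢
  have e1 : (R + 1) * (1 + 2 * η + 13.2 * η ^ 3) * (1.03 * (1.01 * (2.9 / (R ^ 2 * P)))
      + (1.01 * ((0.3 + 0.9 * A) * (2.9 / (R ^ 2 * P))) + 0.79 * A / (R ^ 2 * P)))
      = (R + 1) / R * ((1 + 2 * η + 13.2 * η ^ 3) * (3.89557 + 3.4261 * A)) / P / R := by
    field_simp
    ring
  have e2 : (3.94 + 11.35 * A) / P + (6.33 + 78 * η)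
      = (3.94 + 11.35 * A + (6.33 + 78 * η) * P) / P := by field_simp
  rw [e1, e2]
  refine div_le_div_of_nonneg_right (div_le_div_of_nonneg_right ?_ P0.le) hR0.le
  have c1 : (R + 1) / R ≤ 1.01 := by
    rw [div_le_iff₀ hR0]
    linarith
  refine (mul_le_mul_of_nonneg_right c1 (by positivity)).trans ?_
  have c2 : η ^ 3 * (3.89557 + 3.4261 * A) ≤ η * (0.867 * P) * 6.74 := by
    rw [pow_succ', ]
    exact mul_le_mul (mul_le_mul_of_nonneg_left s2 η0) (by linarith) (by positivity)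
      (by positivity)
  have c3 := mul_nonneg η0 P0.le
  nlinarith

variable {γ s R : ℝ}

theorem xc_ell (h : TopH γ s R) (hs : s ≤ 1) (hR : 100 ≤ R) {ε : ℂ} (hε : ε ∈ Ell (8 / R)) :
    ‖(R / Ec γ ε - 1) / (1 + ε)
      * ((Ec γ ε - s ^ 2 / R) * (gg γ s R ε * (mm γ s R ε - mp γ s R ε))
        + s * (gg γ s R ε * (mm γ s R ε * mp γ s R ε + (2 * Ec γ ε / R + ε - s ^ 2 / R ^ 2))))‖
      ≤ ((3.94 + 11.35 * A0 ε) / (A0 ε * √(A0 ε)) + (6.33 + 78 * -ε.re)) / R := by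
  have h1 := h.h1
  have hl := h.hl
  have hR0 : 0 < R := by linarith
  obtain ⟨hU, a1, a2, a3, a4, a5, a6, a7, a8, a9⟩ := ell_basic h1 h.hR hε
  have hi : 8 / R ≤ 0.08 := by
    rw [div_le_iff₀ hR0]
    linarith
  have hi0 : 0 < 8 / R := by positivity
  have hA : 0 < A0 ε := by linarith
  have hss : s * (s + 1) ≤ 2 := by nlinarith
  have b1 := rm0_le1 h (by linarith) (by linarith) hε
  have b2 := rp0_le h hε
  have b3 := gg_ell_sq h hε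
  have hsA : 0 < √(A0 ε) := Real.sqrt_pos.2 hA
  have hsq : √(A0 ε) ^ 2 = A0 ε := Real.sq_sqrt hA.le
  obtain ⟨D, hD⟩ : ∃ D, D = R ^ 2 * (A0 ε * √(A0 ε)) := ⟨_, rfl⟩
  have hD0 : 0 < D := by rw [hD]; positivity
  have hD1 : 100 ≤ D := by
    have c1 : 8 ≤ A0 ε * R := (div_le_iff₀ hR0).1 a1
    have c2 : 16 ≤ R * √(A0 ε) := le_of_sq_le_sq (by rw [mul_pow, hsq]; nlinarith) (by positivity)
    have c3 : D = (A0 ε * R) * (R * √(A0 ε)) := by rw [hD]; ring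
    rw [c3]
    nlinarith
  rw [← hD] at b1 b2
  have b4 : ‖rp0 γ s R ε‖ ≤ 0.7 / D := by
    refine b2.trans (div_le_div_of_nonneg_right ?_ hD0.le)
    have : s * (s + 1) / R ≤ 0.02 := by
      rw [div_le_iff₀ hR0]
      linarith
    linarith
  have b5 : ‖rm0 γ s R ε‖ ≤ 0.03 := b1.trans (by rw [div_le_iff₀ hD0]; linarith)
  have b6 : ‖rp0 γ s R ε‖ ≤ 0.01 := b4.trans (by rw [div_le_iff₀ hD0]; linarith)
  have b7 : (1 : ℝ) ≤ 1.01 * (1 - ‖rm0 γ s R ε‖ * ‖rp0 γ s R ε‖) := by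
    have := mul_le_mul b5 b6 (norm_nonneg _) (by norm_num)
    linarith
  have b8 : ‖rm0 γ s R ε‖ + ‖rp0 γ s R ε‖ ≤ 2.9 / D := by
    have : 2.2 / D + 0.7 / D = 2.9 / D := by
      rw [← add_div]
      norm_num
    linarith
  have w0 := wf_W0 (l := s) h1 hU hR0
  have m0 := mm_im_neg h1 hl hU hR0
  have p0 := mp_im_neg h1 hl hU hR0
  have n1 : W0 γ s ε R ≠ 0 := wf_ne w0
  have n2 : W0 γ s ε R + mm γ s R ε ≠ 0 := wf_ne (add_neg w0 m0)
  have n3 : W0 γ s ε R + mp γ s R ε ≠ 0 := wf_ne (add_neg w0 p0)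
  have n4 : mm γ s R ε + mp γ s R ε ≠ 0 := wf_ne (add_neg m0 p0)
  have e1 : gg γ s R ε * (mm γ s R ε - mp γ s R ε)
      = (rp0 γ s R ε - rm0 γ s R ε) / (1 - rm0 γ s R ε * rp0 γ s R ε) := by
    rw [gg_inv h1 hl hU hR0, one_div_mul_eq_div, rf_diff n1 n2 n3 n4, rm0, rp0]
  have e2 : gg γ s R ε * (mm γ s R ε * mp γ s R ε + (2 * Ec γ ε / R + ε - s ^ 2 / R ^ 2))
      = -(W0 γ s ε R * (rm0 γ s R ε + rp0 γ s R ε)) / (1 - rm0 γ s R ε * rp0 γ s R ε)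
        + gg γ s R ε * (s / R ^ 2 : ℝ) := by
    rw [rm0, rp0, ← rf_prod n1 n2 n3 n4, W0_sq, gg_inv h1 hl hU hR0, Qc]
    push_cast
    ring
  have hW : ‖W0 γ s ε R‖ ≤ 0.3 + 0.9 * A0 ε := by
    have c1 : ‖W0 γ s ε R‖ ^ 2 = ‖Qc γ s ε R‖ := by rw [← W0_sq, norm_pow]
    have c2 : ‖Qc γ s ε R‖ ≤ s * (s + 1) / R ^ 2 + 2 * 1.02 / R + A0 ε := by
      have e : Qc γ s ε R = (s * (s + 1) / R ^ 2 : ℝ) - (2 / R : ℝ) * Ec γ ε - ε := by
        rw [Qc]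
        push_cast
        ring
      rw [e]
      refine (norm_sub_le _ _).trans (add_le_add ((norm_sub_le _ _).trans (add_le_add ?_ ?_)) a3)
      · rw [norm_real, Real.norm_of_nonneg (by positivity)]
      · rw [norm_mul, norm_real, Real.norm_of_nonneg (by positivity), mul_div_right_comm]
        exact mul_le_mul_of_nonneg_left a9 (by positivity)
    have c3 : s * (s + 1) / R ^ 2 ≤ 0.0002 := by
      rw [div_le_iff₀ (by positivity)]
      nlinarith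
    have c4 : 2 * 1.02 / R ≤ 0.0204 := by
      rw [div_le_iff₀ hR0]
      linarith
    exact le_of_sq_le_sq (by nlinarith [sq_nonneg (A0 ε - 0.284)]) (by linarith)
  have hg : ‖gg γ s R ε * (s / R ^ 2 : ℝ)‖ ≤ 0.79 * A0 ε / D := by
    have c1 : ‖gg γ s R ε‖ * √(A0 ε) ≤ 0.79 := le_of_sq_le_sq (by
      rw [mul_pow, hsq]
      have := (le_div_iff₀ hA).1 b3
      linarith) (by norm_num)
    rw [norm_mul, norm_real, Real.norm_of_nonneg (by positivity), le_div_iff₀ hD0, hD]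
    have c2 : ‖gg γ s R ε‖ * (s / R ^ 2) * (R ^ 2 * (A0 ε * √(A0 ε)))
        = ‖gg γ s R ε‖ * √(A0 ε) * (s * A0 ε) := by field_simp
    have c3 : s * A0 ε ≤ A0 ε := mul_le_of_le_one_left hA.le hs
    rw [c2]
    exact mul_le_mul c1 c3 (by positivity) (by norm_num)
  have q1 := xb_quot ((norm_sub_le (rp0 γ s R ε) (rm0 γ s R ε)).trans (by linarith : _ ≤ 2.9 / D))
    (by norm_num) b7
  have q2 := xb_quot (x := -(W0 γ s ε R * (rm0 γ s R ε + rp0 γ s R ε))) 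
    (S := (0.3 + 0.9 * A0 ε) * (2.9 / D)) (by
    rw [norm_neg, norm_mul]
    exact mul_le_mul hW ((norm_add_le _ _).trans b8) (norm_nonneg _) (by linarith)) (by norm_num) b7
  obtain ⟨y, hy⟩ : ∃ y, y = 1 + ε.re := ⟨_, rfl⟩
  have y1 : 1 / 4 ≤ y := by linarith
  have y2 : y ≤ 1 := by linarith
  have x1 : (1 + 2 * y) / 3 ≤ ‖Ec γ ε‖ := by
    refine le_trans (le_of_sq_le_sq ?_ (Ec_re_nonneg γ ε)) (re_le_norm _)
    have c1 := Ec_re_sq γ ε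
    have c2 : ε.re ≤ γ ^ 2 * ε.re := by nlinarith
    nlinarith [sq_nonneg (Ec γ ε).im, mul_nonneg (sub_nonneg.2 y1) (sub_nonneg.2 y2)]
  have f1 := xb_fac (ε := ε) hR0.le (by linarith) (by linarith : 0 < y) (by linarith) x1 hy.le
  obtain ⟨η, hη⟩ : ∃ η, η = -ε.re := ⟨_, rfl⟩
  have η0 : 0 ≤ η := by linarith
  have η1 : η ≤ 3 / 4 := by linarith
  have η2 : η ≤ A0 ε := by
    have : 0 < ε.im := hU.2
    rw [A0]
    linarith
  have f2 : (R + 1) / ((1 + 2 * y) / 3 * y) ≤ (R + 1) * (1 + 2 * η + 13.2 * η ^ 3) := by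
    have c3 : 0 < (1 + 2 * y) / 3 * y := by positivity
    rw [div_le_iff₀ c3, mul_assoc, show y = 1 - η by linarith]
    exact le_mul_of_one_le_right (by linarith) (xc_poly η0 η1)
  have f3 := xb_c hl hs hR0 a9
  have f4 : 1.02 + 1 / R ≤ 1.03 := by
    have : 1 / R ≤ 0.01 := by
      rw [div_le_iff₀ hR0]
      linarith
    linarith
  rw [e1, e2]
  refine (xb_sum hl hs (f1.trans f2) (f3.trans f4) q1
    ((norm_add_le _ _).trans (add_le_add q2 hg))).trans ?_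
  rw [← hη, hD]
  exact xc_fin hR hA (by linarith) η0 η1 η2

end Pool.Agent.Lib.MP_2347b2_mp.F
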