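import Pool.Agent.Lib.MP_2347b2_mp.F.Ch1

namespace Pool.Agent.Lib.MP_2347b2_mp.F

open MeasureTheory Set Filter Topology Complex

theorem xc_last {u M N R F X : ℝ} (u0 : 0 < u) (u2 : u ≤ 0.1) (M0 : 0 ≤ M)
    (hN : N = M + (0.275 * u + 0.374 * u ^ 2)) (hR : 0 < R) (F0 : 0 ≤ F)
    (hF : F ≤ R * (1 + 0.1 * u))    (hX : X ≤ 0.085 * u ^ 2) :
    F * ((1 + 0.016 * u + u ^ 2) * ((1 + 1.04 * u) * N + (0.3536 + 0.225 * u) * u)
      + ((1 + 1.04 * u) * (3.17 * N) * u + (1 + 1.04 * u) * N * (u ^ 2 / 4) + X))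
      ≤ (1 + 4.85 * u) * R * M + (0.63 + 2.29 * u) * (R * u) := by
  have u6 : u ^ 2 ≤ 0.1 * u := by nlinarith
  have N0 : 0 ≤ N := by rw [hN]; positivity
  have a1 : (1 + 1.04 * u) * (1 + 0.016 * u + u ^ 2 + 3.17 * u + u ^ 2 / 4) ≤ 1 + 4.696 * u := by
    have := mul_le_mul_of_nonneg_left
      (show 1 + 0.016 * u + u ^ 2 + 3.17 * u + u ^ 2 / 4 ≤ 1 + 3.311 * u by linarith)
      (show 0 ≤ 1 + 1.04 * u by positivity)
    linarith
  have a2 : (1 + 0.016 * u + u ^ 2) * (0.3536 + 0.225 * u) + 0.085 * u ≤ 0.3536 + 0.3537 * u := by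
    have := mul_le_mul_of_nonneg_right (show 1 + 0.016 * u + u ^ 2 ≤ 1 + 0.116 * u by linarith)
      (show 0 ≤ 0.3536 + 0.225 * u by positivity)
    linarith
  have a3 := mul_le_mul_of_nonneg_right a1 N0
  have a4 := mul_le_mul_of_nonneg_right a2 u0.le
  have a5 : (1 + 0.016 * u + u ^ 2) * ((1 + 1.04 * u) * N + (0.3536 + 0.225 * u) * u)
      + ((1 + 1.04 * u) * (3.17 * N) * u + (1 + 1.04 * u) * N * (u ^ 2 / 4) + X)
      ≤ (1 + 4.696 * u) * N + (0.3536 + 0.3537 * u) * u := by linarith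
  have a6 : (1 + 0.1 * u) * (1 + 4.696 * u) ≤ 1 + 4.85 * u := by linarith
  have a7 : (1 + 4.85 * u) * (0.275 + 0.374 * u) + (1 + 0.1 * u) * (0.3536 + 0.3537 * u)
      ≤ 0.63 + 2.29 * u := by linarith
  have a8 := mul_le_mul_of_nonneg_right a6 N0
  have a9 := mul_le_mul_of_nonneg_right a7 u0.le
  have b1 : (1 + 0.1 * u) * ((1 + 4.696 * u) * N + (0.3536 + 0.3537 * u) * u)
      ≤ (1 + 4.85 * u) * M + (0.63 + 2.29 * u) * u := by
    have e : (1 + 4.85 * u) * N = (1 + 4.85 * u) * M + (1 + 4.85 * u) * (0.275 + 0.374 * u) * u := by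
      rw [hN]
      ring
    linarith
  refine (mul_le_mul_of_nonneg_left a5 F0).trans
    ((mul_le_mul_of_nonneg_right hF (by positivity)).trans ?_)
  have := mul_le_mul_of_nonneg_left b1 hR.le
  linarith

variable {γ s R : ℝ}

theorem xc_right (h1 : γ ^ 2 ≤ 1) (hl : 0 ≤ s) (hs : s ≤ 1) (hR : 100 ≤ R) {θ : ℝ} (hθ : 0 < θ)
    (hθ' : θ ≤ 8 / R) {ε : ℂ} (hε : ε = θ * I) :
    ‖(R / Ec γ ε - 1) / (1 + ε)
      * ((Ec γ ε - s ^ 2 / R) * (gg γ s R ε * (mm γ s R ε - mp γ s R ε))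
        + s * (gg γ s R ε * (mm γ s R ε * mp γ s R ε + (2 * Ec γ ε / R + ε - s ^ 2 / R ^ 2))))‖
      ≤ (1 + 4.85 / √R) * R * rmB R (2.19 / R) θ + (0.63 + 2.29 / √R) * √R := by
  have hR0 : 0 < R := by linarith
  have hb : bb s ≤ 2.19 := by
    rw [bb]
    nlinarith
  have hb0 := vb_bb hl
  have hU : ε ∈ UU := hε ▸ vb_UU hθ
  have ht : 10 ≤ √R := Real.le_sqrt_of_sq_le (by linarith)
  have ht2 : √R ^ 2 = R := Real.sq_sqrt hR0.le
  have hθR : θ * R ≤ 8 := (le_div_iff₀ hR0).1 hθ'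
  have hθ1 : θ ≤ 0.08 := by nlinarith
  have b1 := rm1_le h1 hl (by linarith) hb (by linarith) hθ hθ'
  have b2 := (gg_right_main h1 hl (by linarith) hb (by linarith) hθ hθ' rfl).1
  have b3 := rm1_three (l := s) h1 hl hθ (r := R) (by linarith)
  have b4 := (gg_right (l := s) (R := R) (B := 2 * R - 2.19) h1 hl hθ (by linarith)
    (by linarith)).1
  have b5 := VV_le (R := R) (U := 2.19) (by linarith) (by norm_num) (by linarith)
  obtain ⟨-, -, -, -, c5, c6⟩ := Ec_right h1 hθ.le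
  rw [← hε] at b1 b2 b3 b4 c5 c6
  obtain ⟨g1, m0, p0⟩ := gg_n h1 hl hU hR0
  have w0 := wf_ww (l := s) h1 hU hR0
  have n1 : ww γ s ε R ≠ 0 := wf_ne w0
  have n2 : ww γ s ε R + nm γ s R ε ≠ 0 := wf_ne (add_neg w0 m0)
  have n3 : ww γ s ε R + np γ s R ε ≠ 0 := wf_ne (add_neg w0 p0)
  have n4 : nm γ s R ε + np γ s R ε ≠ 0 := wf_ne (add_neg m0 p0)
  obtain ⟨u, hu⟩ : ∃ u, u = 1 / √R := ⟨_, rfl⟩
  have u0 : 0 < u := by rw [hu]; positivity
  have u1 : u * √R = 1 := by rw [hu]; field_simp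
  have u2 : u ≤ 0.1 := by nlinarith
  have u3 : 1 / R = u ^ 2 := by rw [hu, div_pow, ht2, one_pow]
  have u4 : ∀ c : ℝ, c / R = c * u ^ 2 := fun c => by rw [← u3, mul_one_div]
  have u5 : ∀ c : ℝ, c / √R = c * u := fun c => by rw [hu, mul_one_div]
  have u6 : u ^ 2 ≤ 0.1 * u := by nlinarith
  have hE : ‖Ec γ ε‖ ≤ 1 + 0.016 * u := by
    have c1 := (Ec_strip (ε := ε) h1 (by rw [hε]; simp; norm_num) (by rw [hε]; simp)
      hU.2.le).2.2.2.1
    have c2 : ε.im = θ := by rw [hε]; simp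
    rw [c2] at c1
    rw [u4] at hθ'
    have c3 : θ ^ 2 ≤ 0.08 * (0.8 * u) := by
      rw [sq]
      exact mul_le_mul hθ1 (by linarith) hθ.le (by norm_num)
    linarith
  have hw : ‖ww γ s ε R‖ ≤ 3.17 := by
    have c1 : ‖ww γ s ε R‖ ^ 2 = ‖wq γ s ε R‖ := by rw [← ww_sq, norm_pow]
    have c2 : ‖wq γ s ε R‖ ≤ bb s / R + 2 * 1.0016 + R * θ := by
      rw [wf_wq]
      refine (norm_sub_le _ _).trans (add_le_add ((norm_sub_le _ _).trans (add_le_add ?_ ?_)) ?_)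
      · rw [norm_real, Real.norm_of_nonneg (by positivity)]
      · rw [norm_mul, norm_real, Real.norm_of_nonneg (by norm_num)]
        linarith
      · rw [hε, norm_mul, norm_mul, norm_I, norm_real, norm_real, Real.norm_of_nonneg hR0.le,
          Real.norm_of_nonneg hθ.le, mul_one]
    have c3 : bb s / R ≤ 0.0219 := by
      rw [div_le_iff₀ hR0]
      linarith
    exact le_of_sq_le_sq (by linarith) (by norm_num)
  have d1 : gg γ s R ε * (mm γ s R ε - mp γ s R ε)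
      = (nm γ s R ε - np γ s R ε) / (nm γ s R ε + np γ s R ε) + gg γ s R ε * (1 / (2 * R) : ℝ) := by
    have t0 : ((√R : ℝ) : ℂ) ≠ 0 := ofReal_ne_zero.2 (by linarith)
    have e : nm γ s R ε - np γ s R ε
        = (√R : ℝ) * (mm γ s R ε - mp γ s R ε - (1 / (2 * R) : ℝ)) := by
      rw [nm, np]
      push_cast
      ring
    rw [e, g1]
    ring
  have d2 : gg γ s R ε * (mm γ s R ε * mp γ s R ε + (2 * Ec γ ε / R + ε - s ^ 2 / R ^ 2))
      = (nm γ s R ε * np γ s R ε - ww γ s ε R ^ 2) / (nm γ s R ε + np γ s R ε) * (1 / √R : ℝ)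
        - (nm γ s R ε - np γ s R ε) / (nm γ s R ε + np γ s R ε) * (1 / (4 * R) : ℝ)
        + gg γ s R ε * ((s + 1 / 8) / R ^ 2 : ℝ) := by
    have t0 : ((√R : ℝ) : ℂ) ≠ 0 := ofReal_ne_zero.2 (by linarith)
    have t1 : (R : ℂ) = ((√R : ℝ) : ℂ) ^ 2 := by rw [← ofReal_pow, ht2]
    have e1 : mm γ s R ε = nm γ s R ε / (√R : ℝ) + 1 / (4 * R) := by
      rw [nm, mul_div_cancel_left₀ _ t0]
      ring
    have e2 : mp γ s R ε = np γ s R ε / (√R : ℝ) - 1 / (4 * R) := by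
      rw [np, mul_div_cancel_left₀ _ t0]
      ring
    rw [g1, e1, e2, ww_sq, wq]
    push_cast
    generalize ((√R : ℝ) : ℂ) = t at *
    rw [t1]
    field_simp
    ring
  rw [rf_diff n1 n2 n3 n4] at d1 d2
  rw [rf_prod n1 n2 n3 n4] at d2
  rw [← rm1, ← rp1] at d1 d2
  rw [d1, d2]
  generalize rmB R (2.19 / R) θ = M at b1 ⊢
  rw [u4, u5] at b2 b5
  rw [u5 4.85, u5 2.29]
  have k1 : ‖rp1 γ s R ε‖ ≤ 0.275 * u + 0.374 * u ^ 2 := by nlinarith [sq_nonneg u]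
  have k2 : (1 : ℝ) ≤ (1 + 1.04 * u) * (1 - ‖rm1 γ s R ε‖ * ‖rp1 γ s R ε‖) := by
    have c1 := mul_le_mul b3 k1 (norm_nonneg _) (by norm_num)
    have c2 := mul_le_mul_of_nonneg_left
      (show 1 - 0.9372 * u ≤ 1 - ‖rm1 γ s R ε‖ * ‖rp1 γ s R ε‖ by linarith)
      (show 0 ≤ 1 + 1.04 * u by positivity)
    linarith
  have M0 : 0 ≤ M := (norm_nonneg _).trans b1
  have k3 : ‖gg γ s R ε‖ ≤ (0.7072 + 0.45 * u) * √R := by
    refine b4.trans ?_
    have c0 : R * u ^ 2 = 1 := by rw [← u3]; field_simp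
    have c1 : (1.4142 - 0.078 * u) * √R ≤ √(2 * R - 2.19) := Real.le_sqrt_of_sq_le (by
      rw [mul_pow, ht2]
      have := mul_le_mul_of_nonneg_right
        (show (1.4142 - 0.078 * u) ^ 2 ≤ 2 - 2.19 * u ^ 2 by linarith) hR0.le
      linarith)
    have c4 : 0 < (1.4142 - 0.078 * u) * √R := mul_pos (by linarith) (by linarith)
    rw [GG, div_le_iff₀ (by linarith)]
    have c2 := mul_le_mul_of_nonneg_left
      (show VV R (2 * R - 2.19) ≤ (0.7072 + 0.45 * u) * (1.4142 - 0.078 * u) by linarith) hR0.le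
    have c3 := mul_le_mul_of_nonneg_left c1 (show 0 ≤ (0.7072 + 0.45 * u) * √R by positivity)
    have c5 : (0.7072 + 0.45 * u) * √R * ((1.4142 - 0.078 * u) * √R)
        = √R ^ 2 * ((0.7072 + 0.45 * u) * (1.4142 - 0.078 * u)) := by ring
    rw [c5, ht2] at c3
    exact c2.trans c3
  obtain ⟨N, hN⟩ : ∃ N, N = M + (0.275 * u + 0.374 * u ^ 2) := ⟨_, rfl⟩
  have κ0 : 0 < 1 + 1.04 * u := by positivity
  have q1 := xb_quot ((norm_sub_le (rp1 γ s R ε) (rm1 γ s R ε)).trans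
    (by linarith : _ ≤ N)) κ0 k2
  have q2 := xb_quot (x := -(ww γ s ε R * (rm1 γ s R ε + rp1 γ s R ε))) (S := 3.17 * N)
    (by
      rw [norm_neg, norm_mul, hN]
      exact mul_le_mul hw ((norm_add_le _ _).trans (add_le_add b1 k1)) (norm_nonneg _)
        (by norm_num)) κ0 k2
  have nm' : ∀ (x : ℂ) (c X : ℝ), 0 ≤ c → ‖x‖ ≤ X → ‖x * c‖ ≤ X * c := fun x c X hc hx => by
    rw [norm_mul, norm_real, Real.norm_of_nonneg hc]
    exact mul_le_mul_of_nonneg_right hx hc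
  have r1 := nm' _ (1 / (2 * R)) _ (by positivity) k3
  have r2 := nm' _ (1 / √R) _ (by positivity) q2
  have r3 := nm' _ (1 / (4 * R)) _ (by positivity) q1
  have r4 := nm' _ ((s + 1 / 8) / R ^ 2) _ (by positivity) k3
  have f1 := xb_fac (ε := ε) hR0.le one_pos one_pos le_rfl c6 (by rw [hε]; simp)
  have f3 := xb_c hl hs hR0 hE
  refine (xb_sum hl hs f1 f3 ((norm_add_le _ _).trans (add_le_add q1 r1))
    ((norm_add_le _ _).trans (add_le_add ((norm_sub_le _ _).trans (add_le_add r2 r3)) r4))).trans ?_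
  have v9 : R * u = √R := by
    nth_rewrite 1 [← ht2]
    rw [sq, mul_assoc, mul_comm √R u, u1, mul_one]
  have v2 : 1 / (4 * R) = u ^ 2 / 4 := by
    rw [← u3]
    field_simp
  have v1 : (0.7072 + 0.45 * u) * √R * (1 / (2 * R)) = (0.3536 + 0.225 * u) * u := by
    rw [← v9]
    field_simp
    ring
  have v3 : (0.7072 + 0.45 * u) * √R * ((s + 1 / 8) / R ^ 2) ≤ 0.085 * u ^ 2 := by
    have c1 : (0.7072 + 0.45 * u) * √R * ((s + 1 / 8) / R ^ 2)
        = (0.7072 + 0.45 * u) * (s + 1 / 8) * u * u ^ 2 * (u * √R) := by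
      rw [div_eq_mul_one_div, ← one_div_pow, u3]
      ring
    have c2 : (0.7072 + 0.45 * u) * (s + 1 / 8) * u ≤ 0.7522 * 1.125 * 0.1 :=
      mul_le_mul (mul_le_mul (by linarith) (by linarith) (by positivity) (by norm_num)) u2 u0.le
        (by norm_num)
    rw [c1, u1, mul_one]
    exact mul_le_mul_of_nonneg_right (by linarith) (sq_nonneg u)
  have v8 : (R + 1) / (1 * 1) ≤ R * (1 + 0.1 * u) := by linarith
  rw [v1, v2, u3, ← hu, ← v9]
  rw [← v9] at v3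
  exact xc_last u0 u2 M0 hN hR0 (by positivity) v8 v3

end Pool.Agent.Lib.MP_2347b2_mp.F
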