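import Pool.Agent.Lib.MP_2347b2_mp.F.Ch1C
import Pool.Agent.Lib.MP_2347b2_mp.F.Ch1D

namespace Pool.Agent.Lib.MP_2347b2_mp.F

open MeasureTheory Set Filter Topology Complex

variable {γ R : ℝ}

theorem xc_int {T : ℝ} (hT : 0 < T) (hT' : T ≤ 0.08) :
    ∫ A in T..(T + 3 / 4), ((3.94 + 11.35 * A) / (A * √A) + (6.33 + 78 * (A - T)))
      ≤ 7.88 / √T + 38.76 - 22.7 * √T := by
  have p : ∀ A ∈ uIcc T (T + 3 / 4), 0 < A := fun A hA => by
    rw [uIcc_of_le (by linarith)] at hA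
    exact hT.trans_le hA.1
  rw [intervalIntegral.integral_eq_sub_of_hasDerivAt
    (f := fun A => -7.88 / √A + 22.7 * √A + (6.33 * A + 39 * (A - T) ^ 2))
    (fun A hA => ?_) (ContinuousOn.intervalIntegrable fun A hA => ?_)]
  · have s1 : √(T + 3 / 4) ≤ 0.912 := Real.sqrt_le_iff.2 ⟨by norm_num, by linarith⟩
    have s0 : 0 < √(T + 3 / 4) := Real.sqrt_pos.2 (by linarith)
    have s2 : 8.64 ≤ 7.88 / √(T + 3 / 4) := by
      rw [le_div_iff₀ s0]
      linarith
    rw [neg_div, neg_div]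
    linarith
  · have A0 := p A hA
    have s0 := (Real.sqrt_pos.2 A0).ne'
    refine ((((hasDerivAt_const A (-7.88)).div (Real.hasDerivAt_sqrt A0.ne') s0).add
      ((Real.hasDerivAt_sqrt A0.ne').const_mul 22.7)).add (((hasDerivAt_id' A).const_mul 6.33).add
        ((((hasDerivAt_id' A).sub_const T).fun_pow 2).const_mul 39))).congr_deriv ?_
    rw [Real.sq_sqrt A0.le]
    field_simp
    ring
  · have A0 := p A hA
    refine ContinuousAt.continuousWithinAt ?_
    fun_prop (disch := positivity)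

theorem Xi_ell' (h0 : 0 < γ) (h1 : γ < 1) (hR : 100 ≤ R) {ε : ℂ} (hε : ε ∈ Ell (8 / R)) :
    ‖Xi γ (sOf γ (1 : ℕ)) R ε‖
      ≤ ((3.94 + 11.35 * A0 ε) / (A0 ε * √(A0 ε)) + (6.33 + 78 * -ε.re)) / R :=
  xc_ell (topH_one h0 h1 hR) (by simpa using sk_le h0 h1 le_rfl) hR hε

theorem Xi_right' (h0 : 0 < γ) (h1 : γ < 1) (hR : 100 ≤ R) {θ : ℝ} (hθ : 0 < θ)
    (hθ' : θ ≤ 8 / R) : ‖Xi γ (sOf γ (1 : ℕ)) R (θ * I)‖
      ≤ (1 + 4.85 / √R) * R * rmB R (2.19 / R) θ + (0.63 + 2.29 / √R) * √R :=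
  xc_right (by nlinarith) (sk_pos h0 h1 le_rfl).le (by simpa using sk_le h0 h1 le_rfl) hR hθ
    hθ' rfl

theorem xc_u (hR : 100 ≤ R) : ∃ u : ℝ, 0 < u ∧ u ≤ 0.1 ∧ u * √R = 1 ∧ (∀ c : ℝ, c / √R = c * u) ∧
    (∀ c : ℝ, c / R = c * u ^ 2) ∧ R * u ^ 2 = 1 := by
  have r : 0 < R := by linarith
  have ht : 10 ≤ √R := Real.le_sqrt_of_sq_le (by linarith)
  have e : (1 / √R) ^ 2 = 1 / R := by rw [div_pow, Real.sq_sqrt r.le, one_pow]
  refine ⟨1 / √R, by positivity, ?_, by field_simp, fun c => (mul_one_div _ _).symm,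
    fun c => by rw [e, mul_one_div], by rw [e]; field_simp⟩
  rw [div_le_iff₀ (by linarith)]
  linarith

theorem xc_left (h0 : 0 < γ) (h1 : γ < 1) (hR : 100 ≤ R) :
    |cL (8 / R) (Xi γ (sOf γ (1 : ℕ)) R)| ≤ 6.8 / R := by
  have r : 0 < R := by linarith
  have t : 0 < 8 / R := by positivity
  refine (cL_le (c := 85 / R) t (Xi_good h0 h1 hR) fun ε hε hre => ?_).trans ?_
  · refine (Xi_ell' h0 h1 hR hε).trans (div_le_div_of_nonneg_right ?_ r.le)
    have a : 3 / 4 ≤ A0 ε := by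
      have : 0 < ε.im := (Sides_subset t (Ell_subset hε)).2
      rw [A0, hre]
      linarith
    have b : 0.866 ≤ √(A0 ε) := Real.le_sqrt_of_sq_le (by linarith)
    have c : (3.94 + 11.35 * A0 ε) / (A0 ε * √(A0 ε)) ≤ 20 := by
      rw [div_le_iff₀ (by positivity)]
      nlinarith
    rw [hre]
    linarith
  · rw [div_mul_div_comm, div_le_div_iff₀ (by positivity) r]
    nlinarith

theorem xc_top (h0 : 0 < γ) (h1 : γ < 1) (hR : 100 ≤ R) :
    |cT (8 / R) (Xi γ (sOf γ (1 : ℕ)) R)| ≤ 3.43 / √R + 25.93 / R := by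
  have r : 0 < R := by linarith
  have t : 0 < 8 / R := by positivity
  have t' : 8 / R ≤ 0.08 := by
    rw [div_le_iff₀ r]
    linarith
  refine (cT_le (f := fun A => ((3.94 + 11.35 * A) / (A * √A) + (6.33 + 78 * (A - 8 / R))) / R) t
    (Xi_good h0 h1 hR) (((ContinuousOn.div (by fun_prop) (by fun_prop) fun A hA => ?_).add
      (by fun_prop)).div_const _) fun ε hε him => ?_).trans ?_
  · have : 0 < A := hA
    positivity
  · refine (Xi_ell' h0 h1 hR hε).trans_eq ?_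
    rw [show A0 ε - 8 / R = -ε.re by rw [A0, him]; ring]
  · rw [intervalIntegral.integral_div]
    refine (div_le_div_of_nonneg_right (xc_int t t') r.le).trans ?_
    obtain ⟨u, u0, u2, u1, u5, u4, u3⟩ := xc_u hR
    have a : 2.828 * u ≤ √(8 / R) := Real.le_sqrt_of_sq_le (by rw [u4]; nlinarith [sq_nonneg u])
    have b : 7.88 / √(8 / R) * u ≤ 2.787 := by
      rw [div_mul_eq_mul_div, div_le_iff₀ (by positivity)]
      linarith
    rw [u4 (7.88 / √(8 / R) + 38.76 - 22.7 * √(8 / R)), u5 3.43, u4 25.93]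
    have c := mul_le_mul_of_nonneg_right b u0.le
    have d := mul_le_mul_of_nonneg_right a (sq_nonneg u)
    have e := mul_nonneg u0.le (sq_nonneg (u - 0.1))
    have q := sq_nonneg u
    linarith

theorem xc_cR (h0 : 0 < γ) (h1 : γ < 1) (hR : 100 ≤ R) :
    |cR (8 / R) (Xi γ (sOf γ (1 : ℕ)) R)| ≤ 12.62 / √R + 92 / R := by
  have r : 0 < R := by linarith
  have t : 0 < 8 / R := by positivity
  obtain ⟨u, u0, u2, u1, u5, u4, u3⟩ := xc_u hR
  have u6 : u ^ 2 ≤ 0.1 * u := by nlinarith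
  have q := sq_nonneg u
  obtain ⟨i, j⟩ := rmB_int (R := R) (t := 2.19 / R) hR (by positivity) (by rw [u4]; linarith)
  refine (cR_le (f := fun θ => (1 + 4.85 / √R) * R * rmB R (2.19 / R) θ + (0.63 + 2.29 / √R) * √R)
    t (Xi_good h0 h1 hR) ((i.const_mul _).add intervalIntegrable_const)
    fun θ a b => (abs_re_le_norm _).trans (Xi_right' h0 h1 hR a b)).trans ?_
  rw [intervalIntegral.integral_add (i.const_mul _) intervalIntegrable_const,
    intervalIntegral.integral_const_mul, intervalIntegral.integral_const, smul_eq_mul, sub_zero]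
  have a : 1 / (0.375 * √R - 0.92 - 1.04 * (2.19 / R)) ≤ u * (2.667 + 8.97 * u) := by
    have c1 : (0.375 - 0.9428 * u) * √R ≤ 0.375 * √R - 0.92 - 1.04 * (2.19 / R) := by
      rw [u4]
      linarith
    have c0 : 0 < √R := Real.sqrt_pos.2 r
    have c2 : 0 < (0.375 - 0.9428 * u) * √R := mul_pos (by linarith) c0
    refine (one_div_le_one_div_of_le c2 c1).trans ?_
    rw [div_le_iff₀ c2, show u * (2.667 + 8.97 * u) * ((0.375 - 0.9428 * u) * √R)
      = u * √R * ((2.667 + 8.97 * u) * (0.375 - 0.9428 * u)) by ring, u1]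
    linarith
  have b : 4 * ((0.28 + 0.25 * (2.19 / R)) / √R + 2.19 / R / 4) ≤ u * (1.12 + 2.41 * u) := by
    rw [u5, u4 2.19]
    have := mul_le_mul_of_nonneg_right u6 u0.le
    linarith
  have c : (1 + 0.92 * (2.19 / R)) * (1 / (0.375 * √R - 0.92 - 1.04 * (2.19 / R))
      + 4 * ((0.28 + 0.25 * (2.19 / R)) / √R + 2.19 / R / 4))
      ≤ (1 + 0.202 * u) * (u * (3.787 + 11.38 * u)) := by
    refine (mul_le_mul_of_nonneg_left (show _ ≤ u * (3.787 + 11.38 * u) by linarith)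
      (by positivity)).trans (mul_le_mul_of_nonneg_right ?_ (by positivity))
    rw [u4]
    linarith
  have e := mul_le_mul_of_nonneg_left (j.trans (mul_le_mul_of_nonneg_left c (by positivity)))
    (show 0 ≤ (1 + 4.85 / √R) * R by positivity)
  have f : (1 + 4.85 / √R) * R * (2 / R * ((1 + 0.202 * u) * (u * (3.787 + 11.38 * u))))
      = 2 * u * ((1 + 4.85 * u) * (1 + 0.202 * u) * (3.787 + 11.38 * u)) := by
    rw [u5]
    field_simp
  have g : (1 + 4.85 * u) * (1 + 0.202 * u) * (3.787 + 11.38 * u) ≤ 3.787 + 36.75 * u := by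
    have := mul_le_mul_of_nonneg_right (show (1 + 4.85 * u) * (1 + 0.202 * u) ≤ 1 + 5.15 * u by
      linarith) (show 0 ≤ 3.787 + 11.38 * u by positivity)
    linarith
  have k := mul_le_mul_of_nonneg_left g (show 0 ≤ 2 * u by positivity)
  have m : 8 / R * ((0.63 + 2.29 / √R) * √R) = 8 * u * (0.63 + 2.29 * u) := by
    rw [u4, u5, show 8 * u ^ 2 * ((0.63 + 2.29 * u) * √R)
      = u * √R * (8 * u * (0.63 + 2.29 * u)) by ring, u1, one_mul]
  rw [m, u5 12.62, u4 92]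
  linarith

/-- the first channel from `R = 100` on -/
theorem ch1c (h0 : 0 < γ) (h1 : γ < 1) (hR : 100 ≤ R) : Sp γ 1 R ≤ 5.11 / √R + 39.8 / R := by
  have a := abs_le.1 (xc_left h0 h1 hR)
  have b := abs_le.1 (xc_top h0 h1 hR)
  have c := abs_le.1 (xc_cR h0 h1 hR)
  have d := Sp_ctr h0 h1 hR
  rw [ctr] at d
  obtain ⟨u, u0, u2, u1, u5, u4, u3⟩ := xc_u hR
  rw [u5, u4] at b c ⊢
  rw [u4 6.8] at a
  refine le_of_mul_le_mul_left ?_ Real.pi_pos
  have p := mul_le_mul_of_nonneg_right Real.pi_gt_d4.le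
    (show 0 ≤ 5.11 * u + 39.8 * u ^ 2 by positivity)
  have q := sq_nonneg u
  linarith

end Pool.Agent.Lib.MP_2347b2_mp.F
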