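import Pool.Agent.Lib.MP_2347b2_mp.F.Defs

namespace Pool.Agent.Lib.MP_2347b2_mp.F

noncomputable section

/-! ### explicit bounds for the mismatch -/

/-- the channel is deep for every coupling constant -/
def Deep (k : ℕ) (R : ℝ) : Prop := 2 * R + 2 + 3 / 4 * √(k + 1) + 2 / k ≤ k ^ 2 + 2 * k

def Lk (k : ℕ) : ℝ := k ^ 2 + k - 3 / 2

def Uk (k : ℕ) : ℝ := k ^ 2 + k + 3 / 16

def F0 (k : ℕ) (R : ℝ) : ℝ := |R - k ^ 2 - k| + 1 / 2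

def Blo (k : ℕ) (R : ℝ) : ℝ := max (2 * R - Uk k) (k - 6 / 5 - 3 / 4 * √(k + 1) - 2 / k)

def VV (R B : ℝ) : ℝ := √(2 * R) / (√B - 1 / 2)

def GG (R B : ℝ) : ℝ := R * VV R B / √B

def D1 (R U : ℝ) : ℝ := (√(2 / R) + (11 / 2 + 60 * (U / R)) / R + 3 * (U / R) / √R) / Real.pi

def D2 (R B : ℝ) : ℝ := (23 / 10 / √R + 3 / R + 21 / 5 * VV R B / √R) / Real.pi

def Dt (L R : ℝ) : ℝ := 4 / 3 * (1 - 2.02 * R / L + 4.09 * R ^ 2 / L ^ 2)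

def topI (k : ℕ) (R : ℝ) : ℝ := (0.71 * F0 k R * √R + 2.4 * R) / R ^ 2

/-- contour part, damped regime -/
def J1 (k : ℕ) (R : ℝ) : ℝ :=
  (F0 k R + 4) * (5 / 2 * (1.15 + 1.8 * (Uk k / R) + 10 * (Uk k / R) ^ 2)
        / (√(Lk k) * √R * (√R / 2 - 2.5 - 2 * (Uk k / R)))
      + 4 * GG R (2 * R - Uk k) * (1 + Real.log (2 * R * k)) / R ^ 2)
    + 3.5 * topI k R + 80 / R ^ 2

/-- contour part, general regime -/
def J2 (k : ℕ) (R : ℝ) : ℝ :=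
  (F0 k R + 4) * (4 * VV R (Blo k R) ^ 2 * (1 + Real.log (4 * R / Blo k R)) / (Lk k * R)
      + Dt (Lk k) R * GG R (Blo k R) * (1 + max 0 (Real.log (8 * R * k / Dt (Lk k) R))) / R ^ 2)
    + 0.9 * Dt (Lk k) R * topI k R + 1.5 * (F0 k R * (1 + √R / 2) + R) / (Lk k * R) + 80 / R ^ 2

def ek (k : ℕ) : ℝ := (2 * k + 1) / (2 * (k ^ 2 - 1) * k * (k + 2))

def ub (k : ℕ) (R : ℝ) : ℝ := ek k * max 0 (R * (1 + 1 / (2 * k ^ 2)) - k ^ 2 - k + 1 / 2)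

def m1 (k : ℕ) (R : ℝ) : ℝ :=
  1.061 / k * (J1 k R / Real.pi + D1 R (Uk k)) + ub k R * D1 R (Uk k)

def m2 (k : ℕ) (R : ℝ) : ℝ :=
  1.061 / k * (J2 k R / Real.pi + D2 R (Blo k R)) + ub k R * D2 R (Blo k R)

open Classical in
/-- the bound for the mismatch of the channel `k` -/
def mc (k : ℕ) (R : ℝ) : ℝ :=
  if Deep k R then 0 else if 100 ≤ R ∧ Uk k ≤ R / 2 then m1 k R else m2 k R

end

end Pool.Agent.Lib.MP_2347b2_mp.F
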