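import Pool.Agent.Lib.MP_2347b2_mp.F.G3

namespace Pool.Agent.Lib.MP_2347b2_mp.F

open MeasureTheory Set Filter Topology Complex

variable {T : ℝ} {g : ℂ → ℂ}

theorem left_mem (T : ℝ) {θ : ℝ} (h0 : 0 < θ) (h1 : θ ≤ T) :
    (-3 / 4 + θ * I : ℂ) ∈ Ell T ∧ (-3 / 4 + θ * I : ℂ).re = -3 / 4 ∧
      (-3 / 4 + θ * I : ℂ).im = θ ∧ A0 (-3 / 4 + θ * I) = θ + 3 / 4 := by
  have a : (-3 / 4 + θ * I : ℂ).re = -3 / 4 := by simp
  have b : (-3 / 4 + θ * I : ℂ).im = θ := by simp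
  exact ⟨.inl ⟨a, b.symm ▸ h0, b.symm ▸ h1⟩, a, b, by rw [A0, a, b]; ring⟩

theorem top_mem (T : ℝ) {x : ℝ} (h0 : -3 / 4 ≤ x) (h1 : x ≤ 0) :
    (x + T * I : ℂ) ∈ Ell T ∧ (x + T * I : ℂ).re = x ∧ (x + T * I : ℂ).im = T ∧
      A0 (x + T * I) = T - x := by
  have a : (x + T * I : ℂ).re = x := by simp
  have b : (x + T * I : ℂ).im = T := by simp
  exact ⟨.inr ⟨a.symm ▸ h0, a.symm ▸ h1, b⟩, a, b, by rw [A0, a, b]⟩

theorem cL_le (hT : 0 < T) (h : Good T g) {c : ℝ}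
    (hc : ∀ ε ∈ Ell T, ε.re = -3 / 4 → ‖g ε‖ ≤ c) : |cL T g| ≤ T * c := by
  have := intervalIntegral.norm_integral_le_of_norm_le_const (a := 0) (b := T) (C := c)
    (f := fun θ : ℝ => (g (-3 / 4 + θ * I)).re) fun θ hθ => by
      rw [uIoc_of_le hT.le] at hθ
      obtain ⟨a, b, -⟩ := left_mem T hθ.1 hθ.2
      exact (abs_re_le_norm _).trans (hc _ a b)
  rwa [sub_zero, abs_of_pos hT, mul_comm] at this

theorem cT_le (hT : 0 < T) (h : Good T g) {f : ℝ → ℝ} (hf : ContinuousOn f (Ioi 0))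
    (hc : ∀ ε ∈ Ell T, ε.im = T → ‖g ε‖ ≤ f (A0 ε)) : |cT T g| ≤ ∫ A in T..(T + 3 / 4), f A := by
  have e : ∫ A in T..(T + 3 / 4), f A = ∫ x in (-3 / 4 : ℝ)..0, f (T - x) := by
    rw [intervalIntegral.integral_comp_sub_left, sub_zero, show T - -3 / 4 = T + 3 / 4 by ring]
  have k : (-3 / 4 : ℝ) ≤ 0 := by norm_num
  have i : IntervalIntegrable (fun x => f (T - x)) volume (-3 / 4) 0 :=
    ContinuousOn.intervalIntegrable (hf.comp (f := fun x => T - x) (by fun_prop) fun x hx => by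
      rw [uIcc_of_le k] at hx
      exact sub_pos.2 (hx.2.trans_lt hT))
  rw [e]
  refine intervalIntegral.norm_integral_le_of_norm_le (f := fun x : ℝ => (g (x + T * I)).im) k
    (.of_forall fun x hx => ?_) i
  obtain ⟨a, -, b, c⟩ := top_mem T hx.1.le hx.2
  exact (abs_im_le_norm _).trans (c ▸ hc _ a b)

theorem cR_le (hT : 0 < T) (h : Good T g) {f : ℝ → ℝ} (hf : IntervalIntegrable f volume 0 T)
    (hc : ∀ θ : ℝ, 0 < θ → θ ≤ T → |(g (θ * I)).re| ≤ f θ) :
    |cR T g| ≤ ∫ θ in (0 : ℝ)..T, f θ := by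
  exact intervalIntegral.norm_integral_le_of_norm_le (f := fun θ : ℝ => (g (θ * I)).re) hT.le
    (.of_forall fun θ hθ => hc θ hθ.1 hθ.2) hf

theorem int_A32 (hT : 0 < T) (a b : ℝ) (ha : 0 ≤ a) (hb : 0 ≤ b) :
    ∫ A in T..(T + 3 / 4), (a + b * A) / (A * √A) ≤ 2 * a / √T + 1.74 * b := by
  have p : ∀ A ∈ uIcc T (T + 3 / 4), 0 < A := fun A hA => by
    rw [uIcc_of_le (by linarith)] at hA
    exact hT.trans_le hA.1
  rw [intervalIntegral.integral_eq_sub_of_hasDerivAt (f := fun A => -(2 * a) / √A + 2 * b * √A)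
    (fun A hA => ?_) (ContinuousOn.intervalIntegrable fun A hA => ?_)]
  · have s0 := Real.sqrt_pos.2 hT
    have s1 : √(T + 3 / 4) ≤ √T + 0.87 := Real.sqrt_le_iff.2 ⟨by positivity, by
      nlinarith [Real.sq_sqrt hT.le]⟩
    have s2 : 0 ≤ 2 * a / √(T + 3 / 4) := by positivity
    rw [neg_div, neg_div]
    nlinarith
  · have A0 := p A hA
    have s0 := (Real.sqrt_pos.2 A0).ne'
    refine (((hasDerivAt_const A (-(2 * a))).div (Real.hasDerivAt_sqrt A0.ne') s0).add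
      ((Real.hasDerivAt_sqrt A0.ne').const_mul (2 * b))).congr_deriv ?_
    rw [Real.sq_sqrt A0.le]
    field_simp
    ring
  · have A0 := p A hA
    refine ContinuousAt.continuousWithinAt ?_
    fun_prop (disch := positivity)

theorem int_A1 (hT : 0 < T) (a b : ℝ) :
    ∫ A in T..(T + 3 / 4), (a + b * A) / A = a * Real.log (1 + 3 / (4 * T)) + 3 / 4 * b := by
  have p : ∀ A ∈ uIcc T (T + 3 / 4), 0 < A := fun A hA => by
    rw [uIcc_of_le (by linarith)] at hA
    exact hT.trans_le hA.1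
  rw [intervalIntegral.integral_eq_sub_of_hasDerivAt (f := fun A => a * Real.log A + b * A)
    (fun A hA => ?_) (ContinuousOn.intervalIntegrable fun A hA => ?_)]
  · rw [show 1 + 3 / (4 * T) = (T + 3 / 4) / T by field_simp,
      Real.log_div (by positivity) hT.ne']
    ring
  · have A0 := (p A hA).ne'
    refine (((Real.hasDerivAt_log A0).const_mul a).add
      ((hasDerivAt_id A).const_mul b)).congr_deriv ?_
    field_simp
  · have A0 := p A hA
    refine ContinuousAt.continuousWithinAt ?_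
    fun_prop (disch := positivity)

theorem int_A2 (hT : 0 < T) (a : ℝ) (ha : 0 ≤ a) :
    ∫ A in T..(T + 3 / 4), a / A ^ 2 ≤ a / T := by
  have p : ∀ A ∈ uIcc T (T + 3 / 4), 0 < A := fun A hA => by
    rw [uIcc_of_le (by linarith)] at hA
    exact hT.trans_le hA.1
  rw [intervalIntegral.integral_eq_sub_of_hasDerivAt (f := fun A => -a / A)
    (fun A hA => ?_) (ContinuousOn.intervalIntegrable fun A hA => ?_)]
  · have s2 : 0 ≤ a / (T + 3 / 4) := by positivity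
    rw [neg_div, neg_div]
    linarith
  · exact ((hasDerivAt_const A (-a)).div (hasDerivAt_id A) (p A hA).ne').congr_deriv (by simp)
  · have A0 := p A hA
    refine ContinuousAt.continuousWithinAt ?_
    fun_prop (disch := positivity)

theorem prim_V (hT : 0 < T) (h : Good T g) {G : ℂ → ℂ} (hG : ∀ ε ∈ UU, HasDerivAt G (g ε) ε)
    {a c : ℝ} (ha : a = -3 / 4 ∨ a = 0)
    (h0 : Tendsto (fun θ : ℝ => (G (a + θ * I)).im) (𝓝[>] 0) (𝓝 c)) :
    ∫ θ in (0 : ℝ)..T, (g (a + θ * I)).re = (G (a + T * I)).im - c := by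
  have d : ∀ θ : ℝ, 0 < θ → HasDerivAt (fun θ : ℝ => (G (a + θ * I)).im) (g (a + θ * I)).re θ :=
    fun θ hθ => by
      have m : (a + θ * I : ℂ) ∈ UU := ⟨by rcases ha with rfl | rfl <;> norm_num, by simpa using hθ⟩
      exact (imCLM.hasFDerivAt.comp_hasDerivAt θ (((hG _ m).comp (θ : ℂ)
        (((hasDerivAt_id (θ : ℂ)).mul_const I).const_add (a : ℂ))).comp_ofReal)).congr_deriv (by simp)
  have i := h.int_V hT ha
  exact intervalIntegral.integral_eq_sub_of_hasDerivAt_of_tendsto hT (fun θ hθ => d θ hθ.1)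
    ⟨i.1.re, i.2.re⟩ h0 ((d T hT).continuousAt.tendsto.mono_left nhdsWithin_le_nhds)

/-- a primitive along the left side and the top -/
theorem prim_ell (hT : 0 < T) (h : Good T g) {G : ℂ → ℂ} (hG : ∀ ε ∈ UU, HasDerivAt G (g ε) ε)
    (h0 : Tendsto (fun θ : ℝ => (G (-3 / 4 + θ * I)).im) (𝓝[>] 0) (𝓝 0)) :
    cL T g + cT T g = (G (T * I)).im := by
  have a := prim_V hT h hG (a := -3 / 4) (.inl rfl) (c := 0) (by simpa using h0)
  have i := h.int_T hT
  have b := intervalIntegral.integral_eq_sub_of_hasDerivAt (a := -3 / 4) (b := 0)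
    (f := fun x : ℝ => (G (x + T * I)).im) (f' := fun x : ℝ => (g (x + T * I)).im)
    (fun x hx => by
      rw [uIcc_of_le (by norm_num)] at hx
      have m := Sides_subset hT (Ell_subset (top_mem T hx.1 hx.2).1)
      exact imCLM.hasFDerivAt.comp_hasDerivAt x
        ((hG _ m).comp_add_const (x : ℂ) (T * I)).comp_ofReal) ⟨i.1.im, i.2.im⟩
  push_cast at a b
  rw [cL, cT, a, b]
  simp

/-- a primitive along the right side -/
theorem prim_right (hT : 0 < T) (h : Good T g) {G : ℂ → ℂ} (hG : ∀ ε ∈ UU, HasDerivAt G (g ε) ε)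
    {c : ℝ} (h0 : Tendsto (fun θ : ℝ => (G (θ * I)).im) (𝓝[>] 0) (𝓝 c)) :
    cR T g = (G (T * I)).im - c := by
  simpa [cR] using prim_V hT h hG (a := 0) (.inr rfl) (c := c) (by simpa using h0)

end Pool.Agent.Lib.MP_2347b2_mp.F
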