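import Pool.Agent.Lib.MP_2347b2_mp.F.VLem

/-!
The damping on the imaginary axis and the reflection coefficient of the regular solution.
-/

namespace Pool.Agent.Lib.MP_2347b2_mp.F

open MeasureTheory Set Filter Topology Complex

variable {γ l R U θ : ℝ}

/-- the facts on the comparison function on the imaginary axis -/
theorem da_facts (h1 : γ ^ 2 ≤ 1) (hl : 0 ≤ l) (hθ : 0 < θ) {r : ℝ} (hr : 0 < r) :
    0 < (ww γ l (θ * I) r).re ∧ 0 < -(ww γ l (θ * I) r).im ∧
    (ww γ l (θ * I) r).im ^ 2 ≤ (ww γ l (θ * I) r).re ^ 2 + 2 + θ ^ 2 / 4 ∧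
    θ * r ≤ 2 * (ww γ l (θ * I) r).re * -(ww γ l (θ * I) r).im ∧
    2 * (ww γ l (θ * I) r).re * -(ww γ l (θ * I) r).im ≤ θ * r + θ ∧
    (ww γ l (θ * I) r).im ^ 2 ≤ ‖wq γ l (θ * I) r‖ ∧
    2 - bb l / r ≤ ‖wq γ l (θ * I) r‖ := by
  have hε : (θ * I : ℂ) ∈ UU := vb_UU hθ
  obtain ⟨a1, a2, -, a4, a5, a6, -⟩ := sqrt_facts (wq_im_neg (l := l) h1 hε hr)
  obtain ⟨e1, e2, e3, e4, -⟩ := Ec_right h1 hθ.le
  have b1 := wq_re γ l (θ * I) r
  have b2 := wq_im γ l (θ * I) r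
  have c1 : (θ * I : ℂ).re = 0 := by simp
  have c2 : (θ * I : ℂ).im = θ := by simp
  rw [c1] at b1
  rw [c2] at b2
  have d2 : 0 ≤ bb l / r := div_nonneg (vb_bb hl).le hr.le
  have d3 := (abs_le.1 (abs_re_le_norm (wq γ l (θ * I) r))).1
  unfold ww
  refine ⟨a1, by linarith, by linarith, by linarith, by linarith, by linarith, by linarith⟩

theorem da_real {a p τ c T : ℝ} (ha : 0 < a) (hp : 0 < p) (hτ : 0 < τ) (hT : τ ≤ T)
    (h1 : p ^ 2 ≤ a ^ 2 + 2.002) (h2 : τ ≤ a * p) (h3 : c ^ 2 * (c ^ 2 * T ^ 2 + 2.002) ≤ 1) :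
    c * τ ≤ a := by
  by_contra h
  have h' : a < c * τ := not_le.1 h
  have b1 : a ^ 2 < (c * τ) ^ 2 := pow_lt_pow_left₀ h' ha.le two_ne_zero
  have b2 : τ ^ 2 ≤ (a * p) ^ 2 := pow_le_pow_left₀ hτ.le h2 2
  have b3 : τ ^ 2 ≤ T ^ 2 := pow_le_pow_left₀ hτ.le hT 2
  have b4 : p ^ 2 ≤ c ^ 2 * T ^ 2 + 2.002 := by
    have := mul_le_mul_of_nonneg_left b3 (sq_nonneg c)
    rw [mul_pow] at b1
    linarith
  have b5 : a ^ 2 * p ^ 2 < (c * τ) ^ 2 * p ^ 2 := mul_lt_mul_of_pos_right b1 (by positivity)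
  have b6 : (c * τ) ^ 2 * p ^ 2 ≤ (c * τ) ^ 2 * (c ^ 2 * T ^ 2 + 2.002) :=
    mul_le_mul_of_nonneg_left b4 (sq_nonneg _)
  have b7 : τ ^ 2 * (c ^ 2 * (c ^ 2 * T ^ 2 + 2.002)) ≤ τ ^ 2 * 1 :=
    mul_le_mul_of_nonneg_left h3 (sq_nonneg _)
  rw [mul_pow] at b2
  linarith

theorem da_cont (h1 : γ ^ 2 ≤ 1) (hθ : 0 < θ) :
    ContinuousOn (fun r : ℝ => 2 * (ww γ l (θ * I) r).re / √r) (Ioi 0) := fun r hr => by
  have a : ContinuousAt (ww γ l (θ * I)) r := (ww_deriv h1 (vb_UU hθ) hr).continuousAt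
  have b : ContinuousAt (fun r : ℝ => (ww γ l (θ * I) r).re) r :=
    Complex.continuous_re.continuousAt.comp a
  exact ((b.const_mul 2).div Real.continuous_sqrt.continuousAt
    (Real.sqrt_pos.2 hr).ne').continuousWithinAt

theorem da_int (h1 : γ ^ 2 ≤ 1) (hR : 0 < R) (hθ : 0 < θ) {c : ℝ} (hc : 0 ≤ c)
    (h : ∀ r ∈ Icc (R / 2) R, c * (θ * r / 2) ≤ (ww γ l (θ * I) r).re) :
    0.86 * c * √R * (θ * R / 2) ≤ ∫ r in (R / 2)..R, 2 * (ww γ l (θ * I) r).re / √r := by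
  have hR2 : 0 < R / 2 := by positivity
  have m := rho_mono (a := R / 2) (b := R)
    (f := fun x => (∫ r in (R / 2)..x, 2 * (ww γ l (θ * I) r).re / √r)
      - 2 / 3 * c * θ * (x * √x))
    (f' := fun x => 2 * (ww γ l (θ * I) x).re / √x - 2 / 3 * c * θ * (1 * √x + x * (1 / (2 * √x))))
    (fun x hx => by
      have hx0 : 0 < x := hR2.trans_le hx.1
      have hs : 0 < √x := Real.sqrt_pos.2 hx0
      refine ⟨(cfl_ftc (da_cont h1 hθ) hR2 hx0).sub
        (((hasDerivAt_id' x).mul (Real.hasDerivAt_sqrt hx0.ne')).const_mul _), ?_⟩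
      have e : 2 / 3 * c * θ * (1 * √x + x * (1 / (2 * √x))) = 2 * (c * (θ * x / 2)) / √x := by
        have e2 : x = √x ^ 2 := (Real.sq_sqrt hx0.le).symm
        generalize √x = s at hs e2
        subst e2
        field_simp
        ring
      rw [e, ← sub_div]
      exact div_nonneg (by linarith [h x hx]) hs.le) R ⟨by linarith, le_rfl⟩
  simp only [intervalIntegral.integral_same] at m
  have s1 : √(R / 2) ≤ 0.708 * √R := by
    refine Real.sqrt_le_iff.2 ⟨by positivity, ?_⟩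
    rw [mul_pow, Real.sq_sqrt hR.le]
    linarith
  have s2 : c * θ * R * √(R / 2) ≤ c * θ * R * (0.708 * √R) :=
    mul_le_mul_of_nonneg_left s1 (by positivity)
  have s3 : 0 ≤ c * θ * R * √R := by positivity
  linarith

theorem da_lo (h1 : γ ^ 2 ≤ 1) (hl : 0 ≤ l) (hR : 100 ≤ R) (hθ : 0 < θ) (hθ' : θ ≤ 2 / R) :
    √R / 2 * (θ * R / 2) ≤ ∫ r in (R / 2)..R, 2 * (ww γ l (θ * I) r).re / √r := by
  have hR0 : 0 < R := by linarith
  have t1 : θ * R ≤ 2 := (le_div_iff₀ hR0).1 hθ'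
  have t2 : θ ≤ 0.02 := by nlinarith
  refine le_trans ?_ (da_int (l := l) h1 hR0 hθ (c := 0.6) (by norm_num) fun r hr => ?_)
  · have : 0 ≤ √R * (θ * R / 2) := by positivity
    linarith
  · have hr0 : 0 < r := by linarith [hr.1]
    obtain ⟨a1, a2, a3, a4, -⟩ := da_facts (l := l) h1 hl hθ hr0
    have t3 := mul_le_mul_of_nonneg_left hr.2 hθ.le
    exact da_real (T := 1) a1 a2 (by positivity) (by linarith)
      (by rw [neg_sq]; nlinarith) (by linarith) (by norm_num)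

theorem da_hi (h1 : γ ^ 2 ≤ 1) (hl : 0 ≤ l) (hR : 100 ≤ R) (hθ : 0 < θ) (hθ' : θ ≤ 8 / R) :
    0.375 * √R * (θ * R / 2) ≤ ∫ r in (R / 2)..R, 2 * (ww γ l (θ * I) r).re / √r := by
  have hR0 : 0 < R := by linarith
  have t1 : θ * R ≤ 8 := (le_div_iff₀ hR0).1 hθ'
  have t2 : θ ≤ 0.08 := by nlinarith
  refine le_trans ?_ (da_int (l := l) h1 hR0 hθ (c := 0.44) (by norm_num) fun r hr => ?_)
  · have : 0 ≤ √R * (θ * R / 2) := by positivity
    linarith
  · have hr0 : 0 < r := by linarith [hr.1]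
    obtain ⟨a1, a2, a3, a4, -⟩ := da_facts (l := l) h1 hl hθ hr0
    have t3 := mul_le_mul_of_nonneg_left hr.2 hθ.le
    exact da_real (T := 4) a1 a2 (by positivity) (by linarith)
      (by rw [neg_sq]; nlinarith) (by linarith) (by norm_num)

theorem da_half (h1 : γ ^ 2 ≤ 1) (hl : 0 ≤ l) (hR : 100 ≤ R) (hb : bb l ≤ U) (hU : U ≤ R / 2)
    (hθ : 0 < θ) : ‖rm1 γ l (R / 2) (θ * I)‖ ≤ 1 + (0.52 + 1.04 * (U / R)) * (θ * R / 2) := by
  have hR0 : 0 < R := by linarith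
  have hr : 0 < R / 2 := by linarith
  have hbb := vb_bb hl
  obtain ⟨a1, a2, -, -, a5, -⟩ := da_facts (l := l) h1 hl hθ hr
  have a3 := (ww_im_sq (l := l) h1 hθ hr (by linarith)).1
  have a4 := rf_le_im (w := ww γ l (θ * I) (R / 2)) (by linarith)
    (gg_n h1 hl (vb_UU hθ) hr).2.1.le a1.le
  have t0 : 0 ≤ U / R := div_nonneg (by linarith) hR0.le
  have t1 : U / R ≤ 1 / 2 := (div_le_iff₀ hR0).2 (by linarith)
  have t2 : 2 - 2 * (U / R) ≤ (2 * (R / 2) - bb l) / (R / 2) := by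
    rw [le_div_iff₀ hr]
    have : U / R * R = U := div_mul_cancel₀ _ hR0.ne'
    linarith
  rw [rm1]
  refine a4.trans (add_le_add le_rfl ?_)
  rw [div_le_iff₀ a2]
  refine le_of_mul_le_mul_right ?_ a2
  rw [← neg_sq] at a3
  generalize -(ww γ l (θ * I) (R / 2)).im = p at a2 a3 a5 ⊢
  generalize U / R = t at t0 t1 t2 ⊢
  have b1 : θ * 100 ≤ θ * R := mul_le_mul_of_nonneg_left hR hθ.le
  have b2 : 0 ≤ θ * R / 2 := by positivity
  have b3 : (0.52 + 1.04 * t) * (2 - 2 * t) ≤ (0.52 + 1.04 * t) * p ^ 2 :=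
    mul_le_mul_of_nonneg_left (by linarith) (by positivity)
  have b4 : 1.04 ≤ (0.52 + 1.04 * t) * p ^ 2 := by nlinarith
  have b5 := mul_le_mul_of_nonneg_left b4 b2
  linarith

theorem da_coup (h1 : γ ^ 2 ≤ 1) (hl : 0 ≤ l) (hb : bb l ≤ U) (hU : U ≤ R / 2) (hθ : 0 < θ)
    {r : ℝ} (hr : R / 2 ≤ r) :
    ‖(-(bb l / r ^ 2 : ℝ) - θ * I) / (4 * wq γ l (θ * I) r)‖ ≤ U / (4 * r * (2 * r - U))
      + 1 / (4 * √(R - U)) * (2 * (ww γ l (θ * I) r).re / √r) := by
  have hbb := vb_bb hl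
  have hr0 : 0 < r := by linarith
  have hU0 : 0 < U := by linarith
  have hRU : 0 < R - U := by linarith
  have hrU : 0 < 2 * r - U := by linarith
  obtain ⟨a1, a2, -, a4, -, a6, a7⟩ := da_facts (l := l) h1 hl hθ hr0
  have a3 := (ww_im_sq (l := l) h1 hθ hr0 (by linarith)).1
  have n1 : ‖(-(bb l / r ^ 2 : ℝ) - θ * I : ℂ)‖ ≤ bb l / r ^ 2 + θ := by
    refine (norm_sub_le _ _).trans (le_of_eq ?_)
    rw [norm_neg, norm_real, Real.norm_of_nonneg (by positivity), norm_mul, norm_I, mul_one,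
      norm_real, Real.norm_of_nonneg hθ.le]
  have n2 : (2 * r - U) / r ≤ ‖wq γ l (θ * I) r‖ := by
    refine le_trans ?_ a7
    rw [sub_div, mul_div_assoc, div_self hr0.ne', mul_one]
    have := div_le_div_of_nonneg_right hb hr0.le
    linarith
  have n3 : 0 < ‖wq γ l (θ * I) r‖ := (div_pos hrU hr0).trans_le n2
  rw [norm_div, norm_mul, norm_ofNat]
  refine (div_le_div_of_nonneg_right n1 (by positivity)).trans ?_
  rw [add_div]
  rw [← neg_sq] at a3 a6
  generalize -(ww γ l (θ * I) r).im = p at a2 a3 a4 a6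
  generalize (ww γ l (θ * I) r).re = a at a1 a4 ⊢
  generalize ‖wq γ l (θ * I) r‖ = N at a6 n2 n3 ⊢
  refine add_le_add ?_ ?_
  · rw [div_div, div_le_div_iff₀ (by positivity) (by positivity)]
    rw [div_le_iff₀ hr0] at n2
    have b1 : bb l * (4 * r * (2 * r - U)) ≤ U * (4 * r * (2 * r - U)) :=
      mul_le_mul_of_nonneg_right hb (by positivity)
    have b2 : U * (4 * r) * (2 * r - U) ≤ U * (4 * r) * (N * r) :=
      mul_le_mul_of_nonneg_left n2 (by positivity)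
    linarith
  · have hs : 0 < √r := Real.sqrt_pos.2 hr0
    have hq : 0 < √(R - U) := Real.sqrt_pos.2 hRU
    have b1 : √(R - U) ≤ √r * p := by
      refine Real.sqrt_le_iff.2 ⟨by positivity, ?_⟩
      rw [mul_pow, Real.sq_sqrt hr0.le]
      rw [div_le_iff₀ hr0] at a3
      linarith
    rw [div_mul_div_comm, div_le_div_iff₀ (by positivity) (by positivity)]
    have b2 : θ * √r * √(R - U) ≤ θ * √r * (√r * p) := mul_le_mul_of_nonneg_left b1 (by positivity)
    have b3 : θ * √r * (√r * p) = θ * r * p := by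
      rw [show θ * √r * (√r * p) = θ * (√r * √r) * p by ring, Real.mul_self_sqrt hr0.le]
    have b4 : θ * r * p ≤ 2 * a * p * p := mul_le_mul_of_nonneg_right a4 a2.le
    have b5 : 2 * a * p ^ 2 ≤ 2 * a * N := mul_le_mul_of_nonneg_left a6 (by positivity)
    linarith

theorem da_K (hU0 : 0 < U) (hU : U ≤ R / 2) :
    Real.exp (3 * (Real.log ((2 * R - U) / R) / 4 - Real.log ((2 * (R / 2) - U) / (R / 2)) / 4))
      ≤ 1 + 0.92 * (U / R) ∧
    Real.log ((2 * R - U) / R) / 4 - Real.log ((2 * (R / 2) - U) / (R / 2)) / 4 ≤ U / R / 4 := by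
  have hR : 0 < R := by linarith
  have p1 : 0 < (2 * R - U) / R := div_pos (by linarith) hR
  have p2 : 0 < (2 * (R / 2) - U) / (R / 2) := div_pos (by linarith) (by linarith)
  obtain ⟨K, hK⟩ : ∃ K, K = Real.log ((2 * R - U) / R) / 4
    - Real.log ((2 * (R / 2) - U) / (R / 2)) / 4 := ⟨_, rfl⟩
  rw [← hK]
  have e : Real.exp (4 * K) ≤ 1 + U / R := by
    rw [show 4 * K = Real.log ((2 * R - U) / R) - Real.log ((2 * (R / 2) - U) / (R / 2)) by
      rw [hK]; ring, Real.exp_sub, Real.exp_log p1, Real.exp_log p2, div_le_iff₀ p2]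
    have e1 : (2 * R - U) / R = 2 - U / R := by field_simp
    have e2 : (2 * (R / 2) - U) / (R / 2) = 2 - 2 * (U / R) := by
      field_simp
    have t0 : 0 ≤ U / R := by positivity
    have t1 : U / R ≤ 1 / 2 := (div_le_iff₀ hR).2 (by linarith)
    rw [e1, e2]
    nlinarith
  have t0 : 0 ≤ U / R := by positivity
  refine ⟨?_, by linarith [Real.add_one_le_exp (4 * K)]⟩
  have e3 : Real.exp (3 * K) = Real.exp K ^ 3 := by
    rw [← Real.exp_nat_mul]
    norm_num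
  have e4 : Real.exp (4 * K) = Real.exp K ^ 4 := by
    rw [← Real.exp_nat_mul]
    norm_num
  rw [e4] at e
  rw [e3]
  have := Real.exp_pos K
  generalize Real.exp K = u at e this ⊢
  have b : 0 ≤ (u - 1) ^ 2 * (3 * u ^ 2 + 2 * u + 1) := by positivity
  linarith

theorem da_e (hR : 100 ≤ R) (hU0 : 0 < U) (hU : U ≤ R / 2) :
    0 < 1 - 3 * (1 / (4 * √(R - U))) ∧
    0.375 * √R - 0.4 ≤ (1 - 3 * (1 / (4 * √(R - U)))) * (0.375 * √R) ∧
    1 / (4 * √(R - U)) / (1 - 3 * (1 / (4 * √(R - U)))) ≤ (0.28 + 0.25 * (U / R)) / √R := by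
  have hR0 : 0 < R := by linarith
  have hs : 10 ≤ √R := Real.le_sqrt_of_sq_le (by linarith)
  have hs2 : √R ^ 2 = R := Real.sq_sqrt hR0.le
  have t0 : 0 ≤ U / R := by positivity
  have t1 : U / R ≤ 1 / 2 := (div_le_iff₀ hR0).2 (by linarith)
  have hq : (1 - 0.586 * (U / R)) * √R ≤ √(R - U) := by
    refine Real.le_sqrt_of_sq_le ?_
    rw [mul_pow, hs2]
    have e : R - U = (1 - U / R) * R := by field_simp
    rw [e]
    exact mul_le_mul_of_nonneg_right (by nlinarith) hR0.le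
  generalize √(R - U) = q at hq ⊢
  generalize √R = s at hs hq ⊢
  generalize U / R = t at t0 t1 hq ⊢
  have q1 : 0.707 * s ≤ q := le_trans (mul_le_mul_of_nonneg_right (by linarith) (by linarith)) hq
  have q0 : 0 < q := by linarith
  have c0 : 0 < 1 - 3 * (1 / (4 * q)) := by
    have : 1 / (4 * q) ≤ 1 / 28 := one_div_le_one_div_of_le (by norm_num) (by linarith)
    linarith
  refine ⟨c0, ?_, ?_⟩
  · have : 1 / (4 * q) * s ≤ 0.355 := by
      rw [div_mul_eq_mul_div, div_le_iff₀ (by positivity)]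
      linarith
    linarith
  · have e : 1 / (4 * q) / (1 - 3 * (1 / (4 * q))) = 1 / (4 * q - 3) := by
      have : 4 * q - 3 ≠ 0 := by linarith
      field_simp
    rw [e, div_le_div_iff₀ (by linarith) (by linarith)]
    have b1 : (0.28 + 0.25 * t) * ((3.7 - 2.344 * t) * s) ≤ (0.28 + 0.25 * t) * (4 * q - 3) :=
      mul_le_mul_of_nonneg_left (by linarith) (by positivity)
    have b2 : 1 * s ≤ (0.28 + 0.25 * t) * (3.7 - 2.344 * t) * s :=
      mul_le_mul_of_nonneg_right (by nlinarith) (by linarith)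
    linarith

theorem da_rm1 (h1 : γ ^ 2 ≤ 1) (hl : 0 ≤ l) (hR : 100 ≤ R) (hb : bb l ≤ U) (hU : U ≤ R / 2)
    (hθ : 0 < θ) (hθ' : θ ≤ 8 / R) : ‖rm1 γ l R (θ * I)‖ ≤ (1 + 0.92 * (U / R))
      * (Real.exp (-((0.375 * √R - 0.92 - 1.04 * (U / R)) * (θ * R / 2)))
        + ((0.28 + 0.25 * (U / R)) / √R + U / R / 4)) := by
  have hbb := vb_bb hl
  have hU0 : 0 < U := by linarith
  have hR0 : 0 < R := by linarith
  have hR2 : 0 < R / 2 := by linarith
  obtain ⟨c0, c1, c2⟩ := da_e hR hU0 hU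
  obtain ⟨k1, k2⟩ := da_K hU0 hU
  have he : 0 ≤ 1 / (4 * √(R - U)) := by positivity
  have D := decay (ρ := fun r => rm1 γ l r (θ * I))
    (D := fun r => 2 * (ww γ l (θ * I) r).re / √r) (k := fun r => U / (4 * r * (2 * r - U)))
    (DI := fun x => ∫ r in (R / 2)..x, 2 * (ww γ l (θ * I) r).re / √r)
    (kI := fun r => Real.log ((2 * r - U) / r) / 4) (a := R / 2) (b := R) (κ := 3)
    (by linarith) c0 (by norm_num) he
    (fun r hr => rm1_deriv h1 hl (vb_UU hθ) (hR2.trans_le hr.1))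
    (fun r hr => by
      have hr0 : 0 < r := hR2.trans_le hr.1
      have := (da_facts (l := l) h1 hl hθ hr0).1
      exact ⟨cfl_ftc (da_cont h1 hθ) hR2 hr0, by positivity⟩)
    (fun r hr => by
      have hr0 : 0 < r := hR2.trans_le hr.1
      have hrU : 0 < 2 * r - U := by linarith [hr.1]
      refine ⟨((((((hasDerivAt_id' r).const_mul 2).sub_const U).fun_div (hasDerivAt_id' r)
        hr0.ne').log (div_pos hrU hr0).ne').div_const 4).congr_deriv ?_, by positivity⟩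
      field_simp
      ring)
    (fun r hr => by
      have hr0 : 0 < r := hR2.trans_le hr.1
      have b1 := rm1_three (γ := γ) (θ := θ) h1 hl hθ (r := r) (by linarith [hr.1])
      have b2 := da_coup h1 hl hb hU hθ hr.1
      refine (rf_re_le _ _ _).trans (mul_le_mul_of_nonneg_left ?_ (norm_nonneg _))
      have b3 : (((1 / √r : ℝ) : ℂ) * ww γ l (θ * I) r).re = (2 * (ww γ l (θ * I) r).re / √r) / 2 := by
        rw [re_ofReal_mul]
        ring
      rw [b3]
      have b4 := norm_nonneg (rm1 γ l r (θ * I))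
      have b5 := norm_nonneg ((-(bb l / r ^ 2 : ℝ) - θ * I) / (4 * wq γ l (θ * I) r))
      generalize ‖rm1 γ l r (θ * I)‖ = x at b1 b4 ⊢
      have b6 : 1 + x ^ 2 ≤ 1 + 3 * x := by nlinarith
      have b7 := mul_le_mul b2 b6 (by positivity) (b5.trans b2)
      linarith)
  simp only [intervalIntegral.integral_same, sub_zero] at D
  refine D.trans (mul_le_mul k1 ?_ ?_ (by positivity))
  · have z0 : 0 ≤ θ * R / 2 := by positivity
    have a1 := da_half h1 hl hR hb hU hθ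
    have a2 := mul_le_mul_of_nonneg_left (da_hi (l := l) h1 hl hR hθ hθ') c0.le
    have a3 := mul_le_mul_of_nonneg_right c1 z0
    have a4 := Real.add_one_le_exp ((0.52 + 1.04 * (U / R)) * (θ * R / 2))
    have a5 : ‖rm1 γ l (R / 2) (θ * I)‖ * Real.exp (-((1 - 3 * (1 / (4 * √(R - U))))
        * ∫ r in (R / 2)..R, 2 * (ww γ l (θ * I) r).re / √r))
        ≤ Real.exp (-((0.375 * √R - 0.92 - 1.04 * (U / R)) * (θ * R / 2))) := by
      refine (mul_le_mul_of_nonneg_right (show _ ≤ Real.exp ((0.52 + 1.04 * (U / R)) * (θ * R / 2))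
        by linarith) (Real.exp_pos _).le).trans ?_
      rw [← Real.exp_add]
      exact Real.exp_le_exp.2 (by linarith)
    linarith
  · have K0 : 0 ≤ Real.log ((2 * R - U) / R) / 4 - Real.log ((2 * (R / 2) - U) / (R / 2)) / 4 := by
      have p2 : 0 < (2 * (R / 2) - U) / (R / 2) := div_pos (by linarith) hR2
      have : (2 * (R / 2) - U) / (R / 2) ≤ (2 * R - U) / R := by
        rw [div_le_div_iff₀ hR2 hR0]
        nlinarith
      linarith [Real.log_le_log p2 this]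
    have := div_nonneg he c0.le
    positivity

theorem da_exp {A C M : ℝ} (hR : 0 < R) (hA : 0 < A) (hM : 0 ≤ M) :
    IntervalIntegrable (fun θ : ℝ => M * (Real.exp (-(A * (θ * R / 2))) + C)) volume 0 (8 / R) ∧
    ∫ θ in (0 : ℝ)..(8 / R), M * (Real.exp (-(A * (θ * R / 2))) + C)
      ≤ 2 / R * (M * (1 / A + 4 * C)) := by
  have hc : Continuous fun θ : ℝ => M * (Real.exp (-(A * (θ * R / 2))) + C) := by fun_prop
  refine ⟨hc.intervalIntegrable _ _, ?_⟩
  rw [intervalIntegral.integral_eq_sub_of_hasDerivAt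
    (f := fun θ => M * (-(2 / (R * A)) * Real.exp (-(A * (θ * R / 2))) + C * θ)) (fun x _ => ?_)
    (hc.intervalIntegrable _ _)]
  · have p : 0 ≤ M * (2 / (R * A) * Real.exp (-(A * (8 / R * R / 2)))) := by positivity
    have e : 2 / R * (M * (1 / A + 4 * C)) = M * (2 / (R * A)) + M * (C * (8 / R)) := by
      field_simp
      ring
    simp only [zero_mul, zero_div, mul_zero, neg_zero, Real.exp_zero, mul_one, add_zero]
    linarith
  · refine ((((((((hasDerivAt_id' x).mul_const R).div_const 2).const_mul A).fun_neg.exp).const_mul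
      (-(2 / (R * A)))).fun_add ((hasDerivAt_id' x).const_mul C)).const_mul M).congr_deriv ?_
    field_simp

end Pool.Agent.Lib.MP_2347b2_mp.F
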