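import Pool.Agent.Lib.MP_2347b2_mp.F.WF

namespace Pool.Agent.Lib.MP_2347b2_mp.F

open MeasureTheory Set Filter Topology Complex

variable {γ l : ℝ} {ε : ℂ}

theorem one_le_Dt (L R : ℝ) : 1 ≤ Dt L R := by
  rw [Dt, mul_div_assoc, mul_div_assoc, ← div_pow]
  nlinarith [sq_nonneg (R / L - 0.247)]

theorem Im2_nonneg (γ l : ℝ) (ε : ℂ) {R : ℝ} (hR : 0 ≤ R) : 0 ≤ Im2 γ l ε R :=
  intervalIntegral.integral_nonneg hR fun _ _ => by positivity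

theorem mul_Im2_deriv (hl : 0 ≤ l) (γ : ℝ) (ε : ℂ) {r : ℝ} (hr : 0 < r) :
    HasDerivAt (Im2 γ l ε) (‖ph γ l ε r‖ ^ 2 / r ^ 2) r := by
  have hc : ContinuousOn (fun r => ‖ph γ l ε r‖ ^ 2 / r ^ 2) (Ioi 0) :=
    (cfl_nc hl γ ε).div (continuousOn_pow 2) fun x hx => pow_ne_zero 2 (ne_of_gt hx)
  exact intervalIntegral.integral_hasDerivAt_right (Im2_int hl γ ε hr)
    (hc.stronglyMeasurableAtFilter isOpen_Ioi r hr) (hc.continuousAt (Ioi_mem_nhds hr))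

theorem mul_Im2_lim (hl : 0 ≤ l) (γ : ℝ) (ε : ℂ) : Tendsto (Im2 γ l ε) (𝓝[>] 0) (𝓝 0) := by
  have h := intervalIntegral.continuousOn_primitive_interval' (Im2_int hl γ ε one_pos)
    left_mem_uIcc 0 left_mem_uIcc
  rw [uIcc_of_le zero_le_one] at h
  have h2 := (h.mono_of_mem_nhdsWithin (Icc_mem_nhdsGT one_pos)).tendsto
  rwa [intervalIntegral.integral_same] at h2

theorem mul_nonneg_of_deriv {f f' : ℝ → ℝ} {R : ℝ} (hR : 0 < R)
    (hd : ∀ x, 0 < x → HasDerivAt f (f' x) x) (h0 : ∀ x, 0 < x → x ≤ R → 0 ≤ f' x)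
    (hl : Tendsto f (𝓝[>] 0) (𝓝 0)) : 0 ≤ f R := by
  have hm : MonotoneOn f (Ioc 0 R) := by
    refine monotoneOn_of_deriv_nonneg (convex_Ioc _ _)
      (fun x hx => (hd x hx.1).continuousAt.continuousWithinAt) ?_ ?_
    · intro x hx
      exact (hd x (interior_subset hx).1).differentiableAt.differentiableWithinAt
    · intro x hx
      have hx' := interior_subset hx
      rw [(hd x hx'.1).deriv]
      exact h0 x hx'.1 hx'.2
  refine le_of_tendsto hl ?_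
  filter_upwards [Ioc_mem_nhdsGT hR] with x hx
  exact hm hx ⟨hR, le_rfl⟩ hx.2

theorem Im2_split (h1 : γ ^ 2 ≤ 1) (hl : 0 ≤ l) (hε : ε ∈ UU) {r R : ℝ} (hr : 0 < r)
    (hR : r ≤ R) : Im2 γ l ε R ≤ Im2 γ l ε r + Fx γ l ε R / (ε.im * r ^ 2) := by
  have hθ : 0 < ε.im := hε.2
  have hE := Ec_im_nonneg h1 hε.1 hε.2.le
  have hm := cfl_le hr hR
    (fun x hx => ((Fx_deriv hl γ ε hx).div_const (ε.im * r ^ 2)).sub (mul_Im2_deriv hl γ ε hx))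
    (fun x hx => by
      have hx0 : 0 < x := hr.trans_le hx
      have a : ‖ph γ l ε x‖ ^ 2 / x ^ 2 ≤ ‖ph γ l ε x‖ ^ 2 / r ^ 2 := by gcongr
      have b : 0 ≤ 2 * (Ec γ ε).im / x * ‖ph γ l ε x‖ ^ 2 / (ε.im * r ^ 2) := by positivity
      have c : (2 * (Ec γ ε).im / x + ε.im) * ‖ph γ l ε x‖ ^ 2 / (ε.im * r ^ 2)
          = 2 * (Ec γ ε).im / x * ‖ph γ l ε x‖ ^ 2 / (ε.im * r ^ 2)
            + ‖ph γ l ε x‖ ^ 2 / r ^ 2 := by
        field_simp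
      linarith)
  have d : 0 ≤ Fx γ l ε r / (ε.im * r ^ 2) := div_nonneg (Fx_pos h1 hl hε hr).le (by positivity)
  simp only [Pi.sub_apply] at hm
  linarith

theorem mul_limN (hl : 0 ≤ l) (γ : ℝ) (ε : ℂ) {w : ℝ → ℝ}
    (hw : Tendsto (fun r => w r * (r ^ 2 * (r ^ l) ^ 2)) (𝓝[>] 0) (𝓝 0)) :
    Tendsto (fun r => w r * ‖ph γ l ε r‖ ^ 2) (𝓝[>] 0) (𝓝 0) := by
  have h := hw.mul ((ph_lim (show -1 < l by linarith) γ ε).norm.pow 2)
  rw [zero_mul] at h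
  refine h.congr' ?_
  filter_upwards [self_mem_nhdsWithin] with r hr
  have hr : 0 < r := hr
  have hb : (0 : ℝ) < r ^ l := Real.rpow_pos_of_pos hr _
  rw [norm_div, norm_real, Real.norm_eq_abs, div_pow, sq_abs, Real.rpow_add_one hr.ne']
  field_simp

theorem mul_limD (hl : 0 ≤ l) (γ : ℝ) (ε : ℂ) {w : ℝ → ℝ}
    (hw : Tendsto (fun r => w r * (r ^ l) ^ 2) (𝓝[>] 0) (𝓝 0)) :
    Tendsto (fun r => w r * ‖phD γ l ε r‖ ^ 2) (𝓝[>] 0) (𝓝 0) := by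
  have h := hw.mul ((phD_lim (show -1 < l by linarith) γ ε).norm.pow 2)
  rw [zero_mul] at h
  refine h.congr' ?_
  filter_upwards [self_mem_nhdsWithin] with r hr
  have hr : 0 < r := hr
  have hb : (0 : ℝ) < r ^ l := Real.rpow_pos_of_pos hr _
  rw [norm_div, norm_real, Real.norm_eq_abs, div_pow, sq_abs]
  field_simp

theorem mul_limH (hl : 0 ≤ l) (γ : ℝ) (ε : ℂ) {w : ℝ → ℝ}
    (hw : Tendsto (fun r => w r * (r * (r ^ l) ^ 2)) (𝓝[>] 0) (𝓝 0)) :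
    Tendsto (fun r => w r * ((starRingEnd ℂ) (ph γ l ε r) * phD γ l ε r).re) (𝓝[>] 0) (𝓝 0) := by
  have hl' : -1 < l := by linarith
  have h1 := (continuous_conj.tendsto _).comp (ph_lim hl' γ ε)
  have h := hw.mul ((continuous_re.tendsto _).comp (h1.mul (phD_lim hl' γ ε)))
  rw [zero_mul] at h
  refine h.congr' ?_
  filter_upwards [self_mem_nhdsWithin] with r hr
  have hr : 0 < r := hr
  have ha : (0 : ℝ) < r ^ (l + 1) := Real.rpow_pos_of_pos hr _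
  have hb : (0 : ℝ) < r ^ l := Real.rpow_pos_of_pos hr _
  have ha' : ((r ^ (l + 1) : ℝ) : ℂ) ≠ 0 := ofReal_ne_zero.2 ha.ne'
  have hb' : ((r ^ l : ℝ) : ℂ) ≠ 0 := ofReal_ne_zero.2 hb.ne'
  have e : (starRingEnd ℂ) (ph γ l ε r) * phD γ l ε r = ((r ^ (l + 1) * r ^ l : ℝ) : ℂ) *
      ((starRingEnd ℂ) (ph γ l ε r / (r ^ (l + 1) : ℝ)) * (phD γ l ε r / (r ^ l : ℝ))) := by
    rw [map_div₀, conj_ofReal, ofReal_mul]; field_simp
  show w r * (r * (r ^ l) ^ 2) *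
    ((starRingEnd ℂ) (ph γ l ε r / (r ^ (l + 1) : ℝ)) * (phD γ l ε r / (r ^ l : ℝ))).re = _
  rw [e, re_ofReal_mul, Real.rpow_add_one hr.ne']
  ring

theorem mul_cont {f : ℝ → ℝ} (hf : Continuous f) (h0 : f 0 = 0) : Tendsto f (𝓝[>] 0) (𝓝 0) :=
  (hf.tendsto' 0 0 h0).mono_left nhdsWithin_le_nhds

theorem mul2_pt {L Λ R r x e : ℝ} (hL : 0 < L) (hΛ : L ≤ Λ) (hr : 0 < r) (hR : r ≤ R)
    (hx : x ≤ 1.01) (he : e ≤ 0) :
    1 / r ^ 2 ≤ 4 / L * (1 - r / R) * (Λ / r ^ 2 - 2 * x / r - e) + Dt L R / R ^ 2 := by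
  have hR0 : 0 < R := hr.trans_le hR
  have hb : 0 ≤ 4 / L * (1 - r / R) :=
    mul_nonneg (by positivity) (sub_nonneg.2 ((div_le_one hR0).2 hR))
  have hq : L / r ^ 2 - 2.02 / r ≤ Λ / r ^ 2 - 2 * x / r - e := by
    have a : L / r ^ 2 ≤ Λ / r ^ 2 := by gcongr
    have b : 2 * x / r ≤ 2.02 / r := by gcongr; linarith
    linarith
  have h2 := mul_le_mul_of_nonneg_left hq hb
  have e1 : 4 / L * (1 - r / R) * (L / r ^ 2 - 2.02 / r) + Dt L R / R ^ 2 - 1 / r ^ 2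
      = (3 * (R / r - (4 + 8.08 * (R / L)) / 6) ^ 2 + 0.0128 * (R / L) ^ 2) / R ^ 2 := by
    rw [Dt]
    field_simp
    ring
  have h3 : 0 ≤ (3 * (R / r - (4 + 8.08 * (R / L)) / 6) ^ 2 + 0.0128 * (R / L) ^ 2) / R ^ 2 := by
    positivity
  linarith

/-- the linear multiplier -/
theorem mul2 (h1 : γ ^ 2 ≤ 1) (hl : 0 ≤ l) (hε : ε ∈ UU) (hre : ε.re ≤ 0)
    (hx : (Ec γ ε).re ≤ 1.01) {L R : ℝ} (hL : 0 < L) (hLl : L ≤ l * (l + 1)) (hR : 0 < R) :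
    Im2 γ l ε R ≤ 2 * ‖ph γ l ε R‖ ^ 2 / (L * R) + Dt L R * Fx γ l ε R / (ε.im * R ^ 2) := by
  have hθ : 0 < ε.im := hε.2
  have hE := Ec_im_nonneg h1 hε.1 hε.2.le
  have hs := ph_sol (show -1 < l by linarith) γ ε
  have hD := one_le_Dt L R
  have hρ := Real.continuous_rpow_const hl
  have key := mul_nonneg_of_deriv (R := R)
    (f := fun r => 4 / L * (1 - r / R) * ((starRingEnd ℂ) (ph γ l ε r) * phD γ l ε r).re
      + 2 / (L * R) * ‖ph γ l ε r‖ ^ 2 + Dt L R / (ε.im * R ^ 2) * Fx γ l ε r - Im2 γ l ε r) hR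
    (fun x hx0 => ((((((hasDerivAt_id' x).div_const R).const_sub 1).const_mul (4 / L)).mul
      (hs.energy hx0)).add ((hs.normsq hx0).const_mul (2 / (L * R)))).add
      ((Fx_deriv hl γ ε hx0).const_mul (Dt L R / (ε.im * R ^ 2))) |>.sub
      (mul_Im2_deriv hl γ ε hx0))
    (fun x hx0 hxR => by
      have p := mul_le_mul_of_nonneg_right (mul2_pt hL hLl hx0 hxR hx hre)
        (sq_nonneg ‖ph γ l ε x‖)
      have hb : 0 ≤ 4 / L * (1 - x / R) * ‖phD γ l ε x‖ ^ 2 :=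
        mul_nonneg (mul_nonneg (by positivity) (sub_nonneg.2 ((div_le_one hR).2 hxR)))
          (sq_nonneg _)
      have hc : 0 ≤ Dt L R / (ε.im * R ^ 2) * (2 * (Ec γ ε).im / x * ‖ph γ l ε x‖ ^ 2) := by
        have : 0 < Dt L R := by linarith
        positivity
      have e1 : Dt L R / (ε.im * R ^ 2) * ε.im = Dt L R / R ^ 2 := by field_simp
      have e2 : 2 / (L * R) * 2 = 4 / L * (1 / R) := by field_simp; norm_num
      rw [Qc_re]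
      linear_combination p + hb + hc - ‖ph γ l ε x‖ ^ 2 * e1
        - ((starRingEnd ℂ) (ph γ l ε x) * phD γ l ε x).re * e2)
    (by
      have a := mul_limH hl γ ε (w := fun r => 4 / L * (1 - r / R))
        (mul_cont (by fun_prop) (by simp))
      have b := mul_limN hl γ ε (w := fun _ => 2 / (L * R)) (mul_cont (by fun_prop) (by simp))
      have c := (Fx_lim hl γ ε).const_mul (Dt L R / (ε.im * R ^ 2))
      simpa using ((a.add b).add c).sub (mul_Im2_lim hl γ ε))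
  rw [div_self hR.ne', sub_self, mul_zero, zero_mul, zero_add] at key
  linear_combination key

theorem mul_Dd {Q u u' : ℝ → ℂ} (h : Sol Q u u') {r : ℝ} (hr : 0 < r) :
    HasDerivAt (fun r => ‖u' r‖ ^ 2) (2 * ((Q r).re * ((starRingEnd ℂ) (u r) * u' r).re
      + (Q r).im * ((starRingEnd ℂ) (u r) * u' r).im)) r := by
  refine (h.d2 r hr).norm_sq.congr_deriv ?_
  simp only [Complex.inner, mul_re, mul_im, conj_re, conj_im]
  ring

theorem mul_sq_sub (u v : ℂ) (c : ℝ) :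
    ‖v - c * u‖ ^ 2 = ‖v‖ ^ 2 - 2 * c * ((starRingEnd ℂ) u * v).re + c ^ 2 * ‖u‖ ^ 2 := by
  simp only [Complex.sq_norm, normSq_apply, sub_re, sub_im, mul_re, mul_im, conj_re, conj_im,
    ofReal_re, ofReal_im]
  ring

theorem mul_s {r : ℝ} (hr : 0 < r) : HasDerivAt (fun r : ℝ => √r) ((√r)⁻¹ / 2) r := by
  refine (Real.hasDerivAt_sqrt hr.ne').congr_deriv ?_
  have := (Real.sqrt_pos.2 hr).ne'
  field_simp

theorem mul_t {r : ℝ} (hr : 0 < r) : HasDerivAt (fun r : ℝ => (√r)⁻¹) (-(√r)⁻¹ ^ 3 / 2) r := by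
  have := (Real.sqrt_pos.2 hr).ne'
  refine ((mul_s hr).inv this).congr_deriv ?_
  field_simp

theorem mul_limS (hl : 1 ≤ l) {v p : ℝ → ℝ} (hp : Continuous p) (h0 : p 0 = 0)
    (h : ∀ s, 0 < s → v (s ^ 2) * (s ^ 2) ^ 2 = p s) :
    Tendsto (fun r => v r * (r ^ l) ^ 2) (𝓝[>] 0) (𝓝 0) := by
  have hρ := Real.continuous_rpow_const (q := l - 1) (by linarith)
  refine (mul_cont (f := fun r => p √r * (r ^ (l - 1)) ^ 2) (by fun_prop) (by simp [h0])).congr' ?_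
  filter_upwards [self_mem_nhdsWithin] with r hr
  have hr : 0 < r := hr
  rw [← h _ (Real.sqrt_pos.2 hr), Real.sq_sqrt hr.le, Real.rpow_sub_one hr.ne']
  field_simp

theorem mul1_pt {m x t : ℝ} (hm0 : 0 < m) (hm : 4.5 ≤ m ^ 2) (hx : x ≤ 1.001) :
    0 ≤ 1.22 / m * (m ^ 2 + 3 / 16) - 4 * x * (0.15 * m) - m ^ 2 * t
      + 0.15 * m * (3 * m ^ 2 - 15 / 16) * t ^ 2 := by
  have e : 1.22 / m * (m ^ 2 + 3 / 16) = 1.22 * m + 1.22 / m * (3 / 16) := by field_simp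
  have a : 0 ≤ 1.22 / m * (3 / 16) := by positivity
  have b : x * m ≤ 1.001 * m := by gcongr
  have c : 0 ≤ m * t ^ 2 * (m ^ 2 - 4.5) := mul_nonneg (by positivity) (by linarith)
  have d : 0 ≤ m * (0.6194 - m * t + 0.41875 * (m * t) ^ 2) :=
    mul_nonneg hm0.le (by nlinarith [sq_nonneg (m * t - 1.2)])
  rw [e]
  linear_combination a + 0.6 * b + 0.03125 * c + d

theorem mul1_end {y t D h N Λ x : ℝ} (hy0 : 0 ≤ y) (hy : y ≤ 0.15) (ht0 : 0 ≤ t) (ht : t ≤ 1 / 2)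
    (hΛ : Λ * t ^ 2 ≤ 1) (hx : 1 ≤ x) (hD : 0 ≤ D) (hN : 0 ≤ N) (hh : 2 * t * h ≤ D + t ^ 2 * N) :
    (-1 / 2 + y) * D + y * t ^ 2 * h / 2
      + (3 * y * t ^ 4 / 8 + (1 / 2 - y) * (Λ * t ^ 4 - 2 * x * t ^ 2)) * N ≤ 0 := by
  have hM : 0 ≤ t ^ 2 * N := by positivity
  have a1 : y * t ≤ 0.15 * (1 / 2) := by gcongr
  have a2 := mul_le_mul_of_nonneg_left hh (mul_nonneg hy0 ht0)
  have a3 := mul_le_mul_of_nonneg_right a1 (add_nonneg hD hM)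
  have a4 : y * t * t ≤ 0.15 * (1 / 2) * (1 / 2) := by gcongr
  have a5 := mul_le_mul_of_nonneg_right a4 hM
  have a6 : (1 / 2 - y) * (Λ * t ^ 2 - 2 * x) ≤ -0.35 := by nlinarith
  have a7 := mul_le_mul_of_nonneg_right a6 hM
  have a8 := mul_le_mul_of_nonneg_right hy hD
  linear_combination a2 / 4 + a3 / 4 + 3 / 8 * a5 + a7 + a8 + 0.33125 * hD + 0.3171875 * hM

noncomputable def mulA (K C r : ℝ) : ℝ := K * √r - 1 / 2 + C * (√r)⁻¹

noncomputable def mulB (K C r : ℝ) : ℝ := K / 2 * (√r)⁻¹ - C / 2 * (√r)⁻¹ ^ 3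

noncomputable def mulC (K C Λ x r : ℝ) : ℝ :=
  2 * K * x * (√r)⁻¹ - x * (√r)⁻¹ ^ 2 + (2 * C * x - K / 8 - K * Λ) * (√r)⁻¹ ^ 3
    + Λ / 2 * (√r)⁻¹ ^ 4 + (3 * C / 8 - C * Λ) * (√r)⁻¹ ^ 5

theorem mulA_d (K C : ℝ) {r : ℝ} (hr : 0 < r) : HasDerivAt (mulA K C) (mulB K C r) r := by
  refine ((((mul_s hr).const_mul K).sub_const _).add ((mul_t hr).const_mul C)).congr_deriv ?_
  rw [mulB]
  ring

theorem mulB_d (K C : ℝ) {r : ℝ} (hr : 0 < r) :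
    HasDerivAt (mulB K C) (-K / 4 * (√r)⁻¹ ^ 3 + 3 * C / 4 * (√r)⁻¹ ^ 5) r := by
  refine (((mul_t hr).const_mul _).sub (((mul_t hr).fun_pow 3).const_mul _)).congr_deriv ?_
  generalize (√r)⁻¹ = t
  push_cast
  ring

theorem mulC_d (K C Λ x : ℝ) {r : ℝ} (hr : 0 < r) :
    HasDerivAt (mulC K C Λ x) (mulB K C r * (Λ * (√r)⁻¹ ^ 4 - 2 * x * (√r)⁻¹ ^ 2)
      + x * (√r)⁻¹ ^ 4 + (√r)⁻¹ ^ 5 * (K * (Λ + 3 / 16) - 4 * x * C - Λ * (√r)⁻¹
        + C * (3 * Λ - 15 / 16) * (√r)⁻¹ ^ 2)) r := by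
  refine ((((((mul_t hr).const_mul _).sub (((mul_t hr).fun_pow 2).const_mul _)).add
    (((mul_t hr).fun_pow 3).const_mul _)).add (((mul_t hr).fun_pow 4).const_mul _)).add
    (((mul_t hr).fun_pow 5).const_mul _)).congr_deriv ?_
  rw [mulB]
  generalize (√r)⁻¹ = t
  push_cast
  ring

theorem mul_tsq {r : ℝ} (hr : 0 < r) : (√r)⁻¹ ^ 2 = r⁻¹ := by
  rw [inv_pow, Real.sq_sqrt hr.le]

theorem mul1_G (h1 : γ ^ 2 ≤ 1) (hl : 0 ≤ l) {θ r : ℝ} (hθ : 0 < θ) (hθ' : θ ≤ 0.08)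
    (hL : 4.5 ≤ l * (l + 1)) (hr : 0 < r) {K C : ℝ} (hK : K = 1.22 / √(l * (l + 1)))
    (hC : C = 0.15 * √(l * (l + 1))) :
    Im2 γ l (θ * I) r ≤ mulA K C r * ‖phD γ l (θ * I) r‖ ^ 2
      - mulB K C r * ((starRingEnd ℂ) (ph γ l (θ * I) r) * phD γ l (θ * I) r).re
      + mulC K C (l * (l + 1)) (Ec γ (θ * I)).re r * ‖ph γ l (θ * I) r‖ ^ 2 := by
  have hε : (θ * I : ℂ) ∈ UU := ⟨by simp, by simpa using hθ⟩
  have r1 : (θ * I : ℂ).re = 0 := by simp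
  obtain ⟨x1, x2, -⟩ := Ec_right h1 hθ.le
  have x3 : (Ec γ (θ * I)).re ≤ 1.001 := by nlinarith
  have hl1 : 1 ≤ l := by nlinarith
  have hs := ph_sol (show -1 < l by linarith) γ (θ * I)
  have hm0 : 0 < √(l * (l + 1)) := Real.sqrt_pos.2 (by linarith)
  have hm2 : √(l * (l + 1)) ^ 2 = l * (l + 1) := Real.sq_sqrt (by linarith)
  have hKC : K * C = 0.183 := by rw [hK, hC]; field_simp; norm_num
  have hK0 : 0 < K := by rw [hK]; positivity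
  have hC0 : 0 < C := by rw [hC]; positivity
  generalize (θ * I : ℂ) = ε at *
  have key := mul_nonneg_of_deriv (R := r)
    (f := fun r => mulA K C r * ‖phD γ l ε r‖ ^ 2
      - mulB K C r * ((starRingEnd ℂ) (ph γ l ε r) * phD γ l ε r).re
      + mulC K C (l * (l + 1)) (Ec γ ε).re r * ‖ph γ l ε r‖ ^ 2 - Im2 γ l ε r) hr
    (fun x hx0 => ((((mulA_d K C hx0).mul (mul_Dd hs hx0)).sub
      ((mulB_d K C hx0).mul (hs.energy hx0))).add
      ((mulC_d K C _ _ hx0).mul (hs.normsq hx0))).sub (mul_Im2_deriv hl γ ε hx0))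
    (fun x hx0 _ => by
      have s0 := Real.sqrt_pos.2 hx0
      have st : √x * (√x)⁻¹ = 1 := mul_inv_cancel₀ s0.ne'
      have t0 : 0 < (√x)⁻¹ := inv_pos.2 s0
      have hq : (Qc γ l ε x).re = l * (l + 1) * (√x)⁻¹ ^ 4 - 2 * (Ec γ ε).re * (√x)⁻¹ ^ 2 := by
        rw [Qc_re, r1, show (√x)⁻¹ ^ 4 = ((√x)⁻¹ ^ 2) ^ 2 by ring, mul_tsq hx0]
        ring
      have hN : ‖ph γ l ε x‖ ^ 2 / x ^ 2 = (√x)⁻¹ ^ 4 * ‖ph γ l ε x‖ ^ 2 := by
        rw [show (√x)⁻¹ ^ 4 = ((√x)⁻¹ ^ 2) ^ 2 by ring, mul_tsq hx0]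
        ring
      have hA : 0 ≤ mulA K C x := by
        have e : K * √x * (C * (√x)⁻¹) = 0.183 := by linear_combination K * C * st + hKC
        have a := mul_pos hK0 s0
        have b := mul_pos hC0 t0
        rw [mulA]
        nlinarith [sq_nonneg (K * √x - C * (√x)⁻¹)]
      have hF : 0 ≤ (Qc γ l ε x).im * ((starRingEnd ℂ) (ph γ l ε x) * phD γ l ε x).im :=
        mul_nonneg_of_nonpos_of_nonpos (Qc_im_neg h1 hε hx0).le
          (neg_nonneg.1 (Fx_pos h1 hl hε hx0).le)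
      have p := mul1_pt (t := (√x)⁻¹) hm0 (by linarith) x3
      rw [← hK, ← hC, hm2] at p
      have p1 := mul_nonneg (mul_nonneg (pow_pos t0 5).le p) (sq_nonneg ‖ph γ l ε x‖)
      have p2 := mul_nonneg (mul_nonneg (pow_pos t0 4).le (sub_nonneg.2 x1))
        (sq_nonneg ‖ph γ l ε x‖)
      have p3 := mul_nonneg hA hF
      rw [hq, hN]
      simp only [mulA, mulB, mulC] at p3 ⊢
      generalize (√x)⁻¹ = t at *
      linear_combination p1 + p2 + 2 * p3 - 2 * K * (l * (l + 1) * t ^ 3 - 2 * (Ec γ ε).re * t)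
        * ((starRingEnd ℂ) (ph γ l ε x) * phD γ l ε x).re * st)
    (by
      have a := mul_limD hl γ ε (w := mulA K C) (mul_limS hl1
        (p := fun s => K * s ^ 5 - s ^ 4 / 2 + C * s ^ 3) (by fun_prop) (by simp) fun s hs => by
          rw [mulA, Real.sqrt_sq hs.le]
          field_simp)
      have b := mul_limH hl γ ε (w := mulB K C) ((mul_limS hl1 (v := fun r => mulB K C r * r)
          (p := fun s => K / 2 * s ^ 5 - C / 2 * s ^ 3) (by fun_prop) (by simp) fun s hs => by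
            rw [mulB, Real.sqrt_sq hs.le]
            field_simp).congr fun _ => mul_assoc _ _ _)
      have c := mul_limN hl γ ε (w := mulC K C (l * (l + 1)) (Ec γ ε).re) ((mul_limS hl1
          (v := fun r => mulC K C (l * (l + 1)) (Ec γ ε).re r * r ^ 2)
          (p := fun s => 2 * K * (Ec γ ε).re * s ^ 7 - (Ec γ ε).re * s ^ 6
            + (2 * C * (Ec γ ε).re - K / 8 - K * (l * (l + 1))) * s ^ 5 + l * (l + 1) / 2 * s ^ 4
            + (3 * C / 8 - C * (l * (l + 1))) * s ^ 3) (by fun_prop) (by simp) fun s hs => by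
            rw [mulC, Real.sqrt_sq hs.le]
            field_simp).congr fun _ => mul_assoc _ _ _)
      simpa only [sub_zero, add_zero] using ((a.sub b).add c).sub (mul_Im2_lim hl γ ε))
  linarith

/-- the energy multiplier -/
theorem mul1 (h1 : γ ^ 2 ≤ 1) (hl : 0 ≤ l) {θ r : ℝ} (hθ : 0 < θ) (hθ' : θ ≤ 0.08)
    (hL : 4.5 ≤ l * (l + 1)) (hr : bb l ≤ r) :
    Im2 γ l (θ * I) r ≤ 1.22 / √(l * (l + 1))
      * (‖nm γ l r (θ * I)‖ ^ 2 + ‖ww γ l (θ * I) r‖ ^ 2) * ‖yy γ l (θ * I) r‖ ^ 2 := by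
  have hb : l * (l + 1) + 3 / 16 ≤ r := hr
  have hr0 : 0 < r := by linarith
  refine (mul1_G h1 hl hθ hθ' hL hr0 rfl rfl).trans ?_
  have hε : (θ * I : ℂ) ∈ UU := ⟨by simp, by simpa using hθ⟩
  have r1 : (θ * I : ℂ).re = 0 := by simp
  obtain ⟨x1, -⟩ := Ec_right h1 hθ.le
  generalize (θ * I : ℂ) = ε at *
  have hm0 : 0 < √(l * (l + 1)) := Real.sqrt_pos.2 (by linarith)
  have s0 := Real.sqrt_pos.2 hr0
  have st : √r * (√r)⁻¹ = 1 := mul_inv_cancel₀ s0.ne'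
  have t0 : 0 < (√r)⁻¹ := inv_pos.2 s0
  have t2 := mul_tsq hr0
  have hΛ : l * (l + 1) * (√r)⁻¹ ^ 2 ≤ 1 := by
    rw [t2, ← div_eq_mul_inv, div_le_one hr0]
    linarith
  have hmt : √(l * (l + 1)) * (√r)⁻¹ ≤ 1 := by
    rw [← div_eq_mul_inv, div_le_one s0]
    exact Real.sqrt_le_sqrt (by linarith)
  have ht : (√r)⁻¹ ≤ 1 / 2 := by
    rw [inv_le_comm₀ s0 (by norm_num)]
    exact Real.le_sqrt_of_sq_le (by linarith)
  have hh := sq_nonneg ‖phD γ l ε r - ((√r)⁻¹ : ℝ) * ph γ l ε r‖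
  rw [mul_sq_sub] at hh
  have hend := mul1_end (y := 0.15 * √(l * (l + 1)) * (√r)⁻¹)
    (h := ((starRingEnd ℂ) (ph γ l ε r) * phD γ l ε r).re) (by positivity) (by linarith) t0.le ht
    hΛ x1 (sq_nonneg ‖phD γ l ε r‖) (sq_nonneg ‖ph γ l ε r‖) (by linarith)
  have hy : ‖yy γ l ε r‖ ^ 2 = (√r)⁻¹ * ‖ph γ l ε r‖ ^ 2 := by
    rw [yy_sq γ l ε hr0, ← mul_assoc, inv_mul_cancel₀ s0.ne', one_mul]
  have hn : ‖nm γ l r ε‖ ^ 2 * ‖ph γ l ε r‖ ^ 2 = √r ^ 2 * (‖phD γ l ε r‖ ^ 2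
      - 2 * ((√r)⁻¹ ^ 2 / 4) * ((starRingEnd ℂ) (ph γ l ε r) * phD γ l ε r).re
      + ((√r)⁻¹ ^ 2 / 4) ^ 2 * ‖ph γ l ε r‖ ^ 2) := by
    have e : nm γ l r ε * ph γ l ε r
        = (√r : ℝ) * (phD γ l ε r - (((√r)⁻¹ ^ 2 / 4 : ℝ) : ℂ) * ph γ l ε r) := by
      have h0 := ph_ne h1 hl hε hr0
      rw [nm, mm, t2]
      push_cast
      field_simp
    rw [← mul_sq_sub, ← mul_pow, ← norm_mul, e, norm_mul, mul_pow, norm_real, Real.norm_eq_abs,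
      sq_abs]
  have hw : 2 * (Ec γ ε).re - (l * (l + 1) + 3 / 16) * (√r)⁻¹ ^ 2 ≤ ‖ww γ l ε r‖ ^ 2 := by
    have a := (neg_le_abs _).trans (abs_re_le_norm (wq γ l ε r))
    rw [wq_re, r1, bb] at a
    rw [← norm_pow, ww_sq, t2]
    linear_combination a
  have hK0 : 0 ≤ 1.22 / √(l * (l + 1)) := by positivity
  have hw2 := mul_le_mul_of_nonneg_left hw
    (mul_nonneg hK0 (mul_nonneg t0.le (sq_nonneg ‖ph γ l ε r‖)))
  rw [hy]
  simp only [mulA, mulB, mulC]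
  generalize 1.22 / √(l * (l + 1)) = K at *
  generalize (√r)⁻¹ = t at *
  linear_combination hend + hw2 - K * t * hn - K * (√r * ‖phD γ l ε r‖ ^ 2
    + (√r * t + 1) * (t ^ 3 / 16 * ‖ph γ l ε r‖ ^ 2
      - t / 2 * ((starRingEnd ℂ) (ph γ l ε r) * phD γ l ε r).re)) * st

end Pool.Agent.Lib.MP_2347b2_mp.F
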