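import Pool.Agent.Lib.MP_2347b2_mp.F.WF

namespace Pool.Agent.Lib.MP_2347b2_mp.F

open MeasureTheory Set Filter Topology Complex

variable {γ l R : ℝ} {ε : ℂ}

theorem rb_ge {f f' k : ℝ → ℝ} {L : ℝ} (hR : 0 < R)
    (hd : ∀ r ∈ Ioc 0 R, HasDerivAt f (f' r) r ∧ 0 ≤ f' r) (hk : ∀ r ∈ Ioc 0 R, k r ≤ f r)
    (hL : Tendsto k (𝓝[>] 0) (𝓝 L)) : L ≤ f R := by
  refine le_of_tendsto hL ?_
  filter_upwards [Ioc_mem_nhdsGT hR] with r hr
  exact (hk r hr).trans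
    (rho_mono (fun t ht => hd t ⟨hr.1.trans_le ht.1, ht.2⟩) R ⟨hr.2, le_rfl⟩)

theorem rb_re {u v : ℂ} (hu : u ≠ 0) :
    ((starRingEnd ℂ) u * v).re = (v / u).re * ‖u‖ ^ 2 := by
  have e : v = v / u * u := (div_mul_cancel₀ v hu).symm
  conv_lhs => rw [e]
  exact rho_re u (v / u)

theorem rb_nsq (h1 : γ ^ 2 ≤ 1) (hl : 0 ≤ l) (hε : ε ∈ UU) {r : ℝ} (hr : 0 < r) :
    HasDerivAt (fun r => ‖ph γ l ε r‖ ^ 2) (2 * ((mm γ l r ε).re * ‖ph γ l ε r‖ ^ 2)) r := by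
  have h := (ph_sol (by linarith : -1 < l) γ ε).normsq hr
  rwa [rb_re (ph_ne h1 hl hε hr)] at h

theorem rb_norm (h1 : γ ^ 2 ≤ 1) (hl : 0 ≤ l) (hε : ε ∈ UU) {r : ℝ} (hr : 0 < r) :
    HasDerivAt (fun r => ‖ph γ l ε r‖) ((mm γ l r ε).re * ‖ph γ l ε r‖) r := by
  have hp : 0 < ‖ph γ l ε r‖ := norm_pos_iff.2 (ph_ne h1 hl hε hr)
  have h := (rb_nsq h1 hl hε hr).sqrt (pow_pos hp 2).ne'
  simp only [Real.sqrt_sq (norm_nonneg _)] at h
  refine h.congr_deriv ?_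
  field_simp

theorem rb_mre (h1 : γ ^ 2 ≤ 1) (hl : 0 ≤ l) (hε : ε ∈ UU) {r : ℝ} (hr : 0 < r) :
    HasDerivAt (fun r => (mm γ l r ε).re)
      ((Qc γ l ε r).re - (mm γ l r ε).re ^ 2 + (mm γ l r ε).im ^ 2) r := by
  have h := reCLM.hasFDerivAt.comp_hasDerivAt r (mm_deriv h1 hl hε hr)
  refine HasDerivAt.congr_deriv h ?_
  simp only [reCLM_apply, sub_re, pow_two, mul_re]
  ring

theorem rb_cmp (h1 : γ ^ 2 ≤ 1) (hl : 0 ≤ l) (hε : ε ∈ UU) (hR : 0 < R) {u u' u'' : ℝ → ℝ}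
    (hu : ∀ r ∈ Ioc 0 R, 0 < u r ∧ HasDerivAt u (u' r) r ∧ HasDerivAt u' (u'' r) r ∧
      u'' r ≤ (Qc γ l ε r).re * u r)
    (l1 : Tendsto (fun r => u' r * r ^ (l + 1)) (𝓝[>] 0) (𝓝 0))
    (l2 : Tendsto (fun r => u r * r ^ l) (𝓝[>] 0) (𝓝 0)) :
    u' R / u R ≤ (mm γ l R ε).re := by
  have hl1 : -1 < l := by linarith
  have t1 := ((ph_lim hl1 γ ε).norm).mul l1
  have t2 := ((phD_lim hl1 γ ε).norm).mul l2
  have t3 := t2.neg.sub t1
  simp only [mul_zero, neg_zero, sub_zero] at t3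
  have key : (0 : ℝ) ≤ (mm γ l R ε).re * ‖ph γ l ε R‖ * u R - ‖ph γ l ε R‖ * u' R := by
    refine rb_ge (f := fun r => (mm γ l r ε).re * ‖ph γ l ε r‖ * u r - ‖ph γ l ε r‖ * u' r)
      (f' := fun r => ‖ph γ l ε r‖ * (((Qc γ l ε r).re * u r - u'' r)
        + (mm γ l r ε).im ^ 2 * u r)) hR (fun r hr => ⟨?_, ?_⟩) (fun r hr => ?_) t3
    · obtain ⟨-, d1, d2, -⟩ := hu r hr
      refine ((((rb_mre h1 hl hε hr.1).fun_mul (rb_norm h1 hl hε hr.1)).fun_mul d1).fun_sub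
        ((rb_norm h1 hl hε hr.1).fun_mul d2)).congr_deriv ?_
      ring
    · obtain ⟨p, -, -, q⟩ := hu r hr
      have := mul_nonneg (sq_nonneg (mm γ l r ε).im) p.le
      exact mul_nonneg (norm_nonneg _) (by linarith)
    · obtain ⟨p, -, -, -⟩ := hu r hr
      have a1 : 0 < r ^ (l + 1) := Real.rpow_pos_of_pos hr.1 _
      have a2 : 0 < r ^ l := Real.rpow_pos_of_pos hr.1 _
      have hp : 0 < ‖ph γ l ε r‖ := norm_pos_iff.2 (ph_ne h1 hl hε hr.1)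
      have e1 : ‖ph γ l ε r / ((r ^ (l + 1) : ℝ) : ℂ)‖ * (u' r * r ^ (l + 1))
          = ‖ph γ l ε r‖ * u' r := by
        rw [norm_div, Complex.norm_real, Real.norm_of_nonneg a1.le]
        field_simp
      have e2 : ‖phD γ l ε r / ((r ^ l : ℝ) : ℂ)‖ * (u r * r ^ l)
          = ‖mm γ l r ε‖ * ‖ph γ l ε r‖ * u r := by
        rw [norm_div, Complex.norm_real, Real.norm_of_nonneg a2.le, mm, norm_div]
        field_simp
      rw [e1, e2]
      have := (abs_le.1 (abs_re_le_norm (mm γ l r ε))).1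
      have := mul_le_mul_of_nonneg_right this (mul_pos hp p).le
      linarith
  have hp : 0 < ‖ph γ l ε R‖ := norm_pos_iff.2 (ph_ne h1 hl hε hR)
  rw [div_le_iff₀ (hu R ⟨hR, le_rfl⟩).1]
  refine le_of_mul_le_mul_left ?_ hp
  linarith

theorem rb_lim {f g : ℝ → ℝ} (hf : ContinuousAt f 0) (h0 : f 0 = 0) (h : ∀ r, 0 < r → f r = g r) :
    Tendsto g (𝓝[>] 0) (𝓝 0) := by
  have t := hf.tendsto
  rw [h0] at t
  exact (t.mono_left nhdsWithin_le_nhds).congr' (eventually_nhdsWithin_of_forall h)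

theorem rb_pow {q : ℝ} (hq : 0 ≤ q) : ContinuousAt (fun r : ℝ => r ^ q) 0 :=
  Real.continuousAt_rpow_const 0 q (.inr hq)

theorem rb_ge1 (h1 : γ ^ 2 ≤ 1) (hl : 0 ≤ l) (hε : ε ∈ UU) (hR : 0 < R) {c : ℝ}
    (hc : (Ec γ ε).re ≤ c * (l + 1)) (hc' : c ^ 2 ≤ -ε.re) :
    (l + 1) / R - c ≤ (mm γ l R ε).re := by
  have hl1 : 0 < l + 1 := by linarith
  have du : ∀ r : ℝ, 0 < r → HasDerivAt (fun r : ℝ => r ^ (l + 1) * Real.exp (-(c * r)))
      (((l + 1) / r - c) * (r ^ (l + 1) * Real.exp (-(c * r)))) r := fun r hr => by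
    refine ((Real.hasDerivAt_rpow_const (p := l + 1) (.inl hr.ne')).fun_mul
      ((hasDerivAt_id' r).const_mul c).fun_neg.exp).congr_deriv ?_
    rw [Real.rpow_sub_one hr.ne']
    ring
  have pu : ∀ r : ℝ, 0 < r → 0 < r ^ (l + 1) * Real.exp (-(c * r)) := fun r hr =>
    mul_pos (Real.rpow_pos_of_pos hr _) (Real.exp_pos _)
  have ce : ContinuousAt (fun r : ℝ => Real.exp (-(c * r))) 0 := by fun_prop
  have h := rb_cmp h1 hl hε hR (u := fun r => r ^ (l + 1) * Real.exp (-(c * r)))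
    (u' := fun r => ((l + 1) / r - c) * (r ^ (l + 1) * Real.exp (-(c * r))))
    (u'' := fun r => (l * (l + 1) / r ^ 2 - 2 * (c * (l + 1)) / r + c ^ 2)
      * (r ^ (l + 1) * Real.exp (-(c * r)))) (fun r hr => ⟨pu r hr.1, du r hr.1, ?_, ?_⟩) ?_ ?_
  · rwa [mul_div_assoc, div_self (pu R hR).ne', mul_one] at h
  · refine ((((hasDerivAt_const r (l + 1)).fun_div (hasDerivAt_id' r) hr.1.ne').sub_const
      c).fun_mul (du r hr.1)).congr_deriv ?_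
    have := hr.1.ne'
    field_simp
    ring
  · refine mul_le_mul_of_nonneg_right ?_ (pu r hr.1).le
    rw [Qc_re]
    have : 2 * (Ec γ ε).re / r ≤ 2 * (c * (l + 1)) / r :=
      div_le_div_of_nonneg_right (by linarith) hr.1.le
    linarith
  · refine rb_lim (f := fun r => (l + 1 - c * r) * (r ^ l * Real.exp (-(c * r))) * r ^ (l + 1))
      (((by fun_prop : ContinuousAt (fun r : ℝ => l + 1 - c * r) 0).mul
        ((rb_pow hl).mul ce)).mul (rb_pow hl1.le)) ?_ fun r hr => ?_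
    · simp [Real.zero_rpow hl1.ne']
    · have := hr.ne'
      rw [Real.rpow_add_one hr.ne']
      field_simp
  · refine rb_lim (f := fun r => r ^ (l + 1) * Real.exp (-(c * r)) * r ^ l)
      (((rb_pow hl1.le).mul ce).mul (rb_pow hl)) ?_ fun r _ => rfl
    simp [Real.zero_rpow hl1.ne']

theorem rb_quad {L x r b : ℝ} (hL : 4.5 ≤ L) (hx : x ≤ 1.01) (hr : 0 < r) (hb : b ≤ 0.8) :
    b / r + 0.16 ≤ L / r ^ 2 - 2 * x / r - -3 / 4 := by
  have e : L / r ^ 2 - 2 * x / r - -3 / 4 - (b / r + 0.16)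
      = (L - (2 * x + b) * r + 0.59 * r ^ 2) / r ^ 2 := by
    field_simp
    ring
  have : 0 ≤ (L - (2 * x + b) * r + 0.59 * r ^ 2) / r ^ 2 := by
    refine div_nonneg ?_ (sq_nonneg _)
    nlinarith [sq_nonneg (r - 2.5), mul_le_mul_of_nonneg_right (show 2 * x + b ≤ 2.82 by linarith) hr.le]
  linarith

theorem rb_ge2 (h1 : γ ^ 2 ≤ 1) (hl : 0 ≤ l) (hε : ε ∈ UU) (hR : 0 < R)
    (hL : 4.5 ≤ l * (l + 1)) (hre : ε.re = -3 / 4) (hx : (Ec γ ε).re ≤ 1.01) :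
    1 / R + 0.4 ≤ (mm γ l R ε).re := by
  have hl1 : 0 < l + 1 := by linarith
  have de : ∀ r : ℝ, HasDerivAt (fun r : ℝ => Real.exp (0.4 * r)) (Real.exp (0.4 * r) * (0.4 * 1)) r :=
    fun r => ((hasDerivAt_id' r).const_mul 0.4).exp
  have h := rb_cmp h1 hl hε hR (u := fun r => r * Real.exp (0.4 * r))
    (u' := fun r => (1 + 0.4 * r) * Real.exp (0.4 * r))
    (u'' := fun r => (0.8 / r + 0.16) * (r * Real.exp (0.4 * r)))
    (fun r hr => ⟨mul_pos hr.1 (Real.exp_pos _), ?_, ?_, ?_⟩) ?_ ?_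
  · refine le_of_eq_of_le ?_ h
    have := (Real.exp_pos (0.4 * R)).ne'
    field_simp
  · refine ((hasDerivAt_id' r).fun_mul (de r)).congr_deriv ?_
    ring
  · refine ((((hasDerivAt_id' r).const_mul 0.4).const_add 1).fun_mul (de r)).congr_deriv ?_
    have := hr.1.ne'
    field_simp
    ring
  · refine mul_le_mul_of_nonneg_right ?_ (mul_pos hr.1 (Real.exp_pos _)).le
    rw [Qc_re, hre]
    exact rb_quad hL hx hr.1 le_rfl
  · refine rb_lim (((by fun_prop : ContinuousAt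
      (fun r : ℝ => (1 + 0.4 * r) * Real.exp (0.4 * r)) 0)).mul (rb_pow hl1.le)) ?_ fun r _ => rfl
    simp [Real.zero_rpow hl1.ne']
  · refine rb_lim (((by fun_prop : ContinuousAt
      (fun r : ℝ => r * Real.exp (0.4 * r)) 0)).mul (rb_pow hl)) ?_ fun r _ => rfl
    simp

theorem rb_sq (p q : ℂ) (c : ℝ) :
    0 ≤ ‖q‖ ^ 2 + c ^ 2 * ‖p‖ ^ 2 + c * (2 * ((starRingEnd ℂ) p * q).re) := by
  simp only [Complex.sq_norm, normSq_apply, mul_re, conj_re, conj_im]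
  nlinarith [sq_nonneg (q.re + c * p.re), sq_nonneg (q.im + c * p.im)]

theorem rb_h (h1 : γ ^ 2 ≤ 1) (hl : 0 ≤ l) (hε : ε ∈ UU) (hR : 0 < R) {c : ℝ} (hc : 0 < c)
    (hQ : ∀ r, R ≤ r → c ^ 2 ≤ (Qc γ l ε r).re) :
    ((starRingEnd ℂ) (ps γ l ε R) * psD γ l ε R).re + c * ‖ps γ l ε R‖ ^ 2 ≤ 0 := by
  have S := ps_sol h1 hl hε
  by_contra hn
  have hn := not_le.1 hn
  generalize e0 : ((starRingEnd ℂ) (ps γ l ε R) * psD γ l ε R).re + c * ‖ps γ l ε R‖ ^ 2 = h0 at hn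
  have m1 : ∀ r, R ≤ r →
      h0 ≤ ((starRingEnd ℂ) (ps γ l ε r) * psD γ l ε r).re + c * ‖ps γ l ε r‖ ^ 2 := fun r hr => by
    rw [← e0]
    refine cfl_le (f := fun r => ((starRingEnd ℂ) (ps γ l ε r) * psD γ l ε r).re
      + c * ‖ps γ l ε r‖ ^ 2) hR hr
      (fun x hx => (S.energy hx).fun_add ((S.normsq hx).const_mul c)) fun x hx => ?_
    have a := rb_sq (ps γ l ε x) (psD γ l ε x) c
    have b := mul_le_mul_of_nonneg_right (hQ x hx) (sq_nonneg ‖ps γ l ε x‖)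
    linarith
  have m2 : ∀ r, R ≤ r → (‖ps γ l ε R‖ ^ 2 - h0 / c) * Real.exp (2 * c * R)
      ≤ (‖ps γ l ε r‖ ^ 2 - h0 / c) * Real.exp (2 * c * r) := fun r hr => by
    refine cfl_le (f := fun r => (‖ps γ l ε r‖ ^ 2 - h0 / c) * Real.exp (2 * c * r)) hR hr
      (fun x hx => ((S.normsq hx).sub_const _).fun_mul
        ((hasDerivAt_id' x).const_mul (2 * c)).exp) fun x hx => ?_
    have a := mul_nonneg (sub_nonneg.2 (m1 x hx)) (Real.exp_pos (2 * c * x)).le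
    have e : h0 / c * c = h0 := div_mul_cancel₀ _ hc.ne'
    have b : (‖ps γ l ε x‖ ^ 2 - h0 / c) * (Real.exp (2 * c * x) * (2 * c * 1))
        = 2 * (c * ‖ps γ l ε x‖ ^ 2 - h0 / c * c) * Real.exp (2 * c * x) := by ring
    rw [b, e]
    linarith
  generalize (‖ps γ l ε R‖ ^ 2 - h0 / c) * Real.exp (2 * c * R) = F at m2
  have hp : 0 < h0 / c := div_pos hn hc
  have I : IntegrableOn (fun r => ‖ps γ l ε r‖ ^ 2 - F * Real.exp (-(2 * c) * r)) (Ioi R) :=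
    (ps_mass h1 hl hε hR).1.sub ((exp_neg_integrableOn_Ioi R (by linarith : 0 < 2 * c)).const_mul F)
  have J : IntegrableOn (fun _ : ℝ => h0 / c) (Ioi R) := by
    refine Integrable.mono' I aestronglyMeasurable_const
      (ae_restrict_of_forall_mem measurableSet_Ioi fun r hr => ?_)
    rw [Real.norm_of_nonneg hp.le]
    have a := mul_le_mul_of_nonneg_right (m2 r (le_of_lt hr)) (Real.exp_pos (-(2 * c) * r)).le
    rw [mul_assoc, ← Real.exp_add, show 2 * c * r + -(2 * c) * r = 0 by ring, Real.exp_zero] at a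
    linarith
  rw [integrableOn_const_iff] at J
  rcases J with J | J
  · exact hp.ne' (enorm_eq_zero.1 J)
  · simp at J

theorem rb_mp (h1 : γ ^ 2 ≤ 1) (hl : 0 ≤ l) (hε : ε ∈ UU) (hR : 0 < R) {c : ℝ} (hc : 0 < c)
    (hQ : ∀ r, R ≤ r → c ^ 2 ≤ (Qc γ l ε r).re) :
    c ≤ (mp γ l R ε).re ∧ ∫ r in Ioi R, ‖ps γ l ε r‖ ^ 2 ≤ ‖ps γ l ε R‖ ^ 2 / (2 * c) := by
  have S := ps_sol h1 hl hε
  constructor
  · have h := rb_h h1 hl hε hR hc hQ
    have hp : 0 < ‖ps γ l ε R‖ ^ 2 := pow_pos (norm_pos_iff.2 (ps_ne h1 hl hε hR)) 2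
    rw [rb_re (ps_ne h1 hl hε hR)] at h
    rw [mp_eq h1 hl hε hR, neg_div, neg_re]
    refine le_of_mul_le_mul_right ?_ hp
    linarith
  · have m : ∀ r, R ≤ r → -(‖ps γ l ε R‖ ^ 2 * Real.exp (2 * c * R))
        ≤ -(‖ps γ l ε r‖ ^ 2 * Real.exp (2 * c * r)) := fun r hr => by
      refine cfl_le (f := fun r => -(‖ps γ l ε r‖ ^ 2 * Real.exp (2 * c * r))) hR hr
        (fun x hx => ((S.normsq hx).fun_mul
          ((hasDerivAt_id' x).const_mul (2 * c)).exp).fun_neg) fun x hx => ?_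
      have a := mul_nonneg (neg_nonneg.2 (rb_h h1 hl hε (hR.trans_le hx) hc
        fun t ht => hQ t (hx.trans ht))) (Real.exp_pos (2 * c * x)).le
      linarith
    have hc2 : -(2 * c) < 0 := by linarith
    have I := (integrableOn_exp_mul_Ioi hc2 R).const_mul (‖ps γ l ε R‖ ^ 2 * Real.exp (2 * c * R))
    refine (integral_mono_of_nonneg (Eventually.of_forall fun r => sq_nonneg _) I
      (ae_restrict_of_forall_mem measurableSet_Ioi fun r hr => ?_)).trans_eq ?_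
    · have a := mul_le_mul_of_nonneg_right (neg_le_neg_iff.1 (m r (le_of_lt hr)))
        (Real.exp_pos (-(2 * c) * r)).le
      rw [mul_assoc, ← Real.exp_add, show 2 * c * r + -(2 * c) * r = 0 by ring, Real.exp_zero,
        mul_one] at a
      exact a
    · rw [integral_const_mul, integral_exp_mul_Ioi hc2, neg_mul, Real.exp_neg]
      have := (Real.exp_pos (2 * c * R)).ne'
      field_simp

theorem rb_Im2 (h1 : γ ^ 2 ≤ 1) (hl : 0 ≤ l) (hε : ε ∈ UU) (hR : 0 < R)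
    (hm : ∀ r ∈ Ioc 0 R, 1 / r + 0.4 ≤ (mm γ l r ε).re) :
    Im2 γ l ε R ≤ 1.25 * (‖ph γ l ε R‖ ^ 2 / R ^ 2) := by
  have hc : ContinuousOn (fun r : ℝ => ‖ph γ l ε r‖ ^ 2 / r ^ 2) (Ioi 0) :=
    (cfl_nc hl γ ε).div (by fun_prop) fun r hr => pow_ne_zero 2 (ne_of_gt hr)
  have c0 : ContinuousOn (Im2 γ l ε) (uIcc 0 R) :=
    intervalIntegral.continuousOn_primitive_interval' (Im2_int hl γ ε hR) left_mem_uIcc
  have t : Tendsto (fun r => -Im2 γ l ε r) (𝓝[>] 0) (𝓝 0) := by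
    have a := (c0 0 left_mem_uIcc).tendsto.neg
    rw [uIcc_of_le hR.le, show Im2 γ l ε 0 = 0 by simp [Im2], neg_zero] at a
    refine a.mono_left ?_
    rw [← nhdsWithin_Ioc_eq_nhdsGT hR]
    exact nhdsWithin_mono _ Ioc_subset_Icc_self
  have key := rb_ge (f := fun r => 1.25 * (‖ph γ l ε r‖ ^ 2 / r ^ 2) - Im2 γ l ε r)
    (f' := fun r => (2.5 * ((mm γ l r ε).re - 1 / r) - 1) * (‖ph γ l ε r‖ ^ 2 / r ^ 2)) hR
    (fun r hr => ⟨?_, ?_⟩) (fun r hr => ?_) t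
  · linarith
  · have d : HasDerivAt (Im2 γ l ε) (‖ph γ l ε r‖ ^ 2 / r ^ 2) r :=
      intervalIntegral.integral_hasDerivAt_right (Im2_int hl γ ε hr.1)
        (hc.stronglyMeasurableAtFilter isOpen_Ioi r hr.1) (hc.continuousAt (Ioi_mem_nhds hr.1))
    refine ((((rb_nsq h1 hl hε hr.1).fun_div (hasDerivAt_pow 2 r)
      (pow_ne_zero 2 hr.1.ne')).const_mul 1.25).fun_sub d).congr_deriv ?_
    have := hr.1.ne'
    field_simp
    ring
  · have := hm r hr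
    exact mul_nonneg (by linarith) (by positivity)
  · have : 0 ≤ 1.25 * (‖ph γ l ε r‖ ^ 2 / r ^ 2) := by positivity
    linarith

theorem rb_JX (h1 : γ ^ 2 ≤ 1) (hl : 0 ≤ l) (hε : ε ∈ UU) (hR : 0 < R)
    (hL : 4.5 ≤ l * (l + 1)) (hre : ε.re = -3 / 4) (hx : (Ec γ ε).re ≤ 1.01) :
    JX γ l R ε ≤ 3.91 / R ^ 2 := by
  obtain ⟨p1, p2⟩ := rb_mp h1 hl hε hR (c := 0.4) (by norm_num) fun r hr => by
    have := rb_quad (b := 0) hL hx (hR.trans_le hr) (by norm_num)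
    rw [Qc_re, hre]
    rw [zero_div] at this
    linarith
  have q1 := rb_ge2 h1 hl hε hR hL hre hx
  have q2 := rb_Im2 h1 hl hε hR fun r hr => rb_ge2 h1 hl hε hr.1 hL hre hx
  have q3 : ∫ r in Ioi R, ‖ps γ l ε r‖ ^ 2 / r ^ 2 ≤ 1.25 * (‖ps γ l ε R‖ ^ 2 / R ^ 2) := by
    refine (integral_mono_of_nonneg (Eventually.of_forall fun r => by positivity)
      ((ps_mass h1 hl hε hR).1.div_const (R ^ 2))
      (ae_restrict_of_forall_mem measurableSet_Ioi fun r hr => ?_)).trans ?_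
    · exact div_le_div_of_nonneg_left (sq_nonneg _) (pow_pos hR 2)
        (pow_le_pow_left₀ hR.le (le_of_lt hr) 2)
    · rw [integral_div, ← mul_div_assoc]
      refine div_le_div_of_nonneg_right (p2.trans_eq ?_) (sq_nonneg _)
      ring
  have g1 : ‖gg γ l R ε‖ ≤ 1.25 := by
    have a := re_le_norm (mm γ l R ε + mp γ l R ε)
    have b : 0 < 1 / R := by positivity
    rw [add_re] at a
    rw [gg_inv h1 hl hε hR, norm_div, norm_one, div_le_iff₀ (by linarith)]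
    linarith
  have g2 : ‖ph γ l ε R‖ ^ 2 * ‖ps γ l ε R‖ ^ 2 ≤ 1.5625 := by
    rw [← mul_pow, ← norm_mul, ← gg_eq]
    nlinarith [norm_nonneg (gg γ l R ε)]
  have a := mul_le_mul_of_nonneg_left q2 (sq_nonneg ‖ps γ l ε R‖)
  have b := mul_le_mul_of_nonneg_left q3 (sq_nonneg ‖ph γ l ε R‖)
  have c : 2.5 * (‖ph γ l ε R‖ ^ 2 * ‖ps γ l ε R‖ ^ 2) / R ^ 2 ≤ 3.91 / R ^ 2 :=
    div_le_div_of_nonneg_right (by linarith) (sq_nonneg _)
  refine le_trans ?_ c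
  rw [JX]
  refine (add_le_add a b).trans_eq ?_
  ring

end Pool.Agent.Lib.MP_2347b2_mp.F
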