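import Pool.Agent.Lib.MP_2347b2_mp.F.WF
import Pool.Agent.Lib.MP_2347b2_mp.F.ResB

namespace Pool.Agent.Lib.MP_2347b2_mp.F

open MeasureTheory Set Filter Topology Complex

variable {γ l l' R : ℝ} {ε : ℂ}

theorem rsa_c1 {Q u u' : ℝ → ℂ} (h : Sol Q u u') : ContinuousOn u (Ioi 0) := fun x hx =>
  (h.d1 x hx).continuousAt.continuousWithinAt

theorem rsa_c2 {Q u u' : ℝ → ℂ} (h : Sol Q u u') : ContinuousOn u' (Ioi 0) := fun x hx =>
  (h.d2 x hx).continuousAt.continuousWithinAt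

theorem rsa_nonpos {Q u u' : ℝ → ℂ} (h : Sol Q u u') (hR : 0 < R)
    (hm : IntegrableOn (fun r => ‖u r‖ ^ 2) (Ioi R)) {b : ℝ} (hb : R ≤ b) (hu : u b ≠ 0) :
    ∃ t, b ≤ t ∧ ((starRingEnd ℂ) (u t) * u' t).re ≤ 0 := by
  by_contra! c
  have h2 : IntegrableOn (fun _ : ℝ => ‖u b‖ ^ 2) (Ioi b) := by
    refine Integrable.mono' (hm.mono_set (Ioi_subset_Ioi hb)) aestronglyMeasurable_const ?_
    filter_upwards [ae_restrict_mem measurableSet_Ioi] with t ht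
    rw [Real.norm_of_nonneg (sq_nonneg _)]
    exact cfl_le (hR.trans_le hb) (le_of_lt ht) (fun x hx => h.normsq hx)
      fun x hx => by linarith [c x hx]
  simp [integrableOn_const_iff, hu] at h2

theorem psD_int (h1 : γ ^ 2 ≤ 1) (hl : 0 ≤ l) (hε : ε ∈ UU) (hR : 0 < R) :
    IntegrableOn (fun r => ‖psD γ l ε r‖ ^ 2) (Ioi R) := by
  have hS := ps_sol h1 hl hε
  have hc := (rsa_c1 hS).norm.pow 2
  have hc' := (rsa_c2 hS).norm.pow 2
  have hm := (ps_mass h1 hl hε hR).1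
  obtain ⟨C, hC0, hC⟩ : ∃ C : ℝ, 0 ≤ C ∧ ∀ x, R ≤ x → -C ≤ (Qc γ l ε x).re := by
    refine ⟨2 * |(Ec γ ε).re| / R + |ε.re|, by positivity, fun x hx => ?_⟩
    have hx0 : 0 < x := by linarith
    have h2 : 0 ≤ l * (l + 1) / x ^ 2 := by positivity
    have h3 : 2 * (Ec γ ε).re / x ≤ 2 * |(Ec γ ε).re| / R := by
      gcongr
      exact le_abs_self _
    rw [Qc_re]
    linarith [le_abs_self ε.re]
  have hI : ∀ b, R ≤ b → ∫ r in R..b, ‖ps γ l ε r‖ ^ 2 ≤ ∫ r in Ioi R, ‖ps γ l ε r‖ ^ 2 :=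
    fun b hb => by
      rw [intervalIntegral.integral_of_le hb]
      exact setIntegral_mono_set hm (.of_forall fun _ => sq_nonneg _)
        Ioc_subset_Ioi_self.eventuallyLE
  refine integrableOn_Ioi_of_intervalIntegral_norm_bounded
    (C * (∫ r in Ioi R, ‖ps γ l ε r‖ ^ 2) - ((starRingEnd ℂ) (ps γ l ε R) * psD γ l ε R).re) R
    (b := fun x : ℝ => x) (l := atTop) (fun b => ?_) tendsto_id ?_
  · exact ((hc'.mono fun x hx => hR.trans_le hx.1).integrableOn_Icc (a := R) (b := b)).mono_set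
      Ioc_subset_Icc_self
  · filter_upwards [eventually_ge_atTop R] with b hb
    obtain ⟨t, ht, h0⟩ := rsa_nonpos hS hR hm hb (ps_ne h1 hl hε (hR.trans_le hb))
    have e1 := cfl_le hR (hb.trans ht) (fun x hx => ((hS.energy hx).add
      ((cfl_ftc hc hR hx).const_mul C)).sub (cfl_ftc hc' hR hx)) fun x hx => by
        have := mul_le_mul_of_nonneg_right (hC x hx) (sq_nonneg ‖ps γ l ε x‖)
        simp only [Pi.pow_apply]
        linarith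
    have e2 := cfl_le (hR.trans_le hb) ht (fun x hx => cfl_ftc hc' hR hx) fun x _ => sq_nonneg _
    have e3 := mul_le_mul_of_nonneg_left (hI t (hb.trans ht)) hC0
    simp only [Pi.add_apply, Pi.sub_apply, Pi.pow_apply, intervalIntegral.integral_same] at e1 e2
    simp only [norm_pow, norm_norm]
    linarith

theorem ps_w_int (h1 : γ ^ 2 ≤ 1) (hl : 0 ≤ l) (hε : ε ∈ UU) (hR : 0 < R) :
    IntegrableOn (fun r => ‖ps γ l ε r‖ ^ 2 / r ^ 2) (Ioi R) := by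
  have hc : ContinuousOn (fun r => ‖ps γ l ε r‖ ^ 2 / r ^ 2) (Ioi R) :=
    (((rsa_c1 (ps_sol h1 hl hε)).norm.pow 2).mono (Ioi_subset_Ioi hR.le)).div
      (continuousOn_id.pow 2) fun x hx => pow_ne_zero 2 (hR.trans hx).ne'
  refine Integrable.mono' ((ps_mass h1 hl hε hR).1.div_const (R ^ 2))
    (hc.aestronglyMeasurable measurableSet_Ioi) ?_
  filter_upwards [ae_restrict_mem measurableSet_Ioi] with t ht
  rw [Real.norm_of_nonneg (by positivity)]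
  have : R ≤ t := le_of_lt ht
  gcongr

theorem gg_im (h1 : γ ^ 2 ≤ 1) (hl : 0 ≤ l) (hε : ε ∈ UU) (hR : 0 < R) :
    (gg γ l R ε).im = -((mm γ l R ε).im + (mp γ l R ε).im) * ‖gg γ l R ε‖ ^ 2 := by
  rw [gg_inv h1 hl hε hR, one_div, inv_im, norm_inv, inv_pow, ← normSq_eq_norm_sq, add_im,
    div_eq_mul_inv]

theorem ps_Fx (h1 : γ ^ 2 ≤ 1) (hl : 0 ≤ l) (hε : ε ∈ UU) (hR : 0 < R) :
    ‖ps γ l ε R‖ ^ 2 * Fx γ l ε R = -(mm γ l R ε).im * ‖gg γ l R ε‖ ^ 2 := by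
  rw [Fx_eq h1 hl hε hR, gg_eq, norm_mul]
  ring

theorem tail_le (h1 : γ ^ 2 ≤ 1) (hl : 0 ≤ l) (hε : ε ∈ UU) (hR : 0 < R) :
    ‖ph γ l ε R‖ ^ 2 * ∫ r in Ioi R, ‖ps γ l ε r‖ ^ 2 / r ^ 2
      ≤ -(mp γ l R ε).im * ‖gg γ l R ε‖ ^ 2 / (ε.im * R ^ 2) := by
  have hi : 0 < ε.im := hε.2
  have hE := Ec_im_nonneg h1 hε.1 hi.le
  obtain ⟨hm, hf⟩ := ps_mass h1 hl hε hR
  have hc : ContinuousOn (fun r => (2 * (Ec γ ε).im / r + ε.im) * ‖ps γ l ε r‖ ^ 2) (Ioi R) :=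
    ((continuousOn_const.div continuousOn_id fun x hx => (hR.trans hx).ne').add
      continuousOn_const).mul
      (((rsa_c1 (ps_sol h1 hl hε)).norm.pow 2).mono (Ioi_subset_Ioi hR.le))
  have hw : IntegrableOn (fun r => (2 * (Ec γ ε).im / r + ε.im) * ‖ps γ l ε r‖ ^ 2) (Ioi R) := by
    refine Integrable.mono' (hm.const_mul (2 * (Ec γ ε).im / R + ε.im))
      (hc.aestronglyMeasurable measurableSet_Ioi) ?_
    filter_upwards [ae_restrict_mem measurableSet_Ioi] with t ht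
    have h2 : R ≤ t := le_of_lt ht
    have h3 : 0 < t := hR.trans ht
    rw [Real.norm_of_nonneg (by positivity)]
    gcongr
  have h2 := setIntegral_mono_on (ps_w_int h1 hl hε hR) (hw.div_const (ε.im * R ^ 2))
    measurableSet_Ioi fun t ht => by
      have h2 : R ≤ t := le_of_lt ht
      have h3 : 0 < t := hR.trans ht
      calc _ ≤ ‖ps γ l ε t‖ ^ 2 / R ^ 2 := by gcongr
        _ = ε.im * ‖ps γ l ε t‖ ^ 2 / (ε.im * R ^ 2) := by field_simp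
        _ ≤ _ := by
          gcongr
          exact wt_pos h1 hε h3
  rw [integral_div, hf] at h2
  refine (mul_le_mul_of_nonneg_left h2 (sq_nonneg _)).trans_eq ?_
  have h3 := approx_im (v := psD γ l ε R) (ps_ne h1 hl hε hR)
  rw [mp_eq h1 hl hε hR, gg_eq, norm_mul, ← neg_eq_iff_eq_neg.2 h3]
  ring

theorem JX_nonneg (γ l : ℝ) (ε : ℂ) (hR : 0 < R) : 0 ≤ JX γ l R ε := by
  exact add_nonneg (mul_nonneg (sq_nonneg _)
    (intervalIntegral.integral_nonneg hR.le fun _ _ => by positivity))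
    (mul_nonneg (sq_nonneg _) (integral_nonneg fun _ => by positivity))

theorem rsa_am (a b : ℂ) : ‖a * b‖ ≤ (‖a‖ ^ 2 + ‖b‖ ^ 2) / 2 := by
  rw [norm_mul]
  nlinarith [sq_nonneg (‖a‖ - ‖b‖)]

theorem rsa_bd (a b f g : ℂ) (r : ℝ) : ‖a * b * (f * g / r ^ 2)‖
    ≤ (‖a‖ ^ 2 * (‖f‖ ^ 2 / r ^ 2) + ‖b‖ ^ 2 * (‖g‖ ^ 2 / r ^ 2)) / 2 := by
  have h := div_le_div_of_nonneg_right (rsa_am (a * f) (b * g)) (sq_nonneg r)
  rw [show a * b * (f * g / r ^ 2) = a * f * (b * g) / r ^ 2 by ring, norm_div, norm_pow, norm_real,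
    Real.norm_eq_abs, sq_abs]
  refine h.trans_eq ?_
  rw [norm_mul, norm_mul]
  ring

theorem rsa_int {s : Set ℝ} (hs : MeasurableSet s) (h0 : s ⊆ Ioi 0) {f g : ℝ → ℂ}
    (hf : ContinuousOn f (Ioi 0)) (hg : ContinuousOn g (Ioi 0))
    (hf' : IntegrableOn (fun r => ‖f r‖ ^ 2 / r ^ 2) s)
    (hg' : IntegrableOn (fun r => ‖g r‖ ^ 2 / r ^ 2) s) :
    IntegrableOn (fun r : ℝ => f r * g r / r ^ 2) s := by
  have hc : ContinuousOn (fun r : ℝ => f r * g r / r ^ 2) (Ioi 0) :=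
    (hf.mul hg).div (continuous_ofReal.continuousOn.pow 2)
      fun x hx => pow_ne_zero 2 (ofReal_ne_zero.2 (ne_of_gt hx))
  refine Integrable.mono' ((hf'.add hg').div_const 2) ((hc.mono h0).aestronglyMeasurable hs)
    (.of_forall fun r => ?_)
  simpa using rsa_bd 1 1 (f r) (g r) r

theorem rsa_int2 (hR : 0 < R) {f g : ℝ → ℂ}
    (hf : ContinuousOn f (Ioi 0)) (hg : ContinuousOn g (Ioi 0))
    (hf' : IntegrableOn (fun r => ‖f r‖ ^ 2) (Ioi R))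
    (hg' : IntegrableOn (fun r => ‖g r‖ ^ 2) (Ioi R)) :
    IntegrableOn (fun r : ℝ => f r * g r) (Ioi R) :=
  Integrable.mono' ((hf'.add hg').div_const 2)
    (((hf.mul hg).mono (Ioi_subset_Ioi hR.le)).aestronglyMeasurable measurableSet_Ioi)
    (.of_forall fun r => rsa_am (f r) (g r))

theorem rsa_wr {u u' v v' : ℝ → ℂ} (h : Sol (Qc γ l ε) u u') (g : Sol (Qc γ l' ε) v v') {r : ℝ}
    (hr : 0 < r) : HasDerivAt (fun r => u' r * v r - u r * v' r)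
      (-((l' * (l' + 1) - l * (l + 1) : ℝ) : ℂ) * (u r * v r / r ^ 2)) r := by
  refine (h.wronskian g hr).congr_deriv ?_
  rw [Qc, Qc]
  push_cast
  ring

theorem rsa_lim (hl : 0 ≤ l) (hl' : 0 ≤ l') (γ : ℝ) (ε : ℂ) :
    Tendsto (fun r => phD γ l ε r * ph γ l' ε r) (𝓝[>] 0) (𝓝 0) := by
  have h3 : Tendsto (fun r : ℝ => ((r ^ (l + (l' + 1)) : ℝ) : ℂ)) (𝓝[>] 0) (𝓝 0) := by
    have := (continuous_ofReal.comp
      (Real.continuous_rpow_const (q := l + (l' + 1)) (by linarith))).tendsto 0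
    rw [Function.comp_apply, Real.zero_rpow (by linarith), ofReal_zero] at this
    exact this.mono_left nhdsWithin_le_nhds
  have h4 := ((phD_lim (show -1 < l by linarith) γ ε).mul
    (ph_lim (show -1 < l' by linarith) γ ε)).mul h3
  rw [mul_zero] at h4
  refine h4.congr' ?_
  filter_upwards [self_mem_nhdsWithin] with r hr
  have ha : ((r ^ (l' + 1) : ℝ) : ℂ) ≠ 0 := ofReal_ne_zero.2 (Real.rpow_pos_of_pos hr _).ne'
  have hb : ((r ^ l : ℝ) : ℂ) ≠ 0 := ofReal_ne_zero.2 (Real.rpow_pos_of_pos hr _).ne'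
  rw [Real.rpow_add hr l (l' + 1), ofReal_mul]
  field_simp

/-- the resolvent identity -/
theorem res_eq (h1 : γ ^ 2 ≤ 1) (hl : 0 ≤ l) (hl' : 0 ≤ l') (hε : ε ∈ UU) (hR : 0 < R) :
    gg γ l R ε - gg γ l' R ε = (l' * (l' + 1) - l * (l + 1) : ℝ) *
      (ps γ l ε R * ps γ l' ε R * (∫ r in (0 : ℝ)..R, ph γ l ε r * ph γ l' ε r / r ^ 2)
        + ph γ l ε R * ph γ l' ε R * ∫ r in Ioi R, ps γ l ε r * ps γ l' ε r / r ^ 2) := by
  have hp := ph_sol (show -1 < l by linarith) γ ε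
  have hp' := ph_sol (show -1 < l' by linarith) γ ε
  have hs := ps_sol h1 hl hε
  have hs' := ps_sol h1 hl' hε
  have hsub : Ioi R ⊆ Ioi 0 := Ioi_subset_Ioi hR.le
  have i1 := rsa_int (s := Ioc 0 R) measurableSet_Ioc Ioc_subset_Ioi_self (rsa_c1 hp) (rsa_c1 hp')
    (Im2_int hl γ ε hR).1 (Im2_int hl' γ ε hR).1
  have i2 := rsa_int measurableSet_Ioi hsub (rsa_c1 hs) (rsa_c1 hs')
    (ps_w_int h1 hl hε hR) (ps_w_int h1 hl' hε hR)
  have e1 := intervalIntegral.integral_eq_sub_of_hasDerivAt_of_tendsto hR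
    (fun x hx => rsa_wr hp hp' hx.1)
    (((intervalIntegrable_iff_integrableOn_Ioc_of_le hR.le).2 i1).const_mul _)
    (by simpa using (rsa_lim hl hl' γ ε).sub ((rsa_lim hl' hl γ ε).congr fun _ => mul_comm _ _))
    ((rsa_wr hp hp' hR).continuousAt.tendsto.mono_left nhdsWithin_le_nhds)
  have e2 := integral_Ioi_of_hasDerivAt_of_tendsto' (fun x hx => rsa_wr hs hs' (hR.trans_le hx))
    (i2.const_mul _) (tendsto_zero_of_hasDerivAt_of_integrableOn_Ioi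
      (fun x hx => rsa_wr hs hs' (hR.trans hx)) (i2.const_mul _)
      ((rsa_int2 hR (rsa_c2 hs) (rsa_c1 hs') (psD_int h1 hl hε hR) (ps_mass h1 hl' hε hR).1).sub
        (rsa_int2 hR (rsa_c1 hs) (rsa_c2 hs') (ps_mass h1 hl hε hR).1 (psD_int h1 hl' hε hR))))
  rw [intervalIntegral.integral_const_mul] at e1
  rw [integral_const_mul] at e2
  rw [gg_eq, gg_eq]
  linear_combination ps γ l ε R * ps γ l' ε R * e1 + ph γ l ε R * ph γ l' ε R * e2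
    + ph γ l' ε R * ps γ l' ε R * ps_wr h1 hl hε hR - ph γ l ε R * ps γ l ε R * ps_wr h1 hl' hε hR

theorem rsa_le (a b : ℂ) {s : Set ℝ} {f g : ℝ → ℂ}
    (hf : IntegrableOn (fun r => ‖f r‖ ^ 2 / r ^ 2) s)
    (hg : IntegrableOn (fun r => ‖g r‖ ^ 2 / r ^ 2) s) :
    ‖a * b * ∫ r in s, f r * g r / r ^ 2‖ ≤ (‖a‖ ^ 2 * (∫ r in s, ‖f r‖ ^ 2 / r ^ 2)
      + ‖b‖ ^ 2 * ∫ r in s, ‖g r‖ ^ 2 / r ^ 2) / 2 := by
  rw [← integral_const_mul, ← integral_const_mul, ← integral_const_mul,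
    ← integral_add (hf.const_mul _) (hg.const_mul _), ← integral_div]
  exact norm_integral_le_of_norm_le (((hf.const_mul _).add (hg.const_mul _)).div_const 2)
    (.of_forall fun r => rsa_bd a b (f r) (g r) r)

theorem res_le (h1 : γ ^ 2 ≤ 1) (hl : 0 ≤ l) (hl' : 0 ≤ l') (hε : ε ∈ UU) (hR : 0 < R) :
    ‖gg γ l R ε - gg γ l' R ε‖
      ≤ |l' * (l' + 1) - l * (l + 1)| * ((JX γ l R ε + JX γ l' R ε) / 2) := by
  have b1 := rsa_le (ps γ l ε R) (ps γ l' ε R) (Im2_int hl γ ε hR).1 (Im2_int hl' γ ε hR).1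
  have b2 := rsa_le (ph γ l ε R) (ph γ l' ε R) (ps_w_int h1 hl hε hR) (ps_w_int h1 hl' hε hR)
  rw [res_eq h1 hl hl' hε hR, norm_mul, norm_real, Real.norm_eq_abs, JX, JX, Im2, Im2]
  simp only [intervalIntegral.integral_of_le hR.le]
  refine mul_le_mul_of_nonneg_left ((norm_add_le _ _).trans ?_) (abs_nonneg _)
  linarith

/-- comparison for the real part of the logarithmic derivative -/
theorem mm_re_cmp (h1 : γ ^ 2 ≤ 1) (hl : 0 ≤ l) (hε : ε ∈ UU) (hR : 0 < R) {u u' u'' : ℝ → ℝ}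
    (hu : ∀ r ∈ Ioc 0 R, 0 < u r ∧ HasDerivAt u (u' r) r ∧ HasDerivAt u' (u'' r) r ∧
      u'' r ≤ (Qc γ l ε r).re * u r)
    (l1 : Tendsto (fun r => u' r * r ^ (l + 1)) (𝓝[>] 0) (𝓝 0))
    (l2 : Tendsto (fun r => u r * r ^ l) (𝓝[>] 0) (𝓝 0)) :
    u' R / u R ≤ (mm γ l R ε).re := by
  exact rb_cmp h1 hl hε hR hu l1 l2

theorem mm_re_ge (h1 : γ ^ 2 ≤ 1) (hl : 0 ≤ l) (hε : ε ∈ UU) (hR : 0 < R) {c : ℝ}
    (hc : (Ec γ ε).re ≤ c * (l + 1)) (hc' : c ^ 2 ≤ -ε.re) :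
    (l + 1) / R - c ≤ (mm γ l R ε).re := by
  exact rb_ge1 h1 hl hε hR hc hc'

theorem mm_re_ge' (h1 : γ ^ 2 ≤ 1) (hl : 0 ≤ l) (hε : ε ∈ UU) (hR : 0 < R)
    (hL : 4.5 ≤ l * (l + 1)) (hre : ε.re = -3 / 4) (hx : (Ec γ ε).re ≤ 1.01) :
    1 / R + 0.4 ≤ (mm γ l R ε).re := by
  exact rb_ge2 h1 hl hε hR hL hre hx

theorem mp_re_ge (h1 : γ ^ 2 ≤ 1) (hl : 0 ≤ l) (hε : ε ∈ UU) (hR : 0 < R) {c : ℝ} (hc : 0 < c)
    (hQ : ∀ r, R ≤ r → c ^ 2 ≤ (Qc γ l ε r).re) :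
    c ≤ (mp γ l R ε).re ∧ ∫ r in Ioi R, ‖ps γ l ε r‖ ^ 2 ≤ ‖ps γ l ε R‖ ^ 2 / (2 * c) := by
  exact rb_mp h1 hl hε hR hc hQ

theorem JX_left (h1 : γ ^ 2 ≤ 1) (hl : 0 ≤ l) (hε : ε ∈ UU) (hR : 0 < R)
    (hL : 4.5 ≤ l * (l + 1)) (hre : ε.re = -3 / 4) (hx : (Ec γ ε).re ≤ 1.01) :
    JX γ l R ε ≤ 3.91 / R ^ 2 := by
  exact rb_JX h1 hl hε hR hL hre hx

end Pool.Agent.Lib.MP_2347b2_mp.F
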