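import Pool.Agent.Lib.MP_2347b2_mp.F.VLem
import Pool.Agent.Lib.MP_2347b2_mp.F.Res
import Pool.Agent.Lib.MP_2347b2_mp.F.Mul
import Pool.Agent.Lib.MP_2347b2_mp.F.DampA

namespace Pool.Agent.Lib.MP_2347b2_mp.F

open MeasureTheory Set Filter Topology Complex

/-- the damping between `R / 2` and `R` -/
noncomputable def dampI (γ l R θ : ℝ) : ℝ := ∫ r in (R / 2)..R, 2 * (ww γ l (θ * I) r).re / √r

/-- bound for the reflection coefficient of the regular solution -/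
noncomputable def rmB (R t θ : ℝ) : ℝ := (1 + 0.92 * t)
  * (Real.exp (-((0.375 * √R - 0.92 - 1.04 * t) * (θ * R / 2))) + ((0.28 + 0.25 * t) / √R + t / 4))

/-- bound for the far part -/
noncomputable def farB (R t L θ : ℝ) : ℝ := 1.25 * (1.15 + 1.8 * t + 10 * t ^ 2) * √R / √L
  * (if θ ≤ 2 / R then Real.exp (-((√R / 2 - 1.52 - 1.87 * t) * (θ * R / 2)))
    else 5 * Real.exp (-(0.375 * (√R - 2 - 1.66 * t) * (θ * R / 2))))

variable {γ l R U θ : ℝ}

theorem damp_lo (h1 : γ ^ 2 ≤ 1) (hl : 0 ≤ l) (hR : 100 ≤ R) (hθ : 0 < θ) (hθ' : θ ≤ 2 / R) :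
    √R / 2 * (θ * R / 2) ≤ dampI γ l R θ := by
  exact da_lo h1 hl hR hθ hθ'

theorem damp_hi (h1 : γ ^ 2 ≤ 1) (hl : 0 ≤ l) (hR : 100 ≤ R) (hθ : 0 < θ) (hθ' : θ ≤ 8 / R) :
    0.375 * √R * (θ * R / 2) ≤ dampI γ l R θ := by
  exact da_hi h1 hl hR hθ hθ'

theorem rm1_half (h1 : γ ^ 2 ≤ 1) (hl : 0 ≤ l) (hR : 100 ≤ R) (hb : bb l ≤ U) (hU : U ≤ R / 2)
    (hθ : 0 < θ) : ‖rm1 γ l (R / 2) (θ * I)‖ ≤ 1 + (0.52 + 1.04 * (U / R)) * (θ * R / 2) := by
  exact da_half h1 hl hR hb hU hθ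

/-- the coupling coefficient -/
theorem coup_le (h1 : γ ^ 2 ≤ 1) (hl : 0 ≤ l) (hb : bb l ≤ U) (hU : U ≤ R / 2) (hθ : 0 < θ)
    {r : ℝ} (hr : R / 2 ≤ r) :
    ‖(-(bb l / r ^ 2 : ℝ) - θ * I) / (4 * wq γ l (θ * I) r)‖ ≤ U / (4 * r * (2 * r - U))
      + 1 / (4 * √(R - U)) * (2 * (ww γ l (θ * I) r).re / √r) := by
  exact da_coup h1 hl hb hU hθ hr

theorem rm1_le (h1 : γ ^ 2 ≤ 1) (hl : 0 ≤ l) (hR : 100 ≤ R) (hb : bb l ≤ U) (hU : U ≤ R / 2)
    (hθ : 0 < θ) (hθ' : θ ≤ 8 / R) : ‖rm1 γ l R (θ * I)‖ ≤ rmB R (U / R) θ := by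
  exact da_rm1 h1 hl hR hb hU hθ hθ'

theorem rmB_int {t : ℝ} (hR : 100 ≤ R) (ht : 0 ≤ t) (ht' : t ≤ 1 / 2) :
    IntervalIntegrable (rmB R t) volume 0 (8 / R) ∧
    ∫ θ in (0 : ℝ)..(8 / R), rmB R t θ ≤ 2 / R * ((1 + 0.92 * t)
      * (1 / (0.375 * √R - 0.92 - 1.04 * t) + 4 * ((0.28 + 0.25 * t) / √R + t / 4))) := by
  have hs : 10 ≤ √R := Real.le_sqrt_of_sq_le (by linarith)
  exact da_exp (by linarith) (by linarith) (by positivity)

theorem db_exp {t : ℝ} (ht : 0 ≤ t) (ht' : t ≤ 1 / 2) :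
    Real.exp (t / (1 - t)) ≤ 1 + t + 5 * t ^ 2 := by
  have h1 : t / (1 - t) ≤ t + 2 * t ^ 2 := by
    rw [div_le_iff₀ (by linarith)]
    nlinarith [mul_nonneg (sq_nonneg t) (show 0 ≤ 1 - 2 * t by linarith)]
  have h2 : t + 2 * t ^ 2 ≤ 2 * t := by nlinarith
  have h0 : 0 ≤ t + 2 * t ^ 2 := by positivity
  have h3 := Real.exp_bound' h0 (by linarith) (n := 2) (by norm_num)
  simp only [Finset.sum_range_succ, Finset.range_zero, Finset.sum_empty, Nat.factorial] at h3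
  norm_num at h3
  have h4 : (t + 2 * t ^ 2) ^ 2 ≤ (2 * t) ^ 2 := pow_le_pow_left₀ h0 h2 2
  have h5 := Real.exp_le_exp.2 h1
  nlinarith

theorem db_const {t V : ℝ} (ht : 0 ≤ t) (ht' : t ≤ 1 / 2) (hV : 1 ≤ V)
    (hV' : V ≤ 1.05 + 0.31 * t) :
    1.22 * (1 + V * (V - 1)) ^ 2 * Real.exp (t / (1 - t))
      ≤ 1.25 * (1.15 + 1.8 * t + 10 * t ^ 2) := by
  have h1 : V * (V - 1) ≤ (1.05 + 0.31 * t) * (0.05 + 0.31 * t) :=
    mul_le_mul hV' (by linarith) (by linarith) (by linarith)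
  have h2 : 1 + V * (V - 1) ≤ 1.0525 + 0.39 * t := by nlinarith
  have h3 : 0 ≤ 1 + V * (V - 1) := by nlinarith
  have h4 : (1 + V * (V - 1)) ^ 2 ≤ 1.108 + 0.9 * t := by
    have := pow_le_pow_left₀ h3 h2 2
    nlinarith
  have h5 : (1 + V * (V - 1)) ^ 2 * Real.exp (t / (1 - t))
      ≤ (1.108 + 0.9 * t) * (1 + t + 5 * t ^ 2) :=
    mul_le_mul h4 (db_exp ht ht') (Real.exp_pos _).le (by linarith)
  nlinarith [mul_nonneg (sq_nonneg t) (show 0 ≤ 1 - 2 * t by linarith), sq_nonneg (t - 0.05)]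

theorem db_e1 (hR : 100 ≤ R) (hU0 : 0 ≤ U) (hU : U ≤ R / 2) :
    √R - 2 - 1.66 * (U / R) ≤ (1 - 8 * (1 / (4 * √(R - U)))) * √R := by
  have hR0 : 0 < R := by linarith
  have ht : 0 ≤ U / R := div_nonneg hU0 hR0.le
  have ht' : U / R ≤ 1 / 2 := by rw [div_le_iff₀ hR0]; linarith
  have hU' : U = U / R * R := by field_simp
  generalize U / R = t at ht ht' hU'
  have hq : 0 < √(R - U) := Real.sqrt_pos.2 (by linarith)
  have h1 : √R ≤ (1 + 0.83 * t) * √(R - U) := by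
    refine le_of_sq_le_sq ?_ (by positivity)
    rw [mul_pow, Real.sq_sqrt hR0.le, Real.sq_sqrt (by linarith), hU']
    have : 1 ≤ (1 + 0.83 * t) ^ 2 * (1 - t) := by
      nlinarith [mul_nonneg ht (show 0 ≤ 1 - 2 * t by linarith),
        mul_nonneg (sq_nonneg t) (show 0 ≤ 1 - 2 * t by linarith)]
    nlinarith
  have h2 : 8 * (1 / (4 * √(R - U))) * √R ≤ 2 + 1.66 * t := by
    rw [show 8 * (1 / (4 * √(R - U))) * √R = 2 * √R / √(R - U) by field_simp; ring,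
      div_le_iff₀ hq]
    linarith
  linarith

/-- growth of the amplitude between `R / 2` and `R` -/
theorem db_grow (h1 : γ ^ 2 ≤ 1) (hl : 0 ≤ l) (hR : 100 ≤ R) (hb : bb l ≤ U) (hU : U ≤ R / 2)
    (hθ : 0 < θ) :
    ‖(ww γ l (θ * I) (R / 2) + nm γ l (R / 2) (θ * I)) * yy γ l (θ * I) (R / 2)‖ ^ 2
      * Real.exp ((1 - 8 * (1 / (4 * √(R - U)))) * dampI γ l R θ - U / R / (1 - U / R))
      ≤ ‖(ww γ l (θ * I) R + nm γ l R (θ * I)) * yy γ l (θ * I) R‖ ^ 2 := by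
  have hε := vb_UU hθ
  have hR0 : 0 < R := by linarith
  have hU0 : 0 < U := (vb_bb hl).trans_le hb
  have hRU : 0 < R - U := by linarith
  obtain ⟨e, he⟩ : ∃ e, e = 1 / (4 * √(R - U)) := ⟨_, rfl⟩
  obtain ⟨c, hc⟩ : ∃ c, c = U * R / (2 * (R - U)) := ⟨_, rfl⟩
  have hcont : ContinuousOn (fun r : ℝ => 2 * (ww γ l (θ * I) r).re / √r) (Ioi 0) := by
    refine ContinuousOn.div (continuousOn_const.mul (continuous_re.comp_continuousOn
      fun r hr => (ww_deriv h1 hε hr).continuousAt.continuousWithinAt))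
      Real.continuous_sqrt.continuousOn fun r hr => (Real.sqrt_pos.2 hr).ne'
  have key := grow (a := R / 2) (b := R)
    (α := fun r => (ww γ l (θ * I) r + nm γ l r (θ * I)) * yy γ l (θ * I) r)
    (G := fun r => (1 - 8 * e) / 2 * (∫ x in (R / 2)..r, 2 * (ww γ l (θ * I) x).re / √x) + c * r⁻¹)
    (G' := fun r => (1 - 8 * e) / 2 * (2 * (ww γ l (θ * I) r).re / √r) + c * -(r ^ 2)⁻¹)
    (by linarith) (fun r hr => al1_deriv h1 hl hε (by linarith [hr.1]))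
    (fun r hr => ((cfl_ftc hcont (by linarith) (by linarith [hr.1])).const_mul _).add
      ((hasDerivAt_inv (show r ≠ 0 by linarith [hr.1])).const_mul c))
    (fun r hr => by
      have hr0 : 0 < r := by linarith [hr.1]
      rw [rho_re]
      refine mul_le_mul_of_nonneg_right ?_ (sq_nonneg _)
      have k1 := coup_le (γ := γ) h1 hl hb hU hθ hr.1
      have k2 := rm1_three (γ := γ) h1 hl hθ (r := r) (by linarith [hr.1])
      rw [← he] at k1
      generalize (-(bb l / r ^ 2 : ℝ) - θ * I) / (4 * wq γ l (θ * I) r) = κ at k1 ⊢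
      have k3 : ‖1 + rm1 γ l r (θ * I)‖ ≤ 4 := by
        have := norm_add_le 1 (rm1 γ l r (θ * I))
        rw [norm_one] at this
        linarith
      have k4 : -(‖κ‖ * 4) ≤ (κ * (1 + rm1 γ l r (θ * I))).re := by
        have a1 := (abs_le.1 (abs_re_le_norm (κ * (1 + rm1 γ l r (θ * I))))).1
        rw [norm_mul] at a1
        linarith [mul_le_mul_of_nonneg_left k3 (norm_nonneg κ)]
      have k5 : U / (4 * r * (2 * r - U)) * 4 ≤ c * (r ^ 2)⁻¹ := by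
        have b1 : 0 < 2 * r - U := by linarith [hr.1]
        rw [hc, show U / (4 * r * (2 * r - U)) * 4 = U / (r * (2 * r - U)) by field_simp,
          show U * R / (2 * (R - U)) * (r ^ 2)⁻¹ = U * R / (2 * (R - U) * r ^ 2) by field_simp,
          div_le_div_iff₀ (by positivity) (by positivity)]
        have b2 : 0 ≤ U * r * (U * (2 * r - R)) := by
          have : 0 ≤ 2 * r - R := by linarith [hr.1]
          positivity
        nlinarith
      rw [add_re, re_ofReal_mul]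
      have k6 : 1 / √r * (ww γ l (θ * I) r).re = 2 * (ww γ l (θ * I) r).re / √r / 2 := by ring
      rw [k6]
      generalize 2 * (ww γ l (θ * I) r).re / √r = d at k1 ⊢
      nlinarith)
  rw [← he]
  have e2 : 2 * ((1 - 8 * e) / 2 * (∫ x in (R / 2)..R, 2 * (ww γ l (θ * I) x).re / √x) + c * R⁻¹
      - ((1 - 8 * e) / 2 * (∫ x in (R / 2)..(R / 2), 2 * (ww γ l (θ * I) x).re / √x)
        + c * (R / 2)⁻¹)) = (1 - 8 * e) * dampI γ l R θ - U / R / (1 - U / R) := by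
    rw [intervalIntegral.integral_same, dampI, hc]
    have : 1 - U / R = (R - U) / R := by field_simp
    rw [this]
    field_simp
    ring
  rw [e2] at key
  exact key

theorem far_le (h1 : γ ^ 2 ≤ 1) (hl : 0 ≤ l) (hR : 100 ≤ R) (hb : bb l ≤ U) (hU : U ≤ R / 2)
    {L : ℝ} (hL : 4.5 ≤ L) (hLl : L ≤ l * (l + 1)) (hθ : 0 < θ) (hθ' : θ ≤ 8 / R) :
    ‖ps γ l (θ * I) R‖ ^ 2 * Im2 γ l (θ * I) (R / 2) ≤ farB R (U / R) L θ := by
  have hε := vb_UU hθ
  have hR0 : 0 < R := by linarith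
  have hU0 : 0 < U := (vb_bb hl).trans_le hb
  have ht : 0 ≤ U / R := div_nonneg hU0.le hR0.le
  have ht' : U / R ≤ 1 / 2 := by rw [div_le_iff₀ hR0]; linarith
  have hs : 10 ≤ √R := Real.le_sqrt_of_sq_le (by linarith)
  have hθ8 : θ ≤ 0.08 := hθ'.trans (by rw [div_le_iff₀ hR0]; linarith)
  have hB : 1 / 4 < 2 * R - U := by linarith
  have hBb : 2 * R - U ≤ 2 * R - bb l := by linarith
  have g1 := db_grow h1 hl hR hb hU hθ
  have g2 := mul1 h1 hl hθ hθ8 (hL.trans hLl) (r := R / 2) (by linarith)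
  have g3 := rf_sq (wf_wn h1 hl hε (r := R / 2) (by linarith))
  have g4 := ratio_right h1 hl hθ hB hBb
  have g5 := one_lt_VV (R := R) hB (by linarith)
  have g6 : VV R (2 * R - U) ≤ 1.05 + 0.31 * (U / R) := by
    have a := VV_le hR hU0.le hU
    have b : 0.5 / √R ≤ 0.05 := by rw [div_le_iff₀ (by linarith)]; linarith
    linarith
  have g7 := db_const ht ht' g5.le g6
  have g8 := db_e1 hR hU0.le hU
  obtain ⟨g9, gn, gp⟩ := gg_n h1 hl hε hR0
  have g10 := yy_sq γ l (θ * I) hR0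
  have hnp : nm γ l R (θ * I) + np γ l R (θ * I) ≠ 0 := wf_ne (by rw [add_im]; linarith)
  have g11 : √R * ‖yy γ l (θ * I) R‖ ^ 2 * ‖ps γ l (θ * I) R‖ ^ 2
      * ‖nm γ l R (θ * I) + np γ l R (θ * I)‖ ^ 2 = √R ^ 2 := by
    have a : ph γ l (θ * I) R * ps γ l (θ * I) R * (nm γ l R (θ * I) + np γ l R (θ * I))
        = (√R : ℝ) := by rw [← gg_eq, g9, div_mul_cancel₀ _ hnp]
    have b := congrArg (fun z : ℂ => ‖z‖ ^ 2) a
    simp only [norm_mul, mul_pow, norm_real, Real.norm_of_nonneg (Real.sqrt_nonneg R)] at b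
    rw [← g10, b]
  have hN : 0 < ‖nm γ l R (θ * I) + np γ l R (θ * I)‖ := norm_pos_iff.2 hnp
  -- the last factor
  have g12 : (1 + ‖rm1 γ l (R / 2) (θ * I)‖ ^ 2) / 2
      ≤ (if θ ≤ 2 / R then Real.exp (-((√R / 2 - 1.52 - 1.87 * (U / R)) * (θ * R / 2)))
        else 5 * Real.exp (-(0.375 * (√R - 2 - 1.66 * (U / R)) * (θ * R / 2))))
        * Real.exp ((1 - 8 * (1 / (4 * √(R - U)))) * dampI γ l R θ) := by
    have hz : 0 ≤ θ * R / 2 := by positivity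
    have he : 0 ≤ 1 - 8 * (1 / (4 * √(R - U))) := by
      by_contra h
      nlinarith
    generalize 1 - 8 * (1 / (4 * √(R - U))) = e at he g8
    split_ifs with hc
    · have a := rm1_half h1 hl hR hb hU hθ
      have b := mul_le_mul_of_nonneg_left (damp_lo (γ := γ) h1 hl hR hθ hc) he
      have c := mul_le_mul_of_nonneg_right g8 hz
      have hx : 0 ≤ (0.52 + 1.04 * (U / R)) * (θ * R / 2) := by positivity
      have d : (0.52 + 1.04 * (U / R)) * (θ * R / 2)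
          ≤ -((√R / 2 - 1.52 - 1.87 * (U / R)) * (θ * R / 2)) + e * dampI γ l R θ := by
        linarith
      rw [← Real.exp_add]
      refine le_trans ?_ (Real.exp_le_exp.2 d)
      generalize (0.52 + 1.04 * (U / R)) * (θ * R / 2) = x at a hx
      have f := Real.quadratic_le_exp_of_nonneg hx
      have g := pow_le_pow_left₀ (norm_nonneg _) a 2
      linarith [show (1 + x) ^ 2 = 1 + 2 * x + x ^ 2 by ring]
    · have a := rm1_three (γ := γ) h1 hl hθ (r := R / 2) (by linarith)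
      have b := mul_le_mul_of_nonneg_left (damp_hi (γ := γ) h1 hl hR hθ hθ') he
      have c := mul_le_mul_of_nonneg_right g8 hz
      have d : 0 ≤ -(0.375 * (√R - 2 - 1.66 * (U / R)) * (θ * R / 2)) + e * dampI γ l R θ := by
        linarith
      rw [mul_assoc, ← Real.exp_add]
      have f := Real.one_le_exp d
      have g := pow_le_pow_left₀ (norm_nonneg _) a 2
      linarith
  rw [farB]
  have hF : 0 ≤ (if θ ≤ 2 / R then Real.exp (-((√R / 2 - 1.52 - 1.87 * (U / R)) * (θ * R / 2)))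
      else 5 * Real.exp (-(0.375 * (√R - 2 - 1.66 * (U / R)) * (θ * R / 2)))) := by
    split_ifs <;> positivity
  generalize (if θ ≤ 2 / R then Real.exp (-((√R / 2 - 1.52 - 1.87 * (U / R)) * (θ * R / 2)))
      else 5 * Real.exp (-(0.375 * (√R - 2 - 1.66 * (U / R)) * (θ * R / 2)))) = F at g12 hF ⊢
  rw [Real.exp_sub, norm_mul, norm_mul, mul_pow, mul_pow] at g1
  have hE1 := Real.exp_pos ((1 - 8 * (1 / (4 * √(R - U)))) * dampI γ l R θ)
  have hE2 := Real.exp_pos (U / R / (1 - U / R))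
  generalize Real.exp ((1 - 8 * (1 / (4 * √(R - U)))) * dampI γ l R θ) = E1 at g1 g12 hE1
  generalize Real.exp (U / R / (1 - U / R)) = E2 at g1 g7 hE2
  change _ = _ * (1 + ‖rm1 γ l (R / 2) (θ * I)‖ ^ 2) at g3
  have hsL : 0 < √L := Real.sqrt_pos.2 (by linarith)
  have g13 : 1.22 / √(l * (l + 1)) ≤ 1.22 / √L :=
    div_le_div_of_nonneg_left (by norm_num) hsL (Real.sqrt_le_sqrt hLl)
  have g14 := pow_le_pow_left₀ (norm_nonneg _) g4 2
  rw [mul_pow] at g14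
  generalize (1 + VV R (2 * R - U) * (VV R (2 * R - U) - 1)) ^ 2 = W at g14 g7
  generalize 1.25 * (1.15 + 1.8 * (U / R) + 10 * (U / R) ^ 2) = P at g7 ⊢
  have hA := sq_nonneg ‖ww γ l (θ * I) (R / 2) + nm γ l (R / 2) (θ * I)‖
  have hY := sq_nonneg ‖yy γ l (θ * I) (R / 2)‖
  have hY' := sq_nonneg ‖yy γ l (θ * I) R‖
  have hS := sq_nonneg ‖ps γ l (θ * I) R‖
  have hN2 := pow_pos hN 2
  have hnw : 0 ≤ ‖nm γ l (R / 2) (θ * I)‖ ^ 2 + ‖ww γ l (θ * I) (R / 2)‖ ^ 2 := by positivity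
  have g15 : ‖nm γ l (R / 2) (θ * I)‖ ^ 2 + ‖ww γ l (θ * I) (R / 2)‖ ^ 2
      ≤ ‖ww γ l (θ * I) (R / 2) + nm γ l (R / 2) (θ * I)‖ ^ 2 * (F * E1) := by
    linarith [mul_le_mul_of_nonneg_left g12 hA]
  generalize ‖nm γ l (R / 2) (θ * I)‖ ^ 2 + ‖ww γ l (θ * I) (R / 2)‖ ^ 2 = Q at g2 g15 hnw
  generalize ‖ww γ l (θ * I) (R / 2) + nm γ l (R / 2) (θ * I)‖ ^ 2 = A at g1 g15 hA
  generalize ‖yy γ l (θ * I) (R / 2)‖ ^ 2 = Y at g1 g2 hY
  generalize ‖yy γ l (θ * I) R‖ ^ 2 = Y' at g1 g11 hY'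
  generalize ‖ps γ l (θ * I) R‖ ^ 2 = S at g11 hS ⊢
  generalize ‖nm γ l R (θ * I) + np γ l R (θ * I)‖ ^ 2 = N at g11 g14 hN2
  generalize ‖ww γ l (θ * I) R + nm γ l R (θ * I)‖ ^ 2 = A' at g1 g14
  have hs0 : 0 < √R := by linarith
  have k1 : Y' * S * N = √R := by
    apply mul_left_cancel₀ hs0.ne'
    linarith [show √R * (Y' * S * N) = √R * Y' * S * N by ring, show √R * √R = √R ^ 2 by ring]
  have k2 : A * Y * E1 ≤ W * N * Y' * E2 := by
    rw [← mul_div_assoc, div_le_iff₀ hE2] at g1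
    exact g1.trans (mul_le_mul_of_nonneg_right (mul_le_mul_of_nonneg_right g14 hY') hE2.le)
  have k3 : Q * Y ≤ F * (W * N * Y' * E2) :=
    (mul_le_mul_of_nonneg_right g15 hY).trans (by
      linarith [mul_le_mul_of_nonneg_left k2 hF, show A * (F * E1) * Y = F * (A * Y * E1) by ring])
  have k4 : Im2 γ l (θ * I) (R / 2) ≤ 1.22 / √L * (F * (W * N * Y' * E2)) := by
    refine g2.trans ?_
    rw [mul_assoc]
    exact mul_le_mul g13 k3 (mul_nonneg hnw hY) (by positivity)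
  calc S * Im2 γ l (θ * I) (R / 2) ≤ S * (1.22 / √L * (F * (W * N * Y' * E2))) :=
        mul_le_mul_of_nonneg_left k4 hS
    _ = 1.22 * W * E2 * (Y' * S * N) / √L * F := by ring
    _ ≤ P * √R / √L * F := by
      rw [k1]
      exact mul_le_mul_of_nonneg_right (div_le_div_of_nonneg_right
        (mul_le_mul_of_nonneg_right g7 hs0.le) hsL.le) hF

theorem db_int {c a b : ℝ} (hR : 0 < R) (hc : 0 < c) :
    ∫ θ in a..b, Real.exp (-(c * (θ * R / 2))) ≤ 2 / R * (Real.exp (-(c * (a * R / 2))) / c) := by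
  have h : ∀ x ∈ uIcc a b, HasDerivAt (fun θ => -(2 / R / c) * Real.exp (-(c * (θ * R / 2))))
      (Real.exp (-(c * (x * R / 2)))) x := fun x _ => by
    have h1 := ((((hasDerivAt_id x).mul_const R).div_const 2).const_mul c).neg.exp.const_mul
      (-(2 / R / c))
    refine h1.congr_deriv ?_
    simp only [id, Pi.neg_apply]
    field_simp
  rw [intervalIntegral.integral_eq_sub_of_hasDerivAt h
    (Continuous.intervalIntegrable (by fun_prop) _ _)]
  have h2 : 0 ≤ 2 / R / c * Real.exp (-(c * (b * R / 2))) := by positivity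
  have h3 : 2 / R * (Real.exp (-(c * (a * R / 2))) / c)
      = 2 / R / c * Real.exp (-(c * (a * R / 2))) := by ring
  linarith

theorem db_num {s t : ℝ} (hs : 10 ≤ s) (ht : 0 ≤ t) (ht' : t ≤ 1 / 2) :
    1 / (s / 2 - 1.52 - 1.87 * t) + 5 * (Real.exp (-(0.375 * (s - 2 - 1.66 * t)))
      / (0.375 * (s - 2 - 1.66 * t))) ≤ 1 / (s / 2 - 2.5 - 2 * t) := by
  obtain ⟨x, hx⟩ : ∃ x, x = 0.375 * (s - 2 - 1.66 * t) - 2.68 := ⟨_, rfl⟩
  have hx0 : 0 ≤ x := by linarith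
  have hm : 0.375 * (s - 2 - 1.66 * t) = 2.68 + x := by linarith
  have h1 : (12.6 : ℝ) ≤ Real.exp 2.68 := by
    have := Real.sum_le_exp_of_nonneg (x := 2.68) (by norm_num) 5
    simp only [Finset.sum_range_succ, Finset.range_zero, Finset.sum_empty, Nat.factorial] at this
    norm_num at this ⊢
    linarith
  have h2 : 12.6 * (1 + x) ≤ Real.exp (2.68 + x) := by
    rw [Real.exp_add]
    exact mul_le_mul h1 (by linarith [Real.add_one_le_exp x]) (by linarith) (by linarith)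
  obtain ⟨β, hβ⟩ : ∃ β, β = s / 2 - 1.52 - 1.87 * t := ⟨_, rfl⟩
  obtain ⟨δ, hδ⟩ : ∃ δ, δ = s / 2 - 2.5 - 2 * t := ⟨_, rfl⟩
  rw [hm, ← hβ, ← hδ, Real.exp_neg]
  have b0 : 0 < β := by linarith
  have d0 : 0 < δ := by linarith
  have b1 : β ≤ 3.06 + 4 / 3 * x := by linarith
  have d1 : δ ≤ 2.08 + 4 / 3 * x := by linarith
  have h3 : β * δ ≤ (3.06 + 4 / 3 * x) * (2.08 + 4 / 3 * x) := mul_le_mul b1 d1 d0.le (by linarith)
  have hE := Real.exp_pos (2.68 + x)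
  generalize Real.exp (2.68 + x) = E at h2 hE
  have h4 : 5 * (E⁻¹ / (2.68 + x)) ≤ 0.98 / (β * δ) := by
    rw [show 5 * (E⁻¹ / (2.68 + x)) = 5 / (E * (2.68 + x)) by field_simp,
      div_le_div_iff₀ (by positivity) (by positivity)]
    nlinarith [mul_le_mul_of_nonneg_right h2 (show 0 ≤ 2.68 + x by linarith), sq_nonneg x]
  have h5 : 1 / δ - 1 / β = (β - δ) / (β * δ) := by field_simp
  have h6 : 0.98 / (β * δ) ≤ (β - δ) / (β * δ) :=
    div_le_div_of_nonneg_right (by linarith) (by positivity)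
  linarith

theorem farB_int {t L : ℝ} (hR : 100 ≤ R) (ht : 0 ≤ t) (ht' : t ≤ 1 / 2) (hL : 0 < L) :
    IntervalIntegrable (farB R t L) volume 0 (8 / R) ∧
    ∫ θ in (0 : ℝ)..(8 / R), farB R t L θ
      ≤ 5 / 2 * (1.15 + 1.8 * t + 10 * t ^ 2) / (√L * √R * (√R / 2 - 2.5 - 2 * t)) := by
  have hR0 : 0 < R := by linarith
  have hs : 10 ≤ √R := Real.le_sqrt_of_sq_le (by linarith)
  have hsL : 0 < √L := Real.sqrt_pos.2 hL
  have h2 : 0 ≤ 2 / R := by positivity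
  have h8 : 2 / R ≤ 8 / R := div_le_div_of_nonneg_right (by norm_num) hR0.le
  obtain ⟨C, hC⟩ : ∃ C, C = 1.25 * (1.15 + 1.8 * t + 10 * t ^ 2) * √R / √L := ⟨_, rfl⟩
  have hC0 : 0 ≤ C := by rw [hC]; positivity
  obtain ⟨β, hβ⟩ : ∃ β, β = √R / 2 - 1.52 - 1.87 * t := ⟨_, rfl⟩
  obtain ⟨μ, hμ⟩ : ∃ μ, μ = 0.375 * (√R - 2 - 1.66 * t) := ⟨_, rfl⟩
  have b0 : 0 < β := by linarith
  have m0 : 0 < μ := by linarith
  have e1 : ∀ x ∈ uIoc 0 (2 / R), C * Real.exp (-(β * (x * R / 2))) = farB R t L x :=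
    fun x hx => by
      rw [uIoc_of_le h2] at hx
      rw [farB, if_pos hx.2, hC, hβ]
  have e2 : ∀ x ∈ uIoc (2 / R) (8 / R),
      C * 5 * Real.exp (-(μ * (x * R / 2))) = farB R t L x := fun x hx => by
    rw [uIoc_of_le h8] at hx
    rw [farB, if_neg (not_le.2 hx.1), hC, hμ, mul_assoc _ (5 : ℝ)]
  have i1 : IntervalIntegrable (farB R t L) volume 0 (2 / R) :=
    (Continuous.intervalIntegrable (by fun_prop) _ _).congr e1
  have i2 : IntervalIntegrable (farB R t L) volume (2 / R) (8 / R) :=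
    (Continuous.intervalIntegrable (by fun_prop) _ _).congr e2
  refine ⟨i1.trans i2, ?_⟩
  rw [← intervalIntegral.integral_add_adjacent_intervals i1 i2,
    ← intervalIntegral.integral_congr_ae (Eventually.of_forall e1),
    ← intervalIntegral.integral_congr_ae (Eventually.of_forall e2),
    intervalIntegral.integral_const_mul, intervalIntegral.integral_const_mul]
  have j1 := db_int (a := 0) (b := 2 / R) hR0 b0
  have j2 := db_int (a := 2 / R) (b := 8 / R) hR0 m0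
  rw [show β * (0 * R / 2) = 0 by ring, neg_zero, Real.exp_zero] at j1
  rw [show μ * (2 / R * R / 2) = μ by field_simp] at j2
  have j3 := db_num hs ht ht'
  rw [← hβ, ← hμ] at j3
  have j4 := mul_le_mul_of_nonneg_left j3 (mul_nonneg hC0 h2)
  have j5 : C * (2 / R) * (1 / (√R / 2 - 2.5 - 2 * t))
      = 5 / 2 * (1.15 + 1.8 * t + 10 * t ^ 2) / (√L * √R * (√R / 2 - 2.5 - 2 * t)) := by
    have d0 : 0 < √R / 2 - 2.5 - 2 * t := by linarith
    have hq : √R * √R = R := Real.mul_self_sqrt hR0.le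
    have hs0 : 0 < √R := by linarith
    rw [hC]
    generalize √R / 2 - 2.5 - 2 * t = d at d0
    generalize √R = s at hq hs0
    rw [← hq]
    field_simp
    ring
  rw [← j5]
  linarith [mul_le_mul_of_nonneg_left j1 hC0,
    mul_le_mul_of_nonneg_left j2 (show 0 ≤ C * 5 by positivity)]

theorem JX_right1 (h1 : γ ^ 2 ≤ 1) (hl : 0 ≤ l) (hR : 100 ≤ R) (hb : bb l ≤ U) (hU : U ≤ R / 2)
    {L : ℝ} (hL : 4.5 ≤ L) (hLl : L ≤ l * (l + 1)) (hθ : 0 < θ) (hθ' : θ ≤ 8 / R) :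
    JX γ l R (θ * I) ≤ farB R (U / R) L θ + 4 * GG R (2 * R - U) / R ^ 2 / θ := by
  have hε := vb_UU hθ
  have hR0 : 0 < R := by linarith
  have him : ((θ : ℂ) * I).im = θ := by simp
  have a1 := far_le h1 hl hR hb hU hL hLl hθ hθ'
  have a2 := mul_le_mul_of_nonneg_left
    (Im2_split h1 hl hε (r := R / 2) (R := R) (by linarith) (by linarith))
    (sq_nonneg ‖ps γ l (θ * I) R‖)
  have a3 := ps_Fx h1 hl hε hR0
  have a4 := tail_le h1 hl hε hR0
  have a5 := gg_im h1 hl hε hR0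
  have a6 := (gg_right (R := R) h1 hl hθ (B := 2 * R - U) (by linarith) (by linarith)).1
  have a7 := (im_le_norm _).trans a6
  have a8 := mp_im_neg h1 hl hε hR0
  rw [him] at a2 a4
  rw [mul_add, ← mul_div_assoc, a3] at a2
  have a9 : 0 ≤ -(mp γ l R (θ * I)).im * ‖gg γ l R (θ * I)‖ ^ 2 :=
    mul_nonneg (by linarith) (sq_nonneg _)
  rw [JX]
  generalize ‖gg γ l R (θ * I)‖ ^ 2 = g at *
  have b1 : -(mm γ l R (θ * I)).im * g / (θ * (R / 2) ^ 2) + -(mp γ l R (θ * I)).im * g / (θ * R ^ 2)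
      ≤ 4 * GG R (2 * R - U) / R ^ 2 / θ := by
    rw [show -(mm γ l R (θ * I)).im * g / (θ * (R / 2) ^ 2)
        = 4 * (-(mm γ l R (θ * I)).im * g) / (θ * R ^ 2) by field_simp; ring, ← add_div, div_div,
      mul_comm (R ^ 2) θ]
    exact div_le_div_of_nonneg_right (by linarith) (by positivity)
  linarith

theorem JX_right2 (h1 : γ ^ 2 ≤ 1) (hl : 0 ≤ l) (hR : 30 ≤ R) {B L : ℝ} (hB : 1 / 4 < B)
    (hb : B ≤ 2 * R - bb l) (hL : 0 < L) (hLl : L ≤ l * (l + 1)) (hθ : 0 < θ) (hθ' : θ ≤ 8 / R) :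
    JX γ l R (θ * I) ≤ 2 / (L * R) * min (GG R B ^ 2) (2 * VV R B ^ 2 / θ)
      + Dt L R * GG R B / R ^ 2 / θ := by
  have hε := vb_UU hθ
  have hR0 : 0 < R := by linarith
  have him : ((θ : ℂ) * I).im = θ := by simp
  have hθ8 : θ ≤ 0.27 := hθ'.trans (by rw [div_le_iff₀ hR0]; linarith)
  have a2 := mul_le_mul_of_nonneg_left
    (mul2 h1 hl hε (by simp) ((Ec_right h1 hθ.le).2.1.trans (by nlinarith)) hL hLl hR0)
    (sq_nonneg ‖ps γ l (θ * I) R‖)
  have a3 := ps_Fx h1 hl hε hR0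
  have a4 := tail_le h1 hl hε hR0
  have a5 := gg_im h1 hl hε hR0
  obtain ⟨a6, a6', -⟩ := gg_right h1 hl hθ hB hb
  have a7 := (im_le_norm _).trans a6
  have a8 := mp_im_neg h1 hl hε hR0
  have a10 : ‖ps γ l (θ * I) R‖ ^ 2 * ‖ph γ l (θ * I) R‖ ^ 2 = ‖gg γ l R (θ * I)‖ ^ 2 := by
    rw [gg_eq, norm_mul]
    ring
  have a11 : ‖gg γ l R (θ * I)‖ ^ 2 ≤ min (GG R B ^ 2) (2 * VV R B ^ 2 / θ) :=
    le_min (pow_le_pow_left₀ (norm_nonneg _) a6 2) a6'
  have hD := one_le_Dt L R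
  rw [him] at a2 a4
  rw [show ‖ps γ l (θ * I) R‖ ^ 2 * (2 * ‖ph γ l (θ * I) R‖ ^ 2 / (L * R)
      + Dt L R * Fx γ l (θ * I) R / (θ * R ^ 2))
      = 2 / (L * R) * (‖ps γ l (θ * I) R‖ ^ 2 * ‖ph γ l (θ * I) R‖ ^ 2)
        + Dt L R * (‖ps γ l (θ * I) R‖ ^ 2 * Fx γ l (θ * I) R) / (θ * R ^ 2) by ring, a10, a3] at a2
  have a9 : 0 ≤ -(mp γ l R (θ * I)).im * ‖gg γ l R (θ * I)‖ ^ 2 :=
    mul_nonneg (by linarith) (sq_nonneg _)
  have a12 := mul_le_mul_of_nonneg_left a11 (show 0 ≤ 2 / (L * R) by positivity)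
  rw [JX]
  generalize ‖gg γ l R (θ * I)‖ ^ 2 = g at *
  have b1 : Dt L R * (-(mm γ l R (θ * I)).im * g) / (θ * R ^ 2)
      + -(mp γ l R (θ * I)).im * g / (θ * R ^ 2) ≤ Dt L R * GG R B / R ^ 2 / θ := by
    rw [← add_div, div_div, mul_comm (R ^ 2) θ]
    refine div_le_div_of_nonneg_right ?_ (by positivity)
    have c1 := mul_le_mul_of_nonneg_right hD a9
    have c2 := mul_le_mul_of_nonneg_left a7 (show 0 ≤ Dt L R by linarith)
    rw [a5] at c2
    linarith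
  linarith

end Pool.Agent.Lib.MP_2347b2_mp.F
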