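import Pool.Agent.Lib.MP_2347b2_mp.Near

/-!
Definitions for the full Furry case. Lengths are in units of `1 / γ`.
-/

namespace Pool.Agent.Lib.MP_2347b2_mp.F

open Set Filter Topology

noncomputable section

/-! ### real side -/

/-- generalized Laguerre polynomial -/
def lag (α : ℝ) (n : ℕ) (x : ℝ) : ℝ :=
  ∑ j ∈ Finset.range (n + 1), (-1) ^ j * (∏ i ∈ Finset.range (n - j), (α + j + 1 + i))
    / (((n - j).factorial : ℝ) * (j.factorial : ℝ)) * x ^ j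

/-- minus the derivative of `lag α n` -/
def lagP (α : ℝ) (n : ℕ) (x : ℝ) : ℝ := ∑ j ∈ Finset.range n, lag α j x

def nu (l : ℝ) (n : ℕ) : ℝ := n + l + 1

def NN (γ l : ℝ) (n : ℕ) : ℝ := √(nu l n ^ 2 + γ ^ 2)

def EE (γ l : ℝ) (n : ℕ) : ℝ := nu l n / NN γ l n

def ep (γ l : ℝ) (n : ℕ) : ℝ := -1 / NN γ l n ^ 2

def cf (γ l : ℝ) (n : ℕ) : ℝ :=
  √((n.factorial : ℝ) / (Real.Gamma (n + 2 * l + 2) * NN γ l n * nu l n))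

/-- the normalized Coulomb function with angular parameter `l` and `n` nodes -/
def ff (γ l : ℝ) (n : ℕ) (r : ℝ) : ℝ :=
  cf γ l n * (2 * r / NN γ l n) ^ (l + 1) * Real.exp (-(r / NN γ l n))
    * lag (2 * l + 1) n (2 * r / NN γ l n)

/-- its derivative -/
def fd (γ l : ℝ) (n : ℕ) (r : ℝ) : ℝ :=
  cf γ l n * (2 * r / NN γ l n) ^ (l + 1) * Real.exp (-(r / NN γ l n))
    * (((l + 1) / r - 1 / NN γ l n) * lag (2 * l + 1) n (2 * r / NN γ l n)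
      - 2 / NN γ l n * lagP (2 * l + 1) n (2 * r / NN γ l n))

/-- `ff r / r ^ (l + 1)` at `0` -/
def c0 (γ l : ℝ) (n : ℕ) : ℝ := cf γ l n * (2 / NN γ l n) ^ (l + 1) * lag (2 * l + 1) n 0

def QQ (γ l : ℝ) (n : ℕ) (r : ℝ) : ℝ := l * (l + 1) / r ^ 2 - 2 * EE γ l n / r - ep γ l n

/-- one term of `BB` -/
def bt (γ l : ℝ) (n : ℕ) (R : ℝ) : ℝ :=
  (R - (l * (l + 1) + γ ^ 2) * EE γ l n) * EE γ l n * ff γ l n R ^ 2

def BB (γ l R : ℝ) : ℝ := ∑' n, bt γ l n R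

def DD (γ l R : ℝ) : ℝ := ∑' n, EE γ l n ^ 2 * ff γ l n R ^ 2

def ck (γ : ℝ) (k : ℕ) : ℝ := k / sOf γ k

/-- the nodeless state of the channel `k` -/
def t0 (γ : ℝ) (k : ℕ) (R : ℝ) : ℝ := (k * sOf γ k - R - k) * ff γ (sOf γ k - 1) 0 R ^ 2

/-- `(u ^ 2 - v ^ 2) / s` in terms of `v` and its derivative -/
def YY (γ : ℝ) (k m : ℕ) (R : ℝ) : ℝ :=
  (sOf γ k * (fd γ (sOf γ k) m R ^ 2
      - (2 * EE γ (sOf γ k) m / R + ep γ (sOf γ k) m - sOf γ k ^ 2 / R ^ 2) * ff γ (sOf γ k) m R ^ 2)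
    - 2 * (EE γ (sOf γ k) m - sOf γ k ^ 2 / R) * ff γ (sOf γ k) m R * fd γ (sOf γ k) m R)
    / (1 + k ^ 2 * ep γ (sOf γ k) m)

/-- upper bound for the slope of one pair of states -/
def Tp (γ : ℝ) (k m : ℕ) (R : ℝ) : ℝ :=
  k * EE γ (sOf γ k) m * (((k ^ 2 - sOf γ k) * EE γ (sOf γ k) m - R) * YY γ k m R
    - 2 * EE γ (sOf γ k) m * ff γ (sOf γ k) m R ^ 2)

/-- upper bound for the slope of the channel `k` -/
def Sp (γ : ℝ) (k : ℕ) (R : ℝ) : ℝ := t0 γ k R + ∑' m, Tp γ k m R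

/-- the mismatch of the telescoping sum -/
def MM (γ : ℝ) (k : ℕ) (R : ℝ) : ℝ :=
  ck γ k * BB γ (sOf γ k) R - ck γ (k + 1) * BB γ (sOf γ (k + 1 : ℕ) - 1) R

/-- the head of the sum -/
def Head (γ : ℝ) (K : ℕ) (R : ℝ) : ℝ :=
  ∑ k ∈ Finset.Icc 1 K, Sp γ k R - ck γ (K + 1) * BB γ (sOf γ (K + 1 : ℕ) - 1) R

/-! ### complex side -/

open Complex

def Ec (γ : ℝ) (ε : ℂ) : ℂ := Complex.sqrt (1 + γ ^ 2 * ε)

def mu (ε : ℂ) : ℂ := Complex.sqrt (-ε)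

def cc (γ l : ℝ) (ε : ℂ) : ℕ → ℂ
  | 0 => 1
  | j + 1 => cc γ l ε j * (2 * mu ε * (j + l + 1) - 2 * Ec γ ε) / ((j + 1) * (j + 2 * l + 2))

def ser (γ l : ℝ) (ε : ℂ) (r : ℝ) : ℂ := ∑' j, cc γ l ε j * (r : ℂ) ^ j

def serD (γ l : ℝ) (ε : ℂ) (r : ℝ) : ℂ := ∑' j : ℕ, ((j : ℂ) + 1) * cc γ l ε (j + 1) * (r : ℂ) ^ j

/-- the regular solution -/
def ph (γ l : ℝ) (ε : ℂ) (r : ℝ) : ℂ := (r ^ (l + 1) : ℝ) * exp (-(mu ε * r)) * ser γ l ε r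

/-- its derivative -/
def phD (γ l : ℝ) (ε : ℂ) (r : ℝ) : ℂ :=
  (r ^ (l + 1) : ℝ) * exp (-(mu ε * r)) * (((l + 1) / r - mu ε) * ser γ l ε r + serD γ l ε r)

def Qc (γ l : ℝ) (ε : ℂ) (r : ℝ) : ℂ := l * (l + 1) / r ^ 2 - 2 * Ec γ ε / r - ε

def cM (γ l : ℝ) (ε : ℂ) (R M : ℝ) : ℂ := ∫ r in R..M, 1 / ph γ l ε r ^ 2

def cI (γ l : ℝ) (ε : ℂ) (R : ℝ) : ℂ := limUnder atTop (cM γ l ε R)

/-- the diagonal of the Green function -/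
def gg (γ l R : ℝ) (ε : ℂ) : ℂ := ph γ l ε R ^ 2 * cI γ l ε R

/-- logarithmic derivative of the regular solution -/
def mm (γ l R : ℝ) (ε : ℂ) : ℂ := phD γ l ε R / ph γ l ε R

/-- minus the logarithmic derivative of the subdominant solution -/
def mp (γ l R : ℝ) (ε : ℂ) : ℂ := 1 / gg γ l R ε - mm γ l R ε

/-- the Green function on the functional `a f + b f'` -/
def gab (γ l R a b : ℝ) (ε : ℂ) : ℂ :=
  (a + b * mm γ l R ε) ^ 2 * gg γ l R ε - b * (a + b * mm γ l R ε)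

/-- the open region above the real axis -/
def UU : Set ℂ := {ε | -1 < ε.re ∧ 0 < ε.im}

/-- the region of analyticity of the regular solution -/
def UV : Set ℂ := {ε | -1 < ε.re ∧ (ε.re < 0 ∨ 0 < ε.im)}

/-- the three upper sides of the rectangle -/
def Sides (T : ℝ) : Set ℂ :=
  {ε | (ε.re = -3 / 4 ∨ ε.re = 0) ∧ 0 < ε.im ∧ ε.im ≤ T}
    ∪ {ε | -3 / 4 ≤ ε.re ∧ ε.re ≤ 0 ∧ ε.im = T}

/-- left side and top -/
def Ell (T : ℝ) : Set ℂ :=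
  {ε | ε.re = -3 / 4 ∧ 0 < ε.im ∧ ε.im ≤ T} ∪ {ε | -3 / 4 ≤ ε.re ∧ ε.re ≤ 0 ∧ ε.im = T}

def cL (T : ℝ) (h : ℂ → ℂ) : ℝ := ∫ θ in (0 : ℝ)..T, (h (-3 / 4 + θ * I)).re

def cT (T : ℝ) (h : ℂ → ℂ) : ℝ := ∫ x in (-3 / 4 : ℝ)..0, (h (x + T * I)).im

def cR (T : ℝ) (h : ℂ → ℂ) : ℝ := ∫ θ in (0 : ℝ)..T, (h (θ * I)).re

/-- imaginary part of the integral over the three upper sides -/
def ctr (T : ℝ) (h : ℂ → ℂ) : ℝ := cL T h + cT T h - cR T h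

/-- continuous above the axis and bounded on the contour -/
def Good (T : ℝ) (h : ℂ → ℂ) : Prop :=
  ContinuousOn h UU ∧ ∃ C : ℝ, ∀ ε ∈ Sides T, ‖h ε‖ ≤ C

/-- admissible weights -/
def Wt (F : ℂ → ℂ) : Prop :=
  DifferentiableOn ℂ F {ε | -1 < ε.re} ∧ ∀ x : ℝ, -1 < x → (F x).im = 0

/-- a solution of `u'' = Q u` on the half line -/
structure Sol (Q u u' : ℝ → ℂ) : Prop where
  d1 : ∀ r, 0 < r → HasDerivAt u (u' r) r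
  d2 : ∀ r, 0 < r → HasDerivAt u' (Q r * u r) r

/-- `r` times the shifted potential -/
def wq (γ l : ℝ) (ε : ℂ) (r : ℝ) : ℂ := (l * (l + 1) + 3 / 16) / r - 2 * Ec γ ε - ε * r

def ww (γ l : ℝ) (ε : ℂ) (r : ℝ) : ℂ := Complex.sqrt (wq γ l ε r)

def W0 (γ l : ℝ) (ε : ℂ) (r : ℝ) : ℂ := Complex.sqrt (Qc γ l ε r)

def nm (γ l R : ℝ) (ε : ℂ) : ℂ := (√R : ℝ) * (mm γ l R ε - 1 / (4 * R))

def np (γ l R : ℝ) (ε : ℂ) : ℂ := (√R : ℝ) * (mp γ l R ε + 1 / (4 * R))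

/-- reflection coefficient -/
def rf (w n : ℂ) : ℂ := (w - n) / (w + n)

/-- the weighted mass of the regular solution -/
def Im2 (γ l : ℝ) (ε : ℂ) (R : ℝ) : ℝ := ∫ r in (0 : ℝ)..R, ‖ph γ l ε r‖ ^ 2 / r ^ 2

/-- the quantity that controls the dependence on `l` -/
def JJ (γ l R : ℝ) (ε : ℂ) : ℝ :=
  ‖gg γ l R ε‖ ^ 2 * Im2 γ l ε R / ‖ph γ l ε R‖ ^ 2
    + ((gg γ l R ε).im + (mm γ l R ε).im * ‖gg γ l R ε‖ ^ 2) / (ε.im * R ^ 2)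

/-- distance to the threshold in the sum norm -/
def A0 (ε : ℂ) : ℝ := ε.im - ε.re

end

end Pool.Agent.Lib.MP_2347b2_mp.F
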