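import Pool.Agent.Lib.MP_2347b2_mp.F.Top

namespace Pool.Agent.Lib.MP_2347b2_mp.F

open MeasureTheory Set Filter Topology Complex

variable {γ l R : ℝ} {ε : ℂ}

theorem t2_ne {z : ℂ} (h : z.im < 0) : z ≠ 0 := fun e => by rw [e, zero_im] at h; exact h.false

theorem t2_W (h1 : γ ^ 2 ≤ 1) (hε : ε ∈ UU) {r : ℝ} (hr : 0 < r) :
    0 < (W0 γ l ε r).re ∧ (W0 γ l ε r).im < 0 ∧
    2 * (W0 γ l ε r).re * (W0 γ l ε r).im = (Qc γ l ε r).im ∧
    ‖W0 γ l ε r‖ ^ 2 = ‖Qc γ l ε r‖ := by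
  obtain ⟨a, b, -, -, -, c, d⟩ := sqrt_facts (Qc_im_neg (l := l) h1 hε hr)
  exact ⟨a, b, c, d⟩

theorem t2_nes (h1 : γ ^ 2 ≤ 1) (hl : 0 ≤ l) (hε : ε ∈ UU) {r : ℝ} (hr : 0 < r) :
    W0 γ l ε r ≠ 0 ∧ W0 γ l ε r + mm γ l r ε ≠ 0 ∧ W0 γ l ε r + mp γ l r ε ≠ 0 ∧
    mm γ l r ε + mp γ l r ε ≠ 0 := by
  have a := (t2_W (l := l) h1 hε hr).2.1
  have b := mm_im_neg h1 hl hε hr
  have c := mp_im_neg h1 hl hε hr
  exact ⟨t2_ne a, t2_ne (by rw [add_im]; linarith), t2_ne (by rw [add_im]; linarith),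
    t2_ne (by rw [add_im]; linarith)⟩

/-- sizes of the parameters -/
theorem t2_size {A c : ℝ} (hR : 0 < R) (hA : 8 / R ≤ A) (hc : c ^ 2 ≤ 8 * R) :
    0 < √A ∧ √A ^ 2 = A ∧ 8 ≤ A * R ∧ c ≤ R * √A ∧ 8 * c ≤ R ^ 2 * (A * √A) := by
  have A0 : 0 < A := lt_of_lt_of_le (by positivity) hA
  have t0 := Real.sqrt_pos.2 A0
  have t2 := Real.sq_sqrt A0.le
  have u : 8 ≤ A * R := (div_le_iff₀ hR).1 hA
  have v : c ≤ R * √A := by
    refine abs_le_of_sq_le_sq' ?_ (by positivity) |>.2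
    rw [mul_pow, t2]
    linarith [mul_le_mul_of_nonneg_right u hR.le]
  refine ⟨t0, t2, u, v, ?_⟩
  have := mul_le_mul_of_nonneg_right u (show 0 ≤ R * √A by positivity)
  linarith

theorem t2_den {m p : ℂ} {d : ℝ} (h : ‖m‖ * ‖p‖ ≤ d) : 1 - d ≤ ‖1 - m * p‖ := by
  have := norm_sub_norm_le (1 : ℂ) (m * p)
  rw [norm_one, norm_mul] at this
  linarith

theorem t2_gen (h : TopH γ l R) (hε : ε ∈ Ell (8 / R)) {a p X c : ℝ} (ha : 0 ≤ a) (hp : 0 ≤ p)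
    (hX : 0 < X) (hx : X ≤ R ^ 2 * (A0 ε * √(A0 ε)))
    (hm : ‖rm0 γ l R ε‖ ≤ a / (R ^ 2 * (A0 ε * √(A0 ε))))
    (hq : ‖rp0 γ l R ε‖ ≤ p / (R ^ 2 * (A0 ε * √(A0 ε)))) (hd : a / X * (p / X) ≤ 0.004)
    (hc : a + p + 2 * (a * (p / X)) ≤ c * 1.567) :
    ‖gg γ l R ε - 1 / (2 * W0 γ l ε R)‖ ≤ c / (R ^ 2 * A0 ε ^ 2) := by
  have R0 : 0 < R := by linarith [h.hR]
  obtain ⟨hU, hA, -⟩ := ell_basic h.h1 h.hR hε
  obtain ⟨t0, t2, -⟩ := t2_size (c := 0) R0 hA (by linarith)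
  obtain ⟨n1, n2, n3, n4⟩ := t2_nes h.h1 h.hl hU R0
  have w2 := (t2_W (l := l) h.h1 hU R0).2.2.2
  have q := (W0_full h.h1 h.hl h.hR hε le_rfl).2
  rw [gg_inv h.h1 h.hl hU R0, rf_g n1 n2 n3 n4]
  change ‖(rm0 γ l R ε + rp0 γ l R ε + 2 * (rm0 γ l R ε * rp0 γ l R ε))
    / (2 * W0 γ l ε R * (1 - rm0 γ l R ε * rp0 γ l R ε))‖ ≤ _
  have w : 0.787 * √(A0 ε) ≤ ‖W0 γ l ε R‖ := by
    refine abs_le_of_sq_le_sq' ?_ (norm_nonneg _) |>.2
    rw [mul_pow, t2, w2]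
    linarith [sq_nonneg √(A0 ε)]
  have e : R ^ 2 * A0 ε ^ 2 = R ^ 2 * (A0 ε * √(A0 ε)) * √(A0 ε) := by
    linear_combination (-(R ^ 2 * A0 ε)) * t2
  rw [e]
  generalize R ^ 2 * (A0 ε * √(A0 ε)) = D at *
  generalize √(A0 ε) = t at *
  generalize rm0 γ l R ε = m at *
  generalize rp0 γ l R ε = z at *
  have D0 : 0 < D := by linarith
  have m1 : ‖m‖ ≤ a / X := hm.trans (div_le_div_of_nonneg_left ha hX hx)
  have p1 : ‖z‖ ≤ p / X := hq.trans (div_le_div_of_nonneg_left hp hX hx)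
  have d := t2_den ((mul_le_mul m1 p1 (norm_nonneg _) (by positivity)).trans hd)
  have k := mul_le_mul hm p1 (norm_nonneg _) (by positivity)
  have nu : ‖m + z + 2 * (m * z)‖ ≤ c * 1.567 / D := by
    refine (norm_add_le _ _).trans ?_
    rw [norm_mul, norm_mul, Complex.norm_two]
    have := div_le_div_of_nonneg_right hc D0.le
    have e : (a + p + 2 * (a * (p / X))) / D = a / D + p / D + 2 * (a / D * (p / X)) := by ring
    linarith [norm_add_le m z]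
  have de : 1.567 * t ≤ ‖2 * W0 γ l ε R * (1 - m * z)‖ := by
    rw [norm_mul, norm_mul, Complex.norm_two]
    have := mul_le_mul w d (by norm_num) (norm_nonneg _)
    linarith
  rw [norm_div]
  refine (div_le_div₀ ((norm_nonneg _).trans nu) nu (by positivity) de).trans_eq ?_
  field_simp

theorem t2_rp (h : TopH γ l R) (hε : ε ∈ Ell (8 / R)) {s : ℝ} (hL : l * (l + 1) ≤ s * R) :
    ‖rp0 γ l R ε‖ ≤ 0.67 * (s + 1.02) / (R ^ 2 * (A0 ε * √(A0 ε))) := by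
  have R0 : 0 < R := by linarith [h.hR]
  obtain ⟨-, hA, -⟩ := ell_basic h.h1 h.hR hε
  have A0' : 0 < A0 ε := lt_of_lt_of_le (by positivity) hA
  refine (rp0_le h hε).trans (div_le_div_of_nonneg_right ?_ (by positivity))
  have := (div_le_iff₀ R0).2 hL
  linarith

theorem gg_ell2 (h : TopH γ l R) (hε : ε ∈ Ell (8 / R)) :
    ‖gg γ l R ε - 1 / (2 * W0 γ l ε R)‖ ≤ 17.5 / (R ^ 2 * A0 ε ^ 2) := by
  have R0 : 0 < R := by linarith [h.hR]
  obtain ⟨-, hA, -⟩ := ell_basic h.h1 h.hR hε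
  obtain ⟨-, -, -, -, hx⟩ := t2_size (c := 15.49) R0 hA (by linarith [h.hR])
  exact t2_gen h hε (by norm_num) (by norm_num) (by norm_num) hx (rm0_le2 h hε)
    (t2_rp h hε h.hL) (by norm_num) (by norm_num)

theorem gg_ell1 (h : TopH γ l R) (hR : 100 ≤ R) (hL : l * (l + 1) ≤ R / 2)
    (hε : ε ∈ Ell (8 / R)) :
    ‖gg γ l R ε - 1 / (2 * W0 γ l ε R)‖ ≤ 2.1 / (R ^ 2 * A0 ε ^ 2) := by
  have R0 : 0 < R := by linarith [h.hR]
  obtain ⟨-, hA, -⟩ := ell_basic h.h1 h.hR hε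
  obtain ⟨-, -, -, -, hx⟩ := t2_size (c := 28.28) R0 hA (by linarith)
  exact t2_gen h hε (by norm_num) (by norm_num) (by norm_num) hx (rm0_le1 h hR hL hε)
    (t2_rp (s := 1 / 2) h hε (by linarith)) (by norm_num) (by norm_num)

theorem gg_ell_sq (h : TopH γ l R) (hε : ε ∈ Ell (8 / R)) : ‖gg γ l R ε‖ ^ 2 ≤ 0.61 / A0 ε := by
  have R0 : 0 < R := by linarith [h.hR]
  obtain ⟨hU, hA, -⟩ := ell_basic h.h1 h.hR hε
  obtain ⟨t0, t2, -, -, hx⟩ := t2_size (c := 15.49) R0 hA (by linarith [h.hR])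
  have w2 := (t2_W (l := l) h.h1 hU R0).2.2.2
  have q := (W0_full h.h1 h.hl h.hR hε le_rfl).2
  have w : 0.787 * √(A0 ε) ≤ ‖W0 γ l ε R‖ := by
    refine abs_le_of_sq_le_sq' ?_ (norm_nonneg _) |>.2
    rw [mul_pow, t2, w2]
    linarith [sq_nonneg √(A0 ε)]
  have g := gg_ell2 h hε
  have e : R ^ 2 * A0 ε ^ 2 = R ^ 2 * (A0 ε * √(A0 ε)) * √(A0 ε) := by
    linear_combination (-(R ^ 2 * A0 ε)) * t2
  rw [e] at g
  have a : ‖1 / (2 * W0 γ l ε R)‖ ≤ 1 / (2 * (0.787 * √(A0 ε))) := by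
    rw [norm_div, norm_one, norm_mul, Complex.norm_two]
    exact div_le_div_of_nonneg_left zero_le_one (by positivity) (by linarith)
  have b : 17.5 / (R ^ 2 * (A0 ε * √(A0 ε)) * √(A0 ε)) ≤ 17.5 / (8 * 15.49 * √(A0 ε)) :=
    div_le_div_of_nonneg_left (by norm_num) (by positivity) (mul_le_mul_of_nonneg_right hx t0.le)
  have c : ‖gg γ l R ε‖ ≤ 0.78 / √(A0 ε) := by
    have := norm_sub_norm_le (gg γ l R ε) (1 / (2 * W0 γ l ε R))
    have i : 0 < 1 / √(A0 ε) := by positivity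
    have e1 : 1 / (2 * (0.787 * √(A0 ε))) = 1 / (2 * 0.787) * (1 / √(A0 ε)) := by field_simp
    have e2 : 17.5 / (8 * 15.49 * √(A0 ε)) = 17.5 / (8 * 15.49) * (1 / √(A0 ε)) := by field_simp
    rw [e1] at a
    rw [e2] at b
    rw [div_eq_mul_one_div]
    linarith
  refine (pow_le_pow_left₀ (norm_nonneg _) c 2).trans ?_
  rw [div_pow, t2]
  exact div_le_div_of_nonneg_right (by norm_num) (by linarith [sq_nonneg √(A0 ε)])

theorem t2_im (h : TopH γ l R) (hε : ε ∈ Ell (8 / R)) (ht : ε.im = 8 / R) {c k s d : ℝ}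
    (hc : 0 < c) (hcR : c ^ 2 ≤ 8 * R) (hk : 0 ≤ k) (hs : 2 ≤ s * R)
    (hg : ‖gg γ l R ε - 1 / (2 * W0 γ l ε R)‖ ≤ k / (R ^ 2 * A0 ε ^ 2))
    (hd : (1 + s) / 1.5376 + k / (8 * c) ≤ d) :
    (gg γ l R ε).im ≤ d * ε.im / (A0 ε * √(A0 ε)) := by
  have R0 : 0 < R := by linarith [h.hR]
  obtain ⟨hU, hA, -, -, r1, r2, -⟩ := ell_basic h.h1 h.hR hε
  obtain ⟨t0, t2, -, hv, -⟩ := t2_size R0 hA hcR
  obtain ⟨a0, -, w1, w2⟩ := t2_W (l := l) h.h1 hU R0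
  obtain ⟨q1, q⟩ := W0_full h.h1 h.hl h.hR hε le_rfl
  have θ0 : 0 < ε.im := hU.2
  have y := (Ec_strip h.h1 r2 r1 θ0.le).2.2.1
  have A0' : 0 < A0 ε := by rw [← t2]; positivity
  have a : 0.62 * √(A0 ε) ≤ (W0 γ l ε R).re := by
    refine abs_le_of_sq_le_sq' ?_ a0.le |>.2
    rw [mul_pow, t2]
    linarith
  have b : -(Qc γ l ε R).im ≤ (1 + s) * ε.im := by
    rw [Qc_im, neg_neg]
    have : 2 * (Ec γ ε).im / R ≤ s * ε.im := by
      rw [div_le_iff₀ R0]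
      linarith [mul_le_mul_of_nonneg_right hs θ0.le]
    linarith
  have e : (1 / (2 * W0 γ l ε R)).im
      = -(Qc γ l ε R).im / (4 * ((W0 γ l ε R).re * ‖Qc γ l ε R‖)) := by
    have : 0 < ‖Qc γ l ε R‖ := by linarith
    rw [one_div, inv_im, normSq_eq_norm_sq, norm_mul, Complex.norm_two, mul_pow, w2, ← w1]
    simp only [mul_im, re_ofNat, im_ofNat, zero_mul, add_zero]
    field_simp
    ring
  have i1 : (1 / (2 * W0 γ l ε R)).im ≤ (1 + s) / 1.5376 * (ε.im / (A0 ε * √(A0 ε))) := by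
    have s0 : 0 ≤ s := by
      by_contra hn
      linarith [mul_neg_of_neg_of_pos (not_le.1 hn) R0]
    rw [e, div_mul_div_comm]
    refine div_le_div₀ (by positivity) b (by positivity) ?_
    have := mul_le_mul a q (by positivity) a0.le
    linarith
  have i2 : k / (R ^ 2 * A0 ε ^ 2) ≤ k / (8 * c) * (ε.im / (A0 ε * √(A0 ε))) := by
    have e : k / (8 * c) * (ε.im / (A0 ε * √(A0 ε))) = k / (c * (R * (A0 ε * √(A0 ε)))) := by
      rw [ht]; field_simp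
    rw [e]
    refine div_le_div_of_nonneg_left hk (by positivity) ?_
    have := mul_le_mul_of_nonneg_right hv (show 0 ≤ R * (A0 ε * √(A0 ε)) by positivity)
    refine this.trans_eq ?_
    linear_combination (R ^ 2 * A0 ε) * t2
  have i3 := (le_abs_self _).trans ((abs_im_le_norm _).trans hg)
  rw [sub_im] at i3
  have := mul_le_mul_of_nonneg_right hd (show 0 ≤ ε.im / (A0 ε * √(A0 ε)) by positivity)
  rw [mul_div_assoc]
  linarith

theorem gg_top_im2 (h : TopH γ l R) (hε : ε ∈ Ell (8 / R)) (ht : ε.im = 8 / R) :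
    (gg γ l R ε).im ≤ 0.85 * ε.im / (A0 ε * √(A0 ε)) :=
  t2_im (c := 15.49) (s := 1 / 15) h hε ht (by norm_num) (by linarith [h.hR]) (by norm_num)
    (by linarith [h.hR]) (gg_ell2 h hε) (by norm_num)

theorem gg_top_im1 (h : TopH γ l R) (hR : 100 ≤ R) (hL : l * (l + 1) ≤ R / 2)
    (hε : ε ∈ Ell (8 / R)) (ht : ε.im = 8 / R) :
    (gg γ l R ε).im ≤ 0.68 * ε.im / (A0 ε * √(A0 ε)) :=
  t2_im (c := 28.28) (s := 1 / 50) h hε ht (by norm_num) (by linarith) (by norm_num)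
    (by linarith) (gg_ell1 h hR hL hε) (by norm_num)

/-- size of the reflection coefficient on the top -/
theorem t2_rho (h : TopH γ l R) (hL : l * (l + 1) ≤ R / 2) (hε : ε ∈ Ell (8 / R))
    (ht : ε.im = 8 / R) {r : ℝ} (hr : R / 2 ≤ r) :
    1 + ‖rm0 γ l r ε‖ ≤ 2 + ‖Qc γ l ε r‖ * R / 2 ∧ 1 + ‖rm0 γ l r ε‖ ≤ 1.13 * (A0 ε * R) := by
  have R0 : 0 < R := by linarith [h.hR]
  have r0 : 0 < r := by linarith
  obtain ⟨hU, hA, -, n1, -, -, -, -, -, n2⟩ := ell_basic h.h1 h.hR hε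
  have u : 8 ≤ A0 ε * R := (div_le_iff₀ R0).1 hA
  have a := rm0_im h.h1 h.hl hU r0
  have e : 4 * ‖Qc γ l ε r‖ / ε.im = ‖Qc γ l ε r‖ * R / 2 := by rw [ht]; field_simp; ring
  rw [e] at a
  refine ⟨by linarith, ?_⟩
  have L0 : 0 ≤ l * (l + 1) := mul_nonneg h.hl (by linarith [h.hl])
  have q : ‖Qc γ l ε r‖ ≤ l * (l + 1) / r ^ 2 + 2 * ‖Ec γ ε‖ / r + ‖ε‖ := by
    have e : (l * (l + 1) / r ^ 2 : ℂ) = ((l * (l + 1) / r ^ 2 : ℝ) : ℂ) := by push_cast; rfl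
    refine (norm_sub_le _ _).trans (add_le_add_left ((norm_sub_le _ _).trans_eq ?_) _)
    rw [e, norm_real, Real.norm_of_nonneg (by positivity), norm_div, norm_mul, Complex.norm_two,
      norm_real, Real.norm_of_nonneg r0.le]
  have q1 : l * (l + 1) / r ^ 2 ≤ 2 / R := by
    rw [div_le_div_iff₀ (by positivity) R0]
    nlinarith [mul_le_mul_of_nonneg_right hL R0.le, pow_le_pow_left₀ (half_pos R0).le hr 2]
  have q2 : 2 * ‖Ec γ ε‖ / r ≤ 4.08 / R := by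
    rw [div_le_div_iff₀ r0 R0]
    linarith [mul_le_mul_of_nonneg_right n2 R0.le]
  have q3 : ‖Qc γ l ε r‖ * R ≤ (2 / R + 4.08 / R + A0 ε) * R :=
    mul_le_mul_of_nonneg_right (by linarith) R0.le
  rw [add_mul, add_mul, div_mul_cancel₀ _ R0.ne', div_mul_cancel₀ _ R0.ne'] at q3
  linarith

theorem t2_grow (h : TopH γ l R) (hR : 100 ≤ R) (hL : l * (l + 1) ≤ R / 2) (hε : ε ∈ Ell (8 / R))
    (ht : ε.im = 8 / R) :
    ‖(W0 γ l ε (R / 2) + mm γ l (R / 2) ε) * ph γ l ε (R / 2)‖ ^ 2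
        * Real.exp (0.47 * (R * √(A0 ε))) ≤ ‖(W0 γ l ε R + mm γ l R ε) * ph γ l ε R‖ ^ 2 := by
  have R0 : 0 < R := by linarith
  obtain ⟨hU, hA, -, -, -, -, -, x1, -, n2⟩ := ell_basic h.h1 h.hR hε
  obtain ⟨t0, t2, u, v, -⟩ := t2_size (c := 28.28) R0 hA (by linarith)
  have L0 : 0 ≤ l * (l + 1) := mul_nonneg h.hl (by linarith [h.hl])
  have g := grow (G := fun r => 0.47 * √(A0 ε) * r) (G' := fun _ => 0.47 * √(A0 ε))
    (half_le_self R0.le)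
    (fun r hr => al0_deriv h.h1 h.hl hU ((half_pos R0).trans_le hr.1))
    (fun r _ => ((hasDerivAt_id r).const_mul _).congr_deriv (mul_one _)) (fun r hr => by
      have r0 := (half_pos R0).trans_le hr.1
      obtain ⟨a2, q⟩ := W0_half h.h1 h.hl h.hR hε hr.1
      have a0 := (t2_W (l := l) h.h1 hU r0).1
      have s := (t2_rho h hL hε ht hr.1).1
      rw [mul_left_comm, cfl_cm, re_mul_ofReal, add_re]
      refine mul_le_mul_of_nonneg_right ?_ (sq_nonneg _)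
      have a : 0.547 * √(A0 ε) ≤ (W0 γ l ε r).re := by
        refine abs_le_of_sq_le_sq' ?_ a0.le |>.2
        rw [mul_pow, t2]
        linarith [sq_nonneg √(A0 ε)]
      have Q0 : 0 < ‖Qc γ l ε r‖ := by linarith [(div_pos (by norm_num) R0).trans_le hA]
      have s1 : l * (l + 1) / r ≤ 1 := by rw [div_le_one r0]; linarith [hr.1]
      have s0 : 0 ≤ l * (l + 1) / r := by positivity
      have n : ‖Ec γ ε - (l * (l + 1) / r : ℝ)‖ ≤ 1.02 := by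
        refine le_trans (abs_le_of_sq_le_sq' ?_ (norm_nonneg _)).2 n2
        rw [Complex.sq_norm, Complex.sq_norm, normSq_apply, normSq_apply, sub_re, sub_im,
          ofReal_re, ofReal_im]
        nlinarith
      have k : ‖(Ec γ ε - (l * (l + 1) / r : ℝ)) / (2 * r ^ 2 * Qc γ l ε r) * (1 + rm0 γ l r ε)‖
          ≤ 1.02 / (2 * (R / 2) ^ 2 * ‖Qc γ l ε r‖) * (2 + ‖Qc γ l ε r‖ * R / 2) := by
        rw [norm_mul, norm_div, norm_mul, norm_mul, Complex.norm_two, norm_pow, norm_real,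
          Real.norm_of_nonneg r0.le]
        refine mul_le_mul (div_le_div₀ (by norm_num) n (by positivity) ?_)
          ((norm_add_le _ _).trans (by rwa [norm_one])) (norm_nonneg _) (by positivity)
        gcongr
        exact hr.1
      have k2 : 1.02 / (2 * (R / 2) ^ 2 * ‖Qc γ l ε r‖) * (2 + ‖Qc γ l ε r‖ * R / 2)
          ≤ 0.07 * √(A0 ε) := by
        rw [div_mul_eq_mul_div, div_le_iff₀ (by positivity)]
        have j1 : 4.4 ≤ ‖Qc γ l ε r‖ * R := by linarith [mul_le_mul_of_nonneg_right q R0.le]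
        have j2 := mul_le_mul_of_nonneg_right v (show 0 ≤ ‖Qc γ l ε r‖ * R by positivity)
        linarith
      linarith [(abs_le.1 ((abs_re_le_norm _).trans (k.trans k2))).1])
  rwa [show 2 * (0.47 * √(A0 ε) * R - 0.47 * √(A0 ε) * (R / 2)) = 0.47 * (R * √(A0 ε)) by ring]
    at g

theorem t2_in (h : TopH γ l R) (hR : 100 ≤ R) (hL0 : 4.5 ≤ l * (l + 1))
    (hL : l * (l + 1) ≤ R / 2) (hε : ε ∈ Ell (8 / R)) (ht : ε.im = 8 / R) :
    Im2 γ l ε (R / 2) ≤ 0.016 * (R * √(A0 ε)) ^ 3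
      * ‖(W0 γ l ε (R / 2) + mm γ l (R / 2) ε) * ph γ l ε (R / 2)‖ ^ 2 := by
  have R0 : 0 < R := by linarith
  have r0 := half_pos R0
  obtain ⟨hU, hA, -, -, r1, -, -, -, x1, -⟩ := ell_basic h.h1 h.hR hε
  obtain ⟨t0, t2, u, v, -⟩ := t2_size (c := 28.28) R0 hA (by linarith)
  have m := mul2 h.h1 h.hl hU r1 x1 (by norm_num) hL0 r0
  have s := (t2_rho h hL hε ht le_rfl).2
  obtain ⟨-, n2, -⟩ := t2_nes h.h1 h.hl hU r0
  have w2 := (t2_W (l := l) h.h1 hU r0).2.2.2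
  have q := (W0_half h.h1 h.hl h.hR hε le_rfl).2
  have w : 0.741 * √(A0 ε) ≤ ‖W0 γ l ε (R / 2)‖ := by
    refine abs_le_of_sq_le_sq' ?_ (norm_nonneg _) |>.2
    rw [mul_pow, t2, w2]
    linarith [sq_nonneg √(A0 ε)]
  have o := one_add_rf n2
  change (1 + rm0 γ l (R / 2) ε) * _ = _ at o
  have pd : phD γ l ε (R / 2) = mm γ l (R / 2) ε * ph γ l ε (R / 2) := by
    rw [mm, div_mul_cancel₀ _ (ph_ne h.h1 h.hl hU r0)]
  have f : Fx γ l ε (R / 2) ≤ ‖ph γ l ε (R / 2)‖ * ‖phD γ l ε (R / 2)‖ := by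
    refine (neg_le_abs _).trans ((abs_im_le_norm _).trans_eq ?_)
    rw [norm_mul, norm_conj]
  have F0 := (Fx_pos h.h1 h.hl hU r0).le
  have d : Dt 4.5 (R / 2) ≤ 0.0674 * R ^ 2 := by
    have : Dt 4.5 (R / 2) = 4 / 3 * (1 - 2.02 / 9 * R + 4.09 / 81 * R ^ 2) := by
      unfold Dt
      norm_num
      ring
    linarith [sq_nonneg R]
  have e1 : 2 * (W0 γ l ε (R / 2) * ph γ l ε (R / 2)) = (1 + rm0 γ l (R / 2) ε)
      * ((W0 γ l ε (R / 2) + mm γ l (R / 2) ε) * ph γ l ε (R / 2)) := by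
    linear_combination (-ph γ l ε (R / 2)) * o
  have e2 : 2 * phD γ l ε (R / 2) = (1 - rm0 γ l (R / 2) ε)
      * ((W0 γ l ε (R / 2) + mm γ l (R / 2) ε) * ph γ l ε (R / 2)) := by
    rw [pd]
    linear_combination (ph γ l ε (R / 2)) * o
  generalize (W0 γ l ε (R / 2) + mm γ l (R / 2) ε) * ph γ l ε (R / 2) = α at *
  have b1 : 2 * (‖W0 γ l ε (R / 2)‖ * ‖ph γ l ε (R / 2)‖) ≤ 1.13 * (A0 ε * R) * ‖α‖ := by
    have := congrArg norm e1
    rw [norm_mul, norm_mul, norm_mul, Complex.norm_two] at this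
    rw [this]
    exact mul_le_mul_of_nonneg_right ((norm_add_le _ _).trans (by rwa [norm_one])) (norm_nonneg _)
  have b2 : 2 * ‖phD γ l ε (R / 2)‖ ≤ 1.13 * (A0 ε * R) * ‖α‖ := by
    have := congrArg norm e2
    rw [norm_mul, norm_mul, Complex.norm_two] at this
    rw [this]
    exact mul_le_mul_of_nonneg_right ((norm_sub_le _ _).trans (by rwa [norm_one])) (norm_nonneg _)
  rw [ht] at m
  have y0 := norm_nonneg (ph γ l ε (R / 2))
  have z0 := norm_nonneg (phD γ l ε (R / 2))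
  have α0 := norm_nonneg α
  generalize ‖ph γ l ε (R / 2)‖ = y at *
  generalize ‖phD γ l ε (R / 2)‖ = z at *
  generalize ‖α‖ = a at *
  generalize √(A0 ε) = t at *
  rw [← t2] at b1 b2
  have y1 : y ≤ 0.763 * (R * t * a) := by
    refine le_of_mul_le_mul_left ?_ t0
    have := mul_le_mul_of_nonneg_right w y0
    have : 0 ≤ t ^ 2 * R * a := by positivity
    linarith
  have z1 : z ≤ 0.565 * (t ^ 2 * R * a) := by linarith
  have c1 : 2 * y ^ 2 / (4.5 * (R / 2)) ≤ 0.001 * ((R * t) ^ 3 * a ^ 2) := by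
    rw [div_le_iff₀ (by positivity)]
    have j1 := pow_le_pow_left₀ y0 y1 2
    have j2 := mul_le_mul hR v (by norm_num) R0.le
    have j3 := mul_le_mul_of_nonneg_right j2 (sq_nonneg (R * t * a))
    linarith [sq_nonneg (R * t * a)]
  have c2 : Dt 4.5 (R / 2) * Fx γ l ε (R / 2) / (8 / R * (R / 2) ^ 2)
      ≤ 0.015 * ((R * t) ^ 3 * a ^ 2) := by
    rw [show 8 / R * (R / 2) ^ 2 = 2 * R by field_simp; ring, div_le_iff₀ (by positivity)]
    have j1 := f.trans (mul_le_mul y1 z1 z0 (by positivity))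
    have j2 := mul_le_mul d j1 F0 (by positivity)
    have : 0 ≤ (R * t) ^ 3 * a ^ 2 * R := by positivity
    linarith
  linarith

theorem t2_exp {v : ℝ} (hv : 28 ≤ v) : v ^ 6 ≤ 3519 * Real.exp (0.47 * v) := by
  have e2 : 7.38 ≤ Real.exp 2 := by
    rw [show (2 : ℝ) = 1 + 1 by norm_num, Real.exp_add]
    nlinarith [Real.exp_one_gt_d9]
  have a : v ≤ 3.9 * Real.exp (0.078 * v) := by
    have b := Real.add_one_le_exp (0.078 * v - 2)
    have c := mul_le_mul e2 b (by linarith) (Real.exp_pos _).le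
    rw [← Real.exp_add, add_sub_cancel] at c
    linarith
  have b := pow_le_pow_left₀ (by linarith) a 6
  rw [mul_pow, ← Real.exp_nat_mul] at b
  have c : Real.exp ((6 : ℕ) * (0.078 * v)) ≤ Real.exp (0.47 * v) :=
    Real.exp_le_exp.2 (by push_cast; linarith)
  linarith [Real.exp_pos (0.47 * v)]

theorem far_top (h : TopH γ l R) (hR : 100 ≤ R) (hL0 : 4.5 ≤ l * (l + 1))
    (hL : l * (l + 1) ≤ R / 2) (hε : ε ∈ Ell (8 / R)) (ht : ε.im = 8 / R) :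
    ‖ps γ l ε R‖ ^ 2 * Im2 γ l ε (R / 2) ≤ 0.6 / (R ^ 2 * (A0 ε * √(A0 ε))) := by
  have R0 : 0 < R := by linarith
  obtain ⟨hU, hA, -⟩ := ell_basic h.h1 h.hR hε
  obtain ⟨t0, t2, -, v, hx⟩ := t2_size (c := 28.28) R0 hA (by linarith)
  obtain ⟨n1, n2, n3, n4⟩ := t2_nes h.h1 h.hl hU R0
  have a := t2_in h hR hL0 hL hε ht
  have b := t2_grow h hR hL hε ht
  have c := t2_exp (v := R * √(A0 ε)) (by linarith)
  have m1 := (rm0_le1 h hR hL hε).trans (div_le_div_of_nonneg_left (by norm_num) (by norm_num) hx)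
  have p1 := (t2_rp (s := 1 / 2) h hε (by linarith)).trans
    (div_le_div_of_nonneg_left (by norm_num) (by norm_num) hx)
  have d := t2_den (mul_le_mul m1 p1 (norm_nonneg _) (by norm_num))
  have e : ps γ l ε R * ((W0 γ l ε R + mm γ l R ε) * ph γ l ε R)
      = (1 + rp0 γ l R ε) / (1 - rm0 γ l R ε * rp0 γ l R ε) := by
    rw [rm0, rp0, ← rf_ratio n1 n2 n3 n4, div_eq_mul_one_div, ← gg_inv h.h1 h.hl hU R0, gg_eq]
    ring
  have k : ‖ps γ l ε R‖ * ‖(W0 γ l ε R + mm γ l R ε) * ph γ l ε R‖ ≤ 1.01 := by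
    rw [← norm_mul, e, norm_div, div_le_iff₀ (by linarith)]
    have := norm_add_le 1 (rp0 γ l R ε)
    rw [norm_one] at this
    linarith
  have k2 := pow_le_pow_left₀ (by positivity) k 2
  rw [mul_pow] at k2
  have e3 : R ^ 2 * (A0 ε * √(A0 ε)) * R = (R * √(A0 ε)) ^ 3 := by
    linear_combination (-(R ^ 3 * √(A0 ε))) * t2
  have D0 : 0 < R ^ 2 * (A0 ε * √(A0 ε)) := by linarith
  have E0 := Real.exp_pos (0.47 * (R * √(A0 ε)))
  have v0 : 0 < R * √(A0 ε) := by positivity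
  have s0 := sq_nonneg ‖ps γ l ε R‖
  have α0 := sq_nonneg ‖(W0 γ l ε (R / 2) + mm γ l (R / 2) ε) * ph γ l ε (R / 2)‖
  generalize ‖(W0 γ l ε (R / 2) + mm γ l (R / 2) ε) * ph γ l ε (R / 2)‖ ^ 2 = α at *
  generalize ‖(W0 γ l ε R + mm γ l R ε) * ph γ l ε R‖ ^ 2 = β at *
  generalize ‖ps γ l ε R‖ ^ 2 = s at *
  generalize Real.exp (0.47 * (R * √(A0 ε))) = E at *
  generalize R ^ 2 * (A0 ε * √(A0 ε)) = D at *
  generalize R * √(A0 ε) = w at *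
  refine (mul_le_mul_of_nonneg_left a s0).trans ?_
  rw [le_div_iff₀ D0]
  have j1 : s * α * E ≤ 1.03 := by linarith [mul_le_mul_of_nonneg_left b s0]
  have j2 := mul_le_mul_of_nonneg_left c (mul_nonneg s0 α0)
  refine le_of_mul_le_mul_right ?_ R0
  have j3 : s * (0.016 * w ^ 3 * α) * D * R = 0.016 * (s * α * w ^ 6) := by
    linear_combination (0.016 * (s * α * w ^ 3)) * e3
  rw [j3]
  linarith

/-- the two flux terms together -/
theorem t2_flux (h : TopH γ l R) (hU : ε ∈ UU) {D d : ℝ} (hD : 1 ≤ D)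
    (hg : (gg γ l R ε).im ≤ d * ε.im / (A0 ε * √(A0 ε))) :
    ‖ps γ l ε R‖ ^ 2 * (D * Fx γ l ε R / (ε.im * R ^ 2))
      + ‖ph γ l ε R‖ ^ 2 * ∫ r in Ioi R, ‖ps γ l ε r‖ ^ 2 / r ^ 2
      ≤ d * D / (R ^ 2 * (A0 ε * √(A0 ε))) := by
  have R0 : 0 < R := by linarith [h.hR]
  have θ0 : 0 < ε.im := hU.2
  have a := ps_Fx h.h1 h.hl hU R0
  have b := tail_le h.h1 h.hl hU R0
  have c := gg_im h.h1 h.hl hU R0
  have p := mp_im_neg h.h1 h.hl hU R0
  have e : ‖ps γ l ε R‖ ^ 2 * (D * Fx γ l ε R / (ε.im * R ^ 2))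
      = D * (-(mm γ l R ε).im * ‖gg γ l R ε‖ ^ 2) / (ε.im * R ^ 2) := by rw [← a]; ring
  have k : D * (-(mm γ l R ε).im * ‖gg γ l R ε‖ ^ 2) + -(mp γ l R ε).im * ‖gg γ l R ε‖ ^ 2
      ≤ D * (d * ε.im / (A0 ε * √(A0 ε))) := by
    have k1 := mul_le_mul_of_nonneg_left hg (zero_le_one.trans hD)
    have k2 := mul_le_mul_of_nonneg_right hD
      (mul_nonneg (neg_pos.2 p).le (sq_nonneg ‖gg γ l R ε‖))
    rw [c] at k1
    linarith
  have := div_le_div_of_nonneg_right k (show 0 ≤ ε.im * R ^ 2 by positivity)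
  have e2 : D * (d * ε.im / (A0 ε * √(A0 ε))) / (ε.im * R ^ 2)
      = d * D / (R ^ 2 * (A0 ε * √(A0 ε))) := by
    field_simp
  rw [add_div, e2] at this
  linarith

theorem JX_top2 (h : TopH γ l R) {L : ℝ} (hL : 0 < L) (hLl : L ≤ l * (l + 1))
    (hε : ε ∈ Ell (8 / R)) (ht : ε.im = 8 / R) :
    JX γ l R ε ≤ 1.22 / (A0 ε * L * R) + 0.85 * Dt L R / (R ^ 2 * (A0 ε * √(A0 ε))) := by
  have R0 : 0 < R := by linarith [h.hR]
  obtain ⟨hU, -, -, -, r1, -, -, -, x1, -⟩ := ell_basic h.h1 h.hR hε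
  have a := mul_le_mul_of_nonneg_left (mul2 h.h1 h.hl hU r1 x1 hL hLl R0)
    (sq_nonneg ‖ps γ l ε R‖)
  have b := t2_flux h hU (one_le_Dt L R) (gg_top_im2 h hε ht)
  have c := div_le_div_of_nonneg_right (gg_ell_sq h hε) (show 0 ≤ L * R by positivity)
  have e1 : ‖ps γ l ε R‖ ^ 2 * (2 * ‖ph γ l ε R‖ ^ 2 / (L * R))
      = 2 * (‖gg γ l R ε‖ ^ 2 / (L * R)) := by rw [gg_eq, norm_mul]; ring
  have e2 : 1.22 / (A0 ε * L * R) = 2 * (0.61 / A0 ε / (L * R)) := by ring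
  rw [mul_add, e1] at a
  rw [JX, e2]
  linarith

theorem JX_top1 (h : TopH γ l R) (hR : 100 ≤ R) (hL0 : 4.5 ≤ l * (l + 1))
    (hL : l * (l + 1) ≤ R / 2) (hε : ε ∈ Ell (8 / R)) (ht : ε.im = 8 / R) :
    JX γ l R ε ≤ 3.32 / (R ^ 2 * (A0 ε * √(A0 ε))) := by
  have R0 : 0 < R := by linarith
  obtain ⟨hU, -⟩ := ell_basic h.h1 h.hR hε
  have a := mul_le_mul_of_nonneg_left (Im2_split h.h1 h.hl hU (half_pos R0) (half_le_self R0.le))
    (sq_nonneg ‖ps γ l ε R‖)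
  have b := t2_flux (D := 4) h hU (by norm_num) (gg_top_im1 h hR hL hε ht)
  have c := far_top h hR hL0 hL hε ht
  have e1 : Fx γ l ε R / (ε.im * (R / 2) ^ 2) = 4 * Fx γ l ε R / (ε.im * R ^ 2) := by ring
  have e2 : 3.32 / (R ^ 2 * (A0 ε * √(A0 ε)))
      = 0.6 / (R ^ 2 * (A0 ε * √(A0 ε))) + 0.68 * 4 / (R ^ 2 * (A0 ε * √(A0 ε))) := by ring
  rw [mul_add, e1] at a
  rw [JX, e2]
  linarith

end Pool.Agent.Lib.MP_2347b2_mp.F
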