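import Pool.Agent.Lib.MP_2347b2_mp.F.Ctr
import Pool.Agent.Lib.MP_2347b2_mp.F.Damp
import Pool.Agent.Lib.MP_2347b2_mp.F.Top2

namespace Pool.Agent.Lib.MP_2347b2_mp.F

open MeasureTheory Set Filter Topology Complex

/-- the natural weight -/
noncomputable def Fs (γ R : ℝ) (ε : ℂ) : ℂ := 1 + γ ^ 2 / (Ec γ ε * R)

variable {γ l R U B : ℝ}

theorem dt_sub {T : ℝ} {g p : ℂ → ℂ} (hT : 0 < T) (h : Good T g) (h' : Good T p) :
    cL T (fun z => g z - p z) = cL T g - cL T p ∧ cT T (fun z => g z - p z) = cT T g - cT T p := by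
  have a1 := reCLM.intervalIntegral_comp_comm (h.int_L hT)
  have a2 := reCLM.intervalIntegral_comp_comm (h'.int_L hT)
  have a3 := reCLM.intervalIntegral_comp_comm ((h.sub h').int_L hT)
  have b1 := imCLM.intervalIntegral_comp_comm (h.int_T hT)
  have b2 := imCLM.intervalIntegral_comp_comm (h'.int_T hT)
  have b3 := imCLM.intervalIntegral_comp_comm ((h.sub h').int_T hT)
  simp only [reCLM_apply, imCLM_apply] at a1 a2 a3 b1 b2 b3
  constructor
  · rw [cL, cL, cL, a1, a2, a3, intervalIntegral.integral_sub (h.int_L hT) (h'.int_L hT), sub_re]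
  · rw [cT, cT, cT, b1, b2, b3, intervalIntegral.integral_sub (h.int_T hT) (h'.int_T hT), sub_im]

theorem dt_Fs_good (h1 : γ ^ 2 ≤ 1) (hR : 0 < R) {T : ℝ} (hT : 0 < T) : Good T (Fs γ R) := by
  refine Good.of_cont hT ?_
  have c1 : ContinuousOn (fun z => Ec γ z * R) {ε : ℂ | -1 < ε.re} :=
    (Ec_diff h1).continuousOn.mul continuousOn_const
  have c2 : ContinuousOn (fun z => (γ : ℂ) ^ 2 / (Ec γ z * R)) {ε : ℂ | -1 < ε.re} := by
    refine ContinuousOn.div continuousOn_const c1 fun z hz => mul_ne_zero (fun h => ?_) ?_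
    · have := Ec_re_pos h1 hz
      rw [h] at this
      exact lt_irrefl _ this
    · exact Complex.ofReal_ne_zero.2 hR.ne'
  exact continuousOn_const.add c2

theorem dt_q_le (h1 : γ ^ 2 ≤ 1) (hR : 0 < R) {E : ℂ} {a : ℝ} (ha : 0 < a) (hE : a ≤ ‖E‖) :
    ‖(γ : ℂ) ^ 2 / (E * R)‖ ≤ 1 / (a * R) := by
  rw [norm_div, norm_pow, norm_mul, Complex.norm_real, Complex.norm_real, Real.norm_eq_abs,
    Real.norm_eq_abs, sq_abs, abs_of_pos hR]
  exact div_le_div₀ zero_le_one h1 (mul_pos ha hR) (mul_le_mul_of_nonneg_right hE hR.le)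

theorem dt_Q (γ l : ℝ) (ε : ℂ) (r : ℝ) :
    (Qc γ l ε r).re = l * (l + 1) / r ^ 2 - 2 * (Ec γ ε).re / r - ε.re ∧
    (Qc γ l ε r).im = -(2 * (Ec γ ε).im / r + ε.im) := by
  have e : Qc γ l ε r = ((l * (l + 1) / r ^ 2 : ℝ) : ℂ) - ((2 / r : ℝ) : ℂ) * Ec γ ε - ε := by
    rw [Qc]
    push_cast
    ring
  rw [e]
  constructor
  · rw [sub_re, sub_re, re_ofReal_mul, ofReal_re]
    ring
  · rw [sub_im, sub_im, im_ofReal_mul, ofReal_im]
    ring

theorem dt_inv_good (h : TopH γ l R) (hB : 1 / 4 < 2 * R - bb l) :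
    Good (8 / R) fun z => 1 / (2 * W0 γ l z R) := by
  have hR : 0 < R := by linarith [h.hR]
  have hT : 0 < 8 / R := by positivity
  constructor
  · have c1 : ContinuousOn (fun z => W0 γ l z R) UU := fun z hz =>
      (W0_diff h.h1 hz hR).continuousAt.continuousWithinAt
    have c2 : ContinuousOn (fun z => 2 * W0 γ l z R) UU := continuousOn_const.mul c1
    exact ContinuousOn.div continuousOn_const c2 fun z hz =>
      mul_ne_zero two_ne_zero (wf_ne (wf_W0 h.h1 hz hR))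
  · refine ⟨R, fun z hz => ?_⟩
    have key : (1 / (2 * R)) ^ 2 ≤ ‖Qc γ l z R‖ := by
      have e : (1 / (2 * R)) ^ 2 = 1 / 4 / R ^ 2 := by field_simp; norm_num
      have hE : z ∈ Ell (8 / R) → (1 / (2 * R)) ^ 2 ≤ ‖Qc γ l z R‖ := fun hE => by
        have a1 := (W0_full h.h1 h.hl h.hR hE le_rfl).2
        have a2 := (ell_basic h.h1 h.hR hE).2.1
        have a3 : 1 / 4 / R ^ 2 ≤ 0.62 * (8 / R) := by
          rw [div_le_iff₀ (by positivity)]
          have : 0.62 * (8 / R) * R ^ 2 = 4.96 * R := by field_simp; norm_num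
          rw [this]
          linarith [h.hR]
        rw [e]
        linarith
      rcases hz with ⟨h2 | h2, h3, h4⟩ | h2
      · exact hE (Or.inl ⟨h2, h3, h4⟩)
      · have ez : z = (z.im : ℝ) * I := by
          apply Complex.ext <;> simp [h2]
        have a1 : 1 ≤ (Ec γ z).re := by
          rw [ez]
          exact (Ec_right h.h1 h3.le).1
        have a2 := (dt_Q γ l z R).1
        have a3 : -(Qc γ l z R).re ≤ ‖Qc γ l z R‖ := (neg_le_abs _).trans (abs_re_le_norm _)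
        have a4 : 1 / 4 / R ^ 2 ≤ 2 * (Ec γ z).re / R - l * (l + 1) / R ^ 2 := by
          have : 2 * (Ec γ z).re / R - l * (l + 1) / R ^ 2
              = (2 * (Ec γ z).re * R - l * (l + 1)) / R ^ 2 := by field_simp
          rw [this]
          refine div_le_div_of_nonneg_right ?_ (by positivity)
          rw [bb] at hB
          nlinarith
        rw [e]
        linarith
      · exact hE (Or.inr h2)
    have k2 : 1 / (2 * R) ≤ ‖W0 γ l z R‖ := by
      refine le_of_sq_le_sq ?_ (norm_nonneg _)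
      rwa [← norm_pow, W0_sq]
    have k3 : 0 < 1 / (2 * R) := by positivity
    rw [norm_div, norm_one, norm_mul, Complex.norm_two, div_le_iff₀ (by linarith)]
    have : R * (2 * (1 / (2 * R))) = 1 := by field_simp
    nlinarith

theorem dt_lim (h : TopH γ l R) :
    Tendsto (fun θ : ℝ => (-W0 γ l (-3 / 4 + θ * I) R).im) (𝓝[>] 0) (𝓝 0) := by
  have hR : 0 < R := by linarith [h.hR]
  have hT : 0 < 8 / R := by positivity
  have t : Tendsto (fun θ : ℝ => 2 * θ) (𝓝[>] 0) (𝓝 0) := by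
    have : Tendsto (fun θ : ℝ => 2 * θ) (𝓝 0) (𝓝 (2 * 0)) := (continuous_const.mul continuous_id).tendsto 0
    rw [mul_zero] at this
    exact this.mono_left nhdsWithin_le_nhds
  refine squeeze_zero_norm' ?_ t
  filter_upwards [Ioc_mem_nhdsGT hT] with θ hθ
  obtain ⟨m1, m2, m3, m4⟩ := left_mem (8 / R) hθ.1 hθ.2
  have hU := (ell_basic h.h1 h.hR m1).1
  obtain ⟨s1, s2, -, -, -, s6, -⟩ := sqrt_facts (Qc_im_neg (l := l) h.h1 hU hR)
  have a1 := (W0_full h.h1 h.hl h.hR m1 le_rfl).1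
  have a2 := (dt_Q γ l (-3 / 4 + θ * I) R).2
  have a3 := (Ec_strip h.h1 m2.ge (by rw [m2]; norm_num) (by rw [m3]; exact hθ.1.le)).2.2.1
  rw [m3] at a2 a3
  rw [m4] at a1
  change 0 < (W0 γ l (-3 / 4 + θ * I) R).re at s1
  change (W0 γ l (-3 / 4 + θ * I) R).im < 0 at s2
  change 2 * (W0 γ l (-3 / 4 + θ * I) R).re * (W0 γ l (-3 / 4 + θ * I) R).im = _ at s6
  have a4 : 1 / 2 ≤ (W0 γ l (-3 / 4 + θ * I) R).re := by
    refine le_of_sq_le_sq ?_ s1.le
    linarith [hθ.1]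
  have a5 : 2 * (Ec γ (-3 / 4 + θ * I)).im / R ≤ θ := by
    rw [div_le_iff₀ hR]
    nlinarith [h.hR, hθ.1]
  rw [neg_im, Real.norm_eq_abs, abs_of_pos (neg_pos.2 s2)]
  nlinarith

/-- the part of the left side and the top -/
theorem ell_part (h0 : 0 < γ) (h : TopH γ l R) (hL : 4 / 3 < (l + 1) ^ 2 + γ ^ 2)
    (hB : 1 / 4 < 2 * R - bb l) {c : ℝ} (hc0 : 0 ≤ c)
    (hc : ∀ ε ∈ Ell (8 / R), ‖gg γ l R ε - 1 / (2 * W0 γ l ε R)‖ ≤ c / (R ^ 2 * A0 ε ^ 2)) :
    |cL (8 / R) (fun z => Fs γ R z * gg γ l R z) + cT (8 / R) (fun z => Fs γ R z * gg γ l R z)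
      + (W0 γ l ((8 / R : ℝ) * I) R).im| ≤ (1 + 2 / R) * c * (1 / (8 * R) + 14.3 / R ^ 3) := by
  have hR : 0 < R := by linarith [h.hR]
  have hT : 0 < 8 / R := by positivity
  have gF := dt_Fs_good h.h1 hR hT
  have gg1 := gF.mul (good_gg h0 h.h1 h.hl hL hR hT (out_of h.h1 h.hl hB _))
  have gp := gF.mul (dt_inv_good h hB)
  obtain ⟨e1, e2⟩ := dt_sub hT gg1 gp
  have pr := prim_ell hT gp (G := fun z => -W0 γ l z R) (fun z hz => by
    have := (W0_diff (l := l) h.h1 hz hR).neg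
    refine this.congr_deriv ?_
    rw [Fs]
    ring) (dt_lim h)
  have hd : ∀ ε ∈ Ell (8 / R), ‖Fs γ R ε * gg γ l R ε - Fs γ R ε * (1 / (2 * W0 γ l ε R))‖
      ≤ (1 + 2 / R) * c / R ^ 2 / A0 ε ^ 2 := fun ε hε => by
    have a1 : 1 / 2 ≤ ‖Ec γ ε‖ := (ell_basic h.h1 h.hR hε).2.2.2.2.2.2.2.1.trans (re_le_norm _)
    have a2 := dt_q_le h.h1 hR (by norm_num) a1
    have a3 : ‖Fs γ R ε‖ ≤ 1 + 2 / R := by
      refine (norm_add_le _ _).trans ?_
      have : 1 / (1 / 2 * R) = 2 / R := by field_simp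
      rw [norm_one, ← this]
      linarith
    rw [← mul_sub, norm_mul]
    calc _ ≤ (1 + 2 / R) * (c / (R ^ 2 * A0 ε ^ 2)) :=
          mul_le_mul a3 (hc ε hε) (norm_nonneg _) (by positivity)
      _ = _ := by rw [div_div, mul_div_assoc]
  have ha : 0 ≤ (1 + 2 / R) * c / R ^ 2 := by positivity
  have l1 := cL_le hT (gg1.sub gp) (c := (1 + 2 / R) * c / R ^ 2 / (3 / 4) ^ 2)
    fun ε hε hre => by
      refine (hd ε hε).trans (div_le_div_of_nonneg_left ha (by norm_num) ?_)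
      have a1 := (ell_basic h.h1 h.hR hε).1.2
      have a2 : 3 / 4 ≤ A0 ε := by
        rw [A0, hre]
        linarith
      exact pow_le_pow_left₀ (by norm_num) a2 2
  have l2 := cT_le hT (gg1.sub gp) (f := fun A => (1 + 2 / R) * c / R ^ 2 / A ^ 2)
    (ContinuousOn.div continuousOn_const (continuousOn_id.pow 2)
      fun x hx => pow_ne_zero 2 (ne_of_gt hx)) fun ε hε _ => hd ε hε
  have l3 := int_A2 hT _ ha
  rw [e1] at l1
  rw [e2] at l2
  rw [neg_im] at pr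
  have f1 : 8 / R * ((1 + 2 / R) * c / R ^ 2 / (3 / 4) ^ 2)
      = (1 + 2 / R) * c * (128 / 9 / R ^ 3) := by field_simp; ring
  have f2 : (1 + 2 / R) * c / R ^ 2 / (8 / R) = (1 + 2 / R) * c * (1 / (8 * R)) := by field_simp
  have f3 : (1 + 2 / R) * c * (128 / 9 / R ^ 3) ≤ (1 + 2 / R) * c * (14.3 / R ^ 3) :=
    mul_le_mul_of_nonneg_left (div_le_div_of_nonneg_right (by norm_num) (by positivity))
      (by positivity)
  rw [f1] at l1
  rw [f2] at l3
  rw [mul_add ((1 + 2 / R) * c), abs_le]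
  rw [abs_le] at l1 l2
  constructor <;> linarith [l1.1, l1.2, l2.1, l2.2]

theorem W0_corner (h1 : γ ^ 2 ≤ 1) (hl : 0 ≤ l) (hR : 30 ≤ R) :
    -(W0 γ l ((8 / R : ℝ) * I) R).im ≤ 2.3 / √R ∧
    ‖ww γ l ((8 / R : ℝ) * I) R / (√R : ℝ) - W0 γ l ((8 / R : ℝ) * I) R‖ ≤ 0.02 / R := by
  have hR0 : 0 < R := by linarith
  have hT : 0 < 8 / R := by positivity
  have hU := vb_UU hT
  obtain ⟨x1, x2, y1, y2, -, -⟩ := Ec_right h1 hT.le
  obtain ⟨q1, q2⟩ := dt_Q γ l ((8 / R : ℝ) * I) R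
  obtain ⟨s1, s2, s3, -, -, s6, s7⟩ := sqrt_facts (Qc_im_neg (l := l) h1 hU hR0)
  obtain ⟨t1, t2, -⟩ := sqrt_facts (wq_im_neg (l := l) h1 hU hR0)
  have r1 : (((8 / R : ℝ) : ℂ) * I).re = 0 := by rw [mul_I_re, ofReal_im, neg_zero]
  have r2 : (((8 / R : ℝ) : ℂ) * I).im = 8 / R := by rw [mul_I_im, ofReal_re]
  rw [r1] at q1
  rw [r2] at q2
  have hw := ww_sq γ l ((8 / R : ℝ) * I) R
  rw [wq_eq γ l _ hR0, ← W0_sq] at hw
  have s4 := congrArg Complex.re s3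
  have s8 := (neg_le_abs _).trans (abs_im_le_norm (Qc γ l ((8 / R : ℝ) * I) R))
  rw [← s7, q2] at s8
  rw [q1, sq, mul_re] at s4
  rw [q2] at s6
  change 0 < (W0 γ l ((8 / R : ℝ) * I) R).re at s1
  change (W0 γ l ((8 / R : ℝ) * I) R).im < 0 at s2
  change (W0 γ l ((8 / R : ℝ) * I) R).re * (W0 γ l ((8 / R : ℝ) * I) R).re
    - (W0 γ l ((8 / R : ℝ) * I) R).im * (W0 γ l ((8 / R : ℝ) * I) R).im = _ at s4
  change 2 * (W0 γ l ((8 / R : ℝ) * I) R).re * (W0 γ l ((8 / R : ℝ) * I) R).im = _ at s6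
  change _ ≤ ‖W0 γ l ((8 / R : ℝ) * I) R‖ ^ 2 at s8
  change 0 < (ww γ l ((8 / R : ℝ) * I) R).re at t1
  change (ww γ l ((8 / R : ℝ) * I) R).im < 0 at t2
  generalize W0 γ l ((8 / R : ℝ) * I) R = W at *
  generalize ww γ l ((8 / R : ℝ) * I) R = w at *
  generalize (Ec γ ((8 / R : ℝ) * I)).re = x at *
  generalize (Ec γ ((8 / R : ℝ) * I)).im = y at *
  have hs : 0 < √R := Real.sqrt_pos.2 hR0
  have hss : √R ^ 2 = R := Real.sq_sqrt hR0.le
  have hT2 : 8 / R ≤ 4 / 15 := by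
    rw [div_le_iff₀ hR0]
    linarith
  have u0 : 0 < 1 / R := by positivity
  constructor
  · have x3 : x ≤ 1.009 := by nlinarith
    have y3 : y ≤ 0.134 := by linarith
    have e1 : 2 * x / R = 2 * x * (1 / R) := by ring
    have e2 : 2 * y / R + 8 / R = (2 * y + 8) * (1 / R) := by ring
    have e3 : (2.3 / √R) ^ 2 = 5.29 * (1 / R) := by
      rw [div_pow, hss]
      ring
    have p0 : 0 ≤ l * (l + 1) / R ^ 2 := by positivity
    rw [e1] at s4
    rw [e2] at s6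
    refine le_of_sq_le_sq ?_ (by positivity)
    rw [e3]
    generalize 1 / R = u at *
    by_contra hn
    have n1 : 5.29 * u < W.im ^ 2 := by
      rw [← neg_sq]
      exact lt_of_not_ge hn
    have n2 : 3.272 * u < W.re ^ 2 := by nlinarith
    have n3 : 5.29 * u * (3.272 * u) < W.im ^ 2 * W.re ^ 2 :=
      mul_lt_mul'' n1 n2 (by positivity) (by positivity)
    have n4 : 4 * (W.im ^ 2 * W.re ^ 2) = ((2 * y + 8) * u) ^ 2 := by
      rw [← neg_sq ((2 * y + 8) * u), ← s6]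
      ring
    have n5 : ((2 * y + 8) * u) ^ 2 ≤ (8.268 * u) ^ 2 :=
      pow_le_pow_left₀ (by positivity) (mul_le_mul_of_nonneg_right (by linarith) u0.le) 2
    nlinarith [sq_nonneg u]
  · have hsc : ((√R : ℝ) : ℂ) ≠ 0 := Complex.ofReal_ne_zero.2 hs.ne'
    have hRc : (R : ℂ) ≠ 0 := Complex.ofReal_ne_zero.2 hR0.ne'
    have hsq : ((√R : ℝ) : ℂ) ^ 2 = R := by exact_mod_cast hss
    have e1 : (w / (√R : ℝ) - W) * (w / (√R : ℝ) + W) = ((3 / (16 * R ^ 2) : ℝ) : ℂ) := by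
      have : (w / (√R : ℝ) - W) * (w / (√R : ℝ) + W) = w ^ 2 / ((√R : ℝ) : ℂ) ^ 2 - W ^ 2 := by
        ring
      rw [this, hsq, hw]
      push_cast
      field_simp
      ring
    have v1 : 0 < (w / (√R : ℝ)).re := by
      rw [div_ofReal_re]
      positivity
    have v2 : (w / (√R : ℝ)).im < 0 := by
      rw [div_ofReal_im]
      exact div_neg_of_neg_of_pos t2 hs
    generalize w / (√R : ℝ) = v at *
    have n1 : ‖W‖ ≤ ‖v + W‖ := by
      refine rho_nle ?_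
      rw [add_re, add_im]
      nlinarith
    have n2 : 9.375 / R ≤ ‖W‖ := by
      refine le_of_sq_le_sq ?_ (norm_nonneg _)
      have a1 : (9.375 / R) ^ 2 ≤ 8 / R := by
        rw [div_pow, div_le_div_iff₀ (by positivity) hR0]
        nlinarith
      have a2 : 0 ≤ 2 * y / R := by positivity
      linarith
    have n3 : ‖v - W‖ * ‖v + W‖ = 3 / (16 * R ^ 2) := by
      rw [← norm_mul, e1, Complex.norm_real, Real.norm_eq_abs, abs_of_pos (by positivity)]
    have n4 : 0.02 / R * (9.375 / R) = 3 / (16 * R ^ 2) := by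
      field_simp
      norm_num
    have n5 : 0 < 9.375 / R := by positivity
    refine le_of_mul_le_mul_right ?_ n5
    rw [n4, ← n3]
    exact mul_le_mul_of_nonneg_left (n2.trans n1) (norm_nonneg _)

theorem gg_right_main (h1 : γ ^ 2 ≤ 1) (hl : 0 ≤ l) (hR : 100 ≤ R) (hb : bb l ≤ U)
    (hU : U ≤ R / 2) {θ ρ : ℝ} (hθ : 0 < θ) (hθ' : θ ≤ 8 / R)
    (hρ : ρ = 0.55 * (0.31 * (U / R) + 0.5 / √R)) :
    ‖rp1 γ l R (θ * I)‖ ≤ ρ ∧ ‖gg γ l R (θ * I) - (√R : ℝ) / (2 * ww γ l (θ * I) R)‖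
      ≤ R / (2 * √(2 * R - U)) * ((rmB R (U / R) θ * (1 + 2 * ρ) + ρ) / (1 - 3 * ρ)) := by
  have hR0 : 0 < R := by linarith
  have hB : 1 / 4 < 2 * R - U := by linarith
  have hb' : 2 * R - U ≤ 2 * R - bb l := by linarith
  have hU0 : 0 ≤ U := (vb_bb hl).le.trans hb
  obtain ⟨-, hV, hp, hn, -, hm, hg, p1, -⟩ := vb_data h1 hl hθ hB hb'
  have hV' := VV_le hR hU0 hU
  have hs : 10 ≤ √R := Real.le_sqrt_of_sq_le (by linarith)
  have hs0 : 0 < √R := by linarith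
  have t1 : U / R ≤ 1 / 2 := (div_le_iff₀ hR0).2 (by linarith)
  have y1 : 0.5 / √R ≤ 0.05 := (div_le_iff₀ hs0).2 (by linarith)
  have r1 : ‖rp1 γ l R (θ * I)‖ ≤ ρ := by
    refine (rp1_le h1 hl hθ hB hb').trans ((div_le_iff₀ (by linarith)).2 ?_)
    have a1 : VV R (2 * R - U) ≤ 0.55 * (VV R (2 * R - U) + 1) := by linarith
    have a2 : VV R (2 * R - U) - 1 ≤ 0.31 * (U / R) + 0.5 / √R := by linarith
    calc _ ≤ 0.55 * (VV R (2 * R - U) + 1) * (0.31 * (U / R) + 0.5 / √R) :=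
          mul_le_mul a1 a2 (by linarith) (by linarith)
      _ = _ := by rw [hρ]; ring
  refine ⟨r1, ?_⟩
  have ρ0 : 0 ≤ ρ := (norm_nonneg _).trans r1
  have ρ1 : 0 < 1 - 3 * ρ := by rw [hρ]; linarith
  have hn' : (np γ l R (θ * I)).im < 0 := by
    have : 0 < -(ww γ l (θ * I) R).im / VV R (2 * R - U) := div_pos hp (by linarith)
    linarith
  have ne : ∀ z : ℂ, z.im < 0 → z ≠ 0 := fun z hz h => by
    rw [h, zero_im] at hz
    exact lt_irrefl _ hz
  have e := rf_g (w := ww γ l (θ * I) R) (m := nm γ l R (θ * I)) (p := np γ l R (θ * I))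
    (ne _ (by linarith)) (ne _ (by rw [add_im]; linarith)) (ne _ (by rw [add_im]; linarith))
    (ne _ (by rw [add_im]; linarith))
  have m1 := rm1_le h1 hl hR hb hU hθ hθ'
  have m3 := rm1_three (γ := γ) (r := R) h1 hl hθ (by linarith)
  rw [hg, div_eq_mul_one_div, div_eq_mul_one_div (_ : ℂ) (2 * _), ← mul_sub, e]
  rw [rm1] at m1 m3
  rw [rp1] at r1
  generalize rf (ww γ l (θ * I) R) (nm γ l R (θ * I)) = a at m1 m3
  generalize rf (ww γ l (θ * I) R) (np γ l R (θ * I)) = b at r1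
  have n1 : ‖a + b + 2 * (a * b)‖ ≤ rmB R (U / R) θ * (1 + 2 * ρ) + ρ := by
    refine (norm_add_le _ _).trans ((add_le_add (norm_add_le _ _) le_rfl).trans ?_)
    rw [norm_mul, norm_mul, norm_ofNat]
    have := mul_le_mul m1 r1 (norm_nonneg _) ((norm_nonneg _).trans m1)
    linarith
  have n2 : 1 - 3 * ρ ≤ ‖1 - a * b‖ := by
    have := norm_sub_norm_le (1 : ℂ) (a * b)
    rw [norm_one, norm_mul] at this
    have h2 := mul_le_mul m3 r1 (norm_nonneg _) (by norm_num)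
    linarith
  have hq : 0 < √(2 * R - U) := Real.sqrt_pos.2 (by linarith)
  have n3 : √(2 * R - U) / √R ≤ ‖ww γ l (θ * I) R‖ := by
    refine le_trans (vb_sq (neg_pos.1 hp) ?_) ((neg_le_abs _).trans (abs_im_le_norm _))
    rw [div_pow, Real.sq_sqrt (by linarith), Real.sq_sqrt hR0.le]
    exact p1
  rw [norm_mul, norm_div, norm_mul, norm_mul, norm_ofNat, norm_real, Real.norm_of_nonneg hs0.le]
  have n4 : 2 * (√(2 * R - U) / √R) * (1 - 3 * ρ) ≤ 2 * ‖ww γ l (θ * I) R‖ * ‖1 - a * b‖ :=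
    mul_le_mul (by linarith) n2 ρ1.le (by positivity)
  refine (mul_le_mul_of_nonneg_left (div_le_div₀ ((norm_nonneg _).trans n1) n1 (by positivity) n4)
    hs0.le).trans (le_of_eq ?_)
  have hs2 : R = √R * √R := (Real.mul_self_sqrt hR0.le).symm
  generalize rmB R (U / R) θ * (1 + 2 * ρ) + ρ = X
  generalize √(2 * R - U) = q at hq
  generalize √R = s at hs0 hs2
  subst hs2
  field_simp

theorem eR_le {s t : ℝ} (hs : 10 ≤ s) (ht : 0 ≤ t) (ht' : t ≤ 1 / 2) {ρ : ℝ}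
    (hρ : ρ = 0.55 * (0.31 * t + 0.5 / s)) :
    1.01 / (s * √(2 - t)) * (((1 + 0.92 * t) * (1 / (0.375 * s - 0.92 - 1.04 * t)
        + 4 * ((0.28 + 0.25 * t) / s + t / 4)) * (1 + 2 * ρ) + 4 * ρ) / (1 - 3 * ρ))
      ≤ (5.1 + 60 * t) / s ^ 2 + 3 * t / s := by
  have s0 : 0 < s := by linarith
  obtain ⟨y, hy⟩ : ∃ y, y = 1 / s := ⟨_, rfl⟩
  have y0 : 0 < y := by rw [hy]; positivity
  have y1 : y ≤ 0.1 := by rw [hy, div_le_iff₀ s0]; linarith
  have d1 : ∀ a : ℝ, a / s = a * y := fun a => by rw [hy]; ring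
  have d2 : ∀ a : ℝ, a / s ^ 2 = a * y ^ 2 := fun a => by rw [hy]; ring
  rw [d1] at hρ
  have ρ0 : 0 ≤ ρ := by rw [hρ]; positivity
  have ρ1 : ρ ≤ 0.0275 + 0.1705 * t := by linarith
  have ρ2 : ρ ≤ 0.08525 + 0.275 * y := by linarith
  have ρ3 : 0 < 1 - 3 * ρ := by linarith
  have tt : t ^ 2 ≤ t / 2 := by nlinarith
  have q1 : 1.41 - 0.38 * t ≤ √(2 - t) := Real.le_sqrt_of_sq_le (by nlinarith)
  have q0 : 0 < √(2 - t) := by linarith
  have a1 : 1 / √(2 - t) ≤ 0.71 + 0.23 * t := by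
    rw [div_le_iff₀ q0]
    have := mul_le_mul_of_nonneg_left q1 (show 0 ≤ 0.71 + 0.23 * t by positivity)
    nlinarith
  have a2 : 1 / (1 - 3 * ρ) ≤ 1 + 4.54 * ρ := by
    rw [div_le_iff₀ ρ3]
    have : ρ * ρ ≤ ρ * 0.11275 := mul_le_mul_of_nonneg_left (by linarith) ρ0
    nlinarith
  have a3 : 1 / (0.375 * s - 0.92 - 1.04 * t) ≤ (3.534 + 1.6 * t) * y := by
    have b1 : (0.283 - 0.104 * t) * s ≤ 0.375 * s - 0.92 - 1.04 * t := by nlinarith
    have b2 : 0 < (0.283 - 0.104 * t) * s := mul_pos (by linarith) s0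
    refine (one_div_le_one_div_of_le b2 b1).trans ?_
    rw [← d1, div_le_div_iff₀ b2 s0, ← mul_assoc]
    exact mul_le_mul_of_nonneg_right (by nlinarith) s0.le
  have a0 : 0 ≤ 1 / (0.375 * s - 0.92 - 1.04 * t) := by
    have : 0 < 0.375 * s - 0.92 - 1.04 * t := by linarith
    positivity
  obtain ⟨F, hF⟩ : ∃ F, F = 1.01 * (1 / √(2 - t) * (1 / (1 - 3 * ρ))) := ⟨_, rfl⟩
  have F0 : 0 ≤ F := by rw [hF]; positivity
  have F3 : 1 / √(2 - t) * (1 / (1 - 3 * ρ)) ≤ (0.71 + 0.23 * t) * (1 + 4.54 * ρ) :=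
    mul_le_mul a1 a2 (by positivity) (by positivity)
  have F1 : F ≤ 0.81 + 0.91 * t := by
    have := mul_le_mul_of_nonneg_left (show 1 + 4.54 * ρ ≤ 1.12485 + 0.77407 * t by linarith)
      (show 0 ≤ 0.71 + 0.23 * t by positivity)
    linarith only [this, tt, ht, hF, F3]
  have F2 : F ≤ 1.16 + 1.1 * y := by
    have := mul_le_mul_of_nonneg_right (show 0.71 + 0.23 * t ≤ 0.825 by linarith)
      (show 0 ≤ 1 + 4.54 * ρ by positivity)
    linarith
  obtain ⟨P, hP⟩ : ∃ P, P = (1 + 0.92 * t) * (1 + 2 * ρ) := ⟨_, rfl⟩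
  have P0 : 0 ≤ P := by rw [hP]; positivity
  have P1 : P ≤ 1.055 + 1.47 * t := by
    have := mul_le_mul_of_nonneg_left (show 1 + 2 * ρ ≤ 1.055 + 0.341 * t by linarith)
      (show 0 ≤ 1 + 0.92 * t by positivity)
    linarith only [this, tt, ht, hP]
  have c1 : P * (4.654 + 2.6 * t) + 1.1 ≤ 6.01 + 11.5 * t := by
    have := mul_le_mul_of_nonneg_right P1 (show 0 ≤ 4.654 + 2.6 * t by positivity)
    linarith only [this, tt, ht]
  have c2 : F * (P * (4.654 + 2.6 * t) + 1.1) ≤ 5.1 + 30 * t := by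
    have := mul_le_mul F1 c1 (by positivity) (by positivity)
    linarith only [this, tt, ht]
  have c3 : F * (P + 0.682) ≤ 3 + 30 * y := by
    have := mul_le_mul F2 (show P + 0.682 ≤ 2.48 by linarith) (by positivity) (by positivity)
    linarith
  generalize 1 / (0.375 * s - 0.92 - 1.04 * t) = c at a3 a0
  have c4 : (1 + 0.92 * t) * (c + 4 * ((0.28 + 0.25 * t) / s + t / 4)) * (1 + 2 * ρ) + 4 * ρ
      ≤ (P * (4.654 + 2.6 * t) + 1.1) * y + (P + 0.682) * t := by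
    have := mul_le_mul_of_nonneg_left a3 P0
    have e : (1 + 0.92 * t) * (c + 4 * ((0.28 + 0.25 * t) * y + t / 4)) * (1 + 2 * ρ)
        = P * c + P * (1.12 + t) * y + P * t := by rw [hP]; ring
    rw [d1, e]
    linarith only [this, hρ]
  generalize (1 + 0.92 * t) * (c + 4 * ((0.28 + 0.25 * t) / s + t / 4)) * (1 + 2 * ρ) + 4 * ρ = X
    at c4
  have e : 1.01 / (s * √(2 - t)) * (X / (1 - 3 * ρ)) = y * (F * X) := by
    rw [hF, hy]
    field_simp
  rw [e, d1, d2]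
  have c5 := mul_le_mul_of_nonneg_left c4 F0
  have c6 := mul_le_mul_of_nonneg_right c2 y0.le
  have c7 := mul_le_mul_of_nonneg_right c3 ht
  have c8 : F * X ≤ (5.1 + 60 * t) * y + 3 * t := by linarith only [c5, c6, c7]
  have := mul_le_mul_of_nonneg_left c8 y0.le
  linarith only [this]

theorem d2b_Fs (h1 : γ ^ 2 ≤ 1) {T : ℝ} (hT : 0 < T) (R : ℝ) : Good T (Fs γ R) := by
  have e : Fs γ R = fun z => (γ ^ 2 / R : ℝ) / Ec γ z + (1 : ℝ) := funext fun z => by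
    rw [Fs]
    push_cast
    ring
  rw [e]
  exact Good.of_cont hT (Wt_inv h1 _ _).1.continuousOn

theorem d2b_norm (h1 : γ ^ 2 ≤ 1) (hR : 100 ≤ R) {θ : ℝ} (hθ : 0 ≤ θ) :
    ‖Fs γ R (θ * I)‖ ≤ 1.01 := by
  have e := (Ec_right h1 hθ).2.2.2.2.2
  refine (norm_add_le _ _).trans ?_
  rw [norm_one, norm_div, norm_mul, norm_pow, norm_real, norm_real, Real.norm_eq_abs, sq_abs,
    Real.norm_of_nonneg (show 0 ≤ R by linarith)]
  have h2 : 1 * 100 ≤ ‖Ec γ (θ * I)‖ * R := mul_le_mul e hR (by norm_num) (norm_nonneg _)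
  have h3 : γ ^ 2 / (‖Ec γ (θ * I)‖ * R) ≤ 0.01 := (div_le_iff₀ (by linarith)).2 (by linarith)
  linarith

theorem d2b_ww (h1 : γ ^ 2 ≤ 1) (hl : 0 ≤ l) (hR : 100 ≤ R) (hb : bb l ≤ R / 2) :
    Good (8 / R) fun z => (√R : ℝ) / (2 * ww γ l z R) := by
  have hR0 : 0 < R := by linarith
  have hT : 0 < 8 / R := by positivity
  refine ⟨continuousOn_const.div (continuousOn_const.mul fun z hz =>
    (ww_diff h1 hz hR0).continuousAt.continuousWithinAt) fun z hz => mul_ne_zero two_ne_zero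
    fun h => ?_, √R / 2, fun z hz => ?_⟩
  · have := (sqrt_facts (wq_im_neg (l := l) h1 hz hR0)).2.1
    rw [← ww, h, zero_im] at this
    exact lt_irrefl _ this
  have hu := Sides_subset hT hz
  have w1 : ‖ww γ l z R‖ ^ 2 = ‖wq γ l z R‖ := (sqrt_facts (wq_im_neg (l := l) h1 hu hR0)).2.2.2.2.2.2
  have b0 : 0 < bb l / R := div_pos (vb_bb hl) hR0
  have b1 : bb l / R ≤ 1 / 2 := (div_le_iff₀ hR0).2 (by linarith)
  have w2 : 1 ≤ ‖wq γ l z R‖ := by
    obtain ⟨a1, a2⟩ := abs_le.1 (abs_re_le_norm (wq γ l z R))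
    have a3 := (abs_le.1 (abs_im_le_norm (wq γ l z R))).1
    rw [wq_re] at a1 a2
    rw [wq_im] at a3
    rcases hz with ⟨h | h, h2, h3⟩ | ⟨-, -, h⟩
    · have := (ell_basic h1 (by linarith) (.inl ⟨h, h2, h3⟩)).2.2.2.2.2.2.2.2.1
      rw [h] at a2
      linarith
    · have e : z = z.im * I := by
        refine Complex.ext ?_ ?_
        · simpa using h
        · simp
      have := (Ec_right h1 h2.le).1
      rw [← e] at this
      rw [h] at a1
      linarith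
    · have := Ec_im_nonneg h1 hu.1 hu.2.le
      rw [h, div_mul_cancel₀ _ hR0.ne'] at a3
      linarith
  have w3 : 1 ≤ ‖ww γ l z R‖ := le_of_sq_le_sq (by linarith) (norm_nonneg _)
  rw [norm_div, norm_mul, norm_ofNat, norm_real, Real.norm_of_nonneg (Real.sqrt_nonneg _)]
  exact div_le_div_of_nonneg_left (Real.sqrt_nonneg _) two_pos (by linarith)

theorem d2b_lim (h1 : γ ^ 2 ≤ 1) (hR : 0 < R) (hb : bb l ≤ 2 * R) :
    Tendsto (fun θ : ℝ => (-(ww γ l (θ * I) R / (√R : ℝ))).im) (𝓝[>] 0)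
      (𝓝 (√(2 * R - bb l) / R)) := by
  have o : IsOpen {ε : ℂ | -1 < ε.re} := isOpen_lt continuous_const continuous_re
  have c1 : ContinuousAt (Ec γ) (((0 : ℝ) : ℂ) * I) :=
    ((Ec_diff h1).differentiableAt (o.mem_nhds (by simp))).continuousAt
  have c2 : ContinuousAt (fun θ : ℝ => Ec γ (θ * I)) 0 :=
    ContinuousAt.comp (f := fun θ : ℝ => (θ : ℂ) * I) c1 (by fun_prop)
  have c3 : ContinuousAt (fun θ : ℝ => wq γ l (θ * I) R) 0 := by
    unfold wq
    exact (continuousAt_const.sub (continuousAt_const.mul c2)).sub (by fun_prop)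
  have e0 : wq γ l (((0 : ℝ) : ℂ) * I) R = (-((2 * R - bb l) / R) : ℝ) := by
    have : Ec γ 0 = 1 := by simp [Ec, Complex.sqrt]
    have n : (R : ℂ) ≠ 0 := ofReal_ne_zero.2 hR.ne'
    rw [ofReal_zero, zero_mul, wq, this, bb]
    push_cast
    field_simp
    ring
  have c4 : ContinuousAt
      (fun θ : ℝ => √((‖wq γ l (θ * I) R‖ - (wq γ l (θ * I) R).re) / 2) / √R) 0 :=
    ((c3.norm.sub (continuous_re.continuousAt.comp c3)).div_const 2).sqrt.div_const _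
  have d0 : 0 ≤ (2 * R - bb l) / R := div_nonneg (by linarith) hR.le
  have e1 : √((‖wq γ l (((0 : ℝ) : ℂ) * I) R‖ - (wq γ l (((0 : ℝ) : ℂ) * I) R).re) / 2) / √R
      = √(2 * R - bb l) / R := by
    rw [e0, norm_real, ofReal_re, norm_neg, Real.norm_of_nonneg d0, sub_neg_eq_add, add_self_div_two,
      Real.sqrt_div' _ hR.le, div_div, Real.mul_self_sqrt hR.le]
  rw [← e1]
  refine (c4.tendsto.mono_left nhdsWithin_le_nhds).congr' ?_
  filter_upwards [self_mem_nhdsWithin] with θ hθ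
  obtain ⟨-, a2, -, -, a5, -⟩ := sqrt_facts (wq_im_neg (l := l) h1 (vb_UU hθ) hR)
  rw [neg_im, div_ofReal_im, ← neg_div, ← a5, mul_div_cancel_left₀ _ two_ne_zero, ← neg_sq,
    Real.sqrt_sq (neg_nonneg.2 a2.le), ww]

theorem right_part (h0 : 0 < γ) (h : TopH γ l R) (hL : 4 / 3 < (l + 1) ^ 2 + γ ^ 2)
    (hR : 100 ≤ R) (hb : bb l ≤ U) (hU : U ≤ R / 2) :
    |cR (8 / R) (fun z => Fs γ R z * gg γ l R z)
      + ((ww γ l ((8 / R : ℝ) * I) R).im / √R + √(2 * R - bb l) / R)|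
      ≤ (5.1 + 60 * (U / R)) / R + 3 * (U / R) / √R := by
  have hR0 : 0 < R := by linarith
  have hT : 0 < 8 / R := by positivity
  have hs : 10 ≤ √R := Real.le_sqrt_of_sq_le (by linarith)
  have hs0 : 0 < √R := by linarith
  have hs2 : √R ^ 2 = R := Real.sq_sqrt hR0.le
  have hU0 : 0 ≤ U := (vb_bb h.hl).le.trans hb
  have t0 : 0 ≤ U / R := by positivity
  have t1 : U / R ≤ 1 / 2 := (div_le_iff₀ hR0).2 (by linarith)
  have y1 : 0.5 / √R ≤ 0.05 := (div_le_iff₀ hs0).2 (by linarith)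
  have gF := d2b_Fs h.h1 hT R
  have gg1 := good_gg h0 h.h1 h.hl hL hR0 hT (out_of h.h1 h.hl (by linarith) _)
  have gw := d2b_ww h.h1 h.hl hR (hb.trans hU)
  have pr := prim_right hT (gF.mul gw) (G := fun z => -(ww γ l z R / (√R : ℝ))) (fun z hz => by
    refine ((ww_diff h.h1 hz hR0).div_const _).neg.congr_deriv ?_
    have e : (R : ℂ) = (√R : ℝ) * (√R : ℝ) := by exact_mod_cast (Real.mul_self_sqrt hR0.le).symm
    have n : ((√R : ℝ) : ℂ) ≠ 0 := ofReal_ne_zero.2 hs0.ne'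
    rw [← Fs, neg_div, neg_div, neg_neg, div_eq_iff n]
    calc _ = (√R : ℝ) * (√R : ℝ) * Fs γ R z / (2 * ww γ l z R) := by rw [← e]
      _ = _ := by ring) (d2b_lim h.h1 hR0 (by linarith))
  have i1 := (gF.mul gg1).int_R hT
  have i2 := (gF.mul gw).int_R hT
  have sb : cR (8 / R) (fun z => Fs γ R z * gg γ l R z
      - Fs γ R z * ((√R : ℝ) / (2 * ww γ l z R))) = cR (8 / R) (fun z => Fs γ R z * gg γ l R z)
      - cR (8 / R) (fun z => Fs γ R z * ((√R : ℝ) / (2 * ww γ l z R))) := by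
    unfold cR
    exact intervalIntegral.integral_sub ⟨i1.1.re, i1.2.re⟩ ⟨i2.1.re, i2.2.re⟩
  rw [pr, neg_im, div_ofReal_im] at sb
  have e0 : cR (8 / R) (fun z => Fs γ R z * gg γ l R z)
      + ((ww γ l ((8 / R : ℝ) * I) R).im / √R + √(2 * R - bb l) / R)
      = cR (8 / R) (fun z => Fs γ R z * gg γ l R z
        - Fs γ R z * ((√R : ℝ) / (2 * ww γ l z R))) := by linarith
  rw [e0]
  obtain ⟨ρ, hρ⟩ : ∃ ρ, ρ = 0.55 * (0.31 * (U / R) + 0.5 / √R) := ⟨_, rfl⟩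
  have ρ0 : 0 ≤ ρ := by rw [hρ]; positivity
  have ρ1 : 0 < 1 - 3 * ρ := by rw [hρ]; linarith
  have hq : 0 < √(2 * R - U) := Real.sqrt_pos.2 (by linarith)
  obtain ⟨j1, j2⟩ := rmB_int hR t0 t1
  obtain ⟨c, hc⟩ : ∃ c, c = 1.01 * (R / (2 * √(2 * R - U))) / (1 - 3 * ρ) := ⟨_, rfl⟩
  have c0 : 0 ≤ c := by rw [hc]; positivity
  refine (cR_le hT ((gF.mul gg1).sub (gF.mul gw))
    (f := fun θ => c * (1 + 2 * ρ) * rmB R (U / R) θ + c * ρ)
    ((j1.const_mul _).add intervalIntegrable_const) fun θ hθ hθ' => ?_).trans ?_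
  · refine (abs_re_le_norm _).trans ?_
    rw [← mul_sub, norm_mul]
    refine (mul_le_mul (d2b_norm h.h1 hR hθ.le) (gg_right_main h.h1 h.hl hR hb hU hθ hθ' hρ).2
      (norm_nonneg _) (by norm_num)).trans (le_of_eq ?_)
    rw [hc]
    ring
  · rw [intervalIntegral.integral_add (j1.const_mul _) intervalIntegrable_const,
      intervalIntegral.integral_const_mul, intervalIntegral.integral_const, sub_zero, smul_eq_mul]
    have k1 := eR_le hs t0 t1 hρ
    rw [hs2] at k1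
    refine le_trans ?_ k1
    have k2 := mul_le_mul_of_nonneg_left j2 (show 0 ≤ c * (1 + 2 * ρ) by positivity)
    refine (add_le_add k2 le_rfl).trans (le_of_eq ?_)
    have e : √R * √(2 - U / R) = √(2 * R - U) := by
      rw [← Real.sqrt_mul hR0.le, mul_sub, mul_div_cancel₀ _ hR0.ne', mul_comm R]
    rw [e, hc]
    generalize (1 + 0.92 * (U / R)) * (1 / (0.375 * √R - 0.92 - 1.04 * (U / R))
      + 4 * ((0.28 + 0.25 * (U / R)) / √R + U / R / 4)) = K
    field_simp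
    ring

/-- two sided estimate of the weighted density -/
theorem DS_two (h0 : 0 < γ) (h : TopH γ l R) (hL : 4 / 3 < (l + 1) ^ 2 + γ ^ 2)
    (hR : 100 ≤ R) (hb : bb l ≤ U) (hU : U ≤ R / 2) :
    |Real.pi * DS γ l R - √(2 * R - bb l) / R|
      ≤ (11 / 2 + 60 * (U / R)) / R + 3 * (U / R) / √R := by
  have hR0 : 0 < R := by linarith
  have hT : 0 < 8 / R := by positivity
  have hB : 1 / 4 < 2 * R - bb l := by linarith
  have hl2 : l * (l + 1) ≤ R / 2 := by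
    have := hb
    rw [bb] at this
    linarith
  have d := DS_ctr h0 h.h1 h.hl hL hR0 hT (out_of h.h1 h.hl hB _)
  have a := ell_part h0 h hL hB (c := 2.1) (by norm_num) fun ε hε => gg_ell1 h hR hl2 hε
  have b := right_part h0 h hL hR hb hU
  have c := (abs_im_le_norm _).trans (W0_corner h.h1 h.hl h.hR).2
  rw [sub_im, div_ofReal_im] at c
  change _ = cL (8 / R) (fun z => Fs γ R z * gg γ l R z) + cT (8 / R) (fun z => Fs γ R z * gg γ l R z)
    - cR (8 / R) (fun z => Fs γ R z * gg γ l R z) at d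
  have n : (1 + 2 / R) * 2.1 * (1 / (8 * R) + 14.3 / R ^ 3) ≤ 0.3 / R := by
    have e1 : (1 + 2 / R) * 2.1 * (1 / (8 * R) + 14.3 / R ^ 3)
        = (1 + 2 * (1 / R)) * 2.1 * (1 / 8 + 14.3 * (1 / R) ^ 2) / R := by field_simp
    have u0 : 0 < 1 / R := by positivity
    have u1 : 1 / R ≤ 1 / 100 := one_div_le_one_div_of_le (by norm_num) hR
    rw [e1]
    refine div_le_div_of_nonneg_right ?_ hR0.le
    have u2 : (1 / R) ^ 2 ≤ (1 / 100) ^ 2 := pow_le_pow_left₀ u0.le u1 2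
    calc _ ≤ (1 + 2 * (1 / 100 : ℝ)) * 2.1 * (1 / 8 + 14.3 * (1 / 100) ^ 2) := by gcongr
      _ ≤ 0.3 := by norm_num
  have e2 : (11 / 2 + 60 * (U / R)) / R
      = (5.1 + 60 * (U / R)) / R + 0.3 / R + 0.02 / R + 0.08 / R := by ring
  have p : 0 < 0.08 / R := by positivity
  rw [d, e2, abs_le]
  rw [abs_le] at a b c
  constructor <;> linarith [a.1, a.2, b.1, b.2, c.1, c.2]

theorem DD_le_D1 (h0 : 0 < γ) (h : TopH γ l R) (hL : 4 ≤ (l + 1) ^ 2 + γ ^ 2)
    (hR : 100 ≤ R) (hb : bb l ≤ U) (hU : U ≤ R / 2) : DD γ l R ≤ D1 R U := by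
  have hR0 : 0 < R := by linarith
  have a := (abs_le.1 (DS_two h0 h (by linarith) hR hb hU)).2
  have b := (DD_le_DS h.h1 h.hl hL hR0).1
  have c : √(2 * R - bb l) / R ≤ √(2 / R) := by
    refine Real.le_sqrt_of_sq_le ?_
    rw [div_pow, Real.sq_sqrt (by linarith), div_le_div_iff₀ (by positivity) hR0]
    nlinarith [vb_bb h.hl]
  rw [D1, le_div_iff₀ Real.pi_pos]
  nlinarith [Real.pi_pos]

theorem dt_right (h1 : γ ^ 2 ≤ 1) (hl : 0 ≤ l) (hR : 30 ≤ R) (hB : 1 / 4 < B)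
    (hb : B ≤ 2 * R - bb l) {θ : ℝ} (hθ : 0 < θ) (hθ' : θ ≤ 8 / R) :
    |(Fs γ R (θ * I) * gg γ l R (θ * I)).re| ≤ 0.74 * VV R B * θ ^ (-1 / 2 : ℝ) := by
  have hR0 : 0 < R := by linarith
  have hV : 0 < VV R B := by linarith [one_lt_VV hB (by linarith [vb_bb hl] : B ≤ 2 * R)]
  obtain ⟨-, g2, g3, -⟩ := gg_right h1 hl hθ hB hb
  obtain ⟨x1, -, y1, y2, -, n1⟩ := Ec_right h1 hθ.le
  have hs : 0 < √θ := Real.sqrt_pos.2 hθ
  have hss : √θ ^ 2 = θ := Real.sq_sqrt hθ.le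
  have e0 : θ ^ (-1 / 2 : ℝ) = 1 / √θ := by
    rw [Real.sqrt_eq_rpow, neg_div, Real.rpow_neg hθ.le, one_div (θ ^ (1 / 2 : ℝ))]
  have g4 : |(gg γ l R (θ * I)).re| ≤ 0.7072 * (VV R B / √θ) := by
    refine g3.trans ?_
    have a1 : √θ / 0.7072 ≤ √(2 * θ) := by
      refine Real.le_sqrt_of_sq_le ?_
      rw [div_pow, hss, div_le_iff₀ (by norm_num)]
      nlinarith
    calc _ ≤ VV R B / (√θ / 0.7072) := div_le_div_of_nonneg_left hV.le (by positivity) a1
      _ = _ := by field_simp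
  have g5 : |(gg γ l R (θ * I)).im| ≤ 1.5 * (VV R B / √θ) := by
    refine (abs_im_le_norm _).trans (le_of_sq_le_sq (g2.trans ?_) (by positivity))
    rw [mul_pow, div_pow, hss, mul_div_assoc]
    exact mul_le_mul_of_nonneg_right (by norm_num) (by positivity)
  have u1 : 1 / R ≤ 1 / 30 := one_div_le_one_div_of_le (by norm_num) hR
  have f1 : |(Fs γ R (θ * I)).re| ≤ 1 + 1 / 30 := by
    refine (abs_re_le_norm _).trans ((norm_add_le _ _).trans ?_)
    have := dt_q_le h1 hR0 one_pos n1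
    rw [one_mul] at this
    rw [norm_one]
    linarith
  have f2 : |(Fs γ R (θ * I)).im| ≤ 4 / 900 := by
    have e1 : Fs γ R (θ * I) = 1 + ((γ ^ 2 / R : ℝ) : ℂ) * (Ec γ (θ * I))⁻¹ := by
      rw [Fs]
      push_cast
      ring
    have a1 : 1 ≤ normSq (Ec γ (θ * I)) := by
      rw [Complex.normSq_eq_norm_sq]
      nlinarith
    have a2 : (Ec γ (θ * I)).im / normSq (Ec γ (θ * I)) ≤ θ / 2 :=
      (div_le_self y1 a1).trans y2
    have a3 : 0 ≤ (Ec γ (θ * I)).im / normSq (Ec γ (θ * I)) := div_nonneg y1 (by linarith)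
    have a4 : γ ^ 2 / R ≤ 1 / 30 := (div_le_div_of_nonneg_right h1 hR0.le).trans u1
    have a5 : θ ≤ 8 / 30 := hθ'.trans (div_le_div_of_nonneg_left (by norm_num) (by norm_num) hR)
    have a6 : 0 ≤ γ ^ 2 / R := by positivity
    rw [e1, add_im, one_im, zero_add, im_ofReal_mul, inv_im, neg_div, mul_neg, abs_neg,
      abs_of_nonneg (mul_nonneg a6 a3)]
    calc _ ≤ 1 / 30 * (4 / 30) := mul_le_mul a4 (by linarith) a3 (by norm_num)
      _ = _ := by norm_num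
  have hq : 0 < VV R B / √θ := by positivity
  rw [mul_re, e0, mul_assoc, mul_one_div]
  refine (abs_sub _ _).trans ?_
  rw [abs_mul, abs_mul]
  have k1 := mul_le_mul f1 g4 (abs_nonneg _) (by norm_num)
  have k2 := mul_le_mul f2 g5 (abs_nonneg _) (by norm_num)
  linarith

theorem DD_le_D2 (h0 : 0 < γ) (h : TopH γ l R) (hL : 4 ≤ (l + 1) ^ 2 + γ ^ 2)
    (hB : 1 / 4 < B) (hb : B ≤ 2 * R - bb l) : DD γ l R ≤ D2 R B := by
  have hR := h.hR
  have hR0 : 0 < R := by linarith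
  have hT : 0 < 8 / R := by positivity
  have hB' : 1 / 4 < 2 * R - bb l := by linarith
  have hL' : 4 / 3 < (l + 1) ^ 2 + γ ^ 2 := by linarith
  have hV : 0 < VV R B := by linarith [one_lt_VV hB (by linarith [vb_bb h.hl] : B ≤ 2 * R)]
  have ho := out_of h.h1 h.hl hB' (8 / R)
  have d := DS_ctr h0 h.h1 h.hl hL' hR0 hT ho
  change _ = cL (8 / R) (fun z => Fs γ R z * gg γ l R z) + cT (8 / R) (fun z => Fs γ R z * gg γ l R z)
    - cR (8 / R) (fun z => Fs γ R z * gg γ l R z) at d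
  have a := ell_part h0 h hL' hB' (c := 17.5) (by norm_num) fun ε hε => gg_ell2 h hε
  have c := (W0_corner h.h1 h.hl hR).1
  have b := cR_le hT ((dt_Fs_good h.h1 hR0 hT).mul (good_gg h0 h.h1 h.hl hL' hR0 hT ho))
    (f := fun θ => 0.74 * VV R B * θ ^ (-1 / 2 : ℝ))
    ((intervalIntegral.intervalIntegrable_rpow' (by norm_num)).const_mul _)
    fun θ h1 h2 => dt_right h.h1 h.hl hR hB hb h1 h2
  have hs : 0 < √R := Real.sqrt_pos.2 hR0
  have i1 : ∫ θ in (0 : ℝ)..(8 / R), 0.74 * VV R B * θ ^ (-1 / 2 : ℝ)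
      ≤ 21 / 5 * VV R B / √R := by
    rw [intervalIntegral.integral_const_mul, integral_rpow (Or.inl (by norm_num))]
    have e1 : (-1 / 2 + 1 : ℝ) = 1 / 2 := by norm_num
    rw [e1, Real.zero_rpow (by norm_num), sub_zero, ← Real.sqrt_eq_rpow]
    have a1 : √(8 / R) ≤ 2.83 / √R := by
      refine Real.sqrt_le_iff.2 ⟨by positivity, ?_⟩
      rw [div_pow, Real.sq_sqrt hR0.le]
      exact div_le_div_of_nonneg_right (by norm_num) hR0.le
    have a2 : 0 < VV R B / √R := by positivity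
    calc _ ≤ 0.74 * VV R B * (2.83 / √R / (1 / 2)) := by gcongr
      _ = 4.1884 * (VV R B / √R) := by ring
      _ ≤ 21 / 5 * (VV R B / √R) := by linarith
      _ = _ := by ring
  have n : (1 + 2 / R) * 17.5 * (1 / (8 * R) + 14.3 / R ^ 3) ≤ 3 / R := by
    have e1 : (1 + 2 / R) * 17.5 * (1 / (8 * R) + 14.3 / R ^ 3)
        = (1 + 2 * (1 / R)) * 17.5 * (1 / 8 + 14.3 * (1 / R) ^ 2) / R := by field_simp
    have u0 : 0 < 1 / R := by positivity
    have u1 : 1 / R ≤ 1 / 30 := one_div_le_one_div_of_le (by norm_num) hR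
    rw [e1]
    refine div_le_div_of_nonneg_right ?_ hR0.le
    have u2 : (1 / R) ^ 2 ≤ (1 / 30) ^ 2 := pow_le_pow_left₀ u0.le u1 2
    calc _ ≤ (1 + 2 * (1 / 30 : ℝ)) * 17.5 * (1 / 8 + 14.3 * (1 / 30) ^ 2) := by gcongr
      _ ≤ 3 := by norm_num
  have e := (DD_le_DS h.h1 h.hl hL hR0).1
  have e3 : (2.3 : ℝ) / √R = 23 / 10 / √R := by norm_num
  rw [D2, le_div_iff₀ Real.pi_pos]
  have k := mul_le_mul_of_nonneg_right e Real.pi_pos.le
  rw [abs_le] at a b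
  linarith [a.2, b.1]

end Pool.Agent.Lib.MP_2347b2_mp.F
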