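import Pool.Agent.Lib.MP_2347b2_mp.F.Eig

namespace Pool.Agent.Lib.MP_2347b2_mp.F

open MeasureTheory Set Filter Topology

variable {γ l : ℝ}

theorem lagP_integrable {α : ℝ} (hα : -1 < α) (β β' : ℝ) (n m : ℕ) :
    IntegrableOn (fun x : ℝ => x ^ α * Real.exp (-x) * (lagP β n x * lag β' m x)) (Ioi 0) := by
  have h : (fun x : ℝ => x ^ α * Real.exp (-x) * (lagP β n x * lag β' m x))
      = fun x : ℝ => ∑ j ∈ Finset.range n, x ^ α * Real.exp (-x) * (lag β j x * lag β' m x) := by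
    funext x
    rw [lagP, Finset.sum_mul, Finset.mul_sum]
  rw [h]
  exact integrable_finsetSum _ fun j _ => lag_integrable hα β β' j m

/-- orthogonality of Laguerre polynomials -/
theorem lag_orth {α : ℝ} (hα : -1 < α) {n m : ℕ} (h : n ≠ m) :
    ∫ x in Ioi (0 : ℝ), x ^ α * Real.exp (-x) * (lag α n x * lag α m x) = 0 := by
  have hW : ∀ a : ℝ, -1 < a → IntegrableOn (fun x : ℝ => x ^ a * Real.exp (-x)
      * (lagP α n x * lag α m x - lagP α m x * lag α n x)) (Ioi 0) := fun a ha => by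
    refine IntegrableOn.congr_fun ((lagP_integrable ha α α n m).sub (lagP_integrable ha α α m n))
      (fun x _ => ?_) measurableSet_Ioi
    simp only [Pi.sub_apply]
    ring
  have key := integral_deriv_eq_zero
    (f := fun x : ℝ => x ^ (α + 1) * Real.exp (-x)
      * (lagP α n x * lag α m x - lagP α m x * lag α n x))
    (f' := fun x : ℝ => ((n : ℝ) - m) * (x ^ α * Real.exp (-x) * (lag α n x * lag α m x)))
    (fun x hx => by
      have h1 : HasDerivAt (fun x : ℝ => x ^ (α + 1)) ((α + 1) * x ^ α) x := by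
        have := Real.hasDerivAt_rpow_const (x := x) (p := α + 1) (Or.inl hx.ne')
        simpa using this
      have h2 : HasDerivAt (fun x : ℝ => Real.exp (-x)) (Real.exp (-x) * (-1)) x :=
        (hasDerivAt_neg x).exp
      have h3 := ((hasDerivAt_lagP α n hx.ne').mul (hasDerivAt_lag α m x)).sub
        ((hasDerivAt_lagP α m hx.ne').mul (hasDerivAt_lag α n x))
      refine ((h1.mul h2).mul h3).congr_deriv ?_
      simp only [Pi.mul_apply, Pi.sub_apply]
      rw [Real.rpow_add_one hx.ne']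
      field_simp
      ring)
    ((lag_integrable hα α α n m).const_mul _) (hW _ (by linarith))
    (by
      refine IntegrableOn.congr_fun (hW α hα) (fun x hx => ?_) measurableSet_Ioi
      have hx' : (0 : ℝ) < x := hx
      rw [Real.rpow_add_one hx'.ne']
      field_simp)
  rw [integral_const_mul] at key
  have hne : (n : ℝ) - m ≠ 0 := sub_ne_zero.2 (by exact_mod_cast h)
  exact (mul_eq_zero.1 key).resolve_left hne

theorem lag_norm_succ {α : ℝ} (hα : -1 < α) (n : ℕ) :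
    ∫ x in Ioi (0 : ℝ), x ^ (α + 1) * Real.exp (-x) * lag α n x ^ 2
      = (2 * n + α + 1) * (Real.Gamma (n + α + 1) / (n.factorial : ℝ)) := by
  have hN : ∫ x in Ioi (0 : ℝ), x ^ α * Real.exp (-x) * (lag α n x * lag α n x)
      = Real.Gamma (n + α + 1) / (n.factorial : ℝ) := by
    rw [← lag_norm hα n]
    simp only [sq]
  cases n with
  | zero =>
    have e : ∫ x in Ioi (0 : ℝ), x ^ (α + 1) * Real.exp (-x) * lag α 0 x ^ 2
        = ∫ x in Ioi (0 : ℝ), ((α + 1) * (x ^ α * Real.exp (-x) * (lag α 0 x * lag α 0 x))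
          - x ^ α * Real.exp (-x) * (lag α 1 x * lag α 0 x)) := by
      refine setIntegral_congr_fun measurableSet_Ioi fun x hx => ?_
      have hx' : (0 : ℝ) < x := hx
      rw [Real.rpow_add_one hx'.ne', lag_zero, lag_one]
      ring
    rw [e, integral_sub ((lag_integrable hα α α 0 0).const_mul _) (lag_integrable hα α α 1 0),
      integral_const_mul, hN, lag_orth hα (by norm_num)]
    push_cast
    ring
  | succ k =>
    have e : ∫ x in Ioi (0 : ℝ), x ^ (α + 1) * Real.exp (-x) * lag α (k + 1) x ^ 2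
        = ∫ x in Ioi (0 : ℝ), ((2 * k + 3 + α) * (x ^ α * Real.exp (-x)
            * (lag α (k + 1) x * lag α (k + 1) x))
          - (k + 2) * (x ^ α * Real.exp (-x) * (lag α (k + 2) x * lag α (k + 1) x))
          - (k + 1 + α) * (x ^ α * Real.exp (-x) * (lag α k x * lag α (k + 1) x))) := by
      refine setIntegral_congr_fun measurableSet_Ioi fun x hx => ?_
      have hx' : (0 : ℝ) < x := hx
      rw [Real.rpow_add_one hx'.ne']
      have := lag_rec α k x
      linear_combination (x ^ α * Real.exp (-x) * lag α (k + 1) x) * this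
    have i1 : IntegrableOn (fun x : ℝ => (2 * k + 3 + α) * (x ^ α * Real.exp (-x)
            * (lag α (k + 1) x * lag α (k + 1) x))
          - (k + 2) * (x ^ α * Real.exp (-x) * (lag α (k + 2) x * lag α (k + 1) x))) (Ioi 0) :=
      ((lag_integrable hα α α _ _).const_mul _).sub ((lag_integrable hα α α _ _).const_mul _)
    rw [e, integral_sub i1 ((lag_integrable hα α α _ _).const_mul _),
      integral_sub ((lag_integrable hα α α _ _).const_mul _)
        ((lag_integrable hα α α _ _).const_mul _),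
      integral_const_mul, integral_const_mul, integral_const_mul, hN,
      lag_orth hα (n := k + 2) (by omega), lag_orth hα (n := k) (by omega)]
    push_cast
    ring

theorem cf_sq (hl : -1 < l) (n : ℕ) : cf γ l n ^ 2
    = (n.factorial : ℝ) / (Real.Gamma (n + 2 * l + 2) * NN γ l n * nu l n) := by
  have h1 := NN_pos (γ := γ) hl n
  have h2 := nu_pos hl n
  have h3 : 0 < Real.Gamma (n + 2 * l + 2) := Real.Gamma_pos_of_pos (by
    have : (0 : ℝ) ≤ n := Nat.cast_nonneg n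
    linarith)
  rw [cf, Real.sq_sqrt (by positivity)]

theorem ff_sq_eq (hl : -1 < l) (n : ℕ) (p : ℝ) {r : ℝ} (hr : 0 < r) :
    r ^ p * ff γ l n r ^ 2 = cf γ l n ^ 2 * (NN γ l n / 2) ^ p
      * ((2 / NN γ l n * r) ^ (2 * l + 2 + p) * Real.exp (-(2 / NN γ l n * r))
        * lag (2 * l + 1) n (2 / NN γ l n * r) ^ 2) := by
  have h1 := NN_pos (γ := γ) hl n
  have e1 : 2 * r / NN γ l n = 2 / NN γ l n * r := by ring
  have hx : 0 < 2 / NN γ l n * r := by positivity
  have e2 : Real.exp (-(2 / NN γ l n * r)) = Real.exp (-(r / NN γ l n)) ^ 2 := by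
    rw [sq, ← Real.exp_add]
    congr 1
    ring
  have e3 : (2 / NN γ l n * r) ^ (2 * l + 2 + p)
      = ((2 / NN γ l n * r) ^ (l + 1)) ^ 2 * (2 / NN γ l n * r) ^ p := by
    rw [sq, ← Real.rpow_add hx, ← Real.rpow_add hx]
    congr 1
    ring
  have e4 : r ^ p = (NN γ l n / 2) ^ p * (2 / NN γ l n * r) ^ p := by
    rw [← Real.mul_rpow (by positivity) hx.le]
    congr 1
    field_simp
  rw [ff, e1, e2, e3, e4]
  ring

theorem ff_integral (hl : -1 < l) (n : ℕ) (p : ℝ) :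
    ∫ r in Ioi (0 : ℝ), r ^ p * ff γ l n r ^ 2 = cf γ l n ^ 2 * (NN γ l n / 2) ^ p
      * (NN γ l n / 2 * ∫ x in Ioi (0 : ℝ), x ^ (2 * l + 2 + p) * Real.exp (-x)
        * lag (2 * l + 1) n x ^ 2) := by
  have h1 := NN_pos (γ := γ) hl n
  rw [setIntegral_congr_fun measurableSet_Ioi fun r hr => ff_sq_eq hl n p hr, integral_const_mul]
  have := integral_comp_mul_left_Ioi (fun x : ℝ => x ^ (2 * l + 2 + p) * Real.exp (-x)
    * lag (2 * l + 1) n x ^ 2) 0 (b := 2 / NN γ l n) (by positivity)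
  simp only [mul_zero, smul_eq_mul, inv_div] at this
  rw [this]

theorem ff_int (hl : -1 < l) (n : ℕ) {p : ℝ} (hp : -1 < 2 * l + 2 + p) :
    IntegrableOn (fun r : ℝ => r ^ p * ff γ l n r ^ 2) (Ioi 0) := by
  have h1 := NN_pos (γ := γ) hl n
  have h2 : IntegrableOn (fun x : ℝ => x ^ (2 * l + 2 + p) * Real.exp (-x)
      * lag (2 * l + 1) n x ^ 2) (Ioi (2 / NN γ l n * 0)) := by
    rw [mul_zero]
    simpa only [sq] using lag_integrable hp (2 * l + 1) (2 * l + 1) n n
  have h3 := (integrableOn_Ioi_comp_mul_left_iff _ 0 (a := 2 / NN γ l n) (by positivity)).2 h2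
  exact IntegrableOn.congr_fun (h3.const_mul (cf γ l n ^ 2 * (NN γ l n / 2) ^ p))
    (fun r hr => (ff_sq_eq hl n p hr).symm) measurableSet_Ioi

theorem ff_adm (hl : -1 < l) (n : ℕ) : Adm (ff γ l n) := by
  refine ⟨fun r hr => (ff_deriv hl n hr).continuousAt.continuousWithinAt, ?_, ?_⟩
  · simpa using ff_int (γ := γ) hl n (p := 0) (by linarith)
  · refine IntegrableOn.congr_fun (ff_int (γ := γ) hl n (p := -1) (by linarith))
      (fun r _ => ?_) measurableSet_Ioi
    rw [Real.rpow_neg_one]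
    ring

theorem ff_pot (hl : -1 < l) (n : ℕ) :
    ∫ r in Ioi (0 : ℝ), ff γ l n r ^ 2 / r = 1 / (NN γ l n * nu l n) := by
  have h1 := NN_pos (γ := γ) hl n
  have h2 := nu_pos hl n
  have h3 : 0 < Real.Gamma (n + 2 * l + 2) := Real.Gamma_pos_of_pos (by
    have : (0 : ℝ) ≤ n := Nat.cast_nonneg n
    linarith)
  have h4 : (0 : ℝ) < n.factorial := by exact_mod_cast n.factorial_pos
  have e : ∫ r in Ioi (0 : ℝ), ff γ l n r ^ 2 / r
      = ∫ r in Ioi (0 : ℝ), r ^ (-1 : ℝ) * ff γ l n r ^ 2 := by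
    refine setIntegral_congr_fun measurableSet_Ioi fun r _ => ?_
    rw [Real.rpow_neg_one]
    ring
  have e2 : 2 * l + 2 + -1 = 2 * l + 1 := by ring
  have e3 : (n : ℝ) + (2 * l + 1) + 1 = n + 2 * l + 2 := by ring
  rw [e, ff_integral hl, e2, lag_norm (by linarith), e3, cf_sq hl, Real.rpow_neg_one]
  field_simp

theorem ff_norm (hl : -1 < l) (n : ℕ) : ∫ r in Ioi (0 : ℝ), ff γ l n r ^ 2 = 1 := by
  have h1 := NN_pos (γ := γ) hl n
  have h2 := nu_pos hl n
  have h3 : 0 < Real.Gamma (n + 2 * l + 2) := Real.Gamma_pos_of_pos (by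
    have : (0 : ℝ) ≤ n := Nat.cast_nonneg n
    linarith)
  have h4 : (0 : ℝ) < n.factorial := by exact_mod_cast n.factorial_pos
  have e := ff_integral (γ := γ) hl n 0
  have e2 : 2 * l + 2 + 0 = 2 * l + 1 + 1 := by ring
  have e3 : (n : ℝ) + (2 * l + 1) + 1 = n + 2 * l + 2 := by ring
  have e4 : 2 * (n : ℝ) + (2 * l + 1) + 1 = 2 * nu l n := by rw [nu]; ring
  rw [e2, lag_norm_succ (by linarith), e3, e4, cf_sq hl] at e
  simp only [Real.rpow_zero, one_mul, mul_one] at e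
  rw [e]
  field_simp

theorem c0_sq_le (hl : 0 ≤ l) (n : ℕ) :
    c0 γ l n ^ 2 ≤ 2 ^ (2 * l + 2) / (Real.Gamma (2 * l + 2) ^ 2 * nu l n ^ 3) := by
  have hl' : -1 < l := by linarith
  have h1 := NN_pos (γ := γ) hl' n
  have h2 := nu_pos hl' n
  have h3 := nu_le_NN γ hl' n
  have h4 : (0 : ℝ) < n.factorial := by exact_mod_cast n.factorial_pos
  have h5 : 0 < Real.Gamma (2 * l + 2) := Real.Gamma_pos_of_pos (by linarith)
  have h6 : Real.Gamma (n + 2 * l + 2) ≤ n.factorial * nu l n ^ (2 * l + 1) := by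
    have := Gamma_ratio_le (x := (n : ℝ) + 1) (a := 2 * l + 1) (by positivity) (by linarith)
    rw [Real.Gamma_nat_eq_factorial] at this
    have e1 : (n : ℝ) + 1 + (2 * l + 1) = n + 2 * l + 2 := by ring
    have e2 : (n : ℝ) + 1 + (2 * l + 1 - 1) / 2 = nu l n := by rw [nu]; ring
    rwa [e1, e2] at this
  have h7 : (2 / NN γ l n) ^ (2 * l + 2) ≤ 2 ^ (2 * l + 2) / (nu l n ^ (2 * l + 1) * nu l n) := by
    have e : nu l n ^ (2 * l + 1) * nu l n = nu l n ^ (2 * l + 2) := by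
      rw [← Real.rpow_add_one h2.ne']
      congr 1
      ring
    rw [e, ← Real.div_rpow (by norm_num) h2.le]
    exact Real.rpow_le_rpow (by positivity) (div_le_div_of_nonneg_left (by norm_num) h2 h3)
      (by linarith)
  have h8 : 0 < nu l n ^ (2 * l + 1) := Real.rpow_pos_of_pos h2 _
  have h9 : 0 < Real.Gamma (n + 2 * l + 2) := Real.Gamma_pos_of_pos (by
    have : (0 : ℝ) ≤ n := Nat.cast_nonneg n
    linarith)
  have h10 : (0 : ℝ) < 2 ^ (2 * l + 2) := by positivity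
  rw [c0_sq hl']
  calc _ ≤ 2 ^ (2 * l + 2) / (nu l n ^ (2 * l + 1) * nu l n)
        * (n.factorial * nu l n ^ (2 * l + 1))
        / ((n.factorial : ℝ) * Real.Gamma (2 * l + 2) ^ 2 * nu l n * nu l n) := by
        gcongr
    _ = _ := by field_simp

theorem lag_zero_mono {α : ℝ} (hα : 0 < α) : Monotone fun n : ℕ => lag α n 0 := by
  refine monotone_nat_of_le_succ fun n => ?_
  have h1 := lag_succ_alpha (α - 1) n 0
  have h2 := lag_succ_alpha (α - 1) (n + 1) 0
  rw [sub_add_cancel] at h1 h2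
  have h3 : 0 ≤ lag (α - 1) (n + 1) 0 := by
    rw [lag_at_zero (by linarith)]
    have h4 : 0 < Real.Gamma (((n + 1 : ℕ) : ℝ) + (α - 1) + 1) := Real.Gamma_pos_of_pos (by
      have : (0 : ℝ) ≤ ((n + 1 : ℕ) : ℝ) := Nat.cast_nonneg _
      linarith)
    have h5 : 0 < Real.Gamma (α - 1 + 1) := Real.Gamma_pos_of_pos (by linarith)
    positivity
  rw [h1, h2]
  simp only [lagP]
  rw [Finset.sum_range_succ _ (n + 1)]
  linarith

theorem lag_crude {α : ℝ} (hα : 0 < α) {j n : ℕ} (hj : j ≤ n) {x B : ℝ} (hx : 0 ≤ x)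
    (hB : n * x ≤ B) : |lag α j x| ≤ lag α n 0 * Real.exp B := by
  have h0 : 0 ≤ lag α j 0 := by
    have := lag_zero_mono hα (Nat.zero_le j)
    simp only [lag_zero] at this
    linarith
  have h1 : lag α j 0 ≤ lag α n 0 := lag_zero_mono hα hj
  have h2 : (j : ℝ) * x / (α + 1) ≤ B := by
    have h3 : (j : ℝ) ≤ n := by exact_mod_cast hj
    have h4 : (0 : ℝ) ≤ j * x := by positivity
    have h5 : (j : ℝ) * x / (α + 1) ≤ j * x := div_le_self h4 (by linarith)
    nlinarith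
  refine (abs_lag_le (by linarith) j hx).trans ?_
  exact mul_le_mul h1 (Real.exp_le_exp.2 h2) (Real.exp_pos _).le (h0.trans h1)

theorem lagP_crude {α : ℝ} (hα : 0 < α) (n : ℕ) {x B : ℝ} (hx : 0 ≤ x)
    (hB : n * x ≤ B) : |lagP α n x| ≤ n * (lag α n 0 * Real.exp B) := by
  rw [lagP]
  refine (Finset.abs_sum_le_sum_abs _ _).trans ?_
  refine (Finset.sum_le_sum fun j hj =>
    lag_crude hα (Finset.mem_range.1 hj).le hx hB).trans ?_
  simp

/-- crude locally uniform bound -/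
theorem ff_crude (hl : 0 ≤ l) {a b : ℝ} (ha : 0 < a) : ∃ C : ℝ, ∀ n : ℕ, ∀ r ∈ Icc a b,
    ff γ l n r ^ 2 + fd γ l n r ^ 2 ≤ C / ((n : ℝ) + 1) ^ 3 := by
  have hl' : -1 < l := by linarith
  have hα : 0 < 2 * l + 1 := by linarith
  have h5 : 0 < Real.Gamma (2 * l + 2) := Real.Gamma_pos_of_pos (by linarith)
  refine ⟨(b ^ (l + 1) * Real.exp (2 * b)) ^ 2 * (1 + ((l + 1) / a + 3) ^ 2)
    * (2 ^ (2 * l + 2) / Real.Gamma (2 * l + 2) ^ 2), fun n r hr => ?_⟩
  have hr0 : 0 < r := ha.trans_le hr.1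
  have hb : 0 < b := hr0.trans_le hr.2
  have h1 := NN_pos (γ := γ) hl' n
  have h2 := nu_pos hl' n
  have h3 := nu_le_NN γ hl' n
  have hn : (0 : ℝ) ≤ n := Nat.cast_nonneg n
  have h4 : (n : ℝ) + 1 ≤ nu l n := by rw [nu]; linarith
  have hx : 0 ≤ 2 * r / NN γ l n := by positivity
  have hB : n * (2 * r / NN γ l n) ≤ 2 * b := by
    rw [← mul_div_assoc, div_le_iff₀ h1]
    have := hr.2
    nlinarith
  have hL := lag_crude hα (le_refl n) hx hB
  have hP := lagP_crude hα n hx hB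
  have hcf : 0 ≤ cf γ l n := Real.sqrt_nonneg _
  have hc := c0_pos (γ := γ) hl' n
  have hA : cf γ l n * (2 * r / NN γ l n) ^ (l + 1) * Real.exp (-(r / NN γ l n))
      * (lag (2 * l + 1) n 0 * Real.exp (2 * b))
      ≤ c0 γ l n * (b ^ (l + 1) * Real.exp (2 * b)) := by
    have e1 : (2 * r / NN γ l n) ^ (l + 1) = (2 / NN γ l n) ^ (l + 1) * r ^ (l + 1) := by
      rw [← Real.mul_rpow (by positivity) hr0.le]
      congr 1
      ring
    have e2 : Real.exp (-(r / NN γ l n)) ≤ 1 := Real.exp_le_one_iff.2 (by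
      have : 0 ≤ r / NN γ l n := by positivity
      linarith)
    have e3 : r ^ (l + 1) ≤ b ^ (l + 1) := Real.rpow_le_rpow hr0.le hr.2 (by linarith)
    calc _ = c0 γ l n * (r ^ (l + 1) * Real.exp (2 * b)) * Real.exp (-(r / NN γ l n)) := by
          rw [e1, c0]; ring
      _ ≤ c0 γ l n * (b ^ (l + 1) * Real.exp (2 * b)) * 1 := by gcongr
      _ = _ := mul_one _
  have hw : 0 ≤ cf γ l n * (2 * r / NN γ l n) ^ (l + 1) * Real.exp (-(r / NN γ l n)) := by
    positivity
  have hM : 0 ≤ lag (2 * l + 1) n 0 * Real.exp (2 * b) := (abs_nonneg _).trans hL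
  have hf : |ff γ l n r| ≤ c0 γ l n * (b ^ (l + 1) * Real.exp (2 * b)) := by
    rw [ff, abs_mul, abs_of_nonneg hw]
    exact (mul_le_mul_of_nonneg_left hL hw).trans hA
  have hd : |fd γ l n r| ≤ ((l + 1) / a + 3) * (c0 γ l n * (b ^ (l + 1) * Real.exp (2 * b))) := by
    rw [fd, abs_mul, abs_of_nonneg hw]
    have g1 : |(l + 1) / r - 1 / NN γ l n| ≤ (l + 1) / a + 1 := by
      have k1 : (l + 1) / r ≤ (l + 1) / a := div_le_div_of_nonneg_left (by linarith) ha hr.1
      have k2 : 0 ≤ (l + 1) / r := by positivity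
      have k3 : 1 / NN γ l n ≤ 1 := by rw [div_le_one h1]; linarith
      have k4 : 0 ≤ 1 / NN γ l n := by positivity
      rw [abs_le]
      constructor <;> linarith
    have g2 : 2 / NN γ l n * n ≤ 2 := by
      rw [div_mul_eq_mul_div, div_le_iff₀ h1]
      linarith
    have g3 : |((l + 1) / r - 1 / NN γ l n) * lag (2 * l + 1) n (2 * r / NN γ l n)
        - 2 / NN γ l n * lagP (2 * l + 1) n (2 * r / NN γ l n)|
        ≤ ((l + 1) / a + 3) * (lag (2 * l + 1) n 0 * Real.exp (2 * b)) := by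
      refine (abs_sub _ _).trans ?_
      rw [abs_mul, abs_mul, abs_of_pos (show 0 < 2 / NN γ l n by positivity)]
      have k1 : |(l + 1) / r - 1 / NN γ l n| * |lag (2 * l + 1) n (2 * r / NN γ l n)|
          ≤ ((l + 1) / a + 1) * (lag (2 * l + 1) n 0 * Real.exp (2 * b)) :=
        mul_le_mul g1 hL (abs_nonneg _) ((abs_nonneg _).trans g1)
      have k2 : 2 / NN γ l n * |lagP (2 * l + 1) n (2 * r / NN γ l n)|
          ≤ 2 / NN γ l n * (n * (lag (2 * l + 1) n 0 * Real.exp (2 * b))) :=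
        mul_le_mul_of_nonneg_left hP (by positivity)
      have k3 := mul_le_mul_of_nonneg_right g2 hM
      nlinarith
    calc _ ≤ cf γ l n * (2 * r / NN γ l n) ^ (l + 1) * Real.exp (-(r / NN γ l n))
          * (((l + 1) / a + 3) * (lag (2 * l + 1) n 0 * Real.exp (2 * b))) :=
          mul_le_mul_of_nonneg_left g3 hw
      _ = ((l + 1) / a + 3) * (cf γ l n * (2 * r / NN γ l n) ^ (l + 1)
          * Real.exp (-(r / NN γ l n)) * (lag (2 * l + 1) n 0 * Real.exp (2 * b))) := by ring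
      _ ≤ _ := mul_le_mul_of_nonneg_left hA (by positivity)
  have hf2 := pow_le_pow_left₀ (abs_nonneg _) hf 2
  have hd2 := pow_le_pow_left₀ (abs_nonneg _) hd 2
  rw [sq_abs] at hf2 hd2
  have hc2 : c0 γ l n ^ 2 ≤ 2 ^ (2 * l + 2) / Real.Gamma (2 * l + 2) ^ 2 / ((n : ℝ) + 1) ^ 3 := by
    refine (c0_sq_le hl n).trans ?_
    rw [div_div]
    gcongr
  calc _ ≤ (b ^ (l + 1) * Real.exp (2 * b)) ^ 2 * (1 + ((l + 1) / a + 3) ^ 2) * c0 γ l n ^ 2 := by
        nlinarith
    _ ≤ (b ^ (l + 1) * Real.exp (2 * b)) ^ 2 * (1 + ((l + 1) / a + 3) ^ 2)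
        * (2 ^ (2 * l + 2) / Real.Gamma (2 * l + 2) ^ 2 / ((n : ℝ) + 1) ^ 3) := by gcongr
    _ = _ := by ring

theorem summable_quad (hl : 0 ≤ l) {R : ℝ} (hR : 0 < R) {a b c : ℕ → ℝ} {C : ℝ}
    (ha : ∀ n, |a n| ≤ C) (hb : ∀ n, |b n| ≤ C) (hc : ∀ n, |c n| ≤ C) :
    Summable fun n => a n * ff γ l n R ^ 2 + b n * (ff γ l n R * fd γ l n R)
      + c n * fd γ l n R ^ 2 := by
  obtain ⟨K, hK⟩ := ff_crude (γ := γ) hl (b := R) hR
  have hs : Summable fun n : ℕ => 1 / ((n : ℝ) + 1) ^ 3 := by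
    have := (summable_nat_add_iff 1).2 (Real.summable_one_div_nat_pow.2 (show 1 < 3 by norm_num))
    simpa using this
  refine Summable.of_norm_bounded (hs.mul_left (2 * C * K)) fun n => ?_
  have h0 : 0 ≤ C := (abs_nonneg _).trans (ha 0)
  have h1 := hK n R ⟨le_rfl, le_rfl⟩
  have h2 : |ff γ l n R * fd γ l n R| ≤ ff γ l n R ^ 2 + fd γ l n R ^ 2 := by
    rw [abs_le]
    constructor <;> nlinarith [sq_nonneg (ff γ l n R + fd γ l n R),
      sq_nonneg (ff γ l n R - fd γ l n R)]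
  have h3 : |a n * ff γ l n R ^ 2| ≤ C * ff γ l n R ^ 2 := by
    rw [abs_mul, abs_of_nonneg (sq_nonneg (ff γ l n R))]
    exact mul_le_mul_of_nonneg_right (ha n) (sq_nonneg _)
  have h4 : |c n * fd γ l n R ^ 2| ≤ C * fd γ l n R ^ 2 := by
    rw [abs_mul, abs_of_nonneg (sq_nonneg (fd γ l n R))]
    exact mul_le_mul_of_nonneg_right (hc n) (sq_nonneg _)
  have h5 : |b n * (ff γ l n R * fd γ l n R)| ≤ C * (ff γ l n R ^ 2 + fd γ l n R ^ 2) := by
    rw [abs_mul]
    exact mul_le_mul (hb n) h2 (abs_nonneg _) h0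
  rw [Real.norm_eq_abs]
  calc _ ≤ |a n * ff γ l n R ^ 2| + |b n * (ff γ l n R * fd γ l n R)| + |c n * fd γ l n R ^ 2| :=
        abs_add_three _ _ _
    _ ≤ 2 * C * (ff γ l n R ^ 2 + fd γ l n R ^ 2) := by linarith
    _ ≤ 2 * C * (K / ((n : ℝ) + 1) ^ 3) := by gcongr
    _ = _ := by ring

theorem summable_bt (hl : 0 ≤ l) {R : ℝ} (hR : 0 < R) : Summable fun n => bt γ l n R := by
  have hl' : -1 < l := by linarith
  have h0 : 0 ≤ l * (l + 1) + γ ^ 2 := by positivity
  have := summable_quad (γ := γ) hl hR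
    (a := fun n => (R - (l * (l + 1) + γ ^ 2) * EE γ l n) * EE γ l n) (b := fun _ => 0)
    (c := fun _ => 0) (C := R + (l * (l + 1) + γ ^ 2)) (fun n => by
      have h1 := EE_pos (γ := γ) hl' n
      have h2 := EE_le_one (γ := γ) hl' n
      have h3 : |R - (l * (l + 1) + γ ^ 2) * EE γ l n| ≤ R + (l * (l + 1) + γ ^ 2) := by
        rw [abs_le]
        constructor <;> nlinarith
      rw [abs_mul, abs_of_pos h1]
      nlinarith [abs_nonneg (R - (l * (l + 1) + γ ^ 2) * EE γ l n)])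
    (fun _ => by rw [abs_zero]; positivity) (fun _ => by rw [abs_zero]; positivity)
  simpa [bt] using this

theorem summable_DD (hl : 0 ≤ l) {R : ℝ} (hR : 0 < R) :
    Summable fun n => EE γ l n ^ 2 * ff γ l n R ^ 2 := by
  have hl' : -1 < l := by linarith
  have := summable_quad (γ := γ) hl hR (a := fun n => EE γ l n ^ 2) (b := fun _ => 0)
    (c := fun _ => 0) (C := 1) (fun n => by
      have h1 := EE_pos (γ := γ) hl' n
      have h2 := EE_le_one (γ := γ) hl' n
      rw [abs_of_nonneg (sq_nonneg _)]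
      nlinarith)
    (fun _ => by simp) (fun _ => by simp)
  simpa using this

end Pool.Agent.Lib.MP_2347b2_mp.F
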