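import Pool.Agent.Lib.MP_2347b2_mp.F.Eig2

namespace Pool.Agent.Lib.MP_2347b2_mp.F

open MeasureTheory Set Filter Topology

variable {γ l : ℝ}

theorem env_mono {h h' : ℝ → ℝ} {a R : ℝ} (hc : ContinuousOn h (Ioc a R))
    (hd : ∀ r ∈ Ioo a R, HasDerivAt h (h' r) r) (hp : ∀ r ∈ Ioo a R, 0 ≤ h' r) :
    MonotoneOn h (Ioc a R) := by
  refine monotoneOn_of_deriv_nonneg (convex_Ioc a R) hc ?_ ?_
  · rw [interior_Ioc]
    exact fun r hr => (hd r hr).differentiableAt.differentiableWithinAt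
  · rw [interior_Ioc]
    intro r hr
    rw [(hd r hr).deriv]
    exact hp r hr

theorem env_ge {h h' : ℝ → ℝ} {R L : ℝ} (hc : ContinuousOn h (Ioc 0 R))
    (hd : ∀ r ∈ Ioo 0 R, HasDerivAt h (h' r) r) (hp : ∀ r ∈ Ioo 0 R, 0 ≤ h' r)
    (hL : Tendsto h (𝓝[>] 0) (𝓝 L)) : ∀ r ∈ Ioc 0 R, L ≤ h r := fun r hr =>
  le_of_tendsto hL (by
    filter_upwards [Ioo_mem_nhdsGT hr.1] with t ht
    exact env_mono hc hd hp ⟨ht.1, ht.2.le.trans hr.2⟩ hr ht.2.le)

theorem env_rpow (hl : 0 ≤ l) : Tendsto (fun r : ℝ => r ^ l) (𝓝[>] 0) (𝓝 ((0 : ℝ) ^ l)) :=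
  (Real.continuousAt_rpow_const 0 l (Or.inr hl)).tendsto.mono_left nhdsWithin_le_nhds

theorem env_id : Tendsto (fun r : ℝ => r) (𝓝[>] 0) (𝓝 0) := tendsto_id.mono_left nhdsWithin_le_nhds

theorem env_f_div (hl : 0 ≤ l) (n : ℕ) :
    Tendsto (fun r : ℝ => ff γ l n r / r) (𝓝[>] 0) (𝓝 ((0 : ℝ) ^ l * c0 γ l n)) := by
  refine ((env_rpow hl).mul (ff_lim (γ := γ) (by linarith) n)).congr' ?_
  filter_upwards [self_mem_nhdsWithin] with r hr
  have hr' : (0 : ℝ) < r := hr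
  have := Real.rpow_pos_of_pos hr' l
  rw [Real.rpow_add_one hr'.ne']
  field_simp

theorem env_fd (hl : 0 ≤ l) (n : ℕ) :
    Tendsto (fd γ l n) (𝓝[>] 0) (𝓝 ((0 : ℝ) ^ l * ((l + 1) * c0 γ l n))) := by
  refine ((env_rpow hl).mul (fd_lim (γ := γ) (by linarith) n)).congr' ?_
  filter_upwards [self_mem_nhdsWithin] with r hr
  have := Real.rpow_pos_of_pos (show (0 : ℝ) < r from hr) l
  field_simp

theorem env_f (hl : 0 ≤ l) (n : ℕ) : Tendsto (ff γ l n) (𝓝[>] 0) (𝓝 0) := by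
  have := env_id.mul (env_f_div (γ := γ) hl n)
  rw [zero_mul] at this
  refine this.congr' ?_
  filter_upwards [self_mem_nhdsWithin] with r hr
  have hr' : (0 : ℝ) < r := hr
  field_simp

/-- the energy -/
noncomputable def envS (γ l : ℝ) (n : ℕ) (r : ℝ) : ℝ :=
  √r * ((fd γ l n r - ff γ l n r / (4 * r)) ^ 2
    + (2 * EE γ l n / r - (l * (l + 1) + 3 / 16) / r ^ 2 + ep γ l n) * ff γ l n r ^ 2)

theorem envS_deriv (hl : 0 ≤ l) (n : ℕ) {r : ℝ} (hr : 0 < r) :
    HasDerivAt (envS γ l n)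
      (((l * (l + 1) + 3 / 16) / r ^ 2 + ep γ l n) * ff γ l n r ^ 2 / √r) r := by
  have h1 := ff_deriv (γ := γ) (by linarith : -1 < l) n hr
  have h2 := fd_deriv (γ := γ) (by linarith : -1 < l) n hr
  have h3 := Real.hasDerivAt_sqrt hr.ne'
  have hi := hasDerivAt_id' r
  have h4 := (h2.fun_sub (h1.fun_div (hi.const_mul 4) (by positivity))).fun_pow 2
  have h5 := ((((hasDerivAt_const r (2 * EE γ l n)).fun_div hi hr.ne').fun_sub
    ((hasDerivAt_const r (l * (l + 1) + 3 / 16)).fun_div (hi.fun_pow 2) (by positivity))).add_const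
      (ep γ l n)).fun_mul (h1.fun_pow 2)
  refine (h3.fun_mul (h4.fun_add h5)).congr_deriv ?_
  have hs : 0 < √r := Real.sqrt_pos.2 hr
  have e : r = √r ^ 2 := (Real.sq_sqrt hr.le).symm
  simp only [QQ]
  generalize √r = q at *
  subst e
  norm_num
  field_simp
  ring

theorem envS_lim (hl : 0 ≤ l) (n : ℕ) : Tendsto (envS γ l n) atTop (𝓝 0) := by
  have hl' : -1 < l := by linarith
  have a := fd_decay (γ := γ) hl' n (1 / 2)
  have b := ff_decay (γ := γ) hl' n (1 / 2)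
  have a0 := fd_decay (γ := γ) hl' n 0
  have b0 := ff_decay (γ := γ) hl' n 0
  have i : Tendsto (fun r : ℝ => r⁻¹) atTop (𝓝 0) := tendsto_inv_atTop_zero
  have t := ((a.sub ((b.mul i).div_const 4)).mul (a0.sub ((b0.mul i).div_const 4))).add
    ((((i.const_mul (2 * EE γ l n)).sub ((i.pow 2).const_mul (l * (l + 1) + 3 / 16))).add_const
      (ep γ l n)).mul (b.mul b0))
  simp only [mul_zero, zero_div, sub_zero, add_zero] at t
  refine t.congr' ?_
  filter_upwards [eventually_gt_atTop 0] with r hr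
  rw [envS, ← Real.sqrt_eq_rpow, Real.rpow_zero]
  field_simp

theorem envS_le (hl : 0 ≤ l) (n : ℕ) {r : ℝ} (hr : 0 < r) : envS γ l n r ≤ 1 / nu l n ^ 3 := by
  have hl' : -1 < l := by linarith
  have hν := nu_pos hl' n
  have hN := NN_pos (γ := γ) hl' n
  have hνN := nu_le_NN γ hl' n
  have hA := ff_adm (γ := γ) hl' n
  let φ : ℝ → ℝ := fun s => (1 / NN γ l n ^ 2) *
    ((1 / (2 * nu l n)) * ff γ l n s ^ 2 + (nu l n / 2) * (ff γ l n s ^ 2 / s))
  have hφ : IntegrableOn φ (Ioi 0) := ((hA.sq.const_mul _).add (hA.pot.const_mul _)).const_mul _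
  have hφ0 : ∀ s, 0 < s → 0 ≤ φ s := fun s hs => by positivity
  have hI : ∫ s in Ioi 0, φ s ≤ 1 / nu l n ^ 3 := by
    rw [integral_const_mul, integral_add (hA.sq.const_mul _) (hA.pot.const_mul _),
      integral_const_mul, integral_const_mul, ff_norm hl', ff_pot hl']
    have e1 : 1 / NN γ l n ≤ 1 / nu l n := one_div_le_one_div_of_le hν hνN
    have e2 : 1 / NN γ l n ^ 2 ≤ 1 / nu l n ^ 2 :=
      one_div_le_one_div_of_le (by positivity) (pow_le_pow_left₀ hν.le hνN 2)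
    have e3 : 1 / (2 * nu l n) * 1 + nu l n / 2 * (1 / (NN γ l n * nu l n))
        = (1 / nu l n + 1 / NN γ l n) / 2 := by field_simp
    have e4 : 1 / nu l n ^ 3 = 1 / nu l n ^ 2 * (1 / nu l n) := by field_simp
    rw [e3, e4]
    exact mul_le_mul e2 (by linarith) (by positivity) (by positivity)
  have key : ∀ R, r ≤ R → envS γ l n r ≤ envS γ l n R + 1 / nu l n ^ 3 := fun R hR => by
    have hsub : Icc r R ⊆ Ioi 0 := fun x hx => hr.trans_le hx.1
    have h1 := intervalIntegral.sub_le_integral_of_hasDeriv_right_of_le (g := fun s => -envS γ l n s)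
      (g' := fun s => -(((l * (l + 1) + 3 / 16) / s ^ 2 + ep γ l n) * ff γ l n s ^ 2 / √s))
      (φ := φ) hR
      (fun x hx => (envS_deriv hl n (hsub hx)).fun_neg.continuousAt.continuousWithinAt)
      (fun x hx => (envS_deriv hl n (hr.trans hx.1)).fun_neg.hasDerivWithinAt)
      (hφ.mono_set hsub) fun x hx => by
        have hx0 := hr.trans hx.1
        have hs : 0 < √x := Real.sqrt_pos.2 hx0
        have e : x = √x ^ 2 := (Real.sq_sqrt hx0.le).symm
        have e1 : 1 / √x ≤ 1 / (2 * nu l n) + nu l n / 2 / x := by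
          have : 1 / (2 * nu l n) + nu l n / 2 / x - 1 / √x
              = (√x - nu l n) ^ 2 / (2 * nu l n * x) := by
            generalize √x = q at *
            subst e
            field_simp
            ring
          have h0 : 0 ≤ (√x - nu l n) ^ 2 / (2 * nu l n * x) := by positivity
          linarith
        have e2 : φ x = (1 / NN γ l n ^ 2 * ff γ l n x ^ 2)
            * (1 / (2 * nu l n) + nu l n / 2 / x) := by simp only [φ]; ring
        have e3 : -(((l * (l + 1) + 3 / 16) / x ^ 2 + ep γ l n) * ff γ l n x ^ 2 / √x)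
            = (1 / NN γ l n ^ 2 * ff γ l n x ^ 2) * (1 / √x)
              - (l * (l + 1) + 3 / 16) / x ^ 2 * ff γ l n x ^ 2 / √x := by simp only [ep]; ring
        have e4 : 0 ≤ (l * (l + 1) + 3 / 16) / x ^ 2 * ff γ l n x ^ 2 / √x := by positivity
        have e5 := mul_le_mul_of_nonneg_left e1
          (show 0 ≤ 1 / NN γ l n ^ 2 * ff γ l n x ^ 2 by positivity)
        rw [e2, e3]
        linarith
    have h2 : ∫ y in r..R, φ y ≤ ∫ s in Ioi 0, φ s := by
      rw [intervalIntegral.integral_of_le hR]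
      refine setIntegral_mono_set hφ ?_ (LE.le.eventuallyLE fun x hx => hr.trans hx.1)
      filter_upwards [ae_restrict_mem measurableSet_Ioi] with x hx using hφ0 x hx
    linarith
  have t := (envS_lim (γ := γ) hl n).add_const (1 / nu l n ^ 3)
  rw [zero_add] at t
  exact ge_of_tendsto t (by filter_upwards [eventually_ge_atTop r] with R hR using key R hR)

/-- the envelope -/
theorem env (hl : 0 ≤ l) (n : ℕ) {r : ℝ} (hr : 0 < r) :
    (fd γ l n r - ff γ l n r / (4 * r)) ^ 2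
      + (2 * EE γ l n / r - (l * (l + 1) + 3 / 16) / r ^ 2 + ep γ l n) * ff γ l n r ^ 2
      ≤ 1 / (nu l n ^ 3 * √r) := by
  have h := envS_le (γ := γ) hl n hr
  have hs : 0 < √r := Real.sqrt_pos.2 hr
  rw [envS, mul_comm, ← le_div_iff₀ hs, div_div] at h
  exact h

/-- the rescaled function -/
noncomputable def envY (γ l : ℝ) (n : ℕ) (r : ℝ) : ℝ := ff γ l n r / √(√r)

theorem envY_deriv (hl : 0 ≤ l) (n : ℕ) {r : ℝ} (hr : 0 < r) :
    HasDerivAt (envY γ l n) ((fd γ l n r - ff γ l n r / (4 * r)) / √(√r)) r := by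
  have hs : 0 < √r := Real.sqrt_pos.2 hr
  have hq : 0 < √(√r) := Real.sqrt_pos.2 hs
  refine ((ff_deriv (γ := γ) (by linarith : -1 < l) n hr).fun_div
    ((Real.hasDerivAt_sqrt hr.ne').sqrt hs.ne') hq.ne').congr_deriv ?_
  have e : r = √r ^ 2 := (Real.sq_sqrt hr.le).symm
  have e' : √r = √(√r) ^ 2 := (Real.sq_sqrt hs.le).symm
  generalize √(√r) = q at *
  generalize √r = p at *
  subst e e'
  field_simp
  ring

theorem envY_sq (n : ℕ) {r : ℝ} (hr : 0 < r) : ff γ l n r ^ 2 = √r * envY γ l n r ^ 2 := by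
  have hs : 0 < √r := Real.sqrt_pos.2 hr
  rw [envY, div_pow, Real.sq_sqrt hs.le]
  field_simp

/-- `r` times the shifted kinetic term -/
noncomputable def envP (γ l : ℝ) (n : ℕ) (r : ℝ) : ℝ :=
  2 * EE γ l n - (l * (l + 1) + 3 / 16) / r + ep γ l n * r

theorem envS_eq (n : ℕ) {r : ℝ} (hr : 0 < r) : envS γ l n r
    = r * ((fd γ l n r - ff γ l n r / (4 * r)) / √(√r)) ^ 2 + envP γ l n r * envY γ l n r ^ 2 := by
  have hs : 0 < √r := Real.sqrt_pos.2 hr
  have e : r = √r ^ 2 := (Real.sq_sqrt hr.le).symm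
  rw [envS, envP, envY, div_pow, div_pow, Real.sq_sqrt hs.le]
  generalize √r = p at *
  subst e
  field_simp

theorem envP_mono (hl : 0 ≤ l) (n : ℕ) {s t : ℝ} (hs : 0 < s) (hst : s ≤ t)
    (h : t ^ 2 ≤ (l * (l + 1) + 3 / 16) * NN γ l n ^ 2) : envP γ l n s ≤ envP γ l n t := by
  have hN := NN_pos (γ := γ) (by linarith : -1 < l) n
  have ht := hs.trans_le hst
  have e : envP γ l n t - envP γ l n s = (t - s)
      * ((l * (l + 1) + 3 / 16) * NN γ l n ^ 2 - s * t) / (s * t * NN γ l n ^ 2) := by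
    rw [envP, envP, ep]; field_simp; ring
  have : 0 ≤ (t - s) * ((l * (l + 1) + 3 / 16) * NN γ l n ^ 2 - s * t) / (s * t * NN γ l n ^ 2) :=
    div_nonneg (mul_nonneg (by linarith) (by nlinarith)) (by positivity)
  linarith

theorem envY_step (hl : 0 ≤ l) (n : ℕ) {r ρ K : ℝ} (hr : 0 < r) (hρ : r ≤ ρ) (hK : 0 ≤ K)
    (hK2 : K ^ 2 = 1 / nu l n ^ 3) (hP : ∀ s ∈ Icc r ρ, 0 ≤ envP γ l n s) :
    |envY γ l n r| ≤ |envY γ l n ρ| + 2 * K * (√ρ - √r) := by
  have hb : ∀ s ∈ Icc r ρ, |(fd γ l n s - ff γ l n s / (4 * s)) / √(√s)| ≤ K / √s := fun s hs => by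
    have hs0 := hr.trans_le hs.1
    have h1 := envS_le (γ := γ) hl n hs0
    rw [envS_eq n hs0, ← hK2] at h1
    have h2 := mul_nonneg (hP s hs) (sq_nonneg (envY γ l n s))
    refine abs_le_of_sq_le_sq' ?_ (by positivity) |> abs_le.2
    rw [div_pow K, Real.sq_sqrt hs0.le, le_div_iff₀ hs0]
    linarith
  have key : ∀ c : ℝ, |c| = 1 →
      c * envY γ l n r + 2 * K * √r ≤ c * envY γ l n ρ + 2 * K * √ρ := fun c hc => by
    have hd : ∀ s ∈ Icc r ρ, HasDerivAt (fun s => c * envY γ l n s + 2 * K * √s)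
        (c * ((fd γ l n s - ff γ l n s / (4 * s)) / √(√s)) + 2 * K * (1 / (2 * √s))) s :=
      fun s hs => ((envY_deriv hl n (hr.trans_le hs.1)).const_mul c).fun_add
        ((Real.hasDerivAt_sqrt (hr.trans_le hs.1).ne').const_mul _)
    refine monotoneOn_of_deriv_nonneg (convex_Icc r ρ)
      (fun s hs => (hd s hs).continuousAt.continuousWithinAt)
      (fun s hs => (hd s (interior_subset hs)).differentiableAt.differentiableWithinAt)
      (fun s hs => ?_) ⟨le_rfl, hρ⟩ ⟨hρ, le_rfl⟩ hρ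
    rw [(hd s (interior_subset hs)).deriv]
    have h1 := hb s (interior_subset hs)
    have h2 := neg_abs_le (c * ((fd γ l n s - ff γ l n s / (4 * s)) / √(√s)))
    rw [abs_mul, hc, one_mul] at h2
    have e : 2 * K * (1 / (2 * √s)) = K / √s := by ring
    linarith
  have a := key 1 abs_one
  have b := key (-1) (by simp)
  have c := le_abs_self (envY γ l n ρ)
  have d := neg_abs_le (envY γ l n ρ)
  exact abs_le.2 ⟨by linarith, by linarith⟩

theorem envY_mono (hl : 0 ≤ l) (n : ℕ) {R : ℝ} (hP : ∀ s ∈ Ioc 0 R, envP γ l n s ≤ 0) :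
    MonotoneOn (fun s => envY γ l n s ^ 2) (Ioc 0 R) := by
  have hl' : -1 < l := by linarith
  have hd : ∀ r, 0 < r → HasDerivAt
      (fun r => ff γ l n r * fd γ l n r - ff γ l n r * (ff γ l n r / r) / 4)
      ((fd γ l n r - ff γ l n r / (4 * r)) ^ 2 + -envP γ l n r / r * ff γ l n r ^ 2) r :=
    fun r hr => by
      have h1 := ff_deriv (γ := γ) hl' n hr
      have h2 := fd_deriv (γ := γ) hl' n hr
      refine ((h1.fun_mul h2).fun_sub
        ((h1.fun_mul (h1.fun_div (hasDerivAt_id' r) hr.ne')).div_const 4)).congr_deriv ?_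
      rw [QQ, envP]
      field_simp
      ring
  have hv := env_ge (R := R) (L := 0) (fun r hr => (hd r hr.1).continuousAt.continuousWithinAt)
    (fun r hr => hd r hr.1) (fun r hr => add_nonneg (sq_nonneg _) (mul_nonneg
      (div_nonneg (neg_nonneg.2 (hP r (Ioo_subset_Ioc_self hr))) hr.1.le) (sq_nonneg _))) (by
      have t := ((env_f (γ := γ) hl n).mul (env_fd (γ := γ) hl n)).sub
        (((env_f (γ := γ) hl n).mul (env_f_div (γ := γ) hl n)).div_const 4)
      simpa using t)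
  refine env_mono (h' := fun s => 2 / √(√s) ^ 2
      * (ff γ l n s * fd γ l n s - ff γ l n s * (ff γ l n s / s) / 4))
    (fun s hs => ((envY_deriv hl n hs.1).continuousAt.pow 2).continuousWithinAt)
    (fun s hs => ((envY_deriv hl n hs.1).fun_pow 2).congr_deriv ?_)
    fun s hs => mul_nonneg (by positivity) (hv s (Ioo_subset_Ioc_self hs))
  rw [envY]
  generalize √(√s) = q
  norm_num
  ring

/-- the envelope near and below the inner turning point -/
theorem env2 (hl : 0 ≤ l) (n : ℕ) {r ρ P : ℝ} (hr : 0 < r) (hρ : r ≤ ρ) (hP : 0 < P)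
    (h1 : ρ ^ 2 ≤ (l * (l + 1) + 3 / 16) * NN γ l n ^ 2)
    (h2 : P ≤ 2 * EE γ l n - (l * (l + 1) + 3 / 16) / ρ + ep γ l n * ρ) :
    ff γ l n r ^ 2 ≤ √r / nu l n ^ 3
      * (1 / √P + 2 * (√ρ - √(max r ((l * (l + 1) + 3 / 16) / 2)))) ^ 2 := by
  have hl' : -1 < l := by linarith
  have hν := nu_pos hl' n
  have hρ0 := hr.trans_le hρ
  have h2' : P ≤ envP γ l n ρ := h2
  obtain ⟨K, hK, hK2⟩ : ∃ K : ℝ, 0 ≤ K ∧ K ^ 2 = 1 / nu l n ^ 3 :=
    ⟨√(1 / nu l n ^ 3), Real.sqrt_nonneg _, Real.sq_sqrt (by positivity)⟩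
  have hy : |envY γ l n ρ| ≤ K / √P := by
    have a := envS_le (γ := γ) hl n hρ0
    rw [envS_eq n hρ0, ← hK2] at a
    have b := mul_nonneg hρ0.le (sq_nonneg ((fd γ l n ρ - ff γ l n ρ / (4 * ρ)) / √(√ρ)))
    have c := mul_le_mul_of_nonneg_right h2' (sq_nonneg (envY γ l n ρ))
    refine abs_le_of_sq_le_sq' ?_ (by positivity) |> abs_le.2
    rw [div_pow K, Real.sq_sqrt hP.le, le_div_iff₀ hP]
    linarith
  obtain ⟨t, ht, hPt, hm⟩ : ∃ t ∈ Icc r ρ, 0 ≤ envP γ l n t ∧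
      envY γ l n r ^ 2 ≤ envY γ l n t ^ 2 := by
    by_cases h0 : 0 ≤ envP γ l n r
    · exact ⟨r, ⟨le_rfl, hρ⟩, h0, le_rfl⟩
    have hc : ContinuousOn (envP γ l n) (Icc r ρ) :=
      (continuousOn_const.sub (continuousOn_const.div continuousOn_id
        fun s hs => (hr.trans_le hs.1).ne')).add (continuousOn_const.mul continuousOn_id)
    obtain ⟨t, ht, e⟩ := intermediate_value_Icc hρ hc ⟨(not_le.1 h0).le, hP.le.trans h2'⟩
    have ht0 := hr.trans_le ht.1
    refine ⟨t, ht, e.ge, envY_mono hl n (R := t) (fun s hs => e ▸ envP_mono hl n hs.1 hs.2 ?_)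
      ⟨hr, ht.1⟩ ⟨ht0, le_rfl⟩ ht.1⟩
    exact (pow_le_pow_left₀ ht0.le ht.2 2).trans h1
  have ht0 := hr.trans_le ht.1
  have hs := envY_step hl n ht0 ht.2 hK hK2 fun s hs => hPt.trans (envP_mono hl n ht0 hs.1
    ((pow_le_pow_left₀ (ht0.trans_le hs.1).le hs.2 2).trans h1))
  have hb : (l * (l + 1) + 3 / 16) / 2 ≤ t := by
    have a := EE_le_one (γ := γ) hl' n
    have b := mul_neg_of_neg_of_pos (ep_neg (γ := γ) hl' n) ht0
    have c : (l * (l + 1) + 3 / 16) / t ≤ 2 := by rw [envP] at hPt; linarith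
    rw [div_le_iff₀ ht0] at c
    linarith
  have hq : √(max r ((l * (l + 1) + 3 / 16) / 2)) ≤ √t := Real.sqrt_le_sqrt (max_le ht.1 hb)
  have hf : |envY γ l n t| ≤ K * (1 / √P + 2 * (√ρ - √(max r ((l * (l + 1) + 3 / 16) / 2)))) := by
    have a := mul_le_mul_of_nonneg_left hq hK
    have e : K / √P = K * (1 / √P) := by ring
    nlinarith
  have hg := pow_le_pow_left₀ (abs_nonneg _) hf 2
  rw [sq_abs, mul_pow, hK2] at hg
  rw [envY_sq n hr, div_eq_mul_one_div, mul_assoc]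
  exact mul_le_mul_of_nonneg_left (hm.trans hg) (Real.sqrt_nonneg _)

theorem env_w (hl : 0 ≤ l) (n : ℕ) : ∀ r ∈ Ioc 0 ((l + 1) ^ 2 / 2),
    0 ≤ ff γ l n r * fd γ l n r - √((l + 1) ^ 2 - 2 * r) * (ff γ l n r * (ff γ l n r / r)) := by
  have hl' : -1 < l := by linarith
  have cf : ∀ R, ContinuousOn (ff γ l n) (Ioc 0 R) := fun R r hr =>
    (ff_deriv hl' n hr.1).continuousAt.continuousWithinAt
  have cd : ∀ R, ContinuousOn (fd γ l n) (Ioc 0 R) := fun R r hr =>
    (fd_deriv hl' n hr.1).continuousAt.continuousWithinAt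
  refine env_ge (h' := fun r => (fd γ l n r - √((l + 1) ^ 2 - 2 * r) * ff γ l n r / r) ^ 2
      + ff γ l n r ^ 2 * ((√((l + 1) ^ 2 - 2 * r) - (l + 1)) / r ^ 2
        + 1 / (√((l + 1) ^ 2 - 2 * r) * r) + (2 - 2 * EE γ l n) / r - ep γ l n))
    (((cf _).mul (cd _)).sub ((by fun_prop : ContinuousOn (fun r : ℝ => √((l + 1) ^ 2 - 2 * r)) _).mul
      ((cf _).mul ((cf _).div continuousOn_id fun r hr => hr.1.ne')))) (fun r hr => ?_)
    (fun r hr => ?_) ?_
  · have h0 : 0 < (l + 1) ^ 2 - 2 * r := by linarith [hr.2]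
    have h1 := ff_deriv (γ := γ) hl' n hr.1
    have h2 := fd_deriv (γ := γ) hl' n hr.1
    have hi := hasDerivAt_id' r
    have h3 := ((hi.const_mul 2).const_sub ((l + 1) ^ 2)).sqrt h0.ne'
    refine ((h1.fun_mul h2).fun_sub (h3.fun_mul (h1.fun_mul (h1.fun_div hi hr.1.ne')))).congr_deriv ?_
    have hs : 0 < √((l + 1) ^ 2 - 2 * r) := Real.sqrt_pos.2 h0
    have e := Real.sq_sqrt h0.le
    have hr0 := hr.1
    simp only [QQ]
    generalize √((l + 1) ^ 2 - 2 * r) = q at *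
    field_simp
    linear_combination (-q * ff γ l n r ^ 2) * e
  · have h0 : 0 < (l + 1) ^ 2 - 2 * r := by linarith [hr.2]
    have hs : 0 < √((l + 1) ^ 2 - 2 * r) := Real.sqrt_pos.2 h0
    have e := Real.sq_sqrt h0.le
    have hr0 := hr.1
    have hE := EE_le_one (γ := γ) hl' n
    have hε := ep_neg (γ := γ) hl' n
    generalize √((l + 1) ^ 2 - 2 * r) = q at *
    have e1 : (q - (l + 1)) / r ^ 2 + 1 / (q * r) = (q - (l + 1)) ^ 2 / (2 * q * r ^ 2) := by
      field_simp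
      linear_combination (1 : ℝ) * e
    have e2 : 0 ≤ (q - (l + 1)) ^ 2 / (2 * q * r ^ 2) := by positivity
    have e3 : 0 ≤ (2 - 2 * EE γ l n) / r := div_nonneg (by linarith) hr0.le
    exact add_nonneg (sq_nonneg _) (mul_nonneg (sq_nonneg _) (by linarith))
  · have c : Tendsto (fun r : ℝ => √((l + 1) ^ 2 - 2 * r)) (𝓝[>] 0) (𝓝 √((l + 1) ^ 2 - 2 * 0)) :=
      ((by fun_prop : Continuous fun r : ℝ => √((l + 1) ^ 2 - 2 * r)).tendsto 0).mono_left
        nhdsWithin_le_nhds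
    have t := ((env_f (γ := γ) hl n).mul (env_fd (γ := γ) hl n)).sub
      (c.mul ((env_f (γ := γ) hl n).mul (env_f_div (γ := γ) hl n)))
    simpa using t

theorem env_pos (hl : 0 ≤ l) (n : ℕ) : ∀ r ∈ Ioc 0 ((l + 1) ^ 2 / 2), 0 < ff γ l n r := by
  have hl' : -1 < l := by linarith
  intro r hr
  have cf : ∀ s, 0 < s → ContinuousAt (ff γ l n) s := fun s hs => (ff_deriv hl' n hs).continuousAt
  have hm : MonotoneOn (fun s => ff γ l n s ^ 2) (Ioc 0 ((l + 1) ^ 2 / 2)) :=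
    env_mono (h' := fun s => 2 * (ff γ l n s * fd γ l n s))
      (fun s hs => ((cf s hs.1).pow 2).continuousWithinAt)
      (fun s hs => ((ff_deriv hl' n hs.1).fun_pow 2).congr_deriv (by norm_num; ring))
      fun s hs => by
        have a := env_w (γ := γ) hl n s (Ioo_subset_Ioc_self hs)
        have b : 0 ≤ √((l + 1) ^ 2 - 2 * s) * (ff γ l n s * (ff γ l n s / s)) :=
          mul_nonneg (Real.sqrt_nonneg _) (by
            rw [← mul_div_assoc]; exact div_nonneg (mul_self_nonneg _) hs.1.le)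
        linarith
  obtain ⟨t, ht, ht'⟩ := (((ff_lim (γ := γ) hl' n).eventually (lt_mem_nhds (c0_pos hl' n))).and
    (Ioo_mem_nhdsGT hr.1)).exists
  have ht0 : 0 < ff γ l n t := (div_pos_iff_of_pos_right (Real.rpow_pos_of_pos ht'.1 _)).1 ht
  by_contra hn
  obtain ⟨s, hs, e⟩ := intermediate_value_Icc' ht'.2.le
    (fun s hs => (cf s (ht'.1.trans_le hs.1)).continuousWithinAt) ⟨not_lt.1 hn, ht0.le⟩
  have := hm ⟨ht'.1, ht'.2.le.trans hr.2⟩ ⟨ht'.1.trans_le hs.1, hs.2.trans hr.2⟩ hs.1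
  simp only [e] at this
  nlinarith

/-- lower bound for the logarithmic derivative below the turning point -/
theorem ff_logder (hl : 0 ≤ l) (n : ℕ) {r : ℝ} (hr : 0 < r) (h : 2 * r ≤ (l + 1) ^ 2) :
    0 < ff γ l n r ∧ √((l + 1) ^ 2 - 2 * r) * ff γ l n r ≤ r * fd γ l n r := by
  have h1 := env_pos (γ := γ) hl n r ⟨hr, by linarith⟩
  have h2 := env_w (γ := γ) hl n r ⟨hr, by linarith⟩
  refine ⟨h1, ?_⟩
  have e : ff γ l n r * fd γ l n r - √((l + 1) ^ 2 - 2 * r) * (ff γ l n r * (ff γ l n r / r))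
      = ff γ l n r / r * (r * fd γ l n r - √((l + 1) ^ 2 - 2 * r) * ff γ l n r) := by
    field_simp
  rw [e] at h2
  exact sub_nonneg.1 ((mul_nonneg_iff_of_pos_left (div_pos h1 hr)).1 h2)

theorem env_up (hl : 0 ≤ l) (n : ℕ) : ∀ r ∈ Ioc 0 ((l + 1) ^ 2 / 2),
    0 ≤ r ^ l * ((l + 1) * ff γ l n r - r * fd γ l n r) := by
  have hl' : -1 < l := by linarith
  have hd : ∀ r, 0 < r → HasDerivAt (fun r => r ^ l * ((l + 1) * ff γ l n r - r * fd γ l n r))
      (r ^ l * ff γ l n r * (2 * EE γ l n + ep γ l n * r)) r := fun r hr => by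
    have h1 := ff_deriv (γ := γ) hl' n hr
    have h2 := fd_deriv (γ := γ) hl' n hr
    refine ((Real.hasDerivAt_rpow_const (p := l) (Or.inl hr.ne')).fun_mul
      ((h1.const_mul (l + 1)).fun_sub ((hasDerivAt_id' r).fun_mul h2))).congr_deriv ?_
    rw [Real.rpow_sub_one hr.ne', QQ]
    field_simp
    ring
  refine env_ge (fun r hr => (hd r hr.1).continuousAt.continuousWithinAt) (fun r hr => hd r hr.1)
    (fun r hr => ?_) ?_
  · have h1 := env_pos (γ := γ) hl n r (Ioo_subset_Ioc_self hr)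
    have h2 := Real.rpow_pos_of_pos hr.1 l
    have hN := NN_pos (γ := γ) hl' n
    have hνN := nu_le_NN γ hl' n
    have hν : l + 1 ≤ nu l n := by
      have : (0 : ℝ) ≤ n := Nat.cast_nonneg n
      rw [nu]; linarith
    refine mul_nonneg (mul_pos h2 h1).le ?_
    have e : 2 * EE γ l n + ep γ l n * r = (2 * nu l n * NN γ l n - r) / NN γ l n ^ 2 := by
      rw [EE, ep]; field_simp; ring
    rw [e]
    exact div_nonneg (by nlinarith [hr.2]) (sq_nonneg _)
  · have t := (env_rpow hl).mul (((env_f (γ := γ) hl n).const_mul (l + 1)).sub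
      (env_id.mul (env_fd (γ := γ) hl n)))
    simpa using t

/-- power bound below the turning point -/
theorem ff_small (hl : 0 ≤ l) (n : ℕ) {r : ℝ} (hr : 0 < r) (h : 2 * r ≤ (l + 1) ^ 2) :
    ff γ l n r ≤ c0 γ l n * r ^ (l + 1) ∧ r * fd γ l n r ≤ (l + 1) * ff γ l n r := by
  have hl' : -1 < l := by linarith
  have up : ∀ s ∈ Ioc 0 ((l + 1) ^ 2 / 2), 0 ≤ (l + 1) * ff γ l n s - s * fd γ l n s := fun s hs =>
    (mul_nonneg_iff_of_pos_left (Real.rpow_pos_of_pos hs.1 l)).1 (env_up hl n s hs)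
  refine ⟨?_, sub_nonneg.1 (up r ⟨hr, by linarith⟩)⟩
  have hd : ∀ s, 0 < s → HasDerivAt (fun s => -(ff γ l n s / s ^ (l + 1)))
      (((l + 1) * ff γ l n s - s * fd γ l n s) / (s * s ^ (l + 1))) s := fun s hs => by
    have h2 := Real.rpow_pos_of_pos hs (l + 1)
    refine ((ff_deriv (γ := γ) hl' n hs).fun_div
      (Real.hasDerivAt_rpow_const (p := l + 1) (Or.inl hs.ne')) h2.ne').fun_neg.congr_deriv ?_
    rw [Real.rpow_sub_one hs.ne']
    field_simp
    ring
  have := env_ge (R := (l + 1) ^ 2 / 2) (fun s hs => (hd s hs.1).continuousAt.continuousWithinAt)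
    (fun s hs => hd s hs.1) (fun s hs => div_nonneg (up s (Ioo_subset_Ioc_self hs))
      (mul_pos hs.1 (Real.rpow_pos_of_pos hs.1 _)).le) (ff_lim (γ := γ) hl' n).neg r
    ⟨hr, by linarith⟩
  rw [neg_le_neg_iff, div_le_iff₀ (Real.rpow_pos_of_pos hr _)] at this
  exact this

end Pool.Agent.Lib.MP_2347b2_mp.F
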