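import Pool.Agent.Lib.MP_2347b2_mp.F.CWeyl
import Pool.Agent.Lib.MP_2347b2_mp.F.CReal

namespace Pool.Agent.Lib.MP_2347b2_mp.F

open MeasureTheory Set Filter Topology Complex

variable {γ l R : ℝ}

theorem g1_mono {f f' : ℝ → ℝ} {M : ℝ} (h : ∀ r, M ≤ r → HasDerivAt f (f' r) r)
    (h' : ∀ r, M ≤ r → 0 ≤ f' r) {r : ℝ} (hr : M ≤ r) : f M ≤ f r := by
  have hm : MonotoneOn f (Ici M) := by
    refine monotoneOn_of_hasDerivWithinAt_nonneg (f' := f') (convex_Ici M)
      (fun t ht => (h t ht).continuousAt.continuousWithinAt) (fun t ht => ?_) (fun t ht => ?_)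
    · exact (h t (interior_subset ht)).hasDerivWithinAt
    · exact h' t (interior_subset ht)
  exact hm (le_refl M) hr hr

/-- growth in the classically forbidden region -/
theorem g1_grow {Q u u' : ℝ → ℂ} (h : Sol Q u u') {M q : ℝ} (hM : 0 < M) (hq : 0 ≤ q)
    (hQ : ∀ r, M ≤ r → q ≤ (Q r).re) (he : 0 ≤ ((starRingEnd ℂ) (u M) * u' M).re) {r : ℝ}
    (hr : M ≤ r) : ‖u M‖ ^ 2 * (1 + q * (r - M) ^ 2) ≤ ‖u r‖ ^ 2 := by
  have e1 : ∀ t, M ≤ t → 0 ≤ ((starRingEnd ℂ) (u t) * u' t).re := by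
    intro t ht
    refine he.trans (g1_mono (f := fun r => ((starRingEnd ℂ) (u r) * u' r).re)
      (fun s hs => h.energy (hM.trans_le hs)) (fun s hs => ?_) ht)
    have := hq.trans (hQ s hs)
    positivity
  have e2 : ∀ t, M ≤ t → ‖u M‖ ^ 2 ≤ ‖u t‖ ^ 2 := by
    intro t ht
    refine g1_mono (f := fun r => ‖u r‖ ^ 2) (fun s hs => h.normsq (hM.trans_le hs))
      (fun s hs => ?_) ht
    have := e1 s hs
    positivity
  have e3 : ∀ t, M ≤ t → q * ‖u M‖ ^ 2 * (t - M) ≤ ((starRingEnd ℂ) (u t) * u' t).re := by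
    intro t ht
    have := g1_mono (f := fun r => ((starRingEnd ℂ) (u r) * u' r).re - q * ‖u M‖ ^ 2 * (r - M))
      (f' := fun s => (‖u' s‖ ^ 2 + (Q s).re * ‖u s‖ ^ 2) - q * ‖u M‖ ^ 2 * 1)
      (fun s hs => (h.energy (hM.trans_le hs)).sub
        (((hasDerivAt_id s).sub_const M).const_mul (q * ‖u M‖ ^ 2))) (fun s hs => by
        have a1 := hQ s hs
        have a2 := e2 s hs
        have a3 : q * ‖u M‖ ^ 2 ≤ (Q s).re * ‖u s‖ ^ 2 :=
          mul_le_mul a1 a2 (by positivity) (hq.trans a1)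
        have a4 : 0 ≤ ‖u' s‖ ^ 2 := by positivity
        linarith) ht
    simp only [sub_self, mul_zero, sub_zero] at this
    linarith
  have := g1_mono (f := fun r => ‖u r‖ ^ 2 - q * ‖u M‖ ^ 2 * ((r - M) * (r - M)))
    (f' := fun s => 2 * ((starRingEnd ℂ) (u s) * u' s).re
      - q * ‖u M‖ ^ 2 * (1 * (s - M) + (s - M) * 1))
    (fun s hs => (h.normsq (hM.trans_le hs)).sub
      ((((hasDerivAt_id s).sub_const M).mul ((hasDerivAt_id s).sub_const M)).const_mul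
        (q * ‖u M‖ ^ 2))) (fun s hs => by
      have a1 := e3 s hs
      linarith) hr
  simp only [sub_self, mul_zero, sub_zero] at this
  nlinarith

theorem g1_int {q : ℝ} (hq : 0 < q) (M n : ℝ) :
    Integrable fun r : ℝ => n⁻¹ * (1 + q * (r - M) ^ 2)⁻¹ := by
  have h1 := (integrable_inv_one_add_sq.comp_mul_left' (R := √q) (by positivity)).comp_sub_right M
  refine Integrable.const_mul ?_ _
  refine h1.congr (Eventually.of_forall fun r => ?_)
  simp only [mul_pow, Real.sq_sqrt hq.le]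

theorem g1_UV {x : ℝ} (hx : -1 < x) (hx0 : x < 0) : (x : ℂ) ∈ UV := ⟨by simpa, Or.inl (by simpa)⟩

theorem g1_ph (h1 : γ ^ 2 ≤ 1) (hl : 0 ≤ l) {z : ℂ} (hz : z ∈ UV) {r : ℝ} (_hr : 0 < r) :
    ContinuousAt (fun z => ph γ l z r) z :=
  ((ph_diff h1 (by linarith) r).continuousOn).continuousAt (isOpen_UV.mem_nhds hz)

theorem g1_phD (h1 : γ ^ 2 ≤ 1) (hl : 0 ≤ l) {z : ℂ} (hz : z ∈ UV) {r : ℝ} (_hr : 0 < r) :
    ContinuousAt (fun z => phD γ l z r) z :=
  ((phD_diff h1 (by linarith) r).continuousOn).continuousAt (isOpen_UV.mem_nhds hz)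

theorem g1_Ec (h1 : γ ^ 2 ≤ 1) {z : ℂ} (hz : -1 < z.re) : ContinuousAt (Ec γ) z :=
  (Ec_diff h1).continuousOn.continuousAt
    ((isOpen_lt continuous_const Complex.continuous_re).mem_nhds hz)

/-- the tail integral has a real limit -/
theorem g1_tail (h1 : γ ^ 2 ≤ 1) (hl : 0 ≤ l) (hR : 0 < R) {x : ℝ} (hx : -1 < x)
    (hx0 : x < 0) (hn : ∀ n, x ≠ ep γ l n) :
    ∃ M : ℝ, R ≤ M ∧ ph γ l x M ≠ 0 ∧ ∃ c : ℂ, c.im = 0 ∧
      Tendsto (fun z => cI γ l z M) (𝓝[UU] (x : ℂ)) (𝓝 c) := by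
  have hl' : -1 < l := by linarith
  have hxγ : 0 < 1 + γ ^ 2 * x := by nlinarith [sq_nonneg γ]
  have hxV := g1_UV hx hx0
  set q : ℝ := -x / 4 with hqd
  have hq : 0 < q := by rw [hqd]; linarith
  set E : ℝ := ‖Ec γ x‖ + 1 with hE
  have hE0 : 0 < E := by positivity
  obtain ⟨M, hM1, hM2, hM3⟩ := ((ph_grows hl' hx0 hxγ hn).and
    ((eventually_ge_atTop R).and (eventually_ge_atTop (2 * E / q)))).exists
  have hM : 0 < M := hR.trans_le hM2
  have hre := ph_real (γ := γ) hx0 hxγ.le l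
  have hne : ph γ l x M ≠ 0 := by
    intro h0
    rw [h0] at hM1
    simp at hM1
  set n : ℝ := ‖ph γ l x M‖ ^ 2 / 2 with hnd
  have hn0 : 0 < n := by
    have := norm_pos_iff.mpr hne
    positivity
  have c1 := g1_ph h1 hl hxV hM
  have c2 := g1_phD h1 hl hxV hM
  have v1 : ∀ᶠ z in 𝓝 (x : ℂ), n < ‖ph γ l z M‖ ^ 2 := by
    refine (c1.norm.pow 2).eventually (lt_mem_nhds ?_)
    show n < ‖ph γ l x M‖ ^ 2
    linarith
  have v2 : ∀ᶠ z in 𝓝 (x : ℂ), 0 < ((starRingEnd ℂ) (ph γ l z M) * phD γ l z M).re := by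
    have c3 : ContinuousAt (fun z => ((starRingEnd ℂ) (ph γ l z M) * phD γ l z M).re) (x : ℂ) :=
      Complex.continuous_re.continuousAt.comp
        ((Complex.continuous_conj.continuousAt.comp c1).mul c2)
    refine c3.eventually (lt_mem_nhds ?_)
    show 0 < ((starRingEnd ℂ) (ph γ l x M) * phD γ l x M).re
    rw [Complex.mul_re, Complex.conj_re, (hre M).2.1]
    linarith
  have v3 : ∀ᶠ z in 𝓝 (x : ℂ), ‖Ec γ z‖ < E := by
    refine (g1_Ec (γ := γ) h1 (z := x) (by simpa)).norm.eventually (gt_mem_nhds ?_)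
    show ‖Ec γ x‖ < E
    linarith
  have v4 : ∀ᶠ z in 𝓝 (x : ℂ), z.re < x / 2 := by
    refine Complex.continuous_re.continuousAt.eventually (gt_mem_nhds ?_)
    show (x : ℂ).re < x / 2
    rw [Complex.ofReal_re]
    linarith
  have v5 : ∀ᶠ z in 𝓝 (x : ℂ), ∀ r, M ≤ r → n * (1 + q * (r - M) ^ 2) ≤ ‖ph γ l z r‖ ^ 2 := by
    filter_upwards [v1, v2, v3, v4] with z a1 a2 a3 a4 r hr
    refine le_trans (mul_le_mul_of_nonneg_right a1.le (by positivity))
      (g1_grow (ph_sol hl' γ z) hM hq.le (fun t ht => ?_) a2.le hr)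
    have ht0 : 0 < t := hM.trans_le ht
    rw [Qc_re]
    have b1 : 0 ≤ l * (l + 1) / t ^ 2 := by positivity
    have b2 : (Ec γ z).re ≤ E := ((Complex.re_le_norm _).trans a3.le)
    have b3 : 2 * (Ec γ z).re / t ≤ q := by
      rw [div_le_iff₀ ht0]
      have b4 : 2 * E / q ≤ t := hM3.trans ht
      rw [div_le_iff₀ hq] at b4
      linarith
    linarith
  have v6 : ∀ᶠ z in 𝓝 (x : ℂ), ∀ r, M ≤ r → ph γ l z r ≠ 0 := by
    filter_upwards [v5] with z a1 r hr h0
    have := a1 r hr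
    rw [h0, norm_zero] at this
    have b : 0 < n * (1 + q * (r - M) ^ 2) := by positivity
    linarith
  have v7 : ∀ᶠ z in 𝓝 (x : ℂ),
      AEStronglyMeasurable (fun r => 1 / ph γ l z r ^ 2) (volume.restrict (Ioi M)) := by
    filter_upwards [v6] with z a1
    refine ContinuousOn.aestronglyMeasurable (fun r hr => ?_) measurableSet_Ioi
    have hr' : M ≤ r := le_of_lt hr
    exact (continuousAt_const.div (((ph_sol hl' γ z).d1 r (hM.trans_le hr')).continuousAt.pow 2)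
      (pow_ne_zero 2 (a1 r hr'))).continuousWithinAt
  have v8 : ∀ᶠ z in 𝓝 (x : ℂ), ∀ᵐ r ∂(volume.restrict (Ioi M)),
      ‖1 / ph γ l z r ^ 2‖ ≤ n⁻¹ * (1 + q * (r - M) ^ 2)⁻¹ := by
    filter_upwards [v5] with z a1
    filter_upwards [ae_restrict_mem measurableSet_Ioi] with r hr
    rw [norm_div, norm_one, norm_pow, one_div, ← mul_inv]
    exact inv_anti₀ (by positivity) (a1 r (le_of_lt hr))
  have hb : Integrable (fun r : ℝ => n⁻¹ * (1 + q * (r - M) ^ 2)⁻¹) (volume.restrict (Ioi M)) :=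
    (g1_int hq M n).integrableOn
  have lim : Tendsto (fun z => ∫ r in Ioi M, 1 / ph γ l z r ^ 2) (𝓝 (x : ℂ))
      (𝓝 (∫ r in Ioi M, 1 / ph γ l x r ^ 2)) := by
    refine tendsto_integral_filter_of_dominated_convergence _ v7 v8 hb ?_
    filter_upwards [ae_restrict_mem measurableSet_Ioi] with r hr
    have hr' : M ≤ r := le_of_lt hr
    exact continuousAt_const.div ((g1_ph h1 hl hxV (hM.trans_le hr')).pow 2)
      (pow_ne_zero 2 (v6.self_of_nhds r hr'))
  refine ⟨M, hM2, hne, _, ?_, (lim.mono_left nhdsWithin_le_nhds).congr' ?_⟩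
  · have : (fun r => 1 / ph γ l x r ^ 2) = fun r => ((1 / (ph γ l x r).re ^ 2 : ℝ) : ℂ) := by
      funext r
      have b : ph γ l x r = ((ph γ l x r).re : ℂ) :=
        Complex.ext (by simp) (by simp [(hre r).1])
      rw [Complex.ofReal_div, Complex.ofReal_pow, ← b, Complex.ofReal_one]
    rw [this, integral_complex_ofReal]
    exact Complex.ofReal_im _
  · filter_upwards [self_mem_nhdsWithin, v7.filter_mono nhdsWithin_le_nhds,
      v8.filter_mono nhdsWithin_le_nhds] with z hz a1 a2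
    have hi : IntegrableOn (fun r => 1 / ph γ l z r ^ 2) (Ioi M) := hb.mono' a1 a2
    exact tendsto_nhds_unique (intervalIntegral_tendsto_integral_Ioi M hi tendsto_id)
      (cM_tendsto h1 hl hz hM)

/-- imaginary parts of a solution on a compact interval -/
theorem g1_im {Q u u' : ℝ → ℂ} (h : Sol Q u u') {a b K η C : ℝ} (ha : 0 < a) (hab : a ≤ b)
    (hK : 1 ≤ K) (hη : 0 ≤ η) (hC : 0 ≤ C) (hQ : ∀ r ∈ Icc a b, ‖Q r‖ ≤ K)
    (hI : ∀ r ∈ Icc a b, |(Q r).im| ≤ η) (hu : ∀ r ∈ Icc a b, ‖u r‖ ≤ C) :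
    |(u a).im| + |(u' a).im|
      ≤ 2 * (|(u b).im| + |(u' b).im| + η * C) * Real.exp (K * (b - a)) := by
  have := gron (Q := fun r => ((Q r).re : ℂ)) (h := fun r => (((Q r).im * (u r).re : ℝ) : ℂ))
    (u := fun r => ((u r).im : ℂ)) (u' := fun r => ((u' r).im : ℂ)) (a := a) (b := b) (K := K)
    (H := η * C) hK (by positivity)
    (fun r hr => (Complex.imCLM.hasFDerivAt.comp_hasDerivAt r
      (h.d1 r (ha.trans_le hr.1))).ofReal_comp)
    (fun r hr => by
      have d := (Complex.imCLM.hasFDerivAt.comp_hasDerivAt r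
        (h.d2 r (ha.trans_le hr.1))).ofReal_comp
      have e : ((Complex.imCLM (Q r * u r) : ℝ) : ℂ)
          = ((Q r).re : ℂ) * ((u r).im : ℂ) + (((Q r).im * (u r).re : ℝ) : ℂ) := by
        rw [Complex.imCLM_apply, Complex.mul_im]
        push_cast
        ring
      rw [e] at d
      exact d)
    (fun r hr => by
      rw [Complex.norm_real, Real.norm_eq_abs]
      exact (Complex.abs_re_le_norm _).trans (hQ r hr))
    (fun r hr => by
      rw [Complex.norm_real, Real.norm_eq_abs, abs_mul]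
      exact mul_le_mul (hI r hr) ((Complex.abs_re_le_norm _).trans (hu r hr)) (abs_nonneg _) hη)
    (r := a) (t := b) ⟨le_refl a, hab⟩ ⟨hab, le_refl b⟩
  simpa only [Complex.norm_real, Real.norm_eq_abs] using this

/-- the subdominant solution near a point that is not an eigenvalue -/
theorem g1_ps (h1 : γ ^ 2 ≤ 1) (hl : 0 ≤ l) (hR : 0 < R) {x : ℝ} (hx : -1 < x)
    (hx0 : x < 0) (hn : ∀ n, x ≠ ep γ l n) :
    (∃ C : ℝ, ∀ᶠ z in 𝓝[UU] (x : ℂ), ‖ps γ l z R‖ + ‖psD γ l z R‖ ≤ C) ∧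
    Tendsto (fun z => |(ps γ l z R).im| + |(psD γ l z R).im|) (𝓝[UU] (x : ℂ)) (𝓝 0) := by
  have hxγ : 0 < 1 + γ ^ 2 * x := by nlinarith [sq_nonneg γ]
  have hxV := g1_UV hx hx0
  obtain ⟨M, hRM, hne, c, hc, lim⟩ := g1_tail h1 hl hR hx hx0 hn
  have hM : 0 < M := hR.trans_le hRM
  have hre := ph_real (γ := γ) hx0 hxγ.le l M
  have c1 : Tendsto (fun z => ph γ l z M) (𝓝[UU] (x : ℂ)) (𝓝 (ph γ l x M)) :=
    (g1_ph h1 hl hxV hM).tendsto.mono_left nhdsWithin_le_nhds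
  have c2 : Tendsto (fun z => phD γ l z M) (𝓝[UU] (x : ℂ)) (𝓝 (phD γ l x M)) :=
    (g1_phD h1 hl hxV hM).tendsto.mono_left nhdsWithin_le_nhds
  have c3 : Tendsto (Ec γ) (𝓝[UU] (x : ℂ)) (𝓝 (Ec γ x)) :=
    (g1_Ec (γ := γ) h1 (z := x) (by simpa)).tendsto.mono_left nhdsWithin_le_nhds
  have c4 : Tendsto (fun z : ℂ => z) (𝓝[UU] (x : ℂ)) (𝓝 (x : ℂ)) :=
    tendsto_id.mono_left nhdsWithin_le_nhds
  have p1 : Tendsto (fun z => ps γ l z M) (𝓝[UU] (x : ℂ)) (𝓝 (ph γ l x M * c)) := c1.mul lim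
  have p2 : Tendsto (fun z => psD γ l z M) (𝓝[UU] (x : ℂ))
      (𝓝 (phD γ l x M * c - 1 / ph γ l x M)) :=
    (c2.mul lim).sub (tendsto_const_nhds.div c1 hne)
  have i1 : (ph γ l x M * c).im = 0 := by rw [Complex.mul_im, hc, hre.1]; ring
  have i2 : (phD γ l x M * c - 1 / ph γ l x M).im = 0 := by
    rw [Complex.sub_im, Complex.mul_im, hc, hre.2.1, one_div, Complex.inv_im, hre.1]; ring
  have i3 : (Ec γ x).im = 0 := by rw [Ec_real h1 hx]; exact Complex.ofReal_im _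
  set K : ℝ := l * (l + 1) / R ^ 2 + 2 * (‖Ec γ x‖ + 1) / R + (‖(x : ℂ)‖ + 1) with hKd
  have hK : 1 ≤ K := by
    have : 0 ≤ l * (l + 1) / R ^ 2 + 2 * (‖Ec γ x‖ + 1) / R + ‖(x : ℂ)‖ := by positivity
    linarith
  have v1 : ∀ᶠ z in 𝓝[UU] (x : ℂ), ∀ r ∈ Icc R M, ‖Qc γ l z r‖ ≤ K := by
    filter_upwards [c3.norm.eventually (gt_mem_nhds (lt_add_one _)),
      c4.norm.eventually (gt_mem_nhds (lt_add_one _))] with z a1 a2 r hr
    have hr0 : 0 < r := hR.trans_le hr.1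
    have b1 : ‖((l : ℂ) * (l + 1) / (r : ℂ) ^ 2)‖ ≤ l * (l + 1) / R ^ 2 := by
      have e : ((l : ℂ) * (l + 1) / (r : ℂ) ^ 2) = ((l * (l + 1) / r ^ 2 : ℝ) : ℂ) := by
        push_cast
        rfl
      rw [e, Complex.norm_real, Real.norm_of_nonneg (by positivity)]
      exact div_le_div_of_nonneg_left (by positivity) (by positivity)
        (pow_le_pow_left₀ hR.le hr.1 2)
    have b2 : ‖2 * Ec γ z / (r : ℂ)‖ ≤ 2 * (‖Ec γ x‖ + 1) / R := by
      rw [norm_div, norm_mul, Complex.norm_real, Real.norm_of_nonneg hr0.le, Complex.norm_two]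
      exact div_le_div₀ (by positivity) (by linarith) hR hr.1
    have b3 := norm_sub_le ((l : ℂ) * (l + 1) / (r : ℂ) ^ 2 - 2 * Ec γ z / (r : ℂ)) z
    have b4 := norm_sub_le ((l : ℂ) * (l + 1) / (r : ℂ) ^ 2) (2 * Ec γ z / (r : ℂ))
    unfold Qc
    linarith
  set B : ℝ := ‖ph γ l x M * c‖ + ‖phD γ l x M * c - 1 / ph γ l x M‖ + 1 with hBd
  set C : ℝ := 2 * (B + 0) * Real.exp (K * (M - R)) with hCd
  have hC : 0 ≤ C := by positivity
  have v2 : ∀ᶠ z in 𝓝[UU] (x : ℂ), ∀ r ∈ Icc R M, ‖ps γ l z r‖ + ‖psD γ l z r‖ ≤ C := by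
    filter_upwards [self_mem_nhdsWithin, v1,
      (p1.norm.add p2.norm).eventually (gt_mem_nhds (lt_add_one _))] with z hz a1 a2 r hr
    have hs := ps_sol h1 hl hz
    have := gron (Q := Qc γ l z) (h := fun _ => 0) (u := ps γ l z) (u' := psD γ l z) (a := R)
      (b := M) (K := K) (H := 0) hK le_rfl (fun t ht => hs.d1 t (hR.trans_le ht.1))
      (fun t ht => by rw [add_zero]; exact hs.d2 t (hR.trans_le ht.1)) a1
      (fun t _ => by simp) hr ⟨hRM, le_refl M⟩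
    refine this.trans (mul_le_mul_of_nonneg_right ?_ (Real.exp_pos _).le)
    linarith
  refine ⟨⟨C, v2.mono fun z hz => hz R ⟨le_refl R, hRM⟩⟩, ?_⟩
  have t1 : Tendsto (fun z => |(ps γ l z M).im|) (𝓝[UU] (x : ℂ)) (𝓝 0) := by
    have := ((Complex.continuous_im.tendsto _).comp p1).abs
    rwa [i1, abs_zero] at this
  have t2 : Tendsto (fun z => |(psD γ l z M).im|) (𝓝[UU] (x : ℂ)) (𝓝 0) := by
    have := ((Complex.continuous_im.tendsto _).comp p2).abs
    rwa [i2, abs_zero] at this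
  have t3 : Tendsto (fun z => |(Ec γ z).im|) (𝓝[UU] (x : ℂ)) (𝓝 0) := by
    have := ((Complex.continuous_im.tendsto _).comp c3).abs
    rwa [i3, abs_zero] at this
  have t4 : Tendsto (fun z : ℂ => |z.im|) (𝓝[UU] (x : ℂ)) (𝓝 0) := by
    have := ((Complex.continuous_im.tendsto _).comp c4).abs
    rwa [Complex.ofReal_im, abs_zero] at this
  have t5 : Tendsto (fun z => 2 * (|(ps γ l z M).im| + |(psD γ l z M).im|
      + (2 * |(Ec γ z).im| / R + |z.im|) * C) * Real.exp (K * (M - R))) (𝓝[UU] (x : ℂ)) (𝓝 0) := by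
    have := (((t1.add t2).add ((((t3.const_mul 2).div_const R).add t4).mul_const C)).const_mul
      2).mul_const (Real.exp (K * (M - R)))
    simpa using this
  refine squeeze_zero' (Eventually.of_forall fun z => by positivity) ?_ t5
  filter_upwards [self_mem_nhdsWithin, v1, v2] with z hz a1 a2
  refine g1_im (ps_sol h1 hl hz) hR hRM hK (by positivity) hC a1 (fun r hr => ?_)
    (fun r hr => le_trans (le_add_of_nonneg_right (norm_nonneg _)) (a2 r hr))
  have hr0 : 0 < r := hR.trans_le hr.1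
  rw [Qc_im, abs_neg]
  refine (abs_add_le _ _).trans (add_le_add ?_ le_rfl)
  rw [abs_div, abs_mul, abs_two, abs_of_pos hr0]
  exact div_le_div_of_nonneg_left (by positivity) hR hr.1

/-- the Green function near a point that is not an eigenvalue -/
theorem gab_regular (h1 : γ ^ 2 ≤ 1) (hl : 0 ≤ l) (hR : 0 < R) (a b : ℝ) {x : ℝ} (hx : -1 < x)
    (hx0 : x < 0) (hn : ∀ n, x ≠ ep γ l n) :
    (∃ C δ : ℝ, 0 < δ ∧ ∀ z ∈ UU, ‖z - x‖ < δ → ‖gab γ l R a b z‖ ≤ C) ∧
    Tendsto (fun η : ℝ => (gab γ l R a b (x + η * I)).im) (𝓝[>] 0) (𝓝 0) := by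
  have hxγ : 0 < 1 + γ ^ 2 * x := by nlinarith [sq_nonneg γ]
  have hxV := g1_UV hx hx0
  obtain ⟨⟨C, hC⟩, lim⟩ := g1_ps h1 hl hR hx hx0 hn
  have hre := ph_real (γ := γ) hx0 hxγ.le l R
  have c1 : Tendsto (fun z => a * ph γ l z R + b * phD γ l z R) (𝓝[UU] (x : ℂ))
      (𝓝 (a * ph γ l x R + b * phD γ l x R)) :=
    (((g1_ph h1 hl hxV hR).tendsto.const_mul _).add
      ((g1_phD h1 hl hxV hR).tendsto.const_mul _)).mono_left nhdsWithin_le_nhds
  have i1 : ((a : ℂ) * ph γ l x R + b * phD γ l x R).im = 0 := by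
    simp [hre.1, hre.2.1]
  set A : ℝ := ‖(a : ℂ) * ph γ l x R + b * phD γ l x R‖ + 1 with hA
  have hA0 : 0 ≤ A := by positivity
  have v1 : ∀ᶠ z in 𝓝[UU] (x : ℂ), ‖(a : ℂ) * ph γ l z R + b * phD γ l z R‖ ≤ A :=
    (c1.norm.eventually (gt_mem_nhds (lt_add_one _))).mono fun z hz => hz.le
  have v2 : ∀ᶠ z in 𝓝[UU] (x : ℂ),
      ‖(a : ℂ) * ps γ l z R + b * psD γ l z R‖ ≤ (|a| + |b|) * C := by
    filter_upwards [hC] with z a1
    refine (norm_add_le _ _).trans ?_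
    rw [norm_mul, norm_mul, Complex.norm_real, Complex.norm_real, Real.norm_eq_abs,
      Real.norm_eq_abs]
    have b1 := norm_nonneg (ps γ l z R)
    have b2 := norm_nonneg (psD γ l z R)
    have b3 := mul_le_mul_of_nonneg_left (show ‖ps γ l z R‖ ≤ C by linarith) (abs_nonneg a)
    have b4 := mul_le_mul_of_nonneg_left (show ‖psD γ l z R‖ ≤ C by linarith) (abs_nonneg b)
    linarith
  constructor
  · have v3 : ∀ᶠ z in 𝓝[UU] (x : ℂ), ‖gab γ l R a b z‖ ≤ A * ((|a| + |b|) * C) := by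
      filter_upwards [self_mem_nhdsWithin, v1, v2] with z hz a1 a2
      rw [gab_eq h1 hl hz hR, norm_mul]
      exact mul_le_mul a1 a2 (norm_nonneg _) hA0
    rw [eventually_nhdsWithin_iff, Metric.eventually_nhds_iff] at v3
    obtain ⟨δ, hδ, v3⟩ := v3
    exact ⟨_, δ, hδ, fun z hz hd => v3 (by rwa [dist_eq_norm]) hz⟩
  · have t1 : Tendsto (fun z => |((a : ℂ) * ph γ l z R + b * phD γ l z R).im|) (𝓝[UU] (x : ℂ))
        (𝓝 0) := by
      have := ((Complex.continuous_im.tendsto _).comp c1).abs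
      rwa [i1, abs_zero] at this
    have t2 : Tendsto (fun z => A * ((|a| + |b|) * (|(ps γ l z R).im| + |(psD γ l z R).im|))
        + |((a : ℂ) * ph γ l z R + b * phD γ l z R).im| * ((|a| + |b|) * C)) (𝓝[UU] (x : ℂ))
        (𝓝 0) := by
      have := ((lim.const_mul (|a| + |b|)).const_mul A).add (t1.mul_const ((|a| + |b|) * C))
      simpa using this
    have t3 : Tendsto (fun z => (gab γ l R a b z).im) (𝓝[UU] (x : ℂ)) (𝓝 0) := by
      refine squeeze_zero_norm' ?_ t2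
      filter_upwards [self_mem_nhdsWithin, v1, v2] with z hz a1 a2
      rw [gab_eq h1 hl hz hR, Complex.mul_im, Real.norm_eq_abs]
      refine (abs_add_le _ _).trans (add_le_add ?_ ?_)
      · rw [abs_mul]
        refine mul_le_mul ((Complex.abs_re_le_norm _).trans a1) ?_ (abs_nonneg _) hA0
        have e : ((a : ℂ) * ps γ l z R + b * psD γ l z R).im
            = a * (ps γ l z R).im + b * (psD γ l z R).im := by simp
        rw [e]
        refine (abs_add_le _ _).trans ?_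
        rw [abs_mul, abs_mul]
        have b1 := abs_nonneg (ps γ l z R).im
        have b2 := abs_nonneg (psD γ l z R).im
        have b3 := mul_nonneg (abs_nonneg a) b2
        have b4 := mul_nonneg (abs_nonneg b) b1
        nlinarith
      · rw [abs_mul]
        exact mul_le_mul_of_nonneg_left ((Complex.abs_re_le_norm _).trans a2) (abs_nonneg _)
    refine t3.comp (f := fun η : ℝ => (x : ℂ) + η * I) ?_
    rw [tendsto_nhdsWithin_iff]
    constructor
    · have hc : Continuous fun η : ℝ => (x : ℂ) + η * I := by fun_prop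
      have := (hc.tendsto 0).mono_left (nhdsWithin_le_nhds (s := Ioi 0))
      simpa using this
    · filter_upwards [self_mem_nhdsWithin] with η hη
      exact ⟨by simpa, by simpa using hη⟩

end Pool.Agent.Lib.MP_2347b2_mp.F
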