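import Pool.Agent.Lib.MP_2347b2_mp.F.CWeyl
import Pool.Agent.Lib.MP_2347b2_mp.F.CReal
import Pool.Agent.Lib.MP_2347b2_mp.F.Eig2

namespace Pool.Agent.Lib.MP_2347b2_mp.F

open MeasureTheory Set Filter Topology Complex

variable {γ l : ℝ}

theorem g2_key {p h h' g : ℝ → ℝ} {M : ℝ} (hp : ∀ x, M ≤ x → HasDerivAt p (2 * h x) x)
    (hh : ∀ x, M ≤ x → HasDerivAt h (h' x) x) (hg : ∀ x, M ≤ x → g x ≤ h' x)
    (gi : IntegrableOn g (Ioi M)) (p0 : ∀ x, 0 ≤ p x) (pi : IntegrableOn p (Ioi M))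
    (hM : h M = 0) : ∫ x in Ioi M, g x ≤ 0 := by
  by_contra hc
  have hk : 0 < ∫ x in Ioi M, g x := not_le.mp hc
  set k := ∫ x in Ioi M, g x with hkd
  have t1 : Tendsto (fun x => ∫ y in M..x, g y) atTop (𝓝 k) :=
    intervalIntegral_tendsto_integral_Ioi M gi tendsto_id
  have t2 : ∀ᶠ x in atTop, k / 2 < ∫ y in M..x, g y := t1.eventually (lt_mem_nhds (by linarith))
  obtain ⟨N, hN⟩ := (t2.and (eventually_ge_atTop M)).exists_forall_of_atTop
  have hNM : M ≤ N := (hN N le_rfl).2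
  have l1 : ∀ x, N ≤ x → k / 2 ≤ h x := by
    intro x hx
    have hx' : M ≤ x := hNM.trans hx
    have := intervalIntegral.integral_le_sub_of_hasDeriv_right_of_le (g := h) (g' := h') (φ := g)
      hx' (fun y hy => (hh y hy.1).continuousAt.continuousWithinAt)
      (fun y hy => (hh y hy.1.le).hasDerivWithinAt)
      ((integrableOn_Icc_iff_integrableOn_Ioc).mpr (gi.mono_set Ioc_subset_Ioi_self))
      (fun y hy => hg y hy.1.le)
    have := (hN x hx).1
    linarith
  have l2 : ∀ x, N + 1 ≤ x → k ≤ p x := by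
    intro x hx
    have hx' : N ≤ x := by linarith
    have := intervalIntegral.integral_le_sub_of_hasDeriv_right_of_le (g := p)
      (g' := fun x => 2 * h x) (φ := fun _ => k)
      hx' (fun y hy => (hp y (hNM.trans hy.1)).continuousAt.continuousWithinAt)
      (fun y hy => (hp y (hNM.trans hy.1.le)).hasDerivWithinAt)
      (continuous_const.integrableOn_Icc)
      (fun y hy => by have := l1 y hy.1.le; linarith)
    rw [intervalIntegral.integral_const, smul_eq_mul] at this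
    have := p0 N
    nlinarith
  have i1 : IntegrableOn p (Ioi (N + 1)) := pi.mono_set (Ioi_subset_Ioi (by linarith))
  have i2 : IntegrableOn (fun _ : ℝ => k) (Ioi (N + 1)) := by
    refine Integrable.mono' i1 aestronglyMeasurable_const ?_
    filter_upwards [ae_restrict_mem measurableSet_Ioi] with x hx
    rw [Real.norm_eq_abs, abs_of_pos hk]
    exact l2 x (le_of_lt hx)
  rw [integrableOn_const_iff] at i2
  rcases i2 with i2 | i2
  · simp at i2; linarith
  · simp at i2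

theorem Sol.contOn {Q u u' : ℝ → ℂ} (h : Sol Q u u') {M : ℝ} (hM : 0 ≤ M) :
    ContinuousOn u (Ioi M) := fun r hr =>
  (h.d1 r (lt_of_le_of_lt hM hr)).continuousAt.continuousWithinAt

theorem Sol.div {Q u u' : ℝ → ℂ} (h : Sol Q u u') (c : ℂ) :
    Sol Q (fun r => u r / c) (fun r => u' r / c) :=
  ⟨fun r hr => (h.d1 r hr).div_const c, fun r hr => by
    have := (h.d2 r hr).div_const c
    rwa [mul_div_assoc] at this⟩

theorem g2_ff_sol (hl : -1 < l) (γ : ℝ) (n : ℕ) :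
    Sol (fun r => (QQ γ l n r : ℂ)) (fun r => (ff γ l n r : ℂ)) (fun r => (fd γ l n r : ℂ)) :=
  ⟨fun r hr => (ff_deriv hl n hr).ofReal_comp, fun r hr => by
    have := (fd_deriv (γ := γ) hl n hr).ofReal_comp
    rwa [ofReal_mul] at this⟩

theorem g2_ff_int (hl : 0 ≤ l) (γ : ℝ) (n : ℕ) {M : ℝ} (hM : 0 ≤ M) :
    IntegrableOn (fun r => ‖(ff γ l n r : ℂ)‖ ^ 2) (Ioi M) := by
  have := ff_int (γ := γ) (l := l) (by linarith) n (p := 0) (by linarith)
  refine (this.mono_set (Ioi_subset_Ioi hM)).congr_fun (fun r _ => ?_) measurableSet_Ioi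
  simp

theorem g2_core {Q P u u' v v' : ℝ → ℂ} (hu : Sol Q u u') (hv : Sol P v v') {M q k : ℝ}
    (hM : 0 < M) (hq : 0 < q) (hQ : ∀ r, M ≤ r → q ≤ (Q r).re)
    (hP : ∀ r, M ≤ r → ‖Q r - P r‖ ≤ k) (e : u M = v M)
    (iu : IntegrableOn (fun r => ‖u r‖ ^ 2) (Ioi M))
    (iv : IntegrableOn (fun r => ‖v r‖ ^ 2) (Ioi M)) :
    ∫ r in Ioi M, ‖u r - v r‖ ^ 2 ≤ k ^ 2 / q ^ 2 * ∫ r in Ioi M, ‖v r‖ ^ 2 := by
  have id : IntegrableOn (fun r => ‖u r - v r‖ ^ 2) (Ioi M) := by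
    refine Integrable.mono' ((iu.const_mul 2).add (iv.const_mul 2)) ?_ ?_
    · exact ((((hu.contOn hM.le).sub (hv.contOn hM.le)).norm).pow 2).aestronglyMeasurable
        measurableSet_Ioi
    · refine Eventually.of_forall fun r => ?_
      have h1 := norm_sub_le (u r) (v r)
      have h2 := norm_nonneg (u r - v r)
      have h3 : ‖u r - v r‖ ^ 2 ≤ (‖u r‖ + ‖v r‖) ^ 2 := pow_le_pow_left₀ h2 h1 2
      rw [Real.norm_eq_abs, abs_of_nonneg (by positivity)]
      simp only [Pi.add_apply]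
      nlinarith [sq_nonneg (‖u r‖ - ‖v r‖)]
  have d1 : ∀ r, M ≤ r → HasDerivAt (fun r => u r - v r) (u' r - v' r) r := fun r hr =>
    (hu.d1 r (hM.trans_le hr)).sub (hv.d1 r (hM.trans_le hr))
  have d2 : ∀ r, M ≤ r → HasDerivAt (fun r => u' r - v' r) (Q r * u r - P r * v r) r :=
    fun r hr => (hu.d2 r (hM.trans_le hr)).sub (hv.d2 r (hM.trans_le hr))
  have key := g2_key (M := M) (p := fun r => ‖u r - v r‖ ^ 2)
    (h := fun r => inner ℝ (u r - v r) (u' r - v' r))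
    (h' := fun r => inner ℝ (u r - v r) (Q r * u r - P r * v r)
      + inner ℝ (u' r - v' r) (u' r - v' r))
    (g := fun r => q / 2 * ‖u r - v r‖ ^ 2 - k ^ 2 / (2 * q) * ‖v r‖ ^ 2)
    (fun r hr => (d1 r hr).norm_sq) (fun r hr => (d1 r hr).inner ℝ (d2 r hr)) ?_
    (Integrable.sub (id.const_mul (q / 2)) (iv.const_mul (k ^ 2 / (2 * q))))
    (fun r => by positivity) id (by simp [e])
  · rw [integral_sub (id.const_mul _) (iv.const_mul _), integral_const_mul,
      integral_const_mul] at key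
    have e2 : k ^ 2 / q ^ 2 * ∫ r in Ioi M, ‖v r‖ ^ 2
        = 2 / q * (k ^ 2 / (2 * q) * ∫ r in Ioi M, ‖v r‖ ^ 2) := by field_simp
    have e3 : ∫ r in Ioi M, ‖u r - v r‖ ^ 2
        = 2 / q * (q / 2 * ∫ r in Ioi M, ‖u r - v r‖ ^ 2) := by field_simp
    rw [e2, e3]
    exact mul_le_mul_of_nonneg_left (by linarith) (by positivity)
  · intro r hr
    have e1 : Q r * u r - P r * v r = Q r * (u r - v r) + (Q r - P r) * v r := by ring
    have e2 : inner ℝ (u r - v r) (Q r * (u r - v r)) = (Q r).re * ‖u r - v r‖ ^ 2 := by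
      rw [Complex.inner, mul_assoc, Complex.mul_conj, Complex.normSq_eq_norm_sq, re_mul_ofReal]
    have e3 := abs_real_inner_le_norm (u r - v r) ((Q r - P r) * v r)
    have e4 : ‖(Q r - P r) * v r‖ ≤ k * ‖v r‖ := by
      rw [norm_mul]; exact mul_le_mul_of_nonneg_right (hP r hr) (norm_nonneg _)
    have e5 : 0 ≤ inner ℝ (u' r - v' r) (u' r - v' r) := real_inner_self_nonneg
    have e6 := neg_abs_le (inner ℝ (u r - v r) ((Q r - P r) * v r))
    have e7 := mul_le_mul_of_nonneg_left e4 (norm_nonneg (u r - v r))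
    have e8 := mul_le_mul_of_nonneg_right (hQ r hr) (sq_nonneg ‖u r - v r‖)
    have e9 : ‖u r - v r‖ * (k * ‖v r‖)
        ≤ q / 2 * ‖u r - v r‖ ^ 2 + k ^ 2 / (2 * q) * ‖v r‖ ^ 2 := by
      have : q / 2 * ‖u r - v r‖ ^ 2 + k ^ 2 / (2 * q) * ‖v r‖ ^ 2 - ‖u r - v r‖ * (k * ‖v r‖)
          = (q * ‖u r - v r‖ - k * ‖v r‖) ^ 2 / (2 * q) := by field_simp; ring
      have h2 : 0 ≤ (q * ‖u r - v r‖ - k * ‖v r‖) ^ 2 / (2 * q) := by positivity
      linarith
    rw [e1, inner_add_right, e2]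
    linarith

/-- polynomial growth of a square integrable solution -/
theorem g2_grow {Q u u' : ℝ → ℂ} (hu : Sol Q u u') {M K : ℝ} (hM : 0 < M)
    (hc : ContinuousOn Q (Ioi 0)) (hQ : ∀ r, M ≤ r → ‖Q r‖ ≤ K)
    (iu : IntegrableOn (fun r => ‖u r‖ ^ 2) (Ioi M)) :
    ∃ A : ℝ, ∀ r, M ≤ r → 1 ≤ r → ‖u' r‖ ≤ A * r ∧ ‖u r‖ ≤ A * r ^ 2 := by
  have hK : 0 ≤ K := (norm_nonneg _).trans (hQ M le_rfl)
  set J := ∫ r in Ioi M, ‖u r‖ ^ 2 with hJ
  have hJ0 : 0 ≤ J := integral_nonneg fun r => by positivity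
  have b1 : ∀ r, M ≤ r → ‖u' r‖ ≤ ‖u' M‖ + K * J + K * r := by
    intro r hr
    have sub : uIcc M r ⊆ Ioi 0 := by
      rw [uIcc_of_le hr]; exact fun x hx => hM.trans_le hx.1
    have cu : ContinuousOn u (uIcc M r) := (hu.contOn le_rfl).mono sub
    have f1 := intervalIntegral.integral_eq_sub_of_hasDerivAt (f := u') (f' := fun r => Q r * u r)
      (a := M) (b := r) (fun x hx => hu.d2 x (sub hx))
      (((hc.mono sub).mul cu).intervalIntegrable)
    have i1 : IntervalIntegrable (fun x => ‖u x‖ ^ 2) volume M r :=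
      (cu.norm.pow 2).intervalIntegrable
    have f2 : ‖∫ x in M..r, Q x * u x‖ ≤ ∫ x in M..r, (K + K * ‖u x‖ ^ 2) := by
      refine intervalIntegral.norm_integral_le_of_norm_le hr ?_
        (intervalIntegrable_const.add (i1.const_mul K))
      refine Eventually.of_forall fun x hx => ?_
      have h1 := mul_le_mul_of_nonneg_right (hQ x hx.1.le) (norm_nonneg (u x))
      have h2 : ‖u x‖ ≤ 1 + ‖u x‖ ^ 2 := by nlinarith [sq_nonneg (‖u x‖ - 1), norm_nonneg (u x)]
      have h3 := mul_le_mul_of_nonneg_left h2 hK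
      rw [norm_mul]
      linarith
    rw [intervalIntegral.integral_add intervalIntegrable_const (i1.const_mul K),
      intervalIntegral.integral_const, intervalIntegral.integral_const_mul, smul_eq_mul, f1] at f2
    have f3 : ∫ x in M..r, ‖u x‖ ^ 2 ≤ J := by
      rw [intervalIntegral.integral_of_le hr]
      exact setIntegral_mono_set iu (Eventually.of_forall fun x => by positivity)
        Ioc_subset_Ioi_self.eventuallyLE
    have f4 := mul_le_mul_of_nonneg_left f3 hK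
    have f5 := norm_sub_norm_le (u' r) (u' M)
    nlinarith
  set B := ‖u' M‖ + K * J + K with hB
  have hB0 : 0 ≤ ‖u' M‖ + K * J := by positivity
  refine ⟨B + ‖u M‖, fun r hr h1 => ?_⟩
  have b2 : ∀ x ∈ Ico M r, ‖u' x‖ ≤ B * r := fun x hx => by
    have h2 := b1 x hx.1
    have h3 := mul_le_mul_of_nonneg_left hx.2.le hK
    nlinarith
  have b3 := norm_image_sub_le_of_norm_deriv_le_segment' (f := u) (f' := u') (a := M) (b := r)
    (C := B * r) (fun x hx => (hu.d1 x (hM.trans_le hx.1)).hasDerivWithinAt) b2 r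
    (right_mem_Icc.mpr hr)
  have b4 := norm_sub_norm_le (u r) (u M)
  have b5 := b1 r hr
  have b6 : 0 ≤ B * r := by positivity
  have b7 : 1 ≤ r ^ 2 := one_le_pow₀ h1
  have b8 := norm_nonneg (u M)
  constructor
  · nlinarith
  · nlinarith

theorem g2_Qc_cont (γ l : ℝ) (z : ℂ) : ContinuousOn (Qc γ l z) (Ioi 0) := by
  have h : ∀ r ∈ Ioi (0 : ℝ), (r : ℂ) ≠ 0 := fun r hr => ofReal_ne_zero.mpr (ne_of_gt hr)
  have c : ContinuousOn (fun r : ℝ => (r : ℂ)) (Ioi 0) := continuous_ofReal.continuousOn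
  exact ((continuousOn_const.div (c.pow 2) fun r hr => pow_ne_zero 2 (h r hr)).sub
    (continuousOn_const.div c h)).sub continuousOn_const

theorem g2_Qc_le (γ l : ℝ) (z : ℂ) {M r : ℝ} (hM : 0 < M) (hr : M ≤ r) :
    ‖Qc γ l z r‖ ≤ ‖(l * (l + 1) : ℂ)‖ / M ^ 2 + ‖2 * Ec γ z‖ / M + ‖z‖ := by
  have hr0 : 0 < r := hM.trans_le hr
  have h1 : ‖(l * (l + 1) : ℂ) / (r : ℂ) ^ 2‖ ≤ ‖(l * (l + 1) : ℂ)‖ / M ^ 2 := by
    rw [norm_div, norm_pow, norm_real, Real.norm_of_nonneg hr0.le]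
    gcongr
  have h2 : ‖2 * Ec γ z / (r : ℂ)‖ ≤ ‖2 * Ec γ z‖ / M := by
    rw [norm_div, norm_real, Real.norm_of_nonneg hr0.le]
    gcongr
  exact (norm_sub_le _ _).trans (add_le_add ((norm_sub_le _ _).trans (add_le_add h1 h2)) le_rfl)

theorem g2_Q_diff (γ l : ℝ) (n : ℕ) (z : ℂ) (r : ℝ) :
    Qc γ l z r - QQ γ l n r = 2 * (EE γ l n - Ec γ z) / r + (ep γ l n - z) := by
  simp only [Qc, QQ]
  push_cast
  ring

theorem g2_Q_sub (h1 : γ ^ 2 ≤ 1) (hl : 0 ≤ l) (n : ℕ) {z : ℂ} (hz : -1 < z.re) (r : ℝ) :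
    Qc γ l z r - QQ γ l n r
      = (ep γ l n - z) * (1 + 2 * γ ^ 2 / ((Ec γ z + EE γ l n) * r)) := by
  have hl' : -1 < l := by linarith
  have a1 := Ec_re_pos h1 hz
  have a2 := EE_pos (γ := γ) hl' n
  have a3 : Ec γ z + EE γ l n ≠ 0 := fun h => by
    have := congrArg Complex.re h
    simp only [add_re, ofReal_re, zero_re] at this
    linarith
  have a4 : ((EE γ l n : ℝ) : ℂ) ^ 2 = 1 + γ ^ 2 * ep γ l n := by exact_mod_cast EE_sq hl' n
  have a5 := Ec_sq γ z
  have a6 : (EE γ l n : ℂ) - Ec γ z = γ ^ 2 * (ep γ l n - z) / (Ec γ z + EE γ l n) := by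
    rw [eq_div_iff a3]
    linear_combination a4 - a5
  rw [g2_Q_diff, a6, ← div_div]
  ring

theorem g2_weight_int (hl : 0 ≤ l) (γ : ℝ) (n : ℕ) :
    ∫ r in Ioi (0 : ℝ), (1 + γ ^ 2 / (EE γ l n * r)) * ff γ l n r ^ 2 = 1 / EE γ l n ^ 2 := by
  have hl' : -1 < l := by linarith
  have i0 : IntegrableOn (fun r => ff γ l n r ^ 2) (Ioi 0) := by
    simpa using ff_int (γ := γ) hl' n (p := 0) (by linarith)
  have i1 : IntegrableOn (fun r => ff γ l n r ^ 2 / r) (Ioi 0) := by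
    refine (ff_int (γ := γ) hl' n (p := -1) (by linarith)).congr_fun (fun r _ => ?_)
      measurableSet_Ioi
    simp only [Real.rpow_neg_one]
    ring
  have e : (fun r : ℝ => (1 + γ ^ 2 / (EE γ l n * r)) * ff γ l n r ^ 2)
      = fun r => ff γ l n r ^ 2 + γ ^ 2 / EE γ l n * (ff γ l n r ^ 2 / r) := by
    funext r
    rw [← div_div]
    ring
  rw [e, integral_add i0 (i1.const_mul _), integral_const_mul, ff_norm hl', ff_pot hl']
  have a1 := NN_pos (γ := γ) hl' n
  have a2 := nu_pos hl' n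
  have a3 := NN_sq γ l n
  unfold EE
  field_simp
  linarith

theorem g2_green_out (h1 : γ ^ 2 ≤ 1) (hl : 0 ≤ l) (n : ℕ) {M : ℝ} (hM : 0 < M) {z : ℂ}
    (hz : z ∈ UU) :
    IntegrableOn (fun r => (Qc γ l z r - QQ γ l n r) * (ff γ l n r * ps γ l z r)) (Ioi M) ∧
    fd γ l n M * ps γ l z M - ff γ l n M * psD γ l z M
      = ∫ r in Ioi M, (Qc γ l z r - QQ γ l n r) * (ff γ l n r * ps γ l z r) := by
  have hl' : -1 < l := by linarith
  have su := ps_sol h1 hl hz
  have sv := g2_ff_sol hl' γ n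
  have iu := (ps_mass h1 hl hz hM).1
  have iv := g2_ff_int hl γ n hM.le
  set K := ‖2 * ((EE γ l n : ℂ) - Ec γ z)‖ / M + ‖(ep γ l n : ℂ) - z‖ with hK
  have hK0 : 0 ≤ K := by positivity
  have bK : ∀ r, M < r → ‖Qc γ l z r - QQ γ l n r‖ ≤ K := by
    intro r hr
    have hr0 : 0 < r := hM.trans hr
    rw [g2_Q_diff]
    refine (norm_add_le _ _).trans (add_le_add ?_ le_rfl)
    rw [norm_div, norm_real, Real.norm_of_nonneg hr0.le]
    gcongr
  have cQ : ContinuousOn (fun r : ℝ => Qc γ l z r - QQ γ l n r) (Ioi M) := by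
    simp only [g2_Q_diff]
    exact (continuousOn_const.div continuous_ofReal.continuousOn fun r hr =>
      ofReal_ne_zero.mpr (ne_of_gt (hM.trans hr))).add continuousOn_const
  have ii : IntegrableOn (fun r => (Qc γ l z r - QQ γ l n r) * (ff γ l n r * ps γ l z r))
      (Ioi M) := by
    refine Integrable.mono' ((iv.add iu).const_mul K) ?_ ?_
    · exact (cQ.mul ((sv.contOn hM.le).mul (su.contOn hM.le))).aestronglyMeasurable
        measurableSet_Ioi
    · filter_upwards [ae_restrict_mem measurableSet_Ioi] with r hr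
      rw [norm_mul, norm_mul]
      simp only [Pi.add_apply]
      refine mul_le_mul (bK r hr) ?_ (by positivity) hK0
      nlinarith [sq_nonneg (‖(ff γ l n r : ℂ)‖ - ‖ps γ l z r‖), norm_nonneg (ps γ l z r),
        norm_nonneg (ff γ l n r : ℂ)]
  refine ⟨ii, ?_⟩
  obtain ⟨A, hA⟩ := g2_grow su hM (g2_Qc_cont γ l z) (fun r hr => g2_Qc_le γ l z hM hr) iu
  have lim : Tendsto (fun r => psD γ l z r * ff γ l n r - ps γ l z r * fd γ l n r) atTop
      (𝓝 0) := by
    have t1 := ((ff_decay (γ := γ) hl' n 1).abs.const_mul A).add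
      ((fd_decay (γ := γ) hl' n 2).abs.const_mul A)
    simp only [abs_zero, mul_zero, add_zero] at t1
    refine squeeze_zero_norm' ?_ t1
    filter_upwards [eventually_ge_atTop M, eventually_ge_atTop 1] with r hr hr1
    obtain ⟨b1, b2⟩ := hA r hr hr1
    refine (norm_sub_le _ _).trans ?_
    rw [norm_mul, norm_mul, norm_real, norm_real, Real.norm_eq_abs, Real.norm_eq_abs, abs_mul,
      abs_mul, Real.rpow_one, Real.rpow_two, abs_of_nonneg (by linarith : 0 ≤ r),
      abs_of_nonneg (sq_nonneg r), ← mul_assoc, ← mul_assoc]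
    exact add_le_add (mul_le_mul_of_nonneg_right b1 (abs_nonneg _))
      (mul_le_mul_of_nonneg_right b2 (abs_nonneg _))
  have := integral_Ioi_of_hasDerivAt_of_tendsto' (a := M)
    (f' := fun r => (Qc γ l z r - QQ γ l n r) * (ff γ l n r * ps γ l z r))
    (fun r hr => by
      have := su.wronskian sv (hM.trans_le hr)
      rwa [mul_comm (ps γ l z r)] at this) ii lim
  rw [this]
  ring

theorem g2_green_in (hl : 0 ≤ l) (γ : ℝ) (n : ℕ) {M : ℝ} (hM : 0 < M) (z : ℂ) :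
    IntegrableOn (fun r => (Qc γ l z r - QQ γ l n r) * (ff γ l n r * ph γ l z r)) (Ioc 0 M) ∧
    ff γ l n M * phD γ l z M - fd γ l n M * ph γ l z M
      = ∫ r in Ioc 0 M, (Qc γ l z r - QQ γ l n r) * (ff γ l n r * ph γ l z r) := by
  have hl' : -1 < l := by linarith
  have su := ph_sol hl' γ z
  have sv := g2_ff_sol hl' γ n
  have hN := NN_pos (γ := γ) hl' n
  have c1 : Continuous (ser γ l z) :=
    continuous_iff_continuousAt.mpr fun r => (ser_deriv hl' γ z r).continuousAt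
  have c2 : Continuous fun r : ℝ => r ^ (2 * l + 1) := Real.continuous_rpow_const (by linarith)
  have c3 := eig_cont_lag (2 * l + 1) n
  have e1 : ∀ r : ℝ, 0 < r → r ^ (l + 1) * r ^ (l + 1) = r ^ (2 * l + 1) * r := fun r hr => by
    rw [← Real.rpow_add hr, ← Real.rpow_add_one hr.ne']
    congr 1
    ring
  have e2 : ∀ r : ℝ, 0 < r → r ^ l * r ^ (l + 1) = r ^ (2 * l + 1) := fun r hr => by
    rw [← Real.rpow_add hr]
    congr 1
    ring
  have ii : IntegrableOn (fun r => (Qc γ l z r - QQ γ l n r) * (ff γ l n r * ph γ l z r))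
      (Ioc 0 M) := by
    have cg : Continuous fun r : ℝ => (2 * (EE γ l n - Ec γ z) + (ep γ l n - z) * r)
        * ((r ^ (2 * l + 1) * (cf γ l n * (2 / NN γ l n) ^ (l + 1) * Real.exp (-(r / NN γ l n))
          * lag (2 * l + 1) n (2 * r / NN γ l n)) : ℝ) * (exp (-(mu z * r)) * ser γ l z r)) := by
      fun_prop
    refine (cg.integrableOn_Ioc).congr_fun (fun r hr => ?_) measurableSet_Ioc
    have hr0 : (r : ℂ) ≠ 0 := ofReal_ne_zero.mpr (ne_of_gt hr.1)
    have e3 : ((r ^ (l + 1) : ℝ) : ℂ) * (r ^ (l + 1) : ℝ) = (r ^ (2 * l + 1) : ℝ) * r := by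
      exact_mod_cast e1 r hr.1
    simp only [g2_Q_diff, ff, ph, eig_split (l + 1) hN hr.1, ofReal_mul]
    field_simp
    linear_combination -(2 * (EE γ l n - Ec γ z) + (ep γ l n - z) * r) * (cf γ l n : ℂ)
      * ((2 / NN γ l n) ^ (l + 1) : ℝ)
      * (lag (2 * l + 1) n (2 * r / NN γ l n) : ℝ) * ser γ l z r * e3
  refine ⟨ii, ?_⟩
  have lim : Tendsto (fun r => phD γ l z r * ff γ l n r - ph γ l z r * fd γ l n r) (𝓝[>] 0)
      (𝓝 0) := by
    have t0 : Tendsto (fun r : ℝ => ((r ^ (2 * l + 1) : ℝ) : ℂ)) (𝓝[>] 0) (𝓝 0) := by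
      have := (continuous_ofReal.comp c2).tendsto 0
      simp only [Function.comp_apply, Real.zero_rpow (by linarith : 2 * l + 1 ≠ 0),
        ofReal_zero] at this
      exact this.mono_left nhdsWithin_le_nhds
    have t1 := (continuous_ofReal.tendsto _).comp (ff_lim (γ := γ) hl' n)
    have t2 := (continuous_ofReal.tendsto _).comp (fd_lim (γ := γ) hl' n)
    have t3 := (((phD_lim hl' γ z).mul t1).sub ((ph_lim hl' γ z).mul t2)).mul t0
    rw [mul_zero] at t3
    refine t3.congr' ?_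
    filter_upwards [self_mem_nhdsWithin] with r hr
    have hr : 0 < r := hr
    have n1 : ((r ^ l : ℝ) : ℂ) ≠ 0 := ofReal_ne_zero.mpr (Real.rpow_pos_of_pos hr _).ne'
    have n2 : ((r ^ (l + 1) : ℝ) : ℂ) ≠ 0 := ofReal_ne_zero.mpr (Real.rpow_pos_of_pos hr _).ne'
    simp only [Function.comp_apply, ← e2 r hr, ofReal_mul, ofReal_div]
    field_simp
  have := intervalIntegral.integral_eq_sub_of_hasDerivAt_of_tendsto hM
    (f' := fun r => (Qc γ l z r - QQ γ l n r) * (ff γ l n r * ph γ l z r))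
    (fun r hr => by
      have := su.wronskian sv hr.1
      rwa [mul_comm (ph γ l z r)] at this)
    ((intervalIntegrable_iff_integrableOn_Ioc_of_le hM.le).mpr ii) lim
    ((su.wronskian sv hM).continuousAt.tendsto.mono_left nhdsWithin_le_nhds)
  rw [← intervalIntegral.integral_of_le hM.le, this]
  ring

theorem g2_ps_close (h0 : 0 < γ) (h1 : γ ^ 2 ≤ 1) (hl : 0 ≤ l) (n : ℕ) :
    ∀ᶠ M : ℝ in atTop, ∃ C δ : ℝ, 0 < δ ∧ ∀ z ∈ UU, ‖z - ep γ l n‖ < δ →
      ∫ r in Ioi M, ‖ps γ l z r / ps γ l z M - ff γ l n r / ff γ l n M‖ ^ 2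
        ≤ C * ‖z - ep γ l n‖ ^ 2 := by
  have hl' : -1 < l := by linarith
  have hq : 0 < -ep γ l n := neg_pos.mpr (ep_neg hl' n)
  have hq1 : -ep γ l n < 1 := by have := ep_gt hl h0 n; linarith
  have hE := EE_pos (γ := γ) hl' n
  set q := -ep γ l n with hqd
  filter_upwards [ff_ne_eventually hl' γ n, eventually_ge_atTop 1, eventually_ge_atTop (32 / q)]
    with M hf hM1 hM2
  have hM : 0 < M := by linarith
  refine ⟨(1 + 2 / EE γ l n) ^ 2 / (q / 2) ^ 2
    * ∫ r in Ioi M, ‖(ff γ l n r : ℂ) / ff γ l n M‖ ^ 2, q / 4, by positivity, fun z hz hd => ?_⟩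
  have su := (ps_sol h1 hl hz).div (ps γ l z M)
  have sv := (g2_ff_sol hl' γ n).div (ff γ l n M)
  have iu : IntegrableOn (fun r => ‖ps γ l z r / ps γ l z M‖ ^ 2) (Ioi M) := by
    simp only [norm_div, div_pow]
    exact (ps_mass h1 hl hz hM).1.div_const _
  have iv : IntegrableOn (fun r => ‖(ff γ l n r : ℂ) / ff γ l n M‖ ^ 2) (Ioi M) := by
    simp only [norm_div, div_pow]
    exact (g2_ff_int hl γ n hM.le).div_const _
  have z1 : z.re ≤ -(3 / 4 * q) := by
    have := re_le_norm (z - ep γ l n)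
    rw [sub_re, ofReal_re] at this
    linarith
  have z2 : ‖z‖ ≤ 2 := by
    have a1 := norm_sub_norm_le z (ep γ l n : ℂ)
    rw [norm_real, Real.norm_eq_abs, abs_of_neg (ep_neg hl' n)] at a1
    linarith
  have z3 : (Ec γ z).re ≤ 4 := by
    have a1 : ‖Ec γ z‖ ^ 2 ≤ 3 := by
      rw [← norm_pow, Ec_sq]
      refine (norm_add_le _ _).trans ?_
      rw [norm_one, norm_mul, norm_pow, norm_real, Real.norm_eq_abs, sq_abs]
      nlinarith [norm_nonneg z]
    have a2 := re_le_norm (Ec γ z)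
    nlinarith [sq_nonneg (‖Ec γ z‖ - 1)]
  have z4 := Ec_re_pos h1 hz.1
  have key := g2_core su sv (q := q / 2) (k := (1 + 2 / EE γ l n) * ‖z - ep γ l n‖) hM
    (by positivity) ?_ ?_
    (by rw [div_self (ps_ne h1 hl hz hM), div_self (ofReal_ne_zero.mpr hf)]) iu iv
  · refine key.trans (le_of_eq ?_)
    ring
  · intro r hr
    have hr0 : 0 < r := hM.trans_le hr
    have a1 : 0 ≤ l * (l + 1) / r ^ 2 := by positivity
    have a2 : 2 * (Ec γ z).re / r ≤ q / 4 := by
      rw [div_le_iff₀ hr0]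
      have := (div_le_iff₀ hq).mp (hM2.trans hr)
      nlinarith
    rw [Qc_re]
    linarith
  · intro r hr
    have hr1 : 1 ≤ r := hM1.trans hr
    rw [g2_Q_sub h1 hl n hz.1, norm_mul, norm_sub_rev, mul_comm]
    refine mul_le_mul_of_nonneg_right ((norm_add_le _ _).trans ?_) (norm_nonneg _)
    have a1 : EE γ l n ≤ ‖Ec γ z + EE γ l n‖ := by
      have := re_le_norm (Ec γ z + EE γ l n)
      rw [add_re, ofReal_re] at this
      linarith
    rw [norm_one, norm_div, norm_mul, norm_mul, norm_pow, norm_real, norm_real, Real.norm_eq_abs,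
      sq_abs, Real.norm_of_nonneg (by linarith : 0 ≤ r), Complex.norm_two]
    refine add_le_add le_rfl (div_le_div₀ (by norm_num) (by linarith) hE ?_)
    nlinarith

end Pool.Agent.Lib.MP_2347b2_mp.F
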