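import Pool.Agent.Lib.MP_2347b2_mp.F.CWeyl
import Pool.Agent.Lib.MP_2347b2_mp.F.CReal
import Pool.Agent.Lib.MP_2347b2_mp.F.Eig2
import Pool.Agent.Lib.MP_2347b2_mp.F.G2A

namespace Pool.Agent.Lib.MP_2347b2_mp.F

open MeasureTheory Set Filter Topology Complex

/-- the residue -/
noncomputable def res (γ l R a b : ℝ) (n : ℕ) : ℝ :=
  EE γ l n ^ 2 * (a * ff γ l n R + b * fd γ l n R) ^ 2

variable {γ l R : ℝ}

/-- the normalized subdominant solution is close to the eigenfunction in the mean -/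
theorem ps_close (h0 : 0 < γ) (h1 : γ ^ 2 ≤ 1) (hl : 0 ≤ l) (n : ℕ) :
    ∀ᶠ M : ℝ in atTop, ∃ C δ : ℝ, 0 < δ ∧ ∀ z ∈ UU, ‖z - ep γ l n‖ < δ →
      ∫ r in Ioi M, ‖ps γ l z r / ps γ l z M - ff γ l n r / ff γ l n M‖ ^ 2
        ≤ C * ‖z - ep γ l n‖ ^ 2 := by
  exact g2_ps_close h0 h1 hl n

/-- Green identity on the outer interval -/
theorem green_out (h1 : γ ^ 2 ≤ 1) (hl : 0 ≤ l) (n : ℕ) {M : ℝ} (hM : 0 < M) {z : ℂ}
    (hz : z ∈ UU) :
    IntegrableOn (fun r => (Qc γ l z r - QQ γ l n r) * (ff γ l n r * ps γ l z r)) (Ioi M) ∧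
    fd γ l n M * ps γ l z M - ff γ l n M * psD γ l z M
      = ∫ r in Ioi M, (Qc γ l z r - QQ γ l n r) * (ff γ l n r * ps γ l z r) := by
  exact g2_green_out h1 hl n hM hz

/-- Green identity on the inner interval -/
theorem green_in (hl : 0 ≤ l) (γ : ℝ) (n : ℕ) {M : ℝ} (hM : 0 < M) (z : ℂ) :
    IntegrableOn (fun r => (Qc γ l z r - QQ γ l n r) * (ff γ l n r * ph γ l z r)) (Ioc 0 M) ∧
    ff γ l n M * phD γ l z M - fd γ l n M * ph γ l z M
      = ∫ r in Ioc 0 M, (Qc γ l z r - QQ γ l n r) * (ff γ l n r * ph γ l z r) := by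
  exact g2_green_in hl γ n hM z

theorem Q_sub (h1 : γ ^ 2 ≤ 1) (hl : 0 ≤ l) (n : ℕ) {z : ℂ} (hz : -1 < z.re) (r : ℝ) :
    Qc γ l z r - QQ γ l n r
      = (ep γ l n - z) * (1 + 2 * γ ^ 2 / ((Ec γ z + EE γ l n) * r)) := by
  exact g2_Q_sub h1 hl n hz r

theorem weight_int (hl : 0 ≤ l) (γ : ℝ) (n : ℕ) :
    ∫ r in Ioi (0 : ℝ), (1 + γ ^ 2 / (EE γ l n * r)) * ff γ l n r ^ 2 = 1 / EE γ l n ^ 2 := by
  exact g2_weight_int hl γ n

section
open Asymptotics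

theorem g2_ev {p : ℂ → Prop} {e : ℂ} :
    (∀ᶠ z in 𝓝[UU] e, p z) ↔ ∃ δ : ℝ, 0 < δ ∧ ∀ z ∈ UU, ‖z - e‖ < δ → p z := by
  rw [eventually_nhdsWithin_iff, Metric.eventually_nhds_iff]
  exact exists_congr fun δ => and_congr_right fun _ =>
    ⟨fun h z a b => h (by rwa [dist_eq_norm]) a, fun h z b a => h z a (by rwa [← dist_eq_norm])⟩

theorem g2_mul {L : Filter ℂ} {d f g : ℂ → ℂ} {a b : ℂ} (hd : Tendsto d L (𝓝 0))
    (hf : (fun z => f z - a) =O[L] d) (hg : (fun z => g z - b) =O[L] d) :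
    (fun z => f z * g z - a * b) =O[L] d := by
  have h := hf.mul (hg.trans (hd.isBigO_one ℂ))
  simp only [mul_one] at h
  exact ((h.add (hf.const_mul_left b)).add (hg.const_mul_left a)).congr_left fun z => by ring

theorem g2_inv {L : Filter ℂ} {d f : ℂ → ℂ} {a : ℂ} (hd : Tendsto d L (𝓝 0)) (ha : a ≠ 0)
    (hf : (fun z => f z - a) =O[L] d) : (fun z => (f z)⁻¹ - a⁻¹) =O[L] d := by
  have h1 : Tendsto f L (𝓝 a) := tendsto_sub_nhds_zero_iff.1 (hf.trans_tendsto hd)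
  have h := (hf.mul ((h1.inv₀ ha).isBigO_one ℂ)).const_mul_left (-a⁻¹)
  simp only [mul_one] at h
  refine h.congr' ?_ EventuallyEq.rfl
  filter_upwards [h1.eventually_ne ha] with z hz
  field_simp
  ring

theorem g2_d (e : ℂ) : Tendsto (fun z => z - e) (𝓝[UU] e) (𝓝 0) :=
  tendsto_sub_nhds_zero_iff.2 nhdsWithin_le_nhds

theorem g2_ne {x : ℝ} {z : ℂ} (hz : z ∈ UU) : z - x ≠ 0 := fun h => by
  have := congrArg Complex.im h
  simp only [sub_im, ofReal_im, sub_zero, zero_im] at this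
  exact hz.2.ne' this

theorem g2_UV (h0 : 0 < γ) (hl : 0 ≤ l) (n : ℕ) : (ep γ l n : ℂ) ∈ UV :=
  ⟨ep_gt hl h0 n, .inl (ep_neg (by linarith) n)⟩

theorem g2_k (h0 : 0 < γ) (h1 : γ ^ 2 ≤ 1) (hl : 0 ≤ l) (n : ℕ) :
    (fun z : ℂ => 2 * γ ^ 2 / (Ec γ z + EE γ l n) - γ ^ 2 / EE γ l n) =O[𝓝[UU] (ep γ l n : ℂ)]
      fun z => z - ep γ l n := by
  have hl' : -1 < l := by linarith
  have hE : (EE γ l n : ℂ) ≠ 0 := ofReal_ne_zero.2 (EE_pos hl' n).ne'
  have h2 : DifferentiableAt ℂ (Ec γ) (ep γ l n) := (Ec_diff h1).differentiableAt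
    ((isOpen_lt continuous_const continuous_re).mem_nhds (ep_gt hl h0 n))
  have h3 : DifferentiableAt ℂ (fun z : ℂ => 2 * γ ^ 2 / (Ec γ z + EE γ l n)) (ep γ l n) :=
    (differentiableAt_const _).div (h2.add_const _) (by
      rw [Ec_ep hl', ← two_mul]
      exact mul_ne_zero two_ne_zero hE)
  refine (h3.isBigO_sub.mono nhdsWithin_le_nhds).congr_left fun z => ?_
  rw [Ec_ep hl', ← two_mul, mul_div_mul_left _ _ two_ne_zero]

theorem g2_ph (h0 : 0 < γ) (h1 : γ ^ 2 ≤ 1) (hl : 0 ≤ l) (n : ℕ) {r : ℝ} (hr : 0 < r) :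
    ((fun z : ℂ => ph γ l z r - ff γ l n r / c0 γ l n) =O[𝓝[UU] (ep γ l n : ℂ)]
      fun z => z - ep γ l n) ∧
    (fun z : ℂ => phD γ l z r - fd γ l n r / c0 γ l n) =O[𝓝[UU] (ep γ l n : ℂ)]
      fun z => z - ep γ l n := by
  have hl' : -1 < l := by linarith
  have hc : (c0 γ l n : ℂ) ≠ 0 := ofReal_ne_zero.2 (c0_pos hl' n).ne'
  have h2 := isOpen_UV.mem_nhds (g2_UV h0 hl n)
  rw [(ff_eq_ph hl' γ n hr).1, (ff_eq_ph hl' γ n hr).2, mul_div_cancel_left₀ _ hc,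
    mul_div_cancel_left₀ _ hc]
  exact ⟨((ph_diff h1 hl' r).differentiableAt h2).isBigO_sub.mono nhdsWithin_le_nhds,
    ((phD_diff h1 hl' r).differentiableAt h2).isBigO_sub.mono nhdsWithin_le_nhds⟩

theorem g2_sq (hl : 0 ≤ l) (γ : ℝ) (n : ℕ) : IntegrableOn (fun r => ff γ l n r ^ 2) (Ioi 0) := by
  simpa using ff_int (γ := γ) (by linarith : -1 < l) n (p := 0) (by linarith)

theorem g2_w (hl : 0 ≤ l) (γ : ℝ) (n : ℕ) :
    IntegrableOn (fun r => (1 + γ ^ 2 / (EE γ l n * r)) * ff γ l n r ^ 2) (Ioi 0) := by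
  refine IntegrableOn.congr_fun ((g2_sq hl γ n).add ((ff_int (γ := γ) (by linarith : -1 < l) n
    (p := -1) (by linarith)).const_mul (γ ^ 2 / EE γ l n))) (fun r _ => ?_) measurableSet_Ioi
  simp only [Pi.add_apply, Real.rpow_neg_one]
  ring

/-- the inner Green integral to second order -/
theorem g2_in (h0 : 0 < γ) (h1 : γ ^ 2 ≤ 1) (hl : 0 ≤ l) (n : ℕ) {M : ℝ} (hM : 0 < M) :
    (fun z : ℂ => ff γ l n M * phD γ l z M - fd γ l n M * ph γ l z M - (ep γ l n - z) / c0 γ l n *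
      (∫ r in Ioc 0 M, (1 + γ ^ 2 / (EE γ l n * r)) * ff γ l n r ^ 2 : ℝ))
      =O[𝓝[UU] (ep γ l n : ℂ)] fun z => (z - ep γ l n) * (z - ep γ l n) := by
  have hl' : -1 < l := by linarith
  have hc := c0_pos (γ := γ) hl' n
  have hE := EE_pos (γ := γ) hl' n
  obtain ⟨C, δ, hδ, hC⟩ := ph_lip h1 hl' (g2_UV h0 hl n) M
  obtain ⟨K, K0, hK⟩ := (g2_k h0 h1 hl n).exists_pos
  have hw : IntegrableOn (fun r => (((1 + γ ^ 2 / (EE γ l n * r)) * ff γ l n r ^ 2 : ℝ) : ℂ))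
      (Ioc 0 M) := ((g2_w hl γ n).mono_set Ioc_subset_Ioi_self).ofReal
  refine IsBigO.of_bound (c0 γ l n * (C * M ^ (l + 1)) * (C * M ^ (l + 1) +
    γ ^ 2 / EE γ l n * (C * M ^ l) + K * (C * M ^ l)) * M) ?_
  filter_upwards [hK.bound, g2_ev.2 ⟨δ, hδ, fun z _ a => (hC z a).2⟩, self_mem_nhdsWithin]
    with z k1 k2 hz
  obtain ⟨g1, g2⟩ := green_in hl γ n hM z
  rw [g2, ← integral_complex_ofReal, ← integral_const_mul, ← integral_sub g1 (hw.const_mul _)]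
  refine (norm_setIntegral_le_of_norm_le_const (C := c0 γ l n * (C * M ^ (l + 1)) *
    (C * M ^ (l + 1) + γ ^ 2 / EE γ l n * (C * M ^ l) + K * (C * M ^ l)) *
      ‖(z - ep γ l n) * (z - ep γ l n)‖) measure_Ioc_lt_top fun r hr => ?_).trans_eq (by
        rw [Real.volume_real_Ioc_of_le hM.le]
        ring)
  obtain ⟨a1, -, a2, -⟩ := k2 r hr
  have a3 := ((hC (ep γ l n) (by simpa using hδ)).2 r hr).2.2.1
  have r0 := hr.1
  have p1 : r ^ (l + 1) ≤ M ^ (l + 1) := Real.rpow_le_rpow r0.le hr.2 (by linarith)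
  have p2 : r ^ l ≤ M ^ l := Real.rpow_le_rpow r0.le hr.2 hl
  have p3 : r ^ (l + 1) = r ^ l * r := Real.rpow_add_one r0.ne' l
  have C0 : 0 ≤ C := nonneg_of_mul_nonneg_left ((norm_nonneg _).trans a2)
    (Real.rpow_pos_of_pos r0 _)
  have e : (Qc γ l z r - QQ γ l n r) * (ff γ l n r * ph γ l z r) - (ep γ l n - z) / c0 γ l n *
      ((1 + γ ^ 2 / (EE γ l n * r)) * ff γ l n r ^ 2 : ℝ) =
      -(z - ep γ l n) * (c0 γ l n * ph γ l (ep γ l n) r) *
        ((ph γ l z r - ph γ l (ep γ l n) r) +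
          (γ ^ 2 / EE γ l n : ℝ) * ((ph γ l z r - ph γ l (ep γ l n) r) / r) +
          (2 * γ ^ 2 / (Ec γ z + EE γ l n) - γ ^ 2 / EE γ l n) * (ph γ l z r / r)) := by
    have c1 : (c0 γ l n : ℂ) ≠ 0 := ofReal_ne_zero.2 hc.ne'
    rw [Q_sub h1 hl n hz.1, ← div_div]
    push_cast
    rw [(ff_eq_ph hl' γ n r0).1, ← div_div]
    generalize (2 * γ ^ 2 / (Ec γ z + EE γ l n) : ℂ) = k
    field_simp
    ring
  have b1 : ‖(ph γ l z r - ph γ l (ep γ l n) r) / r‖ ≤ C * M ^ l * ‖z - ep γ l n‖ := by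
    rw [norm_div, norm_real, Real.norm_of_nonneg r0.le, div_le_iff₀ r0]
    refine a1.trans ?_
    rw [p3]
    calc C * ‖z - ep γ l n‖ * (r ^ l * r) = C * r ^ l * ‖z - ep γ l n‖ * r := by ring
      _ ≤ _ := by gcongr
  have b2 : ‖ph γ l z r / r‖ ≤ C * M ^ l := by
    rw [norm_div, norm_real, Real.norm_of_nonneg r0.le, div_le_iff₀ r0]
    refine a2.trans ?_
    rw [p3, ← mul_assoc]
    gcongr
  have b3 : ‖ph γ l z r - ph γ l (ep γ l n) r‖ ≤ C * M ^ (l + 1) * ‖z - ep γ l n‖ :=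
    a1.trans (by
      rw [mul_right_comm]
      gcongr)
  have b4 : ‖ph γ l (ep γ l n) r‖ ≤ C * M ^ (l + 1) := a3.trans (by gcongr)
  rw [e, norm_mul, norm_mul, norm_mul, norm_mul, norm_neg, norm_real, Real.norm_of_nonneg hc.le]
  calc _ ≤ ‖z - ep γ l n‖ * (c0 γ l n * (C * M ^ (l + 1))) * (C * M ^ (l + 1) * ‖z - ep γ l n‖ +
        γ ^ 2 / EE γ l n * (C * M ^ l * ‖z - ep γ l n‖) + K * ‖z - ep γ l n‖ * (C * M ^ l)) := by
        gcongr
        refine norm_add₃_le.trans ?_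
        rw [norm_mul, norm_mul, norm_real, Real.norm_of_nonneg (by positivity)]
        gcongr
    _ = _ := by ring

theorem g2_W (h0 : 0 < γ) (h1 : γ ^ 2 ≤ 1) (hl : 0 ≤ l) (n : ℕ) (hR : 0 < R) : ∃ W : ℝ, 0 ≤ W ∧
    ∀ᶠ z in 𝓝[UU] (ep γ l n : ℂ), ∀ r : ℝ, R ≤ r →
      ‖(1 + 2 * γ ^ 2 / ((Ec γ z + EE γ l n) * r) : ℂ)‖ ≤ W := by
  have h := (tendsto_sub_nhds_zero_iff.1 ((g2_k h0 h1 hl n).trans_tendsto (g2_d _))).norm
  refine ⟨1 + (‖(γ ^ 2 / EE γ l n : ℂ)‖ + 1) / R, by positivity, ?_⟩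
  filter_upwards [h.eventually_le_const (lt_add_one _)] with z hz r hr
  refine (norm_add_le _ _).trans ?_
  rw [norm_one, ← div_div, norm_div _ (r : ℂ), norm_real, Real.norm_of_nonneg (hR.le.trans hr)]
  gcongr

/-- the outer Green integral to second order -/
theorem g2_out (h0 : 0 < γ) (h1 : γ ^ 2 ≤ 1) (hl : 0 ≤ l) (n : ℕ) {M C : ℝ} (hM : 0 < M)
    (hF : ff γ l n M ≠ 0) (hC : ∀ᶠ z in 𝓝[UU] (ep γ l n : ℂ),
      ∫ r in Ioi M, ‖ps γ l z r / ps γ l z M - ff γ l n r / ff γ l n M‖ ^ 2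
        ≤ C * ‖z - ep γ l n‖ ^ 2) :
    (fun z : ℂ => fd γ l n M - ff γ l n M * (psD γ l z M / ps γ l z M) -
      (ep γ l n - z) / ff γ l n M *
      (∫ r in Ioi M, (1 + γ ^ 2 / (EE γ l n * r)) * ff γ l n r ^ 2 : ℝ))
      =O[𝓝[UU] (ep γ l n : ℂ)] fun z => (z - ep γ l n) * (z - ep γ l n) := by
  have hl' : -1 < l := by linarith
  obtain ⟨K, K0, hK⟩ := (g2_k h0 h1 hl n).exists_pos
  obtain ⟨W, W0, hW⟩ := g2_W h0 h1 hl n hM
  have hs : Ioi M ⊆ Ioi 0 := Ioi_subset_Ioi hM.le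
  have hw : IntegrableOn (fun r => (((1 + γ ^ 2 / (EE γ l n * r)) * ff γ l n r ^ 2 : ℝ) : ℂ))
      (Ioi M) := ((g2_w hl γ n).mono_set hs).ofReal
  have hq := (g2_sq hl γ n).mono_set hs
  refine IsBigO.of_bound ((W / 2 + K / M / |ff γ l n M|) * (∫ r in Ioi M, ff γ l n r ^ 2) +
    W / 2 * C) ?_
  filter_upwards [hK.bound, hW, hC, self_mem_nhdsWithin] with z k1 k2 k3 hz
  obtain ⟨g1, g2⟩ := green_out h1 hl n hM hz
  have P0 := ps_ne h1 hl hz hM
  have hu : IntegrableOn (fun r => ‖ps γ l z r / ps γ l z M - ff γ l n r / ff γ l n M‖ ^ 2)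
      (Ioi M) := by
    refine Integrable.mono' (((ps_mass h1 hl hz hM).1.const_mul (2 / ‖ps γ l z M‖ ^ 2)).add
      (hq.const_mul (2 / ff γ l n M ^ 2))) (ContinuousOn.aestronglyMeasurable (fun r hr => ?_)
        measurableSet_Ioi) (.of_forall fun r => ?_)
    · exact ((((((ps_sol h1 hl hz).d1 r (hs hr)).div_const _).sub
        ((ff_deriv hl' n (hs hr)).ofReal_comp.div_const _)).continuousAt.norm).pow 2).continuousWithinAt
    · have a := norm_sub_le (ps γ l z r / ps γ l z M) (ff γ l n r / ff γ l n M : ℂ)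
      have b : ‖(ff γ l n r / ff γ l n M : ℂ)‖ ^ 2 = ff γ l n r ^ 2 / ff γ l n M ^ 2 := by
        rw [norm_div, div_pow, norm_real, norm_real, Real.norm_eq_abs, Real.norm_eq_abs, sq_abs,
          sq_abs]
      have c : ‖ps γ l z r / ps γ l z M‖ ^ 2 = ‖ps γ l z r‖ ^ 2 / ‖ps γ l z M‖ ^ 2 := by
        rw [norm_div, div_pow]
      rw [Real.norm_of_nonneg (sq_nonneg _), Pi.add_apply, div_mul_comm, div_mul_comm 2, ← b, ← c]
      refine (pow_le_pow_left₀ (norm_nonneg _) a 2).trans ?_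
      nlinarith [sq_nonneg (‖ps γ l z r / ps γ l z M‖ - ‖(ff γ l n r / ff γ l n M : ℂ)‖)]
  have e0 : fd γ l n M - ff γ l n M * (psD γ l z M / ps γ l z M) =
      (fd γ l n M * ps γ l z M - ff γ l n M * psD γ l z M) / ps γ l z M := by field_simp
  rw [e0, g2, ← integral_complex_ofReal, ← integral_const_mul, ← integral_div,
    ← integral_sub (g1.div_const _) (hw.const_mul _)]
  refine (norm_integral_le_of_norm_le ((hq.const_mul ((W / 2 + K / M / |ff γ l n M|) *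
    ‖z - ep γ l n‖ ^ 2)).add (hu.const_mul (W / 2)))
    ((ae_restrict_iff' measurableSet_Ioi).2 (.of_forall fun r hr => ?_))).trans ?_
  · have r0 : 0 < r := hs hr
    have e : (Qc γ l z r - QQ γ l n r) * (ff γ l n r * ps γ l z r) / ps γ l z M -
        (ep γ l n - z) / ff γ l n M * ((1 + γ ^ 2 / (EE γ l n * r)) * ff γ l n r ^ 2 : ℝ) =
        -((1 + 2 * γ ^ 2 / ((Ec γ z + EE γ l n) * r)) * ((z - ep γ l n) * ff γ l n r *
          (ps γ l z r / ps γ l z M - ff γ l n r / ff γ l n M)) + (z - ep γ l n) *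
          (2 * γ ^ 2 / (Ec γ z + EE γ l n) - γ ^ 2 / EE γ l n) / r / ff γ l n M *
            (ff γ l n r ^ 2 : ℝ)) := by
      rw [Q_sub h1 hl n hz.1, ← div_div]
      push_cast
      rw [← div_div]
      ring
    rw [e, norm_neg, Pi.add_apply]
    refine (norm_add_le _ _).trans ?_
    simp only [norm_mul, norm_div _ (r : ℂ), norm_div _ (ff γ l n M : ℂ), norm_real,
      Real.norm_eq_abs, abs_of_pos r0, abs_of_nonneg (sq_nonneg (ff γ l n r))]
    generalize ‖ps γ l z r / ps γ l z M - ff γ l n r / ff γ l n M‖ = u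
    calc _ ≤ W * ((‖z - ep γ l n‖ ^ 2 * ff γ l n r ^ 2 + u ^ 2) / 2) +
          ‖z - ep γ l n‖ * (K * ‖z - ep γ l n‖) / M / |ff γ l n M| * ff γ l n r ^ 2 := by
          have a : ‖z - ep γ l n‖ * |ff γ l n r| * u ≤
              (‖z - ep γ l n‖ ^ 2 * ff γ l n r ^ 2 + u ^ 2) / 2 := by
            rw [← sq_abs (ff γ l n r)]
            nlinarith [sq_nonneg (‖z - ep γ l n‖ * |ff γ l n r| - u)]
          refine add_le_add ((mul_le_mul_of_nonneg_left a (norm_nonneg _)).trans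
            (mul_le_mul_of_nonneg_right (k2 r (le_of_lt hr)) (by positivity))) ?_
          gcongr
          exact le_of_lt hr
      _ = _ := by ring
  · simp only [Pi.add_apply]
    rw [integral_add (hq.const_mul _) (hu.const_mul _), integral_const_mul, integral_const_mul,
      norm_mul, ← pow_two]
    have := mul_le_mul_of_nonneg_left k3 (by positivity : 0 ≤ W / 2)
    linarith

theorem g2_wr (h0 : 0 < γ) (h1 : γ ^ 2 ≤ 1) (hl : 0 ≤ l) (n : ℕ) :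
    ∀ᶠ M : ℝ in atTop, ff γ l n M ≠ 0 ∧
      ((fun z : ℂ => 1 / ps γ l z M - (ep γ l n - z) / (c0 γ l n * EE γ l n ^ 2 * ff γ l n M))
        =O[𝓝[UU] (ep γ l n : ℂ)] fun z => (z - ep γ l n) * (z - ep γ l n)) ∧
      (fun z : ℂ => psD γ l z M / ps γ l z M - fd γ l n M / ff γ l n M)
        =O[𝓝[UU] (ep γ l n : ℂ)] fun z => z - ep γ l n := by
  have hl' : -1 < l := by linarith
  filter_upwards [ps_close h0 h1 hl n, ff_ne_eventually hl' γ n, eventually_gt_atTop 0]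
    with M ⟨C, hC⟩ hF hM
  have o1 := g2_in h0 h1 hl n hM
  have o2 := g2_out h0 h1 hl n hM hF (g2_ev.2 hC)
  have o3 := (g2_ph h0 h1 hl n hM).1
  have o4 := (tendsto_sub_nhds_zero_iff.1 (o3.trans_tendsto (g2_d _))).isBigO_one ℂ
  have hs := weight_int hl γ n
  rw [← Ioc_union_Ioi_eq_Ioi hM.le, setIntegral_union Ioc_disjoint_Ioi_same measurableSet_Ioi
    ((g2_w hl γ n).mono_set Ioc_subset_Ioi_self) ((g2_w hl γ n).mono_set (Ioi_subset_Ioi hM.le)),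
    ← eq_sub_iff_add_eq] at hs
  rw [hs] at o1
  generalize (∫ r in Ioi M, (1 + γ ^ 2 / (EE γ l n * r)) * ff γ l n r ^ 2 : ℝ) = B at o1 o2
  have F0 : (ff γ l n M : ℂ) ≠ 0 := ofReal_ne_zero.2 hF
  have c1 : (c0 γ l n : ℂ) ≠ 0 := ofReal_ne_zero.2 (c0_pos hl' n).ne'
  have hE : (EE γ l n : ℂ) ≠ 0 := ofReal_ne_zero.2 (EE_pos hl' n).ne'
  have o5 := (isBigO_refl (fun z : ℂ => z - ep γ l n) (𝓝[UU] (ep γ l n : ℂ))).const_mul_left
    (-B / ff γ l n M)
  refine ⟨hF, ?_, ?_⟩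
  · have o6 := o4.mul o2
    simp only [one_mul] at o6
    refine (((o1.add o6).add (o3.mul o5)).const_mul_left (1 / ff γ l n M)).congr' ?_
      EventuallyEq.rfl
    filter_upwards [self_mem_nhdsWithin] with z hz
    have P0 := ps_ne h1 hl hz hM
    have e : 1 / ps γ l z M = phD γ l z M - ph γ l z M * (psD γ l z M / ps γ l z M) := by
      rw [← ps_wr h1 hl hz hM]
      field_simp
    rw [e]
    push_cast
    field_simp
    ring
  · have o6 := (isBigO_refl (fun z : ℂ => z - ep γ l n) (𝓝[UU] (ep γ l n : ℂ))).mul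
      ((g2_d (ep γ l n : ℂ)).isBigO_one ℂ)
    simp only [mul_one] at o6
    refine (((o2.trans o6).add o5).const_mul_left (-1 / ff γ l n M)).congr_left fun z => ?_
    generalize psD γ l z M / ps γ l z M = q
    field_simp
    ring

/-- expansion of the Wronskian -/
theorem wr_expand (h0 : 0 < γ) (h1 : γ ^ 2 ≤ 1) (hl : 0 ≤ l) (n : ℕ) :
    ∀ᶠ M : ℝ in atTop, ff γ l n M ≠ 0 ∧ ∃ C δ : ℝ, 0 < δ ∧ ∀ z ∈ UU, ‖z - ep γ l n‖ < δ →
      ‖1 / ps γ l z M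
        - (ep γ l n - z) / (c0 γ l n * EE γ l n ^ 2 * ff γ l n M)‖ ≤ C * ‖z - ep γ l n‖ ^ 2 ∧
      ‖psD γ l z M / ps γ l z M - fd γ l n M / ff γ l n M‖ ≤ C * ‖z - ep γ l n‖ := by
  filter_upwards [g2_wr h0 h1 hl n] with M ⟨hF, o1, o2⟩
  obtain ⟨C, hC⟩ := o1.bound
  obtain ⟨K, hK⟩ := o2.bound
  refine ⟨hF, max C K, g2_ev.1 ?_⟩
  filter_upwards [hC, hK] with z a b
  rw [norm_mul, ← pow_two] at a
  exact ⟨a.trans (by gcongr; exact le_max_left _ _), b.trans (by gcongr; exact le_max_right _ _)⟩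

/-- the normalized subdominant solution at a smaller radius -/
theorem g2_hat (h0 : 0 < γ) (h1 : γ ^ 2 ≤ 1) (hl : 0 ≤ l) (n : ℕ) (hR : 0 < R) {M : ℝ}
    (hM : R ≤ M) (hF : ff γ l n M ≠ 0)
    (o : (fun z : ℂ => psD γ l z M / ps γ l z M - fd γ l n M / ff γ l n M)
      =O[𝓝[UU] (ep γ l n : ℂ)] fun z => z - ep γ l n) :
    (fun z : ℂ => ‖ps γ l z R / ps γ l z M - ff γ l n R / ff γ l n M‖ +
      ‖psD γ l z R / ps γ l z M - fd γ l n R / ff γ l n M‖)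
      =O[𝓝[UU] (ep γ l n : ℂ)] fun z => z - ep γ l n := by
  have hl' : -1 < l := by linarith
  have hp : ∀ r ∈ Icc R M, 0 < r := fun r hr => hR.trans_le hr.1
  obtain ⟨W, W0, hW⟩ := g2_W h0 h1 hl n hR
  obtain ⟨C, hC⟩ := o.bound
  obtain ⟨K, hK⟩ := isCompact_Icc.exists_bound_of_continuousOn (f := QQ γ l n) (s := Icc R M)
    fun r hr => by
      have := (hp r hr).ne'
      unfold QQ
      fun_prop (disch := positivity)
  obtain ⟨B, hB⟩ := isCompact_Icc.exists_bound_of_continuousOn (f := ff γ l n) (s := Icc R M)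
    fun r hr => (ff_deriv hl' n (hp r hr)).continuousAt.continuousWithinAt
  have K0 : 0 ≤ K := (norm_nonneg _).trans (hK R ⟨le_rfl, hM⟩)
  have B0 : 0 ≤ B := (norm_nonneg _).trans (hB R ⟨le_rfl, hM⟩)
  refine IsBigO.of_bound (2 * (C + W * (B / |ff γ l n M|)) * Real.exp ((1 + K + W) * (M - R))) ?_
  filter_upwards [hW, hC, (g2_d _).norm.eventually_le_const (by simp : ‖(0 : ℂ)‖ < 1),
    self_mem_nhdsWithin] with z k1 k2 k3 hz
  have q : ∀ r ∈ Icc R M, ‖Qc γ l z r - QQ γ l n r‖ ≤ ‖z - ep γ l n‖ * W := fun r hr => by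
    rw [Q_sub h1 hl n hz.1, norm_mul, norm_sub_rev]
    gcongr
    exact k1 r hr.1
  have g := gron (Q := Qc γ l z) (a := R) (b := M) (K := 1 + K + W)
    (H := ‖z - ep γ l n‖ * W * (B / |ff γ l n M|))
    (h := fun r => (Qc γ l z r - QQ γ l n r) * (ff γ l n r / ff γ l n M))
    (u := fun r => ps γ l z r / ps γ l z M - ff γ l n r / ff γ l n M)
    (u' := fun r => psD γ l z r / ps γ l z M - fd γ l n r / ff γ l n M) (by linarith) (by positivity)
    (fun r hr => (((ps_sol h1 hl hz).d1 r (hp r hr)).div_const _).sub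
      ((ff_deriv hl' n (hp r hr)).ofReal_comp.div_const _))
    (fun r hr => ((((ps_sol h1 hl hz).d2 r (hp r hr)).div_const _).sub
      ((fd_deriv hl' n (hp r hr)).ofReal_comp.div_const _)).congr_deriv (by
        push_cast
        ring))
    (fun r hr => by
      have a := norm_le_norm_add_norm_sub' (Qc γ l z r) (QQ γ l n r : ℂ)
      have b := hK r hr
      have c := (q r hr).trans (mul_le_of_le_one_left W0 k3)
      rw [norm_real] at a
      linarith)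
    (fun r hr => by
      rw [norm_mul, norm_div, norm_real, norm_real, Real.norm_eq_abs (ff γ l n M)]
      gcongr
      exacts [q r hr, hB r hr]) ⟨le_rfl, hM⟩ ⟨hM, le_rfl⟩
  rw [div_self (ps_ne h1 hl hz (hR.trans_le hM)), div_self (ofReal_ne_zero.2 hF), sub_self,
    norm_zero, zero_add] at g
  rw [Real.norm_of_nonneg (by positivity)]
  calc _ ≤ _ := g
    _ ≤ 2 * (C * ‖z - ep γ l n‖ + ‖z - ep γ l n‖ * W * (B / |ff γ l n M|)) *
        Real.exp ((1 + K + W) * (M - R)) := by gcongr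
    _ = _ := by ring

/-- the Green function near an eigenvalue -/
theorem gab_pole (h0 : 0 < γ) (h1 : γ ^ 2 ≤ 1) (hl : 0 ≤ l) (hR : 0 < R) (a b : ℝ) (n : ℕ) :
    ∃ C δ : ℝ, 0 < δ ∧ ∀ z ∈ UU, ‖z - ep γ l n‖ < δ →
      ‖gab γ l R a b z - res γ l R a b n / (ep γ l n - z)‖ ≤ C := by
  have hl' : -1 < l := by linarith
  obtain ⟨M, ⟨hF, o1, o2⟩, hM⟩ := ((g2_wr h0 h1 hl n).and (eventually_ge_atTop R)).exists
  have F0 : (ff γ l n M : ℂ) ≠ 0 := ofReal_ne_zero.2 hF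
  have c1 : (c0 γ l n : ℂ) ≠ 0 := ofReal_ne_zero.2 (c0_pos hl' n).ne'
  have hE : (EE γ l n : ℂ) ≠ 0 := ofReal_ne_zero.2 (EE_pos hl' n).ne'
  have o3 := g2_hat h0 h1 hl n hR hM hF o2
  have o4 := (IsBigO.of_norm_le fun z => le_add_of_nonneg_right (norm_nonneg _)).trans o3
  have o5 := (IsBigO.of_norm_le fun z => le_add_of_nonneg_left (norm_nonneg _)).trans o3
  obtain ⟨o6, o7⟩ := g2_ph h0 h1 hl n hR
  obtain ⟨K, hK⟩ := o1.bound
  have t : (fun z : ℂ => ((ep γ l n - z) * ps γ l z M)⁻¹ -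
      (c0 γ l n * EE γ l n ^ 2 * ff γ l n M : ℂ)⁻¹) =O[𝓝[UU] (ep γ l n : ℂ)]
      fun z => z - ep γ l n := by
    refine IsBigO.of_bound K ?_
    filter_upwards [hK, self_mem_nhdsWithin] with z k hz
    have d0 := g2_ne (x := ep γ l n) hz
    have d1 : (ep γ l n : ℂ) - z ≠ 0 := sub_ne_zero.2 (sub_ne_zero.1 d0).symm
    rw [norm_mul, ← mul_assoc, ← div_le_iff₀ (norm_pos_iff.2 d0), norm_sub_rev z, ← norm_div] at k
    rw [norm_sub_rev z]
    refine le_of_eq_of_le (congrArg _ ?_) k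
    rw [sub_div, mul_inv, div_div_cancel_left' d1, one_div, div_eq_mul_inv, mul_comm]
  have t2 := g2_inv (g2_d _) (inv_ne_zero (by positivity)) t
  simp only [inv_inv] at t2
  have x : (fun z : ℂ => a * ph γ l z R + b * phD γ l z R -
      (a * ff γ l n R + b * fd γ l n R) / c0 γ l n) =O[𝓝[UU] (ep γ l n : ℂ)]
      fun z => z - ep γ l n :=
    ((o6.const_mul_left a).add (o7.const_mul_left b)).congr_left fun z => by ring
  have y : (fun z : ℂ => (a * ps γ l z R + b * psD γ l z R) / ps γ l z M -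
      (a * ff γ l n R + b * fd γ l n R) / ff γ l n M) =O[𝓝[UU] (ep γ l n : ℂ)]
      fun z => z - ep γ l n :=
    ((o4.const_mul_left a).add (o5.const_mul_left b)).congr_left fun z => by ring
  obtain ⟨C, hC⟩ := (g2_mul (g2_d _) t2 (g2_mul (g2_d _) x y)).bound
  refine ⟨C, g2_ev.1 ?_⟩
  filter_upwards [hC, self_mem_nhdsWithin] with z k hz
  have d0 := g2_ne (x := ep γ l n) hz
  have d1 : (ep γ l n : ℂ) - z ≠ 0 := sub_ne_zero.2 (sub_ne_zero.1 d0).symm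
  have P0 := ps_ne h1 hl hz (hR.trans_le hM)
  rw [← div_le_iff₀ (norm_pos_iff.2 d0), norm_sub_rev z, ← norm_div] at k
  refine le_of_eq_of_le (congrArg _ ?_) k
  rw [gab_eq h1 hl hz hR, res]
  push_cast
  field_simp

end

end Pool.Agent.Lib.MP_2347b2_mp.F
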