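import Pool.Agent.Lib.MP_2347b2_mp.F.CBasic

/-!
The contour formula for a function with nonnegative imaginary part and simple poles.
-/

namespace Pool.Agent.Lib.MP_2347b2_mp.F

open MeasureTheory Set Filter Topology Complex

/-- the closed rectangle -/
def Rect (T : ℝ) : Set ℂ := {z | -3 / 4 ≤ z.re ∧ z.re ≤ 0 ∧ 0 ≤ z.im ∧ z.im ≤ T}

variable {T : ℝ} {g F : ℂ → ℂ}

theorem g3_compact (T : ℝ) : IsCompact (Rect T) := by
  have e : Rect T = Icc (-3 / 4) 0 ×ℂ Icc 0 T := by
    ext z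
    simp [Rect, mem_reProdIm, and_assoc]
  rw [e]
  exact isCompact_Icc.reProdIm isCompact_Icc

theorem g3_mem {x y : ℝ} (h1 : -3 / 4 ≤ x) (h2 : x ≤ 0) (h3 : 0 ≤ y) (h4 : y ≤ T) :
    (x + y * I : ℂ) ∈ Rect T := by
  simpa [Rect] using ⟨h1, h2, h3, h4⟩

theorem g3_UU {x y : ℝ} (h1 : -3 / 4 ≤ x) (h3 : 0 < y) : (x + y * I : ℂ) ∈ UU := by
  simpa [UU] using ⟨by linarith, h3⟩

theorem g3_side {a θ : ℝ} (ha : a = -3 / 4 ∨ a = 0) (h : θ ∈ Ioc 0 T) :
    (a + θ * I : ℂ) ∈ Sides T := Or.inl (by simpa using ⟨ha, h.1, h.2⟩)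

theorem g3_top {x : ℝ} (h1 : -3 / 4 ≤ x) (h2 : x ≤ 0) : (x + T * I : ℂ) ∈ Sides T :=
  Or.inr (by simpa using ⟨h1, h2⟩)

theorem g3_ge {a : ℝ} (ha : a = -3 / 4 ∨ a = 0) : -3 / 4 ≤ a ∧ a ≤ 0 := by
  rcases ha with h | h <;> rw [h] <;> norm_num

theorem g3_contV (h : ContinuousOn g UU) {a : ℝ} (ha : -3 / 4 ≤ a) :
    ContinuousOn (fun θ : ℝ => g (a + θ * I)) (Ioi 0) :=
  h.comp (by fun_prop) fun _ hθ => g3_UU ha hθ

theorem g3_contH (h : ContinuousOn g UU) {y : ℝ} (hy : 0 < y) :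
    ContinuousOn (fun x : ℝ => g (x + y * I)) (uIcc (-3 / 4) 0) :=
  h.comp (by fun_prop) fun _ hx => g3_UU ((uIcc_of_le (by norm_num)).subset hx).1 hy

theorem Good.int_V (hT : 0 < T) (h : Good T g) {a : ℝ} (ha : a = -3 / 4 ∨ a = 0) :
    IntervalIntegrable (fun θ : ℝ => g (a + θ * I)) volume 0 T := by
  obtain ⟨C, hC⟩ := h.2
  rw [intervalIntegrable_iff_integrableOn_Ioc_of_le hT.le]
  refine Integrable.of_bound (((g3_contV h.1 (g3_ge ha).1).mono
    Ioc_subset_Ioi_self).aestronglyMeasurable measurableSet_Ioc) C ?_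
  exact (ae_restrict_iff' measurableSet_Ioc).2 (Eventually.of_forall fun θ hθ =>
    hC _ (g3_side ha hθ))

theorem Good.int_L (hT : 0 < T) (h : Good T g) :
    IntervalIntegrable (fun θ : ℝ => g (-3 / 4 + θ * I)) volume 0 T := by
  simpa using h.int_V hT (Or.inl rfl)

theorem Good.int_R (hT : 0 < T) (h : Good T g) :
    IntervalIntegrable (fun θ : ℝ => g (θ * I)) volume 0 T := by
  simpa using h.int_V hT (Or.inr rfl)

theorem Good.int_T (hT : 0 < T) (h : Good T g) :
    IntervalIntegrable (fun x : ℝ => g (x + T * I)) volume (-3 / 4) 0 :=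
  (g3_contH h.1 hT).intervalIntegrable

theorem Good.add (h : Good T g) (h' : Good T F) : Good T fun z => g z + F z := by
  obtain ⟨C, hC⟩ := h.2
  obtain ⟨D, hD⟩ := h'.2
  exact ⟨h.1.add h'.1, C + D, fun z hz => norm_add_le_of_le (hC z hz) (hD z hz)⟩

theorem Good.sub (h : Good T g) (h' : Good T F) : Good T fun z => g z - F z := by
  obtain ⟨C, hC⟩ := h.2
  obtain ⟨D, hD⟩ := h'.2
  exact ⟨h.1.sub h'.1, C + D, fun z hz => norm_sub_le_of_le (hC z hz) (hD z hz)⟩

theorem Good.mul (h : Good T g) (h' : Good T F) : Good T fun z => g z * F z := by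
  obtain ⟨C, hC⟩ := h.2
  obtain ⟨D, hD⟩ := h'.2
  exact ⟨h.1.mul h'.1, C * D, fun z hz => norm_mul_le_of_le (hC z hz) (hD z hz)⟩

theorem Good.const (T : ℝ) (c : ℂ) : Good T fun _ => c :=
  ⟨continuousOn_const, ‖c‖, fun _ _ => le_rfl⟩

theorem g3_rect {z : ℂ} (h : z ∈ Rect T) : z ∈ {ε : ℂ | -1 < ε.re} :=
  lt_of_lt_of_le (by norm_num) h.1

theorem Good.of_cont (hT : 0 < T) (h : ContinuousOn F {ε | -1 < ε.re}) : Good T F := by
  obtain ⟨C, hC⟩ := (g3_compact T).exists_bound_of_continuousOn (h.mono fun _ => g3_rect)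
  refine ⟨h.mono fun _ hz => hz.1, C, fun z hz => hC z ?_⟩
  rcases hz with hz | hz
  · exact ⟨(g3_ge hz.1).1, (g3_ge hz.1).2, hz.2.1.le, hz.2.2⟩
  · exact ⟨hz.1, hz.2.1, hz.2.2.symm ▸ hT.le, hz.2.2.le⟩

theorem g3_ctr (h1 : IntervalIntegrable (fun θ : ℝ => g (-3 / 4 + θ * I)) volume 0 T)
    (h2 : IntervalIntegrable (fun x : ℝ => g (x + T * I)) volume (-3 / 4) 0)
    (h3 : IntervalIntegrable (fun θ : ℝ => g (θ * I)) volume 0 T) :
    ctr T g = (I * (∫ θ in (0 : ℝ)..T, g (-3 / 4 + θ * I))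
      + (∫ x in (-3 / 4 : ℝ)..0, g (x + T * I)) - I * ∫ θ in (0 : ℝ)..T, g (θ * I)).im := by
  have a := reCLM.intervalIntegral_comp_comm h1
  have b := imCLM.intervalIntegral_comp_comm h2
  have c := reCLM.intervalIntegral_comp_comm h3
  simp only [reCLM_apply, imCLM_apply] at a b c
  rw [ctr, cL, cT, cR, a, b, c]
  simp

theorem Good.ctr_eq (hT : 0 < T) (h : Good T g) :
    ctr T g = (I * (∫ θ in (0 : ℝ)..T, g (-3 / 4 + θ * I))
      + (∫ x in (-3 / 4 : ℝ)..0, g (x + T * I)) - I * ∫ θ in (0 : ℝ)..T, g (θ * I)).im :=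
  g3_ctr (h.int_L hT) (h.int_T hT) (h.int_R hT)

theorem ctr_add (hT : 0 < T) (h : Good T g) (h' : Good T F) :
    ctr T (fun z => g z + F z) = ctr T g + ctr T F := by
  rw [(h.add h').ctr_eq hT, h.ctr_eq hT, h'.ctr_eq hT,
    intervalIntegral.integral_add (h.int_L hT) (h'.int_L hT),
    intervalIntegral.integral_add (h.int_T hT) (h'.int_T hT),
    intervalIntegral.integral_add (h.int_R hT) (h'.int_R hT), ← add_im]
  exact congrArg im (by ring)

theorem ctr_sub (hT : 0 < T) (h : Good T g) (h' : Good T F) :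
    ctr T (fun z => g z - F z) = ctr T g - ctr T F := by
  rw [(h.sub h').ctr_eq hT, h.ctr_eq hT, h'.ctr_eq hT,
    intervalIntegral.integral_sub (h.int_L hT) (h'.int_L hT),
    intervalIntegral.integral_sub (h.int_T hT) (h'.int_T hT),
    intervalIntegral.integral_sub (h.int_R hT) (h'.int_R hT), ← sub_im]
  exact congrArg im (by ring)

theorem ctr_smul (T c : ℝ) (g : ℂ → ℂ) : ctr T (fun z => c * g z) = c * ctr T g := by
  simp only [ctr, cL, cT, cR, re_ofReal_mul, im_ofReal_mul, intervalIntegral.integral_const_mul]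
  ring

theorem g3_cauchy {f : ℂ → ℂ} {η : ℝ} (hT : η ≤ T)
    (h : ∀ z : ℂ, -3 / 4 ≤ z.re → z.re ≤ 0 → η ≤ z.im → z.im ≤ T → DifferentiableAt ℂ f z) :
    ∫ x in (-3 / 4 : ℝ)..0, f (x + η * I) = I * (∫ θ in η..T, f (-3 / 4 + θ * I))
      + (∫ x in (-3 / 4 : ℝ)..0, f (x + T * I)) - I * ∫ θ in η..T, f (θ * I) := by
  have e := integral_boundary_rect_eq_zero_of_differentiableOn f ⟨-3 / 4, η⟩ ⟨0, T⟩ fun z hz => by
    rw [mem_reProdIm, uIcc_of_le (by norm_num), uIcc_of_le hT] at hz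
    exact (h z hz.1.1 hz.1.2 hz.2.1 hz.2.2).differentiableWithinAt
  simp only [smul_eq_mul, ofReal_zero, zero_add, ofReal_div, ofReal_neg, ofReal_ofNat] at e
  linear_combination e

/-- an admissible weight alone has no contour integral -/
theorem ctr_Wt (hT : 0 < T) (hF : Wt F) : ctr T F = 0 := by
  have o : IsOpen {ε : ℂ | -1 < ε.re} := isOpen_lt continuous_const continuous_re
  rw [(Good.of_cont hT hF.1.continuousOn).ctr_eq hT, ← g3_cauchy hT.le fun z a b c d =>
    hF.1.differentiableAt (o.mem_nhds (g3_rect (T := T) ⟨a, b, c, d⟩)),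
    intervalIntegral.integral_congr (g := fun x : ℝ => (((F x).re : ℝ) : ℂ)) fun x hx => ?_,
    intervalIntegral.integral_ofReal, ofReal_im]
  have := ((uIcc_of_le (by norm_num)).subset hx).1
  apply Complex.ext <;> simp [hF.2 x (by linarith)]

/-- Cauchy theorem on the rectangle lifted by `η` -/
theorem cauchy_lift (hg : DifferentiableOn ℂ g UU) {η : ℝ} (hη : 0 < η) (hT : η ≤ T)
    (hF : ∀ z ∈ Rect T, DifferentiableAt ℂ F z) :
    ∫ x in (-3 / 4 : ℝ)..0, F x * g (x + η * I)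
      = I * (∫ θ in η..T, F (-3 / 4 + (θ - η : ℝ) * I) * g (-3 / 4 + θ * I))
        + (∫ x in (-3 / 4 : ℝ)..0, F (x + (T - η : ℝ) * I) * g (x + T * I))
        - I * ∫ θ in η..T, F ((θ - η : ℝ) * I) * g (θ * I) := by
  have o : IsOpen UU :=
    (isOpen_lt continuous_const continuous_re).inter (isOpen_lt continuous_const continuous_im)
  have e := g3_cauchy (f := fun z => F (z - η * I) * g z) hT fun z a b c d =>
    ((hF _ (by simpa [Rect] using ⟨a, b, c, by linarith⟩)).comp z (by fun_prop)).mul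
      (hg.differentiableAt (o.mem_nhds ⟨by linarith, by linarith⟩))
  simp only [add_sub_cancel_right] at e
  simp only [ofReal_sub, sub_mul, ← add_sub_assoc]
  exact e

theorem g3_int (hT : 0 < T) (hG : Good T g) (hF : ContinuousOn F (Rect T)) {a : ℝ}
    (ha : a = -3 / 4 ∨ a = 0) :
    IntervalIntegrable (fun θ : ℝ => F (a + θ * I) * g (a + θ * I)) volume 0 T :=
  (hG.int_V hT ha).continuousOn_mul (hF.comp (by fun_prop) fun _ h =>
    g3_mem (g3_ge ha).1 (g3_ge ha).2 ((uIcc_of_le hT.le).subset h).1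
      ((uIcc_of_le hT.le).subset h).2)

theorem g3_contF (hF : ContinuousOn F (Rect T)) {a η : ℝ} (ha : a = -3 / 4 ∨ a = 0) (hη : 0 < η) :
    ContinuousOn (fun θ : ℝ => F (a + (θ - η : ℝ) * I)) (Icc η T) :=
  hF.comp (by fun_prop) fun _ h =>
    g3_mem (g3_ge ha).1 (g3_ge ha).2 (sub_nonneg.2 h.1) (by linarith [h.2])

theorem g3_limV (hT : 0 < T) (hG : Good T g) (hF : ∀ z ∈ Rect T, DifferentiableAt ℂ F z) {a : ℝ}
    (ha : a = -3 / 4 ∨ a = 0) :
    Tendsto (fun η : ℝ => ∫ θ in η..T, F (a + (θ - η : ℝ) * I) * g (a + θ * I)) (𝓝[>] 0)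
      (𝓝 (∫ θ in (0 : ℝ)..T, F (a + θ * I) * g (a + θ * I))) := by
  have c : ContinuousOn F (Rect T) := fun z hz => (hF z hz).continuousAt.continuousWithinAt
  obtain ⟨C, hC⟩ := hG.2
  obtain ⟨D, hD⟩ := (g3_compact T).exists_bound_of_continuousOn c
  have i : ∀ {η : ℝ}, 0 < η → Ioi η ∩ Ioc 0 T = Ioc η T := fun h => by
    rw [inter_comm, Ioc_inter_Ioi, sup_eq_right.2 h.le]
  have p : 0 ≤ D := (norm_nonneg _).trans (hD _ (g3_mem (g3_ge ha).1 (g3_ge ha).2 le_rfl hT.le))
  rw [intervalIntegral.integral_of_le hT.le]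
  refine (tendsto_integral_filter_of_dominated_convergence (F := fun η : ℝ =>
    (Ioi η).indicator fun θ : ℝ => F (a + (θ - η : ℝ) * I) * g (a + θ * I)) (fun _ => D * C)
    ?_ ?_ (integrable_const _) ?_).congr' ?_
  · filter_upwards [self_mem_nhdsWithin] with η hη
    rw [aestronglyMeasurable_indicator_iff measurableSet_Ioi,
      Measure.restrict_restrict measurableSet_Ioi, i hη]
    exact (((g3_contF c ha hη).mono Ioc_subset_Icc_self).mul ((g3_contV hG.1 (g3_ge ha).1).mono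
      fun _ h => hη.trans h.1)).aestronglyMeasurable measurableSet_Ioc
  · filter_upwards [self_mem_nhdsWithin] with η hη
    refine (ae_restrict_iff' measurableSet_Ioc).2 (Eventually.of_forall fun θ hθ => ?_)
    have q := hC _ (g3_side ha hθ)
    by_cases h : θ ∈ Ioi η
    · rw [indicator_of_mem h]
      exact norm_mul_le_of_le (hD _ (g3_mem (g3_ge ha).1 (g3_ge ha).2 (sub_nonneg.2 (le_of_lt h))
        (by linarith [hθ.2, mem_Ioi.1 hη]))) q
    · rw [indicator_of_notMem h, norm_zero]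
      exact mul_nonneg p ((norm_nonneg _).trans q)
  · refine (ae_restrict_iff' measurableSet_Ioc).2 (Eventually.of_forall fun θ hθ => ?_)
    have t : Tendsto (fun η : ℝ => (a + (θ - η : ℝ) * I : ℂ)) (𝓝 0) (𝓝 (a + θ * I)) :=
      Continuous.tendsto' (by fun_prop) _ _ (by simp)
    refine ((((hF _ (g3_mem (g3_ge ha).1 (g3_ge ha).2 hθ.1.le hθ.2)).continuousAt.tendsto.comp
      t).mul_const _).mono_left nhdsWithin_le_nhds).congr' ?_
    filter_upwards [Ioo_mem_nhdsGT hθ.1] with η hη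
    rw [indicator_of_mem (mem_Ioi.2 hη.2)]
    rfl
  · filter_upwards [Ioo_mem_nhdsGT hT] with η hη
    rw [setIntegral_indicator measurableSet_Ioi, inter_comm, i hη.1,
      intervalIntegral.integral_of_le hη.2.le]

/-- the limit of the lower side -/
theorem bottom_tendsto (hT : 0 < T) (hg : DifferentiableOn ℂ g UU) (hG : Good T g)
    (hF : ∀ z ∈ Rect T, DifferentiableAt ℂ F z) :
    Tendsto (fun η : ℝ => (∫ x in (-3 / 4 : ℝ)..0, F x * g (x + η * I)).im) (𝓝[>] 0)
      (𝓝 (ctr T fun z => F z * g z)) := by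
  have c : ContinuousOn F (Rect T) := fun z hz => (hF z hz).continuousAt.continuousWithinAt
  have u : uIcc (-3 / 4 : ℝ) 0 ⊆ Icc (-3 / 4) 0 := (uIcc_of_le (by norm_num)).subset
  have k : ∀ {y : ℝ}, 0 ≤ y → y ≤ T →
      ContinuousOn (fun x : ℝ => F (x + y * I) * g (x + T * I)) (uIcc (-3 / 4) 0) := fun a b =>
    (c.comp (by fun_prop) fun _ h => g3_mem (u h).1 (u h).2 a b).mul (g3_contH hG.1 hT)
  have a := g3_limV hT hG hF (Or.inl rfl)
  have b := g3_limV hT hG hF (Or.inr rfl)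
  have a' := g3_int hT hG c (Or.inl rfl)
  have b' := g3_int hT hG c (Or.inr rfl)
  simp only [ofReal_zero, zero_add, ofReal_div, ofReal_neg, ofReal_ofNat] at a b a' b'
  have t : Tendsto (fun η : ℝ => ∫ x in (-3 / 4 : ℝ)..0, F (x + (T - η : ℝ) * I) * g (x + T * I))
      (𝓝[>] 0) (𝓝 (∫ x in (-3 / 4 : ℝ)..0, F (x + T * I) * g (x + T * I))) := by
    obtain ⟨C, hC⟩ := hG.2
    obtain ⟨D, hD⟩ := (g3_compact T).exists_bound_of_continuousOn c
    refine intervalIntegral.tendsto_integral_filter_of_dominated_convergence (fun _ => D * C)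
      ?_ ?_ intervalIntegrable_const (Eventually.of_forall fun x hx => ?_)
    · filter_upwards [Ioo_mem_nhdsGT hT] with η hη
      exact ((k (sub_nonneg.2 hη.2.le) (sub_le_self _ hη.1.le)).mono
        uIoc_subset_uIcc).aestronglyMeasurable measurableSet_uIoc
    · filter_upwards [Ioo_mem_nhdsGT hT] with η hη
      refine Eventually.of_forall fun x hx => ?_
      have h := u (uIoc_subset_uIcc hx)
      exact norm_mul_le_of_le (hD _ (g3_mem h.1 h.2 (sub_nonneg.2 hη.2.le)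
        (sub_le_self _ hη.1.le))) (hC _ (g3_top h.1 h.2))
    · have h := u (uIoc_subset_uIcc hx)
      have t : Tendsto (fun η : ℝ => (x + (T - η : ℝ) * I : ℂ)) (𝓝 0) (𝓝 (x + T * I)) :=
        Continuous.tendsto' (by fun_prop) _ _ (by simp)
      exact (((hF _ (g3_mem h.1 h.2 hT.le le_rfl)).continuousAt.tendsto.comp
        t).mul_const _).mono_left nhdsWithin_le_nhds
  rw [g3_ctr (g := fun z => F z * g z) a' (k hT.le le_rfl).intervalIntegrable b']
  refine ((continuous_im.tendsto _).comp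
    (((a.const_mul I).add t).sub (b.const_mul I))).congr' ?_
  filter_upwards [Ioo_mem_nhdsGT hT] with η hη
  rw [cauchy_lift hg hη.1 hη.2.le hF]
  rfl

theorem g3_wt {d r : ℝ} {z : ℂ} (hd : 0 < d) (hr : 0 < r) (h : r ≤ d - z.re ∨ r ≤ z.im) :
    ‖d / (d - z)‖ ≤ d / r := by
  rw [norm_div, norm_real, Real.norm_of_nonneg hd.le]
  refine div_le_div_of_nonneg_left hd.le hr ?_
  rcases h with h | h
  · exact h.trans (by simpa using re_le_norm (d - z))
  · rw [norm_sub_rev]
    exact h.trans (by simpa using im_le_norm (z - d))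

/-- no mass escapes to the threshold -/
theorem leak (hT : 0 < T) (hg : DifferentiableOn ℂ g UU) (hG : Good T g)
    (hp : ∀ z ∈ UU, 0 ≤ (g z).im) : ∃ C : ℝ, ∀ d : ℝ, 0 < d → d ≤ 3 / 4 → ∀ η : ℝ, 0 < η → η ≤ T / 2 →
      ∫ x in (-d)..0, (g (x + η * I)).im ≤ C * √d := by
  obtain ⟨C, hC⟩ := hG.2
  have C0 : 0 ≤ C := (norm_nonneg _).trans (hC _ (g3_top (x := 0) (by norm_num) le_rfl))
  refine ⟨2 * (C * (4 / 3 * T + 3 / 2 / T + 1 + T)), fun d d0 d1 η η0 η1 => ?_⟩
  have ηT : η ≤ T := by linarith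
  have s0 := Real.sqrt_pos.2 d0
  have ds : d ≤ √d := Real.le_sqrt_of_sq_le (by nlinarith)
  have hF : ∀ z ∈ Rect T, DifferentiableAt ℂ (fun z : ℂ => d / (d - z)) z := fun z hz => by
    refine (differentiableAt_const _).div (by fun_prop) fun e => ?_
    have := congrArg re e
    simp only [sub_re, ofReal_re, zero_re] at this
    linarith [hz.2.1]
  have c : ContinuousOn (fun z : ℂ => d / (d - z)) (Rect T) := fun z hz =>
    (hF z hz).continuousAt.continuousWithinAt
  have u : uIcc (-3 / 4 : ℝ) 0 ⊆ Icc (-3 / 4) 0 := (uIcc_of_le (by norm_num)).subset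
  have e := cauchy_lift hg η0 ηT hF
  have n1 : ‖∫ θ in η..T, d / (d - (-3 / 4 + (θ - η : ℝ) * I)) * g (-3 / 4 + θ * I)‖
      ≤ d / (3 / 4) * C * |T - η| := intervalIntegral.norm_integral_le_of_norm_le_const fun θ h => by
    rw [uIoc_of_le ηT] at h
    refine norm_mul_le_of_le (g3_wt d0 (by norm_num) (Or.inl ?_)) ?_
    · norm_num
      linarith
    · simpa using hC _ (g3_side (Or.inl rfl) ⟨η0.trans h.1, h.2⟩)
  have n2 : ‖∫ x in (-3 / 4 : ℝ)..0, d / (d - (x + (T - η : ℝ) * I)) * g (x + T * I)‖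
      ≤ d / (T / 2) * C * |0 - -3 / 4| :=
    intervalIntegral.norm_integral_le_of_norm_le_const fun x h => by
      have h := u (uIoc_subset_uIcc h)
      refine norm_mul_le_of_le (g3_wt d0 (half_pos hT) (Or.inr ?_)) (hC _ (g3_top h.1 h.2))
      simp only [add_im, ofReal_im, mul_im, ofReal_re, I_im, I_re]
      linarith
  have n3 : ‖∫ θ in η..T, d / (d - (θ - η : ℝ) * I) * g (θ * I)‖ ≤ C * √d + √d * C * T := by
    have k : ContinuousOn (fun θ : ℝ => d / (d - (θ - η : ℝ) * I) * g (θ * I)) (Icc η T) := by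
      simpa using (g3_contF c (Or.inr rfl) η0).fun_mul ((g3_contV hG.1 (a := 0) (by norm_num)).mono
        fun _ h => η0.trans_le h.1)
    have b : ∀ θ ∈ Ioc η T, ‖g (θ * I)‖ ≤ C := fun θ h => by
      simpa using hC _ (g3_side (Or.inr rfl) ⟨η0.trans h.1, h.2⟩)
    obtain ⟨m, m1, m2, m3, m4⟩ : ∃ m, η ≤ m ∧ m ≤ T ∧ m ≤ η + √d ∧ ∀ θ ∈ Ioc m T, η + √d ≤ θ :=
      ⟨min (η + √d) T, le_min (by linarith) ηT, min_le_right _ _, min_le_left _ _, fun θ h =>
        ((min_lt_iff.1 h.1).resolve_right h.2.not_gt).le⟩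
    rw [← intervalIntegral.integral_add_adjacent_intervals (b := m)
      ((k.mono (Icc_subset_Icc_right m2)).intervalIntegrable_of_Icc m1)
      ((k.mono (Icc_subset_Icc_left m1)).intervalIntegrable_of_Icc m2)]
    refine norm_add_le_of_le ((intervalIntegral.norm_integral_le_of_norm_le_const (C := C)
      fun θ h => ?_).trans ?_) ((intervalIntegral.norm_integral_le_of_norm_le_const
      (C := √d * C) fun θ h => ?_).trans ?_)
    · rw [uIoc_of_le m1] at h
      have := norm_mul_le_of_le (g3_wt (z := (θ - η : ℝ) * I) d0 d0 (Or.inl (by simp)))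
        (b θ ⟨h.1, h.2.trans m2⟩)
      rwa [div_self d0.ne', one_mul] at this
    · exact mul_le_mul_of_nonneg_left (abs_le.2 ⟨by linarith, by linarith⟩) C0
    · rw [uIoc_of_le m2] at h
      have := norm_mul_le_of_le (g3_wt (z := (θ - η : ℝ) * I) d0 s0
        (Or.inr (by simpa using le_sub_iff_add_le'.2 (m4 θ h)))) (b θ ⟨m1.trans_lt h.1, h.2⟩)
      rwa [Real.div_sqrt] at this
    · exact mul_le_mul_of_nonneg_left (abs_le.2 ⟨by linarith, by linarith⟩) (by positivity)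
  have n : (∫ x in (-3 / 4 : ℝ)..0, d / (d - x) * g (x + η * I)).im
      ≤ C * (4 / 3 * T + 3 / 2 / T + 1 + T) * √d := by
    refine (im_le_norm _).trans ?_
    rw [e]
    refine (norm_sub_le_of_le (norm_add_le_of_le (norm_mul_le_of_le norm_I.le n1) n2)
      (norm_mul_le_of_le norm_I.le n3)).trans ?_
    have p1 : d / (3 / 4) * C * |T - η| ≤ √d / (3 / 4) * C * T := by
      rw [abs_of_nonneg (sub_nonneg.2 ηT)]
      gcongr
      linarith
    have p2 : d / (T / 2) * C * |0 - -3 / 4| ≤ √d / (T / 2) * C * (3 / 4) := by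
      rw [show |(0 : ℝ) - -3 / 4| = 3 / 4 by norm_num]
      gcongr
    have p3 : √d / (T / 2) * C * (3 / 4) = C * (3 / 2 / T) * √d := by
      field_simp
      ring
    linarith
  have k : ContinuousOn (fun x : ℝ => d / (d - x) * g (x + η * I)) (uIcc (-3 / 4) 0) :=
    (c.comp (f := fun x : ℝ => (x : ℂ)) (by fun_prop) fun x h => by
      simpa using g3_mem (y := 0) (u h).1 (u h).2 le_rfl hT.le).mul (g3_contH hG.1 η0)
  have i := imCLM.intervalIntegral_comp_comm (μ := volume) k.intervalIntegrable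
  have k' := continuous_im.comp_continuousOn k
  have r : ∀ x : ℝ, (d / (d - x) * g (x + η * I)).im = d / (d - x) * (g (x + η * I)).im :=
    fun x => by rw [← ofReal_sub, ← ofReal_div, im_ofReal_mul]
  simp only [imCLM_apply, r, Function.comp_def] at i k'
  have v : uIcc (-d) 0 ⊆ uIcc (-3 / 4) 0 := by
    rw [uIcc_of_le (by linarith), uIcc_of_le (by norm_num)]
    exact Icc_subset_Icc_left (by linarith)
  have l1 := intervalIntegral.integral_mono_interval (μ := volume) (show -3 / 4 ≤ -d by linarith)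
    (neg_nonpos.2 d0.le) le_rfl ((ae_restrict_iff' measurableSet_Ioc).2
      (Eventually.of_forall fun x h => mul_nonneg (div_nonneg d0.le (by linarith [h.2]))
        (hp _ (g3_UU h.1.le η0)))) k'.intervalIntegrable
  have l2 := intervalIntegral.integral_mono_on (μ := volume) (neg_nonpos.2 d0.le)
    ((continuous_im.comp_continuousOn (g3_contH hG.1 η0)).mono v).intervalIntegrable
    ((k'.mono v).intervalIntegrable.const_mul 2) fun x h => by
      rw [← mul_assoc]
      refine le_mul_of_one_le_left (hp _ (g3_UU (by linarith [h.1]) η0)) ?_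
      rw [← mul_div_assoc, le_div_iff₀ (by linarith [h.2])]
      linarith [h.1]
  rw [intervalIntegral.integral_const_mul] at l2
  simp only [Function.comp_def] at l2
  linarith

end Pool.Agent.Lib.MP_2347b2_mp.F
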