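import Pool.Agent.Lib.MP_2347b2_mp.F.G3

namespace Pool.Agent.Lib.MP_2347b2_mp.F

open MeasureTheory Set Filter Topology Complex

/-- Poisson kernel -/
theorem poisson {f : ℝ → ℝ} {a b e : ℝ} (ha : a < e) (hb : e < b) (hf : ContinuousOn f (Icc a b)) :
    Tendsto (fun η : ℝ => ∫ x in a..b, f x * (η / ((e - x) ^ 2 + η ^ 2))) (𝓝[>] 0)
      (𝓝 (Real.pi * f e)) := by
  have hab : a ≤ b := (ha.trans hb).le
  have hm : Ioc a b ∈ 𝓝 e := Ioc_mem_nhds ha hb
  have h1 : Tendsto (fun x : ℝ => ‖x‖ ^ Module.finrank ℝ ℝ * (Real.pi⁻¹ * (1 + x ^ 2)⁻¹))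
      (Bornology.cobounded ℝ) (𝓝 0) := by
    have h2 := (tendsto_inv_atTop_zero.comp
      (tendsto_norm_cobounded_atTop (E := ℝ))).const_mul Real.pi⁻¹
    rw [mul_zero] at h2
    refine squeeze_zero' (Eventually.of_forall fun x => by positivity) ?_ h2
    filter_upwards [(tendsto_norm_cobounded_atTop (E := ℝ)).eventually_gt_atTop 0] with x hx
    rw [Module.finrank_self, pow_one, mul_left_comm, Function.comp_apply, ← sq_abs,
      ← Real.norm_eq_abs]
    gcongr
    rw [← div_eq_mul_inv, inv_eq_one_div, div_le_div_iff₀ (by positivity) hx]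
    nlinarith
  have h3 := ((tendsto_integral_comp_smul_smul_of_integrable' (μ := volume)
    (φ := fun x : ℝ => Real.pi⁻¹ * (1 + x ^ 2)⁻¹) (fun x => by positivity)
    (by rw [integral_const_mul, integral_univ_inv_one_add_sq, inv_mul_cancel₀ Real.pi_ne_zero]) h1
    (g := (Ioc a b).indicator f) (x₀ := e)
    ((integrable_indicator_iff measurableSet_Ioc).2
      (hf.integrableOn_Icc.mono_set Ioc_subset_Icc_self))
    ((hf.continuousAt (Icc_mem_nhds ha hb)).congr (by
      filter_upwards [hm] with x hx using (indicator_of_mem hx f).symm))).comp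
    tendsto_inv_nhdsGT_zero).const_mul Real.pi
  rw [indicator_of_mem (mem_of_mem_nhds hm)] at h3
  refine h3.congr' ?_
  filter_upwards [self_mem_nhdsWithin] with η (hη : 0 < η)
  rw [Function.comp_apply, ← integral_const_mul, intervalIntegral.integral_of_le hab,
    ← integral_indicator measurableSet_Ioc]
  refine integral_congr_ae (Eventually.of_forall fun x => ?_)
  by_cases hx : x ∈ Ioc a b
  · simp only [indicator_of_mem hx, Module.finrank_self, pow_one, smul_eq_mul]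
    have := Real.pi_ne_zero
    field_simp
    ring
  · simp only [indicator_of_notMem hx, smul_zero, mul_zero]

theorem g4_im (c e x η : ℝ) :
    ((c : ℂ) / (e - (x + η * I))).im = c * (η / ((e - x) ^ 2 + η ^ 2)) := by
  simp only [Complex.div_im, Complex.normSq_apply, sub_re, sub_im, add_re, add_im, mul_re, mul_im,
    ofReal_re, ofReal_im, I_re, I_im]
  ring

theorem g4_mem {x η : ℝ} (hx : -1 < x) (hη : 0 < η) : (x + η * I : ℂ) ∈ UU := by
  constructor <;> simpa

theorem g4_cont {g : ℂ → ℂ} (hg : DifferentiableOn ℂ g UU) {η : ℝ} (hη : 0 < η) :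
    ContinuousOn (fun x : ℝ => g (x + η * I)) (Ioi (-1)) :=
  hg.continuousOn.comp (f := fun x : ℝ => (x + η * I : ℂ)) (by fun_prop) fun _ hx => g4_mem hx hη

theorem g4_wt {F : ℂ → ℂ} (hF : Wt F) : ContinuousOn (fun x : ℝ => F x) (Ioi (-1)) :=
  hF.1.continuousOn.comp (f := fun x : ℝ => (x : ℂ)) (by fun_prop) fun _ hx => hx

theorem g4_big {u : ℂ → ℂ} {x : ℝ}
    (h : ∃ C δ : ℝ, 0 < δ ∧ ∀ z ∈ UU, ‖z - x‖ < δ → ‖u z‖ ≤ C) :
    u =O[𝓝[UU] (x : ℂ)] fun _ => (1 : ℝ) := by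
  obtain ⟨C, δ, hδ, h⟩ := h
  refine Asymptotics.IsBigO.of_bound C ?_
  filter_upwards [self_mem_nhdsWithin, mem_nhdsWithin_of_mem_nhds (Metric.ball_mem_nhds _ hδ)]
    with z h1 h2
  rw [norm_one, mul_one]
  exact h z h1 (mem_ball_iff_norm.1 h2)

theorem g4_pole {e x : ℝ} (c : ℝ) (h : x ≠ e) :
    (fun z : ℂ => (c : ℂ) / (e - z)) =O[𝓝[UU] (x : ℂ)] fun _ => (1 : ℝ) := by
  have h1 : ContinuousAt (fun z : ℂ => (c : ℂ) / (e - z)) x :=
    continuousAt_const.div (by fun_prop) (sub_ne_zero.2 (ofReal_injective.ne h.symm))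
  exact (h1.tendsto.mono_left nhdsWithin_le_nhds).isBigO_one ℝ

theorem g4_unif {u : ℂ → ℂ} {a b : ℝ} (ha : -1 < a)
    (h : ∀ x ∈ Icc a b, u =O[𝓝[UU] ((x : ℝ) : ℂ)] fun _ => (1 : ℝ)) :
    ∃ C : ℝ, ∀ᶠ η : ℝ in 𝓝[>] 0, ∀ x ∈ Icc a b, ‖u (x + η * I)‖ ≤ C := by
  refine (isCompact_Icc (a := a) (b := b)).induction_on
    (p := fun s => ∃ C : ℝ, ∀ᶠ η : ℝ in 𝓝[>] 0, ∀ x ∈ s, ‖u (x + η * I)‖ ≤ C)
    ⟨0, Eventually.of_forall fun _ _ h => h.elim⟩
    (fun s t hst ⟨C, hC⟩ => ⟨C, hC.mono fun _ h x hx => h x (hst hx)⟩)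
    (fun s t ⟨C, hC⟩ ⟨D, hD⟩ => ⟨max C D, (hC.and hD).mono fun _ h x hx =>
      hx.elim (fun k => (h.1 x k).trans (le_max_left _ _))
        fun k => (h.2 x k).trans (le_max_right _ _)⟩) fun x hx => ?_
  obtain ⟨C, hC⟩ := (h x hx).bound
  obtain ⟨δ, hδ, hC⟩ := Metric.mem_nhdsWithin_iff.1 hC
  refine ⟨Metric.ball x (δ / 2) ∩ Icc a b, inter_mem
    (mem_nhdsWithin_of_mem_nhds (Metric.ball_mem_nhds _ (half_pos hδ))) self_mem_nhdsWithin, C, ?_⟩
  filter_upwards [Ioo_mem_nhdsGT (half_pos hδ)] with η hη y hy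
  have h1 : (y + η * I : ℂ) ∈ Metric.ball (x : ℂ) δ := by
    rw [mem_ball_iff_norm, show (y + η * I - x : ℂ) = ((y - x : ℝ) : ℂ) + η * I by push_cast; ring]
    refine (norm_add_le _ _).trans_lt ?_
    rw [norm_real, norm_mul, norm_I, norm_real, mul_one, Real.norm_of_nonneg hη.1.le]
    linarith [mem_ball_iff_norm.1 hy.1, hη.2]
  simpa using hC ⟨h1, g4_mem (ha.trans_le hy.2.1) hη.1⟩

section
variable {T : ℝ} {g F : ℂ → ℂ} {e c : ℕ → ℝ}

theorem g4_left (hg : DifferentiableOn ℂ g UU) (he : StrictMono e) (he0 : -3 / 4 < e 0)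
    (hreg : ∀ x : ℝ, -1 < x → x < 0 → (∀ n, x ≠ e n) →
      (∃ C δ : ℝ, 0 < δ ∧ ∀ z ∈ UU, ‖z - x‖ < δ → ‖g z‖ ≤ C) ∧
      Tendsto (fun η : ℝ => (g (x + η * I)).im) (𝓝[>] 0) (𝓝 0))
    (hpole : ∀ n, ∃ C δ : ℝ, 0 < δ ∧ ∀ z ∈ UU, ‖z - e n‖ < δ → ‖g z - c n / (e n - z)‖ ≤ C)
    {f : ℝ → ℝ} (hf : ContinuousOn f (Ioi (-1))) {N : ℕ} {b : ℝ} (h1 : e N < b)
    (h2 : b < e (N + 1)) (h3 : b < 0) :
    Tendsto (fun η : ℝ => ∫ x in (-3 / 4 : ℝ)..b, f x * (g (x + η * I)).im) (𝓝[>] 0)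
      (𝓝 (∑ n ∈ Finset.range (N + 1), Real.pi * (f (e n) * c n))) := by
  have hab : (-3 / 4 : ℝ) ≤ b := (he0.trans_le (he.monotone N.zero_le)).le.trans h1.le
  have hs : Icc (-3 / 4 : ℝ) b ⊆ Ioi (-1) := fun x hx => lt_of_lt_of_le (by norm_num) hx.1
  have hs' : uIcc (-3 / 4 : ℝ) b ⊆ Ioi (-1) := by rwa [uIcc_of_le hab]
  obtain ⟨C, hC⟩ := g4_unif (u := fun z => g z - ∑ n ∈ Finset.range (N + 1), c n / (e n - z))
    (a := -3 / 4) (b := b) (by norm_num) fun x hx => by
      by_cases k : ∃ m, x = e m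
      · obtain ⟨m, rfl⟩ := k
        have hm : m ∈ Finset.range (N + 1) := Finset.mem_range.2 (he.lt_iff_lt.1 (hx.2.trans_lt h2))
        refine ((g4_big (hpole m)).sub (Asymptotics.IsBigO.fun_sum
          (s := (Finset.range (N + 1)).erase m) fun n hn =>
            g4_pole (c n) (he.injective.ne (Finset.ne_of_mem_erase hn).symm))).congr_left fun z => ?_
        rw [← Finset.add_sum_erase _ _ hm, sub_sub]
      · push Not at k
        exact (g4_big (hreg x (hs hx) (hx.2.trans_lt h3) k).1).sub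
          (Asymptotics.IsBigO.fun_sum fun n _ => g4_pole (c n) (k n))
  obtain ⟨M, hM⟩ := isCompact_Icc.exists_bound_of_continuousOn (hf.mono hs)
  have hK : ∀ η : ℝ, 0 < η → ∀ n, Continuous fun x : ℝ => η / ((e n - x) ^ 2 + η ^ 2) :=
    fun η hη n => continuous_const.div (by fun_prop) fun x => by positivity
  have hG : ∀ η : ℝ, 0 < η → ContinuousOn (fun x : ℝ => f x * (g (x + η * I)).im) (Ioi (-1)) :=
    fun η hη => hf.mul (continuous_im.comp_continuousOn (g4_cont hg hη))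
  have hS : ∀ η : ℝ, 0 < η → ∀ n, ContinuousOn
      (fun x : ℝ => f x * (η / ((e n - x) ^ 2 + η ^ 2)) * c n) (Ioi (-1)) :=
    fun η hη n => (hf.mul (hK η hη n).continuousOn).mul continuousOn_const
  have t1 := intervalIntegral.tendsto_integral_filter_of_dominated_convergence (μ := volume)
    (a := -3 / 4) (b := b) (l := 𝓝[>] (0 : ℝ)) (f := fun _ => (0 : ℝ))
    (F := fun η x => f x * (g (x + η * I)).im -
      ∑ n ∈ Finset.range (N + 1), f x * (η / ((e n - x) ^ 2 + η ^ 2)) * c n) (fun _ => M * C)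
    (by
      filter_upwards [self_mem_nhdsWithin] with η hη
      exact (((hG η hη).sub (continuousOn_finsetSum _ fun n _ => hS η hη n)).mono
        (uIoc_subset_uIcc.trans hs')).aestronglyMeasurable measurableSet_uIoc)
    (by
      filter_upwards [hC] with η hη
      refine Eventually.of_forall fun x hx => ?_
      rw [uIoc_of_le hab] at hx
      have k1 := hM x (Ioc_subset_Icc_self hx)
      have k2 := (abs_im_le_norm _).trans (hη x (Ioc_subset_Icc_self hx))
      simp only [sub_im, im_sum, g4_im] at k2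
      simp only [mul_assoc, ← Finset.mul_sum, ← mul_sub]
      simp only [mul_comm _ (c _)]
      rw [norm_mul]
      exact mul_le_mul k1 k2 (norm_nonneg _) ((norm_nonneg _).trans k1))
    intervalIntegrable_const
    (by
      filter_upwards [(countable_range e).ae_notMem volume] with x hx hx'
      rw [uIoc_of_le hab] at hx'
      have k : ∀ n, x ≠ e n := fun n h => hx ⟨n, h.symm⟩
      have k1 := ((hreg x (hs (Ioc_subset_Icc_self hx')) (hx'.2.trans_lt h3) k).2).const_mul (f x)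
      have k2 := tendsto_finsetSum (Finset.range (N + 1)) fun n _ =>
        ((((continuousAt_id.div (g := fun η : ℝ => (e n - x) ^ 2 + η ^ 2) (a := 0) (by fun_prop)
          (by simpa using sub_ne_zero.2 (k n).symm)).tendsto.mono_left
          (nhdsWithin_le_nhds (s := Ioi 0))).const_mul (f x)).mul_const (c n))
      simpa using k1.sub k2)
  have t2 := tendsto_finsetSum (Finset.range (N + 1)) fun n hn =>
    (poisson (he0.trans_le (he.monotone n.zero_le))
      ((he.monotone (Nat.le_of_lt_succ (Finset.mem_range.1 hn))).trans_lt h1)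
      (hf.mono hs)).mul_const (c n)
  have t3 := t1.add t2
  simp only [intervalIntegral.integral_zero, zero_add, mul_assoc] at t3
  refine t3.congr' ?_
  filter_upwards [self_mem_nhdsWithin] with η hη
  simp only [← mul_assoc]
  rw [intervalIntegral.integral_sub ((hG η hη).mono hs').intervalIntegrable
    ((continuousOn_finsetSum _ fun n _ => hS η hη n).mono hs').intervalIntegrable,
    intervalIntegral.integral_finsetSum fun n _ => ((hS η hη n).mono hs').intervalIntegrable]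
  simp only [intervalIntegral.integral_mul_const, sub_add_cancel]

theorem g4_tend (hT : 0 < T)
    (hg : DifferentiableOn ℂ g UU) (hG : Good T g) (hp : ∀ z ∈ UU, 0 ≤ (g z).im)
    (he : StrictMono e) (he0 : -3 / 4 < e 0) (hlim : Tendsto e atTop (𝓝 0))
    (hreg : ∀ x : ℝ, -1 < x → x < 0 → (∀ n, x ≠ e n) →
      (∃ C δ : ℝ, 0 < δ ∧ ∀ z ∈ UU, ‖z - x‖ < δ → ‖g z‖ ≤ C) ∧
      Tendsto (fun η : ℝ => (g (x + η * I)).im) (𝓝[>] 0) (𝓝 0))
    (hpole : ∀ n, ∃ C δ : ℝ, 0 < δ ∧ ∀ z ∈ UU, ‖z - e n‖ < δ → ‖g z - c n / (e n - z)‖ ≤ C)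
    (hF : Wt F) :
    Tendsto (fun N => ∑ n ∈ Finset.range N, Real.pi * ((F (e n)).re * c n)) atTop
      (𝓝 (ctr T fun z => F z * g z)) := by
  have hf : ContinuousOn (fun x : ℝ => (F x).re) (Ioi (-1)) :=
    continuous_re.comp_continuousOn (g4_wt hF)
  have hs : Icc (-3 / 4 : ℝ) 0 ⊆ Ioi (-1) := fun x hx => lt_of_lt_of_le (by norm_num) hx.1
  obtain ⟨M, hM⟩ := isCompact_Icc.exists_bound_of_continuousOn (hf.mono hs)
  have hM0 : 0 ≤ M := (norm_nonneg _).trans (hM 0 ⟨by norm_num, le_rfl⟩)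
  obtain ⟨C, hC⟩ := leak hT hg hG hp
  have hle : ∀ n, e n ≤ 0 := he.monotone.ge_of_tendsto hlim
  have hb := bottom_tendsto hT hg hG (F := F) fun z hz => hF.1.differentiableAt
    ((isOpen_lt continuous_const continuous_re).mem_nhds (lt_of_lt_of_le (by norm_num) hz.1))
  have hI : ∀ η : ℝ, 0 < η → ContinuousOn (fun x : ℝ => (g (x + η * I)).im) (Ioi (-1)) :=
    fun η hη => continuous_im.comp_continuousOn (g4_cont hg hη)
  have key : ∀ N, ‖(∑ n ∈ Finset.range (N + 1), Real.pi * ((F (e n)).re * c n)) -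
      ctr T fun z => F z * g z‖ ≤ M * (C * √(-((e N + e (N + 1)) / 2))) := fun N => by
    have k1 := he N.lt_succ_self
    have k2 := hle (N + 1)
    have k3 := he.monotone N.zero_le
    generalize hb' : (e N + e (N + 1)) / 2 = b
    have b1 : e N < b := by linarith
    have b2 : b < e (N + 1) := by linarith
    have b3 : b < 0 := by linarith
    have b4 : -3 / 4 ≤ b := by linarith
    refine le_of_tendsto ((g4_left hg he he0 hreg hpole hf b1 b2 b3).sub hb).norm ?_
    filter_upwards [Ioc_mem_nhdsGT (half_pos hT)] with η hη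
    have s1 : uIcc (-3 / 4 : ℝ) 0 ⊆ Ioi (-1) := by rwa [uIcc_of_le (by norm_num)]
    have s2 : uIcc (-3 / 4 : ℝ) b ⊆ Ioi (-1) := by
      rw [uIcc_of_le b4]
      exact (Icc_subset_Icc_right b3.le).trans hs
    have s3 : uIcc b 0 ⊆ Ioi (-1) := by
      rw [uIcc_of_le b3.le]
      exact (Icc_subset_Icc_left b4).trans hs
    have e1 : (∫ x in (-3 / 4 : ℝ)..0, F x * g (x + η * I)).im =
        ∫ x in (-3 / 4 : ℝ)..0, (F x).re * (g (x + η * I)).im := by
      refine (imCLM.intervalIntegral_comp_comm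
        (((g4_wt hF).mul (g4_cont hg hη.1)).mono s1).intervalIntegrable).symm.trans
        (intervalIntegral.integral_congr fun x hx => ?_)
      simp only [imCLM_apply, Pi.mul_apply, mul_im, hF.2 x (s1 hx), zero_mul, add_zero]
    have i1 := ((hf.mul (hI η hη.1)).mono s2).intervalIntegrable (μ := volume)
    have i2 := ((hf.mul (hI η hη.1)).mono s3).intervalIntegrable (μ := volume)
    have e2 := intervalIntegral.integral_add_adjacent_intervals i1 i2
    simp only [Pi.mul_apply] at e2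
    rw [e1, ← e2, sub_add_cancel_left, norm_neg]
    have l1 := hC (-b) (by linarith) (by linarith) η hη.1 hη.2
    rw [neg_neg] at l1
    refine le_trans ?_ (mul_le_mul_of_nonneg_left l1 hM0)
    rw [← intervalIntegral.integral_const_mul]
    refine intervalIntegral.norm_integral_le_of_norm_le b3.le (Eventually.of_forall fun x hx => ?_)
      ((((hI η hη.1).mono s3).intervalIntegrable).const_mul M)
    have x1 : x ∈ Icc (-3 / 4 : ℝ) 0 := ⟨b4.trans hx.1.le, hx.2⟩
    have x2 := hp _ (g4_mem (hs x1) hη.1)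
    rw [norm_mul, Real.norm_of_nonneg x2]
    exact mul_le_mul_of_nonneg_right (hM x x1) x2
  rw [← tendsto_add_atTop_iff_nat 1, tendsto_iff_norm_sub_tendsto_zero]
  refine squeeze_zero (fun _ => norm_nonneg _) key ?_
  have := ((((hlim.add ((tendsto_add_atTop_iff_nat 1).2 hlim)).div_const 2).neg.sqrt).const_mul
    C).const_mul M
  simpa using this

end

/-- the abstract sum formula -/
theorem hasSum_ctr {T : ℝ} {g F : ℂ → ℂ} {e c : ℕ → ℝ} (hT : 0 < T)
    (hg : DifferentiableOn ℂ g UU) (hG : Good T g) (hp : ∀ z ∈ UU, 0 ≤ (g z).im)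
    (he : StrictMono e) (he0 : -3 / 4 < e 0) (hlim : Tendsto e atTop (𝓝 0))
    (hc : ∀ n, 0 ≤ c n)
    (hreg : ∀ x : ℝ, -1 < x → x < 0 → (∀ n, x ≠ e n) →
      (∃ C δ : ℝ, 0 < δ ∧ ∀ z ∈ UU, ‖z - x‖ < δ → ‖g z‖ ≤ C) ∧
      Tendsto (fun η : ℝ => (g (x + η * I)).im) (𝓝[>] 0) (𝓝 0))
    (hpole : ∀ n, ∃ C δ : ℝ, 0 < δ ∧ ∀ z ∈ UU, ‖z - e n‖ < δ → ‖g z - c n / (e n - z)‖ ≤ C)
    (hF : Wt F) :
    HasSum (fun n => Real.pi * ((F (e n)).re * c n)) (ctr T fun z => F z * g z) := by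
  have h1 := (hasSum_iff_tendsto_nat_of_nonneg
    (fun n => by simpa using mul_nonneg Real.pi_pos.le (hc n)) _).2
    (g4_tend hT hg hG hp he he0 hlim hreg hpole (F := fun _ => 1)
      ⟨differentiableOn_const _, fun _ _ => rfl⟩)
  have hs : Icc (-3 / 4 : ℝ) 0 ⊆ Ioi (-1) := fun x hx => lt_of_lt_of_le (by norm_num) hx.1
  obtain ⟨M, hM⟩ := isCompact_Icc.exists_bound_of_continuousOn
    ((continuous_re.comp_continuousOn (g4_wt hF)).mono hs)
  refine (Summable.hasSum_iff_tendsto_nat (Summable.of_norm_bounded (h1.summable.mul_left M)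
    fun n => ?_)).2 (g4_tend hT hg hG hp he he0 hlim hreg hpole hF)
  have h2 := hM (e n) ⟨(he0.trans_le (he.monotone n.zero_le)).le, he.monotone.ge_of_tendsto hlim n⟩
  rw [norm_mul, norm_mul, Real.norm_of_nonneg Real.pi_pos.le, Real.norm_of_nonneg (hc n), one_re,
    one_mul, mul_left_comm M]
  exact mul_le_mul_of_nonneg_left (mul_le_mul_of_nonneg_right h2 (hc n)) Real.pi_pos.le

end Pool.Agent.Lib.MP_2347b2_mp.F
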