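import Pool.Agent.Lib.MP_2347b2_mp.F.G1
import Pool.Agent.Lib.MP_2347b2_mp.F.G2
import Pool.Agent.Lib.MP_2347b2_mp.F.G4

namespace Pool.Agent.Lib.MP_2347b2_mp.F

open MeasureTheory Set Filter Topology Complex

/-- the subdominant logarithmic derivative is bounded and outgoing on the right side -/
def Out (γ l R T : ℝ) : Prop := ∃ c C : ℝ, 0 < c ∧ ∀ θ : ℝ, 0 < θ → θ ≤ T →
  ‖mp γ l R (θ * I)‖ ≤ C ∧ (mp γ l R (θ * I)).im ≤ -c

variable {γ l R T : ℝ}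

theorem g5_ep (hl : 0 ≤ l) (hL : 4 / 3 < (l + 1) ^ 2 + γ ^ 2) : -3 / 4 < ep γ l 0 := by
  have e : NN γ l 0 ^ 2 = (l + 1) ^ 2 + γ ^ 2 := by
    rw [NN_sq, nu]
    simp
  rw [ep, e, lt_div_iff₀ (by positivity)]
  linarith

theorem g5_right {m p : ℂ} {a b c C : ℝ} (hc : 0 < c) (hm : m.im < 0) (hp : p.im ≤ -c)
    (hC : ‖p‖ ≤ C) :
    ‖(a + b * m) * (a - b * p) * (1 / (m + p))‖ ≤ (|b| + (|a| + |b| * C) / c) * (|a| + |b| * C) := by
  have h1 : c ≤ ‖m + p‖ := by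
    refine le_trans ?_ (Complex.abs_im_le_norm (m + p))
    rw [Complex.add_im]
    exact le_abs.2 (Or.inr (by linarith))
  have h2 : m + p ≠ 0 := norm_pos_iff.1 (hc.trans_le h1)
  have h3 : ‖(a : ℂ) - b * p‖ ≤ |a| + |b| * C := by
    refine (norm_sub_le _ _).trans ?_
    rw [norm_mul, Complex.norm_real, Complex.norm_real, Real.norm_eq_abs, Real.norm_eq_abs]
    have := mul_le_mul_of_nonneg_left hC (abs_nonneg b)
    linarith
  have h4 : (a + b * m) * (a - b * p) * (1 / (m + p))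
      = (b + (a - b * p) / (m + p)) * (a - b * p) := by
    field_simp
    ring
  have h5 : 0 ≤ |a| + |b| * C := (norm_nonneg _).trans h3
  rw [h4, norm_mul]
  refine mul_le_mul ((norm_add_le _ _).trans ?_) h3 (norm_nonneg _) (by positivity)
  rw [norm_div, Complex.norm_real, Real.norm_eq_abs]
  have := div_le_div₀ h5 h3 hc h1
  linarith

theorem good_gab (h0 : 0 < γ) (h1 : γ ^ 2 ≤ 1) (hl : 0 ≤ l) (hL : 4 / 3 < (l + 1) ^ 2 + γ ^ 2)
    (hR : 0 < R) (hT : 0 < T) (ho : Out γ l R T) (a b : ℝ) : Good T (gab γ l R a b) := by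
  have hd := (gab_diff h1 hl hR a b).continuousOn
  refine ⟨hd, ?_⟩
  obtain ⟨c, C, hc, ho⟩ := ho
  have hn : ∀ n, (-3 / 4 : ℝ) ≠ ep γ l n := fun n =>
    ((g5_ep hl hL).trans_le ((ep_strictMono (by linarith)).monotone (Nat.zero_le n))).ne
  obtain ⟨C1, δ, hδ, hb⟩ := (gab_regular h1 hl hR a b (x := -3 / 4) (by norm_num) (by norm_num) hn).1
  have hK : IsCompact (Icc (-3 / 4 : ℝ) 0 ×ℂ Icc (min δ T) T) := isCompact_Icc.reProdIm isCompact_Icc
  have hs : Icc (-3 / 4 : ℝ) 0 ×ℂ Icc (min δ T) T ⊆ UU := fun z hz =>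
    ⟨by linarith [hz.1.1], (lt_min hδ hT).trans_le hz.2.1⟩
  obtain ⟨C2, h2⟩ := hK.exists_bound_of_continuousOn (hd.mono hs)
  refine ⟨max (max C1 C2) ((|b| + (|a| + |b| * C) / c) * (|a| + |b| * C)), fun z hz => ?_⟩
  have hu := Sides_subset hT hz
  rcases hz with ⟨h | h, h3, h4⟩ | ⟨h, h3, h4⟩
  · refine le_max_of_le_left ?_
    rcases lt_or_ge z.im δ with h5 | h5
    · refine le_max_of_le_left (hb z hu ?_)
      have : z - (-3 / 4 : ℝ) = z.im * I := by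
        apply Complex.ext <;> simp [h]
      rw [this, norm_mul, Complex.norm_I, mul_one, Complex.norm_real, Real.norm_of_nonneg h3.le]
      exact h5
    · exact le_max_of_le_right (h2 z ⟨⟨h.ge, by rw [h]; norm_num⟩, min_le_of_left_le h5, h4⟩)
  · refine le_max_of_le_right ?_
    have e : z = z.im * I := by
      apply Complex.ext <;> simp [h]
    have := ho z.im h3 h4
    rw [← e] at this
    rw [gab_eq' h1 hl hu hR, gg_inv h1 hl hu hR]
    exact g5_right hc (mm_im_neg h1 hl hu hR) this.2 this.1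
  · exact le_max_of_le_left (le_max_of_le_right
      (h2 z ⟨⟨h, h3⟩, min_le_of_right_le h4.ge, h4.le⟩))

theorem good_gg (h0 : 0 < γ) (h1 : γ ^ 2 ≤ 1) (hl : 0 ≤ l) (hL : 4 / 3 < (l + 1) ^ 2 + γ ^ 2)
    (hR : 0 < R) (hT : 0 < T) (ho : Out γ l R T) : Good T (gg γ l R) := by
  have := good_gab h0 h1 hl hL hR hT ho 1 0
  rwa [show gab γ l R 1 0 = gg γ l R from funext (gab_one γ l R)] at this

/-- the spectral sum as a contour integral -/
theorem hasSum_gab (h0 : 0 < γ) (h1 : γ ^ 2 ≤ 1) (hl : 0 ≤ l) (hL : 4 / 3 < (l + 1) ^ 2 + γ ^ 2)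
    (hR : 0 < R) (hT : 0 < T) (ho : Out γ l R T) (a b : ℝ) {F : ℂ → ℂ} (hF : Wt F) :
    HasSum (fun n => Real.pi * ((F (ep γ l n)).re * res γ l R a b n))
      (ctr T fun z => F z * gab γ l R a b z) := by
  have hl' : -1 < l := by linarith
  exact hasSum_ctr hT (gab_diff h1 hl hR a b) (good_gab h0 h1 hl hL hR hT ho a b)
    (fun z hz => gab_im_nonneg h1 hl hz hR a b) (ep_strictMono hl') (g5_ep hl hL) (ep_tendsto hl')
    (fun n => by unfold res; positivity)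
    (fun x hx hx0 hn => gab_regular h1 hl hR a b hx hx0 hn)
    (fun n => gab_pole h0 h1 hl hR a b n) hF

theorem Wt_one : Wt fun _ => 1 := by
  exact ⟨differentiableOn_const _, fun _ _ => Complex.one_im⟩

theorem Wt_inv (h1 : γ ^ 2 ≤ 1) (a b : ℝ) : Wt fun z => a / Ec γ z + b := by
  refine ⟨(((differentiableOn_const _).div (Ec_diff h1) fun z hz h => ?_).add_const _), fun x hx => ?_⟩
  · have := Ec_re_pos h1 hz
    rw [h] at this
    exact lt_irrefl _ this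
  · show ((a : ℂ) / Ec γ x + b).im = 0
    rw [Ec_real h1 hx, ← Complex.ofReal_div, ← Complex.ofReal_add, Complex.ofReal_im]

theorem g5_sum (h0 : 0 < γ) (h1 : γ ^ 2 ≤ 1) (hl : 0 ≤ l) (hL : 4 / 3 < (l + 1) ^ 2 + γ ^ 2)
    (hR : 0 < R) (hT : 0 < T) (ho : Out γ l R T) (a b : ℝ) :
    Real.pi * ∑' n, (a / EE γ l n + b) * (EE γ l n ^ 2 * ff γ l n R ^ 2)
      = ctr T fun z => (a / Ec γ z + b) * gg γ l R z := by
  have h := (hasSum_gab h0 h1 hl hL hR hT ho 1 0 (Wt_inv h1 a b)).tsum_eq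
  simp only [gab_one] at h
  rw [← h, ← tsum_mul_left]
  refine tsum_congr fun n => ?_
  rw [Ec_ep (by linarith), ← Complex.ofReal_div, ← Complex.ofReal_add, Complex.ofReal_re, res]
  ring

theorem DD_ctr (h0 : 0 < γ) (h1 : γ ^ 2 ≤ 1) (hl : 0 ≤ l) (hL : 4 / 3 < (l + 1) ^ 2 + γ ^ 2)
    (hR : 0 < R) (hT : 0 < T) (ho : Out γ l R T) :
    Real.pi * DD γ l R = ctr T (gg γ l R) := by
  have h := g5_sum h0 h1 hl hL hR hT ho 0 1
  simpa [DD] using h

theorem BB_ctr (h0 : 0 < γ) (h1 : γ ^ 2 ≤ 1) (hl : 0 ≤ l) (hL : 4 / 3 < (l + 1) ^ 2 + γ ^ 2)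
    (hR : 0 < R) (hT : 0 < T) (ho : Out γ l R T) :
    Real.pi * BB γ l R
      = ctr T fun z => (R / Ec γ z - (l * (l + 1) + γ ^ 2 : ℝ)) * gg γ l R z := by
  have h := g5_sum h0 h1 hl hL hR hT ho R (-(l * (l + 1) + γ ^ 2))
  simp only [Complex.ofReal_neg, ← sub_eq_add_neg] at h
  rw [← h, BB]
  congr 1
  refine tsum_congr fun n => ?_
  have := (EE_pos (γ := γ) (by linarith : -1 < l) n).ne'
  rw [bt]
  field_simp

/-- the weighted density sum -/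
noncomputable def DS (γ l R : ℝ) : ℝ :=
  ∑' n, (1 + γ ^ 2 / (EE γ l n * R)) * (EE γ l n ^ 2 * ff γ l n R ^ 2)

theorem DS_ctr (h0 : 0 < γ) (h1 : γ ^ 2 ≤ 1) (hl : 0 ≤ l) (hL : 4 / 3 < (l + 1) ^ 2 + γ ^ 2)
    (hR : 0 < R) (hT : 0 < T) (ho : Out γ l R T) :
    Real.pi * DS γ l R = ctr T fun z => (1 + γ ^ 2 / (Ec γ z * R)) * gg γ l R z := by
  have h := g5_sum h0 h1 hl hL hR hT ho (γ ^ 2 / R) 1
  have e : (fun z => (1 + γ ^ 2 / (Ec γ z * R)) * gg γ l R z)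
      = fun z => ((γ ^ 2 / R : ℝ) / Ec γ z + (1 : ℝ)) * gg γ l R z := by
    funext z
    push_cast
    rw [div_div, mul_comm (R : ℂ), add_comm]
  rw [e, ← h, DS]
  congr 1
  refine tsum_congr fun n => ?_
  rw [div_div, mul_comm R, add_comm]

theorem DD_le_DS (h1 : γ ^ 2 ≤ 1) (hl : 0 ≤ l) (hL : 4 ≤ (l + 1) ^ 2 + γ ^ 2) (hR : 0 < R) :
    DD γ l R ≤ DS γ l R ∧ DS γ l R ≤ (1 + 1.16 / R) * DD γ l R := by
  have hl' : -1 < l := by linarith
  have hs := summable_DD (γ := γ) hl hR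
  have hE : ∀ n, 1 / 1.16 ≤ EE γ l n := fun n => by
    refine le_trans ?_ (EE_mono hl' (Nat.zero_le n))
    refine (sq_le_sq₀ (by norm_num) (EE_pos hl' 0).le).1 ?_
    have e : NN γ l 0 ^ 2 = (l + 1) ^ 2 + γ ^ 2 := by
      rw [NN_sq, nu]
      simp
    have : γ ^ 2 / ((l + 1) ^ 2 + γ ^ 2) ≤ 1 / 4 := by
      rw [div_le_iff₀ (by positivity)]
      linarith
    have e2 : γ ^ 2 * (-1 / ((l + 1) ^ 2 + γ ^ 2)) = -(γ ^ 2 / ((l + 1) ^ 2 + γ ^ 2)) := by ring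
    rw [EE_sq hl', ep, e, e2]
    norm_num at this ⊢
    linarith
  have hb : ∀ n, γ ^ 2 / (EE γ l n * R) ≤ 1.16 / R := fun n => by
    have h2 := EE_pos (γ := γ) hl' n
    have h3 := hE n
    rw [div_le_iff₀ (by norm_num)] at h3
    rw [← div_div]
    refine div_le_div_of_nonneg_right ?_ hR.le
    rw [div_le_iff₀ h2]
    linarith
  have h0 : ∀ n, 0 ≤ γ ^ 2 / (EE γ l n * R) := fun n => by
    have h2 := EE_pos (γ := γ) hl' n
    positivity
  have hu : ∀ n, (1 + γ ^ 2 / (EE γ l n * R)) * (EE γ l n ^ 2 * ff γ l n R ^ 2)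
      ≤ (1 + 1.16 / R) * (EE γ l n ^ 2 * ff γ l n R ^ 2) := fun n =>
    mul_le_mul_of_nonneg_right (by linarith [hb n]) (by positivity)
  have hd : ∀ n, EE γ l n ^ 2 * ff γ l n R ^ 2
      ≤ (1 + γ ^ 2 / (EE γ l n * R)) * (EE γ l n ^ 2 * ff γ l n R ^ 2) := fun n =>
    le_mul_of_one_le_left (by positivity) (by linarith [h0 n])
  have hs2 := Summable.of_nonneg_of_le (fun n => le_trans (by positivity) (hd n)) hu (hs.mul_left _)
  refine ⟨hs.tsum_le_tsum hd hs2, ?_⟩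
  rw [DD, ← tsum_mul_left]
  exact hs2.tsum_le_tsum hu (hs.mul_left _)

end Pool.Agent.Lib.MP_2347b2_mp.F
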