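import Pool.Agent.Lib.MP_2347b2_mp.F.Defs

namespace Pool.Agent.Lib.MP_2347b2_mp.F

open Set

theorem gron_fwd {E : Type*} [NormedAddCommGroup E] [NormedSpace ℝ E] {f f' : ℝ → E}
    {a b K H : ℝ} (hK : 1 ≤ K) (hH : 0 ≤ H) (d : ∀ r ∈ Icc a b, HasDerivAt f (f' r) r)
    (hb : ∀ r ∈ Icc a b, ‖f' r‖ ≤ K * ‖f r‖ + H) {r t : ℝ} (hr : r ∈ Icc a b) (ht : t ∈ Icc a b)
    (htr : t ≤ r) : ‖f r‖ ≤ (‖f t‖ + H) * Real.exp (K * (b - a)) := by
  have hs : Icc t r ⊆ Icc a b := Icc_subset_Icc ht.1 hr.2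
  have h := norm_le_gronwallBound_of_norm_deriv_right_le (f := f) (f' := f') (δ := ‖f t‖) (K := K)
    (ε := H) (a := t) (b := r)
    (fun x hx => (d x (hs hx)).continuousAt.continuousWithinAt)
    (fun x hx => (d x (hs (Ico_subset_Icc_self hx))).hasDerivWithinAt) le_rfl
    (fun x hx => hb x (hs (Ico_subset_Icc_self hx))) r ⟨htr, le_rfl⟩
  have hK0 : 0 < K := by linarith
  rw [gronwallBound_of_K_ne_0 hK0.ne'] at h
  have e1 : Real.exp (K * (r - t)) ≤ Real.exp (K * (b - a)) :=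
    Real.exp_le_exp.2 (mul_le_mul_of_nonneg_left (by linarith [hr.2, ht.1]) hK0.le)
  have e2 : H / K ≤ H := div_le_self hH hK
  have e3 : 0 ≤ H / K := div_nonneg hH hK0.le
  have e4 := Real.exp_pos (K * (r - t))
  have e5 : H / K * Real.exp (K * (r - t)) ≤ H * Real.exp (K * (b - a)) :=
    mul_le_mul e2 e1 e4.le hH
  have e6 : ‖f t‖ * Real.exp (K * (r - t)) ≤ ‖f t‖ * Real.exp (K * (b - a)) :=
    mul_le_mul_of_nonneg_left e1 (norm_nonneg _)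
  linarith

theorem gron_two {E : Type*} [NormedAddCommGroup E] [NormedSpace ℝ E] {f f' : ℝ → E}
    {a b K H : ℝ} (hK : 1 ≤ K) (hH : 0 ≤ H) (d : ∀ r ∈ Icc a b, HasDerivAt f (f' r) r)
    (hb : ∀ r ∈ Icc a b, ‖f' r‖ ≤ K * ‖f r‖ + H) {r t : ℝ} (hr : r ∈ Icc a b)
    (ht : t ∈ Icc a b) : ‖f r‖ ≤ (‖f t‖ + H) * Real.exp (K * (b - a)) := by
  rcases le_total t r with h | h
  · exact gron_fwd hK hH d hb hr ht h
  · have hm : ∀ x ∈ Icc (-b) (-a), -x ∈ Icc a b := fun x hx =>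
      ⟨by linarith [hx.2], by linarith [hx.1]⟩
    have k := gron_fwd (f := fun x => f (-x)) (f' := fun x => (-1 : ℝ) • f' (-x)) (a := -b)
      (b := -a) hK hH
      (fun x hx => (d (-x) (hm x hx)).scomp x (hasDerivAt_neg x))
      (fun x hx => by
        rw [neg_one_smul, norm_neg]
        exact hb (-x) (hm x hx))
      (r := -r) (t := -t) ⟨by linarith [hr.2], by linarith [hr.1]⟩
      ⟨by linarith [ht.2], by linarith [ht.1]⟩ (by linarith)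
    have e : -a - -b = b - a := by ring
    rw [neg_neg, neg_neg, e] at k
    exact k

theorem gron_aux {Q h u u' : ℝ → ℂ} {a b K H : ℝ} (hK : 1 ≤ K) (hH : 0 ≤ H)
    (d1 : ∀ r ∈ Icc a b, HasDerivAt u (u' r) r)
    (d2 : ∀ r ∈ Icc a b, HasDerivAt u' (Q r * u r + h r) r)
    (hQ : ∀ r ∈ Icc a b, ‖Q r‖ ≤ K) (hh : ∀ r ∈ Icc a b, ‖h r‖ ≤ H) {r t : ℝ}
    (hr : r ∈ Icc a b) (ht : t ∈ Icc a b) :
    ‖u r‖ + ‖u' r‖ ≤ 2 * (‖u t‖ + ‖u' t‖ + H) * Real.exp (K * (b - a)) := by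
  have k := gron_two (f := fun x => (u x, u' x)) (f' := fun x => (u' x, Q x * u x + h x)) hK hH
    (fun x hx => (d1 x hx).prodMk (d2 x hx))
    (fun x hx => by
      have a1 : ‖u x‖ ≤ ‖(u x, u' x)‖ := norm_fst_le (u x, u' x)
      have a2 : ‖u' x‖ ≤ ‖(u x, u' x)‖ := norm_snd_le (u x, u' x)
      have a3 : 1 * ‖(u x, u' x)‖ ≤ K * ‖(u x, u' x)‖ :=
        mul_le_mul_of_nonneg_right hK (norm_nonneg _)
      have a4 : ‖Q x * u x‖ ≤ K * ‖(u x, u' x)‖ := by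
        rw [norm_mul]
        exact mul_le_mul (hQ x hx) a1 (norm_nonneg _) (by linarith)
      have a5 := norm_add_le (Q x * u x) (h x)
      have a6 := hh x hx
      exact norm_prod_le_iff.2 ⟨by simp only; linarith, by simp only; linarith⟩) hr ht
  have a1 : ‖u r‖ ≤ ‖(u r, u' r)‖ := norm_fst_le (u r, u' r)
  have a2 : ‖u' r‖ ≤ ‖(u r, u' r)‖ := norm_snd_le (u r, u' r)
  have a3 : ‖(u t, u' t)‖ ≤ ‖u t‖ + ‖u' t‖ :=
    norm_prod_le_iff.2 ⟨by simp only; linarith [norm_nonneg (u' t)],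
      by simp only; linarith [norm_nonneg (u t)]⟩
  have a4 : (‖(u t, u' t)‖ + H) * Real.exp (K * (b - a))
      ≤ (‖u t‖ + ‖u' t‖ + H) * Real.exp (K * (b - a)) :=
    mul_le_mul_of_nonneg_right (by linarith) (Real.exp_pos _).le
  linarith

end Pool.Agent.Lib.MP_2347b2_mp.F
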