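import Pool.Agent.Lib.MP_2347b2_mp.F.Tele
import Pool.Agent.Lib.MP_2347b2_mp.F.Cost

namespace Pool.Agent.Lib.MP_2347b2_mp.F

variable {γ l δ R : ℝ}

theorem l2b_E (hl : 0 ≤ l) (hδ : 0 ≤ δ) (n : ℕ) :
    EE γ (l + δ) n ≤ EE γ l n * (1 + δ * γ ^ 2 / nu l n ^ 3) := by
  have hl' : -1 < l := by linarith
  have hl2 : -1 < l + δ := by linarith
  have v := nu_pos hl' n
  have N := NN_pos (γ := γ) hl' n
  have N' := NN_pos (γ := γ) hl2 n
  have e := NN_sq γ l n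
  have e' := NN_sq γ (l + δ) n
  have w : nu (l + δ) n = nu l n + δ := by rw [nu, nu]; ring
  rw [w] at e'
  rw [EE, EE, w]
  clear w
  generalize nu l n = ν at *
  generalize NN γ l n = A at *
  generalize NN γ (l + δ) n = B at *
  have u0 : 0 ≤ δ * γ ^ 2 / ν ^ 3 := by positivity
  have u1 : δ * γ ^ 2 / ν ^ 3 * ν ^ 3 = δ * γ ^ 2 := div_mul_cancel₀ _ (by positivity)
  generalize δ * γ ^ 2 / ν ^ 3 = u at *
  rw [div_mul_eq_mul_div, div_le_div_iff₀ N' N]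
  refine le_of_sq_le_sq ?_ (by positivity)
  rw [mul_pow, mul_pow, e, e']
  have g := sq_nonneg γ
  have a : γ ^ 2 * δ * (2 * ν + δ) ≤ 2 * u * ν ^ 2 * (ν + δ) ^ 2 := by
    refine le_of_mul_le_mul_right ?_ v
    have : 2 * u * ν ^ 2 * (ν + δ) ^ 2 * ν = 2 * (δ * γ ^ 2) * (ν + δ) ^ 2 := by
      rw [← u1]; ring
    rw [this]
    have : 0 ≤ δ * γ ^ 2 * (3 * ν * δ + 2 * δ ^ 2) := by positivity
    linarith
  have b : 0 ≤ 2 * u * ν ^ 2 * γ ^ 2 + u ^ 2 * ν ^ 2 * ((ν + δ) ^ 2 + γ ^ 2) := by positivity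
  linarith

theorem l2b_low (hl : 0 ≤ l) (n : ℕ) : l * (l + 1) ≤ (l * (l + 1) + γ ^ 2) * EE γ l n := by
  have hl' : -1 < l := by linarith
  have v := nu_pos hl' n
  have N := NN_pos (γ := γ) hl' n
  have e := NN_sq γ l n
  have w : l + 1 ≤ nu l n := by rw [nu]; linarith [n.cast_nonneg (α := ℝ)]
  rw [EE, ← mul_div_assoc, le_div_iff₀ N]
  generalize nu l n = ν at *
  generalize NN γ l n = A at *
  refine le_of_sq_le_sq ?_ (by positivity)
  rw [mul_pow, e]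
  have g := sq_nonneg γ
  have a : l * (l + 1) ≤ ν ^ 2 := by nlinarith
  have b : 0 ≤ l * (l + 1) := by positivity
  generalize l * (l + 1) = m at *
  have c := mul_nonneg (mul_nonneg b g) (sub_nonneg.2 a)
  have d : 0 ≤ m * γ ^ 2 * ν ^ 2 + (γ ^ 2) ^ 2 * ν ^ 2 := by positivity
  linarith

theorem l2b_pre (h1 : γ ^ 2 ≤ 1) (hl : 1.7 ≤ l) (hδ : 0 ≤ δ) (hδ' : δ ≤ 0.1) (n : ℕ)
    (h : 3 ≤ (l + 1) ^ 2 - 2 * R) :
    0 < (l * (l + 1) + γ ^ 2) * EE γ l n - R ∧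
    (((l + δ) * (l + δ + 1) + γ ^ 2) * EE γ (l + δ) n - R) * EE γ (l + δ) n
      ≤ ((l * (l + 1) + γ ^ 2) * EE γ l n - R) * EE γ l n * Real.exp (δ * (1 / (l + 1) ^ 3
        + (2 * (l + 1) - 0.9 + 1 / (l + 1)) / ((l + 1) ^ 2 - R - (l + 1)))) := by
  have l0 : 0 ≤ l := by linarith
  have hl' : -1 < l := by linarith
  have hl2 : -1 < l + δ := by linarith
  have lo := l2b_low (γ := γ) l0 n
  have hE := l2b_E (γ := γ) l0 hδ n
  have E0 := EE_pos (γ := γ) hl' n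
  have E1 := EE_le_one (γ := γ) hl' n
  have F0 := EE_pos (γ := γ) hl2 n
  have F1 := EE_le_one (γ := γ) hl2 n
  have w : l + 1 ≤ nu l n := by rw [nu]; linarith [n.cast_nonneg (α := ℝ)]
  have p : 0 < l + 1 := by linarith
  have hu : δ * γ ^ 2 / nu l n ^ 3 ≤ δ * (1 / (l + 1) ^ 3) := by
    rw [mul_div_assoc]
    exact mul_le_mul_of_nonneg_left (div_le_div₀ zero_le_one h1 (by positivity)
      (pow_le_pow_left₀ p.le w 3)) hδ
  have hB : 0 < (l + 1) ^ 2 - R - (l + 1) := by nlinarith [sq_nonneg l]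
  have hA : (l + 1) ^ 2 - R - (l + 1) ≤ (l * (l + 1) + γ ^ 2) * EE γ l n - R := by linarith
  refine ⟨hB.trans_le hA, ?_⟩
  generalize EE γ l n = E at *
  generalize EE γ (l + δ) n = F at *
  have u0 : 0 ≤ δ * (1 / (l + 1) ^ 3) := by positivity
  have hF : F ≤ E * (1 + δ * (1 / (l + 1) ^ 3)) :=
    hE.trans (mul_le_mul_of_nonneg_left (by linarith) E0.le)
  have hF' : F - E ≤ δ * (1 / (l + 1) ^ 3) := by
    have := mul_le_mul_of_nonneg_right E1 u0
    linarith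
  have K0 : 0 ≤ 2 * (l + 1) - 0.9 + 1 / (l + 1) := by
    have : 0 < 1 / (l + 1) := by positivity
    linarith
  have hAt : ((l + δ) * (l + δ + 1) + γ ^ 2) * F - R
      ≤ (l * (l + 1) + γ ^ 2) * E - R + δ * (2 * (l + 1) - 0.9 + 1 / (l + 1)) := by
    have a : (l * (l + 1) + γ ^ 2) * (F - E) ≤ (l + 1) ^ 2 * (δ * (1 / (l + 1) ^ 3)) :=
      (mul_le_mul_of_nonneg_left hF' (by positivity)).trans
        (mul_le_mul_of_nonneg_right (by linarith) u0)
    have b : (l + 1) ^ 2 * (δ * (1 / (l + 1) ^ 3)) = δ * (1 / (l + 1)) := by field_simp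
    have c : δ * (2 * l + 1 + δ) * F ≤ δ * (2 * l + 1 + δ) * 1 :=
      mul_le_mul_of_nonneg_left F1 (by positivity)
    have d := mul_le_mul_of_nonneg_left hδ' hδ
    linarith
  generalize 2 * (l + 1) - 0.9 + 1 / (l + 1) = K at *
  generalize (l + 1) ^ 2 - R - (l + 1) = B at *
  generalize (l * (l + 1) + γ ^ 2) * E - R = A at *
  generalize ((l + δ) * (l + δ + 1) + γ ^ 2) * F - R = A' at *
  generalize 1 / (l + 1) ^ 3 = c at *
  have A0 : 0 < A := hB.trans_le hA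
  have x1 : A' ≤ A * Real.exp (δ * (K / B)) := by
    have a := mul_le_mul_of_nonneg_left (Real.add_one_le_exp (δ * (K / B))) A0.le
    have b : B * (δ * (K / B)) = δ * K := by field_simp
    have d := mul_le_mul_of_nonneg_right hA (show 0 ≤ δ * (K / B) by positivity)
    linarith
  have x2 : F ≤ E * Real.exp (δ * c) :=
    hF.trans (mul_le_mul_of_nonneg_left (by linarith [Real.add_one_le_exp (δ * c)]) E0.le)
  rw [mul_add, Real.exp_add]
  calc A' * F ≤ A * Real.exp (δ * (K / B)) * F := mul_le_mul_of_nonneg_right x1 F0.le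
    _ ≤ A * Real.exp (δ * (K / B)) * (E * Real.exp (δ * c)) :=
      mul_le_mul_of_nonneg_left x2 (by positivity)
    _ = _ := by ring

theorem l2b_gap (h0 : 0 < γ) (h1 : γ < 1) {k : ℕ} (hk : 2 ≤ k) (h : Deep k R) :
    2 + 3 / 4 * √(sOf γ k + 1) ≤ (sOf γ k + 1) ^ 2 - 2 * R := by
  have k1 : 1 ≤ k := by omega
  have s1 := le_sk h0 h1 k1
  have s2 := sk_le h0 h1 k1
  have s3 := sk_sq h0 h1 k1
  have g : γ ^ 2 ≤ 1 := pow_le_one₀ h0.le h1.le
  have a : √(sOf γ k + 1) ≤ √(k + 1) := Real.sqrt_le_sqrt (by linarith)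
  have b : (2 : ℝ) / k = 2 * (1 / k) := by ring
  rw [Deep] at h
  linarith

theorem l2b_ck (h0 : 0 < γ) (h1 : γ < 1) {k : ℕ} (hk : 2 ≤ k) :
    ck γ (k + 1) * Real.exp ((sOf γ (k + 1 : ℕ) - 1 - sOf γ k) * (1.9 / (sOf γ k + 1)))
      ≤ ck γ k := by
  have k1 : 1 ≤ k := by omega
  have k2 : (2 : ℝ) ≤ k := by exact_mod_cast hk
  have s1 := le_sk' h0 h1 hk
  have s2 := sk_le h0 h1 k1
  have s3 := sk_sq h0 h1 k1
  have t1 := le_sk' h0 h1 (k := k + 1) (by omega)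
  have t2 := sk_le h0 h1 (k := k + 1) (by omega)
  have t3 := sk_sq h0 h1 (k := k + 1) (by omega)
  obtain ⟨d0, -, d1, -⟩ := delta_bounds h0 h1 hk
  rw [ck, ck]
  generalize sOf γ (k + 1 : ℕ) = t at *
  generalize sOf γ k = s at *
  push_cast at t1 t2 t3 ⊢
  generalize (k : ℝ) = K at *
  have g : γ ^ 2 ≤ 1 := pow_le_one₀ h0.le h1.le
  have g0 : 0 < γ ^ 2 := by positivity
  have s0 : 0 < s := by linarith
  have t0 : 0 < t := by linarith
  have K0 : 0 < K := by linarith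
  have e0 : 0 ≤ t - 1 - s := by linarith
  have hp : 3.8 * (K ^ 2 * t ^ 2) ≤ (K + s) * (s + 1) * (s + 1) * (2 * K + 1) := by
    have a : (2 * K - 0.27) * (K + 0.73) * (K + 0.73) * (2 * K + 1)
        ≤ (K + s) * (s + 1) * (s + 1) * (2 * K + 1) := by
      have a1 : 2 * K - 0.27 ≤ K + s := by linarith
      have a2 : K + 0.73 ≤ s + 1 := by linarith
      have a3 : 0 ≤ K + 0.73 := by linarith
      exact mul_le_mul_of_nonneg_right (mul_le_mul (mul_le_mul a1 a2 a3 (by linarith)) a2 a3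
        (by positivity)) (by linarith)
    have b : K ^ 2 * t ^ 2 ≤ K ^ 2 * (K + 1) ^ 2 := by gcongr
    obtain ⟨m, rfl⟩ : ∃ m, K = 2 + m := ⟨K - 2, by ring⟩
    have m0 : 0 ≤ m := by linarith
    have c : 0 ≤ 2 + 3.9 * m + 3 * m ^ 2 + 1.3 * m ^ 3 + 0.2 * m ^ 4 := by positivity
    have d := sq_nonneg m
    linarith
  have hx : 2 * ((t - 1 - s) * (1.9 / (s + 1))) * (K ^ 2 * t ^ 2) ≤ γ ^ 2 * (2 * K + 1) := by
    have a := mul_le_mul_of_nonneg_left hp (show 0 ≤ (t - 1 - s) / (s + 1) by positivity)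
    have b : (t - 1 - s) / (s + 1) * ((K + s) * (s + 1) * (s + 1) * (2 * K + 1))
        = (t - 1 - s) * ((K + s) * (s + 1)) * (2 * K + 1) := by field_simp
    have c := mul_le_mul_of_nonneg_right d1 (show 0 ≤ 2 * K + 1 by linarith)
    have d : (t - 1 - s) / (s + 1) * (3.8 * (K ^ 2 * t ^ 2))
        = 2 * ((t - 1 - s) * (1.9 / (s + 1))) * (K ^ 2 * t ^ 2) := by ring
    linarith
  generalize (t - 1 - s) * (1.9 / (s + 1)) = x at *
  have y := Real.add_one_le_exp (-(2 * x))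
  have y0 := Real.exp_pos x
  have y1 : Real.exp (-(2 * x)) * Real.exp x ^ 2 = 1 := by
    rw [← Real.exp_nat_mul, ← Real.exp_add]; simp
  rw [div_mul_eq_mul_div, div_le_div_iff₀ t0 s0]
  refine le_of_sq_le_sq ?_ (by positivity)
  have a : (K + 1) ^ 2 * s ^ 2 ≤ (-(2 * x) + 1) * (K ^ 2 * t ^ 2) := by
    have : (K + 1) ^ 2 * s ^ 2 = K ^ 2 * t ^ 2 - γ ^ 2 * (2 * K + 1) := by rw [s3, t3]; ring
    linarith
  have b := mul_le_mul_of_nonneg_right (a.trans (mul_le_mul_of_nonneg_right y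
    (show 0 ≤ K ^ 2 * t ^ 2 by positivity))) (sq_nonneg (Real.exp x))
  have c : Real.exp (-(2 * x)) * (K ^ 2 * t ^ 2) * Real.exp x ^ 2 = (K * t) ^ 2 := by
    linear_combination (K ^ 2 * t ^ 2) * y1
  linarith

theorem l2b_log {lam σ c : ℝ} (h0 : 1.79 ≤ σ) (hl : 0 < lam) (hc : c ≤ 2 * σ)
    (h : lam + σ ≤ (2 * σ - 1) * (1 + (2 * σ - c) + (2 * σ - c) ^ 2 / 2 + (2 * σ - c) ^ 3 / 6
      + (2 * σ - c) ^ 4 / 24)) : Real.log ((lam + σ) / (2 * σ - 1)) ≤ 2 * σ - c := by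
  have p : 0 < 2 * σ - 1 := by linarith
  rw [Real.log_le_iff_le_exp (by positivity), div_le_iff₀ p, mul_comm]
  refine h.trans (mul_le_mul_of_nonneg_left ?_ p.le)
  have := Real.sum_le_exp_of_nonneg (sub_nonneg.2 hc) 5
  simp only [Finset.sum_range_succ, Finset.sum_range_zero, Nat.factorial] at this
  norm_num at this
  linarith

theorem l2b_core {lam σ : ℝ} (hl : 2.73 ≤ lam) (h0 : 0 < σ) (hσ : 2 + 3 / 4 * √lam ≤ σ ^ 2) :
    1.79 ≤ σ ∧ 0.1 + 2 * Real.log ((lam + σ) / (2 * σ - 1)) + 1 / lam ^ 2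
      + lam * ((2 * lam - 0.9 + 1 / lam) / ((lam ^ 2 + σ ^ 2) / 2 - lam)) ≤ 4 * σ := by
  have l0 : 0 < lam := by linarith
  have q : 1.652 ≤ √lam := Real.le_sqrt_of_sq_le (by linarith)
  have s2 : 3.239 ≤ σ ^ 2 := by linarith
  have s1 : 1.79 ≤ σ := le_of_sq_le_sq (by linarith) h0.le
  have up : lam ≤ 16 / 9 * (σ ^ 2 - 2) ^ 2 := by
    have := pow_le_pow_left₀ (Real.sqrt_nonneg lam) (show √lam ≤ 4 / 3 * (σ ^ 2 - 2) by linarith) 2
    rw [Real.sq_sqrt l0.le] at this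
    linarith
  have i2 : 1 / lam ^ 2 ≤ 0.135 := by
    rw [div_le_iff₀ (by positivity)]
    nlinarith
  have D : 0 < (lam ^ 2 + σ ^ 2) / 2 - lam := by nlinarith [sq_nonneg (lam - 1)]
  have e : lam * ((2 * lam - 0.9 + 1 / lam) / ((lam ^ 2 + σ ^ 2) / 2 - lam))
      = (2 * lam ^ 2 - 0.9 * lam + 1) / ((lam ^ 2 + σ ^ 2) / 2 - lam) := by
    rw [← mul_div_assoc]
    congr 1
    field_simp
  refine ⟨s1, ?_⟩
  rw [e]
  rcases le_total σ 2 with h | h
  · have T : (2 * lam ^ 2 - 0.9 * lam + 1) / ((lam ^ 2 + σ ^ 2) / 2 - lam) ≤ 5.3 := by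
      rw [div_le_iff₀ D]
      linarith [sq_nonneg (lam - 44 / 13)]
    have L := l2b_log (c := 2.77) s1 l0 (by linarith) (by
      obtain ⟨u, rfl⟩ : ∃ u, σ = 2 - u := ⟨2 - σ, by ring⟩
      have u0 : 0 ≤ u := by linarith
      have a := mul_nonneg u0 (show 0 ≤ 0.21 - u by linarith)
      have b : 0 ≤ (2 * (2 - u) - 1) * ((2 * (2 - u) - 2.77) ^ 4 / 24) :=
        mul_nonneg (by linarith) (by positivity)
      have c := pow_nonneg u0 3
      have d := pow_nonneg u0 4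
      linarith)
    linarith
  · have T : (2 * lam ^ 2 - 0.9 * lam + 1) / ((lam ^ 2 + σ ^ 2) / 2 - lam) ≤ 4.95 := by
      rw [div_le_iff₀ D]
      have := pow_le_pow_left₀ zero_le_two h 2
      linarith [sq_nonneg (lam - 81 / 19)]
    have L := l2b_log (c := 2.6) s1 l0 (by linarith) (by
      obtain ⟨u, rfl⟩ : ∃ u, σ = 2 + u := ⟨σ - 2, by ring⟩
      have u0 : 0 ≤ u := by linarith
      have b := pow_nonneg u0 2
      have c := pow_nonneg u0 3
      have d := pow_nonneg u0 4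
      have e := pow_nonneg u0 5
      linarith)
    linarith

theorem l2b_log2 {x : ℝ} (h0 : 0 ≤ x) (h1 : x < 1) :
    Real.log (1 - x) - Real.log (1 + x) ≤ -(2 * x) := by
  have p : 0 < 1 - x := by linarith
  have := Real.le_log_one_add_of_nonneg (x := 2 * x / (1 - x)) (by positivity)
  rw [show 1 + 2 * x / (1 - x) = (1 + x) / (1 - x) by field_simp; ring,
    show 2 * (2 * x / (1 - x)) / (2 * x / (1 - x) + 2) = 2 * x by field_simp; ring,
    Real.log_div (by positivity) p.ne'] at this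
  linarith

theorem l2b_deep {lam σ : ℝ} (hl : 2.73 ≤ lam) (h0 : 0 < σ) (hσ : 2 + 3 / 4 * √lam ≤ σ ^ 2)
    (hσ' : σ < lam) :
    2 * Real.log (lam ^ 2 - σ ^ 2) - 4 * Real.log (2 * lam) + 2 / lam
      + 2 * (2 * Real.log (2 * lam / (lam + σ))
        + 2 / (2 * lam + 1) * Real.log ((2 * lam - 1) * (lam + σ) / (2 * lam * (2 * σ - 1))))
      + (1 / lam ^ 3 + (2 * lam - 0.9 + 1 / lam) / ((lam ^ 2 + σ ^ 2) / 2 - lam)) ≤ 1.9 / lam := by
  have l0 : 0 < lam := by linarith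
  obtain ⟨s1, c⟩ := l2b_core hl h0 hσ
  have p : 0 < 2 * σ - 1 := by linarith
  have m : 0 < lam - σ := by linarith
  have a := l2b_log2 (x := σ / lam) (by positivity) ((div_lt_one l0).2 hσ')
  rw [show 1 - σ / lam = (lam - σ) / lam by field_simp,
    show 1 + σ / lam = (lam + σ) / lam by field_simp, Real.log_div m.ne' l0.ne',
    Real.log_div (by positivity) l0.ne'] at a
  rw [show lam ^ 2 - σ ^ 2 = (lam - σ) * (lam + σ) by ring, Real.log_mul m.ne' (by positivity),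
    Real.log_div (by positivity : 2 * lam ≠ 0) (by positivity)]
  have L0 : 0 ≤ Real.log ((lam + σ) / (2 * σ - 1)) :=
    Real.log_nonneg ((one_le_div p).2 (by linarith))
  have L1 : Real.log ((2 * lam - 1) * (lam + σ) / (2 * lam * (2 * σ - 1)))
      ≤ Real.log ((lam + σ) / (2 * σ - 1)) := by
    have : 0 < 2 * lam - 1 := by linarith
    refine Real.log_le_log (by positivity) ?_
    rw [div_le_div_iff₀ (by positivity) p]
    have : 0 ≤ (lam + σ) * (2 * σ - 1) := by positivity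
    linarith
  have L2 : 2 / (2 * lam + 1) * Real.log ((2 * lam - 1) * (lam + σ) / (2 * lam * (2 * σ - 1)))
      ≤ 1 / lam * Real.log ((lam + σ) / (2 * σ - 1)) :=
    (mul_le_mul_of_nonneg_left L1 (by positivity)).trans (mul_le_mul_of_nonneg_right
      (by rw [div_le_div_iff₀ (by positivity) l0]; linarith) L0)
  have d := mul_le_mul_of_nonneg_left c (show 0 ≤ 1 / lam by positivity)
  generalize (2 * lam - 0.9 + 1 / lam) / ((lam ^ 2 + σ ^ 2) / 2 - lam) = T at *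
  generalize Real.log ((lam + σ) / (2 * σ - 1)) = L at *
  have e : 1 / lam * (0.1 + 2 * L + 1 / lam ^ 2 + lam * T)
      = 0.1 * (1 / lam) + 2 * (1 / lam * L) + 1 / lam ^ 3 + T := by field_simp
  have e1 : 2 / lam = 2 * (1 / lam) := by ring
  have e2 : 1.9 / lam = 1.9 * (1 / lam) := by ring
  have e3 : 1 / lam * (4 * σ) = 4 * (σ / lam) := by ring
  linarith

end Pool.Agent.Lib.MP_2347b2_mp.F
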