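import Pool.Agent.Lib.MP_2347b2_mp.F.Lad2

namespace Pool.Agent.Lib.MP_2347b2_mp.F

open MeasureTheory Set Filter Topology

variable {γ : ℝ}

theorem Sp_le (h0 : 0 < γ) (h1 : γ < 1) {k : ℕ} (hk : 2 ≤ k) {R : ℝ} (hR : 0 < R) :
    Sp γ k R ≤ ck γ k * (BB γ (sOf γ k) R - BB γ (sOf γ k - 1) R) := by
  have k1 : 1 ≤ k := by omega
  have k2 : (2 : ℝ) ≤ k := by exact_mod_cast hk
  have s1 := le_sk' h0 h1 hk
  have a := summable_bt (γ := γ) (l := sOf γ k) (by linarith) hR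
  have b := summable_bt (γ := γ) (l := sOf γ k - 1) (by linarith) hR
  have t := t0_le h0 h1 k1 R
  rw [Sp, tsum_congr fun m => Tp_eq h0 h1 k1 m hR, tsum_mul_left,
    a.tsum_sub ((summable_nat_add_iff 1).2 b), BB, BB, b.tsum_eq_zero_add]
  linarith

theorem BB_nonpos (h0 : 0 < γ) (h1 : γ < 1) {k : ℕ} (hk : 2 ≤ k) {R : ℝ} (hR : 0 < R)
    (h : R + 1 ≤ k) : BB γ (sOf γ k - 1) R ≤ 0 := by
  have k1 : 1 ≤ k := by omega
  have k2 : (2 : ℝ) ≤ k := by exact_mod_cast hk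
  have s1 := le_sk' h0 h1 hk
  have s2 := sk_le h0 h1 k1
  have s3 := sk_sq h0 h1 k1
  have hl : -1 < sOf γ k - 1 := by linarith
  refine tsum_nonpos fun n => mul_nonpos_of_nonpos_of_nonneg
    (mul_nonpos_of_nonpos_of_nonneg (sub_nonpos.2 ?_) (EE_pos hl n).le) (sq_nonneg _)
  have e := EE_mono (γ := γ) hl (Nat.zero_le n)
  rw [(ground_E h0 h1 k1).2, div_le_iff₀ (by linarith)] at e
  have p := (EE_pos (γ := γ) hl n).le
  have q : (k - 1) * (k : ℝ) ≤ (sOf γ k - 1) * (sOf γ k - 1 + 1) + γ ^ 2 := by linarith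
  have := mul_le_mul_of_nonneg_right q p
  have := mul_le_mul_of_nonneg_left (show 1 ≤ EE γ (sOf γ k - 1) n * k by linarith)
    (show (0 : ℝ) ≤ k - 1 by linarith)
  linarith

/-- the telescoping sum -/
theorem tele (h0 : 0 < γ) (h1 : γ < 1) {K K' : ℕ} (hK : 1 ≤ K) (hKK : K ≤ K') {R : ℝ}
    (hR : 0 < R) (h : R ≤ K') :
    ∑ k ∈ Finset.Icc 1 K', Sp γ k R ≤ Head γ K R + ∑ k ∈ Finset.Icc (K + 1) K', MM γ k R := by
  have i : ∀ n, K ≤ n → ∑ k ∈ Finset.Icc 1 n, Sp γ k R ≤ Head γ K R +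
      ∑ k ∈ Finset.Icc (K + 1) n, MM γ k R + ck γ (n + 1) * BB γ (sOf γ (n + 1 : ℕ) - 1) R := by
    intro n hn
    induction n, hn using Nat.le_induction with
    | base => simp [Head]
    | succ n hn ih =>
      have := Sp_le h0 h1 (k := n + 1) (by omega) hR
      rw [Finset.sum_Icc_succ_top (by omega), Finset.sum_Icc_succ_top (by omega), MM]
      linarith
  have := mul_nonpos_of_nonneg_of_nonpos (show 0 ≤ ck γ (K' + 1) from
    div_nonneg (Nat.cast_nonneg _) (Real.sqrt_nonneg _))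
    (BB_nonpos h0 h1 (k := K' + 1) (by omega) hR (by push_cast; linarith))
  linarith [i K' hKK]

theorem le_BB (h0 : 0 < γ) {l R : ℝ} (hl : 0 ≤ l) (hR : 0 < R) :
    (R - (l * (l + 1) + γ ^ 2)) * DD γ l R ≤ BB γ l R := by
  have h : -1 < l := by linarith
  rw [DD, BB, ← tsum_mul_left]
  refine ((summable_DD hl hR).mul_left _).tsum_le_tsum (fun n => ?_) (summable_bt hl hR)
  have := mul_nonneg (mul_nonneg (mul_nonneg hR.le (EE_pos (γ := γ) h n).le)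
    (sub_nonneg.2 (EE_le_one (γ := γ) h n))) (sq_nonneg (ff γ l n R))
  rw [bt]
  linarith

theorem BB_le (h0 : 0 < γ) {l R : ℝ} (hl : 0 ≤ l) (hR : 0 < R) :
    BB γ l R ≤ max 0 (R * (1 + γ ^ 2 / (2 * (l + 1) ^ 2)) - (l * (l + 1) + γ ^ 2)) * DD γ l R := by
  have h : -1 < l := by linarith
  rw [DD, BB, ← tsum_mul_left]
  refine (summable_bt hl hR).tsum_le_tsum (fun n => ?_) ((summable_DD hl hR).mul_left _)
  refine le_trans ?_ (mul_le_mul_of_nonneg_right (le_max_right _ _) (by positivity))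
  have g0 : 0 ≤ γ ^ 2 / (2 * (l + 1) ^ 2) := by positivity
  have g1 : γ ^ 2 / (2 * (l + 1) ^ 2) * (2 * (l + 1) ^ 2) = γ ^ 2 :=
    div_mul_cancel₀ _ (by positivity)
  generalize γ ^ 2 / (2 * (l + 1) ^ 2) = g at g0 g1 ⊢
  have v := nu_pos h n
  have w : (l + 1) ^ 2 ≤ nu l n ^ 2 := pow_le_pow_left₀ (by linarith)
    (by rw [nu]; linarith [n.cast_nonneg (α := ℝ)]) 2
  have e : 1 ≤ (1 + g) * EE γ l n := by
    rw [EE, ← mul_div_assoc, le_div_iff₀ (NN_pos h n), one_mul]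
    refine le_of_sq_le_sq ?_ (by positivity)
    have := mul_le_mul_of_nonneg_left w g0
    have := sq_nonneg (g * nu l n)
    rw [NN_sq]
    linarith
  have := mul_nonneg (mul_nonneg (mul_nonneg hR.le (EE_pos (γ := γ) h n).le)
    (sub_nonneg.2 e)) (sq_nonneg (ff γ l n R))
  rw [bt]
  linarith

theorem DD_nonneg (γ l R : ℝ) : 0 ≤ DD γ l R := by
  exact tsum_nonneg fun n => by positivity

/-- the shift of the angular parameter -/
theorem delta_bounds (h0 : 0 < γ) (h1 : γ < 1) {k : ℕ} (hk : 2 ≤ k) :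
    sOf γ k ≤ sOf γ (k + 1 : ℕ) - 1 ∧ sOf γ (k + 1 : ℕ) - 1 ≤ k ∧
    (sOf γ (k + 1 : ℕ) - 1 - sOf γ k) * ((k + sOf γ k) * (sOf γ k + 1)) ≤ γ ^ 2 ∧
    (sOf γ (k + 1 : ℕ) - 1) * sOf γ (k + 1 : ℕ) - sOf γ k * (sOf γ k + 1) ≤ 1 / k := by
  have k1 : 1 ≤ k := by omega
  have k2 : (2 : ℝ) ≤ k := by exact_mod_cast hk
  have s1 := le_sk' h0 h1 hk
  have s2 := sk_le h0 h1 k1
  have s3 := sk_sq h0 h1 k1
  have t1 := le_sk' h0 h1 (k := k + 1) (by omega)
  have t2 := sk_le h0 h1 (k := k + 1) (by omega)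
  have t3 := sk_sq h0 h1 (k := k + 1) (by omega)
  generalize sOf γ (k + 1 : ℕ) = t at t1 t2 t3 ⊢
  generalize sOf γ k = s at s1 s2 s3 ⊢
  push_cast at t1 t2 t3
  have g : γ ^ 2 ≤ 1 := pow_le_one₀ h0.le h1.le
  refine ⟨le_sub_iff_add_le.2 (le_of_sq_le_sq (by linarith) (by linarith)), by linarith, ?_, ?_⟩
  · have := mul_nonneg (sq_nonneg (t - 1 - s)) (show 0 ≤ k + s by linarith)
    have e : (t - 1 - s) * (t + 1 + s) * (k + s) = 2 * γ ^ 2 := by
      linear_combination (k + s) * t3 - (k + s + 2) * s3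
    linarith
  · have a := mul_le_mul_of_nonneg_left (show 2 * k - 0.27 ≤ k + s by linarith) (sub_nonneg.2 s2)
    have b := mul_le_mul_of_nonneg_left (show 2 * k + 1.73 ≤ k + 1 + t by linarith)
      (sub_nonneg.2 t2)
    have p : (0 : ℝ) < 2 * k - 0.27 := by linarith
    have q : (0 : ℝ) < 2 * k + 1.73 := by linarith
    have a' := mul_le_mul_of_nonneg_left (show (k - s) * (2 * k - 0.27) ≤ 1 by linarith)
      (show 0 ≤ k * (2 * k + 1.73 : ℝ) by positivity)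
    have b' := mul_le_mul_of_nonneg_left (show (k + 1 - t) * (2 * k + 1.73) ≤ 1 by linarith)
      (show 0 ≤ k * (2 * k - 0.27 : ℝ) by positivity)
    rw [le_div_iff₀ (by linarith), show (t - 1) * t - s * (s + 1) = k - s + (k + 1 - t) by linarith]
    refine le_of_mul_le_mul_right ?_ (mul_pos p q)
    linarith

theorem ck_bounds (h0 : 0 < γ) (h1 : γ < 1) {k : ℕ} (hk : 2 ≤ k) :
    1 ≤ ck γ (k + 1) ∧ ck γ (k + 1) ≤ 1.061 ∧ ck γ (k + 1) ≤ ck γ k ∧
    ck γ k - ck γ (k + 1) ≤ (2 * k + 1) / (2 * (k ^ 2 - 1) * k * (k + 2)) := by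
  have k1 : 1 ≤ k := by omega
  have k2 : (2 : ℝ) ≤ k := by exact_mod_cast hk
  have s1 := le_sk' h0 h1 hk
  have s2 := sk_le h0 h1 k1
  have s3 := sk_sq h0 h1 k1
  have t1 := le_sk' h0 h1 (k := k + 1) (by omega)
  have t2 := sk_le h0 h1 (k := k + 1) (by omega)
  have t3 := sk_sq h0 h1 (k := k + 1) (by omega)
  rw [ck, ck]
  generalize sOf γ (k + 1 : ℕ) = t at t1 t2 t3 ⊢
  generalize sOf γ k = s at s1 s2 s3 ⊢
  push_cast at t1 t2 t3 ⊢
  have g : γ ^ 2 ≤ 1 := pow_le_one₀ h0.le h1.le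
  have g0 : 0 < γ ^ 2 := by positivity
  have s0 : 0 < s := by linarith
  have t0 : 0 < t := by linarith
  have y1 : 1 ≤ (k + 1) / t := (one_le_div t0).2 t2
  have xy : (k + 1) / t ≤ k / s := by
    rw [div_le_div_iff₀ t0 s0]
    refine le_of_sq_le_sq ?_ (by positivity)
    have := mul_nonneg g0.le (show 0 ≤ 2 * (k : ℝ) + 1 by linarith)
    rw [mul_pow, mul_pow, s3, t3]
    linarith
  refine ⟨y1, ?_, xy, ?_⟩
  · rw [div_le_iff₀ t0]
    refine le_of_sq_le_sq ?_ (by positivity)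
    have := pow_le_pow_left₀ (by norm_num) (show (3 : ℝ) ≤ k + 1 by linarith) 2
    rw [mul_pow, t3]
    linarith
  · have e : (k / s) ^ 2 - ((k + 1) / t) ^ 2 = γ ^ 2 * (2 * k + 1) / (s ^ 2 * t ^ 2) := by
      field_simp
      rw [s3, t3]
      ring
    have k3 : (0 : ℝ) < k ^ 2 - 1 := by nlinarith
    have f : γ ^ 2 * (2 * k + 1) / (s ^ 2 * t ^ 2) ≤ (2 * k + 1) / ((k ^ 2 - 1) * (k * (k + 2))) :=
      div_le_div₀ (by linarith) (mul_le_of_le_one_left (by linarith) g) (by positivity)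
        (mul_le_mul (by linarith) (by linarith) (by positivity) (by positivity))
    have := mul_le_mul_of_nonneg_left (show 2 ≤ k / s + (k + 1) / t by linarith) (sub_nonneg.2 xy)
    rw [show (2 * k + 1 : ℝ) / (2 * (k ^ 2 - 1) * k * (k + 2)) =
      (2 * k + 1) / ((k ^ 2 - 1) * (k * (k + 2))) / 2 by field_simp]
    linarith

end Pool.Agent.Lib.MP_2347b2_mp.F
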