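import Pool.Agent.Lib.MP_2347b2_mp.F.L2A
import Pool.Agent.Lib.MP_2347b2_mp.F.Tele
import Pool.Agent.Lib.MP_2347b2_mp.F.Cost
import Pool.Agent.Lib.MP_2347b2_mp.F.L2bAux

namespace Pool.Agent.Lib.MP_2347b2_mp.F

open MeasureTheory Set Filter Topology

noncomputable def Psi (lam σ : ℝ) : ℝ := 2 * Real.log (2 * lam / (lam + σ))
  + 2 / (2 * lam + 1) * Real.log ((2 * lam - 1) * (lam + σ) / (2 * lam * (2 * σ - 1)))

variable {γ l δ R : ℝ}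

theorem ff_ratio (hl : 0 ≤ l) (hδ : 0 ≤ δ) (n : ℕ) (hR : 0 < R) (h : 1 ≤ (l + 1) ^ 2 - 2 * R) :
    ff γ (l + δ) n R * c0 γ l n ≤ ff γ l n R * c0 γ (l + δ) n * R ^ δ
      * Real.exp (δ * Psi (l + 1) √((l + 1) ^ 2 - 2 * R)) := by
  rw [mul_assoc (ff γ l n R * c0 γ (l + δ) n)]
  exact l2a_ff_ratio hl hδ n hR h

theorem c0_ratio (h1 : γ ^ 2 ≤ 1) (hl : 1.7 ≤ l) (hδ : 0 ≤ δ) (hδ' : δ ≤ 0.1) (n : ℕ) :
    c0 γ (l + δ) n ^ 2 ≤ c0 γ l n ^ 2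
      * Real.exp (δ * (2 * Real.log 2 - 4 * Real.log (2 * (l + 1)) + 2 / (l + 1))) := by
  exact l2a_c0_ratio h1 hl hδ hδ' n

theorem pre_ratio (h1 : γ ^ 2 ≤ 1) (hl : 1.7 ≤ l) (hδ : 0 ≤ δ) (hδ' : δ ≤ 0.1) (n : ℕ)
    (h : 3 ≤ (l + 1) ^ 2 - 2 * R) :
    0 < (l * (l + 1) + γ ^ 2) * EE γ l n - R ∧
    (((l + δ) * (l + δ + 1) + γ ^ 2) * EE γ (l + δ) n - R) * EE γ (l + δ) n
      ≤ ((l * (l + 1) + γ ^ 2) * EE γ l n - R) * EE γ l n * Real.exp (δ * (1 / (l + 1) ^ 3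
        + (2 * (l + 1) - 0.9 + 1 / (l + 1)) / ((l + 1) ^ 2 - R - (l + 1)))) :=
  l2b_pre h1 hl hδ hδ' n h

theorem deep_ineq {lam σ : ℝ} (hl : 2.73 ≤ lam) (h0 : 0 < σ) (hσ : 2 + 3 / 4 * √lam ≤ σ ^ 2)
    (hσ' : σ < lam) :
    2 * Real.log (lam ^ 2 - σ ^ 2) - 4 * Real.log (2 * lam) + 2 / lam + 2 * Psi lam σ
      + (1 / lam ^ 3 + (2 * lam - 0.9 + 1 / lam) / ((lam ^ 2 + σ ^ 2) / 2 - lam)) ≤ 1.9 / lam :=
  l2b_deep hl h0 hσ hσ'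

theorem ck_slack (h0 : 0 < γ) (h1 : γ < 1) {k : ℕ} (hk : 2 ≤ k) :
    ck γ (k + 1) * Real.exp ((sOf γ (k + 1 : ℕ) - 1 - sOf γ k) * (1.9 / (sOf γ k + 1)))
      ≤ ck γ k :=
  l2b_ck h0 h1 hk

theorem Deep.gap (h0 : 0 < γ) (h1 : γ < 1) {k : ℕ} (hk : 2 ≤ k) (h : Deep k R) :
    2 + 3 / 4 * √(sOf γ k + 1) ≤ (sOf γ k + 1) ^ 2 - 2 * R :=
  l2b_gap h0 h1 hk h

theorem MM_gap (h0 : 0 < γ) (h1 : γ < 1) {k : ℕ} (hk : 2 ≤ k) (hR : 0 < R)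
    (gp : 2 + 3 / 4 * √(sOf γ k + 1) ≤ (sOf γ k + 1) ^ 2 - 2 * R) : MM γ k R ≤ 0 := by
  have k2 : (2 : ℝ) ≤ k := by exact_mod_cast hk
  have s1 := le_sk' h0 h1 hk
  obtain ⟨d0, -, d1, -⟩ := delta_bounds h0 h1 hk
  have sl := ck_slack h0 h1 hk
  have c1 := (ck_bounds h0 h1 hk).1
  have g : γ ^ 2 ≤ 1 := pow_le_one₀ h0.le h1.le
  rw [MM, show sOf γ (k + 1 : ℕ) - 1 = sOf γ k + (sOf γ (k + 1 : ℕ) - 1 - sOf γ k) by ring]
  have hδ : 0 ≤ sOf γ (k + 1 : ℕ) - 1 - sOf γ k := by linarith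
  generalize sOf γ (k + 1 : ℕ) - 1 - sOf γ k = δ at *
  generalize sOf γ k = l at *
  generalize ck γ (k + 1) = c' at *
  generalize ck γ k = c at *
  have hl : 1.73 ≤ l := by linarith
  have l0 : 0 ≤ l := by linarith
  have hδ' : δ ≤ 0.1 := by
    have a : 3.73 * 2.73 ≤ (k + l) * (l + 1) :=
      mul_le_mul (by linarith) (by linarith) (by norm_num) (by linarith)
    have := mul_le_mul_of_nonneg_left a hδ
    linarith
  have q : 1.6 ≤ √(l + 1) := Real.le_sqrt_of_sq_le (by linarith)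
  have h3 : 3 ≤ (l + 1) ^ 2 - 2 * R := by linarith
  have σ2 : √((l + 1) ^ 2 - 2 * R) ^ 2 = (l + 1) ^ 2 - 2 * R := Real.sq_sqrt (by linarith)
  have dp := deep_ineq (lam := l + 1) (σ := √((l + 1) ^ 2 - 2 * R)) (by linarith)
    (Real.sqrt_pos.2 (by linarith)) (by rw [σ2]; exact gp)
    ((Real.sqrt_lt' (by linarith)).2 (by linarith))
  rw [σ2, show (l + 1) ^ 2 - ((l + 1) ^ 2 - 2 * R) = 2 * R by ring,
    show ((l + 1) ^ 2 + ((l + 1) ^ 2 - 2 * R)) / 2 = (l + 1) ^ 2 - R by ring,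
    Real.log_mul two_ne_zero hR.ne'] at dp
  rw [sub_nonpos, BB, BB, ← tsum_mul_left, ← tsum_mul_left]
  refine ((summable_bt l0 hR).mul_left _).tsum_le_tsum (fun n => ?_)
    ((summable_bt (by linarith) hR).mul_left _)
  have a := ff_ratio (γ := γ) l0 hδ n hR (by linarith)
  have b := c0_ratio g (by linarith : 1.7 ≤ l) hδ hδ' n
  obtain ⟨p0, p⟩ := pre_ratio g (by linarith : 1.7 ≤ l) hδ hδ' n h3
  have f' := (ff_logder (γ := γ) (l := l + δ) (by linarith) n hR (by nlinarith)).1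
  have z := c0_pos (γ := γ) (by linarith : -1 < l) n
  have E0 := EE_pos (γ := γ) (by linarith : -1 < l) n
  rw [Real.rpow_def_of_pos hR, mul_assoc, ← Real.exp_add] at a
  rw [bt, bt]
  generalize Psi (l + 1) √((l + 1) ^ 2 - 2 * R) = P at *
  generalize 1 / (l + 1) ^ 3
    + (2 * (l + 1) - 0.9 + 1 / (l + 1)) / ((l + 1) ^ 2 - R - (l + 1)) = T at *
  generalize ff γ (l + δ) n R = f2 at *
  generalize ff γ l n R = f1 at *
  generalize c0 γ (l + δ) n = z2 at *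
  generalize c0 γ l n = z1 at *
  have a2 := pow_le_pow_left₀ (mul_pos f' z).le a 2
  rw [mul_pow, mul_pow, mul_pow, ← Real.exp_nat_mul] at a2
  have a3 : f2 ^ 2 ≤ f1 ^ 2 * (Real.exp (δ * (2 * Real.log 2 - 4 * Real.log (2 * (l + 1))
      + 2 / (l + 1))) * Real.exp ((2 : ℕ) * (Real.log R * δ + δ * P))) := by
    refine le_of_mul_le_mul_right (a2.trans ?_) (pow_pos z 2)
    have := mul_le_mul_of_nonneg_left b (show 0 ≤ f1 ^ 2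
      * Real.exp ((2 : ℕ) * (Real.log R * δ + δ * P)) by positivity)
    linarith
  rw [← Real.exp_add] at a3
  have a4 := mul_le_mul p a3 (sq_nonneg _) (by positivity)
  rw [mul_mul_mul_comm, ← Real.exp_add] at a4
  have a5 : Real.exp (δ * T + (δ * (2 * Real.log 2 - 4 * Real.log (2 * (l + 1)) + 2 / (l + 1))
      + (2 : ℕ) * (Real.log R * δ + δ * P))) ≤ Real.exp (δ * (1.9 / (l + 1))) := by
    refine Real.exp_le_exp.2 ?_
    have := mul_le_mul_of_nonneg_left dp hδ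
    push_cast
    linarith
  have w0 : 0 ≤ ((l * (l + 1) + γ ^ 2) * EE γ l n - R) * EE γ l n * f1 ^ 2 := by positivity
  have a6 := mul_le_mul_of_nonneg_left (a4.trans (mul_le_mul_of_nonneg_left a5 w0))
    (zero_le_one.trans c1)
  have a7 := mul_le_mul_of_nonneg_left sl w0
  linarith

theorem MM_deep (h0 : 0 < γ) (h1 : γ < 1) {k : ℕ} (hk : 2 ≤ k) (hR : 0 < R) (h : Deep k R) :
    MM γ k R ≤ 0 :=
  MM_gap h0 h1 hk hR (Deep.gap h0 h1 hk h)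

end Pool.Agent.Lib.MP_2347b2_mp.F
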