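import Pool.Agent.Lib.MP_2347b2_mp.F.Env

namespace Pool.Agent.Lib.MP_2347b2_mp.F

open MeasureTheory Set Filter Topology

variable {γ l δ R : ℝ}

theorem l2a_log_c0 (hl : -1 < l) (n : ℕ) : Real.log (c0 γ l n ^ 2)
    = (2 * l + 2) * (Real.log 2 - Real.log (NN γ l n)) + Real.log (Real.Gamma (n + 2 * l + 2))
      - Real.log (n.factorial : ℝ) - 2 * Real.log (Real.Gamma (2 * l + 2))
      - Real.log (NN γ l n) - Real.log (nu l n) := by
  have hN := NN_pos (γ := γ) hl n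
  have hν := nu_pos hl n
  have h1 := eig_Gamma_pos hl n
  have h2 : 0 < Real.Gamma (2 * l + 2) := Real.Gamma_pos_of_pos (by linarith)
  have h3 : (0 : ℝ) < n.factorial := by exact_mod_cast n.factorial_pos
  have h4 : 0 < 2 / NN γ l n := by positivity
  have h5 := Real.rpow_pos_of_pos h4 (2 * l + 2)
  rw [c0_sq hl n, Real.log_div (by positivity) (by positivity), Real.log_mul h5.ne' h1.ne',
    Real.log_mul (by positivity) hν.ne', Real.log_mul (by positivity) hN.ne',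
    Real.log_mul h3.ne' (by positivity), Real.log_rpow h4, Real.log_div two_ne_zero hN.ne',
    Real.log_pow]
  push_cast
  ring

theorem l2a_log_ge {a b : ℝ} (ha : 0 < a) (hb : 0 < b) : (b - a) / b ≤ Real.log b - Real.log a := by
  have := Real.log_le_sub_one_of_pos (div_pos ha hb)
  rw [Real.log_div ha.ne' hb.ne'] at this
  have e : (b - a) / b = 1 - a / b := by field_simp
  linarith

theorem l2a_log_le {a b : ℝ} (ha : 0 < a) (hb : 0 < b) : Real.log b - Real.log a ≤ (b - a) / a := by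
  have := Real.log_le_sub_one_of_pos (div_pos hb ha)
  rw [Real.log_div hb.ne' ha.ne'] at this
  have e : (b - a) / a = b / a - 1 := by field_simp
  linarith

theorem l2a_c0_ratio (h1 : γ ^ 2 ≤ 1) (hl : 1.7 ≤ l) (hδ : 0 ≤ δ) (hδ' : δ ≤ 0.1) (n : ℕ) :
    c0 γ (l + δ) n ^ 2 ≤ c0 γ l n ^ 2
      * Real.exp (δ * (2 * Real.log 2 - 4 * Real.log (2 * (l + 1)) + 2 / (l + 1))) := by
  have hl' : -1 < l := by linarith
  have hm : -1 < l + δ := by linarith
  have p1 := pow_pos (c0_pos (γ := γ) hl' n) 2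
  have p2 := pow_pos (c0_pos (γ := γ) hm n) 2
  rw [← Real.exp_log p1, ← Real.exp_log p2, ← Real.exp_add, Real.exp_le_exp, l2a_log_c0 hl',
    l2a_log_c0 hm]
  have hn : (0 : ℝ) ≤ n := Nat.cast_nonneg n
  have hN := NN_pos (γ := γ) hl' n
  have hM := NN_pos (γ := γ) hm n
  have sN := NN_sq γ l n
  have sM := NN_sq γ (l + δ) n
  have hνM := nu_le_NN γ hm n
  have eν : nu (l + δ) n = nu l n + δ := by rw [nu, nu]; ring
  have hν : l + 1 ≤ nu l n := by rw [nu]; linarith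
  have en : (n : ℝ) + 2 * l + 2 = nu l n + (l + 1) := by rw [nu]; ring
  have g1 : Real.log (Real.Gamma (n + 2 * (l + δ) + 2))
      ≤ Real.log (Real.Gamma (n + 2 * l + 2)) + 2 * δ * Real.log (nu l n + (l + 1)) := by
    have hx : 0 < (n : ℝ) + 2 * l + 2 := by linarith
    have a := Gamma_shift_le (a := 2 * δ) hx (by linarith) (by linarith)
    have e : (n : ℝ) + 2 * (l + δ) + 2 = n + 2 * l + 2 + 2 * δ := by ring
    have b := Real.log_le_log (Real.Gamma_pos_of_pos (by linarith)) a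
    rw [Real.log_mul (Real.Gamma_pos_of_pos hx).ne' (Real.rpow_pos_of_pos hx _).ne',
      Real.log_rpow hx] at b
    rw [e, ← en]
    exact b
  have g2 : Real.log (Real.Gamma (2 * l + 2)) + 2 * δ * Real.log (2 * (l + 1)) - δ / (l + 1)
      ≤ Real.log (Real.Gamma (2 * (l + δ) + 2)) := by
    have hx : 0 < 2 * l + 2 := by linarith
    have hy : 0 < 2 * l + 2 + 2 * δ := by linarith
    have a := le_Gamma_shift' (a := 2 * δ) hx (by linarith) (by linarith)
    have e : 2 * (l + δ) + 2 = 2 * l + 2 + 2 * δ := by ring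
    have hG := Real.Gamma_pos_of_pos hx
    have hp := Real.rpow_pos_of_pos hy (2 * δ - 1)
    have b := Real.log_le_log (by positivity) a
    rw [Real.log_mul (by positivity) hp.ne', Real.log_mul hG.ne' hx.ne', Real.log_rpow hy] at b
    have c := l2a_log_le hx hy
    have c' : (2 * l + 2 + 2 * δ - (2 * l + 2)) / (2 * l + 2) = δ / (l + 1) := by
      have : 0 < l + 1 := by linarith
      field_simp
      ring
    have d : Real.log (2 * l + 2) ≤ Real.log (2 * l + 2 + 2 * δ) :=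
      Real.log_le_log hx (by linarith)
    have e2 : 2 * (l + 1) = 2 * l + 2 := by ring
    rw [e, e2]
    rw [c'] at c
    nlinarith [mul_nonneg hδ (sub_nonneg.2 d)]
  rw [eν] at sM hνM ⊢
  clear eν p1 p2
  generalize nu l n = ν at *
  generalize NN γ l n = N at *
  generalize NN γ (l + δ) n = M at *
  have hν0 : 0 < ν := by linarith
  have k1 : Real.log (ν + (l + 1)) - Real.log M ≤ (l + 1) / ν := by
    have a := l2a_log_le hν0 (by linarith : 0 < ν + (l + 1))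
    have b : Real.log ν ≤ Real.log M := Real.log_le_log hν0 (by linarith)
    have e : ν + (l + 1) - ν = l + 1 := by ring
    rw [e] at a
    linarith
  have k2 : δ * ν / M ^ 2 ≤ Real.log M - Real.log N := by
    have a := l2a_log_ge (pow_pos hN 2) (pow_pos hM 2)
    rw [Real.log_pow, Real.log_pow] at a
    have b : 2 * (δ * ν / M ^ 2) ≤ (M ^ 2 - N ^ 2) / M ^ 2 := by
      rw [← mul_div_assoc]
      exact div_le_div_of_nonneg_right (by nlinarith [sq_nonneg δ]) (sq_nonneg _)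
    push_cast at a
    linarith
  have k3 : δ * ν / M ^ 2 ≤ Real.log (ν + δ) - Real.log ν := by
    have a := l2a_log_ge hν0 (by linarith : 0 < ν + δ)
    refine le_trans ?_ a
    rw [div_le_div_iff₀ (pow_pos hM 2) (by linarith)]
    have : ν * (ν + δ) ≤ M ^ 2 := by nlinarith [sq_nonneg γ]
    nlinarith [mul_le_mul_of_nonneg_left this hδ]
  have k4 : 2 * ((l + 1) / ν) ≤ (2 * l + 4) * (ν / M ^ 2) := by
    rw [← mul_div_assoc, ← mul_div_assoc, div_le_div_iff₀ hν0 (pow_pos hM 2)]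
    have a : M ^ 2 ≤ ν ^ 2 + (0.2 * ν + 1.01) := by nlinarith
    have b : (l + 1) * (0.2 * ν + 1.01) ≤ ν * ν := mul_le_mul hν (by linarith) (by linarith) hν0.le
    nlinarith [mul_le_mul_of_nonneg_left a (by linarith : 0 ≤ l + 1)]
  have k5 := mul_le_mul_of_nonneg_left k4 hδ
  have k6 := mul_le_mul_of_nonneg_left k1 hδ
  have k7 := mul_le_mul_of_nonneg_left k2 (by linarith : 0 ≤ 2 * l + 3)
  have e1 : δ * ν / M ^ 2 = δ * (ν / M ^ 2) := mul_div_assoc _ _ _
  have e2 : δ * (2 / (l + 1)) = 2 * (δ / (l + 1)) := by ring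
  rw [e1] at k3 k7
  linarith

/-- the comparison factor -/
noncomputable def l2aP (lam σ : ℝ) : ℝ := 2 * Real.log (2 * lam / (lam + σ))
  + 2 / (2 * lam + 1) * Real.log ((2 * lam - 1) * (lam + σ) / (2 * lam * (2 * σ - 1)))

noncomputable def l2aS (l r : ℝ) : ℝ := √((l + 1) ^ 2 - 2 * r)

noncomputable def l2aH (l δ r : ℝ) : ℝ := r ^ δ * Real.exp (δ * l2aP (l + 1) (l2aS l r))

noncomputable def l2aK (l δ r : ℝ) : ℝ := δ * (2 * l + 1) / (2 * l2aS l r - 1)

theorem l2aS_facts (hl : 0 ≤ l) {r : ℝ} (hr : 0 ≤ r) (h : 1 ≤ (l + 1) ^ 2 - 2 * r) :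
    1 ≤ l2aS l r ∧ l2aS l r ≤ l + 1 ∧ l2aS l r ^ 2 = (l + 1) ^ 2 - 2 * r := by
  refine ⟨Real.one_le_sqrt.2 h, Real.sqrt_le_iff.2 ⟨by linarith, by linarith⟩,
    Real.sq_sqrt (by linarith)⟩

theorem l2aS_deriv {r : ℝ} (h : 1 ≤ (l + 1) ^ 2 - 2 * r) :
    HasDerivAt (l2aS l) (-1 / l2aS l r) r := by
  have h0 : 0 < (l + 1) ^ 2 - 2 * r := by linarith
  have h3 := (((hasDerivAt_id' r).const_mul 2).const_sub ((l + 1) ^ 2)).sqrt h0.ne'
  refine h3.congr_deriv ?_
  have : 0 < √((l + 1) ^ 2 - 2 * r) := Real.sqrt_pos.2 h0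
  rw [l2aS]
  field_simp

theorem l2aP_deriv {lam σ : ℝ} (hl : 1 ≤ lam) (hσ : 1 ≤ σ) :
    HasDerivAt (l2aP lam) (-(4 * σ) / ((lam + σ) * (2 * σ - 1))) σ := by
  have a1 : 0 < lam + σ := by linarith
  have a2 : 0 < 2 * σ - 1 := by linarith
  have a3 : 0 < 2 * lam - 1 := by linarith
  have a4 : 0 < lam := by linarith
  have hi := hasDerivAt_id' σ
  have d1 := ((hasDerivAt_const σ (2 * lam)).fun_div (hi.const_add lam) a1.ne').log
    (by positivity : 2 * lam / (lam + σ) ≠ 0)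
  have d2 := (((hi.const_add lam).const_mul (2 * lam - 1)).fun_div
    (((hi.const_mul 2).sub_const 1).const_mul (2 * lam)) (by positivity)).log
    (by positivity : (2 * lam - 1) * (lam + σ) / (2 * lam * (2 * σ - 1)) ≠ 0)
  refine ((d1.const_mul 2).fun_add (d2.const_mul (2 / (2 * lam + 1)))).congr_deriv ?_
  have a5 : 0 < 2 * lam + 1 := by linarith
  field_simp
  ring

theorem l2aH_deriv (hl : 0 ≤ l) (δ : ℝ) {r : ℝ} (hr : 0 < r) (h : 1 ≤ (l + 1) ^ 2 - 2 * r) :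
    HasDerivAt (l2aH l δ) (l2aK l δ r / r * l2aH l δ r) r := by
  obtain ⟨s1, s2, s3⟩ := l2aS_facts hl hr.le h
  have d1 := (l2aP_deriv (lam := l + 1) (by linarith) s1).comp r (l2aS_deriv h)
  have d2 := (Real.hasDerivAt_rpow_const (p := δ) (Or.inl hr.ne')).fun_mul (d1.const_mul δ).exp
  refine d2.congr_deriv ?_
  rw [Real.rpow_sub_one hr.ne', l2aH, l2aK]
  simp only [Function.comp]
  generalize l2aS l r = σ at *
  generalize Real.exp (δ * l2aP (l + 1) σ) = e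
  generalize r ^ δ = p
  have a1 : 0 < l + 1 + σ := by linarith
  have a2 : 0 < 2 * σ - 1 := by linarith
  have a3 : 0 < σ := by linarith
  have e1 : -(4 * σ) / ((l + 1 + σ) * (2 * σ - 1)) * (-1 / σ)
      = 2 * (l + 1 - σ) / (r * (2 * σ - 1)) := by
    rw [div_mul_div_comm, div_eq_div_iff (by positivity) (by positivity)]
    linear_combination (2 * σ * (2 * σ - 1)) * s3
  have e2 : δ * (2 * l + 1) / (2 * σ - 1) = δ + δ * (2 * (l + 1 - σ)) / (2 * σ - 1) := by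
    rw [add_div' _ _ _ a2.ne']
    ring
  rw [e1, e2]
  generalize 2 * σ - 1 = u at *
  field_simp

theorem l2aK_deriv (hl : 0 ≤ l) (δ : ℝ) {r : ℝ} (hr : 0 < r) (h : 1 ≤ (l + 1) ^ 2 - 2 * r) :
    HasDerivAt (l2aK l δ) (2 * δ * (2 * l + 1) / (l2aS l r * (2 * l2aS l r - 1) ^ 2)) r := by
  obtain ⟨s1, -, -⟩ := l2aS_facts hl hr.le h
  have a2 : 0 < 2 * l2aS l r - 1 := by linarith
  have a3 : 0 < l2aS l r := by linarith
  refine ((hasDerivAt_const r (δ * (2 * l + 1))).fun_div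
    (((l2aS_deriv h).const_mul 2).sub_const 1) a2.ne').congr_deriv ?_
  field_simp
  ring

theorem l2aS_lim (hl : 0 ≤ l) : Tendsto (l2aS l) (𝓝[>] 0) (𝓝 (l + 1)) := by
  have c : Tendsto (l2aS l) (𝓝[>] 0) (𝓝 (l2aS l 0)) :=
    ((by unfold l2aS; fun_prop : Continuous (l2aS l)).tendsto 0).mono_left nhdsWithin_le_nhds
  have e : l2aS l 0 = l + 1 := by
    rw [l2aS, mul_zero, sub_zero, Real.sqrt_sq (by linarith)]
  rwa [e] at c

theorem l2aE_lim (hl : 0 ≤ l) (δ : ℝ) :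
    Tendsto (fun r => Real.exp (δ * l2aP (l + 1) (l2aS l r))) (𝓝[>] 0) (𝓝 1) := by
  have c := (l2aP_deriv (lam := l + 1) (σ := l + 1) (by linarith) (by linarith)).continuousAt
  have e : l2aP (l + 1) (l + 1) = 0 := by
    have a4 : 0 < l + 1 := by linarith
    have a3 : 0 < 2 * (l + 1) - 1 := by linarith
    have e1 : 2 * (l + 1) / (l + 1 + (l + 1)) = 1 := by field_simp; ring
    have e2 : (2 * (l + 1) - 1) * (l + 1 + (l + 1)) / (2 * (l + 1) * (2 * (l + 1) - 1)) = 1 := by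
      field_simp; ring
    rw [l2aP, e1, e2]
    simp
  have t := (Real.continuous_exp.tendsto _).comp ((c.tendsto.comp (l2aS_lim hl)).const_mul δ)
  rw [e, mul_zero, Real.exp_zero] at t
  exact t

theorem l2a_EE_le (hl : 0 ≤ l) (hδ : 0 ≤ δ) (n : ℕ) :
    ep γ l n ≤ ep γ (l + δ) n ∧ EE γ l n ≤ EE γ (l + δ) n := by
  have hl' : -1 < l := by linarith
  have hm : -1 < l + δ := by linarith
  have h : ep γ l n ≤ ep γ (l + δ) n := by
    have hν := nu_pos hl' n
    have eν : nu (l + δ) n = nu l n + δ := by rw [nu, nu]; ring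
    rw [ep, ep, neg_div, neg_div, neg_le_neg_iff]
    refine one_div_le_one_div_of_le (pow_pos (NN_pos hl' n) 2) ?_
    rw [NN_sq, NN_sq, eν]
    nlinarith
  refine ⟨h, (abs_le_of_sq_le_sq' ?_ (EE_pos hm n).le).2⟩
  rw [EE_sq hl', EE_sq hm]
  nlinarith [sq_nonneg γ]

/-- the Wronskian of the comparison function and the shifted eigenfunction -/
noncomputable def l2aV (γ l δ : ℝ) (n : ℕ) (r : ℝ) : ℝ :=
  l2aH l δ r * (fd γ l n r * ff γ (l + δ) n r - ff γ l n r * fd γ (l + δ) n r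
    + l2aK l δ r * (ff γ l n r / r * ff γ (l + δ) n r))

theorem l2aV_nonneg (hl : 0 ≤ l) (hδ : 0 ≤ δ) (n : ℕ) (h : 1 ≤ (l + 1) ^ 2 - 2 * R) :
    ∀ r ∈ Ioc 0 R, 0 ≤ l2aV γ l δ n r := by
  have hl' : -1 < l := by linarith
  have hm : -1 < l + δ := by linarith
  have hm0 : 0 ≤ l + δ := by linarith
  have hd : ∀ r ∈ Ioc 0 R, HasDerivAt (l2aV γ l δ n)
      (l2aH l δ r * ff γ (l + δ) n r / r ^ 2 * (ff γ l n r
        * (r ^ 2 * (QQ γ l n r - QQ γ (l + δ) n r)
          + r * (2 * δ * (2 * l + 1) / (l2aS l r * (2 * l2aS l r - 1) ^ 2))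
          + l2aK l δ r ^ 2 - l2aK l δ r) + 2 * l2aK l δ r * (r * fd γ l n r))) r := fun r hr => by
    have h' : 1 ≤ (l + 1) ^ 2 - 2 * r := by linarith [hr.2]
    have f1 := ff_deriv (γ := γ) hl' n hr.1
    have f2 := fd_deriv (γ := γ) hl' n hr.1
    have t1 := ff_deriv (γ := γ) hm n hr.1
    have t2 := fd_deriv (γ := γ) hm n hr.1
    refine ((l2aH_deriv hl δ hr.1 h').fun_mul (((f2.fun_mul t1).fun_sub (f1.fun_mul t2)).fun_add
      ((l2aK_deriv hl δ hr.1 h').fun_mul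
        ((f1.fun_div (hasDerivAt_id' r) hr.1.ne').fun_mul t1)))).congr_deriv ?_
    have := hr.1
    generalize 2 * δ * (2 * l + 1) / (l2aS l r * (2 * l2aS l r - 1) ^ 2) = k'
    field_simp
    ring
  refine env_ge (fun r hr => (hd r hr).continuousAt.continuousWithinAt)
    (fun r hr => hd r (Ioo_subset_Ioc_self hr)) (fun r hr => ?_) ?_
  · have hr0 := hr.1
    have h' : 1 ≤ (l + 1) ^ 2 - 2 * r := by linarith [hr.2]
    obtain ⟨s1, s2, s3⟩ := l2aS_facts hl hr0.le h'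
    obtain ⟨f0, f1⟩ := ff_logder (γ := γ) hl n hr0 (by linarith)
    have t0 := (ff_logder (γ := γ) hm0 n hr0 (by nlinarith)).1
    obtain ⟨e1, e2⟩ := l2a_EE_le (γ := γ) hl hδ n
    have hH : 0 < l2aH l δ r := mul_pos (Real.rpow_pos_of_pos hr0 _) (Real.exp_pos _)
    refine mul_nonneg (by positivity) ?_
    have a2 : 0 < 2 * l2aS l r - 1 := by linarith
    have q : -(δ * (2 * l + 1 + δ)) ≤ r ^ 2 * (QQ γ l n r - QQ γ (l + δ) n r) := by
      have e : r ^ 2 * (QQ γ l n r - QQ γ (l + δ) n r) = -(δ * (2 * l + 1 + δ))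
          + 2 * (EE γ (l + δ) n - EE γ l n) * r + (ep γ (l + δ) n - ep γ l n) * r ^ 2 := by
        rw [QQ, QQ]; field_simp; ring
      rw [e]
      nlinarith [mul_nonneg (sub_nonneg.2 e2) hr0.le, mul_nonneg (sub_nonneg.2 e1) (sq_nonneg r)]
    have k0 : 0 ≤ r * (2 * δ * (2 * l + 1) / (l2aS l r * (2 * l2aS l r - 1) ^ 2)) := by
      have : 0 < l2aS l r := by linarith
      positivity
    have k1 : l2aK l δ r * (2 * l2aS l r - 1) = δ * (2 * l + 1) := by rw [l2aK]; field_simp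
    have k2 : δ ≤ l2aK l δ r := by
      rw [l2aK, le_div_iff₀ a2]
      exact mul_le_mul_of_nonneg_left (by linarith) hδ
    have k3 : δ ^ 2 ≤ l2aK l δ r ^ 2 := pow_le_pow_left₀ hδ k2 2
    have k4 := mul_le_mul_of_nonneg_left f1 (hδ.trans k2)
    change l2aK l δ r * (l2aS l r * ff γ l n r) ≤ _ at k4
    generalize r * (2 * δ * (2 * l + 1) / (l2aS l r * (2 * l2aS l r - 1) ^ 2)) = A at *
    generalize r ^ 2 * (QQ γ l n r - QQ γ (l + δ) n r) = B at *
    have k5 : 0 ≤ ff γ l n r * (B + A + l2aK l δ r ^ 2 - l2aK l δ r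
        + 2 * l2aK l δ r * l2aS l r) := mul_nonneg f0.le (by nlinarith)
    nlinarith
  · have c1 : Tendsto (l2aH l δ) (𝓝[>] 0) (𝓝 ((0 : ℝ) ^ δ * 1)) :=
      (env_rpow hδ).mul (l2aE_lim hl δ)
    have c2 : Tendsto (l2aK l δ) (𝓝[>] 0) (𝓝 (δ * (2 * l + 1) / (2 * (l + 1) - 1))) :=
      tendsto_const_nhds.div (((l2aS_lim hl).const_mul 2).sub_const 1) (by linarith)
    have t := c1.mul ((((env_fd (γ := γ) hl n).mul (env_f (γ := γ) hm0 n)).sub
      ((env_f (γ := γ) hl n).mul (env_fd (γ := γ) hm0 n))).add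
      (c2.mul ((env_f_div (γ := γ) hl n).mul (env_f (γ := γ) hm0 n))))
    simp only [mul_zero, zero_mul, sub_zero, add_zero] at t
    exact t

theorem l2a_ff_ratio (hl : 0 ≤ l) (hδ : 0 ≤ δ) (n : ℕ) (hR : 0 < R)
    (h : 1 ≤ (l + 1) ^ 2 - 2 * R) :
    ff γ (l + δ) n R * c0 γ l n ≤ ff γ l n R * c0 γ (l + δ) n * l2aH l δ R := by
  have hl' : -1 < l := by linarith
  have hm : -1 < l + δ := by linarith
  have hm0 : 0 ≤ l + δ := by linarith
  have t0 : ∀ r ∈ Ioc 0 R, 0 < ff γ (l + δ) n r := fun r hr =>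
    (ff_logder (γ := γ) hm0 n hr.1 (by nlinarith [hr.2])).1
  have hd : ∀ r ∈ Ioc 0 R, HasDerivAt (fun r => ff γ l n r * l2aH l δ r / ff γ (l + δ) n r)
      (l2aV γ l δ n r / ff γ (l + δ) n r ^ 2) r := fun r hr => by
    have h' : 1 ≤ (l + 1) ^ 2 - 2 * r := by linarith [hr.2]
    refine (((ff_deriv (γ := γ) hl' n hr.1).fun_mul (l2aH_deriv hl δ hr.1 h')).fun_div
      (ff_deriv (γ := γ) hm n hr.1) (t0 r hr).ne').congr_deriv ?_
    rw [l2aV]
    ring
  have cp := c0_pos (γ := γ) hm n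
  have lim : Tendsto (fun r => ff γ l n r * l2aH l δ r / ff γ (l + δ) n r) (𝓝[>] 0)
      (𝓝 (c0 γ l n * 1 / c0 γ (l + δ) n)) := by
    refine (((ff_lim (γ := γ) hl' n).mul (l2aE_lim hl δ)).div (ff_lim (γ := γ) hm n)
      cp.ne').congr' ?_
    filter_upwards [Ioo_mem_nhdsGT hR] with r hr
    have a := t0 r (Ioo_subset_Ioc_self hr)
    have b := Real.rpow_pos_of_pos hr.1 (l + 1)
    have c := Real.rpow_pos_of_pos hr.1 δ
    have e : r ^ (l + δ + 1) = r ^ (l + 1) * r ^ δ := by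
      rw [← Real.rpow_add hr.1]; ring_nf
    simp only [Pi.div_apply, l2aH]
    rw [e]
    field_simp
  have := env_ge (fun r hr => (hd r hr).continuousAt.continuousWithinAt)
    (fun r hr => hd r (Ioo_subset_Ioc_self hr))
    (fun r hr => div_nonneg (l2aV_nonneg hl hδ n h r (Ioo_subset_Ioc_self hr)) (sq_nonneg _))
    lim R ⟨hR, le_rfl⟩
  rw [div_le_div_iff₀ cp (t0 R ⟨hR, le_rfl⟩)] at this
  linarith

end Pool.Agent.Lib.MP_2347b2_mp.F
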