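import Pool.Agent.Lib.MP_2347b2_mp.F.Defs

namespace Pool.Agent.Lib.MP_2347b2_mp.F

open MeasureTheory Set Filter Topology

/-- the rising factorial over the factorial -/
noncomputable def lgR (c : ℝ) (m : ℕ) : ℝ := (∏ i ∈ Finset.range m, (c + i)) / (m.factorial : ℝ)

/-- the scaled power -/
noncomputable def lgE (j : ℕ) (x : ℝ) : ℝ := (-x) ^ j / (j.factorial : ℝ)

theorem lgR_zero (c : ℝ) : lgR c 0 = 1 := by simp [lgR]

theorem lgR_one (c : ℝ) (m : ℕ) : (m + 1) * lgR c (m + 1) = (c + m) * lgR c m := by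
  have : (m.factorial : ℝ) ≠ 0 := by positivity
  rw [lgR, lgR, Finset.prod_range_succ, Nat.factorial_succ]
  push_cast
  field_simp

theorem lgR_two (c : ℝ) (m : ℕ) : (m + 1) * lgR c (m + 1) = c * lgR (c + 1) m := by
  have : (m.factorial : ℝ) ≠ 0 := by positivity
  have e : ∏ i ∈ Finset.range m, (c + ((i + 1 : ℕ) : ℝ)) = ∏ i ∈ Finset.range m, (c + 1 + i) :=
    Finset.prod_congr rfl fun i _ => by push_cast; ring
  rw [lgR, lgR, Finset.prod_range_succ', Nat.factorial_succ, e]
  push_cast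
  field_simp
  ring

theorem lgR_pascal (c : ℝ) (m : ℕ) : lgR (c + 1) (m + 1) = lgR (c + 1) m + lgR c (m + 1) := by
  refine mul_left_cancel₀ (show (m : ℝ) + 1 ≠ 0 by positivity) ?_
  rw [mul_add, lgR_one, lgR_two]
  ring

theorem lgR_pos {c : ℝ} (hc : 0 < c) (m : ℕ) : 0 < lgR c m :=
  div_pos (Finset.prod_pos fun i _ => by positivity) (by positivity)

theorem lgE_zero (x : ℝ) : lgE 0 x = 1 := by simp [lgE]

theorem lgE_succ (j : ℕ) (x : ℝ) : (j + 1) * lgE (j + 1) x = -x * lgE j x := by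
  have : (j.factorial : ℝ) ≠ 0 := by positivity
  rw [lgE, lgE, pow_succ, Nat.factorial_succ]
  push_cast
  field_simp

theorem lgE_deriv (j : ℕ) (x : ℝ) : HasDerivAt (lgE (j + 1)) (-lgE j x) x := by
  have : (j.factorial : ℝ) ≠ 0 := by positivity
  refine (((hasDerivAt_neg x).fun_pow (j + 1)).div_const ((j + 1).factorial : ℝ)).congr_deriv ?_
  rw [lgE, Nat.factorial_succ, Nat.add_sub_cancel]
  push_cast
  field_simp

theorem lag_eq (α : ℝ) (n : ℕ) (x : ℝ) :
    lag α n x = ∑ j ∈ Finset.range (n + 1), lgR (α + j + 1) (n - j) * lgE j x := by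
  refine Finset.sum_congr rfl fun j _ => ?_
  rw [lgR, lgE, neg_pow x]
  ring

theorem lag_eq' (α : ℝ) (n : ℕ) (x : ℝ) : lag α (n + 1) x =
    ∑ j ∈ Finset.range (n + 1), lgR (α + 1 + j + 1) (n - j) * lgE (j + 1) x
      + lgR (α + 1) (n + 1) := by
  rw [lag_eq, Finset.sum_range_succ', lgE_zero]
  simp only [Nat.add_sub_add_right, Nat.cast_zero, add_zero, Nat.sub_zero, mul_one, add_left_inj]
  refine Finset.sum_congr rfl fun j _ => ?_
  rw [show α + ((j + 1 : ℕ) : ℝ) + 1 = α + 1 + j + 1 by push_cast; ring]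

theorem lag_zero (α x : ℝ) : lag α 0 x = 1 := by
  simp [lag]

theorem lag_one (α x : ℝ) : lag α 1 x = 1 + α - x := by
  simp [lag, Finset.sum_range_succ]
  ring

theorem lag_pascal (α : ℝ) (n : ℕ) (x : ℝ) :
    lag (α + 1) (n + 1) x = lag (α + 1) n x + lag α (n + 1) x := by
  rw [lag_eq, lag_eq, lag_eq, Finset.sum_range_succ _ (n + 1), Finset.sum_range_succ _ (n + 1),
    Nat.sub_self, lgR_zero, lgR_zero, ← add_assoc, ← Finset.sum_add_distrib, add_left_inj]
  refine Finset.sum_congr rfl fun j hj => ?_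
  rw [Nat.succ_sub (Nat.lt_succ_iff.1 (Finset.mem_range.1 hj)), ← add_mul,
    show α + 1 + j + 1 = α + j + 1 + 1 by ring, lgR_pascal]

theorem lag_shift (α : ℝ) (n : ℕ) (x : ℝ) :
    x * lag (α + 1) n x = (n + 1 + α) * lag α n x - (n + 1) * lag α (n + 1) x := by
  have a : x * lag (α + 1) n x = -∑ j ∈ Finset.range (n + 1),
      (j + 1) * (lgR (α + 1 + j + 1) (n - j) * lgE (j + 1) x) := by
    rw [lag_eq, Finset.mul_sum, ← Finset.sum_neg_distrib]
    refine Finset.sum_congr rfl fun j _ => ?_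
    linear_combination lgR (α + 1 + j + 1) (n - j) * lgE_succ j x
  rw [a, lag_eq' α n]
  cases n with
  | zero =>
    have := lgR_one (α + 1) 0
    simp only [lgR_zero, lag_zero, Finset.sum_range_one, Nat.cast_zero, zero_add] at this ⊢
    linear_combination this
  | succ m =>
    have b : ∑ j ∈ Finset.range (m + 1), (((m + 1 : ℕ) : ℝ) + 1 + α) *
        (lgR (α + 1 + j + 1) (m - j) * lgE (j + 1) x) = ∑ j ∈ Finset.range (m + 1),
        ((((m + 1 : ℕ) : ℝ) + 1) * (lgR (α + 1 + j + 1) (m + 1 - j) * lgE (j + 1) x) -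
          (j + 1) * (lgR (α + 1 + j + 1) (m + 1 - j) * lgE (j + 1) x)) := by
      refine Finset.sum_congr rfl fun j hj => ?_
      have h := Nat.lt_succ_iff.1 (Finset.mem_range.1 hj)
      have e := lgR_one (α + 1 + j + 1) (m - j)
      rw [Nat.cast_sub h] at e
      rw [Nat.succ_sub h]
      push_cast
      linear_combination -lgE (j + 1) x * e
    rw [← Finset.mul_sum, Finset.sum_sub_distrib, ← Finset.mul_sum] at b
    rw [lag_eq' α m, Finset.sum_range_succ _ (m + 1), Finset.sum_range_succ _ (m + 1)]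
    linear_combination lgR_one (α + 1) (m + 1) - b

theorem lag_succ_alpha (α : ℝ) (n : ℕ) (x : ℝ) : lag (α + 1) n x = lagP α (n + 1) x := by
  induction n with
  | zero => simp [lagP, lag_zero]
  | succ n ih => rw [lag_pascal, ih, lagP, lagP, Finset.sum_range_succ _ (n + 1)]

theorem hasDerivAt_lag (α : ℝ) (n : ℕ) (x : ℝ) : HasDerivAt (lag α n) (-lagP α n x) x := by
  cases n with
  | zero =>
    rw [funext (lag_zero α)]
    simpa [lagP] using hasDerivAt_const x (1 : ℝ)
  | succ n =>
    rw [funext (lag_eq' α n), ← lag_succ_alpha, lag_eq, ← Finset.sum_neg_distrib]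
    exact (HasDerivAt.fun_sum fun j _ =>
      ((lgE_deriv j x).const_mul _).congr_deriv (mul_neg _ _)).add_const _

theorem lag_rec (α : ℝ) (n : ℕ) (x : ℝ) : (n + 2) * lag α (n + 2) x
    = (2 * n + 3 + α - x) * lag α (n + 1) x - (n + 1 + α) * lag α n x := by
  have a := lag_shift α (n + 1) x
  push_cast at a
  linear_combination a - lag_shift α n x - x * lag_pascal α n x

/-- raising relation -/
theorem lag_raise (α : ℝ) (n : ℕ) (x : ℝ) : (n + 1) * lag α (n + 1) x
    = (α + 1 - x) * lag (α + 1) n x - x * lagP (α + 1) n x := by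
  cases n with
  | zero =>
    simp only [lagP, lag_zero, Nat.cast_zero, zero_add, lag_one, Finset.sum_range_zero]
    ring
  | succ m =>
    have a := lag_shift α (m + 1) x
    rw [← lag_succ_alpha]
    push_cast at a ⊢
    linear_combination a + lag_shift (α + 1) m x - (m + 2 + α) * lag_pascal α m x

theorem hasDerivAt_lagP (α : ℝ) (n : ℕ) {x : ℝ} (hx : x ≠ 0) :
    HasDerivAt (lagP α n) (((x - α - 1) * lagP α n x + n * lag α n x) / x) x := by
  cases n with
  | zero =>
    have e : lagP α 0 = fun _ => 0 := funext fun y => by simp [lagP]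
    rw [e]
    simpa using hasDerivAt_const x (0 : ℝ)
  | succ m =>
    rw [← funext (lag_succ_alpha α m)]
    refine (hasDerivAt_lag (α + 1) m x).congr_deriv ?_
    rw [eq_div_iff hx]
    push_cast
    linear_combination -lag_raise α m x

theorem lag_zero_eq (α : ℝ) (n : ℕ) : lag α n 0 = lgR (α + 1) n := by
  cases n with
  | zero => rw [lag_zero, lgR_zero]
  | succ n => simp [lag_eq', lgE]

theorem lag_at_zero {α : ℝ} (hα : -1 < α) (n : ℕ) :
    lag α n 0 = Real.Gamma (n + α + 1) / ((n.factorial : ℝ) * Real.Gamma (α + 1)) := by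
  have h : 0 < α + 1 := by linarith
  have g := (Real.Gamma_pos_of_pos h).ne'
  rw [lag_zero_eq]
  induction n with
  | zero => simp [lgR_zero, g]
  | succ n ih =>
    have : (n.factorial : ℝ) ≠ 0 := by positivity
    have p : (n : ℝ) + α + 1 ≠ 0 := by rw [add_assoc]; positivity
    refine mul_left_cancel₀ (show (n : ℝ) + 1 ≠ 0 by positivity) ?_
    rw [lgR_one, ih, show ((n + 1 : ℕ) : ℝ) + α + 1 = n + α + 1 + 1 by push_cast; ring,
      Real.Gamma_add_one p, Nat.factorial_succ]
    push_cast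
    field_simp
    ring

theorem lgR_le {c : ℝ} (hc : 0 < c) (n j m : ℕ) (h : j + m = n) :
    lgR (c + j) m ≤ lgR c n * (n / c) ^ j := by
  induction j generalizing m with
  | zero => simp [← h]
  | succ j ih =>
    have a := ih (m + 1) (by omega)
    have b := lgR_two (c + j) m
    have p := lgR_pos (show 0 < c + j + 1 by positivity) m
    have q := lgR_pos (show 0 < c + j by positivity) (m + 1)
    have r : (m : ℝ) + 1 ≤ n := by exact_mod_cast (by omega : m + 1 ≤ n)
    have s : lgR (c + j + 1) m ≤ lgR (c + j) (m + 1) * (n / c) := by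
      rw [← mul_div_assoc, le_div_iff₀ hc]
      nlinarith [mul_nonneg (Nat.cast_nonneg (α := ℝ) j) p.le]
    rw [Nat.cast_succ, ← add_assoc, pow_succ, ← mul_assoc]
    exact s.trans (mul_le_mul_of_nonneg_right a (by positivity))

theorem abs_lag_le {α : ℝ} (hα : -1 < α) (n : ℕ) {x : ℝ} (hx : 0 ≤ x) :
    |lag α n x| ≤ lag α n 0 * Real.exp (n * x / (α + 1)) := by
  have h : 0 < α + 1 := by linarith
  rw [lag_zero_eq, lag_eq]
  refine (Finset.abs_sum_le_sum_abs _ _).trans (le_trans ?_ (mul_le_mul_of_nonneg_left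
    (Real.sum_le_exp_of_nonneg (by positivity) (n + 1)) (lgR_pos h n).le))
  rw [Finset.mul_sum]
  refine Finset.sum_le_sum fun j hj => ?_
  have a := lgR_le h n j (n - j) (by have := Finset.mem_range.1 hj; omega)
  rw [show α + j + 1 = α + 1 + j by ring, abs_mul, abs_of_pos (lgR_pos (by positivity) _), lgE,
    abs_div, abs_pow, abs_neg, abs_of_nonneg hx, Nat.abs_cast, mul_div_right_comm (n : ℝ), mul_pow,
    mul_div_assoc (_ ^ j), ← mul_assoc]
  exact mul_le_mul_of_nonneg_right a (by positivity)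

end Pool.Agent.Lib.MP_2347b2_mp.F
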