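import Pool.Agent.Lib.MP_2347b2_mp.F.Lag

namespace Pool.Agent.Lib.MP_2347b2_mp.F

open MeasureTheory Set Filter Topology

/-- the rising factorial divided by the factorial -/
noncomputable def lagR (c : ℝ) (m : ℕ) : ℝ := (∏ j ∈ Finset.range m, (c + j)) / (m.factorial : ℝ)

theorem lagR_succ (c : ℝ) (m : ℕ) : (m + 1) * lagR c (m + 1) = (c + m) * lagR c m := by
  have : (m.factorial : ℝ) ≠ 0 := by positivity
  rw [lagR, lagR, Finset.prod_range_succ, Nat.factorial_succ]
  push_cast
  field_simp

theorem lagR_add (a c : ℝ) (m : ℕ) :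
    lagR (a + c) m = ∑ p ∈ Finset.HasAntidiagonal.antidiagonal m, lagR a p.1 * lagR c p.2 := by
  induction m with
  | zero => simp [lagR]
  | succ m ih =>
    have h1 : ∑ p ∈ Finset.HasAntidiagonal.antidiagonal (m + 1), p.1 * (lagR a p.1 * lagR c p.2) =
        ∑ p ∈ Finset.HasAntidiagonal.antidiagonal m, (a + p.1) * (lagR a p.1 * lagR c p.2) := by
      rw [Finset.Nat.sum_antidiagonal_succ, Nat.cast_zero, zero_mul, zero_add]
      exact Finset.sum_congr rfl fun p _ => by
        rw [← mul_assoc, Nat.cast_succ, lagR_succ, mul_assoc]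
    have h2 : ∑ p ∈ Finset.HasAntidiagonal.antidiagonal (m + 1), p.2 * (lagR a p.1 * lagR c p.2) =
        ∑ p ∈ Finset.HasAntidiagonal.antidiagonal m, (c + p.2) * (lagR a p.1 * lagR c p.2) := by
      rw [Finset.Nat.sum_antidiagonal_succ', Nat.cast_zero, zero_mul, zero_add]
      exact Finset.sum_congr rfl fun p _ => by
        rw [mul_left_comm, Nat.cast_succ, lagR_succ, mul_left_comm]
    refine mul_left_cancel₀ (show (m + 1 : ℝ) ≠ 0 by positivity) ?_
    rw [lagR_succ, ih, Finset.mul_sum, Finset.mul_sum]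
    refine (Finset.sum_congr rfl fun p hp => ?_).trans ((Finset.sum_add_distrib.trans
      (congrArg₂ (· + ·) h1 h2).symm).trans (Finset.sum_add_distrib.symm.trans
        (Finset.sum_congr rfl fun p hp => ?_)))
    · rw [← Finset.HasAntidiagonal.mem_antidiagonal.1 hp]
      push_cast
      ring
    · rw [← add_mul, ← Nat.cast_add, Finset.HasAntidiagonal.mem_antidiagonal.1 hp, Nat.cast_succ]

/-- connection formula -/
theorem lag_add (α a : ℝ) (n : ℕ) (x : ℝ) : lag (α + a) n x
    = ∑ i ∈ Finset.range (n + 1),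
      (∏ j ∈ Finset.range i, (a + j)) / (i.factorial : ℝ) * lag α (n - i) x := by
  have e : ∀ (β : ℝ) (m : ℕ), lag β m x = ∑ j ∈ Finset.range (m + 1),
      lagR (β + j + 1) (m - j) * ((-1) ^ j * x ^ j / (j.factorial : ℝ)) := fun β m =>
    Finset.sum_congr rfl fun j _ => by rw [lagR]; ring
  simp only [e, Finset.mul_sum]
  rw [Finset.sum_comm' (t' := Finset.range (n + 1)) (s' := fun j => Finset.range (n - j + 1))
    fun i j => by simp only [Finset.mem_range]; omega]
  refine Finset.sum_congr rfl fun j _ => ?_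
  rw [show α + a + j + 1 = a + (α + j + 1) by ring, lagR_add,
    Finset.Nat.sum_antidiagonal_eq_sum_range_succ_mk, Finset.sum_mul]
  exact Finset.sum_congr rfl fun i _ => by rw [Nat.sub_right_comm, mul_assoc, lagR]

theorem lag_integrable {α : ℝ} (hα : -1 < α) (β β' : ℝ) (n m : ℕ) :
    IntegrableOn (fun x : ℝ => x ^ α * Real.exp (-x) * (lag β n x * lag β' m x)) (Ioi 0) := by
  have h : ∀ k : ℕ, IntegrableOn (fun x : ℝ => x ^ α * Real.exp (-x) * x ^ k) (Ioi 0) := fun k =>
    (Real.GammaIntegral_convergent (s := α + k + 1) (by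
      have := k.cast_nonneg (α := ℝ); linarith)).congr_fun (fun x hx => by
        simp only
        rw [add_sub_cancel_right, Real.rpow_add_natCast (ne_of_gt hx)]
        ring) measurableSet_Ioi
  simp only [lag, Finset.sum_mul, Finset.mul_sum]
  refine integrable_finsetSum _ fun j _ => integrable_finsetSum _ fun k _ => ?_
  simp only [mul_mul_mul_comm _ (_ ^ _) _ (_ ^ _), ← pow_add, mul_left_comm (_ * Real.exp _)]
  exact (h _).const_mul _

theorem lag_norm {α : ℝ} (hα : -1 < α) (n : ℕ) :
    ∫ x in Ioi (0 : ℝ), x ^ α * Real.exp (-x) * lag α n x ^ 2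
      = Real.Gamma (n + α + 1) / (n.factorial : ℝ) := by
  induction n generalizing α with
  | zero =>
    rw [Nat.cast_zero, zero_add, Real.Gamma_eq_integral (by linarith), Nat.factorial_zero,
      Nat.cast_one, div_one, add_sub_cancel_right]
    simp only [lag_zero, one_pow, one_mul, mul_comm]
  | succ n ih =>
    have h1 : -1 < α + 1 := by linarith
    have i1 := lag_integrable hα α α (n + 1) (n + 1)
    have i2 := lag_integrable h1 (α + 1) (α + 1) n n
    have d : ∀ x ∈ Ioi (0 : ℝ), HasDerivAt
        (fun x : ℝ => x ^ (α + 1) * Real.exp (-x) * (lag (α + 1) n x * lag α (n + 1) x))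
        ((n + 1) * (x ^ α * Real.exp (-x) * (lag α (n + 1) x * lag α (n + 1) x)) -
          x ^ (α + 1) * Real.exp (-x) * (lag (α + 1) n x * lag (α + 1) n x)) x := fun x hx => by
      refine (((Real.hasDerivAt_rpow_const (.inl (ne_of_gt hx))).fun_mul
        (hasDerivAt_neg' x).exp).fun_mul ((hasDerivAt_lag (α + 1) n x).fun_mul
          (hasDerivAt_lag α (n + 1) x))).congr_deriv ?_
      rw [add_sub_cancel_right, Real.rpow_add_one (ne_of_gt hx), ← lag_succ_alpha]
      linear_combination (-(x ^ α * Real.exp (-x) * lag α (n + 1) x)) * lag_raise α n x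
    have i3 := (i1.const_mul (n + 1 : ℝ)).sub i2
    have e := integral_Ioi_of_hasDerivAt_of_tendsto
      (f := fun x : ℝ => x ^ (α + 1) * Real.exp (-x) * (lag (α + 1) n x * lag α (n + 1) x))
      (ContinuousAt.continuousWithinAt
      (((Real.continuousAt_rpow_const 0 _ (.inr (by linarith))).mul (by fun_prop)).mul
        ((hasDerivAt_lag _ _ _).continuousAt.mul (hasDerivAt_lag _ _ _).continuousAt))) d i3
      (tendsto_zero_of_hasDerivAt_of_integrableOn_Ioi d i3 (lag_integrable h1 _ _ _ _))
    rw [integral_sub (i1.const_mul _) i2, integral_const_mul, Real.zero_rpow (show α + 1 ≠ 0 by linarith),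
      zero_mul, zero_mul, sub_zero, sub_eq_zero] at e
    simp only [← pow_two] at e
    rw [ih h1] at e
    have : (n.factorial : ℝ) ≠ 0 := by positivity
    refine mul_left_cancel₀ (show (n + 1 : ℝ) ≠ 0 by positivity) (e.trans ?_)
    rw [Nat.factorial_succ, show (n : ℝ) + (α + 1) + 1 = (n + 1 : ℕ) + α + 1 by push_cast; ring]
    push_cast
    field_simp

/-- the logarithm of the Gamma function -/
noncomputable def lagG (x : ℝ) : ℝ := Real.log (Real.Gamma x)

theorem lagG_succ {x : ℝ} (hx : 0 < x) : lagG (x + 1) = lagG x + Real.log x := by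
  rw [lagG, Real.Gamma_add_one hx.ne', Real.log_mul hx.ne' (Real.Gamma_pos_of_pos hx).ne', lagG,
    add_comm]

theorem lagG_cvx {p q s t z : ℝ} (hp : 0 < p) (hq : 0 < q) (hs : 0 ≤ s) (ht : 0 ≤ t)
    (h : 0 < s + t) (e : (s + t) * z = s * p + t * q) :
    (s + t) * lagG z ≤ s * lagG p + t * lagG q := by
  have k := Real.convexOn_log_Gamma.2 hp hq (div_nonneg hs h.le) (div_nonneg ht h.le)
    (by rw [← add_div, div_self h.ne'])
  simp only [smul_eq_mul, Function.comp] at k
  rw [div_mul_eq_mul_div, div_mul_eq_mul_div, div_mul_eq_mul_div, div_mul_eq_mul_div, ← add_div,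
    ← add_div, ← e, mul_div_cancel_left₀ _ h.ne', le_div_iff₀' h] at k
  exact k

theorem lagG_le {x y b a : ℝ} (hx : 0 < x) (hy : 0 < y) (hb : 0 < b)
    (h : lagG y ≤ lagG x + a * Real.log b) : Real.Gamma y ≤ Real.Gamma x * b ^ a := by
  have g := Real.Gamma_pos_of_pos hx
  rwa [← Real.log_le_log_iff (Real.Gamma_pos_of_pos hy) (by positivity),
    Real.log_mul g.ne' (by positivity), Real.log_rpow hb]

/-- the ratio of Gamma values -/
theorem Gamma_ratio_le {x a : ℝ} (hx : 0 < x) (ha : 1 ≤ a) :
    Real.Gamma (x + a) ≤ Real.Gamma x * (x + (a - 1) / 2) ^ a := by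
  have st : ∀ z : ℝ, 0 < z → a * Real.log (z + 1 + (a - 1) / 2) - lagG (z + 1 + a) + lagG (z + 1) ≤
      a * Real.log (z + (a - 1) / 2) - lagG (z + a) + lagG z := fun z hz => by
    have y0 : 0 < 2 * z + a := by linarith
    have u0 : 0 < 1 / (2 * z + a) := by positivity
    have u1 : a * (1 / (2 * z + a)) < 1 := by rw [mul_one_div, div_lt_one y0]; linarith
    have u2 : 1 / (2 * z + a) < 1 := by rw [div_lt_one y0]; linarith
    have k := hasSum_le (fun k => ?_)
      ((Real.hasSum_log_sub_log_of_abs_lt_one (by rwa [abs_of_pos u0])).mul_left a)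
      (Real.hasSum_log_sub_log_of_abs_lt_one (x := a * (1 / (2 * z + a)))
        (by rwa [abs_of_pos (by positivity)]))
    · have l : ∀ p q : ℝ, 0 < p → q = p / (z + a / 2) →
          Real.log q = Real.log p - Real.log (z + a / 2) := fun p q hp e => by
        rw [e, Real.log_div hp.ne' (by linarith)]
      have : z + a / 2 ≠ 0 := by linarith
      rw [l (z + 1 + (a - 1) / 2) (1 + _) (by linarith) (by field_simp; ring),
        l (z + (a - 1) / 2) (1 - _) (by linarith) (by field_simp; ring),
        l (z + a) (1 + _) (by linarith) (by field_simp; ring),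
        l z (1 - _) hz (by field_simp; ring)] at k
      rw [add_right_comm z 1 a, lagG_succ (by linarith), lagG_succ hz]
      linarith
    · have := mul_le_mul_of_nonneg_right
        (show a ≤ a ^ (2 * k + 1) from le_self_pow₀ ha (2 * k).succ_ne_zero)
        (show 0 ≤ 2 * (1 / (2 * (k : ℝ) + 1)) * (1 / (2 * z + a)) ^ (2 * k + 1) by positivity)
      rw [mul_pow]
      linarith
  have it : ∀ n : ℕ, a * Real.log (x + n + (a - 1) / 2) - lagG (x + n + a) + lagG (x + n) ≤
      a * Real.log (x + (a - 1) / 2) - lagG (x + a) + lagG x := fun n => by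
    induction n with
    | zero => simp
    | succ n ih =>
      rw [Nat.cast_succ, ← add_assoc]
      exact (st _ (by positivity)).trans ih
  refine lagG_le hx (by linarith) (by linarith) ?_
  have t := le_of_tendsto (tendsto_const_div_atTop_nhds_zero_nat (-(a * ((a + 1) / 2))))
    (b := a * Real.log (x + (a - 1) / 2) - lagG (x + a) + lagG x)
    ((eventually_gt_atTop 0).mono fun n hn => le_trans ?_ (it n))
  · linarith
  have n0 : (0 : ℝ) < n := by exact_mod_cast hn
  have p0 : 0 < x + n + (a - 1) / 2 := by linarith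
  have c := lagG_cvx (p := x + n) (q := x + n + a + 1) (z := x + n + a) (s := 1) (t := a)
    (by linarith) (by linarith) zero_le_one (by linarith) (by linarith) (by ring)
  rw [lagG_succ (by linarith)] at c
  have l := Real.log_le_sub_one_of_pos (div_pos (show 0 < x + n + a by linarith) p0)
  rw [Real.log_div (by linarith) p0.ne', div_sub_one p0.ne'] at l
  have m := l.trans (div_le_div₀ (c := (a + 1) / 2) (d := n) (by linarith) (by linarith) n0
    (by linarith))
  have := mul_le_mul_of_nonneg_left m (show 0 ≤ a by linarith)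
  rw [neg_div, mul_div_assoc]
  linarith

theorem Gamma_shift_le {x a : ℝ} (hx : 0 < x) (ha : 0 ≤ a) (ha1 : a ≤ 1) :
    Real.Gamma (x + a) ≤ Real.Gamma x * x ^ a := by
  have c := lagG_cvx (p := x) (q := x + 1) (z := x + a) (s := 1 - a) (t := a)
    hx (by linarith) (by linarith) ha (by linarith) (by ring)
  rw [lagG_succ hx] at c
  exact lagG_le hx (by linarith) hx (by linarith)

theorem le_Gamma_shift {x a : ℝ} (hx : 1 < x) (ha : 0 ≤ a) :
    Real.Gamma x * (x - 1) ^ a ≤ Real.Gamma (x + a) := by
  have x1 : 0 < x - 1 := by linarith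
  have c := lagG_cvx (p := x - 1) (q := x + a) (z := x) (s := a) (t := 1)
    x1 (by linarith) ha zero_le_one (by linarith) (by ring)
  have e := lagG_succ x1
  rw [sub_add_cancel] at e
  have k := lagG_le (x := x + a) (y := x) (a := -a) (by linarith) (by linarith) x1
    (by rw [e] at c ⊢; linarith)
  rwa [Real.rpow_neg x1.le, ← div_eq_mul_inv, le_div_iff₀ (by positivity)] at k

theorem le_Gamma_shift' {x a : ℝ} (hx : 0 < x) (ha : 0 ≤ a) (ha1 : a ≤ 1) :
    Real.Gamma x * x * (x + a) ^ (a - 1) ≤ Real.Gamma (x + a) := by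
  have p : 0 < x + a := by linarith
  have k := Gamma_shift_le p (a := 1 - a) (by linarith) (by linarith)
  rwa [show x + a + (1 - a) = x + 1 by ring, Real.Gamma_add_one hx.ne', ← neg_sub,
    Real.rpow_neg p.le, ← div_eq_mul_inv, le_div_iff₀ (by positivity), mul_comm x] at k

end Pool.Agent.Lib.MP_2347b2_mp.F
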