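import Pool.Agent.Lib.MP_2347b2_mp.F.Mis

namespace Pool.Agent.Lib.MP_2347b2_mp.F

variable {γ R : ℝ} {k : ℕ}

theorem m12_sqrt (k : ℕ) : √((k : ℝ) + 1) ≤ (k + 10) / 6 := by
  rw [Real.sqrt_le_left (by positivity)]
  nlinarith [sq_nonneg ((k : ℝ) - 8)]

theorem three_le_Blo (hk : 2 ≤ k) (hR : 30 ≤ R) : 3 ≤ Blo k R := by
  rw [Blo]
  rcases le_or_gt k 7 with h | h
  · refine le_max_of_le_left ?_
    have h' : (k : ℝ) ≤ 7 := by exact_mod_cast h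
    have h0 : (0 : ℝ) ≤ k := by positivity
    simp only [Uk]
    nlinarith
  · refine le_max_of_le_right ?_
    have h' : (8 : ℝ) ≤ k := by exact_mod_cast h
    have h2 : 2 / (k : ℝ) ≤ 1 / 4 := by rw [div_le_iff₀ (by linarith)]; linarith
    have := m12_sqrt k
    linarith

theorem Blo_le (h0 : 0 < γ) (h1 : γ < 1) (hk : 2 ≤ k)
    (h : (sOf γ k + 1) ^ 2 - 2 * R < 2 + 3 / 4 * √(sOf γ k + 1)) :
    Blo k R ≤ 2 * R - bb (sOf γ (k + 1 : ℕ) - 1) := by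
  have hp := pr_of h0 h1 hk
  refine max_le (by linarith [hp.hU]) ?_
  have a1 := le_sk h0 h1 (by omega : 1 ≤ k)
  have a2 := sk_le h0 h1 (by omega : 1 ≤ k)
  have a3 : √(sOf γ k + 1) ≤ √((k : ℝ) + 1) := Real.sqrt_le_sqrt (by linarith)
  have a4 := hp.hd
  have e : 2 / (k : ℝ) = 1 / k + 1 / k := by ring
  simp only [bb]
  nlinarith

theorem MM_le_gen (h0 : 0 < γ) (h1 : γ < 1) (hk : 2 ≤ k) (hR : 30 ≤ R)
    (hb : bb (sOf γ (k + 1 : ℕ) - 1) + 1 ≤ 2 * R) {J D : ℝ}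
    (hJ : |ctr (8 / R) (Hm γ (sOf γ k) (sOf γ (k + 1 : ℕ) - 1) R)| ≤ 1 / k * J)
    (hD : DD γ (sOf γ k) R ≤ D) (hD' : DD γ (sOf γ (k + 1 : ℕ) - 1) R ≤ D) :
    MM γ k R ≤ 1.061 / k * (J / Real.pi + D) + ub k R * D := by
  have hp := pr_of h0 h1 hk
  have hs := BB_sub hp hR hb
  obtain ⟨c1, c2, c3, c4⟩ := ck_bounds h0 h1 hk
  have a1 := le_sk' h0 h1 hk
  have hk' : (2 : ℝ) ≤ k := by exact_mod_cast hk
  have hR0 : 0 < R := by linarith
  have hBB := BB_le h0 (l := sOf γ k) (by linarith) hR0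
  have d0 := DD_nonneg γ (sOf γ k) R
  have d0' := DD_nonneg γ (sOf γ (k + 1 : ℕ) - 1) R
  have hΛ := abs_le.1 hp.hΛ
  have hd := hp.hd
  have hπ := Real.pi_pos
  rw [MM]
  generalize sOf γ (k + 1 : ℕ) - 1 = l' at *
  generalize sOf γ k = l at *
  have hk0 : 0 < 1 / (k : ℝ) := by positivity
  have q : γ ^ 2 / (2 * (l + 1) ^ 2) ≤ 1 / (2 * (k : ℝ) ^ 2) :=
    div_le_div₀ zero_le_one hp.h1 (by positivity) (by nlinarith)
  have m : max 0 (R * (1 + γ ^ 2 / (2 * (l + 1) ^ 2)) - (l * (l + 1) + γ ^ 2))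
      ≤ max 0 (R * (1 + 1 / (2 * (k : ℝ) ^ 2)) - k ^ 2 - k + 1 / 2) :=
    max_le_max le_rfl (by nlinarith [mul_le_mul_of_nonneg_left q hR0.le])
  have b1 : BB γ l R ≤ max 0 (R * (1 + 1 / (2 * (k : ℝ) ^ 2)) - k ^ 2 - k + 1 / 2) * D :=
    hBB.trans (mul_le_mul m hD d0 (le_max_left _ _))
  have b2 : (ck γ k - ck γ (k + 1)) * BB γ l R ≤ ub k R * D := by
    rw [ub, mul_assoc]
    exact (mul_le_mul_of_nonneg_left b1 (by linarith)).trans
      (mul_le_mul_of_nonneg_right c4 (mul_nonneg (le_max_left _ _) (by linarith)))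
  have j0 : 0 ≤ 1 / (k : ℝ) * J := (abs_nonneg _).trans hJ
  have b3 : BB γ l R - BB γ l' R ≤ 1 / k * J / Real.pi + 1 / k * D := by
    rw [hs]
    exact add_le_add (div_le_div_of_nonneg_right ((le_abs_self _).trans hJ) hπ.le)
      (mul_le_mul hd hD' d0' hk0.le)
  have y0 : 0 ≤ 1 / (k : ℝ) * J / Real.pi + 1 / k * D :=
    add_nonneg (div_nonneg j0 hπ.le) (mul_nonneg hk0.le (by linarith))
  have b4 : ck γ (k + 1) * (BB γ l R - BB γ l' R) ≤ 1.061 * (1 / k * J / Real.pi + 1 / k * D) :=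
    (mul_le_mul_of_nonneg_left b3 (by linarith)).trans (mul_le_mul_of_nonneg_right c2 y0)
  have e : 1.061 / (k : ℝ) * (J / Real.pi + D) = 1.061 * (1 / k * J / Real.pi + 1 / k * D) := by
    ring
  rw [e]
  linarith

theorem m12_ctr {T a b c : ℝ} {g : ℂ → ℂ} (h1 : |cL T g| ≤ a) (h2 : |cT T g| ≤ b)
    (h3 : |cR T g| ≤ c) : |ctr T g| ≤ c + b + a := by
  have a1 := abs_le.1 h1
  have a2 := abs_le.1 h2
  have a3 := abs_le.1 h3
  rw [ctr, abs_le]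
  constructor <;> linarith

theorem MM_le_m1 (h0 : 0 < γ) (h1 : γ < 1) (hk : 2 ≤ k) (hR : 100 ≤ R) (hU : Uk k ≤ R / 2) :
    MM γ k R ≤ m1 k R := by
  have hp := pr_of h0 h1 hk
  obtain ⟨b1, -, -⟩ := mis_bb hp
  have a1 := hp.hl
  have a2 := hp.hll
  have a3 := hp.hU
  have hR' : 30 ≤ R := by linarith
  have hb : bb (sOf γ (k + 1 : ℕ) - 1) + 1 ≤ 2 * R := by linarith
  refine MM_le_gen h0 h1 hk hR' hb
    ((m12_ctr (Hm_left hp hR' hb) (Hm_top1 hp hR hU) (Hm_right1 hp hR hU)).trans_eq ?_)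
    (DD_le_D1 h0 (topH_of hp.h1 a1 hR' (by linarith)) (by nlinarith) hR (b1.trans a3) hU)
    (DD_le_D1 h0 (topH_of hp.h1 (a1.trans a2) hR' (by linarith)) (by nlinarith) hR a3 hU)
  rw [J1]
  ring

theorem m2_nonneg (hk : 2 ≤ k) (hR : 30 ≤ R) (h : ¬ Deep k R) : 0 ≤ m2 k R := by
  have hB := three_le_Blo hk hR
  have hk' : (2 : ℝ) ≤ k := by exact_mod_cast hk
  have hs := m12_sqrt k
  have h2 : 2 / (k : ℝ) ≤ 1 := by rw [div_le_iff₀ (by linarith)]; linarith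
  have h3 : 0 ≤ 2 / (k : ℝ) := by positivity
  have h4 : 0 ≤ √((k : ℝ) + 1) := Real.sqrt_nonneg _
  have hB' : Blo k R ≤ 2 * R := by
    rw [Deep, not_le] at h
    refine max_le ?_ (by nlinarith)
    have : 0 ≤ Uk k := by simp only [Uk]; positivity
    linarith
  obtain ⟨v0, g0⟩ := mis_GG (R := R) (B := Blo k R) (by linarith) hB'
  have hD : 0 < Dt (Lk k) R := by linarith [one_le_Dt (Lk k) R]
  have hL : 0 < Lk k := by simp only [Lk]; nlinarith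
  have hR0 : 0 < R := by linarith
  have hF : 0 ≤ F0 k R := by simp only [F0]; positivity
  have hT : 0 ≤ topI k R := by simp only [topI]; positivity
  have hl : 0 ≤ Real.log (4 * R / Blo k R) :=
    Real.log_nonneg (by rw [le_div_iff₀ (by linarith)]; linarith)
  have hm : 0 ≤ max 0 (Real.log (8 * R * k / Dt (Lk k) R)) := le_max_left _ _
  have hJ : 0 ≤ J2 k R := by simp only [J2]; positivity
  have hD2 : 0 ≤ D2 R (Blo k R) := by simp only [D2]; positivity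
  have hk2 : 0 < (k : ℝ) ^ 2 - 1 := by nlinarith
  have hu : 0 ≤ ub k R := mul_nonneg (by simp only [ek]; positivity) (le_max_left _ _)
  simp only [m2]
  positivity

theorem MM_le_m2 (h0 : 0 < γ) (h1 : γ < 1) (hk : 2 ≤ k) (hR : 30 ≤ R) (h : ¬ Deep k R) :
    MM γ k R ≤ m2 k R := by
  rcases le_or_gt (2 + 3 / 4 * √(sOf γ k + 1)) ((sOf γ k + 1) ^ 2 - 2 * R) with gp | gp
  · exact (MM_gap h0 h1 hk (by linarith) gp).trans (m2_nonneg hk hR h)
  have hB := three_le_Blo hk hR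
  have hB' := Blo_le h0 h1 hk gp
  have hp := pr_of h0 h1 hk
  obtain ⟨b1, -, -⟩ := mis_bb hp
  have a1 := hp.hl
  have a2 := hp.hll
  have hb : bb (sOf γ (k + 1 : ℕ) - 1) + 1 ≤ 2 * R := by linarith
  refine MM_le_gen h0 h1 hk hR hb
    ((m12_ctr (Hm_left hp hR hb) (Hm_top2 hp hR hb)
      (Hm_right2 hp hR (by linarith) hB')).trans_eq ?_)
    (DD_le_D2 h0 (topH_of hp.h1 a1 hR (by linarith)) (by nlinarith) (by linarith) (by linarith))
    (DD_le_D2 h0 (topH_of hp.h1 (a1.trans a2) hR (by linarith)) (by nlinarith) (by linarith) hB')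
  rw [J2]
  ring

theorem MM_le_mc (h0 : 0 < γ) (h1 : γ < 1) (hk : 2 ≤ k) (hR : 0 < R) (h : R < 30 → Deep k R) :
    MM γ k R ≤ mc k R := by
  rw [mc]
  split_ifs with a b
  · exact MM_deep h0 h1 hk hR a
  · exact MM_le_m1 h0 h1 hk b.1 b.2
  · exact MM_le_m2 h0 h1 hk (not_lt.1 fun c => a (h c)) a

end Pool.Agent.Lib.MP_2347b2_mp.F
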