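import Pool.Agent.Lib.MP_2347b2_mp.F.Dtwo
import Pool.Agent.Lib.MP_2347b2_mp.F.Tele

namespace Pool.Agent.Lib.MP_2347b2_mp.F

variable {γ R : ℝ}

theorem m2_s (h0 : 0 < γ) (h1 : γ < 1) :
    sOf γ (2 : ℕ) ^ 2 = 4 - γ ^ 2 ∧ 1.73 ≤ sOf γ (2 : ℕ) ∧ sOf γ (2 : ℕ) ≤ 2 := by
  have e : sOf γ (2 : ℕ) = √(4 - γ ^ 2) := by
    rw [sOf]
    norm_num
  rw [e]
  exact ⟨Real.sq_sqrt (by nlinarith), Real.le_sqrt_of_sq_le (by nlinarith),
    Real.sqrt_le_iff.2 ⟨by norm_num, by nlinarith⟩⟩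

theorem topH_two (h0 : 0 < γ) (h1 : γ < 1) (hR : 30 ≤ R) : TopH γ (sOf γ (2 : ℕ) - 1) R := by
  obtain ⟨a1, a2, a3⟩ := m2_s h0 h1
  have : 8 / R ≤ 8 / 30 := div_le_div_of_nonneg_left (by norm_num) (by norm_num) hR
  generalize sOf γ (2 : ℕ) = s at a1 a2 a3
  exact ⟨by nlinarith, by linarith, hR, by nlinarith, by nlinarith⟩

/-- the main negative term -/
theorem main_term (h0 : 0 < γ) (h1 : γ < 1) (hR : 400 ≤ R) :
    0.45 * √R - 2.1 ≤ ck γ 2 * BB γ (sOf γ (2 : ℕ) - 1) R := by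
  obtain ⟨a1, a2, a3⟩ := m2_s h0 h1
  have hH := topH_two h0 h1 (R := R) (by linarith)
  have hR0 : 0 < R := by linarith
  have c1 : 1 ≤ ck γ 2 := by
    rw [ck]
    generalize sOf γ (2 : ℕ) = s at a2 a3
    rw [le_div_iff₀ (by linarith)]
    push_cast
    linarith
  generalize sOf γ (2 : ℕ) = s at a1 a2 a3 hH
  have b1 := le_BB h0 hH.hl hR0
  have b2 := (DD_le_DS hH.h1 hH.hl (by nlinarith) hR0).2
  have hb : bb (s - 1) ≤ 35 / 16 := by
    rw [bb]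
    nlinarith
  have b3 := (abs_le.1 (DS_two h0 hH (by nlinarith) (by linarith) hb (by linarith))).1
  have hs : 20 ≤ √R := Real.le_sqrt_of_sq_le (by linarith)
  have hs2 : √R ^ 2 = R := Real.sq_sqrt hR0.le
  obtain ⟨y, hy⟩ : ∃ y, y = 1 / √R := ⟨_, rfl⟩
  have y0 : 0 < y := by rw [hy]; positivity
  have y1 : y ≤ 0.05 := by rw [hy, div_le_iff₀ (by linarith)]; linarith
  have ry : √R * y = 1 := by rw [hy]; field_simp
  have d1 : ∀ a : ℝ, a / √R = a * y := fun a => by rw [hy]; ring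
  have d2 : ∀ a : ℝ, a / R = a * y ^ 2 := fun a => by rw [hy, div_pow, hs2]; ring
  have yy : y ^ 2 ≤ 0.05 * y := by nlinarith
  have q1 : 1.4142 * √R - 0.78 * y ≤ √(2 * R - bb (s - 1)) := Real.le_sqrt_of_sq_le (by
    have e : (1.4142 * √R - 0.78 * y) ^ 2
        = 1.4142 ^ 2 * √R ^ 2 - 2 * 1.4142 * 0.78 * (√R * y) + 0.78 ^ 2 * y ^ 2 := by ring
    rw [e, hs2, ry]
    linarith)
  rw [d1] at b3
  simp only [d2] at b2 b3
  have Ry : R * y ^ 2 = 1 := by rw [← d2, div_self hR0.ne']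
  generalize √(2 * R - bb (s - 1)) = q at q1 b3
  generalize √R = r at hs hs2 ry q1
  obtain ⟨X, hX⟩ : ∃ X, X = 1.4142 * r - 5.5 - 7.3425 * y - 131.25 * y ^ 2 := ⟨_, rfl⟩
  have x1 : X * y ^ 2 ≤ Real.pi * DS γ (s - 1) R := by
    have := mul_le_mul_of_nonneg_right q1 (sq_nonneg y)
    rw [hX]
    linarith
  have x2 : X * y ^ 2 ≤ 1.4142 * y := by
    have h2 : X ≤ 1.4142 * r := by nlinarith
    calc _ ≤ 1.4142 * r * y ^ 2 := mul_le_mul_of_nonneg_right h2 (sq_nonneg y)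
      _ = 1.4142 * (r * y) * y := by ring
      _ = _ := by rw [ry, mul_one]
  have x3 : Real.pi * (1 + 1.16 * y ^ 2) * (0.45 * r - 2.1) ≤ (R - 2.27) * (X * y ^ 2) := by
    have h2 : Real.pi * (1 + 1.16 * y ^ 2) * (0.45 * r - 2.1)
        ≤ 3.1416 * (1 + 1.16 * y ^ 2) * (0.45 * r - 2.1) :=
      mul_le_mul_of_nonneg_right (mul_le_mul_of_nonneg_right Real.pi_lt_d4.le (by positivity))
        (by linarith)
    have h3 : r * y ^ 2 = y := by rw [sq, ← mul_assoc, ry, one_mul]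
    have h4 : R * (X * y ^ 2) = X := by rw [mul_left_comm, Ry, mul_one]
    nlinarith [sq_nonneg y]
  have x4 : 0.45 * r - 2.1 ≤ (R - 2.27) * DD γ (s - 1) R := by
    have p0 : 0 < Real.pi * (1 + 1.16 * y ^ 2) := by positivity
    refine le_of_mul_le_mul_left (x3.trans ?_) p0
    have h2 := x1.trans (mul_le_mul_of_nonneg_left b2 Real.pi_pos.le)
    calc _ ≤ _ := mul_le_mul_of_nonneg_left h2 (show 0 ≤ R - 2.27 by linarith)
      _ = _ := by ring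
  have x5 : 0 ≤ DD γ (s - 1) R :=
    nonneg_of_mul_nonneg_right (a := R - 2.27) (by linarith) (by linarith)
  have x6 : (R - 2.27) * DD γ (s - 1) R ≤ BB γ (s - 1) R :=
    (mul_le_mul_of_nonneg_right (by nlinarith) x5).trans b1
  have x7 : 0 ≤ BB γ (s - 1) R := by linarith
  nlinarith

end Pool.Agent.Lib.MP_2347b2_mp.F
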