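import Pool.Agent.Lib.MP_2347b2_mp.F.NI1
import Pool.Agent.Lib.MP_2347b2_mp.F.NI2
import Pool.Agent.Lib.MP_2347b2_mp.F.NI3
import Pool.Agent.Lib.MP_2347b2_mp.F.NI4
import Pool.Agent.Lib.MP_2347b2_mp.F.NI5
import Pool.Agent.Lib.MP_2347b2_mp.F.NI6
import Pool.Agent.Lib.MP_2347b2_mp.F.NI7

/-!
The checked ranges cover the interval from `1 / 6` to `400`.
-/

namespace Pool.Agent.Lib.MP_2347b2_mp.F.NT

theorem j14 : GG (Rb 17 80 2 4 0) (Rb 7 20 2 4 16) := r15.g.join r14.g (by decide +kernel)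

theorem j13 : GG (Rb 17 80 2 4 0) (Rb 23 40 2 4 16) := j14.join r13.g (by decide +kernel)

theorem j12 : GG (Rb 17 80 2 4 0) (Rb 19 20 2 4 16) := j13.join r12.g (by decide +kernel)

theorem j11 : GG (Rb 17 80 2 4 0) (Rb 157 100 2 4 16) := j12.join r11.g (by decide +kernel)

theorem j10 : GG (Rb 17 80 2 4 0) (Rb 13 5 2 4 16) := j11.join r10.g (by decide +kernel)

theorem j9 : GG (Rb 17 80 2 4 0) (Rb 43 10 2 4 16) := j10.join r9.g (by decide +kernel)

theorem j8 : GG (Rb 17 80 2 4 0) (Rb 71 10 2 4 16) := j9.join r8.g (by decide +kernel)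

theorem j7 : GG (Rb 17 80 2 4 0) (Rb 47 4 2 4 16) := j8.join r7.g (by decide +kernel)

theorem j6 : GG (Rb 17 80 2 4 0) (Rb 39 2 2 4 16) := j7.join r6.g (by decide +kernel)

theorem j5 : GG (Rb 17 80 2 4 0) (Rb 65 2 2 4 16) := j6.join r5.g (by decide +kernel)

theorem j4 : GG (Rb 17 80 2 4 0) (Rb 54 1 2 4 16) := j5.join r4.g (by decide +kernel)

theorem j3 : GG (Rb 17 80 2 4 0) (Rb 90 1 2 4 16) := j4.join r3.g (by decide +kernel)

theorem j2 : GG (Rb 17 80 2 4 0) (Rb 150 1 2 4 7) := j3.join r2.g (by decide +kernel)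

theorem j1 : GG (Rb 17 80 2 4 0) (Rb 192 1 2 4 16) := j2.join r1.g (by decide +kernel)

theorem j0 : GG (Rb 17 80 2 4 0) (Rb 320 1 2 4 16) := j1.join r0.g (by decide +kernel)

theorem all_goal {γ R : ℝ} (h0 : 0 < γ) (h1 : γ < 1) (hR : 1 / 6 ≤ R) (hR' : R ≤ 400) :
    Goal γ R := by
  have e1 : rbn 17 2 4 0 = 816 := by decide +kernel
  have e2 : rbd 80 2 4 = 5120 := by decide +kernel
  have e3 : rbn 320 2 4 16 = 25600 := by decide +kernel
  have e4 : rbd 1 2 4 = 64 := by decide +kernel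
  refine j0 γ R h0 h1 ?_ ?_
  · rw [Rb, e1, e2]
    push_cast
    linarith
  · rw [Rb, e3, e4]
    push_cast
    linarith

end Pool.Agent.Lib.MP_2347b2_mp.F.NT
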