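import Pool.Agent.Lib.MP_2347b2_mp.F.NumB

namespace Pool.Agent.Lib.MP_2347b2_mp.F.IA

theorem c540 : chk2 540 608 = true := by decide +kernel

theorem c608 : chk2 608 701 = true := by decide +kernel

theorem c701 : chk2 701 836 = true := by decide +kernel

theorem c836 : chk2 836 900 = true := by decide +kernel

end Pool.Agent.Lib.MP_2347b2_mp.F.IA
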