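import Pool.Agent.Lib.MP_2347b2_mp.F.NumB1
import Pool.Agent.Lib.MP_2347b2_mp.F.NumB2

namespace Pool.Agent.Lib.MP_2347b2_mp.F.IA

theorem num2_aux {R : ℝ} (hR : 400 ≤ R) (hR' : R ≤ 900) :
    1 + ∑ k ∈ Finset.Icc 2 45, mc k R ≤ 0.45 * √R - 2.1 := by
  rcases le_total R 416 with h | h416
  · exact chk2_ok c400 (by exact_mod_cast hR) (by exact_mod_cast h)
  rcases le_total R 433 with h | h433
  · exact chk2_ok c416 (by exact_mod_cast h416) (by exact_mod_cast h)
  rcases le_total R 458 with h | h458
  · exact chk2_ok c433 (by exact_mod_cast h433) (by exact_mod_cast h)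
  rcases le_total R 493 with h | h493
  · exact chk2_ok c458 (by exact_mod_cast h458) (by exact_mod_cast h)
  rcases le_total R 540 with h | h540
  · exact chk2_ok c493 (by exact_mod_cast h493) (by exact_mod_cast h)
  rcases le_total R 608 with h | h608
  · exact chk2_ok c540 (by exact_mod_cast h540) (by exact_mod_cast h)
  rcases le_total R 701 with h | h701
  · exact chk2_ok c608 (by exact_mod_cast h608) (by exact_mod_cast h)
  rcases le_total R 836 with h | h836
  · exact chk2_ok c701 (by exact_mod_cast h701) (by exact_mod_cast h)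
  exact chk2_ok c836 (by exact_mod_cast h836) (by exact_mod_cast hR')

end Pool.Agent.Lib.MP_2347b2_mp.F.IA
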