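import Pool.Agent.Lib.MP_2347b2_mp.F.Cost
import Pool.Agent.Lib.MP_2347b2_mp.F.Tele
import Pool.Agent.Lib.MP_2347b2_mp.F.Env
import Pool.Agent.Lib.MP_2347b2_mp.F.NumB3
import Pool.Agent.Lib.MP_2347b2_mp.F.NI8

namespace Pool.Agent.Lib.MP_2347b2_mp.F

theorem num1 {γ : ℝ} (h0 : 0 < γ) (h1 : γ < 1) {R : ℝ} (hR : 1 / 6 ≤ R) (hR' : R ≤ 400)
    (hch : 256 ≤ R → Sp γ 1 R ≤ 1) :
    ∃ K : ℕ, 1 ≤ K ∧ K ≤ 45 ∧ (R < 30 → ∀ k : ℕ, K < k → Deep k R) ∧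
      Head γ K R + ∑ k ∈ Finset.Icc (K + 1) 45, mc k R ≤ 0 := by
  exact NT.all_goal h0 h1 hR hR'

theorem num2 {R : ℝ} (hR : 400 ≤ R) (hR' : R ≤ 900) :
    1 + ∑ k ∈ Finset.Icc 2 45, mc k R ≤ 0.45 * √R - 2.1 :=
  IA.num2_aux hR hR'

end Pool.Agent.Lib.MP_2347b2_mp.F
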