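import Pool.Agent.Lib.MP_2347b2_mp.F.RedA

namespace Pool.Agent.Lib.MP_2347b2_mp.F

open MeasureTheory Set Filter Topology

variable {γ : ℝ} {k : ℕ}

theorem redb_a (h0 : 0 < γ) (h1 : γ < 1) (hk : 1 ≤ k) (m : ℕ) :
    γ ^ 2 * √(1 + k ^ 2 * ep γ (sOf γ k) m) ^ 2
      = k ^ 2 * EE γ (sOf γ k) m ^ 2 - sOf γ k ^ 2 := by
  have hs := sk_pos h0 h1 hk
  have h2 : (0 : ℝ) ≤ 1 + k ^ 2 * ep γ (sOf γ k) m :=
    le_trans (by positivity) (a2_pos h0 h1 hk m)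
  rw [Real.sq_sqrt h2, EE_sq (by linarith), sk_sq h0 h1 hk]
  ring

theorem redb_alg {s E a g K R u v u' v' : ℝ} (hs : s ≠ 0) (hR : R ≠ 0)
    (hu : a * u = s * v' - (E - s ^ 2 / R) * v) (hv : a * v = -(s * u') - (E - s ^ 2 / R) * u)
    (ha : g ^ 2 * a ^ 2 = K ^ 2 * E ^ 2 - s ^ 2) :
    E / s ^ 2 * (K ^ 2 * E * (2 * u * u' + 2 * v * v') + 2 * g ^ 2 * a * (u' * v + u * v'))
      = 2 / R * (E / s * (K ^ 2 * E - R) * (u ^ 2 - v ^ 2)) := by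
  have e1 : v' = (a * u + (E - s ^ 2 / R) * v) / s := by
    rw [eq_div_iff hs]
    linarith
  have e2 : u' = -(a * v + (E - s ^ 2 / R) * u) / s := by
    rw [eq_div_iff hs]
    linarith
  rw [e1, e2]
  field_simp
  linear_combination (E * R * (u ^ 2 - v ^ 2)) * ha

theorem DP_deriv (h0 : 0 < γ) (h1 : γ < 1) (hk : 1 ≤ k) (m : ℕ) {R : ℝ} (hR : 0 < R) :
    HasDerivAt (fun R => DP γ k m R / R ^ 2)
      (2 / R ^ 3 * (EE γ (sOf γ k) m / sOf γ k * (k ^ 2 * EE γ (sOf γ k) m - R)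
        * (ff γ (sOf γ k - 1) (m + 1) R ^ 2 - ff γ (sOf γ k) m R ^ 2) - DP γ k m R)) R := by
  have hs := sk_pos h0 h1 hk
  have du := ff_deriv (γ := γ) (l := sOf γ k - 1) (by linarith) (m + 1) hR
  have dv := ff_deriv (γ := γ) (l := sOf γ k) (by linarith) m hR
  have d1 : HasDerivAt (DP γ k m) (2 / R * (EE γ (sOf γ k) m / sOf γ k
      * (k ^ 2 * EE γ (sOf γ k) m - R)
      * (ff γ (sOf γ k - 1) (m + 1) R ^ 2 - ff γ (sOf γ k) m R ^ 2))) R := by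
    refine ((((du.fun_pow 2).fun_add (dv.fun_pow 2)).const_mul
      ((k : ℝ) ^ 2 * EE γ (sOf γ k) m)).fun_add ((du.fun_mul dv).const_mul
        (2 * γ ^ 2 * √(1 + k ^ 2 * ep γ (sOf γ k) m)))).const_mul
      (EE γ (sOf γ k) m / sOf γ k ^ 2) |>.congr_deriv ?_
    rw [← redb_alg hs.ne' hR.ne' (ladder_u h0 h1 hk m hR) (ladder_v h0 h1 hk m hR)
      (redb_a h0 h1 hk m)]
    norm_num
  refine (d1.fun_div (hasDerivAt_pow 2 R) (by positivity)).congr_deriv ?_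
  have := hR.ne'
  norm_num
  field_simp

theorem redb_DP_le (h0 : 0 < γ) (h1 : γ < 1) (hk : 1 ≤ k) (m : ℕ) (R : ℝ) :
    DP γ k m R ≤ (k ^ 2 + 1) / sOf γ k ^ 2
      * (ff γ (sOf γ k - 1) (m + 1) R ^ 2 + ff γ (sOf γ k) m R ^ 2) := by
  have hs := sk_pos h0 h1 hk
  have hl : -1 < sOf γ k := by linarith
  have E0 := EE_pos (γ := γ) hl m
  have E1 := EE_le_one (γ := γ) hl m
  have a0 := Real.sqrt_nonneg (1 + k ^ 2 * ep γ (sOf γ k) m)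
  have a1 : √(1 + k ^ 2 * ep γ (sOf γ k) m) ≤ 1 := by
    refine Real.sqrt_le_one.2 ?_
    nlinarith [ep_neg (γ := γ) hl m, sq_nonneg (k : ℝ)]
  rw [DP]
  generalize √(1 + k ^ 2 * ep γ (sOf γ k) m) = a at *
  generalize EE γ (sOf γ k) m = E at *
  generalize ff γ (sOf γ k - 1) (m + 1) R = u
  generalize ff γ (sOf γ k) m R = v
  have p0 : 0 ≤ u ^ 2 + v ^ 2 := by positivity
  have g1 : γ ^ 2 * a ≤ 1 := by nlinarith
  have g0 : 0 ≤ γ ^ 2 * a := by positivity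
  have b1 : 2 * γ ^ 2 * a * (u * v) ≤ u ^ 2 + v ^ 2 := by
    nlinarith [mul_nonneg g0 (sq_nonneg (u - v)), mul_le_mul_of_nonneg_right g1 p0]
  have b2 : (k : ℝ) ^ 2 * E * (u ^ 2 + v ^ 2) ≤ k ^ 2 * (u ^ 2 + v ^ 2) := by
    nlinarith [mul_nonneg (sq_nonneg (k : ℝ)) p0]
  have b3 : 0 ≤ ((k : ℝ) ^ 2 + 1) * (u ^ 2 + v ^ 2) := by positivity
  rw [div_mul_eq_mul_div, div_mul_eq_mul_div]
  refine div_le_div_of_nonneg_right ?_ (by positivity)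
  nlinarith [mul_le_mul_of_nonneg_left (add_le_add b2 b1) E0.le]

theorem redb_DP_nonneg (h0 : 0 < γ) (h1 : γ < 1) (hk : 1 ≤ k) (m : ℕ) (R : ℝ) :
    0 ≤ DP γ k m R :=
  le_trans (by positivity) (le_DP h0 h1 hk m R)

theorem redb_bound (h0 : 0 < γ) (h1 : γ < 1) (hk : 1 ≤ k) (m : ℕ) {a b y : ℝ} (ha : 0 < a)
    (hy : y ∈ Ioo a b) :
    |2 / y ^ 3 * (EE γ (sOf γ k) m / sOf γ k * (k ^ 2 * EE γ (sOf γ k) m - y)
        * (ff γ (sOf γ k - 1) (m + 1) y ^ 2 - ff γ (sOf γ k) m y ^ 2) - DP γ k m y)|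
      ≤ 2 / a ^ 3 * (1 / sOf γ k * (k ^ 2 + b) + (k ^ 2 + 1) / sOf γ k ^ 2)
        * (ff γ (sOf γ k - 1) (m + 1) y ^ 2 + ff γ (sOf γ k) m y ^ 2) := by
  have hs := sk_pos h0 h1 hk
  have hl : -1 < sOf γ k := by linarith
  have E0 := EE_pos (γ := γ) hl m
  have E1 := EE_le_one (γ := γ) hl m
  have D0 := redb_DP_nonneg h0 h1 hk m y
  have D1 := redb_DP_le h0 h1 hk m y
  have y0 : 0 < y := ha.trans hy.1
  have b0 : 0 < b := y0.trans hy.2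
  generalize DP γ k m y = D at *
  generalize EE γ (sOf γ k) m = E at *
  generalize ff γ (sOf γ k - 1) (m + 1) y = u at *
  generalize ff γ (sOf γ k) m y = v at *
  generalize sOf γ k = s at *
  have c1 : |2 / y ^ 3| ≤ 2 / a ^ 3 := by
    rw [abs_of_pos (by positivity)]
    exact div_le_div_of_nonneg_left (by norm_num) (by positivity)
      (pow_le_pow_left₀ ha.le hy.1.le 3)
  have c2 : |E / s| ≤ 1 / s := by
    rw [abs_of_pos (by positivity)]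
    exact div_le_div_of_nonneg_right E1 hs.le
  have c3 : |(k : ℝ) ^ 2 * E - y| ≤ k ^ 2 + b := by
    rw [abs_le]
    constructor <;> nlinarith [hy.2, sq_nonneg (k : ℝ), mul_nonneg (sq_nonneg (k : ℝ)) E0.le]
  have c4 : |u ^ 2 - v ^ 2| ≤ u ^ 2 + v ^ 2 := by
    rw [abs_le]
    constructor <;> nlinarith [sq_nonneg u, sq_nonneg v]
  have c5 : |E / s * (k ^ 2 * E - y) * (u ^ 2 - v ^ 2)| ≤ 1 / s * (k ^ 2 + b) * (u ^ 2 + v ^ 2) := by
    rw [abs_mul, abs_mul]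
    exact mul_le_mul (mul_le_mul c2 c3 (abs_nonneg _) (by positivity)) c4 (abs_nonneg _)
      (by positivity)
  rw [abs_mul, mul_assoc (2 / a ^ 3)]
  refine mul_le_mul c1 ((abs_sub _ _).trans ?_) (abs_nonneg _) (by positivity)
  rw [abs_of_nonneg D0, add_mul]
  exact add_le_add c5 D1

theorem redb_Tp (h0 : 0 < γ) (h1 : γ < 1) (hk : 1 ≤ k) (m : ℕ) {R : ℝ} (hR : 0 < R) :
    k * (2 / R ^ 3 * (EE γ (sOf γ k) m / sOf γ k * (k ^ 2 * EE γ (sOf γ k) m - R)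
        * (ff γ (sOf γ k - 1) (m + 1) R ^ 2 - ff γ (sOf γ k) m R ^ 2) - DP γ k m R))
      ≤ 2 / R ^ 3 * Tp γ k m R := by
  have hs := sk_pos h0 h1 hk
  have hY := YY_eq h0 h1 hk m hR
  have hD := le_DP h0 h1 hk m R
  rw [mul_left_comm]
  refine mul_le_mul_of_nonneg_left ?_ (by positivity)
  rw [Tp, mul_assoc (k : ℝ)]
  refine mul_le_mul_of_nonneg_left ?_ (by positivity)
  have e : ff γ (sOf γ k - 1) (m + 1) R ^ 2 = sOf γ k * YY γ k m R + ff γ (sOf γ k) m R ^ 2 := by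
    linarith
  rw [e] at hD
  rw [← hY]
  have e2 : EE γ (sOf γ k) m / sOf γ k * (k ^ 2 * EE γ (sOf γ k) m - R) * (sOf γ k * YY γ k m R)
      = EE γ (sOf γ k) m * (k ^ 2 * EE γ (sOf γ k) m - R) * YY γ k m R := by
    field_simp
  rw [e2]
  linarith

theorem chD_deriv (h0 : 0 < γ) (h1 : γ < 1) (hk : 1 ≤ k) {R : ℝ} (hR : 0 < R) :
    ∃ d : ℝ, HasDerivAt (fun R => (k : ℝ) * chD γ k R / R ^ 2) d R ∧
      d ≤ 2 / R ^ 3 * Sp γ k R := by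
  have hs := sk_pos h0 h1 hk
  have k0 : (0 : ℝ) < k := by exact_mod_cast hk
  have hR2 : 0 < R / 2 := by positivity
  obtain ⟨C, hC⟩ := u_crude h0 h1 hk (b := 2 * R) hR2
  obtain ⟨g', hg'⟩ : ∃ g' : ℕ → ℝ → ℝ, ∀ m y, g' m y = 2 / y ^ 3 * (EE γ (sOf γ k) m / sOf γ k
      * (k ^ 2 * EE γ (sOf γ k) m - y)
      * (ff γ (sOf γ k - 1) (m + 1) y ^ 2 - ff γ (sOf γ k) m y ^ 2) - DP γ k m y) :=
    ⟨_, fun _ _ => rfl⟩
  obtain ⟨A, hA⟩ : ∃ A : ℝ, A = 2 / (R / 2) ^ 3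
      * (1 / sOf γ k * (k ^ 2 + 2 * R) + (k ^ 2 + 1) / sOf γ k ^ 2) := ⟨_, rfl⟩
  have A0 : 0 ≤ A := by rw [hA]; positivity
  have su : Summable fun m : ℕ => A * (C / ((m : ℝ) + 1) ^ 3) := by
    have s1 : Summable fun m : ℕ => 1 / ((m + 1 : ℕ) : ℝ) ^ 3 :=
      (summable_nat_add_iff 1).2 (Real.summable_one_div_nat_pow.2 (by norm_num))
    refine (s1.mul_left (A * C)).congr fun m => ?_
    push_cast
    ring
  have hb : ∀ m y, y ∈ Ioo (R / 2) (2 * R) → ‖g' m y‖ ≤ A * (C / ((m : ℝ) + 1) ^ 3) := by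
    intro m y hy
    rw [hg', Real.norm_eq_abs]
    refine (redb_bound h0 h1 hk m hR2 hy).trans ?_
    rw [← hA]
    exact mul_le_mul_of_nonneg_left (hC m y (Ioo_subset_Icc_self hy)) A0
  have hin : R ∈ Ioo (R / 2) (2 * R) := ⟨by linarith, by linarith⟩
  have d2 := hasDerivAt_tsum_of_isPreconnected (g := fun m y => DP γ k m y / y ^ 2) (g' := g') su
    isOpen_Ioo isPreconnected_Ioo
    (fun m y hy => by rw [hg']; exact DP_deriv h0 h1 hk m (hR2.trans hy.1)) hb hin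
    ((summable_DP h0 h1 hk hR).div_const _) hin
  have dg := ff_deriv (γ := γ) (l := sOf γ k - 1) (by linarith) 0 hR
  have d1 := (dg.fun_pow 2).fun_div (hasDerivAt_pow 2 R) (by positivity)
  have d3 := (d1.fun_add d2).const_mul (k : ℝ)
  have ef : (fun R => (k : ℝ) * chD γ k R / R ^ 2) = fun y => (k : ℝ) *
      (ff γ (sOf γ k - 1) 0 y ^ 2 / y ^ 2 + ∑' m, DP γ k m y / y ^ 2) := by
    funext y
    rw [chD, tsum_div_const]
    ring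
  refine ⟨_, ef ▸ d3, ?_⟩
  have sg : Summable fun m => g' m R := Summable.of_norm_bounded su fun m => hb m R hin
  have t1 : (k : ℝ) * ∑' m, g' m R ≤ 2 / R ^ 3 * ∑' m, Tp γ k m R := by
    rw [← tsum_mul_left, ← tsum_mul_left]
    refine (sg.mul_left _).tsum_le_tsum (fun m => ?_) ((summable_Tp h0 h1 hk hR).mul_left _)
    rw [hg']
    exact redb_Tp h0 h1 hk m hR
  rw [Sp, mul_add, mul_add]
  refine add_le_add (le_of_eq ?_) t1
  rw [ground_deriv h0 h1 hk, t0]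
  have := hR.ne'
  norm_num
  field_simp

theorem chD_nonneg (h0 : 0 < γ) (h1 : γ < 1) (hk : 1 ≤ k) {R : ℝ} (hR : 0 < R) :
    0 ≤ chD γ k R :=
  add_nonneg (sq_nonneg _) (tsum_nonneg fun m => redb_DP_nonneg h0 h1 hk m R)

theorem redb_fin (h0 : 0 < γ) (h1 : γ < 1)
    (hS : ∀ R : ℝ, 1 / 6 ≤ R → ∀ K : ℕ, R ≤ K → 45 ≤ K → ∑ k ∈ Finset.Icc 1 K, Sp γ k R ≤ 0)
    {K : ℕ} (hK : 45 ≤ K) :
    AntitoneOn (fun R => ∑ k ∈ Finset.Icc 1 K, (k : ℝ) * chD γ k R / R ^ 2) (Icc (1 / 6) K) := by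
  have hd : ∀ (R : ℝ) (k : ℕ), ∃ d : ℝ, 0 < R → 1 ≤ k →
      HasDerivAt (fun R => (k : ℝ) * chD γ k R / R ^ 2) d R ∧ d ≤ 2 / R ^ 3 * Sp γ k R := by
    intro R k
    by_cases h : 0 < R ∧ 1 ≤ k
    · obtain ⟨d, hd⟩ := chD_deriv h0 h1 h.2 h.1
      exact ⟨d, fun _ _ => hd⟩
    · exact ⟨0, fun a b => absurd ⟨a, b⟩ h⟩
  choose d hd using hd
  have hs : ∀ R : ℝ, 0 < R →
      HasDerivAt (fun R => ∑ k ∈ Finset.Icc 1 K, (k : ℝ) * chD γ k R / R ^ 2)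
        (∑ k ∈ Finset.Icc 1 K, d R k) R := fun R hR =>
    HasDerivAt.fun_sum fun k hk => (hd R k hR (Finset.mem_Icc.1 hk).1).1
  have hp : ∀ R ∈ Icc (1 / 6 : ℝ) K, 0 < R := fun R hR => lt_of_lt_of_le (by norm_num) hR.1
  refine antitoneOn_of_hasDerivWithinAt_nonpos (convex_Icc _ _)
    (fun R hR => (hs R (hp R hR)).continuousAt.continuousWithinAt)
    (fun R hR => (hs R (hp R (interior_subset hR))).hasDerivWithinAt) fun R hR => ?_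
  have hR' := interior_subset hR
  have R0 := hp R hR'
  refine (Finset.sum_le_sum fun k hk => (hd R k R0 (Finset.mem_Icc.1 hk).1).2).trans ?_
  rw [← Finset.mul_sum]
  exact mul_nonpos_of_nonneg_of_nonpos (by positivity) (hS R hR'.1 K hR'.2 hK)

theorem redb_sum (h0 : 0 < γ) (h1 : γ < 1) (K : ℕ) {R : ℝ} (hR : 0 < R) :
    ∑ n ∈ Finset.range K, ENNReal.ofReal
      (γ ^ 3 / (2 * Real.pi) * (((n + 1 : ℕ) : ℝ) * chD γ (n + 1) R / R ^ 2))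
      = ENNReal.ofReal (γ ^ 3 / (2 * Real.pi)
        * ∑ k ∈ Finset.Icc 1 K, (k : ℝ) * chD γ k R / R ^ 2) := by
  rw [← ENNReal.ofReal_sum_of_nonneg fun n _ => mul_nonneg (by positivity) (div_nonneg
    (mul_nonneg (by positivity) (chD_nonneg h0 h1 (Nat.le_add_left 1 n) hR)) (by positivity)),
    ← Finset.mul_sum, ← Finset.Ico_add_one_right_eq_Icc, Finset.sum_Ico_eq_sum_range]
  simp only [Nat.add_sub_cancel, add_comm 1]

theorem far_antitone (h0 : 0 < γ) (h1 : γ < 1)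
    (hS : ∀ R : ℝ, 1 / 6 ≤ R → ∀ K : ℕ, R ≤ K → 45 ≤ K → ∑ k ∈ Finset.Icc 1 K, Sp γ k R ≤ 0) :
    AntitoneOn (furryDensity γ) (Ici (1 / (6 * γ))) := by
  intro a ha b _ hab
  have a0 : 0 < a := lt_of_lt_of_le (by positivity) (mem_Ici.1 ha)
  have b0 : 0 < b := a0.trans_le hab
  have a1 : 1 / 6 ≤ γ * a := by
    have := mem_Ici.1 ha
    rw [div_le_iff₀ (by positivity)] at this
    linarith
  have ab : γ * a ≤ γ * b := mul_le_mul_of_nonneg_left hab h0.le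
  rw [density_formula h0 h1 a0, density_formula h0 h1 b0, ENNReal.tsum_eq_iSup_nat]
  refine iSup_le fun N => ?_
  obtain ⟨K, K1, K2, K3⟩ : ∃ K : ℕ, N ≤ K ∧ 45 ≤ K ∧ γ * b ≤ K :=
    ⟨N + 45 + ⌈γ * b⌉₊, by omega, by omega, by
      push_cast
      linarith [Nat.le_ceil (γ * b), Nat.cast_nonneg (α := ℝ) N]⟩
  refine (Finset.sum_le_sum_of_subset (Finset.range_mono K1)).trans
    (le_trans ?_ (ENNReal.sum_le_tsum (Finset.range K)))
  rw [redb_sum h0 h1 K (mul_pos h0 a0), redb_sum h0 h1 K (mul_pos h0 b0)]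
  exact ENNReal.ofReal_le_ofReal (mul_le_mul_of_nonneg_left
    (redb_fin h0 h1 hS K2 ⟨a1, ab.trans K3⟩ ⟨a1.trans ab, K3⟩ ab) (by positivity))

theorem full_of_sum (h0 : 0 < γ) (h1 : γ < 1)
    (hS : ∀ R : ℝ, 1 / 6 ≤ R → ∀ K : ℕ, R ≤ K → 45 ≤ K → ∑ k ∈ Finset.Icc 1 K, Sp γ k R ≤ 0) :
    (∀ r : ℝ, 0 < r → 0 < furryDensity γ r ∧ furryDensity γ r < ⊤) ∧
      ∀ r₁ r₂ : ℝ, 0 < r₁ → r₁ ≤ r₂ → furryDensity γ r₂ ≤ furryDensity γ r₁ := by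
  have c0 : 0 < 1 / (6 * γ) := by positivity
  have hf := far_antitone h0 h1 hS
  have hn := near_antitone h0 h1
  have hm : ∀ r₁ r₂ : ℝ, 0 < r₁ → r₁ ≤ r₂ → furryDensity γ r₂ ≤ furryDensity γ r₁ := by
    intro a b a0 hab
    rcases le_total b (1 / (6 * γ)) with hb | hb
    · exact hn ⟨a0, hab.trans hb⟩ ⟨a0.trans_le hab, hb⟩ hab
    rcases le_total a (1 / (6 * γ)) with ha | ha
    · exact (hf (mem_Ici.2 le_rfl) hb hb).trans (hn ⟨a0, ha⟩ ⟨c0, le_rfl⟩ ha)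
    · exact hf ha hb hab
  refine ⟨fun r hr => ⟨density_pos h0 h1 hr, ?_⟩, hm⟩
  rcases le_total r (1 / (6 * γ)) with h | h
  · exact near_finite h0 h1 ⟨hr, h⟩
  · exact (hm _ _ c0 h).trans_lt (near_finite h0 h1 ⟨c0, le_rfl⟩)

end Pool.Agent.Lib.MP_2347b2_mp.F
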