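import Pool.Agent.Lib.MP_2347b2_mp.F.M12
import Pool.Agent.Lib.MP_2347b2_mp.F.Main2
import Pool.Agent.Lib.MP_2347b2_mp.F.Ch1
import Pool.Agent.Lib.MP_2347b2_mp.F.Big
import Pool.Agent.Lib.MP_2347b2_mp.F.Num
import Pool.Agent.Lib.MP_2347b2_mp.F.RedB

namespace Pool.Agent.Lib.MP_2347b2_mp.F

variable {γ : ℝ}

theorem sum_nonpos (h0 : 0 < γ) (h1 : γ < 1) (R : ℝ) (hR : 1 / 6 ≤ R) (K : ℕ) (hK : R ≤ K)
    (hK' : 45 ≤ K) : ∑ k ∈ Finset.Icc 1 K, Sp γ k R ≤ 0 := by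
  have hR0 : 0 < R := by linarith
  rcases le_total R 400 with h | h
  · obtain ⟨J, hJ1, hJ, hd, hs⟩ := num1 h0 h1 hR h (ch1 h0 h1)
    have t := tele h0 h1 hJ1 (hJ.trans hK') hR0 hK
    have e : ∑ k ∈ Finset.Icc (J + 1) K, MM γ k R ≤ ∑ k ∈ Finset.Icc (J + 1) K, mc k R :=
      Finset.sum_le_sum fun k hk => by
        have := (Finset.mem_Icc.1 hk).1
        exact MM_le_mc h0 h1 (by omega) hR0 fun h30 => hd h30 k (by omega)
    have e2 : ∑ k ∈ Finset.Icc (J + 1) 45, mc k R = ∑ k ∈ Finset.Icc (J + 1) K, mc k R := by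
      refine Finset.sum_subset (Finset.Icc_subset_Icc_right hK') fun k hk hk' => ?_
      have h2 : 45 < k := by
        simp only [Finset.mem_Icc] at hk hk'
        omega
      simp [mc, deep_of_large (show R ≤ 900 by linarith) h2]
    linarith
  · have t := tele h0 h1 le_rfl (show 1 ≤ K by omega) hR0 hK
    have e : ∑ k ∈ Finset.Icc 2 K, MM γ k R ≤ ∑ k ∈ Finset.Icc 2 K, mc k R :=
      Finset.sum_le_sum fun k hk =>
        MM_le_mc h0 h1 (Finset.mem_Icc.1 hk).1 hR0 fun h30 => absurd h30 (by linarith)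
    have c := ch1 h0 h1 (show 256 ≤ R by linarith)
    have m := main_term h0 h1 h
    have b := big_sum h K
    have hH : Head γ 1 R = Sp γ 1 R - ck γ 2 * BB γ (sOf γ (2 : ℕ) - 1) R := by
      simp [Head]
    rw [hH] at t
    norm_num at t e m b ⊢
    linarith

theorem full (h0 : 0 < γ) (h1 : γ < 1) :
    (∀ r : ℝ, 0 < r → 0 < furryDensity γ r ∧ furryDensity γ r < ⊤) ∧
      ∀ r₁ r₂ : ℝ, 0 < r₁ → r₁ ≤ r₂ → furryDensity γ r₂ ≤ furryDensity γ r₁ :=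
  full_of_sum h0 h1 (sum_nonpos h0 h1)

end Pool.Agent.Lib.MP_2347b2_mp.F
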