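import Pool.Agent.Lib.MP_2347b2_mp.F.Dtwo
import Pool.Agent.Lib.MP_2347b2_mp.F.L2

namespace Pool.Agent.Lib.MP_2347b2_mp.F

open MeasureTheory Set Filter Topology Complex

/-- two neighbouring angular parameters of the level `k` -/
structure Pr (γ : ℝ) (k : ℕ) (l l' : ℝ) : Prop where
  h0 : 0 < γ
  h1 : γ ^ 2 ≤ 1
  hk : 2 ≤ k
  hl : 1.7 ≤ l
  hll : l ≤ l'
  hL : Lk k ≤ l * (l + 1)
  hU : bb l' ≤ Uk k
  hd : l' * (l' + 1) - l * (l + 1) ≤ 1 / k
  hΛ : |l * (l + 1) + γ ^ 2 - (k ^ 2 + k)| ≤ 1 / 2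

/-- the integrand of the mismatch -/
noncomputable def Hm (γ l l' R : ℝ) (ε : ℂ) : ℂ :=
  (R / Ec γ ε - (l * (l + 1) + γ ^ 2 : ℝ)) * (gg γ l R ε - gg γ l' R ε)

variable {γ l l' R : ℝ} {k : ℕ}

theorem pr_of (h0 : 0 < γ) (h1 : γ < 1) (hk : 2 ≤ k) :
    Pr γ k (sOf γ k) (sOf γ (k + 1 : ℕ) - 1) := by
  have k1 : 1 ≤ k := by omega
  have k2 : (2 : ℝ) ≤ k := by exact_mod_cast hk
  have a1 := le_sk' h0 h1 hk
  have a2 := sk_sq h0 h1 k1
  have a3 := sk_le h0 h1 k1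
  obtain ⟨d1, d2, -, d4⟩ := delta_bounds h0 h1 hk
  have g1 : γ ^ 2 ≤ 1 := by nlinarith
  refine ⟨h0, g1, hk, by linarith, d1, ?_, ?_, ?_, ?_⟩
  · unfold Lk
    nlinarith
  · unfold bb Uk
    nlinarith
  · rw [sub_add_cancel]
    exact d4
  · rw [abs_le]
    constructor <;> nlinarith

theorem topH_of (h1 : γ ^ 2 ≤ 1) (hl : 1.7 ≤ l) (hR : 30 ≤ R) (hb : bb l ≤ 2 * R) :
    TopH γ l R := by
  refine ⟨h1, by linarith, hR, ?_, ?_⟩
  · unfold bb at hb
    linarith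
  · have : 8 / R ≤ 8 / 30 := by gcongr
    nlinarith [sq_nonneg γ]

theorem misa_F1 (hR : 0 ≤ R) {E : ℂ} {c : ℝ} (h0 : 0 < ‖E‖) (hc : ‖1 - E‖ ≤ c * ‖E‖) (x : ℝ) :
    ‖R / E - (x : ℝ)‖ ≤ |R - x| + c * R := by
  have hE : E ≠ 0 := norm_pos_iff.mp h0
  have e : (R : ℂ) / E - (x : ℝ) = ((R - x : ℝ) : ℂ) + R * ((1 - E) / E) := by
    push_cast
    field_simp
    ring
  rw [e]
  refine (norm_add_le _ _).trans (add_le_add (by rw [norm_real, Real.norm_eq_abs]) ?_)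
  rw [norm_mul, norm_real, Real.norm_of_nonneg hR, norm_div, mul_comm]
  exact mul_le_mul_of_nonneg_right ((div_le_iff₀ h0).mpr hc) hR

theorem misa_F (h : Pr γ k l l') (hR : 0 ≤ R) {E : ℂ} {c : ℝ} (h0 : 0 < ‖E‖)
    (hc : ‖1 - E‖ ≤ c * ‖E‖) : ‖R / E - (l * (l + 1) + γ ^ 2 : ℝ)‖ ≤ F0 k R + c * R := by
  refine (misa_F1 hR h0 hc _).trans (add_le_add ?_ le_rfl)
  have a1 := abs_sub (R - k ^ 2 - k) (l * (l + 1) + γ ^ 2 - (k ^ 2 + k))
  have e : R - k ^ 2 - k - (l * (l + 1) + γ ^ 2 - (k ^ 2 + k)) = R - (l * (l + 1) + γ ^ 2) := by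
    ring
  rw [e] at a1
  have := h.hΛ
  unfold F0
  linarith

theorem Fw_right (h : Pr γ k l l') (hR : 30 ≤ R) {θ : ℝ} (hθ : 0 < θ) (hθ' : θ ≤ 8 / R) :
    ‖R / Ec γ (θ * I) - (l * (l + 1) + γ ^ 2 : ℝ)‖ ≤ F0 k R + 4 := by
  obtain ⟨-, -, -, -, a1, a2⟩ := Ec_right h.h1 hθ.le
  have hR0 : 0 < R := by linarith
  have a3 : θ * R ≤ 8 := (le_div_iff₀ hR0).mp hθ'
  refine (misa_F h hR0.le (c := θ / 2) (by linarith) ?_).trans (by linarith)
  nlinarith

theorem Fw_ell (h : Pr γ k l l') (hR : 30 ≤ R) {ε : ℂ} (hε : ε ∈ Ell (8 / R)) :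
    ‖R / Ec γ ε - (l * (l + 1) + γ ^ 2 : ℝ)‖ ≤ F0 k R + 4 / 3 * R * A0 ε := by
  obtain ⟨u, a1, -, a3, a4, a5, -, a7, -, -⟩ := ell_basic h.h1 hR hε
  obtain ⟨-, -, -, -, b5, -, -⟩ := Ec_strip h.h1 a5 a4 u.2.le
  have hR0 : 0 < R := by linarith
  have b1 := re_le_norm (Ec γ ε)
  have b2 := norm_nonneg ε
  refine (misa_F h hR0.le (c := 4 / 3 * A0 ε) (by linarith) ?_).trans (le_of_eq (by ring))
  nlinarith

theorem Fw_left (h : Pr γ k l l') (hR : 30 ≤ R) (hb : bb l + 1 ≤ 2 * R) {ε : ℂ}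
    (hε : ε ∈ Ell (8 / R)) : ‖R / Ec γ ε - (l * (l + 1) + γ ^ 2 : ℝ)‖ ≤ 2 * R := by
  obtain ⟨-, -, -, -, -, -, -, a7, -, -⟩ := ell_basic h.h1 hR hε
  have hR0 : 0 < R := by linarith
  have b1 := re_le_norm (Ec γ ε)
  have b2 : ‖1 - Ec γ ε‖ ≤ 1 * ‖Ec γ ε‖ := by
    rw [one_mul]
    apply rho_nle
    simp only [sub_re, one_re, sub_im, one_im]
    nlinarith
  refine (misa_F1 hR0.le (by linarith) b2 _).trans ?_
  have b3 : |R - (l * (l + 1) + γ ^ 2)| ≤ R := by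
    have c1 := h.hl
    have c2 := h.h1
    have c3 : 0 ≤ l * (l + 1) := by nlinarith
    unfold bb at hb
    rw [abs_le]
    constructor <;> nlinarith [sq_nonneg γ]
  linarith

theorem Pr.basic (h : Pr γ k l l') : 0 ≤ l ∧ 0 ≤ l' ∧ 4.5 ≤ l * (l + 1) ∧
    l * (l + 1) ≤ l' * (l' + 1) ∧ bb l ≤ bb l' ∧ 4 / 3 < (l + 1) ^ 2 + γ ^ 2 ∧
    4 / 3 < (l' + 1) ^ 2 + γ ^ 2 := by
  have c1 := h.hl
  have c2 := h.hll
  have c3 : l * (l + 1) ≤ l' * (l' + 1) := by nlinarith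
  refine ⟨by linarith, by linarith, by nlinarith, c3, ?_, by nlinarith [sq_nonneg γ],
    by nlinarith [sq_nonneg γ]⟩
  unfold bb
  linarith

theorem misa_wt (h1 : γ ^ 2 ≤ 1) {T : ℝ} (hT : 0 < T) (a x : ℝ) :
    Good T fun z => a / Ec γ z - (x : ℝ) := by
  have := Good.of_cont hT (Wt_inv h1 a (-x)).1.continuousOn
  simpa only [ofReal_neg, sub_eq_add_neg] using this

theorem misa_good (h : Pr γ k l l') (hR : 30 ≤ R) (hb : bb l' + 1 ≤ 2 * R) :
    Good (8 / R) (gg γ l R) ∧ Good (8 / R) (gg γ l' R) := by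
  have hR0 : 0 < R := by linarith
  have hT : 0 < 8 / R := by positivity
  obtain ⟨p1, p2, -, -, p5, p6, p7⟩ := h.basic
  exact ⟨good_gg h.h0 h.h1 p1 p6 hR0 hT (out_of h.h1 p1 (by linarith) _),
    good_gg h.h0 h.h1 p2 p7 hR0 hT (out_of h.h1 p2 (by linarith) _)⟩

theorem Hm_good (h : Pr γ k l l') (hR : 30 ≤ R) (hb : bb l' + 1 ≤ 2 * R) :
    Good (8 / R) (Hm γ l l' R) := by
  have hR0 : 0 < R := by linarith
  have hT : 0 < 8 / R := by positivity
  obtain ⟨g1, g2⟩ := misa_good h hR hb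
  exact (misa_wt h.h1 hT R _).mul (g1.sub g2)

theorem BB_sub (h : Pr γ k l l') (hR : 30 ≤ R) (hb : bb l' + 1 ≤ 2 * R) :
    BB γ l R - BB γ l' R = ctr (8 / R) (Hm γ l l' R) / Real.pi
      + (l' * (l' + 1) - l * (l + 1)) * DD γ l' R := by
  have hR0 : 0 < R := by linarith
  have hT : 0 < 8 / R := by positivity
  obtain ⟨g1, g2⟩ := misa_good h hR hb
  obtain ⟨p1, p2, -, -, p5, p6, p7⟩ := h.basic
  have o1 : Out γ l R (8 / R) := out_of h.h1 p1 (by linarith) _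
  have o2 : Out γ l' R (8 / R) := out_of h.h1 p2 (by linarith) _
  have e1 := BB_ctr h.h0 h.h1 p1 p6 hR0 hT o1
  have e2 := BB_ctr h.h0 h.h1 p2 p7 hR0 hT o2
  have e3 := DD_ctr h.h0 h.h1 p2 p7 hR0 hT o2
  have w1 := misa_wt h.h1 hT R (l * (l + 1) + γ ^ 2)
  have w2 := misa_wt h.h1 hT R (l' * (l' + 1) + γ ^ 2)
  have e4 := ctr_sub hT (w1.mul g1) (w2.mul g2)
  have e5 := ctr_add hT (Hm_good h hR hb)
    ((Good.const (8 / R) ((l' * (l' + 1) - l * (l + 1) : ℝ) : ℂ)).mul g2)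
  have e6 := ctr_smul (8 / R) (l' * (l' + 1) - l * (l + 1)) (gg γ l' R)
  have e7 : (fun z => Hm γ l l' R z + ((l' * (l' + 1) - l * (l + 1) : ℝ) : ℂ) * gg γ l' R z)
      = fun z => (R / Ec γ z - (l * (l + 1) + γ ^ 2 : ℝ)) * gg γ l R z
        - (R / Ec γ z - (l' * (l' + 1) + γ ^ 2 : ℝ)) * gg γ l' R z := by
    funext z
    unfold Hm
    push_cast
    ring
  rw [e7, e4, e6, ← e1, ← e2, ← e3] at e5
  have hp := Real.pi_pos
  field_simp
  linarith

theorem misa_norm (h : Pr γ k l l') (hR : 0 < R) {ε : ℂ} (hε : ε ∈ UU) {W J : ℝ}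
    (hW : ‖R / Ec γ ε - (l * (l + 1) + γ ^ 2 : ℝ)‖ ≤ W) (j1 : JX γ l R ε ≤ J)
    (j2 : JX γ l' R ε ≤ J) : ‖Hm γ l l' R ε‖ ≤ W * (1 / k * J) := by
  obtain ⟨p1, p2, -, p4, -⟩ := h.basic
  have a1 := res_le h.h1 p1 p2 hε hR
  rw [abs_of_nonneg (by linarith)] at a1
  have a2 := JX_nonneg γ l ε hR
  have a3 := JX_nonneg γ l' ε hR
  have a4 : ‖gg γ l R ε - gg γ l' R ε‖ ≤ 1 / k * J :=
    a1.trans (mul_le_mul h.hd (by linarith) (by linarith) (by positivity))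
  unfold Hm
  rw [norm_mul]
  exact mul_le_mul hW a4 (norm_nonneg _) ((norm_nonneg _).trans hW)

theorem Hm_left (h : Pr γ k l l') (hR : 30 ≤ R) (hb : bb l' + 1 ≤ 2 * R) :
    |cL (8 / R) (Hm γ l l' R)| ≤ 1 / k * (80 / R ^ 2) := by
  have hR0 : 0 < R := by linarith
  have hT : 0 < 8 / R := by positivity
  obtain ⟨p1, p2, p3, p4, p5, -, -⟩ := h.basic
  refine (cL_le hT (Hm_good h hR hb) (c := 2 * R * (1 / k * (3.91 / R ^ 2))) ?_).trans ?_
  · intro ε hε hre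
    obtain ⟨u, -, -, -, -, -, -, -, a9, -⟩ := ell_basic h.h1 hR hε
    exact misa_norm h hR0 u (Fw_left h hR (by linarith) hε) (JX_left h.h1 p1 u hR0 p3 hre a9)
      (JX_left h.h1 p2 u hR0 (by linarith) hre a9)
  · have e : 8 / R * (2 * R * (1 / k * (3.91 / R ^ 2))) = 1 / k * (62.56 / R ^ 2) := by
      field_simp
      norm_num
    rw [e]
    gcongr
    norm_num

theorem misa_F0 (k : ℕ) (R : ℝ) : 0 < F0 k R := by
  unfold F0
  positivity

theorem misa_top (k : ℕ) (hR : 0 < R) : 0 ≤ topI k R := by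
  have := misa_F0 k R
  unfold topI
  positivity

theorem misa_c1 (a b : ℝ) : ContinuousOn (fun A : ℝ => (a + b * A) / (A * √A)) (Ioi 0) :=
  ContinuousOn.div (by fun_prop) (by fun_prop) fun A hA => by
    have : 0 < A := hA
    positivity

theorem misa_c2 (a b : ℝ) : ContinuousOn (fun A : ℝ => (a + b * A) / A) (Ioi 0) :=
  ContinuousOn.div (by fun_prop) (by fun_prop) fun A hA => ne_of_gt hA

theorem misa_I (k : ℕ) (hR : 0 < R) :
    ∫ A in (8 / R)..(8 / R + 3 / 4), (F0 k R + 4 / 3 * R * A) / (A * √A) ≤ R ^ 2 * topI k R := by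
  have a0 := misa_F0 k R
  refine (int_A32 (by positivity) _ _ a0.le (by positivity)).trans ?_
  have a1 : 2.82 ≤ √8 := Real.le_sqrt_of_sq_le (by norm_num)
  have a2 : 0 < √R := Real.sqrt_pos.mpr hR
  have e : R ^ 2 * topI k R = 0.71 * F0 k R * √R + 2.4 * R := by
    unfold topI
    field_simp
  have a3 : 2 * F0 k R / √(8 / R) ≤ 0.71 * F0 k R * √R := by
    rw [Real.sqrt_div (by norm_num), div_div_eq_mul_div, div_le_iff₀ (by linarith)]
    have := mul_pos a0 a2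
    nlinarith
  rw [e]
  linarith

theorem Hm_top1 (h : Pr γ k l l') (hR : 100 ≤ R) (hU : Uk k ≤ R / 2) :
    |cT (8 / R) (Hm γ l l' R)| ≤ 1 / k * (3.5 * topI k R) := by
  have hR0 : 0 < R := by linarith
  have hR3 : 30 ≤ R := by linarith
  have hT : 0 < 8 / R := by positivity
  obtain ⟨p1, p2, p3, p4, p5, -, -⟩ := h.basic
  have u1 := h.hU
  have u2 : l' * (l' + 1) ≤ R / 2 := by unfold bb at u1; linarith
  have t1 : TopH γ l R := topH_of h.h1 h.hl hR3 (by linarith)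
  have t2 : TopH γ l' R := topH_of h.h1 (h.hl.trans h.hll) hR3 (by linarith)
  refine (cT_le hT (Hm_good h hR3 (by linarith)) (f := fun A => 1 / k * (3.32 / R ^ 2)
    * ((F0 k R + 4 / 3 * R * A) / (A * √A))) (continuousOn_const.mul (misa_c1 _ _)) ?_).trans ?_
  · intro ε hε ht
    refine (misa_norm h hR0 (ell_basic h.h1 hR3 hε).1 (Fw_ell h hR3 hε)
      (JX_top1 t1 hR p3 (by linarith) hε ht) (JX_top1 t2 hR (by linarith) u2 hε ht)).trans
      (le_of_eq ?_)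
    rw [← div_div]
    ring
  · rw [intervalIntegral.integral_const_mul, mul_assoc]
    refine mul_le_mul_of_nonneg_left ?_ (by positivity)
    have a1 := misa_I k hR0
    have a2 := misa_top k hR0
    have e : 3.32 / R ^ 2 * (R ^ 2 * topI k R) = 3.32 * topI k R := by field_simp
    have a3 := mul_le_mul_of_nonneg_left a1 (by positivity : 0 ≤ 3.32 / R ^ 2)
    linarith

theorem misa_log (hR : 0 < R) : Real.log (1 + 3 / (4 * (8 / R))) ≤ 0.614 * √R := by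
  have a1 : 0 < 1 + 0.307 * √R := by positivity
  have a2 := Real.sq_sqrt hR.le
  have a3 := Real.sqrt_nonneg R
  have e : 3 / (4 * (8 / R)) = 3 / 32 * R := by
    field_simp
    norm_num
  have a4 : 1 + 3 / (4 * (8 / R)) ≤ (1 + 0.307 * √R) ^ 2 := by
    rw [e]
    nlinarith
  have a5 := Real.log_le_log (by positivity) a4
  rw [Real.log_pow] at a5
  have a6 := Real.log_le_sub_one_of_pos a1
  push_cast at a5
  linarith

theorem Hm_top2 (h : Pr γ k l l') (hR : 30 ≤ R) (hb : bb l' + 1 ≤ 2 * R) :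
    |cT (8 / R) (Hm γ l l' R)| ≤ 1 / k * (0.9 * Dt (Lk k) R * topI k R
      + 1.5 * (F0 k R * (1 + √R / 2) + R) / (Lk k * R)) := by
  have hR0 : 0 < R := by linarith
  have hT : 0 < 8 / R := by positivity
  obtain ⟨p1, p2, p3, p4, p5, -, -⟩ := h.basic
  have k2 : (2 : ℝ) ≤ k := by exact_mod_cast h.hk
  have hL : 0 < Lk k := by unfold Lk; nlinarith
  have hD : 0 ≤ Dt (Lk k) R := zero_le_one.trans (one_le_Dt _ _)
  have t1 : TopH γ l R := topH_of h.h1 h.hl hR (by linarith)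
  have t2 : TopH γ l' R := topH_of h.h1 (h.hl.trans h.hll) hR (by linarith)
  have c1 := (misa_c1 (F0 k R) (4 / 3 * R)).const_mul (0.85 * Dt (Lk k) R / R ^ 2)
  have c2 := (misa_c2 (F0 k R) (4 / 3 * R)).const_mul (1.22 / (Lk k * R))
  have sub : uIcc (8 / R) (8 / R + 3 / 4) ⊆ Ioi 0 := by
    rw [uIcc_of_le (by linarith)]
    exact fun x hx => hT.trans_le hx.1
  refine (cT_le hT (Hm_good h hR hb) (f := fun A => 1 / k
    * (0.85 * Dt (Lk k) R / R ^ 2 * ((F0 k R + 4 / 3 * R * A) / (A * √A))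
      + 1.22 / (Lk k * R) * ((F0 k R + 4 / 3 * R * A) / A)))
    (continuousOn_const.mul (c1.add c2)) ?_).trans ?_
  · intro ε hε ht
    refine (misa_norm h hR0 (ell_basic h.h1 hR hε).1 (Fw_ell h hR hε)
      (JX_top2 t1 hL h.hL hε ht) (JX_top2 t2 hL (h.hL.trans p4) hε ht)).trans (le_of_eq ?_)
    simp only [div_eq_mul_inv, mul_inv]
    ring
  · rw [intervalIntegral.integral_const_mul, intervalIntegral.integral_add
      (c1.mono sub).intervalIntegrable (c2.mono sub).intervalIntegrable,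
      intervalIntegral.integral_const_mul, intervalIntegral.integral_const_mul, int_A1 hT]
    refine mul_le_mul_of_nonneg_left (add_le_add ?_ ?_) (by positivity)
    · have a1 := misa_I k hR0
      have a2 := mul_nonneg hD (misa_top k hR0)
      have e : 0.85 * Dt (Lk k) R / R ^ 2 * (R ^ 2 * topI k R)
          = 0.85 * (Dt (Lk k) R * topI k R) := by field_simp
      have a3 := mul_le_mul_of_nonneg_left a1
        (by positivity : 0 ≤ 0.85 * Dt (Lk k) R / R ^ 2)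
      linarith
    · have a0 := misa_F0 k R
      have a1 := mul_le_mul_of_nonneg_left (misa_log hR0) a0.le
      have a2 := mul_nonneg a0.le (Real.sqrt_nonneg R)
      rw [div_mul_eq_mul_div]
      refine div_le_div_of_nonneg_right ?_ (by positivity)
      nlinarith

theorem mis_bb (h : Pr γ k l l') : bb l ≤ bb l' ∧ Lk k ≤ l' * (l' + 1) ∧ 4.5 ≤ Lk k := by
  have h1 := h.hl
  have h2 := h.hll
  have h3 := h.hL
  have hk : (2 : ℝ) ≤ k := by exact_mod_cast h.hk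
  refine ⟨?_, ?_, ?_⟩
  · simp only [bb]; nlinarith
  · nlinarith
  · simp only [Lk]; nlinarith

theorem mis_pt (h : Pr γ k l l') (hR : 30 ≤ R) {θ X C G : ℝ} (hθ : 0 < θ) (hθ' : θ ≤ 8 / R)
    (hX : 0 ≤ X) (a : JX γ l R (θ * I) ≤ X + C / θ) (a' : JX γ l' R (θ * I) ≤ X + C / θ)
    (hG : ‖gg γ l R (θ * I) - gg γ l' R (θ * I)‖ ≤ G) :
    |(Hm γ l l' R (θ * I)).re| ≤ 1 / k * (F0 k R + 4) * (X + min (k * G) (C / θ)) := by
  have h1 := h.hl
  have h2 := h.hll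
  have hk : (2 : ℝ) ≤ k := by exact_mod_cast h.hk
  have hR0 : 0 < R := by linarith
  have hF := Fw_right h hR hθ hθ'
  have hr := res_le (γ := γ) (l := l) (l' := l') h.h1 (by linarith) (by linarith) (vb_UU hθ) hR0
  have hd : 0 ≤ l' * (l' + 1) - l * (l + 1) := by nlinarith
  rw [abs_of_nonneg hd] at hr
  have n1 := JX_nonneg γ l (θ * I) hR0
  have n2 := JX_nonneg γ l' (θ * I) hR0
  have hk0 : 0 < 1 / (k : ℝ) := by positivity
  have b1 : ‖gg γ l R (θ * I) - gg γ l' R (θ * I)‖ ≤ 1 / k * (X + C / θ) :=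
    hr.trans (mul_le_mul h.hd (by linarith) (by linarith) hk0.le)
  have b2 : ‖gg γ l R (θ * I) - gg γ l' R (θ * I)‖ ≤ 1 / k * (X + k * G) := by
    have e : 1 / (k : ℝ) * (X + k * G) = 1 / k * X + G := by field_simp
    have := mul_nonneg hk0.le hX
    linarith
  have b : ‖gg γ l R (θ * I) - gg γ l' R (θ * I)‖ ≤ 1 / k * (X + min (k * G) (C / θ)) := by
    rcases min_choice (k * G) (C / θ) with e | e <;> rw [e] <;> assumption
  refine (Complex.abs_re_le_norm _).trans ?_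
  rw [Hm, norm_mul]
  refine (mul_le_mul hF b (norm_nonneg _) ((norm_nonneg _).trans hF)).trans_eq (by ring)

theorem mis_int (h : Pr γ k l l') (hR : 30 ≤ R) (hb : bb l' + 1 ≤ 2 * R) {X : ℝ → ℝ} {C G Y : ℝ}
    (hC : 0 < C) (hG0 : 0 < G) (hXi : IntervalIntegrable X volume 0 (8 / R))
    (hY : ∫ θ in (0 : ℝ)..(8 / R), X θ ≤ Y)
    (H : ∀ θ : ℝ, 0 < θ → θ ≤ 8 / R → 0 ≤ X θ ∧ JX γ l R (θ * I) ≤ X θ + C / θ ∧
      JX γ l' R (θ * I) ≤ X θ + C / θ ∧ ‖gg γ l R (θ * I) - gg γ l' R (θ * I)‖ ≤ G) :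
    |cR (8 / R) (Hm γ l l' R)| ≤ 1 / k * ((F0 k R + 4)
      * (Y + C * (1 + max 0 (Real.log (8 / R * (k * G) / C))))) := by
  have hk : (2 : ℝ) ≤ k := by exact_mod_cast h.hk
  have hT : 0 < 8 / R := by positivity
  obtain ⟨i1, i2⟩ := int_min (A := k * G) (by positivity) hC hT
  have hF : 0 ≤ F0 k R + 4 := by simp only [F0]; positivity
  refine (cR_le hT (Hm_good h hR hb)
    (f := fun θ => 1 / k * (F0 k R + 4) * (X θ + min (k * G) (C / θ)))
    ((hXi.add i1).const_mul _) fun θ a b => ?_).trans ?_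
  · obtain ⟨c1, c2, c3, c4⟩ := H θ a b
    exact mis_pt h hR a b c1 c2 c3 c4
  · rw [intervalIntegral.integral_const_mul, intervalIntegral.integral_add hXi i1, ← mul_assoc]
    exact mul_le_mul_of_nonneg_left (add_le_add hY i2) (by positivity)

theorem mis_GG {B : ℝ} (hB : 1 / 4 < B) (hb : B ≤ 2 * R) : 0 < VV R B ∧ 0 < GG R B := by
  have hV := one_lt_VV hB hb
  have hB0 : 0 < B := by linarith
  have hR : 0 < R := by linarith
  have hV0 : 0 < VV R B := by linarith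
  exact ⟨hV0, by simp only [GG]; positivity⟩

theorem Hm_right1 (h : Pr γ k l l') (hR : 100 ≤ R) (hU : Uk k ≤ R / 2) :
    |cR (8 / R) (Hm γ l l' R)| ≤ 1 / k * ((F0 k R + 4)
      * (5 / 2 * (1.15 + 1.8 * (Uk k / R) + 10 * (Uk k / R) ^ 2)
          / (√(Lk k) * √R * (√R / 2 - 2.5 - 2 * (Uk k / R)))
        + 4 * GG R (2 * R - Uk k) * (1 + Real.log (2 * R * k)) / R ^ 2)) := by
  obtain ⟨b1, b2, b3⟩ := mis_bb h
  have h1 := h.hl
  have h2 := h.hll
  have h3 := h.hU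
  have hk : (2 : ℝ) ≤ k := by exact_mod_cast h.hk
  have hR0 : 0 < R := by linarith
  have hU0 : 0 ≤ Uk k := by simp only [Uk]; positivity
  have hB : 1 / 4 < 2 * R - Uk k := by linarith
  obtain ⟨-, g0⟩ := mis_GG (R := R) hB (by linarith)
  have ht : Uk k / R ≤ 1 / 2 := by rw [div_le_iff₀ hR0]; linarith
  have ht0 : 0 ≤ Uk k / R := by positivity
  obtain ⟨i1, i2⟩ := farB_int (L := Lk k) hR ht0 ht (by linarith)
  have key := mis_int h (by linarith) (by linarith) (C := 4 * GG R (2 * R - Uk k) / R ^ 2)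
    (by positivity) g0 i1 i2 fun θ a b =>
      ⟨by simp only [farB]; split_ifs <;> positivity,
        JX_right1 h.h1 (by linarith) hR (b1.trans h3) hU b3 h.hL a b,
        JX_right1 h.h1 (by linarith) hR h3 hU b3 b2 a b,
        gg_right_sub h.h1 (by linarith) (by linarith) a hB (by linarith) (by linarith)⟩
  have e : 8 / R * (k * GG R (2 * R - Uk k)) / (4 * GG R (2 * R - Uk k) / R ^ 2) = 2 * R * k := by
    generalize GG R (2 * R - Uk k) = G at g0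
    field_simp
    ring
  rw [e, max_eq_right (Real.log_nonneg (by nlinarith))] at key
  refine key.trans_eq (by ring)

theorem Hm_right2 (h : Pr γ k l l') (hR : 30 ≤ R) {B : ℝ} (hB : 1 ≤ B) (hb : B ≤ 2 * R - bb l') :
    |cR (8 / R) (Hm γ l l' R)| ≤ 1 / k * ((F0 k R + 4)
      * (4 * VV R B ^ 2 * (1 + Real.log (4 * R / B)) / (Lk k * R)
        + Dt (Lk k) R * GG R B * (1 + max 0 (Real.log (8 * R * k / Dt (Lk k) R))) / R ^ 2)) := by
  obtain ⟨b1, b2, b3⟩ := mis_bb h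
  have h1 := h.hl
  have h2 := h.hll
  have hk : (2 : ℝ) ≤ k := by exact_mod_cast h.hk
  have hR0 : 0 < R := by linarith
  have hbb : 0 < bb l' := vb_bb (by linarith)
  have hB' : 1 / 4 < B := by linarith
  have hB0 : 0 < B := by linarith
  obtain ⟨v0, g0⟩ := mis_GG (R := R) hB' (by linarith)
  have hD : 0 < Dt (Lk k) R := by linarith [one_le_Dt (Lk k) R]
  have hL : 0 < Lk k := by linarith
  obtain ⟨i1, i2⟩ := int_min (A := GG R B ^ 2) (C := 2 * VV R B ^ 2) (T := 8 / R)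
    (by positivity) (by positivity) (by positivity)
  have e0 : 8 / R * GG R B ^ 2 / (2 * VV R B ^ 2) = 4 * R / B := by
    rw [GG, div_pow, Real.sq_sqrt hB0.le]
    field_simp
    ring
  rw [e0, max_eq_right (Real.log_nonneg (by rw [le_div_iff₀ hB0]; linarith))] at i2
  have key := mis_int h hR (by linarith)
    (X := fun θ => 2 / (Lk k * R) * min (GG R B ^ 2) (2 * VV R B ^ 2 / θ))
    (C := Dt (Lk k) R * GG R B / R ^ 2)
    (Y := 2 / (Lk k * R) * (2 * VV R B ^ 2 * (1 + Real.log (4 * R / B))))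
    (by positivity) g0 (i1.const_mul _)
    (by rw [intervalIntegral.integral_const_mul]
        exact mul_le_mul_of_nonneg_left i2 (by positivity)) fun θ a b =>
      ⟨by positivity,
        JX_right2 h.h1 (by linarith) hR hB' (by linarith) hL h.hL a b,
        JX_right2 h.h1 (by linarith) hR hB' hb hL b2 a b,
        gg_right_sub h.h1 (by linarith) (by linarith) a hB' (by linarith) hb⟩
  have e : 8 / R * (k * GG R B) / (Dt (Lk k) R * GG R B / R ^ 2) = 8 * R * k / Dt (Lk k) R := by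
    field_simp
  rw [e] at key
  refine key.trans_eq (by ring)

end Pool.Agent.Lib.MP_2347b2_mp.F
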