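import Mathlib

/-!
Packed Taylor models in two variables: definitions and the exact operations.
-/

namespace Pool.Agent.Lib.MP_2347b2_mp.F.NT

noncomputable section

/-- the packing and the point of evaluation -/
structure Pt where
  W : ℕ
  S : ℕ
  t : ℝ
  τ : ℝ
  hW : 2 ≤ W
  ht : |t| ≤ 1
  hτ : |τ| ≤ 1

/-- another row length and another second variable -/
def Pt.re (p : Pt) (S : ℕ) (σ : ℝ) (h : |σ| ≤ 1) : Pt := ⟨p.W, S, p.t, σ, p.hW, p.ht, h⟩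

/-- doubled rows -/
def Pt.dbl (p : Pt) : Pt :=
  p.re (2 * p.S) (p.τ ^ 2) (by rw [abs_pow]; exact pow_le_one₀ (abs_nonneg _) p.hτ)

structure TM where
  a : ℕ
  b : ℕ
  B : ℕ
  e : ℕ

/-- a list of terms with packed value `P`, real value `x` and norm at most `B` -/
def Rep (p : Pt) (pos : Prop) (D L : ℕ) (P : ℤ) (x : ℝ) (B : ℕ) : Prop :=
  ∃ l : List (ℕ × ℕ × ℤ), (∀ u ∈ l, u.1 < D ∧ u.2.1 < L ∧ (pos → 0 ≤ u.2.2)) ∧
    P = (l.map fun u => u.2.2 * 2 ^ (p.W * (u.1 * p.S + u.2.1))).sum ∧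
    x = (l.map fun u => (u.2.2 : ℝ) * (p.τ ^ u.1 * p.t ^ u.2.1)).sum ∧
    (l.map fun u => u.2.2.natAbs).sum ≤ B

/-- the model `T` encloses `x` -/
def Enc (p : Pt) (pos : Prop) (D L : ℕ) (T : TM) (x : ℝ) : Prop :=
  1 ≤ T.B ∧ (pos → T.b = 0) ∧ (T.B < 2 ^ (p.W - 1) →
    ∃ y, Rep p pos D L ((T.a : ℤ) - T.b) y T.B ∧ |x - y| ≤ T.e)

def sel (c : Bool) (a b : ℕ) : ℕ := Bool.rec b a c

def pw (n : ℕ) : ℕ := Nat.shiftLeft 1 n

def bad (W B : ℕ) : ℕ := Nat.shiftLeft (Nat.shiftRight B (Nat.sub W 1)) (Nat.sub W 1)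

def flag (W : ℕ) (c : Bool) : ℕ := sel c 0 (pw (Nat.sub W 1))

def cst (c e : ℕ) : TM := ⟨c, 0, Nat.succ c, e⟩

def add (x y : TM) : TM := ⟨Nat.add x.a y.a, Nat.add x.b y.b, Nat.add x.B y.B, Nat.add x.e y.e⟩

def sub (x y : TM) : TM := ⟨Nat.add x.a y.b, Nat.add x.b y.a, Nat.add x.B y.B, Nat.add x.e y.e⟩

def neg (x : TM) : TM := ⟨x.b, x.a, x.B, x.e⟩

def smul (k : ℕ) (x : TM) : TM :=
  ⟨Nat.mul k x.a, Nat.mul k x.b, Nat.succ (Nat.mul k x.B), Nat.mul k x.e⟩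

def shl (n : ℕ) (x : TM) : TM := ⟨Nat.shiftLeft x.a n, Nat.shiftLeft x.b n, x.B, x.e⟩

def sg (x : TM) : Bool := Nat.ble x.b x.a

def mg (x : TM) : ℕ := sel (sg x) (Nat.sub x.a x.b) (Nat.sub x.b x.a)

def sm (x y : TM) : Bool := Bool.rec (Bool.rec true false (sg y)) (sg y) (sg x)

def me (x y : TM) : ℕ := Nat.add (Nat.add (Nat.mul x.B y.e) (Nat.mul y.B x.e)) (Nat.mul x.e y.e)

def mul (x y : TM) : TM :=
  ⟨sel (sm x y) (Nat.mul (mg x) (mg y)) 0, sel (sm x y) 0 (Nat.mul (mg x) (mg y)),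
    Nat.mul x.B y.B, me x y⟩

def mulP (x y : TM) : TM := ⟨Nat.mul x.a y.a, 0, Nat.mul x.B y.B, me x y⟩

def ex (x : TM) : TM := ⟨x.a, x.b, x.B, 0⟩

def addE (W : ℕ) (x : TM) (d u : ℕ) : TM := ⟨x.a, x.b, Nat.add x.B (bad W u), Nat.add x.e d⟩

def nrm (x : TM) : ℕ := Nat.add x.B x.e

def li (n u v e : ℕ) : TM := ⟨Nat.add u (Nat.shiftLeft v n), 0, Nat.succ (Nat.add u v), e⟩

/-- a linear function with rational coefficients at the scale `2 ^ G` -/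
def lq (n G u v d : ℕ) : TM := li n (Nat.div (Nat.shiftLeft u G) d) (Nat.div (Nat.shiftLeft v G) d) 2

/-- a rational constant at the scale `2 ^ G` -/
def cq (G u d : ℕ) : TM := cst (Nat.div (Nat.shiftLeft u G) d) 1

def fac (n : ℕ) : ℕ := Nat.rec 1 (fun i r => Nat.mul (Nat.succ i) r) n

variable {p : Pt} {q q' : Prop} {D L D' L' : ℕ} {T U : TM} {x y : ℝ}

theorem na_prod {α R : Type} [CommSemiring R] (op : α → α → α) (f : α → R)
    (h : ∀ u v, f (op u v) = f u * f v) (l m : List α) :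
    ((l.flatMap fun u => m.map (op u)).map f).sum = (l.map f).sum * (m.map f).sum := by
  induction l with
  | nil => simp
  | cons u l ih =>
    rw [List.flatMap_cons, List.map_append, List.sum_append, ih, List.map_cons, List.sum_cons,
      add_mul, List.map_map]
    congr 1
    rw [← List.sum_map_mul_left]
    exact congrArg _ (List.map_congr_left fun v _ => h u v)

theorem na_map {α R : Type} [CommSemiring R] (op : α → α) (f g : α → R) (c : R) (l : List α)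
    (h : ∀ u ∈ l, g (op u) = c * f u) : ((l.map op).map g).sum = c * (l.map f).sum := by
  rw [List.map_map, ← List.sum_map_mul_left]
  congr 1
  exact List.map_congr_left fun v hv => h v hv

theorem Rep.mono {P : ℤ} {B B' : ℕ} (h : Rep p q D L P x B) (hq : q' → q) (hD : D ≤ D')
    (hL : L ≤ L') (hB : B ≤ B') : Rep p q' D' L' P x B' := by
  obtain ⟨l, h1, h2, h3, h4⟩ := h
  exact ⟨l, fun u hu => ⟨(h1 u hu).1.trans_le hD, (h1 u hu).2.1.trans_le hL,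
    fun k => (h1 u hu).2.2 (hq k)⟩, h2, h3, h4.trans hB⟩

theorem Rep.zero (B : ℕ) : Rep p q D L 0 0 B := ⟨[], by simp, by simp, by simp, by simp⟩

theorem Rep.add {P Q : ℤ} {B C : ℕ} (h : Rep p q D L P x B) (k : Rep p q D L Q y C) :
    Rep p q D L (P + Q) (x + y) (B + C) := by
  obtain ⟨l, h1, h2, h3, h4⟩ := h
  obtain ⟨m, k1, k2, k3, k4⟩ := k
  refine ⟨l ++ m, fun u hu => (List.mem_append.1 hu).elim (h1 u) (k1 u), ?_, ?_, ?_⟩
  · rw [List.map_append, List.sum_append, h2, k2]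
  · rw [List.map_append, List.sum_append, h3, k3]
  · rw [List.map_append, List.sum_append]
    exact add_le_add h4 k4

theorem Rep.zmul {P : ℤ} {B : ℕ} (h : Rep p q D L P x B) (c : ℤ) (hq : q' → q ∧ 0 ≤ c) :
    Rep p q' D L (c * P) (c * x) (c.natAbs * B) := by
  obtain ⟨l, h1, h2, h3, h4⟩ := h
  refine ⟨l.map fun u => (u.1, u.2.1, c * u.2.2), fun u hu => ?_, ?_, ?_, ?_⟩
  · obtain ⟨v, hv, rfl⟩ := List.mem_map.1 hu
    exact ⟨(h1 v hv).1, (h1 v hv).2.1, fun k => mul_nonneg (hq k).2 ((h1 v hv).2.2 (hq k).1)⟩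
  · rw [h2]
    exact (na_map _ _ _ c l fun u _ => by simp only [mul_assoc]).symm
  · rw [h3]
    exact (na_map _ _ _ (c : ℝ) l fun u _ => by simp only [Int.cast_mul, mul_assoc]).symm
  · rw [na_map _ (fun u : ℕ × ℕ × ℤ => u.2.2.natAbs) _ c.natAbs l fun u _ => Int.natAbs_mul _ _]
    exact Nat.mul_le_mul_left _ h4

theorem Rep.mul {P Q : ℤ} {B C : ℕ} {r : Prop} (h : Rep p q D L P x B) (k : Rep p q' D' L' Q y C)
    (hr : r → q ∧ q') : Rep p r (D + D' - 1) (L + L' - 1) (P * Q) (x * y) (B * C) := by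
  obtain ⟨l, h1, h2, h3, h4⟩ := h
  obtain ⟨m, k1, k2, k3, k4⟩ := k
  refine ⟨l.flatMap fun u => m.map fun v => (u.1 + v.1, u.2.1 + v.2.1, u.2.2 * v.2.2),
    fun w hw => ?_, ?_, ?_, ?_⟩
  · obtain ⟨u, hu, hw⟩ := List.mem_flatMap.1 hw
    obtain ⟨v, hv, rfl⟩ := List.mem_map.1 hw
    obtain ⟨a1, a2, a3⟩ := h1 u hu
    obtain ⟨b1, b2, b3⟩ := k1 v hv
    exact ⟨by simp only; omega, by simp only; omega,
      fun z => mul_nonneg (a3 (hr z).1) (b3 (hr z).2)⟩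
  · rw [h2, k2]
    refine (na_prod (fun u v : ℕ × ℕ × ℤ => (u.1 + v.1, u.2.1 + v.2.1, u.2.2 * v.2.2)) _
      (fun u v => ?_) l m).symm
    simp only
    rw [show p.W * ((u.1 + v.1) * p.S + (u.2.1 + v.2.1))
      = p.W * (u.1 * p.S + u.2.1) + p.W * (v.1 * p.S + v.2.1) by ring, pow_add]
    ring
  · rw [h3, k3]
    refine (na_prod (fun u v : ℕ × ℕ × ℤ => (u.1 + v.1, u.2.1 + v.2.1, u.2.2 * v.2.2)) _
      (fun u v => ?_) l m).symm
    simp only
    push_cast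
    ring
  · rw [na_prod (fun u v : ℕ × ℕ × ℤ => (u.1 + v.1, u.2.1 + v.2.1, u.2.2 * v.2.2))
      (fun u : ℕ × ℕ × ℤ => u.2.2.natAbs) (fun u v => Int.natAbs_mul _ _) l m]
    exact Nat.mul_le_mul h4 k4

theorem Rep.abs_le {P : ℤ} {B : ℕ} (h : Rep p q D L P x B) : |x| ≤ B := by
  obtain ⟨l, -, -, h3, h4⟩ := h
  refine le_trans ?_ (Nat.cast_le.2 h4)
  rw [h3]
  clear h3 h4
  induction l with
  | nil => simp
  | cons u l ih =>
    simp only [List.map_cons, List.sum_cons, Nat.cast_add]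
    refine (abs_add_le _ _).trans (add_le_add ?_ ih)
    rw [abs_mul, abs_mul, abs_pow, abs_pow, Nat.cast_natAbs, Int.cast_abs]
    exact mul_le_of_le_one_right (abs_nonneg _) (mul_le_one₀ (pow_le_one₀ (abs_nonneg _) p.hτ)
      (by positivity) (pow_le_one₀ (abs_nonneg _) p.ht))

theorem Rep.mon (i j : ℕ) (c : ℕ) (hi : i < D) (hj : j < L) :
    Rep p q D L (c * 2 ^ (p.W * (i * p.S + j))) (c * (p.τ ^ i * p.t ^ j)) c :=
  ⟨[(i, j, c)], fun u hu => by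
    rw [List.mem_singleton.1 hu]
    exact ⟨hi, hj, fun _ => Int.natCast_nonneg c⟩, by simp, by simp, by simp⟩

theorem Rep.congr {P Q : ℤ} {B : ℕ} (h : Rep p q D L P x B) (e : Q = P) (f : y = x) :
    Rep p q D L Q y B := e ▸ f ▸ h

theorem na_err {x y u v : ℝ} {B C d e : ℕ} (h : |x - u| ≤ d) (k : |y - v| ≤ e) (hu : |u| ≤ B)
    (hv : |v| ≤ C) : |x * y - u * v| ≤ (B * e + C * d + d * e : ℕ) := by
  rw [show x * y - u * v = u * (y - v) + v * (x - u) + (x - u) * (y - v) by ring]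
  push_cast
  refine (abs_add_three _ _ _).trans (add_le_add (add_le_add ?_ ?_) ?_) <;> rw [abs_mul] <;>
    exact mul_le_mul ‹_› ‹_› (abs_nonneg _) (Nat.cast_nonneg _)

theorem na_mul (T U : TM) :
    ((mul T U).a : ℤ) - (mul T U).b = ((T.a : ℤ) - T.b) * ((U.a : ℤ) - U.b) := by
  have m1 : ∀ V : TM, sg V = true → (mg V : ℤ) = V.a - V.b := fun V h => by
    have := Nat.le_of_ble_eq_true h
    simp only [mg, h, sel, Nat.sub_eq]
    omega
  have m2 : ∀ V : TM, sg V = false → (mg V : ℤ) = -(V.a - V.b) := fun V h => by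
    have : ¬ V.b ≤ V.a := fun k => by
      rw [sg, Nat.ble_eq_true_of_le k] at h
      exact Bool.noConfusion h
    simp only [mg, h, sel, Nat.sub_eq]
    omega
  cases h : sg T <;> cases k : sg U <;> simp only [mul, sm, h, k, sel, Nat.mul_eq] <;> push_cast
  · rw [m2 T h, m2 U k]; ring
  · rw [m2 T h, m1 U k]; ring
  · rw [m1 T h, m2 U k]; ring
  · rw [m1 T h, m1 U k]; ring

theorem pw_eq (n : ℕ) : pw n = 2 ^ n := by
  simp only [pw, Nat.shiftLeft_eq', Nat.shiftLeft_eq, one_mul]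

theorem fac_eq (n : ℕ) : fac n = n.factorial := by
  induction n with
  | zero => rfl
  | succ n ih => exact congrArg (Nat.mul (Nat.succ n)) ih

theorem lt_of_bad {W B : ℕ} (h : bad W B < 2 ^ (W - 1)) : B < 2 ^ (W - 1) := by
  simp only [bad, Nat.shiftLeft_eq', Nat.shiftLeft_eq, Nat.shiftRight_eq, Nat.shiftRight_eq_div_pow,
    Nat.sub_eq] at h
  have p : 0 < 2 ^ (W - 1) := by positivity
  by_contra k
  have : 1 ≤ B / 2 ^ (W - 1) := (Nat.le_div_iff_mul_le p).2 (by omega)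
  have := Nat.mul_le_mul_right (2 ^ (W - 1)) this
  omega

theorem of_flag {W : ℕ} {c : Bool} (h : flag W c < 2 ^ (W - 1)) : c = true := by
  cases c
  · exact absurd h (by simp only [flag, sel, pw_eq, Nat.sub_eq]; exact lt_irrefl _)
  · rfl

theorem Enc.mono (h : Enc p q D L T x) (hq : q' → q) (hD : D ≤ D') (hL : L ≤ L') :
    Enc p q' D' L' T x := by
  refine ⟨h.1, fun k => h.2.1 (hq k), fun k => ?_⟩
  obtain ⟨y, h1, h2⟩ := h.2.2 k
  exact ⟨y, h1.mono hq hD hL le_rfl, h2⟩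

theorem Enc.congr (h : Enc p q D L T x) (e : y = x) : Enc p q D L T y := e ▸ h

theorem enc_cst {c e : ℕ} (h : |x - c| ≤ e) : Enc p q 1 1 (cst c e) x := by
  refine ⟨Nat.succ_pos c, fun _ => rfl, fun _ => ⟨c, ?_, h⟩⟩
  exact ((Rep.mon 0 0 c one_pos one_pos).mono id le_rfl le_rfl (Nat.le_succ c)).congr
    (by simp [cst]) (by simp)

theorem Enc.add (h : Enc p q D L T x) (k : Enc p q D L U y) : Enc p q D L (add T U) (x + y) := by
  refine ⟨h.1.trans (Nat.le_add_right _ _), fun z => ?_, fun z => ?_⟩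
  · simp only [NT.add, h.2.1 z, k.2.1 z]
  · obtain ⟨u, h1, h2⟩ := h.2.2 ((Nat.le_add_right _ _).trans_lt z)
    obtain ⟨v, k1, k2⟩ := k.2.2 ((Nat.le_add_left _ _).trans_lt z)
    refine ⟨u + v, (h1.add k1).congr ?_ rfl, ?_⟩
    · simp only [NT.add, Nat.add_eq]
      push_cast
      ring
    · simp only [NT.add, Nat.add_eq]
      push_cast
      rw [show x + y - (u + v) = (x - u) + (y - v) by ring]
      exact (abs_add_le _ _).trans (add_le_add h2 k2)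

theorem Enc.neg (h : Enc p q D L T x) : Enc p False D L (neg T) (-x) := by
  refine ⟨h.1, False.elim, fun z => ?_⟩
  obtain ⟨u, h1, h2⟩ := h.2.2 z
  refine ⟨-u, ((h1.zmul (-1) False.elim).mono id le_rfl le_rfl (by simp [NT.neg])).congr
    (by simp [NT.neg]) (by simp), ?_⟩
  rw [show -x - -u = -(x - u) by ring, abs_neg]
  exact h2

theorem Enc.sub (h : Enc p q D L T x) (k : Enc p q' D L U y) :
    Enc p False D L (sub T U) (x - y) := by
  rw [sub_eq_add_neg]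
  exact (h.mono False.elim le_rfl le_rfl).add k.neg

theorem Enc.smul (h : Enc p q D L T x) (k : ℕ) : Enc p q D L (smul k T) (k * x) := by
  refine ⟨Nat.succ_pos _, fun z => ?_, fun z => ?_⟩
  · simp only [NT.smul, h.2.1 z]
    rfl
  · rcases Nat.eq_zero_or_pos k with rfl | hk
    · exact ⟨0, (Rep.zero _).congr (by simp [NT.smul]) rfl, by simp⟩
    · obtain ⟨u, h1, h2⟩ := h.2.2 (lt_of_le_of_lt (Nat.le_mul_of_pos_left _ hk)
        ((Nat.le_succ _).trans_lt z))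
      refine ⟨k * u, ((h1.zmul k fun w => ⟨w, Int.natCast_nonneg k⟩).mono id le_rfl le_rfl
        (Nat.le_succ _)).congr ?_ (by simp), ?_⟩
      · simp only [NT.smul, Nat.mul_eq]
        push_cast
        ring
      · simp only [NT.smul, Nat.mul_eq]
        push_cast
        rw [← mul_sub, abs_mul, Nat.abs_cast]
        exact mul_le_mul_of_nonneg_left h2 (Nat.cast_nonneg k)

theorem Enc.shR (h : Enc p q D L T x) :
    Enc p q (D + 1) L (shl (Nat.mul p.W p.S) T) (p.τ * x) := by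
  refine ⟨h.1, fun z => ?_, fun z => ?_⟩
  · simp only [shl, h.2.1 z, Nat.shiftLeft_eq', Nat.zero_shiftLeft]
  · obtain ⟨u, h1, h2⟩ := h.2.2 z
    refine ⟨p.τ * u, (((Rep.mon (q := q) 1 0 1 one_lt_two one_pos).mul h1 fun w => ⟨w, w⟩).mono id
      (by omega) (by omega) (by simp [shl])).congr ?_ (by simp), ?_⟩
    · simp only [shl, Nat.shiftLeft_eq', Nat.shiftLeft_eq, Nat.mul_eq]
      push_cast
      ring
    · rw [← mul_sub, abs_mul]
      exact (mul_le_of_le_one_left (abs_nonneg _) p.hτ).trans h2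

theorem Enc.mul (h : Enc p q D L T x) (k : Enc p q' D' L' U y) :
    Enc p False (D + D' - 1) (L + L' - 1) (mul T U) (x * y) := by
  refine ⟨Nat.mul_le_mul h.1 k.1, False.elim, fun z => ?_⟩
  obtain ⟨u, h1, h2⟩ := h.2.2 (lt_of_le_of_lt (Nat.le_mul_of_pos_right _ k.1) z)
  obtain ⟨v, k1, k2⟩ := k.2.2 (lt_of_le_of_lt (Nat.le_mul_of_pos_left _ h.1) z)
  exact ⟨u * v, (h1.mul k1 False.elim).congr (na_mul T U) rfl, na_err h2 k2 h1.abs_le k1.abs_le⟩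

theorem Enc.mulP (h : Enc p True D L T x) (k : Enc p True D' L' U y) :
    Enc p True (D + D' - 1) (L + L' - 1) (mulP T U) (x * y) := by
  refine ⟨Nat.mul_le_mul h.1 k.1, fun _ => rfl, fun z => ?_⟩
  obtain ⟨u, h1, h2⟩ := h.2.2 (lt_of_le_of_lt (Nat.le_mul_of_pos_right _ k.1) z)
  obtain ⟨v, k1, k2⟩ := k.2.2 (lt_of_le_of_lt (Nat.le_mul_of_pos_left _ h.1) z)
  refine ⟨u * v, (h1.mul k1 fun w => ⟨w, w⟩).congr ?_ rfl, na_err h2 k2 h1.abs_le k1.abs_le⟩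
  simp only [NT.mulP, Nat.mul_eq, h.2.1 trivial, k.2.1 trivial]
  push_cast
  ring

theorem Enc.one (h : Enc p q 1 L T x) {p' : Pt} (hW : p'.W = p.W) (ht : p'.t = p.t) :
    Enc p' q 1 L T x := by
  obtain ⟨h1, h2, h3⟩ := h
  refine ⟨h1, h2, fun hB => ?_⟩
  obtain ⟨y, ⟨l, hl, hP, hx, hn⟩, hy⟩ := h3 (hW ▸ hB)
  refine ⟨y, ⟨l, hl, ?_, ?_, hn⟩, hy⟩
  · rw [hP]
    congr 1
    refine List.map_congr_left fun u hu => ?_
    have h0 : u.1 = 0 := by have := (hl u hu).1; omega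
    simp [h0, hW]
  · rw [hx]
    congr 1
    refine List.map_congr_left fun u hu => ?_
    have h0 : u.1 = 0 := by have := (hl u hu).1; omega
    simp [h0, ht]

theorem Enc.undbl (h : Enc p.dbl q D L T x) : Enc p q (2 * D - 1) L T x := by
  obtain ⟨h1, h2, h3⟩ := h
  refine ⟨h1, h2, fun hB => ?_⟩
  obtain ⟨y, ⟨l, hl, hP, hx, hn⟩, hy⟩ := h3 hB
  refine ⟨y, ⟨l.map fun u => (2 * u.1, u.2), ?_, ?_, ?_, ?_⟩, hy⟩
  · intro u hu
    obtain ⟨v, hv, rfl⟩ := List.mem_map.1 hu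
    obtain ⟨a, b, c⟩ := hl v hv
    exact ⟨by show 2 * v.1 < 2 * D - 1; omega, b, c⟩
  · rw [hP, List.map_map]
    congr 1
    refine List.map_congr_left fun u _ => ?_
    show u.2.2 * 2 ^ (p.W * (u.1 * (2 * p.S) + u.2.1)) = u.2.2 * 2 ^ (p.W * (2 * u.1 * p.S + u.2.1))
    rw [show u.1 * (2 * p.S) = 2 * u.1 * p.S by ring]
  · rw [hx, List.map_map]
    congr 1
    refine List.map_congr_left fun u _ => ?_
    show (u.2.2 : ℝ) * ((p.τ ^ 2) ^ u.1 * p.t ^ u.2.1) = (u.2.2 : ℝ) * (p.τ ^ (2 * u.1) * p.t ^ u.2.1)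
    rw [pow_mul]
  · rw [List.map_map]
    exact hn

theorem Enc.ex (h : Enc p q D L T x) :
    ∃ y, Enc p q D L (ex T) y ∧ (T.B < 2 ^ (p.W - 1) → |x - y| ≤ T.e) := by
  obtain ⟨h1, h2, h3⟩ := h
  by_cases hB : T.B < 2 ^ (p.W - 1)
  · obtain ⟨y, hr, hy⟩ := h3 hB
    exact ⟨y, ⟨h1, h2, fun _ => ⟨y, hr, by simp [NT.ex]⟩⟩, fun _ => hy⟩
  · exact ⟨x, ⟨h1, h2, fun h => absurd h hB⟩, fun h => absurd h hB⟩

theorem Enc.addE (h : Enc p q D L T x) {d u : ℕ}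
    (k : T.B < 2 ^ (p.W - 1) → u < 2 ^ (p.W - 1) → |y - x| ≤ d) :
    Enc p q D L (addE p.W T d u) y := by
  obtain ⟨h1, h2, h3⟩ := h
  refine ⟨le_trans h1 (Nat.le_add_right _ _), h2, fun hB => ?_⟩
  have hB' : T.B + bad p.W u < 2 ^ (p.W - 1) := hB
  have hT : T.B < 2 ^ (p.W - 1) := by omega
  have hu : u < 2 ^ (p.W - 1) := lt_of_bad (by omega)
  obtain ⟨z, ⟨l, hl, hP, hx, hn⟩, hz⟩ := h3 hT
  refine ⟨z, ⟨l, hl, hP, hx, le_trans hn (Nat.le_add_right _ _)⟩, ?_⟩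
  have e1 : ((NT.addE p.W T d u).e : ℝ) = T.e + d := by
    show ((T.e + d : ℕ) : ℝ) = _
    push_cast
    rfl
  rw [e1]
  have h4 := k hT hu
  have h5 := abs_add_le (y - x) (x - z)
  rw [show y - x + (x - z) = y - z by ring] at h5
  linarith

theorem Enc.abs_le (h : Enc p q D L T x) (k : T.B < 2 ^ (p.W - 1)) : |x| ≤ nrm T := by
  obtain ⟨-, -, h3⟩ := h
  obtain ⟨z, ⟨l, -, -, hx, hn⟩, hz⟩ := h3 k
  have key : ∀ l : List (ℕ × ℕ × ℤ),
      |(l.map fun u => (u.2.2 : ℝ) * (p.τ ^ u.1 * p.t ^ u.2.1)).sum|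
        ≤ (((l.map fun u => u.2.2.natAbs).sum : ℕ) : ℝ) := by
    intro l
    induction l with
    | nil => simp
    | cons u l ih =>
      simp only [List.map_cons, List.sum_cons, Nat.cast_add]
      refine le_trans (abs_add_le _ _) (add_le_add ?_ ih)
      rw [abs_mul, abs_mul, abs_pow, abs_pow, Nat.cast_natAbs, Int.cast_abs]
      have a1 : |p.τ| ^ u.1 ≤ 1 := pow_le_one₀ (abs_nonneg _) p.hτ
      have a2 : |p.t| ^ u.2.1 ≤ 1 := pow_le_one₀ (abs_nonneg _) p.ht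
      have a3 : |p.τ| ^ u.1 * |p.t| ^ u.2.1 ≤ 1 := mul_le_one₀ a1 (by positivity) a2
      exact mul_le_of_le_one_right (abs_nonneg _) a3
  have h4 : |z| ≤ T.B := by
    rw [hx]
    exact le_trans (key l) (by exact_mod_cast hn)
  have e1 : (nrm T : ℝ) = T.B + T.e := by
    show ((T.B + T.e : ℕ) : ℝ) = _
    push_cast
    rfl
  rw [e1]
  have h5 := abs_add_le (x - z) z
  rw [sub_add_cancel] at h5
  linarith

theorem enc_liT {u v e : ℕ} (h : |x - (u + v * p.t)| ≤ e) : Enc p q 1 2 (li p.W u v e) x := by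
  refine ⟨Nat.succ_pos _, fun _ => rfl, fun _ => ⟨u + v * p.t,
    ⟨[(0, 0, (u : ℤ)), (0, 1, (v : ℤ))], ?_, ?_, ?_, ?_⟩, h⟩⟩
  · intro w hw
    simp only [List.mem_cons, List.not_mem_nil, or_false] at hw
    rcases hw with rfl | rfl <;> simp
  · simp [li, Nat.shiftLeft_eq]
  · simp
  · simp [li]

theorem enc_liR {u v e : ℕ} (h : |x - (u + v * p.τ)| ≤ e) :
    Enc p q 2 1 (li (Nat.mul p.W p.S) u v e) x := by
  refine ⟨Nat.succ_pos _, fun _ => rfl, fun _ => ⟨u + v * p.τ,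
    ⟨[(0, 0, (u : ℤ)), (1, 0, (v : ℤ))], ?_, ?_, ?_, ?_⟩, h⟩⟩
  · intro w hw
    simp only [List.mem_cons, List.not_mem_nil, or_false] at hw
    rcases hw with rfl | rfl <;> simp
  · simp [li, Nat.shiftLeft_eq]
  · simp
  · simp [li]

theorem abs_divq (G u : ℕ) {d : ℕ} (hd : 0 < d) :
    |(u : ℝ) / d * 2 ^ G - (Nat.div (Nat.shiftLeft u G) d : ℕ)| ≤ 1 := by
  have e0 : Nat.div (Nat.shiftLeft u G) d = u * 2 ^ G / d := by
    show (u <<< G) / d = _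
    rw [Nat.shiftLeft_eq]
  rw [e0]
  have hd' : (0 : ℝ) < d := by exact_mod_cast hd
  have h1 : ((u * 2 ^ G / d : ℕ) : ℝ) ≤ ((u * 2 ^ G : ℕ) : ℝ) / d := Nat.cast_div_le
  have h2 : ((u * 2 ^ G : ℕ) : ℝ) < (d : ℝ) * (((u * 2 ^ G / d : ℕ) : ℝ) + 1) := by
    exact_mod_cast Nat.lt_mul_div_succ (u * 2 ^ G) hd
  have h3 : ((u * 2 ^ G : ℕ) : ℝ) / d < ((u * 2 ^ G / d : ℕ) : ℝ) + 1 := by
    rw [div_lt_iff₀ hd']
    linarith
  have e1 : (u : ℝ) / d * 2 ^ G = ((u * 2 ^ G : ℕ) : ℝ) / d := by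
    push_cast
    ring
  rw [e1, abs_le]
  constructor <;> linarith

theorem abs_linq (G u v : ℕ) {d : ℕ} (hd : 0 < d) {z : ℝ} (hz : |z| ≤ 1) :
    |((u : ℝ) + v * z) / d * 2 ^ G - (((Nat.div (Nat.shiftLeft u G) d : ℕ) : ℝ)
      + ((Nat.div (Nat.shiftLeft v G) d : ℕ) : ℝ) * z)| ≤ ((2 : ℕ) : ℝ) := by
  have h1 := abs_divq G u hd
  have h2 := abs_divq G v hd
  generalize ((Nat.div (Nat.shiftLeft u G) d : ℕ) : ℝ) = A at h1 ⊢
  generalize ((Nat.div (Nat.shiftLeft v G) d : ℕ) : ℝ) = B at h2 ⊢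
  have e1 : ((u : ℝ) + v * z) / d * 2 ^ G - (A + B * z)
      = ((u : ℝ) / d * 2 ^ G - A) + ((v : ℝ) / d * 2 ^ G - B) * z := by ring
  rw [e1]
  have h3 : |((v : ℝ) / d * 2 ^ G - B) * z| ≤ 1 := by
    rw [abs_mul]
    exact mul_le_one₀ h2 (abs_nonneg _) hz
  have h4 := abs_add_le ((u : ℝ) / d * 2 ^ G - A) (((v : ℝ) / d * 2 ^ G - B) * z)
  push_cast
  linarith

theorem enc_lqT (G u v : ℕ) {d : ℕ} (hd : 0 < d) :
    Enc p q 1 2 (lq p.W G u v d) ((u + v * p.t) / d * 2 ^ G) := by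
  exact enc_liT (abs_linq G u v hd p.ht)

theorem enc_lqR (G u v : ℕ) {d : ℕ} (hd : 0 < d) :
    Enc p q 2 1 (lq (Nat.mul p.W p.S) G u v d) ((u + v * p.τ) / d * 2 ^ G) := by
  exact enc_liR (abs_linq G u v hd p.hτ)

theorem enc_cq (G u : ℕ) {d : ℕ} (hd : 0 < d) : Enc p q 1 1 (cq G u d) ((u : ℝ) / d * 2 ^ G) := by
  exact enc_cst (by simpa using abs_divq G u hd)

end

end Pool.Agent.Lib.MP_2347b2_mp.F.NT
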