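import Pool.Agent.Lib.MP_2347b2_mp.F.NB0

/-!
Packed numbers: one lane of a rounding, and the rounding on coefficient functions.
-/

namespace Pool.Agent.Lib.MP_2347b2_mp.F.NT

noncomputable section

open Finset

/-- the magnitude digit of a lane with the offset `2 ^ s` -/
def lw (s v : ℕ) : ℕ := if 2 ^ s ≤ v then v - 2 ^ s else 2 ^ s - 1 - v

theorem lw_eq {s v : ℕ} (hv : v < 2 ^ (s + 1)) :
    (v ^^^ ((1 - ((v >>> s) &&& 1)) * (2 ^ s - 1))) &&& (1 * (2 ^ s - 1)) = lw s v := by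
  have hp := Nat.two_pow_pos s
  rw [one_mul, Nat.and_two_pow_sub_one_eq_mod, Nat.shiftRight_eq_div_pow]
  unfold lw
  split_ifs with h
  · have e : v / 2 ^ s = 1 := by
      rw [pow_succ] at hv
      exact Nat.div_eq_of_lt_le (by omega) (by omega)
    rw [e]
    simp only [Nat.and_self, Nat.sub_self, zero_mul, Nat.xor_zero]
    rw [Nat.mod_eq_sub_mod h, Nat.mod_eq_of_lt (by rw [pow_succ] at hv; omega)]
  · have h' : v < 2 ^ s := by omega
    rw [Nat.div_eq_of_lt h']
    simp only [Nat.zero_and, Nat.sub_zero, one_mul]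
    have e : v ^^^ (2 ^ s - 1) = 2 ^ s - (v + 1) := by
      refine Nat.eq_of_testBit_eq fun i => ?_
      rw [Nat.testBit_xor, Nat.testBit_two_pow_sub_one, Nat.testBit_two_pow_sub_succ h']
      by_cases hi : i < s
      · simp [hi]
      · have : v.testBit i = false :=
          Nat.testBit_lt_two_pow (h'.trans_le (Nat.pow_le_pow_right (by norm_num) (by omega)))
        simp [hi, this]
    rw [e, Nat.mod_eq_of_lt (by omega)]
    omega

/-- the packed magnitudes -/
theorem pk_rab {W s n : ℕ} {v : ℕ → ℕ} (hs : s < W) (hv : ∀ r < n, v r < 2 ^ (s + 1)) :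
    (pk W v n ^^^ ((pk W (fun _ => 1) n - ((pk W v n >>> s) &&& pk W (fun _ => 1) n)) *
      (2 ^ s - 1))) &&& (pk W (fun _ => 1) n * (2 ^ s - 1)) = pk W (fun r => lw s (v r)) n := by
  have hW : 0 < W := by omega
  have h1 : 2 ^ (s + 1) ≤ 2 ^ W := Nat.pow_le_pow_right (by norm_num) hs
  have hp := Nat.two_pow_pos s
  have h2 : 2 ^ s - 1 < 2 ^ W := by rw [pow_succ] at h1; omega
  have hv' : ∀ r < n, v r < 2 ^ W := fun r hr => (hv r hr).trans_le h1
  have h3 : ∀ r < n, (1 - ((v r >>> s) &&& 1)) * (2 ^ s - 1) < 2 ^ W := fun r _ =>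
    lt_of_le_of_lt (by simpa using Nat.mul_le_mul_right (2 ^ s - 1) (Nat.sub_le 1 _)) h2
  rw [pk_shr_land hW hv' fun r _ => Nat.one_lt_two_pow (by omega),
    pk_sub fun r _ => Nat.and_le_right, pk_mul, pk_mul, pk_xor hW hv' h3,
    pk_land hW (fun r hr => Nat.xor_lt_two_pow (hv' r hr) (h3 r hr))
      fun r _ => by simpa using h2]
  exact pk_congr fun r hr => lw_eq (hv r hr)

/-- the rounded digit of a lane -/
def lv (s g : ℕ) (c : ℤ) : ℕ := (c + (2 ^ (s + g) : ℕ)).toNat / 2 ^ g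

theorem lane {s g : ℕ} {c : ℤ} (hc : c.natAbs < 2 ^ (s + g)) :
    lv s g c < 2 ^ (s + 1) ∧ ((lv s g c : ℤ) - 2 ^ s).natAbs ≤ lw s (lv s g c) + 1 ∧
      lw s (lv s g c) ≤ c.natAbs ∧ |(c : ℝ) / 2 ^ g - ((lv s g c : ℤ) - 2 ^ s : ℤ)| ≤ 1 ∧
      |(c : ℝ) / 2 ^ g| ≤ lw s (lv s g c) + 1 := by
  rw [pow_add] at hc
  unfold lv
  rw [pow_add, pow_succ]
  have hG := Nat.two_pow_pos g
  have eA : (2 : ℤ) ^ s = ((2 ^ s : ℕ) : ℤ) := by push_cast; rfl
  have eG : (2 : ℝ) ^ g = ((2 ^ g : ℕ) : ℝ) := by push_cast; rfl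
  unfold lw
  rw [eA, eG]
  generalize 2 ^ s = A at *
  generalize 2 ^ g = G at *
  set u := (c + (A * G : ℕ)).toNat with hu
  have e1 : (u : ℤ) = c + A * G := by
    rw [hu, Int.toNat_of_nonneg (by omega)]; push_cast; rfl
  have e2 : u / G * G ≤ u := Nat.div_mul_le_self _ _
  have e3 : u < u / G * G + G := Nat.lt_div_mul_add hG
  have e4 : u / G < A * 2 := by
    rw [Nat.div_lt_iff_lt_mul hG, mul_right_comm]
    have : ((A * G : ℕ) : ℤ) = A * G := by push_cast; rfl
    omega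
  generalize u / G = v at *
  have f1 : ((v : ℤ) - A) * G ≤ c := by
    have : ((v * G : ℕ) : ℤ) ≤ u := by exact_mod_cast e2
    push_cast at this; linarith
  have f2 : c < ((v : ℤ) - A) * G + G := by
    have : (u : ℤ) < (v * G + G : ℕ) := by exact_mod_cast e3
    push_cast at this; linarith
  have hG' : (0 : ℝ) < G := by exact_mod_cast hG
  have hG1 : (1 : ℤ) ≤ G := by exact_mod_cast hG
  have g1 : (((v : ℤ) - A : ℤ) : ℝ) ≤ (c : ℝ) / G := by
    rw [le_div_iff₀ hG']; exact_mod_cast f1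
  have g2 : (c : ℝ) / G ≤ ((v : ℤ) - A : ℤ) + 1 := by
    rw [div_le_iff₀ hG', add_mul, one_mul]; exact_mod_cast f2.le
  refine ⟨e4, by split_ifs <;> omega, ?_, by rw [abs_le]; constructor <;> linarith, ?_⟩
  · split_ifs with h
    · have : ((v : ℤ) - A) * 1 ≤ ((v : ℤ) - A) * G :=
        mul_le_mul_of_nonneg_left hG1 (by omega)
      omega
    · have : (A - 1 - (v : ℤ)) * 1 ≤ (A - 1 - (v : ℤ)) * G :=
        mul_le_mul_of_nonneg_left hG1 (by omega)
      have : c < -(A - 1 - (v : ℤ)) := by linarith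
      omega
  · push_cast at g1 g2
    split_ifs with h
    · have : (A : ℝ) ≤ v := by exact_mod_cast h
      rw [Nat.cast_sub h, abs_le]; constructor <;> linarith
    · have h' : v + 1 ≤ A := by omega
      have : (v : ℝ) + 1 ≤ A := by exact_mod_cast h'
      rw [Nat.sub_sub, add_comm 1 v, Nat.cast_sub h', abs_le]
      push_cast; constructor <;> linarith

/-- the rounding on a coefficient function -/
theorem round_rep (p : Pt) {E K n s g B : ℕ} {c : ℕ → ℤ} (hc : ∀ r < n, (c r).natAbs < 2 ^ (s + g))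
    (hB : ∑ r ∈ range n, (if r / p.S < E ∧ r % p.S < K then lw s (lv s g (c r)) else 0) + n ≤ B) :
    ∃ y, Rep p False E K
      ((pk p.W (fun r => if r / p.S < E ∧ r % p.S < K then lv s g (c r) else 0) n : ℤ) -
        (pk p.W (fun r => (if r / p.S < E ∧ r % p.S < K then 1 else 0) * 2 ^ s) n : ℕ)) y B ∧
      |(∑ r ∈ range n, (c r : ℝ) * (p.τ ^ (r / p.S) * p.t ^ (r % p.S))) / 2 ^ g - y| ≤
        ((∑ r ∈ range n, lw s (lv s g (c r)) -
          ∑ r ∈ range n, (if r / p.S < E ∧ r % p.S < K then lw s (lv s g (c r)) else 0) : ℕ) : ℝ) +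
          n := by
  let d : ℕ → ℤ := fun r => if r / p.S < E ∧ r % p.S < K then (lv s g (c r) : ℤ) - 2 ^ s else 0
  have hb := Rep.build (p := p) (q := False) (D := E) (L := K) (B := B) d n
    (fun r _ h => by by_contra h'; exact h (if_neg h')) False.elim (by
      refine le_trans ?_ hB
      calc _ ≤ ∑ r ∈ range n,
            ((if r / p.S < E ∧ r % p.S < K then lw s (lv s g (c r)) else 0) + 1) := by
            refine sum_le_sum fun r hr => ?_
            simp only [d]
            split_ifs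
            · exact (lane (hc r (mem_range.1 hr))).2.1
            · simp
        _ = _ := by rw [sum_add_distrib]; simp)
  have eP : ((pk p.W (fun r => if r / p.S < E ∧ r % p.S < K then lv s g (c r) else 0) n : ℤ) -
      (pk p.W (fun r => (if r / p.S < E ∧ r % p.S < K then 1 else 0) * 2 ^ s) n : ℕ)) =
      ∑ r ∈ range n, d r * 2 ^ (p.W * r) := by
    rw [pk_cast, pk_cast, ← sum_sub_distrib]
    refine sum_congr rfl fun r _ => ?_
    simp only [d]
    split_ifs <;> push_cast <;> ring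
  rw [eP]
  refine ⟨_, hb, ?_⟩
  · rw [← sum_tsub_distrib _ fun r _ => by split_ifs <;> omega, sum_div, ← sum_sub_distrib]
    refine (abs_sum_le_sum_abs _ _).trans ?_
    calc _ ≤ ∑ r ∈ range n, (((lw s (lv s g (c r)) -
          (if r / p.S < E ∧ r % p.S < K then lw s (lv s g (c r)) else 0) : ℕ) : ℝ) + 1) := by
          refine sum_le_sum fun r hr => ?_
          have hl := lane (hc r (mem_range.1 hr))
          have e : (c r : ℝ) * (p.τ ^ (r / p.S) * p.t ^ (r % p.S)) / 2 ^ g -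
              (d r : ℝ) * (p.τ ^ (r / p.S) * p.t ^ (r % p.S)) =
              ((c r : ℝ) / 2 ^ g - d r) * (p.τ ^ (r / p.S) * p.t ^ (r % p.S)) := by ring
          rw [e, abs_mul]
          refine (mul_le_of_le_one_right (abs_nonneg _) (p.abs_mon _ _)).trans ?_
          simp only [d]
          split_ifs
          · rw [Nat.sub_self, Nat.cast_zero, zero_add]; exact hl.2.2.2.1
          · rw [Nat.sub_zero, Int.cast_zero, sub_zero]; exact hl.2.2.2.2
      _ = _ := by rw [sum_add_distrib]; simp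

theorem div_le_shr (e g : ℕ) : (e : ℝ) / 2 ^ g ≤ (e >>> g : ℕ) + 1 := by
  rw [Nat.shiftRight_eq_div_pow, div_le_iff₀ (by positivity)]
  have := Nat.lt_div_mul_add (a := e) (Nat.two_pow_pos g)
  have h : (e : ℝ) ≤ (e / 2 ^ g * 2 ^ g + 2 ^ g : ℕ) := by exact_mod_cast this.le
  rw [Nat.cast_add, Nat.cast_mul, Nat.cast_pow, Nat.cast_ofNat] at h
  linarith

end

end Pool.Agent.Lib.MP_2347b2_mp.F.NT
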