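import Pool.Agent.Lib.MP_2347b2_mp.F.NA

/-!
Digit lemmas for the rounding of models with nonnegative coefficients.
-/

namespace Pool.Agent.Lib.MP_2347b2_mp.F.NT

noncomputable section

open Finset

/-- packed digits -/
def rp_pk (W : ℕ) (c : ℕ → ℕ) (n : ℕ) : ℕ := ∑ r ∈ range n, c r * 2 ^ (W * r)

theorem rp_pk_succ (W : ℕ) (c : ℕ → ℕ) (n : ℕ) :
    rp_pk W c (n + 1) = 2 ^ (W * n) * c n + rp_pk W c n := by
  unfold rp_pk; rw [sum_range_succ]; ring

theorem rp_pk_lt {W : ℕ} {c : ℕ → ℕ} (hc : ∀ r, c r < 2 ^ W) (n : ℕ) :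
    rp_pk W c n < 2 ^ (W * n) := by
  induction n with
  | zero => simp [rp_pk]
  | succ n ih =>
    rw [rp_pk_succ, Nat.mul_succ, pow_add]
    have h1 : c n + 1 ≤ 2 ^ W := hc n
    calc 2 ^ (W * n) * c n + rp_pk W c n < 2 ^ (W * n) * c n + 2 ^ (W * n) := by omega
      _ = 2 ^ (W * n) * (c n + 1) := by ring
      _ ≤ 2 ^ (W * n) * 2 ^ W := Nat.mul_le_mul_left _ h1

theorem rp_bit_hi {W a j : ℕ} (h : a < 2 ^ W) (hj : W ≤ j) : a.testBit j = false :=
  Nat.testBit_lt_two_pow (lt_of_lt_of_le h (Nat.pow_le_pow_right (by norm_num) hj))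

theorem rp_bit {W : ℕ} (hW : 0 < W) {c : ℕ → ℕ} (hc : ∀ r, c r < 2 ^ W) (n i : ℕ) :
    (rp_pk W c n).testBit i = (decide (i / W < n) && (c (i / W)).testBit (i % W)) := by
  induction n with
  | zero => simp [rp_pk]
  | succ n ih =>
    rw [rp_pk_succ, Nat.testBit_two_pow_mul_add _ (rp_pk_lt hc n), ih]
    have e := Nat.div_add_mod i W
    have hm := Nat.mod_lt i hW
    by_cases h : i < W * n
    · have h1 : i / W < n := (Nat.div_lt_iff_lt_mul hW).2 (by rwa [Nat.mul_comm] at h)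
      have h2 : i / W < n + 1 := by omega
      simp [h, h1, h2]
    · have h1 : n ≤ i / W := (Nat.le_div_iff_mul_le hW).2 (by rw [Nat.mul_comm]; omega)
      rw [if_neg h]
      rcases h1.eq_or_lt with h2 | h2
      · have h3 : i - W * n = i % W := by rw [h2]; omega
        rw [h3, ← h2]; simp
      · have h3 : W * (n + 1) ≤ W * (i / W) := Nat.mul_le_mul_left _ h2
        rw [Nat.mul_succ] at h3
        have h4 : ¬ i / W < n + 1 := by omega
        rw [rp_bit_hi (hc n) (by omega)]; simp [h4]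

theorem rp_land {W : ℕ} (hW : 0 < W) {c d : ℕ → ℕ} (hc : ∀ r, c r < 2 ^ W)
    (hd : ∀ r, d r < 2 ^ W) (n : ℕ) :
    rp_pk W c n &&& rp_pk W d n = rp_pk W (fun r => c r &&& d r) n := by
  apply Nat.eq_of_testBit_eq
  intro i
  have he : ∀ r, c r &&& d r < 2 ^ W := fun r => lt_of_le_of_lt Nat.and_le_left (hc r)
  rw [Nat.testBit_and, rp_bit hW hc, rp_bit hW hd, rp_bit hW he, Nat.testBit_and]
  cases decide (i / W < n) <;> simp

theorem rp_shift {W g : ℕ} (hg : g < W) {c : ℕ → ℕ} (hc : ∀ r, c r < 2 ^ W) (n : ℕ) :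
    (rp_pk W c n >>> g) &&& rp_pk W (fun _ => 2 ^ (W - g) - 1) n
      = rp_pk W (fun r => c r / 2 ^ g) n := by
  have hW : 0 < W := by omega
  apply Nat.eq_of_testBit_eq
  intro i
  have hd : ∀ r : ℕ, (fun _ : ℕ => 2 ^ (W - g) - 1) r < 2 ^ W := fun _ => by
    have : 2 ^ (W - g) ≤ 2 ^ W := Nat.pow_le_pow_right (by norm_num) (by omega)
    have : 0 < 2 ^ (W - g) := by positivity
    show 2 ^ (W - g) - 1 < 2 ^ W
    omega
  have he : ∀ r, (fun r => c r / 2 ^ g) r < 2 ^ W :=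
    fun r => lt_of_le_of_lt (Nat.div_le_self _ _) (hc r)
  rw [Nat.testBit_and, Nat.testBit_shiftRight, rp_bit hW hc, rp_bit hW hd, rp_bit hW he,
    Nat.testBit_two_pow_sub_one, Nat.testBit_div_two_pow]
  have e := Nat.div_add_mod i W
  have hm := Nat.mod_lt i hW
  by_cases h : i % W < W - g
  · have h1 : g + i = W * (i / W) + (g + i % W) := by omega
    have h2 : g + i % W < W := by omega
    have h3 : (g + i) / W = i / W := by
      rw [h1, Nat.mul_add_div hW, Nat.div_eq_of_lt h2]; rfl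
    have h4 : (g + i) % W = i % W + g := by
      rw [h1, Nat.mul_add_mod, Nat.mod_eq_of_lt h2]; omega
    rw [h3, h4]
    cases decide (i / W < n) <;> simp [h]
  · rw [rp_bit_hi (hc (i / W)) (show W ≤ i % W + g by omega)]
    simp [h]

theorem rp_mul (W : ℕ) (c : ℕ → ℕ) (n k : ℕ) :
    rp_pk W c n * k = rp_pk W (fun r => c r * k) n := by
  unfold rp_pk; rw [sum_mul]; exact sum_congr rfl fun r _ => by ring

theorem rp_rep {W : ℕ} (hW : 0 < W) (n : ℕ) :
    Nat.div (Nat.sub (pw (Nat.mul W n)) 1) (Nat.sub (pw W) 1) = rp_pk W (fun _ => 1) n := by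
  have h2 : 2 ≤ 2 ^ W := by
    calc 2 = 2 ^ 1 := rfl
      _ ≤ 2 ^ W := Nat.pow_le_pow_right (by norm_num) hW
  have := Nat.geomSum_eq h2 n
  rw [pw_eq, pw_eq]
  show (2 ^ (W * n) - 1) / (2 ^ W - 1) = _
  rw [pow_mul, ← this]
  unfold rp_pk
  exact sum_congr rfl fun r _ => by rw [one_mul, pow_mul]

theorem rp_kp0 (W S K : ℕ) (hK : K ≤ S) (C : ℕ) :
    rp_pk W (fun _ => 1) K * rp_pk (W * S) (fun _ => 1) C
      = rp_pk W (fun r => if r % S < K then 1 else 0) (C * S) := by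
  induction C with
  | zero => simp [rp_pk]
  | succ C ih =>
    rw [rp_pk_succ, Nat.mul_add, ih, Nat.succ_mul]
    unfold rp_pk
    rw [sum_range_add, add_comm]
    refine congrArg _ ?_
    obtain ⟨m, rfl⟩ := Nat.exists_eq_add_of_le hK
    rw [sum_range_add, sum_mul]
    have z : ∑ x ∈ range m, (if (C * (K + m) + (K + x)) % (K + m) < K then 1 else 0)
        * 2 ^ (W * (C * (K + m) + (K + x))) = 0 := by
      refine sum_eq_zero fun j hj => ?_
      have hj := mem_range.1 hj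
      rw [Nat.mul_add_mod', Nat.mod_eq_of_lt (by omega), if_neg (by omega), zero_mul]
    rw [z, add_zero]
    refine sum_congr rfl fun j hj => ?_
    have hj := mem_range.1 hj
    beta_reduce
    rw [Nat.mul_add_mod', Nat.mod_eq_of_lt (by omega), if_pos hj]
    ring

theorem rp_kp {W S K : ℕ} (hW : 0 < W) (hK : K ≤ S) (C : ℕ) :
    Nat.mul (Nat.div (Nat.sub (pw (Nat.mul W K)) 1) (Nat.sub (pw W) 1))
      (Nat.div (Nat.sub (pw (Nat.mul (Nat.mul W S) C)) 1) (Nat.sub (pw (Nat.mul W S)) 1))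
      = rp_pk W (fun r => if r % S < K then 1 else 0) (C * S) := by
  rcases Nat.eq_zero_or_pos S with h | h
  · subst h
    obtain rfl : K = 0 := by omega
    rw [rp_rep hW]
    show rp_pk W _ 0 * _ = _
    simp [rp_pk]
  · rw [rp_rep hW, rp_rep (show 0 < Nat.mul W S from Nat.mul_pos hW h)]
    exact rp_kp0 W S K hK C

theorem rp_dm (W S K n : ℕ) :
    rp_pk W (fun _ => 1) n - rp_pk W (fun r => if r % S < K then 1 else 0) n
      = rp_pk W (fun r => if r % S < K then 0 else 1) n := by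
  apply Nat.sub_eq_of_eq_add
  unfold rp_pk
  rw [← sum_add_distrib]
  refine sum_congr rfl fun r _ => ?_
  by_cases h : r % S < K <;> simp [h]

variable {p : Pt} {D L C K g : ℕ} {T : TM} {x : ℝ}

theorem rp_ext0 (hD : D ≤ C) (hL : L ≤ p.S) (l : List (ℕ × ℕ × ℤ))
    (h : ∀ u ∈ l, u.1 < D ∧ u.2.1 < L ∧ (True → 0 ≤ u.2.2)) :
    ∃ c : ℕ → ℕ,
      (l.map fun u => u.2.2 * 2 ^ (p.W * (u.1 * p.S + u.2.1))).sum
        = ((rp_pk p.W c (C * p.S) : ℕ) : ℤ) ∧
      (l.map fun u => (u.2.2 : ℝ) * (p.τ ^ u.1 * p.t ^ u.2.1)).sum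
        = ∑ r ∈ range (C * p.S), (c r : ℝ) * (p.τ ^ (r / p.S) * p.t ^ (r % p.S)) ∧
      (l.map fun u => u.2.2.natAbs).sum = ∑ r ∈ range (C * p.S), c r ∧
      ∀ r, C * p.S ≤ r → c r = 0 := by
  induction l with
  | nil => exact ⟨fun _ => 0, by simp [rp_pk], by simp, by simp, fun _ _ => rfl⟩
  | cons u l ih =>
    obtain ⟨c, h1, h2, h3, h4⟩ := ih fun v hv => h v (List.mem_cons_of_mem _ hv)
    obtain ⟨a1, a2, a3⟩ := h u List.mem_cons_self
    obtain ⟨i, j, z⟩ := u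
    obtain ⟨m, rfl⟩ := Int.eq_ofNat_of_zero_le (a3 trivial)
    simp only at a1 a2
    have hS : 0 < p.S := by omega
    have hj : j < p.S := by omega
    have hr : i * p.S + j < C * p.S := by
      have : (i + 1) * p.S ≤ C * p.S := Nat.mul_le_mul_right _ (by omega)
      rw [Nat.succ_mul] at this; omega
    have hq : (i * p.S + j) / p.S = i := by
      rw [Nat.mul_comm, Nat.mul_add_div hS, Nat.div_eq_of_lt hj]; rfl
    have hm : (i * p.S + j) % p.S = j := by rw [Nat.mul_add_mod', Nat.mod_eq_of_lt hj]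
    refine ⟨fun r => (if r = i * p.S + j then m else 0) + c r, ?_, ?_, ?_, ?_⟩
    · rw [List.map_cons, List.sum_cons, h1]
      unfold rp_pk
      simp only [add_mul, sum_add_distrib, ite_mul, zero_mul, sum_ite_eq', mem_range, hr, if_true]
      push_cast; rfl
    · rw [List.map_cons, List.sum_cons, h2]
      simp only [Nat.cast_add, Nat.cast_ite, Nat.cast_zero, add_mul, sum_add_distrib, ite_mul,
        zero_mul, sum_ite_eq', mem_range, hr, if_true, hq, hm, Int.cast_natCast]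
    · rw [List.map_cons, List.sum_cons, h3]
      simp only [sum_add_distrib, sum_ite_eq', mem_range, hr, if_true, Int.natAbs_natCast]
    · intro r hr'
      have : r ≠ i * p.S + j := by omega
      simp [this, h4 r hr']

theorem rp_build (c : ℕ → ℕ) (hz : ∀ r < C * p.S, ¬ r % p.S < K → c r = 0) (n : ℕ)
    (hn : n ≤ C * p.S) :
    Rep p True C K (rp_pk p.W c n : ℕ)
      (∑ r ∈ range n, (c r : ℝ) * (p.τ ^ (r / p.S) * p.t ^ (r % p.S))) (∑ r ∈ range n, c r) := by
  induction n with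
  | zero => exact ⟨[], by simp, by simp [rp_pk], by simp, by simp⟩
  | succ n ih =>
    obtain ⟨l, h1, h2, h3, h4⟩ := ih (by omega)
    have hS : 0 < p.S := Nat.pos_of_mul_pos_left (show 0 < C * p.S by omega)
    by_cases h : n % p.S < K
    · refine ⟨(n / p.S, n % p.S, (c n : ℤ)) :: l, ?_, ?_, ?_, ?_⟩
      · intro u hu
        rcases List.mem_cons.1 hu with rfl | hu
        · exact ⟨(Nat.div_lt_iff_lt_mul hS).2 (by omega), h, fun _ => Int.natCast_nonneg _⟩
        · exact h1 u hu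
      · rw [List.map_cons, List.sum_cons, ← h2, rp_pk_succ]
        simp only [Nat.div_add_mod']
        push_cast; ring
      · rw [List.map_cons, List.sum_cons, ← h3, sum_range_succ]
        simp only [Int.cast_natCast]; ring
      · rw [List.map_cons, List.sum_cons, sum_range_succ]
        simp only [Int.natAbs_natCast]; omega
    · have z := hz n (by omega) h
      refine ⟨l, h1, ?_, ?_, ?_⟩
      · rw [← h2, rp_pk_succ, z]; simp
      · rw [← h3, sum_range_succ, z]; simp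
      · rw [sum_range_succ, z]; exact h4

theorem rp_frac (a g : ℕ) : |(a : ℝ) / 2 ^ g - ((a / 2 ^ g : ℕ) : ℝ)| ≤ 1 := by
  have h1 : ((a / 2 ^ g : ℕ) : ℝ) ≤ (a : ℝ) / 2 ^ g := by
    have := @Nat.cast_div_le ℝ _ _ _ a (2 ^ g)
    push_cast at this ⊢; exact this
  have h2 : (a : ℝ) / 2 ^ g ≤ ((a / 2 ^ g : ℕ) : ℝ) + 1 := by
    rw [div_le_iff₀ (by positivity)]
    have : a < (a / 2 ^ g + 1) * 2 ^ g := by
      rw [Nat.mul_comm]; exact Nat.lt_mul_div_succ a (by positivity)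
    exact_mod_cast this.le
  rw [abs_le]; constructor <;> linarith

theorem rp_main (h : Enc p True D L T x) (hD : D ≤ C) (hL : L ≤ p.S) (hg : g < p.W)
    {one kp y : ℕ} (h1 : one = rp_pk p.W (fun _ => 1) (C * p.S))
    (h2 : kp = rp_pk p.W (fun r => if r % p.S < K then 1 else 0) (C * p.S))
    (hy : y = Nat.land (Nat.shiftRight T.a g) (Nat.mul one (Nat.sub (pw (Nat.sub p.W g)) 1))) :
    Enc p True C K ⟨y, 0, Nat.add (Nat.add (Nat.succ (Nat.shiftRight T.B g)) (bad p.W T.B))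
      (Nat.shiftLeft (Nat.land y (Nat.mul (Nat.sub one kp) (Nat.sub (pw p.W) 1))) p.W),
      Nat.add (Nat.shiftRight T.e g) (Nat.succ (Nat.mul C p.S))⟩ (x / 2 ^ g) := by
  have hW : 0 < p.W := by omega
  refine ⟨?_, fun _ => rfl, fun hB => ?_⟩
  · show 1 ≤ (T.B >>> g + 1 + bad p.W T.B) + _
    exact le_add_right (le_add_right (Nat.le_add_left _ _))
  replace hB : (T.B >>> g + 1 + bad p.W T.B) + (y &&& ((one - kp) * (pw p.W - 1))) <<< p.W
      < 2 ^ (p.W - 1) := hB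
  have hB1 : T.B < 2 ^ (p.W - 1) := 
    lt_of_bad (lt_of_le_of_lt (le_add_right (Nat.le_add_left _ _)) hB)
  have hlt : 2 ^ (p.W - 1) < 2 ^ p.W := Nat.pow_lt_pow_right (by norm_num) (by omega)
  have hz : y &&& ((one - kp) * (pw p.W - 1)) = 0 := by
    by_contra hne
    have : 1 * 2 ^ p.W ≤ (y &&& ((one - kp) * (pw p.W - 1))) * 2 ^ p.W :=
      Nat.mul_le_mul_right _ (Nat.one_le_iff_ne_zero.2 hne)
    rw [Nat.shiftLeft_eq] at hB
    rw [one_mul] at this
    exact absurd (lt_of_le_of_lt (this.trans (Nat.le_add_left _ _)) hB) (not_lt.2 hlt.le)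
  obtain ⟨y0, ⟨l, a1, a2, a3, a4⟩, a5⟩ := h.2.2 hB1
  obtain ⟨c, c1, c2, c3, c4⟩ := rp_ext0 hD hL l a1
  rw [c1, h.2.1 trivial] at a2
  rw [c2] at a3
  rw [c3] at a4
  have ha : T.a = rp_pk p.W c (C * p.S) := by
    have : (T.a : ℤ) = (rp_pk p.W c (C * p.S) : ℕ) := by simpa using a2
    exact_mod_cast this
  have hc : ∀ r, c r < 2 ^ p.W := fun r => by
    by_cases hr : r < C * p.S
    · have := single_le_sum (f := c) (fun _ _ => Nat.zero_le _) (mem_range.2 hr)
      omega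
    · rw [c4 r (by omega)]; positivity
  have hc' : ∀ r, (fun r => c r / 2 ^ g) r < 2 ^ p.W :=
    fun r => lt_of_le_of_lt (Nat.div_le_self _ _) (hc r)
  have hy' : y = rp_pk p.W (fun r => c r / 2 ^ g) (C * p.S) := by
    rw [hy, ← rp_shift hg hc, ha, h1, pw_eq]
    show _ &&& (rp_pk p.W (fun _ => 1) (C * p.S) * (2 ^ (p.W - g) - 1)) = _
    rw [rp_mul]; simp only [one_mul]; rfl
  have hd : ∀ r : ℕ, (fun r => (if r % p.S < K then 0 else 1) * (2 ^ p.W - 1)) r < 2 ^ p.W :=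
    fun r => by
      show (if r % p.S < K then 0 else 1) * (2 ^ p.W - 1) < 2 ^ p.W
      split_ifs <;> omega
  rw [h1, h2, rp_dm, pw_eq, rp_mul, hy', rp_land hW hc' hd] at hz
  have hz' : ∀ r < C * p.S, ¬ r % p.S < K → (fun r => c r / 2 ^ g) r = 0 := by
    intro r hr hk
    have := (sum_eq_zero_iff.1 hz) r (mem_range.2 hr)
    have h7 : c r / 2 ^ g < 2 ^ p.W := hc' r
    beta_reduce at this
    rw [if_neg hk, one_mul, Nat.and_two_pow_sub_one_eq_mod, Nat.mod_eq_of_lt h7] at this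
    exact (Nat.mul_eq_zero.1 this).resolve_right (by positivity)
  obtain ⟨l', b1, b2, b3, b4⟩ := rp_build _ hz' (C * p.S) le_rfl
  refine ⟨_, ⟨l', b1, ?_, b3, ?_⟩, ?_⟩
  · rw [← b2, ← hy']; simp
  · refine b4.trans ?_
    have : ∑ r ∈ range (C * p.S), c r / 2 ^ g ≤ T.B / 2 ^ g := by
      rw [Nat.le_div_iff_mul_le (by positivity), sum_mul]
      exact (sum_le_sum fun r _ => Nat.div_mul_le_self _ _).trans a4
    show _ ≤ (T.B >>> g + 1 + bad p.W T.B) + _
    rw [Nat.shiftRight_eq_div_pow]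
    exact le_add_right (le_add_right (le_add_right this))
  · show _ ≤ ((T.e >>> g + (C * p.S + 1) : ℕ) : ℝ)
    rw [Nat.shiftRight_eq_div_pow]
    have e1 : |x / 2 ^ g - y0 / 2 ^ g| ≤ ((T.e / 2 ^ g : ℕ) : ℝ) + 1 := by
      rw [← sub_div, abs_div, abs_of_pos (show (0 : ℝ) < 2 ^ g by positivity)]
      have := (abs_le.1 (rp_frac T.e g)).2
      have h5 : |x - y0| / 2 ^ g ≤ (T.e : ℝ) / 2 ^ g := by gcongr
      linarith
    have e2 : |y0 / 2 ^ g - ∑ r ∈ range (C * p.S),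
        ((c r / 2 ^ g : ℕ) : ℝ) * (p.τ ^ (r / p.S) * p.t ^ (r % p.S))| ≤ ((C * p.S : ℕ) : ℝ) := by
      rw [a3, sum_div, ← sum_sub_distrib]
      refine (abs_sum_le_sum_abs _ _).trans ?_
      have : ∀ r ∈ range (C * p.S), |(c r : ℝ) * (p.τ ^ (r / p.S) * p.t ^ (r % p.S)) / 2 ^ g
          - ((c r / 2 ^ g : ℕ) : ℝ) * (p.τ ^ (r / p.S) * p.t ^ (r % p.S))| ≤ 1 := by
        intro r _
        rw [mul_div_right_comm, ← sub_mul, abs_mul, abs_mul, abs_pow, abs_pow]
        exact mul_le_one₀ (rp_frac _ _) (by positivity)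
          (mul_le_one₀ (pow_le_one₀ (abs_nonneg _) p.hτ) (by positivity)
            (pow_le_one₀ (abs_nonneg _) p.ht))
      refine (sum_le_sum this).trans ?_
      simp
    have e3 := abs_sub_le (x / 2 ^ g) (y0 / 2 ^ g) (∑ r ∈ range (C * p.S),
        ((c r / 2 ^ g : ℕ) : ℝ) * (p.τ ^ (r / p.S) * p.t ^ (r % p.S)))
    rw [Nat.cast_add, Nat.cast_add, Nat.cast_one]
    linarith

end

end Pool.Agent.Lib.MP_2347b2_mp.F.NT
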