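import Pool.Agent.Lib.MP_2347b2_mp.F.NBr
import Pool.Agent.Lib.MP_2347b2_mp.F.NB1
import Pool.Agent.Lib.MP_2347b2_mp.F.NBp

/-!
Packed Taylor models: the operations that read the digits.
-/

namespace Pool.Agent.Lib.MP_2347b2_mp.F.NT

noncomputable section

/-- the masks of a rounding -/
structure Cx where
  W : ℕ
  g : ℕ
  off : ℕ
  m1 : ℕ
  sh : ℕ
  one : ℕ
  o1 : ℕ
  low : ℕ
  km : ℕ
  ko : ℕ
  dm : ℕ
  z1 : ℕ
  n : ℕ

/-- `n` digits equal to one -/
def rep (W n : ℕ) : ℕ := Nat.div (Nat.sub (pw (Nat.mul W n)) 1) (Nat.sub (pw W) 1)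

def mkC (W g sh one kp n : ℕ) : Cx :=
  ⟨W, g, Nat.shiftLeft one (Nat.sub W 1), Nat.mul one (Nat.sub (pw (Nat.sub W g)) 1), sh, one,
    Nat.sub (pw sh) 1, Nat.mul one (Nat.sub (pw sh) 1), Nat.mul kp (Nat.sub (pw W) 1),
    Nat.shiftLeft kp sh, Nat.mul (Nat.sub one kp) (Nat.sub (pw W) 1), Nat.sub (pw W) 1, n⟩

/-- `D` rows come in, `D'` rows of `L'` lanes are kept, the shift is `g` -/
def mkCx (W S D D' L' g : ℕ) : Cx :=
  mkC W g (Nat.sub (Nat.sub W 1) g) (rep W (Nat.mul D S))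
    (Nat.mul (rep W L') (rep (Nat.mul W S) D')) (Nat.mul D S)

def ry (c : Cx) (x : TM) : ℕ :=
  Nat.land (Nat.shiftRight (Nat.sub (Nat.add x.a c.off) x.b) c.g) c.m1

def rab (c : Cx) (y : ℕ) : ℕ :=
  Nat.land (Nat.xor y (Nat.mul (Nat.sub c.one (Nat.land (Nat.shiftRight y c.sh) c.one)) c.o1)) c.low

def rk (c : Cx) (y : ℕ) : ℕ := Nat.mod (Nat.land (rab c y) c.km) c.z1

def rn (c : Cx) (y B e : ℕ) : TM :=
  ⟨Nat.land y c.km, c.ko, Nat.add (Nat.add (rk c y) (Nat.succ c.n)) (bad c.W B),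
    Nat.add (Nat.add (Nat.shiftRight e c.g) (Nat.sub (Nat.mod (rab c y) c.z1) (rk c y)))
      (Nat.succ c.n)⟩

/-- division by `2 ^ g` and truncation, with measured norms -/
def rnd (c : Cx) (x : TM) : TM := rn c (ry c x) x.B x.e

def rp (c : Cx) (y B e : ℕ) : TM :=
  ⟨y, 0, Nat.add (Nat.add (Nat.succ (Nat.shiftRight B c.g)) (bad c.W B))
      (Nat.shiftLeft (Nat.land y c.dm) c.W),
    Nat.add (Nat.shiftRight e c.g) (Nat.succ c.n)⟩

/-- the same for nonnegative coefficients, the lanes that are not kept have to vanish -/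
def rndP (c : Cx) (x : TM) : TM := rp c (Nat.land (Nat.shiftRight x.a c.g) c.m1) x.B x.e

/-- mask of the even rows -/
def emk (W S D : ℕ) : ℕ := Nat.mul (Nat.sub (pw (Nat.mul W S)) 1) (rep (Nat.mul W (Nat.mul 2 S)) D)

def ev (m : ℕ) (x : TM) : TM := ⟨Nat.land x.a m, 0, x.B, 0⟩

def od (n m : ℕ) (x : TM) : TM := ⟨Nat.land (Nat.shiftRight x.a n) m, 0, x.B, 0⟩

def offs (W n : ℕ) : ℕ := Nat.shiftLeft (rep W n) (Nat.sub W 1)

/-- the row `i` of a model with `D` rows -/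
def row (W S D : ℕ) (x : TM) (i : ℕ) : TM :=
  ⟨Nat.mod (Nat.shiftRight (Nat.sub (Nat.add x.a (offs W (Nat.mul D S))) x.b)
      (Nat.mul (Nat.mul W S) i)) (pw (Nat.mul W S)), offs W S, x.B, 0⟩

/-- product with rounding -/
def fm (c : Cx) (x y : TM) : TM := rnd c (mul x y)

variable {p : Pt} {q q' : Prop} {D L D' L' C E K g : ℕ} {T U : TM} {x y : ℝ}

theorem rep_eq {W : ℕ} (hW : 0 < W) (n : ℕ) : rep W n = pk W (fun _ => 1) n := by
  unfold rep
  rw [pw_eq, pw_eq]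
  exact geo_eq hW n

theorem Enc.rnd (h : Enc p q D L T x) (hD : D ≤ C) (hL : L ≤ p.S) (hE : E ≤ C) (hK : K ≤ p.S)
    (hg : g < p.W) : Enc p False E K (rnd (mkCx p.W p.S C E K g) T) (x / 2 ^ g) := by
  have hW : 0 < p.W := by omega
  refine ⟨by show 1 ≤ _ + (_ + 1) + _; omega, False.elim, fun hB => ?_⟩
  have hB0 : T.B < 2 ^ (p.W - 1) := lt_of_bad (lt_of_le_of_lt (Nat.le_add_left _ _) hB)
  obtain ⟨y0, hr, he⟩ := h.2.2 hB0
  obtain ⟨c, e1, e2, e3, -, -⟩ := hr.extract hD hL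
  obtain ⟨s, hs⟩ : ∃ s, p.W - 1 = s + g := ⟨p.W - 1 - g, by omega⟩
  have hs' : p.W - 1 - g = s := by omega
  have hc : ∀ r < C * p.S, (c r).natAbs < 2 ^ (s + g) := fun r hr =>
    hs ▸ (natAbs_le_of_sum e3 r hr).trans_lt hB0
  have h2 : 2 ^ p.W = 2 ^ (s + g) * 2 := by rw [← pow_succ]; congr 1; omega
  have hWS : 0 < p.S → 0 < p.W * p.S := fun h => Nat.mul_pos hW h
  have ek : rep p.W K * rep (p.W * p.S) E =
      pk p.W (fun r => if r / p.S < E ∧ r % p.S < K then 1 else 0) (C * p.S) := by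
    rcases Nat.eq_zero_or_pos p.S with h0 | h0
    · have : K = 0 := by omega
      rw [this, h0, rep_eq hW, pk_zero, zero_mul, mul_zero, pk_zero]
    · rw [rep_eq hW, rep_eq (hWS h0), pk_keep _ hK hE]
  have ey : ry (mkCx p.W p.S C E K g) T = pk p.W (fun r => lv s g (c r)) (C * p.S) := by
    show ((T.a + rep p.W (C * p.S) <<< (p.W - 1) - T.b) >>> g) &&&
      (rep p.W (C * p.S) * (pw (p.W - g) - 1)) = _
    rw [rep_eq hW, pw_eq, Nat.shiftLeft_eq, hs, pk_off e1 fun r hr => (hc r hr).le,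
      pk_shr_mask hW hg.le fun r hr => by have := hc r hr; omega]
    rfl
  have hv : ∀ r < C * p.S, lv s g (c r) < 2 ^ (s + 1) := fun r hr => (lane (hc r hr)).1
  have hv' : ∀ r < C * p.S, lv s g (c r) < 2 ^ p.W := fun r hr =>
    (hv r hr).trans_le (Nat.pow_le_pow_right (by norm_num) (by omega))
  have ea : rab (mkCx p.W p.S C E K g) (pk p.W (fun r => lv s g (c r)) (C * p.S)) =
      pk p.W (fun r => lw s (lv s g (c r))) (C * p.S) := by
    show ((_ ^^^ ((rep p.W (C * p.S) - ((_ >>> (p.W - 1 - g)) &&& rep p.W (C * p.S))) *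
      (pw (p.W - 1 - g) - 1))) &&& (rep p.W (C * p.S) * (pw (p.W - 1 - g) - 1))) = _
    rw [rep_eq hW, pw_eq, hs']
    exact pk_rab (by omega) hv
  have hw : ∑ r ∈ Finset.range (C * p.S), lw s (lv s g (c r)) ≤ T.B :=
    (Finset.sum_le_sum fun r hr => (lane (hc r (Finset.mem_range.1 hr))).2.2.1).trans e3
  have hw' : ∀ r < C * p.S, lw s (lv s g (c r)) < 2 ^ p.W := fun r hr => by
    have := (lane (hc r hr)).2.2.1
    have := hc r hr
    omega
  have hz : T.B < 2 ^ p.W - 1 := by rw [hs] at hB0; have := Nat.two_pow_pos (s + g); omega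
  have er : rk (mkCx p.W p.S C E K g) (pk p.W (fun r => lv s g (c r)) (C * p.S)) =
      ∑ r ∈ Finset.range (C * p.S),
        if r / p.S < E ∧ r % p.S < K then lw s (lv s g (c r)) else 0 := by
    unfold rk
    rw [ea]
    show (_ &&& (rep p.W K * rep (p.W * p.S) E * (pw p.W - 1))) % (pw p.W - 1) = _
    rw [ek, pw_eq, pk_sel hW hw', pk_mod_eq]
    refine lt_of_le_of_lt (le_trans (Finset.sum_le_sum fun r _ => ?_) hw) hz
    split_ifs <;> omega
  have em : Nat.mod (rab (mkCx p.W p.S C E K g) (pk p.W (fun r => lv s g (c r)) (C * p.S)))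
      (mkCx p.W p.S C E K g).z1 = ∑ r ∈ Finset.range (C * p.S), lw s (lv s g (c r)) := by
    rw [ea]
    show _ % (pw p.W - 1) = _
    rw [pw_eq, pk_mod_eq (hw.trans_lt hz)]
  have eu : Nat.land (pk p.W (fun r => lv s g (c r)) (C * p.S)) (mkCx p.W p.S C E K g).km =
      pk p.W (fun r => if r / p.S < E ∧ r % p.S < K then lv s g (c r) else 0) (C * p.S) := by
    show _ &&& (rep p.W K * rep (p.W * p.S) E * (pw p.W - 1)) = _
    rw [ek, pw_eq, pk_sel hW hv']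
  have eo : (mkCx p.W p.S C E K g).ko =
      pk p.W (fun r => (if r / p.S < E ∧ r % p.S < K then 1 else 0) * 2 ^ s) (C * p.S) := by
    show (rep p.W K * rep (p.W * p.S) E) <<< (p.W - 1 - g) = _
    rw [ek, hs', pk_shl]
  unfold NT.rnd rn
  dsimp only
  rw [ey, eu, eo, em, er]
  obtain ⟨y1, k1, k2⟩ := round_rep p (E := E) (K := K) hc
    (B := Nat.add (Nat.add (∑ r ∈ Finset.range (C * p.S),
      if r / p.S < E ∧ r % p.S < K then lw s (lv s g (c r)) else 0)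
      (Nat.succ (mkCx p.W p.S C E K g).n)) (bad (mkCx p.W p.S C E K g).W T.B))
    (by show _ + C * p.S ≤ _ + (C * p.S + 1) + _; omega)
  refine ⟨y1, k1, ?_⟩
  rw [← e2] at k2
  have k3 : |x / 2 ^ g - y0 / 2 ^ g| ≤ (T.e >>> g : ℕ) + 1 := by
    rw [← sub_div, abs_div, abs_of_pos (a := (2 : ℝ) ^ g) (by positivity)]
    exact (div_le_div_of_nonneg_right he (by positivity)).trans (div_le_shr _ _)
  have k4 := abs_sub_le (x / 2 ^ g) (y0 / 2 ^ g) y1
  show _ ≤ ((T.e >>> g + (_ - _) + (C * p.S + 1) : ℕ) : ℝ)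
  rw [Nat.cast_add, Nat.cast_add, Nat.cast_add, Nat.cast_one]
  linarith

theorem Enc.rndP (h : Enc p True D L T x) (hD : D ≤ C) (hL : L ≤ p.S) (hK : K ≤ p.S)
    (hg : g < p.W) : Enc p True C K (rndP (mkCx p.W p.S C C K g) T) (x / 2 ^ g) := by
  have hW : 0 < p.W := by omega
  exact rp_main h hD hL hg (rp_rep hW (C * p.S)) (rp_kp hW hK C) rfl

theorem Enc.split (h : Enc p True D L T x) (hD : D ≤ 2 * C) (hL : L ≤ p.S) :
    ∃ x0 x1, Enc p.dbl True C L (ev (emk p.W p.S C) T) x0 ∧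
      Enc p.dbl True C L (od (Nat.mul p.W p.S) (emk p.W p.S C) T) x1 ∧
      (T.B < 2 ^ (p.W - 1) → |x - (x0 + p.τ * x1)| ≤ T.e) := by
  obtain ⟨h1, h2, h3⟩ := h
  by_cases hb : T.B < 2 ^ (p.W - 1)
  swap
  · exact ⟨0, 0, ⟨h1, fun _ => rfl, fun k => absurd k hb⟩, ⟨h1, fun _ => rfl, fun k => absurd k hb⟩,
      fun k => absurd k hb⟩
  obtain ⟨z, ⟨l, hl, hP, hz, hB⟩, he⟩ := h3 hb
  rw [h2 trivial, Nat.cast_zero, sub_zero] at hP
  have hm : emk p.W p.S C = (2 ^ (p.W * p.S) - 1) *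
      ((2 ^ (p.W * (2 * p.S) * C) - 1) / (2 ^ (p.W * (2 * p.S)) - 1)) := by
    unfold emk rep
    rw [pw_eq, pw_eq, pw_eq]
    rfl
  obtain ⟨e0, e1⟩ := nbr_par p.W p.S C T.a T.B p.hW l
    (fun u hu => ⟨lt_of_lt_of_le (hl u hu).1 hD, lt_of_lt_of_le (hl u hu).2.1 hL,
      (hl u hu).2.2 trivial⟩) hP hB hb _ hm
  have key : ∀ (r : ℕ) (a : ℕ), (a : ℤ) = (l.map fun u => (if u.1 % 2 = r then u.2.2 else 0)
        * 2 ^ (p.W * (u.1 / 2 * (2 * p.S) + u.2.1))).sum →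
      Enc p.dbl True C L ⟨a, 0, T.B, 0⟩ (l.map fun u =>
        (((if u.1 % 2 = r then u.2.2 else 0 : ℤ)) : ℝ) * ((p.τ ^ 2) ^ (u.1 / 2) * p.t ^ u.2.1)).sum := by
    intro r a ha
    refine ⟨h1, fun _ => rfl, fun _ => ⟨_, ⟨l.map fun u =>
      (u.1 / 2, u.2.1, if u.1 % 2 = r then u.2.2 else 0), ?_, ?_, rfl, ?_⟩, ?_⟩⟩
    · intro v hv
      obtain ⟨u, hu, rfl⟩ := List.mem_map.1 hv
      have := (hl u hu).1
      refine ⟨by dsimp only; omega, (hl u hu).2.1, fun _ => ?_⟩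
      dsimp only
      split_ifs
      · exact (hl u hu).2.2 trivial
      · exact le_rfl
    · rw [List.map_map]
      dsimp only
      rw [Nat.cast_zero, sub_zero, ha]
      rfl
    · rw [List.map_map]
      exact (nbr_norm l fun u => u.1 % 2 = r).trans hB
    · rw [List.map_map]
      refine le_of_eq ?_
      dsimp only
      rw [Nat.cast_zero, abs_eq_zero, sub_eq_zero]
      rfl
  refine ⟨_, _, key 0 _ e0, key 1 _ ?_, fun _ => ?_⟩
  · rw [← e1, ← Nat.shiftRight_eq_div_pow]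
    rfl
  · refine le_of_eq_of_le ?_ he
    rw [hz, ← List.sum_map_mul_left, ← List.sum_map_add]
    refine congrArg (fun w => |x - List.sum w|) (List.map_congr_left fun u _ => ?_)
    rcases Nat.mod_two_eq_zero_or_one u.1 with h0 | h0
    · rw [if_pos h0, if_neg (by omega), ← pow_mul, show 2 * (u.1 / 2) = u.1 by omega]
      push_cast; ring
    · rw [if_neg (by omega), if_pos h0, ← pow_mul]
      obtain ⟨w, hw⟩ : ∃ w, u.1 = 2 * w + 1 := ⟨u.1 / 2, by omega⟩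
      rw [show u.1 / 2 = w by omega, hw, pow_succ]
      push_cast; ring

theorem Enc.rows (h : Enc p q D L T x) (hL : L ≤ p.S) :
    ∃ y : ℕ → ℝ, (∀ i < D, Enc p False 1 L (row p.W p.S D T i) (y i)) ∧
      (T.B < 2 ^ (p.W - 1) → |x - ∑ i ∈ Finset.range D, p.τ ^ i * y i| ≤ T.e) := by
  obtain ⟨h1, -, h3⟩ := h
  by_cases hb : T.B < 2 ^ (p.W - 1)
  swap
  · exact ⟨fun _ => 0, fun i _ => ⟨h1, False.elim, fun k => absurd k hb⟩, fun k => absurd k hb⟩
  obtain ⟨z, ⟨l, hl, hP, hz, hB⟩, he⟩ := h3 hb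
  refine ⟨fun i => (l.map fun u =>
    (((if u.1 = i then u.2.2 else 0 : ℤ)) : ℝ) * (p.τ ^ 0 * p.t ^ u.2.1)).sum, fun i hi => ?_, fun _ => ?_⟩
  · have e := nbr_row p.W p.S D T.a T.b T.B i p.hW l
      (fun u hu => ⟨(hl u hu).1, lt_of_lt_of_le (hl u hu).2.1 hL⟩) hP hB hb hi
    have ho : ∀ n, offs p.W n = (2 ^ (p.W * n) - 1) / (2 ^ p.W - 1) * 2 ^ (p.W - 1) := by
      intro n
      unfold offs rep
      rw [pw_eq, pw_eq]
      exact Nat.shiftLeft_eq _ _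
    refine ⟨h1, False.elim, fun _ => ⟨_, ⟨l.map fun u =>
      (0, u.2.1, if u.1 = i then u.2.2 else 0), ?_, ?_, rfl, ?_⟩, ?_⟩⟩
    · intro v hv
      obtain ⟨u, hu, rfl⟩ := List.mem_map.1 hv
      exact ⟨Nat.one_pos, (hl u hu).2.1, False.elim⟩
    · have e2 : (List.map (fun u : ℕ × ℕ × ℤ => u.2.2 * 2 ^ (p.W * (u.1 * p.S + u.2.1)))
          (l.map fun u => (0, u.2.1, if u.1 = i then u.2.2 else 0))).sum = nbrP p.W l i := by
        rw [List.map_map, nbrP]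
        refine congrArg _ (List.map_congr_left fun u _ => ?_)
        simp only [Function.comp, zero_mul, zero_add]
      rw [e2, ← e, ← ho, ← ho, ← Nat.shiftRight_eq_div_pow, ← pw_eq]
      rfl
    · rw [List.map_map]
      exact (nbr_norm l fun u => u.1 = i).trans hB
    · rw [List.map_map]
      refine le_of_eq ?_
      rw [show ((row p.W p.S D T i).e : ℝ) = 0 from Nat.cast_zero, abs_eq_zero, sub_eq_zero]
      rfl
  · refine le_of_eq_of_le ?_ he
    simp only [← List.sum_map_mul_left]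
    rw [hz, ← nbr_swap]
    refine congrArg (fun w => |x - List.sum w|) (List.map_congr_left fun u hu => ?_)
    rw [Finset.sum_eq_single u.1]
    · rw [if_pos rfl]; ring
    · intro j _ hj; rw [if_neg (Ne.symm hj)]; simp
    · intro hn; exact absurd (Finset.mem_range.2 (hl u hu).1) hn

theorem Enc.fm (h : Enc p q D L T x) (k : Enc p q' D' L' U y) (hD : D + D' ≤ C + 1)
    (hL : L + L' ≤ p.S + 1) (hE : E ≤ C) (hK : K ≤ p.S) (hg : g < p.W) :
    Enc p False E K (fm (mkCx p.W p.S C E K g) T U) (x * y / 2 ^ g) :=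
  (h.mul k).rnd (by omega) (by omega) hE hK hg

/-- the scaled form -/
theorem Enc.fmS {a b : ℕ} (h : Enc p q D L T (x * 2 ^ g)) (k : Enc p q' D' L' U (y * 2 ^ a))
    (hD : D + D' ≤ C + 1) (hL : L + L' ≤ p.S + 1) (hE : E ≤ C) (hK : K ≤ p.S) (hg : g < p.W)
    (e : b = a) : Enc p False E K (NT.fm (mkCx p.W p.S C E K g) T U) (x * y * 2 ^ b) :=
  (h.fm k hD hL hE hK hg).congr (by rw [e]; field_simp)

end

end Pool.Agent.Lib.MP_2347b2_mp.F.NT
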