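import Pool.Agent.Lib.MP_2347b2_mp.F.NA

/-!
Packed numbers: digit lemmas, and the passage between lists of terms and digit functions.
-/

namespace Pool.Agent.Lib.MP_2347b2_mp.F.NT

noncomputable section

open Finset

/-- the number with the digits `y 0, ..., y (n - 1)` in the base `2 ^ W` -/
def pk (W : ℕ) (y : ℕ → ℕ) (n : ℕ) : ℕ := ∑ r ∈ range n, y r * 2 ^ (W * r)

variable {W n g : ℕ} {y z : ℕ → ℕ}

theorem pk_zero (W : ℕ) (y : ℕ → ℕ) : pk W y 0 = 0 := by simp [pk]

theorem pk_succ (W : ℕ) (y : ℕ → ℕ) (n : ℕ) :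
    pk W y (n + 1) = pk W y n + y n * 2 ^ (W * n) := by
  simp [pk, sum_range_succ]

theorem pk_succ' (W : ℕ) (y : ℕ → ℕ) (n : ℕ) :
    pk W y (n + 1) = 2 ^ W * pk W (fun r => y (r + 1)) n + y 0 := by
  unfold pk
  rw [sum_range_succ', mul_sum]
  simp only [mul_zero, pow_zero, mul_one, add_left_inj]
  refine sum_congr rfl fun r _ => ?_
  rw [mul_add, mul_one, pow_add]; ring

theorem pk_congr (h : ∀ r < n, y r = z r) : pk W y n = pk W z n :=
  sum_congr rfl fun r hr => by rw [h r (mem_range.1 hr)]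

theorem pk_lt (h : ∀ r < n, y r < 2 ^ W) : pk W y n < 2 ^ (W * n) := by
  induction n with
  | zero => simp [pk]
  | succ n ih =>
    have h1 := ih fun r hr => h r (by omega)
    have h2 : y n + 1 ≤ 2 ^ W := h n (by omega)
    rw [pk_succ, mul_add, mul_one, pow_add]
    nlinarith [Nat.mul_le_mul_right (2 ^ (W * n)) h2]

theorem pk_add (W : ℕ) (y z : ℕ → ℕ) (n : ℕ) :
    pk W y n + pk W z n = pk W (fun r => y r + z r) n := by
  simp [pk, ← sum_add_distrib, add_mul]

theorem pk_mul (W : ℕ) (y : ℕ → ℕ) (n c : ℕ) : pk W y n * c = pk W (fun r => y r * c) n := by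
  unfold pk
  rw [sum_mul]
  exact sum_congr rfl fun r _ => by ring

theorem pk_shl (W : ℕ) (y : ℕ → ℕ) (n c : ℕ) :
    pk W y n <<< c = pk W (fun r => y r * 2 ^ c) n := by
  rw [Nat.shiftLeft_eq, pk_mul]

theorem pk_sub (h : ∀ r < n, z r ≤ y r) :
    pk W y n - pk W z n = pk W (fun r => y r - z r) n := by
  have : pk W y n = pk W (fun r => y r - z r) n + pk W z n := by
    rw [pk_add]; exact pk_congr fun r hr => by have := h r hr; omega
  omega

theorem pk_ext {m : ℕ} (hm : n ≤ m) : pk W y n = pk W (fun r => if r < n then y r else 0) m := by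
  obtain ⟨k, rfl⟩ := Nat.exists_eq_add_of_le hm
  unfold pk
  rw [sum_range_add]
  have : ∑ x ∈ range k, (if n + x < n then y (n + x) else 0) * 2 ^ (W * (n + x)) = 0 :=
    sum_eq_zero fun r _ => by rw [if_neg (by omega), zero_mul]
  rw [this, add_zero]
  exact sum_congr rfl fun r hr => by dsimp only; rw [if_pos (mem_range.1 hr)]

theorem pk_eq_zero (h : pk W y n = 0) : ∀ r < n, y r = 0 := by
  intro r hr
  have := (sum_eq_zero_iff.1 h) r (mem_range.2 hr)
  simpa using this

theorem testBit_pk (h : ∀ r < n, y r < 2 ^ W) (r : ℕ) {j : ℕ} (hj : j < W) :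
    (pk W y n).testBit (W * r + j) = (decide (r < n) && (y r).testBit j) := by
  induction n generalizing y r with
  | zero => simp [pk]
  | succ n ih =>
    rw [pk_succ', Nat.testBit_two_pow_mul_add _ (h 0 (by omega))]
    cases r with
    | zero => simp [hj]
    | succ r =>
      have e : W * (r + 1) + j - W = W * r + j := by rw [mul_add, mul_one]; omega
      rw [if_neg (by rw [mul_add, mul_one]; omega), e,
        ih (fun r hr => h (r + 1) (by omega))]
      simp

theorem eq_of_lanes (hW : 0 < W) {a b : ℕ}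
    (h : ∀ r j, j < W → a.testBit (W * r + j) = b.testBit (W * r + j)) : a = b := by
  refine Nat.eq_of_testBit_eq fun i => ?_
  have := h (i / W) (i % W) (Nat.mod_lt _ hW)
  rwa [Nat.div_add_mod] at this

theorem pk_land (hW : 0 < W) (hy : ∀ r < n, y r < 2 ^ W) (hz : ∀ r < n, z r < 2 ^ W) :
    pk W y n &&& pk W z n = pk W (fun r => y r &&& z r) n := by
  refine eq_of_lanes hW fun r j hj => ?_
  rw [Nat.testBit_and, testBit_pk hy r hj, testBit_pk hz r hj,
    testBit_pk (fun r hr => Nat.and_lt_two_pow _ (hz r hr)) r hj, Nat.testBit_and]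
  cases decide (r < n) <;> simp

theorem pk_xor (hW : 0 < W) (hy : ∀ r < n, y r < 2 ^ W) (hz : ∀ r < n, z r < 2 ^ W) :
    pk W y n ^^^ pk W z n = pk W (fun r => y r ^^^ z r) n := by
  refine eq_of_lanes hW fun r j hj => ?_
  rw [Nat.testBit_xor, testBit_pk hy r hj, testBit_pk hz r hj,
    testBit_pk (fun r hr => Nat.xor_lt_two_pow (hy r hr) (hz r hr)) r hj, Nat.testBit_xor]
  cases decide (r < n) <;> simp

/-- shift inside the lanes: the mask digits have at most `W - g` bits -/
theorem pk_shr_land (hW : 0 < W) (hy : ∀ r < n, y r < 2 ^ W) (hz : ∀ r < n, z r < 2 ^ (W - g)) :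
    (pk W y n >>> g) &&& pk W z n = pk W (fun r => (y r >>> g) &&& z r) n := by
  have hz' : ∀ r < n, z r < 2 ^ W := fun r hr =>
    (hz r hr).trans_le (Nat.pow_le_pow_right (by norm_num) (Nat.sub_le _ _))
  refine eq_of_lanes hW fun r j hj => ?_
  rw [Nat.testBit_and, testBit_pk hz' r hj,
    testBit_pk (fun r hr => Nat.and_lt_two_pow _ (hz' r hr)) r hj, Nat.testBit_and,
    Nat.testBit_shiftRight, Nat.testBit_shiftRight]
  by_cases hr : r < n
  · by_cases hjg : g + j < W
    · rw [show g + (W * r + j) = W * r + (g + j) by ring, testBit_pk hy r hjg]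
      simp [hr]
    · have : (z r).testBit j = false :=
        Nat.testBit_lt_two_pow ((hz r hr).trans_le (Nat.pow_le_pow_right (by norm_num) (by omega)))
      simp [this]
  · simp [hr]

/-- the floor of the digits after a shift -/
theorem pk_shr_mask (hW : 0 < W) (hg : g ≤ W) (hy : ∀ r < n, y r < 2 ^ W) :
    (pk W y n >>> g) &&& (pk W (fun _ => 1) n * (2 ^ (W - g) - 1)) =
      pk W (fun r => y r / 2 ^ g) n := by
  rw [pk_mul, pk_shr_land hW hy fun r _ => by
    have := Nat.two_pow_pos (W - g); omega]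
  refine pk_congr fun r hr => ?_
  rw [one_mul, Nat.and_two_pow_sub_one_eq_mod, Nat.shiftRight_eq_div_pow, Nat.mod_eq_of_lt]
  rw [Nat.div_lt_iff_lt_mul (Nat.two_pow_pos g), ← pow_add, Nat.sub_add_cancel hg]
  exact hy r hr

/-- selection of lanes by an indicator -/
theorem pk_sel (hW : 0 < W) (hy : ∀ r < n, y r < 2 ^ W) (k : ℕ → Prop) [DecidablePred k] :
    pk W y n &&& (pk W (fun r => if k r then 1 else 0) n * (2 ^ W - 1)) =
      pk W (fun r => if k r then y r else 0) n := by
  rw [pk_mul, pk_land hW hy fun r _ => by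
    have := Nat.two_pow_pos W; split_ifs <;> omega]
  refine pk_congr fun r hr => ?_
  split_ifs
  · rw [one_mul, Nat.and_two_pow_sub_one_eq_mod, Nat.mod_eq_of_lt (hy r hr)]
  · simp

/-- shift by whole lanes -/
theorem pk_shr_lanes (hy : ∀ r < n, y r < 2 ^ W) (m : ℕ) :
    pk W y n >>> (W * m) = pk W (fun r => y (m + r)) (n - m) := by
  rw [Nat.shiftRight_eq_div_pow]
  rcases le_total n m with h | h
  · rw [Nat.sub_eq_zero_of_le h, pk_zero]
    exact Nat.div_eq_of_lt ((pk_lt hy).trans_le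
      (Nat.pow_le_pow_right (by norm_num) (Nat.mul_le_mul_left _ h)))
  · obtain ⟨k, rfl⟩ := Nat.exists_eq_add_of_le h
    have e : pk W y (m + k) = pk W y m + 2 ^ (W * m) * pk W (fun r => y (m + r)) k := by
      unfold pk
      rw [sum_range_add, mul_sum]
      congr 1
      exact sum_congr rfl fun r _ => by rw [mul_add, pow_add]; ring
    rw [e, Nat.add_mul_div_left _ _ (Nat.two_pow_pos _),
      Nat.div_eq_of_lt (pk_lt fun r hr => hy r (by omega)), zero_add, Nat.add_sub_cancel_left]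

/-- the lowest lanes -/
theorem pk_mod_lanes (hy : ∀ r < n, y r < 2 ^ W) {m : ℕ} (h : m ≤ n) :
    pk W y n % 2 ^ (W * m) = pk W y m := by
  obtain ⟨k, rfl⟩ := Nat.exists_eq_add_of_le h
  have e : pk W y (m + k) = pk W y m + 2 ^ (W * m) * pk W (fun r => y (m + r)) k := by
    unfold pk
    rw [sum_range_add, mul_sum]
    congr 1
    exact sum_congr rfl fun r _ => by rw [mul_add, pow_add]; ring
  rw [e, Nat.add_mul_mod_self_left, Nat.mod_eq_of_lt (pk_lt fun r hr => hy r (by omega))]

/-- the digit sum -/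
theorem pk_mod (W : ℕ) (y : ℕ → ℕ) (n : ℕ) :
    pk W y n % (2 ^ W - 1) = (∑ r ∈ range n, y r) % (2 ^ W - 1) := by
  have h1 : 2 ^ W ≡ 1 [MOD 2 ^ W - 1] :=
    ((Nat.modEq_iff_dvd' (Nat.two_pow_pos W)).2 dvd_rfl).symm
  show pk W y n ≡ _ [MOD 2 ^ W - 1]
  induction n with
  | zero => simp [pk, Nat.ModEq]
  | succ n ih =>
    rw [pk_succ, sum_range_succ]
    refine ih.add ?_
    have := (h1.pow n).mul_left (y n)
    rwa [one_pow, mul_one, ← pow_mul] at this

theorem pk_mod_eq (h : ∑ r ∈ range n, y r < 2 ^ W - 1) :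
    pk W y n % (2 ^ W - 1) = ∑ r ∈ range n, y r := by
  rw [pk_mod, Nat.mod_eq_of_lt h]

/-- the geometric sum -/
theorem geo_eq (hW : 0 < W) (n : ℕ) : (2 ^ (W * n) - 1) / (2 ^ W - 1) = pk W (fun _ => 1) n := by
  have h2 : 2 ≤ 2 ^ W := by
    calc 2 = 2 ^ 1 := rfl
      _ ≤ 2 ^ W := Nat.pow_le_pow_right (by norm_num) hW
  have h : pk W (fun _ => 1) n * (2 ^ W - 1) + 1 = 2 ^ (W * n) := by
    induction n with
    | zero => simp [pk]
    | succ n ih =>
      obtain ⟨k, hk⟩ := Nat.exists_eq_add_of_le h2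
      rw [pk_succ, mul_add W n 1, mul_one, pow_add, ← ih, hk,
        show 2 + k - 1 = k + 1 by omega]
      ring
  rw [← h, Nat.add_sub_cancel, Nat.mul_div_cancel _ (by omega)]

theorem sum_rows {M : Type*} [AddCommMonoid M] (f : ℕ → M) (C S : ℕ) :
    ∑ r ∈ range (C * S), f r = ∑ d ∈ range C, ∑ l ∈ range S, f (d * S + l) := by
  induction C with
  | zero => simp
  | succ C ih => rw [add_mul, one_mul, sum_range_add, ih, sum_range_succ]

theorem row_div {S l : ℕ} (d : ℕ) (h : l < S) : (d * S + l) / S = d := by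
  rw [add_comm, Nat.add_mul_div_right _ _ (by omega), Nat.div_eq_of_lt h, zero_add]

theorem row_mod {S l : ℕ} (d : ℕ) (h : l < S) : (d * S + l) % S = l := by
  rw [add_comm, Nat.add_mul_mod_self_right, Nat.mod_eq_of_lt h]

theorem row_lt {S l d C : ℕ} (hd : d < C) (h : l < S) : d * S + l < C * S := by
  have := Nat.mul_le_mul_right S (show d + 1 ≤ C from hd)
  rw [add_mul, one_mul] at this; omega

/-- a product of a row pattern and a lane pattern -/
theorem pk_mul_pk (W S C : ℕ) (u v : ℕ → ℕ) :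
    pk W u S * pk (W * S) v C = pk W (fun r => u (r % S) * v (r / S)) (C * S) := by
  unfold pk
  rw [sum_rows, mul_sum]
  refine sum_congr rfl fun d _ => ?_
  rw [sum_mul]
  refine sum_congr rfl fun l hl => ?_
  dsimp only
  rw [row_div d (mem_range.1 hl), row_mod d (mem_range.1 hl), mul_add, pow_add]
  ring_nf

/-- the indicator of the kept lanes -/
theorem pk_keep (W : ℕ) {S C E K : ℕ} (hK : K ≤ S) (hE : E ≤ C) :
    pk W (fun _ => 1) K * pk (W * S) (fun _ => 1) E =
      pk W (fun r => if r / S < E ∧ r % S < K then 1 else 0) (C * S) := by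
  rw [pk_ext hK, pk_ext (W := W * S) hE, pk_mul_pk]
  refine pk_congr fun r _ => ?_
  by_cases h1 : r / S < E <;> by_cases h2 : r % S < K <;> simp [h1, h2]

theorem pk_cast (W : ℕ) (y : ℕ → ℕ) (n : ℕ) :
    ((pk W y n : ℕ) : ℤ) = ∑ r ∈ range n, (y r : ℤ) * 2 ^ (W * r) := by
  simp [pk]

/-- nonnegative coefficients are the digits -/
theorem pk_pos {a : ℕ} {c : ℕ → ℤ} (h : (a : ℤ) = ∑ r ∈ range n, c r * 2 ^ (W * r))
    (hc : ∀ r < n, 0 ≤ c r) : a = pk W (fun r => (c r).toNat) n := by
  have : (a : ℤ) = (pk W (fun r => (c r).toNat) n : ℕ) := by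
    rw [h, pk_cast]
    exact sum_congr rfl fun r hr => by rw [Int.toNat_of_nonneg (hc r (mem_range.1 hr))]
  exact_mod_cast this

/-- signed coefficients after the addition of the offset `o` to every lane -/
theorem pk_off {a b o : ℕ} {c : ℕ → ℤ} (h : (a : ℤ) - b = ∑ r ∈ range n, c r * 2 ^ (W * r))
    (hc : ∀ r < n, (c r).natAbs ≤ o) :
    a + pk W (fun _ => 1) n * o - b = pk W (fun r => (c r + o).toNat) n := by
  have : (a : ℤ) + (pk W (fun _ => 1) n * o : ℕ) = (pk W (fun r => (c r + o).toNat) n : ℕ) + b := by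
    have e : (a : ℤ) = ∑ r ∈ range n, c r * 2 ^ (W * r) + b := by rw [← h]; ring
    rw [pk_mul, pk_cast, pk_cast, e, add_right_comm, ← sum_add_distrib]
    congr 1
    refine sum_congr rfl fun r hr => ?_
    have := hc r (mem_range.1 hr)
    rw [Int.toNat_of_nonneg (by omega)]
    push_cast; ring
  omega

variable {p : Pt} {q : Prop} {D L C B : ℕ} {P : ℤ} {x : ℝ}

/-- from a list of terms to a coefficient function on the lanes -/
theorem Rep.extract (h : Rep p q D L P x B) (hD : D ≤ C) (hL : L ≤ p.S) :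
    ∃ c : ℕ → ℤ, P = ∑ r ∈ range (C * p.S), c r * 2 ^ (p.W * r) ∧
      x = ∑ r ∈ range (C * p.S), (c r : ℝ) * (p.τ ^ (r / p.S) * p.t ^ (r % p.S)) ∧
      ∑ r ∈ range (C * p.S), (c r).natAbs ≤ B ∧
      (∀ r, c r ≠ 0 → r / p.S < D ∧ r % p.S < L) ∧ (q → ∀ r, 0 ≤ c r) := by
  obtain ⟨l, h1, rfl, rfl, h4⟩ := h
  induction l generalizing B with
  | nil => exact ⟨fun _ => 0, by simp, by simp, by simp, by simp, by simp⟩
  | cons u l ih =>
    obtain ⟨c, e1, e2, e3, e4, e5⟩ := ih (fun v hv => h1 v (List.mem_cons_of_mem _ hv)) le_rfl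
    obtain ⟨u1, u2, u3⟩ := h1 u List.mem_cons_self
    have u4 : u.2.1 < p.S := by omega
    have hm : u.1 * p.S + u.2.1 ∈ range (C * p.S) := mem_range.2 (row_lt (by omega) u4)
    refine ⟨fun r => c r + if r = u.1 * p.S + u.2.1 then u.2.2 else 0, ?_, ?_, ?_, ?_, ?_⟩
    · simp only [List.map_cons, List.sum_cons, add_mul, sum_add_distrib, ite_mul, zero_mul]
      rw [sum_ite_eq', if_pos hm, ← e1, add_comm]
    · simp only [List.map_cons, List.sum_cons]
      push_cast
      simp only [add_mul, sum_add_distrib, ite_mul, zero_mul]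
      rw [sum_ite_eq', if_pos hm, ← e2, add_comm, row_div _ u4, row_mod _ u4]
    · simp only [List.map_cons, List.sum_cons] at h4
      calc _ ≤ ∑ r ∈ range (C * p.S),
            ((c r).natAbs + if r = u.1 * p.S + u.2.1 then u.2.2.natAbs else 0) := by
            refine sum_le_sum fun r _ => ?_
            dsimp only
            split_ifs
            · exact Int.natAbs_add_le _ _
            · simp
        _ ≤ B := by rw [sum_add_distrib, sum_ite_eq', if_pos hm]; omega
    · intro r hr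
      by_cases e : r = u.1 * p.S + u.2.1
      · rw [e, row_div _ u4, row_mod _ u4]; exact ⟨u1, u2⟩
      · exact e4 r (by simpa [e] using hr)
    · intro hq r
      have := e5 hq r
      have := u3 hq
      dsimp only
      split_ifs <;> omega

/-- from a coefficient function to a list of terms -/
theorem Rep.build (c : ℕ → ℤ) (n : ℕ) (h1 : ∀ r < n, c r ≠ 0 → r / p.S < D ∧ r % p.S < L)
    (h2 : q → ∀ r < n, 0 ≤ c r) (h3 : ∑ r ∈ range n, (c r).natAbs ≤ B) :
    Rep p q D L (∑ r ∈ range n, c r * 2 ^ (p.W * r))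
      (∑ r ∈ range n, (c r : ℝ) * (p.τ ^ (r / p.S) * p.t ^ (r % p.S))) B := by
  induction n generalizing B with
  | zero => exact ⟨[], by simp, by simp, by simp, by simp⟩
  | succ n ih =>
    rw [sum_range_succ] at h3
    obtain ⟨l, e1, e2, e3, e4⟩ := ih (fun r hr => h1 r (by omega))
      (fun hq r hr => h2 hq r (by omega)) le_rfl
    by_cases hc : c n = 0
    · refine ⟨l, e1, ?_, ?_, by omega⟩
      · rw [sum_range_succ, hc, zero_mul, add_zero, e2]
      · rw [sum_range_succ, hc, Int.cast_zero, zero_mul, add_zero, e3]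
    · refine ⟨(n / p.S, n % p.S, c n) :: l, ?_, ?_, ?_, ?_⟩
      · intro u hu
        rcases List.mem_cons.1 hu with rfl | hu
        · exact ⟨(h1 n (by omega) hc).1, (h1 n (by omega) hc).2, fun hq => h2 hq n (by omega)⟩
        · exact e1 u hu
      · rw [sum_range_succ, List.map_cons, List.sum_cons, ← e2, add_comm]
        dsimp only
        rw [Nat.div_add_mod' n p.S]
      · rw [sum_range_succ, List.map_cons, List.sum_cons, ← e3, add_comm]
      · rw [List.map_cons, List.sum_cons]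
        dsimp only
        omega

theorem Pt.abs_mon (p : Pt) (i j : ℕ) : |p.τ ^ i * p.t ^ j| ≤ 1 := by
  rw [abs_mul, abs_pow, abs_pow]
  exact mul_le_one₀ (pow_le_one₀ (abs_nonneg _) p.hτ) (by positivity)
    (pow_le_one₀ (abs_nonneg _) p.ht)

theorem natAbs_le_of_sum {c : ℕ → ℤ} (h : ∑ r ∈ range n, (c r).natAbs ≤ B) :
    ∀ r < n, (c r).natAbs ≤ B := fun _ hr =>
  (single_le_sum (f := fun r => (c r).natAbs) (fun _ _ => Nat.zero_le _) (mem_range.2 hr)).trans h

end

end Pool.Agent.Lib.MP_2347b2_mp.F.NT
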