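import Pool.Agent.Lib.MP_2347b2_mp.F.NB

/-!
Packed Taylor models: columns and the linear substitutions.
-/

namespace Pool.Agent.Lib.MP_2347b2_mp.F.NT

noncomputable section

/-- the column `j` of a model with `D` rows -/
def col (W S D : ℕ) (x : TM) (j : ℕ) : TM :=
  ⟨Nat.land (Nat.shiftRight (Nat.sub (Nat.add x.a (offs W (Nat.mul D S))) x.b) (Nat.mul W j))
      (Nat.mul (Nat.sub (pw W) 1) (rep (Nat.mul W S) D)),
    Nat.shiftLeft (rep (Nat.mul W S) D) (Nat.sub W 1), x.B, 0⟩

/-- the variable plus `u - w` -/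
def y2 (n u w : ℕ) : TM := ⟨Nat.add u (pw n), w, Nat.succ (Nat.add u w), 0⟩

variable {p : Pt} {q : Prop} {D L : ℕ} {T : TM} {x : ℝ}

theorem Enc.cols (h : Enc p q D L T x) (hL : L ≤ p.S) :
    ∃ y : ℕ → ℝ, (∀ j < L, Enc p False D 1 (col p.W p.S D T j) (y j)) ∧
      (T.B < 2 ^ (p.W - 1) → |x - ∑ j ∈ Finset.range L, p.t ^ j * y j| ≤ T.e) := by
  obtain ⟨h1, -, h3⟩ := h
  by_cases hb : T.B < 2 ^ (p.W - 1)
  swap
  · exact ⟨fun _ => 0, fun i _ => ⟨h1, False.elim, fun k => absurd k hb⟩, fun k => absurd k hb⟩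
  obtain ⟨z, hz, he⟩ := h3 hb
  obtain ⟨c, e1, e2, e3, e4, -⟩ := hz.extract le_rfl hL
  have hW : 0 < p.W := by have := p.hW; omega
  have h2W : 2 ^ p.W = 2 * 2 ^ (p.W - 1) := by rw [← pow_succ']; congr 1; omega
  have hc := natAbs_le_of_sum e3
  have one : ∀ {M : Type} [AddCommMonoid M] (f : ℕ → M), 0 < p.S →
      ∑ r ∈ Finset.range (D * p.S), (if r % p.S = 0 then f r else 0)
        = ∑ d ∈ Finset.range D, f (d * p.S) := by
    intro M _ f hS
    rw [sum_rows]
    refine Finset.sum_congr rfl fun d _ => ?_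
    rw [Finset.sum_eq_single 0, if_pos (row_mod d hS), add_zero]
    · intro l hl h0
      rw [if_neg (by rw [row_mod d (Finset.mem_range.1 hl)]; exact h0)]
    · intro hn; exact absurd (Finset.mem_range.2 hS) hn
  refine ⟨fun j => ∑ r ∈ Finset.range (D * p.S), ((if r % p.S = 0 then c (j + r) else 0 : ℤ) : ℝ)
    * (p.τ ^ (r / p.S) * p.t ^ (r % p.S)), fun j hj => ?_, fun _ => ?_⟩
  · have hj' : j < p.S := by omega
    have hS : 0 < p.S := by omega
    have hr : ∀ r < D * p.S, r % p.S = 0 → j + r < D * p.S := fun r h0 h => by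
      have h4 := row_lt ((Nat.div_lt_iff_lt_mul hS).2 h0) hj'
      have h5 := Nat.div_add_mod' r p.S
      omega
    have hrep : rep (Nat.mul p.W p.S) D
        = pk p.W (fun r => if r % p.S = 0 then 1 else 0) (D * p.S) := by
      have k1 := pk_keep p.W (show 1 ≤ p.S from hS) (le_refl D)
      have k2 : pk p.W (fun _ => 1) 1 = 1 := by simp [pk]
      have k3 : rep (Nat.mul p.W p.S) D = pk (p.W * p.S) (fun _ => 1) D := by
        rw [← geo_eq (Nat.mul_pos hW hS)]
        unfold rep
        rw [pw_eq, pw_eq]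
        rfl
      rw [k2, one_mul] at k1
      rw [k3, k1]
      refine pk_congr fun r h0 => if_congr ?_ rfl rfl
      have := (Nat.div_lt_iff_lt_mul hS).2 h0
      omega
    have hoff : offs p.W (Nat.mul D p.S) = pk p.W (fun _ => 1) (D * p.S) * 2 ^ (p.W - 1) := by
      rw [← geo_eq hW]
      unfold offs rep
      rw [pw_eq, pw_eq]
      exact Nat.shiftLeft_eq _ _
    have hy : ∀ r < D * p.S, (c r + (2 ^ (p.W - 1) : ℕ)).toNat < 2 ^ p.W := fun r h0 => by
      have := hc r h0
      omega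
    have ha : (col p.W p.S D T j).a = pk p.W
        (fun r => if r % p.S = 0 then (c (j + r) + (2 ^ (p.W - 1) : ℕ)).toNat else 0) (D * p.S) := by
      have k0 : (col p.W p.S D T j).a = ((T.a + offs p.W (Nat.mul D p.S) - T.b) >>> (p.W * j))
          &&& ((pw p.W - 1) * rep (Nat.mul p.W p.S) D) := rfl
      rw [k0, hoff, pk_off e1 (fun r h0 => by have := hc r h0; omega), pk_shr_lanes hy,
        pk_ext (Nat.sub_le (D * p.S) j), hrep, pw_eq, mul_comm (2 ^ p.W - 1),
        pk_sel hW (fun r _ => by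
          split_ifs with h0
          · exact hy _ (by omega)
          · exact Nat.two_pow_pos _)]
      refine pk_congr fun r h0 => ?_
      by_cases h : r % p.S = 0
      · rw [if_pos h, if_pos h, if_pos (by have := hr r h0 h; omega)]
      · rw [if_neg h, if_neg h]
    have hb' : (col p.W p.S D T j).b
        = pk p.W (fun r => if r % p.S = 0 then 1 else 0) (D * p.S) * 2 ^ (p.W - 1) := by
      rw [← hrep]
      exact Nat.shiftLeft_eq _ _
    have hP : ((col p.W p.S D T j).a : ℤ) - (col p.W p.S D T j).b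
        = ∑ r ∈ Finset.range (D * p.S), (if r % p.S = 0 then c (j + r) else 0) * 2 ^ (p.W * r) := by
      rw [ha, hb', pk_mul, pk_cast, pk_cast, ← Finset.sum_sub_distrib]
      refine Finset.sum_congr rfl fun r h0 => ?_
      by_cases h : r % p.S = 0
      · have := hc _ (hr r (Finset.mem_range.1 h0) h)
        rw [if_pos h, if_pos h, if_pos h, Int.toNat_of_nonneg (by omega)]
        push_cast; ring
      · rw [if_neg h, if_neg h, if_neg h]; simp
    refine ⟨h1, False.elim, fun _ => ⟨_, hP ▸ Rep.build _ _ (fun r h0 hne => ?_) False.elim ?_,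
      by rw [show ((col p.W p.S D T j).e : ℝ) = 0 from Nat.cast_zero, sub_self, abs_zero]⟩⟩
    · refine ⟨(Nat.div_lt_iff_lt_mul hS).2 h0, ?_⟩
      by_contra h
      exact hne (if_neg (by omega))
    · refine le_trans ?_ e3
      have k : ∀ r, (if r % p.S = 0 then c (j + r) else 0).natAbs
          = if r % p.S = 0 then (c (j + r)).natAbs else 0 := fun r => by split_ifs <;> rfl
      simp only [k]
      rw [one (fun r => (c (j + r)).natAbs) hS, sum_rows]
      refine Finset.sum_le_sum fun d _ => ?_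
      rw [add_comm j]
      exact Finset.single_le_sum (f := fun l => (c (d * p.S + l)).natAbs)
        (fun _ _ => Nat.zero_le _) (Finset.mem_range.2 hj')
  · refine le_of_eq_of_le ?_ he
    rw [e2, sum_rows, Finset.sum_comm]
    refine congrArg (fun w => |x - w|) ?_
    rw [← Finset.sum_subset (Finset.range_subset_range.2 hL)]
    · refine Finset.sum_congr rfl fun j hj => ?_
      have hj' : j < p.S := by have := Finset.mem_range.1 hj; omega
      have k : ∀ r, ((if r % p.S = 0 then c (j + r) else 0 : ℤ) : ℝ)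
          * (p.τ ^ (r / p.S) * p.t ^ (r % p.S))
          = if r % p.S = 0 then (c (j + r) : ℝ) * p.τ ^ (r / p.S) else 0 := fun r => by
        split_ifs with h0
        · rw [h0, pow_zero, mul_one]
        · simp
      simp only [k]
      rw [one (fun r => (c (j + r) : ℝ) * p.τ ^ (r / p.S)) (by omega), Finset.mul_sum]
      refine Finset.sum_congr rfl fun d _ => ?_
      rw [row_div d hj', row_mod d hj', Nat.mul_div_cancel _ (by omega), add_comm j]
      ring
    · intro l hl hl'
      refine Finset.sum_eq_zero fun d _ => ?_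
      have h0 : c (d * p.S + l) = 0 := by
        by_contra hne
        have := (e4 _ hne).2
        rw [row_mod d (Finset.mem_range.1 hl)] at this
        exact hl' (Finset.mem_range.2 this)
      rw [h0]; simp

theorem Enc.oneL (h : Enc p q D 1 T x) {p' : Pt} (hW : p'.W = p.W) (hS : p'.S = p.S)
    (ht : p'.τ = p.τ) : Enc p' q D 1 T x := by
  refine ⟨h.1, h.2.1, fun hB => ?_⟩
  obtain ⟨y, ⟨l, h1, h2, h3, h4⟩, hy⟩ := h.2.2 (hW ▸ hB)
  refine ⟨y, ⟨l, h1, by rw [hW, hS]; exact h2, ?_, h4⟩, hy⟩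
  rw [h3]
  refine congrArg _ (List.map_congr_left fun u hu => ?_)
  have h0 : u.2.1 = 0 := Nat.lt_one_iff.mp (h1 u hu).2.1
  rw [h0, ht, pow_zero, pow_zero]

theorem enc_y2R {u w : ℕ} (h : q → w = 0) :
    Enc p q 2 1 (y2 (Nat.mul p.W p.S) u w) (u - w + p.τ) := by
  refine ⟨Nat.succ_pos _, h, fun _ => ⟨u - w + p.τ, ⟨[(0, 0, (u : ℤ) - w), (1, 0, 1)], ?_, ?_, ?_, ?_⟩, ?_⟩⟩
  · intro v hv
    simp only [List.mem_cons, List.not_mem_nil, or_false] at hv
    rcases hv with rfl | rfl
    · exact ⟨by simp, by simp, fun k => by simp [h k]⟩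
    · exact ⟨by simp, by simp, fun _ => by simp⟩
  · simp [y2, pw_eq]; ring
  · simp
  · simp only [y2, List.map_cons, List.map_nil, List.sum_cons, List.sum_nil, Nat.add_eq, Nat.succ_eq_add_one]
    omega
  · simp [y2]

theorem enc_y2T {u w : ℕ} (h : q → w = 0) : Enc p q 1 2 (y2 p.W u w) (u - w + p.t) := by
  refine ⟨Nat.succ_pos _, h, fun _ => ⟨u - w + p.t, ⟨[(0, 0, (u : ℤ) - w), (0, 1, 1)], ?_, ?_, ?_, ?_⟩, ?_⟩⟩
  · intro v hv
    simp only [List.mem_cons, List.not_mem_nil, or_false] at hv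
    rcases hv with rfl | rfl
    · exact ⟨by simp, by simp, fun k => by simp [h k]⟩
    · exact ⟨by simp, by simp, fun _ => by simp⟩
  · simp [y2, pw_eq]; ring
  · simp
  · simp only [y2, List.map_cons, List.map_nil, List.sum_cons, List.sum_nil, Nat.add_eq, Nat.succ_eq_add_one]
    omega
  · simp [y2]

theorem enc_one : Enc p q 1 1 ⟨1, 0, 1, 0⟩ 1 := by
  refine ⟨le_rfl, fun _ => rfl, fun _ => ⟨1, ⟨[(0, 0, 1)], ?_, by simp, by simp, by simp⟩, by simp⟩⟩
  intro v hv
  rw [List.mem_singleton.mp hv]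
  exact ⟨by simp, by simp, fun _ => by simp⟩

end

end Pool.Agent.Lib.MP_2347b2_mp.F.NT
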