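import Pool.Agent.Lib.MP_2347b2_mp.F.NA

/-!
Digit lemmas for the rows of a packed model.
-/

namespace Pool.Agent.Lib.MP_2347b2_mp.F.NT

open Finset

theorem nbr_dig (Q : ℕ) (D : ℕ) : ∀ (d : ℕ → ℕ) (_ : ∀ i, d i < Q) (i : ℕ) (_ : i < D),
    (∑ j ∈ range D, d j * Q ^ j) / Q ^ i % Q = d i := by
  induction D with
  | zero => intro d _ i hi; omega
  | succ D ih =>
    intro d hd i hi
    have hQ : 0 < Q := lt_of_le_of_lt (Nat.zero_le _) (hd 0)
    have e : ∑ j ∈ range (D + 1), d j * Q ^ j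
        = d 0 + Q * ∑ j ∈ range D, d (j + 1) * Q ^ j := by
      rw [sum_range_succ', mul_sum, pow_zero, mul_one, add_comm]
      congr 1
      refine sum_congr rfl fun j _ => ?_
      rw [pow_succ]; ring
    rw [e]
    cases i with
    | zero => rw [pow_zero, Nat.div_one, Nat.add_mul_mod_self_left, Nat.mod_eq_of_lt (hd 0)]
    | succ i =>
      rw [pow_succ', ← Nat.div_div_eq_div_mul, Nat.add_mul_div_left _ _ hQ,
        Nat.div_eq_of_lt (hd 0), zero_add]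
      exact ih (fun j => d (j + 1)) (fun j => hd _) i (by omega)

theorem nbr_shift (Q : ℕ) (D : ℕ) (d : ℕ → ℕ) (hd : d 0 < Q) :
    (∑ j ∈ range (D + 1), d j * Q ^ j) / Q = ∑ j ∈ range D, d (j + 1) * Q ^ j := by
  have hQ : 0 < Q := lt_of_le_of_lt (Nat.zero_le _) hd
  have e : ∑ j ∈ range (D + 1), d j * Q ^ j
      = d 0 + Q * ∑ j ∈ range D, d (j + 1) * Q ^ j := by
    rw [sum_range_succ', mul_sum, pow_zero, mul_one, add_comm]
    congr 1
    refine sum_congr rfl fun j _ => ?_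
    rw [pow_succ]; ring
  rw [e, Nat.add_mul_div_left _ _ hQ, Nat.div_eq_of_lt hd, zero_add]

theorem nbr_and (k a b X Y : ℕ) (ha : a < 2 ^ k) (hb : b < 2 ^ k) :
    (2 ^ k * X + a) &&& (2 ^ k * Y + b) = 2 ^ k * (X &&& Y) + (a &&& b) := by
  apply Nat.eq_of_testBit_eq
  intro j
  rw [Nat.testBit_and, Nat.testBit_two_pow_mul_add _ ha, Nat.testBit_two_pow_mul_add _ hb,
    Nat.testBit_two_pow_mul_add _ (Nat.and_lt_two_pow a hb)]
  split_ifs <;> rw [Nat.testBit_and]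

theorem nbr_mask (k C : ℕ) : ∀ (d : ℕ → ℕ) (_ : ∀ i, d i < 2 ^ k),
    (∑ j ∈ range (2 * C), d j * (2 ^ k) ^ j) &&& ((2 ^ k - 1) * ∑ j ∈ range C, (2 ^ (2 * k)) ^ j)
      = ∑ j ∈ range C, d (2 * j) * (2 ^ (2 * k)) ^ j := by
  induction C with
  | zero => intro d _; simp
  | succ C ih =>
    intro d hd
    have hQ : 0 < 2 ^ k := Nat.two_pow_pos k
    have e2 : 2 ^ (2 * k) = 2 ^ k * 2 ^ k := by rw [two_mul, pow_add]
    have e1 : ∑ j ∈ range (2 * (C + 1)), d j * (2 ^ k) ^ j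
        = 2 ^ (2 * k) * (∑ j ∈ range (2 * C), d (j + 2) * (2 ^ k) ^ j) + (2 ^ k * d 1 + d 0) := by
      rw [show 2 * (C + 1) = 2 * C + 1 + 1 by ring, sum_range_succ', sum_range_succ', mul_sum,
        add_assoc]
      congr 1
      · refine sum_congr rfl fun j _ => ?_
        rw [e2, pow_succ, pow_succ]; ring
      · ring
    have e3 : (2 ^ k - 1) * ∑ j ∈ range (C + 1), (2 ^ (2 * k)) ^ j
        = 2 ^ (2 * k) * ((2 ^ k - 1) * ∑ j ∈ range C, (2 ^ (2 * k)) ^ j) + (2 ^ k - 1) := by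
      rw [sum_range_succ', mul_add, pow_zero, mul_one, mul_left_comm, mul_sum (a := 2 ^ (2 * k))]
      congr 2
      refine sum_congr rfl fun j _ => ?_
      rw [pow_succ]; ring
    have e4 : ∑ j ∈ range (C + 1), d (2 * j) * (2 ^ (2 * k)) ^ j
        = 2 ^ (2 * k) * (∑ j ∈ range C, d (2 * j + 2) * (2 ^ (2 * k)) ^ j) + d 0 := by
      rw [sum_range_succ', mul_sum, pow_zero, mul_one]
      congr 1
      refine sum_congr rfl fun j _ => ?_
      rw [pow_succ, show 2 * (j + 1) = 2 * j + 2 by ring]; ring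
    have b1 : 2 ^ k * d 1 + d 0 < 2 ^ (2 * k) := by
      have h0 := hd 0
      have h1 : d 1 + 1 ≤ 2 ^ k := hd 1
      have := Nat.mul_le_mul_left (2 ^ k) h1
      rw [e2]; rw [mul_add, mul_one] at this; omega
    have b2 : 2 ^ k - 1 < 2 ^ (2 * k) := by
      have : 2 ^ k ≤ 2 ^ (2 * k) := Nat.pow_le_pow_right (by norm_num) (by omega)
      omega
    rw [e1, e3, e4, nbr_and _ _ _ _ _ b1 b2, ih (fun j => d (j + 2)) (fun j => hd _),
      Nat.and_two_pow_sub_one_eq_mod, Nat.mul_add_mod, Nat.mod_eq_of_lt (hd 0)]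

theorem nbr_geo (W n : ℕ) (hW : 1 ≤ W) :
    (2 ^ (W * n) - 1) / (2 ^ W - 1) = ∑ j ∈ range n, (2 ^ W) ^ j := by
  have h2 : 2 ≤ 2 ^ W := by
    calc 2 = 2 ^ 1 := by norm_num
      _ ≤ 2 ^ W := Nat.pow_le_pow_right (by norm_num) hW
  rw [Nat.geomSum_eq h2, ← pow_mul]

theorem nbr_geo_mul (A n : ℕ) (hA : 1 ≤ A) : (A - 1) * ∑ j ∈ range n, A ^ j + 1 = A ^ n := by
  obtain ⟨a, rfl⟩ := Nat.exists_eq_add_of_le' hA
  rw [Nat.add_sub_cancel]
  induction n with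
  | zero => simp
  | succ n ih => rw [sum_range_succ, pow_succ, ← ih]; ring

theorem nbr_geo_blk (A S D : ℕ) :
    ∑ r ∈ range (D * S), A ^ r = ∑ i ∈ range D, (∑ j ∈ range S, A ^ j) * (A ^ S) ^ i := by
  induction D with
  | zero => simp
  | succ D ih =>
    rw [Nat.succ_mul, sum_range_add, ih, sum_range_succ, sum_mul]
    congr 1
    refine sum_congr rfl fun j _ => ?_
    rw [pow_add, ← pow_mul, mul_comm S D, mul_comm]

/-- the packed value of one row -/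
def nbrP (W : ℕ) (l : List (ℕ × ℕ × ℤ)) (i : ℕ) : ℤ :=
  (l.map fun u => (if u.1 = i then u.2.2 else 0) * 2 ^ (W * u.2.1)).sum

theorem nbr_swap {α R : Type*} [AddCommMonoid R] (l : List α) (s : Finset ℕ) (F : α → ℕ → R) :
    (l.map fun u => ∑ i ∈ s, F u i).sum = ∑ i ∈ s, (l.map fun u => F u i).sum := by
  induction l with
  | nil => simp
  | cons a l ih => simp only [List.map_cons, List.sum_cons, ih, sum_add_distrib]

theorem nbrP_abs (W S : ℕ) (i : ℕ) (l : List (ℕ × ℕ × ℤ)) (h : ∀ u ∈ l, u.2.1 < S) :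
    |nbrP W l i| ≤ (((l.map fun u => u.2.2.natAbs).sum * ∑ j ∈ range S, (2 ^ W) ^ j : ℕ) : ℤ) := by
  induction l with
  | nil => simp [nbrP]
  | cons a l ih =>
    have ih' := ih fun u hu => h u (List.mem_cons_of_mem _ hu)
    have ha : a.2.1 < S := h a List.mem_cons_self
    have h1 : (2 ^ W) ^ a.2.1 ≤ ∑ j ∈ range S, (2 ^ W) ^ j :=
      single_le_sum (f := fun j => (2 ^ W) ^ j) (fun _ _ => Nat.zero_le _) (mem_range.2 ha)
    have h2 : |(if a.1 = i then a.2.2 else 0) * (2 : ℤ) ^ (W * a.2.1)|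
        ≤ ((a.2.2.natAbs * ∑ j ∈ range S, (2 ^ W) ^ j : ℕ) : ℤ) := by
      have h3 : ((2 : ℤ)) ^ (W * a.2.1) ≤ ((∑ j ∈ range S, (2 ^ W) ^ j : ℕ) : ℤ) := by
        rw [pow_mul]; exact_mod_cast h1
      rw [abs_mul, abs_of_nonneg (by positivity : (0 : ℤ) ≤ 2 ^ (W * a.2.1)), Nat.cast_mul,
        Int.natCast_natAbs]
      refine mul_le_mul ?_ h3 (by positivity) (abs_nonneg _)
      split_ifs
      · exact le_rfl
      · simp
    have e : nbrP W (a :: l) i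
        = (if a.1 = i then a.2.2 else 0) * (2 : ℤ) ^ (W * a.2.1) + nbrP W l i := by
      simp only [nbrP, List.map_cons, List.sum_cons]
    rw [e, List.map_cons, List.sum_cons, add_mul, Nat.cast_add]
    exact (abs_add_le _ _).trans (add_le_add h2 ih')

theorem nbrP_nonneg (W i : ℕ) (l : List (ℕ × ℕ × ℤ)) (h : ∀ u ∈ l, 0 ≤ u.2.2) : 0 ≤ nbrP W l i := by
  refine List.sum_nonneg fun z hz => ?_
  obtain ⟨u, hu, rfl⟩ := List.mem_map.1 hz
  refine mul_nonneg ?_ (by positivity)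
  split_ifs
  · exact h u hu
  · exact le_rfl

theorem nbrP_zero (W i : ℕ) (l : List (ℕ × ℕ × ℤ)) (h : ∀ u ∈ l, u.1 ≠ i) : nbrP W l i = 0 := by
  refine List.sum_eq_zero fun z hz => ?_
  obtain ⟨u, hu, rfl⟩ := List.mem_map.1 hz
  rw [if_neg (h u hu), zero_mul]

theorem nbrP_sum (W S D : ℕ) (l : List (ℕ × ℕ × ℤ)) (h : ∀ u ∈ l, u.1 < D) :
    (l.map fun u => u.2.2 * 2 ^ (W * (u.1 * S + u.2.1))).sum
      = ∑ i ∈ range D, nbrP W l i * (2 ^ (W * S)) ^ i := by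
  have : ∀ i, nbrP W l i * (2 ^ (W * S)) ^ i = (l.map fun u =>
      (if u.1 = i then u.2.2 else 0) * 2 ^ (W * u.2.1) * (2 ^ (W * S)) ^ i).sum := by
    intro i; rw [nbrP, List.sum_map_mul_right]
  simp only [this]
  rw [← nbr_swap]
  refine congrArg _ (List.map_congr_left fun u hu => ?_)
  rw [sum_eq_single u.1]
  · rw [if_pos rfl, ← pow_mul, mul_assoc, ← pow_add]
    congr 2; ring
  · intro j _ hj; rw [if_neg (Ne.symm hj), zero_mul, zero_mul]
  · intro hn; exact absurd (mem_range.2 (h u hu)) hn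

theorem nbrP_par (W S C r : ℕ) (hr : r < 2) (l : List (ℕ × ℕ × ℤ)) (h : ∀ u ∈ l, u.1 < 2 * C) :
    (l.map fun u => (if u.1 % 2 = r then u.2.2 else 0) * 2 ^ (W * (u.1 / 2 * (2 * S) + u.2.1))).sum
      = ∑ j ∈ range C, nbrP W l (2 * j + r) * (2 ^ (2 * (W * S))) ^ j := by
  have : ∀ j, nbrP W l (2 * j + r) * (2 ^ (2 * (W * S))) ^ j = (l.map fun u =>
      (if u.1 = 2 * j + r then u.2.2 else 0) * 2 ^ (W * u.2.1) * (2 ^ (2 * (W * S))) ^ j).sum := by
    intro i; rw [nbrP, List.sum_map_mul_right]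
  simp only [this]
  rw [← nbr_swap]
  refine congrArg _ (List.map_congr_left fun u hu => ?_)
  have hu' := h u hu
  rw [sum_eq_single (u.1 / 2)]
  · have e : (if u.1 = 2 * (u.1 / 2) + r then u.2.2 else 0) = if u.1 % 2 = r then u.2.2 else 0 := by
      refine if_congr ?_ rfl rfl
      omega
    rw [e, ← pow_mul, mul_assoc, ← pow_add]
    congr 2; ring
  · intro j _ hj
    rw [if_neg (by omega), zero_mul, zero_mul]
  · intro hn; exact absurd (mem_range.2 (by omega)) hn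

theorem nbr_norm (l : List (ℕ × ℕ × ℤ)) (c : ℕ × ℕ × ℤ → Prop) [DecidablePred c] :
    (l.map fun u => (if c u then u.2.2 else 0).natAbs).sum ≤ (l.map fun u => u.2.2.natAbs).sum := by
  refine List.sum_le_sum fun u _ => ?_
  split_ifs
  · exact le_rfl
  · simp

/-- the digit identity of a row -/
theorem nbr_row (W S D a b B i : ℕ) (hW : 2 ≤ W) (l : List (ℕ × ℕ × ℤ))
    (h : ∀ u ∈ l, u.1 < D ∧ u.2.1 < S)
    (hP : (a : ℤ) - b = (l.map fun u => u.2.2 * 2 ^ (W * (u.1 * S + u.2.1))).sum)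
    (hB : (l.map fun u => u.2.2.natAbs).sum ≤ B) (hb : B < 2 ^ (W - 1)) (hi : i < D) :
    (((a + (2 ^ (W * (D * S)) - 1) / (2 ^ W - 1) * 2 ^ (W - 1) - b) / 2 ^ (W * S * i)
      % 2 ^ (W * S) : ℕ) : ℤ) - ((2 ^ (W * S) - 1) / (2 ^ W - 1) * 2 ^ (W - 1) : ℕ)
      = nbrP W l i := by
  rw [nbr_geo W _ (by omega), nbr_geo W _ (by omega), nbr_geo_blk]
  set R : ℕ := ∑ j ∈ range S, (2 ^ W) ^ j with hR
  set H : ℕ := 2 ^ (W - 1) with hH
  have hA : 2 ^ W = 2 * H := by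
    rw [hH, ← pow_succ']; congr 1; omega
  have hQ : (2 ^ W - 1) * R + 1 = 2 ^ (W * S) := by
    rw [hR, nbr_geo_mul _ _ Nat.one_le_two_pow, pow_mul]
  have hab : ∀ j, |nbrP W l j| ≤ ((B * R : ℕ) : ℤ) := fun j =>
    (nbrP_abs W S j l fun u hu => (h u hu).2).trans (by exact_mod_cast Nat.mul_le_mul_right _ hB)
  have hBR : B * R + R ≤ H * R := by
    have := Nat.mul_le_mul_right R (show B + 1 ≤ H from hb)
    rwa [add_mul, one_mul] at this
  have hQ2 : 2 * (H * R) + 1 = 2 ^ (W * S) + R := by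
    rw [← hQ, hA]
    have : 1 ≤ 2 * H := by rw [← hA]; exact Nat.one_le_two_pow
    obtain ⟨z, hz⟩ := Nat.exists_eq_add_of_le' this
    rw [← mul_assoc, hz, Nat.add_sub_cancel]; ring
  obtain ⟨d, hd⟩ : ∃ d : ℕ → ℕ, ∀ j, (d j : ℤ) = nbrP W l j + (R * H : ℕ) := by
    refine ⟨fun j => (nbrP W l j + (R * H : ℕ)).toNat, fun j => Int.toNat_of_nonneg ?_⟩
    have := (abs_le.1 (hab j)).1
    rw [mul_comm R H]
    omega
  have hdQ : ∀ j, d j < 2 ^ (W * S) := by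
    intro j
    have h1 := (abs_le.1 (hab j)).2
    have h2 := hd j
    rw [mul_comm R H] at h2
    omega
  have hN : a + (∑ i ∈ range D, R * ((2 ^ W) ^ S) ^ i) * H - b
      = ∑ j ∈ range D, d j * (2 ^ (W * S)) ^ j := by
    have h1 : ((a + (∑ i ∈ range D, R * ((2 ^ W) ^ S) ^ i) * H : ℕ) : ℤ)
        = ((∑ j ∈ range D, d j * (2 ^ (W * S)) ^ j + b : ℕ) : ℤ) := by
      rw [nbrP_sum W S D l fun u hu => (h u hu).1] at hP
      have h2 : ((∑ j ∈ range D, d j * (2 ^ (W * S)) ^ j : ℕ) : ℤ)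
          = ∑ j ∈ range D, nbrP W l j * (2 ^ (W * S)) ^ j
            + (((∑ i ∈ range D, R * ((2 ^ W) ^ S) ^ i) * H : ℕ) : ℤ) := by
        rw [sum_mul, Nat.cast_sum, Nat.cast_sum, ← sum_add_distrib]
        refine sum_congr rfl fun j _ => ?_
        rw [Nat.cast_mul, hd j, ← pow_mul 2 W S]
        push_cast; ring
      rw [Nat.cast_add, Nat.cast_add, h2, ← hP]; ring
    have h3 := Nat.cast_injective (R := ℤ) h1
    omega
  rw [hN, pow_mul 2 (W * S) i, nbr_dig _ D d hdQ i hi, hd i]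
  ring

/-- the digit identities of the even and odd rows -/
theorem nbr_par (W S C a B : ℕ) (hW : 2 ≤ W) (l : List (ℕ × ℕ × ℤ))
    (h : ∀ u ∈ l, u.1 < 2 * C ∧ u.2.1 < S ∧ 0 ≤ u.2.2)
    (hP : (a : ℤ) = (l.map fun u => u.2.2 * 2 ^ (W * (u.1 * S + u.2.1))).sum)
    (hB : (l.map fun u => u.2.2.natAbs).sum ≤ B) (hb : B < 2 ^ (W - 1)) (m : ℕ)
    (hm : m = (2 ^ (W * S) - 1) * ((2 ^ (W * (2 * S) * C) - 1) / (2 ^ (W * (2 * S)) - 1))) :
    ((a &&& m : ℕ) : ℤ) = (l.map fun u =>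
        (if u.1 % 2 = 0 then u.2.2 else 0) * 2 ^ (W * (u.1 / 2 * (2 * S) + u.2.1))).sum ∧
      ((a / 2 ^ (W * S) &&& m : ℕ) : ℤ) = (l.map fun u =>
        (if u.1 % 2 = 1 then u.2.2 else 0) * 2 ^ (W * (u.1 / 2 * (2 * S) + u.2.1))).sum := by
  have hm' : m = (2 ^ (W * S) - 1) * ∑ j ∈ range C, (2 ^ (2 * (W * S))) ^ j := by
    rcases Nat.eq_zero_or_pos S with rfl | hS
    · rw [hm]; simp
    · rw [hm, nbr_geo _ _ (Nat.mul_pos (by omega) (by omega)), show W * (2 * S) = 2 * (W * S) by ring]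
  set R : ℕ := ∑ j ∈ range S, (2 ^ W) ^ j with hR
  have hQ : (2 ^ W - 1) * R + 1 = 2 ^ (W * S) := by
    rw [hR, nbr_geo_mul _ _ Nat.one_le_two_pow, pow_mul]
  have hab : ∀ j, |nbrP W l j| ≤ ((B * R : ℕ) : ℤ) := fun j =>
    (nbrP_abs W S j l fun u hu => (h u hu).2.1).trans (by exact_mod_cast Nat.mul_le_mul_right _ hB)
  have hBR : B * R ≤ (2 ^ W - 1) * R := by
    refine Nat.mul_le_mul_right R ?_
    have : 2 ^ (W - 1) ≤ 2 ^ W := Nat.pow_le_pow_right (by norm_num) (by omega)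
    omega
  obtain ⟨d, hd⟩ : ∃ d : ℕ → ℕ, ∀ j, (d j : ℤ) = nbrP W l j :=
    ⟨fun j => (nbrP W l j).toNat, fun j =>
      Int.toNat_of_nonneg (nbrP_nonneg W j l fun u hu => (h u hu).2.2)⟩
  have hdQ : ∀ j, d j < 2 ^ (W * S) := by
    intro j
    have h1 := (abs_le.1 (hab j)).2
    have h2 := hd j
    omega
  have hN : ∀ D, 2 * C ≤ D → a = ∑ j ∈ range D, d j * (2 ^ (W * S)) ^ j := by
    intro D hD
    rw [nbrP_sum W S D l fun u hu => lt_of_lt_of_le (h u hu).1 hD] at hP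
    refine Nat.cast_injective (R := ℤ) ?_
    rw [hP, Nat.cast_sum]
    refine sum_congr rfl fun j _ => ?_
    rw [← hd j]; push_cast; ring
  constructor
  · rw [nbrP_par W S C 0 (by norm_num) l fun u hu => (h u hu).1, hm', hN _ le_rfl,
      nbr_mask _ C d hdQ, Nat.cast_sum]
    refine sum_congr rfl fun j _ => ?_
    rw [add_zero, ← hd]; push_cast; ring
  · rw [nbrP_par W S C 1 (by norm_num) l fun u hu => (h u hu).1, hm', hN (2 * C + 1) (by omega),
      nbr_shift _ _ d (hdQ 0), nbr_mask _ C (fun j => d (j + 1)) (fun j => hdQ _), Nat.cast_sum]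
    refine sum_congr rfl fun j _ => ?_
    rw [← hd]; push_cast; ring

end Pool.Agent.Lib.MP_2347b2_mp.F.NT
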