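import Pool.Agent.Lib.MP_2347b2_mp.F.NB

/-!
Packed Taylor models: inverse square root, logarithm, exponential.
-/

namespace Pool.Agent.Lib.MP_2347b2_mp.F.NT

noncomputable section

def nw (c : Cx) (h w m : TM) : TM := fm c m (sub h (fm c w (fm c m m)))

def nwI (c : Cx) (h w : TM) (m0 it : ℕ) : TM := Nat.rec (cst m0 0) (fun _ m => nw c h w m) it

def isq3 (c : Cx) (m u v : TM) (m0 : ℕ) : TM :=
  addE c.W m (nrm u) (Nat.add (Nat.add u.B v.B) (flag c.W (Nat.ble (Nat.succ (nrm v)) m0)))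

def isq2 (c : Cx) (w m : TM) (m0 : ℕ) : TM :=
  isq3 c m (rnd c (sub (mul w (fm c m m)) (cst (pw (Nat.mul 2 c.g)) 0)))
    (rnd c (smul (pw c.g) (sub m (cst m0 0)))) m0

/-- inverse square root, `m0` is a first guess and `it` the number of Newton steps -/
def isq (c : Cx) (w : TM) (m0 it : ℕ) : TM :=
  isq2 c w (ex (nwI c (cst (Nat.mul 3 (pw (Nat.sub c.g 1))) 0)
    (fm c w (cst (pw (Nat.sub c.g 1)) 0)) m0 it)) m0

def lgH (c : Cx) (n : ℕ) (x : TM) (d : ℕ) : TM :=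
  Nat.rec (cst 0 0) (fun d H => fm c x (add (cq c.g 1 (Nat.sub n d)) H)) d

/-- `- log (1 - x)` with `n` terms -/
def lg (c : Cx) (n : ℕ) (x : TM) : TM :=
  addE c.W (lgH c n x n)
    (Nat.mul 2 (Nat.succ (Nat.shiftRight (Nat.pow (nrm x) (Nat.succ n)) (Nat.mul c.g n))))
    (Nat.add x.B (flag c.W (Nat.ble (Nat.mul 2 (nrm x)) (pw c.g))))

def exH (c : Cx) (n : ℕ) (x : TM) (d : ℕ) : TM :=
  Nat.rec (cst 0 0) (fun d H => add (cq c.g 1 (fac (Nat.sub n d))) (fm c x H)) d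

/-- `exp x` with `n + 1` terms -/
def ex1 (c : Cx) (n : ℕ) (x : TM) : TM :=
  addE c.W (exH c n x (Nat.succ n))
    (Nat.mul 2 (Nat.succ (Nat.div (Nat.shiftRight (Nat.pow (nrm x) (Nat.succ n)) (Nat.mul c.g n))
      (fac (Nat.succ n)))))
    (Nat.add x.B (flag c.W (Nat.ble (nrm x) (pw c.g))))

def sqs (c : Cx) (x : TM) (m : ℕ) : TM := Nat.rec x (fun _ y => fm c y y) m

/-- `exp (x * 2 ^ m)` -/
def expT (c c' : Cx) (n m : ℕ) (x : TM) : TM := sqs c' (ex1 c n x) m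

variable {p : Pt} {q : Prop} {D L C E K C' E' g : ℕ} {T : TM} {x : ℝ}

theorem nc_div_le (a b c : ℕ) (hc : 0 < c) :
    (a : ℝ) / (2 ^ b * c) ≤ ((Nat.div (Nat.shiftRight a b) c).succ : ℕ) := by
  have e : Nat.div (Nat.shiftRight a b) c = a / (2 ^ b * c) := by
    show (a >>> b) / c = _
    rw [Nat.shiftRight_eq_div_pow, Nat.div_div_eq_div_mul]
  rw [e]
  have hp : 0 < 2 ^ b * c := by positivity
  have h1 : a < (2 ^ b * c) * (a / (2 ^ b * c) + 1) := Nat.lt_mul_div_succ a hp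
  have h2 : (a : ℝ) ≤ ((2 : ℝ) ^ b * c) * ((a / (2 ^ b * c) + 1 : ℕ) : ℝ) := by
    exact_mod_cast h1.le
  rw [div_le_iff₀ (by positivity), mul_comm]
  exact h2

theorem nc_nwI {H V : TM} {a b : ℝ} (hH : Enc p False 1 K H a) (hV : Enc p False 1 K V b)
    (hK : 2 * K ≤ p.S + 1) (K1 : 1 ≤ K) (hg : g < p.W) (m0 it : ℕ) :
    ∃ y, Enc p False 1 K (nwI (mkCx p.W p.S 1 1 K g) H V m0 it) y := by
  induction it with
  | zero =>
    have h0 : Enc p False 1 1 (cst m0 0) (m0 : ℝ) := enc_cst (by simp)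
    exact ⟨_, h0.mono id le_rfl K1⟩
  | succ it ih =>
    obtain ⟨y, hy⟩ := ih
    have h1 := hy.fm (C := 1) (E := 1) (K := K) hy le_rfl (by omega) le_rfl (by omega) hg
    have h2 := hV.fm (C := 1) (E := 1) (K := K) h1 le_rfl (by omega) le_rfl (by omega) hg
    have h3 := hy.fm (C := 1) (E := 1) (K := K) (hH.sub h2) le_rfl (by omega) le_rfl (by omega) hg
    exact ⟨_, h3⟩

theorem nc_isq3 {M U V : TM} {y : ℝ} (c : Cx) (hc : c.W = p.W) (hx : 1 ≤ x) (m0 : ℕ)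
    (hM : Enc p False 1 K M y)
    (hu : Enc p False 1 K U ((x * 2 ^ g * (y * y / 2 ^ g) - 2 ^ (2 * g)) / 2 ^ g))
    (hv : Enc p False 1 K V (y - m0)) :
    Enc p False 1 K (isq3 c M U V m0) (1 / √x * 2 ^ g) := by
  unfold isq3
  rw [hc]
  refine hM.addE ?_
  intro _ hb
  have hb' : U.B + V.B + flag p.W (Nat.ble (nrm V + 1) m0) < 2 ^ (p.W - 1) := hb
  have a1 := hu.abs_le (by omega)
  have a2 := hv.abs_le (by omega)
  have hf : Nat.ble (nrm V + 1) m0 = true := of_flag (W := p.W) (by omega)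
  have hn : nrm V + 1 ≤ m0 := Nat.le_of_ble_eq_true hf
  have hn' : (nrm V : ℝ) + 1 ≤ m0 := by exact_mod_cast hn
  have y0 : 0 < y := by have := (abs_le.mp a2).1; linarith
  have g0 : (0 : ℝ) < 2 ^ g := by positivity
  obtain ⟨a, rfl⟩ : ∃ a, y = a * 2 ^ g := ⟨y / 2 ^ g, by field_simp⟩
  have a0 : 0 < a := (mul_pos_iff_of_pos_right g0).mp y0
  have s1 : 1 ≤ √x := Real.one_le_sqrt.mpr hx
  have s2 : √x * √x = x := Real.mul_self_sqrt (by linarith)
  have e1 : (x * 2 ^ g * (a * 2 ^ g * (a * 2 ^ g) / 2 ^ g) - 2 ^ (2 * g)) / 2 ^ g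
      = ((a * √x - 1) * 2 ^ g) * (a * √x + 1) := by
    have e2 : (a * √x - 1) * 2 ^ g * (a * √x + 1) = (a * a * (√x * √x) - 1) * 2 ^ g := by ring
    rw [e2, s2, two_mul, pow_add]
    field_simp
  have e3 : 1 / √x * 2 ^ g - a * 2 ^ g = -(((a * √x - 1) * 2 ^ g) * (1 / √x)) := by
    field_simp
    ring
  rw [e1, abs_mul] at a1
  rw [e3, abs_neg, abs_mul]
  refine le_trans (mul_le_mul_of_nonneg_left ?_ (abs_nonneg _)) a1
  have p1 : 0 < a * √x := by positivity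
  rw [abs_of_pos (by positivity), abs_of_pos (by positivity), div_le_iff₀ (by positivity)]
  nlinarith

theorem nc_isq2 {M : TM} {y : ℝ} (h : Enc p q 1 L T (x * 2 ^ g)) (hx : 1 ≤ x) (hL : L ≤ K)
    (hK : 2 * K ≤ p.S + 1) (K1 : 1 ≤ K) (hg : g < p.W) (m0 : ℕ) (hM : Enc p False 1 K M y) :
    Enc p False 1 K (isq2 (mkCx p.W p.S 1 1 K g) T M m0) (1 / √x * 2 ^ g) := by
  have h1 := hM.fm (C := 1) (E := 1) (K := K) hM le_rfl (by omega) le_rfl (by omega) hg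
  have h2 : Enc p False 1 p.S _ _ := (h.mul h1).mono id le_rfl (by omega)
  have c1 : Enc p False 1 1 (cst (pw (Nat.mul 2 g)) 0) ((2 : ℝ) ^ (2 * g)) :=
    enc_cst (by rw [pw_eq]; simp)
  have hu := (h2.sub (c1.mono id le_rfl (by omega : 1 ≤ p.S))).rnd (C := 1) (E := 1) (K := K)
    le_rfl le_rfl le_rfl (by omega) hg
  have c2 : Enc p False 1 1 (cst m0 0) (m0 : ℝ) := enc_cst (by simp)
  have hv := ((hM.sub (c2.mono id le_rfl K1)).smul (pw g)).rnd (C := 1) (E := 1) (K := K)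
    le_rfl (by omega) le_rfl (by omega) hg
  refine nc_isq3 _ rfl hx m0 hM hu (hv.congr ?_)
  rw [pw_eq]
  push_cast
  field_simp

theorem nc_lgH (h : Enc p q D L T (x * 2 ^ g)) (hD : D + E ≤ C + 1) (hL : L + K ≤ p.S + 1)
    (hE : E ≤ C) (hK : K ≤ p.S) (E1 : 1 ≤ E) (K1 : 1 ≤ K) (hg : g < p.W) (n d : ℕ)
    (hd : d ≤ n) :
    Enc p False E K (lgH (mkCx p.W p.S C E K g) n T d)
      ((∑ i ∈ Finset.range d, x ^ (i + 1) / ((n - d + i + 1 : ℕ) : ℝ)) * 2 ^ g) := by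
  induction d with
  | zero =>
    have h0 : Enc p False 1 1 (cst 0 0) (0 : ℝ) := enc_cst (by simp)
    exact (h0.mono id E1 K1).congr (by simp)
  | succ d ih =>
    have hf : 0 < Nat.sub n d := by simp only [Nat.sub_eq]; omega
    have h2 : Enc p False E K (cq g 1 (Nat.sub n d)) _ :=
      (enc_cq (p := p) (q := False) g 1 hf).mono id E1 K1
    have h3 := (h2.add (ih (by omega))).congr (add_mul _ _ _)
    refine (h.fmS h3 hD hL hE hK hg rfl).congr ?_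
    rw [Finset.sum_range_succ', mul_add, Finset.mul_sum]
    have e1 : n - (d + 1) + 0 + 1 = Nat.sub n d := by simp only [Nat.sub_eq]; omega
    have e2 : ∀ i ∈ Finset.range d, x ^ (i + 1 + 1) / ((n - (d + 1) + (i + 1) + 1 : ℕ) : ℝ)
        = x * (x ^ (i + 1) / ((n - d + i + 1 : ℕ) : ℝ)) := by
      intro i _
      have e3 : n - (d + 1) + (i + 1) + 1 = n - d + i + 1 := by omega
      rw [e3]; ring
    rw [Finset.sum_congr rfl e2, e1]
    push_cast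
    ring

theorem Enc.isq (h : Enc p q 1 L T (x * 2 ^ g)) (hx : 1 ≤ x) (hL : L ≤ K) (hK : 2 * K ≤ p.S + 1)
    (K1 : 1 ≤ K) (hg : g < p.W) (m0 it : ℕ) :
    Enc p False 1 K (isq (mkCx p.W p.S 1 1 K g) T m0 it) (1 / √x * 2 ^ g) := by
  have c1 : ∀ c : ℕ, Enc p False 1 K (cst c 0) (c : ℝ) := fun c =>
    (enc_cst (q := False) (by simp)).mono id le_rfl K1
  have h1 := h.fm (C := 1) (E := 1) (K := K) (c1 (pw (Nat.sub g 1))) le_rfl (by omega) le_rfl
    (by omega) hg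
  obtain ⟨y, hy⟩ := nc_nwI (c1 (Nat.mul 3 (pw (Nat.sub g 1)))) h1 hK K1 hg m0 it
  obtain ⟨z, hz, -⟩ := hy.ex
  exact nc_isq2 h hx hL hK K1 hg m0 hz

theorem Enc.lg (h : Enc p q D L T (x * 2 ^ g)) (hD : D + E ≤ C + 1) (hL : L + K ≤ p.S + 1)
    (hE : E ≤ C) (hK : K ≤ p.S) (E1 : 1 ≤ E) (K1 : 1 ≤ K) (hg : g < p.W) (n : ℕ) :
    Enc p False E K (lg (mkCx p.W p.S C E K g) n T) (-Real.log (1 - x) * 2 ^ g) := by
  refine (nc_lgH h hD hL hE hK E1 K1 hg n n le_rfl).addE ?_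
  intro _ hu
  have hu' : T.B + flag p.W (Nat.ble (2 * nrm T) (pw g)) < 2 ^ (p.W - 1) := hu
  have hB : T.B < 2 ^ (p.W - 1) := by omega
  have hf : Nat.ble (2 * nrm T) (pw g) = true := of_flag (W := p.W) (by omega)
  have hn : 2 * nrm T ≤ 2 ^ g := by rw [← pw_eq]; exact Nat.le_of_ble_eq_true hf
  have hn' : 2 * (nrm T : ℝ) ≤ 2 ^ g := by exact_mod_cast hn
  have ha := h.abs_le hB
  have g0 : (0 : ℝ) < 2 ^ g := by positivity
  rw [abs_mul, abs_of_pos g0] at ha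
  have hx : |x| ≤ 1 / 2 := by
    by_contra hc
    have := mul_lt_mul_of_pos_right (not_le.mp hc) g0
    linarith
  have hb := Real.abs_log_sub_add_sum_range_le (x := x) (by linarith) n
  have e0 : ∑ i ∈ Finset.range n, x ^ (i + 1) / ((n - n + i + 1 : ℕ) : ℝ)
      = ∑ i ∈ Finset.range n, x ^ (i + 1) / ((i : ℝ) + 1) := by
    refine Finset.sum_congr rfl fun i _ => ?_
    rw [Nat.sub_self, Nat.zero_add]
    push_cast
    rfl
  rw [e0, ← sub_mul, abs_mul, abs_of_pos g0, ← abs_neg, neg_sub, sub_neg_eq_add]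
  have hd := nc_div_le (nrm T ^ (n + 1)) (g * n) 1 Nat.one_pos
  have e4 : Nat.div (Nat.shiftRight (nrm T ^ (n + 1)) (g * n)) 1
      = Nat.shiftRight (nrm T ^ (n + 1)) (g * n) := Nat.div_one _
  rw [e4, Nat.cast_one, mul_one] at hd
  have hp : |x| ^ (n + 1) * 2 ^ g ≤ ((nrm T ^ (n + 1) : ℕ) : ℝ) / 2 ^ (g * n) := by
    rw [le_div_iff₀ (by positivity)]
    have e1 : |x| ^ (n + 1) * 2 ^ g * 2 ^ (g * n) = (|x| * 2 ^ g) ^ (n + 1) := by
      rw [mul_pow, ← pow_mul]; ring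
    rw [e1]
    push_cast
    exact pow_le_pow_left₀ (by positivity) ha _
  have hq : |x| ^ (n + 1) / (1 - |x|) ≤ 2 * |x| ^ (n + 1) := by
    rw [div_le_iff₀ (by linarith)]
    nlinarith [pow_nonneg (abs_nonneg x) (n + 1)]
  have e2 : ((Nat.mul 2 (Nat.succ (Nat.shiftRight (Nat.pow (nrm T) (Nat.succ n))
      (Nat.mul (mkCx p.W p.S C E K g).g n))) : ℕ) : ℝ)
      = 2 * ((Nat.shiftRight (nrm T ^ (n + 1)) (g * n)).succ : ℕ) := by
    show ((2 * _ : ℕ) : ℝ) = _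
    rw [Nat.cast_mul]
    rfl
  rw [e2]
  calc _ ≤ 2 * |x| ^ (n + 1) * 2 ^ g := mul_le_mul_of_nonneg_right (hb.trans hq) g0.le
    _ = 2 * (|x| ^ (n + 1) * 2 ^ g) := by ring
    _ ≤ _ := mul_le_mul_of_nonneg_left (hp.trans hd) (by norm_num)

theorem nc_exH (h : Enc p q D L T (x * 2 ^ g)) (hD : D + E ≤ C + 1) (hL : L + K ≤ p.S + 1)
    (hE : E ≤ C) (hK : K ≤ p.S) (E1 : 1 ≤ E) (K1 : 1 ≤ K) (hg : g < p.W) (n d : ℕ)
    (hd : d ≤ n + 1) :
    Enc p False E K (exH (mkCx p.W p.S C E K g) n T d)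
      ((∑ i ∈ Finset.range d, x ^ i / ((n + 1 - d + i).factorial : ℝ)) * 2 ^ g) := by
  induction d with
  | zero =>
    have h0 : Enc p False 1 1 (cst 0 0) (0 : ℝ) := enc_cst (by simp)
    exact (h0.mono id E1 K1).congr (by simp)
  | succ d ih =>
    have h1 := h.fmS (ih (by omega)) hD hL hE hK hg rfl
    have hf : 0 < fac (Nat.sub n d) := by rw [fac_eq]; exact Nat.factorial_pos _
    have h2 : Enc p False E K (cq g 1 (fac (Nat.sub n d))) _ :=
      (enc_cq (p := p) (q := False) g 1 hf).mono id E1 K1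
    refine (h2.add h1).congr ?_
    rw [Finset.sum_range_succ', fac_eq, Finset.mul_sum]
    have e1 : n + 1 - (d + 1) + 0 = Nat.sub n d := by simp only [Nat.sub_eq]; omega
    have e2 : ∀ i ∈ Finset.range d, x ^ (i + 1) / ((n + 1 - (d + 1) + (i + 1)).factorial : ℝ)
        = x * (x ^ i / ((n + 1 - d + i).factorial : ℝ)) := by
      intro i _
      have e3 : n + 1 - (d + 1) + (i + 1) = n + 1 - d + i := by omega
      rw [e3]; ring
    rw [Finset.sum_congr rfl e2, e1]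
    push_cast
    ring

theorem Enc.ex1 (h : Enc p q D L T (x * 2 ^ g)) (hD : D + E ≤ C + 1) (hL : L + K ≤ p.S + 1)
    (hE : E ≤ C) (hK : K ≤ p.S) (E1 : 1 ≤ E) (K1 : 1 ≤ K) (hg : g < p.W) (n : ℕ) :
    Enc p False E K (ex1 (mkCx p.W p.S C E K g) n T) (Real.exp x * 2 ^ g) := by
  refine (nc_exH h hD hL hE hK E1 K1 hg n (n + 1) le_rfl).addE ?_
  intro _ hu
  have hu' : T.B + flag p.W (Nat.ble (nrm T) (pw g)) < 2 ^ (p.W - 1) := hu
  have hB : T.B < 2 ^ (p.W - 1) := by omega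
  have hf : Nat.ble (nrm T) (pw g) = true := of_flag (W := p.W) (by omega)
  have hn : nrm T ≤ 2 ^ g := by rw [← pw_eq]; exact Nat.le_of_ble_eq_true hf
  have hn' : (nrm T : ℝ) ≤ 2 ^ g := by exact_mod_cast hn
  have ha := h.abs_le hB
  have g0 : (0 : ℝ) < 2 ^ g := by positivity
  rw [abs_mul, abs_of_pos g0] at ha
  have hx : |x| ≤ 1 := by
    by_contra hc
    have := mul_lt_mul_of_pos_right (not_le.mp hc) g0
    linarith
  have hb := Real.exp_bound hx (Nat.succ_pos n)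
  have e0 : ∑ i ∈ Finset.range (n + 1), x ^ i / ((n + 1 - (n + 1) + i).factorial : ℝ)
      = ∑ i ∈ Finset.range n.succ, x ^ i / (i.factorial : ℝ) := by
    refine Finset.sum_congr rfl fun i _ => ?_
    rw [Nat.sub_self, Nat.zero_add]
  rw [e0, ← sub_mul, abs_mul, abs_of_pos g0]
  have f0 : (0 : ℝ) < ((n + 1).factorial : ℝ) := by exact_mod_cast Nat.factorial_pos _
  have hd := nc_div_le (nrm T ^ (n + 1)) (g * n) (fac (n + 1))
    (by rw [fac_eq]; exact Nat.factorial_pos _)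
  have hp : |x| ^ (n + 1) * 2 ^ g ≤ ((nrm T ^ (n + 1) : ℕ) : ℝ) / 2 ^ (g * n) := by
    rw [le_div_iff₀ (by positivity)]
    have e1 : |x| ^ (n + 1) * 2 ^ g * 2 ^ (g * n) = (|x| * 2 ^ g) ^ (n + 1) := by
      rw [mul_pow, ← pow_mul]; ring
    rw [e1]
    push_cast
    exact pow_le_pow_left₀ (by positivity) ha _
  have hq : (((n.succ).succ : ℕ) : ℝ) / (((n.succ).factorial : ℝ) * (n.succ : ℕ))
      ≤ 2 / ((n + 1).factorial : ℝ) := by
    have n0 : (0 : ℝ) ≤ n := Nat.cast_nonneg n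
    rw [div_le_div_iff₀ (by positivity) f0]
    simp only [Nat.succ_eq_add_one]
    push_cast
    nlinarith [mul_nonneg f0.le n0]
  have e2 : ((Nat.mul 2 (Nat.succ (Nat.div (Nat.shiftRight (Nat.pow (nrm T) (Nat.succ n))
      (Nat.mul (mkCx p.W p.S C E K g).g n)) (fac (Nat.succ n)))) : ℕ) : ℝ)
      = 2 * ((Nat.div (Nat.shiftRight (nrm T ^ (n + 1)) (g * n)) (fac (n + 1))).succ : ℕ) := by
    show ((2 * _ : ℕ) : ℝ) = _
    rw [Nat.cast_mul]
    rfl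
  rw [e2]
  rw [fac_eq] at hd ⊢
  calc _ ≤ |x| ^ (n + 1) * (2 / ((n + 1).factorial : ℝ)) * 2 ^ g := by
        refine mul_le_mul_of_nonneg_right (hb.trans ?_) g0.le
        exact mul_le_mul_of_nonneg_left hq (by positivity)
    _ = (|x| ^ (n + 1) * 2 ^ g) * (2 / ((n + 1).factorial : ℝ)) := by ring
    _ ≤ (((nrm T ^ (n + 1) : ℕ) : ℝ) / 2 ^ (g * n)) * (2 / ((n + 1).factorial : ℝ)) :=
        mul_le_mul_of_nonneg_right hp (by positivity)
    _ = 2 * (((nrm T ^ (n + 1) : ℕ) : ℝ) / (2 ^ (g * n) * ((n + 1).factorial : ℝ))) := by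
        field_simp
    _ ≤ _ := mul_le_mul_of_nonneg_left hd (by norm_num)

theorem Enc.expT (h : Enc p q D L T (x * 2 ^ g)) (hD : D + E ≤ C + 1) (hL : L + K ≤ p.S + 1)
    (hE : E ≤ C) (E1 : 1 ≤ E) (K1 : 1 ≤ K) (hg : g < p.W) (hE' : E ≤ E') (hC' : 2 * E' ≤ C' + 1)
    (hK : 2 * K ≤ p.S + 1) (n m : ℕ) :
    Enc p False E' K (expT (mkCx p.W p.S C E K g) (mkCx p.W p.S C' E' K g) n m T)
      (Real.exp (x * 2 ^ m) * 2 ^ g) := by
  have h1 := h.ex1 hD hL hE (by omega) E1 K1 hg n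
  induction m with
  | zero => exact (h1.mono id hE' le_rfl).congr (by simp)
  | succ m ih =>
    refine (ih.fmS (C := C') (E := E') (K := K) ih (by omega) (by omega) (by omega) (by omega)
      hg rfl).congr ?_
    rw [← Real.exp_add]
    congr 2
    ring

end

end Pool.Agent.Lib.MP_2347b2_mp.F.NT
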