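import Pool.Agent.Lib.MP_2347b2_mp.F.Lad2

namespace Pool.Agent.Lib.MP_2347b2_mp.F.NT

open Finset

/-- alternating sum with weights -/
noncomputable def ndQ (c : ℕ → ℝ) (b N : ℝ) (n : ℕ) : ℝ :=
  ∑ j ∈ range (n + 1), (-1) ^ j * c j * N ^ (n - j) * ∏ i ∈ range (n - j), (b + j + i)

theorem ndQ_zero (c : ℕ → ℝ) (b N : ℝ) : ndQ c b N 0 = c 0 := by simp [ndQ]

theorem ndQ_succ (c : ℕ → ℝ) (b N : ℝ) (n : ℕ) :
    ndQ c b N (n + 1) = (-1) ^ (n + 1) * c (n + 1) + N * (b + n) * ndQ c b N n := by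
  unfold ndQ
  rw [sum_range_succ, mul_sum, add_comm]
  congr 1
  · simp
  · refine sum_congr rfl fun j hj => ?_
    have hj' : j ≤ n := Nat.lt_succ_iff.mp (mem_range.mp hj)
    rw [Nat.succ_sub hj', prod_range_succ, pow_succ, Nat.cast_sub hj']
    ring

theorem nd_term (b N y : ℝ) (hN : N ≠ 0) {n j : ℕ} (hj : j ≤ n) :
    N ^ n * (n.factorial : ℝ) * ((-1) ^ j * (∏ i ∈ range (n - j), (b - 1 + j + 1 + i))
      / (((n - j).factorial : ℝ) * (j.factorial : ℝ)) * (y / N) ^ j)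
    = (-1) ^ j * ((n.choose j : ℝ) * y ^ j) * N ^ (n - j) * ∏ i ∈ range (n - j), (b + j + i) := by
  have h1 : (n.factorial : ℝ) = (n.choose j : ℝ) * (j.factorial : ℝ) * ((n - j).factorial : ℝ) := by
    exact_mod_cast (Nat.choose_mul_factorial_mul_factorial hj).symm
  have h2 : N ^ n = N ^ (n - j) * N ^ j := by rw [← pow_add, Nat.sub_add_cancel hj]
  have h3 : ∏ i ∈ range (n - j), (b - 1 + j + 1 + i) = ∏ i ∈ range (n - j), (b + j + i) :=
    prod_congr rfl fun i _ => by ring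
  have f1 : ((n - j).factorial : ℝ) ≠ 0 := by positivity
  have f2 : (j.factorial : ℝ) ≠ 0 := by positivity
  rw [h3, h1, h2, div_pow]
  field_simp

theorem lag_scaled (b N y : ℝ) (hN : N ≠ 0) (n : ℕ) :
    N ^ n * (n.factorial : ℝ) * lag (b - 1) n (y / N)
      = ndQ (fun j => (n.choose j : ℝ) * y ^ j) b N n := by
  unfold lag ndQ
  rw [mul_sum]
  exact sum_congr rfl fun j hj => nd_term b N y hN (Nat.lt_succ_iff.mp (mem_range.mp hj))

theorem lagP_sum (α : ℝ) (n : ℕ) (x : ℝ) :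
    -(x * lagP α n x) = ∑ j ∈ range (n + 1), (j : ℝ) * ((-1) ^ j * (∏ i ∈ range (n - j), (α + j + 1 + i))
      / (((n - j).factorial : ℝ) * (j.factorial : ℝ)) * x ^ j) := by
  have h1 := hasDerivAt_lag α n x
  have h2 : HasDerivAt (lag α n) (∑ j ∈ range (n + 1), (-1) ^ j * (∏ i ∈ range (n - j), (α + j + 1 + i))
      / (((n - j).factorial : ℝ) * (j.factorial : ℝ)) * ((j : ℝ) * x ^ (j - 1))) x := by
    unfold lag
    exact HasDerivAt.fun_sum fun j _ => (hasDerivAt_pow j x).const_mul _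
  have h3 := h1.unique h2
  rw [← mul_neg, h3, mul_sum]
  refine sum_congr rfl fun j _ => ?_
  rcases j with _ | j
  · simp
  · rw [Nat.add_sub_cancel, pow_succ x]; ring

theorem lagP_scaled (b N y : ℝ) (hN : N ≠ 0) (n : ℕ) :
    -(N ^ n * (n.factorial : ℝ) * (y / N * lagP (b - 1) n (y / N)))
      = ndQ (fun j => (j : ℝ) * ((n.choose j : ℝ) * y ^ j)) b N n := by
  rw [← mul_neg, lagP_sum, mul_sum]
  unfold ndQ
  refine sum_congr rfl fun j hj => ?_
  have := nd_term b N y hN (Nat.lt_succ_iff.mp (mem_range.mp hj))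
  rw [mul_left_comm, this]; ring

/-- the amplitude form of `ff` and `fd` -/
theorem ff_amp {γ l R N A : ℝ} (hl : -1 < l) (n : ℕ) (hR : 0 < R) (hN : N = NN γ l n)
    (hA : A = cf γ l n * (2 * R / N) ^ (l + 1) * Real.exp (-(R / N)) / (N ^ n * (n.factorial : ℝ))) :
    ff γ l n R = A * (N ^ n * (n.factorial : ℝ) * lag (2 * l + 2 - 1) n (2 * R / N)) ∧
    R * fd γ l n R = A * ((l + 1 - R / N) * (N ^ n * (n.factorial : ℝ) * lag (2 * l + 2 - 1) n (2 * R / N))
      + N ^ n * (n.factorial : ℝ) * (-(2 * R / N) * lagP (2 * l + 2 - 1) n (2 * R / N))) := by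
  have hN0 : 0 < N := hN ▸ NN_pos hl n
  have f1 : (n.factorial : ℝ) ≠ 0 := by positivity
  have e : 2 * l + 2 - 1 = 2 * l + 1 := by ring
  rw [e, hA]
  unfold ff fd
  rw [← hN]
  constructor
  · field_simp
  · field_simp
    ring

theorem amp_sq {γ l R N A : ℝ} (hl : -1 < l) (n : ℕ) (hR : 0 < R) (hN : N = NN γ l n)
    (hA : A = cf γ l n * (2 * R / N) ^ (l + 1) * Real.exp (-(R / N)) / (N ^ n * (n.factorial : ℝ))) :
    A ^ 2 = (2 * R / N) ^ (2 * l + 2) * Real.exp (-(2 * R / N)) * (1 / Real.Gamma (n + 2 * l + 2))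
      / (N * nu l n * (N ^ 2) ^ n * (n.factorial : ℝ)) := by
  have hN0 : 0 < N := hN ▸ NN_pos hl n
  have f1 : (n.factorial : ℝ) ≠ 0 := by positivity
  have hnu := (nu_pos hl n).ne'
  have hG := (eig_Gamma_pos hl n).ne'
  have e1 : ((2 * R / N) ^ (l + 1)) ^ 2 = (2 * R / N) ^ (2 * l + 2) := by
    rw [← Real.rpow_natCast, ← Real.rpow_mul (by positivity)]
    congr 1; push_cast; ring
  have e2 : Real.exp (-(R / N)) ^ 2 = Real.exp (-(2 * R / N)) := by
    rw [← Real.exp_nat_mul]; congr 1; push_cast; ring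
  rw [hA, div_pow, mul_pow, mul_pow, e1, e2, cf_sq hl, ← hN, mul_pow, ← pow_mul, ← pow_mul, mul_comm n 2]
  field_simp

/-- the exponential of the exponent -/
theorem exp_form {s a R0 R N x : ℝ} (n : ℕ) (hR : 0 < R) (hR0 : 0 < R0) (hN : 0 < N) (hx : 0 < x) :
    (R / R0) ^ (2 * s) * Real.exp (2 * s * Real.log (2 * R0) - (s + n) * Real.log (N ^ 2) - 2 * R / N
        - a * Real.log x)
      = (2 * R / N) ^ (2 * s) * Real.exp (-(2 * R / N)) / ((N ^ 2) ^ n * x ^ a) := by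
  have h1 : (N ^ 2) ^ n = Real.exp (n * Real.log (N ^ 2)) := by
    rw [Real.exp_nat_mul, Real.exp_log (by positivity)]
  rw [h1, Real.rpow_def_of_pos (by positivity), Real.rpow_def_of_pos (by positivity),
    Real.rpow_def_of_pos hx, ← Real.exp_add, ← Real.exp_add, ← Real.exp_add, ← Real.exp_sub,
    Real.log_div hR.ne' hR0.ne', Real.log_div (by positivity) hN.ne',
    Real.log_mul two_ne_zero hR0.ne', Real.log_mul two_ne_zero hR.ne', Real.log_pow]
  congr 1
  push_cast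
  ring

end Pool.Agent.Lib.MP_2347b2_mp.F.NT
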