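import Mathlib

/-!
Wendel's inequality for the Gamma function.
-/

namespace Pool.Agent.Lib.MP_2347b2_mp.F.NT

open Real

theorem gamma_interp {s t a : ℝ} (hs : 0 < s) (ht : 0 < t) (h0 : 0 ≤ a) (h1 : a ≤ 1) :
    Real.Gamma ((1 - a) * s + a * t) ≤ Real.Gamma s ^ (1 - a) * Real.Gamma t ^ a := by
  rcases h0.eq_or_lt with h | h
  · subst h; simp
  rcases h1.eq_or_lt with h' | h'
  · subst h'; simp
  exact Real.Gamma_mul_add_mul_le_rpow_Gamma_mul_rpow_Gamma hs ht (by linarith) h (by ring)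

theorem wendel {x a : ℝ} (hx : 0 < x) (h0 : 0 ≤ a) (h1 : a ≤ 1) :
    1 ≤ Real.Gamma x * x ^ a / Real.Gamma (x + a) ∧
      Real.Gamma x * x ^ a / Real.Gamma (x + a) ≤ 1 + 1 / (4 * x) := by
  have hxa : 0 < x + a := by linarith
  have gx : 0 < Real.Gamma x := Real.Gamma_pos_of_pos hx
  have ga : 0 < Real.Gamma (x + a) := Real.Gamma_pos_of_pos hxa
  have hpa : 0 < x ^ a := Real.rpow_pos_of_pos hx a
  constructor
  · rw [le_div_iff₀ ga, one_mul]
    have h := gamma_interp hx (t := x + 1) (by linarith) h0 h1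
    have e : (1 - a) * x + a * (x + 1) = x + a := by ring
    rw [e, Real.Gamma_add_one hx.ne', Real.mul_rpow hx.le gx.le] at h
    have e2 : Real.Gamma x ^ (1 - a) * (x ^ a * Real.Gamma x ^ a) = Real.Gamma x * x ^ a := by
      rw [mul_comm (x ^ a), ← mul_assoc, ← Real.rpow_add gx]; simp
    rwa [e2] at h
  · have h := gamma_interp hxa (t := x + a + 1) (a := 1 - a) (by linarith) (by linarith)
      (by linarith)
    have e : (1 - (1 - a)) * (x + a) + (1 - a) * (x + a + 1) = x + 1 := by ring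
    rw [e, Real.Gamma_add_one hx.ne', Real.Gamma_add_one hxa.ne', Real.mul_rpow hxa.le ga.le] at h
    have e2 : Real.Gamma (x + a) ^ (1 - (1 - a)) * ((x + a) ^ (1 - a) * Real.Gamma (x + a) ^ (1 - a))
        = Real.Gamma (x + a) * (x + a) ^ (1 - a) := by
      rw [mul_comm ((x + a) ^ (1 - a)), ← mul_assoc, ← Real.rpow_add ga]; simp
    rw [e2] at h
    have e3 : (x + a) ^ (1 - a) = x ^ (1 - a) * (1 + a / x) ^ (1 - a) := by
      rw [← Real.mul_rpow hx.le (by positivity)]
      congr 1; field_simp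
    have hb : (1 + a / x) ^ (1 - a) ≤ 1 + (1 - a) * (a / x) :=
      rpow_one_add_le_one_add_mul_self (by have : 0 ≤ a / x := by positivity
                                           linarith) (by linarith) (by linarith)
    have hc : (1 - a) * (a / x) ≤ 1 / (4 * x) := by
      rw [← mul_div_assoc, div_le_div_iff₀ hx (by positivity)]
      nlinarith [sq_nonneg (2 * a - 1), mul_nonneg hx.le (sq_nonneg (2 * a - 1))]
    have e4 : x ^ (1 - a) * x ^ a = x := by rw [← Real.rpow_add hx]; simp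
    have hp : 0 < x ^ (1 - a) := Real.rpow_pos_of_pos hx _
    rw [div_le_iff₀ ga]
    have h2 : x ^ (1 - a) * (Real.Gamma x * x ^ a)
        ≤ x ^ (1 - a) * ((1 + 1 / (4 * x)) * Real.Gamma (x + a)) := by
      calc x ^ (1 - a) * (Real.Gamma x * x ^ a) = x * Real.Gamma x := by
            rw [mul_comm (Real.Gamma x), ← mul_assoc, e4]
        _ ≤ Real.Gamma (x + a) * (x ^ (1 - a) * (1 + a / x) ^ (1 - a)) := by rw [← e3]; exact h
        _ ≤ Real.Gamma (x + a) * (x ^ (1 - a) * (1 + 1 / (4 * x))) := by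
            gcongr; linarith
        _ = _ := by ring
    exact le_of_mul_le_mul_left h2 hp

end Pool.Agent.Lib.MP_2347b2_mp.F.NT
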