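import Pool.Agent.Lib.MP_2347b2_mp.F.Tele
import Pool.Agent.Lib.MP_2347b2_mp.F.Env
import Pool.Agent.Lib.MP_2347b2_mp.F.NDA
import Pool.Agent.Lib.MP_2347b2_mp.F.NDt

/-!
The terms of the head in the form used by the numerical check.
-/

namespace Pool.Agent.Lib.MP_2347b2_mp.F.NT

noncomputable section

/-- two consecutive sums, `M` stands for `N ^ 2` and `r` for `2 * R` -/
def pp (w : ℕ → ℝ) (n : ℕ) (b M r : ℝ) : ℕ → ℝ × ℝ
  | 0 => (0, w 0)
  | j + 1 => ((pp w n b M r j).2,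
      w (j + 1) * (n.choose (j + 1) : ℝ) * r ^ (j + 1) + (b + j) * (b + j - 1) * M * (pp w n b M r j).1)

def UU (w : ℕ → ℝ) (n : ℕ) (b N r : ℝ) : ℝ :=
  (pp w n b (N ^ 2) r n).2 - N * (b + n - 1) * (pp w n b (N ^ 2) r n).1

/-- the correction factor of the Gamma function -/
def th (x : ℕ) (a : ℝ) : ℝ := Real.Gamma x * (x : ℝ) ^ a / Real.Gamma (x + a)

def PH (s : ℝ) (I x i : ℕ) : ℝ := ∏ j ∈ Finset.Ico i (x - I), (2 * s + j) / ((I : ℝ) + j)

/-- twice the exponent of the amplitude -/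
def X2 (s : ℝ) (I x n : ℕ) (N R0 R : ℝ) : ℝ :=
  2 * s * Real.log (2 * R0) - (s + n) * Real.log (N ^ 2) - 2 * R / N - (2 * s - I) * Real.log x

/-- the quadratic form of a pair of states -/
def FT (k s E z R U V : ℝ) : ℝ :=
  ((k ^ 2 - s) * E - R) * (s * V ^ 2 - 2 * E * (R * U) * V + s * z * (R * U) ^ 2)
    - 2 * (1 - k ^ 2 * z) * E * (R * U) ^ 2

variable {γ R R0 : ℝ} {k I x : ℕ}

theorem ndQ_UU (w : ℕ → ℝ) (n : ℕ) (b N r : ℝ) (j : ℕ) :
    ndQ (fun i => if i = 0 then w 0 else w i * (n.choose i : ℝ) * r ^ i) b N j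
      = (-1) ^ j * ((pp w n b (N ^ 2) r j).2 - N * (b + j - 1) * (pp w n b (N ^ 2) r j).1) := by
  induction j with
  | zero => simp [ndQ_zero, pp]
  | succ j ih =>
    rw [ndQ_succ, ih, if_neg (Nat.succ_ne_zero j)]
    simp only [pp]
    push_cast
    ring

theorem lag_UU (n : ℕ) (b r : ℝ) {N : ℝ} (hN : 0 < N) :
    N ^ n * (n.factorial : ℝ) * lag (b - 1) n (r / N) = (-1) ^ n * UU (fun _ => 1) n b N r := by
  rw [lag_scaled b N r hN.ne' n, UU, ← ndQ_UU]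
  congr 1
  funext i
  rcases i with _ | i <;> simp

theorem lagP_UU (n : ℕ) (b r : ℝ) {N : ℝ} (hN : 0 < N) :
    N ^ n * (n.factorial : ℝ) * (-(r / N) * lagP (b - 1) n (r / N))
      = (-1) ^ n * UU (fun j => j) n b N r := by
  rw [neg_mul, mul_neg, lagP_scaled b N r hN.ne' n, UU, ← ndQ_UU]
  congr 1
  funext i
  rcases i with _ | i
  · simp
  · rw [if_neg (Nat.succ_ne_zero i)]; ring

theorem th_bounds (hx : 1 ≤ x) {a : ℝ} (h0 : 0 ≤ a) (h1 : a ≤ 1) :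
    1 ≤ th x a ∧ th x a ≤ 1 + 1 / (4 * x) :=
  wendel (by exact_mod_cast hx) h0 h1

theorem ndb_prod {c : ℝ} (i d : ℕ) (h : 0 < c + i) :
    Real.Gamma (c + (i + d : ℕ)) = Real.Gamma (c + i) * ∏ j ∈ Finset.Ico i (i + d), (c + j) := by
  induction d with
  | zero => simp
  | succ d ih =>
    have p : 0 < c + (i + d : ℕ) := by
      push_cast
      linarith [Nat.cast_nonneg (α := ℝ) d]
    rw [← add_assoc, Finset.prod_Ico_succ_top (Nat.le_add_right i d), ← mul_assoc, ← ih,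
      Nat.cast_succ, ← add_assoc, Real.Gamma_add_one p.ne', mul_comm]

theorem inv_Gamma {s : ℝ} (hs : 0 < s) {i : ℕ} (h1 : 1 ≤ I + i) (hx : I + i ≤ x) :
    1 / Real.Gamma (2 * s + i)
      = th x (2 * s - I) * PH s I x i / (((I + i - 1).factorial : ℝ) * (x : ℝ) ^ (2 * s - I)) := by
  obtain ⟨d, rfl⟩ := Nat.exists_eq_add_of_le hx
  obtain ⟨q, hq⟩ := Nat.exists_eq_add_of_le' h1
  have hi : (0 : ℝ) ≤ i := Nat.cast_nonneg i
  have p1 : 0 < 2 * s + i := by linarith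
  have p2 : (0 : ℝ) < I + i := by exact_mod_cast h1
  have a1 := ndb_prod i d p1
  have a2 := ndb_prod i d p2
  have a3 : Real.Gamma ((I : ℝ) + i) = ((I + i - 1).factorial : ℝ) := by
    rw [← Nat.cast_add, hq, Nat.add_sub_cancel, Nat.cast_succ, Real.Gamma_nat_eq_factorial]
  have e1 : I + i + d - I = i + d := by omega
  have e2 : ((I + i + d : ℕ) : ℝ) + (2 * s - I) = 2 * s + (i + d : ℕ) := by push_cast; ring
  have e3 : ((I + i + d : ℕ) : ℝ) = I + (i + d : ℕ) := by push_cast; ring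
  have g1 := Real.Gamma_pos_of_pos p1
  have g2 := Real.Gamma_pos_of_pos p2
  have x0 : (0 : ℝ) < ((I + i + d : ℕ) : ℝ) := by exact_mod_cast (by omega : 0 < I + i + d)
  have x1 := Real.rpow_pos_of_pos x0 (2 * s - I)
  have q1 : 0 < ∏ j ∈ Finset.Ico i (i + d), (2 * s + j) :=
    Finset.prod_pos fun j hj => by
      have : (i : ℝ) ≤ j := by exact_mod_cast (Finset.mem_Ico.1 hj).1
      linarith
  have q2 : 0 < ∏ j ∈ Finset.Ico i (i + d), ((I : ℝ) + j) :=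
    Finset.prod_pos fun j hj => by
      have : (i : ℝ) ≤ j := by exact_mod_cast (Finset.mem_Ico.1 hj).1
      linarith
  have a4 : Real.Gamma ((I + i + d : ℕ) : ℝ)
      = Real.Gamma ((I : ℝ) + i) * ∏ j ∈ Finset.Ico i (i + d), ((I : ℝ) + j) := by rw [e3, a2]
  rw [th, PH, e1, e2, a1, a4, ← a3, Finset.prod_div_distrib]
  field_simp

theorem PH_top (s : ℝ) : PH s I x (x - I) = 1 := by
  rw [PH, Finset.Ico_self, Finset.prod_empty]

theorem PH_succ (s : ℝ) {i : ℕ} (h : i < x - I) :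
    PH s I x i = PH s I x (i + 1) * ((2 * s + i) / ((I : ℝ) + i)) := by
  rw [PH, PH, Finset.prod_eq_prod_Ico_succ_bot h, mul_comm]

theorem NN_Tp (h0 : 0 < γ) (h1 : γ < 1) (hk : 1 ≤ k) (m : ℕ) :
    NN γ (sOf γ k) m ^ 2 = (m + 1) ^ 2 + k ^ 2 + 2 * (m + 1) * sOf γ k := by
  rw [NN_sq, nu]
  linear_combination sk_sq h0 h1 hk

theorem NN_bt (h0 : 0 < γ) (h1 : γ < 1) (hk : 1 ≤ k) (n : ℕ) :
    NN γ (sOf γ k - 1) n ^ 2 = n ^ 2 + k ^ 2 + 2 * n * sOf γ k := by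
  rw [NN_sq, nu]
  linear_combination sk_sq h0 h1 hk

theorem Tp_form (h0 : 0 < γ) (h1 : γ < 1) (hk : 1 ≤ k) (m : ℕ) (hR : 0 < R) (hR0 : 0 < R0)
    (hx : I + m + 2 ≤ x) {s N : ℝ} (hs : s = sOf γ k) (hN : N = NN γ s m) :
    Tp γ k m R = th x (2 * s - I) * (R / R0) ^ (2 * s)
      * (4 * k / ((m + 1) * (m.factorial : ℝ) * ((I + m + 1).factorial : ℝ))
        * (1 / N ^ 2 * PH s I x (m + 2) / (2 * s + m + 1)) * Real.exp (X2 s I x m N R0 R)
        * FT k s ((m + 1 + s) / N) (1 / N ^ 2) R (UU (fun _ => 1) m (2 * s + 2) N (2 * R))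
          ((2 * s + 1 - R / N) * UU (fun _ => 1) m (2 * s + 2) N (2 * R)
            + UU (fun j => j) m (2 * s + 2) N (2 * R))) := by
  have hs0 : 0 < s := hs ▸ sk_pos h0 h1 hk
  have hl : -1 < s := by linarith
  have hN0 : 0 < N := hN ▸ NN_pos hl m
  have hx0 : (0 : ℝ) < x := by exact_mod_cast (by omega : 0 < x)
  obtain ⟨A, hA⟩ : ∃ A, A = cf γ s m * (2 * R / N) ^ (s + 1) * Real.exp (-(R / N))
    / (N ^ m * (m.factorial : ℝ)) := ⟨_, rfl⟩
  obtain ⟨e1, e2⟩ := ff_amp hl m hR hN hA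
  have e3 := amp_sq hl m hR hN hA
  rw [lag_UU m _ _ hN0] at e1 e2
  rw [lagP_UU m _ _ hN0] at e2
  have e4 := inv_Gamma (I := I) (x := x) hs0 (i := m + 2) (by omega) (by omega)
  have e5 : (m : ℝ) + 2 * s + 2 = 2 * s + ((m + 2 : ℕ) : ℝ) := by push_cast; ring
  have e6 : I + (m + 2) - 1 = I + m + 1 := by omega
  rw [e5, e4, e6, Real.rpow_add (by positivity), Real.rpow_two] at e3
  have e7 := exp_form (s := s) (a := 2 * s - I) m hR hR0 hN0 hx0
  have e8 : N ^ 2 = (m + 1) ^ 2 + k ^ 2 + 2 * (m + 1) * s := by rw [hN, hs]; exact NN_Tp h0 h1 hk m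
  have e9 : nu s m = m + 1 + s := by unfold nu; ring
  have hE : EE γ s m = (m + 1 + s) / N := by unfold EE; rw [e9, hN]
  have hz : ep γ s m = -(1 / N ^ 2) := by unfold ep; rw [← hN]; ring
  have hσ : ((-1 : ℝ) ^ m) ^ 2 = 1 := by rw [← pow_mul, mul_comm, pow_mul]; simp
  have ha : 1 - k ^ 2 * (1 / N ^ 2) = (m + 1) * (2 * s + m + 1) / N ^ 2 := by
    field_simp; rw [e8]; ring
  generalize UU (fun _ => 1) m (2 * s + 2) N (2 * R) = U at *
  generalize UU (fun j => j) m (2 * s + 2) N (2 * R) = U1 at *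
  have hd : fd γ s m R = A * (-1) ^ m * ((s + 1 - R / N) * U + U1) / R := by
    rw [eq_div_iff hR.ne', mul_comm, e2]; ring
  have key : Tp γ k m R = k * ((m + 1 + s) / N) * (A ^ 2 * ((-1 : ℝ) ^ m) ^ 2)
      / (R ^ 2 * (1 - k ^ 2 * (1 / N ^ 2)))
      * FT k s ((m + 1 + s) / N) (1 / N ^ 2) R U ((2 * s + 1 - R / N) * U + U1) := by
    have ha0 : 1 - (k : ℝ) ^ 2 * (1 / N ^ 2) ≠ 0 := by rw [ha]; positivity
    have hb : 1 + (k : ℝ) ^ 2 * -(1 / N ^ 2) = 1 - (k : ℝ) ^ 2 * (1 / N ^ 2) := by ring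
    unfold Tp YY FT
    rw [← hs, hE, hz, hd, e1, hb]
    generalize 1 - (k : ℝ) ^ 2 * (1 / N ^ 2) = a at *
    generalize ((m : ℝ) + 1 + s) / N = E
    generalize 1 / N ^ 2 = z
    generalize R / N = y
    field_simp
    ring
  rw [key, hσ, e3, ha, e9]
  generalize FT k s ((m + 1 + s) / N) (1 / N ^ 2) R U ((2 * s + 1 - R / N) * U + U1) = T
  have e10 : Real.exp (X2 s I x m N R0 R) = (2 * R / N) ^ (2 * s) * Real.exp (-(2 * R / N))
      / ((N ^ 2) ^ m * (x : ℝ) ^ (2 * s - I)) / (R / R0) ^ (2 * s) := by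
    rw [eq_div_iff (by positivity), mul_comm]; exact e7
  rw [e10]
  have p1 : (R / R0) ^ (2 * s) ≠ 0 := by positivity
  have p2 : (x : ℝ) ^ (2 * s - I) ≠ 0 := by positivity
  have p3 : (m.factorial : ℝ) ≠ 0 := by positivity
  have p4 : ((I + m + 1).factorial : ℝ) ≠ 0 := by positivity
  have p5 : (m : ℝ) + 1 + s ≠ 0 := by positivity
  have p6 : 2 * s + m + 1 ≠ 0 := by positivity
  have p7 : (m : ℝ) + 1 ≠ 0 := by positivity
  have p8 : (N ^ 2) ^ m ≠ 0 := by positivity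
  generalize (N ^ 2) ^ m = Q at *
  field_simp
  ring

/-- the amplitude -/
theorem amp_X2 (s : ℝ) (I n : ℕ) {N : ℝ} (hx : 1 ≤ x) (hN : 0 < N) (hR : 0 < R) (hR0 : 0 < R0) :
    (R / R0) ^ (2 * s) * Real.exp (X2 s I x n N R0 R) * ((N ^ n) ^ 2 * (x : ℝ) ^ (2 * s - I))
      = ((2 * R / N) ^ s) ^ 2 * Real.exp (-(R / N)) ^ 2 := by
  have hx' : (0 : ℝ) < x := by exact_mod_cast hx
  have e1 : (R / R0) ^ (2 * s) = Real.exp ((Real.log R - Real.log R0) * (2 * s)) := by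
    rw [Real.rpow_def_of_pos (div_pos hR hR0), Real.log_div hR.ne' hR0.ne']
  have e2 : (2 * R / N) ^ s = Real.exp ((Real.log 2 + Real.log R - Real.log N) * s) := by
    rw [Real.rpow_def_of_pos (by positivity), Real.log_div (by positivity) hN.ne',
      Real.log_mul two_ne_zero hR.ne']
  have e3 : N ^ n = Real.exp (n * Real.log N) := by rw [Real.exp_nat_mul, Real.exp_log hN]
  have e4 : (x : ℝ) ^ (2 * s - I) = Real.exp (Real.log x * (2 * s - I)) :=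
    Real.rpow_def_of_pos hx' _
  rw [e1, e2, e3, e4, X2, Real.log_mul two_ne_zero hR0.ne', Real.log_pow]
  simp only [sq, ← Real.exp_add]
  congr 1
  push_cast
  ring

theorem bt_form (h0 : 0 < γ) (h1 : γ < 1) (hk : 1 ≤ k) (n : ℕ) (hR : 0 < R) (hR0 : 0 < R0)
    (hI : 1 ≤ I) (hx : I + n ≤ x) {s N : ℝ} (hs : s = sOf γ k) (hN : N = NN γ (s - 1) n) :
    -(ck γ k * bt γ (s - 1) n R) = th x (2 * s - I) * (R / R0) ^ (2 * s)
      * (k / ((n.factorial : ℝ) * ((I + n - 1).factorial : ℝ))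
        * (1 / N ^ 2 * PH s I x n / s) * Real.exp (X2 s I x n N R0 R)
        * (((k ^ 2 - s) * ((n + s) / N) - R) * UU (fun _ => 1) n (2 * s) N (2 * R) ^ 2)) := by
  have hs0 : 0 < s := hs ▸ sk_pos h0 h1 hk
  have hq : s ^ 2 = k ^ 2 - γ ^ 2 := hs ▸ sk_sq h0 h1 hk
  have hN0 : 0 < N := hN ▸ NN_pos (by linarith) n
  have hn : (0 : ℝ) ≤ n := n.cast_nonneg
  have hf : (0 : ℝ) < n.factorial := by exact_mod_cast n.factorial_pos
  have hf' : (0 : ℝ) < (I + n - 1).factorial := by exact_mod_cast (I + n - 1).factorial_pos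
  have hx' : (0 : ℝ) < x := by exact_mod_cast (by omega : 0 < x)
  have hp : 0 < (x : ℝ) ^ (2 * s - I) := Real.rpow_pos_of_pos hx' _
  have hG : 0 < Real.Gamma (2 * s + n) := Real.Gamma_pos_of_pos (by positivity)
  have eA := amp_X2 s I n (by omega : 1 ≤ x) hN0 hR hR0
  have eG := inv_Gamma (I := I) (x := x) hs0 (i := n) (by omega) hx
  have eU := lag_UU n (2 * s) (2 * R) hN0
  have eU2 : UU (fun _ => 1) n (2 * s) N (2 * R) ^ 2
      = (N ^ n) ^ 2 * (n.factorial : ℝ) ^ 2 * lag (2 * s - 1) n (2 * R / N) ^ 2 := by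
    have h := congrArg (fun t => t ^ 2) eU
    simp only [mul_pow, ← pow_mul] at h
    rw [Even.neg_one_pow (by simp : Even (n * 2)), one_mul] at h
    rw [← h, ← pow_mul]
  have enu : nu (s - 1) n = n + s := by rw [nu]; ring
  have ecf : cf γ (s - 1) n ^ 2 = n.factorial * (1 / Real.Gamma (2 * s + n)) / (N * (n + s)) := by
    rw [cf, ← hN, enu, (by ring : (n : ℝ) + 2 * (s - 1) + 2 = 2 * s + n), Real.sq_sqrt (by positivity)]
    field_simp
  have eE : Real.exp (X2 s I x n N R0 R) = ((2 * R / N) ^ s) ^ 2 * Real.exp (-(R / N)) ^ 2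
      / ((R / R0) ^ (2 * s) * ((N ^ n) ^ 2 * (x : ℝ) ^ (2 * s - I))) := by
    rw [eq_div_iff (by positivity), ← eA]
    ring
  have hr : 0 < (R / R0) ^ (2 * s) := by positivity
  rw [bt, ff, EE, ck, ← hs, ← hN, enu, sub_add_cancel, (by ring : 2 * (s - 1) + 1 = 2 * s - 1),
    mul_pow, mul_pow, mul_pow, ecf, eG, eU2, eE, (by linarith : (s - 1) * s + γ ^ 2 = k ^ 2 - s)]
  field_simp
  ring

theorem t0_form (h0 : 0 < γ) (h1 : γ < 1) (hk : 1 ≤ k) (hR : 0 < R) (hR0 : 0 < R0)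
    (hx : I + 1 ≤ x) {s : ℝ} (hs : s = sOf γ k) :
    t0 γ k R = th x (2 * s - I) * (R / R0) ^ (2 * s)
      * (2 / (k * (I.factorial : ℝ)) * PH s I x 1 * Real.exp (X2 s I x 0 k R0 R)
        * (k * s - R - k)) := by
  have hs0 : 0 < s := hs ▸ sk_pos h0 h1 hk
  have hq : s ^ 2 = k ^ 2 - γ ^ 2 := hs ▸ sk_sq h0 h1 hk
  have hk0 : (0 : ℝ) < k := by exact_mod_cast hk
  have hf' : (0 : ℝ) < I.factorial := by exact_mod_cast I.factorial_pos
  have hx' : (0 : ℝ) < x := by exact_mod_cast (by omega : 0 < x)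
  have hp : 0 < (x : ℝ) ^ (2 * s - I) := Real.rpow_pos_of_pos hx' _
  have hG : 0 < Real.Gamma (2 * s) := Real.Gamma_pos_of_pos (by positivity)
  have eA := amp_X2 s I 0 (by omega : 1 ≤ x) hk0 hR hR0
  have eG := inv_Gamma (I := I) (x := x) hs0 (i := 1) (by omega) hx
  rw [Nat.cast_one, Real.Gamma_add_one (by positivity), Nat.add_sub_cancel] at eG
  have enu : nu (s - 1) 0 = s := by rw [nu]; push_cast; ring
  have eN : NN γ (s - 1) 0 = k := by
    rw [NN, enu, hq, sub_add_cancel, Real.sqrt_sq hk0.le]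
  have ecf : cf γ (s - 1) 0 ^ 2 = 2 * (1 / (2 * s * Real.Gamma (2 * s))) / k := by
    rw [cf, eN, enu, Nat.cast_zero, (by ring : (0 : ℝ) + 2 * (s - 1) + 2 = 2 * s),
      Real.sq_sqrt (by positivity), Nat.factorial_zero, Nat.cast_one]
    field_simp
  have eL : ∀ a y : ℝ, lag a 0 y = 1 := fun a y => by simp [lag]
  have eE : Real.exp (X2 s I x 0 k R0 R) = ((2 * R / k) ^ s) ^ 2 * Real.exp (-(R / k)) ^ 2
      / ((R / R0) ^ (2 * s) * (((k : ℝ) ^ 0) ^ 2 * (x : ℝ) ^ (2 * s - I))) := by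
    rw [eq_div_iff (by positivity), ← eA]
    ring
  have hr : 0 < (R / R0) ^ (2 * s) := by positivity
  rw [t0, ff, ← hs, eN, eL, sub_add_cancel, mul_one, mul_pow, mul_pow, ecf, eG, eE]
  field_simp

end

end Pool.Agent.Lib.MP_2347b2_mp.F.NT
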