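import Pool.Agent.Lib.MP_2347b2_mp.F.Tele
import Pool.Agent.Lib.MP_2347b2_mp.F.Env

/-!
Low states are dropped by their sign, the sums are cut.
-/

namespace Pool.Agent.Lib.MP_2347b2_mp.F.NT

variable {γ R : ℝ} {k : ℕ}

open Filter Topology Set in
/-- beyond the outer turning point the square of a state decreases -/
theorem ne_fd {l : ℝ} (hl : 0 ≤ l) (n : ℕ) (h : 2 * NN γ l n ^ 2 ≤ R) :
    ff γ l n R * fd γ l n R ≤ 0 := by
  have hl' : -1 < l := by linarith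
  have hN := NN_pos (γ := γ) hl' n
  have hR : 0 < R := lt_of_lt_of_le (by positivity) h
  have hd : ∀ r ∈ Ici R, HasDerivAt (fun r => ff γ l n r * fd γ l n r)
      (fd γ l n r * fd γ l n r + ff γ l n r * (QQ γ l n r * ff γ l n r)) r := fun r hr =>
    (ff_deriv hl' n (hR.trans_le hr)).mul (fd_deriv hl' n (hR.trans_le hr))
  have hm : MonotoneOn (fun r => ff γ l n r * fd γ l n r) (Ici R) := by
    refine monotoneOn_of_deriv_nonneg (convex_Ici R)
      (fun r hr => (hd r hr).continuousAt.continuousWithinAt)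
      (fun r hr => (hd r (interior_subset hr)).differentiableAt.differentiableWithinAt) fun r hr => ?_
    have hr' : R ≤ r := interior_subset hr
    have hr0 : 0 < r := hR.trans_le hr'
    rw [(hd r hr').deriv]
    have hQ : 0 ≤ QQ γ l n r := by
      have h1 : 2 * EE γ l n / r ≤ 1 / NN γ l n ^ 2 := by
        rw [div_le_div_iff₀ hr0 (by positivity)]
        nlinarith [EE_le_one (γ := γ) hl' n, sq_nonneg (NN γ l n)]
      have h2 : 0 ≤ l * (l + 1) / r ^ 2 := by positivity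
      unfold QQ ep
      rw [neg_div]
      linarith
    nlinarith [mul_self_nonneg (fd γ l n r), mul_nonneg hQ (mul_self_nonneg (ff γ l n r))]
  have ht : Tendsto (fun r => ff γ l n r * fd γ l n r) atTop (𝓝 0) := by
    have := (ff_decay (γ := γ) hl' n 0).mul (fd_decay (γ := γ) hl' n 0)
    simpa using this
  exact ge_of_tendsto ht (eventually_atTop.mpr ⟨R, fun r hr => hm (mem_Ici.mpr le_rfl) hr hr⟩)

theorem Tp_drop (h0 : 0 < γ) (h1 : γ < 1) (hk : 1 ≤ k) (m : ℕ) (h : 2 * ((m : ℝ) + 1 + k) ^ 2 ≤ R) :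
    Tp γ k m R ≤ 0 := by
  have hs0 := sk_pos h0 h1 hk
  have hs1 := sk_le h0 h1 hk
  have hs2 := sk_sq h0 h1 hk
  have ha := a2_pos h0 h1 hk m
  unfold Tp YY
  generalize sOf γ k = s at *
  have hl' : -1 < s := by linarith
  have hk0 : (1 : ℝ) ≤ k := by exact_mod_cast hk
  have hm0 : (0 : ℝ) ≤ m := Nat.cast_nonneg m
  have hN := NN_pos (γ := γ) hl' m
  have hN2 : NN γ s m ^ 2 ≤ ((m : ℝ) + 1 + k) ^ 2 := by
    rw [NN_sq]; unfold nu; nlinarith
  have hR : 0 < R := lt_of_lt_of_le (by positivity) h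
  have hvd := ne_fd (γ := γ) (R := R) hs0.le m (by linarith)
  have hE0 := EE_pos (γ := γ) hl' m
  have hE1 := EE_le_one (γ := γ) hl' m
  have hE2 : 1 / 2 ≤ EE γ s m := by
    unfold EE
    rw [le_div_iff₀ hN]
    have : NN γ s m ^ 2 ≤ (2 * nu s m) ^ 2 := by rw [NN_sq]; unfold nu; nlinarith
    have := abs_le_of_sq_le_sq' this (by unfold nu; positivity)
    linarith [this.2]
  have hP : 2 * EE γ s m / R + ep γ s m - s ^ 2 / R ^ 2 ≤ 0 := by
    have h1 : 2 * EE γ s m / R ≤ 1 / NN γ s m ^ 2 := by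
      rw [div_le_div_iff₀ hR (by positivity)]
      nlinarith [sq_nonneg (NN γ s m)]
    have h2 : 0 ≤ s ^ 2 / R ^ 2 := by positivity
    unfold ep
    rw [neg_div]
    linarith
  have hom : 0 ≤ EE γ s m - s ^ 2 / R := by
    have : s ^ 2 / R ≤ 1 / 2 := by rw [div_le_iff₀ hR]; nlinarith
    linarith
  have hc : ((k : ℝ) ^ 2 - s) * EE γ s m - R ≤ 0 := by nlinarith
  have ha0 : 0 < 1 + (k : ℝ) ^ 2 * ep γ s m := lt_of_lt_of_le (by positivity) ha
  refine mul_nonpos_of_nonneg_of_nonpos (by positivity) (sub_nonpos.mpr (le_trans ?_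
    (by positivity : 0 ≤ 2 * EE γ s m * ff γ s m R ^ 2)))
  refine mul_nonpos_of_nonpos_of_nonneg hc (div_nonneg ?_ ha0.le)
  have h3 := mul_nonneg hs0.le (sub_nonneg.mpr
    ((mul_nonpos_of_nonpos_of_nonneg hP (sq_nonneg (ff γ s m R))).trans (sq_nonneg (fd γ s m R))))
  nlinarith [mul_nonneg hom (neg_nonneg.mpr hvd)]

theorem t0_drop (h0 : 0 < γ) (h1 : γ < 1) (hk : 1 ≤ k) (h : (k : ℝ) ^ 2 ≤ R) : t0 γ k R ≤ 0 := by
  have hs1 := sk_le h0 h1 hk
  have hk0 : (1 : ℝ) ≤ k := by exact_mod_cast hk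
  unfold t0
  exact mul_nonpos_of_nonpos_of_nonneg (by nlinarith) (sq_nonneg _)

theorem bt_drop (h0 : 0 < γ) (h1 : γ < 1) (hk : 1 ≤ k) (n : ℕ) (h : (k : ℝ) ^ 2 ≤ R) :
    0 ≤ ck γ k * bt γ (sOf γ k - 1) n R := by
  have hs0 := sk_pos h0 h1 hk
  have hs1 := sk_le h0 h1 hk
  have hs2 := sk_sq h0 h1 hk
  have hk0 : (1 : ℝ) ≤ k := by exact_mod_cast hk
  unfold ck bt
  generalize sOf γ k = s at *
  have hl' : -1 < s - 1 := by linarith
  have hE0 := EE_pos (γ := γ) hl' n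
  have hE1 := EE_le_one (γ := γ) hl' n
  have hc : 0 ≤ R - ((s - 1) * (s - 1 + 1) + γ ^ 2) * EE γ (s - 1) n := by
    have e : (s - 1) * (s - 1 + 1) + γ ^ 2 = k ^ 2 - s := by linear_combination hs2
    rw [e]
    nlinarith [mul_nonneg (sq_nonneg (k : ℝ)) (sub_nonneg.mpr hE1), mul_pos hs0 hE0]
  positivity

theorem Sp_cut (h0 : 0 < γ) (h1 : γ < 1) (hk : 1 ≤ k) (hR : 0 < R) (lo c : ℕ)
    (h : lo = 0 ∨ 2 * ((lo : ℝ) + k) ^ 2 ≤ R) :
    Sp γ k R ≤ t0 γ k R + ∑ i ∈ Finset.range c, Tp γ k (lo + i) R + ∑' m, Tp γ k (m + (lo + c)) R := by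
  unfold Sp
  rw [← (summable_Tp h0 h1 hk hR).sum_add_tsum_nat_add (lo + c), Finset.sum_range_add]
  have : ∑ i ∈ Finset.range lo, Tp γ k i R ≤ 0 := by
    refine Finset.sum_nonpos fun i hi => Tp_drop h0 h1 hk i ?_
    have hi' : i + 1 ≤ lo := Finset.mem_range.mp hi
    have h2 : (i : ℝ) + 1 ≤ lo := by exact_mod_cast hi'
    refine le_trans ?_ (h.resolve_left (by omega))
    have := pow_le_pow_left₀ (by positivity) (by linarith : (i : ℝ) + 1 + k ≤ lo + k) 2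
    linarith
  linarith

theorem BB_cut (h0 : 0 < γ) (h1 : γ < 1) (hk : 2 ≤ k) (hR : 0 < R) (lo c : ℕ)
    (h : lo = 0 ∨ (k : ℝ) ^ 2 ≤ R) :
    -(ck γ k * BB γ (sOf γ k - 1) R) ≤ ∑ i ∈ Finset.range c, -(ck γ k * bt γ (sOf γ k - 1) (lo + i) R)
      + ∑' n, -(ck γ k * bt γ (sOf γ k - 1) (n + (lo + c)) R) := by
  have hs : 0 ≤ sOf γ k - 1 := by
    have := le_sk' h0 h1 hk
    have hk0 : (2 : ℝ) ≤ k := by exact_mod_cast hk
    linarith
  have hsum : Summable fun n => -(ck γ k * bt γ (sOf γ k - 1) n R) :=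
    ((summable_bt hs hR).mul_left _).neg
  unfold BB
  rw [← tsum_mul_left, ← tsum_neg, ← hsum.sum_add_tsum_nat_add (lo + c), Finset.sum_range_add]
  have : ∑ i ∈ Finset.range lo, -(ck γ k * bt γ (sOf γ k - 1) i R) ≤ 0 := by
    refine Finset.sum_nonpos fun i hi => neg_nonpos.mpr (bt_drop h0 h1 (by omega) i ?_)
    have := Finset.mem_range.mp hi
    exact h.resolve_left (by omega)
  linarith

end Pool.Agent.Lib.MP_2347b2_mp.F.NT
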