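import Pool.Agent.Lib.MP_2347b2_mp.F.NEu
import Pool.Agent.Lib.MP_2347b2_mp.F.Env
import Pool.Agent.Lib.MP_2347b2_mp.F.Lad2

/-!
Bounds for the squares of the eigenfunctions with many nodes.
-/

namespace Pool.Agent.Lib.MP_2347b2_mp.F.Iv

variable {γ l R : ℝ} {il r : I} {M n : ℕ}

/-- enclosure of `M + l + 1` -/
def inu (M : ℕ) (il : I) : I := add (nat (M + 1)) il

theorem inu_in (M : ℕ) (hl : In l il) : In (nu l M) (inu M il) :=
  (add_in (nat_in (M + 1)) hl).congr (by unfold nu; push_cast; ring)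

/-- enclosure of the numbers between `0` and `1 / (M + l + 1) ^ 2` -/
def ieta (M : ℕ) (il : I) : I := frc (inu M il) fun a => dn (div (nat 1) (mul a a))

theorem nu_mono (l : ℝ) (h : M ≤ n) : nu l M ≤ nu l n := by
  have : (M : ℝ) ≤ n := by exact_mod_cast h
  unfold nu; linarith

theorem one_le_nu (h0 : 0 ≤ l) (n : ℕ) : 1 ≤ nu l n := by
  have : (0 : ℝ) ≤ n := Nat.cast_nonneg n
  unfold nu; linarith

theorem neg_ep_le (h0 : 0 ≤ l) (h : M ≤ n) : 0 ≤ -ep γ l n ∧ -ep γ l n ≤ 1 / nu l M ^ 2 := by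
  have h1 := nu_le_NN γ (by linarith : -1 < l) n
  have h2 := nu_mono l h
  have h3 := one_le_nu h0 M
  have e : -ep γ l n = 1 / NN γ l n ^ 2 := by unfold ep; ring
  rw [e]
  refine ⟨by positivity, ?_⟩
  gcongr
  linarith

theorem ep_in (h0 : 0 ≤ l) (hl : In l il) (h : M ≤ n) : In (-ep γ l n) (ieta M il) :=
  frc_in (dn_in (div_in one_in (sq_in (inu_in M hl))) (neg_ep_le h0 h).1 (neg_ep_le h0 h).2)

/-- enclosure of the energies -/
def iE (M : ℕ) (il : I) : I := sub (nat 1) (ieta M il)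

theorem EE_in (hγ : γ ^ 2 ≤ 1) (h0 : 0 ≤ l) (hl : In l il) (h : M ≤ n) :
    In (EE γ l n) (iE M il) := by
  have h1 := EE_le_one (γ := γ) (by linarith : -1 < l) n
  have h2 := EE_pos (γ := γ) (by linarith : -1 < l) n
  have h3 := EE_sq (γ := γ) (by linarith : -1 < l) n
  obtain ⟨h4, h5⟩ := neg_ep_le (γ := γ) h0 h
  have h6 : In (1 - EE γ l n) (ieta M il) :=
    frc_in (dn_in (div_in one_in (sq_in (inu_in M hl))) (by linarith) (by nlinarith))
  exact (sub_in one_in h6).congr (by ring)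

/-- enclosure of `l (l + 1) + 3 / 16` -/
def ib (il : I) : I := add (mul il (add il (nat 1))) (q 3 16)

theorem ib_in (hl : In l il) : In (l * (l + 1) + 3 / 16) (ib il) :=
  add_in (mul_in hl (add_in hl one_in)) (qq_in 3 16 (by norm_num))

/-- the square of the local frequency -/
noncomputable def ph2 (γ l : ℝ) (n : ℕ) (R : ℝ) : ℝ :=
  2 * EE γ l n / R - (l * (l + 1) + 3 / 16) / R ^ 2 + ep γ l n

def iph2 (M : ℕ) (il r : I) : I :=
  sub (div (mul (nat 2) (iE M il)) r) (add (div (ib il) (mul r r)) (ieta M il))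

theorem ph2_in (hγ : γ ^ 2 ≤ 1) (h0 : 0 ≤ l) (hl : In l il) (hr : In R r) (h : M ≤ n) :
    In (ph2 γ l n R) (iph2 M il r) :=
  (sub_in (div_in (mul_in (lit_in 2) (EE_in hγ h0 hl h)) hr)
    (add_in (div_in (ib_in hl) (sq_in hr)) (ep_in h0 hl h))).congr (by unfold ph2; ring)

theorem env' (h0 : 0 ≤ l) (hR : 0 < R) (n : ℕ) :
    ((fd γ l n R - ff γ l n R / (4 * R)) ^ 2 + ph2 γ l n R * ff γ l n R ^ 2) * nu l n ^ 3
      ≤ 1 / √R := by
  have h := env (γ := γ) h0 n hR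
  have h1 : 0 < nu l n := by linarith [one_le_nu h0 n]
  have h2 : 0 < √R := Real.sqrt_pos.mpr hR
  refine (mul_le_mul_of_nonneg_right h (by positivity)).trans_eq ?_
  field_simp

theorem sq_le_env (h0 : 0 ≤ l) (hR : 0 < R) (n : ℕ) (hp : 0 < ph2 γ l n R) :
    ff γ l n R ^ 2 * nu l n ^ 3 ≤ 1 / √R / ph2 γ l n R := by
  have h := env' (γ := γ) h0 hR n
  have h1 : 0 < nu l n := by linarith [one_le_nu h0 n]
  rw [le_div_iff₀ hp]
  have : 0 ≤ (fd γ l n R - ff γ l n R / (4 * R)) ^ 2 * nu l n ^ 3 := by positivity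
  linarith

def iA1 (M : ℕ) (il r : I) : I :=
  frc (iph2 M il r) fun p => grd p (div (div (nat 1) (sqrt r)) p)

theorem iA1_ub (hγ : γ ^ 2 ≤ 1) (h0 : 0 ≤ l) (hl : In l il) (hR : 0 < R) (hr : In R r)
    (h : M ≤ n) : Ub (ff γ l n R ^ 2 * nu l n ^ 3) (iA1 M il r) :=
  have hp := ph2_in hγ h0 hl hr h
  frc_ub (grd_ub hp fun p0 =>
    (div_in (div_in one_in (sqrt_in hr)) hp).ub.mono (sq_le_env h0 hR n p0))

def iA2 (c M : ℕ) (il r : I) : I := frc (ib il) fun b =>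
  pt (imax r (add (div b (nat 2)) (mul (q c 20) (sqrt b)))) fun ρ =>
    ifb (le r ρ && le (mul ρ ρ) (mul b (mul (inu M il) (inu M il))))
      (frc (sub (mul (nat 2) (iE M il)) (add (div b ρ) (mul (ieta M il) ρ))) fun p =>
        grd p (frc (add (div (nat 1) (sqrt p))
            (mul (nat 2) (tsub (sqrt ρ) (sqrt (imax r (div b (nat 2))))))) fun t =>
          mul (sqrt r) (mul t t)))

theorem iA2_ub (hγ : γ ^ 2 ≤ 1) (h0 : 0 ≤ l) (hl : In l il) (hR : 0 < R) (hr : In R r)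
    (h : M ≤ n) (c : ℕ) : Ub (ff γ l n R ^ 2 * nu l n ^ 3) (iA2 c M il r) := by
  have hb := ib_in hl
  refine frc_ub (pt_ub fun ρ p hρ => ifb_ub fun hc => ?_)
  rw [Bool.and_eq_true] at hc
  have c1 := le_of hr hρ hc.1
  have c2 := le_of (sq_in hρ) (mul_in hb (sq_in (inu_in M hl))) hc.2
  have hP := sub_in (mul_in (lit_in 2) (EE_in hγ h0 hl h))
    (add_in (div_in hb hρ) (mul_in (ep_in (γ := γ) h0 hl h) hρ))
  refine frc_ub (grd_ub hP fun p0 => frc_ub ((mul_in (sqrt_in hr) (sq_in (add_in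
    (div_in one_in (sqrt_in hP)) (mul_in (lit_in 2) (tsub_in (sqrt_in hρ)
      (sqrt_in (imax_in hr (div_in hb (lit_in 2))))))))).ub.mono ?_))
  have hb0 : 0 < l * (l + 1) + 3 / 16 := by positivity
  have hρ0 : 0 < ρ := hR.trans_le c1
  have n1 := one_le_nu h0 M
  have n2 := nu_mono l h
  have n3 := nu_le_NN γ (by linarith : -1 < l) n
  have c3 : ρ ^ 2 ≤ (l * (l + 1) + 3 / 16) * NN γ l n ^ 2 := by
    refine c2.trans ?_
    gcongr
    linarith
  have h1 := env2 h0 n hR c1 p0 c3 (le_of_eq (by ring))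
  have h2 : (l * (l + 1) + 3 / 16) / 2 ≤ ρ := by
    have e1 := EE_le_one (γ := γ) (by linarith : -1 < l) n
    have e2 := mul_nonneg (neg_ep_le (γ := γ) h0 h).1 hρ0.le
    have e3 : (l * (l + 1) + 3 / 16) / ρ ≤ 2 := by linarith
    rw [div_le_iff₀ hρ0] at e3
    linarith
  have h3 : 0 ≤ √ρ - √(max R ((l * (l + 1) + 3 / 16) / 2)) :=
    sub_nonneg.mpr (Real.sqrt_le_sqrt (max_le c1 h2))
  rw [max_eq_right h3]
  have n4 : 0 < nu l n := by linarith
  refine (mul_le_mul_of_nonneg_right h1 (by positivity)).trans_eq ?_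
  field_simp

theorem rpow_le_lin {x f : ℝ} (hx : 0 ≤ x) (f0 : 0 ≤ f) (f1 : f ≤ 1) : x ^ f ≤ 1 - f + f * x := by
  have := Real.geom_mean_le_arith_mean2_weighted (w₁ := 1 - f) (w₂ := f) (p₁ := 1) (p₂ := x)
    (by linarith) f0 zero_le_one hx (by ring)
  rwa [Real.one_rpow, one_mul, mul_one] at this

theorem sq_le_small (h0 : 0 ≤ l) (hR : 0 < R) (n : ℕ) (h : 2 * R ≤ (l + 1) ^ 2) {a : ℕ} {f : ℝ}
    (f0 : 0 ≤ f) (f1 : f ≤ 1) (e0 : 2 * l = a + f) :
    ff γ l n R ^ 2 * nu l n ^ 3 ≤ (2 * R) ^ (a + 2) * (max 0 (1 - f) + f * (2 * R))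
      * ((f + max 0 (1 - f) * ((a + 2 : ℕ) + f)) / ((a + 2).factorial : ℝ)) ^ 2 := by
  rw [max_eq_right (by linarith : (0 : ℝ) ≤ 1 - f)]
  have h1 := (ff_logder (γ := γ) h0 n hR h).1
  have h2 := (ff_small (γ := γ) h0 n hR h).1
  have h3 := c0_sq_le (γ := γ) h0 n
  have n4 : 0 < nu l n := by linarith [one_le_nu h0 n]
  have a0 : (0 : ℝ) ≤ a := Nat.cast_nonneg a
  have hF : (0 : ℝ) < ((a + 2).factorial : ℕ) := by exact_mod_cast Nat.factorial_pos _
  have hG0 : 0 < Real.Gamma (2 * l + 2) := Real.Gamma_pos_of_pos (by linarith)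
  have hG : 1 / Real.Gamma (2 * l + 2)
      ≤ (f + (1 - f) * ((a + 2 : ℕ) + f)) / ((a + 2).factorial : ℝ) := by
    have g1 := le_Gamma_shift' (x := a + 2) (by linarith) f0 f1
    have g2 : Real.Gamma (a + 2) * (a + 2) = ((a + 2).factorial : ℝ) := by
      rw [← Real.Gamma_nat_eq_factorial, mul_comm, ← Real.Gamma_add_one (by linarith)]
      push_cast; ring_nf
    have g3 := rpow_le_lin (x := a + 2 + f) (f := 1 - f) (by linarith) (by linarith) (by linarith)
    have g4 : ((a : ℝ) + 2 + f) ^ (f - 1) * (a + 2 + f) ^ (1 - f) = 1 := by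
      rw [← Real.rpow_add (by linarith)]; simp
    have g5 : 0 < ((a : ℝ) + 2 + f) ^ (1 - f) := Real.rpow_pos_of_pos (by linarith) _
    rw [g2, show (a : ℝ) + 2 + f = 2 * l + 2 by linarith] at g1
    rw [show (a : ℝ) + 2 + f = 2 * l + 2 by linarith] at g3 g4 g5
    rw [div_le_div_iff₀ hG0 hF, one_mul]
    have g6 := mul_le_mul_of_nonneg_right g1 g5.le
    rw [mul_assoc, g4, mul_one] at g6
    refine g6.trans ?_
    rw [mul_comm]
    gcongr
    push_cast
    rw [show (a : ℝ) + 2 + f = 2 * l + 2 by linarith]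
    linarith
  have hp : (2 * R) ^ (2 * l + 2) ≤ (2 * R) ^ (a + 2) * (1 - f + f * (2 * R)) := by
    rw [show 2 * l + 2 = ((a + 2 : ℕ) : ℝ) + f by push_cast; linarith,
      Real.rpow_add (by linarith), Real.rpow_natCast]
    gcongr
    exact rpow_le_lin (by linarith) f0 f1
  have e : (R ^ (l + 1)) ^ 2 = R ^ (2 * l + 2) := by
    rw [← Real.rpow_natCast, ← Real.rpow_mul hR.le]; congr 1; push_cast; ring
  have hR2 : 0 < R ^ (2 * l + 2) := Real.rpow_pos_of_pos hR _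
  have hq : 0 ≤ (2 * R) ^ (a + 2) * (1 - f + f * (2 * R)) :=
    (Real.rpow_pos_of_pos (by linarith) _).le.trans hp
  calc _ ≤ (c0 γ l n * R ^ (l + 1)) ^ 2 * nu l n ^ 3 := by gcongr
    _ = c0 γ l n ^ 2 * R ^ (2 * l + 2) * nu l n ^ 3 := by rw [mul_pow, e]
    _ ≤ 2 ^ (2 * l + 2) / (Real.Gamma (2 * l + 2) ^ 2 * nu l n ^ 3) * R ^ (2 * l + 2)
          * nu l n ^ 3 := by gcongr
    _ = (2 * R) ^ (2 * l + 2) * (1 / Real.Gamma (2 * l + 2)) ^ 2 := by
          rw [Real.mul_rpow (by norm_num) hR.le]; field_simp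
    _ ≤ _ := by gcongr

def iS (a : ℕ) (f x : I) : I := frc (tsub (nat 1) f) fun g =>
  frc (div (add f (mul g (add (nat (a + 2)) f))) (nat (a + 2).factorial)) fun t =>
    mul (mul (ipow x (a + 2)) (add g (mul f x))) (mul t t)

theorem iS_ub (h0 : 0 ≤ l) (hR : 0 < R) (n : ℕ) (h : 2 * R ≤ (l + 1) ^ 2) {a : ℕ} {f : ℝ}
    (f0 : 0 ≤ f) (f1 : f ≤ 1) (e0 : 2 * l = a + f) {fi x : I} (hf : In f fi) (hx : In (2 * R) x) :
    Ub (ff γ l n R ^ 2 * nu l n ^ 3) (iS a fi x) :=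
  have hg := tsub_in one_in hf
  frc_ub (frc_ub ((mul_in (mul_in (ipow_in hx _) (add_in hg (mul_in hf hx)))
    (sq_in (div_in (add_in hf (mul_in hg (add_in (nat_in _) hf))) (nat_in _)))).ub.mono
      (sq_le_small h0 hR n h f0 f1 e0)))

def iA3 (il r : I) : I :=
  ifb (le (mul (nat 2) r) (mul (add il (nat 1)) (add il (nat 1))))
    (I.casesOn il I.bad fun lo _ => frc (mul (nat 2) r) fun x => frc (add il il) fun y =>
      ifb (le y (nat (2 * lo / S + 2)))
        (umax (iS (2 * lo / S) (tsub y (nat (2 * lo / S))) x)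
          (Bool.casesOn (le y (nat (2 * lo / S + 1)))
            (iS (2 * lo / S + 1) (tsub y (nat (2 * lo / S + 1))) x) (I.iv 0 0))))

theorem iA3_ub (h0 : 0 ≤ l) (hl : In l il) (hR : 0 < R) (hr : In R r) (n : ℕ) :
    Ub (ff γ l n R ^ 2 * nu l n ^ 3) (iA3 il r) := by
  refine ifb_ub fun hc => ?_
  have hx := mul_in (lit_in 2) hr
  have hy := add_in hl hl
  have c1 := le_of hx (sq_in (add_in hl one_in)) hc
  cases il with
  | bad => exact ub_bad _
  | iv lo hi =>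
    obtain ⟨a1, -⟩ := in_iv.mp hl
    have hS := S_pos
    have a2 : ((2 * lo / S : ℕ) : ℝ) ≤ l + l := by
      refine Nat.cast_div_le.trans ?_
      rw [div_le_iff₀ hS]; push_cast; linarith
    refine frc_ub (frc_ub (ifb_ub fun hd => ?_))
    generalize 2 * lo / S = a at a2 hd ⊢
    have a3 := le_of hy (nat_in _) hd
    push_cast at a3
    rcases le_or_gt (l + l) (a + 1) with he | he
    · refine umax_left (iS_ub h0 hR n c1 (f := l + l - a) (by linarith) (by linarith) (by ring)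
        ((tsub_in hy (nat_in a)).congr (max_eq_right (by linarith)).symm) hx)
    · refine umax_right ?_
      cases hf : le (add (I.iv lo hi) (I.iv lo hi)) (nat (a + 1)) with
      | true =>
        have a4 := le_of hy (nat_in _) hf
        push_cast at a4
        linarith
      | false =>
        exact iS_ub h0 hR n c1 (f := l + l - (a + 1 : ℕ)) (by push_cast; linarith)
          (by push_cast; linarith) (by ring)
          ((tsub_in hy (nat_in (a + 1))).congr (max_eq_right (by push_cast; linarith)).symm) hx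

/-- bound for the square times the cube of `nu` -/
def iA (M : ℕ) (il r : I) : I :=
  umin (iA1 M il r) (umin (umin (iA2 8 M il r) (iA2 15 M il r)) (iA3 il r))

theorem iA_ub (hγ : γ ^ 2 ≤ 1) (h0 : 0 ≤ l) (hl : In l il) (hR : 0 < R) (hr : In R r)
    (h : M ≤ n) : Ub (ff γ l n R ^ 2 * nu l n ^ 3) (iA M il r) :=
  umin_ub (iA1_ub hγ h0 hl hR hr h) (umin_ub (umin_ub (iA2_ub hγ h0 hl hR hr h 8)
    (iA2_ub hγ h0 hl hR hr h 15)) (iA3_ub h0 hl hR hr n))

end Pool.Agent.Lib.MP_2347b2_mp.F.Iv
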