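import Pool.Agent.Lib.MP_2347b2_mp.F.NEa

/-!
Bounds for the tails of the sums over the number of nodes.
-/

namespace Pool.Agent.Lib.MP_2347b2_mp.F.Iv

variable {γ l R : ℝ} {il is r : I} {M n m k : ℕ}

theorem bt_up (h0 : 0 ≤ l) (n : ℕ) : bt γ l n R * nu l n ^ 3
    ≤ max 0 (R - (l * (l + 1) + γ ^ 2) * EE γ l n) * (ff γ l n R ^ 2 * nu l n ^ 3) := by
  have h1 := EE_le_one (γ := γ) (by linarith : -1 < l) n
  have h2 := EE_pos (γ := γ) (by linarith : -1 < l) n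
  have h3 : 0 ≤ ff γ l n R ^ 2 * nu l n ^ 3 := by
    have := one_le_nu h0 n
    positivity
  unfold bt
  rw [mul_assoc]
  refine mul_le_mul_of_nonneg_right ?_ h3
  calc _ ≤ max 0 (R - (l * (l + 1) + γ ^ 2) * EE γ l n) * EE γ l n := by
        gcongr; exact le_max_right _ _
    _ ≤ max 0 (R - (l * (l + 1) + γ ^ 2) * EE γ l n) * 1 :=
        mul_le_mul_of_nonneg_left h1 (le_max_left _ _)
    _ = _ := mul_one _

theorem bt_dn (h0 : 0 ≤ l) (n : ℕ) : -bt γ l n R * nu l n ^ 3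
    ≤ max 0 (l * (l + 1) + γ ^ 2 - R) * (ff γ l n R ^ 2 * nu l n ^ 3) := by
  have h1 := EE_le_one (γ := γ) (by linarith : -1 < l) n
  have h2 := EE_pos (γ := γ) (by linarith : -1 < l) n
  have h3 : 0 ≤ ff γ l n R ^ 2 * nu l n ^ 3 := by
    have := one_le_nu h0 n
    positivity
  have h4 : 0 ≤ l * (l + 1) + γ ^ 2 := by positivity
  have e : -bt γ l n R * nu l n ^ 3 = ((l * (l + 1) + γ ^ 2) * EE γ l n - R) * EE γ l n
      * (ff γ l n R ^ 2 * nu l n ^ 3) := by unfold bt; ring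
  rw [e]
  refine mul_le_mul_of_nonneg_right ?_ h3
  have h5 := mul_le_mul_of_nonneg_left h1 h4
  calc _ ≤ max 0 (l * (l + 1) + γ ^ 2 - R) * EE γ l n := by
        gcongr; exact le_trans (by linarith) (le_max_right _ _)
    _ ≤ max 0 (l * (l + 1) + γ ^ 2 - R) * 1 := mul_le_mul_of_nonneg_left h1 (le_max_left _ _)
    _ = _ := mul_one _

theorem kk2_in (k : ℕ) : In ((k : ℝ) ^ 2) (nat (k * k)) := (nat_in _).congr (by push_cast; ring)

/-- bound for minus one term of the lower family -/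
def iU (k M : ℕ) (is r : I) : I :=
  mul (mulz (tsub (sub (nat (k * k)) is) r) (iA M (sub is (nat 1)) r)) (div (nat k) is)

theorem iU_ub (h0 : 0 < γ) (h1 : γ < 1) (hk : 2 ≤ k) (hs : In (sOf γ k) is) (hR : 0 < R)
    (hr : In R r) (h : M ≤ n) :
    Ub (-(ck γ k * bt γ (sOf γ k - 1) n R) * nu (sOf γ k - 1) n ^ 3) (iU k M is r) := by
  have hk' : (2 : ℝ) ≤ k := by exact_mod_cast hk
  have s1 := le_sk' h0 h1 hk
  have s2 := sk_sq h0 h1 (by omega : 1 ≤ k)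
  have l0 : 0 ≤ sOf γ k - 1 := by linarith
  refine ((mulz_ub (tsub_in (sub_in (kk2_in k) hs) hr) (iA_ub (γ := γ) (by nlinarith) l0
    (sub_in hs one_in) hR hr h)).mul (div_in (nat_in k) hs)).mono ?_
  have h2 := bt_dn (γ := γ) (R := R) l0 n
  have e : (sOf γ k - 1) * (sOf γ k - 1 + 1) + γ ^ 2 = k ^ 2 - sOf γ k := by linarith
  rw [e] at h2
  have hc : 0 ≤ (k : ℝ) / sOf γ k := div_nonneg (by linarith) (by linarith)
  refine le_trans (le_of_eq ?_) (mul_le_mul_of_nonneg_right h2 hc)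
  unfold ck; ring

/-- bound for one term of the upper family -/
def iV (k M : ℕ) (is r : I) : I :=
  mul (mulz (tsub r (mul (add (nat (k * k)) is) (iE M is))) (iA M is r)) (div (nat k) is)

theorem iV_ub (h0 : 0 < γ) (h1 : γ < 1) (hk : 1 ≤ k) (hs : In (sOf γ k) is) (hR : 0 < R)
    (hr : In R r) (h : M ≤ n) :
    Ub (ck γ k * bt γ (sOf γ k) n R * nu (sOf γ k) n ^ 3) (iV k M is r) := by
  have s1 := sk_pos h0 h1 hk
  have s2 := sk_sq h0 h1 hk
  have g1 : γ ^ 2 ≤ 1 := by nlinarith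
  refine ((mulz_ub (tsub_in hr (mul_in (add_in (kk2_in k) hs) (EE_in g1 s1.le hs h)))
    (iA_ub g1 s1.le hs hR hr h)).mul (div_in (nat_in k) hs)).mono ?_
  have h2 := bt_up (γ := γ) (R := R) s1.le n
  have e : sOf γ k * (sOf γ k + 1) + γ ^ 2 = k ^ 2 + sOf γ k := by linarith
  rw [e] at h2
  have hc : 0 ≤ (k : ℝ) / sOf γ k := by positivity
  refine le_trans (le_of_eq ?_) (mul_le_mul_of_nonneg_right h2 hc)
  unfold ck; ring

def iT3 (k M : ℕ) (is r : I) : I := ifb (Nat.ble 2 k) (add (iV k M is r) (iU k (M + 1) is r))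

theorem iT3_ub (h0 : 0 < γ) (h1 : γ < 1) (hk : 1 ≤ k) (hs : In (sOf γ k) is) (hR : 0 < R)
    (hr : In R r) (h : M ≤ m) : Ub (Tp γ k m R * nu (sOf γ k) m ^ 3) (iT3 k M is r) := by
  refine ifb_ub fun hc => ((iV_ub h0 h1 hk hs hR hr h).add
    (iU_ub h0 h1 (Nat.le_of_ble_eq_true hc) hs hR hr (Nat.succ_le_succ h))).mono (le_of_eq ?_)
  rw [Tp_eq h0 h1 hk m hR, nu_shift]
  ring

theorem quad_le {s β p w v : ℝ} (hp : 0 < p) :
    |s * (w ^ 2 - p * v ^ 2) + β * (v * w)| ≤ √(s ^ 2 + β ^ 2 / (4 * p)) * (w ^ 2 + p * v ^ 2) := by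
  have h1 : 0 ≤ w ^ 2 + p * v ^ 2 := by positivity
  have h2 : 0 ≤ s ^ 2 + β ^ 2 / (4 * p) := by positivity
  refine abs_le_of_sq_le_sq' ?_ (by positivity) |> abs_le.mpr
  rw [mul_pow, Real.sq_sqrt h2]
  have e : (s ^ 2 + β ^ 2 / (4 * p)) * (w ^ 2 + p * v ^ 2) ^ 2
      - (s * (w ^ 2 - p * v ^ 2) + β * (v * w)) ^ 2
      = p * (s * (2 * v * w) - β * (w ^ 2 - p * v ^ 2) / (2 * p)) ^ 2 := by
    field_simp; ring
  have h3 : 0 ≤ p * (s * (2 * v * w) - β * (w ^ 2 - p * v ^ 2) / (2 * p)) ^ 2 := by positivity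
  linarith

theorem Tp_env (h0 : 0 < γ) (h1 : γ < 1) (hk : 1 ≤ k) (hR : 0 < R) (m : ℕ)
    (hp : 0 < ph2 γ (sOf γ k) m R) :
    Tp γ k m R * nu (sOf γ k) m ^ 3 ≤
      (|R - (k ^ 2 - sOf γ k) * EE γ (sOf γ k) m|
          * √(sOf γ k ^ 2 + |(sOf γ k / 2 + 2 * sOf γ k ^ 2) / R - 2 * EE γ (sOf γ k) m| ^ 2
            / (4 * ph2 γ (sOf γ k) m R)) / (1 - k ^ 2 * -ep γ (sOf γ k) m)
        + max 0 (max 0 (R - (k ^ 2 - sOf γ k) * EE γ (sOf γ k) m)
            * (EE γ (sOf γ k) m / (2 * R) + (sOf γ k ^ 2 / 2 + sOf γ k / 8) / R ^ 2)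
            / (1 - k ^ 2 * -ep γ (sOf γ k) m) - 2 * EE γ (sOf γ k) m) / ph2 γ (sOf γ k) m R)
        * (k / √R) := by
  have s1 := sk_pos h0 h1 hk
  have a1 := a2_pos h0 h1 hk m
  have a2 : 0 < 1 + k ^ 2 * ep γ (sOf γ k) m := lt_of_lt_of_le (by positivity) a1
  have e1 := EE_le_one (γ := γ) (by linarith : -1 < sOf γ k) m
  have e2 := EE_pos (γ := γ) (by linarith : -1 < sOf γ k) m
  have t1 := env' (γ := γ) s1.le hR m
  have t2 := sq_le_env s1.le hR m hp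
  have n1 : 0 < nu (sOf γ k) m ^ 3 := by have := one_le_nu s1.le m; positivity
  have ea : 1 - k ^ 2 * -ep γ (sOf γ k) m = 1 + k ^ 2 * ep γ (sOf γ k) m := by ring
  rw [ea, sq_abs]
  have hq := quad_le (s := sOf γ k) (β := (sOf γ k / 2 + 2 * sOf γ k ^ 2) / R - 2 * EE γ (sOf γ k) m)
    (w := fd γ (sOf γ k) m R - ff γ (sOf γ k) m R / (4 * R)) (v := ff γ (sOf γ k) m R) hp
  have eY : YY γ k m R = (sOf γ k * ((fd γ (sOf γ k) m R - ff γ (sOf γ k) m R / (4 * R)) ^ 2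
        - ph2 γ (sOf γ k) m R * ff γ (sOf γ k) m R ^ 2)
      + ((sOf γ k / 2 + 2 * sOf γ k ^ 2) / R - 2 * EE γ (sOf γ k) m)
        * (ff γ (sOf γ k) m R * (fd γ (sOf γ k) m R - ff γ (sOf γ k) m R / (4 * R)))
      - (EE γ (sOf γ k) m / (2 * R) + (sOf γ k ^ 2 / 2 + sOf γ k / 8) / R ^ 2)
        * ff γ (sOf γ k) m R ^ 2) / (1 + k ^ 2 * ep γ (sOf γ k) m) := by
    unfold YY ph2
    congr 1
    field_simp
    ring
  have hκ : 0 ≤ EE γ (sOf γ k) m / (2 * R) + (sOf γ k ^ 2 / 2 + sOf γ k / 8) / R ^ 2 := by positivity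
  have hL := Real.sqrt_nonneg (sOf γ k ^ 2
    + ((sOf γ k / 2 + 2 * sOf γ k ^ 2) / R - 2 * EE γ (sOf γ k) m) ^ 2 / (4 * ph2 γ (sOf γ k) m R))
  unfold Tp
  rw [eY]
  generalize √(sOf γ k ^ 2 + ((sOf γ k / 2 + 2 * sOf γ k ^ 2) / R - 2 * EE γ (sOf γ k) m) ^ 2
    / (4 * ph2 γ (sOf γ k) m R)) = L at hq hL ⊢
  generalize sOf γ k * ((fd γ (sOf γ k) m R - ff γ (sOf γ k) m R / (4 * R)) ^ 2
        - ph2 γ (sOf γ k) m R * ff γ (sOf γ k) m R ^ 2)
      + ((sOf γ k / 2 + 2 * sOf γ k ^ 2) / R - 2 * EE γ (sOf γ k) m)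
        * (ff γ (sOf γ k) m R * (fd γ (sOf γ k) m R - ff γ (sOf γ k) m R / (4 * R))) = Q at hq ⊢
  generalize EE γ (sOf γ k) m / (2 * R) + (sOf γ k ^ 2 / 2 + sOf γ k / 8) / R ^ 2 = κ at hκ ⊢
  have eG : (k ^ 2 - sOf γ k) * EE γ (sOf γ k) m - R
      = -(R - (k ^ 2 - sOf γ k) * EE γ (sOf γ k) m) := by ring
  rw [eG]
  generalize R - (k ^ 2 - sOf γ k) * EE γ (sOf γ k) m = G
  generalize (fd γ (sOf γ k) m R - ff γ (sOf γ k) m R / (4 * R)) ^ 2
    + ph2 γ (sOf γ k) m R * ff γ (sOf γ k) m R ^ 2 = T at hq t1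
  have v0 : 0 ≤ ff γ (sOf γ k) m R ^ 2 := sq_nonneg _
  generalize ff γ (sOf γ k) m R ^ 2 = V at t2 v0 ⊢
  generalize 1 + k ^ 2 * ep γ (sOf γ k) m = a at a2 ⊢
  generalize EE γ (sOf γ k) m = E at e1 e2 ⊢
  generalize nu (sOf γ k) m ^ 3 = c at n1 t1 t2 ⊢
  generalize ph2 γ (sOf γ k) m R = p at hp t2 ⊢
  have hs : 0 < √R := Real.sqrt_pos.mpr hR
  have k0 : (0 : ℝ) ≤ k := Nat.cast_nonneg k
  have hLT : 0 ≤ L * T := (abs_nonneg _).trans hq
  have b1 : -G * Q ≤ |G| * (L * T) := by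
    refine (le_abs_self _).trans ?_
    rw [abs_mul, abs_neg]
    gcongr
  have b2 : G * κ * V ≤ max 0 G * κ * V := by gcongr; exact le_max_right _ _
  have b3 : -G * ((Q - κ * V) / a) - 2 * E * V
      ≤ |G| * (L * T) / a + max 0 (max 0 G * κ / a - 2 * E) * V := by
    have c1 : -G * ((Q - κ * V) / a) = (-G * Q + G * κ * V) / a := by ring
    have c2 : (-G * Q + G * κ * V) / a ≤ (|G| * (L * T) + max 0 G * κ * V) / a := by
      gcongr (?_ + ?_) / a
    have c3 : (max 0 G * κ / a - 2 * E) * V ≤ max 0 (max 0 G * κ / a - 2 * E) * V := by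
      gcongr; exact le_max_right _ _
    have c4 : (|G| * (L * T) + max 0 G * κ * V) / a
        = |G| * (L * T) / a + max 0 G * κ / a * V := by ring
    linarith
  have b4 : 0 ≤ |G| * (L * T) / a + max 0 (max 0 G * κ / a - 2 * E) * V := by positivity
  have b5 : |G| * L / a * (T * c) ≤ |G| * L / a * (1 / √R) := by gcongr
  have b6 : max 0 (max 0 G * κ / a - 2 * E) * (V * c)
      ≤ max 0 (max 0 G * κ / a - 2 * E) * (1 / √R / p) := by gcongr
  calc _ ≤ k * E * (|G| * (L * T) / a + max 0 (max 0 G * κ / a - 2 * E) * V) * c := by gcongr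
    _ ≤ k * 1 * (|G| * (L * T) / a + max 0 (max 0 G * κ / a - 2 * E) * V) * c := by gcongr
    _ = k * (|G| * L / a * (T * c) + max 0 (max 0 G * κ / a - 2 * E) * (V * c)) := by ring
    _ ≤ k * (|G| * L / a * (1 / √R) + max 0 (max 0 G * κ / a - 2 * E) * (1 / √R / p)) := by
        gcongr k * ?_; linarith
    _ = _ := by ring

/-- enclosure of `1 + k ^ 2 ep` -/
def ia2 (k M : ℕ) (is : I) : I := sub (nat 1) (mul (nat (k * k)) (ieta M is))

theorem ia2_in (h0 : 0 ≤ l) (hl : In l il) (h : M ≤ n) (k : ℕ) :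
    In (1 - k ^ 2 * -ep γ l n) (ia2 k M il) := sub_in one_in (mul_in (kk2_in k) (ep_in h0 hl h))

/-- enclosure of `(k ^ 2 - s) E` -/
def iG (k M : ℕ) (is : I) : I := mul (tsub (nat (k * k)) is) (iE M is)

theorem iG_in (h0 : 0 < γ) (h1 : γ < 1) (hk : 1 ≤ k) (hs : In (sOf γ k) is) (h : M ≤ m) :
    In ((k ^ 2 - sOf γ k) * EE γ (sOf γ k) m) (iG k M is) := by
  have hk' : (1 : ℝ) ≤ k := by exact_mod_cast hk
  have s1 := sk_le h0 h1 hk
  refine (mul_in (tsub_in (kk2_in k) hs)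
    (EE_in (γ := γ) (by nlinarith) (sk_pos h0 h1 hk).le hs h)).congr ?_
  rw [max_eq_right (by nlinarith)]

def iT1 (k M : ℕ) (is r : I) : I :=
  frc (iph2 M is r) fun p => grd p (frc (iE M is) fun e => frc (iG k M is) fun g =>
    frc (ia2 k M is) fun a => frc (mul is is) fun s2 =>
    frc (adiff (div (add (div is (nat 2)) (mul (nat 2) s2)) r) (mul (nat 2) e)) fun b =>
      mul (add (div (mul (adiff r g) (sqrt (add s2 (div (mul b b) (mul (nat 4) p))))) a)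
        (div (tsub (div (mul (tsub r g) (add (div e (mul (nat 2) r))
          (div (add (div s2 (nat 2)) (div is (nat 8))) (mul r r)))) a) (mul (nat 2) e)) p))
        (div (nat k) (sqrt r)))

theorem iT1_ub (h0 : 0 < γ) (h1 : γ < 1) (hk : 1 ≤ k) (hs : In (sOf γ k) is) (hR : 0 < R)
    (hr : In R r) (h : M ≤ m) : Ub (Tp γ k m R * nu (sOf γ k) m ^ 3) (iT1 k M is r) :=
  have g1 : γ ^ 2 ≤ 1 := by nlinarith
  have s1 := (sk_pos h0 h1 hk).le
  have hp := ph2_in g1 s1 hs hr h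
  have he := EE_in g1 s1 hs h
  have hg := iG_in h0 h1 hk hs h
  have ha := ia2_in (γ := γ) s1 hs h k
  have h2 := sq_in hs
  have hb := adiff_in (div_in (add_in (div_in hs (lit_in 2)) (mul_in (lit_in 2) h2)) hr)
    (mul_in (lit_in 2) he)
  frc_ub (grd_ub hp fun p0 => frc_ub (frc_ub (frc_ub (frc_ub (frc_ub ((mul_in (add_in
    (div_in (mul_in (adiff_in hr hg) (sqrt_in (add_in h2 (div_in (sq_in hb)
      (mul_in (lit_in 4) hp))))) ha)
    (div_in (tsub_in (div_in (mul_in (tsub_in hr hg) (add_in (div_in he (mul_in (lit_in 2) hr))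
      (div_in (add_in (div_in h2 (lit_in 2)) (div_in hs (lit_in 8))) (sq_in hr)))) ha)
      (mul_in (lit_in 2) he)) hp))
    (div_in (nat_in k) (sqrt_in hr))).ub.mono (Tp_env h0 h1 hk hR m p0)))))))

theorem Tp_small (h0 : 0 < γ) (h1 : γ < 1) (hk : 1 ≤ k) (hR : 0 < R) (m : ℕ) {t : ℝ} (ht : 0 ≤ t)
    (hd : R * fd γ (sOf γ k) m R = (t - sOf γ k) * ff γ (sOf γ k) m R) :
    Tp γ k m R * nu (sOf γ k) m ^ 3 ≤ k * max 0
      ((max 0 ((k ^ 2 - sOf γ k) * EE γ (sOf γ k) m - R)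
          * (t * max 0 (sOf γ k * t - 2 * EE γ (sOf γ k) m * R)
            + sOf γ k * -ep γ (sOf γ k) m * R ^ 2)
        + max 0 (R - (k ^ 2 - sOf γ k) * EE γ (sOf γ k) m)
          * (t * max 0 (2 * EE γ (sOf γ k) m * R - sOf γ k * t)))
        / ((1 - k ^ 2 * -ep γ (sOf γ k) m) * R ^ 2) - 2 * EE γ (sOf γ k) m)
      * (ff γ (sOf γ k) m R ^ 2 * nu (sOf γ k) m ^ 3) := by
  have s1 := sk_pos h0 h1 hk
  have a1 := a2_pos h0 h1 hk m
  have a2 : 0 < 1 + k ^ 2 * ep γ (sOf γ k) m := lt_of_lt_of_le (by positivity) a1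
  have e1 := EE_le_one (γ := γ) (by linarith : -1 < sOf γ k) m
  have e2 := EE_pos (γ := γ) (by linarith : -1 < sOf γ k) m
  have e3 := (neg_ep_le (γ := γ) s1.le (le_refl m)).1
  have n1 : 0 < nu (sOf γ k) m ^ 3 := by have := one_le_nu s1.le m; positivity
  have ea : 1 - k ^ 2 * -ep γ (sOf γ k) m = 1 + k ^ 2 * ep γ (sOf γ k) m := by ring
  rw [ea]
  have ed : fd γ (sOf γ k) m R = (t - sOf γ k) * ff γ (sOf γ k) m R / R := by
    rw [← hd]; field_simp
  have eY : YY γ k m R = (t * (sOf γ k * t - 2 * EE γ (sOf γ k) m * R)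
      + sOf γ k * -ep γ (sOf γ k) m * R ^ 2) / ((1 + k ^ 2 * ep γ (sOf γ k) m) * R ^ 2)
        * ff γ (sOf γ k) m R ^ 2 := by
    unfold YY
    rw [ed]
    field_simp
    ring
  have hz : 0 ≤ sOf γ k * -ep γ (sOf γ k) m * R ^ 2 := by positivity
  have ez : 2 * EE γ (sOf γ k) m * R - sOf γ k * t
      = -(sOf γ k * t - 2 * EE γ (sOf γ k) m * R) := by ring
  have eG : R - (k ^ 2 - sOf γ k) * EE γ (sOf γ k) m
      = -((k ^ 2 - sOf γ k) * EE γ (sOf γ k) m - R) := by ring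
  unfold Tp
  rw [eY, ez, eG]
  generalize sOf γ k * -ep γ (sOf γ k) m * R ^ 2 = z at hz ⊢
  generalize sOf γ k * t - 2 * EE γ (sOf γ k) m * R = y
  generalize (k ^ 2 - sOf γ k) * EE γ (sOf γ k) m - R = G
  have v0 : 0 ≤ ff γ (sOf γ k) m R ^ 2 := sq_nonneg _
  generalize ff γ (sOf γ k) m R ^ 2 = V at v0 ⊢
  have a3 : 0 < (1 + k ^ 2 * ep γ (sOf γ k) m) * R ^ 2 := by positivity
  generalize (1 + k ^ 2 * ep γ (sOf γ k) m) * R ^ 2 = a at a3 ⊢
  generalize EE γ (sOf γ k) m = E at e1 e2 ⊢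
  generalize nu (sOf γ k) m ^ 3 = c at n1 ⊢
  have k0 : (0 : ℝ) ≤ k := Nat.cast_nonneg k
  have b1 : G * (t * y + z) ≤ max 0 G * (t * max 0 y + z) + max 0 (-G) * (t * max 0 (-y)) := by
    have y1 : t * y ≤ t * max 0 y := by gcongr; exact le_max_right _ _
    have y2 : t * -y ≤ t * max 0 (-y) := by gcongr; exact le_max_right _ _
    rcases le_total 0 G with hG | hG
    · rw [max_eq_right hG, max_eq_left (a := 0) (b := -G) (by linarith), zero_mul, add_zero]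
      gcongr
    · rw [max_eq_left hG, max_eq_right (a := 0) (b := -G) (by linarith), zero_mul, zero_add]
      have y3 : -G * (t * -y) ≤ -G * (t * max 0 (-y)) :=
        mul_le_mul_of_nonneg_left y2 (by linarith)
      have y4 : G * z ≤ 0 := mul_nonpos_of_nonpos_of_nonneg hG hz
      linarith
  have b2 : G * (t * y + z) / a - 2 * E ≤ max 0
      ((max 0 G * (t * max 0 y + z) + max 0 (-G) * (t * max 0 (-y))) / a - 2 * E) := by
    refine le_trans ?_ (le_max_right _ _)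
    gcongr
  have b3 := le_max_left 0
    ((max 0 G * (t * max 0 y + z) + max 0 (-G) * (t * max 0 (-y))) / a - 2 * E)
  generalize max 0 ((max 0 G * (t * max 0 y + z) + max 0 (-G) * (t * max 0 (-y))) / a - 2 * E)
    = X at b2 b3 ⊢
  calc _ = k * E * (G * (t * y + z) / a - 2 * E) * (V * c) := by ring
    _ ≤ k * E * X * (V * c) := by gcongr
    _ ≤ k * 1 * X * (V * c) := by gcongr
    _ = _ := by ring

def iT2 (k M : ℕ) (is r : I) : I := frc (add is (nat 1)) fun s1 =>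
  ifb (le (mul (nat 2) r) (mul s1 s1))
    (frc (span (add is (sqrt (tsub (mul s1 s1) (mul (nat 2) r)))) (add is s1)) fun t =>
      frc (iE M is) fun e => frc (iG k M is) fun g => frc (mul (mul (nat 2) e) r) fun x =>
      frc (mul is t) fun y =>
      mulz (mul (nat k) (tsub (div (add
          (mul (tsub g r) (add (mul t (tsub y x)) (mul (mul is (ieta M is)) (mul r r))))
          (mul (tsub r g) (mul t (tsub x y)))) (mul (ia2 k M is) (mul r r))) (mul (nat 2) e)))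
        (iA M is r))

theorem iT2_ub (h0 : 0 < γ) (h1 : γ < 1) (hk : 1 ≤ k) (hs : In (sOf γ k) is) (hR : 0 < R)
    (hr : In R r) (h : M ≤ m) : Ub (Tp γ k m R * nu (sOf γ k) m ^ 3) (iT2 k M is r) := by
  have g1 : γ ^ 2 ≤ 1 := by nlinarith
  have s1 := (sk_pos h0 h1 hk).le
  have he := EE_in g1 s1 hs h
  have hg := iG_in h0 h1 hk hs h
  have h2 := add_in hs one_in
  have h3 := mul_in (lit_in 2) hr
  refine frc_ub (ifb_ub fun hc => ?_)
  have c1 := le_of h3 (sq_in h2) hc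
  obtain ⟨v1, v2⟩ := ff_logder (γ := γ) s1 m hR c1
  have v3 := (ff_small (γ := γ) s1 m hR c1).2
  have q0 := Real.sqrt_nonneg ((sOf γ k + 1) ^ 2 - 2 * R)
  have t1 : √((sOf γ k + 1) ^ 2 - 2 * R) ≤ R * fd γ (sOf γ k) m R / ff γ (sOf γ k) m R := by
    rw [le_div_iff₀ v1]; exact v2
  have t2 : R * fd γ (sOf γ k) m R / ff γ (sOf γ k) m R ≤ sOf γ k + 1 := by
    rw [div_le_iff₀ v1]; exact v3
  have ht : In (sOf γ k + R * fd γ (sOf γ k) m R / ff γ (sOf γ k) m R) _ :=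
    span_in (add_in hs (sqrt_in (tsub_in (sq_in h2) h3))) (add_in hs h2)
      (by rw [max_eq_right (by linarith)]; linarith) (by linarith)
  have hx := mul_in (mul_in (lit_in 2) he) hr
  have hy := mul_in hs ht
  refine frc_ub (frc_ub (frc_ub (frc_ub (frc_ub ((mulz_ub (mul_in (nat_in k) (tsub_in (div_in
    (add_in (mul_in (tsub_in hg hr) (add_in (mul_in ht (tsub_in hy hx))
        (mul_in (mul_in hs (ep_in (γ := γ) s1 hs h)) (sq_in hr))))
      (mul_in (tsub_in hr hg) (mul_in ht (tsub_in hx hy))))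
    (mul_in (ia2_in (γ := γ) s1 hs h k) (sq_in hr))) (mul_in (lit_in 2) he)))
    (iA_ub g1 s1 hs hR hr h)).mono (Tp_small h0 h1 hk hR m (by linarith) ?_))))))
  field_simp
  ring

/-- bound for the tail of the pairs from `M` on -/
def tailT (k M : ℕ) (is r : I) : I :=
  itail (umin (iT1 k M is r) (umin (iT2 k M is r) (iT3 k M is r))) (inu M is)

theorem tailT_ub (h0 : 0 < γ) (h1 : γ < 1) (hk : 1 ≤ k) (hs : In (sOf γ k) is) (hR : 0 < R)
    (hr : In R r) (M : ℕ) : Ub (∑' m, Tp γ k (m + M) R) (tailT k M is r) := by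
  refine itail_ub ((summable_nat_add_iff M).mpr (summable_Tp h0 h1 hk hR))
    (one_le_nu (sk_pos h0 h1 hk).le M) (inu_in M hs) fun m => ?_
  have e : (m : ℝ) + nu (sOf γ k) M = nu (sOf γ k) (m + M) := by unfold nu; push_cast; ring
  rw [e]
  have h : M ≤ m + M := Nat.le_add_left _ _
  exact umin_ub (iT1_ub h0 h1 hk hs hR hr h)
    (umin_ub (iT2_ub h0 h1 hk hs hR hr h) (iT3_ub h0 h1 hk hs hR hr h))

/-- bound for the tail of the lower family from `M` on -/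
def tailB (k M : ℕ) (is r : I) : I := itail (iU k M is r) (inu M (sub is (nat 1)))

theorem tailB_ub (h0 : 0 < γ) (h1 : γ < 1) (hk : 2 ≤ k) (hs : In (sOf γ k) is) (hR : 0 < R)
    (hr : In R r) (M : ℕ) :
    Ub (∑' n, -(ck γ k * bt γ (sOf γ k - 1) (n + M) R)) (tailB k M is r) := by
  have hk' : (2 : ℝ) ≤ k := by exact_mod_cast hk
  have l0 : 0 ≤ sOf γ k - 1 := by linarith [le_sk' h0 h1 hk]
  refine itail_ub (((summable_nat_add_iff M).mpr (summable_bt l0 hR)).mul_left _).neg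
    (one_le_nu l0 M) (inu_in M (sub_in hs one_in)) fun n => ?_
  have e : (n : ℝ) + nu (sOf γ k - 1) M = nu (sOf γ k - 1) (n + M) := by
    unfold nu; push_cast; ring
  rw [e]
  exact iU_ub h0 h1 hk hs hR hr (Nat.le_add_left _ _)

/-- check of the bound `c / e` on the box `s1 / sd ≤ s ≤ s2 / sd`, `a / d ≤ R ≤ b / d` -/
def tailTChk (k M s1 s2 sd a b d c e : ℕ) : Bool :=
  le (frc (box s1 s2 sd) fun is => frc (box a b d) fun r => tailT k M is r) (q c e)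

theorem tailT_le {s1 s2 sd a b d c e : ℕ} (h : tailTChk k M s1 s2 sd a b d c e = true)
    (h0 : 0 < γ) (h1 : γ < 1) (hk : 1 ≤ k) (hs : (s1 : ℝ) / sd ≤ sOf γ k)
    (hs' : sOf γ k ≤ (s2 : ℝ) / sd) (hR : 0 < R) (ha : (a : ℝ) / d ≤ R) (hb : R ≤ (b : ℝ) / d) :
    ∑' m, Tp γ k (m + M) R ≤ (c : ℝ) / e := by
  have h2 : Ub _ (frc (box a b d) fun r => tailT k M (box s1 s2 sd) r) :=
    frc_ub (f := fun r => tailT k M (box s1 s2 sd) r)
      (tailT_ub h0 h1 hk (box_in hs hs') hR (box_in ha hb) M)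
  have h3 : Ub _ (frc (box s1 s2 sd) fun is => frc (box a b d) fun r => tailT k M is r) :=
    frc_ub (f := fun is => frc (box a b d) fun r => tailT k M is r) h2
  exact h3.le (q_in c e) h

def tailBChk (k M s1 s2 sd a b d c e : ℕ) : Bool :=
  le (frc (box s1 s2 sd) fun is => frc (box a b d) fun r => tailB k M is r) (q c e)

theorem tailB_le {s1 s2 sd a b d c e : ℕ} (h : tailBChk k M s1 s2 sd a b d c e = true)
    (h0 : 0 < γ) (h1 : γ < 1) (hk : 2 ≤ k) (hs : (s1 : ℝ) / sd ≤ sOf γ k)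
    (hs' : sOf γ k ≤ (s2 : ℝ) / sd) (hR : 0 < R) (ha : (a : ℝ) / d ≤ R) (hb : R ≤ (b : ℝ) / d) :
    ∑' n, -(ck γ k * bt γ (sOf γ k - 1) (n + M) R) ≤ (c : ℝ) / e := by
  have h2 : Ub _ (frc (box a b d) fun r => tailB k M (box s1 s2 sd) r) :=
    frc_ub (f := fun r => tailB k M (box s1 s2 sd) r)
      (tailB_ub h0 h1 hk (box_in hs hs') hR (box_in ha hb) M)
  have h3 : Ub _ (frc (box s1 s2 sd) fun is => frc (box a b d) fun r => tailB k M is r) :=
    frc_ub (f := fun is => frc (box a b d) fun r => tailB k M is r) h2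
  exact h3.le (q_in c e) h

end Pool.Agent.Lib.MP_2347b2_mp.F.Iv
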