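import Pool.Agent.Lib.MP_2347b2_mp.F.NumMc

/-!
Upper bounds in the interval kit.
-/

namespace Pool.Agent.Lib.MP_2347b2_mp.F.Iv

variable {x y z : ℝ} {i j : I}

/-- `x` is at most the upper end -/
def Ub (x : ℝ) : I → Prop
  | .bad => True
  | .iv _ h => S * x ≤ h

theorem ub_bad (x : ℝ) : Ub x I.bad := trivial

theorem ub_iv {l h : ℕ} : Ub x (I.iv l h) ↔ S * x ≤ h := Iff.rfl

theorem In.ub (h : In x i) : Ub x i := by
  cases i with
  | bad => trivial
  | iv l u => exact (in_iv.mp h).2

theorem Ub.mono (h : Ub y i) (hxy : x ≤ y) : Ub x i := by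
  cases i with
  | bad => trivial
  | iv l u => exact (mul_le_mul_of_nonneg_left hxy S_pos.le).trans h

theorem Ub.add (hx : Ub x i) (hy : Ub y j) : Ub (x + y) (add i j) := by
  cases i with
  | bad => trivial
  | iv l u =>
    cases j with
    | bad => trivial
    | iv l' u' =>
      change (S : ℝ) * (x + y) ≤ ((u + u' : ℕ) : ℝ)
      have h1 : S * x ≤ u := hx
      have h2 : S * y ≤ u' := hy
      push_cast
      linarith

theorem pt_in (h : ℕ) : In ((h : ℝ) / S) (I.iv h h) := by
  have e : (S : ℝ) * (h / S) = h := by have := S_pos; field_simp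
  exact in_iv.mpr ⟨e.ge, e.le⟩

theorem Ub.mul (hx : Ub x i) (hy : In y j) : Ub (x * y) (mul i j) := by
  cases i with
  | bad => trivial
  | iv l u =>
    cases j with
    | bad => trivial
    | iv l' u' =>
      have h0 := nn_of (in_iv.mp hy).1
      have h1 : x ≤ u / S := by rw [le_div_iff₀ S_pos, mul_comm]; exact hx
      have h2 : Ub ((u : ℝ) / S * y) (Iv.mul (I.iv u u) (I.iv l' u')) := (mul_in (pt_in u) hy).ub
      exact Ub.mono (i := Iv.mul (I.iv l u) (I.iv l' u')) h2 (mul_le_mul_of_nonneg_right h1 h0)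

theorem Ub.le (hx : Ub x i) (hy : In y j) (h : le i j = true) : x ≤ y := by
  cases i with
  | bad => exact absurd h (by simp [Iv.le])
  | iv l u =>
    cases j with
    | bad => exact absurd h (by simp [Iv.le])
    | iv l' u' =>
      have h1 : (u : ℝ) ≤ l' := by exact_mod_cast Nat.le_of_ble_eq_true h
      exact le_of_mul_le_mul_left ((ub_iv.mp hx).trans (h1.trans (in_iv.mp hy).1)) S_pos

theorem frc_ub {f : I → I} (h : Ub x (f i)) : Ub x (frc i f) := by
  cases i with
  | bad => trivial
  | iv l u => exact h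

/-- the better one of two upper bounds -/
def umin (i j : I) : I :=
  I.casesOn i j fun _ h => I.casesOn j (I.iv 0 h) fun _ h' => I.iv 0 (h - (h - h'))

theorem umin_ub (h1 : Ub x i) (h2 : Ub x j) : Ub x (umin i j) := by
  cases i with
  | bad => exact h2
  | iv l u =>
    cases j with
    | bad => exact h1
    | iv l' u' =>
      change S * x ≤ ((u - (u - u') : ℕ) : ℝ)
      rcases le_total u u' with h | h
      · rw [show u - (u - u') = u by omega]; exact h1
      · rw [show u - (u - u') = u' by omega]; exact h2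

/-- product that vanishes with its first factor -/
def mulz (i j : I) : I :=
  I.casesOn i I.bad fun l h => Bool.casesOn (Nat.ble 1 h) (I.iv 0 0) (mul j (I.iv l h))

theorem mulz_ub (hx : In x i) (hy : Ub y j) : Ub (x * y) (mulz i j) := by
  cases i with
  | bad => trivial
  | iv l u =>
    change Ub _ (Bool.casesOn (Nat.ble 1 u) (I.iv 0 0) (mul j (I.iv l u)))
    cases hu : Nat.ble 1 u with
    | true => rw [mul_comm]; exact hy.mul hx
    | false =>
      have h0 : u = 0 := by
        by_contra hc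
        have : Nat.ble 1 u = true := Nat.ble_eq_true_of_le (by omega)
        rw [hu] at this
        exact absurd this (by simp)
      have h1 := nn_of (in_iv.mp hx).1
      have h2 := (in_iv.mp hx).2
      rw [h0, Nat.cast_zero] at h2
      have h3 : x = 0 := by
        by_contra hc
        have := mul_pos S_pos (lt_of_le_of_ne h1 (Ne.symm hc))
        linarith
      change (S : ℝ) * (x * y) ≤ ((0 : ℕ) : ℝ)
      rw [h3]; simp

/-- the bound `j` under the condition that the first quantity is positive -/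
def grd (i j : I) : I := I.casesOn i I.bad fun l _ => Bool.casesOn (Nat.ble 1 l) I.bad j

theorem grd_ub (hx : In x i) (h : 0 < x → Ub z j) : Ub z (grd i j) := by
  cases i with
  | bad => trivial
  | iv l u =>
    change Ub _ (Bool.casesOn (Nat.ble 1 l) I.bad j)
    cases hl : Nat.ble 1 l with
    | false => trivial
    | true =>
      have h1 : (0 : ℝ) < l := by exact_mod_cast (Nat.le_of_ble_eq_true hl : 0 < l)
      exact h ((mul_pos_iff_of_pos_left S_pos).mp (h1.trans_le (in_iv.mp hx).1))

/-- the bound `j` under a checked condition -/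
def ifb (b : Bool) (j : I) : I := Bool.casesOn b I.bad j

theorem ifb_ub {b : Bool} (h : b = true → Ub z j) : Ub z (ifb b j) := by
  cases b with
  | false => trivial
  | true => exact h rfl

/-- use of the upper end as a point -/
def pt (i : I) (f : I → I) : I := I.casesOn i I.bad fun _ h => f (I.iv h h)

theorem pt_ub {f : I → I} (h : ∀ (ρ : ℝ) (p : I), In ρ p → Ub z (f p)) : Ub z (pt i f) := by
  cases i with
  | bad => trivial
  | iv l u => exact h _ _ (pt_in u)

/-- from the lower end of the first to the upper end of the second interval -/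
def span : I → I → I := op2 fun l _ _ h' => I.iv l h'

theorem span_in (hx : In x i) (hy : In y j) (h1 : x ≤ z) (h2 : z ≤ y) : In z (span i j) :=
  op2_in hx hy fun _ _ _ _ a _ _ d => in_iv.mpr
    ⟨a.trans (mul_le_mul_of_nonneg_left h1 S_pos.le),
      (mul_le_mul_of_nonneg_left h2 S_pos.le).trans d⟩

/-- from zero to the upper end -/
def dn (i : I) : I := span (I.iv 0 0) i

theorem dn_in (hy : In y j) (h1 : 0 ≤ z) (h2 : z ≤ y) : In z (dn j) := span_in zero_in hy h1 h2

def ipow (i : I) (n : ℕ) : I := Nat.rec (nat 1) (fun _ s => mul s i) n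

theorem ipow_in (hx : In x i) (n : ℕ) : In (x ^ n) (ipow i n) := by
  induction n with
  | zero => exact one_in.congr (pow_zero x)
  | succ n ih => exact (mul_in ih hx).congr (pow_succ x n)

theorem ub_sup {g : ℕ → ℝ} {a : ℝ → ℝ} {k : I → I} (h : ∀ n, Ub (g n) i)
    (H : ∀ C : ℝ, 0 ≤ C → (∀ n, g n ≤ C) → z ≤ a C)
    (hk : ∀ (C : ℝ) (p : I), Ub C p → Ub (a C) (k p)) : Ub z (frc i k) := by
  cases i with
  | bad => trivial
  | iv l u =>
    have hS := S_pos
    have h1 : Ub ((u : ℝ) / S) (I.iv l u) := (in_iv.mp (pt_in u)).2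
    refine (hk _ _ h1).mono (H _ (by positivity) fun n => ?_)
    rw [le_div_iff₀ hS, mul_comm]
    exact h n

/-- the larger one of two upper bounds -/
def umax (i j : I) : I := I.casesOn i I.bad fun _ h => I.casesOn j I.bad fun _ h' => I.iv 0 (mx h h')

theorem umax_left (h : Ub x i) : Ub x (umax i j) := by
  cases i with
  | bad => trivial
  | iv l u =>
    cases j with
    | bad => trivial
    | iv l' u' =>
      change S * x ≤ (mx u u' : ℝ)
      rw [mx_eq]; exact le_trans h (le_max_left _ _)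

theorem umax_right (h : Ub x j) : Ub x (umax i j) := by
  cases i with
  | bad => trivial
  | iv l u =>
    cases j with
    | bad => trivial
    | iv l' u' =>
      change S * x ≤ (mx u u' : ℝ)
      rw [mx_eq]; exact le_trans h (le_max_right _ _)

/-- the largest bound on consecutive pieces of width `w` -/
def pcs (f : I → I) (lo w n : ℕ) : I :=
  Nat.rec (f (I.iv lo (lo + w))) (fun m s => umax s (f (I.iv (lo + (m + 1) * w) (lo + (m + 2) * w)))) n

theorem pcs_ub {f : I → I} (h : ∀ p, In x p → Ub z (f p)) (lo w n : ℕ) (h1 : (lo : ℝ) ≤ S * x)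
    (h2 : S * x ≤ (lo + (n + 1) * w : ℕ)) : Ub z (pcs f lo w n) := by
  induction n with
  | zero => exact h _ (in_iv.mpr ⟨h1, by simpa using h2⟩)
  | succ n ih =>
    rcases le_total (S * x) (lo + (n + 1) * w : ℕ) with hc | hc
    · exact umax_left (ih hc)
    · exact umax_right (h _ (in_iv.mpr ⟨hc, h2⟩))

/-- subdivision into `n + 1` pieces -/
def subd (n : ℕ) (i : I) (f : I → I) : I :=
  I.casesOn i I.bad fun lo hi => pcs f lo ((hi - lo) / (n + 1) + 1) n

theorem subd_ub {f : I → I} (hx : In x i) (h : ∀ p, In x p → Ub z (f p)) (n : ℕ) :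
    Ub z (subd n i f) := by
  cases i with
  | bad => trivial
  | iv lo hi =>
    obtain ⟨h1, h2⟩ := in_iv.mp hx
    refine pcs_ub h _ _ _ h1 (h2.trans ?_)
    have := Nat.lt_mul_div_succ (hi - lo) (show 0 < n + 1 by omega)
    exact_mod_cast (by omega : hi ≤ lo + (n + 1) * ((hi - lo) / (n + 1) + 1))

/-- the upper end as a point -/
def top (i : I) : I := I.casesOn i I.bad fun _ h => I.iv h h

theorem Ub.top (h : Ub z i) : ∃ x, In x (top i) ∧ z ≤ x := by
  cases i with
  | bad => exact ⟨z, in_bad z, le_rfl⟩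
  | iv l u =>
    refine ⟨u / S, pt_in u, ?_⟩
    rw [le_div_iff₀ S_pos, mul_comm]
    exact h

attribute [irreducible] Ub

theorem inv_cube_le {a : ℝ} (ha : 1 ≤ a) :
    1 / a ^ 3 ≤ 1 / (2 * (a - 1 / 2) ^ 2) - 1 / (2 * (a + 1 / 2) ^ 2) := by
  have h1 : 0 < a - 1 / 2 := by linarith
  have h2 : 0 < a := by linarith
  have e : 1 / (2 * (a - 1 / 2) ^ 2) - 1 / (2 * (a + 1 / 2) ^ 2)
      = a / ((a - 1 / 2) ^ 2 * (a + 1 / 2) ^ 2) := by
    obtain ⟨b, rfl⟩ : ∃ b, a = b + 1 / 2 := ⟨a - 1 / 2, by ring⟩
    have hb : 0 < b := by linarith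
    rw [show b + 1 / 2 - 1 / 2 = b by ring, show b + 1 / 2 + 1 / 2 = b + 1 by ring]
    field_simp; ring
  rw [e, div_le_div_iff₀ (by positivity) (by positivity)]
  nlinarith [sq_nonneg a]

theorem tsum_le_cube {f : ℕ → ℝ} (hf : Summable f) {a C : ℝ} (ha : 1 ≤ a) (hC : 0 ≤ C)
    (h : ∀ n, f n * (n + a) ^ 3 ≤ C) : ∑' n, f n ≤ C * (1 / (2 * (a - 1 / 2) ^ 2)) := by
  have key : ∀ n : ℕ, ∑ m ∈ Finset.range n, f m
      ≤ C * (1 / (2 * (a - 1 / 2) ^ 2) - 1 / (2 * (n + a - 1 / 2) ^ 2)) := by
    intro n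
    induction n with
    | zero => simp
    | succ n ih =>
      rw [Finset.sum_range_succ]
      have hn : (0 : ℝ) ≤ n := Nat.cast_nonneg n
      have h1 : f n ≤ C * (1 / (n + a) ^ 3) := by
        rw [mul_one_div, le_div_iff₀ (by positivity)]; exact h n
      have h2 := mul_le_mul_of_nonneg_left (inv_cube_le (a := n + a) (by linarith)) hC
      have e : ((n + 1 : ℕ) : ℝ) + a - 1 / 2 = n + a + 1 / 2 := by push_cast; ring
      rw [e]
      linarith
  refine le_of_tendsto' hf.hasSum.tendsto_sum_nat fun n => (key n).trans ?_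
  have : 0 ≤ 1 / (2 * ((n : ℝ) + a - 1 / 2) ^ 2) := by positivity
  gcongr
  linarith

/-- bound for a tail from a bound of the terms times the cube of `n + a` -/
def itail (c a : I) : I :=
  frc c fun c => frc (sub a (q 1 2)) fun b => mul c (div (nat 1) (mul (nat 2) (mul b b)))

theorem itail_ub {f : ℕ → ℝ} (hf : Summable f) {a : ℝ} (ha : 1 ≤ a) (hj : In a j)
    (h : ∀ n, Ub (f n * (n + a) ^ 3) i) : Ub (∑' n, f n) (itail i j) :=
  ub_sup (a := fun C => C * (1 / (2 * (a - 1 / 2) ^ 2))) h
    (fun _ hC hn => tsum_le_cube hf ha hC hn) fun _ _ hC =>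
      frc_ub (hC.mul (div_in one_in (mul_in (lit_in 2)
        (sq_in (sub_in hj (qq_in 1 2 (by norm_num)))))))

end Pool.Agent.Lib.MP_2347b2_mp.F.Iv
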