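import Pool.Agent.Lib.MP_2347b2_mp.F.NEb

/-!
The tails in the form used by the numerical check.
-/

namespace Pool.Agent.Lib.MP_2347b2_mp.F.NT

open Iv

variable {γ R : ℝ} {k : ℕ} {s r : I}

/-- number of cuts of the interval of `s` -/
def cuts (k : ℕ) (r : I) : ℕ := Bool.casesOn (Nat.ble k 1 && le r (nat 1)) 0 5

def tailT (k M : ℕ) (s r : I) : I := frc r fun r => top (subd (cuts k r) s fun p => Iv.tailT k M p r)

theorem tailT_le (h0 : 0 < γ) (h1 : γ < 1) (hk : 1 ≤ k) (hR : 0 < R) (hs : In (sOf γ k) s)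
    (hr : In R r) (M : ℕ) : ∃ x, In x (tailT k M s r) ∧ ∑' m, Tp γ k (m + M) R ≤ x := by
  obtain ⟨x, hx, h⟩ := (subd_ub (f := fun p => Iv.tailT k M p r) hs
    (fun p hp => tailT_ub h0 h1 hk hp hR hr M) (cuts k r)).top
  exact ⟨x, frc_in hx, h⟩

def tailB (k M : ℕ) (s r : I) : I := top (Iv.tailB k M s r)

theorem tailB_le (h0 : 0 < γ) (h1 : γ < 1) (hk : 2 ≤ k) (hR : 0 < R) (hs : In (sOf γ k) s)
    (hr : In R r) (M : ℕ) :
    ∃ x, In x (tailB k M s r) ∧ ∑' n, -(ck γ k * bt γ (sOf γ k - 1) (n + M) R) ≤ x :=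
  (tailB_ub h0 h1 hk hs hR hr M).top

end Pool.Agent.Lib.MP_2347b2_mp.F.NT
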