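import Pool.Agent.Lib.MP_2347b2_mp.F.NC
import Pool.Agent.Lib.MP_2347b2_mp.F.NB2
import Pool.Agent.Lib.MP_2347b2_mp.F.NTail

/-!
The program that encloses the terms of one family of states.
-/

namespace Pool.Agent.Lib.MP_2347b2_mp.F.NT

noncomputable section

/-- the parameters of a family on a range -/
structure Fm where
  W : ℕ
  S : ℕ
  G : ℕ
  F : ℕ
  H : ℕ
  L : ℕ
  A : ℕ
  c : ℕ
  sd : ℕ
  sn : ℕ
  dn : ℕ
  rn : ℕ
  rd : ℕ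
  k : ℕ
  I : ℕ
  q : ℕ
  nl : ℕ
  it : ℕ
  ne : ℕ
  me : ℕ
  D1 : ℕ
  fx : ℕ
  om : ℕ
  e3 : ℕ
  rq : ℕ
  ny : ℕ
  my : ℕ
  qb : ℕ
  DH : ℕ
  qt : ℕ
  LT : ℕ

variable (P : Fm)

def ws : ℕ := Nat.mul P.W P.S
def dd : ℕ := Nat.mul 2 P.H
def cG : Cx := mkCx P.W (Nat.mul 2 P.S) 1 1 P.S P.G
def cZ : Cx := mkCx P.W (Nat.mul 2 P.S) 1 1 P.S 0
def cF : Cx := mkCx P.W P.S 1 1 P.L (Nat.sub P.G P.F)
def cY : Cx := mkCx P.W P.S 2 2 P.L (Nat.sub P.G P.F)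
def cX : Cx := mkCx P.W P.S 2 2 P.L (Nat.add (Nat.sub P.G P.F) (Nat.succ P.me))
def cA : Cx := mkCx P.W P.S (Nat.mul 2 P.A) (Nat.mul 2 P.A) (Nat.sub P.S 3) P.G
def cC : Cx := mkCx P.W (Nat.mul 2 P.S) P.A P.H P.L P.G
def cE : Cx := mkCx P.W P.S (Nat.succ P.D1) P.D1 P.L P.F
def c2 : Cx := mkCx P.W P.S (Nat.sub (Nat.mul 2 (dd P)) 1) (dd P) P.L P.F
def c3 : Cx := mkCx P.W P.S (Nat.succ (dd P)) (dd P) P.L P.F
def cH : Cx := mkCx P.W P.S (Nat.succ P.DH) P.DH P.L P.qb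
def cT : Cx := mkCx P.W P.S P.DH P.DH P.LT P.qt
def c0 : Cx := mkCx P.W P.S P.DH P.DH P.LT 0

/-- product of two models in one variable -/
def gm (x y : TM) : TM := fm (cG P) x y

def oneG : TM := cst (pw P.G) 0
def lg1 (u v d : ℕ) : TM := lq P.W P.G u v d
def sT : TM := lg1 P P.sn P.dn P.sd
def r0 : TM := cq P.G P.rn P.rd
def rh : TM := cq P.G P.rn (Nat.shiftLeft P.rd P.c)
def l2 : TM := add (lg (cG P) P.F (cq P.G 1 4)) (lg (cG P) P.F (cq P.G 1 3))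
def lgm (x : TM) : TM := lg (cG P) P.nl (rnd (cZ P) (sub (oneG P) x))
def lr : TM := lgm P (cq P.G (Nat.shiftLeft (Nat.mul 2 P.rn) P.rq) (Nat.shiftLeft P.rd P.e3))
def top : ℕ := Nat.sub (pw P.q) P.I

def phF (i : ℕ) : TM := lg1 P (Nat.add (Nat.mul 2 P.sn) (Nat.mul P.sd i)) (Nat.mul 2 P.dn)
  (Nat.mul P.sd (Nat.add P.I i))

def ph (d : ℕ) : TM :=
  Nat.rec (oneG P) (fun d T => gm P T (phF P (Nat.sub (Nat.sub (top P) 1) d))) d

def nst (n x : ℕ) : ℕ := Nat.shiftRight (Nat.add x (Nat.div n x)) 1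

def isr (n : ℕ) : ℕ :=
  nst n (nst n (nst n (nst n (nst n (pw (Nat.succ (Nat.shiftRight (Nat.log2 n) 1)))))))

/-- first guess of the inverse square root of `u / sd` -/
def gs (u : ℕ) : ℕ := Nat.div (pw (Nat.add P.G 20)) (isr (Nat.div (Nat.shiftLeft u 40) P.sd))

/-- inverse square root of a linear function -/
def isl (u v : ℕ) : TM := isq (cG P) (lg1 P u v P.sd) (gs P u) P.it

def nq0 (m : ℕ) : ℕ := Nat.add (Nat.mul P.sd (Nat.add (Nat.mul m m) (Nat.mul P.k P.k)))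
  (Nat.mul (Nat.mul 2 m) P.sn)

def nq1 (m : ℕ) : ℕ := Nat.mul (Nat.mul 2 m) P.dn

def muT (m : ℕ) : TM := isl P (nq0 P m) (nq1 P m)

/-- the positive part of the constant coefficient -/
def l0 (c : Cx) (x : TM) : ℕ :=
  Nat.sub (Nat.mod (Nat.sub (Nat.add x.a c.off) x.b) (pw c.W)) (pw (Nat.sub c.W 1))

def two (c : Cx) (x y : TM) : TM := rnd c (sub x (shl (ws P) y))

def e2 (m : ℕ) : ℕ := Nat.log2 (Nat.div (Nat.mul 3 (nq0 P m)) (Nat.mul 2 P.sd))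

def lnN (m e : ℕ) : TM := lgm P (lg1 P (nq0 P m) (nq1 P m) (Nat.shiftLeft P.sd e))

def psC : TM := lg1 P (Nat.add (Nat.mul (Nat.mul 2 P.sn) P.e3) (Nat.mul P.sd (Nat.mul P.I P.q)))
  (Nat.mul (Nat.mul 2 P.dn) P.e3) P.sd

def ngC (n e : ℕ) : TM := lg1 P
  (Nat.add (Nat.add (Nat.mul (Nat.mul 2 P.sn) (Nat.add P.rq P.q))
    (Nat.mul (Nat.add P.sn (Nat.mul P.sd n)) e)) (Nat.mul P.sd 128))
  (Nat.add (Nat.mul (Nat.mul 2 P.dn) (Nat.add P.rq P.q)) (Nat.mul P.dn e)) P.sd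

def x0e (n m e : ℕ) : TM :=
  add (sub (gm P (lg1 P (Nat.add P.sn (Nat.mul P.sd n)) P.dn P.sd) (lnN P m e))
      (smul 2 (add (gm P (sT P) (lr P)) (gm P (muT P m) (r0 P)))))
    (gm P (sub (psC P) (ngC P n e)) (l2 P))

def x0 (n m : ℕ) : TM := x0e P n m (e2 P m)

def wp (n m : ℕ) : ℕ := Nat.div (l0 (cG P) (neg (x0 P n m))) (Nat.mul 2 (l0 (cG P) (l2 P)))

/-- the exponential factor of the amplitude -/
def amp (n m : ℕ) : TM := expT (cE P) (c2 P) P.ne P.me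
  (two P (cX P) (add (x0 P n m) (smul (Nat.mul 2 (wp P n m)) (l2 P)))
    (smul 2 (gm P (muT P m) (rh P))))

def bin (j : ℕ) : TM := Nat.rec ⟨1, 0, 1, 0⟩ (fun _ T => mulP T (y2 (ws P) (pw P.c) 0)) j

/-- the state of the recurrence -/
structure Ac where
  ch : ℕ
  n0 : ℕ
  d0 : ℕ
  p0 : TM
  q0 : TM
  n1 : ℕ
  d1 : ℕ
  p1 : TM
  q1 : TM

def gam (g0 j : ℕ) : TM := li P.W (Nat.add g0 (Nat.mul P.sd j)) (Nat.mul 2 P.dn) 0

def ff3 (g0 m j : ℕ) : TM :=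
  mulP (mulP (gam P g0 (Nat.succ j)) (gam P g0 j)) (li P.W (nq0 P m) (nq1 P m) 0)

def eh (f : ℕ) : ℕ :=
  Nat.sub P.G (Nat.sub P.G (Nat.log2 (Nat.add f (Nat.shiftRight f 1))))

def st4 (j : ℕ) (A : Ac) (ch n d : ℕ) (f : TM) (a : ℕ) : Ac :=
  ⟨ch, A.n1, A.d1, A.p1, A.q1, n, d,
    rndP (cA P) (add (mulP A.p0 f) (mulP (cst a 1) (bin P j))),
    rndP (cA P) (add (mulP A.q0 f) (mulP (cst (Nat.mul j a) j) (bin P j)))⟩

def st3 (j : ℕ) (A : Ac) (ch n d : ℕ) (f : TM) : Ac :=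
  st4 P j A ch n d f (Nat.div
    (Nat.shiftLeft (Nat.mul (Nat.mul ch (Nat.pow (Nat.mul 2 P.rn) j)) n) (Nat.add P.F P.G))
    (Nat.mul (Nat.pow (Nat.shiftLeft P.rd P.c) j) d))

def st2 (n j : ℕ) (A : Ac) (f : TM) (e : ℕ) : Ac :=
  st3 P (Nat.succ j) A (Nat.div (Nat.mul A.ch (Nat.sub n j)) (Nat.succ j))
    (Nat.mul A.n0 (Nat.pow P.sd 3)) (Nat.shiftLeft A.d0 e) (smul (pw (Nat.sub P.G e)) f)

def st1 (n j : ℕ) (A : Ac) (f : TM) : Ac := st2 P n j A f (eh P (Nat.mod f.a (pw P.W)))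

def ac0 (g0 m d : ℕ) : Ac :=
  ⟨1, Nat.shiftLeft (Nat.mul (Nat.succ (Nat.div g0 P.sd)) (Nat.add m P.k)) P.fx, d, cst 0 0, cst 0 0,
    pw P.fx, d, cq P.F (pw P.fx) d, cst 0 0⟩

def kap (m : ℕ) : ℕ := pw (Nat.div (Nat.shiftRight
  (Nat.mul (Nat.mul 23 P.rn) (gs P (nq0 P m))) (Nat.add P.G 4)) P.rd)

def acc (g0 n m j : ℕ) : Ac :=
  Nat.rec (ac0 P g0 m (kap P m)) (fun j A => st1 P n j A (ff3 P g0 m j)) j

def cb1 (x y M : TM) : TM := rnd (cC P) (sub (smul (pw P.G) x) (mul y M))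

def em : ℕ := emk P.W P.S P.A

def comb (x y M : TM) : TM :=
  addE P.W (add (cb1 P (ev (em P) x) (ev (em P) y) M)
      (shl (ws P) (cb1 P (od (ws P) (em P) x) (od (ws P) (em P) y) M)))
    (Nat.add x.e (Nat.succ (Nat.shiftRight (Nat.mul y.e (nrm M)) P.G)))
    (Nat.add (Nat.add x.B y.B) M.B)

def gaQ (g0 n : ℕ) : TM := lg1 P (Nat.add g0 (Nat.mul P.sd n)) (Nat.mul 2 P.dn) P.sd

def mT (g0 n m : ℕ) (A : Ac) : TM :=
  gm P (gm P (gm P (lg1 P (nq0 P m) (nq1 P m) P.sd) (muT P m)) (gaQ P g0 n))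
    (cq P.G (Nat.mul A.n1 A.d0) (Nat.mul A.d1 A.n0))

def zT (m : ℕ) : TM := gm P (muT P m) (muT P m)

def eT (m : ℕ) : TM := gm P (lg1 P (Nat.add (Nat.mul P.sd m) P.sn) P.dn P.sd) (muT P m)

def cf0 (m : ℕ) : TM :=
  sub (gm P (sub (smul (Nat.mul P.k P.k) (oneG P)) (sT P)) (eT P m)) (r0 P)

/-- the constant of a state -/
def kc (u v n m : ℕ) (A : Ac) : TM :=
  cq P.G (Nat.shiftLeft (Nat.mul u (Nat.mul A.d1 A.d1)) (Nat.add 128 P.om))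
    (Nat.shiftLeft (Nat.mul v (Nat.mul A.n1 A.n1)) (Nat.mul 2 (wp P n m)))

def sqG (x : TM) : TM := gm P x x

def rT : TM := lq (ws P) P.F (Nat.shiftLeft P.rn P.c) P.rn (Nat.shiftLeft P.rd P.c)

def sF : TM := rnd (cF P) (sT P)

def tp5 (a1 a2 E G V : TM) : TM :=
  add (fm (c3 P) a1 (fm (c2 P) G (sub (fm (c3 P) (sF P) G) (smul 2 (fm (c3 P) E V)))))
    (fm (c3 P) a2 (fm (c2 P) V V))

def tp4 (m : ℕ) (w a0 a1 sz g g1 : TM) : TM :=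
  tp5 P (two P (cY P) a0 a1)
    (two P (cY P) (sub (gm P a0 sz) (smul 2 (gm P w (gm P
      (sub (oneG P) (smul (Nat.mul P.k P.k) (zT P m))) (eT P m))))) (gm P a1 sz))
    (rnd (cF P) (eT P m))
    (add (fm (c3 P) (two P (cY P) (sub (lg1 P (Nat.add (Nat.mul 2 P.sn) P.sd) (Nat.mul 2 P.dn) P.sd)
      (gm P (muT P m) (r0 P))) (gm P (muT P m) (rh P))) g) g1)
    (fm (c3 P) (rT P) g)

def tp3 (m : ℕ) (w g g1 : TM) : TM :=
  tp4 P m w (gm P w (cf0 P m)) (gm P w (rh P)) (gm P (sT P) (zT P m)) g g1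

def tp2 (g0 n m : ℕ) (A : Ac) (M x : TM) : TM :=
  tp3 P m
    (gm P (gm P (gm P (kc P (Nat.mul 4 P.k)
        (Nat.mul (Nat.mul m (fac n)) (fac (Nat.add P.I m))) n m A) (zT P m))
      (ph P (Nat.sub (top P) (Nat.succ m))))
      (sqG P (isl P (Nat.add g0 (Nat.mul P.sd n)) (Nat.mul 2 P.dn))))
    (fm (c2 P) (comb P A.p1 A.p0 M) x) (fm (c2 P) (comb P A.q1 A.q0 M) x)

def tp1 (g0 n m : ℕ) (A : Ac) : TM := tp2 P g0 n m A (mT P g0 n m A) (amp P n m)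

def tp0 (g0 n m : ℕ) : TM := tp1 P g0 n m (acc P g0 n m n)

/-- a pair of states -/
def stT (n : ℕ) : TM := tp0 P (Nat.add (Nat.mul 2 P.sn) P.sd) n (Nat.succ n)

def bb3 (w c g : TM) : TM :=
  fm (c3 P) (two P (cY P) (gm P w c) (gm P w (rh P))) (fm (c2 P) g g)

def is2 : TM := sqG P (isl P P.sn P.dn)

def bb1 (g0 n : ℕ) (A : Ac) : TM :=
  bb3 P (gm P (gm P (gm P (kc P P.k (Nat.mul (fac n) (fac (Nat.sub (Nat.add P.I n) 1))) n n A)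
      (zT P n)) (ph P (Nat.sub (top P) n))) (is2 P))
    (cf0 P n) (fm (c2 P) (comb P A.p1 A.p0 (mT P g0 n n A)) (amp P n n))

def bb0 (g0 n : ℕ) : TM := bb1 P g0 n (acc P g0 n n n)

/-- a state of the last channel -/
def stB (n : ℕ) : TM := bb0 P (Nat.sub (Nat.mul 2 P.sn) P.sd) n

/-- the nodeless state -/
def st0 : TM :=
  bb3 P (gm P (cq P.G (pw (Nat.add 129 P.om))
      (Nat.shiftLeft (Nat.mul P.k (fac P.I)) (Nat.mul 2 (wp P 0 0)))) (ph P (Nat.sub (top P) 1)))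
    (sub (smul P.k (sT P)) (add (r0 P) (smul P.k (oneG P)))) (amp P 0 0)

def sumS (f : ℕ → TM) (z : TM) (lo c : ℕ) : TM :=
  Nat.rec z (fun i T => add T (f (Nat.add lo i))) c

/-- the factor `(R / R0) ^ (2 * s)` -/
def ys : TM := expT (c2 P) (c2 P) P.ne P.my
  (neg (fm (c3 P) (lq P.W P.F (Nat.mul 2 P.sn) (Nat.mul 2 P.dn) (Nat.shiftLeft P.sd P.my))
    (lg (c3 P) P.ny (neg (lq (ws P) P.F 0 1 (pw P.c))))))

def psi (x : TM) : TM := fm (c2 P) x (ys P)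

def hz (x y : TM) (d : ℕ) : TM :=
  Nat.rec (cst 0 0) (fun d T => rnd (cH P) (add (mul T y)
    (smul (pw P.qb) (row P.W P.S (dd P) x (Nat.sub (Nat.sub (dd P) 1) d))))) d

/-- the model on the box with centre `a / 2 ^ qb - 1` -/
def bx (x : TM) (a : ℕ) : TM :=
  hz P x (y2 (ws P) (Nat.sub a (pw P.qb)) (Nat.sub (pw P.qb) a)) (dd P)

def ht (x y : TM) (d : ℕ) : TM :=
  Nat.rec (cst 0 0) (fun d T => rnd (cT P) (add (mul T y)
    (smul (pw P.qt) (col P.W P.S P.DH x (Nat.sub (Nat.sub P.L 1) d))))) d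

/-- the same in the first variable -/
def bt (x : TM) (a : ℕ) : TM :=
  ht P x (y2 P.W (Nat.sub a (pw P.qt)) (Nat.sub (pw P.qt) a)) P.L

def ms (T : TM) (cp cm : ℕ) : TM := rnd (c0 P) (add (sub T (cst cp 0)) (cst cm 0))

def band (a b : Bool) : Bool := Bool.rec false b a

def blt (a b : ℕ) : Bool := Nat.ble (Nat.succ a) b

def ck2 (T : TM) (cp cm e U V : ℕ) : Bool :=
  band (blt T.B (pw (Nat.sub P.W 1)))
    (Nat.ble (Nat.add (Nat.add (Nat.add (Nat.add cp (nrm T)) e)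
        (Nat.shiftLeft V (Nat.sub (Nat.add P.F P.om) 20)))
        (Nat.succ (Nat.shiftRight (Nat.sub (Nat.add (Nat.add cp (nrm T)) e) cm) (Nat.add P.q 2))))
      (Nat.add cm (Nat.shiftLeft U (Nat.sub (Nat.add P.F P.om) 20))))

def ck1 (H : TM) (cp cm e U V : ℕ) : Bool := ck2 P (ms P H cp cm) cp cm e U V

/-- the bound `(U - V) / 2 ^ 20` on one box -/
def ck0 (H : TM) (e U V : ℕ) : Bool := ck1 P H (l0 (c0 P) H) (l0 (c0 P) (neg H)) e U V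

def allB (f : ℕ → Bool) (n : ℕ) : Bool := Nat.rec true (fun i r => band (f i) r) n

def odd (i : ℕ) : ℕ := Nat.succ (Nat.mul 2 i)

def ckR (X : TM) (e U V : ℕ) : Bool :=
  band (blt X.B (pw (Nat.sub P.W 1)))
    (allB (fun j => ck0 P (bt P X (odd j)) (Nat.add X.e e) U V) (pw P.qt))

def fld (Us i : ℕ) : ℕ := Nat.mod (Nat.shiftRight Us (Nat.mul 32 i)) 4294967296

/-- numerator of the left end of the box `i` -/
def rbn (rn c qb i : ℕ) : ℕ :=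
  Nat.mul rn (Nat.add (Nat.sub (pw (Nat.add qb c)) (pw qb)) (Nat.mul 2 i))

def rbd (rd c qb : ℕ) : ℕ := Nat.shiftLeft rd (Nat.add qb c)

def rbox (rn rd c qb i : ℕ) : Iv.I := Iv.box (rbn rn c qb i) (rbn rn c qb (Nat.succ i)) (rbd rd c qb)

def sbox : Iv.I := Iv.box (Nat.sub P.sn P.dn) (Nat.add P.sn P.dn) P.sd

def ckT (t : Iv.I) (f : ℕ → Bool) : Bool :=
  Iv.I.casesOn t false fun _ h => f (Nat.add 1073741824 (Nat.succ (Nat.shiftRight h 20)))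

def ckA (X : TM) (tl : Iv.I → Iv.I) (Us : ℕ) : Bool :=
  band (blt X.B (pw (Nat.sub P.W 1)))
    (allB (fun i => ckT (tl (rbox P.rn P.rd P.c P.qb i)) fun V =>
      ckR P (bx P X (odd i)) X.e (fld Us i) V) (pw P.qb))

def lst (l : List Bool) : Bool := List.rec true (fun a _ r => band a r) l

/-- the side conditions -/
def okB : Bool := lst [blt P.G P.W, Nat.ble P.F P.G,
  blt (Nat.add (Nat.sub P.G P.F) (Nat.succ P.me)) P.W, blt P.qb P.W, blt P.qt P.W, Nat.ble 2 P.W,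
  Nat.ble 5 P.S, Nat.ble (Nat.mul 2 P.L) (Nat.succ P.S), Nat.ble 2 P.L, Nat.ble 1 P.H,
  Nat.ble P.H P.A, Nat.ble 1 P.D1, Nat.ble P.D1 (dd P), Nat.ble 1 P.DH, Nat.ble 1 P.LT,
  blt P.LT P.S, Nat.ble 1 P.sd, Nat.ble 1 P.rd, Nat.ble 1 P.rn, Nat.ble 1 P.k, Nat.ble 1 P.dn,
  Nat.ble P.dn P.sn, Nat.ble 1 P.c, Nat.ble 20 (Nat.add P.F P.om),
  Nat.ble (Nat.add (Nat.mul P.I P.sd) (Nat.mul 2 P.dn)) (Nat.mul 2 P.sn),
  Nat.ble (Nat.mul 2 (Nat.add P.sn P.dn)) (Nat.mul (Nat.succ P.I) P.sd)]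

/-- `u` is at most the left end of the range -/
def leR (u : ℕ) : Bool :=
  Nat.ble (Nat.mul u (Nat.shiftLeft P.rd P.c)) (Nat.mul P.rn (Nat.sub (pw P.c) 1))

def bor (a b : Bool) : Bool := Bool.rec b true a

def selT (c : Bool) (x y : TM) : TM := Bool.rec y x c

/-- the check of a channel -/
def famT (lo n : ℕ) (z : Bool) (Us : ℕ) : Bool :=
  band (lst [okB P, Nat.ble (Nat.add lo n) (Nat.mul 2 P.A),
      Nat.ble (Nat.add P.I (Nat.succ (Nat.add lo n))) (pw P.q),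
      bor (Nat.ble lo 0) (leR P (Nat.mul 2 (Nat.pow (Nat.add lo P.k) 2))),
      bor z (leR P (Nat.mul P.k P.k))])
    (ckA P (psi P (sumS (stT P) (selT z (st0 P) (cst 0 0)) lo n))
      (tailT P.k (Nat.add lo n) (sbox P)) Us)

/-- the check of the last term of the head -/
def famB (lo n : ℕ) (Us : ℕ) : Bool :=
  band (lst [okB P, Nat.ble (Nat.add lo n) (Nat.mul 2 P.A),
      Nat.ble (Nat.add P.I (Nat.succ (Nat.add lo n))) (pw P.q),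
      bor (Nat.ble lo 0) (leR P (Nat.mul P.k P.k)), Nat.ble 2 P.k, Nat.ble 1 P.I,
      Nat.ble (Nat.add P.sd P.dn) P.sn])
    (ckA P (psi P (sumS (stB P) (cst 0 0) lo n)) (tailB P.k (Nat.add lo n) (sbox P)) Us)

end

end Pool.Agent.Lib.MP_2347b2_mp.F.NT
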