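import Pool.Agent.Lib.MP_2347b2_mp.F.NF
import Pool.Agent.Lib.MP_2347b2_mp.F.ND
import Pool.Agent.Lib.MP_2347b2_mp.F.NE

/-!
Soundness of the program: notions and the operations in one variable.
-/

namespace Pool.Agent.Lib.MP_2347b2_mp.F.NT

noncomputable section

/-- the side conditions -/
structure Ok (P : Fm) (p : Pt) : Prop where
  W : p.W = P.W
  S : p.S = P.S
  G : P.G < P.W
  FG : P.F ≤ P.G
  X : P.G - P.F + (P.me + 1) < P.W
  qb : P.qb < P.W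
  qt : P.qt < P.W
  S5 : 5 ≤ P.S
  L : 2 * P.L ≤ P.S + 1
  L2 : 2 ≤ P.L
  H : 1 ≤ P.H
  HA : P.H ≤ P.A
  D1 : 1 ≤ P.D1
  D2 : P.D1 ≤ 2 * P.H
  DH : 1 ≤ P.DH
  LT : 1 ≤ P.LT
  LS : P.LT < P.S
  sd : 1 ≤ P.sd
  rd : 1 ≤ P.rd
  rn : 1 ≤ P.rn
  k : 1 ≤ P.k
  dn : 1 ≤ P.dn
  ds : P.dn ≤ P.sn
  c : 1 ≤ P.c
  om : 20 ≤ P.F + P.om
  I1 : P.I * P.sd + 2 * P.dn ≤ 2 * P.sn
  I2 : 2 * (P.sn + P.dn) ≤ (P.I + 1) * P.sd

def sR (P : Fm) (p : Pt) : ℝ := (P.sn + P.dn * p.t) / P.sd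

def R0 (P : Fm) : ℝ := (P.rn : ℝ) / P.rd

def RR (P : Fm) (p : Pt) : ℝ := R0 P * (1 + p.τ / 2 ^ P.c)

def NR (P : Fm) (p : Pt) (m : ℕ) : ℝ := √((m : ℝ) ^ 2 + P.k ^ 2 + 2 * m * sR P p)

/-- a model in one variable at the fine scale -/
def E1 (P : Fm) (p : Pt) (T : TM) (x : ℝ) : Prop := Enc p.dbl False 1 P.S T (x * 2 ^ P.G)

/-- a model in two variables at the coarse scale -/
def E2 (P : Fm) (p : Pt) (D : ℕ) (T : TM) (x : ℝ) : Prop := Enc p False D P.L T (x * 2 ^ P.F)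

/-- an accumulator -/
def EA (P : Fm) (p : Pt) (T : TM) (x : ℝ) : Prop :=
  Enc p True (2 * P.A) (P.S - 3) T (x * 2 ^ P.F)

variable {P : Fm} {p : Pt} {T U : TM} {x y : ℝ}

theorem ng0_band {a b : Bool} : band a b = true ↔ a = true ∧ b = true := by
  cases a <;> cases b <;> simp [band]

theorem ng0_cons {a : Bool} {l : List Bool} : lst (a :: l) = true ↔ a = true ∧ lst l = true :=
  ng0_band

theorem ng0_blt {a b : ℕ} : blt a b = true ↔ a < b := Nat.ble_eq.to_iff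

theorem ok_of (h : okB P = true) {t τ : ℝ} (ht : |t| ≤ 1) (hτ : |τ| ≤ 1) :
    ∃ p : Pt, Ok P p ∧ p.t = t ∧ p.τ = τ := by
  unfold okB at h
  simp only [ng0_cons, ng0_blt, Nat.ble_eq, dd, Nat.add_eq, Nat.mul_eq, Nat.sub_eq,
    Nat.succ_eq_add_one] at h
  obtain ⟨h1, h2, h3, h4, h5, h6, h7, h8, h9, h10, h11, h12, h13, h14, h15, h16, h17, h18, h19,
    h20, h21, h22, h23, h24, h25, h26, -⟩ := h
  exact ⟨⟨P.W, P.S, t, τ, h6, ht, hτ⟩, ⟨rfl, rfl, h1, h2, h3, h4, h5, h7, h8, h9, h10, h11, h12,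
    h13, h14, h15, h16, h17, h18, h19, h20, h21, h22, h23, h24, h25, h26⟩, rfl, rfl⟩

theorem Ok.re (h : Ok P p) {p' : Pt} (hW : p'.W = p.W) (hS : p'.S = p.S) : Ok P p' := by
  exact ⟨hW.trans h.W, hS.trans h.S, h.G, h.FG, h.X, h.qb, h.qt, h.S5, h.L, h.L2, h.H, h.HA, h.D1,
    h.D2, h.DH, h.LT, h.LS, h.sd, h.rd, h.rn, h.k, h.dn, h.ds, h.c, h.om, h.I1, h.I2⟩

theorem Ok.s_nonneg (h : Ok P p) : 0 ≤ sR P p := by
  have h1 : (P.dn : ℝ) ≤ P.sn := by exact_mod_cast h.ds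
  have h2 := (abs_le.1 p.ht).1
  have h3 : (0 : ℝ) ≤ P.dn := Nat.cast_nonneg _
  refine div_nonneg ?_ (Nat.cast_nonneg _)
  nlinarith

theorem Ok.a_mem (h : Ok P p) : 0 ≤ 2 * sR P p - P.I ∧ 2 * sR P p - P.I ≤ 1 := by
  have h0 : (0 : ℝ) < P.sd := by exact_mod_cast h.sd
  have h1 : (P.I : ℝ) * P.sd + 2 * P.dn ≤ 2 * P.sn := by exact_mod_cast h.I1
  have h2 : 2 * ((P.sn : ℝ) + P.dn) ≤ (P.I + 1) * P.sd := by exact_mod_cast h.I2
  obtain ⟨h3, h4⟩ := abs_le.1 p.ht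
  have h5 : (0 : ℝ) ≤ P.dn := Nat.cast_nonneg _
  have h6 : -(P.dn : ℝ) ≤ P.dn * p.t := by nlinarith
  have h7 : (P.dn : ℝ) * p.t ≤ P.dn := by nlinarith
  have e : 2 * sR P p - P.I = (2 * (P.sn + P.dn * p.t) - P.I * P.sd) / P.sd := by
    unfold sR
    field_simp
  rw [e]
  exact ⟨div_nonneg (by linarith) h0.le, (div_le_one h0).2 (by linarith)⟩

theorem Ok.R0_pos (h : Ok P p) : 0 < R0 P := by
  exact div_pos (by exact_mod_cast h.rn) (by exact_mod_cast h.rd)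

theorem Ok.RR_pos (h : Ok P p) : 0 < RR P p := by
  refine mul_pos h.R0_pos ?_
  have h1 : (2 : ℝ) ^ 1 ≤ 2 ^ P.c := pow_le_pow_right₀ one_le_two h.c
  have h2 := (abs_le.1 p.hτ).1
  have h3 : (-1 : ℝ) < p.τ / 2 ^ P.c := by
    rw [lt_div_iff₀ (by positivity)]
    linarith
  linarith

theorem Ok.NR_sq (h : Ok P p) (m : ℕ) :
    NR P p m ^ 2 = (m : ℝ) ^ 2 + P.k ^ 2 + 2 * m * sR P p ∧ 1 ≤ NR P p m := by
  have h1 : (1 : ℝ) ≤ P.k := by exact_mod_cast h.k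
  have h2 : 0 ≤ 2 * m * sR P p := mul_nonneg (by positivity) h.s_nonneg
  have h3 : (1 : ℝ) ≤ (m : ℝ) ^ 2 + P.k ^ 2 + 2 * m * sR P p := by nlinarith [sq_nonneg (m : ℝ)]
  exact ⟨Real.sq_sqrt (by linarith), Real.one_le_sqrt.2 h3⟩

theorem Ok.nq (h : Ok P p) (m : ℕ) :
    ((nq0 P m : ℝ) + (nq1 P m : ℝ) * p.t) / P.sd = NR P p m ^ 2 := by
  have h0 : (P.sd : ℝ) ≠ 0 := by exact_mod_cast (Nat.one_le_iff_ne_zero.1 h.sd)
  rw [(h.NR_sq m).1]
  simp only [nq0, nq1, sR, Nat.add_eq, Nat.mul_eq]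
  push_cast
  field_simp
  ring

theorem E1.congr (h : E1 P p T x) (e : y = x) : E1 P p T y := e ▸ h

theorem E2.congr {D : ℕ} (h : E2 P p D T x) (e : y = x) : E2 P p D T y := e ▸ h

theorem E1.gm (o : Ok P p) (h : E1 P p T x) (k : E1 P p U y) : E1 P p (gm P T U) (x * y) := by
  have hS : p.dbl.S = 2 * P.S := by rw [← o.S]; rfl
  have hW : p.dbl.W = P.W := o.W
  have e : NT.gm P T U = NT.fm (mkCx p.dbl.W p.dbl.S 1 1 P.S P.G) T U := by rw [hS, hW]; rfl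
  rw [e]
  exact Enc.fmS h k le_rfl (by omega) le_rfl (by omega) (by rw [hW]; exact o.G) rfl

theorem E1.add (h : E1 P p T x) (k : E1 P p U y) : E1 P p (add T U) (x + y) := by
  exact (Enc.add h k).congr (add_mul _ _ _)

theorem E1.sub (h : E1 P p T x) (k : E1 P p U y) : E1 P p (sub T U) (x - y) := by
  exact (Enc.sub h k).congr (sub_mul _ _ _)

theorem E1.smul (h : E1 P p T x) (k : ℕ) : E1 P p (smul k T) (k * x) := by
  exact (Enc.smul h k).congr (mul_assoc _ _ _)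

theorem Ok.oneG (o : Ok P p) : E1 P p (oneG P) 1 := by
  have := o.S5
  exact (enc_cst (q := False) (by simp [pw_eq])).mono id le_rfl (by omega)

theorem Ok.lg1 (o : Ok P p) (u v : ℕ) {d : ℕ} (hd : 0 < d) :
    E1 P p (lg1 P u v d) ((u + v * p.t) / d) := by
  have := o.S5
  have hW : p.dbl.W = P.W := o.W
  have h := enc_lqT (p := p.dbl) (q := False) P.G u v hd
  rw [hW] at h
  exact h.mono id le_rfl (by omega)

theorem Ok.cq (o : Ok P p) (u : ℕ) {d : ℕ} (hd : 0 < d) : E1 P p (cq P.G u d) ((u : ℝ) / d) := by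
  have := o.S5
  exact (enc_cq (q := False) P.G u hd).mono id le_rfl (by omega)

theorem Ok.sT (o : Ok P p) : E1 P p (sT P) (sR P p) := by
  exact o.lg1 P.sn P.dn o.sd

theorem Ok.r0 (o : Ok P p) : E1 P p (r0 P) (R0 P) := by
  exact o.cq P.rn o.rd

theorem Ok.rh (o : Ok P p) : E1 P p (rh P) (R0 P / 2 ^ P.c) := by
  have e : Nat.shiftLeft P.rd P.c = P.rd * 2 ^ P.c := Nat.shiftLeft_eq _ _
  have h := o.cq P.rn (d := Nat.shiftLeft P.rd P.c)
    (by rw [e]; exact Nat.mul_pos o.rd (Nat.two_pow_pos _))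
  refine h.congr ?_
  rw [e, R0, div_div]
  push_cast
  rfl

theorem E1.dn (o : Ok P p) (h : E1 P p T x) : E2 P p 1 (rnd (cF P) T) x := by
  have hS := o.S
  have hW := o.W
  have a1 := o.L
  have a2 := o.L2
  have a3 := o.G
  have h1 : Enc p False 1 P.S T (x * 2 ^ P.G) := Enc.one h rfl rfl
  have h2 := h1.rnd (C := 1) (E := 1) (K := P.L) (g := P.G - P.F) le_rfl (by omega) le_rfl
    (by omega) (by omega)
  rw [hS, hW] at h2
  refine Enc.congr h2 ?_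
  rw [eq_div_iff (by positivity), mul_assoc, ← pow_add, Nat.add_sub_cancel' o.FG]

theorem ng0_two (o : Ok P p) (h : E1 P p T x) (k : E1 P p U y) {g : ℕ} (hg : g < P.W) :
    Enc p False 2 P.L (two P (mkCx P.W P.S 2 2 P.L g) T U) ((x - p.τ * y) * 2 ^ P.G / 2 ^ g) := by
  have hS := o.S
  have hW := o.W
  have a1 := o.L
  have a2 := o.L2
  have h1 : Enc p False 1 P.S T (x * 2 ^ P.G) := Enc.one h rfl rfl
  have k1 : Enc p False 1 P.S U (y * 2 ^ P.G) := Enc.one k rfl rfl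
  have h2 := ((h1.mono id one_le_two le_rfl).sub k1.shR).rnd (C := 2) (E := 2) (K := P.L) (g := g)
    le_rfl (by omega) le_rfl (by omega) (by omega)
  rw [hS, hW] at h2
  refine Enc.congr h2 ?_
  ring

theorem E1.two (o : Ok P p) (h : E1 P p T x) (k : E1 P p U y) :
    E2 P p 2 (two P (cY P) T U) (x - p.τ * y) := by
  have h2 := ng0_two o h k (g := P.G - P.F) (by have := o.G; omega)
  refine Enc.congr h2 ?_
  rw [eq_div_iff (by positivity), mul_assoc, ← pow_add, Nat.add_sub_cancel' o.FG]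

theorem E1.twoX (o : Ok P p) (h : E1 P p T x) (k : E1 P p U y) :
    E2 P p 2 (NT.two P (cX P) T U) ((x - p.τ * y) / 2 ^ (P.me + 1)) := by
  have h2 := ng0_two o h k (g := P.G - P.F + (P.me + 1)) o.X
  refine Enc.congr h2 ?_
  have e : (2 : ℝ) ^ P.G = 2 ^ P.F * 2 ^ (P.G - P.F) := by
    rw [← pow_add, Nat.add_sub_cancel' o.FG]
  rw [e, pow_add (2 : ℝ) (P.G - P.F)]
  field_simp

theorem E2.add {D : ℕ} (h : E2 P p D T x) (k : E2 P p D U y) : E2 P p D (add T U) (x + y) := by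
  exact Enc.congr (Enc.add h k) (add_mul _ _ _)

theorem E2.sub {D : ℕ} (h : E2 P p D T x) (k : E2 P p D U y) : E2 P p D (sub T U) (x - y) := by
  exact Enc.congr (Enc.sub h k) (sub_mul _ _ _)

theorem E2.smul {D : ℕ} (h : E2 P p D T x) (k : ℕ) : E2 P p D (smul k T) (k * x) := by
  exact Enc.congr (Enc.smul h k) (mul_assoc _ _ _)

theorem E2.f2 (o : Ok P p) (h : E2 P p (2 * P.H) T x) (k : E2 P p (2 * P.H) U y) :
    E2 P p (2 * P.H) (fm (c2 P) T U) (x * y) := by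
  have hS := o.S
  have hW := o.W
  have a1 := o.L
  have a2 := o.L2
  have a3 := o.G
  have a4 := o.FG
  have a5 := o.H
  have h2 := Enc.fmS (C := 2 * (2 * P.H) - 1) (E := 2 * P.H) (K := P.L) (b := P.F) h k (by omega)
    (by omega) (by omega) (by omega) (by omega) rfl
  rw [hS, hW] at h2
  exact h2

theorem E2.f3 (o : Ok P p) {D : ℕ} (hD : D ≤ 2) (h : E2 P p D T x) (k : E2 P p (2 * P.H) U y) :
    E2 P p (2 * P.H) (fm (c3 P) T U) (x * y) := by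
  have hS := o.S
  have hW := o.W
  have a1 := o.L
  have a2 := o.L2
  have a3 := o.G
  have a4 := o.FG
  have h2 := Enc.fmS (C := 2 * P.H + 1) (E := 2 * P.H) (K := P.L) (b := P.F) h k (by omega)
    (by omega) (by omega) (by omega) (by omega) rfl
  rw [hS, hW] at h2
  exact h2

theorem Ok.rT (o : Ok P p) : E2 P p 2 (rT P) (RR P p) := by
  have a2 := o.L2
  have hd : 0 < Nat.shiftLeft P.rd P.c := by
    show 0 < P.rd <<< P.c
    rw [Nat.shiftLeft_eq]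
    exact Nat.mul_pos o.rd (Nat.two_pow_pos _)
  have h2 := (enc_lqR (p := p) (q := False) P.F (Nat.shiftLeft P.rn P.c) P.rn hd).mono id le_rfl
    (show 1 ≤ P.L by omega)
  rw [o.S, o.W] at h2
  refine Enc.congr h2 ?_
  have hr : (P.rd : ℝ) ≠ 0 := by exact_mod_cast (Nat.one_le_iff_ne_zero.1 o.rd)
  simp only [RR, R0, Nat.shiftLeft_eq', Nat.shiftLeft_eq]
  push_cast
  field_simp

theorem Ok.zero (o : Ok P p) : E2 P p (2 * P.H) (cst 0 0) 0 := by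
  have a2 := o.L2
  have a5 := o.H
  exact (enc_cst (q := False) (by simp)).mono id (by omega) (by omega)

end

end Pool.Agent.Lib.MP_2347b2_mp.F.NT
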