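import Pool.Agent.Lib.MP_2347b2_mp.F.NG0

/-!
Soundness of the program: the amplitude.
-/

namespace Pool.Agent.Lib.MP_2347b2_mp.F.NT

noncomputable section

variable {P : Fm} {p : Pt} {T U : TM} {x y : ℝ}

theorem g1_cG (o : Ok P p) : cG P = mkCx p.dbl.W p.dbl.S 1 1 P.S P.G := by
  show mkCx P.W (2 * P.S) 1 1 P.S P.G = mkCx p.W (2 * p.S) 1 1 P.S P.G
  rw [o.W, o.S]

theorem g1_cZ (o : Ok P p) : cZ P = mkCx p.dbl.W p.dbl.S 1 1 P.S 0 := by
  show mkCx P.W (2 * P.S) 1 1 P.S 0 = mkCx p.W (2 * p.S) 1 1 P.S 0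
  rw [o.W, o.S]

theorem g1_S (o : Ok P p) : p.dbl.S = 2 * P.S := by
  show 2 * p.S = 2 * P.S
  rw [o.S]

theorem g1_W (o : Ok P p) : p.dbl.W = P.W := o.W

theorem g1_lg (o : Ok P p) (h : E1 P p T x) (n : ℕ) :
    E1 P p (lg (cG P) n T) (-Real.log (1 - x)) := by
  have hS := g1_S o
  have hW := g1_W o
  have h5 := o.S5
  have hG := o.G
  rw [g1_cG o]
  exact Enc.lg h (by omega) (by omega) le_rfl (by omega) le_rfl (by omega) (by omega) n

theorem g1_rz (o : Ok P p) (h : E1 P p T x) : E1 P p (rnd (cZ P) T) x := by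
  have hS := g1_S o
  have hW := g1_W o
  have hG := o.G
  rw [g1_cZ o]
  exact (Enc.rnd h le_rfl (by omega) le_rfl (by omega) (by omega)).congr (by simp)

theorem g1_top : top P = 2 ^ P.q - P.I := by
  simp only [top, pw_eq, Nat.sub_eq]

theorem g1_phF (o : Ok P p) {i : ℕ} (h1 : 1 ≤ P.I + i) :
    E1 P p (phF P i) ((2 * sR P p + i) / ((P.I : ℝ) + i)) := by
  have hsd : 0 < P.sd := o.sd
  refine (o.lg1 (Nat.add (Nat.mul 2 P.sn) (Nat.mul P.sd i)) (Nat.mul 2 P.dn)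
    (d := Nat.mul P.sd (Nat.add P.I i)) (Nat.mul_pos hsd h1)).congr ?_
  have a1 : (0 : ℝ) < P.sd := by exact_mod_cast hsd
  have a2 : (0 : ℝ) < (P.I : ℝ) + i := by exact_mod_cast h1
  simp only [Nat.add_eq, Nat.mul_eq, sR]
  push_cast
  field_simp
  ring

theorem g1_ph (o : Ok P p) (d : ℕ) (hd : d ≤ top P) (h1 : 1 ≤ P.I + (top P - d)) :
    E1 P p (NT.ph P d) (PH (sR P p) P.I (2 ^ P.q) (top P - d)) := by
  induction d with
  | zero =>
    rw [Nat.sub_zero, g1_top, PH_top]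
    exact o.oneG
  | succ d ih =>
    have e1 : top P - (d + 1) + 1 = top P - d := by omega
    have e2 : top P - 1 - d = top P - (d + 1) := by omega
    have h2 := ih (by omega) (by omega)
    have h3 := g1_phF o h1
    rw [PH_succ _ (show top P - (d + 1) < 2 ^ P.q - P.I by rw [← g1_top]; omega), e1]
    show E1 P p (gm P (NT.ph P d) (phF P (top P - 1 - d))) _
    rw [e2]
    exact h2.gm o h3

theorem Ok.l2 (o : Ok P p) : E1 P p (l2 P) (Real.log 2) := by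
  refine ((g1_lg o (o.cq 1 (d := 4) (by norm_num)) P.F).add
    (g1_lg o (o.cq 1 (d := 3) (by norm_num)) P.F)).congr ?_
  rw [← neg_add, ← Real.log_mul (by norm_num) (by norm_num), ← Real.log_inv]
  norm_num

theorem E1.lgm (o : Ok P p) (h : E1 P p T x) : E1 P p (lgm P T) (-Real.log x) := by
  refine (g1_lg o (g1_rz o (o.oneG.sub h)) P.nl).congr ?_
  rw [sub_sub_cancel]

theorem Ok.ph (o : Ok P p) {i : ℕ} (h1 : 1 ≤ P.I + i) (h2 : P.I + i ≤ 2 ^ P.q) :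
    E1 P p (ph P (Nat.sub (top P) i)) (PH (sR P p) P.I (2 ^ P.q) i) := by
  have e : top P - (top P - i) = i := by rw [g1_top]; omega
  have h := g1_ph o (top P - i) (Nat.sub_le _ _) (by rw [e]; exact h1)
  rw [e] at h
  exact h

theorem Ok.isl (o : Ok P p) {u v : ℕ} (h : 1 ≤ ((u : ℝ) + v * p.t) / P.sd) :
    E1 P p (isl P u v) (1 / √(((u : ℝ) + v * p.t) / P.sd)) := by
  have hS := g1_S o
  have hW := g1_W o
  have h5 := o.S5
  have hG := o.G
  have k := o.lg1 u v (d := P.sd) o.sd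
  unfold NT.isl
  rw [g1_cG o]
  exact Enc.isq k h le_rfl (by omega) (by omega) (by omega) _ _

theorem Ok.isl2 (o : Ok P p) {u v : ℕ} (h : 1 ≤ ((u : ℝ) + v * p.t) / P.sd) :
    E1 P p (sqG P (NT.isl P u v)) (1 / (((u : ℝ) + v * p.t) / P.sd)) := by
  refine ((o.isl h).gm o (o.isl h)).congr ?_
  rw [div_mul_div_comm, one_mul, Real.mul_self_sqrt (by linarith)]

theorem Ok.muT (o : Ok P p) (m : ℕ) : E1 P p (muT P m) (1 / NR P p m) := by
  have h1 := (o.NR_sq m).2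
  have h2 : 1 ≤ ((nq0 P m : ℝ) + (nq1 P m : ℝ) * p.t) / P.sd := by
    rw [o.nq m]
    exact one_le_pow₀ h1
  refine (o.isl h2).congr ?_
  rw [o.nq m, Real.sqrt_sq (by linarith)]

theorem Ok.zT (o : Ok P p) (m : ℕ) : E1 P p (zT P m) (1 / NR P p m ^ 2) := by
  refine ((o.muT m).gm o (o.muT m)).congr ?_
  rw [div_mul_div_comm, one_mul, sq]

theorem Ok.eT (o : Ok P p) (m : ℕ) : E1 P p (eT P m) ((m + sR P p) / NR P p m) := by
  have a1 : (0 : ℝ) < P.sd := by exact_mod_cast o.sd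
  refine ((o.lg1 (Nat.add (Nat.mul P.sd m) P.sn) P.dn (d := P.sd) o.sd).gm o (o.muT m)).congr ?_
  have e : (((Nat.add (Nat.mul P.sd m) P.sn : ℕ) : ℝ) + P.dn * p.t) / P.sd = m + sR P p := by
    simp only [Nat.add_eq, Nat.mul_eq, sR]
    push_cast
    field_simp
    ring
  rw [e, mul_one_div]

theorem Ok.cf0 (o : Ok P p) (m : ℕ) :
    E1 P p (cf0 P m) ((P.k ^ 2 - sR P p) * ((m + sR P p) / NR P p m) - R0 P) := by
  refine ((((o.oneG.smul (Nat.mul P.k P.k)).sub o.sT).gm o (o.eT m)).sub o.r0).congr ?_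
  simp only [Nat.mul_eq]
  push_cast
  ring

theorem Ok.sn1 (o : Ok P p) (n : ℕ) :
    E1 P p (NT.lg1 P (Nat.add P.sn (Nat.mul P.sd n)) P.dn P.sd) (sR P p + n) := by
  have hs : (0 : ℝ) < P.sd := by exact_mod_cast o.sd
  refine (o.lg1 _ _ o.sd).congr ?_
  simp only [sR, Nat.add_eq, Nat.mul_eq]
  push_cast
  field_simp
  ring

theorem Ok.lnN (o : Ok P p) (m e : ℕ) :
    E1 P p (lnN P m e) (e * Real.log 2 - Real.log (NR P p m ^ 2)) := by
  have hs : (0 : ℝ) < P.sd := by exact_mod_cast o.sd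
  have e0 : Nat.shiftLeft P.sd e = P.sd * 2 ^ e := Nat.shiftLeft_eq _ _
  have hd : 0 < Nat.shiftLeft P.sd e := by rw [e0]; exact Nat.mul_pos o.sd (by positivity)
  refine (E1.lgm o (o.lg1 (nq0 P m) (nq1 P m) hd)).congr ?_
  have hN : 0 < NR P p m := lt_of_lt_of_le one_pos (o.NR_sq m).2
  have e1 : ((nq0 P m : ℝ) + (nq1 P m : ℝ) * p.t) / (Nat.shiftLeft P.sd e : ℕ)
      = NR P p m ^ 2 / 2 ^ e := by
    rw [← o.nq m, e0, div_div]
    push_cast
    rfl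
  rw [e1, Real.log_div (by positivity) (by positivity), Real.log_pow 2]
  ring

theorem Ok.lr (o : Ok P p) :
    E1 P p (lr P) (((P.e3 : ℝ) - P.rq) * Real.log 2 - Real.log (2 * R0 P)) := by
  have hs : (0 : ℝ) < P.rd := by exact_mod_cast o.rd
  have e0 : Nat.shiftLeft P.rd P.e3 = P.rd * 2 ^ P.e3 := Nat.shiftLeft_eq _ _
  have e2 : Nat.shiftLeft (Nat.mul 2 P.rn) P.rq = 2 * P.rn * 2 ^ P.rq := Nat.shiftLeft_eq _ _
  have hd : 0 < Nat.shiftLeft P.rd P.e3 := by rw [e0]; exact Nat.mul_pos o.rd (by positivity)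
  refine (E1.lgm o (o.cq (Nat.shiftLeft (Nat.mul 2 P.rn) P.rq) hd)).congr ?_
  have hR := o.R0_pos
  have e1 : ((Nat.shiftLeft (Nat.mul 2 P.rn) P.rq : ℕ) : ℝ) / (Nat.shiftLeft P.rd P.e3 : ℕ)
      = 2 * R0 P * 2 ^ P.rq / 2 ^ P.e3 := by
    rw [e0, e2, R0]
    push_cast
    field_simp
  rw [e1, Real.log_div (by positivity) (by positivity),
    Real.log_mul (x := 2 * R0 P) (by positivity) (by positivity), Real.log_pow, Real.log_pow]
  ring

theorem Ok.psC (o : Ok P p) : E1 P p (psC P) (2 * sR P p * P.e3 + P.I * P.q) := by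
  have hs : (0 : ℝ) < P.sd := by exact_mod_cast o.sd
  refine (o.lg1 _ _ o.sd).congr ?_
  simp only [sR, Nat.add_eq, Nat.mul_eq]
  push_cast
  field_simp
  ring

theorem Ok.ngC (o : Ok P p) (n e : ℕ) :
    E1 P p (ngC P n e) (2 * sR P p * (P.rq + P.q) + (sR P p + n) * e + 128) := by
  have hs : (0 : ℝ) < P.sd := by exact_mod_cast o.sd
  refine (o.lg1 _ _ o.sd).congr ?_
  simp only [sR, Nat.add_eq, Nat.mul_eq]
  push_cast
  field_simp
  ring

theorem Ok.x0e (o : Ok P p) (n m e : ℕ) :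
    E1 P p (x0e P n m e)
      (X2 (sR P p) P.I (2 ^ P.q) n (NR P p m) (R0 P) (R0 P) - 128 * Real.log 2) := by
  have h1 := E1.gm o (o.sn1 n) (o.lnN m e)
  have h2 := ((E1.gm o o.sT o.lr).add (E1.gm o (o.muT m) o.r0)).smul 2
  have h3 := E1.gm o (o.psC.sub (o.ngC n e)) o.l2
  refine ((h1.sub h2).add h3).congr ?_
  unfold X2
  rw [Nat.cast_pow, Nat.cast_ofNat, Real.log_pow 2 P.q]
  ring

theorem Ok.x0 (o : Ok P p) (n m : ℕ) :
    E1 P p (x0 P n m) (X2 (sR P p) P.I (2 ^ P.q) n (NR P p m) (R0 P) (R0 P) - 128 * Real.log 2) := by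
  exact o.x0e n m (e2 P m)

theorem E2.expT (o : Ok P p) (h : E2 P p 2 T x) :
    E2 P p (2 * P.H) (expT (cE P) (c2 P) P.ne P.me T) (Real.exp (x * 2 ^ P.me)) := by
  have hW := o.W
  have hS := o.S
  have hG := o.G
  have hF := o.FG
  have hL := o.L
  have hL2 := o.L2
  have hD := o.D1
  have hD2 := o.D2
  have hH := o.H
  have k := Enc.expT (C := P.D1 + 1) (E := P.D1) (K := P.L) (C' := 2 * (2 * P.H) - 1)
    (E' := 2 * P.H) h (by omega) (by omega) (by omega) hD (by omega) (by omega) hD2 (by omega)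
    (by omega) P.ne P.me
  rw [hW, hS] at k
  exact k

theorem Ok.amp (o : Ok P p) (n m : ℕ) : ∃ a : ℝ, E2 P p (2 * P.H) (amp P n m) a ∧
    a ^ 2 = Real.exp (X2 (sR P p) P.I (2 ^ P.q) n (NR P p m) (R0 P) (RR P p))
      * 2 ^ (2 * wp P n m) / 2 ^ 128 := by
  unfold NT.amp
  generalize wp P n m = w
  have h1 := (o.x0 n m).add (o.l2.smul (Nat.mul 2 w))
  have h2 := (E1.gm o (o.muT m) o.rh).smul 2
  refine ⟨_, E2.expT o (E1.twoX o h1 h2), ?_⟩
  have e1 : (2 : ℝ) ^ (2 * w) = Real.exp ((2 * w : ℕ) * Real.log 2) := by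
    rw [Real.exp_nat_mul, Real.exp_log two_pos]
  have e2 : (2 : ℝ) ^ 128 = Real.exp ((128 : ℕ) * Real.log 2) := by
    rw [Real.exp_nat_mul, Real.exp_log two_pos]
  rw [e1, e2, ← Real.exp_add, ← Real.exp_sub, ← Real.exp_nat_mul]
  refine congrArg Real.exp ?_
  have hN : 0 < NR P p m := lt_of_lt_of_le one_pos (o.NR_sq m).2
  simp only [X2, RR, Nat.mul_eq]
  push_cast
  field_simp
  ring

end

end Pool.Agent.Lib.MP_2347b2_mp.F.NT
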