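import Pool.Agent.Lib.MP_2347b2_mp.F.NG1

/-!
Soundness of the program: the recurrence.
-/

namespace Pool.Agent.Lib.MP_2347b2_mp.F.NT

noncomputable section

/-- the invariant of the recurrence -/
structure Inv (P : Fm) (p : Pt) (n m : ℕ) (b : ℝ) (j : ℕ) (A : Ac) : Prop where
  ch : A.ch = n.choose j
  n0 : 0 < A.n0
  d0 : 0 < A.d0
  n1 : 0 < A.n1
  d1 : 0 < A.d1
  p0 : EA P p A.p0 (A.n0 / A.d0 * (pp (fun _ => 1) n b (NR P p m ^ 2) (2 * RR P p) j).1)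
  q0 : EA P p A.q0 (A.n0 / A.d0 * (pp (fun j => j) n b (NR P p m ^ 2) (2 * RR P p) j).1)
  p1 : EA P p A.p1 (A.n1 / A.d1 * (pp (fun _ => 1) n b (NR P p m ^ 2) (2 * RR P p) j).2)
  q1 : EA P p A.q1 (A.n1 / A.d1 * (pp (fun j => j) n b (NR P p m ^ 2) (2 * RR P p) j).2)

variable {P : Fm} {p : Pt} {T U : TM} {x y : ℝ}

variable {g0 n m j : ℕ} {b : ℝ} {A : Ac}

theorem Ok.bin (o : Ok P p) (j : ℕ) : Enc p True (j + 1) 1 (bin P j) ((2 ^ P.c + p.τ) ^ j) := by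
  induction j with
  | zero => exact enc_one.congr (by simp)
  | succ j ih =>
    have e : ws P = Nat.mul p.W p.S := by rw [o.W, o.S]; rfl
    have h2 : Enc p True 2 1 (y2 (ws P) (pw P.c) 0) (2 ^ P.c + p.τ) := by
      rw [e]
      refine (enc_y2R (u := pw P.c) (w := 0) fun _ => rfl).congr ?_
      rw [pw_eq]
      push_cast
      ring
    exact ((ih.mulP h2).mono id (by omega) le_rfl).congr (pow_succ _ _)

theorem Ok.ff3 (o : Ok P p) (hb : P.sd * (b - 1) = g0 + 2 * P.dn * p.t) (m j : ℕ) :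
    Enc p True 1 4 (ff3 P g0 m j) (P.sd ^ 3 * ((b + j) * (b + j - 1) * NR P p m ^ 2)) := by
  have sd0 : (0 : ℝ) < P.sd := by exact_mod_cast o.sd
  have g : ∀ i : ℕ, Enc p True 1 2 (gam P g0 i) (P.sd * (b + i - 1)) := by
    intro i
    unfold gam
    rw [← o.W]
    refine enc_liT (le_of_eq ?_)
    have e : (P.sd : ℝ) * (b + i - 1) - (((Nat.add g0 (Nat.mul P.sd i) : ℕ) : ℝ)
        + ((Nat.mul 2 P.dn : ℕ) : ℝ) * p.t) = 0 := by
      simp only [Nat.add_eq, Nat.mul_eq]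
      push_cast
      linear_combination hb
    rw [e]
    simp
  have h3 : Enc p True 1 2 (li P.W (nq0 P m) (nq1 P m) 0) (P.sd * NR P p m ^ 2) := by
    rw [← o.W]
    refine enc_liT (le_of_eq ?_)
    rw [← o.nq m, mul_div_cancel₀ _ sd0.ne']
    simp
  refine ((((g (j + 1)).mulP (g j)).mulP h3).mono id le_rfl le_rfl).congr ?_
  push_cast
  ring

theorem ng2_new (o : Ok P p) (hj : j + 2 ≤ 2 * P.A) {X f : TM} {u v w : ℝ} {e a d : ℕ}
    (he : e ≤ P.G) (hX : EA P p X u) (hf : Enc p True 1 4 f v) (ha : |w * 2 ^ (P.F + P.G) - a| ≤ d) :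
    EA P p (rndP (cA P) (add (mulP X (smul (pw (Nat.sub P.G e)) f))
      (mulP (cst a d) (bin P (j + 1))))) (u * v / 2 ^ e + w * (2 ^ P.c + p.τ) ^ (j + 1)) := by
  have h5 := o.S5
  have hS := o.S
  have h1 : Enc p True (2 * P.A) p.S _ _ :=
    (Enc.mulP hX (hf.smul (pw (Nat.sub P.G e)))).mono id (by omega) (by omega)
  have h2 : Enc p True (2 * P.A) p.S _ _ :=
    ((enc_cst (p := p) (q := True) ha).mulP (o.bin (j + 1))).mono id (by omega) (by omega)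
  have h3 := (h1.add h2).rndP (C := 2 * P.A) (K := P.S - 3) (g := P.G) le_rfl le_rfl (by omega)
    (by rw [o.W]; exact o.G)
  rw [o.W, o.S] at h3
  refine Enc.congr h3 ?_
  obtain ⟨k, hk⟩ := Nat.exists_eq_add_of_le he
  have e1 : Nat.sub P.G e = k := by simp only [Nat.sub_eq]; omega
  rw [e1, pw_eq, hk]
  generalize (2 ^ P.c + p.τ) ^ (j + 1) = z
  rw [pow_add, pow_add]
  push_cast
  field_simp

theorem ng2_st2 (o : Ok P p) (h : Inv P p n m b j A) (hj : j + 2 ≤ 2 * P.A) {f : TM}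
    (hf : Enc p True 1 4 f (P.sd ^ 3 * ((b + j) * (b + j - 1) * NR P p m ^ 2))) {e : ℕ}
    (he : e ≤ P.G) : Inv P p n m b (j + 1) (st2 P n j A f e) := by
  have hc : Nat.div (Nat.mul A.ch (Nat.sub n j)) (Nat.succ j) = n.choose (j + 1) := by
    show A.ch * (n - j) / (j + 1) = _
    rw [h.ch, ← Nat.choose_succ_right_eq, Nat.mul_div_cancel _ (Nat.succ_pos j)]
  have n0 : 0 < Nat.mul A.n0 (Nat.pow P.sd 3) := Nat.mul_pos h.n0 (Nat.pow_pos o.sd)
  have ed : Nat.shiftLeft A.d0 e = A.d0 * 2 ^ e := Nat.shiftLeft_eq _ _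
  have er : Nat.shiftLeft P.rd P.c = P.rd * 2 ^ P.c := Nat.shiftLeft_eq _ _
  have d0 : 0 < Nat.shiftLeft A.d0 e := by rw [ed]; exact Nat.mul_pos h.d0 (Nat.two_pow_pos _)
  have r0 : 0 < Nat.shiftLeft P.rd P.c := by rw [er]; exact Nat.mul_pos o.rd (Nat.two_pow_pos _)
  have ha := abs_divq (Nat.add P.F P.G)
    (Nat.mul (Nat.mul (Nat.div (Nat.mul A.ch (Nat.sub n j)) (Nat.succ j))
      (Nat.pow (Nat.mul 2 P.rn) (Nat.succ j))) (Nat.mul A.n0 (Nat.pow P.sd 3)))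
    (d := Nat.mul (Nat.pow (Nat.shiftLeft P.rd P.c) (Nat.succ j)) (Nat.shiftLeft A.d0 e))
    (Nat.mul_pos (Nat.pow_pos r0) d0)
  have rd0 : (0 : ℝ) < P.rd := by exact_mod_cast o.rd
  have dd0 : (0 : ℝ) < A.d0 := by exact_mod_cast h.d0
  refine ⟨hc, h.n1, h.d1, n0, d0, h.p1, h.q1, ?_, ?_⟩
  · refine Enc.congr (ng2_new o hj he h.p0 hf (ha.trans_eq Nat.cast_one.symm)) ?_
    congr 1
    show ((Nat.mul A.n0 (Nat.pow P.sd 3) : ℕ) : ℝ) / ((Nat.shiftLeft A.d0 e : ℕ) : ℝ) * _ = _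
    rw [hc, ed, er]
    simp only [pp, RR, R0, Nat.mul_eq, Nat.pow_eq, Nat.succ_eq_add_one]
    push_cast
    have e2 : 2 * ((P.rn : ℝ) / P.rd * (1 + p.τ / 2 ^ P.c))
        = 2 * P.rn / (P.rd * 2 ^ P.c) * (2 ^ P.c + p.τ) := by field_simp
    rw [e2, mul_pow, div_pow]
    field_simp
    ring
  · have hq := mul_le_mul_of_nonneg_left ha (Nat.cast_nonneg (α := ℝ) (j + 1))
    rw [mul_one, ← abs_of_nonneg (Nat.cast_nonneg (α := ℝ) (j + 1)), ← abs_mul,
      abs_of_nonneg (Nat.cast_nonneg (α := ℝ) (j + 1)), mul_sub, ← mul_assoc, ← Nat.cast_mul] at hq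
    refine Enc.congr (ng2_new o hj he h.q0 hf hq) ?_
    congr 1
    show ((Nat.mul A.n0 (Nat.pow P.sd 3) : ℕ) : ℝ) / ((Nat.shiftLeft A.d0 e : ℕ) : ℝ) * _ = _
    rw [hc, ed, er]
    simp only [pp, RR, R0, Nat.mul_eq, Nat.pow_eq, Nat.succ_eq_add_one]
    push_cast
    have e2 : 2 * ((P.rn : ℝ) / P.rd * (1 + p.τ / 2 ^ P.c))
        = 2 * P.rn / (P.rd * 2 ^ P.c) * (2 ^ P.c + p.τ) := by field_simp
    rw [e2, mul_pow, div_pow]
    field_simp
    ring

theorem Inv.step (o : Ok P p) (hb : P.sd * (b - 1) = g0 + 2 * P.dn * p.t) (h : Inv P p n m b j A)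
    (hj : j + 2 ≤ 2 * P.A) : Inv P p n m b (j + 1) (st1 P n j A (NT.ff3 P g0 m j)) := by
  exact ng2_st2 o h hj (o.ff3 hb m j) (Nat.sub_le _ _)

theorem Ok.acc (o : Ok P p) (hb : P.sd * (b - 1) = g0 + 2 * P.dn * p.t) (hj : j + 1 ≤ 2 * P.A) :
    Inv P p n m b j (acc P g0 n m j) := by
  have h5 := o.S5
  induction j with
  | zero =>
    have z : ∀ v : ℝ, EA P p (cst 0 0) (v * 0) := fun v =>
      (enc_cst (p := p) (q := True) (by simp)).mono id (by omega) (by omega)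
    have k0 : 0 < kap P m := by unfold kap; rw [pw_eq]; exact Nat.two_pow_pos _
    have f0 : 0 < pw P.fx := by rw [pw_eq]; exact Nat.two_pow_pos _
    have n0 : 0 < Nat.shiftLeft (Nat.mul (Nat.succ (Nat.div g0 P.sd)) (Nat.add m P.k)) P.fx := by
      rw [Nat.shiftLeft_eq', Nat.shiftLeft_eq]
      exact Nat.mul_pos (Nat.mul_pos (Nat.succ_pos _) (Nat.add_pos_right _ o.k)) (Nat.two_pow_pos _)
    refine ⟨(Nat.choose_zero_right n).symm, n0, k0, f0, k0, z _, z _, ?_, ?_⟩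
    · exact ((enc_cq (p := p) (q := True) P.F (pw P.fx) k0).mono id (by omega) (by omega)).congr
        (by simp only [pp, mul_one]; rfl)
    · exact (z 1).congr (by simp [pp])
  | succ j ih => exact Inv.step o hb (ih (by omega)) hj

theorem EA.comb (o : Ok P p) (h : EA P p T x) (k : EA P p U y) {M : TM} {z : ℝ} (l : E1 P p M z) :
    E2 P p (2 * P.H) (comb P T U M) (x - y * z) := by
  have hS := o.S
  have hW := o.W
  have h5 := o.S5
  have hL := o.L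
  have hH := o.H
  obtain ⟨x0, x1, a0, a1, a2⟩ := Enc.split (C := P.A) h le_rfl (by omega)
  obtain ⟨y0, y1, b0, b1, b2⟩ := Enc.split (C := P.A) k le_rfl (by omega)
  have cb : ∀ {X Y : TM} {u v : ℝ}, Enc p.dbl True P.A (P.S - 3) X u →
      Enc p.dbl True P.A (P.S - 3) Y v → Enc p False (2 * P.H - 1) P.L (cb1 P X Y M) (u - v * z) := by
    intro X Y u v hX hY
    have e1 : Enc p.dbl False P.A (2 * P.S) (smul (pw P.G) X) ((pw P.G : ℕ) * u) :=
      (hX.smul (pw P.G)).mono False.elim le_rfl (by omega)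
    have e2 : Enc p.dbl False P.A (2 * P.S) (mul Y M) (v * (z * 2 ^ P.G)) :=
      (hY.mul l).mono id (by omega) (by omega)
    have d1 : p.dbl.S = 2 * P.S := by rw [← hS]; rfl
    have d2 : p.dbl.W = P.W := hW
    have e3 := (e1.sub e2).rnd (C := P.A) (E := P.H) (K := P.L) (g := P.G) le_rfl d1.ge o.HA
      (by omega) (by rw [d2]; exact o.G)
    rw [d1, d2] at e3
    refine Enc.undbl (Enc.congr e3 ?_)
    rw [pw_eq]
    push_cast
    field_simp
  have c0 := (cb a0 b0).mono id (show 2 * P.H - 1 ≤ 2 * P.H by omega) le_rfl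
  have c1 := (cb a1 b1).shR.mono id (show 2 * P.H - 1 + 1 ≤ 2 * P.H by omega) le_rfl
  have c2 := (c0.add c1).addE (y := (x - y * z) * 2 ^ P.F)
    (d := Nat.add T.e (Nat.succ (Nat.shiftRight (Nat.mul U.e (nrm M)) P.G)))
    (u := Nat.add (Nat.add T.B U.B) M.B) fun _ hu => by
      have hu' : T.B + U.B + M.B < 2 ^ (p.W - 1) := hu
      have f1 := a2 (by omega)
      have f2 := b2 (by omega)
      have f3 : |z * 2 ^ P.G| ≤ nrm M := Enc.abs_le l (show M.B < 2 ^ (p.W - 1) by omega)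
      have g2 : (0 : ℝ) < 2 ^ P.G := by positivity
      rw [abs_mul, abs_of_pos g2, ← le_div_iff₀ g2] at f3
      have f4 : |z * (y * 2 ^ P.F - (y0 + p.τ * y1))| ≤ ((U.e * nrm M : ℕ) : ℝ) / 2 ^ P.G := by
        rw [abs_mul]
        refine (mul_le_mul f3 f2 (abs_nonneg _) (by positivity)).trans (le_of_eq ?_)
        push_cast
        ring
      have f5 := div_le_shr (U.e * nrm M) P.G
      have f6 := abs_sub (x * 2 ^ P.F - (x0 + p.τ * x1)) (z * (y * 2 ^ P.F - (y0 + p.τ * y1)))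
      rw [show (x - y * z) * 2 ^ P.F - (x0 - y0 * z + p.τ * (x1 - y1 * z)) =
        x * 2 ^ P.F - (x0 + p.τ * x1) - z * (y * 2 ^ P.F - (y0 + p.τ * y1)) by ring]
      show _ ≤ ((T.e + ((U.e * nrm M) >>> P.G + 1) : ℕ) : ℝ)
      rw [Nat.cast_add, Nat.cast_add, Nat.cast_one]
      linarith
  rw [hW, hS] at c2
  exact c2

theorem Inv.mT (o : Ok P p) (hb : P.sd * (b - 1) = g0 + 2 * P.dn * p.t) (h : Inv P p n m b j A) :
    E1 P p (mT P g0 n m A) (NR P p m * (b + n - 1) * ((A.n1 * A.d0 : ℝ) / (A.d1 * A.n0))) := by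
  have hs : 0 < P.sd := o.sd
  have hs' : (P.sd : ℝ) ≠ 0 := by exact_mod_cast hs.ne'
  have hN : NR P p m ≠ 0 := by have := (o.NR_sq m).2; intro e; rw [e] at this; norm_num at this
  have e1 := (o.lg1 (nq0 P m) (nq1 P m) hs).congr (o.nq m).symm
  have e2 := o.lg1 (Nat.add g0 (Nat.mul P.sd n)) (Nat.mul 2 P.dn) hs
  have e3 := o.cq (Nat.mul A.n1 A.d0) (d := Nat.mul A.d1 A.n0) (Nat.mul_pos h.d1 h.n0)
  refine (((e1.gm o (o.muT m)).gm o e2).gm o e3).congr ?_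
  simp only [Nat.add_eq, Nat.mul_eq]
  push_cast
  have e4 : ((g0 : ℝ) + P.sd * n + 2 * P.dn * p.t) / P.sd = b + n - 1 := by
    rw [div_eq_iff hs']
    linarith
  have e5 : NR P p m ^ 2 * (1 / NR P p m) = NR P p m := by field_simp
  rw [e4, e5]

theorem Inv.u (o : Ok P p) (hb : P.sd * (b - 1) = g0 + 2 * P.dn * p.t) (h : Inv P p n m b n A) :
    E2 P p (2 * P.H) (comb P A.p1 A.p0 (NT.mT P g0 n m A))
      (A.n1 / A.d1 * UU (fun _ => 1) n b (NR P p m) (2 * RR P p)) ∧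
    E2 P p (2 * P.H) (comb P A.q1 A.q0 (NT.mT P g0 n m A))
      (A.n1 / A.d1 * UU (fun j => j) n b (NR P p m) (2 * RR P p)) := by
  have a0 : (A.n0 : ℝ) ≠ 0 := by exact_mod_cast h.n0.ne'
  have a1 : (A.d0 : ℝ) ≠ 0 := by exact_mod_cast h.d0.ne'
  have a2 : (A.d1 : ℝ) ≠ 0 := by exact_mod_cast h.d1.ne'
  refine ⟨(h.p1.comb o h.p0 (h.mT o hb)).congr ?_, (h.q1.comb o h.q0 (h.mT o hb)).congr ?_⟩
  · unfold UU
    field_simp
  · unfold UU
    field_simp

end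

end Pool.Agent.Lib.MP_2347b2_mp.F.NT
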