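import Pool.Agent.Lib.MP_2347b2_mp.F.NG2

/-!
Soundness of the program: the states.
-/

namespace Pool.Agent.Lib.MP_2347b2_mp.F.NT

noncomputable section

variable {γ : ℝ}

variable {P : Fm} {p : Pt} {T U : TM} {x y : ℝ}

theorem Ok.kc (o : Ok P p) (u : ℕ) {v : ℕ} (hv : 0 < v) (n m : ℕ) {A : Ac} (h : 0 < A.n1) :
    E1 P p (kc P u v n m A)
      (u * (A.d1 : ℝ) ^ 2 * 2 ^ (128 + P.om) / (v * (A.n1 : ℝ) ^ 2 * 2 ^ (2 * wp P n m))) := by
  have hd : 0 < Nat.shiftLeft (Nat.mul v (Nat.mul A.n1 A.n1)) (Nat.mul 2 (wp P n m)) := by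
    rw [Nat.shiftLeft_eq', Nat.shiftLeft_eq]
    simp only [Nat.mul_eq]
    positivity
  refine (o.cq _ hd).congr ?_
  simp only [Nat.shiftLeft_eq', Nat.shiftLeft_eq, Nat.mul_eq, Nat.add_eq]
  push_cast
  ring

theorem Ok.tp3 (o : Ok P p) (m : ℕ) {w g g1 : TM} {a u v : ℝ} (hw : E1 P p w a)
    (hg : E2 P p (2 * P.H) g u) (h1 : E2 P p (2 * P.H) g1 v) :
    E2 P p (2 * P.H) (tp3 P m w g g1)
      (a * FT P.k (sR P p) ((m + sR P p) / NR P p m) (1 / NR P p m ^ 2) (RR P p) u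
        ((2 * sR P p + 1 - RR P p / NR P p m) * u + v)) := by
  have hsd : (P.sd : ℝ) ≠ 0 := by
    have := o.sd
    positivity
  have a0 := hw.gm o (o.cf0 m)
  have a1 := hw.gm o o.rh
  have sz := o.sT.gm o (o.zT m)
  have b1 := a0.two o a1
  have b2 := ((a0.gm o sz).sub ((hw.gm o ((o.oneG.sub ((o.zT m).smul (Nat.mul P.k P.k))).gm o
    (o.eT m))).smul 2)).two o (a1.gm o sz)
  have e := (o.eT m).dn o
  have G := ((((o.lg1 (Nat.add (Nat.mul 2 P.sn) P.sd) (Nat.mul 2 P.dn) o.sd).sub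
    ((o.muT m).gm o o.r0)).two o ((o.muT m).gm o o.rh)).f3 o le_rfl hg).add h1
  have V := o.rT.f3 o le_rfl hg
  have hl : (((Nat.add (Nat.mul 2 P.sn) P.sd : ℕ) : ℝ) + ((Nat.mul 2 P.dn : ℕ) : ℝ) * p.t) / P.sd
      = 2 * sR P p + 1 := by
    simp only [Nat.mul_eq, Nat.add_eq, sR]
    push_cast
    field_simp
    ring
  rw [hl] at G
  refine ((b1.f3 o le_rfl (G.f2 o (((o.sT.dn o).f3 o one_le_two G).sub
    ((e.f3 o one_le_two V).smul 2)))).add (b2.f3 o le_rfl (V.f2 o V))).congr ?_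
  simp only [Nat.mul_eq, FT, RR]
  push_cast
  ring

theorem Ok.bb3 (o : Ok P p) {w c g : TM} {a z u : ℝ} (hw : E1 P p w a) (hc : E1 P p c (z - R0 P))
    (hg : E2 P p (2 * P.H) g u) : E2 P p (2 * P.H) (bb3 P w c g) (a * ((z - RR P p) * u ^ 2)) := by
  refine (((hw.gm o hc).two o (hw.gm o o.rh)).f3 o le_rfl (hg.f2 o hg)).congr ?_
  unfold RR
  ring

theorem Ok.stT (o : Ok P p) (h0 : 0 < γ) (h1 : γ < 1) (hs : sR P p = sOf γ P.k) {n : ℕ}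
    (hA : n + 1 ≤ 2 * P.A) (hq : P.I + n + 2 ≤ 2 ^ P.q) :
    ∃ x, E2 P p (2 * P.H) (stT P n) (x * 2 ^ P.om) ∧ Tp γ P.k n (RR P p)
      = th (2 ^ P.q) (2 * sR P p - P.I) * (RR P p / R0 P) ^ (2 * sR P p) * x := by
  have hsd : (P.sd : ℝ) ≠ 0 := by
    have := o.sd
    positivity
  have hs0 := o.s_nonneg
  have hN : NR P p (n + 1) = NN γ (sR P p) n := by
    have hp : 0 < NN γ (sR P p) n := NN_pos (by linarith) n
    have := NN_Tp h0 h1 o.k n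
    rw [← hs] at this
    unfold NR
    push_cast
    rw [← this, Real.sqrt_sq hp.le]
  have hb : (P.sd : ℝ) * (2 * sR P p + 2 - 1)
      = ((Nat.add (Nat.mul 2 P.sn) P.sd : ℕ) : ℝ) + 2 * P.dn * p.t := by
    simp only [Nat.mul_eq, Nat.add_eq, sR]
    push_cast
    field_simp
    ring
  have iv := o.acc (n := n) (m := n + 1) hb hA
  obtain ⟨u1, u2⟩ := iv.u o hb
  obtain ⟨a, ha, ha2⟩ := o.amp n (n + 1)
  have hl : (((Nat.add (Nat.add (Nat.mul 2 P.sn) P.sd) (Nat.mul P.sd n) : ℕ) : ℝ)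
      + ((Nat.mul 2 P.dn : ℕ) : ℝ) * p.t) / P.sd = 2 * sR P p + n + 1 := by
    simp only [Nat.mul_eq, Nat.add_eq, sR]
    push_cast
    field_simp
    ring
  have hn0 : (0 : ℝ) ≤ n := Nat.cast_nonneg n
  have i2 := o.isl2 (u := Nat.add (Nat.add (Nat.mul 2 P.sn) P.sd) (Nat.mul P.sd n))
    (v := Nat.mul 2 P.dn) (by rw [hl]; linarith)
  rw [hl] at i2
  have hv : 0 < Nat.mul (Nat.mul (n + 1) (fac n)) (fac (Nat.add P.I (n + 1))) := by
    simp only [Nat.mul_eq, fac_eq]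
    positivity
  have w := (((o.kc (Nat.mul 4 P.k) hv n (n + 1) iv.n1).gm o (o.zT (n + 1))).gm o
    (o.ph (i := n + 2) (by omega) (by omega))).gm o i2
  have r := o.tp3 (n + 1) w (u1.f2 o ha) (u2.f2 o ha)
  refine ⟨_, r.congr ?_, Tp_form h0 h1 o.k n o.RR_pos o.R0_pos hq hs hN⟩
  have hn1 : ((NT.acc P (Nat.add (Nat.mul 2 P.sn) P.sd) n (n + 1) n).n1 : ℝ) ≠ 0 := by
    have := iv.n1
    positivity
  have hd1 : ((NT.acc P (Nat.add (Nat.mul 2 P.sn) P.sd) n (n + 1) n).d1 : ℝ) ≠ 0 := by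
    have := iv.d1
    positivity
  generalize ((NT.acc P (Nat.add (Nat.mul 2 P.sn) P.sd) n (n + 1) n).n1 : ℝ) = c1 at hn1 ⊢
  generalize ((NT.acc P (Nat.add (Nat.mul 2 P.sn) P.sd) n (n + 1) n).d1 : ℝ) = c2 at hd1 ⊢
  generalize UU (fun _ => 1) n (2 * sR P p + 2) (NR P p (n + 1)) (2 * RR P p) = U1
  generalize UU (fun j => j) n (2 * sR P p + 2) (NR P p (n + 1)) (2 * RR P p) = U2
  have hF : ∀ k s E z R c e : ℝ, FT k s E z R (c * U1 * a) (e * (c * U1 * a) + c * U2 * a)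
      = c ^ 2 * a ^ 2 * FT k s E z R U1 (e * U1 + U2) := by
    intro k s E z R c e
    unfold FT
    ring
  rw [hF, ha2]
  simp only [Nat.mul_eq, Nat.add_eq, fac_eq, ← add_assoc]
  push_cast
  generalize FT _ _ _ _ _ _ _ = Φ
  have f1 : (n.factorial : ℝ) ≠ 0 := by positivity
  have f2 : ((P.I + n + 1).factorial : ℝ) ≠ 0 := by positivity
  have f3 : (n : ℝ) + 1 ≠ 0 := by positivity
  have f4 : 2 * sR P p + n + 1 ≠ 0 := by positivity
  have f5 : NR P p (n + 1) ≠ 0 := by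
    have := (o.NR_sq (n + 1)).2
    positivity
  rw [pow_add]
  field_simp

theorem Ok.stB (o : Ok P p) (h0 : 0 < γ) (h1 : γ < 1) (hs : sR P p = sOf γ P.k) {n : ℕ}
    (hA : n + 1 ≤ 2 * P.A) (hq : P.I + n ≤ 2 ^ P.q) (hI : 1 ≤ P.I) (hd : P.sd + P.dn ≤ P.sn) :
    ∃ x, E2 P p (2 * P.H) (stB P n) (x * 2 ^ P.om) ∧
      -(ck γ P.k * F.bt γ (sOf γ P.k - 1) n (RR P p))
      = th (2 ^ P.q) (2 * sR P p - P.I) * (RR P p / R0 P) ^ (2 * sR P p) * x := by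
  have hN : NR P p n = NN γ (sR P p - 1) n := by
    have hs0 := sk_pos h0 h1 o.k
    have hp := NN_pos (γ := γ) (by linarith : -1 < sOf γ P.k - 1) n
    rw [NR, hs, ← NN_bt h0 h1 o.k n, Real.sqrt_sq hp.le]
  have hsd : (0 : ℝ) < P.sd := by exact_mod_cast o.sd
  have hb : P.sd * (2 * sR P p - 1)
      = (Nat.sub (Nat.mul 2 P.sn) P.sd : ℕ) + 2 * P.dn * p.t := by
    rw [Nat.sub_eq, Nat.mul_eq, Nat.cast_sub (by omega), sR]
    push_cast
    field_simp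
    ring
  have hv := o.acc (n := n) (m := n) hb hA
  have h1s : 1 ≤ ((P.sn : ℝ) + P.dn * p.t) / P.sd := by
    have e : (P.sd : ℝ) + P.dn ≤ P.sn := by exact_mod_cast hd
    have := mul_nonneg (P.dn.cast_nonneg (α := ℝ)) (neg_le_iff_add_nonneg'.mp (abs_le.mp p.ht).1)
    rw [le_div_iff₀ hsd]
    linarith
  have hf : 0 < Nat.mul (fac n) (fac (Nat.sub (Nat.add P.I n) 1)) := by
    rw [fac_eq, fac_eq]
    exact Nat.mul_pos (Nat.factorial_pos _) (Nat.factorial_pos _)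
  obtain ⟨a, ha, ea⟩ := o.amp n n
  have hw := (((o.kc P.k hf n n hv.n1).gm o (o.zT n)).gm o
    (o.ph (i := n) (by omega) hq)).gm o (o.isl2 h1s)
  have hE := o.bb3 hw (o.cf0 n) ((hv.u o hb).1.f2 o ha)
  rw [← hs]
  refine ⟨_, hE.congr ?_, bt_form h0 h1 o.k n o.RR_pos o.R0_pos hI hq hs hN⟩
  generalize NT.acc P (Nat.sub (Nat.mul 2 P.sn) P.sd) n n n = A at hv
  have n1 : (0 : ℝ) < A.n1 := by exact_mod_cast hv.n1
  have d1 : (0 : ℝ) < A.d1 := by exact_mod_cast hv.d1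
  rw [mul_pow, mul_pow, ea, fac_eq, fac_eq, ← sR, pow_add]
  simp only [Nat.mul_eq, Nat.sub_eq, Nat.add_eq, Nat.cast_mul]
  generalize (P.k ^ 2 - sR P p) * ((n + sR P p) / NR P p n) - RR P p = c
  field_simp

theorem Ok.st0 (o : Ok P p) (h0 : 0 < γ) (h1 : γ < 1) (hs : sR P p = sOf γ P.k)
    (hq : P.I + 1 ≤ 2 ^ P.q) :
    ∃ x, E2 P p (2 * P.H) (st0 P) (x * 2 ^ P.om) ∧ t0 γ P.k (RR P p)
      = th (2 ^ P.q) (2 * sR P p - P.I) * (RR P p / R0 P) ^ (2 * sR P p) * x := by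
  have hk : (0 : ℝ) < P.k := by exact_mod_cast o.k
  have hN : NR P p 0 = P.k := by
    rw [NR]
    simp [Real.sqrt_sq hk.le]
  have hf : 0 < Nat.shiftLeft (Nat.mul P.k (fac P.I)) (Nat.mul 2 (wp P 0 0)) := by
    rw [fac_eq, Nat.shiftLeft_eq', Nat.shiftLeft_eq]
    exact Nat.mul_pos (Nat.mul_pos o.k (Nat.factorial_pos _)) (Nat.two_pow_pos _)
  obtain ⟨a, ha, ea⟩ := o.amp 0 0
  have hw := (o.cq (pw (Nat.add 129 P.om)) hf).gm o (o.ph (i := 1) (by omega) hq)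
  have hc : E1 P p _ (P.k * sR P p - P.k - R0 P) :=
    ((o.sT.smul P.k).sub (o.r0.add (o.oneG.smul P.k))).congr (by ring)
  refine ⟨_, (o.bb3 hw hc ha).congr ?_, t0_form h0 h1 o.k o.RR_pos o.R0_pos hq hs⟩
  have hI : (0 : ℝ) < P.I.factorial := by exact_mod_cast P.I.factorial_pos
  rw [ea, hN, fac_eq, pw_eq, Nat.shiftLeft_eq', Nat.shiftLeft_eq, Nat.add_eq, Nat.mul_eq,
    Nat.mul_eq]
  push_cast
  rw [pow_add]
  field_simp
  ring

end

end Pool.Agent.Lib.MP_2347b2_mp.F.NT
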