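import Pool.Agent.Lib.MP_2347b2_mp.F.NG0

/-!
Soundness of the program: the bounds on boxes.
-/

namespace Pool.Agent.Lib.MP_2347b2_mp.F.NT

noncomputable section

/-- the value of a field -/
def uval (Us i : ℕ) : ℝ := ((fld Us i : ℝ) - 1073741824) / 1048576

/-- the left end of the box `i` -/
def Rb (rn rd c qb i : ℕ) : ℝ := (rbn rn c qb i : ℝ) / rbd rd c qb

variable {P : Fm} {p : Pt} {T U : TM} {x y : ℝ}

theorem band_iff {a b : Bool} : band a b = true ↔ a = true ∧ b = true := by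
  cases a <;> simp [band]

theorem blt_iff {a b : ℕ} : blt a b = true ↔ a < b := by
  exact ⟨fun h => Nat.le_of_ble_eq_true h, fun h => Nat.ble_eq_true_of_le h⟩

theorem allB_iff {f : ℕ → Bool} {n : ℕ} : allB f n = true ↔ ∀ i < n, f i = true := by
  induction n with
  | zero => exact ⟨fun _ i h => absurd h (Nat.not_lt_zero i), fun _ => rfl⟩
  | succ n ih =>
    have e : allB f (n + 1) = band (f n) (allB f n) := rfl
    rw [e, band_iff, ih]
    refine ⟨fun h i hi => ?_, fun h => ⟨h n (Nat.lt_succ_self n), fun i hi => h i (by omega)⟩⟩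
    rcases Nat.lt_succ_iff_lt_or_eq.1 hi with k | k
    · exact h.2 i k
    · rw [k]
      exact h.1

theorem Ok.ys (o : Ok P p) : E2 P p (2 * P.H) (ys P) ((RR P p / R0 P) ^ (2 * sR P p)) := by
  have hF : P.F < p.W := by have := o.W; have := o.G; have := o.FG; omega
  have hS := o.S
  have hL := o.L
  have hL2 := o.L2
  have hH := o.H
  have e2 : c2 P = mkCx p.W p.S (2 * (2 * P.H) - 1) (2 * P.H) P.L P.F := by
    rw [o.W, o.S]
    rfl
  have e3 : c3 P = mkCx p.W p.S (2 * P.H + 1) (2 * P.H) P.L P.F := by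
    rw [o.W, o.S]
    rfl
  have ew : ws P = Nat.mul p.W p.S := by
    rw [o.W, o.S]
    rfl
  have hsd : 0 < Nat.shiftLeft P.sd P.my := by
    have := o.sd
    simp only [Nat.shiftLeft_eq', Nat.shiftLeft_eq]
    positivity
  have a1 : Enc p False 2 1 (neg (lq (Nat.mul p.W p.S) P.F 0 1 (pw P.c)))
      (-(p.τ / 2 ^ P.c) * 2 ^ P.F) :=
    (enc_lqR (q := False) P.F 0 1 (d := pw P.c) (by rw [pw_eq]; positivity)).neg.congr
      (by rw [pw_eq]; push_cast; ring)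
  have a2 := a1.lg (C := 2 * P.H + 1) (E := 2 * P.H) (K := P.L) (by omega) (by omega) (by omega)
    (by omega) (by omega) (by omega) hF P.ny
  have a3 := (enc_lqT (p := p) (q := False) P.F (Nat.mul 2 P.sn) (Nat.mul 2 P.dn) hsd).fmS a2
    (C := 2 * P.H + 1) (E := 2 * P.H) (K := P.L) (b := P.F) (by omega) (by omega) (by omega)
    (by omega) hF rfl
  have a4 := (a3.neg.congr (neg_mul _ _)).expT (C := 2 * (2 * P.H) - 1) (E := 2 * P.H) (K := P.L)
    (C' := 2 * (2 * P.H) - 1) (E' := 2 * P.H) (by omega) (by omega) (by omega) (by omega)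
    (by omega) hF le_rfl (by omega) (by omega) P.ne P.my
  have hc : (2 : ℝ) ≤ 2 ^ P.c := by
    calc (2 : ℝ) = 2 ^ 1 := by norm_num
      _ ≤ 2 ^ P.c := pow_le_pow_right₀ one_le_two o.c
  have hp : 0 < 1 + p.τ / 2 ^ P.c := by
    have h1 := (abs_le.1 p.hτ).1
    have h2 : -1 < p.τ / 2 ^ P.c := by
      rw [lt_div_iff₀ (by positivity)]
      linarith
    linarith
  have hR := o.R0_pos
  have hd : (0 : ℝ) < P.sd := by exact_mod_cast o.sd
  have er : RR P p / R0 P = 1 + p.τ / 2 ^ P.c := by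
    unfold RR
    field_simp
  unfold E2 NT.ys
  rw [e2, e3, ew, ← o.W]
  refine a4.congr ?_
  rw [er, Real.rpow_def_of_pos hp, sub_neg_eq_add]
  congr 2
  simp only [sR, Nat.shiftLeft_eq', Nat.shiftLeft_eq, Nat.mul_eq]
  push_cast
  field_simp

theorem Ok.sumS (o : Ok P p) {f : ℕ → TM} {z : TM} {v : ℕ → ℝ} (hz : E2 P p (2 * P.H) z x)
    (lo n : ℕ) (hf : ∀ i < n, E2 P p (2 * P.H) (f (lo + i)) (v i)) :
    E2 P p (2 * P.H) (sumS f z lo n) (x + ∑ i ∈ Finset.range n, v i) := by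
  induction n with
  | zero => exact hz.congr (by simp)
  | succ n ih =>
    have h1 := ih fun i hi => hf i (by omega)
    have h2 := hf n (Nat.lt_succ_self n)
    exact (Enc.add h1 h2).congr (by rw [Finset.sum_range_succ]; ring)

theorem ng4_horner (z : ℝ) (v : ℕ → ℝ) {n d : ℕ} (h : d + 1 ≤ n) :
    ∑ i ∈ Finset.range (d + 1), z ^ i * v (n - (d + 1) + i)
      = (∑ i ∈ Finset.range d, z ^ i * v (n - d + i)) * z + v (n - 1 - d) := by
  rw [Finset.sum_range_succ', Finset.sum_mul, pow_zero, one_mul,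
    show n - (d + 1) + 0 = n - 1 - d by omega]
  congr 1
  refine Finset.sum_congr rfl fun i _ => ?_
  rw [show n - (d + 1) + (i + 1) = n - d + i by omega]
  ring

theorem ng4_sub (a g : ℕ) :
    ((Nat.sub a (pw g) : ℕ) : ℝ) - ((Nat.sub (pw g) a : ℕ) : ℝ) = a - 2 ^ g := by
  rw [pw_eq, Nat.sub_eq, Nat.sub_eq]
  rcases le_total a (2 ^ g) with h | h
  · rw [Nat.sub_eq_zero_of_le h, Nat.cast_sub h]
    push_cast
    ring
  · rw [Nat.sub_eq_zero_of_le h, Nat.cast_sub h]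
    push_cast
    ring

theorem Ok.bx (o : Ok P p) (h : Enc p False (2 * P.H) P.L T x) (a : ℕ) {σ : ℝ} (hσ : |σ| ≤ 1)
    (e : p.τ * 2 ^ P.qb = a - 2 ^ P.qb + σ) :
    ∃ y, Enc (p.re p.S σ hσ) False P.DH P.L (bx P T a) y ∧
      (T.B < 2 ^ (P.W - 1) → |x - y| ≤ T.e) := by
  have hS := o.S
  have hL := o.L
  have hL2 := o.L2
  have hD := o.DH
  have hq : P.qb < (p.re p.S σ hσ).W := by
    have := o.qb
    have := o.W
    show P.qb < p.W
    omega
  obtain ⟨v, hv, he⟩ := h.rows (by omega)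
  have ec : cH P = mkCx (p.re p.S σ hσ).W (p.re p.S σ hσ).S (P.DH + 1) P.DH P.L P.qb := by
    show _ = mkCx p.W p.S _ _ _ _
    rw [o.W, o.S]
    rfl
  have ew : ws P = Nat.mul (p.re p.S σ hσ).W (p.re p.S σ hσ).S := by
    show _ = Nat.mul p.W p.S
    rw [o.W, o.S]
    rfl
  have er : row p.W p.S = row P.W P.S := by rw [o.W, o.S]
  have hy : Enc (p.re p.S σ hσ) False 2 1
      (y2 (ws P) (Nat.sub a (pw P.qb)) (Nat.sub (pw P.qb) a)) (p.τ * 2 ^ P.qb) := by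
    rw [ew]
    refine (enc_y2R False.elim).congr ?_
    rw [e, ng4_sub]
    rfl
  have key : ∀ d ≤ 2 * P.H, Enc (p.re p.S σ hσ) False P.DH P.L
      (hz P T (y2 (ws P) (Nat.sub a (pw P.qb)) (Nat.sub (pw P.qb) a)) d)
      (∑ i ∈ Finset.range d, p.τ ^ i * v (2 * P.H - d + i)) := by
    intro d
    induction d with
    | zero => exact fun _ => (enc_cst (c := 0) (e := 0) (by simp)).mono id hD (by omega)
    | succ d ih =>
      intro hd
      have b1 := ((ih (by omega)).mul hy).mono id (D' := P.DH + 1) (L' := P.L) (by omega) (by omega)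
      have b2 := (((hv (2 * P.H - 1 - d) (by omega)).one (p' := p.re p.S σ hσ) rfl rfl).smul
        (pw P.qb)).mono id (D' := P.DH + 1) (by omega) le_rfl
      have b3 := (b1.add b2).rnd (C := P.DH + 1) (E := P.DH) (K := P.L) le_rfl
        (show P.L ≤ p.S by omega) (by omega) (show P.L ≤ p.S by omega) hq
      rw [← ec, er] at b3
      refine b3.congr ?_
      rw [ng4_horner _ _ hd, pw_eq]
      push_cast
      field_simp
  refine ⟨_, key (2 * P.H) le_rfl, fun hb => ?_⟩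
  simpa only [Nat.sub_self, zero_add] using he (o.W ▸ hb)

theorem Ok.bt (o : Ok P p) (h : Enc p False P.DH P.L T x) (a : ℕ) {p' : Pt} (hW : p'.W = p.W)
    (hS : p'.S = p.S) (hτ : p'.τ = p.τ) (e : p.t * 2 ^ P.qt = a - 2 ^ P.qt + p'.t) :
    ∃ y, Enc p' False P.DH P.LT (bt P T a) y ∧ (T.B < 2 ^ (P.W - 1) → |x - y| ≤ T.e) := by
  have hS' := o.S
  have hL := o.L
  have hL2 := o.L2
  have hD := o.DH
  have hT := o.LT
  have hT' := o.LS
  have hq : P.qt < p'.W := by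
    have := o.qt
    have := o.W
    omega
  obtain ⟨v, hv, he⟩ := h.cols (by omega)
  have ec : cT P = mkCx p'.W p'.S P.DH P.DH P.LT P.qt := by
    rw [hW, hS, o.W, o.S]
    rfl
  have hy : Enc p' False 1 2
      (y2 P.W (Nat.sub a (pw P.qt)) (Nat.sub (pw P.qt) a)) (p.t * 2 ^ P.qt) := by
    rw [← o.W, ← hW]
    refine (enc_y2T False.elim).congr ?_
    rw [e, ng4_sub]
  have key : ∀ d ≤ P.L, Enc p' False P.DH P.LT
      (ht P T (y2 P.W (Nat.sub a (pw P.qt)) (Nat.sub (pw P.qt) a)) d)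
      (∑ i ∈ Finset.range d, p.t ^ i * v (P.L - d + i)) := by
    intro d
    induction d with
    | zero => exact fun _ => (enc_cst (c := 0) (e := 0) (by simp)).mono id hD hT
    | succ d ih =>
      intro hd
      have b1 := ((ih (by omega)).mul hy).mono id (D' := P.DH) (L' := P.LT + 1) (by omega)
        (by omega)
      have b2 := (((hv (P.L - 1 - d) (by omega)).oneL hW hS hτ).smul
        (pw P.qt)).mono id (L' := P.LT + 1) le_rfl (by omega)
      have b3 := (b1.add b2).rnd (C := P.DH) (E := P.DH) (K := P.LT) le_rfl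
        (by omega) le_rfl (by omega) hq
      rw [← ec, o.W, o.S] at b3
      refine b3.congr ?_
      rw [ng4_horner _ _ hd, pw_eq]
      push_cast
      field_simp
  refine ⟨_, key _ le_rfl, fun hb => ?_⟩
  simpa only [Nat.sub_self, zero_add] using he (o.W ▸ hb)

theorem g4_shr (a n : ℕ) : (a : ℝ) / 2 ^ n ≤ (Nat.shiftRight a n : ℕ) + 1 := by
  have e0 : Nat.shiftRight a n = a / 2 ^ n := Nat.shiftRight_eq_div_pow a n
  rw [e0, div_le_iff₀ (by positivity)]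
  have h : a < (a / 2 ^ n + 1) * 2 ^ n := by
    rw [mul_comm]
    exact Nat.lt_mul_div_succ a (by positivity)
  exact_mod_cast h.le

theorem g4_real {θ y Z Zp δ s : ℝ} (h1 : 1 ≤ θ) (h2 : θ ≤ 1 + δ) (hy : y * s ≤ Z)
    (hZ : Z ≤ Zp) (h0 : 0 ≤ Zp) : θ * y * s ≤ Z + δ * Zp := by
  have hδ : 0 ≤ δ := by linarith
  have e : θ * y * s = y * s + (θ - 1) * (y * s) := by ring
  rw [e]
  have a1 : (θ - 1) * (y * s) ≤ (θ - 1) * Zp :=
    mul_le_mul_of_nonneg_left (hy.trans hZ) (by linarith)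
  have a2 : (θ - 1) * Zp ≤ δ * Zp := mul_le_mul_of_nonneg_right (by linarith) h0
  linarith

theorem g4_ck2 (o : Ok P p) {D L cp cm e u v : ℕ} (h : Enc p False D L T (x - cp + cm))
    (c : ck2 P T cp cm e u v = true) {θ : ℝ} (h1 : 1 ≤ θ) (h2 : θ ≤ 1 + 1 / (4 * (2 ^ P.q : ℕ)))
    (hy : y * 2 ^ (P.F + P.om) ≤ x + e) : θ * y ≤ ((u : ℝ) - v) / 1048576 := by
  obtain ⟨c1, c2⟩ := band_iff.1 c
  have hB : T.B < 2 ^ (p.W - 1) := by
    have := blt_iff.1 c1
    rw [pw_eq] at this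
    rw [o.W]
    exact this
  have hn := (abs_le.1 (h.abs_le hB)).2
  have c3 := Nat.le_of_ble_eq_true c2
  obtain ⟨r, hr⟩ : ∃ r, P.F + P.om = r + 20 := ⟨P.F + P.om - 20, by have := o.om; omega⟩
  have er : Nat.sub (Nat.add P.F P.om) 20 = r := by
    show P.F + P.om - 20 = r
    omega
  rw [er] at c3
  have c4 : cp + nrm T + e + v * 2 ^ r + (Nat.shiftRight (cp + nrm T + e - cm) (P.q + 2) + 1)
      ≤ cm + u * 2 ^ r := by
    rw [← Nat.shiftLeft_eq, ← Nat.shiftLeft_eq]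
    exact c3
  have c5 : (cp : ℝ) + nrm T + e + v * 2 ^ r
      + ((Nat.shiftRight (cp + nrm T + e - cm) (P.q + 2) : ℕ) + 1) ≤ cm + u * 2 ^ r := by
    exact_mod_cast c4
  have s1 := g4_shr (cp + nrm T + e - cm) (P.q + 2)
  have hZ : (cp : ℝ) + nrm T + e - cm ≤ ((cp + nrm T + e - cm : ℕ) : ℝ) := by
    have : cp + nrm T + e ≤ (cp + nrm T + e - cm) + cm := by omega
    have h' : ((cp + nrm T + e : ℕ) : ℝ) ≤ ((cp + nrm T + e - cm : ℕ) : ℝ) + cm := by
      exact_mod_cast this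
    push_cast at h'
    linarith
  have k := g4_real h1 h2 (show y * 2 ^ (P.F + P.om) ≤ (cp : ℝ) + nrm T + e - cm by linarith)
    hZ (Nat.cast_nonneg _)
  have e2 : 1 / (4 * ((2 ^ P.q : ℕ) : ℝ)) * ((cp + nrm T + e - cm : ℕ) : ℝ)
      = ((cp + nrm T + e - cm : ℕ) : ℝ) / 2 ^ (P.q + 2) := by
    rw [Nat.cast_pow, Nat.cast_ofNat, pow_add]
    field_simp
    ring
  rw [e2, hr] at k
  have k2 : θ * y * 2 ^ (r + 20) ≤ ((u : ℝ) - v) * 2 ^ r := by linarith
  rw [le_div_iff₀ (by norm_num)]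
  have hp : (0 : ℝ) < 2 ^ r := by positivity
  refine le_of_mul_le_mul_right ?_ hp
  rw [pow_add] at k2
  linarith

theorem Ok.ck0 (o : Ok P p) (h : Enc p False P.DH P.LT T x) {e u v : ℕ}
    (c : ck0 P T e u v = true) {θ : ℝ} (h1 : 1 ≤ θ) (h2 : θ ≤ 1 + 1 / (4 * (2 ^ P.q : ℕ)))
    (hy : y * 2 ^ (P.F + P.om) ≤ x + e) : θ * y ≤ ((u : ℝ) - v) / 1048576 := by
  have key : ∀ cp cm : ℕ, Enc p False P.DH P.LT (ms P T cp cm) (x - cp + cm) := by
    intro cp cm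
    have a1 : ∀ n : ℕ, Enc p False P.DH P.LT (cst n 0) (n : ℝ) := fun n =>
      (enc_cst (q := False) (by simp)).mono id o.DH o.LT
    have a2 := ((h.sub (a1 cp)).add (a1 cm)).rnd (C := P.DH) (E := P.DH) (K := P.LT) (g := 0)
      le_rfl (by rw [o.S]; exact o.LS.le) le_rfl (by rw [o.S]; exact o.LS.le)
      (by have := p.hW; omega)
    rw [o.W, o.S] at a2
    exact a2.congr (by simp)
  exact g4_ck2 o (key _ _) c h1 h2 hy

theorem g4_cell {t : ℝ} (ht : |t| ≤ 1) (n : ℕ) :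
    ∃ j < 2 ^ n, |t * 2 ^ n - ((odd j : ℕ) - 2 ^ n)| ≤ 1 := by
  obtain ⟨t1, t2⟩ := abs_le.1 ht
  have hp : (0 : ℝ) < 2 ^ n := by positivity
  have eo : ∀ j : ℕ, ((odd j : ℕ) : ℝ) = 2 * j + 1 := fun j => by
    show ((2 * j + 1 : ℕ) : ℝ) = _
    push_cast
    rfl
  have h0 : 0 ≤ (t + 1) * 2 ^ n / 2 := by
    have : 0 ≤ t + 1 := by linarith
    positivity
  by_cases hj : ⌊(t + 1) * 2 ^ n / 2⌋₊ < 2 ^ n
  · refine ⟨_, hj, ?_⟩
    have f1 := Nat.floor_le h0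
    have f2 := Nat.lt_floor_add_one ((t + 1) * 2 ^ n / 2)
    rw [eo, abs_le]
    constructor <;> linarith
  · have hq : 0 < 2 ^ n := by positivity
    refine ⟨2 ^ n - 1, by omega, ?_⟩
    have f1 := Nat.floor_le h0
    have f3 : ((2 ^ n : ℕ) : ℝ) ≤ (⌊(t + 1) * 2 ^ n / 2⌋₊ : ℝ) := by exact_mod_cast not_lt.1 hj
    have f4 : ((2 ^ n - 1 : ℕ) : ℝ) = 2 ^ n - 1 := by
      rw [Nat.cast_sub hq]
      push_cast
      rfl
    push_cast at f3
    have f5 : t * 2 ^ n ≤ 1 * 2 ^ n := mul_le_mul_of_nonneg_right t2 hp.le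
    rw [eo, f4, abs_le]
    constructor <;> linarith

theorem Ok.ckR (o : Ok P p) (h : Enc p False P.DH P.L T x) {e u v : ℕ}
    (c : ckR P T e u v = true) {θ : ℝ} (h1 : 1 ≤ θ) (h2 : θ ≤ 1 + 1 / (4 * (2 ^ P.q : ℕ)))
    (hy : y * 2 ^ (P.F + P.om) ≤ x + e) : θ * y ≤ ((u : ℝ) - v) / 1048576 := by
  obtain ⟨c1, c2⟩ := band_iff.1 c
  have hB : T.B < 2 ^ (P.W - 1) := by
    have := blt_iff.1 c1
    rw [pw_eq] at this
    exact this
  obtain ⟨j, hj, hσ⟩ := g4_cell p.ht P.qt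
  have c3 := allB_iff.1 c2 j (by rw [pw_eq]; exact hj)
  obtain ⟨z, hz, hd⟩ := o.bt h (odd j) (p' := ⟨p.W, p.S, _, p.τ, p.hW, hσ, p.hτ⟩) rfl rfl rfl
    (by show _ = _ + (p.t * 2 ^ P.qt - _); ring)
  refine Ok.ck0 (o.re (p' := ⟨p.W, p.S, _, p.τ, p.hW, hσ, p.hτ⟩) rfl rfl) hz c3 h1 h2 ?_
  have e1 : ((Nat.add T.e e : ℕ) : ℝ) = T.e + e := by
    show ((T.e + e : ℕ) : ℝ) = _
    push_cast
    rfl
  have := (abs_le.1 (hd hB)).2
  rw [e1]
  linarith

theorem g4_Rb (o : Ok P p) (i : ℕ) :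
    Rb P.rn P.rd P.c P.qb i = R0 P * (1 + (2 * i - 2 ^ P.qb) / 2 ^ P.qb / 2 ^ P.c) := by
  have hle : 2 ^ P.qb ≤ 2 ^ (P.qb + P.c) := Nat.pow_le_pow_right (by norm_num) (by omega)
  have e1 : rbn P.rn P.c P.qb i = P.rn * (2 ^ (P.qb + P.c) - 2 ^ P.qb + 2 * i) := by
    unfold rbn
    rw [pw_eq, pw_eq]
    rfl
  have e2 : rbd P.rd P.c P.qb = P.rd * 2 ^ (P.qb + P.c) := by
    unfold rbd
    exact Nat.shiftLeft_eq _ _
  have hd : (0 : ℝ) < P.rd := by exact_mod_cast o.rd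
  unfold Rb R0
  rw [e1, e2]
  push_cast [Nat.cast_sub hle]
  rw [pow_add]
  field_simp
  ring

theorem Ok.ckA (o : Ok P p) (h : E2 P p (2 * P.H) T (x * 2 ^ P.om)) {tl : Iv.I → Iv.I} {Us : ℕ}
    (c : ckA P T tl Us = true) {θ : ℝ} (h1 : 1 ≤ θ) (h2 : θ ≤ 1 + 1 / (4 * (2 ^ P.q : ℕ)))
    {i : ℕ} (hi : i < 2 ^ P.qb) (ha : Rb P.rn P.rd P.c P.qb i ≤ RR P p)
    (hb : RR P p ≤ Rb P.rn P.rd P.c P.qb (i + 1))
    (ht : ∃ z, Iv.In z (tl (rbox P.rn P.rd P.c P.qb i)) ∧ y ≤ z) : θ * x + y ≤ uval Us i := by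
  obtain ⟨c1, c2⟩ := band_iff.1 c
  have hB : T.B < 2 ^ (P.W - 1) := by
    have := blt_iff.1 c1
    rw [pw_eq] at this
    exact this
  have c3 := allB_iff.1 c2 i (by rw [pw_eq]; exact hi)
  have hq : (0 : ℝ) < 2 ^ P.qb := by positivity
  have hc : (0 : ℝ) < 2 ^ P.c := by positivity
  have eo : ((odd i : ℕ) : ℝ) = 2 * i + 1 := by
    show ((2 * i + 1 : ℕ) : ℝ) = _
    push_cast
    rfl
  have hσ : |p.τ * 2 ^ P.qb - ((odd i : ℕ) - 2 ^ P.qb)| ≤ 1 := by
    rw [g4_Rb o] at ha hb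
    unfold RR at ha hb
    have a1 := le_of_mul_le_mul_left ha o.R0_pos
    have a2 := le_of_mul_le_mul_left hb o.R0_pos
    have a3 := (div_le_div_iff_of_pos_right hc).1 (le_of_add_le_add_left a1)
    have a4 := (div_le_div_iff_of_pos_right hc).1 (le_of_add_le_add_left a2)
    rw [div_le_iff₀ hq] at a3
    rw [le_div_iff₀ hq] at a4
    push_cast at a4
    rw [eo, abs_le]
    constructor <;> linarith
  obtain ⟨w, hw, hd⟩ := o.bx h (odd i) hσ (by ring)
  obtain ⟨z, hz, hyz⟩ := ht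
  generalize tl (rbox P.rn P.rd P.c P.qb i) = J at c3 hz
  cases J with
  | bad => exact absurd c3 Bool.false_ne_true
  | iv l m =>
    have c4 : NT.ckR P (NT.bx P T (odd i)) T.e (fld Us i)
        (Nat.add 1073741824 (Nat.succ (Nat.shiftRight m 20))) = true := c3
    have k := Ok.ckR (y := x) (o.re (p' := p.re p.S _ hσ) rfl rfl) hw c4 h1 h2 (by
      have := (abs_le.1 (hd hB)).2
      rw [pow_add]
      linarith)
    have e1 : ((Nat.add 1073741824 (Nat.succ (Nat.shiftRight m 20)) : ℕ) : ℝ)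
        = 1073741824 + ((Nat.shiftRight m 20 : ℕ) + 1) := by
      show ((1073741824 + (Nat.shiftRight m 20 + 1) : ℕ) : ℝ) = _
      push_cast
      rfl
    rw [e1] at k
    have s1 := g4_shr m 20
    generalize ((Nat.shiftRight m 20 : ℕ) : ℝ) = b at k s1
    have s2 : (Iv.S : ℝ) * z ≤ m := (Iv.in_iv.1 hz).2
    have s3 : (Iv.S : ℝ) = 1099511627776 := by unfold Iv.S; norm_num
    rw [s3] at s2
    unfold uval
    norm_num at s1
    linarith

end

end Pool.Agent.Lib.MP_2347b2_mp.F.NT
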