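import Pool.Agent.Lib.MP_2347b2_mp.F.NG3
import Pool.Agent.Lib.MP_2347b2_mp.F.NG4

/-!
Soundness of the program: the families.
-/

namespace Pool.Agent.Lib.MP_2347b2_mp.F.NT

noncomputable section

/-- a bound on a range for the coupling constants with `sOf` in an interval -/
def Bnd (f : ℝ → ℝ → ℝ) (k s1 s2 sd rn rd c qb Us : ℕ) : Prop :=
  ∀ γ : ℝ, 0 < γ → γ < 1 → (s1 : ℝ) / sd ≤ sOf γ k → sOf γ k ≤ (s2 : ℝ) / sd → ∀ i < 2 ^ qb, ∀ R : ℝ,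
    Rb rn rd c qb i ≤ R → R ≤ Rb rn rd c qb (i + 1) → f γ R ≤ uval Us i

variable {P : Fm} {lo n Us : ℕ} {z : Bool}

theorem ng5_lst {a : Bool} {l : List Bool} : lst (a :: l) = true ↔ a = true ∧ lst l = true :=
  band_iff

theorem ng5_bor {a b : Bool} (h : bor a b = true) : a = true ∨ b = true := by
  cases a
  · exact Or.inr h
  · exact Or.inl rfl

theorem ng5_Rb {rn rd : ℕ} (hd : 1 ≤ rd) (c qb i : ℕ) :
    Rb rn rd c qb i = (rn : ℝ) / rd * (1 + (2 * i / 2 ^ qb - 1) / 2 ^ c) := by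
  have h0 : (rd : ℝ) ≠ 0 := by exact_mod_cast (by omega : rd ≠ 0)
  have h1 : 2 ^ qb ≤ 2 ^ (qb + c) := Nat.pow_le_pow_right (by norm_num) (by omega)
  have e1 : rbn rn c qb i = rn * (2 ^ (qb + c) - 2 ^ qb + 2 * i) := by
    unfold rbn
    rw [pw_eq, pw_eq]
    rfl
  have e2 : rbd rd c qb = rd * 2 ^ (qb + c) := Nat.shiftLeft_eq _ _
  unfold Rb
  rw [e1, e2]
  push_cast [h1]
  rw [pow_add]
  field_simp
  ring

theorem ng5_leR {p : Pt} (o : Ok P p) {u : ℕ} (h : leR P u = true) : (u : ℝ) ≤ RR P p := by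
  have h1 : u * (P.rd * 2 ^ P.c) ≤ P.rn * (2 ^ P.c - 1) := by
    have := Nat.le_of_ble_eq_true h
    rw [pw_eq] at this
    rw [← Nat.shiftLeft_eq]
    exact this
  have h2 : 1 ≤ 2 ^ P.c := Nat.one_le_two_pow
  have h3 : (u : ℝ) * (P.rd * 2 ^ P.c) ≤ P.rn * (2 ^ P.c - 1) := by exact_mod_cast h1
  have h4 : (0 : ℝ) < P.rd := by exact_mod_cast o.rd
  have h5 : (0 : ℝ) < 2 ^ P.c := by positivity
  have h6 := (abs_le.1 p.hτ).1
  have h7 : (0 : ℝ) ≤ P.rn := Nat.cast_nonneg _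
  have e : RR P p = P.rn * (2 ^ P.c + p.τ) / (P.rd * 2 ^ P.c) := by
    unfold RR R0
    field_simp
  rw [e, le_div_iff₀ (mul_pos h4 h5)]
  exact h3.trans (mul_le_mul_of_nonneg_left (by linarith) h7)

theorem exists_pt (h : okB P = true) {s R : ℝ} (h1 : ((P.sn - P.dn : ℕ) : ℝ) / P.sd ≤ s)
    (h2 : s ≤ ((P.sn + P.dn : ℕ) : ℝ) / P.sd) {i : ℕ} (hi : i < 2 ^ P.qb)
    (ha : Rb P.rn P.rd P.c P.qb i ≤ R) (hb : R ≤ Rb P.rn P.rd P.c P.qb (i + 1)) :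
    ∃ p : Pt, Ok P p ∧ sR P p = s ∧ RR P p = R := by
  obtain ⟨p0, o, -, -⟩ := ok_of (t := 0) (τ := 0) h (by simp) (by simp)
  have a1 : (0 : ℝ) < P.sd := by exact_mod_cast o.sd
  have a2 : (0 : ℝ) < P.dn := by exact_mod_cast o.dn
  have a3 : 0 < R0 P := o.R0_pos
  have a4 : (0 : ℝ) < 2 ^ P.c := by positivity
  have a5 : (0 : ℝ) < 2 ^ P.qb := by positivity
  have a6 : (i : ℝ) + 1 ≤ 2 ^ P.qb := by exact_mod_cast hi
  rw [Nat.cast_sub o.ds, div_le_iff₀ a1] at h1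
  rw [Nat.cast_add, le_div_iff₀ a1] at h2
  rw [ng5_Rb o.rd] at ha hb
  change R0 P * _ ≤ _ at ha
  change _ ≤ R0 P * _ at hb
  have b1 : (0 : ℝ) ≤ 2 * i / 2 ^ P.qb := by positivity
  have b2 : 2 * ((i + 1 : ℕ) : ℝ) / 2 ^ P.qb ≤ 2 := by
    rw [div_le_iff₀ a5]
    push_cast
    linarith
  have b3 : 1 + (-1) / 2 ^ P.c ≤ R / R0 P := by
    rw [le_div_iff₀ a3, mul_comm]
    refine le_trans (mul_le_mul_of_nonneg_left ?_ a3.le) ha
    have := div_le_div_of_nonneg_right (show (-1 : ℝ) ≤ 2 * i / 2 ^ P.qb - 1 by linarith) a4.le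
    linarith
  have b4 : R / R0 P ≤ 1 + 1 / 2 ^ P.c := by
    rw [div_le_iff₀ a3, mul_comm]
    refine le_trans hb (mul_le_mul_of_nonneg_left ?_ a3.le)
    have := div_le_div_of_nonneg_right
      (show 2 * ((i + 1 : ℕ) : ℝ) / 2 ^ P.qb - 1 ≤ 1 by linarith) a4.le
    linarith
  obtain ⟨p, o', e1, e2⟩ := ok_of (t := (s * P.sd - P.sn) / P.dn) (τ := (R / R0 P - 1) * 2 ^ P.c) h
    (by
      rw [abs_le, le_div_iff₀ a2, div_le_iff₀ a2]
      constructor <;> linarith)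
    (by
      rw [abs_le, ← div_le_iff₀ a4, ← le_div_iff₀ a4]
      constructor <;> linarith)
  refine ⟨p, o', ?_, ?_⟩
  · unfold sR
    rw [e1]
    field_simp
    ring
  · unfold RR
    rw [e2]
    field_simp
    ring

theorem famT_ok (h : famT P lo n z Us = true) :
    Bnd (fun γ R => Sp γ P.k R) P.k (P.sn - P.dn) (P.sn + P.dn) P.sd P.rn P.rd P.c P.qb Us := by
  obtain ⟨h1, hc⟩ := band_iff.1 h
  obtain ⟨k1, h1⟩ := ng5_lst.1 h1
  obtain ⟨k2, h1⟩ := ng5_lst.1 h1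
  obtain ⟨k3, h1⟩ := ng5_lst.1 h1
  obtain ⟨k4, h1⟩ := ng5_lst.1 h1
  obtain ⟨k5, -⟩ := ng5_lst.1 h1
  have m2 : lo + n ≤ 2 * P.A := Nat.le_of_ble_eq_true k2
  have m3 : P.I + (lo + n + 1) ≤ 2 ^ P.q := by
    have := Nat.le_of_ble_eq_true k3
    rw [pw_eq] at this
    exact this
  intro γ g0 g1 s1 s2 i hi R ha hb
  obtain ⟨p, o, hs, rfl⟩ := exists_pt k1 s1 s2 hi ha hb
  have hz : ∃ x, E2 P p (2 * P.H) (selT z (st0 P) (cst 0 0)) (x * 2 ^ P.om) ∧ t0 γ P.k (RR P p)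
      ≤ th (2 ^ P.q) (2 * sR P p - P.I) * (RR P p / R0 P) ^ (2 * sR P p) * x := by
    cases z
    · refine ⟨0, o.zero.congr (zero_mul _), ?_⟩
      have := ng5_leR o ((ng5_bor k5).resolve_left Bool.false_ne_true)
      rw [mul_zero]
      refine t0_drop g0 g1 o.k ?_
      simp only [Nat.mul_eq] at this
      push_cast at this
      rw [sq]
      exact this
    · obtain ⟨x, a, b⟩ := o.st0 g0 g1 hs (by omega)
      exact ⟨x, a, b.le⟩
  obtain ⟨x, z1, z2⟩ := hz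
  have hv : ∀ j, ∃ v, j < n → E2 P p (2 * P.H) (stT P (lo + j)) (v * 2 ^ P.om) ∧
      Tp γ P.k (lo + j) (RR P p)
        = th (2 ^ P.q) (2 * sR P p - P.I) * (RR P p / R0 P) ^ (2 * sR P p) * v := fun j => by
    by_cases hj : j < n
    · obtain ⟨v, a⟩ := o.stT g0 g1 hs (n := lo + j) (by omega) (by omega)
      exact ⟨v, fun _ => a⟩
    · exact ⟨0, fun k => absurd k hj⟩
  choose v hv using hv
  have e1 := (o.sumS (v := fun j => v j * 2 ^ P.om) z1 lo n fun j hj => (hv j hj).1).f2 o o.ys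
  have e2 : E2 P p (2 * P.H) (psi P (sumS (stT P) (selT z (st0 P) (cst 0 0)) lo n))
      ((x + ∑ j ∈ Finset.range n, v j) * (RR P p / R0 P) ^ (2 * sR P p) * 2 ^ P.om) :=
    e1.congr (by rw [← Finset.sum_mul]; ring)
  obtain ⟨t1, t2⟩ := th_bounds (x := 2 ^ P.q) Nat.one_le_two_pow o.a_mem.1 o.a_mem.2
  have e3 := o.ckA e2 hc t1 t2 hi ha hb
    (tailT_le g0 g1 o.k o.RR_pos (Iv.box_in s1 s2) (Iv.box_in ha hb) (lo + n))
  have e4 := Sp_cut g0 g1 o.k o.RR_pos lo n (by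
    rcases ng5_bor k4 with a | a
    · exact Or.inl (Nat.le_zero.1 (Nat.le_of_ble_eq_true a))
    · have := ng5_leR o a
      simp only [Nat.mul_eq, Nat.add_eq, Nat.pow_eq] at this
      push_cast at this
      exact Or.inr this)
  rw [Finset.sum_congr rfl fun j hj => (hv j (Finset.mem_range.1 hj)).2, ← Finset.mul_sum] at e4
  refine e4.trans (le_trans ?_ e3)
  linarith

theorem famB_ok (h : famB P lo n Us = true) :
    Bnd (fun γ R => -(ck γ P.k * BB γ (sOf γ P.k - 1) R)) P.k (P.sn - P.dn) (P.sn + P.dn) P.sd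
      P.rn P.rd P.c P.qb Us := by
  obtain ⟨h1, hc⟩ := band_iff.1 h
  obtain ⟨k1, h1⟩ := ng5_lst.1 h1
  obtain ⟨k2, h1⟩ := ng5_lst.1 h1
  obtain ⟨k3, h1⟩ := ng5_lst.1 h1
  obtain ⟨k4, h1⟩ := ng5_lst.1 h1
  obtain ⟨k5, h1⟩ := ng5_lst.1 h1
  obtain ⟨k6, h1⟩ := ng5_lst.1 h1
  obtain ⟨k7, -⟩ := ng5_lst.1 h1
  have m2 : lo + n ≤ 2 * P.A := Nat.le_of_ble_eq_true k2
  have m3 : P.I + (lo + n + 1) ≤ 2 ^ P.q := by
    have := Nat.le_of_ble_eq_true k3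
    rw [pw_eq] at this
    exact this
  have m5 : 2 ≤ P.k := Nat.le_of_ble_eq_true k5
  have m6 : 1 ≤ P.I := Nat.le_of_ble_eq_true k6
  have m7 : P.sd + P.dn ≤ P.sn := Nat.le_of_ble_eq_true k7
  intro γ g0 g1 s1 s2 i hi R ha hb
  obtain ⟨p, o, hs, rfl⟩ := exists_pt k1 s1 s2 hi ha hb
  have hv : ∀ j, ∃ v, j < n → E2 P p (2 * P.H) (stB P (lo + j)) (v * 2 ^ P.om) ∧
      -(ck γ P.k * F.bt γ (sOf γ P.k - 1) (lo + j) (RR P p))
        = th (2 ^ P.q) (2 * sR P p - P.I) * (RR P p / R0 P) ^ (2 * sR P p) * v := fun j => by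
    by_cases hj : j < n
    · obtain ⟨v, a⟩ := o.stB g0 g1 hs (n := lo + j) (by omega) (by omega) m6 m7
      exact ⟨v, fun _ => a⟩
    · exact ⟨0, fun k => absurd k hj⟩
  choose v hv using hv
  have e1 := (o.sumS (v := fun j => v j * 2 ^ P.om) o.zero lo n fun j hj => (hv j hj).1).f2 o o.ys
  have e2 : E2 P p (2 * P.H) (psi P (sumS (stB P) (cst 0 0) lo n))
      ((∑ j ∈ Finset.range n, v j) * (RR P p / R0 P) ^ (2 * sR P p) * 2 ^ P.om) :=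
    e1.congr (by rw [← Finset.sum_mul]; ring)
  obtain ⟨t1, t2⟩ := th_bounds (x := 2 ^ P.q) Nat.one_le_two_pow o.a_mem.1 o.a_mem.2
  have e3 := o.ckA e2 hc t1 t2 hi ha hb
    (tailB_le g0 g1 m5 o.RR_pos (Iv.box_in s1 s2) (Iv.box_in ha hb) (lo + n))
  have e4 := BB_cut g0 g1 m5 o.RR_pos lo n (by
    rcases ng5_bor k4 with a | a
    · exact Or.inl (Nat.le_zero.1 (Nat.le_of_ble_eq_true a))
    · have := ng5_leR o a
      simp only [Nat.mul_eq] at this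
      push_cast at this
      rw [sq]
      exact Or.inr this)
  rw [Finset.sum_congr rfl fun j hj => (hv j (Finset.mem_range.1 hj)).2, ← Finset.mul_sum] at e4
  refine e4.trans (le_trans ?_ e3)
  linarith

end

end Pool.Agent.Lib.MP_2347b2_mp.F.NT
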