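import Pool.Agent.Lib.MP_2347b2_mp.F.NumIv
import Pool.Agent.Lib.MP_2347b2_mp.F.Cost

/-!
Enclosures of the explicit mismatch bounds.
-/

namespace Pool.Agent.Lib.MP_2347b2_mp.F.Iv

variable {R B U L : ℝ} {r b u l : I}

theorem lit_in (n : ℕ) [n.AtLeastTwo] : In (OfNat.ofNat n : ℝ) (nat n) := nat_in n

theorem one_in : In 1 (nat 1) := (nat_in 1).congr (by simp)

theorem qq_in {x : ℝ} (n d : ℕ) (e : x = (n : ℝ) / d) : In x (q n d) := (q_in n d).congr e

theorem kk_in (k : ℕ) : In ((k : ℝ) ^ 2 + k) (nat (k * k + k)) :=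
  (nat_in _).congr (by push_cast; ring)

theorem sq_in (h : In R r) : In (R ^ 2) (mul r r) := (mul_in h h).congr (sq R)

def iLk (k : ℕ) : I := sub (nat (k * k + k)) (q 3 2)

theorem iLk_in (k : ℕ) : In (Lk k) (iLk k) :=
  sub_in (kk_in k) (qq_in 3 2 (by norm_num))

def iUk (k : ℕ) : I := add (nat (k * k + k)) (q 3 16)

theorem iUk_in (k : ℕ) : In (Uk k) (iUk k) :=
  add_in (kk_in k) (qq_in 3 16 (by norm_num))

def iF0 (k : ℕ) (r : I) : I := add (adiff r (nat (k * k + k))) (q 1 2)

theorem iF0_in (k : ℕ) (h : In R r) : In (F0 k R) (iF0 k r) :=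
  (add_in (adiff_in h (kk_in k)) (qq_in 1 2 rfl)).congr (by
    unfold F0; rw [sub_sub]; norm_num)

/-- the shift `3 / 4 * √(k + 1) + 2 / k` -/
def iSh (k : ℕ) : I := add (mul (q 3 4) (sqrt (nat (k + 1)))) (q 2 k)

theorem iSh_in (k : ℕ) : In (3 / 4 * √(k + 1) + 2 / k) (iSh k) :=
  add_in (mul_in (qq_in 3 4 (by norm_num)) (sqrt_in ((nat_in (k + 1)).congr (by push_cast; ring))))
    (qq_in 2 k (by norm_num))

def iBlo (k : ℕ) (r : I) : I :=
  pos (imax (tsub (mul (nat 2) r) (iUk k)) (tsub (nat k) (add (q 6 5) (iSh k))))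

theorem iBlo_in (k : ℕ) (h : In R r) : In (Blo k R) (iBlo k r) := by
  refine pos_in ((imax_in (tsub_in (mul_in (lit_in 2) h) (iUk_in k))
    (tsub_in (nat_in k) (add_in (qq_in (x := 6 / 5) 6 5 (by norm_num)) (iSh_in k)))).congr ?_)
  unfold Blo
  rw [max_max_max_comm, max_self]
  congr 2
  ring

def iVV (r b : I) : I := div (sqrt (mul (nat 2) r)) (sub (sqrt b) (q 1 2))

theorem iVV_in (h : In R r) (hb : In B b) : In (VV R B) (iVV r b) :=
  div_in (sqrt_in (mul_in (lit_in 2) h)) (sub_in (sqrt_in hb) (qq_in 1 2 (by norm_num)))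

def iGG (r b : I) : I := div (mul r (iVV r b)) (sqrt b)

theorem iGG_in (h : In R r) (hb : In B b) : In (GG R B) (iGG r b) :=
  div_in (mul_in h (iVV_in h hb)) (sqrt_in hb)

def iD1 (r u : I) : I := frc (div u r) fun t =>
  div (add (add (sqrt (div (nat 2) r)) (div (add (q 11 2) (mul (nat 60) t)) r))
    (div (mul (nat 3) t) (sqrt r))) pi

theorem iD1_in (h : In R r) (hu : In U u) : In (D1 R U) (iD1 r u) :=
  have ht := div_in hu h
  frc_in (div_in (add_in (add_in (sqrt_in (div_in (lit_in 2) h))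
    (div_in (add_in (qq_in 11 2 (by norm_num)) (mul_in (lit_in 60) ht)) h))
    (div_in (mul_in (lit_in 3) ht) (sqrt_in h))) pi_in)

def iD2 (r b : I) : I := frc (sqrt r) fun s =>
  div (add (add (div (q 23 10) s) (div (nat 3) r)) (div (mul (q 21 5) (iVV r b)) s)) pi

theorem iD2_in (h : In R r) (hb : In B b) : In (D2 R B) (iD2 r b) :=
  have hs := sqrt_in h
  frc_in (div_in (add_in (add_in (div_in (qq_in 23 10 (by norm_num)) hs) (div_in (lit_in 3) h))
    (div_in (mul_in (qq_in 21 5 (by norm_num)) (iVV_in h hb)) hs)) pi_in)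

def iDt (l r : I) : I := frc (div r l) fun t =>
  mul (q 4 3) (sub (add (nat 1) (mul (q 409 100) (mul t t))) (mul (q 202 100) t))

theorem iDt_in (hl : In L l) (h : In R r) : In (Dt L R) (iDt l r) :=
  have ht := div_in h hl
  frc_in ((mul_in (q_in 4 3) (sub_in (add_in one_in (mul_in (q_in 409 100) (mul_in ht ht)))
    (mul_in (q_in 202 100) ht))).congr (by unfold Dt; push_cast; ring))

def itop (k : ℕ) (r : I) : I :=
  div (add (mul (mul (q 71 100) (iF0 k r)) (sqrt r)) (mul (q 24 10) r)) (mul r r)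

theorem itop_in (k : ℕ) (h : In R r) : In (topI k R) (itop k r) :=
  div_in (add_in (mul_in (mul_in (qq_in 71 100 (by norm_num)) (iF0_in k h)) (sqrt_in h))
    (mul_in (qq_in 24 10 (by norm_num)) h)) (sq_in h)

def iJ1 (k : ℕ) (r : I) : I := frc (div (iUk k) r) fun t => frc (sqrt r) fun s =>
  add (add (mul (add (iF0 k r) (nat 4))
    (add (div (mul (q 5 2) (add (add (q 115 100) (mul (q 18 10) t)) (mul (nat 10) (mul t t))))
        (mul (mul (sqrt (iLk k)) s) (sub (sub (div s (nat 2)) (q 5 2)) (mul (nat 2) t))))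
      (div (mul (mul (nat 4) (frc (sub (mul (nat 2) r) (iUk k)) fun b => iGG r b))
        (add (nat 1) (lg (mul (mul (nat 2) r) (nat k))))) (mul r r))))
    (mul (q 35 10) (itop k r))) (div (nat 80) (mul r r))

theorem iJ1_in (k : ℕ) (h : In R r) : In (J1 k R) (iJ1 k r) :=
  have ht := div_in (iUk_in k) h
  have hs := sqrt_in h
  have h2 := mul_in (lit_in 2) h
  frc_in (frc_in (add_in (add_in (mul_in (add_in (iF0_in k h) (lit_in 4))
    (add_in (div_in (mul_in (qq_in 5 2 (by norm_num)) (add_in (add_in (qq_in 115 100 (by norm_num))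
          (mul_in (qq_in 18 10 (by norm_num)) ht)) (mul_in (lit_in 10) (sq_in ht))))
        (mul_in (mul_in (sqrt_in (iLk_in k)) hs) (sub_in (sub_in (div_in hs (lit_in 2))
          (qq_in 5 2 (by norm_num))) (mul_in (lit_in 2) ht))))
      (div_in (mul_in (mul_in (lit_in 4) (frc_in (iGG_in h (sub_in h2 (iUk_in k)))))
        (add_in one_in (lg_in (mul_in h2 (nat_in k))))) (sq_in h))))
    (mul_in (qq_in 35 10 (by norm_num)) (itop_in k h))) (div_in (lit_in 80) (sq_in h))))

def iJ2 (k : ℕ) (r : I) : I := frc (iBlo k r) fun b => frc (iLk k) fun l => frc (iDt l r) fun d =>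
  frc (iVV r b) fun v => frc (iF0 k r) fun f =>
  add (add (add (mul (add f (nat 4))
    (add (div (mul (mul (nat 4) (mul v v)) (add (nat 1) (lg (div (mul (nat 4) r) b)))) (mul l r))
      (div (mul (mul d (iGG r b))
        (add (nat 1) (lgp (div (mul (mul (nat 8) r) (nat k)) d)))) (mul r r))))
    (mul (mul (q 9 10) d) (itop k r)))
    (div (mul (q 15 10) (add (mul f (add (nat 1) (div (sqrt r) (nat 2)))) r)) (mul l r)))
    (div (nat 80) (mul r r))

theorem iJ2_in (k : ℕ) (h : In R r) : In (J2 k R) (iJ2 k r) :=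
  have hb := iBlo_in k h
  have hl := iLk_in k
  have hd := iDt_in hl h
  have hv := iVV_in h hb
  have hf := iF0_in k h
  frc_in (frc_in (frc_in (frc_in (frc_in (add_in (add_in (add_in (mul_in (add_in hf (lit_in 4))
    (add_in (div_in (mul_in (mul_in (lit_in 4) (sq_in hv))
        (add_in one_in (lg_in (div_in (mul_in (lit_in 4) h) hb)))) (mul_in hl h))
      (div_in (mul_in (mul_in hd (iGG_in h hb))
        (add_in one_in (lgp_in (div_in (mul_in (mul_in (lit_in 8) h) (nat_in k)) hd)))) (sq_in h))))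
    (mul_in (mul_in (qq_in 9 10 (by norm_num)) hd) (itop_in k h)))
    (div_in (mul_in (qq_in 15 10 (by norm_num)) (add_in (mul_in hf
      (add_in one_in (div_in (sqrt_in h) (lit_in 2)))) h)) (mul_in hl h)))
    (div_in (lit_in 80) (sq_in h)))))))

def iek (k : ℕ) : I :=
  div (nat (2 * k + 1)) (mul (mul (mul (nat 2) (sub (nat (k * k)) (nat 1))) (nat k)) (nat (k + 2)))

theorem iek_in (k : ℕ) : In (ek k) (iek k) :=
  div_in ((nat_in (2 * k + 1)).congr (by push_cast; ring))
    (mul_in (mul_in (mul_in (lit_in 2) (sub_in ((nat_in (k * k)).congr (by push_cast; ring)) one_in))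
      (nat_in k)) ((nat_in (k + 2)).congr (by push_cast; ring)))

def iub (k : ℕ) (r : I) : I :=
  mul (iek k) (tsub (add (mul r (add (nat 1) (q 1 (2 * k * k)))) (q 1 2)) (nat (k * k + k)))

theorem iub_in (k : ℕ) (h : In R r) : In (ub k R) (iub k r) :=
  (mul_in (iek_in k) (tsub_in (add_in (mul_in h (add_in one_in (q_in 1 (2 * k * k)))) (q_in 1 2))
    (kk_in k))).congr (by
      unfold ub; congr 2; push_cast; ring)

def im1 (k : ℕ) (r : I) : I := frc (iD1 r (iUk k)) fun d =>
  add (mul (div (q 1061 1000) (nat k)) (add (div (iJ1 k r) pi) d)) (mul (iub k r) d)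

theorem im1_in (k : ℕ) (h : In R r) : In (m1 k R) (im1 k r) :=
  have hd := iD1_in h (iUk_in k)
  frc_in (add_in (mul_in (div_in (qq_in 1061 1000 (by norm_num)) (nat_in k))
    (add_in (div_in (iJ1_in k h) pi_in) hd)) (mul_in (iub_in k h) hd))

def im2 (k : ℕ) (r : I) : I := frc (frc (iBlo k r) fun b => iD2 r b) fun d =>
  add (mul (div (q 1061 1000) (nat k)) (add (div (iJ2 k r) pi) d)) (mul (iub k r) d)

theorem im2_in (k : ℕ) (h : In R r) : In (m2 k R) (im2 k r) :=
  have hd : In _ (frc (iBlo k r) fun b => iD2 r b) := frc_in (iD2_in h (iBlo_in k h))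
  frc_in (add_in (mul_in (div_in (qq_in 1061 1000 (by norm_num)) (nat_in k))
    (add_in (div_in (iJ2_in k h) pi_in) hd)) (mul_in (iub_in k h) hd))

/-- test for a deep channel -/
def deepB (k : ℕ) (r : I) : Bool :=
  le (add (add (mul (nat 2) r) (nat 2)) (iSh k)) (nat (k * k + 2 * k))

theorem deep_of (k : ℕ) (h : In R r) (hd : deepB k r = true) : Deep k R := by
  have := le_of (add_in (add_in (mul_in (lit_in 2) h) (lit_in 2)) (iSh_in k)) (nat_in _) hd
  unfold Deep
  push_cast at this
  linarith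

/-- enclosure of `mc k R` -/
def imc (k : ℕ) (r : I) : I :=
  Bool.casesOn (deepB k r)
    (Bool.casesOn (le (nat 100) r && le (iUk k) (div r (nat 2)))
      (Bool.casesOn (lt r (nat 100) || lt (div r (nat 2)) (iUk k))
        (hull (im1 k r) (im2 k r)) (frc (im2 k r) fun a => hull a a))
      (frc (im1 k r) fun a => hull a a))
    (I.iv 0 0)

theorem imc_in (k : ℕ) (h : In R r) : In (mc k R) (imc k r) := by
  unfold imc
  have h1 := im1_in k h
  have h2 := im2_in k h
  cases hd : deepB k r with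
  | true => exact zero_in.congr (by unfold mc; rw [if_pos (deep_of k h hd)])
  | false =>
    cases ha : (le (nat 100) r && le (iUk k) (div r (nat 2))) with
    | true =>
      rw [Bool.and_eq_true] at ha
      have a1 := le_of (lit_in 100) h ha.1
      have a2 := le_of (iUk_in k) (div_in h (lit_in 2)) ha.2
      refine frc_in (hull_in h1 h1 ?_)
      unfold mc
      split_ifs with c1 c2
      · exact Or.inr (Or.inr rfl)
      · exact Or.inl rfl
      · exact absurd ⟨a1, a2⟩ c2
    | false =>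
      cases hb : (lt r (nat 100) || lt (div r (nat 2)) (iUk k)) with
      | true =>
        rw [Bool.or_eq_true] at hb
        refine frc_in (hull_in h2 h2 ?_)
        unfold mc
        split_ifs with c1 c2
        · exact Or.inr (Or.inr rfl)
        · rcases hb with hb | hb
          · exact absurd c2.1 (not_le.mpr (lt_of h (lit_in 100) hb))
          · exact absurd c2.2 (not_le.mpr (lt_of (div_in h (lit_in 2)) (iUk_in k) hb))
        · exact Or.inl rfl
      | false =>
        refine hull_in h1 h2 ?_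
        unfold mc
        split_ifs with c1 c2
        · exact Or.inr (Or.inr rfl)
        · exact Or.inl rfl
        · exact Or.inr (Or.inl rfl)

/-- enclosure of the sum of `mc (a + j) R` over `j < n` -/
def isum (a : ℕ) (r : I) (n : ℕ) : I :=
  Nat.rec (I.iv 0 0) (fun j s => add s (imc (a + j) r)) n

theorem isum_in (a : ℕ) (h : In R r) (n : ℕ) :
    In (∑ j ∈ Finset.range n, mc (a + j) R) (isum a r n) := by
  induction n with
  | zero => exact zero_in.congr (by simp)
  | succ n ih => rw [Finset.sum_range_succ]; exact add_in ih (imc_in _ h)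

/-- enclosure of the rest -/
def irest (K : ℕ) (r : I) : I := isum (K + 1) r (45 - K)

theorem irest_in (K : ℕ) (h : In R r) : In (∑ k ∈ Finset.Icc (K + 1) 45, mc k R) (irest K r) := by
  refine (isum_in (K + 1) h (45 - K)).congr ?_
  rw [← Finset.Ico_add_one_right_eq_Icc, Finset.sum_Ico_eq_sum_range]
  congr 2
  omega

/-- check of the bound `c / e` for the rest on the interval from `a / d` to `b / d` -/
def restChk (K a b d c e : ℕ) : Bool := le (frc (box a b d) fun r => irest K r) (q c e)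

theorem rest_le {K a b d c e : ℕ} (h : restChk K a b d c e = true) (ha : (a : ℝ) / d ≤ R)
    (hb : R ≤ (b : ℝ) / d) : ∑ k ∈ Finset.Icc (K + 1) 45, mc k R ≤ (c : ℝ) / e :=
  le_of (frc_in (irest_in K (box_in ha hb))) (q_in c e) h

end Pool.Agent.Lib.MP_2347b2_mp.F.Iv
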