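import Pool.Agent.Lib.MP_2347b2_mp.F.NG5
import Pool.Agent.Lib.MP_2347b2_mp.F.NumMc
import Pool.Agent.Lib.MP_2347b2_mp.F.Ch1E

/-!
From the bounds of the families to the statement on a range.
-/

namespace Pool.Agent.Lib.MP_2347b2_mp.F.NT

noncomputable section

/-- a bound on a range for all coupling constants -/
def All (f : ℝ → ℝ → ℝ) (rn rd c qb : ℕ) (u : ℕ → ℝ) : Prop :=
  ∀ γ : ℝ, 0 < γ → γ < 1 → ∀ i < 2 ^ qb, ∀ R : ℝ,
    Rb rn rd c qb i ≤ R → R ≤ Rb rn rd c qb (i + 1) → f γ R ≤ u i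

def AllL (K : ℕ) (l : List ℕ) (rn rd c qb : ℕ) : Prop :=
  All (fun γ R => ∑ k ∈ Finset.Icc 1 K, Sp γ k R) rn rd c qb fun i => (l.map fun U => uval U i).sum

def Goal (γ R : ℝ) : Prop :=
  ∃ K : ℕ, 1 ≤ K ∧ K ≤ 45 ∧ (R < 30 → ∀ k : ℕ, K < k → Deep k R) ∧
    Head γ K R + ∑ k ∈ Finset.Icc (K + 1) 45, mc k R ≤ 0

def cov (k s1 s2 sd : ℕ) : Bool := lst [Nat.ble 1 k, Nat.ble 1 sd, Nat.ble (Nat.mul k sd) s2,
  Nat.ble (Nat.add (Nat.mul s1 s1) (Nat.mul sd sd)) (Nat.mul (Nat.mul k k) (Nat.mul sd sd))]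

def mx4 (a b d e U qb : ℕ) : Bool := allB (fun i => lst [Nat.ble (fld a i) (fld U i),
  Nat.ble (fld b i) (fld U i), Nat.ble (fld d i) (fld U i), Nat.ble (fld e i) (fld U i)]) (pw qb)

def chI (r : Iv.I) : Iv.I := Iv.add (Iv.div (Iv.q 511 100) (Iv.sqrt r)) (Iv.div (Iv.q 398 10) r)

def chB (rn rd c qb U : ℕ) : Bool :=
  band (band (Nat.ble 1 rd) (Nat.ble (Nat.mul 100 (rbd rd c qb)) (rbn rn c qb 0)))
    (allB (fun i => ckT (chI (rbox rn rd c qb i)) fun V => Nat.ble V (fld U i)) (pw qb))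

def sumF (l : List ℕ) (i : ℕ) : ℕ := List.rec 0 (fun U _ r => Nat.add (fld U i) r) l

def len (l : List ℕ) : ℕ := List.rec 0 (fun _ _ r => Nat.succ r) l

def rg1 (K m : ℕ) (l : List ℕ) (V rn rd c qb i : ℕ) (r : Iv.I) : Bool :=
  band (bor (Nat.ble (Nat.mul 30 (rbd rd c qb)) (rbn rn c qb i)) (Iv.deepB (Nat.succ K) r))
    (ckT (Iv.top (Iv.subd m r (Iv.irest K))) fun h => Nat.ble (Nat.add (Nat.add (sumF l i) (fld V i)) h)
      (Nat.mul (Nat.add (len l) 2) 1073741824))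

def rng (K m : ℕ) (l : List ℕ) (V rn rd c qb i0 n : ℕ) : Bool :=
  band (lst [Nat.ble 1 K, Nat.ble K 45, Nat.ble 1 n, Nat.ble (Nat.add i0 n) (pw qb), Nat.ble 1 rd,
      Nat.ble 1 rn])
    (allB (fun i => rg1 K m l V rn rd c qb (Nat.add i0 i) (rbox rn rd c qb (Nat.add i0 i))) n)

variable {f : ℝ → ℝ → ℝ} {k s1 s2 sd rn rd c qb U K : ℕ} {l : List ℕ}

theorem lst_cons {a : Bool} {m : List Bool} : lst (a :: m) = true ↔ a = true ∧ lst m = true :=
  band_iff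

theorem bor_iff {a b : Bool} : bor a b = true ↔ a = true ∨ b = true := by
  cases a <;> cases b <;> simp [bor]

theorem uval_mono {a i : ℕ} (h : fld a i ≤ fld U i) : uval a i ≤ uval U i := by
  have : (fld a i : ℝ) ≤ fld U i := by exact_mod_cast h
  unfold uval
  linarith

theorem ckT_le {x : ℝ} {t : Iv.I} {g : ℕ → Bool} (hx : Iv.In x t) (h : ckT t g = true) :
    ∃ V : ℕ, g V = true ∧ x ≤ ((V : ℝ) - 1073741824) / 1048576 := by
  cases t with
  | bad => exact absurd h (by simp [ckT])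
  | iv a b =>
    refine ⟨_, h, ?_⟩
    have h2 : (Iv.S : ℝ) * x ≤ b := (Iv.in_iv.1 hx).2
    have h3 : b < (b / 1048576 + 1) * 1048576 := by omega
    have h4 : (b : ℝ) < ((b / 1048576 : ℕ) + 1) * 1048576 := by exact_mod_cast h3
    have e : Nat.add 1073741824 (Nat.succ (Nat.shiftRight b 20)) = 1073741824 + (b / 1048576 + 1) := by
      show 1073741824 + (b >>> 20 + 1) = _
      rw [Nat.shiftRight_eq_div_pow]
    rw [e]
    unfold Iv.S at h2
    push_cast at h2 ⊢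
    linarith

theorem rbd_pos (h : 1 ≤ rd) : (0 : ℝ) < rbd rd c qb := by
  have : 0 < rbd rd c qb := by
    show 0 < rd <<< (qb + c)
    rw [Nat.shiftLeft_eq]
    positivity
  exact_mod_cast this

theorem rbox_in {R : ℝ} {i : ℕ} (ha : Rb rn rd c qb i ≤ R) (hb : R ≤ Rb rn rd c qb (i + 1)) :
    Iv.In R (rbox rn rd c qb i) :=
  Iv.box_in ha hb

theorem le_Rb {u i : ℕ} (h1 : 1 ≤ rd) (h : Nat.mul u (rbd rd c qb) ≤ rbn rn c qb i) :
    (u : ℝ) ≤ Rb rn rd c qb i := by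
  have h2 : (u : ℝ) * rbd rd c qb ≤ rbn rn c qb i := by exact_mod_cast h
  unfold Rb
  rwa [le_div_iff₀ (rbd_pos h1)]

theorem rbn_zero_le (i : ℕ) : rbn rn c qb 0 ≤ rbn rn c qb i :=
  Nat.mul_le_mul_left _ (Nat.add_le_add_left (Nat.zero_le _) _)

theorem sOf_le {γ : ℝ} (k : ℕ) : sOf γ k ≤ k := by
  unfold sOf
  rw [Real.sqrt_le_left (Nat.cast_nonneg k)]
  nlinarith [sq_nonneg γ]

theorem Bnd.all (h : Bnd f k s1 s2 sd rn rd c qb U) (e : cov k s1 s2 sd = true) :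
    All f rn rd c qb (uval U) := by
  simp only [cov, lst_cons, Nat.ble_eq, Nat.mul_eq, Nat.add_eq] at e
  obtain ⟨-, e2, e3, e4, -⟩ := e
  have hd : (0 : ℝ) < sd := by exact_mod_cast e2
  have e3' : (k : ℝ) * sd ≤ s2 := by exact_mod_cast e3
  have e4' : (s1 : ℝ) * s1 + sd * sd ≤ k * k * (sd * sd) := by exact_mod_cast e4
  intro γ h0 h1
  refine h γ h0 h1 ?_ ((sOf_le k).trans (by rwa [le_div_iff₀ hd]))
  unfold sOf
  refine Real.le_sqrt_of_sq_le ?_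
  rw [div_pow, div_le_iff₀ (by positivity)]
  have h2 : γ ^ 2 ≤ 1 := by nlinarith
  nlinarith [mul_le_mul_of_nonneg_right h2 (sq_nonneg (sd : ℝ))]

theorem all4 {a b d e : ℕ} (h1 : Bnd f 1 0 2 8 rn rd c qb a) (h2 : Bnd f 1 2 4 8 rn rd c qb b)
    (h3 : Bnd f 1 4 6 8 rn rd c qb d) (h4 : Bnd f 1 6 8 8 rn rd c qb e)
    (m : mx4 a b d e U qb = true) : All f rn rd c qb (uval U) := by
  intro γ g0 g1 i hi R ha hb
  have m1 := allB_iff.1 m i (by rwa [pw_eq])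
  simp only [lst_cons, Nat.ble_eq] at m1
  obtain ⟨m1, m2, m3, m4, -⟩ := m1
  have s0 : 0 ≤ sOf γ (1 : ℕ) := Real.sqrt_nonneg _
  have s1 := sOf_le (γ := γ) 1
  rcases le_total (sOf γ (1 : ℕ)) (((4 : ℕ) : ℝ) / (8 : ℕ)) with t | t
  · rcases le_total (sOf γ (1 : ℕ)) (((2 : ℕ) : ℝ) / (8 : ℕ)) with u | u
    · exact (h1 γ g0 g1 (by simpa using s0) u i hi R ha hb).trans (uval_mono m1)
    · exact (h2 γ g0 g1 u t i hi R ha hb).trans (uval_mono m2)
  · rcases le_total (sOf γ (1 : ℕ)) (((6 : ℕ) : ℝ) / (8 : ℕ)) with u | u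
    · exact (h3 γ g0 g1 t u i hi R ha hb).trans (uval_mono m3)
    · exact (h4 γ g0 g1 u (s1.trans (by norm_num)) i hi R ha hb).trans (uval_mono m4)

theorem all_ch (h : chB rn rd c qb U = true) :
    All (fun γ R => Sp γ 1 R) rn rd c qb (uval U) := by
  intro γ g0 g1 i hi R ha hb
  obtain ⟨h1, h2⟩ := band_iff.1 h
  obtain ⟨h0, h1⟩ := band_iff.1 h1
  rw [Nat.ble_eq] at h0 h1
  have hR : (100 : ℝ) ≤ R := by
    have := le_Rb h0 (h1.trans (rbn_zero_le i))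
    push_cast at this
    linarith
  have hr := rbox_in ha hb
  have hx : Iv.In (5.11 / √R + 39.8 / R) (chI (rbox rn rd c qb i)) :=
    Iv.add_in (Iv.div_in (Iv.qq_in 511 100 (by norm_num)) (Iv.sqrt_in hr))
      (Iv.div_in (Iv.qq_in 398 10 (by norm_num)) hr)
  obtain ⟨V, v1, v2⟩ := ckT_le hx (allB_iff.1 h2 i (by rwa [pw_eq]))
  rw [Nat.ble_eq] at v1
  have v3 : (V : ℝ) ≤ fld U i := by exact_mod_cast v1
  have := ch1c g0 g1 hR
  unfold uval
  show Sp γ 1 R ≤ _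
  linarith

theorem allL_nil : AllL 0 [] rn rd c qb := by
  intro γ _ _ i _ R _ _
  simp

theorem AllL.cons (h : AllL K l rn rd c qb) (e : k = K + 1)
    (g : All (fun γ R => Sp γ k R) rn rd c qb (uval U)) : AllL k (U :: l) rn rd c qb := by
  subst e
  intro γ g0 g1 i hi R ha hb
  have a := h γ g0 g1 i hi R ha hb
  have b := g γ g0 g1 i hi R ha hb
  simp only [List.map_cons, List.sum_cons] at a b ⊢
  rw [Finset.sum_Icc_succ_top (Nat.le_add_left 1 K)]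
  linarith

theorem Deep.mono {R : ℝ} {k j : ℕ} (hk : 2 ≤ k) (h : Deep k R) (hj : k ≤ j) : Deep j R := by
  induction j, hj using Nat.le_induction with
  | base => exact h
  | succ j hj ih =>
    unfold Deep at ih ⊢
    have hj0 : (2 : ℝ) ≤ j := by exact_mod_cast hk.trans hj
    have a1 : (2 : ℝ) / (j + 1) ≤ 2 / j :=
      div_le_div_of_nonneg_left (by norm_num) (by linarith) (by linarith)
    have a2 : √((j : ℝ) + 1 + 1) ≤ √((j : ℝ) + 1) + 1 := by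
      have s0 := Real.sqrt_nonneg ((j : ℝ) + 1)
      rw [Real.sqrt_le_left (by linarith)]
      nlinarith [Real.sq_sqrt (show (0 : ℝ) ≤ j + 1 by linarith)]
    push_cast
    nlinarith

theorem exists_box {R : ℝ} {i0 : ℕ} (ha : Rb rn rd c qb i0 ≤ R) (n : ℕ)
    (hb : R ≤ Rb rn rd c qb (i0 + (n + 1))) :
    ∃ i < n + 1, Rb rn rd c qb (i0 + i) ≤ R ∧ R ≤ Rb rn rd c qb (i0 + i + 1) := by
  induction n with
  | zero => exact ⟨0, Nat.one_pos, ha, hb⟩
  | succ n ih =>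
    rcases le_total R (Rb rn rd c qb (i0 + (n + 1))) with t | t
    · obtain ⟨i, hi, h⟩ := ih t
      exact ⟨i, hi.trans (Nat.lt_succ_self _), h⟩
    · exact ⟨n + 1, Nat.lt_succ_self _, t, hb⟩

theorem sum_uval (l : List ℕ) (i : ℕ) :
    (l.map fun U => uval U i).sum = ((sumF l i : ℝ) - len l * 1073741824) / 1048576 := by
  induction l with
  | nil => simp [sumF, len]
  | cons U l ih =>
    have e1 : sumF (U :: l) i = fld U i + sumF l i := rfl
    have e2 : len (U :: l) = len l + 1 := rfl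
    rw [List.map_cons, List.sum_cons, ih, e1, e2, uval]
    push_cast
    ring

theorem rng_ok {m V i0 n : ℕ} (h : AllL K l rn rd c qb) (e : k = K + 1)
    (g : All (fun γ R => -(ck γ k * BB γ (sOf γ k - 1) R)) rn rd c qb (uval V))
    (r : rng K m l V rn rd c qb i0 n = true) {γ R : ℝ} (h0 : 0 < γ) (h1 : γ < 1)
    (ha : Rb rn rd c qb i0 ≤ R) (hb : R ≤ Rb rn rd c qb (i0 + n)) : Goal γ R := by
  subst e
  obtain ⟨r1, r2⟩ := band_iff.1 r
  simp only [lst_cons, Nat.ble_eq, Nat.add_eq, pw_eq] at r1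
  obtain ⟨k1, k2, n1, n2, d1, -⟩ := r1
  obtain ⟨n, rfl⟩ : ∃ j, n = j + 1 := ⟨n - 1, by omega⟩
  obtain ⟨i, hi, ia, ib⟩ := exists_box ha n hb
  have hr := rbox_in ia ib
  obtain ⟨c1, c2⟩ := band_iff.1 (allB_iff.1 r2 i hi)
  refine ⟨K, k1, k2, fun hR j hj => ?_, ?_⟩
  · rcases bor_iff.1 c1 with t | t
    · rw [Nat.ble_eq] at t
      have := le_Rb d1 t
      have e : Nat.add i0 i = i0 + i := rfl
      rw [e] at this
      push_cast at this
      linarith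
    · exact Deep.mono (by omega) (Iv.deep_of _ hr t) hj
  · obtain ⟨x, x1, x2⟩ := (Iv.subd_ub hr (fun p hp => (Iv.irest_in K hp).ub) m).top
    obtain ⟨W, w1, w2⟩ := ckT_le x1 c2
    rw [Nat.ble_eq] at w1
    have w3 : (sumF l (i0 + i) : ℝ) + fld V (i0 + i) + W ≤ (len l + 2) * 1073741824 := by
      exact_mod_cast w1
    have a : ∑ k ∈ Finset.Icc 1 K, Sp γ k R ≤ (l.map fun U => uval U (i0 + i)).sum :=
      h γ h0 h1 (i0 + i) (by omega) R ia ib
    have b : -(ck γ (K + 1) * BB γ (sOf γ (K + 1 : ℕ) - 1) R) ≤ uval V (i0 + i) :=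
      g γ h0 h1 (i0 + i) (by omega) R ia ib
    rw [sum_uval] at a
    unfold uval at b
    unfold Head
    linarith

end

end Pool.Agent.Lib.MP_2347b2_mp.F.NT
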