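import Pool.Agent.Lib.MP_2347b2_mp.F.NH0

/-!
Glue for the data files: checks with the covering included, and ranges joined.
-/

namespace Pool.Agent.Lib.MP_2347b2_mp.F.NT

noncomputable section

def eqP (P : Fm) (k rn rd : ℕ) : Bool :=
  lst [Nat.beq P.k k, Nat.beq P.rn rn, Nat.beq P.rd rd, Nat.beq P.c 2, Nat.beq P.qb 4]

def chkT (P : Fm) (lo n : ℕ) (z : Bool) (U k rn rd : ℕ) : Bool :=
  band (eqP P k rn rd) (band (cov P.k (P.sn - P.dn) (P.sn + P.dn) P.sd) (famT P lo n z U))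

def chkB (P : Fm) (lo n U k rn rd : ℕ) : Bool :=
  band (eqP P k rn rd) (band (cov P.k (P.sn - P.dn) (P.sn + P.dn) P.sd) (famB P lo n U))

def chk1 (P : Fm) (lo n : ℕ) (z : Bool) (U a b rn rd : ℕ) : Bool :=
  band (eqP P 1 rn rd) (band
    (lst [Nat.beq (P.sn - P.dn) a, Nat.beq (P.sn + P.dn) b, Nat.beq P.sd 8]) (famT P lo n z U))

/-- the statement on the interval from `a` to `b` -/
def GG (a b : ℝ) : Prop := ∀ γ R : ℝ, 0 < γ → γ < 1 → a ≤ R → R ≤ b → Goal γ R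

def leB (rn rd i sn sd j : ℕ) : Bool := lst [Nat.ble 1 rd, Nat.ble 1 sd,
  Nat.ble (Nat.mul (rbn rn 2 4 i) (rbd sd 2 4)) (Nat.mul (rbn sn 2 4 j) (rbd rd 2 4))]

variable {P : Fm} {lo n U k rn rd : ℕ} {z : Bool}

theorem eqP_iff (h : eqP P k rn rd = true) :
    P.k = k ∧ P.rn = rn ∧ P.rd = rd ∧ P.c = 2 ∧ P.qb = 4 := by
  simp only [eqP, lst_cons, Nat.beq_eq] at h
  exact ⟨h.1, h.2.1, h.2.2.1, h.2.2.2.1, h.2.2.2.2.1⟩

theorem allT (h : chkT P lo n z U k rn rd = true) :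
    All (fun γ R => Sp γ k R) rn rd 2 4 (uval U) := by
  obtain ⟨h1, h⟩ := band_iff.1 h
  obtain ⟨e1, e2, e3, e4, e5⟩ := eqP_iff h1
  rw [← e1, ← e2, ← e3, ← e4, ← e5]
  exact (famT_ok (band_iff.1 h).2).all (band_iff.1 h).1

theorem allBm (h : chkB P lo n U k rn rd = true) :
    All (fun γ R => -(ck γ k * BB γ (sOf γ k - 1) R)) rn rd 2 4 (uval U) := by
  obtain ⟨h1, h⟩ := band_iff.1 h
  obtain ⟨e1, e2, e3, e4, e5⟩ := eqP_iff h1
  rw [← e1, ← e2, ← e3, ← e4, ← e5]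
  exact (famB_ok (band_iff.1 h).2).all (band_iff.1 h).1

theorem bnd1 {a b : ℕ} (h : chk1 P lo n z U a b rn rd = true) :
    Bnd (fun γ R => Sp γ 1 R) 1 a b 8 rn rd 2 4 U := by
  obtain ⟨h0, h⟩ := band_iff.1 h
  obtain ⟨e1, e2, e3, e4, e5⟩ := eqP_iff h0
  obtain ⟨h1, h2⟩ := band_iff.1 h
  simp only [lst_cons, Nat.beq_eq] at h1
  obtain ⟨d2, d3, d4, -⟩ := h1
  have := famT_ok h2
  rw [e1, e2, e3, e4, e5, d2, d3, d4] at this
  exact this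

theorem GG.join {a b : ℝ} {i sn sd j : ℕ} (h1 : GG a (Rb sn sd 2 4 j))
    (h2 : GG (Rb rn rd 2 4 i) b) (e : leB rn rd i sn sd j = true) : GG a b := by
  simp only [leB, lst_cons, Nat.ble_eq, Nat.mul_eq] at e
  obtain ⟨e1, e2, e3, -⟩ := e
  have e4 : Rb rn rd 2 4 i ≤ Rb sn sd 2 4 j := by
    unfold Rb
    rw [div_le_div_iff₀ (rbd_pos e1) (rbd_pos e2)]
    exact_mod_cast e3
  intro γ R h0 h1' ha hb
  rcases le_total R (Rb sn sd 2 4 j) with t | t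
  · exact h1 γ R h0 h1' ha t
  · exact h2 γ R h0 h1' (e4.trans t) hb

theorem rng_GG {K m V i0 j : ℕ} {l : List ℕ} (h : AllL K l rn rd 2 4) (e : k = K + 1)
    (g : All (fun γ R => -(ck γ k * BB γ (sOf γ k - 1) R)) rn rd 2 4 (uval V))
    (r : rng K m l V rn rd 2 4 i0 n = true) (ej : j = i0 + n) :
    GG (Rb rn rd 2 4 i0) (Rb rn rd 2 4 j) := by
  subst ej
  exact fun _ _ h0 h1 ha hb => rng_ok h e g r h0 h1 ha hb

end

end Pool.Agent.Lib.MP_2347b2_mp.F.NT
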