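import Pool.Agent.Lib.MP_2347b2_mp.F.NI0

/-!
Checked data, part 1.
-/

namespace Pool.Agent.Lib.MP_2347b2_mp.F.NT

noncomputable section

namespace r0

def ut1 : ℕ :=
  3353133112439120848562156887516835823365973619722127541480093873471029066242722205696427542813923162812948857307946731144071481854527790784337653285777049

def t1 : PLift (chB 320 1 2 4 ut1 = true) :=
  ⟨by decide +kernel⟩

theorem l1 : AllL 1 [ut1] 320 1 2 4 := allL_nil.cons rfl (all_ch t1.down)

def ut2 : ℕ :=
  3357249631139881103329545564432345528908538731914397285418389715545666702199683650445377393735036850623888040134745308730912257234398146227725860181040664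

def t2 : PLift (chkT (Fm.mk 192 29 86 51 20 15 20 2 256 477 35 320 1 2 3 7 36 4 9 6 10 18 12 9 0
    20 3 4 6 2 5) 8 7 false ut2 2 320 1 = true) :=
  ⟨by decide +kernel⟩

theorem l2 : AllL 2 [ut2, ut1] 320 1 2 4 := l1.cons rfl (allT t2.down)

def ub3 : ℕ :=
  3332265671866591083685845751143203474892714249597711876847242821485596123088134314448426988834570285077556821576919506676617209777191178280559832757552635

def b3 : PLift (chkB (Fm.mk 212 27 96 54 22 14 22 2 256 746 22 320 1 3 5 7 40 5 10 6 11 18 4 9 0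
    21 3 4 6 2 5) 6 12 ub3 3 320 1 = true) :=
  ⟨by decide +kernel⟩

def c0 : PLift (rng 2 0 [ut2, ut1] ub3 320 1 2 4 0 16 = true) :=
  ⟨by decide +kernel⟩

theorem g0 : GG (Rb 320 1 2 4 0) (Rb 320 1 2 4 16) := rng_GG l2 rfl (allBm b3.down) c0.down rfl

theorem g : GG (Rb 320 1 2 4 0) (Rb 320 1 2 4 16) := g0

end r0

namespace r1

def ut1 : ℕ :=
  3353602308124596150112678360104492507285973440914841215637765719391860746898510125526309411277533513389112956251291483340876191224265196704155643339816107

def t1 : PLift (chB 192 1 2 4 ut1 = true) :=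
  ⟨by decide +kernel⟩

theorem l1 : AllL 1 [ut1] 192 1 2 4 := allL_nil.cons rfl (all_ch t1.down)

def ut2 : ℕ :=
  3353268939718533051485973372409213476191972473891215384745277180529071790573105904773871956930489728059648488846221588369266634354666805140375908016016149

def t2 : PLift (chkT (Fm.mk 194 25 87 45 15 13 15 2 256 477 35 192 1 2 3 7 33 4 9 5 10 16 11 9 0
    17 3 4 6 2 5) 6 12 false ut2 2 192 1 = true) :=
  ⟨by decide +kernel⟩

theorem l2 : AllL 2 [ut2, ut1] 192 1 2 4 := l1.cons rfl (allT t2.down)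

def ut3 : ℕ :=
  3353800720218921736901052843683552515939707203235534874414748870687681109343385791016287692296357546706148938990667805577785190922307103622268754502047996

def t3 : PLift (chkT (Fm.mk 190 21 85 45 15 11 15 2 256 746 22 192 1 3 5 7 31 4 9 5 10 19 11 9 0
    17 3 4 6 2 5) 5 12 false ut3 3 192 1 = true) :=
  ⟨by decide +kernel⟩

theorem l3 : AllL 3 [ut3, ut2, ut1] 192 1 2 4 := l2.cons rfl (allT t3.down)

def ub4 : ℕ :=
  3333025642821137757309896636226374624757173148541322674124527880558440183395062578341941594328907446656113402105965622774030080204924617126505006020932004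

def b4 : PLift (chkB (Fm.mk 214 23 97 48 17 10 17 2 256 1007 17 192 1 4 7 7 34 4 8 6 9 19 4 9 0
    18 4 4 6 1 5) 3 23 ub4 4 192 1 = true) :=
  ⟨by decide +kernel⟩

def c0 : PLift (rng 3 1 [ut3, ut2, ut1] ub4 192 1 2 4 0 1 = true) :=
  ⟨by decide +kernel⟩

theorem g0 : GG (Rb 192 1 2 4 0) (Rb 192 1 2 4 1) := rng_GG l3 rfl (allBm b4.down) c0.down rfl

def c1 : PLift (rng 3 0 [ut3, ut2, ut1] ub4 192 1 2 4 1 15 = true) :=
  ⟨by decide +kernel⟩

theorem g1 : GG (Rb 192 1 2 4 1) (Rb 192 1 2 4 16) := rng_GG l3 rfl (allBm b4.down) c1.down rfl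

theorem g : GG (Rb 192 1 2 4 0) (Rb 192 1 2 4 16) := (g0.join g1 (by decide +kernel))

end r1

end

end Pool.Agent.Lib.MP_2347b2_mp.F.NT
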