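import Pool.Agent.Lib.MP_2347b2_mp.F.NumMc

/-!
The elementary inequality on the interval from `400` to `900`.
-/

namespace Pool.Agent.Lib.MP_2347b2_mp.F.Iv

/-- check on one box -/
def chk2 (a b : ℕ) : Bool :=
  le (frc (box a b 1) fun r => add (irest 1 r) (q 31 10)) (mul (q 45 100) (sqrt (box a b 1)))

theorem of_chk2 {a b : ℕ} (h : chk2 a b = true) {R : ℝ} (ha : (a : ℝ) ≤ R) (hb : R ≤ b) :
    1 + ∑ k ∈ Finset.Icc 2 45, mc k R ≤ 0.45 * √R - 2.1 := by
  have hR : In R (box a b 1) := box_in (by simpa using ha) (by simpa using hb)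
  have h1 : In _ (frc (box a b 1) fun r => add (irest 1 r) (q 31 10)) :=
    frc_in (f := fun r => add (irest 1 r) (q 31 10)) (add_in (irest_in 1 hR) (q_in 31 10))
  have h2 := le_of h1 (mul_in (q_in 45 100) (sqrt_in hR)) h
  generalize ∑ k ∈ Finset.Icc (1 + 1) 45, mc k R = t at h2 ⊢
  push_cast at h2
  linarith

/-- check on `n` consecutive boxes of width `w` -/
def run2 (a w n : ℕ) : Bool :=
  Nat.rec true (fun j s => s && chk2 (a + j * w) (a + (j + 1) * w)) n

theorem of_run2 {a w n : ℕ} (h : run2 a w (n + 1) = true) {R : ℝ} (ha : (a : ℝ) ≤ R)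
    (hb : R ≤ (a + (n + 1) * w : ℕ)) :
    1 + ∑ k ∈ Finset.Icc 2 45, mc k R ≤ 0.45 * √R - 2.1 := by
  induction n with
  | zero =>
    have h1 : (true && chk2 (a + 0 * w) (a + (0 + 1) * w)) = true := h
    rw [Bool.true_and] at h1
    exact of_chk2 h1 (by simpa using ha) hb
  | succ n ih =>
    have h1 : (run2 a w (n + 1) && chk2 (a + (n + 1) * w) (a + (n + 1 + 1) * w)) = true := h
    rw [Bool.and_eq_true] at h1
    rcases le_total R (a + (n + 1) * w : ℕ) with hc | hc
    · exact ih h1.1 hc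
    · exact of_chk2 h1.2 hc hb

theorem run2_a : run2 400 5 (9 + 1) = true := by decide +kernel

theorem run2_b : run2 450 15 (29 + 1) = true := by decide +kernel

theorem num2' {R : ℝ} (hR : 400 ≤ R) (hR' : R ≤ 900) :
    1 + ∑ k ∈ Finset.Icc 2 45, mc k R ≤ 0.45 * √R - 2.1 := by
  rcases le_total R 450 with h | h
  · exact of_run2 run2_a (by simpa using hR) (by simpa using h)
  · exact of_run2 run2_b (by simpa using h) (by simpa using hR')

end Pool.Agent.Lib.MP_2347b2_mp.F.Iv
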