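import Mathlib

/-!
A small interval evaluator for nonnegative reals in fixed point arithmetic with scale `2 ^ 40`.
-/

namespace Pool.Agent.Lib.MP_2347b2_mp.F.IA

noncomputable section

/-- the scale -/
def SS : ℕ := 1099511627776

/-- forces the evaluation of a number -/
def frc (n : ℕ) (f : ℕ → Bool) : Bool := Nat.rec (f 0) (fun m _ => f (Nat.succ m)) n

theorem frc_eq (n : ℕ) (f : ℕ → Bool) : frc n f = f n := by cases n <;> rfl

def ret (l h : ℕ) (k : ℕ → ℕ → Bool) : Bool := frc l fun l => frc h fun h => k l h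

theorem ret_eq (l h : ℕ) (k : ℕ → ℕ → Bool) : ret l h k = k l h := by
  simp only [ret, frc_eq]

/-- guard -/
def grd (c : Bool) (r : Bool) : Bool := Bool.rec false r c

theorem grd_iff (c r : Bool) : grd c r = true ↔ c = true ∧ r = true := by
  cases c <;> simp [grd]

def nmax (a b : ℕ) : ℕ := Nat.add a (Nat.sub b a)

theorem nmax_eq (a b : ℕ) : nmax a b = max a b := by
  simp only [nmax, Nat.add_eq, Nat.sub_eq]; omega

def nstep (n x : ℕ) : ℕ := Nat.shiftRight (Nat.add x (Nat.div n x)) 1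

/-- an approximate square root, checked after use -/
def nsq (n : ℕ) (k : ℕ → Bool) : Bool :=
  frc (Nat.shiftLeft 1 (Nat.add (Nat.div (Nat.log2 n) 2) 1)) fun x =>
  frc (nstep n x) fun x => frc (nstep n x) fun x => frc (nstep n x) fun x =>
  frc (nstep n x) fun x => frc (nstep n x) fun x => frc (nstep n x) k

theorem nsq_ex {n : ℕ} {k : ℕ → Bool} (h : nsq n k = true) : ∃ x, k x = true := by
  simp only [nsq, frc_eq] at h
  exact ⟨_, h⟩

inductive Ex : Type
  | v (i : ℕ) : Ex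
  | n (p : ℕ) : Ex
  | c (p q : ℕ) : Ex
  | pi : Ex
  | add (a b : Ex) : Ex
  | sub (a b : Ex) : Ex
  | psub (a b : Ex) : Ex
  | ad (a b : Ex) : Ex
  | mul (a b : Ex) : Ex
  | div (a b : Ex) : Ex
  | mx (a b : Ex) : Ex
  | sq (a : Ex) : Ex
  | lg (a : Ex) : Ex
  | lt (a b : Ex) : Ex

def getR : List ℝ → ℕ → ℝ
  | [], _ => 0
  | x :: _, 0 => x
  | _ :: l, i + 1 => getR l i

def Ex.val : Ex → List ℝ → ℝ
  | .v i, r => getR r i
  | .n p, _ => p
  | .c p q, _ => (p : ℝ) / q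
  | .pi, _ => Real.pi
  | .add a b, r => a.val r + b.val r
  | .sub a b, r => a.val r - b.val r
  | .psub a b, r => max 0 (a.val r - b.val r)
  | .ad a b, r => |a.val r - b.val r|
  | .mul a b, r => a.val r * b.val r
  | .div a b, r => a.val r / b.val r
  | .mx a b, r => max (a.val r) (b.val r)
  | .sq a, r => √(a.val r)
  | .lg a, r => Real.log (a.val r)
  | .lt a b, r => b.val (a.val r :: r)

/-- environments of intervals -/
inductive En : Type
  | nil : En
  | cons (l h : ℕ) (t : En) : En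

def En.get (s : En) : ℕ → (ℕ → ℕ → Bool) → Bool :=
  En.rec (fun _ k => k 0 0) (fun l h _ ih i k => Nat.rec (k l h) (fun j _ => ih j k) i) s

abbrev Ev : Type := En → (ℕ → ℕ → Bool) → Bool

def bin (f : ℕ → ℕ → ℕ → ℕ → (ℕ → ℕ → Bool) → Bool) (a b : Ev) : Ev :=
  fun s k => a s fun l1 h1 => b s fun l2 h2 => f l1 h1 l2 h2 k

def fadd (l1 h1 l2 h2 : ℕ) (k : ℕ → ℕ → Bool) : Bool := ret (Nat.add l1 l2) (Nat.add h1 h2) k

def fpsub (l1 h1 l2 h2 : ℕ) (k : ℕ → ℕ → Bool) : Bool := ret (Nat.sub l1 h2) (Nat.sub h1 l2) k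

def fsub (l1 h1 l2 h2 : ℕ) (k : ℕ → ℕ → Bool) : Bool := grd (Nat.ble h2 l1) (fpsub l1 h1 l2 h2 k)

def fad (l1 h1 l2 h2 : ℕ) (k : ℕ → ℕ → Bool) : Bool :=
  ret (nmax (Nat.sub l1 h2) (Nat.sub l2 h1)) (nmax (Nat.sub h1 l2) (Nat.sub h2 l1)) k

def fmul (l1 h1 l2 h2 : ℕ) (k : ℕ → ℕ → Bool) : Bool :=
  ret (Nat.div (Nat.mul l1 l2) SS) (Nat.succ (Nat.div (Nat.mul h1 h2) SS)) k

def fdiv (l1 h1 l2 h2 : ℕ) (k : ℕ → ℕ → Bool) : Bool :=
  grd (Nat.ble 1 l2) (ret (Nat.div (Nat.mul l1 SS) h2) (Nat.succ (Nat.div (Nat.mul h1 SS) l2)) k)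

def fmx (l1 h1 l2 h2 : ℕ) (k : ℕ → ℕ → Bool) : Bool := ret (nmax l1 l2) (nmax h1 h2) k

def fsq (l h : ℕ) (k : ℕ → ℕ → Bool) : Bool :=
  frc (Nat.mul l SS) fun a => frc (Nat.mul h SS) fun b =>
  nsq a fun x => nsq b fun y => ret (Nat.sub x 1) (Nat.succ y) fun x y =>
  grd (Nat.ble (Nat.mul x x) a) (grd (Nat.ble b (Nat.mul y y)) (k x y))

def flg (l h : ℕ) (k : ℕ → ℕ → Bool) : Bool :=
  grd (Nat.ble SS l) (frc (Nat.sub (Nat.log2 h) 40) fun m => frc (Nat.mul (Nat.pow 2 m) SS) fun p =>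
  grd (Nat.ble p h) (frc (Nat.add (Nat.mul m 762123385050)
    (Nat.succ (Nat.div (Nat.sub (Nat.succ (Nat.div (Nat.mul h SS) p)) (Nat.div (Nat.mul p SS) h)) 2)))
    (k 0)))

def Ex.ev (e : Ex) : Ev :=
  Ex.rec (motive := fun _ => Ev)
    (fun i s k => s.get i k)
    (fun p _ k => frc (Nat.mul p SS) fun x => k x x)
    (fun p q _ k => frc (Nat.div (Nat.mul p SS) q) fun x => k x (Nat.succ x))
    (fun _ k => k 3454216933728 3454218033240)
    (fun _ _ => bin fadd) (fun _ _ => bin fsub) (fun _ _ => bin fpsub) (fun _ _ => bin fad)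
    (fun _ _ => bin fmul) (fun _ _ => bin fdiv) (fun _ _ => bin fmx)
    (fun _ a s k => a s fun l h => fsq l h k)
    (fun _ a s k => a s fun l h => flg l h k)
    (fun _ _ a b s k => a s fun l h => b (En.cons l h s) k) e

/-- membership in an interval -/
def In (x : ℝ) (l h : ℕ) : Prop := (l : ℝ) ≤ x * SS ∧ x * SS ≤ h

inductive Rel : List ℝ → En → Prop
  | nil : Rel [] .nil
  | cons {x l h r s} : In x l h → Rel r s → Rel (x :: r) (.cons l h s)

theorem SS_pos : (0 : ℝ) < SS := by norm_num [SS]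

theorem In.nonneg {x : ℝ} {l h : ℕ} (a : In x l h) : 0 ≤ x :=
  nonneg_of_mul_nonneg_left ((Nat.cast_nonneg l).trans a.1) SS_pos

/-- the value of a continuation on an enclosure -/
def Hit (x : ℝ) (k : ℕ → ℕ → Bool) : Prop := ∃ l h, In x l h ∧ k l h = true

theorem get_ok {r : List ℝ} {s : En} (h : Rel r s) (i : ℕ) (k : ℕ → ℕ → Bool)
    (e : s.get i k = true) : Hit (getR r i) k := by
  induction h generalizing i with
  | nil => exact ⟨0, 0, by simp [In, getR], e⟩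
  | cons a _ ih =>
    cases i with
    | zero => exact ⟨_, _, a, e⟩
    | succ j => exact ih j e

theorem div_lo (a b : ℕ) : ((Nat.div a b : ℕ) : ℝ) ≤ (a : ℝ) / b := Nat.cast_div_le

theorem div_hi (a b : ℕ) : (a : ℝ) / b ≤ (Nat.succ (Nat.div a b) : ℕ) := by
  rcases Nat.eq_zero_or_pos b with rfl | hb
  · simp; positivity
  · rw [div_le_iff₀ (by exact_mod_cast hb)]
    have : a ≤ Nat.succ (a / b) * b := by
      have := Nat.lt_div_mul_add (a := a) hb
      rw [Nat.succ_mul]; exact this.le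
    exact_mod_cast this

theorem sub_lo (a b : ℕ) : (a : ℝ) - b ≤ (Nat.sub a b : ℕ) := by
  rcases le_total b a with h | h
  · simp [Nat.cast_sub h]
  · have : (a : ℝ) ≤ b := by exact_mod_cast h
    exact (sub_nonpos.2 this).trans (Nat.cast_nonneg _)

theorem sub_hi (a b : ℕ) : ((Nat.sub a b : ℕ) : ℝ) ≤ max 0 ((a : ℝ) - b) := by
  rcases le_total b a with h | h
  · simp [Nat.cast_sub h]
  · simp [Nat.sub_eq_zero_of_le h]

section ops

variable {x y : ℝ} {l1 h1 l2 h2 : ℕ} {k : ℕ → ℕ → Bool}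

theorem fadd_ok (a : In x l1 h1) (b : In y l2 h2) (e : fadd l1 h1 l2 h2 k = true) :
    Hit (x + y) k := by
  rw [fadd, ret_eq] at e
  refine ⟨_, _, ?_, e⟩
  simp only [In, Nat.add_eq, Nat.cast_add]
  constructor <;> nlinarith [a.1, a.2, b.1, b.2]

theorem in_psub (a : In x l1 h1) (b : In y l2 h2) :
    In (max 0 (x - y)) (Nat.sub l1 h2) (Nat.sub h1 l2) := by
  have e : max 0 (x - y) * SS = max 0 (x * SS - y * SS) := by
    rw [max_mul_of_nonneg _ _ SS_pos.le, zero_mul, sub_mul]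
  constructor
  · rw [e]
    exact (sub_hi _ _).trans (max_le_max le_rfl (by linarith [a.1, b.2]))
  · rw [e]
    exact max_le (Nat.cast_nonneg _) (le_trans (by linarith [a.2, b.1]) (sub_lo _ _))

theorem fpsub_ok (a : In x l1 h1) (b : In y l2 h2) (e : fpsub l1 h1 l2 h2 k = true) :
    Hit (max 0 (x - y)) k := by
  rw [fpsub, ret_eq] at e
  exact ⟨_, _, in_psub a b, e⟩

theorem fsub_ok (a : In x l1 h1) (b : In y l2 h2) (e : fsub l1 h1 l2 h2 k = true) :
    Hit (x - y) k := by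
  rw [fsub, grd_iff, Nat.ble_eq] at e
  have h : (h2 : ℝ) ≤ l1 := by exact_mod_cast e.1
  have : y ≤ x := le_of_mul_le_mul_right (by linarith [a.1, b.2]) SS_pos
  have t := fpsub_ok a b e.2
  rwa [max_eq_right (sub_nonneg.2 this)] at t

theorem fad_ok (a : In x l1 h1) (b : In y l2 h2) (e : fad l1 h1 l2 h2 k = true) :
    Hit |x - y| k := by
  rw [fad, ret_eq, nmax_eq, nmax_eq] at e
  refine ⟨_, _, ?_, e⟩
  have p := in_psub a b
  have q := in_psub b a
  have e : |x - y| * SS = max (max 0 (x - y) * SS) (max 0 (y - x) * SS) := by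
    rw [← max_mul_of_nonneg _ _ SS_pos.le]
    congr 1
    rcases le_total x y with h | h
    · rw [abs_of_nonpos (sub_nonpos.2 h), max_eq_left (sub_nonpos.2 h),
        max_eq_right (sub_nonneg.2 h), max_eq_right (sub_nonneg.2 h), neg_sub]
    · rw [abs_of_nonneg (sub_nonneg.2 h), max_eq_right (sub_nonneg.2 h),
        max_eq_left (sub_nonpos.2 h), max_eq_left (sub_nonneg.2 h)]
  simp only [In, e, Nat.cast_max]
  exact ⟨max_le_max p.1 q.1, max_le_max p.2 q.2⟩

theorem fmul_ok (a : In x l1 h1) (b : In y l2 h2) (e : fmul l1 h1 l2 h2 k = true) :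
    Hit (x * y) k := by
  rw [fmul, ret_eq] at e
  refine ⟨_, _, ⟨(div_lo _ _).trans ?_, le_trans ?_ (div_hi _ _)⟩, e⟩
  · rw [div_le_iff₀ SS_pos, Nat.mul_eq, Nat.cast_mul]
    calc (l1 : ℝ) * l2 ≤ (x * SS) * (y * SS) :=
          mul_le_mul a.1 b.1 (Nat.cast_nonneg _) ((Nat.cast_nonneg _).trans a.1)
      _ = _ := by ring
  · rw [le_div_iff₀ SS_pos, Nat.mul_eq, Nat.cast_mul]
    calc x * y * SS * SS = (x * SS) * (y * SS) := by ring
      _ ≤ _ := mul_le_mul a.2 b.2 ((Nat.cast_nonneg _).trans b.1) (Nat.cast_nonneg _)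

theorem fdiv_ok (a : In x l1 h1) (b : In y l2 h2) (e : fdiv l1 h1 l2 h2 k = true) :
    Hit (x / y) k := by
  rw [fdiv, grd_iff, Nat.ble_eq, ret_eq] at e
  have hl : (0 : ℝ) < l2 := by exact_mod_cast e.1
  have hy : 0 < y * SS := hl.trans_le b.1
  have hy' : 0 < y := (mul_pos_iff_of_pos_right SS_pos).1 hy
  have e' : x / y * SS = x * SS * SS / (y * SS) := by
    have := SS_pos.ne'
    field_simp
  refine ⟨_, _, ⟨(div_lo _ _).trans ?_, le_trans ?_ (div_hi _ _)⟩, e.2⟩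
  · rw [e', Nat.mul_eq, Nat.cast_mul]
    exact div_le_div₀ (mul_nonneg (mul_nonneg a.nonneg SS_pos.le) SS_pos.le)
      (mul_le_mul_of_nonneg_right a.1 SS_pos.le) hy b.2
  · rw [e', Nat.mul_eq, Nat.cast_mul]
    exact div_le_div₀ (mul_nonneg (Nat.cast_nonneg _) SS_pos.le)
      (mul_le_mul_of_nonneg_right a.2 SS_pos.le) hl b.1

theorem fmx_ok (a : In x l1 h1) (b : In y l2 h2) (e : fmx l1 h1 l2 h2 k = true) :
    Hit (max x y) k := by
  rw [fmx, ret_eq, nmax_eq, nmax_eq] at e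
  refine ⟨_, _, ?_, e⟩
  simp only [In, max_mul_of_nonneg _ _ SS_pos.le, Nat.cast_max]
  exact ⟨max_le_max a.1 b.1, max_le_max a.2 b.2⟩

theorem fsq_ok (a : In x l1 h1) (e : fsq l1 h1 k = true) : Hit √x k := by
  simp only [fsq, frc_eq] at e
  obtain ⟨u, e⟩ := nsq_ex e
  obtain ⟨w, e⟩ := nsq_ex e
  rw [ret_eq, grd_iff, grd_iff, Nat.ble_eq, Nat.ble_eq] at e
  obtain ⟨p, q, e⟩ := e
  refine ⟨_, _, ?_, e⟩
  generalize Nat.sub u 1 = u at p
  generalize Nat.succ w = w at q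
  have p' : (u : ℝ) * u ≤ l1 * SS := by exact_mod_cast p
  have q' : (h1 : ℝ) * SS ≤ w * w := by exact_mod_cast q
  have hs : (√x * SS) * (√x * SS) = x * SS * SS := by
    have := Real.mul_self_sqrt a.nonneg
    calc _ = (√x * √x) * SS * SS := by ring
      _ = _ := by rw [this]
  have h0 : 0 ≤ √x * SS := mul_nonneg (Real.sqrt_nonneg _) SS_pos.le
  constructor
  · refine (mul_self_le_mul_self_iff (Nat.cast_nonneg _) h0).2 ?_
    rw [hs]
    exact p'.trans (mul_le_mul_of_nonneg_right a.1 SS_pos.le)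
  · refine (mul_self_le_mul_self_iff h0 (Nat.cast_nonneg _)).2 ?_
    rw [hs]
    exact (mul_le_mul_of_nonneg_right a.2 SS_pos.le).trans q'

theorem log_le_half {z : ℝ} (hz : 1 ≤ z) : Real.log z ≤ (z - z⁻¹) / 2 := by
  rw [← Real.sinh_log (one_pos.trans_le hz)]
  exact Real.self_le_sinh_iff.2 (Real.log_nonneg hz)

theorem flg_ok (a : In x l1 h1) (e : flg l1 h1 k = true) : Hit (Real.log x) k := by
  simp only [flg, frc_eq, grd_iff, Nat.ble_eq] at e
  obtain ⟨p, q, e⟩ := e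
  refine ⟨_, _, ?_, e⟩
  generalize Nat.sub (Nat.log2 h1) 40 = m at q
  have p' : (SS : ℝ) ≤ l1 := by exact_mod_cast p
  have hx : 1 ≤ x := le_of_mul_le_mul_right (by linarith [a.1]) SS_pos
  refine ⟨by simpa using mul_nonneg (Real.log_nonneg hx) SS_pos.le, ?_⟩
  set P : ℕ := Nat.mul (Nat.pow 2 m) SS with hP
  have hP' : (P : ℝ) = 2 ^ m * SS := by simp [hP]
  have P0 : (0 : ℝ) < P := by rw [hP']; exact mul_pos (by positivity) SS_pos
  have q' : (P : ℝ) ≤ h1 := by exact_mod_cast q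
  have hz : 1 ≤ (h1 : ℝ) / P := (one_le_div P0).2 q'
  have h1' : x ≤ 2 ^ m * ((h1 : ℝ) / P) := by
    rw [hP', ← mul_div_assoc, mul_div_mul_left _ _ (by positivity), le_div_iff₀ SS_pos]
    exact a.2
  have h2' : Real.log x ≤ m * Real.log 2 + ((h1 : ℝ) / P - P / h1) / 2 := by
    refine (Real.log_le_log (one_pos.trans_le hx) h1').trans ?_
    rw [Real.log_mul (by positivity) (one_pos.trans_le hz).ne', Real.log_pow]
    have := log_le_half hz
    rw [inv_div] at this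
    linarith
  have h3 : Real.log 2 * SS ≤ 762123385050 := by
    have := Real.log_two_lt_d9
    simp only [SS]
    push_cast
    linarith
  have u1 := div_hi (Nat.mul h1 SS) P
  have u2 := div_lo (Nat.mul P SS) h1
  have u3 := sub_lo (Nat.succ (Nat.div (Nat.mul h1 SS) P)) (Nat.div (Nat.mul P SS) h1)
  have u4 := div_hi (Nat.sub (Nat.succ (Nat.div (Nat.mul h1 SS) P)) (Nat.div (Nat.mul P SS) h1)) 2
  generalize Nat.sub (Nat.succ (Nat.div (Nat.mul h1 SS) P)) (Nat.div (Nat.mul P SS) h1) = w at *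
  generalize Nat.succ (Nat.div w 2) = w2 at *
  generalize Nat.succ (Nat.div (Nat.mul h1 SS) P) = w3 at *
  generalize Nat.div (Nat.mul P SS) h1 = w4 at *
  simp only [Nat.mul_eq, Nat.add_eq, Nat.cast_mul, Nat.cast_add, Nat.cast_ofNat] at u1 u2 u4 ⊢
  have e1 : (h1 : ℝ) * SS / P = h1 / P * SS := by ring
  have e2 : (P : ℝ) * SS / h1 = P / h1 * SS := by ring
  have u5 := mul_le_mul_of_nonneg_right h2' SS_pos.le
  have u6 := mul_le_mul_of_nonneg_left h3 (Nat.cast_nonneg (α := ℝ) m)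
  rw [e1] at u1
  rw [e2] at u2
  linarith

end ops

theorem ev_n (p : ℕ) (s : En) (k : ℕ → ℕ → Bool) :
    (Ex.n p).ev s k = frc (Nat.mul p SS) fun x => k x x := rfl

theorem ev_c (p q : ℕ) (s : En) (k : ℕ → ℕ → Bool) :
    (Ex.c p q).ev s k = frc (Nat.div (Nat.mul p SS) q) fun x => k x (Nat.succ x) := rfl

theorem ev_add (a b : Ex) : (Ex.add a b).ev = bin fadd a.ev b.ev := rfl
theorem ev_sub (a b : Ex) : (Ex.sub a b).ev = bin fsub a.ev b.ev := rfl
theorem ev_psub (a b : Ex) : (Ex.psub a b).ev = bin fpsub a.ev b.ev := rfl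
theorem ev_ad (a b : Ex) : (Ex.ad a b).ev = bin fad a.ev b.ev := rfl
theorem ev_mul (a b : Ex) : (Ex.mul a b).ev = bin fmul a.ev b.ev := rfl
theorem ev_div (a b : Ex) : (Ex.div a b).ev = bin fdiv a.ev b.ev := rfl
theorem ev_mx (a b : Ex) : (Ex.mx a b).ev = bin fmx a.ev b.ev := rfl
theorem ev_sq (a : Ex) : (Ex.sq a).ev = fun s k => a.ev s fun l h => fsq l h k := rfl
theorem ev_lg (a : Ex) : (Ex.lg a).ev = fun s k => a.ev s fun l h => flg l h k := rfl
theorem ev_lt (a b : Ex) :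
    (Ex.lt a b).ev = fun s k => a.ev s fun l h => b.ev (En.cons l h s) k := rfl

theorem ev_ok (e : Ex) {r : List ℝ} {s : En} (h : Rel r s) {k : ℕ → ℕ → Bool}
    (t : e.ev s k = true) : Hit (e.val r) k := by
  induction e generalizing r s k with
  | v i => exact get_ok h i k t
  | n p =>
    rw [ev_n, frc_eq] at t
    exact ⟨_, _, by simp [In, Ex.val], t⟩
  | c p q =>
    rw [ev_c, frc_eq] at t
    refine ⟨_, _, ?_, t⟩
    have e : (p : ℝ) / q * SS = ((Nat.mul p SS : ℕ) : ℝ) / q := by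
      rw [Nat.mul_eq, Nat.cast_mul]; ring
    simp only [In, Ex.val, e]
    exact ⟨div_lo _ _, div_hi _ _⟩
  | pi =>
    refine ⟨_, _, ?_, t⟩
    have h1 := Real.pi_gt_d6
    have h2 := Real.pi_lt_d6
    simp only [In, Ex.val, SS]
    push_cast
    constructor <;> linarith
  | add a b iha ihb =>
    rw [ev_add, bin] at t
    obtain ⟨_, _, p, t⟩ := iha h t
    obtain ⟨_, _, q, t⟩ := ihb h t
    exact fadd_ok p q t
  | sub a b iha ihb =>
    rw [ev_sub, bin] at t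
    obtain ⟨_, _, p, t⟩ := iha h t
    obtain ⟨_, _, q, t⟩ := ihb h t
    exact fsub_ok p q t
  | psub a b iha ihb =>
    rw [ev_psub, bin] at t
    obtain ⟨_, _, p, t⟩ := iha h t
    obtain ⟨_, _, q, t⟩ := ihb h t
    exact fpsub_ok p q t
  | ad a b iha ihb =>
    rw [ev_ad, bin] at t
    obtain ⟨_, _, p, t⟩ := iha h t
    obtain ⟨_, _, q, t⟩ := ihb h t
    exact fad_ok p q t
  | mul a b iha ihb =>
    rw [ev_mul, bin] at t
    obtain ⟨_, _, p, t⟩ := iha h t
    obtain ⟨_, _, q, t⟩ := ihb h t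
    exact fmul_ok p q t
  | div a b iha ihb =>
    rw [ev_div, bin] at t
    obtain ⟨_, _, p, t⟩ := iha h t
    obtain ⟨_, _, q, t⟩ := ihb h t
    exact fdiv_ok p q t
  | mx a b iha ihb =>
    rw [ev_mx, bin] at t
    obtain ⟨_, _, p, t⟩ := iha h t
    obtain ⟨_, _, q, t⟩ := ihb h t
    exact fmx_ok p q t
  | sq a iha =>
    rw [ev_sq] at t
    obtain ⟨_, _, p, t⟩ := iha h t
    exact fsq_ok p t
  | lg a iha =>
    rw [ev_lg] at t
    obtain ⟨_, _, p, t⟩ := iha h t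
    exact flg_ok p t
  | lt a b iha ihb =>
    rw [ev_lt] at t
    obtain ⟨_, _, p, t⟩ := iha h t
    exact ihb (Rel.cons p h) t

end

end Pool.Agent.Lib.MP_2347b2_mp.F.IA
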