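import Pool.Agent.Lib.MP_2347b2_mp.F.Cost
import Pool.Agent.Lib.MP_2347b2_mp.F.NumI

/-!
Certified upper bounds for sums of the mismatch bounds `mc` on an interval of radii.
-/

namespace Pool.Agent.Lib.MP_2347b2_mp.F.IA

noncomputable section

def eM1 : Ex :=
  .lt (.sq (.v 0))
    (.lt (.add (.add (.mul (.v 2) (.v 2)) (.v 2)) (.c 3 16))
    (.lt (.sub (.add (.mul (.v 3) (.v 3)) (.v 3)) (.c 3 2))
    (.lt (.add (.ad (.v 3) (.add (.mul (.v 4) (.v 4)) (.v 4))) (.c 1 2))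
    (.lt (.div (.add (.mul (.mul (.c 71 100) (.v 0)) (.v 3)) (.mul (.c 12 5) (.v 4))) (.mul (.v 4)
    (.v 4)))
    (.lt (.mul (.div (.add (.mul (.n 2) (.v 6)) (.n 1)) (.mul (.mul (.mul (.n 2) (.sub (.mul (.v 6)
    (.v 6)) (.n 1))) (.v 6)) (.add (.v 6) (.n 2)))) (.psub (.add (.mul (.v 5) (.add (.n 1) (.div (.n
    1) (.mul (.n 2) (.mul (.v 6) (.v 6)))))) (.c 1 2)) (.add (.mul (.v 6) (.v 6)) (.v 6))))
    (.lt (.div (.v 4) (.v 6))
    (.lt (.sub (.mul (.n 2) (.v 7)) (.v 5))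
    (.lt (.div (.sq (.mul (.n 2) (.v 8))) (.sub (.sq (.v 0)) (.c 1 2)))
    (.lt (.div (.add (.add (.sq (.div (.n 2) (.v 9))) (.div (.add (.c 11 2) (.mul (.n 60) (.v 2)))
    (.v 9))) (.div (.mul (.n 3) (.v 2)) (.v 8))) .pi)
    (.add (.mul (.div (.c 1061 1000) (.v 11)) (.add (.div (.add (.add (.mul (.add (.v 6) (.n 4))
    (.add (.div (.mul (.c 5 2) (.add (.add (.c 23 20) (.mul (.c 9 5) (.v 3))) (.mul (.n 10) (.mul
    (.v 3) (.v 3))))) (.mul (.mul (.sq (.v 7)) (.v 9)) (.sub (.sub (.div (.v 9) (.n 2)) (.c 5 2))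
    (.mul (.n 2) (.v 3))))) (.div (.mul (.mul (.n 4) (.div (.mul (.v 10) (.v 1)) (.sq (.v 2))))
    (.add (.n 1) (.lg (.mul (.mul (.n 2) (.v 10)) (.v 11))))) (.mul (.v 10) (.v 10))))) (.mul (.c 7
    2) (.v 5))) (.div (.n 80) (.mul (.v 10) (.v 10)))) .pi) (.v 0))) (.mul (.v 4) (.v 0))))))))))))

def eM2 : Ex :=
  .lt (.sq (.v 1))
    (.lt (.add (.add (.mul (.v 3) (.v 3)) (.v 3)) (.c 3 16))
    (.lt (.sub (.add (.mul (.v 4) (.v 4)) (.v 4)) (.c 3 2))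
    (.lt (.add (.ad (.v 4) (.add (.mul (.v 5) (.v 5)) (.v 5))) (.c 1 2))
    (.lt (.div (.add (.mul (.mul (.c 71 100) (.v 0)) (.v 3)) (.mul (.c 12 5) (.v 5))) (.mul (.v 5)
    (.v 5)))
    (.lt (.mul (.div (.add (.mul (.n 2) (.v 7)) (.n 1)) (.mul (.mul (.mul (.n 2) (.sub (.mul (.v 7)
    (.v 7)) (.n 1))) (.v 7)) (.add (.v 7) (.n 2)))) (.psub (.add (.mul (.v 6) (.add (.n 1) (.div (.n
    1) (.mul (.n 2) (.mul (.v 7) (.v 7)))))) (.c 1 2)) (.add (.mul (.v 7) (.v 7)) (.v 7))))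
    (.lt (.div (.sq (.mul (.n 2) (.v 7))) (.sub (.sq (.v 6)) (.c 1 2)))
    (.lt (.ad (.div (.v 8) (.v 4)) (.c 101 409))
    (.lt (.mul (.c 4 3) (.add (.mul (.c 409 100) (.mul (.v 0) (.v 0))) (.c 30699 40900)))
    (.lt (.div (.add (.add (.div (.c 23 10) (.v 8)) (.div (.n 3) (.v 10))) (.div (.mul (.c 21 5) (.v
    2)) (.v 8))) .pi)
    (.add (.mul (.div (.c 1061 1000) (.v 12)) (.add (.div (.add (.add (.add (.mul (.add (.v 6) (.n
    4)) (.add (.div (.mul (.mul (.n 4) (.mul (.v 3) (.v 3))) (.add (.n 1) (.lg (.div (.mul (.n 4)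
    (.v 11)) (.v 10))))) (.mul (.v 7) (.v 11))) (.div (.mul (.mul (.v 1) (.div (.mul (.v 11) (.v 3))
    (.sq (.v 10)))) (.add (.n 1) (.mx (.n 0) (.lg (.div (.mul (.mul (.n 8) (.v 11)) (.v 12)) (.v
    1)))))) (.mul (.v 11) (.v 11))))) (.mul (.mul (.c 9 10) (.v 1)) (.v 5))) (.div (.mul (.c 3 2)
    (.add (.mul (.v 6) (.add (.n 1) (.div (.v 9) (.n 2)))) (.v 11))) (.mul (.v 7) (.v 11)))) (.div
    (.n 80) (.mul (.v 11) (.v 11)))) .pi) (.v 0))) (.mul (.v 4) (.v 0))))))))))))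

def eB : Ex :=
  .mx (.psub (.mul (.n 2) (.v 0)) (.add (.add (.mul (.v 1) (.v 1)) (.v 1)) (.c 3 16))) (.psub (.v
    1) (.add (.add (.c 6 5) (.mul (.c 3 4) (.sq (.add (.v 1) (.n 1))))) (.div (.n 2) (.v 1))))

def eD : Ex :=
  .add (.add (.add (.mul (.n 2) (.v 0)) (.n 2)) (.mul (.c 3 4) (.sq (.add (.v 1) (.n 1))))) (.div
    (.n 2) (.v 1))

theorem ub_eq (k : ℕ) (R : ℝ) : ub k R = (2 * k + 1) / (2 * ((k : ℝ) * k - 1) * k * (k + 2))
    * max 0 (R * (1 + 1 / (2 * ((k : ℝ) * k))) + 1 / 2 - (k * k + k)) := by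
  have e : R * (1 + 1 / (2 * (k : ℝ) ^ 2)) - k ^ 2 - k + 1 / 2
      = R * (1 + 1 / (2 * ((k : ℝ) * k))) + 1 / 2 - (k * k + k) := by ring
  rw [ub, ek, e, sq]

theorem F0_eq (k : ℕ) (R : ℝ) : F0 k R = |R - (k * k + k)| + 1 / 2 := by
  rw [F0, sq, sub_sub]

theorem Dt_eq (L R : ℝ) : Dt L R = 4 / 3 * (409 / 100 * (|R / L - 101 / 409| * |R / L - 101 / 409|)
    + 30699 / 40900) := by
  rw [abs_mul_abs_self, Dt]
  ring

theorem eM1_val (k : ℕ) (R : ℝ) : eM1.val [R, k] = m1 k R := by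
  simp only [eM1, Ex.val, getR, m1, J1, D1, GG, VV, topI, ub_eq, F0_eq, Lk, Uk, sq, Nat.cast_ofNat,
    Nat.cast_one]
  ring

theorem eM2_val (k : ℕ) (R : ℝ) : eM2.val [Blo k R, R, k] = m2 k R := by
  simp only [eM2, Ex.val, getR, m2, J2, D2, GG, VV, topI, ub_eq, F0_eq, Dt_eq, Lk, sq,
    Nat.cast_ofNat, Nat.cast_one, Nat.cast_zero]
  ring

theorem eB_val (k : ℕ) (R : ℝ) (h : 0 < eB.val [R, k]) : eB.val [R, k] = Blo k R := by
  have e : eB.val [R, k] = max 0 (Blo k R) := by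
    simp only [eB, Ex.val, getR, Blo, Uk, sq, Nat.cast_ofNat, Nat.cast_one]
    rw [max_max_max_comm, max_self, sub_sub, sub_sub, ← add_assoc]
  rw [e] at h ⊢
  exact max_eq_right (by
    rcases lt_max_iff.1 h with h | h
    · exact absurd h (lt_irrefl _)
    · exact h.le)

theorem eD_val (k : ℕ) (R : ℝ) : eD.val [R, k] = 2 * R + 2 + 3 / 4 * √(k + 1) + 2 / k := by
  simp only [eD, Ex.val, getR, Nat.cast_ofNat, Nat.cast_one]

def cnd (c : Bool) (a b : Bool) : Bool := Bool.rec b a c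

def one1 (s : En) (c : ℕ → Bool) : Bool := eM1.ev s fun _ u => c u

def one2 (s : En) (c : ℕ → Bool) : Bool :=
  eB.ev s fun bl bh => grd (Nat.ble 1 bl) (eM2.ev (En.cons bl bh s) fun _ u => c u)

/-- passes an upper bound of `mc k R * SS` on `l ≤ R * SS ≤ h` to the continuation -/
def mcK (k l h : ℕ) (c : ℕ → Bool) : Bool :=
  frc (Nat.mul k SS) fun ks =>
  frc (Nat.mul (Nat.add (Nat.mul 16 (Nat.add (Nat.mul k k) k)) 3) SS) fun u =>
  eD.ev (En.cons l h (En.cons ks ks .nil)) fun _ d =>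
  cnd (Nat.ble d (Nat.mul (Nat.add (Nat.mul k k) (Nat.mul 2 k)) SS)) (c 0)
    (cnd (Nat.ble (Nat.mul 100 SS) l && Nat.ble u (Nat.mul 8 l))
      (one1 (En.cons l h (En.cons ks ks .nil)) c)
      (cnd (Nat.ble (Nat.mul 100 SS) h && Nat.ble u (Nat.mul 8 h))
        (one1 (En.cons l h (En.cons ks ks .nil)) fun a =>
          one2 (En.cons l h (En.cons ks ks .nil)) fun b => frc (nmax a b) c)
        (one2 (En.cons l h (En.cons ks ks .nil)) c)))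

theorem cnd_cases {c a b : Bool} (t : cnd c a b = true) :
    (c = true ∧ a = true) ∨ (¬c = true ∧ b = true) := by
  cases c
  · exact Or.inr ⟨by simp, t⟩
  · exact Or.inl ⟨rfl, t⟩

theorem mc_le {k u : ℕ} {R : ℝ} (h1 : 100 ≤ R ∧ Uk k ≤ R / 2 → m1 k R * SS ≤ u)
    (h2 : ¬(100 ≤ R ∧ Uk k ≤ R / 2) → m2 k R * SS ≤ u) : mc k R * SS ≤ u := by
  unfold mc
  split_ifs with a b
  · simp
  · exact h1 b
  · exact h2 b

theorem one1_ok {k : ℕ} {R : ℝ} {s : En} (h : Rel [R, k] s) {c : ℕ → Bool}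
    (t : one1 s c = true) : ∃ u : ℕ, m1 k R * SS ≤ u ∧ c u = true := by
  obtain ⟨_, u, p, t⟩ := ev_ok eM1 h t
  rw [eM1_val] at p
  exact ⟨u, p.2, t⟩

theorem one2_ok {k : ℕ} {R : ℝ} {s : En} (h : Rel [R, k] s) {c : ℕ → Bool}
    (t : one2 s c = true) : ∃ u : ℕ, m2 k R * SS ≤ u ∧ c u = true := by
  obtain ⟨bl, bh, p, t⟩ := ev_ok eB h t
  rw [grd_iff, Nat.ble_eq] at t
  have b0 : (0 : ℝ) < bl := by exact_mod_cast t.1
  rw [eB_val k R ((mul_pos_iff_of_pos_right SS_pos).1 (b0.trans_le p.1))] at p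
  obtain ⟨_, u, q, t⟩ := ev_ok eM2 (Rel.cons p h) t.2
  rw [eM2_val] at q
  exact ⟨u, q.2, t⟩

theorem cond_cast (k x : ℕ) :
    (Nat.ble (Nat.mul 100 SS) x && Nat.ble
      (Nat.mul (Nat.add (Nat.mul 16 (Nat.add (Nat.mul k k) k)) 3) SS) (Nat.mul 8 x)) = true ↔
    100 * (SS : ℝ) ≤ x ∧ Uk k * SS ≤ x / 2 := by
  rw [Bool.and_eq_true, Nat.ble_eq, Nat.ble_eq, ← Nat.cast_le (α := ℝ), ← Nat.cast_le (α := ℝ)]
  simp only [Nat.mul_eq, Nat.add_eq, Nat.cast_mul, Nat.cast_add, Nat.cast_ofNat, Uk]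
  refine and_congr Iff.rfl ⟨fun h => ?_, fun h => ?_⟩ <;> nlinarith

theorem mcK_ok {k l h : ℕ} {R : ℝ} (a : In R l h) {c : ℕ → Bool} (t : mcK k l h c = true) :
    ∃ u : ℕ, mc k R * SS ≤ u ∧ c u = true := by
  rw [mcK, frc_eq, frc_eq] at t
  have r : Rel [R, k] (En.cons l h (En.cons (Nat.mul k SS) (Nat.mul k SS) .nil)) :=
    Rel.cons a (Rel.cons (by simp [In]) Rel.nil)
  obtain ⟨_, d, p, t⟩ := ev_ok eD r t
  rw [eD_val] at p
  rcases cnd_cases t with ⟨c1, t⟩ | ⟨-, t⟩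
  · refine ⟨0, ?_, t⟩
    have : Deep k R := by
      rw [Nat.ble_eq, ← Nat.cast_le (α := ℝ)] at c1
      simp only [Nat.mul_eq, Nat.add_eq, Nat.cast_mul, Nat.cast_add, Nat.cast_ofNat] at c1
      refine le_of_mul_le_mul_right (p.2.trans ?_) SS_pos
      rw [sq]
      exact c1
    simp [mc, this]
  rcases cnd_cases t with ⟨c2, t⟩ | ⟨-, t⟩
  · obtain ⟨u, q, t⟩ := one1_ok r t
    rw [cond_cast] at c2
    exact ⟨u, mc_le (fun _ => q) fun hh => absurd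
      ⟨le_of_mul_le_mul_right (c2.1.trans a.1) SS_pos,
        le_of_mul_le_mul_right (by linarith [c2.2, a.1]) SS_pos⟩ hh, t⟩
  rcases cnd_cases t with ⟨-, t⟩ | ⟨c3, t⟩
  · obtain ⟨u, q, t⟩ := one1_ok r t
    obtain ⟨w, q', t⟩ := one2_ok r t
    rw [frc_eq, nmax_eq] at t
    refine ⟨_, mc_le (fun _ => ?_) fun _ => ?_, t⟩ <;> rw [Nat.cast_max]
    · exact q.trans (le_max_left _ _)
    · exact q'.trans (le_max_right _ _)
  · obtain ⟨u, q, t⟩ := one2_ok r t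
    rw [cond_cast] at c3
    exact ⟨u, mc_le (fun hh => absurd
      ⟨(mul_le_mul_of_nonneg_right hh.1 SS_pos.le).trans a.2,
        by linarith [mul_le_mul_of_nonneg_right hh.2 SS_pos.le, a.2]⟩ c3) fun _ => q, t⟩

/-- sums the bounds of `n` channels starting from `k` -/
def sumK (l h n : ℕ) : ℕ → ℕ → (ℕ → Bool) → Bool :=
  Nat.rec (fun _ acc c => c acc)
    (fun _ ih k acc c => mcK k l h fun u => frc (Nat.add acc u) fun acc =>
      frc (Nat.succ k) fun k => ih k acc c) n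

theorem sumK_succ (l h n k acc : ℕ) (c : ℕ → Bool) : sumK l h (n + 1) k acc c =
    mcK k l h fun u => frc (Nat.add acc u) fun acc =>
      frc (Nat.succ k) fun k => sumK l h n k acc c := rfl

theorem sumK_ok {l h : ℕ} {R : ℝ} (a : In R l h) (n k acc : ℕ) {c : ℕ → Bool}
    (t : sumK l h n k acc c = true) :
    ∃ u : ℕ, acc + (∑ j ∈ Finset.range n, mc (k + j) R) * SS ≤ u ∧ c u = true := by
  induction n generalizing k acc with
  | zero => exact ⟨acc, by simp, t⟩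
  | succ n ih =>
    rw [sumK_succ] at t
    obtain ⟨u, p, t⟩ := mcK_ok a t
    rw [frc_eq, frc_eq] at t
    obtain ⟨w, q, t⟩ := ih _ _ t
    refine ⟨w, le_trans ?_ q, t⟩
    rw [Finset.sum_range_succ']
    have e : ∀ j, k + (j + 1) = Nat.succ k + j := fun j => by omega
    simp only [e, Nat.add_eq, Nat.cast_add, add_zero]
    linarith

/-- passes an upper bound of the sum over the channels above `K`, times `SS` -/
def restK (K l h : ℕ) (c : ℕ → Bool) : Bool := sumK l h (Nat.sub 45 K) (Nat.succ K) 0 c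

theorem restK_ok {K l h : ℕ} {R : ℝ} (a : In R l h) {c : ℕ → Bool} (t : restK K l h c = true) :
    ∃ u : ℕ, (∑ k ∈ Finset.Icc (K + 1) 45, mc k R) * SS ≤ u ∧ c u = true := by
  obtain ⟨u, p, t⟩ := sumK_ok a _ _ _ t
  refine ⟨u, ?_, t⟩
  have e : Finset.Icc (K + 1) 45 = Finset.Ico (K + 1) 46 := rfl
  have e2 : 46 - (K + 1) = Nat.sub 45 K := by simp only [Nat.sub_eq]; omega
  rw [e, Finset.sum_Ico_eq_sum_range, e2]
  simpa using p

theorem rest_le {K l h B : ℕ} {R : ℝ} (a : In R l h)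
    (t : restK K l h (fun u => Nat.ble u B) = true) :
    ∑ k ∈ Finset.Icc (K + 1) 45, mc k R ≤ B / SS := by
  obtain ⟨u, p, t⟩ := restK_ok a t
  rw [Nat.ble_eq] at t
  rw [le_div_iff₀ SS_pos]
  exact p.trans (by exact_mod_cast t)

def chk2 (a b : ℕ) : Bool :=
  frc (Nat.mul a SS) fun l => frc (Nat.mul b SS) fun h =>
  (Ex.mul (.c 9 20) (.sq (.v 0))).ev (En.cons l h .nil) fun x _ =>
  restK 1 l h fun u => Nat.ble (Nat.add u 3408486046106) x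

theorem chk2_ok {a b : ℕ} (t : chk2 a b = true) {R : ℝ} (ha : (a : ℝ) ≤ R) (hb : R ≤ b) :
    1 + ∑ k ∈ Finset.Icc 2 45, mc k R ≤ 0.45 * √R - 2.1 := by
  rw [chk2, frc_eq, frc_eq] at t
  have i : In R (Nat.mul a SS) (Nat.mul b SS) := by
    simp only [In, Nat.mul_eq, Nat.cast_mul]
    exact ⟨mul_le_mul_of_nonneg_right ha SS_pos.le, mul_le_mul_of_nonneg_right hb SS_pos.le⟩
  obtain ⟨x, _, p, t⟩ := ev_ok _ (Rel.cons i Rel.nil) t
  obtain ⟨u, q, t⟩ := restK_ok i t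
  rw [Nat.ble_eq, ← Nat.cast_le (α := ℝ)] at t
  have p1 := p.1
  simp only [Ex.val, getR, Nat.add_eq, Nat.cast_add, Nat.cast_ofNat, SS] at p1 q t
  linarith

end

end Pool.Agent.Lib.MP_2347b2_mp.F.IA
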