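import Pool.Agent.Lib.MP_2347b2_mp.F.NumB

namespace Pool.Agent.Lib.MP_2347b2_mp.F.IA

theorem c400 : chk2 400 416 = true := by decide +kernel

theorem c416 : chk2 416 433 = true := by decide +kernel

theorem c433 : chk2 433 458 = true := by decide +kernel

theorem c458 : chk2 458 493 = true := by decide +kernel

theorem c493 : chk2 493 540 = true := by decide +kernel

end Pool.Agent.Lib.MP_2347b2_mp.F.IA
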