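import Mathlib

/-!
Intervals of nonnegative reals in fixed point arithmetic with scale `2 ^ 40`.
-/

namespace Pool.Agent.Lib.MP_2347b2_mp.F.Iv

/-- the scale -/
def S : ℕ := 1099511627776

theorem S_pos : (0 : ℝ) < S := by unfold S; norm_num

/-- an interval or a failure -/
inductive I where
  | bad : I
  | iv (l h : ℕ) : I

/-- `x` lies in the interval -/
def In (x : ℝ) : I → Prop
  | .bad => True
  | .iv l h => (l : ℝ) ≤ S * x ∧ S * x ≤ h

/-- sharing of the argument -/
def st {α : Type} (x : ℕ) (f : ℕ → α) : α := f x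

theorem st_eq {α : Type} (x : ℕ) (f : ℕ → α) : st x f = f x := rfl

def mk (l h : ℕ) : I := I.iv l h

theorem mk_eq (l h : ℕ) : mk l h = I.iv l h := rfl

/-- evaluation of an interval before the call -/
def frc (i : I) (f : I → I) : I := I.casesOn i I.bad fun l h => f (I.iv l h)

theorem frc_in {x : ℝ} {i : I} {f : I → I} (h : In x (f i)) : In x (frc i f) := by
  cases i with
  | bad => trivial
  | iv l u => exact h

def op1 (f : ℕ → ℕ → I) (i : I) : I := I.casesOn i I.bad f

def op2 (f : ℕ → ℕ → ℕ → ℕ → I) (i j : I) : I :=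
  I.casesOn i I.bad fun l h => I.casesOn j I.bad fun l' h' => f l h l' h'

theorem op1_in {x z : ℝ} {i : I} {f : ℕ → ℕ → I} (hx : In x i)
    (H : ∀ l h : ℕ, (l : ℝ) ≤ S * x → S * x ≤ h → In z (f l h)) : In z (op1 f i) := by
  cases i with
  | bad => trivial
  | iv l h => exact H l h hx.1 hx.2

theorem op2_in {x y z : ℝ} {i j : I} {f : ℕ → ℕ → ℕ → ℕ → I} (hx : In x i) (hy : In y j)
    (H : ∀ l h l' h' : ℕ, (l : ℝ) ≤ S * x → S * x ≤ h → (l' : ℝ) ≤ S * y → S * y ≤ h' →
      In z (f l h l' h')) : In z (op2 f i j) := by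
  cases i with
  | bad => trivial
  | iv l h =>
    cases j with
    | bad => trivial
    | iv l' h' => exact H l h l' h' hx.1 hx.2 hy.1 hy.2

theorem nn_of {x : ℝ} {l : ℕ} (h : (l : ℝ) ≤ S * x) : 0 ≤ x := by
  by_contra hx
  have : S * x < 0 := mul_neg_of_pos_of_neg S_pos (not_le.mp hx)
  have h0 : (0 : ℝ) ≤ l := Nat.cast_nonneg l
  linarith

theorem lt_div_succ (a b : ℕ) (hb : 0 < b) : (a : ℝ) / b ≤ ((a / b + 1 : ℕ) : ℝ) := by
  have h := Nat.lt_mul_div_succ a hb
  have hb' : (0 : ℝ) < b := by exact_mod_cast hb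
  rw [div_le_iff₀ hb']
  have : (a : ℝ) < ((b * (a / b + 1) : ℕ) : ℝ) := by exact_mod_cast h
  rw [Nat.cast_mul] at this
  linarith

/-- a natural number -/
def nat (n : ℕ) : I := st (n * S) fun a => I.iv a a

theorem nat_in (n : ℕ) : In n (nat n) := by
  rw [nat, st_eq]
  refine ⟨?_, ?_⟩ <;> rw [Nat.cast_mul, mul_comm]

/-- a fraction -/
def q (n d : ℕ) : I := Bool.casesOn (Nat.ble 1 d) I.bad (mk (n * S / d) (n * S / d + 1))

theorem q_in (n d : ℕ) : In ((n : ℝ) / d) (q n d) := by
  unfold q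
  cases hd : Nat.ble 1 d with
  | false => trivial
  | true =>
    have hd' : 0 < d := Nat.le_of_ble_eq_true hd
    change In _ (mk _ _)
    rw [mk_eq]
    have e : (S : ℝ) * (n / d) = ((n * S : ℕ) : ℝ) / d := by push_cast; ring
    refine ⟨?_, ?_⟩
    · rw [e]; exact Nat.cast_div_le
    · rw [e]; exact lt_div_succ _ _ hd'

def add : I → I → I := op2 fun l h l' h' => mk (l + l') (h + h')

theorem add_in {x y : ℝ} {i j : I} (hx : In x i) (hy : In y j) : In (x + y) (add i j) :=
  op2_in hx hy fun l h l' h' a b c d => by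
    rw [mk_eq]; refine ⟨?_, ?_⟩ <;> push_cast <;> linarith

def mul : I → I → I := op2 fun l h l' h' => mk (l * l' / S) (h * h' / S + 1)

theorem mul_in {x y : ℝ} {i j : I} (hx : In x i) (hy : In y j) : In (x * y) (mul i j) :=
  op2_in hx hy fun l h l' h' a b c d => by
    rw [mk_eq]
    have h1 := nn_of a
    have h2 := nn_of c
    have hS := S_pos
    have e : (S : ℝ) * (x * y) = (S * x) * (S * y) / S := by field_simp
    refine ⟨?_, ?_⟩
    · refine Nat.cast_div_le.trans ?_
      rw [e, Nat.cast_mul]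
      gcongr
    · refine le_trans ?_ (lt_div_succ _ _ (by unfold S; norm_num))
      rw [e, Nat.cast_mul]
      have : (0 : ℝ) ≤ h := Nat.cast_nonneg h
      gcongr

def div : I → I → I := op2 fun l h l' h' =>
  Bool.casesOn (Nat.ble 1 l') I.bad (mk (l * S / h') (h * S / l' + 1))

theorem div_in {x y : ℝ} {i j : I} (hx : In x i) (hy : In y j) : In (x / y) (div i j) :=
  op2_in hx hy fun l h l' h' a b c d => by
    cases hd : Nat.ble 1 l' with
    | false => trivial
    | true =>
      have hl : 0 < l' := Nat.le_of_ble_eq_true hd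
      have hl' : (0 : ℝ) < l' := by exact_mod_cast hl
      change In _ (mk _ _)
      rw [mk_eq]
      have h1 := nn_of a
      have hS := S_pos
      have hy0 : 0 < S * y := hl'.trans_le c
      have hy1 : 0 < y := (mul_pos_iff_of_pos_left hS).mp hy0
      have e : (S : ℝ) * (x / y) = (S * x) * S / (S * y) := by field_simp
      refine ⟨?_, ?_⟩
      · refine Nat.cast_div_le.trans ?_
        rw [e, Nat.cast_mul]
        gcongr
      · refine le_trans ?_ (lt_div_succ _ _ hl)
        rw [e, Nat.cast_mul]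
        have : (0 : ℝ) ≤ h := Nat.cast_nonneg h
        gcongr

theorem cast_tsub (a b : ℕ) : ((a - b : ℕ) : ℝ) = max 0 ((a : ℝ) - b) := by
  rcases le_total a b with h | h
  · have h' : (a : ℝ) ≤ b := by exact_mod_cast h
    rw [Nat.sub_eq_zero_of_le h, max_eq_left (by linarith)]; simp
  · have h' : (b : ℝ) ≤ a := by exact_mod_cast h
    rw [Nat.cast_sub h, max_eq_right (by linarith)]

def tsub : I → I → I := op2 fun l h l' h' => mk (l - h') (h - l')

theorem tsub_in {x y : ℝ} {i j : I} (hx : In x i) (hy : In y j) :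
    In (max 0 (x - y)) (tsub i j) :=
  op2_in hx hy fun l h l' h' a b c d => by
    rw [mk_eq]
    have e : (S : ℝ) * max 0 (x - y) = max 0 (S * x - S * y) := by
      rw [mul_max_of_nonneg _ _ S_pos.le, mul_zero, mul_sub]
    refine ⟨?_, ?_⟩ <;> rw [e, cast_tsub] <;> exact max_le_max le_rfl (by linarith)

def pos : I → I := op1 fun l h => Bool.casesOn (Nat.ble 1 l) I.bad (I.iv l h)

theorem pos_in {x : ℝ} {i : I} (hx : In (max 0 x) i) : In x (pos i) :=
  op1_in hx fun l h a b => by
    cases hd : Nat.ble 1 l with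
    | false => trivial
    | true =>
      have hl : 0 < l := Nat.le_of_ble_eq_true hd
      have hl' : (0 : ℝ) < l := by exact_mod_cast hl
      rcases le_total x 0 with h0 | h0
      · rw [max_eq_left h0, mul_zero] at a; linarith
      · rw [max_eq_right h0] at a b; exact ⟨a, b⟩

def sub (i j : I) : I := pos (tsub i j)

theorem sub_in {x y : ℝ} {i j : I} (hx : In x i) (hy : In y j) : In (x - y) (sub i j) :=
  pos_in (tsub_in hx hy)

def mx (a b : ℕ) : ℕ := a + (b - a)

theorem mx_eq (a b : ℕ) : (mx a b : ℝ) = max (a : ℝ) b := by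
  have : mx a b = max a b := by unfold mx; omega
  rw [this, Nat.cast_max]

def imax : I → I → I := op2 fun l h l' h' => mk (mx l l') (mx h h')

theorem imax_in {x y : ℝ} {i j : I} (hx : In x i) (hy : In y j) : In (max x y) (imax i j) :=
  op2_in hx hy fun l h l' h' a b c d => by
    rw [mk_eq]
    have e : (S : ℝ) * max x y = max (S * x) (S * y) := mul_max_of_nonneg _ _ S_pos.le
    refine ⟨?_, ?_⟩ <;> rw [e, mx_eq] <;> exact max_le_max (by assumption) (by assumption)

def adiff (i j : I) : I := imax (tsub i j) (tsub j i)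

theorem adiff_in {x y : ℝ} {i j : I} (hx : In x i) (hy : In y j) : In |x - y| (adiff i j) := by
  have e : |x - y| = max (max 0 (x - y)) (max 0 (y - x)) := by
    rcases le_total x y with h | h
    · rw [abs_of_nonpos (by linarith), max_eq_left (a := 0) (b := x - y) (by linarith),
        max_eq_right (a := 0) (b := y - x) (by linarith), max_eq_right (by linarith)]; ring
    · rw [abs_of_nonneg (by linarith), max_eq_right (a := 0) (b := x - y) (by linarith),
        max_eq_left (a := 0) (b := y - x) (by linarith), max_eq_left (by linarith)]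
  rw [e]
  exact imax_in (tsub_in hx hy) (tsub_in hy hx)

/-- one Newton step for the square root -/
def nw (n x : ℕ) : ℕ := st x fun x => (x + n / x) / 2 + 1

theorem nw_pos (n x : ℕ) : 0 < nw n x := by rw [nw, st_eq]; exact Nat.succ_pos _

theorem le_nw (n : ℕ) {x : ℕ} (hx : 0 < x) : n ≤ nw n x * nw n x := by
  rw [nw, st_eq]
  have h := Nat.lt_mul_div_succ n hx
  generalize n / x = t at h
  have h2 : x + t + 1 ≤ 2 * ((x + t) / 2 + 1) := by omega
  generalize (x + t) / 2 + 1 = y at h2
  have h3 : (x + t + 1) * (x + t + 1) ≤ (2 * y) * (2 * y) := Nat.mul_le_mul h2 h2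
  zify at h h3 ⊢
  nlinarith [sq_nonneg ((x : ℤ) - t - 1)]

def sqU (n : ℕ) : ℕ := st n fun n => nw n (nw n (nw n (nw n (nw n (2 ^ (Nat.log2 n / 2 + 1))))))

theorem sqU_pos (n : ℕ) : 0 < sqU n := by rw [sqU, st_eq]; exact nw_pos _ _

theorem le_sqU (n : ℕ) : n ≤ sqU n * sqU n := by rw [sqU, st_eq]; exact le_nw _ (nw_pos _ _)

def sqrt : I → I := op1 fun l h =>
  st (sqU (h * S)) fun u => st (l * S) fun a => mk (a / nw a u) u

theorem sqrt_in {x : ℝ} {i : I} (hx : In x i) : In √x (sqrt i) :=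
  op1_in hx fun l h a b => by
    rw [st_eq, st_eq, mk_eq]
    have h1 := nn_of a
    have hS := S_pos
    have e : (S : ℝ) * √x = √(S * x * S) := by
      rw [show (S : ℝ) * x * S = S ^ 2 * x by ring, Real.sqrt_mul (sq_nonneg _),
        Real.sqrt_sq hS.le]
    refine ⟨?_, ?_⟩
    · refine Nat.cast_div_le.trans ?_
      have hv : (0 : ℝ) < nw (l * S) (sqU (h * S)) := by exact_mod_cast nw_pos _ _
      have h2 : ((l * S : ℕ) : ℝ) ≤ (nw (l * S) (sqU (h * S)) : ℝ) * nw (l * S) (sqU (h * S)) := by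
        exact_mod_cast le_nw (l * S) (sqU_pos _)
      generalize (nw (l * S) (sqU (h * S)) : ℝ) = v at hv h2
      have h0 : (0 : ℝ) ≤ ((l * S : ℕ) : ℝ) := Nat.cast_nonneg _
      have h3 : ((l * S : ℕ) : ℝ) ≤ S * x * S := by rw [Nat.cast_mul]; gcongr
      generalize ((l * S : ℕ) : ℝ) = n at h0 h2 h3
      rw [e]
      refine Real.le_sqrt_of_sq_le (le_trans ?_ h3)
      rw [div_pow, div_le_iff₀ (by positivity)]
      nlinarith
    · rw [e]
      refine Real.sqrt_le_iff.mpr ⟨Nat.cast_nonneg _, ?_⟩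
      have h2 : ((h * S : ℕ) : ℝ) ≤ (sqU (h * S) : ℝ) * sqU (h * S) := by
        exact_mod_cast le_sqU (h * S)
      rw [Nat.cast_mul] at h2
      rw [sq]
      refine le_trans ?_ h2
      gcongr

theorem log_pade {x : ℝ} (hx : 0 ≤ x) : Real.log (1 + x) ≤ x * (6 + x) / (6 + 4 * x) := by
  have hd : ∀ y : ℝ, 0 ≤ y → HasDerivAt (fun y : ℝ => y * (6 + y) / (6 + 4 * y) - Real.log (1 + y))
      (4 * y ^ 3 / ((6 + 4 * y) ^ 2 * (1 + y))) y := fun y hy => by
    have h1 : HasDerivAt (fun y : ℝ => y * (6 + y)) (1 * (6 + y) + y * 1) y :=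
      (hasDerivAt_id' y).mul ((hasDerivAt_id' y).const_add 6)
    have h2 : HasDerivAt (fun y : ℝ => 6 + 4 * y) (4 * 1) y :=
      ((hasDerivAt_id' y).const_mul 4).const_add 6
    have h3 : HasDerivAt (fun y : ℝ => Real.log (1 + y)) (1 / (1 + y)) y :=
      ((hasDerivAt_id' y).const_add 1).log (by linarith)
    have h4 := (h1.div h2 (by linarith)).sub h3
    refine h4.congr_deriv ?_
    have : (6 + 4 * y) ≠ 0 := by linarith
    have : (1 + y) ≠ 0 := by linarith
    field_simp
    ring
  have hm : MonotoneOn (fun y : ℝ => y * (6 + y) / (6 + 4 * y) - Real.log (1 + y)) (Set.Ici 0) := by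
    refine monotoneOn_of_deriv_nonneg (convex_Ici 0)
      (fun y hy => (hd y hy).continuousAt.continuousWithinAt)
      (fun y hy => (hd y (interior_subset hy)).differentiableAt.differentiableWithinAt)
      fun y hy => ?_
    have hy' : 0 ≤ y := interior_subset hy
    rw [(hd y hy').deriv]
    positivity
  have := hm (Set.mem_Ici.mpr le_rfl) (Set.mem_Ici.mpr hx) hx
  simp only [zero_mul, zero_div, add_zero, Real.log_one, sub_zero] at this
  linarith

/-- upper bound for the logarithm -/
def lgU (h : ℕ) : ℕ := st (Nat.log2 (h / S)) fun m => st (h / 2 ^ m + 1 - S) fun x =>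
  m * 762123385052 + (x * (6 * S + x) / (6 * S + 4 * x) + 1)

theorem le_lgU {x : ℝ} {h : ℕ} (h0 : 0 ≤ x) (b : S * x ≤ h) : S * Real.log x ≤ lgU h := by
  rcases h0.eq_or_lt with rfl | h0
  · simp
  rw [lgU, st_eq, st_eq]
  generalize Nat.log2 (h / S) = m
  have hS := S_pos
  have h1 : (h : ℝ) / ((2 ^ m : ℕ) : ℝ) ≤ ((h / 2 ^ m + 1 : ℕ) : ℝ) :=
    lt_div_succ _ _ (by positivity)
  have h2 : ((h / 2 ^ m + 1 : ℕ) : ℝ) ≤ S + ((h / 2 ^ m + 1 - S : ℕ) : ℝ) := by
    have : h / 2 ^ m + 1 ≤ S + (h / 2 ^ m + 1 - S) := by omega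
    exact_mod_cast this
  generalize h / 2 ^ m + 1 - S = y at h2 ⊢
  have hy : (0 : ℝ) ≤ y := Nat.cast_nonneg y
  have h3 : x ≤ 2 ^ m * (1 + y / S) := by
    have h4 := h1.trans h2
    rw [div_le_iff₀ (by positivity)] at h4
    push_cast at h4
    have e : (2 : ℝ) ^ m * (1 + y / S) = (S + y) * 2 ^ m / S := by field_simp
    rw [e, le_div_iff₀ hS]
    linarith
  have h5 : Real.log x ≤ m * Real.log 2 + Real.log (1 + y / S) := by
    refine (Real.log_le_log h0 h3).trans_eq ?_
    rw [Real.log_mul (by positivity) (by positivity), Real.log_pow]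
  have h6 := log_pade (x := y / S) (by positivity)
  have h7 := lt_div_succ (y * (6 * S + y)) (6 * S + 4 * y) (by unfold S; omega)
  have e : (S : ℝ) * (y / S * (6 + y / S) / (6 + 4 * (y / S)))
      = ((y * (6 * S + y) : ℕ) : ℝ) / ((6 * S + 4 * y : ℕ) : ℝ) := by
    push_cast; field_simp
  have h8 : (S : ℝ) * Real.log 2 ≤ 762123385052 := by
    have := Real.log_two_lt_d9
    unfold S; push_cast; linarith
  have h9 : (S : ℝ) * (m * Real.log 2) ≤ m * 762123385052 := by
    have : (0 : ℝ) ≤ m := Nat.cast_nonneg m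
    nlinarith
  have h10 := mul_le_mul_of_nonneg_left h6 hS.le
  have h11 := mul_le_mul_of_nonneg_left h5 hS.le
  rw [e] at h10
  rw [Nat.cast_add, Nat.cast_mul]
  rw [mul_add] at h11
  push_cast at h7 h10 ⊢
  linarith

def lgp : I → I := op1 fun _ h => mk 0 (lgU h)

theorem lgp_in {x : ℝ} {i : I} (hx : In x i) : In (max 0 (Real.log x)) (lgp i) :=
  op1_in hx fun l h a b => by
    rw [mk_eq]
    refine ⟨?_, ?_⟩
    · rw [Nat.cast_zero]; exact mul_nonneg S_pos.le (le_max_left _ _)
    · rw [mul_max_of_nonneg _ _ S_pos.le, mul_zero]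
      exact max_le (Nat.cast_nonneg _) (le_lgU (nn_of a) b)

def lg : I → I := op1 fun l h => Bool.casesOn (Nat.ble S l) I.bad (mk 0 (lgU h))

theorem lg_in {x : ℝ} {i : I} (hx : In x i) : In (Real.log x) (lg i) :=
  op1_in hx fun l h a b => by
    cases hd : Nat.ble S l with
    | false => trivial
    | true =>
      have hl : (S : ℝ) ≤ l := by exact_mod_cast Nat.le_of_ble_eq_true hd
      change In _ (mk _ _)
      rw [mk_eq]
      have h1 : 1 ≤ x := by
        by_contra hc
        have := mul_lt_mul_of_pos_left (not_le.mp hc) S_pos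
        linarith
      refine ⟨?_, le_lgU (nn_of a) b⟩
      rw [Nat.cast_zero]; exact mul_nonneg S_pos.le (Real.log_nonneg h1)

def pi : I := I.iv 3454216933725 3454218033241

theorem pi_in : In Real.pi pi := by
  have h1 := Real.pi_gt_d6
  have h2 := Real.pi_lt_d6
  refine ⟨?_, ?_⟩ <;> unfold S <;> push_cast <;> linarith

/-- certified comparison -/
def le (i j : I) : Bool :=
  I.casesOn i false fun _ h => I.casesOn j false fun l' _ => Nat.ble h l'

theorem le_of {x y : ℝ} {i j : I} (hx : In x i) (hy : In y j) (h : le i j = true) : x ≤ y := by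
  cases i with
  | bad => exact absurd h (by simp [le])
  | iv l u =>
    cases j with
    | bad => exact absurd h (by simp [le])
    | iv l' u' =>
      have h1 : (u : ℝ) ≤ l' := by exact_mod_cast Nat.le_of_ble_eq_true h
      exact le_of_mul_le_mul_left (hx.2.trans (h1.trans hy.1)) S_pos

/-- certified strict comparison -/
def lt (i j : I) : Bool :=
  I.casesOn i false fun _ h => I.casesOn j false fun l' _ => Nat.ble (h + 1) l'

theorem lt_of {x y : ℝ} {i j : I} (hx : In x i) (hy : In y j) (h : lt i j = true) : x < y := by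
  cases i with
  | bad => exact absurd h (by simp [lt])
  | iv l u =>
    cases j with
    | bad => exact absurd h (by simp [lt])
    | iv l' u' =>
      have h0 : u < l' := Nat.le_of_ble_eq_true h
      have h1 : (u : ℝ) < l' := by exact_mod_cast h0
      exact lt_of_mul_lt_mul_left (hx.2.trans_lt (h1.trans_le hy.1)) S_pos.le

/-- the hull of two intervals -/
def hull : I → I → I := fun i j => op2 (fun _ h _ h' => mk 0 (mx h h')) i j

theorem hull_in {x y z : ℝ} {i j : I} (hx : In x i) (hy : In y j) (hz : z = x ∨ z = y ∨ z = 0) :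
    In z (hull i j) :=
  op2_in hx hy fun l h l' h' a b c d => by
    rw [mk_eq]
    have h1 := nn_of a
    have h2 := nn_of c
    have hS := S_pos
    have h3 : (0 : ℝ) ≤ h := Nat.cast_nonneg h
    refine ⟨?_, ?_⟩
    · rw [Nat.cast_zero]; rcases hz with rfl | rfl | rfl <;> positivity
    · rw [mx_eq]
      rcases hz with rfl | rfl | rfl
      · exact b.trans (le_max_left _ _)
      · exact d.trans (le_max_right _ _)
      · rw [mul_zero]; exact h3.trans (le_max_left _ _)

theorem zero_in : In 0 (I.iv 0 0) := by refine ⟨?_, ?_⟩ <;> simp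

theorem In.congr {x y : ℝ} {i : I} (h : In x i) (e : y = x) : In y i := e ▸ h

/-- the interval from `a / d` to `b / d` -/
def box (a b d : ℕ) : I := Bool.casesOn (Nat.ble 1 d) I.bad (mk (a * S / d) (b * S / d + 1))

theorem box_in {R : ℝ} {a b d : ℕ} (ha : (a : ℝ) / d ≤ R) (hb : R ≤ (b : ℝ) / d) : In R (box a b d) := by
  unfold box
  have h1 := q_in a d
  have h2 := q_in b d
  unfold q at h1 h2
  cases hd : Nat.ble 1 d with
  | false => trivial
  | true =>
    rw [hd] at h1 h2
    change In _ (mk _ _) at h1 h2 ⊢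
    rw [mk_eq] at h1 h2 ⊢
    exact ⟨h1.1.trans (mul_le_mul_of_nonneg_left ha S_pos.le),
      (mul_le_mul_of_nonneg_left hb S_pos.le).trans h2.2⟩

theorem in_iv {x : ℝ} {l h : ℕ} : In x (I.iv l h) ↔ (l : ℝ) ≤ S * x ∧ S * x ≤ h := Iff.rfl

theorem in_bad (x : ℝ) : In x I.bad := trivial

attribute [irreducible] In

end Pool.Agent.Lib.MP_2347b2_mp.F.Iv
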