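import Pool.Agent.Lib.MP_2347b2_mp.F.CReal
import Pool.Agent.Lib.MP_2347b2_mp.F.Lad2

namespace Pool.Agent.Lib.MP_2347b2_mp.F

open MeasureTheory Set Filter Topology

/-- the density of a pair of states -/
noncomputable def DP (γ : ℝ) (k m : ℕ) (R : ℝ) : ℝ :=
  EE γ (sOf γ k) m / sOf γ k ^ 2 *
    (k ^ 2 * EE γ (sOf γ k) m * (ff γ (sOf γ k - 1) (m + 1) R ^ 2 + ff γ (sOf γ k) m R ^ 2)
      + 2 * γ ^ 2 * √(1 + k ^ 2 * ep γ (sOf γ k) m)
        * (ff γ (sOf γ k - 1) (m + 1) R * ff γ (sOf γ k) m R))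

/-- the density of the channels `k` and `-k` -/
noncomputable def chD (γ : ℝ) (k : ℕ) (R : ℝ) : ℝ :=
  ff γ (sOf γ k - 1) 0 R ^ 2 + ∑' m, DP γ k m R

variable {γ : ℝ} {k : ℕ}

theorem ra_adm {f : ℝ → ℝ} (hf : Adm f) (h0 : 0 < γ) : Adm fun r => f (γ * r) where
  cont := hf.cont.comp (continuous_const.mul continuous_id).continuousOn
    fun _ hr => mul_pos h0 hr
  sq := (integrableOn_Ioi_comp_mul_left_iff (fun r => f r ^ 2) 0 h0).2 (by
    rw [mul_zero]; exact hf.sq)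
  pot := by
    have h := (integrableOn_Ioi_comp_mul_left_iff (fun r => f r ^ 2 / r) 0 h0).2 (by
      rw [mul_zero]; exact hf.pot)
    refine IntegrableOn.congr_fun (h.const_mul γ) (fun r hr => ?_) measurableSet_Ioi
    have : r ≠ 0 := ne_of_gt hr
    have := h0.ne'
    field_simp

theorem ra_int (g : ℝ → ℝ) (h0 : 0 < γ) :
    ∫ r in Ioi (0 : ℝ), g (γ * r) = γ⁻¹ * ∫ r in Ioi (0 : ℝ), g r := by
  rw [integral_comp_mul_left_Ioi g 0 h0, mul_zero, smul_eq_mul]

/-- a ladder pair against a growing regular solution vanishes far out -/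
theorem ra_kill {s z b c : ℝ} {x y P P1 : ℝ → ℝ} (h : Lad s z b c x y) (hc : c ≠ 0)
    (d1 : ∀ r, 0 < r → HasDerivAt P (P1 r) r)
    (d2 : ∀ r, 0 < r → HasDerivAt P1 ((s / r ^ 2 + (s / r - z) ^ 2 + b * c) * P r) r)
    (l1 : Tendsto P (𝓝[>] 0) (𝓝 0))
    (l2 : Tendsto (fun r => P1 r + (s / r - z) * P r) (𝓝[>] 0) (𝓝 0))
    (hg : ∀ᶠ r in atTop, 0 < P r * P1 r) : ∃ r, 0 < r ∧ x r = 0 ∧ y r = 0 := by
  set X : ℝ → ℝ := fun r => P1 r + (s / r - z) * P r with hX
  have dX : ∀ r, 0 < r → HasDerivAt X ((s / r - z) * X r + b * c * P r) r := fun r hr => by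
    refine ((d2 r hr).fun_add ((((hasDerivAt_const r s).fun_div (hasDerivAt_id' r)
      hr.ne').sub_const z).fun_mul (d1 r hr))).congr_deriv ?_
    simp only [hX]
    ring
  have dW : ∀ r, 0 < r → HasDerivAt (fun r => c * x r * P r - y r * X r) 0 r := fun r hr => by
    refine ((((h.dx r hr).const_mul c).fun_mul (d1 r hr)).fun_sub
      ((h.dy r hr).fun_mul (dX r hr))).congr_deriv ?_
    simp only [hX]
    ring
  have m1 := monotoneOn_Ioi dW (fun _ _ => le_rfl)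
  have m2 := monotoneOn_Ioi (fun r hr => (dW r hr).fun_neg) (fun _ _ => by simp)
  have hW : ∀ r, 0 < r → c * x r * P r - y r * X r = c * x 1 * P 1 - y 1 * X 1 := fun r hr => by
    rcases le_total r 1 with e | e
    · have a1 := m1 hr (mem_Ioi.2 one_pos) e
      have a2 := m2 hr (mem_Ioi.2 one_pos) e
      simp only at a1 a2
      linarith
    · have a1 := m1 (mem_Ioi.2 one_pos) hr e
      have a2 := m2 (mem_Ioi.2 one_pos) hr e
      simp only at a1 a2
      linarith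
  generalize c * x 1 * P 1 - y 1 * X 1 = d at hW
  have hd : d = 0 := by
    by_contra hd
    have l3 : Tendsto (fun r => (c * P r) ^ 2 + X r ^ 2) (𝓝[>] 0) (𝓝 0) := by
      simpa using ((l1.const_mul c).pow 2).add (l2.pow 2)
    obtain ⟨R, hR, hs⟩ := mem_nhdsGT_iff_exists_Ioo_subset.1 (l3.eventually_lt_const one_pos)
    refine not_integrable_of_ge (f := fun r => x r ^ 2 + y r ^ 2) hR (sq_pos_of_ne_zero hd)
      (fun r hr => ?_) ?_
    · have a1 : (c * P r) ^ 2 + X r ^ 2 < 1 := hs hr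
      rw [← hW r hr.1, abs_of_nonneg (by positivity)]
      nlinarith [sq_nonneg (x r * X r + y r * (c * P r)),
        mul_le_mul_of_nonneg_left a1.le (show 0 ≤ x r ^ 2 + y r ^ 2 by positivity)]
    · refine IntegrableOn.congr_fun ((h.ax.pot.add h.ay.pot).mono_set Ioo_subset_Ioi_self)
        (fun r _ => ?_) measurableSet_Ioo
      simp only [Pi.add_apply]
      ring
  subst hd
  obtain ⟨R, hR⟩ := eventually_atTop.1 (hg.and (eventually_gt_atTop 0))
  have hP : ∀ r, R ≤ r → P r ≠ 0 := fun r hr e => by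
    have := (hR r hr).1
    rw [e, zero_mul] at this
    exact lt_irrefl _ this
  have hy : y R = 0 := by
    by_contra hy
    have mono : MonotoneOn (fun r => y r ^ 2) (Ici R) := by
      have dy : ∀ r, R ≤ r → HasDerivAt (fun r => y r ^ 2)
          (2 * y r ^ 2 * (P r * P1 r) / P r ^ 2) r := fun r hr => by
        refine ((h.dy r (hR r hr).2).fun_pow 2).congr_deriv ?_
        have a1 := hW r (hR r hr).2
        have a2 := hP r hr
        simp only [hX] at a1
        push_cast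
        field_simp
        linear_combination (y r) * a1
      refine monotoneOn_of_deriv_nonneg (convex_Ici R)
        (fun r hr => (dy r hr).continuousAt.continuousWithinAt)
        (fun r hr => (dy r (interior_subset hr)).differentiableAt.differentiableWithinAt)
        (fun r hr => ?_)
      rw [(dy r (interior_subset hr)).deriv]
      have := (hR r (interior_subset hr)).1
      positivity
    have hi : IntegrableOn (fun _ : ℝ => y R ^ 2) (Ioi R) := by
      refine Integrable.mono' (h.ay.sq.mono_set (Ioi_subset_Ioi (hR R le_rfl).2.le))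
        aestronglyMeasurable_const ?_
      filter_upwards [ae_restrict_mem measurableSet_Ioi] with r hr
      rw [Real.norm_eq_abs, abs_of_nonneg (sq_nonneg _)]
      exact mono (mem_Ici.2 le_rfl) (mem_Ici.2 (le_of_lt hr)) (le_of_lt hr)
    rw [integrableOn_const_iff] at hi
    simp [hy] at hi
  refine ⟨R, (hR R le_rfl).2, ?_, hy⟩
  have a1 := hW R (hR R le_rfl).2
  rw [hy, zero_mul, sub_zero] at a1
  exact (mul_eq_zero.1 ((mul_eq_zero.1 a1).resolve_right (hP R le_rfl))).resolve_left hc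

theorem ra_shift (γ s : ℝ) (m : ℕ) : EE γ (s - 1) (m + 1) = EE γ s m := by
  rw [EE, EE, NN, NN, nu_shift]

theorem ra_ch (h0 : 0 < γ) (h1 : γ < 1) (hk : 1 ≤ k) :
    Ch γ k (sOf γ k) (√(k + sOf γ k)) (√(k - sOf γ k)) :=
  chOf h0 (h1.trans_le (by exact_mod_cast hk))

theorem ra_re {f : ℝ → ℂ} {f' : ℂ} {r : ℝ} (h : HasDerivAt f f' (γ * r)) :
    HasDerivAt (fun r => (f (γ * r)).re) (γ * f'.re) r := by
  have a := Complex.reCLM.hasFDerivAt.comp_hasDerivAt (γ * r) h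
  have b := HasDerivAt.comp (h₂ := fun t => (f t).re) r a ((hasDerivAt_id' r).const_mul γ)
  exact b.congr_deriv (by simp [mul_comm])

/-- all eigenvalues -/
theorem eig_class (h0 : 0 < γ) (h1 : γ < 1) (hk : 1 ≤ k) {E : ℝ} (hE : 0 < E) (hE1 : E < 1)
    (h : ∃ G F, IsRadialEigenfunction γ (-k) E G F) : ∃ n, E = EE γ (sOf γ k - 1) n := by
  obtain ⟨G, F, h⟩ := h
  have c := ra_ch h0 h1 hk
  obtain ⟨x, y, hl, -, hB, -, hw⟩ := c.pair hE h
  have k1 : (1 : ℝ) ≤ k := by exact_mod_cast hk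
  have s2 := sk_sq h0 h1 hk
  have s0 := c.spos
  rcases hB.eq_or_lt with hB | hB
  · refine ⟨0, ?_⟩
    rw [(ground_E h0 h1 hk).2, eq_div_iff (by linarith)]
    linarith
  set s := sOf γ k
  set ε : ℝ := -(1 - E ^ 2) / γ ^ 2 with hε
  have e1 : 1 + γ ^ 2 * ε = E ^ 2 := by rw [hε]; field_simp; ring
  have E1 : E ^ 2 < 1 := pow_lt_one₀ hE.le hE1 two_ne_zero
  have e2 : ε < 0 := div_neg_of_neg_of_pos (by linarith) (by positivity)
  have e3 : -1 < ε := by
    rw [hε, lt_div_iff₀ (by positivity)]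
    have a1 : s ^ 2 < (E * k) ^ 2 := pow_lt_pow_left₀ (by linarith) s0.le two_ne_zero
    have a2 : (1 : ℝ) ≤ k ^ 2 := one_le_pow₀ k1
    nlinarith
  have hs : -1 < s := by linarith
  by_cases hn : ∀ n, ε ≠ ep γ s n
  · exfalso
    have g2 : γ ^ 2 ≤ 1 := pow_le_one₀ h0.le h1.le
    have hQ : ∀ R : ℝ, Qc γ s ε R = ((s * (s + 1) / R ^ 2 - 2 * E / R - ε : ℝ) : ℂ) := fun R => by
      rw [Qc, Ec_real g2 e3, e1, Real.sqrt_sq hE.le]
      push_cast
      ring
    have sol := ph_sol hs γ ε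
    have t0 : Tendsto (fun r : ℝ => γ * r) (𝓝[>] 0) (𝓝[>] 0) := by
      refine tendsto_nhdsWithin_iff.2 ⟨?_, ?_⟩
      · simpa using (tendsto_id.mono_left
          (nhdsWithin_le_nhds (a := (0 : ℝ)) (s := Ioi (0 : ℝ)))).const_mul γ
      · filter_upwards [self_mem_nhdsWithin] with r hr using mul_pos h0 hr
    have t1 : Tendsto (fun R : ℝ => R ^ s) (𝓝[>] 0) (𝓝 0) := by
      have := (Real.continuousAt_rpow_const 0 s (Or.inr s0.le)).tendsto
      rw [Real.zero_rpow s0.ne'] at this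
      exact this.mono_left nhdsWithin_le_nhds
    have t2 : Tendsto (fun R : ℝ => (ph γ s ε R).re / R) (𝓝[>] 0) (𝓝 0) := by
      have := ((Complex.continuous_re.tendsto _).comp (ph_lim hs γ ε)).mul t1
      rw [mul_zero] at this
      refine this.congr' ?_
      filter_upwards [self_mem_nhdsWithin] with R hR
      have a1 : (0 : ℝ) < R := hR
      have a2 := Real.rpow_pos_of_pos a1 s
      simp only [Function.comp, Complex.div_ofReal_re]
      rw [Real.rpow_add_one a1.ne']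
      field_simp
    have t3 : Tendsto (fun R : ℝ => (phD γ s ε R).re) (𝓝[>] 0) (𝓝 0) := by
      have := ((Complex.continuous_re.tendsto _).comp (phD_lim hs γ ε)).mul t1
      rw [mul_zero] at this
      refine this.congr' ?_
      filter_upwards [self_mem_nhdsWithin] with R hR
      have a1 : (0 : ℝ) < R := hR
      have a2 := Real.rpow_pos_of_pos a1 s
      simp only [Function.comp, Complex.div_ofReal_re]
      field_simp
    have t4 : Tendsto (fun R : ℝ => (ph γ s ε R).re) (𝓝[>] 0) (𝓝 0) := by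
      have := t2.mul (tendsto_id.mono_left (nhdsWithin_le_nhds (s := Ioi (0 : ℝ))))
      rw [mul_zero] at this
      refine this.congr' ?_
      filter_upwards [self_mem_nhdsWithin] with R hR
      have a1 : R ≠ 0 := ne_of_gt hR
      simp only [id]
      field_simp
    obtain ⟨r, hr, hx, hy⟩ := ra_kill (P := fun r => (ph γ s ε (γ * r)).re)
      (P1 := fun r => γ * (phD γ s ε (γ * r)).re) hl (div_ne_zero (by linarith) s0.ne')
      (fun r hr => ra_re (sol.d1 _ (mul_pos h0 hr)))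
      (fun r hr => ((ra_re (sol.d2 _ (mul_pos h0 hr))).const_mul γ).congr_deriv (by
        rw [hQ, Complex.re_ofReal_mul, hε]
        have := hr.ne'
        have g : (k : ℝ) ^ 2 = s ^ 2 + γ ^ 2 := by linarith
        field_simp
        linear_combination (E ^ 2 * r ^ 2 * (ph γ s (-((1 - E ^ 2) / γ ^ 2) : ℝ) (γ * r)).re) * g))
      (t4.comp t0) (by
        have := (((t3.const_mul γ).add (t2.const_mul (s * γ))).sub
          (t4.const_mul (γ * E / s))).comp t0
        simp only [mul_zero, add_zero, sub_zero] at this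
        refine this.congr' ?_
        filter_upwards [self_mem_nhdsWithin] with R hR
        have a1 : R ≠ 0 := ne_of_gt hR
        simp only [Function.comp]
        field_simp
        ring)
      (by
        have := (tendsto_id.const_mul_atTop h0).eventually
          (ph_grows hs e2 (by rw [e1]; positivity) hn)
        filter_upwards [this] with r hr
        simp only [id] at hr
        nlinarith [mul_pos h0 hr])
    have a1 := (hw r hr).2.1
    rw [show pairD γ k s E x y r = 0 by simp [pairD, hx, hy]] at a1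
    have hv := vanish h.upper h.lower hr (by nlinarith [sq_nonneg (G r), sq_nonneg (F r)])
      (by nlinarith [sq_nonneg (G r), sq_nonneg (F r)])
    obtain ⟨a, ha', hne⟩ := h.exists_ne
    exact hne (by rw [(hv a ha').1, (hv a ha').2]; norm_num)
  · push Not at hn
    obtain ⟨m, hm⟩ := hn
    refine ⟨m + 1, ?_⟩
    rw [ra_shift]
    refine (sq_eq_sq₀ hE.le (EE_pos hs m).le).1 ?_
    rw [EE_sq hs, ← hm, e1]

theorem EE_lt_one (h0 : 0 < γ) {l : ℝ} (hl : -1 < l) (n : ℕ) : EE γ l n < 1 := by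
  refine lt_of_pow_lt_pow_left₀ 2 zero_le_one ?_
  rw [EE_sq hl, one_pow]
  linarith [mul_neg_of_pos_of_neg (pow_pos h0 2) (ep_neg (γ := γ) hl n)]

theorem EE_inj (h0 : 0 < γ) {l : ℝ} (hl : -1 < l) : Function.Injective (EE γ l) := by
  intro m n h
  have e := congrArg (· ^ 2) h
  simp only [EE_sq hl, add_right_inj] at e
  exact (ep_strictMono hl).injective (mul_left_cancel₀ (pow_pos h0 2).ne' e)

theorem weight_ground (h0 : 0 < γ) (h1 : γ < 1) (hk : 1 ≤ k) {r : ℝ} (hr : 0 < r) :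
    radialWeight γ (-k) (EE γ (sOf γ k - 1) 0) r + radialWeight γ k (EE γ (sOf γ k - 1) 0) r
      = ENNReal.ofReal (γ * ff γ (sOf γ k - 1) 0 (γ * r) ^ 2) := by
  have c := ra_ch h0 h1 hk
  have s0 := c.spos
  have k0 := c.kpos
  have hs : -1 < sOf γ k - 1 := by linarith
  have hE := (ground_E h0 h1 hk).2
  have hB : EE γ (sOf γ k - 1) 0 * k - sOf γ k = 0 := by rw [hE]; field_simp; ring
  obtain ⟨A, hA⟩ : ∃ A : ℝ, A ^ 2 = γ / (2 * k) := ⟨√_, Real.sq_sqrt (by positivity)⟩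
  have ad := ra_adm (ff_adm (γ := γ) hs 0) h0
  have hl : Lad (sOf γ k) (γ * EE γ (sOf γ k - 1) 0 / sOf γ k)
      ((EE γ (sOf γ k - 1) 0 * k + sOf γ k) / sOf γ k)
      (-(EE γ (sOf γ k - 1) 0 * k - sOf γ k) / sOf γ k)
      (fun r => A * ff γ (sOf γ k - 1) 0 (γ * r)) (fun _ => 0) := by
    refine ⟨fun r hr => ?_, fun r _ => ?_, by simpa using ad.lin ad A 0,
      by simpa using ad.lin ad 0 0⟩
    · refine (((ff_deriv hs 0 (mul_pos h0 hr)).comp r
        ((hasDerivAt_id' r).const_mul γ)).const_mul A).congr_deriv ?_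
      rw [ground_deriv h0 h1 hk, hE]
      field_simp
      ring
    · rw [hB]
      simpa using hasDerivAt_const r (0 : ℝ)
  obtain ⟨G, F, h, hN⟩ := c.lad_minus hl (by
    simp only [mul_pow, integral_const_mul]
    rw [ra_int (fun r => ff γ (sOf γ k - 1) 0 r ^ 2) h0, ff_norm hs, hA]
    simp only [ne_eq, OfNat.ofNat_ne_zero, not_false_eq_true, zero_pow, integral_zero, mul_zero]
    field_simp
    ring)
  rw [h.weight_eq hr, weight_eq_zero, add_zero, hN, mul_pow, hA]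
  · congr 1
    field_simp
    ring
  · rintro ⟨G', F', h'⟩
    exact (c.plus_pos (EE_pos hs 0) h').ne' hB

theorem uv_int (h0 : 0 < γ) (h1 : γ < 1) (hk : 1 ≤ k) (m : ℕ) :
    √(1 + k ^ 2 * ep γ (sOf γ k) m)
        * ∫ r in Ioi (0 : ℝ), ff γ (sOf γ k - 1) (m + 1) r * ff γ (sOf γ k) m r
      = sOf γ k ^ 2 / (NN γ (sOf γ k) m * nu (sOf γ k) m) - EE γ (sOf γ k) m := by
  have s0 := sk_pos h0 h1 hk
  have hs : -1 < sOf γ k := by linarith
  have au := ff_adm (γ := γ) (show -1 < sOf γ k - 1 by linarith) (m + 1)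
  have av := ff_adm (γ := γ) hs m
  have i1 := (au.mul av).const_mul (√(1 + k ^ 2 * ep γ (sOf γ k) m))
  have i2 := av.sq.const_mul (EE γ (sOf γ k) m)
  have i3 := av.pot.const_mul (sOf γ k ^ 2)
  have i4 : IntegrableOn (fun r => √(1 + k ^ 2 * ep γ (sOf γ k) m)
      * (ff γ (sOf γ k - 1) (m + 1) r * ff γ (sOf γ k) m r)
      + EE γ (sOf γ k) m * ff γ (sOf γ k) m r ^ 2) (Ioi 0) := i1.add i2
  have z := integral_deriv_eq_zero (f := fun r => sOf γ k / 2 * ff γ (sOf γ k) m r ^ 2)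
    (f' := fun r => √(1 + k ^ 2 * ep γ (sOf γ k) m)
      * (ff γ (sOf γ k - 1) (m + 1) r * ff γ (sOf γ k) m r)
      + EE γ (sOf γ k) m * ff γ (sOf γ k) m r ^ 2 - sOf γ k ^ 2 * (ff γ (sOf γ k) m r ^ 2 / r))
    (fun r hr => (((ff_deriv hs m hr).fun_pow 2).const_mul _).congr_deriv (by
      push_cast
      linear_combination (-ff γ (sOf γ k) m r) * ladder_u h0 h1 hk m hr))
    (Integrable.sub' i4 i3) (av.sq.const_mul _)
    (IntegrableOn.congr_fun (av.pot.const_mul (sOf γ k / 2)) (fun r _ => by ring)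
      measurableSet_Ioi)
  rw [integral_sub i4 i3, integral_add i1 i2, integral_const_mul, integral_const_mul,
    integral_const_mul, ff_norm hs, ff_pot hs] at z
  linear_combination z

theorem ra_a (h0 : 0 < γ) (h1 : γ < 1) (hk : 1 ≤ k) (m : ℕ) :
    0 < √(1 + k ^ 2 * ep γ (sOf γ k) m) ∧
    γ ^ 2 * √(1 + k ^ 2 * ep γ (sOf γ k) m) ^ 2
      = (EE γ (sOf γ k) m * k) ^ 2 - sOf γ k ^ 2 ∧
    √(1 + k ^ 2 * ep γ (sOf γ k) m) ≤ EE γ (sOf γ k) m := by
  have a : 0 < 1 + k ^ 2 * ep γ (sOf γ k) m := lt_of_lt_of_le (by positivity) (a2_pos h0 h1 hk m)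
  have hs : -1 < sOf γ k := by linarith [sk_pos h0 h1 hk]
  refine ⟨Real.sqrt_pos.2 a, ?_, Real.sqrt_le_iff.2 ⟨(EE_pos hs m).le, ?_⟩⟩
  · rw [Real.sq_sqrt a.le, mul_pow, EE_sq hs, sk_sq h0 h1 hk]
    ring
  · rw [EE_sq hs]
    nlinarith [sk_aux h0 h1 hk, ep_neg (γ := γ) hs m]

theorem ra_lad (h0 : 0 < γ) (h1 : γ < 1) (hk : 1 ≤ k) (m : ℕ) :
    Lad (sOf γ k) (γ * EE γ (sOf γ k) m / sOf γ k)
      (-(γ * √(1 + k ^ 2 * ep γ (sOf γ k) m)) / sOf γ k)
      (γ * √(1 + k ^ 2 * ep γ (sOf γ k) m) / sOf γ k)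
      (fun r => ff γ (sOf γ k - 1) (m + 1) (γ * r)) (fun r => ff γ (sOf γ k) m (γ * r)) := by
  have s0 := sk_pos h0 h1 hk
  have hs : -1 < sOf γ k := by linarith
  have hs' : -1 < sOf γ k - 1 := by linarith
  refine ⟨fun r hr => ?_, fun r hr => ?_, ra_adm (ff_adm hs' _) h0, ra_adm (ff_adm hs _) h0⟩
  · refine ((ff_deriv hs' (m + 1) (mul_pos h0 hr)).comp r
      ((hasDerivAt_id' r).const_mul γ)).congr_deriv ?_
    have e := ladder_v h0 h1 hk m (mul_pos h0 hr)
    field_simp at e ⊢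
    linear_combination e
  · refine ((ff_deriv hs m (mul_pos h0 hr)).comp r
      ((hasDerivAt_id' r).const_mul γ)).congr_deriv ?_
    have e := ladder_u h0 h1 hk m (mul_pos h0 hr)
    field_simp at e ⊢
    linear_combination -e

theorem weight_pair (h0 : 0 < γ) (h1 : γ < 1) (hk : 1 ≤ k) (m : ℕ) {r : ℝ} (hr : 0 < r) :
    radialWeight γ (-k) (EE γ (sOf γ k - 1) (m + 1)) r
        + radialWeight γ k (EE γ (sOf γ k - 1) (m + 1)) r
      = ENNReal.ofReal (γ * DP γ k m (γ * r)) := by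
  have c := ra_ch h0 h1 hk
  have s0 := c.spos
  have k0 := c.kpos
  have hs : -1 < sOf γ k := by linarith
  have hs' : -1 < sOf γ k - 1 := by linarith
  obtain ⟨a0, a2, -⟩ := ra_a h0 h1 hk m
  have hl := ra_lad h0 h1 hk m
  have hI := uv_int h0 h1 hk m
  have E0 := EE_pos (γ := γ) hs m
  have E2 := EE_sq (γ := γ) hs m
  have s2 := sk_sq h0 h1 hk
  have hN : EE γ (sOf γ k) m * (sOf γ k ^ 2 / (NN γ (sOf γ k) m * nu (sOf γ k) m))
      = -(sOf γ k ^ 2 * ep γ (sOf γ k) m) := by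
    have := (NN_pos (γ := γ) hs m).ne'
    have := (nu_pos hs m).ne'
    rw [EE, ep]
    field_simp
  have n1 : ∫ r in Ioi (0 : ℝ), ff γ (sOf γ k - 1) (m + 1) (γ * r) ^ 2 = γ⁻¹ := by
    rw [ra_int (fun r => ff γ (sOf γ k - 1) (m + 1) r ^ 2) h0, ff_norm hs', mul_one]
  have n2 : ∫ r in Ioi (0 : ℝ), ff γ (sOf γ k) m (γ * r) ^ 2 = γ⁻¹ := by
    rw [ra_int (fun r => ff γ (sOf γ k) m r ^ 2) h0, ff_norm hs, mul_one]
  have n3 := ra_int (fun r => ff γ (sOf γ k - 1) (m + 1) r * ff γ (sOf γ k) m r) h0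
  rw [ra_shift, DP]
  generalize sOf γ k ^ 2 / (NN γ (sOf γ k) m * nu (sOf γ k) m) = w at hI hN
  generalize (∫ r in Ioi (0 : ℝ), ff γ (sOf γ k - 1) (m + 1) r * ff γ (sOf γ k) m r) = J at hI n3
  generalize √(1 + k ^ 2 * ep γ (sOf γ k) m) = a at *
  generalize EE γ (sOf γ k) m = E at *
  generalize ep γ (sOf γ k) m = e at *
  generalize ff γ (sOf γ k - 1) (m + 1) = u at *
  generalize ff γ (sOf γ k) m = v at *
  generalize sOf γ k = s at *
  have hp : 0 < E * k + s := by positivity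
  obtain ⟨A, hA⟩ : ∃ A : ℝ, A ^ 2 = γ * E * (E * k + s) / (4 * s ^ 2) :=
    ⟨√_, Real.sq_sqrt (by positivity)⟩
  obtain ⟨B, hB⟩ : ∃ B : ℝ, B * (E * k + s) = γ * a * A := ⟨_, div_mul_cancel₀ _ hp.ne'⟩
  have hAB : A * B = γ ^ 2 * E * a / (4 * s ^ 2) := by
    apply mul_right_cancel₀ hp.ne'
    rw [mul_assoc, hB]
    linear_combination γ * a * hA
  have hA' : A * (E * k - s) = γ * a * B := by
    apply mul_right_cancel₀ hp.ne'
    linear_combination (-A) * a2 - γ * a * hB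
  have hB2 : B ^ 2 = γ * E * (E * k - s) / (4 * s ^ 2) := by
    apply mul_right_cancel₀ hp.ne'
    linear_combination B * hB + γ * a * hAB + γ * E / (4 * s ^ 2) * a2
  have key : 2 * k * (A ^ 2 * γ⁻¹) + 2 * k * (B ^ 2 * γ⁻¹) + 4 * γ * (A * B * (γ⁻¹ * J)) = 1 := by
    rw [hA, hB2, hAB]
    field_simp
    linear_combination 4 * γ ^ 2 * E * hI + 4 * γ ^ 2 * hN + 4 * s ^ 2 * E2 - 4 * E ^ 2 * s2
  obtain ⟨G, F, h, hw⟩ := c.lad_minus (hl.scale (μ := A) (ν := -B) (b' := (E * k + s) / s)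
    (c' := -(E * k - s) / s) (by linear_combination (-1 / s) * hB)
    (by linear_combination (-1 / s) * hA')) (by
      simp only [mul_pow, neg_sq, integral_const_mul,
        show ∀ r, A * u (γ * r) * (-B * v (γ * r)) = -(A * B) * (u (γ * r) * v (γ * r)) from
          fun r => by ring]
      rw [n1, n2, n3]
      linear_combination key)
  obtain ⟨G', F', h', hw'⟩ := c.lad_plus (hl.scale (μ := B) (ν := A) (b' := -(E * k - s) / s)
    (c' := (E * k + s) / s) (by linear_combination (-1 / s) * hA')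
    (by linear_combination (1 / s) * hB)) (by
      simp only [mul_pow, integral_const_mul,
        show ∀ r, B * u (γ * r) * (A * v (γ * r)) = A * B * (u (γ * r) * v (γ * r)) from
          fun r => by ring]
      rw [n1, n2, n3]
      linear_combination key)
  rw [h.weight_eq hr, h'.weight_eq hr, ← ENNReal.ofReal_add (by positivity) (by positivity),
    hw, hw']
  congr 1
  linear_combination 2 * k * (u (γ * r) ^ 2 + v (γ * r) ^ 2) * (hA + hB2)
    + 8 * γ * (u (γ * r) * v (γ * r)) * hAB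

theorem le_DP (h0 : 0 < γ) (h1 : γ < 1) (hk : 1 ≤ k) (m : ℕ) (R : ℝ) :
    EE γ (sOf γ k) m ^ 2 * (ff γ (sOf γ k - 1) (m + 1) R ^ 2 + ff γ (sOf γ k) m R ^ 2)
      ≤ DP γ k m R := by
  have s0 := sk_pos h0 h1 hk
  obtain ⟨a0, -, a1⟩ := ra_a h0 h1 hk m
  have E0 := EE_pos (γ := γ) (show -1 < sOf γ k by linarith) m
  have g : (k : ℝ) ^ 2 = sOf γ k ^ 2 + γ ^ 2 := by linarith [sk_sq h0 h1 hk]
  rw [DP, div_mul_eq_mul_div, le_div_iff₀ (by positivity)]
  generalize √(1 + k ^ 2 * ep γ (sOf γ k) m) = a at *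
  rw [g]
  generalize EE γ (sOf γ k) m = E at *
  generalize ff γ (sOf γ k - 1) (m + 1) R = u
  generalize ff γ (sOf γ k) m R = v
  have b : 0 ≤ E * (u ^ 2 + v ^ 2) + 2 * a * (u * v) := by
    nlinarith [mul_nonneg a0.le (sq_nonneg (u + v)),
      mul_nonneg (sub_nonneg.2 a1) (add_nonneg (sq_nonneg u) (sq_nonneg v))]
  nlinarith [mul_nonneg (mul_pos E0 (pow_pos h0 2)).le b]

theorem u_crude (h0 : 0 < γ) (h1 : γ < 1) (hk : 1 ≤ k) {a b : ℝ} (ha : 0 < a) :
    ∃ C : ℝ, ∀ m : ℕ, ∀ r ∈ Icc a b,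
      ff γ (sOf γ k - 1) (m + 1) r ^ 2 + ff γ (sOf γ k) m r ^ 2 ≤ C / ((m : ℝ) + 1) ^ 3 := by
  have s0 := sk_pos h0 h1 hk
  have hs : -1 < sOf γ k := by linarith
  obtain ⟨C, hC⟩ := ff_crude (γ := γ) s0.le (b := b) ha
  refine ⟨((k + 1) * (sOf γ k ^ 2 + (1 + sOf γ k ^ 2 / a) ^ 2) + 1) * C, fun m r hr => ?_⟩
  have r0 : 0 < r := ha.trans_le hr.1
  have a2 := a2_pos h0 h1 hk m
  have a0 : 0 < 1 + k ^ 2 * ep γ (sOf γ k) m := lt_of_lt_of_le (by positivity) a2
  have e := congrArg (· ^ 2) (ladder_u h0 h1 hk m r0)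
  simp only [mul_pow, Real.sq_sqrt a0.le] at e
  have b1 : (EE γ (sOf γ k) m - sOf γ k ^ 2 / r) ^ 2 ≤ (1 + sOf γ k ^ 2 / a) ^ 2 := by
    have p1 : sOf γ k ^ 2 / r ≤ sOf γ k ^ 2 / a :=
      div_le_div_of_nonneg_left (sq_nonneg _) ha hr.1
    have p2 : 0 ≤ sOf γ k ^ 2 / r := by positivity
    exact sq_le_sq' (by linarith [EE_pos (γ := γ) hs m]) (by linarith [EE_le_one (γ := γ) hs m])
  rw [mul_div_assoc]
  refine le_trans ?_ (mul_le_mul_of_nonneg_left (hC m r hr) (by positivity))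
  rw [div_le_iff₀ (by positivity)] at a2
  generalize 1 + k ^ 2 * ep γ (sOf γ k) m = A at *
  generalize EE γ (sOf γ k) m - sOf γ k ^ 2 / r = t at *
  generalize (1 + sOf γ k ^ 2 / a) ^ 2 = T at *
  generalize ff γ (sOf γ k - 1) (m + 1) r = u at *
  generalize ff γ (sOf γ k) m r = v at *
  generalize fd γ (sOf γ k) m r = d at *
  generalize sOf γ k = s at *
  have b2 : A * u ^ 2 ≤ (s ^ 2 + T) * (v ^ 2 + d ^ 2) := by
    rw [e]
    nlinarith [sq_nonneg (s * v + t * d),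
      mul_le_mul_of_nonneg_right b1 (add_nonneg (sq_nonneg v) (sq_nonneg d))]
  have b3 := mul_le_mul_of_nonneg_left b2 (show (0 : ℝ) ≤ k + 1 by positivity)
  have b4 := mul_le_mul_of_nonneg_right a2 (sq_nonneg u)
  nlinarith [sq_nonneg d]

theorem ra_DP_nonneg (h0 : 0 < γ) (h1 : γ < 1) (hk : 1 ≤ k) (m : ℕ) (R : ℝ) : 0 ≤ DP γ k m R :=
  le_trans (by positivity) (le_DP h0 h1 hk m R)

theorem ra_DP_le (h0 : 0 < γ) (h1 : γ < 1) (hk : 1 ≤ k) (m : ℕ) (R : ℝ) :
    DP γ k m R ≤ (k ^ 2 + γ ^ 2) / sOf γ k ^ 2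
      * (ff γ (sOf γ k - 1) (m + 1) R ^ 2 + ff γ (sOf γ k) m R ^ 2) := by
  have s0 := sk_pos h0 h1 hk
  obtain ⟨a0, -, a1⟩ := ra_a h0 h1 hk m
  have E0 := EE_pos (γ := γ) (show -1 < sOf γ k by linarith) m
  have E1 := EE_le_one (γ := γ) (show -1 < sOf γ k by linarith) m
  rw [DP, div_mul_eq_mul_div, div_mul_eq_mul_div]
  refine div_le_div_of_nonneg_right ?_ (sq_nonneg _)
  generalize √(1 + k ^ 2 * ep γ (sOf γ k) m) = a at *
  generalize EE γ (sOf γ k) m = E at *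
  generalize ff γ (sOf γ k - 1) (m + 1) R = u
  generalize ff γ (sOf γ k) m R = v
  have p : 0 ≤ u ^ 2 + v ^ 2 := by positivity
  have b1 : E * E * (u ^ 2 + v ^ 2) ≤ u ^ 2 + v ^ 2 :=
    mul_le_of_le_one_left p (mul_le_one₀ E1 E0.le E1)
  have b2 : E * a * (2 * (u * v)) ≤ u ^ 2 + v ^ 2 :=
    (mul_le_mul_of_nonneg_left (by nlinarith [sq_nonneg (u - v)]) (mul_pos E0 a0).le).trans
      (mul_le_of_le_one_left p (mul_le_one₀ E1 a0.le (a1.trans E1)))
  nlinarith [mul_le_mul_of_nonneg_left b1 (sq_nonneg (k : ℝ)),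
    mul_le_mul_of_nonneg_left b2 (sq_nonneg γ)]

theorem summable_DP (h0 : 0 < γ) (h1 : γ < 1) (hk : 1 ≤ k) {R : ℝ} (hR : 0 < R) :
    Summable fun m => DP γ k m R := by
  obtain ⟨C, hC⟩ := u_crude h0 h1 hk (b := R) hR
  have a : Summable fun m : ℕ => 1 / ((m : ℝ) + 1) ^ 3 := by
    simpa using (summable_nat_add_iff 1).2 (Real.summable_one_div_nat_pow.2 (show 1 < 3 by norm_num))
  refine Summable.of_nonneg_of_le (fun m => ra_DP_nonneg h0 h1 hk m R) (fun m => ?_)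
    (a.mul_left ((k ^ 2 + γ ^ 2) / sOf γ k ^ 2 * C))
  refine (ra_DP_le h0 h1 hk m R).trans ((mul_le_mul_of_nonneg_left (hC m R ⟨le_rfl, le_rfl⟩)
    (by positivity)).trans (le_of_eq ?_))
  ring

theorem ra_channel (h0 : 0 < γ) (h1 : γ < 1) (hk : 1 ≤ k) {r : ℝ} (hr : 0 < r) :
    ∑' E : Ioo (0 : ℝ) 1, (radialWeight γ (-k) E r + radialWeight γ k E r)
      = ENNReal.ofReal (γ * chD γ k (γ * r)) := by
  have c := ra_ch h0 h1 hk
  have hs : -1 < sOf γ k - 1 := by linarith [c.spos]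
  have inj : Function.Injective fun n : ℕ =>
      (⟨EE γ (sOf γ k - 1) n, EE_pos hs n, EE_lt_one h0 hs n⟩ : Ioo (0 : ℝ) 1) :=
    fun m n e => EE_inj h0 hs (congrArg Subtype.val e)
  rw [← inj.tsum_eq (f := fun E : Ioo (0 : ℝ) 1 =>
    radialWeight γ (-k) E r + radialWeight γ k E r)]
  · rw [tsum_eq_zero_add' ENNReal.summable, weight_ground h0 h1 hk hr]
    simp only [weight_pair h0 h1 hk _ hr]
    have p := fun m => mul_nonneg h0.le (ra_DP_nonneg h0 h1 hk m (γ * r))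
    rw [← ENNReal.ofReal_tsum_of_nonneg p ((summable_DP h0 h1 hk (mul_pos h0 hr)).mul_left γ),
      ← ENNReal.ofReal_add (by positivity) (tsum_nonneg p), tsum_mul_left, chD, mul_add]
  · intro E hE
    by_contra hn
    have h : ¬ ∃ G F, IsRadialEigenfunction γ (-k) E G F := fun h => by
      obtain ⟨n, e⟩ := eig_class h0 h1 hk E.2.1 E.2.2 h
      exact hn ⟨n, Subtype.ext e.symm⟩
    refine hE ?_
    simp only
    rw [weight_eq_zero h, weight_eq_zero, add_zero]
    rintro ⟨G, F, h'⟩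
    exact h (c.minus_of_plus E.2.1 h')

theorem density_formula (h0 : 0 < γ) (h1 : γ < 1) {r : ℝ} (hr : 0 < r) :
    furryDensity γ r = ∑' n : ℕ, ENNReal.ofReal
      (γ ^ 3 / (2 * Real.pi) * (((n + 1 : ℕ) : ℝ) * chD γ (n + 1) (γ * r) / (γ * r) ^ 2)) := by
  rw [density_eq]
  refine tsum_congr fun n => ?_
  have e := ra_channel h0 h1 (Nat.le_add_left 1 n) hr
  push_cast at e ⊢
  rw [ENNReal.tsum_mul_left, e, ← ENNReal.ofReal_mul (by positivity)]
  congr 1
  have := Real.pi_pos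
  field_simp
  ring

end Pool.Agent.Lib.MP_2347b2_mp.F
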