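import Pool.Agent.Lib.MP_2347b2_mp.F.Defs

/-!
General lemmas on reflection coefficients and differential inequalities.
-/

namespace Pool.Agent.Lib.MP_2347b2_mp.F

open MeasureTheory Set Filter Topology Complex

theorem rho_fwd {f f' B B' : ℝ → ℝ} {a b : ℝ}
    (hf : ∀ r ∈ Icc a b, HasDerivAt f (f' r) r) (hB : ∀ r ∈ Icc a b, HasDerivAt B (B' r) r)
    (h0 : f a ≤ B a) (hc : ∀ r ∈ Icc a b, f r = B r → f' r < B' r) :
    ∀ r ∈ Icc a b, f r ≤ B r :=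
  image_le_of_deriv_right_lt_deriv_boundary'
    (fun r hr => (hf r hr).continuousAt.continuousWithinAt)
    (fun r hr => (hf r (Ico_subset_Icc_self hr)).hasDerivWithinAt) h0
    (fun r hr => (hB r hr).continuousAt.continuousWithinAt)
    (fun r hr => (hB r (Ico_subset_Icc_self hr)).hasDerivWithinAt)
    fun r hr => hc r (Ico_subset_Icc_self hr)

theorem rho_bwd {f f' B B' : ℝ → ℝ} {a b : ℝ}
    (hf : ∀ r ∈ Icc a b, HasDerivAt f (f' r) r) (hB : ∀ r ∈ Icc a b, HasDerivAt B (B' r) r)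
    (h0 : f b ≤ B b) (hc : ∀ r ∈ Icc a b, f r = B r → B' r < f' r) :
    ∀ r ∈ Icc a b, f r ≤ B r := by
  have m : ∀ r ∈ Icc (-b) (-a), -r ∈ Icc a b := fun r hr => ⟨by linarith [hr.2], by linarith [hr.1]⟩
  intro r hr
  have := rho_fwd (f := fun r => f (-r)) (B := fun r => B (-r)) (f' := fun r => f' (-r) * -1)
    (B' := fun r => B' (-r) * -1) (fun r hr => (hf _ (m r hr)).comp r (hasDerivAt_neg r))
    (fun r hr => (hB _ (m r hr)).comp r (hasDerivAt_neg r)) (by simpa using h0)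
    (fun r hr e => by linarith [hc _ (m r hr) e]) (-r) ⟨by linarith [hr.2], by linarith [hr.1]⟩
  simpa using this

theorem rho_mono {f f' : ℝ → ℝ} {a b : ℝ} (hf : ∀ r ∈ Icc a b, HasDerivAt f (f' r) r ∧ 0 ≤ f' r) :
    ∀ r ∈ Icc a b, f a ≤ f r :=
  image_le_of_deriv_right_le_deriv_boundary (f := fun _ => f a) (f' := fun _ => 0)
    continuousOn_const (fun r _ => (hasDerivAt_const r _).hasDerivWithinAt) le_rfl
    (fun r hr => (hf r hr).1.continuousAt.continuousWithinAt)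
    (fun r hr => (hf r (Ico_subset_Icc_self hr)).1.hasDerivWithinAt)
    fun r hr => (hf r (Ico_subset_Icc_self hr)).2

theorem rho_nsq {ρ : ℝ → ℂ} {ρ' : ℂ} {r : ℝ} (h : HasDerivAt ρ ρ' r) :
    HasDerivAt (fun r => ‖ρ r‖ ^ 2) (2 * ((starRingEnd ℂ) (ρ r) * ρ').re) r := by
  refine h.norm_sq.congr_deriv ?_
  rw [Complex.inner, mul_comm ρ']

theorem rho_re (ρ u : ℂ) : ((starRingEnd ℂ) ρ * (u * ρ)).re = u.re * ‖ρ‖ ^ 2 := by
  rw [mul_left_comm, ← Complex.normSq_eq_conj_mul_self, re_mul_ofReal, Complex.normSq_eq_norm_sq]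

theorem rho_abs (ρ κ : ℂ) :
    |((starRingEnd ℂ) ρ * (κ * (1 - ρ ^ 2))).re| ≤ ‖ρ‖ * (‖κ‖ * (1 + ‖ρ‖ ^ 2)) := by
  refine (abs_re_le_norm _).trans ?_
  rw [norm_mul, norm_mul, Complex.norm_conj]
  gcongr
  exact (norm_sub_le _ _).trans_eq (by rw [norm_one, norm_pow])

theorem rho_one_sub {w m p : ℂ} (hm : w + m ≠ 0) (hp : w + p ≠ 0) :
    1 - rf w m * rf w p = 2 * w * (m + p) / ((w + m) * (w + p)) := by
  rw [rf, rf]
  field_simp
  ring

theorem rho_nle {x y : ℂ} (h : x.re ^ 2 + x.im ^ 2 ≤ y.re ^ 2 + y.im ^ 2) : ‖x‖ ≤ ‖y‖ := by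
  refine le_of_sq_le_sq ?_ (norm_nonneg _)
  rw [Complex.sq_norm, Complex.sq_norm, normSq_apply, normSq_apply]
  linarith

theorem fence_fwd {ρ ρ' : ℝ → ℂ} {B B' : ℝ → ℝ} {a b : ℝ}
    (hρ : ∀ r ∈ Icc a b, HasDerivAt ρ (ρ' r) r) (hB : ∀ r ∈ Icc a b, HasDerivAt B (B' r) r)
    (hpos : ∀ r ∈ Icc a b, 0 < B r) (h0 : ‖ρ a‖ ≤ B a)
    (hc : ∀ r ∈ Icc a b, ‖ρ r‖ = B r → ((starRingEnd ℂ) (ρ r) * ρ' r).re < B r * B' r) :
    ∀ r ∈ Icc a b, ‖ρ r‖ ≤ B r := by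
  intro r hr
  refine le_of_sq_le_sq (rho_fwd (f := fun r => ‖ρ r‖ ^ 2) (B := fun r => B r ^ 2)
    (fun r hr => rho_nsq (hρ r hr)) (fun r hr => (hB r hr).fun_pow 2)
    (pow_le_pow_left₀ (norm_nonneg _) h0 2) (fun r hr e => ?_) r hr) (hpos r hr).le
  have := hc r hr ((sq_eq_sq₀ (norm_nonneg _) (hpos r hr).le).1 e)
  push_cast
  linarith

theorem fence_bwd {ρ ρ' : ℝ → ℂ} {B B' : ℝ → ℝ} {a b : ℝ}
    (hρ : ∀ r ∈ Icc a b, HasDerivAt ρ (ρ' r) r) (hB : ∀ r ∈ Icc a b, HasDerivAt B (B' r) r)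
    (hpos : ∀ r ∈ Icc a b, 0 < B r) (h0 : ‖ρ b‖ ≤ B b)
    (hc : ∀ r ∈ Icc a b, ‖ρ r‖ = B r → B r * B' r < ((starRingEnd ℂ) (ρ r) * ρ' r).re) :
    ∀ r ∈ Icc a b, ‖ρ r‖ ≤ B r := by
  intro r hr
  refine le_of_sq_le_sq (rho_bwd (f := fun r => ‖ρ r‖ ^ 2) (B := fun r => B r ^ 2)
    (fun r hr => rho_nsq (hρ r hr)) (fun r hr => (hB r hr).fun_pow 2)
    (pow_le_pow_left₀ (norm_nonneg _) h0 2) (fun r hr e => ?_) r hr) (hpos r hr).le
  have := hc r hr ((sq_eq_sq₀ (norm_nonneg _) (hpos r hr).le).1 e)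
  push_cast
  linarith

/-- real fences -/
theorem fence_real_bwd {f f' B B' : ℝ → ℝ} {a b : ℝ}
    (hf : ∀ r ∈ Icc a b, HasDerivAt f (f' r) r) (hB : ∀ r ∈ Icc a b, HasDerivAt B (B' r) r)
    (h0 : f b ≤ B b) (hc : ∀ r ∈ Icc a b, f r = B r → B' r < f' r) :
    ∀ r ∈ Icc a b, f r ≤ B r := by
  exact rho_bwd hf hB h0 hc

/-- linear decay estimate -/
theorem decay {ρ ρ' : ℝ → ℂ} {D k DI kI : ℝ → ℝ} {a b c κ e : ℝ} (hab : a ≤ b) (hc : 0 < c)
    (hκ : 0 ≤ κ) (he : 0 ≤ e) (hρ : ∀ r ∈ Icc a b, HasDerivAt ρ (ρ' r) r)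
    (hD : ∀ r ∈ Icc a b, HasDerivAt DI (D r) r ∧ 0 ≤ D r)
    (hk : ∀ r ∈ Icc a b, HasDerivAt kI (k r) r ∧ 0 ≤ k r)
    (h : ∀ r ∈ Icc a b, ((starRingEnd ℂ) (ρ r) * ρ' r).re
      ≤ ‖ρ r‖ * ((κ * k r - c * D r) * ‖ρ r‖ + k r + e * D r)) :
    ‖ρ b‖ ≤ Real.exp (κ * (kI b - kI a))
      * (‖ρ a‖ * Real.exp (-(c * (DI b - DI a))) + (kI b - kI a) + e / c) := by
  have K0 : ∀ r ∈ Icc a b, 0 ≤ kI r - kI a := fun r hr => sub_nonneg.2 (rho_mono hk r hr)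
  refine le_of_forall_pos_le_add fun δ hδ => ?_
  have hX := Real.exp_pos (κ * (kI b - kI a))
  have hL : 0 < 1 + (b - a) := by linarith
  obtain ⟨η, hη, eη⟩ : ∃ η : ℝ, 0 < η ∧ Real.exp (κ * (kI b - kI a)) * (η * (1 + (b - a))) = δ :=
    ⟨δ / (Real.exp (κ * (kI b - kI a)) * (1 + (b - a))), by positivity, by field_simp⟩
  have P : ∀ r ∈ Icc a b, 0 < Real.exp (κ * (kI r - kI a)) * (‖ρ a‖ *
      Real.exp (-(c * (DI r - DI a))) + (kI r - kI a) + e / c + η * (1 + (r - a))) := fun r hr => by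
    have := K0 r hr
    have := sub_nonneg.2 hr.1
    positivity
  have := fence_fwd (B := fun r => Real.exp (κ * (kI r - kI a)) * (‖ρ a‖ *
      Real.exp (-(c * (DI r - DI a))) + (kI r - kI a) + e / c + η * (1 + (r - a)))) hρ
    (fun r hr => (((hk r hr).1.sub_const _).const_mul κ).exp.fun_mul
      (((((((hD r hr).1.sub_const _).const_mul c).fun_neg.exp.const_mul ‖ρ a‖).fun_add
        ((hk r hr).1.sub_const _)).add_const _).fun_add
        ((((hasDerivAt_id' r).sub_const a).const_add 1).const_mul η))) P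
    (by
      have : 0 ≤ e / c := by positivity
      simp only [sub_self, mul_zero, neg_zero, Real.exp_zero, mul_one, one_mul, add_zero]
      linarith) (fun r hr hc' => ?_) b ⟨hab, le_rfl⟩
  · rw [mul_add, eη] at this
    exact this
  · refine (h r hr).trans_lt ?_
    rw [hc']
    refine mul_lt_mul_of_pos_left ?_ (P r hr)
    have k1 := K0 r hr
    have k2 := sub_nonneg.2 hr.1
    have k3 := (hD r hr).2
    have k4 := (hk r hr).2
    have k5 : 1 ≤ Real.exp (κ * (kI r - kI a)) := Real.one_le_exp (by positivity)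
    have k6 : c * (e / c) = e := mul_div_cancel₀ _ hc.ne'
    generalize Real.exp (κ * (kI r - kI a)) = X at k5 ⊢
    have k7 : 0 ≤ c * D r * X * (kI r - kI a + η * (1 + (r - a))) := by positivity
    have k8 : 0 ≤ (X - 1) * (k r + e * D r) := mul_nonneg (by linarith) (by positivity)
    have k9 : 0 < X * η := by positivity
    linear_combination k7 + k8 + k9 - D r * X * k6

/-- growth estimate -/
theorem grow {α α' : ℝ → ℂ} {G G' : ℝ → ℝ} {a b : ℝ} (hab : a ≤ b)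
    (hα : ∀ r ∈ Icc a b, HasDerivAt α (α' r) r) (hG : ∀ r ∈ Icc a b, HasDerivAt G (G' r) r)
    (h : ∀ r ∈ Icc a b, G' r * ‖α r‖ ^ 2 ≤ ((starRingEnd ℂ) (α r) * α' r).re) :
    ‖α a‖ ^ 2 * Real.exp (2 * (G b - G a)) ≤ ‖α b‖ ^ 2 := by
  have := rho_mono (f := fun r => ‖α r‖ ^ 2 * Real.exp (-(2 * G r))) (fun r hr =>
    ⟨(rho_nsq (hα r hr)).fun_mul ((hG r hr).const_mul 2).fun_neg.exp, by
      nlinarith [mul_nonneg (sub_nonneg.2 (h r hr)) (Real.exp_pos (-(2 * G r))).le]⟩) b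
    ⟨hab, le_rfl⟩
  have e := mul_le_mul_of_nonneg_right this (Real.exp_pos (2 * G b)).le
  rwa [mul_assoc, mul_assoc, ← Real.exp_add, ← Real.exp_add, neg_add_cancel, Real.exp_zero, mul_one,
    show -(2 * G a) + 2 * G b = 2 * (G b - G a) by ring] at e

theorem rf_deriv {w n : ℝ → ℂ} {w' h : ℂ} {r : ℝ} (hw : HasDerivAt w w' r)
    (hn : HasDerivAt n (h * (w r ^ 2 - n r ^ 2)) r) (h0 : w r ≠ 0) (h1 : w r + n r ≠ 0) :
    HasDerivAt (fun r => rf (w r) (n r))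
      (-2 * h * w r * rf (w r) (n r) + w' / (2 * w r) * (1 - rf (w r) (n r) ^ 2)) r := by
  refine ((hw.fun_sub hn).fun_div (hw.fun_add hn) h1).congr_deriv ?_
  rw [rf]
  field_simp
  ring

/-- the quadratic form of the right side of the equation of `rf` -/
theorem rf_re_le (ρ u κ : ℂ) : ((starRingEnd ℂ) ρ * (-2 * u * ρ + κ * (1 - ρ ^ 2))).re
    ≤ ‖ρ‖ * (-2 * u.re * ‖ρ‖ + ‖κ‖ * (1 + ‖ρ‖ ^ 2)) := by
  rw [mul_add, add_re, rho_re]
  have := (abs_le.1 (rho_abs ρ κ)).2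
  have e : (-2 * u).re = -2 * u.re := by simp
  rw [e]
  linarith

theorem rf_re_ge (ρ u κ : ℂ) : ‖ρ‖ * (2 * u.re * ‖ρ‖ - ‖κ‖ * (1 + ‖ρ‖ ^ 2))
    ≤ ((starRingEnd ℂ) ρ * (2 * u * ρ + κ * (1 - ρ ^ 2))).re := by
  rw [mul_add ((starRingEnd ℂ) ρ), add_re, rho_re]
  have := (abs_le.1 (rho_abs ρ κ)).1
  have e : (2 * u).re = 2 * u.re := by simp
  rw [e]
  linarith

theorem rf_le_im {w n : ℂ} (hw : w.im < 0) (hn : n.im ≤ 0) (ha : 0 ≤ w.re) :
    ‖rf w n‖ ≤ 1 + 2 * w.re / (-w.im) := by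
  have h1 : -w.im ≤ ‖w + n‖ := by
    have := (abs_le.1 (abs_im_le_norm (w + n))).1
    rw [add_im] at this
    linarith
  have h2 : 0 < ‖w + n‖ := by linarith
  have h3 : ‖(starRingEnd ℂ) w + n‖ ≤ ‖w + n‖ := rho_nle (by
    simp only [add_re, add_im, conj_re, conj_im]
    nlinarith [mul_nonneg_of_nonpos_of_nonpos hw.le hn])
  have h4 : ‖w - n‖ ≤ 2 * w.re + ‖w + n‖ := by
    rw [show w - n = (2 * w.re : ℝ) - ((starRingEnd ℂ) w + n) by rw [← add_conj]; ring]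
    refine (norm_sub_le _ _).trans (add_le_add ?_ h3)
    rw [norm_real, Real.norm_of_nonneg (by positivity)]
  have h5 : 2 * w.re / ‖w + n‖ ≤ 2 * w.re / (-w.im) :=
    div_le_div_of_nonneg_left (by positivity) (by linarith) h1
  rw [rf, norm_div]
  refine (div_le_div_of_nonneg_right h4 h2.le).trans ?_
  rw [add_div, div_self h2.ne']
  linarith

theorem rf_le_re {w n : ℂ} {a c : ℝ} (hc : 0 ≤ c) (hca : c < a) (hw : a ≤ w.re) (hwi : w.im ≤ 0)
    (hni : n.im ≤ 0) (hn : -c ≤ n.re) : ‖rf w n‖ ≤ (a + c) / (a - c) := by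
  have h1 : 0 < ‖w + n‖ := by
    have := re_le_norm (w + n)
    rw [add_re] at this
    linarith
  have h2 : ‖((a - c : ℝ) : ℂ) * (w - n)‖ ≤ ‖((a + c : ℝ) : ℂ) * (w + n)‖ := rho_nle (by
    simp only [re_ofReal_mul, im_ofReal_mul, add_re, add_im, sub_re, sub_im]
    have p1 : 0 ≤ a * n.re + c * w.re := by nlinarith
    have p2 : 0 ≤ a * w.re + c * n.re := by nlinarith
    have p3 : 0 ≤ w.im * n.im := mul_nonneg_of_nonpos_of_nonpos hwi hni
    have p4 : 0 ≤ a * c := mul_nonneg (by linarith) hc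
    nlinarith [mul_nonneg p1 p2, mul_nonneg p3 (sq_nonneg (a - c)),
      mul_nonneg p4 (sq_nonneg (w.im + n.im))])
  rw [norm_mul, norm_mul, norm_real, norm_real, Real.norm_of_nonneg (by linarith),
    Real.norm_of_nonneg (by linarith)] at h2
  rw [rf, norm_div, div_le_div_iff₀ h1 (by linarith)]
  linarith

theorem one_add_rf {w n : ℂ} (h : w + n ≠ 0) : (1 + rf w n) * (w + n) = 2 * w := by
  rw [rf]
  field_simp
  ring

theorem rf_sq {w n : ℂ} (h : w + n ≠ 0) :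
    2 * (‖w‖ ^ 2 + ‖n‖ ^ 2) = ‖w + n‖ ^ 2 * (1 + ‖rf w n‖ ^ 2) := by
  have h1 : ‖w + n‖ ≠ 0 := norm_ne_zero_iff.2 h
  rw [rf, norm_div, div_pow, mul_add (‖w + n‖ ^ 2), mul_one, mul_div_cancel₀ _ (pow_ne_zero 2 h1)]
  simp only [Complex.sq_norm, normSq_apply, add_re, add_im, sub_re, sub_im]
  ring

theorem rf_ne {w m p : ℂ} (hw : w ≠ 0) (hm : w + m ≠ 0) (hp : w + p ≠ 0) (h : m + p ≠ 0) :
    1 - rf w m * rf w p ≠ 0 := by
  rw [rho_one_sub hm hp]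
  exact div_ne_zero (mul_ne_zero (mul_ne_zero two_ne_zero hw) h) (mul_ne_zero hm hp)

theorem rf_g {w m p : ℂ} (hw : w ≠ 0) (hm : w + m ≠ 0) (hp : w + p ≠ 0) (h : m + p ≠ 0) :
    1 / (m + p) - 1 / (2 * w)
      = (rf w m + rf w p + 2 * (rf w m * rf w p)) / (2 * w * (1 - rf w m * rf w p)) := by
  rw [rho_one_sub hm hp, rf, rf]
  field_simp
  ring

theorem rf_diff {w m p : ℂ} (hw : w ≠ 0) (hm : w + m ≠ 0) (hp : w + p ≠ 0) (h : m + p ≠ 0) :
    (m - p) / (m + p) = (rf w p - rf w m) / (1 - rf w m * rf w p) := by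
  rw [rho_one_sub hm hp, rf, rf]
  field_simp
  ring

theorem rf_prod {w m p : ℂ} (hw : w ≠ 0) (hm : w + m ≠ 0) (hp : w + p ≠ 0) (h : m + p ≠ 0) :
    (m * p - w ^ 2) / (m + p) = -(w * (rf w m + rf w p)) / (1 - rf w m * rf w p) := by
  rw [rho_one_sub hm hp, rf, rf]
  field_simp
  ring

theorem rf_ratio {w m p : ℂ} (hw : w ≠ 0) (hm : w + m ≠ 0) (hp : w + p ≠ 0) (h : m + p ≠ 0) :
    (w + m) / (m + p) = (1 + rf w p) / (1 - rf w m * rf w p) := by
  rw [rho_one_sub hm hp, rf]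
  field_simp
  ring

/-- the inverse of a point deep in the lower half plane lies in a disc -/
theorem inv_disc {ζ : ℂ} {c : ℝ} (hc : 0 < c) (h : ζ.im ≤ -c) :
    ‖1 / ζ - (1 / (2 * c) : ℝ) * I‖ ≤ 1 / (2 * c) := by
  have h0 : ζ ≠ 0 := fun e => by
    rw [e, zero_im] at h
    linarith
  have h1 : (c : ℂ) ≠ 0 := ofReal_ne_zero.2 hc.ne'
  have h2 : ‖((2 * c : ℝ) : ℂ) - I * ζ‖ ≤ ‖ζ‖ := rho_nle (by
    simp only [sub_re, sub_im, ofReal_re, ofReal_im, I_mul_re, I_mul_im]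
    nlinarith)
  have e : 1 / ζ - (1 / (2 * c) : ℝ) * I = (1 / (2 * c) : ℝ) * ((((2 * c : ℝ) : ℂ) - I * ζ) / ζ) := by
    push_cast
    field_simp
  rw [e, norm_mul, norm_real, Real.norm_of_nonneg (by positivity), norm_div]
  exact mul_le_of_le_one_right (by positivity) ((div_le_one (norm_pos_iff.2 h0)).2 h2)

theorem sqrt_facts {z : ℂ} (hz : z.im < 0) :
    0 < (Complex.sqrt z).re ∧ (Complex.sqrt z).im < 0 ∧ Complex.sqrt z ^ 2 = z ∧
    2 * (Complex.sqrt z).re ^ 2 = ‖z‖ + z.re ∧ 2 * (Complex.sqrt z).im ^ 2 = ‖z‖ - z.re ∧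
    2 * (Complex.sqrt z).re * (Complex.sqrt z).im = z.im ∧ ‖Complex.sqrt z‖ ^ 2 = ‖z‖ := by
  have h := abs_lt.1 (abs_re_lt_norm.2 hz.ne)
  have e1 : (Complex.sqrt z).re = √((‖z‖ + z.re) / 2) := cpow_inv_two_re z
  have e2 : (Complex.sqrt z).im = -√((‖z‖ - z.re) / 2) := cpow_inv_two_im_eq_neg_sqrt hz
  have e3 : Complex.sqrt z ^ 2 = z := cpow_ofNat_inv_pow z 2
  have p1 : 0 < (‖z‖ + z.re) / 2 := by linarith [h.1]
  have p2 : 0 < (‖z‖ - z.re) / 2 := by linarith [h.2]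
  refine ⟨e1 ▸ Real.sqrt_pos.2 p1, e2 ▸ neg_lt_zero.2 (Real.sqrt_pos.2 p2), e3, ?_, ?_, ?_, ?_⟩
  · rw [e1, Real.sq_sqrt p1.le]
    ring
  · rw [e2, neg_sq, Real.sq_sqrt p2.le]
    ring
  · have := congrArg Complex.im e3
    rw [sq, mul_im] at this
    linarith
  · rw [← norm_pow, e3]

/-- integral of a truncated pole -/
theorem int_min {A C T : ℝ} (hA : 0 < A) (hC : 0 < C) (hT : 0 < T) :
    IntervalIntegrable (fun θ : ℝ => min A (C / θ)) volume 0 T ∧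
    ∫ θ in (0 : ℝ)..T, min A (C / θ) ≤ C * (1 + max 0 (Real.log (T * A / C))) := by
  have I : ∀ a b : ℝ, 0 ≤ a → a ≤ b →
      IntervalIntegrable (fun θ : ℝ => min A (C / θ)) volume a b := fun a b ha hab => by
    refine (intervalIntegrable_const (c := A)).mono_fun' (Measurable.aestronglyMeasurable
      (measurable_const.min (measurable_const.div measurable_id))) ?_
    rw [uIoc_of_le hab]
    filter_upwards [ae_restrict_mem measurableSet_Ioc] with x hx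
    have : 0 < x := ha.trans_lt hx.1
    rw [Real.norm_of_nonneg (le_min hA.le (by positivity))]
    exact min_le_left _ _
  have J : ∀ b : ℝ, 0 ≤ b → b ≤ C / A → ∫ θ in (0 : ℝ)..b, min A (C / θ) ≤ C := fun b hb hb' => by
    refine (intervalIntegral.integral_mono_on hb (I 0 b le_rfl hb) intervalIntegrable_const
      fun x _ => min_le_left _ _).trans ?_
    rw [intervalIntegral.integral_const, sub_zero, smul_eq_mul]
    exact (le_div_iff₀ hA).1 hb'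
  refine ⟨I 0 T le_rfl hT.le, ?_⟩
  have ht : 0 < C / A := div_pos hC hA
  rcases le_total T (C / A) with h | h
  · exact (J T hT.le h).trans (le_mul_of_one_le_right hC.le (le_add_of_nonneg_right (le_max_left _ _)))
  · have m : (0 : ℝ) ∉ uIcc (C / A) T := by
      rw [uIcc_of_le h]
      exact fun h => ht.not_ge h.1
    have K : ∫ θ in (C / A)..T, min A (C / θ) ≤ C * Real.log (T * A / C) := by
      refine (intervalIntegral.integral_mono_on h (I _ _ ht.le h)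
        ((intervalIntegral.intervalIntegrable_inv (fun x hx e => m (e ▸ hx))
          continuousOn_id).const_mul C) fun x _ => min_le_right _ _).trans ?_
      rw [intervalIntegral.integral_const_mul, integral_inv m, div_div_eq_mul_div]
    rw [← intervalIntegral.integral_add_adjacent_intervals (I 0 _ le_rfl ht.le) (I _ _ ht.le h),
      mul_add, mul_one]
    exact add_le_add (J _ ht.le le_rfl) (K.trans (mul_le_mul_of_nonneg_left (le_max_right _ _) hC.le))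

end Pool.Agent.Lib.MP_2347b2_mp.F
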