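import Pool.Agent.Lib.MP_2347b2_mp.F.T3SphB

namespace Pool.Agent.Lib.MP_2347b2_mp.Dirac

open MeasureTheory Complex Set Metric
open scoped Pointwise

theorem sc_iso (T : E3 ≃ₗᵢ[ℝ] E3) (h : E3 → ℂ) :
    ∫ ω : sphere (0 : E3) 1, h (T ω) ∂(volume : Measure E3).toSphere
      = ∫ ω : sphere (0 : E3) 1, h ω ∂(volume : Measure E3).toSphere := by
  let S : sphere (0 : E3) 1 ≃ₜ sphere (0 : E3) 1 :=
    T.toHomeomorph.subtype fun x => by simp
  have m : MeasurePreserving S (volume : Measure E3).toSphere (volume : Measure E3).toSphere := by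
    refine ⟨S.measurable, Measure.ext fun s hs => ?_⟩
    rw [Measure.map_apply S.measurable hs, Measure.toSphere_apply' _ (S.measurable hs),
      Measure.toSphere_apply' _ hs,
      ← T.measurePreserving.measure_preimage_emb T.toHomeomorph.measurableEmbedding
        (Ioo (0 : ℝ) 1 • (Subtype.val '' s))]
    refine congrArg (fun u => _ * volume u) (Set.ext fun x => ⟨?_, ?_⟩)
    · rintro ⟨r, hr, _, ⟨y, hy, rfl⟩, rfl⟩
      exact ⟨r, hr, _, ⟨S y, hy, rfl⟩, (T.map_smul r y).symm⟩
    · rintro ⟨r, hr, _, ⟨y, hy, rfl⟩, e⟩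
      refine ⟨r, hr, _, ⟨S.symm y, by simpa using hy, rfl⟩, T.injective (.trans ?_ e)⟩
      exact (T.map_smul r _).trans (congrArg (r • ·) (T.apply_symm_apply y))
  exact m.integral_comp S.measurableEmbedding fun ω => h ω

/-- the generator of a rotation -/
noncomputable def scA (i j : Fin 3) : E3 →L[ℝ] E3 :=
  (EuclideanSpace.proj i).smulRight (ee j) - (EuclideanSpace.proj j).smulRight (ee i)

theorem scA_apply (i j : Fin 3) (x : E3) : scA i j x = x i • ee j - x j • ee i := rfl

theorem sc_norm (i j : Fin 3) (t : ℝ) (x : E3) :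
    ‖x + Real.sin t • scA i j x + (1 - Real.cos t) • scA i j (scA i j x)‖ = ‖x‖ := by
  refine (sq_eq_sq₀ (norm_nonneg _) (norm_nonneg _)).1 ?_
  rw [EuclideanSpace.real_norm_sq_eq, EuclideanSpace.real_norm_sq_eq]
  have := Real.sin_sq_add_cos_sq t
  fin_cases i <;> fin_cases j <;> simp [scA_apply, ee, Fin.sum_univ_three]
  · linear_combination (x 0 ^ 2 + x 1 ^ 2) * this
  · linear_combination (x 0 ^ 2 + x 2 ^ 2) * this
  · linear_combination (x 0 ^ 2 + x 1 ^ 2) * this
  · linear_combination (x 1 ^ 2 + x 2 ^ 2) * this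
  · linear_combination (x 0 ^ 2 + x 2 ^ 2) * this
  · linear_combination (x 1 ^ 2 + x 2 ^ 2) * this

theorem sc_rot {h : E3 → ℂ} (hh : ContDiffOn ℝ 1 h {0}ᶜ) (i j : Fin 3) :
    ∫ ω : sphere (0 : E3) 1, fderiv ℝ h ω (scA i j ω) ∂(volume : Measure E3).toSphere = 0 := by
  have o : IsOpen ({0}ᶜ : Set E3) := isOpen_compl_singleton
  have c : ContinuousOn (fderiv ℝ h) {0}ᶜ := hh.continuousOn_fderiv_of_isOpen o le_rfl
  let R : ℝ → E3 → E3 := fun t x =>
    x + Real.sin t • scA i j x + (1 - Real.cos t) • scA i j (scA i j x)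
  have n : ∀ t (ω : sphere (0 : E3) 1), R t ω ∈ ({0}ᶜ : Set E3) := fun t ω =>
    norm_ne_zero_iff.1 ((sc_norm i j t ω).trans_ne
      (norm_ne_zero_iff.2 (ne_zero_of_mem_unit_sphere ω)))
  have k : Continuous fun q : ℝ × sphere (0 : E3) 1 => fderiv ℝ h (R q.1 q.2)
      (Real.cos q.1 • scA i j q.2 + Real.sin q.1 • scA i j (scA i j q.2)) :=
    (c.comp_continuous (f := fun q : ℝ × sphere (0 : E3) 1 => R q.1 q.2)
      (by fun_prop) fun q => n _ _).clm_apply (by fun_prop)
  have k0 : ∀ t, Continuous fun ω : sphere (0 : E3) 1 => h (R t ω) := fun t =>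
    hh.continuousOn.comp_continuous (by fun_prop) (n t)
  obtain ⟨C, hC⟩ := ((isCompact_Icc (a := (-1 : ℝ)) (b := 1)).prod
    isCompact_univ).exists_bound_of_continuousOn k.continuousOn
  have d := (hasDerivAt_integral_of_dominated_loc_of_deriv_le (s := Icc (-1) 1)
    (μ := (volume : Measure E3).toSphere) (x₀ := (0 : ℝ))
    (F := fun (t : ℝ) (ω : sphere (0 : E3) 1) => h (R t ω))
    (F' := fun (t : ℝ) (ω : sphere (0 : E3) 1) => fderiv ℝ h (R t ω)
      (Real.cos t • scA i j ω + Real.sin t • scA i j (scA i j ω))) (bound := fun _ => C)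
    (Icc_mem_nhds (by norm_num) one_pos) (.of_forall fun t => (k0 t).aestronglyMeasurable)
    (sb_sint (k0 0)) (k.comp (Continuous.prodMk_right 0)).aestronglyMeasurable
    (.of_forall fun ω s hs => hC (s, ω) ⟨hs, trivial⟩) (integrable_const _)
    (.of_forall fun ω s _ => ((hh.differentiableOn one_ne_zero).differentiableAt
      (o.mem_nhds (n s ω))).hasFDerivAt.comp_hasDerivAt s
      (((((Real.hasDerivAt_sin s).smul_const _).const_add _).fun_add
        (((Real.hasDerivAt_cos s).const_sub 1).smul_const _)).congr_deriv (by rw [neg_neg])))).2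
  have e : (fun t => ∫ ω : sphere (0 : E3) 1, h (R t ω) ∂(volume : Measure E3).toSphere)
      = fun _ => ∫ ω : sphere (0 : E3) 1, h ω ∂(volume : Measure E3).toSphere := funext fun t =>
    sc_iso (LinearIsometry.toLinearIsometryEquiv
      ⟨(ContinuousLinearMap.id ℝ E3 + Real.sin t • scA i j
        + (1 - Real.cos t) • (scA i j).comp (scA i j)).toLinearMap, sc_norm i j t⟩ rfl) h
  rw [e] at d
  simpa [R] using d.unique (hasDerivAt_const _ _)

end Pool.Agent.Lib.MP_2347b2_mp.Dirac
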