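import Pool.Agent.Lib.MP_2347b2_mp.F.T3Ops
import Pool.Agent.Lib.MP_2347b2_mp.F.T3SphC

namespace Pool.Agent.Lib.MP_2347b2_mp.Dirac

open MeasureTheory Complex Matrix Set

noncomputable section

/-- integral over the unit sphere -/
def sI (h : E3 → ℂ) : ℂ := ∫ ω : Metric.sphere (0 : E3) 1, h ω ∂(volume : Measure E3).toSphere

/-- scalar product on the unit sphere -/
def sip (f g : E3 → S2) : ℂ := sI fun x => dot2 (f x) (g x)

theorem sI_int {h : E3 → ℂ} (hh : ContinuousOn h {0}ᶜ) :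
    Integrable (fun ω : Metric.sphere (0 : E3) 1 => h ω) (volume : Measure E3).toSphere := by
  exact sb_sint (hh.comp_continuous continuous_subtype_val ne_zero_of_mem_unit_sphere)

theorem sI_congr {h k : E3 → ℂ} (e : ∀ x, ‖x‖ = 1 → h x = k x) : sI h = sI k := by
  exact integral_congr_ae (.of_forall fun ω => e _ (norm_eq_of_mem_sphere ω))

theorem sI_const (c : ℂ) : sI (fun _ => c) = 4 * Real.pi * c := by
  rw [sI, integral_const, Measure.toSphere_real_apply_univ, measureReal_def,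
    EuclideanSpace.volume_ball_fin_three, ENNReal.toReal_mul, ENNReal.toReal_pow,
    ENNReal.toReal_ofReal zero_le_one, ENNReal.toReal_ofReal (by positivity), real_smul,
    finrank_euclideanSpace_fin]
  push_cast
  ring

theorem sI_iso (T : E3 ≃ₗᵢ[ℝ] E3) (h : E3 → ℂ) : sI (fun x => h (T x)) = sI h := by
  exact sc_iso T h

theorem sI_eq_zero {h : E3 → ℝ} (hh : ContinuousOn h {0}ᶜ) (h0 : ∀ x, 0 ≤ h x)
    (e : sI (fun x => (h x : ℂ)) = 0) : ∀ x, ‖x‖ = 1 → h x = 0 := by
  have c : Continuous fun ω : Metric.sphere (0 : E3) 1 => h ω :=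
    hh.comp_continuous continuous_subtype_val ne_zero_of_mem_unit_sphere
  rw [sI, integral_complex_ofReal, ofReal_eq_zero,
    integral_eq_zero_iff_of_nonneg (fun ω => h0 _) (sb_sint c), c.ae_eq_iff_eq _ continuous_zero] at e
  exact fun x hx => congrFun e ⟨x, mem_sphere_zero_iff_norm.2 hx⟩

/-- rotation fields integrate to zero -/
theorem sI_rot {h : E3 → ℂ} (hh : ContDiffOn ℝ 1 h {0}ᶜ) (i j : Fin 3) :
    sI (fun x => fderiv ℝ h x (x i • ee j - x j • ee i)) = 0 := by
  exact sc_rot hh i j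

/-- the real bilinear map behind `dot2` -/
def s6L (M : Matrix (Fin 2) (Fin 2) ℂ) : S2 →L[ℝ] S2 →L[ℝ] ℂ :=
  LinearMap.toContinuousLinearMap (LinearMap.toContinuousLinearMap.toLinearMap ∘ₗ
    LinearMap.mk₂ ℝ (fun u v => dot2 u (M.mulVec v))
      (fun x y u => by simp only [dot2, Pi.add_apply, map_add, add_mul, Finset.sum_add_distrib])
      (fun r x u => by
        simp only [dot2, Pi.smul_apply, real_smul, map_mul, conj_ofReal, mul_assoc, Finset.mul_sum])
      (fun x u v => by simp only [dot2, mulVec_add, Pi.add_apply, mul_add, Finset.sum_add_distrib])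
      fun r x u => by
        simp only [dot2, mulVec_smul, Pi.smul_apply, real_smul, Finset.mul_sum, mul_left_comm])

theorem s6_dot {f g : E3 → S2} (hf : ContinuousOn f {0}ᶜ) (hg : ContinuousOn g {0}ᶜ) :
    ContinuousOn (fun x => dot2 (f x) (g x)) {0}ᶜ :=
  continuousOn_finsetSum _ fun a _ => (continuous_conj.comp_continuousOn
    ((continuous_apply a).comp_continuousOn hf)).mul ((continuous_apply a).comp_continuousOn hg)

theorem s6_rot {h : E3 → ℂ} (hh : ContDiffOn ℝ 1 h {0}ᶜ) (i j : Fin 3) :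
    ContinuousOn (fun x => fderiv ℝ h x (x i • ee j - x j • ee i)) {0}ᶜ :=
  (hh.continuousOn_fderiv_of_isOpen isOpen_compl_singleton le_rfl).clm_apply (by fun_prop)

theorem s6_Gam {g : E3 → S2} (hg : ContDiffOn ℝ 1 g {0}ᶜ) : ContinuousOn (Gam g) {0}ᶜ := by
  have h := hg.continuousOn_fderiv_of_isOpen isOpen_compl_singleton le_rfl
  refine (h.clm_apply continuousOn_id).sub (XL.continuous.continuousOn.clm_apply
    (continuousOn_finsetSum _ fun j _ => ?_))
  exact (XL (ee j)).continuous.comp_continuousOn (h.clm_apply continuousOn_const) |>.congr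
    fun x _ => by rw [← XX_ee]; rfl

theorem s6_add {h k : E3 → ℂ} (hh : ContinuousOn h {0}ᶜ) (hk : ContinuousOn k {0}ᶜ) :
    sI (fun x => h x + k x) = sI h + sI k :=
  integral_add (sI_int hh) (sI_int hk)

theorem s6_ne {x : E3} (hx : ‖x‖ = 1) : x ≠ 0 := norm_ne_zero_iff.1 (hx ▸ one_ne_zero)

theorem s6_re {f : E3 → S2} : (sip f f).re
    = ∫ ω : Metric.sphere (0 : E3) 1, nsq2 (f ω) ∂(volume : Measure E3).toSphere := by
  simp only [sip, sI, dot2_self]
  rw [integral_complex_ofReal, ofReal_re]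

theorem sip_Gam {f g : E3 → S2} (hf : ContDiffOn ℝ 1 f {0}ᶜ) (hg : ContDiffOn ℝ 1 g {0}ᶜ) :
    sip (Gam f) g = sip f (Gam g) := by
  have sm : ∀ M, ContDiffOn ℝ 1 (fun x => s6L M (f x) (g x)) {0}ᶜ := fun M =>
    ((s6L M).contDiff.comp_contDiffOn hf).clm_apply hg
  have c0 := s6_dot hf.continuousOn (s6_Gam hg)
  have c1 := s6_rot (sm (sg 0 * sg 1)) 0 1
  have c2 := s6_rot (sm (sg 0 * sg 2)) 0 2
  have c3 := s6_rot (sm (sg 1 * sg 2)) 1 2
  have e := (s6_add ((c0.add c1).add c2) c3).trans (congrArg (· + _)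
    ((s6_add (c0.add c1) c2).trans (congrArg (· + _) (s6_add c0 c1))))
  rw [sI_rot (sm _), sI_rot (sm _), sI_rot (sm _), add_zero, add_zero, add_zero] at e
  refine (sI_congr fun x hx => ?_).trans e
  have n := isOpen_compl_singleton.mem_nhds (s6_ne hx)
  have df := (hf.contDiffAt n).differentiableAt one_ne_zero
  have dg := (hg.contDiffAt n).differentiableAt one_ne_zero
  have d : ∀ M v, fderiv ℝ (fun x => s6L M (f x) (g x)) x v
      = dot2 (f x) (M.mulVec (fderiv ℝ g x v)) + dot2 (fderiv ℝ f x v) (M.mulVec (g x)) :=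
    fun M v => DFunLike.congr_fun
      (((s6L M).hasFDerivAt.comp x df.hasFDerivAt).clm_apply dg.hasFDerivAt).fderiv v
  simp only [Pi.add_apply, d, Gam_rot]
  generalize fderiv ℝ f x (x 0 • ee 1 - x 1 • ee 0) = u1, fderiv ℝ f x (x 0 • ee 2 - x 2 • ee 0) = u2,
    fderiv ℝ f x (x 1 • ee 2 - x 2 • ee 1) = u3, fderiv ℝ g x (x 0 • ee 1 - x 1 • ee 0) = v1,
    fderiv ℝ g x (x 0 • ee 2 - x 2 • ee 0) = v2, fderiv ℝ g x (x 1 • ee 2 - x 2 • ee 1) = v3
  simp [dot2, sg, mulVec, dotProduct, Fin.sum_univ_succ]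
  ring

theorem sip_conj (f g : E3 → S2) : (starRingEnd ℂ) (sip f g) = sip g f := by
  simp only [sip, sI, ← integral_conj, dot2_conj]

theorem sip_Xh (f g : E3 → S2) : sip (Xh f) g = sip f (Xh g) := by
  simp only [sip, Xh_dot]

theorem sip_Xh_Xh (f g : E3 → S2) : sip (Xh f) (Xh g) = sip f g := by
  exact sI_congr fun x hx => by rw [Xh_dot, Xh_Xh g (s6_ne hx)]

theorem sip_le {f g : E3 → S2} (hf : ContinuousOn f {0}ᶜ) (hg : ContinuousOn g {0}ᶜ) :
    ‖sip f g‖ ^ 2 ≤ (sip f f).re * (sip g g).re := by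
  have i1 := (sI_int (s6_dot hf hf)).re
  have i2 := (sI_int (s6_dot hg hg)).re
  have i3 := (sI_int (s6_dot hf hg)).norm
  simp only [dot2_self, RCLike.re_to_complex, ofReal_re] at i1 i2
  have h := discrim_le_zero (fun t : ℝ => show 0 ≤ (sip f f).re * (t * t)
      + 2 * (∫ ω : Metric.sphere (0 : E3) 1, ‖dot2 (f ω) (g ω)‖ ∂(volume : Measure E3).toSphere) * t
      + (sip g g).re by
    rw [s6_re, s6_re, ← integral_mul_const, ← integral_const_mul, ← integral_mul_const,
      ← integral_add (i1.mul_const _) ((i3.const_mul _).mul_const _),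
      ← integral_add (by exact (i1.mul_const _).add ((i3.const_mul _).mul_const _)) i2]
    refine integral_nonneg fun ω => ?_
    have a : 0 ≤ nsq2 (f ω) := Finset.sum_nonneg fun _ _ => sq_nonneg _
    have b : 0 ≤ nsq2 (g ω) := Finset.sum_nonneg fun _ _ => sq_nonneg _
    have c := mul_le_mul_of_nonneg_right (dot2_le (f ω) (g ω)) (mul_self_nonneg t)
    have := abs_le_of_sq_le_sq' (a := 2 * ‖dot2 (f ω) (g ω)‖ * t)
      (b := nsq2 (f ω) * (t * t) + nsq2 (g ω))
      (by nlinarith [sq_nonneg (nsq2 (f ω) * (t * t) - nsq2 (g ω))])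
      (add_nonneg (mul_nonneg a (mul_self_nonneg t)) b)
    simp only [Pi.zero_apply]
    linarith [this.1])
  have k := pow_le_pow_left₀ (norm_nonneg _) (norm_integral_le_integral_norm
    (μ := (volume : Measure E3).toSphere) fun ω => dot2 (f ω) (g ω)) 2
  rw [discrim] at h
  exact k.trans (by linarith)

/-- polar coordinates -/
theorem polar {h : E3 → ℂ} (hh : Integrable h) :
    IntegrableOn (fun r : ℝ => (r : ℂ) ^ 2 * sI fun x => h (r • x)) (Ioi 0) ∧
    ∫ x, h x = ∫ r in Ioi (0 : ℝ), (r : ℂ) ^ 2 * sI fun x => h (r • x) :=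
  sb_polar hh

theorem polar_int {h : E3 → ℝ} (hh : ContinuousOn h {0}ᶜ) (h0 : ∀ x, 0 ≤ h x)
    (hi : IntegrableOn (fun r : ℝ => r ^ 2 * (sI fun x => (h (r • x) : ℂ)).re) (Ioi 0)) :
    Integrable h :=
  sb_polar_int hh h0 hi

/-- the radial derivative of a spherical mean -/
theorem sI_deriv {h : E3 → ℂ} (hh : ContDiffOn ℝ 1 h {0}ᶜ) {r : ℝ} (hr : 0 < r) :
    HasDerivAt (fun r : ℝ => sI fun x => h (r • x)) (sI fun x => fderiv ℝ h (r • x) x) r :=
  sb_deriv hh hr

end

end Pool.Agent.Lib.MP_2347b2_mp.Dirac
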