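import Pool.Agent.Lib.MP_2347b2_mp.F.T3Dim
import Pool.Agent.Lib.MP_2347b2_mp.F.T3Sph

namespace Pool.Agent.Lib.MP_2347b2_mp.Dirac

open MeasureTheory Complex Matrix Set

theorem ag_onb {V : Type} [AddCommGroup V] [Module ℂ V] [FiniteDimensional ℂ V]
    (c : InnerProductSpace.Core ℂ V) {n : ℕ} (hn : Module.finrank ℂ V = n) :
    ∃ b : Fin n → V, (∀ i j, c.inner (b i) (b j) = if i = j then 1 else 0) ∧
      ∀ v, v = ∑ i, c.inner (b i) v • b i := by
  let _ : NormedAddCommGroup V := @InnerProductSpace.Core.toNormedAddCommGroup ℂ V _ _ _ c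
  let _ : InnerProductSpace ℂ V := InnerProductSpace.ofCore c.toCore
  subst hn
  refine ⟨stdOrthonormalBasis ℂ V, fun i j => ?_, fun v => ?_⟩
  · exact orthonormal_iff_ite.1 (stdOrthonormalBasis ℂ V).orthonormal i j
  · exact ((stdOrthonormalBasis ℂ V).sum_repr' v).symm

theorem ag_dot_add_left (u v w : S2) : dot2 (u + v) w = dot2 u w + dot2 v w := by
  simp [dot2, add_mul, Finset.sum_add_distrib]

theorem ag_dot_smul_left (c : ℂ) (u v : S2) :
    dot2 (c • u) v = (starRingEnd ℂ) c * dot2 u v := by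
  simp only [dot2, Finset.mul_sum, Pi.smul_apply, smul_eq_mul, map_mul, mul_assoc]

theorem ag_dot_cont {f g : E3 → S2} (hf : ContinuousOn f {0}ᶜ) (hg : ContinuousOn g {0}ᶜ) :
    ContinuousOn (fun x => dot2 (f x) (g x)) {0}ᶜ := by
  unfold dot2
  refine continuousOn_finsetSum _ fun a _ => ?_
  exact (Complex.continuous_conj.comp_continuousOn ((continuous_apply a).comp_continuousOn hf)).mul
    ((continuous_apply a).comp_continuousOn hg)

theorem ag_nsq_cont {f : E3 → S2} (hf : ContinuousOn f {0}ᶜ) :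
    ContinuousOn (fun x => nsq2 (f x)) {0}ᶜ := by
  unfold nsq2
  refine continuousOn_finsetSum _ fun a _ => ?_
  exact (((continuous_apply a).comp_continuousOn hf).norm).pow 2

theorem ag_nsq_nonneg (u : S2) : 0 ≤ nsq2 u := Finset.sum_nonneg fun _ _ => by positivity

theorem ag_nsq_zero {u : S2} (h : nsq2 u = 0) : u = 0 := by
  funext a
  have h1 := (Finset.sum_eq_zero_iff_of_nonneg (fun a _ => sq_nonneg ‖u a‖)).1 h a
    (Finset.mem_univ a)
  simpa using h1

theorem ag_add_left {f g w : E3 → S2} (hf : ContinuousOn f {0}ᶜ) (hg : ContinuousOn g {0}ᶜ)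
    (hw : ContinuousOn w {0}ᶜ) : sip (f + g) w = sip f w + sip g w := by
  simp only [sip, sI, Pi.add_apply, ag_dot_add_left]
  exact integral_add (sI_int (ag_dot_cont hf hw)) (sI_int (ag_dot_cont hg hw))

theorem ag_smul_left (c : ℂ) (f w : E3 → S2) :
    sip (c • f) w = (starRingEnd ℂ) c * sip f w := by
  simp only [sip, sI, Pi.smul_apply, ag_dot_smul_left]
  exact integral_const_mul _ _

theorem ag_self (f : E3 → S2) : sip f f = sI fun x => (nsq2 (f x) : ℂ) := by
  simp only [sip, dot2_self]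

theorem ag_self_real (f : E3 → S2) : sip f f =
    ((∫ ω : Metric.sphere (0 : E3) 1, nsq2 (f ω) ∂(volume : Measure E3).toSphere : ℝ) : ℂ) := by
  rw [ag_self, sI]
  exact integral_complex_ofReal

theorem ag_self_nonneg (f : E3 → S2) : 0 ≤ (sip f f).re := by
  rw [ag_self_real, Complex.ofReal_re]
  exact integral_nonneg fun _ => ag_nsq_nonneg _

theorem ag_self_zero {f : E3 → S2} (hf : ContinuousOn f {0}ᶜ) (h : sip f f = 0) :
    ∀ x, ‖x‖ = 1 → f x = 0 := fun x hx =>
  ag_nsq_zero (sI_eq_zero (h := fun x => nsq2 (f x)) (ag_nsq_cont hf) (fun _ => ag_nsq_nonneg _)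
    (by rw [← ag_self, h]) x hx)

theorem ag_hom_cont {n : ℕ} {f : E3 → S2} (h : f ∈ Hom n) : ContinuousOn f {0}ᶜ :=
  (Hom.smooth h).continuous.continuousOn

theorem ag_hom_zero {n : ℕ} {f : E3 → S2} (h : f ∈ Hom n) (e : ∀ x, ‖x‖ = 1 → f x = 0) :
    f = 0 := by
  have key : ∀ (r : ℝ) (y : E3), ‖y‖ = 1 → f (r • y) = 0 := fun r y hy => by
    rw [Hom.scale h, e y hy, smul_zero]
  funext x
  by_cases hx : x = 0
  · have := key 0 (ee 0) (by simp [ee])
    rw [zero_smul] at this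
    rw [hx, this]
    rfl
  · have h1 : ‖x‖ ≠ 0 := norm_ne_zero_iff.2 hx
    have := key ‖x‖ (‖x‖⁻¹ • x) (by rw [norm_smul, norm_inv, norm_norm, inv_mul_cancel₀ h1])
    rw [smul_smul, mul_inv_cancel₀ h1, one_smul] at this
    exact this

theorem ag_XX_unit {n : E3} (hn : ‖n‖ = 1) : XX n * XX n = 1 := by
  rw [XX_sq, hn]
  simp

theorem ag_refl {n : E3} (hn : ‖n‖ = 1) (x : E3) :
    (Submodule.span ℝ {n})ᗮ.reflection x = x - (2 * inner ℝ n x) • n := by
  rw [Submodule.reflection_orthogonal_apply, Submodule.reflection_singleton_apply, hn]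
  simp [two_smul, two_mul, add_smul]

end Pool.Agent.Lib.MP_2347b2_mp.Dirac
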