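import Pool.Agent.Lib.MP_2347b2_mp.F.T3Dim
import Pool.Agent.Lib.MP_2347b2_mp.F.T3Sph

namespace Pool.Agent.Lib.MP_2347b2_mp.Dirac

open MeasureTheory Complex Matrix Set

theorem ab_dot_cont {f g : E3 → S2} (hf : ContinuousOn f {0}ᶜ) (hg : ContinuousOn g {0}ᶜ) :
    ContinuousOn (fun x => dot2 (f x) (g x)) {0}ᶜ := by
  unfold dot2
  refine continuousOn_finsetSum _ fun a _ => ContinuousOn.mul ?_ ?_
  · exact Complex.continuous_conj.comp_continuousOn ((continuous_apply a).comp_continuousOn hf)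
  · exact (continuous_apply a).comp_continuousOn hg

theorem ab_sip_add {f g w : E3 → S2} (hf : ContinuousOn f {0}ᶜ) (hg : ContinuousOn g {0}ᶜ)
    (hw : ContinuousOn w {0}ᶜ) : sip (f + g) w = sip f w + sip g w := by
  unfold sip sI
  rw [← integral_add (sI_int (ab_dot_cont hf hw)) (sI_int (ab_dot_cont hg hw))]
  refine integral_congr_ae (Filter.Eventually.of_forall fun x => ?_)
  simp [dot2, add_mul, Finset.sum_add_distrib]

theorem ab_sip_smul (c : ℂ) (f w : E3 → S2) : sip (c • f) w = (starRingEnd ℂ) c * sip f w := by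
  unfold sip sI
  rw [← integral_const_mul]
  refine integral_congr_ae (Filter.Eventually.of_forall fun x => ?_)
  simp [dot2, mul_add, mul_assoc]

theorem ab_sip_smul' (c : ℂ) (f w : E3 → S2) : sip f (c • w) = c * sip f w := by
  unfold sip sI
  rw [← integral_const_mul]
  refine integral_congr_ae (Filter.Eventually.of_forall fun x => ?_)
  simp [dot2, mul_add, mul_left_comm]

theorem ab_sip_zero (w : E3 → S2) : sip 0 w = 0 := by
  simp [sip, sI, dot2]

theorem ab_sip_congr {f f' g g' : E3 → S2} (h1 : ∀ x, ‖x‖ = 1 → f x = f' x)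
    (h2 : ∀ x, ‖x‖ = 1 → g x = g' x) : sip f g = sip f' g' :=
  sI_congr fun x hx => by rw [h1 x hx, h2 x hx]

/-- the continuous maps orthogonal to `w` -/
def abPerp {w : E3 → S2} (hw : ContinuousOn w {0}ᶜ) : Submodule ℂ (E3 → S2) where
  carrier := {f | ContinuousOn f {0}ᶜ ∧ sip f w = 0}
  add_mem' := fun hf hg => ⟨hf.1.add hg.1, by rw [ab_sip_add hf.1 hg.1 hw, hf.2, hg.2, add_zero]⟩
  zero_mem' := ⟨continuousOn_const, ab_sip_zero w⟩
  smul_mem' := fun c _ hf => ⟨hf.1.const_smul c, by rw [ab_sip_smul, hf.2, mul_zero]⟩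

theorem ab_ne {x : E3} (hx : ‖x‖ = 1) : x ≠ 0 := by
  rintro rfl
  simp at hx

theorem ab_Xh_one (f : E3 → S2) {x : E3} (hx : ‖x‖ = 1) : Xh f x = (XX x).mulVec (f x) := by
  simp [Xh, hx]

theorem ab_pow {x : E3} (hx : ‖x‖ = 1) (j : ℕ) : XX x ^ j = if Even j then 1 else XX x := by
  have h2 : XX x * XX x = 1 := by rw [XX_sq, hx]; simp
  induction j with
  | zero => simp
  | succ j ih =>
    rw [pow_succ, ih]
    by_cases h : Even j
    · rw [if_pos h, if_neg (by simpa [Nat.even_add_one] using h), one_mul]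
    · rw [if_neg h, if_pos (Nat.even_add_one.mpr h), h2]

theorem ab_nsq_le (u : S2) : nsq2 u ≤ 2 * ‖u‖ ^ 2 := by
  unfold nsq2
  rw [Fin.sum_univ_two]
  have h0 := pow_le_pow_left₀ (norm_nonneg _) (norm_le_pi_norm u 0) 2
  have h1 := pow_le_pow_left₀ (norm_nonneg _) (norm_le_pi_norm u 1) 2
  linarith

theorem ab_nsq_nonneg (u : S2) : 0 ≤ nsq2 u := Finset.sum_nonneg fun _ _ => by positivity

theorem ab_nsq_zero {u : S2} (h : nsq2 u = 0) : u = 0 := by
  funext a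
  have := (Finset.sum_eq_zero_iff_of_nonneg fun b _ => sq_nonneg ‖u b‖).mp h a (Finset.mem_univ a)
  simpa using this

theorem ab_sI_le {h : E3 → ℂ} {C : ℝ} (e : ∀ x, ‖x‖ = 1 → ‖h x‖ ≤ C) :
    ‖sI h‖ ≤ C * (volume : Measure E3).toSphere.real univ :=
  norm_integral_le_of_norm_le_const (Filter.Eventually.of_forall fun x =>
    e x (by simp))

/-- a continuous map orthogonal to all polynomial maps vanishes on the sphere -/
theorem ab_dense {w : E3 → S2} (hw : ContinuousOn w {0}ᶜ) (h : ∀ n, Hom n ≤ abPerp hw) :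
    ∀ x, ‖x‖ = 1 → w x = 0 := by
  obtain ⟨m, hm⟩ : ∃ m, m = (volume : Measure E3).toSphere.real univ := ⟨_, rfl⟩
  have hm0 : 0 ≤ m := hm ▸ measureReal_nonneg
  have key : ∀ η : ℝ, 0 < η → ‖sip w w‖ ^ 2 ≤ 2 * η ^ 2 * m * ‖sip w w‖ := by
    intro η hη
    obtain ⟨f, hf, hfw⟩ := poly_dense hw hη
    have hp : f ∈ abPerp hw := (iSup_le h) hf
    have hc : ContinuousOn (w + (-1 : ℂ) • f) {0}ᶜ := hw.add (hp.1.const_smul _)
    have e : sip (w + (-1 : ℂ) • f) w = sip w w := by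
      rw [ab_sip_add hw (hp.1.const_smul _) hw, ab_sip_smul, hp.2, mul_zero, add_zero]
    have h1 := sip_le hc hw
    rw [e] at h1
    have h2 : ‖sip (w + (-1 : ℂ) • f) (w + (-1 : ℂ) • f)‖ ≤ 2 * η ^ 2 * m := by
      rw [hm]
      refine ab_sI_le fun x hx => ?_
      rw [dot2_self, Complex.norm_real, Real.norm_of_nonneg (ab_nsq_nonneg _)]
      refine (ab_nsq_le _).trans ?_
      have : ‖(w + (-1 : ℂ) • f) x‖ ≤ η := by
        have e2 : (w + (-1 : ℂ) • f) x = -(f x - w x) := by simp [sub_eq_add_neg]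
        rw [e2, norm_neg]; exact hfw x hx
      have := pow_le_pow_left₀ (norm_nonneg _) this 2
      linarith
    refine h1.trans ((le_abs_self _).trans ?_)
    rw [abs_mul]
    exact mul_le_mul ((Complex.abs_re_le_norm _).trans h2) (Complex.abs_re_le_norm _)
      (abs_nonneg _) (by positivity)
  have hz : sip w w = 0 := by
    by_contra hne
    have hp : 0 < ‖sip w w‖ := norm_pos_iff.mpr hne
    obtain ⟨N, hN⟩ : ∃ N, N = ‖sip w w‖ := ⟨_, rfl⟩
    rw [← hN] at hp key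
    have h1 := key (√(N / (2 * m + 1))) (by positivity)
    rw [Real.sq_sqrt (by positivity)] at h1
    have h2 : 2 * (N / (2 * m + 1)) * m < N := by
      rw [← mul_div_assoc, div_mul_eq_mul_div, div_lt_iff₀ (by positivity)]
      nlinarith
    nlinarith
  intro x hx
  have hc : ContinuousOn (fun x => nsq2 (w x)) {0}ᶜ := by
    unfold nsq2
    exact continuousOn_finsetSum _ fun a _ =>
      (((continuous_apply a).comp_continuousOn hw).norm).pow 2
  refine ab_nsq_zero (sI_eq_zero hc (fun x => ab_nsq_nonneg _) ?_ x hx)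
  rw [← hz]
  exact sI_congr fun x _ => (dot2_self _).symm

theorem ab_complete {w : E3 → S2} (hw : ContinuousOn w {0}ᶜ)
    (h : ∀ l, ∀ P ∈ Mon l, sip P w = 0 ∧ sip (Xh P) w = 0) : ∀ x, ‖x‖ = 1 → w x = 0 := by
  refine ab_dense hw fun n => ?_
  rw [fischer, Submodule.span_le]
  intro f hf
  refine ⟨(Hom.smooth (Blk_subset n hf)).continuous.continuousOn, ?_⟩
  obtain ⟨j, l, P, hP, -, rfl⟩ := hf
  by_cases hj : Even j
  · rw [← (h l P hP).1]
    exact ab_sip_congr (fun x hx => by rw [ab_pow hx, if_pos hj, Matrix.one_mulVec]) fun _ _ => rfl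
  · rw [← (h l P hP).2]
    exact ab_sip_congr (fun x hx => by rw [ab_pow hx, if_neg hj, ab_Xh_one P hx]) fun _ _ => rfl

/-- the extension of degree zero -/
noncomputable def abQ (l : ℕ) (P : E3 → S2) (x : E3) : S2 := ((‖x‖ : ℂ) ^ l)⁻¹ • P x

theorem abQ_one (l : ℕ) (P : E3 → S2) {x : E3} (hx : ‖x‖ = 1) : abQ l P x = P x := by
  simp [abQ, hx]

theorem abQ_smooth {l : ℕ} {P : E3 → S2} (hP : P ∈ Hom l) : ContDiffOn ℝ 1 (abQ l P) {0}ᶜ := by
  intro x hx
  have hx0 : x ≠ 0 := hx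
  have h1 : ContDiffAt ℝ 1 (fun y : E3 => (‖y‖ : ℂ)) x :=
    Complex.ofRealCLM.contDiff.contDiffAt.comp x (contDiffAt_norm ℝ hx0)
  have h2 : ((‖x‖ : ℂ) ^ l) ≠ 0 := pow_ne_zero _ (by simpa using hx0)
  exact (((h1.pow l).inv h2).smul (Hom.smooth hP).contDiffAt).contDiffWithinAt

theorem abQ_scale {l : ℕ} {P : E3 → S2} (hP : P ∈ Hom l) {r : ℝ} (x : E3) (hr : 0 < r) :
    abQ l P (r • x) = abQ l P x := by
  have h : (r : ℂ) ^ l ≠ 0 := pow_ne_zero _ (by simpa using hr.ne')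
  unfold abQ
  rw [Hom.scale hP, norm_smul, Real.norm_of_nonneg hr.le, smul_smul]
  congr 1
  push_cast
  rw [mul_pow, mul_inv, mul_comm, ← mul_assoc, mul_inv_cancel₀ h, one_mul]

theorem ab_Xh_scale {f : E3 → S2} {r : ℝ} {x : E3} (hr : 0 < r) (h : f (r • x) = f x) :
    Xh f (r • x) = Xh f x := by
  have h1 : (r : ℂ) ≠ 0 := by simpa using hr.ne'
  unfold Xh
  rw [h, XX_smul, Matrix.smul_mulVec, smul_smul, norm_smul, Real.norm_of_nonneg hr.le]
  congr 1
  push_cast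
  rw [mul_inv, mul_comm, ← mul_assoc, mul_inv_cancel₀ h1, one_mul]

theorem abQ_eig {l : ℕ} {P : E3 → S2} (hP : P ∈ Mon l) {x : E3} (hx : x ≠ 0) :
    Gam (abQ l P) x = (l : ℂ) • abQ l P x := by
  have h0 : ((‖x‖ : ℝ) : ℂ) ^ l ≠ 0 := pow_ne_zero _ (by simpa using hx)
  have hg : DifferentiableAt ℝ (fun r : ℝ => ((r : ℂ) ^ l)⁻¹) ‖x‖ :=
    ((Complex.ofRealCLM.differentiableAt).pow l).inv h0
  have h1 := Gam_radial (f := P) hx ((Hom.smooth hP.1).differentiable one_ne_zero x) hg.hasDerivAt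
  have h2 : Gam P x = (l : ℂ) • P x := by
    unfold Gam
    rw [Hom.euler hP.1, hP.2]
    simp
  rw [h2] at h1
  unfold abQ
  rw [h1, smul_comm]

theorem ab_diff {f : E3 → S2} (hf : ContDiffOn ℝ 1 f {0}ᶜ) {x : E3} (hx : x ≠ 0) :
    DifferentiableAt ℝ f x :=
  (hf.contDiffAt (isOpen_compl_singleton.mem_nhds hx)).differentiableAt one_ne_zero

theorem abQ_eig' {l : ℕ} {P : E3 → S2} (hP : P ∈ Mon l) {x : E3} (hx : x ≠ 0) :
    Gam (Xh (abQ l P)) x = (-(l : ℂ) - 2) • Xh (abQ l P) x := by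
  rw [Gam_Xh hx (ab_diff (abQ_smooth hP.1) hx)]
  have : Xh (Gam (abQ l P)) x = (l : ℂ) • Xh (abQ l P) x := by
    unfold Xh
    rw [abQ_eig hP hx, Matrix.mulVec_smul, smul_comm]
  rw [this, sub_smul, neg_smul]
  abel

theorem ab_orth {f g : E3 → S2} (hf : ContDiffOn ℝ 1 f {0}ᶜ) (hg : ContDiffOn ℝ 1 g {0}ᶜ)
    {a b : ℤ} (hab : a ≠ b) (ef : ∀ x, x ≠ 0 → Gam f x = (-(a : ℂ) - 1) • f x)
    (eg : ∀ x, x ≠ 0 → Gam g x = (-(b : ℂ) - 1) • g x) : sip f g = 0 := by
  have h := sip_Gam hf hg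
  rw [ab_sip_congr (f' := (-(a : ℂ) - 1) • f) (g' := g) (fun x hx => ef x (ab_ne hx)) fun _ _ => rfl,
    ab_sip_congr (f := f) (f' := f) (g' := (-(b : ℂ) - 1) • g) (fun _ _ => rfl)
      fun x hx => eg x (ab_ne hx), ab_sip_smul, ab_sip_smul'] at h
  have h2 : ((a : ℂ) - b) * sip f g = 0 := by
    simp only [map_sub, map_neg, map_intCast, map_one] at h
    linear_combination -h
  exact (mul_eq_zero.mp h2).resolve_left (sub_ne_zero.mpr (by exact_mod_cast hab))

theorem ab_Xh_cont {w : E3 → S2} (hw : ContinuousOn w {0}ᶜ) : ContinuousOn (Xh w) {0}ᶜ := by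
  have h1 : Continuous XX := by
    unfold XX
    fun_prop
  have h2 : ContinuousOn (fun x : E3 => ((‖x‖⁻¹ : ℝ) : ℂ)) {0}ᶜ :=
    Complex.continuous_ofReal.comp_continuousOn
      (continuous_norm.continuousOn.inv₀ fun x hx => norm_ne_zero_iff.mpr hx)
  refine h2.smul (continuousOn_pi.mpr fun a => ?_)
  simp only [Matrix.mulVec, dotProduct]
  refine continuousOn_finsetSum _ fun b _ => ContinuousOn.mul ?_ ?_
  · exact (((continuous_apply b).comp ((continuous_apply a).comp h1))).continuousOn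
  · exact (continuous_apply b).comp_continuousOn hw

theorem ab_span {ι : Type} [Fintype ι] {P : ι → E3 → S2} {Q w : E3 → S2}
    (hP : ∀ i, ContinuousOn (P i) {0}ᶜ) (hw : ContinuousOn w {0}ᶜ) (c : ι → ℂ)
    (e : ∀ x, Q x = ∑ i, c i • P i x) (h : ∀ i, sip (P i) w = 0) : sip Q w = 0 := by
  have e2 : Q = ∑ i, c i • P i := by funext x; rw [e x]; simp
  have : Q ∈ abPerp hw := by
    rw [e2]
    exact Submodule.sum_mem _ fun i _ => Submodule.smul_mem _ _ ⟨hP i, h i⟩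
  exact this.2

end Pool.Agent.Lib.MP_2347b2_mp.Dirac
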