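import Pool.Agent.Lib.MP_2347b2_mp.F.T3Dim
import Pool.Agent.Lib.MP_2347b2_mp.F.T3Sph

namespace Pool.Agent.Lib.MP_2347b2_mp.Dirac

open MeasureTheory Complex Matrix Set

theorem un_cont {f g : E3 → S2} (hf : Continuous f) (hg : Continuous g) :
    Continuous fun x => dot2 (f x) (g x) := by
  unfold dot2
  refine continuous_finsetSum _ fun a _ => ?_
  exact (Complex.continuous_conj.comp ((continuous_apply a).comp hf)).mul
    ((continuous_apply a).comp hg)

theorem un_sI_sum {ι : Type} (s : Finset ι) (h : ι → E3 → ℂ) (hh : ∀ i, Continuous (h i)) :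
    sI (fun x => ∑ i ∈ s, h i x) = ∑ i ∈ s, sI (h i) :=
  integral_finsetSum s fun i _ => sI_int (hh i).continuousOn

theorem un_sI_mul (c : ℂ) (h : E3 → ℂ) : sI (fun x => c * h x) = c * sI h :=
  integral_const_mul c _

theorem un_dot_sum {ι : Type} [Fintype ι] (c : ι → ℂ) (u : ι → S2) (v : S2) :
    dot2 (∑ j, c j • u j) v = ∑ j, (starRingEnd ℂ) (c j) * dot2 (u j) v := by
  simp only [dot2, Finset.sum_apply, Pi.smul_apply, smul_eq_mul, map_sum, map_mul,
    Finset.sum_mul, Finset.mul_sum]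
  rw [Finset.sum_comm]
  exact Finset.sum_congr rfl fun j _ => Finset.sum_congr rfl fun a _ => by ring

theorem un_sum_dot {ι : Type} [Fintype ι] (c : ι → ℂ) (u : ι → S2) (v : S2) :
    dot2 v (∑ j, c j • u j) = ∑ j, c j * dot2 v (u j) := by
  simp only [dot2, Finset.sum_apply, Pi.smul_apply, smul_eq_mul, Finset.mul_sum]
  rw [Finset.sum_comm]
  exact Finset.sum_congr rfl fun j _ => Finset.sum_congr rfl fun a _ => by ring

theorem un_unit {n : E3} (hn : ‖n‖ = 1) (u v : S2) :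
    dot2 ((XX n).mulVec u) ((XX n).mulVec v) = dot2 u v := by
  rw [XX_symm, mulVec_mulVec, XX_sq, hn]
  simp

theorem un_refl {n : E3} (hn : ‖n‖ = 1) :
    ∃ T : E3 ≃ₗᵢ[ℝ] E3, ∀ x, T x = x - (2 * inner ℝ n x) • n := by
  refine ⟨(Submodule.span ℝ {n})ᗮ.reflection, fun x => ?_⟩
  rw [Submodule.reflection_orthogonal_apply, Submodule.reflection_singleton_apply, hn]
  simp [mul_smul, two_smul]

/-- a square matrix with orthonormal rows preserves the sum of squares -/
theorem un_rows {ι : Type} [Fintype ι] [DecidableEq ι] (c : ι → ι → ℂ)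
    (h : ∀ i k, ∑ j, (starRingEnd ℂ) (c i j) * c k j = if i = k then 1 else 0) (u : ι → S2) :
    ∑ i, dot2 (∑ j, c i j • u j) (∑ j, c i j • u j) = ∑ j, dot2 (u j) (u j) := by
  have h1 : (Matrix.of fun i j => (starRingEnd ℂ) (c i j)) * (Matrix.of fun j k => c k j) = 1 := by
    ext i k
    simp only [Matrix.mul_apply, Matrix.of_apply, h, Matrix.one_apply]
  have h2 := mul_eq_one_comm.1 h1
  have h3 : ∀ j k, ∑ i, c i j * (starRingEnd ℂ) (c i k) = if j = k then 1 else 0 := fun j k => by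
    have := congrFun (congrFun h2 j) k
    simpa only [Matrix.mul_apply, Matrix.of_apply, Matrix.one_apply] using this
  have e0 : ∀ i, dot2 (∑ j, c i j • u j) (∑ j, c i j • u j)
      = ∑ k, ∑ j, (starRingEnd ℂ) (c i k) * (c i j * dot2 (u k) (u j)) := fun i => by
    rw [un_dot_sum]
    exact Finset.sum_congr rfl fun k _ => by rw [un_sum_dot, Finset.mul_sum]
  rw [Finset.sum_congr rfl fun i _ => e0 i, Finset.sum_comm]
  refine Finset.sum_congr rfl fun k _ => ?_
  rw [Finset.sum_comm]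
  have e : ∀ j, ∑ i, (starRingEnd ℂ) (c i k) * (c i j * dot2 (u k) (u j))
      = (if j = k then 1 else 0) * dot2 (u k) (u j) := fun j => by
    rw [← h3, Finset.sum_mul]
    exact Finset.sum_congr rfl fun i _ => by ring
  simp only [e, ite_mul, one_mul, zero_mul, Finset.sum_ite_eq', Finset.mem_univ, if_true]

theorem unsold_aux {l : ℕ} {P : Fin (2 * (l + 1)) → E3 → S2}
    (hr : ∀ Q ∈ Mon l, ∀ n : E3, ‖n‖ = 1 →
      (fun x => (XX n).mulVec (Q (x - (2 * inner ℝ n x) • n))) ∈ Mon l)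
    (h1 : ∀ i, P i ∈ Mon l) (h2 : ∀ i j, sip (P i) (P j) = if i = j then 1 else 0)
    (h3 : ∀ Q ∈ Mon l, ∀ x, Q x = ∑ i, sip (P i) Q • P i x) {x : E3} (hx : ‖x‖ = 1) :
    ∑ i, nsq2 (P i x) = 2 * (l + 1) / (4 * Real.pi) := by
  have hc : ∀ Q ∈ Mon l, Continuous Q := fun Q hQ => (Hom.smooth hQ.1).continuous
  have key : ∀ n : E3, ‖n‖ = 1 → ∀ y : E3,
      ∑ i, dot2 (P i (y - (2 * inner ℝ n y) • n)) (P i (y - (2 * inner ℝ n y) • n))
        = ∑ i, dot2 (P i y) (P i y) := by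
    intro n hn y
    obtain ⟨T, hT⟩ := un_refl hn
    let Q : Fin (2 * (l + 1)) → E3 → S2 :=
      fun i x => (XX n).mulVec (P i (x - (2 * inner ℝ n x) • n))
    have hQ : ∀ i, Q i ∈ Mon l := fun i => hr _ (h1 i) n hn
    have hQQ : ∀ i k, sip (Q i) (Q k) = if i = k then 1 else 0 := fun i k => by
      rw [← h2, sip, sip, ← sI_iso T fun x => dot2 (P i x) (P k x)]
      refine congrArg sI (funext fun z => ?_)
      rw [hT]
      exact un_unit hn _ _
    have hrow : ∀ i k, ∑ j, (starRingEnd ℂ) (sip (P j) (Q i)) * sip (P j) (Q k)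
        = if i = k then 1 else 0 := fun i k => by
      rw [← hQQ]
      have e : (fun z => dot2 (Q i z) (Q k z))
          = fun z => ∑ j, (starRingEnd ℂ) (sip (P j) (Q i)) * dot2 (P j z) (Q k z) := by
        funext z
        rw [← un_dot_sum, ← h3 _ (hQ i)]
      rw [show sip (Q i) (Q k) = sI fun z => dot2 (Q i z) (Q k z) from rfl, e,
        un_sI_sum _ (fun j z => (starRingEnd ℂ) (sip (P j) (Q i)) * dot2 (P j z) (Q k z))
          fun j => continuous_const.mul (un_cont (hc _ (h1 j)) (hc _ (hQ k)))]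
      exact Finset.sum_congr rfl fun j _ => (un_sI_mul _ _).symm
    rw [← un_rows (fun i j => sip (P j) (Q i)) hrow fun j => P j y]
    refine Finset.sum_congr rfl fun i _ => ?_
    rw [← h3 _ (hQ i)]
    exact (un_unit hn _ _).symm
  have const : ∀ y : E3, ‖y‖ = 1 → ∑ i, dot2 (P i y) (P i y) = ∑ i, dot2 (P i x) (P i x) := by
    intro y hy
    by_cases hxy : x = y
    · rw [hxy]
    have h0 : ‖x - y‖ ≠ 0 := norm_ne_zero_iff.2 (sub_ne_zero.2 hxy)
    have hn : ‖‖x - y‖⁻¹ • (x - y)‖ = 1 := by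
      rw [norm_smul, norm_inv, norm_norm, inv_mul_cancel₀ h0]
    have e : x - (2 * inner ℝ (‖x - y‖⁻¹ • (x - y)) x) • ‖x - y‖⁻¹ • (x - y) = y := by
      have e1 : ‖x - y‖ ^ 2 = 2 * inner ℝ (x - y) x := by
        rw [norm_sub_sq_real, inner_sub_left, real_inner_self_eq_norm_sq, hx, hy,
          real_inner_comm x y]
        ring
      have e2 : 2 * inner ℝ (‖x - y‖⁻¹ • (x - y)) x * ‖x - y‖⁻¹ = 1 := by
        rw [real_inner_smul_left]
        calc 2 * (‖x - y‖⁻¹ * inner ℝ (x - y) x) * ‖x - y‖⁻¹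
            = (2 * inner ℝ (x - y) x) * (‖x - y‖⁻¹ * ‖x - y‖⁻¹) := by ring
          _ = 1 := by rw [← e1]; field_simp
      rw [smul_smul, e2, one_smul, sub_sub_cancel]
    have := key _ hn x
    rwa [e] at this
  have h4 : sI (fun y => ∑ i, dot2 (P i y) (P i y)) = 2 * (l + 1) := by
    rw [un_sI_sum _ _ fun j => un_cont (hc _ (h1 j)) (hc _ (h1 j))]
    have : ∀ i, sI (fun y => dot2 (P i y) (P i y)) = 1 := fun i => by
      have := h2 i i
      rwa [if_pos rfl] at this
    simp [this]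
  rw [sI_congr const, sI_const] at h4
  simp only [dot2_self] at h4
  have h5 : 4 * Real.pi * ∑ i, nsq2 (P i x) = 2 * (l + 1) := by exact_mod_cast h4
  rw [← h5]
  have := Real.pi_ne_zero
  field_simp

end Pool.Agent.Lib.MP_2347b2_mp.Dirac
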