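import Pool.Agent.Lib.MP_2347b2_mp.F.T3Dim
import Pool.Agent.Lib.MP_2347b2_mp.F.T3Sph
import Pool.Agent.Lib.MP_2347b2_mp.F.T3AngU
import Pool.Agent.Lib.MP_2347b2_mp.F.T3AngB
import Pool.Agent.Lib.MP_2347b2_mp.F.T3AngAux

namespace Pool.Agent.Lib.MP_2347b2_mp.Dirac

open MeasureTheory Complex Matrix Set

theorem ag_sum_ee (n : E3) : ∑ j, n j • ee j = n := by
  ext k
  simp [ee, Fin.sum_univ_three]
  fin_cases k <;> simp

/-- reflections act on monogenic maps -/
theorem Mon.refl {l : ℕ} {P : E3 → S2} (hP : P ∈ Mon l) {n : E3} (hn : ‖n‖ = 1) :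
    (fun x => (XX n).mulVec (P (x - (2 * inner ℝ n x) • n))) ∈ Mon l := by
  let R : E3 ≃ₗᵢ[ℝ] E3 := (Submodule.span ℝ {n})ᗮ.reflection
  have hR : ∀ x, R x = x - (2 * inner ℝ n x) • n := ag_refl hn
  have e : (fun x => (XX n).mulVec (P (x - (2 * inner ℝ n x) • n)))
      = fun x => (XX n).mulVec (P (R x)) := by
    funext x
    rw [hR]
  rw [e]
  refine ⟨Hom.mat (Hom.comp hP.1 R.toLinearEquiv.toLinearMap) (XX n), ?_⟩
  funext x
  let N : S2 →L[ℝ] S2 := LinearMap.toContinuousLinearMap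
    ((Matrix.mulVecLin (XX n)).restrictScalars ℝ)
  have hd : HasFDerivAt P (fderiv ℝ P (R x)) (R x) :=
    ((Hom.smooth hP.1).differentiable one_ne_zero (R x)).hasFDerivAt
  have h1 : HasFDerivAt (fun x => (XX n).mulVec (P (R x)))
      (N.comp ((fderiv ℝ P (R x)).comp R.toContinuousLinearEquiv.toContinuousLinearMap)) x :=
    N.hasFDerivAt.comp x (hd.comp x R.toContinuousLinearEquiv.toContinuousLinearMap.hasFDerivAt)
  have h0 : ∑ j, (sg j).mulVec (fderiv ℝ P (R x) (ee j)) = 0 := congrFun hP.2 (R x)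
  unfold Dop
  rw [h1.fderiv]
  generalize fderiv ℝ P (R x) = L at h0
  have h2 : ∀ j, (sg j).mulVec
      ((N.comp (L.comp R.toContinuousLinearEquiv.toContinuousLinearMap)) (ee j))
      = (2 : ℂ) • (n j • L (ee j)) - (XX n).mulVec ((sg j).mulVec (L (ee j)))
        - (2 : ℂ) • ((n j : ℂ) • sg j).mulVec ((XX n).mulVec (L n)) := by
    intro j
    have a1 : (N.comp (L.comp R.toContinuousLinearEquiv.toContinuousLinearMap)) (ee j)
        = (XX n).mulVec (L (R (ee j))) := rfl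
    have a2 : inner ℝ n (ee j) = n j := by simp [ee, EuclideanSpace.inner_single_right]
    have a3 : sg j * XX n = ((2 * n j : ℝ) : ℂ) • (1 : Matrix (Fin 2) (Fin 2) ℂ) - XX n * sg j := by
      have := XX_anti n (ee j)
      rw [XX_ee, a2] at this
      rw [← this]
      abel
    rw [a1, hR, a2, map_sub, map_smul, Matrix.mulVec_sub, Matrix.mulVec_sub,
      Matrix.mulVec_mulVec (L (ee j)), a3, Matrix.sub_mulVec, Matrix.mulVec_mulVec (L (ee j)),
      Matrix.smul_mulVec, Matrix.one_mulVec, Matrix.smul_mulVec]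
    have a4 : ∀ (r : ℝ) (v : S2), r • v = (r : ℂ) • v := fun r v => rfl
    rw [a4, a4, Matrix.mulVec_smul, Matrix.mulVec_smul, smul_smul, smul_smul]
    push_cast
    rfl
  have h3 : ∑ j, n j • L (ee j) = L n := by
    conv_rhs => rw [← ag_sum_ee n]
    simp only [map_sum, map_smul]
  rw [Finset.sum_congr rfl fun j _ => h2 j, Finset.sum_sub_distrib, Finset.sum_sub_distrib,
    ← Finset.smul_sum, ← Finset.smul_sum, h3, ← Matrix.mulVec_sum, h0, ← Matrix.sum_mulVec]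
  have h4 : ∑ j, (n j : ℂ) • sg j = XX n := rfl
  rw [h4, Matrix.mulVec_mulVec, ag_XX_unit hn]
  simp

theorem Mon.basis (l : ℕ) : ∃ P : Fin (2 * (l + 1)) → E3 → S2, (∀ i, P i ∈ Mon l) ∧
    (∀ i j, sip (P i) (P j) = if i = j then 1 else 0) ∧
    ∀ Q ∈ Mon l, ∀ x, Q x = ∑ i, sip (P i) Q • P i x := by
  have := Mon.finite l
  let c : InnerProductSpace.Core ℂ (Mon l) :=
    { inner := fun f g => sip f.1 g.1
      conj_inner_symm := fun f g => sip_conj _ _
      re_inner_nonneg := fun f => ag_self_nonneg _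
      add_left := fun f g w => ag_add_left (ag_hom_cont f.2.1) (ag_hom_cont g.2.1)
        (ag_hom_cont w.2.1)
      smul_left := fun f g r => ag_smul_left r _ _
      definite := fun f h => Subtype.ext
        (ag_hom_zero f.2.1 (ag_self_zero (ag_hom_cont f.2.1) h)) }
  obtain ⟨b, h1, h2⟩ := ag_onb c (Mon.finrank l)
  refine ⟨fun i => (b i).1, fun i => (b i).2, h1, fun Q hQ x => ?_⟩
  have h3 := congrArg (fun f : Mon l => f.1 x) (h2 ⟨Q, hQ⟩)
  simp only [Submodule.coe_sum, Submodule.coe_smul, Finset.sum_apply, Pi.smul_apply] at h3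
  exact h3

/-- the sum of squares of an orthonormal basis is constant on the sphere -/
theorem unsold {l : ℕ} {P : Fin (2 * (l + 1)) → E3 → S2} (h1 : ∀ i, P i ∈ Mon l)
    (h2 : ∀ i j, sip (P i) (P j) = if i = j then 1 else 0)
    (h3 : ∀ Q ∈ Mon l, ∀ x, Q x = ∑ i, sip (P i) Q • P i x) {x : E3} (hx : ‖x‖ = 1) :
    ∑ i, nsq2 (P i x) = 2 * (l + 1) / (4 * Real.pi) :=
  unsold_aux (fun _ hQ _ hn => Mon.refl hQ hn) h1 h2 h3 hx

theorem mon_complete {w : E3 → S2} (hw : ContinuousOn w {0}ᶜ)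
    (h : ∀ l, ∀ P ∈ Mon l, sip P w = 0 ∧ sip (Xh P) w = 0) : ∀ x, ‖x‖ = 1 → w x = 0 := by
  exact ab_complete hw h

/-- a complete orthonormal system of spherical spinors -/
structure Ang (Ω : (κ : ℤ) → Fin (2 * κ.natAbs) → E3 → S2) : Prop where
  smooth : ∀ κ i, ContDiffOn ℝ 1 (Ω κ i) {0}ᶜ
  scale : ∀ κ i (r : ℝ) x, 0 < r → Ω κ i (r • x) = Ω κ i x
  eig : ∀ κ i x, x ≠ 0 → Gam (Ω κ i) x = (-(κ : ℂ) - 1) • Ω κ i x
  norm : ∀ κ i j, sip (Ω κ i) (Ω κ j) = if i = j then 1 else 0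
  orth : ∀ κ κ' i j, κ ≠ κ' → sip (Ω κ i) (Ω κ' j) = 0
  sum_sq : ∀ κ x, x ≠ 0 → ∑ i, nsq2 (Ω κ i x) = 2 * |(κ : ℝ)| / (4 * Real.pi)
  complete : ∀ w : E3 → S2, ContinuousOn w {0}ᶜ → (∀ κ i, sip (Ω κ i) w = 0) →
    ∀ x, ‖x‖ = 1 → w x = 0

/-- the spherical spinors built from bases of monogenic maps -/
noncomputable def abOm (P : (l : ℕ) → Fin (2 * (l + 1)) → E3 → S2) :
    (κ : ℤ) → Fin (2 * κ.natAbs) → E3 → S2
  | Int.ofNat 0 => fun _ => 0
  | Int.ofNat (l + 1) => fun i => Xh (abQ l (P l i))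
  | Int.negSucc l => fun i => abQ l (P l i)

theorem exists_ang : ∃ Ω, Ang Ω := by
  choose P h1 h2 h3 using Mon.basis
  have hs : ∀ κ i, ContDiffOn ℝ 1 (abOm P κ i) {0}ᶜ := by
    rintro ((_ | l) | l) i
    · exact contDiffOn_const
    · exact Xh_smooth (abQ_smooth (h1 l i).1)
    · exact abQ_smooth (h1 l i).1
  have he : ∀ κ i x, x ≠ 0 → Gam (abOm P κ i) x = (-((κ : ℤ) : ℂ) - 1) • abOm P κ i x := by
    rintro ((_ | l) | l) i x hx
    · exact i.elim0
    · refine (abQ_eig' (h1 l i) hx).trans ?_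
      congr 1
      simp only [Int.ofNat_eq_natCast]
      push_cast
      ring
    · refine (abQ_eig (h1 l i) hx).trans ?_
      congr 1
      rw [Int.cast_negSucc]
      push_cast
      ring
  have hn : ∀ l i j, sip (abQ l (P l i)) (abQ l (P l j)) = if i = j then 1 else 0 := fun l i j =>
    (ab_sip_congr (fun _ hx => abQ_one l _ hx) fun _ hx => abQ_one l _ hx).trans (h2 l i j)
  have hu : ∀ l x, x ≠ 0 → ∑ i, nsq2 (abQ l (P l i) x) = 2 * ((l : ℝ) + 1) / (4 * Real.pi) := by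
    intro l x hx
    have h0 : 0 < ‖x‖⁻¹ := inv_pos.mpr (norm_pos_iff.mpr hx)
    have hy : ‖‖x‖⁻¹ • x‖ = 1 := by
      rw [norm_smul, Real.norm_of_nonneg h0.le, inv_mul_cancel₀ (norm_ne_zero_iff.mpr hx)]
    rw [← unsold (h1 l) (h2 l) (h3 l) hy]
    refine Finset.sum_congr rfl fun i _ => ?_
    rw [← abQ_scale (h1 l i).1 x h0, abQ_one l _ hy]
  refine ⟨abOm P, hs, ?_, he, ?_, fun κ κ' i j hne => ab_orth (hs κ i) (hs κ' j) hne (he κ i) (he κ' j),
    ?_, ?_⟩
  · rintro ((_ | l) | l) i r x hr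
    · rfl
    · exact ab_Xh_scale hr (abQ_scale (h1 l i).1 x hr)
    · exact abQ_scale (h1 l i).1 x hr
  · rintro ((_ | l) | l) i j
    · exact i.elim0
    · exact (sip_Xh_Xh _ _).trans (hn l i j)
    · exact hn l i j
  · rintro ((_ | l) | l) x hx
    · have : IsEmpty (Fin (2 * (Int.ofNat 0).natAbs)) := ⟨fun i => i.elim0⟩
      simp
    · refine (Finset.sum_congr rfl fun i _ => Xh_nsq (abQ l (P l i)) hx).trans ((hu l x hx).trans ?_)
      simp only [Int.ofNat_eq_natCast]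
      push_cast
      rw [abs_of_nonneg (by positivity)]
    · refine (hu l x hx).trans ?_
      rw [Int.cast_negSucc, abs_neg]
      push_cast
      rw [abs_of_nonneg (by positivity)]
  · intro w hw h
    refine mon_complete hw fun l Q hQ => ⟨?_, ?_⟩
    · refine ab_span (fun i => (Hom.smooth (h1 l i).1).continuous.continuousOn) hw _ (h3 l Q hQ)
        fun i => ?_
      rw [← h (Int.negSucc l) i]
      exact ab_sip_congr (fun _ hx => (abQ_one l _ hx).symm) fun _ _ => rfl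
    · rw [sip_Xh]
      refine ab_span (fun i => (Hom.smooth (h1 l i).1).continuous.continuousOn) (ab_Xh_cont hw) _
        (h3 l Q hQ) fun i => ?_
      rw [← h (Int.ofNat (l + 1)) i]
      exact (ab_sip_congr (fun _ hx => (abQ_one l _ hx).symm) fun _ _ => rfl).trans (sip_Xh _ _).symm

end Pool.Agent.Lib.MP_2347b2_mp.Dirac
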