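import Pool.Agent.Lib.MP_2347b2_mp.F.T3Chan

/-!
Linearity of the scalar product and of the eigenspaces.
-/

namespace Pool.Agent.Lib.MP_2347b2_mp.Dirac

open MeasureTheory Complex Matrix Set

variable {γ E : ℝ}

theorem tl_ae : ∀ᵐ x : E3, x ≠ 0 := by
  rw [ae_iff]
  simp

theorem tl_nsq_nonneg (v : Fin 4 → ℂ) : 0 ≤ nsq v :=
  Finset.sum_nonneg fun _ _ => sq_nonneg _

theorem tl_ip_congr {φ φ' ψ ψ' : E3 → Fin 4 → ℂ} (h1 : ∀ x, x ≠ 0 → φ x = φ' x)
    (h2 : ∀ x, x ≠ 0 → ψ x = ψ' x) : ip φ ψ = ip φ' ψ' := by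
  unfold ip
  apply integral_congr_ae
  filter_upwards [tl_ae] with x hx
  rw [h1 x hx, h2 x hx]

theorem tl_ip_conj (φ ψ : E3 → Fin 4 → ℂ) : (starRingEnd ℂ) (ip φ ψ) = ip ψ φ := by
  unfold ip
  rw [← integral_conj]
  apply integral_congr_ae
  filter_upwards with x
  rw [map_sum]
  refine Finset.sum_congr rfl fun a _ => ?_
  rw [map_mul, Complex.conj_conj, mul_comm]

theorem tl_ip_sum {α : Type} {φ : E3 → Fin 4 → ℂ} {ψ : α → E3 → Fin 4 → ℂ} (t : Finset α)
    (c : α → ℂ) (hφ : ∃ E, InEigenspace γ E φ) (hψ : ∀ a ∈ t, ∃ E, InEigenspace γ E (ψ a)) :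
    ip φ (fun x => ∑ a ∈ t, c a • ψ a x) = ∑ a ∈ t, c a * ip φ (ψ a) := by
  obtain ⟨E1, h1⟩ := hφ
  unfold ip
  have e : ∀ x : E3, ∑ k, (starRingEnd ℂ) (φ x k) * (∑ a ∈ t, c a • ψ a x) k
      = ∑ a ∈ t, c a * ∑ k, (starRingEnd ℂ) (φ x k) * ψ a x k := by
    intro x
    simp only [Finset.sum_apply, Pi.smul_apply, smul_eq_mul, Finset.mul_sum]
    rw [Finset.sum_comm]
    refine Finset.sum_congr rfl fun a _ => Finset.sum_congr rfl fun k _ => ?_
    ring
  simp only [e]
  rw [integral_finsetSum]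
  · refine Finset.sum_congr rfl fun a _ => ?_
    rw [integral_const_mul]
  · intro a ha
    obtain ⟨E2, h2⟩ := hψ a ha
    exact (ip_int h1 h2).const_mul _

theorem tl_sum_ip {α : Type} {φ : E3 → Fin 4 → ℂ} {ψ : α → E3 → Fin 4 → ℂ} (t : Finset α)
    (c : α → ℂ) (hφ : ∃ E, InEigenspace γ E φ) (hψ : ∀ a ∈ t, ∃ E, InEigenspace γ E (ψ a)) :
    ip (fun x => ∑ a ∈ t, c a • ψ a x) φ = ∑ a ∈ t, (starRingEnd ℂ) (c a) * ip (ψ a) φ := by
  rw [← tl_ip_conj, tl_ip_sum t c hφ hψ, map_sum]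
  refine Finset.sum_congr rfl fun a _ => ?_
  rw [map_mul, tl_ip_conj]

theorem tl_nsq_add (u v : Fin 4 → ℂ) : nsq (u + v) ≤ 2 * nsq u + 2 * nsq v := by
  unfold nsq
  rw [Finset.mul_sum, Finset.mul_sum, ← Finset.sum_add_distrib]
  refine Finset.sum_le_sum fun a _ => ?_
  have h1 : ‖(u + v) a‖ ≤ ‖u a‖ + ‖v a‖ := norm_add_le _ _
  have h2 := pow_le_pow_left₀ (norm_nonneg _) h1 2
  nlinarith [sq_nonneg (‖u a‖ - ‖v a‖)]

theorem tl_nsq_smul (c : ℂ) (u : Fin 4 → ℂ) : nsq (c • u) = ‖c‖ ^ 2 * nsq u := by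
  unfold nsq
  rw [Finset.mul_sum]
  refine Finset.sum_congr rfl fun a _ => ?_
  rw [Pi.smul_apply, norm_smul, mul_pow]

theorem tl_nsq_cont : Continuous nsq := by
  unfold nsq
  fun_prop

theorem tl_meas {f : E3 → ℝ} (hf : ContinuousOn f {0}ᶜ) : AEStronglyMeasurable f volume := by
  have h1 := hf.aestronglyMeasurable (μ := volume) (measurableSet_singleton (0 : E3)).compl
  rwa [restrict_compl_singleton] at h1

theorem tl_diff {ψ : E3 → Fin 4 → ℂ} (h : ContDiffOn ℝ 1 ψ {0}ᶜ) {x : E3} (hx : x ≠ 0) :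
    DifferentiableAt ℝ ψ x :=
  ((h x hx).contDiffAt (isOpen_compl_singleton.mem_nhds hx)).differentiableAt one_ne_zero

theorem tl_zero : InEigenspace γ E (fun _ => 0) where
  smooth := contDiffOn_const
  equation := by
    intro x _
    simp
  square_integrable := by simp [nsq]
  finite_potential := by simp [nsq]

theorem tl_add {φ ψ : E3 → Fin 4 → ℂ} (h1 : InEigenspace γ E φ) (h2 : InEigenspace γ E ψ) :
    InEigenspace γ E (fun x => φ x + ψ x) where
  smooth := h1.smooth.add h2.smooth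
  equation := by
    intro x hx
    have e1 := h1.equation x hx
    have e2 := h2.equation x hx
    rw [fderiv_fun_add (tl_diff h1.smooth hx) (tl_diff h2.smooth hx)]
    simp only [_root_.add_apply, Matrix.mulVec_add, smul_add,
      Finset.sum_add_distrib]
    rw [← e1, ← e2]
    abel
  square_integrable := by
    have hc : ContinuousOn (fun x => nsq (φ x + ψ x)) {0}ᶜ :=
      tl_nsq_cont.comp_continuousOn (h1.smooth.add h2.smooth).continuousOn
    refine ((h1.square_integrable.const_mul 2).add (h2.square_integrable.const_mul 2)).mono'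
      (tl_meas hc) ?_
    filter_upwards with x
    rw [Real.norm_of_nonneg (tl_nsq_nonneg _)]
    exact tl_nsq_add _ _
  finite_potential := by
    have hc : ContinuousOn (fun x => nsq (φ x + ψ x)) {0}ᶜ :=
      tl_nsq_cont.comp_continuousOn (h1.smooth.add h2.smooth).continuousOn
    have hd : ContinuousOn (fun x : E3 => nsq (φ x + ψ x) / ‖x‖) {0}ᶜ :=
      hc.div continuous_norm.continuousOn fun x hx => norm_ne_zero_iff.2 hx
    refine ((h1.finite_potential.const_mul 2).add (h2.finite_potential.const_mul 2)).mono'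
      (tl_meas hd) ?_
    filter_upwards with x
    rw [Real.norm_of_nonneg (div_nonneg (tl_nsq_nonneg _) (norm_nonneg _))]
    have := div_le_div_of_nonneg_right (tl_nsq_add (φ x) (ψ x)) (norm_nonneg x)
    refine this.trans (le_of_eq ?_)
    simp only [Pi.add_apply]
    ring

theorem tl_smul {ψ : E3 → Fin 4 → ℂ} (c : ℂ) (h : InEigenspace γ E ψ) :
    InEigenspace γ E (fun x => c • ψ x) where
  smooth := h.smooth.const_smul c
  equation := by
    intro x hx
    have e := congrArg (fun v => c • v) (h.equation x hx)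
    rw [fderiv_fun_const_smul (tl_diff h.smooth hx)]
    simp only [_root_.smul_apply, Matrix.mulVec_smul]
    simp only [smul_sub, smul_add, Finset.smul_sum] at e
    simp only [smul_comm c] at e ⊢
    exact e
  square_integrable := by
    simp only [tl_nsq_smul]
    exact h.square_integrable.const_mul _
  finite_potential := by
    simp only [tl_nsq_smul, mul_div_assoc]
    exact h.finite_potential.const_mul _

theorem tl_sum {α : Type} {ψ : α → E3 → Fin 4 → ℂ} (t : Finset α) (c : α → ℂ)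
    (h : ∀ a ∈ t, InEigenspace γ E (ψ a)) :
    InEigenspace γ E (fun x => ∑ a ∈ t, c a • ψ a x) := by
  classical
  induction t using Finset.induction_on with
  | empty => simpa using tl_zero
  | insert a t ha ih =>
    simp only [Finset.sum_insert ha]
    exact tl_add (tl_smul _ (h a (Finset.mem_insert_self _ _)))
      (ih fun b hb => h b (Finset.mem_insert_of_mem hb))

/-- the scalar product of two combinations of an orthonormal family -/
theorem tl_ip_rows {α : Type} {φ : α → E3 → Fin 4 → ℂ} (hφ : ∀ a, ∃ E, InEigenspace γ E (φ a))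
    (n2 : ∀ a, ip (φ a) (φ a) = 1) (o2 : ∀ a b, a ≠ b → ip (φ a) (φ b) = 0) (t : Finset α)
    (c d : α → ℂ) {u w : E3 → Fin 4 → ℂ} (hw : ∃ E, InEigenspace γ E w)
    (eu : ∀ x, x ≠ 0 → u x = ∑ a ∈ t, c a • φ a x)
    (ew : ∀ x, x ≠ 0 → w x = ∑ a ∈ t, d a • φ a x) :
    ip u w = ∑ a ∈ t, (starRingEnd ℂ) (c a) * d a := by
  rw [tl_ip_congr eu fun _ _ => rfl, tl_sum_ip t c hw fun a _ => hφ a]
  refine Finset.sum_congr rfl fun a ha => ?_
  rw [tl_ip_congr (fun _ _ => rfl) ew, tl_ip_sum t d (hφ a) fun b _ => hφ b,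
    Finset.sum_eq_single a, n2, mul_one]
  · intro b _ hb
    rw [o2 a b hb.symm, mul_zero]
  · intro h
    exact absurd ha h

end Pool.Agent.Lib.MP_2347b2_mp.Dirac
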