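import Pool.Agent.Lib.MP_2347b2_mp.F.T3Chan
import Pool.Agent.Lib.MP_2347b2_mp.F.T3Lin

namespace Pool.Agent.Lib.MP_2347b2_mp.Dirac

open MeasureTheory Complex Matrix Set
open scoped ENNReal

/-- labels of the standard basis -/
structure Lab (γ : ℝ) where
  κ : ℤ
  E : Ioo (0 : ℝ) 1
  i : Fin (2 * κ.natAbs)
  ex : ∃ G F, IsRadialEigenfunction γ κ E G F

/-- the standard basis -/
noncomputable def std {γ : ℝ} (Ω : (κ : ℤ) → Fin (2 * κ.natAbs) → E3 → S2) (a : Lab γ) :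
    E3 → Fin 4 → ℂ :=
  Phi a.ex.choose a.ex.choose_spec.choose (Ω a.κ a.i)

variable {Ω : (κ : ℤ) → Fin (2 * κ.natAbs) → E3 → S2} {γ E : ℝ}

theorem Lab.rad (a : Lab γ) :
    IsRadialEigenfunction γ a.κ a.E a.ex.choose a.ex.choose_spec.choose :=
  a.ex.choose_spec.choose_spec

theorem std_eigen (h : Ang Ω) (a : Lab γ) : InEigenspace γ a.E (std Ω a) := by
  exact Phi_eigen h a.i a.rad

theorem std_ip (h : Ang Ω) (a b : Lab γ) : ip (std Ω a) (std Ω b)
    = ((∫ r in Ioi (0 : ℝ), (a.ex.choose r * b.ex.choose r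
        + a.ex.choose_spec.choose r * b.ex.choose_spec.choose r) : ℝ) : ℂ)
      * sip (Ω a.κ a.i) (Ω b.κ b.i) := by
  have e := ip_Phi h a.i a.rad (std_eigen h b)
  refine e.trans ?_
  rw [← integral_complex_ofReal, ← integral_mul_const]
  refine setIntegral_congr_fun measurableSet_Ioi fun r hr => ?_
  have e2 := cU_Phi h a.i b.i b.ex.choose b.ex.choose_spec.choose hr
  simp only [std]
  rw [e2.1, e2.2]
  push_cast
  ring

theorem std_norm (h : Ang Ω) (a : Lab γ) : ip (std Ω a) (std Ω a) = 1 := by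
  have e := a.rad.normalized
  simp only [sq] at e
  rw [std_ip h, e, h.norm, if_pos rfl]
  simp

theorem std_sip (h : Ang Ω) {a b : Lab γ} (hab : a ≠ b) (hE : a.E = b.E) :
    sip (Ω a.κ a.i) (Ω b.κ b.i) = 0 := by
  obtain ⟨κ, E, i, ex⟩ := a
  obtain ⟨κ', E', j, ex'⟩ := b
  by_cases hk : κ = κ'
  · subst hk
    obtain rfl : E = E' := hE
    have hij : i ≠ j := fun e => hab (by subst e; rfl)
    exact (h.norm κ i j).trans (if_neg hij)
  · exact h.orth κ κ' i j hk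

theorem std_orth (h : Ang Ω) (a b : Lab γ) (hab : a ≠ b) : ip (std Ω a) (std Ω b) = 0 := by
  rw [std_ip h]
  by_cases hE : a.E = b.E
  · rw [std_sip h hab hE, mul_zero]
  by_cases hk : a.κ = b.κ
  · have hb : IsRadialEigenfunction γ a.κ b.E b.ex.choose b.ex.choose_spec.choose := by
      rw [hk]; exact b.rad
    rw [a.rad.ortho hb fun e => hE (Subtype.ext e)]
    simp
  · rw [h.orth _ _ _ _ hk, mul_zero]

theorem lab_finite (h0 : 0 < γ) (h1 : γ < 1) (E : ℝ) : {a : Lab γ | (a.E : ℝ) = E}.Finite := by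
  by_cases hE : 0 < E ∧ E < 1
  · have hK := chan_finite h0 h1 hE.1 hE.2
    have hF := hK.biUnion (t := fun κ : ℤ => ({κ} : Set ℤ) ×ˢ Iio (2 * κ.natAbs))
      fun κ _ => (finite_singleton κ).prod (finite_Iio _)
    refine Finite.of_finite_image (f := fun a : Lab γ => (a.κ, (a.i : ℕ))) (hF.subset ?_) ?_
    · rintro _ ⟨a, ha, rfl⟩
      have ha' : (a.E : ℝ) = E := ha
      refine mem_biUnion (x := a.κ) ⟨fun e => ?_, ha' ▸ a.ex⟩ ⟨rfl, a.i.2⟩
      have l1 := a.i.2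
      have l2 : a.κ.natAbs = 0 := by rw [e]; rfl
      omega
    · rintro ⟨κ, E1, i, ex⟩ ha ⟨κ', E2, j, ex'⟩ hb e
      obtain rfl : κ = κ' := congrArg Prod.fst e
      obtain rfl : i = j := Fin.ext (congrArg Prod.snd e)
      obtain rfl : E1 = E2 := Subtype.ext (Eq.trans ha (Eq.symm hb))
      rfl
  · refine finite_empty.subset fun a ha => hE ?_
    have ha' : (a.E : ℝ) = E := ha
    exact ha' ▸ a.E.2

theorem dot2_cont {f g : E3 → S2} (hf : ContinuousOn f {0}ᶜ) (hg : ContinuousOn g {0}ᶜ) :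
    ContinuousOn (fun x => dot2 (f x) (g x)) {0}ᶜ :=
  continuousOn_finsetSum _ fun a _ =>
    (Complex.continuous_conj.comp_continuousOn (continuousOn_pi.1 hf a)).mul
      (continuousOn_pi.1 hg a)

theorem sip_lin {α : Type} {A f : E3 → S2} {g : α → E3 → S2} (T : Finset α) (c : α → ℂ)
    (hA : ContinuousOn A {0}ᶜ) (hf : ContinuousOn f {0}ᶜ) (hg : ∀ a, ContinuousOn (g a) {0}ᶜ) :
    sip A (fun x => f x - ∑ a ∈ T, c a • g a x) = sip A f - ∑ a ∈ T, c a * sip A (g a) := by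
  have e : ∀ x, dot2 (A x) (f x - ∑ a ∈ T, c a • g a x)
      = dot2 (A x) (f x) - ∑ a ∈ T, c a * dot2 (A x) (g a x) := fun x => by
    simp only [dot2, Fin.sum_univ_two, Pi.sub_apply, Finset.sum_apply, Pi.smul_apply, smul_eq_mul,
      mul_sub, Finset.mul_sum, mul_add, Finset.sum_add_distrib]
    have e1 : ∀ k : Fin 2, ∑ a ∈ T, (starRingEnd ℂ) (A x k) * (c a * g a x k)
        = ∑ a ∈ T, c a * ((starRingEnd ℂ) (A x k) * g a x k) :=
      fun k => Finset.sum_congr rfl fun a _ => by ring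
    rw [e1 0, e1 1]
    ring
  simp only [sip, sI, e]
  have i2 : ∀ a, Integrable (fun ω : Metric.sphere (0 : E3) 1 => c a * dot2 (A ω) (g a ω))
      (volume : Measure E3).toSphere := fun a => (sI_int (dot2_cont hA (hg a))).const_mul _
  rw [integral_sub (sI_int (dot2_cont hA hf)) (integrable_finsetSum _ fun a _ => i2 a),
    integral_finsetSum _ fun a _ => i2 a]
  simp only [integral_const_mul]

theorem scale_smooth {ψ : E3 → Fin 4 → ℂ} (hψ : ContDiffOn ℝ 1 ψ {0}ᶜ) {r : ℝ} (hr : 0 < r) :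
    ContDiffOn ℝ 1 (fun y => up (ψ (r • y))) {0}ᶜ ∧
      ContDiffOn ℝ 1 (fun y => lo (ψ (r • y))) {0}ᶜ := by
  have e : ContDiffOn ℝ 1 (fun y : E3 => ψ (r • y)) {0}ᶜ :=
    hψ.comp (contDiff_const_smul r).contDiffOn fun y hy => smul_ne_zero hr.ne' hy
  have e' := contDiffOn_pi.1 e
  constructor
  · refine contDiffOn_pi.2 fun k => ?_
    fin_cases k
    · exact e' 0
    · exact e' 1
  · refine contDiffOn_pi.2 fun k => ?_
    fin_cases k
    · exact e' 2
    · exact e' 3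

theorem up_lin {α : Type} (T : Finset α) (c : α → ℂ) (v : Fin 4 → ℂ) (g : α → Fin 4 → ℂ) :
    up (v - ∑ a ∈ T, c a • g a) = up v - ∑ a ∈ T, c a • up (g a) ∧
      lo (v - ∑ a ∈ T, c a • g a) = lo v - ∑ a ∈ T, c a • lo (g a) := by
  constructor <;> funext k <;> fin_cases k <;> simp [up, lo, Finset.sum_apply]

/-- the coefficients of an eigenfunction through the standard basis -/
theorem coef_expand (h0 : 0 < γ) (h1 : γ < 1) (h : Ang Ω) (hE : 0 < E) (hE1 : E < 1)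
    {ψ : E3 → Fin 4 → ℂ} (hψ : InEigenspace γ E ψ) (κ : ℤ) (i : Fin (2 * κ.natAbs)) {r : ℝ}
    (hr : 0 < r) :
    cU (Ω κ i) ψ r = ∑ a ∈ (lab_finite h0 h1 E).toFinset,
      ip (std Ω a) ψ * cU (Ω κ i) (std Ω a) r ∧
    cD (Ω κ i) ψ r = ∑ a ∈ (lab_finite h0 h1 E).toFinset,
      ip (std Ω a) ψ * cD (Ω κ i) (std Ω a) r := by
  have hc := radial_complex (γ := γ) (E := E) (κ := κ) (a := cU (Ω κ i) ψ) (b := cD (Ω κ i) ψ)
    (fun r hr => by simpa using (coef_deriv h i hψ hr).1)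
    (fun r hr => by simpa using (coef_deriv h i hψ hr).2) (coef_int h i hψ).1 (coef_int h i hψ).2
  have e1 : ∀ a : Lab γ, cU (Ω κ i) (std Ω a) r = a.ex.choose r * sip (Ω κ i) (Ω a.κ a.i) ∧
      cD (Ω κ i) (std Ω a) r = a.ex.choose_spec.choose r * sip (Ω κ i) (Ω a.κ a.i) :=
    fun a => cU_Phi h i a.i _ _ hr
  by_cases ex : ∃ G F, IsRadialEigenfunction γ κ E G F
  · obtain ⟨b, hb⟩ : ∃ b : Lab γ, b = ⟨κ, ⟨E, hE, hE1⟩, i, ex⟩ := ⟨_, rfl⟩
    have hbT : b ∈ (lab_finite h0 h1 E).toFinset := by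
      rw [Finite.mem_toFinset, hb]; rfl
    have z : ∀ a ∈ (lab_finite h0 h1 E).toFinset, a ≠ b → sip (Ω κ i) (Ω a.κ a.i) = 0 := by
      intro a ha hab
      rw [Finite.mem_toFinset] at ha
      have := std_sip h hab.symm (by rw [hb]; exact Subtype.ext (Eq.symm ha))
      rw [hb] at this
      exact this
    have o : sip (Ω κ i) (Ω b.κ b.i) = 1 := by
      rw [hb]; exact (h.norm κ i i).trans (if_pos rfl)
    have hr' : IsRadialEigenfunction γ κ E b.ex.choose b.ex.choose_spec.choose := by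
      subst hb; exact Lab.rad ⟨κ, ⟨E, hE, hE1⟩, i, ex⟩
    obtain ⟨c, hc'⟩ := hc.2 _ _ hr'
    have ec : ip (std Ω b) ψ = c := by
      have e2 : std Ω b = Phi b.ex.choose b.ex.choose_spec.choose (Ω κ i) := by
        subst hb; rfl
      rw [e2, ip_Phi h i hr' hψ, setIntegral_congr_fun measurableSet_Ioi
        (g := fun r => c * ((b.ex.choose r ^ 2 + b.ex.choose_spec.choose r ^ 2 : ℝ) : ℂ))
        (fun r hr => by
          simp only [(hc' r hr).1, (hc' r hr).2]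
          push_cast
          ring), integral_const_mul, integral_complex_ofReal, hr'.normalized]
      simp
    constructor
    · rw [Finset.sum_eq_single_of_mem b hbT
        (fun a ha hab => by rw [(e1 a).1, z a ha hab, mul_zero, mul_zero]), (e1 b).1, o, ec,
        (hc' r hr).1, mul_one]
    · rw [Finset.sum_eq_single_of_mem b hbT
        (fun a ha hab => by rw [(e1 a).2, z a ha hab, mul_zero, mul_zero]), (e1 b).2, o, ec,
        (hc' r hr).2, mul_one]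
  · have z : ∀ a ∈ (lab_finite h0 h1 E).toFinset, sip (Ω κ i) (Ω a.κ a.i) = 0 := by
      intro a ha
      rw [Finite.mem_toFinset] at ha
      have ha' : (a.E : ℝ) = E := ha
      refine h.orth _ _ _ _ fun e => ex ?_
      rw [e, ← ha']
      exact a.ex
    constructor
    · rw [(hc.1 ex r hr).1]
      exact (Finset.sum_eq_zero fun a ha => by rw [(e1 a).1, z a ha, mul_zero, mul_zero]).symm
    · rw [(hc.1 ex r hr).2]
      exact (Finset.sum_eq_zero fun a ha => by rw [(e1 a).2, z a ha, mul_zero, mul_zero]).symm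

/-- expansion of an eigenfunction -/
theorem expand (h0 : 0 < γ) (h1 : γ < 1) (h : Ang Ω) (hE : 0 < E) (hE1 : E < 1)
    {ψ : E3 → Fin 4 → ℂ} (hψ : InEigenspace γ E ψ) {x : E3} (hx : x ≠ 0) :
    ψ x = ∑ a ∈ (lab_finite h0 h1 E).toFinset, ip (std Ω a) ψ • std Ω a x := by
  have hr : 0 < ‖x‖ := norm_pos_iff.2 hx
  have hr' : ((‖x‖ : ℝ) : ℂ) ≠ 0 := Complex.ofReal_ne_zero.2 hr.ne'
  have ce := fun κ i => coef_expand h0 h1 h hE hE1 hψ κ i hr
  generalize (lab_finite h0 h1 E).toFinset = T at ce ⊢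
  have s1 := scale_smooth hψ.smooth hr
  have s2 := fun a : Lab γ => scale_smooth (std_eigen h a).smooth hr
  have hy : ‖‖x‖⁻¹ • x‖ = 1 := norm_smul_inv_norm hx
  have hy0 : ‖x‖⁻¹ • x ≠ 0 := smul_ne_zero (inv_ne_zero hr.ne') hx
  have hxy : ‖x‖ • ‖x‖⁻¹ • x = x := smul_inv_smul₀ hr.ne' x
  have su : ContDiffOn ℝ 1 (fun y => up (ψ (‖x‖ • y))
      - ∑ a ∈ T, ip (std Ω a) ψ • up (std Ω a (‖x‖ • y))) {0}ᶜ :=
    s1.1.sub (ContDiffOn.sum fun a _ => (s2 a).1.const_smul _)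
  have sl : ContDiffOn ℝ 1 (fun y => lo (ψ (‖x‖ • y))
      - ∑ a ∈ T, ip (std Ω a) ψ • lo (std Ω a (‖x‖ • y))) {0}ᶜ :=
    s1.2.sub (ContDiffOn.sum fun a _ => (s2 a).2.const_smul _)
  have zu := h.complete _ su.continuousOn (fun κ i => by
    rw [sip_lin T _ (h.smooth κ i).continuousOn s1.1.continuousOn fun a => (s2 a).1.continuousOn]
    refine mul_left_cancel₀ hr' ?_
    have := (ce κ i).1
    simp only [cU] at this
    rw [mul_sub, this, Finset.mul_sum, mul_zero, sub_eq_zero]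
    exact Finset.sum_congr rfl fun a _ => by ring) _ hy
  have zl := h.complete _ (Xh_smooth sl).continuousOn (fun κ i => by
    rw [← sip_Xh, sip_lin T _ (Xh_smooth (h.smooth κ i)).continuousOn s1.2.continuousOn
      fun a => (s2 a).2.continuousOn]
    refine mul_left_cancel₀ (mul_ne_zero I_ne_zero hr') ?_
    have := (ce κ i).2
    simp only [cD] at this
    rw [mul_sub, this, Finset.mul_sum, mul_zero, sub_eq_zero]
    exact Finset.sum_congr rfl fun a _ => by ring) _ hy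
  have zl' := Xh_Xh (fun y => lo (ψ (‖x‖ • y))
      - ∑ a ∈ T, ip (std Ω a) ψ • lo (std Ω a (‖x‖ • y))) hy0
  rw [Xh, zl, Matrix.mulVec_zero, smul_zero] at zl'
  simp only [hxy] at zu zl'
  have ul := up_lin T (fun a => ip (std Ω a) ψ) (ψ x) fun a => std Ω a x
  rw [← sub_eq_zero, ← join_up_lo (ψ x - _), ul.1, ul.2, zu, ← zl']
  funext k
  fin_cases k <;> rfl

theorem std_basis (h0 : 0 < γ) (h1 : γ < 1) (h : Ang Ω) : IsBoundBasis γ (std (γ := γ) Ω) := by
  refine ⟨fun a => ⟨a.E, a.E.2.1, a.E.2.2, std_eigen h a⟩, std_norm h, std_orth h, ?_⟩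
  intro E φ hE hE1 hφ ho x hx
  rw [expand h0 h1 h hE hE1 hφ hx]
  exact Finset.sum_eq_zero fun a _ => by rw [ho a, zero_smul]

/-- the labels as an iterated sum type -/
def labEquiv (γ : ℝ) : (Σ κ : ℤ, Σ E : Ioo (0 : ℝ) 1,
    {_i : Fin (2 * κ.natAbs) // ∃ G F, IsRadialEigenfunction γ κ E G F}) ≃ Lab γ where
  toFun p := ⟨p.1, p.2.1, p.2.2.1, p.2.2.2⟩
  invFun a := ⟨a.κ, a.E, a.i, a.ex⟩
  left_inv _ := rfl
  right_inv _ := rfl

theorem std_density (h : Ang Ω) {x : E3} (hx : x ≠ 0) :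
    ∑' a : Lab γ, ENNReal.ofReal (nsq (std Ω a x)) = furryDensity γ ‖x‖ := by
  have hr : 0 < ‖x‖ := norm_pos_iff.2 hx
  rw [← (labEquiv γ).tsum_eq, ENNReal.tsum_sigma', furryDensity]
  refine tsum_congr fun κ => ?_
  rw [ENNReal.tsum_sigma']
  refine tsum_congr fun E => ?_
  by_cases ex : ∃ G F, IsRadialEigenfunction γ κ E G F
  · have hG : IsRadialEigenfunction γ κ E ex.choose ex.choose_spec.choose :=
      ex.choose_spec.choose_spec
    have n0 : ∀ u : S2, 0 ≤ nsq2 u := fun u => Finset.sum_nonneg fun _ _ => sq_nonneg _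
    rw [← (Equiv.subtypeUnivEquiv (p := fun _ : Fin (2 * κ.natAbs) =>
      ∃ G F, IsRadialEigenfunction γ κ E G F) fun _ => ex).symm.tsum_eq, tsum_fintype]
    have e : ∀ i : Fin (2 * κ.natAbs), nsq (std Ω (⟨κ, E, i, ex⟩ : Lab γ) x)
        = (ex.choose ‖x‖ ^ 2 + ex.choose_spec.choose ‖x‖ ^ 2) / ‖x‖ ^ 2 * nsq2 (Ω κ i x) :=
      fun i => Phi_nsq _ _ _ hx
    refine (Finset.sum_congr rfl fun i _ => congrArg ENNReal.ofReal (e i)).trans ?_
    rw [← ENNReal.ofReal_sum_of_nonneg fun i _ => mul_nonneg (by positivity) (n0 _),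
      ← Finset.mul_sum, h.sum_sq κ x hx, hG.weight_eq hr, ← ENNReal.ofReal_mul (by positivity)]
    congr 1
    have := Real.pi_pos
    field_simp
  · have : IsEmpty {_i : Fin (2 * κ.natAbs) // ∃ G F, IsRadialEigenfunction γ κ E G F} :=
      ⟨fun p => ex p.2⟩
    rw [tsum_empty, weight_eq_zero ex, mul_zero]

/-- a matrix with orthonormal rows is a contraction -/
theorem rows_le {ι α : Type} (s : Finset ι) (t : Finset α) (c : ι → α → ℂ)
    (h1 : ∀ j ∈ s, ∑ a ∈ t, (starRingEnd ℂ) (c j a) * c j a = 1)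
    (h2 : ∀ i ∈ s, ∀ j ∈ s, i ≠ j → ∑ a ∈ t, (starRingEnd ℂ) (c i a) * c j a = 0)
    (v : α → Fin 4 → ℂ) : ∑ j ∈ s, nsq (∑ a ∈ t, c j a • v a) ≤ ∑ a ∈ t, nsq (v a) := by
  classical
  let u : s → EuclideanSpace ℂ t := fun j => WithLp.toLp 2 fun a => (starRingEnd ℂ) (c j a)
  have hu : Orthonormal ℂ u := by
    rw [orthonormal_iff_ite]
    intro i j
    have e : inner ℂ (u i) (u j) = (starRingEnd ℂ) (∑ a ∈ t, (starRingEnd ℂ) (c i a) * c j a) := by
      rw [map_sum, ← Finset.sum_coe_sort t, PiLp.inner_apply]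
      refine Finset.sum_congr rfl fun a _ => ?_
      simp [u, mul_comm]
    rw [e]
    split_ifs with hij
    · subst hij
      rw [h1 _ i.2, map_one]
    · rw [h2 _ i.2 _ j.2 fun h => hij (Subtype.ext h), map_zero]
  unfold nsq
  rw [Finset.sum_comm, Finset.sum_comm (s := t)]
  refine Finset.sum_le_sum fun k _ => ?_
  have hb := hu.sum_inner_products_le (WithLp.toLp 2 fun a : t => v a k) (s := Finset.univ)
  rw [EuclideanSpace.norm_sq_eq] at hb
  rw [← Finset.sum_coe_sort s, ← Finset.sum_coe_sort t (fun a => ‖v a k‖ ^ 2)]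
  refine le_trans (le_of_eq (Finset.sum_congr rfl fun j _ => ?_)) hb
  congr 2
  rw [Finset.sum_apply, ← Finset.sum_coe_sort t, PiLp.inner_apply]
  refine Finset.sum_congr rfl fun a _ => ?_
  simp [u, mul_comm]

/-- comparison of two families -/
theorem family_le {ι α : Type} {ψ : ι → E3 → Fin 4 → ℂ} {φ : α → E3 → Fin 4 → ℂ}
    (hψ : ∀ j, ∃ E, InEigenspace γ E (ψ j)) (hφ : ∀ a, ∃ E, InEigenspace γ E (φ a))
    (n1 : ∀ j, ip (ψ j) (ψ j) = 1) (o1 : ∀ i j, i ≠ j → ip (ψ i) (ψ j) = 0)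
    (n2 : ∀ a, ip (φ a) (φ a) = 1) (o2 : ∀ a b, a ≠ b → ip (φ a) (φ b) = 0)
    (hs : ∀ j, ∃ (t : Finset α) (c : α → ℂ), ∀ x, x ≠ 0 → ψ j x = ∑ a ∈ t, c a • φ a x)
    {x : E3} (hx : x ≠ 0) :
    ∑' j, ENNReal.ofReal (nsq (ψ j x)) ≤ ∑' a, ENNReal.ofReal (nsq (φ a x)) := by
  classical
  choose t c hc using hs
  rw [ENNReal.tsum_eq_iSup_sum]
  refine iSup_le fun s => ?_
  have e : ∀ j ∈ s, ∀ y, y ≠ 0 →
      ψ j y = ∑ a ∈ s.biUnion t, (if a ∈ t j then c j a else 0) • φ a y := by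
    intro j hj y hy
    rw [hc j y hy, ← Finset.sum_subset (Finset.subset_biUnion_of_mem t hj)]
    · exact Finset.sum_congr rfl fun a ha => by rw [if_pos ha]
    · intro a _ ha
      rw [if_neg ha, zero_smul]
  have key := rows_le s (s.biUnion t) (fun j a => if a ∈ t j then c j a else 0)
    (fun j hj => by
      rw [← tl_ip_rows hφ n2 o2 _ _ _ (hψ j) (e j hj) (e j hj), n1])
    (fun i hi j hj hij => by
      rw [← tl_ip_rows hφ n2 o2 _ _ _ (hψ j) (e i hi) (e j hj), o1 i j hij])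
    (fun a => φ a x)
  rw [← ENNReal.ofReal_sum_of_nonneg fun j _ => tl_nsq_nonneg _]
  refine le_trans ?_ (ENNReal.sum_le_tsum (s.biUnion t))
  rw [← ENNReal.ofReal_sum_of_nonneg fun j _ => tl_nsq_nonneg _]
  refine ENNReal.ofReal_le_ofReal (le_trans (le_of_eq ?_) key)
  exact Finset.sum_congr rfl fun j hj => by rw [e j hj x hx]

/-- eigenfunctions for different eigenvalues are orthogonal -/
theorem tbb_orth (h0 : 0 < γ) (h1 : γ < 1) (h : Ang Ω) {E' : ℝ} (hE : 0 < E) (hE1 : E < 1)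
    (hE' : 0 < E') (hE1' : E' < 1) (hne : E' ≠ E) {φ ψ : E3 → Fin 4 → ℂ}
    (hφ : InEigenspace γ E φ) (hψ : InEigenspace γ E' ψ) : ip ψ φ = 0 := by
  rw [tl_ip_congr (fun x hx => expand h0 h1 h hE' hE1' hψ hx) fun _ _ => rfl,
    tl_sum_ip _ _ ⟨_, hφ⟩ fun a _ => ⟨_, std_eigen h a⟩]
  refine Finset.sum_eq_zero fun a ha => ?_
  rw [tl_ip_congr (fun _ _ => rfl) (fun x hx => expand h0 h1 h hE hE1 hφ hx),
    tl_ip_sum _ _ ⟨_, std_eigen h a⟩ fun b _ => ⟨_, std_eigen h b⟩, Finset.sum_eq_zero, mul_zero]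
  intro b hb
  rw [std_orth h a b, mul_zero]
  rintro rfl
  rw [Set.Finite.mem_toFinset] at ha hb
  exact hne (ha.symm.trans hb)

theorem tbb_finite (h0 : 0 < γ) (h1 : γ < 1) (h : Ang Ω) (hE : 0 < E) (hE1 : E < 1) {ι : Type}
    {ψ : ι → E3 → Fin 4 → ℂ} (hψ : IsBoundBasis γ ψ) :
    {j | InEigenspace γ E (ψ j)}.Finite := by
  classical
  let t := (lab_finite h0 h1 E).toFinset
  let u : {j | InEigenspace γ E (ψ j)} → EuclideanSpace ℂ t :=
    fun j => WithLp.toLp 2 fun a => ip (std Ω a.1) (ψ j)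
  have hu : Orthonormal ℂ u := by
    rw [orthonormal_iff_ite]
    intro i j
    have e : inner ℂ (u i) (u j) = ip (ψ i) (ψ j) := by
      rw [tl_ip_rows (fun a => ⟨_, std_eigen h a⟩) (std_norm h) (std_orth h) t _ _ ⟨_, j.2⟩
        (fun x hx => expand h0 h1 h hE hE1 i.2 hx) (fun x hx => expand h0 h1 h hE hE1 j.2 hx),
        ← Finset.sum_coe_sort t, PiLp.inner_apply]
      refine Finset.sum_congr rfl fun a _ => ?_
      simp [u, mul_comm]
    rw [e]
    split_ifs with hij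
    · subst hij
      exact hψ.normalized _
    · exact hψ.orthogonal _ _ fun h => hij (Subtype.ext h)
  exact Set.finite_coe_iff.1 hu.linearIndependent.finite

/-- every standard function is a finite combination of a given basis -/
theorem std_span (h0 : 0 < γ) (h1 : γ < 1) (h : Ang Ω) {ι : Type} {ψ : ι → E3 → Fin 4 → ℂ}
    (hψ : IsBoundBasis γ ψ) (a : Lab γ) :
    ∃ (t : Finset ι) (c : ι → ℂ), ∀ x, x ≠ 0 → std Ω a x = ∑ j ∈ t, c j • ψ j x := by
  classical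
  have hJ := tbb_finite h0 h1 h a.E.2.1 a.E.2.2 hψ
  have hm : ∀ j ∈ hJ.toFinset, InEigenspace γ a.E (ψ j) := fun j hj => by
    simpa using hj
  have hs := tl_sum hJ.toFinset (fun j => ip (ψ j) (std Ω a)) hm
  have hφ := tl_add (std_eigen h a) (tl_smul (-1) hs)
  refine ⟨hJ.toFinset, fun j => ip (ψ j) (std Ω a), fun x hx => ?_⟩
  have hz := hψ.complete a.E _ a.E.2.1 a.E.2.2 hφ (fun j => ?_) x hx
  · rw [neg_one_smul, ← sub_eq_add_neg, sub_eq_zero] at hz
    exact hz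
  · by_cases hj : j ∈ hJ.toFinset
    · have e := tl_ip_sum (γ := γ) (φ := ψ j) (ψ := ![std Ω a,
        fun x => ∑ i ∈ hJ.toFinset, ip (ψ i) (std Ω a) • ψ i x]) Finset.univ ![1, -1]
        ⟨_, hm j hj⟩ (fun b _ => by
          fin_cases b
          · exact ⟨_, std_eigen h a⟩
          · exact ⟨_, hs⟩)
      simp only [Fin.sum_univ_two, Matrix.cons_val_zero, Matrix.cons_val_one, one_smul,
        one_mul] at e
      rw [e, tl_ip_sum _ _ ⟨_, hm j hj⟩ fun i hi => ⟨_, hm i hi⟩, Finset.sum_eq_single j,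
        hψ.normalized]
      · ring
      · intro i _ hi
        rw [hψ.orthogonal j i hi.symm, mul_zero]
      · intro h
        exact absurd hj h
    · obtain ⟨E', p1, p2, p3⟩ := hψ.eigen j
      refine tbb_orth h0 h1 h a.E.2.1 a.E.2.2 p1 p2 ?_ hφ p3
      rintro rfl
      exact hj (by simpa using p3)

theorem basis_density (h0 : 0 < γ) (h1 : γ < 1) {ι : Type} {ψ : ι → E3 → Fin 4 → ℂ}
    (hψ : IsBoundBasis γ ψ) {x : E3} (hx : x ≠ 0) :
    ∑' j, ENNReal.ofReal (nsq (ψ j x)) = furryDensity γ ‖x‖ := by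
  obtain ⟨Ω, h⟩ := exists_ang
  have e1 : ∀ j, ∃ E, InEigenspace γ E (ψ j) := fun j => by
    obtain ⟨E, _, _, p⟩ := hψ.eigen j
    exact ⟨E, p⟩
  have e2 : ∀ a : Lab γ, ∃ E, InEigenspace γ E (std Ω a) := fun a => ⟨_, std_eigen h a⟩
  rw [← std_density h hx]
  refine le_antisymm (family_le e1 e2 hψ.normalized hψ.orthogonal (std_norm h) (std_orth h)
    (fun j => ?_) hx) (family_le e2 e1 (std_norm h) (std_orth h) hψ.normalized hψ.orthogonal
    (std_span h0 h1 h hψ) hx)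
  obtain ⟨E, p1, p2, p3⟩ := hψ.eigen j
  exact ⟨_, fun a => ip (std Ω a) (ψ j), fun y hy => expand h0 h1 h p1 p2 p3 hy⟩

theorem exists_basis (h0 : 0 < γ) (h1 : γ < 1) :
    ∃ (ι : Type) (ψ : ι → E3 → Fin 4 → ℂ), IsBoundBasis γ ψ := by
  obtain ⟨Ω, h⟩ := exists_ang
  exact ⟨Lab γ, std Ω, std_basis h0 h1 h⟩

/-- from the radial statement to the statement in space -/
theorem lift (h0 : 0 < γ) (h1 : γ < 1)
    (h : (∀ r : ℝ, 0 < r → 0 < furryDensity γ r ∧ furryDensity γ r < ⊤) ∧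
      ∀ r₁ r₂ : ℝ, 0 < r₁ → r₁ ≤ r₂ → furryDensity γ r₂ ≤ furryDensity γ r₁)
    {ι : Type} {ψ : ι → E3 → Fin 4 → ℂ} (hψ : IsBoundBasis γ ψ) {x y : E3} (hx : 0 < ‖x‖)
    (hxy : ‖x‖ ≤ ‖y‖) : Summable (fun j => nsq (ψ j x)) ∧ Summable (fun j => nsq (ψ j y)) ∧
      0 < ∑' j, nsq (ψ j y) ∧ ∑' j, nsq (ψ j y) ≤ ∑' j, nsq (ψ j x) := by
  have hy : 0 < ‖y‖ := hx.trans_le hxy
  have key : ∀ z : E3, 0 < ‖z‖ → Summable (fun j => nsq (ψ j z)) ∧
      ∑' j, nsq (ψ j z) = (furryDensity γ ‖z‖).toReal := by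
    intro z hz
    have e := basis_density h0 h1 hψ (norm_pos_iff.1 hz)
    have hs := ENNReal.summable_toReal (e.trans_ne (h.1 _ hz).2.ne)
    have ht := ENNReal.tsum_toReal_eq (f := fun j => ENNReal.ofReal (nsq (ψ j z)))
      fun _ => ENNReal.ofReal_ne_top
    simp only [ENNReal.toReal_ofReal (tl_nsq_nonneg _)] at hs ht
    exact ⟨hs, by rw [← ht, e]⟩
  refine ⟨(key x hx).1, (key y hy).1, ?_, ?_⟩
  · rw [(key y hy).2]
    exact ENNReal.toReal_pos (h.1 _ hy).1.ne' (h.1 _ hy).2.ne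
  · rw [(key y hy).2, (key x hx).2]
    exact ENNReal.toReal_mono (h.1 _ hx).2.ne (h.2 _ _ hx hxy)

end Pool.Agent.Lib.MP_2347b2_mp.Dirac
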