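import Pool.Agent.Lib.MP_2347b2_mp.F.T3Ang
import Pool.Agent.Lib.MP_2347b2_mp.Near

namespace Pool.Agent.Lib.MP_2347b2_mp.Dirac

open MeasureTheory Complex Matrix Set

/-- the spinor with radial parts `G, F` and angular part `A` -/
noncomputable def Phi (G F : ℝ → ℝ) (A : E3 → S2) (x : E3) : Fin 4 → ℂ :=
  join (((G ‖x‖ / ‖x‖ : ℝ) : ℂ) • A x) ((-I * (F ‖x‖ / ‖x‖ : ℝ)) • Xh A x)

/-- radial coefficients of a spinor field -/
noncomputable def cU (A : E3 → S2) (ψ : E3 → Fin 4 → ℂ) (r : ℝ) : ℂ :=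
  r * sip A fun x => up (ψ (r • x))

noncomputable def cD (A : E3 → S2) (ψ : E3 → Fin 4 → ℂ) (r : ℝ) : ℂ :=
  I * r * sip (Xh A) fun x => lo (ψ (r • x))

variable {Ω : (κ : ℤ) → Fin (2 * κ.natAbs) → E3 → S2} {γ E : ℝ} {G F G' F' : ℝ → ℝ}
  {ψ : E3 → Fin 4 → ℂ}

theorem ca_nsq2_smul (c : ℂ) (u : S2) : nsq2 (c • u) = ‖c‖ ^ 2 * nsq2 u := by
  simp only [nsq2, Pi.smul_apply, smul_eq_mul, norm_mul, mul_pow, Finset.mul_sum]

theorem ca_dot2_left (c : ℂ) (u v : S2) : dot2 (c • u) v = (starRingEnd ℂ) c * dot2 u v := by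
  simp only [dot2, Pi.smul_apply, smul_eq_mul, map_mul, Finset.mul_sum, mul_assoc]

theorem ca_dot2_right (c : ℂ) (u v : S2) : dot2 u (c • v) = c * dot2 u v := by
  simp only [dot2, Pi.smul_apply, smul_eq_mul, Finset.mul_sum]
  exact Finset.sum_congr rfl fun a _ => by ring

theorem ca_sI_mul (c : ℂ) (h : E3 → ℂ) : sI (fun x => c * h x) = c * sI h := by
  unfold sI
  exact integral_const_mul _ _

theorem ca_sI_add {h k : E3 → ℂ} (hh : ContinuousOn h {0}ᶜ) (hk : ContinuousOn k {0}ᶜ) :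
    sI (fun x => h x + k x) = sI h + sI k := by
  unfold sI
  exact integral_add (sI_int hh) (sI_int hk)

theorem ca_norm_smul {r : ℝ} (hr : 0 < r) {x : E3} (hx : ‖x‖ = 1) : ‖r • x‖ = r := by
  rw [norm_smul, hx, Real.norm_eq_abs, abs_of_pos hr, mul_one]

theorem ca_Xh_scale {A : E3 → S2} (hs : ∀ (r : ℝ) x, 0 < r → A (r • x) = A x) (r : ℝ) (x : E3)
    (hr : 0 < r) : Xh A (r • x) = Xh A x := by
  unfold Xh
  rw [hs r x hr, XX_smul, Matrix.smul_mulVec, smul_smul, norm_smul, Real.norm_eq_abs,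
    abs_of_pos hr]
  have e : (((r * ‖x‖)⁻¹ : ℝ) : ℂ) * (r : ℂ) = ((‖x‖⁻¹ : ℝ) : ℂ) := by
    rw [← Complex.ofReal_mul, mul_inv, mul_right_comm, inv_mul_cancel₀ hr.ne', one_mul]
  rw [e]

theorem ca_diff {W : Type} [NormedAddCommGroup W] [NormedSpace ℝ W] {A : E3 → W}
    (hA : ContDiffOn ℝ 1 A {0}ᶜ) {x : E3} (hx : x ≠ 0) : DifferentiableAt ℝ A x :=
  (hA.contDiffAt (isOpen_compl_singleton.mem_nhds hx)).differentiableAt one_ne_zero

theorem ca_euler {A : E3 → S2} {x : E3} (hd : DifferentiableAt ℝ A x)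
    (hs : ∀ r : ℝ, 0 < r → A (r • x) = A x) : fderiv ℝ A x x = 0 := by
  have h1 : HasDerivAt (fun t : ℝ => t • x) x 1 := by
    simpa using (hasDerivAt_id (1 : ℝ)).smul_const x
  have h2 : HasFDerivAt A (fderiv ℝ A x) ((fun t : ℝ => t • x) 1) := by
    simpa using hd.hasFDerivAt
  have h3 : HasDerivAt (A ∘ fun t : ℝ => t • x) (fderiv ℝ A x x) 1 := h2.comp_hasDerivAt 1 h1
  have h4 : HasDerivAt (A ∘ fun t : ℝ => t • x) 0 1 := by
    refine (hasDerivAt_const (1 : ℝ) (A x)).congr_of_eventuallyEq ?_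
    filter_upwards [Ioi_mem_nhds (zero_lt_one' ℝ)] with t ht
    exact hs t ht
  exact h3.unique h4

theorem ca_Dop {A : E3 → S2} {x : E3} (hx : x ≠ 0) (hd : DifferentiableAt ℝ A x)
    (hs : ∀ r : ℝ, 0 < r → A (r • x) = A x) {lam : ℂ} (he : Gam A x = lam • A x) :
    Dop A x = (-(lam / (‖x‖ : ℝ))) • Xh A x := by
  have hn : ((‖x‖ : ℝ) : ℂ) ≠ 0 := Complex.ofReal_ne_zero.2 (norm_ne_zero_iff.2 hx)
  unfold Gam at he
  rw [ca_euler hd hs, zero_sub] at he
  have h1 : (XX x).mulVec (Dop A x) = (-lam) • A x := by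
    rw [neg_smul, ← he, neg_neg]
  have h2 : ((‖x‖ ^ 2 : ℝ) : ℂ) • Dop A x = (-lam) • (XX x).mulVec (A x) := by
    have := congrArg (XX x).mulVec h1
    rwa [Matrix.mulVec_mulVec, XX_sq, Matrix.smul_mulVec, Matrix.one_mulVec,
      Matrix.mulVec_smul] at this
  have h3 : Dop A x = (((‖x‖ ^ 2 : ℝ) : ℂ))⁻¹ • ((-lam) • (XX x).mulVec (A x)) := by
    rw [← h2, smul_smul, inv_mul_cancel₀, one_smul]
    push_cast
    exact pow_ne_zero _ hn
  rw [h3]
  unfold Xh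
  rw [smul_smul, smul_smul]
  have e : (((‖x‖ ^ 2 : ℝ) : ℂ))⁻¹ * (-lam) = -(lam / (‖x‖ : ℝ)) * ((‖x‖⁻¹ : ℝ) : ℂ) := by
    push_cast
    field_simp
  rw [e]

theorem ca_C1 {G G' : ℝ → ℝ} (hd : ∀ r, 0 < r → HasDerivAt G (G' r) r)
    (hc : ContinuousOn G' (Ioi 0)) : ContDiffOn ℝ 1 G (Ioi 0) := by
  have := (contDiffOn_succ_iff_deriv_of_isOpen (𝕜 := ℝ) (n := 0) (f := G)
    (isOpen_Ioi (a := (0 : ℝ)))).2
    ⟨fun r hr => (hd r hr).differentiableAt.differentiableWithinAt, by simp,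
      contDiffOn_zero.2 (hc.congr fun r hr => (hd r hr).deriv)⟩
  simpa using this

theorem ca_rad {G : ℝ → ℝ} (hG : ContDiffOn ℝ 1 G (Ioi 0)) :
    ContDiffOn ℝ 1 (fun x : E3 => ((G ‖x‖ / ‖x‖ : ℝ) : ℂ)) {0}ᶜ := by
  have hn : ContDiffOn ℝ 1 (fun x : E3 => ‖x‖) {0}ᶜ :=
    fun x hx => (contDiffAt_norm ℝ hx).contDiffWithinAt
  have h1 : ContDiffOn ℝ 1 (fun x : E3 => G ‖x‖) {0}ᶜ :=
    hG.comp hn fun x hx => norm_pos_iff.2 hx
  have h2 : ContDiffOn ℝ 1 (fun x : E3 => G ‖x‖ / ‖x‖) {0}ᶜ :=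
    h1.div hn fun x hx => norm_ne_zero_iff.2 hx
  exact Complex.ofRealCLM.contDiff.comp_contDiffOn h2

theorem ca_meas {h : E3 → ℂ} (hh : ContinuousOn h {0}ᶜ) : AEStronglyMeasurable h volume := by
  have := hh.aestronglyMeasurable (μ := volume) (measurableSet_singleton (0 : E3)).compl
  rwa [MeasureTheory.restrict_compl_singleton] at this

theorem ca_dot_cont {f g : E3 → S2} (hf : ContinuousOn f {0}ᶜ) (hg : ContinuousOn g {0}ᶜ) :
    ContinuousOn (fun x => dot2 (f x) (g x)) {0}ᶜ := by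
  unfold dot2
  refine continuousOn_finsetSum _ fun a _ => ?_
  exact (Complex.continuous_conj.comp_continuousOn (continuousOn_pi.1 hf a)).mul
    (continuousOn_pi.1 hg a)

theorem ca_scale_cont {ψ : E3 → Fin 4 → ℂ} (hψ : ContinuousOn ψ {0}ᶜ) {r : ℝ} (hr : 0 < r) :
    ContinuousOn (fun x : E3 => up (ψ (r • x))) {0}ᶜ ∧
      ContinuousOn (fun x : E3 => lo (ψ (r • x))) {0}ᶜ := by
  have h1 : ContinuousOn (fun x : E3 => ψ (r • x)) {0}ᶜ :=
    hψ.comp (continuous_const_smul r).continuousOn fun x hx => smul_ne_zero hr.ne' hx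
  constructor
  · refine continuousOn_pi.2 fun a => ?_
    fin_cases a
    · exact continuousOn_pi.1 h1 0
    · exact continuousOn_pi.1 h1 1
  · refine continuousOn_pi.2 fun a => ?_
    fin_cases a
    · exact continuousOn_pi.1 h1 2
    · exact continuousOn_pi.1 h1 3

theorem ca_nsq_nonneg (v : Fin 4 → ℂ) : 0 ≤ nsq v :=
  Finset.sum_nonneg fun _ _ => sq_nonneg _

theorem ca_nsq_cont {ψ : E3 → Fin 4 → ℂ} (hψ : ContinuousOn ψ {0}ᶜ) :
    ContinuousOn (fun x => nsq (ψ x)) {0}ᶜ := by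
  unfold nsq
  exact continuousOn_finsetSum _ fun a _ => ((continuousOn_pi.1 hψ a).norm).pow 2

theorem Phi_nsq (G F : ℝ → ℝ) (A : E3 → S2) {x : E3} (hx : x ≠ 0) :
    nsq (Phi G F A x) = (G ‖x‖ ^ 2 + F ‖x‖ ^ 2) / ‖x‖ ^ 2 * nsq2 (A x) := by
  unfold Phi
  rw [nsq_eq, up_join, lo_join, ca_nsq2_smul, ca_nsq2_smul, Xh_nsq A hx, norm_mul, norm_neg,
    Complex.norm_I, one_mul, Complex.norm_real, Complex.norm_real, Real.norm_eq_abs,
    Real.norm_eq_abs, sq_abs, sq_abs]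
  ring

theorem Phi_eigen (h : Ang Ω) {κ : ℤ} (i : Fin (2 * κ.natAbs))
    (hr : IsRadialEigenfunction γ κ E G F) : InEigenspace γ E (Phi G F (Ω κ i)) := by
  have hA := h.smooth κ i
  have hB := Xh_smooth hA
  have hdiv : ∀ c : ℝ, ContinuousOn (fun r : ℝ => c / r) (Ioi 0) := fun c =>
    continuousOn_const.div continuousOn_id fun r hr => ne_of_gt hr
  have hG : ContDiffOn ℝ 1 G (Ioi 0) := ca_C1 hr.upper
    (((hdiv κ).neg.mul hr.contG).add ((continuousOn_const.add (hdiv γ)).mul hr.contF))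
  have hF : ContDiffOn ℝ 1 F (Ioi 0) := ca_C1 hr.lower
    (((hdiv κ).mul hr.contF).sub ((continuousOn_const.add (hdiv γ)).mul hr.contG))
  have hU : ContDiffOn ℝ 1 (fun x : E3 => ((G ‖x‖ / ‖x‖ : ℝ) : ℂ) • Ω κ i x) {0}ᶜ :=
    (ca_rad hG).smul hA
  have hL : ContDiffOn ℝ 1 (fun x : E3 => (-I * (F ‖x‖ / ‖x‖ : ℝ)) • Xh (Ω κ i) x) {0}ᶜ :=
    (contDiffOn_const.mul (ca_rad hF)).smul hB
  have hsm : ContDiffOn ℝ 1 (Phi G F (Ω κ i)) {0}ᶜ := by
    refine contDiffOn_pi.2 fun a => ?_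
    fin_cases a
    · exact contDiffOn_pi.1 hU 0
    · exact contDiffOn_pi.1 hU 1
    · exact contDiffOn_pi.1 hL 0
    · exact contDiffOn_pi.1 hL 1
  have hsph : ∀ r : ℝ, 0 < r → ∀ c : ℝ, (sI fun x => ((nsq (Phi G F (Ω κ i) (r • x)) * c : ℝ) : ℂ))
      = (((G r ^ 2 + F r ^ 2) / r ^ 2 * c : ℝ) : ℂ) := by
    intro r h0 c
    have e1 : (sI fun x => ((nsq (Phi G F (Ω κ i) (r • x)) * c : ℝ) : ℂ))
        = sI fun x => (((G r ^ 2 + F r ^ 2) / r ^ 2 * c : ℝ) : ℂ) * dot2 (Ω κ i x) (Ω κ i x) := by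
      refine sI_congr fun x hx => ?_
      have hx0 : r • x ≠ 0 := by
        rw [← norm_ne_zero_iff, ca_norm_smul h0 hx]; exact h0.ne'
      rw [Phi_nsq G F _ hx0, ca_norm_smul h0 hx, h.scale κ i r x h0, dot2_self]
      push_cast
      ring
    have e2 := h.norm κ i i
    rw [if_pos rfl] at e2
    unfold sip at e2
    rw [e1, ca_sI_mul, e2, mul_one]
  refine ⟨hsm, fun x hx => ?_, ?_, ?_⟩
  · have h0 : 0 < ‖x‖ := norm_pos_iff.2 hx
    have hn : ((‖x‖ : ℝ) : ℂ) ≠ 0 := Complex.ofReal_ne_zero.2 h0.ne'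
    have dA := ca_diff hA hx
    have dB := ca_diff hB hx
    have eA := ca_Dop hx dA (fun r h1 => h.scale κ i r x h1) (h.eig κ i x hx)
    have gB : Gam (Xh (Ω κ i)) x = ((κ : ℂ) - 1) • Xh (Ω κ i) x := by
      rw [Gam_Xh hx dA]
      have e : Xh (Gam (Ω κ i)) x = (-(κ : ℂ) - 1) • Xh (Ω κ i) x := by
        unfold Xh
        rw [h.eig κ i x hx, Matrix.mulVec_smul, smul_comm]
      rw [e, ← neg_smul, ← sub_smul]
      have e' : (-2 : ℂ) - (-(κ : ℂ) - 1) = (κ : ℂ) - 1 := by ring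
      rw [e']
    have eB := ca_Dop hx dB (fun r h1 => ca_Xh_scale (h.scale κ i) r x h1) gB
    rw [Xh_Xh _ hx] at eB
    have dG := (((hr.upper _ h0).div (hasDerivAt_id ‖x‖) h0.ne').ofReal_comp)
    have dF := (((hr.lower _ h0).div (hasDerivAt_id ‖x‖) h0.ne').ofReal_comp).const_mul (-I)
    refine (eq_two (ca_diff hsm hx)).2 ⟨?_, ?_⟩
    · have e : (fun y => up (Phi G F (Ω κ i) y))
          = fun y => (fun r : ℝ => ((G r / r : ℝ) : ℂ)) ‖y‖ • Ω κ i y :=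
        funext fun y => up_join _ _
      rw [e, Dop_radial (g := fun r : ℝ => ((G r / r : ℝ) : ℂ)) hx dA dG, eA]
      unfold Phi
      rw [lo_join, smul_smul, smul_smul, ← add_smul]
      refine congrArg (fun c : ℂ => c • Xh (Ω κ i) x) ?_
      simp only [id]
      push_cast
      field_simp
      linear_combination (F ‖x‖ * (‖x‖ * E + ‖x‖ + γ) : ℂ) * I_sq
    · have e : (fun y => lo (Phi G F (Ω κ i) y))
          = fun y => (fun r : ℝ => -I * ((F r / r : ℝ) : ℂ)) ‖y‖ • Xh (Ω κ i) y :=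
        funext fun y => lo_join _ _
      rw [e, Dop_radial (g := fun r : ℝ => -I * ((F r / r : ℝ) : ℂ)) hx dB dF, eB, Xh_Xh _ hx]
      unfold Phi
      rw [up_join, smul_smul, smul_smul, ← add_smul]
      refine congrArg (fun c : ℂ => c • Ω κ i x) ?_
      simp only [id]
      push_cast
      field_simp
      ring
  · refine polar_int (ca_nsq_cont hsm.continuousOn) (fun x => ca_nsq_nonneg _) ?_
    refine IntegrableOn.congr_fun hr.intN (fun r h0 => ?_) measurableSet_Ioi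
    have h0' : (0 : ℝ) < r := h0
    have e := hsph r h0' 1
    simp only [mul_one] at e
    simp only [e, Complex.ofReal_re]
    field_simp
  · refine polar_int ((ca_nsq_cont hsm.continuousOn).div continuous_norm.continuousOn
      fun x hx => norm_ne_zero_iff.2 hx)
      (fun x => div_nonneg (ca_nsq_nonneg _) (norm_nonneg _)) ?_
    refine IntegrableOn.congr_fun hr.finite_potential (fun r h0 => ?_) measurableSet_Ioi
    have h0' : (0 : ℝ) < r := h0
    have e : (sI fun x => ((nsq (Phi G F (Ω κ i) (r • x)) / ‖r • x‖ : ℝ) : ℂ))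
        = sI fun x => ((nsq (Phi G F (Ω κ i) (r • x)) * r⁻¹ : ℝ) : ℂ) :=
      sI_congr fun x hx => by rw [ca_norm_smul h0' hx, div_eq_mul_inv]
    simp only [e, hsph r h0' r⁻¹, Complex.ofReal_re]
    field_simp

theorem ip_int {E' : ℝ} {φ : E3 → Fin 4 → ℂ} (hφ : InEigenspace γ E' φ) (hψ : InEigenspace γ E ψ) :
    Integrable fun x => ∑ a, (starRingEnd ℂ) (φ x a) * ψ x a := by
  refine Integrable.mono' (hφ.square_integrable.add hψ.square_integrable) (ca_meas ?_)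
    (Filter.Eventually.of_forall fun x => ?_)
  · refine continuousOn_finsetSum _ fun a _ => ?_
    exact (Complex.continuous_conj.comp_continuousOn
      (continuousOn_pi.1 hφ.smooth.continuousOn a)).mul
      (continuousOn_pi.1 hψ.smooth.continuousOn a)
  · refine (norm_sum_le _ _).trans ?_
    simp only [Pi.add_apply, nsq, ← Finset.sum_add_distrib]
    refine Finset.sum_le_sum fun a _ => ?_
    rw [norm_mul, Complex.norm_conj]
    nlinarith [sq_nonneg (‖φ x a‖ - ‖ψ x a‖), norm_nonneg (φ x a), norm_nonneg (ψ x a)]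

/-- the scalar product with a channel function -/
theorem ip_Phi (h : Ang Ω) {κ : ℤ} (i : Fin (2 * κ.natAbs)) {E' : ℝ}
    (hr : IsRadialEigenfunction γ κ E' G F) (hψ : InEigenspace γ E ψ) :
    ip (Phi G F (Ω κ i)) ψ
      = ∫ r in Ioi (0 : ℝ), (G r * cU (Ω κ i) ψ r + F r * cD (Ω κ i) ψ r) := by
  have hA := (h.smooth κ i).continuousOn
  have hB := (Xh_smooth (h.smooth κ i)).continuousOn
  unfold ip
  rw [(polar (ip_int (Phi_eigen h i hr) hψ)).2]
  refine setIntegral_congr_fun measurableSet_Ioi fun r h0 => ?_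
  have h0' : (0 : ℝ) < r := h0
  have hn : (r : ℂ) ≠ 0 := Complex.ofReal_ne_zero.2 h0'.ne'
  obtain ⟨cu, cl⟩ := ca_scale_cont hψ.smooth.continuousOn h0'
  have e : (sI fun x => ∑ a, (starRingEnd ℂ) (Phi G F (Ω κ i) (r • x) a) * ψ (r • x) a)
      = sI fun x => ((G r / r : ℝ) : ℂ) * dot2 (Ω κ i x) (up (ψ (r • x)))
        + (I * (F r / r : ℝ)) * dot2 (Xh (Ω κ i) x) (lo (ψ (r • x))) := by
    refine sI_congr fun x hx => ?_
    rw [dot4_eq]
    unfold Phi
    rw [up_join, lo_join, ca_dot2_left, ca_dot2_left, ca_norm_smul h0' hx, h.scale κ i r x h0',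
      ca_Xh_scale (h.scale κ i) r x h0', map_mul, map_neg, Complex.conj_I, neg_neg,
      Complex.conj_ofReal, Complex.conj_ofReal]
  show (r : ℂ) ^ 2 * (sI fun x => ∑ a, (starRingEnd ℂ) (Phi G F (Ω κ i) (r • x) a) * ψ (r • x) a)
    = G r * cU (Ω κ i) ψ r + F r * cD (Ω κ i) ψ r
  have c1 : ContinuousOn (fun x => ((G r / r : ℝ) : ℂ) * dot2 (Ω κ i x) (up (ψ (r • x)))) {0}ᶜ :=
    continuousOn_const.mul (ca_dot_cont hA cu)
  have c2 : ContinuousOn
      (fun x => (I * (F r / r : ℝ)) * dot2 (Xh (Ω κ i) x) (lo (ψ (r • x)))) {0}ᶜ :=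
    continuousOn_const.mul (ca_dot_cont hB cl)
  rw [e, ca_sI_add c1 c2, ca_sI_mul, ca_sI_mul]
  unfold cU cD sip
  push_cast
  field_simp

theorem cU_Phi (h : Ang Ω) {κ κ' : ℤ} (i : Fin (2 * κ.natAbs)) (j : Fin (2 * κ'.natAbs))
    (G F : ℝ → ℝ) {r : ℝ} (hr : 0 < r) :
    cU (Ω κ i) (Phi G F (Ω κ' j)) r = G r * sip (Ω κ i) (Ω κ' j) ∧
    cD (Ω κ i) (Phi G F (Ω κ' j)) r = F r * sip (Ω κ i) (Ω κ' j) := by
  have hn : (r : ℂ) ≠ 0 := Complex.ofReal_ne_zero.2 hr.ne'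
  constructor
  · have e : (sip (Ω κ i) fun x => up (Phi G F (Ω κ' j) (r • x)))
        = sI fun x => ((G r / r : ℝ) : ℂ) * dot2 (Ω κ i x) (Ω κ' j x) := by
      refine sI_congr fun x hx => ?_
      unfold Phi
      beta_reduce
      rw [up_join, ca_dot2_right, ca_norm_smul hr hx, h.scale κ' j r x hr]
    unfold cU
    rw [e, ca_sI_mul]
    unfold sip
    push_cast
    field_simp
  · have e : (sip (Xh (Ω κ i)) fun x => lo (Phi G F (Ω κ' j) (r • x)))
        = sI fun x => (-I * (F r / r : ℝ)) * dot2 (Xh (Ω κ i) x) (Xh (Ω κ' j) x) := by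
      refine sI_congr fun x hx => ?_
      unfold Phi
      beta_reduce
      rw [lo_join, ca_dot2_right, ca_norm_smul hr hx, ca_Xh_scale (h.scale κ' j) r x hr]
    have e2 := sip_Xh_Xh (Ω κ i) (Ω κ' j)
    unfold cD
    rw [e, ca_sI_mul, ← e2]
    unfold sip
    push_cast
    field_simp
    linear_combination (-(F r : ℂ) * sI fun x => dot2 (Xh (Ω κ i) x) (Xh (Ω κ' j) x)) * I_sq

theorem cb_dot_smul (c : ℂ) (u v : S2) : dot2 u (c • v) = c * dot2 u v := by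
  simp only [dot2, Fin.sum_univ_two, Pi.smul_apply, smul_eq_mul]
  ring

theorem cb_smul_dot (c : ℝ) (u v : S2) : dot2 ((c : ℂ) • u) v = c * dot2 u v := by
  simp only [dot2, Fin.sum_univ_two, Pi.smul_apply, smul_eq_mul, map_mul, conj_ofReal]
  ring

theorem cb_dot_sub (u v w : S2) : dot2 u (v - w) = dot2 u v - dot2 u w := by
  simp only [dot2, Fin.sum_univ_two, Pi.sub_apply]
  ring

theorem cb_dot_smooth {A u : E3 → S2} (hA : ContDiffOn ℝ 1 A {0}ᶜ) (hu : ContDiffOn ℝ 1 u {0}ᶜ) :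
    ContDiffOn ℝ 1 (fun y => dot2 (A y) (u y)) {0}ᶜ :=
  ContDiffOn.sum fun a _ => (Complex.conjCLE.contDiff.comp_contDiffOn
    (contDiffOn_pi.1 hA a)).mul (contDiffOn_pi.1 hu a)

theorem cb_dot_cont {A u : E3 → S2} (hA : ContinuousOn A {0}ᶜ) (hu : ContinuousOn u {0}ᶜ) :
    ContinuousOn (fun y => dot2 (A y) (u y)) {0}ᶜ :=
  continuousOn_finsetSum _ fun a _ => (Complex.continuous_conj.comp_continuousOn
    (continuousOn_pi.1 hA a)).mul (continuousOn_pi.1 hu a)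

theorem cb_maps {r : ℝ} (hr : 0 < r) : MapsTo (fun x : E3 => r • x) {0}ᶜ {0}ᶜ :=
  fun _ hx => smul_ne_zero hr.ne' hx

theorem cb_scale_cont {β : Type} [TopologicalSpace β] {u : E3 → β} (hu : ContinuousOn u {0}ᶜ)
    {r : ℝ} (hr : 0 < r) : ContinuousOn (fun x => u (r • x)) {0}ᶜ :=
  hu.comp (continuous_const_smul r).continuousOn (cb_maps hr)

theorem cb_at {β : Type} [NormedAddCommGroup β] [NormedSpace ℝ β] {u : E3 → β}
    (hu : ContDiffOn ℝ 1 u {0}ᶜ) {x : E3} (hx : x ≠ 0) : DifferentiableAt ℝ u x :=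
  (hu.contDiffAt (isOpen_compl_singleton.mem_nhds hx)).differentiableAt one_ne_zero

theorem cb_ne {x : E3} (hx : ‖x‖ = 1) : x ≠ 0 := by
  rintro rfl
  simp at hx

theorem cb_up (hψ : ContDiffOn ℝ 1 ψ {0}ᶜ) : ContDiffOn ℝ 1 (fun y => up (ψ y)) {0}ᶜ := by
  refine contDiffOn_pi.2 fun a => ?_
  fin_cases a
  exacts [contDiffOn_pi.1 hψ 0, contDiffOn_pi.1 hψ 1]

theorem cb_lo (hψ : ContDiffOn ℝ 1 ψ {0}ᶜ) : ContDiffOn ℝ 1 (fun y => lo (ψ y)) {0}ᶜ := by
  refine contDiffOn_pi.2 fun a => ?_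
  fin_cases a
  exacts [contDiffOn_pi.1 hψ 2, contDiffOn_pi.1 hψ 3]

theorem cb_sI_mul (c : ℂ) (h : E3 → ℂ) : sI (fun x => c * h x) = c * sI h :=
  integral_const_mul _ _

theorem cb_gam {u : E3 → S2} {r : ℝ} {x : E3} (hu : DifferentiableAt ℝ u (r • x)) :
    Gam (fun y => u (r • y)) x
      = (r : ℂ) • (fderiv ℝ u (r • x) x - (XX x).mulVec (Dop u (r • x))) := by
  have e : ∀ v, fderiv ℝ (fun y => u (r • y)) x v = (r : ℂ) • fderiv ℝ u (r • x) v := fun v => by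
    have d : HasFDerivAt (fun y => u (r • y)) _ x :=
      HasFDerivAt.comp (f := fun y : E3 => r • y) x hu.hasFDerivAt
        ((hasFDerivAt_id x).const_smul r)
    rw [d.fderiv]
    simp
  simp only [Gam, Dop, e, Matrix.mulVec_smul, ← Finset.smul_sum, smul_sub]

theorem cb_deriv {A u w : E3 → S2} {lam r : ℝ} {c : ℂ} (hr : 0 < r)
    (hA : ContDiffOn ℝ 1 A {0}ᶜ) (hs : ∀ (t : ℝ) x, 0 < t → A (t • x) = A x)
    (he : ∀ x, x ≠ 0 → Gam A x = (lam : ℂ) • A x) (hu : ContDiffOn ℝ 1 u {0}ᶜ)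
    (hw : ContinuousOn w {0}ᶜ) (hD : ∀ x, ‖x‖ = 1 → Dop u (r • x) = c • w (r • x)) :
    HasDerivAt (fun t : ℝ => sip A fun x => u (t • x))
      (lam / r * (sip A fun x => u (r • x)) + c * sip (Xh A) fun x => w (r • x)) r := by
  have hh := cb_dot_smooth hA hu
  have e1 : ∀ x, x ≠ 0 → fderiv ℝ (fun y => dot2 (A y) (u y)) (r • x) x
      = dot2 (A x) (fderiv ℝ u (r • x) x) := fun x hx => by
    have l : HasDerivAt (fun t : ℝ => t • x) x r := by simpa using (hasDerivAt_id r).smul_const x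
    have d1 := (cb_at hh (cb_maps hr hx)).hasFDerivAt.comp_hasDerivAt r l
    have d2 := (cb_at hu (cb_maps hr hx)).hasFDerivAt.comp_hasDerivAt r l
    have d3 : HasDerivAt (fun t : ℝ => dot2 (A x) (u (t • x)))
        (dot2 (A x) (fderiv ℝ u (r • x) x)) r :=
      HasDerivAt.fun_sum fun a _ => (hasDerivAt_pi.1 d2 a).const_mul _
    refine d1.unique (d3.congr_of_eventuallyEq ?_)
    filter_upwards [lt_mem_nhds hr] with t ht
    simp only [Function.comp, hs t x ht]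
  have c1 : ContinuousOn (fun x : E3 => fderiv ℝ (fun y => dot2 (A y) (u y)) (r • x) x) {0}ᶜ :=
    (cb_scale_cont (hh.continuousOn_fderiv_of_isOpen isOpen_compl_singleton le_rfl) hr).clm_apply
      continuousOn_id
  have c2 := cb_dot_cont (Xh_smooth hA).continuousOn (cb_scale_cont hw hr)
  have e2 : (lam : ℂ) * (sip A fun x => u (r • x))
      = r * ((sI fun x => fderiv ℝ (fun y => dot2 (A y) (u y)) (r • x) x)
        - c * sip (Xh A) fun x => w (r • x)) := by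
    have a1 : sip (Gam A) (fun x => u (r • x)) = lam * sip A fun x => u (r • x) := by
      rw [sip, sip, ← cb_sI_mul]
      exact sI_congr fun x hx => by rw [he x (cb_ne hx), cb_smul_dot]
    have a0 : ContDiffOn ℝ 1 (fun x => u (r • x)) {0}ᶜ :=
      hu.comp (contDiff_const_smul r).contDiffOn (cb_maps hr)
    rw [← a1, sip_Gam hA a0, sip, sip,
      ← cb_sI_mul c, sI, sI, sI, ← integral_sub (sI_int c1) ((sI_int c2).const_mul c),
      ← integral_const_mul]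
    refine sI_congr (h := fun x => dot2 (A x) (Gam (fun y => u (r • y)) x))
      (k := fun x => r * (fderiv ℝ (fun y => dot2 (A y) (u y)) (r • x) x
        - c * dot2 (Xh A x) (w (r • x)))) fun x hx => ?_
    rw [cb_gam (cb_at hu (cb_maps hr (cb_ne hx))), e1 x (cb_ne hx), hD x hx, cb_dot_smul,
      cb_dot_sub, ← XX_symm, cb_dot_smul, Xh, hx]
    simp
  refine ((sI_deriv hh hr).congr_of_eventuallyEq ?_).congr_deriv ?_
  · filter_upwards [lt_mem_nhds hr] with t ht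
    simp only [sip, hs t _ ht]
  · have : (r : ℂ) ≠ 0 := by exact_mod_cast hr.ne'
    rw [div_mul_eq_mul_div, e2]
    field_simp
    ring

/-- the radial system for the coefficients -/
theorem coef_deriv (h : Ang Ω) {κ : ℤ} (i : Fin (2 * κ.natAbs)) (hψ : InEigenspace γ E ψ) {r : ℝ}
    (hr : 0 < r) :
    HasDerivAt (cU (Ω κ i) ψ) (-(κ / r) * cU (Ω κ i) ψ r + (E + 1 + γ / r) * cD (Ω κ i) ψ r) r ∧
    HasDerivAt (cD (Ω κ i) ψ) (κ / r * cD (Ω κ i) ψ r - (E - 1 + γ / r) * cU (Ω κ i) ψ r) r := by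
  have hA := h.smooth κ i
  have n1 : ∀ x : E3, ‖x‖ = 1 → ‖r • x‖ = r := fun x hx => by
    rw [norm_smul, hx, mul_one, Real.norm_eq_abs, abs_of_pos hr]
  have e := fun (x : E3) (hx : ‖x‖ = 1) => (eq_two (cb_at hψ.smooth (cb_maps hr (cb_ne hx)))).1
    (hψ.equation _ (cb_maps hr (cb_ne hx)))
  have d1 := cb_deriv (lam := -κ - 1) (c := I * (E + 1 + γ / r : ℝ)) hr hA (h.scale κ i)
    (fun x hx => by rw [h.eig κ i x hx]; push_cast; rfl) (cb_up hψ.smooth)
    (cb_lo hψ.smooth).continuousOn (fun x hx => by rw [(e x hx).1, n1 x hx])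
  have d2 := cb_deriv (lam := κ - 1) (c := I * (E - 1 + γ / r : ℝ)) hr (Xh_smooth hA)
    (fun t x ht => by
      have : (t : ℂ) ≠ 0 := by exact_mod_cast ht.ne'
      rw [Xh, Xh, h.scale κ i t x ht, XX_smul, norm_smul, Real.norm_eq_abs, abs_of_pos ht,
        Matrix.smul_mulVec, smul_smul]
      congr 1
      push_cast
      rw [mul_inv, mul_right_comm, inv_mul_cancel₀ this, one_mul])
    (fun x hx => by
      have a1 : Xh (Gam (Ω κ i)) x = (-(κ : ℂ) - 1) • Xh (Ω κ i) x := by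
        rw [Xh, Xh, h.eig κ i x hx, Matrix.mulVec_smul, smul_comm]
      rw [Gam_Xh hx (cb_at hA hx), a1]
      push_cast
      module) (cb_lo hψ.smooth)
    (cb_up hψ.smooth).continuousOn (fun x hx => by rw [(e x hx).2, n1 x hx])
  have a2 : (sip (Xh (Xh (Ω κ i))) fun x => up (ψ (r • x)))
      = sip (Ω κ i) fun x => up (ψ (r • x)) :=
    sI_congr fun x hx => by rw [Xh_Xh _ (cb_ne hx)]
  rw [a2] at d2
  have l : HasDerivAt (fun t : ℝ => (t : ℂ)) 1 r := ofRealCLM.hasDerivAt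
  have : (r : ℂ) ≠ 0 := by exact_mod_cast hr.ne'
  refine ⟨(l.fun_mul d1).congr_deriv ?_, ((l.const_mul I).fun_mul d2).congr_deriv ?_⟩
  · rw [cU, cD]
    push_cast
    field_simp
    ring
  · rw [cU, cD]
    push_cast
    field_simp
    linear_combination ((E * r - r + γ) * sip (Ω κ i) fun x => up (ψ (r • x))) * I_sq

theorem coef_int (h : Ang Ω) {κ : ℤ} (i : Fin (2 * κ.natAbs)) (hψ : InEigenspace γ E ψ) :
    IntegrableOn (fun r => ‖cU (Ω κ i) ψ r‖ ^ 2 + ‖cD (Ω κ i) ψ r‖ ^ 2) (Ioi 0) ∧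
    IntegrableOn (fun r => (‖cU (Ω κ i) ψ r‖ ^ 2 + ‖cD (Ω κ i) ψ r‖ ^ 2) / r) (Ioi 0) := by
  have hA := (h.smooth κ i).continuousOn
  have cc : ContinuousOn (fun r => ‖cU (Ω κ i) ψ r‖ ^ 2 + ‖cD (Ω κ i) ψ r‖ ^ 2) (Ioi 0) :=
    fun r hr => (((coef_deriv h i hψ hr).1.continuousAt.norm.pow 2).add
      ((coef_deriv h i hψ hr).2.continuousAt.norm.pow 2)).continuousWithinAt
  have b : ∀ r : ℝ, 0 < r → ‖cU (Ω κ i) ψ r‖ ^ 2 + ‖cD (Ω κ i) ψ r‖ ^ 2
      ≤ ‖(r : ℂ) ^ 2 * sI fun x => (nsq (ψ (r • x)) : ℂ)‖ := fun r hr => by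
    have u1 := cb_scale_cont (cb_up hψ.smooth).continuousOn hr
    have u2 := cb_scale_cont (cb_lo hψ.smooth).continuousOn hr
    have b1 := sip_le hA u1
    have b2 := sip_le (Xh_smooth (h.smooth κ i)).continuousOn u2
    rw [sip_Xh_Xh] at b2
    rw [h.norm κ i i, if_pos rfl, one_re, one_mul] at b1 b2
    have e : (sI fun x => (nsq (ψ (r • x)) : ℂ))
        = (sip (fun x => up (ψ (r • x))) fun x => up (ψ (r • x)))
          + sip (fun x => lo (ψ (r • x))) fun x => lo (ψ (r • x)) := by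
      rw [sip, sip, sI, sI, sI, ← integral_add (sI_int (cb_dot_cont u1 u1))
        (sI_int (cb_dot_cont u2 u2))]
      simp only [dot2_self, nsq_eq, ofReal_add]
    have b3 := re_le_norm (sI fun x => (nsq (ψ (r • x)) : ℂ))
    rw [cU, cD, norm_mul, norm_mul, norm_mul, norm_mul, norm_I, one_mul, norm_pow, mul_pow,
      mul_pow, ← mul_add]
    refine mul_le_mul_of_nonneg_left (le_trans ?_ b3) (sq_nonneg _)
    rw [e, add_re]
    exact add_le_add b1 b2
  refine ⟨Integrable.mono' (polar hψ.square_integrable.ofReal).1.norm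
    (cc.aestronglyMeasurable measurableSet_Ioi) ?_,
    Integrable.mono' (polar hψ.finite_potential.ofReal).1.norm
    ((cc.div continuousOn_id fun r hr => ne_of_gt hr).aestronglyMeasurable measurableSet_Ioi) ?_⟩
  · filter_upwards [ae_restrict_mem measurableSet_Ioi] with r hr
    rw [Real.norm_eq_abs, abs_of_nonneg (by positivity)]
    exact b r hr
  · filter_upwards [ae_restrict_mem measurableSet_Ioi] with r hr
    have r0 : (0 : ℝ) < r := hr
    have e : (sI fun x => ((nsq (ψ (r • x)) / ‖r • x‖ : ℝ) : ℂ))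
        = (r⁻¹ : ℝ) * sI fun x => (nsq (ψ (r • x)) : ℂ) := by
      rw [← cb_sI_mul]
      refine sI_congr fun x hx => ?_
      rw [norm_smul, hx, mul_one, Real.norm_eq_abs, abs_of_pos r0]
      push_cast
      ring
    rw [Real.norm_eq_abs, abs_of_nonneg (by positivity)]
    refine (div_le_div_of_nonneg_right (b r hr) r0.le).trans (le_of_eq ?_)
    refine Eq.trans ?_ (congrArg (fun z => ‖(r : ℂ) ^ 2 * z‖) e).symm
    rw [mul_left_comm, norm_mul ((r⁻¹ : ℝ) : ℂ), norm_real, Real.norm_eq_abs,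
      abs_of_pos (inv_pos.2 r0)]
    ring

theorem cb_prop {κ : ℝ} (h : IsRadialEigenfunction γ κ E G F)
    (h' : IsRadialEigenfunction γ κ E G' F') :
    ∃ c : ℝ, ∀ r, 0 < r → G' r = c * G r ∧ F' r = c * F r := by
  obtain ⟨a, ha, hne⟩ := h.exists_ne
  have w1 := nonneg_of_deriv (R := a) (h.wronskian h') (fun r _ => by simp) (h.wr_int h') a
    ⟨ha, le_rfl⟩
  have w2 := nonneg_of_deriv (R := a) (h'.wronskian h) (fun r _ => by simp) (h'.wr_int h) a
    ⟨ha, le_rfl⟩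
  have w : G a * F' a - F a * G' a = 0 := by linarith
  set c := (G a * G' a + F a * F' a) / (G a ^ 2 + F a ^ 2) with hc
  have hv := vanish (γ := γ) (κ := κ) (E := E) (G := fun r => G' r - c * G r)
    (F := fun r => F' r - c * F r)
    (fun r hr => ((h'.upper r hr).fun_sub ((h.upper r hr).const_mul c)).congr_deriv (by ring))
    (fun r hr => ((h'.lower r hr).fun_sub ((h.lower r hr).const_mul c)).congr_deriv (by ring))
    ha (by rw [hc]; field_simp; linear_combination (-F a) * w)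
    (by rw [hc]; field_simp; linear_combination (G a) * w)
  exact ⟨c, fun r hr => ⟨sub_eq_zero.1 (hv r hr).1, sub_eq_zero.1 (hv r hr).2⟩⟩

theorem cb_real {κ : ℝ} {a b : ℝ → ℂ} (L : ℂ →L[ℝ] ℝ) (hL : ∀ z, L z ^ 2 ≤ ‖z‖ ^ 2)
    (ha : ∀ r, 0 < r → HasDerivAt a (-(κ / r) * a r + (E + 1 + γ / r) * b r) r)
    (hb : ∀ r, 0 < r → HasDerivAt b (κ / r * b r - (E - 1 + γ / r) * a r) r)
    (i1 : IntegrableOn (fun r => ‖a r‖ ^ 2 + ‖b r‖ ^ 2) (Ioi 0))
    (i2 : IntegrableOn (fun r => (‖a r‖ ^ 2 + ‖b r‖ ^ 2) / r) (Ioi 0)) :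
    (∀ r, 0 < r → L (a r) = 0 ∧ L (b r) = 0) ∨ ∃ t : ℝ, t ≠ 0 ∧
      IsRadialEigenfunction γ κ E (fun r => t * L (a r)) (fun r => t * L (b r)) := by
  have m : ∀ (x : ℝ) (z : ℂ), L (x * z) = x * L z := fun x z => by
    rw [← real_smul, map_smul, smul_eq_mul]
  have da : ∀ r, 0 < r → HasDerivAt (fun r => L (a r))
      (-(κ / r) * L (a r) + (E + 1 + γ / r) * L (b r)) r := fun r hr =>
    (L.hasFDerivAt.comp_hasDerivAt r (ha r hr)).congr_deriv (by
      rw [← m, ← m, ← map_add]; push_cast; rfl)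
  have db : ∀ r, 0 < r → HasDerivAt (fun r => L (b r))
      (κ / r * L (b r) - (E - 1 + γ / r) * L (a r)) r := fun r hr =>
    (L.hasFDerivAt.comp_hasDerivAt r (hb r hr)).congr_deriv (by
      rw [← m, ← m, ← map_sub]; push_cast; rfl)
  have cc : ContinuousOn (fun r => L (a r) ^ 2 + L (b r) ^ 2) (Ioi 0) := fun r hr =>
    (((da r hr).continuousAt.pow 2).add ((db r hr).continuousAt.pow 2)).continuousWithinAt
  have j1 : IntegrableOn (fun r => L (a r) ^ 2 + L (b r) ^ 2) (Ioi 0) :=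
    Integrable.mono' i1 (cc.aestronglyMeasurable measurableSet_Ioi)
      (Filter.Eventually.of_forall fun r => by
        rw [Real.norm_eq_abs, abs_of_nonneg (by positivity)]
        exact add_le_add (hL _) (hL _))
  have j2 : IntegrableOn (fun r => (L (a r) ^ 2 + L (b r) ^ 2) / r) (Ioi 0) := by
    refine Integrable.mono' i2 ((cc.div continuousOn_id fun r hr =>
      ne_of_gt hr).aestronglyMeasurable measurableSet_Ioi) ?_
    filter_upwards [ae_restrict_mem measurableSet_Ioi] with r hr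
    have r0 : (0 : ℝ) < r := hr
    rw [Real.norm_eq_abs, abs_of_nonneg (by positivity)]
    exact div_le_div_of_nonneg_right (add_le_add (hL _) (hL _)) r0.le
  have n0 : 0 ≤ ∫ r in Ioi (0 : ℝ), (L (a r) ^ 2 + L (b r) ^ 2) :=
    integral_nonneg fun r => by positivity
  rcases n0.eq_or_lt with n | n
  · left
    have h1 := (setIntegral_eq_zero_iff_of_nonneg_ae
      (Filter.Eventually.of_forall fun r => by positivity) j1).1 n.symm
    have h2 : EqOn (fun r => L (a r) ^ 2 + L (b r) ^ 2) (fun _ => 0) (Ioi 0) :=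
      Measure.eqOn_open_of_ae_eq h1 isOpen_Ioi cc continuousOn_const
    intro r hr
    have h3 : L (a r) ^ 2 + L (b r) ^ 2 = 0 := h2 hr
    constructor <;> nlinarith [sq_nonneg (L (a r)), sq_nonneg (L (b r))]
  · right
    obtain ⟨t, t0, t2⟩ : ∃ t : ℝ, 0 < t ∧
        t ^ 2 = (∫ r in Ioi (0 : ℝ), (L (a r) ^ 2 + L (b r) ^ 2))⁻¹ :=
      ⟨√_, Real.sqrt_pos.2 (inv_pos.2 n), Real.sq_sqrt (inv_pos.2 n).le⟩
    refine ⟨t, t0.ne', fun r hr => ((da r hr).const_mul t).congr_deriv (by ring),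
      fun r hr => ((db r hr).const_mul t).congr_deriv (by ring),
      IntegrableOn.congr_fun (j2.const_mul (t ^ 2)) (fun r _ => by ring) measurableSet_Ioi, ?_⟩
    simp only [mul_pow, ← mul_add]
    rw [integral_const_mul, t2, inv_mul_cancel₀ n.ne']

/-- complex solutions of the radial system -/
theorem radial_complex {κ : ℝ} {a b : ℝ → ℂ}
    (ha : ∀ r, 0 < r → HasDerivAt a (-(κ / r) * a r + (E + 1 + γ / r) * b r) r)
    (hb : ∀ r, 0 < r → HasDerivAt b (κ / r * b r - (E - 1 + γ / r) * a r) r)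
    (i1 : IntegrableOn (fun r => ‖a r‖ ^ 2 + ‖b r‖ ^ 2) (Ioi 0))
    (i2 : IntegrableOn (fun r => (‖a r‖ ^ 2 + ‖b r‖ ^ 2) / r) (Ioi 0)) :
    ((¬ ∃ G F, IsRadialEigenfunction γ κ E G F) → ∀ r, 0 < r → a r = 0 ∧ b r = 0) ∧
    ∀ G F, IsRadialEigenfunction γ κ E G F → ∃ c : ℂ, ∀ r, 0 < r → a r = c * G r ∧ b r = c * F r := by
  have p1 := cb_real reCLM (fun z => by
    rw [← sq_abs]; exact pow_le_pow_left₀ (abs_nonneg _) (abs_re_le_norm z) 2) ha hb i1 i2
  have p2 := cb_real imCLM (fun z => by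
    rw [← sq_abs]; exact pow_le_pow_left₀ (abs_nonneg _) (abs_im_le_norm z) 2) ha hb i1 i2
  refine ⟨fun hn r hr => ?_, fun G F h => ?_⟩
  · have q1 := p1.resolve_right (fun ⟨_, _, h⟩ => hn ⟨_, _, h⟩) r hr
    have q2 := p2.resolve_right (fun ⟨_, _, h⟩ => hn ⟨_, _, h⟩) r hr
    exact ⟨Complex.ext q1.1 q2.1, Complex.ext q1.2 q2.2⟩
  · have key : ∀ L : ℂ →L[ℝ] ℝ, ((∀ r, 0 < r → L (a r) = 0 ∧ L (b r) = 0) ∨ ∃ t : ℝ, t ≠ 0 ∧
        IsRadialEigenfunction γ κ E (fun r => t * L (a r)) (fun r => t * L (b r))) →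
        ∃ c : ℝ, ∀ r, 0 < r → L (a r) = c * G r ∧ L (b r) = c * F r := by
      rintro L (h0 | ⟨t, t0, h'⟩)
      · exact ⟨0, fun r hr => by simpa using h0 r hr⟩
      · obtain ⟨c, hc⟩ := cb_prop h h'
        refine ⟨c / t, fun r hr => ⟨?_, ?_⟩⟩
        · rw [div_mul_eq_mul_div, eq_div_iff t0, ← (hc r hr).1, mul_comm]
        · rw [div_mul_eq_mul_div, eq_div_iff t0, ← (hc r hr).2, mul_comm]
    obtain ⟨c1, h1⟩ := key _ p1
    obtain ⟨c2, h2⟩ := key _ p2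
    refine ⟨⟨c1, c2⟩, fun r hr => ⟨Complex.ext ?_ ?_, Complex.ext ?_ ?_⟩⟩
    · simpa using (h1 r hr).1
    · simpa using (h2 r hr).1
    · simpa using (h1 r hr).2
    · simpa using (h2 r hr).2

/-- only finitely many channels carry a given eigenvalue -/
theorem chan_finite (h0 : 0 < γ) (h1 : γ < 1) (hE : 0 < E) (hE1 : E < 1) :
    {κ : ℤ | κ ≠ 0 ∧ ∃ G F, IsRadialEigenfunction γ κ E G F}.Finite := by
  have E1 : 0 < 1 - E ^ 2 := sub_pos.2 (pow_lt_one₀ hE.le hE1 two_ne_zero)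
  refine (Set.finite_Icc (-⌈1 / (1 - E ^ 2)⌉) ⌈1 / (1 - E ^ 2)⌉).subset ?_
  rintro κ ⟨hκ, G, F, h⟩
  have k1 : (1 : ℝ) ≤ |(κ : ℝ)| := by exact_mod_cast Int.one_le_abs hκ
  have c := chOf h0 (h1.trans_le k1)
  have hB : 0 ≤ E * |(κ : ℝ)| - sOf γ |(κ : ℝ)| := by
    rcases le_total 0 (κ : ℝ) with p | p
    · exact (c.plus_pos hE (G := G) (F := F) (by rwa [abs_of_nonneg p])).le
    · obtain ⟨x, y, -, -, hB, -⟩ := c.pair hE (G := G) (F := F)
        (by rwa [abs_of_nonpos p, neg_neg])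
      exact hB
  have a1 : sOf γ |(κ : ℝ)| ^ 2 ≤ (E * |(κ : ℝ)|) ^ 2 :=
    pow_le_pow_left₀ c.spos.le (by linarith) 2
  have a2 := c.sq_add
  have a3 : γ ^ 2 ≤ 1 := pow_le_one₀ h0.le h1.le
  have a4 : |(κ : ℝ)| ≤ 1 / (1 - E ^ 2) := by
    rw [le_div_iff₀ E1]
    nlinarith [mul_nonneg (mul_nonneg (sub_nonneg.2 k1) E1.le) (abs_nonneg (κ : ℝ))]
  have a5 : |κ| ≤ ⌈1 / (1 - E ^ 2)⌉ := by
    have := a4.trans (Int.le_ceil _)
    exact_mod_cast this
  exact abs_le.1 a5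

end Pool.Agent.Lib.MP_2347b2_mp.Dirac
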