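import Mathlib

/-!
Bound states of the Coulomb-Dirac operator in three dimensions.
-/

namespace Pool.Agent.Lib.MP_2347b2_mp.Dirac

open MeasureTheory Complex

/-- Dirac matrices `α₁, α₂, α₃` in the standard representation -/
def alpha : Fin 3 → Matrix (Fin 4) (Fin 4) ℂ :=
  ![!![0, 0, 0, 1; 0, 0, 1, 0; 0, 1, 0, 0; 1, 0, 0, 0],
    !![0, 0, 0, -I; 0, 0, I, 0; 0, -I, 0, 0; I, 0, 0, 0],
    !![0, 0, 1, 0; 0, 0, 0, -1; 1, 0, 0, 0; 0, -1, 0, 0]]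

/-- the Dirac matrix `β` -/
def beta : Matrix (Fin 4) (Fin 4) ℂ := !![1, 0, 0, 0; 0, 1, 0, 0; 0, 0, -1, 0; 0, 0, 0, -1]

/-- the squared spinor norm -/
noncomputable def nsq (v : Fin 4 → ℂ) : ℝ := ∑ a, ‖v a‖ ^ 2

/-- `ψ` lies in the eigenspace of the distinguished Coulomb-Dirac operator for the value `E` -/
structure InEigenspace (γ E : ℝ) (ψ : EuclideanSpace ℝ (Fin 3) → Fin 4 → ℂ) : Prop where
  smooth : ContDiffOn ℝ 1 ψ {0}ᶜ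
  equation : ∀ x, x ≠ 0 →
    ∑ j, (-I) • (alpha j).mulVec (fderiv ℝ ψ x (EuclideanSpace.single j 1))
      + beta.mulVec (ψ x) - ((γ / ‖x‖ : ℝ) : ℂ) • ψ x = (E : ℂ) • ψ x
  square_integrable : Integrable fun x => nsq (ψ x)
  finite_potential : Integrable fun x => nsq (ψ x) / ‖x‖

/-- the scalar product of `L²(ℝ³ : ℂ⁴)` -/
noncomputable def ip (φ ψ : EuclideanSpace ℝ (Fin 3) → Fin 4 → ℂ) : ℂ :=
  ∫ x, ∑ a, (starRingEnd ℂ) (φ x a) * ψ x a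

/-- `ψ` is an orthonormal basis of eigenfunctions for the eigenvalues in `(0, 1)` -/
structure IsBoundBasis (γ : ℝ) {ι : Type} (ψ : ι → EuclideanSpace ℝ (Fin 3) → Fin 4 → ℂ) :
    Prop where
  eigen : ∀ j, ∃ E : ℝ, 0 < E ∧ E < 1 ∧ InEigenspace γ E (ψ j)
  normalized : ∀ j, ip (ψ j) (ψ j) = 1
  orthogonal : ∀ i j, i ≠ j → ip (ψ i) (ψ j) = 0
  complete : ∀ (E : ℝ) (φ : EuclideanSpace ℝ (Fin 3) → Fin 4 → ℂ), 0 < E → E < 1 →
    InEigenspace γ E φ → (∀ j, ip (ψ j) φ = 0) → ∀ x, x ≠ 0 → φ x = 0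

end Pool.Agent.Lib.MP_2347b2_mp.Dirac
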