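import Pool.Agent.Lib.MP_2347b2_mp.F.T3Poly

namespace Pool.Agent.Lib.MP_2347b2_mp.Dirac

open MeasureTheory Complex Matrix Set

/-- monomial times a basis spinor -/
noncomputable def dimMon (d : Fin 3 →₀ ℕ) (s : Fin 2) : E3 → S2 :=
  fun x => (∏ j, (x j : ℂ) ^ d j) • (Pi.single s 1 : S2)

/-- multiplication by a coordinate -/
noncomputable def dimMul (j : Fin 3) : (E3 → S2) →ₗ[ℂ] (E3 → S2) where
  toFun g := fun x => (x j : ℂ) • g x
  map_add' f g := by funext x; simp [smul_add]
  map_smul' c f := by funext x; simp [smul_comm c]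

/-- evaluation of a pair of polynomials at real points -/
noncomputable def dimEv : (Fin 2 → MvPolynomial (Fin 3) ℂ) →ₗ[ℂ] (E3 → S2) where
  toFun p := fun x a => MvPolynomial.eval (fun j => (x j : ℂ)) (p a)
  map_add' p q := by funext x a; simp
  map_smul' c p := by funext x a; simp [MvPolynomial.smul_eval]

theorem dimEv_ker : LinearMap.ker dimEv = ⊥ := by
  rw [LinearMap.ker_eq_bot']
  intro p hp
  funext a
  refine MvPolynomial.funext_set (fun _ => Set.range (fun r : ℝ => (r : ℂ)))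
    (fun _ => Set.infinite_range_of_injective Complex.ofReal_injective) fun z hz => ?_
  choose r hr using fun j => hz j (mem_univ j)
  have h := congrFun (congrFun hp (WithLp.toLp 2 r)) a
  have e : z = fun j => ((r j : ℝ) : ℂ) := funext fun j => (hr j).symm
  rw [e]
  simpa [dimEv] using h

theorem dimMon_indep :
    LinearIndependent ℂ (fun i : (Σ _ : Fin 2, (Fin 3 →₀ ℕ)) => dimMon i.2 i.1) := by
  have h := (Pi.basis (fun _ : Fin 2 => MvPolynomial.basisMonomials (Fin 3) ℂ)).linearIndependent.map'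
    dimEv dimEv_ker
  have e : (fun i : (Σ _ : Fin 2, (Fin 3 →₀ ℕ)) => dimMon i.2 i.1)
      = dimEv ∘ (Pi.basis (fun _ : Fin 2 => MvPolynomial.basisMonomials (Fin 3) ℂ)) := by
    funext i x a
    obtain ⟨s, d⟩ := i
    simp only [Function.comp, Pi.basis_apply, dimEv, dimMon, LinearMap.coe_mk, AddHom.coe_mk,
      MvPolynomial.coe_basisMonomials, Pi.smul_apply, smul_eq_mul]
    by_cases has : a = s
    · subst has
      simp [MvPolynomial.eval_monomial, Finsupp.prod_fintype]
    · simp [has]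
  rw [e]; exact h

theorem dimMul_mon (j : Fin 3) (d : Fin 3 →₀ ℕ) (s : Fin 2) :
    dimMul j (dimMon d s) = dimMon (d + Finsupp.single j 1) s := by
  funext x
  have e : ∏ i, (x i : ℂ) ^ ((d + Finsupp.single j 1 : Fin 3 →₀ ℕ) i)
      = (x j : ℂ) * ∏ i, (x i : ℂ) ^ d i := by
    simp only [Finsupp.add_apply, pow_add, Finset.prod_mul_distrib]
    rw [mul_comm]
    congr 1
    rw [Finset.prod_eq_single j]
    · simp
    · intro i _ hi
      simp [Ne.symm hi]
    · simp
  simp only [dimMul, dimMon, LinearMap.coe_mk, AddHom.coe_mk, e, mul_smul]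

theorem dimMul_mem (j : Fin 3) {n : ℕ} {g : E3 → S2} (hg : g ∈ Hom n) :
    dimMul j g ∈ Hom (n + 1) :=
  Submodule.subset_span ⟨j, g, hg, rfl⟩

theorem dim_const_mem (v : S2) : (fun _ : E3 => v) ∈ Hom 0 :=
  Submodule.subset_span ⟨v, rfl⟩

theorem dimMon_mem (s : Fin 2) : ∀ (n : ℕ) (d : Fin 3 →₀ ℕ), ∑ j, d j = n → dimMon d s ∈ Hom n
  | 0, d, h => by
    have e : dimMon d s = fun _ => (Pi.single s 1 : S2) := by
      funext x
      have : ∀ j, d j = 0 := fun j => (Finset.sum_eq_zero_iff.1 h) j (Finset.mem_univ j)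
      simp [dimMon, this]
    rw [e]; exact dim_const_mem _
  | n + 1, d, h => by
    obtain ⟨j, hj⟩ : ∃ j, d j ≠ 0 := by
      by_contra hc
      push Not at hc
      simp [hc] at h
    have e : d = (d - Finsupp.single j 1) + Finsupp.single j 1 := by
      ext i
      by_cases hi : j = i
      · subst hi
        simp only [Finsupp.add_apply, Finsupp.tsub_apply, Finsupp.single_eq_same]
        omega
      · simp [hi]
    have hs : ∑ i, (d - Finsupp.single j 1 : Fin 3 →₀ ℕ) i = n := by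
      have h2 : ∑ i, d i = ∑ i, ((d - Finsupp.single j 1 : Fin 3 →₀ ℕ) i
          + (Finsupp.single j 1 : Fin 3 →₀ ℕ) i) :=
        Finset.sum_congr rfl fun i _ => by
          rw [← Finsupp.add_apply, ← e]
      have h3 : ∑ i, (Finsupp.single j 1 : Fin 3 →₀ ℕ) i = 1 := by
        simp [Finsupp.single_apply]
      rw [Finset.sum_add_distrib, h3] at h2
      omega
    rw [e, ← dimMul_mon]
    exact dimMul_mem j (dimMon_mem s n _ hs)

/-- the monomial family of degree `n` -/
noncomputable def dimFam (n : ℕ)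
    (i : Fin 2 × (Finset.finsuppAntidiag (Finset.univ : Finset (Fin 3)) n)) : E3 → S2 :=
  dimMon i.2.1 i.1

theorem dimFam_indep (n : ℕ) : LinearIndependent ℂ (dimFam n) := by
  refine dimMon_indep.comp
    (fun i : Fin 2 × (Finset.finsuppAntidiag (Finset.univ : Finset (Fin 3)) n) =>
      (⟨i.1, i.2.1⟩ : Σ _ : Fin 2, (Fin 3 →₀ ℕ))) ?_
  rintro ⟨a, d⟩ ⟨b, e⟩ h
  simp only [Sigma.mk.injEq, heq_eq_eq] at h
  exact Prod.ext h.1 (Subtype.ext h.2)

theorem dimFam_mem {n : ℕ} (s : Fin 2) {d : Fin 3 →₀ ℕ} (h : ∑ j, d j = n) :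
    dimMon d s ∈ Submodule.span ℂ (Set.range (dimFam n)) :=
  Submodule.subset_span ⟨(s, ⟨d, by simp [Finset.mem_finsuppAntidiag, h]⟩), rfl⟩

theorem dim_Hom_le : ∀ n : ℕ, Hom n ≤ Submodule.span ℂ (Set.range (dimFam n))
  | 0 => by
    refine Submodule.span_le.2 ?_
    rintro f ⟨v, rfl⟩
    have e : (fun _ : E3 => v) = ∑ s, v s • dimMon 0 s := by
      funext x a
      fin_cases a <;> simp [dimMon, Fin.sum_univ_two]
    rw [e]
    exact Submodule.sum_mem _ fun s _ => Submodule.smul_mem _ _ (dimFam_mem s (by simp))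
  | n + 1 => by
    refine Submodule.span_le.2 ?_
    rintro f ⟨j, g, hg, rfl⟩
    have h1 : (Submodule.span ℂ (Set.range (dimFam n))).map (dimMul j)
        ≤ Submodule.span ℂ (Set.range (dimFam (n + 1))) := by
      rw [Submodule.map_span]
      refine Submodule.span_le.2 ?_
      rintro _ ⟨_, ⟨⟨s, d, hd⟩, rfl⟩, rfl⟩
      have hd' : ∑ i, d i = n := (Finset.mem_finsuppAntidiag.1 hd).1
      have h3 : ∑ i, (Finsupp.single j 1 : Fin 3 →₀ ℕ) i = 1 := by
        simp [Finsupp.single_apply]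
      show dimMul j (dimMon d s) ∈ _
      rw [dimMul_mon]
      refine dimFam_mem s ?_
      simp only [Finsupp.add_apply, Finset.sum_add_distrib, hd', h3]
    exact h1 ⟨g, dim_Hom_le n hg, rfl⟩

theorem dim_Hom_eq (n : ℕ) : Hom n = Submodule.span ℂ (Set.range (dimFam n)) := by
  refine le_antisymm (dim_Hom_le n) (Submodule.span_le.2 ?_)
  rintro _ ⟨⟨s, d, hd⟩, rfl⟩
  exact dimMon_mem s n d (Finset.mem_finsuppAntidiag.1 hd).1

theorem Hom.finite (n : ℕ) : FiniteDimensional ℂ (Hom n) := by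
  rw [dim_Hom_eq]
  exact FiniteDimensional.span_of_finite ℂ (Set.finite_range _)

theorem Hom.finrank (n : ℕ) : Module.finrank ℂ (Hom n) = (n + 1) * (n + 2) := by
  rw [dim_Hom_eq, finrank_span_eq_card (dimFam_indep n), Fintype.card_prod, Fintype.card_coe,
    Finset.card_finsuppAntidiag_nat_eq_choose]
  have e : (Finset.univ : Finset (Fin 3)).card + n - 1 = n + 2 := by
    simp only [Finset.card_univ, Fintype.card_fin]; omega
  rw [e, Fintype.card_fin, Nat.choose_symm_add, Nat.choose_two_right]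
  have h2 : 2 ∣ (n + 2) * (n + 2 - 1) := (Nat.even_mul_pred_self (n + 2)).two_dvd
  rw [Nat.mul_div_cancel' h2]
  show (n + 2) * (n + 1) = _
  ring

theorem Mon_le (n : ℕ) : Mon n ≤ Hom n := fun _ hf => hf.1

theorem Mon.finite (n : ℕ) : FiniteDimensional ℂ (Mon n) := by
  have := Hom.finite n
  exact Submodule.finiteDimensional_of_le (Mon_le n)

/-- the Dirac operator between the spaces of homogeneous maps -/
noncomputable def dimDop (n : ℕ) : Hom (n + 1) →ₗ[ℂ] Hom n where
  toFun f := ⟨Dop f.1, Hom.dop f.2⟩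
  map_add' f g := Subtype.ext (Dop_add (Hom.smooth f.2) (Hom.smooth g.2))
  map_smul' c f := Subtype.ext (Dop_smul (Hom.smooth f.2) c)

theorem Mon.finrank (n : ℕ) : Module.finrank ℂ (Mon n) = 2 * (n + 1) := by
  cases n with
  | zero =>
    have e : Mon 0 = Hom 0 := le_antisymm (Mon_le 0) fun f hf => ⟨hf, Hom.dop_zero hf⟩
    rw [e, Hom.finrank]
  | succ n =>
    have := Hom.finite (n + 1)
    have h := LinearMap.finrank_range_add_finrank_ker (dimDop n)
    have hr : LinearMap.range (dimDop n) = ⊤ := by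
      rw [LinearMap.range_eq_top]
      intro g
      obtain ⟨f, hf, e⟩ := Dop_onto g.2
      exact ⟨⟨f, hf⟩, Subtype.ext e⟩
    have hk : LinearMap.ker (dimDop n) = (Mon (n + 1)).comap (Hom (n + 1)).subtype := by
      ext f
      rw [LinearMap.mem_ker, Submodule.mem_comap]
      exact ⟨fun h => ⟨f.2, congrArg Subtype.val h⟩, fun h => Subtype.ext h.2⟩
    rw [hr, hk, finrank_top, Hom.finrank, Hom.finrank,
      (Submodule.comapSubtypeEquivOfLe (Mon_le (n + 1))).finrank_eq] at h
    have e : (n + 1 + 1) * (n + 1 + 2) = (n + 1) * (n + 2) + 2 * (n + 1 + 1) := by ring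
    omega

theorem dimMul_sup (j : Fin 3) {f : E3 → S2} (hf : f ∈ (⨆ n, Hom n : Submodule ℂ (E3 → S2))) :
    dimMul j f ∈ (⨆ n, Hom n : Submodule ℂ (E3 → S2)) := by
  have h : (⨆ n, Hom n : Submodule ℂ (E3 → S2)).map (dimMul j) ≤ ⨆ n, Hom n := by
    rw [Submodule.map_iSup]
    refine iSup_le fun n => le_trans ?_ (le_iSup Hom (n + 1))
    rintro _ ⟨g, hg, rfl⟩
    exact dimMul_mem j hg
  exact h ⟨f, hf, rfl⟩

/-- restrictions to the sphere of scalar multipliers of the polynomial maps -/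
noncomputable def dimAlg : Subalgebra ℝ C(Metric.sphere (0 : E3) 1, ℝ) where
  carrier := {g | ∃ p : E3 → ℂ, (∀ f ∈ (⨆ n, Hom n : Submodule ℂ (E3 → S2)),
    (fun x => p x • f x) ∈ (⨆ n, Hom n : Submodule ℂ (E3 → S2))) ∧
      ∀ x : Metric.sphere (0 : E3) 1, p x = (g x : ℝ)}
  mul_mem' := by
    rintro g h ⟨p, hp, ep⟩ ⟨q, hq, eq⟩
    refine ⟨fun x => p x * q x, fun f hf => ?_, fun x => by simp [ep, eq]⟩
    simpa only [mul_smul] using hp _ (hq f hf)
  add_mem' := by
    rintro g h ⟨p, hp, ep⟩ ⟨q, hq, eq⟩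
    refine ⟨fun x => p x + q x, fun f hf => ?_, fun x => by simp [ep, eq]⟩
    have e : (fun x => (p x + q x) • f x) = (fun x => p x • f x) + fun x => q x • f x := by
      funext x; simp [add_smul]
    rw [e]
    exact add_mem (hp f hf) (hq f hf)
  algebraMap_mem' := fun r =>
    ⟨fun _ => (r : ℂ), fun f hf => Submodule.smul_mem _ (r : ℂ) hf, fun x => by simp⟩

theorem dimAlg_sep : dimAlg.SeparatesPoints := by
  intro x y hxy
  obtain ⟨j, hj⟩ : ∃ j, (x : E3) j ≠ (y : E3) j := by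
    by_contra hc
    push Not at hc
    exact hxy (Subtype.ext (PiLp.ext hc))
  let g : C(Metric.sphere (0 : E3) 1, ℝ) := ⟨fun z => (z : E3) j, by fun_prop⟩
  exact ⟨g, ⟨g, ⟨fun z => (z j : ℂ), fun f hf => dimMul_sup j hf, fun _ => rfl⟩, rfl⟩, hj⟩

theorem dim_scalar {u : E3 → ℝ} (hu : ContinuousOn u {0}ᶜ) {η : ℝ} (hη : 0 < η) (v : S2) :
    ∃ p : E3 → ℂ, (fun x => p x • v) ∈ (⨆ n, Hom n : Submodule ℂ (E3 → S2)) ∧
      ∀ x : E3, ‖x‖ = 1 → ‖p x - u x‖ ≤ η := by
  have hc : Continuous fun z : Metric.sphere (0 : E3) 1 => u z := by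
    refine hu.comp_continuous continuous_subtype_val fun z => ?_
    have hz : ‖(z : E3)‖ = 1 := by simp
    intro h0
    rw [mem_singleton_iff.1 h0] at hz
    simp at hz
  obtain ⟨⟨g, p, hp, ep⟩, hg⟩ :=
    ContinuousMap.exists_mem_subalgebra_near_continuous_of_separatesPoints dimAlg dimAlg_sep _ hc
      η hη
  refine ⟨p, hp (fun _ => v) (le_iSup Hom 0 (dim_const_mem v)), fun x hx => ?_⟩
  have h1 := ep ⟨x, by simpa using hx⟩
  have h2 := hg ⟨x, by simpa using hx⟩
  simp only at h1 h2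
  rw [h1, ← Complex.ofReal_sub, Complex.norm_real]
  exact h2.le

/-- polynomial maps are dense on the sphere -/
theorem poly_dense {w : E3 → S2} (hw : ContinuousOn w {0}ᶜ) {η : ℝ} (hη : 0 < η) :
    ∃ f ∈ (⨆ n, Hom n : Submodule ℂ (E3 → S2)), ∀ x : E3, ‖x‖ = 1 → ‖f x - w x‖ ≤ η := by
  have hwa : ∀ a, ContinuousOn (fun x => w x a) {0}ᶜ := fun a =>
    (continuous_apply a).comp_continuousOn hw
  have h2 : 0 < η / 2 := by positivity
  choose p hp ep using fun a : Fin 2 => dim_scalar (u := fun x => (w x a).re)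
    (Complex.continuous_re.comp_continuousOn (hwa a)) h2 (Pi.single a 1)
  choose q hq eq using fun a : Fin 2 => dim_scalar (u := fun x => (w x a).im)
    (Complex.continuous_im.comp_continuousOn (hwa a)) h2 (Pi.single a 1)
  refine ⟨∑ a, ((fun x => p a x • (Pi.single a 1 : S2)) + I • fun x => q a x • (Pi.single a 1 : S2)),
    Submodule.sum_mem _ fun a _ => add_mem (hp a) (Submodule.smul_mem _ _ (hq a)), fun x hx => ?_⟩
  refine (pi_norm_le_iff_of_nonneg hη.le).2 fun a => ?_
  have e : ((∑ a, ((fun x => p a x • (Pi.single a 1 : S2))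
      + I • fun x => q a x • (Pi.single a 1 : S2))) x - w x) a
      = (p a x - ((w x a).re : ℝ)) + I * (q a x - ((w x a).im : ℝ)) := by
    have h := Complex.re_add_im (w x a)
    fin_cases a
    · simp only [Fin.sum_univ_two, Pi.add_apply, Pi.smul_apply, Pi.sub_apply, smul_eq_mul,
        Fin.zero_eta, Pi.single_eq_same, Pi.single_eq_of_ne (zero_ne_one' (Fin 2))] at h ⊢
      linear_combination h
    · simp only [Fin.sum_univ_two, Pi.add_apply, Pi.smul_apply, Pi.sub_apply, smul_eq_mul,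
        Fin.mk_one, Pi.single_eq_same, Pi.single_eq_of_ne (one_ne_zero' (Fin 2))] at h ⊢
      linear_combination h
  rw [e]
  refine (norm_add_le _ _).trans ?_
  rw [norm_mul, Complex.norm_I, one_mul]
  have h3 := ep a x hx
  have h4 := eq a x hx
  linarith

end Pool.Agent.Lib.MP_2347b2_mp.Dirac
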