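import Pool.Agent.Lib.MP_2347b2_mp.F.T3Defs

namespace Pool.Agent.Lib.MP_2347b2_mp.Dirac

open MeasureTheory Complex Matrix

noncomputable section

abbrev E3 := EuclideanSpace ℝ (Fin 3)

abbrev S2 := Fin 2 → ℂ

/-- Pauli matrices -/
def sg : Fin 3 → Matrix (Fin 2) (Fin 2) ℂ := ![!![0, 1; 1, 0], !![0, -I; I, 0], !![1, 0; 0, -1]]

def ee (j : Fin 3) : E3 := EuclideanSpace.single j 1

def XX (x : E3) : Matrix (Fin 2) (Fin 2) ℂ := ∑ j, (x j : ℂ) • sg j

def Dop (f : E3 → S2) (x : E3) : S2 := ∑ j, (sg j).mulVec (fderiv ℝ f x (ee j))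

/-- the angular operator -/
def Gam (f : E3 → S2) (x : E3) : S2 := fderiv ℝ f x x - (XX x).mulVec (Dop f x)

/-- multiplication by `σ · x / |x|` -/
def Xh (f : E3 → S2) (x : E3) : S2 := ((‖x‖⁻¹ : ℝ) : ℂ) • (XX x).mulVec (f x)

def dot2 (u v : S2) : ℂ := ∑ a, (starRingEnd ℂ) (u a) * v a

def nsq2 (u : S2) : ℝ := ∑ a, ‖u a‖ ^ 2

def up (v : Fin 4 → ℂ) : S2 := ![v 0, v 1]

def lo (v : Fin 4 → ℂ) : S2 := ![v 2, v 3]

def join (u v : S2) : Fin 4 → ℂ := ![u 0, u 1, v 0, v 1]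

theorem join_up_lo (v : Fin 4 → ℂ) : join (up v) (lo v) = v := by
  ext a
  fin_cases a <;> rfl

theorem up_join (u v : S2) : up (join u v) = u := by
  ext a
  fin_cases a <;> rfl

theorem lo_join (u v : S2) : lo (join u v) = v := by
  ext a
  fin_cases a <;> rfl

theorem nsq_eq (v : Fin 4 → ℂ) : nsq v = nsq2 (up v) + nsq2 (lo v) := by
  simp [nsq, nsq2, up, lo, Fin.sum_univ_succ, add_assoc]

theorem dot4_eq (v w : Fin 4 → ℂ) : ∑ a, (starRingEnd ℂ) (v a) * w a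
    = dot2 (up v) (up w) + dot2 (lo v) (lo w) := by
  simp [dot2, up, lo, Fin.sum_univ_succ, add_assoc]

theorem dot2_self (u : S2) : dot2 u u = (nsq2 u : ℝ) := by
  simp [dot2, nsq2, Complex.conj_mul']

theorem dot2_conj (u v : S2) : (starRingEnd ℂ) (dot2 u v) = dot2 v u := by
  simp [dot2, mul_comm]

theorem dot2_le (u v : S2) : ‖dot2 u v‖ ^ 2 ≤ nsq2 u * nsq2 v := by
  refine le_trans ?_ (Finset.sum_mul_sq_le_sq_mul_sq Finset.univ (fun a => ‖u a‖) fun a => ‖v a‖)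
  refine pow_le_pow_left₀ (norm_nonneg _) ((norm_sum_le _ _).trans_eq ?_) 2
  simp only [norm_mul, Complex.norm_conj]

theorem XX_eq (x : E3) : XX x = !![(x 2 : ℂ), x 0 - I * x 1; x 0 + I * x 1, -x 2] := by
  ext a b
  fin_cases a <;> fin_cases b <;> simp [XX, sg, Fin.sum_univ_succ] <;> ring

theorem XX_add (x y : E3) : XX (x + y) = XX x + XX y := by
  simp only [XX, PiLp.add_apply, ofReal_add, add_smul, Finset.sum_add_distrib]

theorem ee_sum (x : E3) : x = x 0 • ee 0 + x 1 • ee 1 + x 2 • ee 2 := by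
  ext a
  fin_cases a <;> simp [ee]

theorem inner_ee (x : E3) (j : Fin 3) : inner ℝ x (ee j) = x j := by
  simp [ee, EuclideanSpace.inner_single_right]

theorem XX_anti (x y : E3) :
    XX x * XX y + XX y * XX x = ((2 * inner ℝ x y : ℝ) : ℂ) • (1 : Matrix (Fin 2) (Fin 2) ℂ) := by
  rw [XX_eq, XX_eq]
  ext a b
  fin_cases a <;> fin_cases b <;> simp [PiLp.inner_apply, Fin.sum_univ_succ] <;> ring_nf <;>
    simp only [I_sq] <;> ring

theorem XX_sq (x : E3) : XX x * XX x = ((‖x‖ ^ 2 : ℝ) : ℂ) • (1 : Matrix (Fin 2) (Fin 2) ℂ) := by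
  have h := XX_anti x x
  rw [real_inner_self_eq_norm_sq, ← two_smul ℂ, ofReal_mul, mul_smul, ofReal_ofNat] at h
  exact smul_right_injective _ two_ne_zero h

theorem XX_ee (j : Fin 3) : XX (ee j) = sg j := by
  fin_cases j <;> simp [XX, ee]

theorem XX_smul (r : ℝ) (x : E3) : XX (r • x) = (r : ℂ) • XX x := by
  simp only [XX, PiLp.smul_apply, smul_eq_mul, ofReal_mul, mul_smul, Finset.smul_sum]

theorem XX_symm (x : E3) (u v : S2) : dot2 ((XX x).mulVec u) v = dot2 u ((XX x).mulVec v) := by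
  simp [XX_eq, dot2, mulVec, dotProduct, Fin.sum_univ_succ]
  ring

theorem Xh_Xh (f : E3 → S2) {x : E3} (hx : x ≠ 0) : Xh (Xh f) x = f x := by
  have h0 : (‖x‖ : ℂ) ≠ 0 := ofReal_ne_zero.2 (norm_ne_zero_iff.2 hx)
  rw [Xh, Xh, mulVec_smul, mulVec_mulVec, XX_sq, smul_mulVec, one_mulVec, smul_smul, smul_smul]
  refine (congrArg (· • f x) ?_).trans (one_smul ℂ _)
  push_cast
  field_simp

theorem Xh_dot (f g : E3 → S2) (x : E3) : dot2 (Xh f x) (g x) = dot2 (f x) (Xh g x) := by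
  have h := XX_symm x (f x) (g x)
  simp only [dot2, Xh, Pi.smul_apply, smul_eq_mul, map_mul, conj_ofReal, mul_assoc,
    mul_left_comm _ ((‖x‖⁻¹ : ℝ) : ℂ), ← Finset.mul_sum] at h ⊢
  rw [h]

theorem Xh_nsq (f : E3 → S2) {x : E3} (hx : x ≠ 0) : nsq2 (Xh f x) = nsq2 (f x) := by
  refine ofReal_injective ?_
  rw [← dot2_self, ← dot2_self, Xh_dot, Xh_Xh f hx]

/-- the bilinear map `σ · x` -/
def XL : E3 →L[ℝ] S2 →L[ℝ] S2 :=
  LinearMap.toContinuousLinearMap (LinearMap.toContinuousLinearMap.toLinearMap ∘ₗ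
    LinearMap.mk₂ ℝ (fun x u => (XX x).mulVec u) (fun x y u => by rw [XX_add, add_mulVec])
      (fun r x u => by rw [XX_smul, smul_mulVec, Complex.coe_smul])
      (fun x u v => mulVec_add _ _ _) fun r x u => mulVec_smul _ _ _)

theorem XL_apply (x : E3) (u : S2) : XL x u = (XX x).mulVec u := rfl

theorem diff_X {f : E3 → S2} {x : E3} (hf : DifferentiableAt ℝ f x) :
    DifferentiableAt ℝ (fun y => (XX y).mulVec (f y)) x :=
  XL.differentiableAt.clm_apply hf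

theorem fd_X {f : E3 → S2} {x : E3} (hf : DifferentiableAt ℝ f x) (v : E3) :
    fderiv ℝ (fun y => (XX y).mulVec (f y)) x v
      = (XX x).mulVec (fderiv ℝ f x v) + (XX v).mulVec (f x) :=
  DFunLike.congr_fun (XL.hasFDerivAt.clm_apply hf.hasFDerivAt).fderiv v

theorem fd_norm {x : E3} (hx : x ≠ 0) :
    HasFDerivAt (fun y : E3 => ‖y‖) (‖x‖⁻¹ • innerSL ℝ x) x := by
  have h0 : ‖x‖ ≠ 0 := norm_ne_zero_iff.2 hx
  have h := (hasStrictFDerivAt_norm_sq x).hasFDerivAt.sqrt (pow_ne_zero 2 h0)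
  simp only [Real.sqrt_sq (norm_nonneg _)] at h
  refine h.congr_fderiv ?_
  ext v
  simp only [_root_.smul_apply, smul_eq_mul, nsmul_eq_mul, Nat.cast_ofNat]
  field_simp

theorem fd_radial {f : E3 → S2} {g : ℝ → ℂ} {g' : ℂ} {x : E3} (hx : x ≠ 0)
    (hf : DifferentiableAt ℝ f x) (hg : HasDerivAt g g' ‖x‖) (v : E3) :
    fderiv ℝ (fun y => g ‖y‖ • f y) x v
      = g ‖x‖ • fderiv ℝ f x v + (g' * (‖x‖⁻¹ * inner ℝ x v : ℝ)) • f x := by
  have h := (hg.hasFDerivAt.comp x (fd_norm hx)).fun_smul hf.hasFDerivAt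
  refine (DFunLike.congr_fun h.fderiv v).trans ?_
  simp [mul_comm g', mul_assoc]

theorem Xh_smooth {f : E3 → S2} (hf : ContDiffOn ℝ 1 f {0}ᶜ) : ContDiffOn ℝ 1 (Xh f) {0}ᶜ := by
  have h1 : ContDiffOn ℝ 1 (fun x : E3 => ‖x‖⁻¹) {0}ᶜ :=
    (contDiffOn_id.norm ℝ fun _ hx => hx).inv fun _ hx => norm_ne_zero_iff.2 hx
  exact (ofRealCLM.contDiff.comp_contDiffOn h1).smul (XL.contDiff.contDiffOn.clm_apply hf)

theorem Dop_X {f : E3 → S2} {x : E3} (hf : DifferentiableAt ℝ f x) :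
    Dop (fun y => (XX y).mulVec (f y)) x
      = (3 : ℂ) • f x + (2 : ℂ) • fderiv ℝ f x x - (XX x).mulVec (Dop f x) := by
  have e : fderiv ℝ f x x = x 0 • fderiv ℝ f x (ee 0) + x 1 • fderiv ℝ f x (ee 1)
      + x 2 • fderiv ℝ f x (ee 2) := by
    rw [← map_smul, ← map_smul, ← map_smul, ← map_add, ← map_add, ← ee_sum]
  simp only [Dop, fd_X hf, XX_ee, e, Fin.sum_univ_three]
  generalize fderiv ℝ f x (ee 0) = u, fderiv ℝ f x (ee 1) = v, fderiv ℝ f x (ee 2) = w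
  ext a
  fin_cases a <;> simp [XX_eq, sg, dotProduct, Fin.sum_univ_succ] <;> ring_nf <;>
    simp only [I_sq] <;> ring

theorem Dop_radial {f : E3 → S2} {g : ℝ → ℂ} {g' : ℂ} {x : E3} (hx : x ≠ 0)
    (hf : DifferentiableAt ℝ f x) (hg : HasDerivAt g g' ‖x‖) :
    Dop (fun y => g ‖y‖ • f y) x = g' • Xh f x + g ‖x‖ • Dop f x := by
  simp only [Dop, fd_radial hx hf hg, inner_ee, mulVec_add, mulVec_smul, Finset.sum_add_distrib,
    Xh, XX, sum_mulVec, smul_mulVec, Finset.smul_sum, smul_smul, ofReal_mul]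
  exact add_comm _ _

theorem Gam_radial {f : E3 → S2} {g : ℝ → ℂ} {g' : ℂ} {x : E3} (hx : x ≠ 0)
    (hf : DifferentiableAt ℝ f x) (hg : HasDerivAt g g' ‖x‖) :
    Gam (fun y => g ‖y‖ • f y) x = g ‖x‖ • Gam f x := by
  have h0 : (‖x‖ : ℂ) ≠ 0 := ofReal_ne_zero.2 (norm_ne_zero_iff.2 hx)
  rw [Gam, Gam, fd_radial hx hf hg, Dop_radial hx hf hg, Xh, mulVec_add, mulVec_smul, mulVec_smul,
    mulVec_smul, mulVec_mulVec, XX_sq, smul_mulVec, one_mulVec, smul_smul, smul_smul, smul_sub,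
    real_inner_self_eq_norm_sq, ofReal_mul, mul_assoc]
  abel

theorem Gam_X {f : E3 → S2} {x : E3} (hf : DifferentiableAt ℝ f x) :
    Gam (fun y => (XX y).mulVec (f y)) x
      = -((2 : ℂ) • (XX x).mulVec (f x)) - (XX x).mulVec (Gam f x) := by
  rw [Gam, Gam, fd_X hf, Dop_X hf, mulVec_sub, mulVec_sub, mulVec_add, mulVec_smul, mulVec_smul]
  module

theorem Gam_Xh {f : E3 → S2} {x : E3} (hx : x ≠ 0) (hf : DifferentiableAt ℝ f x) :
    Gam (Xh f) x = -((2 : ℂ) • Xh f x) - Xh (Gam f) x := by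
  have h := Gam_radial (g := fun r : ℝ => ((r⁻¹ : ℝ) : ℂ)) hx (diff_X hf)
    (hasDerivAt_inv (norm_ne_zero_iff.2 hx)).ofReal_comp
  rw [Gam_X hf] at h
  refine h.trans ?_
  rw [Xh, Xh]
  module

/-- the angular operator through the rotation fields -/
theorem Gam_rot (f : E3 → S2) (x : E3) : Gam f x
    = -((sg 0 * sg 1).mulVec (fderiv ℝ f x (x 0 • ee 1 - x 1 • ee 0))
      + (sg 0 * sg 2).mulVec (fderiv ℝ f x (x 0 • ee 2 - x 2 • ee 0))
      + (sg 1 * sg 2).mulVec (fderiv ℝ f x (x 1 • ee 2 - x 2 • ee 1))) := by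
  have e : fderiv ℝ f x x = x 0 • fderiv ℝ f x (ee 0) + x 1 • fderiv ℝ f x (ee 1)
      + x 2 • fderiv ℝ f x (ee 2) := by
    rw [← map_smul, ← map_smul, ← map_smul, ← map_add, ← map_add, ← ee_sum]
  simp only [Gam, Dop, e, Fin.sum_univ_three, map_sub, map_smul]
  generalize fderiv ℝ f x (ee 0) = u, fderiv ℝ f x (ee 1) = v, fderiv ℝ f x (ee 2) = w
  ext a
  fin_cases a <;> simp [XX_eq, sg, dotProduct, Fin.sum_univ_succ] <;> ring_nf <;>
    simp only [I_sq] <;> ring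

/-- the upper components as a linear map -/
def upL : (Fin 4 → ℂ) →L[ℝ] S2 :=
  ContinuousLinearMap.pi fun a => ContinuousLinearMap.proj (![0, 1] a)

/-- the lower components as a linear map -/
def loL : (Fin 4 → ℂ) →L[ℝ] S2 :=
  ContinuousLinearMap.pi fun a => ContinuousLinearMap.proj (![2, 3] a)

theorem upL_eq : up = upL := by
  ext v a
  fin_cases a <;> rfl

theorem loL_eq : lo = loL := by
  ext v a
  fin_cases a <;> rfl

theorem fd_up {ψ : E3 → Fin 4 → ℂ} {x : E3} (hψ : DifferentiableAt ℝ ψ x) (v : E3) :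
    fderiv ℝ (fun y => up (ψ y)) x v = up (fderiv ℝ ψ x v) := by
  rw [upL_eq]
  exact DFunLike.congr_fun (upL.hasFDerivAt.comp x hψ.hasFDerivAt).fderiv v

theorem fd_lo {ψ : E3 → Fin 4 → ℂ} {x : E3} (hψ : DifferentiableAt ℝ ψ x) (v : E3) :
    fderiv ℝ (fun y => lo (ψ y)) x v = lo (fderiv ℝ ψ x v) := by
  rw [loL_eq]
  exact DFunLike.congr_fun (loL.hasFDerivAt.comp x hψ.hasFDerivAt).fderiv v

/-- the Dirac equation in two component form -/
theorem eq_two {γ E : ℝ} {ψ : E3 → Fin 4 → ℂ} {x : E3} (hψ : DifferentiableAt ℝ ψ x) :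
    (∑ j, (-I) • (alpha j).mulVec (fderiv ℝ ψ x (EuclideanSpace.single j 1))
      + beta.mulVec (ψ x) - ((γ / ‖x‖ : ℝ) : ℂ) • ψ x = (E : ℂ) • ψ x) ↔
    (Dop (fun y => up (ψ y)) x = (I * (E + 1 + γ / ‖x‖ : ℝ)) • lo (ψ x) ∧
      Dop (fun y => lo (ψ y)) x = (I * (E - 1 + γ / ‖x‖ : ℝ)) • up (ψ x)) := by
  simp only [Dop, fd_up hψ, fd_lo hψ, Fin.sum_univ_three, ee]
  generalize fderiv ℝ ψ x (EuclideanSpace.single 0 1) = u,
    fderiv ℝ ψ x (EuclideanSpace.single 1 1) = v, fderiv ℝ ψ x (EuclideanSpace.single 2 1) = w,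
    ψ x = p, γ / ‖x‖ = c
  simp only [funext_iff, Fin.forall_fin_succ, IsEmpty.forall_iff, and_true]
  simp [alpha, beta, sg, up, lo, dotProduct, Fin.sum_univ_succ]
  constructor
  · rintro ⟨h0, h1, h2, h3⟩
    exact ⟨⟨by linear_combination I * h2 + (u 1 - I * v 1 + w 0) * I_mul_I,
      by linear_combination I * h3 + (u 0 + I * v 0 - w 1) * I_mul_I⟩,
      by linear_combination I * h0 + (u 3 - I * v 3 + w 2) * I_mul_I,
      by linear_combination I * h1 + (u 2 + I * v 2 - w 3) * I_mul_I⟩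
  · rintro ⟨⟨h2, h3⟩, h0, h1⟩
    exact ⟨by linear_combination -I * h0 - (E - 1 + c) * p 0 * I_mul_I,
      by linear_combination -I * h1 - (E - 1 + c) * p 1 * I_mul_I,
      by linear_combination -I * h2 - (E + 1 + c) * p 2 * I_mul_I,
      by linear_combination -I * h3 - (E + 1 + c) * p 3 * I_mul_I⟩

end

end Pool.Agent.Lib.MP_2347b2_mp.Dirac
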