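import Pool.Agent.Lib.MP_2347b2_mp.F.T3Ops

namespace Pool.Agent.Lib.MP_2347b2_mp.Dirac

open MeasureTheory Complex Matrix Set

noncomputable section

/-- homogeneous polynomial maps -/
def Hom : ℕ → Submodule ℂ (E3 → S2)
  | 0 => Submodule.span ℂ {f | ∃ v : S2, f = fun _ => v}
  | n + 1 => Submodule.span ℂ {f | ∃ j : Fin 3, ∃ g ∈ Hom n, f = fun x => (x j : ℂ) • g x}

theorem Hom.const (v : S2) : (fun _ => v) ∈ Hom 0 := Submodule.subset_span ⟨v, rfl⟩

theorem Hom.coord {n : ℕ} {g : E3 → S2} (h : g ∈ Hom n) (j : Fin 3) :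
    (fun x : E3 => (x j : ℂ) • g x) ∈ Hom (n + 1) := Submodule.subset_span ⟨j, g, h, rfl⟩

theorem Hom.ind {p : ℕ → (E3 → S2) → Prop} (h0 : ∀ v, p 0 fun _ => v)
    (hs : ∀ n j g, g ∈ Hom n → p n g → p (n + 1) fun x : E3 => (x j : ℂ) • g x)
    (hz : ∀ n, p n 0) (ha : ∀ n f g, f ∈ Hom n → g ∈ Hom n → p n f → p n g → p n (f + g))
    (hm : ∀ n (c : ℂ) f, f ∈ Hom n → p n f → p n (c • f)) (n : ℕ) :
    ∀ f, f ∈ Hom n → p n f := by
  induction n with
  | zero =>
    intro f hf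
    refine Submodule.span_induction (p := fun f _ => p 0 f) ?_ (hz 0) (ha 0) (hm 0) hf
    rintro _ ⟨v, rfl⟩
    exact h0 v
  | succ n ih =>
    intro f hf
    refine Submodule.span_induction (p := fun f _ => p (n + 1) f) ?_ (hz _) (ha (n + 1)) (hm (n + 1)) hf
    rintro _ ⟨j, g, hg, rfl⟩
    exact hs n j g hg (ih g hg)

/-- a coordinate as a complex valued linear form -/
def tpC (j : Fin 3) : E3 →L[ℝ] ℂ := ofRealCLM.comp (EuclideanSpace.proj j)

theorem tp_fd {g : E3 → S2} {x : E3} (hg : DifferentiableAt ℝ g x) (j : Fin 3) (v : E3) :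
    fderiv ℝ (fun y : E3 => (y j : ℂ) • g y) x v
      = (x j : ℂ) • fderiv ℝ g x v + (v j : ℂ) • g x := by
  have h := ((tpC j).hasFDerivAt (x := x)).fun_smul hg.hasFDerivAt
  exact congrArg (fun L => L v) h.fderiv

theorem tp_coord {g : E3 → S2} (hg : ContDiff ℝ 1 g) (j : Fin 3) :
    Dop (fun y : E3 => (y j : ℂ) • g y)
      = (fun x : E3 => (x j : ℂ) • Dop g x) + fun x => (sg j).mulVec (g x) := by
  funext x
  have e : ∀ i, (sg i).mulVec (((ee i j : ℝ) : ℂ) • g x)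
      = if i = j then (sg j).mulVec (g x) else 0 := fun i => by
    by_cases h : i = j
    · simp [h, ee]
    · simp [h, ee, Ne.symm h]
  simp only [Dop, tp_fd (hg.differentiable one_ne_zero x), mulVec_add, Finset.sum_add_distrib, e,
    Finset.sum_ite_eq', Finset.mem_univ, if_true, mulVec_smul, Finset.smul_sum, Pi.add_apply]

theorem tp_add {f g : E3 → S2} (hf : ContDiff ℝ 1 f) (hg : ContDiff ℝ 1 g) :
    Dop (f + g) = Dop f + Dop g := by
  funext x
  simp only [Dop, fderiv_add (hf.differentiable one_ne_zero x) (hg.differentiable one_ne_zero x),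
    _root_.add_apply, mulVec_add, Finset.sum_add_distrib, Pi.add_apply]

theorem tp_smul {f : E3 → S2} (hf : ContDiff ℝ 1 f) (c : ℂ) : Dop (c • f) = c • Dop f := by
  funext x
  simp only [Dop, fderiv_const_smul (hf.differentiable one_ne_zero x),
    _root_.smul_apply, mulVec_smul, Finset.smul_sum, Pi.smul_apply]

theorem tp_zero : Dop 0 = 0 := by
  funext x
  simp [Dop]

theorem Hom.smooth {n : ℕ} {f : E3 → S2} (h : f ∈ Hom n) : ContDiff ℝ 1 f := by
  refine Hom.ind (p := fun _ f => ContDiff ℝ 1 f) (fun _ => contDiff_const)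
    (fun _ j _ _ hg => (tpC j).contDiff.smul hg) (fun _ => contDiff_const)
    (fun _ _ _ _ _ hf hg => hf.add hg) (fun _ c _ _ hf => hf.const_smul c) n f h

theorem Hom.scale {n : ℕ} {f : E3 → S2} (h : f ∈ Hom n) (r : ℝ) (x : E3) :
    f (r • x) = ((r : ℂ) ^ n) • f x := by
  refine Hom.ind (p := fun n f => f (r • x) = ((r : ℂ) ^ n) • f x) (fun _ => by simp)
    (fun _ j _ _ hg => ?_) (fun _ => by simp) (fun _ _ _ _ _ hf hg => ?_)
    (fun _ c _ _ hf => ?_) n f h
  · simp only [hg, PiLp.smul_apply, smul_eq_mul, ofReal_mul, smul_smul, pow_succ]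
    refine congrArg (· • _) ?_
    ring
  · simp only [Pi.add_apply, hf, hg, smul_add]
  · simp only [Pi.smul_apply, hf]
    rw [smul_comm]

theorem Hom.euler {n : ℕ} {f : E3 → S2} (h : f ∈ Hom n) (x : E3) :
    fderiv ℝ f x x = (n : ℂ) • f x := by
  refine Hom.ind (p := fun n f => fderiv ℝ f x x = (n : ℂ) • f x) (fun _ => by simp)
    (fun _ j _ h hg => ?_) (fun _ => by simp) (fun _ _ _ h h' hf hg => ?_)
    (fun _ c _ h hf => ?_) n f h
  · rw [tp_fd ((Hom.smooth h).differentiable one_ne_zero x), hg, smul_comm, Nat.cast_succ,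
      add_smul, one_smul]
  · rw [fderiv_add ((Hom.smooth h).differentiable one_ne_zero x)
      ((Hom.smooth h').differentiable one_ne_zero x), _root_.add_apply, hf, hg,
      Pi.add_apply, smul_add]
  · rw [fderiv_const_smul ((Hom.smooth h).differentiable one_ne_zero x),
      _root_.smul_apply, hf, Pi.smul_apply, smul_comm]

theorem Hom.mat {n : ℕ} {f : E3 → S2} (h : f ∈ Hom n) (A : Matrix (Fin 2) (Fin 2) ℂ) :
    (fun x => A.mulVec (f x)) ∈ Hom n := by
  refine Hom.ind (p := fun n f => (fun x => A.mulVec (f x)) ∈ Hom n) (fun _ => Hom.const _)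
    (fun _ j _ _ hg => ?_) (fun _ => ?_) (fun _ _ _ _ _ hf hg => ?_)
    (fun _ c _ _ hf => ?_) n f h
  · simpa only [mulVec_smul] using Hom.coord hg j
  · simp only [Pi.zero_apply, mulVec_zero]
    exact zero_mem _
  · simp only [Pi.add_apply, mulVec_add]
    exact add_mem hf hg
  · simp only [Pi.smul_apply, mulVec_smul]
    exact Submodule.smul_mem _ c hf

theorem Hom.comp {n : ℕ} {f : E3 → S2} (h : f ∈ Hom n) (T : E3 →ₗ[ℝ] E3) :
    (fun x => f (T x)) ∈ Hom n := by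
  refine Hom.ind (p := fun n f => (fun x => f (T x)) ∈ Hom n) (fun _ => Hom.const _)
    (fun _ j g _ hg => ?_) (fun _ => zero_mem _) (fun _ _ _ _ _ hf hg => add_mem hf hg)
    (fun _ c _ _ hf => Submodule.smul_mem _ c hf) n f h
  have e : (fun x => ((T x j : ℝ) : ℂ) • g (T x))
      = ∑ i, ((T (ee i) j : ℝ) : ℂ) • fun x : E3 => (x i : ℂ) • g (T x) := by
    funext x
    have e1 : x = ∑ i, x i • ee i := by
      ext i
      simp [ee, Pi.single_apply]
    have e2 : T x j = ∑ i, T (ee i) j * x i := by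
      conv_lhs => rw [e1]
      simp [mul_comm]
    rw [e2]
    simp only [Finset.sum_apply, Pi.smul_apply, smul_smul, ofReal_sum, ofReal_mul, Finset.sum_smul]
  rw [e]
  exact Submodule.sum_mem _ fun i _ => Submodule.smul_mem _ _ (Hom.coord hg i)

theorem Hom.mulX {n : ℕ} {f : E3 → S2} (h : f ∈ Hom n) :
    (fun x => (XX x).mulVec (f x)) ∈ Hom (n + 1) := by
  have e : (fun x => (XX x).mulVec (f x))
      = ∑ j, fun x : E3 => (x j : ℂ) • (sg j).mulVec (f x) := by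
    funext x
    simp only [XX, Finset.sum_apply, sum_mulVec, smul_mulVec]
  rw [e]
  exact Submodule.sum_mem _ fun j _ => Hom.coord (Hom.mat h _) j

theorem tp_dop (n : ℕ) (f : E3 → S2) (h : f ∈ Hom n) :
    (n = 0 → Dop f = 0) ∧ ∀ m, n = m + 1 → Dop f ∈ Hom m := by
  refine Hom.ind (p := fun n f => (n = 0 → Dop f = 0) ∧ ∀ m, n = m + 1 → Dop f ∈ Hom m)
    (fun _ => ⟨fun _ => ?_, fun _ h => absurd h (by omega)⟩)
    (fun n j g h hg => ⟨fun h => absurd h (by omega), fun m hm => ?_⟩)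
    (fun _ => ⟨fun _ => tp_zero, fun _ _ => by rw [tp_zero]; exact zero_mem _⟩)
    (fun _ _ _ h h' hf hg => ?_) (fun _ c _ h hf => ?_) n f h
  · funext x
    simp [Dop]
  · obtain rfl : n = m := by omega
    rw [tp_coord (Hom.smooth h)]
    refine add_mem ?_ (Hom.mat h _)
    cases n with
    | zero =>
      simp only [hg.1 rfl, Pi.zero_apply, smul_zero]
      exact zero_mem _
    | succ n => exact Hom.coord (hg.2 n rfl) j
  · rw [tp_add (Hom.smooth h) (Hom.smooth h')]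
    exact ⟨fun h => by rw [hf.1 h, hg.1 h, add_zero], fun m h => add_mem (hf.2 m h) (hg.2 m h)⟩
  · rw [tp_smul (Hom.smooth h)]
    exact ⟨fun h => by rw [hf.1 h, smul_zero], fun m h => Submodule.smul_mem _ c (hf.2 m h)⟩

theorem Hom.dop {n : ℕ} {f : E3 → S2} (h : f ∈ Hom (n + 1)) : Dop f ∈ Hom n := by
  exact (tp_dop _ f h).2 n rfl

theorem Hom.dop_zero {f : E3 → S2} (h : f ∈ Hom 0) : Dop f = 0 := by
  exact (tp_dop _ f h).1 rfl

theorem Dop_add {f g : E3 → S2} (hf : ContDiff ℝ 1 f) (hg : ContDiff ℝ 1 g) :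
    Dop (f + g) = Dop f + Dop g := by
  exact tp_add hf hg

theorem Dop_smul {f : E3 → S2} (hf : ContDiff ℝ 1 f) (c : ℂ) : Dop (c • f) = c • Dop f := by
  exact tp_smul hf c

/-- monogenic homogeneous polynomial maps -/
def Mon (n : ℕ) : Submodule ℂ (E3 → S2) where
  carrier := {f | f ∈ Hom n ∧ Dop f = 0}
  add_mem' := fun hf hg => ⟨add_mem hf.1 hg.1, by
    rw [Dop_add (Hom.smooth hf.1) (Hom.smooth hg.1), hf.2, hg.2, add_zero]⟩
  zero_mem' := ⟨zero_mem _, by funext x; simp [Dop]⟩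
  smul_mem' := fun c _ hf => ⟨Submodule.smul_mem _ c hf.1, by
    rw [Dop_smul (Hom.smooth hf.1), hf.2, smul_zero]⟩

/-- the building blocks of degree `n` -/
def Blk (n : ℕ) : Set (E3 → S2) :=
  {f | ∃ j l : ℕ, ∃ P ∈ Mon l, j + l = n ∧ f = fun x => (XX x ^ j).mulVec (P x)}

theorem tp_succ (P : E3 → S2) (j : ℕ) : (fun x => (XX x ^ (j + 1)).mulVec (P x))
    = fun x => (XX x).mulVec ((XX x ^ j).mulVec (P x)) := by
  funext x
  rw [mulVec_mulVec, pow_succ']

theorem tp_blk {l : ℕ} {P : E3 → S2} (hP : P ∈ Hom l) (j : ℕ) :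
    (fun x => (XX x ^ j).mulVec (P x)) ∈ Hom (j + l) := by
  induction j with
  | zero => simpa only [pow_zero, one_mulVec, zero_add] using hP
  | succ j ih =>
    rw [tp_succ, add_right_comm]
    exact Hom.mulX ih

theorem Blk_subset (n : ℕ) : Blk n ⊆ Hom n := by
  rintro _ ⟨j, l, P, hP, rfl, rfl⟩
  exact tp_blk hP.1 j

theorem tp_step {n : ℕ} {f : E3 → S2} (hf : f ∈ Hom n) (x : E3) :
    Dop (fun y => (XX y).mulVec (f y)) x
      = (3 + 2 * n : ℂ) • f x - (XX x).mulVec (Dop f x) := by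
  rw [Dop_X ((Hom.smooth hf).differentiable one_ne_zero x), Hom.euler hf, smul_smul, add_smul]

theorem tp_dblk {l : ℕ} {P : E3 → S2} (hP : P ∈ Mon l) (j : ℕ) :
    ∃ c : ℝ, (j : ℝ) + 1 ≤ c ∧ c ≤ j + 2 * l + 3 ∧ Dop (fun x => (XX x ^ (j + 1)).mulVec (P x))
      = fun x => (c : ℂ) • (XX x ^ j).mulVec (P x) := by
  have hl : (0 : ℝ) ≤ l := l.cast_nonneg
  induction j with
  | zero =>
    refine ⟨2 * l + 3, by push_cast; linarith, by push_cast; linarith, funext fun x => ?_⟩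
    simp only [zero_add, pow_one, pow_zero, one_mulVec]
    rw [tp_step hP.1, hP.2, Pi.zero_apply, mulVec_zero, sub_zero, add_comm]
    push_cast
    rfl
  | succ j ih =>
    obtain ⟨c, h1, h2, h3⟩ := ih
    refine ⟨5 + 2 * j + 2 * l - c, by push_cast; linarith, by push_cast; linarith,
      funext fun x => ?_⟩
    rw [tp_succ, tp_step (tp_blk hP.1 (j + 1)), h3, mulVec_smul, mulVec_mulVec, ← pow_succ',
      ← sub_smul]
    refine congrArg (· • _) ?_
    push_cast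
    ring

theorem Dop_blk {l : ℕ} {P : E3 → S2} (hP : P ∈ Mon l) (j : ℕ) : ∃ c : ℂ, c ≠ 0 ∧
    Dop (fun x => (XX x ^ (j + 1)).mulVec (P x)) = fun x => c • (XX x ^ j).mulVec (P x) := by
  obtain ⟨c, h1, -, h3⟩ := tp_dblk hP j
  have : (0 : ℝ) ≤ j := j.cast_nonneg
  exact ⟨c, ofReal_ne_zero.2 (by linarith), h3⟩

theorem tp_span (n : ℕ) : Submodule.span ℂ (Blk n) ≤ Hom n := Submodule.span_le.2 (Blk_subset n)

theorem tp_mon {n : ℕ} {f : E3 → S2} (h : f ∈ Mon n) : f ∈ Submodule.span ℂ (Blk n) :=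
  Submodule.subset_span ⟨0, n, f, h, zero_add n, by simp only [pow_zero, one_mulVec]⟩

theorem tp_onto {n : ℕ} {g : E3 → S2} (hg : g ∈ Submodule.span ℂ (Blk n)) :
    ∃ f ∈ Submodule.span ℂ (Blk (n + 1)), Dop f = g := by
  refine Submodule.span_induction
    (p := fun g _ => ∃ f ∈ Submodule.span ℂ (Blk (n + 1)), Dop f = g) ?_
    ⟨0, zero_mem _, tp_zero⟩ ?_ ?_ hg
  · rintro _ ⟨j, l, P, hP, rfl, rfl⟩
    obtain ⟨c, hc, h⟩ := Dop_blk hP j
    refine ⟨c⁻¹ • fun x => (XX x ^ (j + 1)).mulVec (P x), Submodule.smul_mem _ _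
      (Submodule.subset_span ⟨j + 1, l, P, hP, add_right_comm _ _ _, rfl⟩), ?_⟩
    rw [tp_smul (Hom.smooth (tp_blk hP.1 _)), h]
    funext x
    rw [Pi.smul_apply, smul_smul, inv_mul_cancel₀ hc, one_smul]
  · rintro _ _ _ _ ⟨f, hf, rfl⟩ ⟨g, hg, rfl⟩
    exact ⟨f + g, add_mem hf hg, tp_add (Hom.smooth (tp_span _ hf)) (Hom.smooth (tp_span _ hg))⟩
  · rintro c _ _ ⟨f, hf, rfl⟩
    exact ⟨c • f, Submodule.smul_mem _ c hf, tp_smul (Hom.smooth (tp_span _ hf)) c⟩

/-- Fischer decomposition -/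
theorem fischer (n : ℕ) : Hom n = Submodule.span ℂ (Blk n) := by
  refine le_antisymm ?_ (tp_span n)
  induction n with
  | zero => exact fun f hf => tp_mon ⟨hf, Hom.dop_zero hf⟩
  | succ n ih =>
    intro f hf
    obtain ⟨g, hg, e⟩ := tp_onto (ih (Hom.dop hf))
    have h1 : (-1 : ℂ) • g ∈ Hom (n + 1) := Submodule.smul_mem _ _ (tp_span _ hg)
    have h2 : f + (-1 : ℂ) • g ∈ Mon (n + 1) := ⟨add_mem hf h1, by
      rw [tp_add (Hom.smooth hf) (Hom.smooth h1), tp_smul (Hom.smooth (tp_span _ hg)), e,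
        neg_one_smul, add_neg_cancel]⟩
    simpa using add_mem (tp_mon h2) hg

theorem Dop_onto {n : ℕ} {g : E3 → S2} (hg : g ∈ Hom n) : ∃ f ∈ Hom (n + 1), Dop f = g := by
  obtain ⟨f, hf, e⟩ := tp_onto (fischer n ▸ hg)
  exact ⟨f, tp_span _ hf, e⟩

end

end Pool.Agent.Lib.MP_2347b2_mp.Dirac
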