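import Pool.Agent.Lib.MP_2347b2_mp.F.T3Ops

namespace Pool.Agent.Lib.MP_2347b2_mp.Dirac

open MeasureTheory Complex Set Metric

variable {F : Type} [NormedAddCommGroup F] [NormedSpace ℝ F]

theorem sb_mp : MeasurePreserving (homeomorphUnitSphereProd E3)
    ((volume : Measure E3).comap (↑)) ((volume : Measure E3).toSphere.prod (.volumeIoiPow 2)) := by
  simpa using (volume : Measure E3).measurePreserving_homeomorphUnitSphereProd

theorem sb_comp {F : Type} (h : E3 → F) :
    (fun p : sphere (0 : E3) 1 × Ioi (0 : ℝ) => h (p.2.1 • p.1.1)) ∘ homeomorphUnitSphereProd E3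
      = fun x => h x.1 := by
  funext x
  have : ‖x.1‖ ≠ 0 := norm_ne_zero_iff.2 x.2
  simp [smul_smul, this]

theorem sb_int {F : Type} [NormedAddCommGroup F] (h : E3 → F) : Integrable h ↔
    Integrable (fun p : sphere (0 : E3) 1 × Ioi (0 : ℝ) => h (p.2.1 • p.1.1))
      ((volume : Measure E3).toSphere.prod (.volumeIoiPow 2)) := by
  have a := integrableOn_iff_comap_subtypeVal (f := h) (μ := (volume : Measure E3))
    (measurableSet_singleton (0 : E3)).compl
  rw [IntegrableOn, restrict_compl_singleton] at a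
  rw [← sb_mp.integrable_comp_emb (Homeomorph.measurableEmbedding _), sb_comp, a]
  rfl

theorem sb_eq (h : E3 → F) : ∫ x, h x = ∫ p : sphere (0 : E3) 1 × Ioi (0 : ℝ), h (p.2.1 • p.1.1)
    ∂((volume : Measure E3).toSphere.prod (.volumeIoiPow 2)) := by
  have a := integral_subtype_comap (μ := (volume : Measure E3))
    (measurableSet_singleton (0 : E3)).compl h
  rw [restrict_compl_singleton] at a
  rw [← sb_mp.integral_comp (Homeomorph.measurableEmbedding _), ← a]
  exact congrArg _ (sb_comp h).symm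

theorem sb_rad_int (g : ℝ → F) : Integrable (fun r : Ioi (0 : ℝ) => g r) (.volumeIoiPow 2) ↔
    IntegrableOn (fun r : ℝ => r ^ 2 • g r) (Ioi 0) := by
  rw [integrableOn_iff_comap_subtypeVal measurableSet_Ioi, Function.comp_def, Measure.volumeIoiPow,
    integrable_withDensity_iff_integrable_smul' (by fun_prop) (by simp), integrable_congr]
  refine .of_forall ?_
  rintro ⟨x, hx : 0 < x⟩
  simp (disch := positivity) [ENNReal.toReal_ofReal]

theorem sb_rad_eq (g : ℝ → F) : ∫ r : Ioi (0 : ℝ), g r ∂(.volumeIoiPow 2)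
    = ∫ r in Ioi (0 : ℝ), r ^ 2 • g r := by
  simp only [Measure.volumeIoiPow, ENNReal.ofReal]
  rw [integral_withDensity_eq_integral_smul (measurable_subtype_coe.pow_const _).real_toNNReal,
    integral_subtype_comap measurableSet_Ioi fun a => Real.toNNReal (a ^ 2) • g a,
    setIntegral_congr_fun measurableSet_Ioi fun x _ => ?_]
  rw [NNReal.smul_def, Real.coe_toNNReal _ (sq_nonneg _)]

theorem sb_polar {h : E3 → ℂ} (hh : Integrable h) :
    IntegrableOn (fun r : ℝ => (r : ℂ) ^ 2 * ∫ ω : sphere (0 : E3) 1, h (r • ω.1)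
      ∂(volume : Measure E3).toSphere) (Ioi 0) ∧
    ∫ x, h x = ∫ r in Ioi (0 : ℝ), (r : ℂ) ^ 2 * ∫ ω : sphere (0 : E3) 1, h (r • ω.1)
      ∂(volume : Measure E3).toSphere := by
  have a := (sb_int h).1 hh
  have e : ∀ (r : ℝ) (z : ℂ), (r : ℂ) ^ 2 * z = r ^ 2 • z := fun r z => by
    rw [real_smul, ofReal_pow]
  simp only [e]
  refine ⟨(sb_rad_int _).1 a.integral_prod_right, ?_⟩
  rw [sb_eq, integral_prod_symm _ a, ← sb_rad_eq]

theorem sb_ne (r : Ioi (0 : ℝ)) (ω : sphere (0 : E3) 1) : r.1 • ω.1 ∈ ({0}ᶜ : Set E3) :=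
  smul_ne_zero (ne_of_gt r.2) (ne_zero_of_mem_unit_sphere ω)

theorem sb_sph {F : Type} [NormedAddCommGroup F] {h : E3 → F} (hh : ContinuousOn h {0}ᶜ) {r : ℝ}
    (hr : 0 < r) :
    Continuous fun ω : sphere (0 : E3) 1 => h (r • ω.1) :=
  hh.comp_continuous (by fun_prop) (sb_ne ⟨r, hr⟩)

theorem sb_sint {F : Type} [NormedAddCommGroup F] {g : sphere (0 : E3) 1 → F} (hg : Continuous g) :
    Integrable g (volume : Measure E3).toSphere :=
  hg.integrable_of_hasCompactSupport (HasCompactSupport.of_compactSpace g)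

theorem sb_polar_int {h : E3 → ℝ} (hh : ContinuousOn h {0}ᶜ) (h0 : ∀ x, 0 ≤ h x)
    (hi : IntegrableOn (fun r : ℝ => r ^ 2 * (∫ ω : sphere (0 : E3) 1, (h (r • ω.1) : ℂ)
      ∂(volume : Measure E3).toSphere).re) (Ioi 0)) : Integrable h := by
  have c : Continuous fun p : sphere (0 : E3) 1 × Ioi (0 : ℝ) => h (p.2.1 • p.1.1) :=
    hh.comp_continuous (by fun_prop) fun p => sb_ne p.2 p.1
  rw [sb_int, integrable_prod_iff' c.aestronglyMeasurable]
  refine ⟨.of_forall fun r => sb_sint (sb_sph hh r.2), ?_⟩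
  simp only [integral_complex_ofReal, ofReal_re] at hi
  simp only [Real.norm_of_nonneg (h0 _)]
  exact (sb_rad_int fun r => ∫ ω : sphere (0 : E3) 1, h (r • ω.1)
    ∂(volume : Measure E3).toSphere).2 hi

theorem sb_deriv {h : E3 → ℂ} (hh : ContDiffOn ℝ 1 h {0}ᶜ) {r : ℝ} (hr : 0 < r) :
    HasDerivAt (fun r : ℝ => ∫ ω : sphere (0 : E3) 1, h (r • ω.1) ∂(volume : Measure E3).toSphere)
      (∫ ω : sphere (0 : E3) 1, fderiv ℝ h (r • ω.1) ω.1 ∂(volume : Measure E3).toSphere) r := by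
  have o : IsOpen ({0}ᶜ : Set E3) := isOpen_compl_singleton
  have c : ContinuousOn (fderiv ℝ h) {0}ᶜ := hh.continuousOn_fderiv_of_isOpen o le_rfl
  have p : ∀ s ∈ Icc (r / 2) (2 * r), 0 < s := fun s hs => (half_pos hr).trans_le hs.1
  have k : Continuous fun q : Icc (r / 2) (2 * r) × sphere (0 : E3) 1 =>
      fderiv ℝ h (q.1.1 • q.2.1) q.2.1 :=
    (c.comp_continuous (f := fun q : Icc (r / 2) (2 * r) × sphere (0 : E3) 1 => q.1.1 • q.2.1)
      (by fun_prop) fun q => sb_ne ⟨q.1.1, p _ q.1.2⟩ q.2).clm_apply (by fun_prop)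
  obtain ⟨C, hC⟩ := isCompact_univ.exists_bound_of_continuousOn k.continuousOn
  refine (hasDerivAt_integral_of_dominated_loc_of_deriv_le (s := Icc (r / 2) (2 * r))
    (F := fun (r : ℝ) (ω : sphere (0 : E3) 1) => h (r • ω.1))
    (F' := fun (r : ℝ) (ω : sphere (0 : E3) 1) => fderiv ℝ h (r • ω.1) ω.1) (bound := fun _ => C)
    (Icc_mem_nhds (half_lt_self hr) (by linarith)) ?_ (sb_sint (sb_sph hh.continuousOn hr))
    (((sb_sph c hr).clm_apply (by fun_prop)).aestronglyMeasurable)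
    (.of_forall fun ω s hs => hC (⟨s, hs⟩, ω) trivial) (integrable_const _)
    (.of_forall fun ω s hs => ?_)).2
  · filter_upwards [Ioi_mem_nhds hr] with s hs
    exact (sb_sph hh.continuousOn hs).aestronglyMeasurable
  · have d := (hh.differentiableOn one_ne_zero).differentiableAt (o.mem_nhds (sb_ne ⟨s, p s hs⟩ ω))
    exact (d.hasFDerivAt.comp_hasDerivAt s ((hasDerivAt_id s).smul_const ω.1)).congr_deriv
      (by rw [one_smul])

end Pool.Agent.Lib.MP_2347b2_mp.Dirac
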