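import Pool.Agent.Lib.MP_2347b2_mp.F.Res
import Pool.Agent.Lib.MP_2347b2_mp.F.Mul

namespace Pool.Agent.Lib.MP_2347b2_mp.F

open MeasureTheory Set Filter Topology Complex

/-- standing hypotheses for the left side and the top -/
structure TopH (γ l R : ℝ) : Prop where
  h1 : γ ^ 2 ≤ 1
  hl : 0 ≤ l
  hR : 30 ≤ R
  hL : l * (l + 1) ≤ 2 * R
  hc : 1 - 3 * γ ^ 2 / 4 + 8 / R ≤ (0.6 * (l + 1)) ^ 2

variable {γ l R r : ℝ} {ε : ℂ}

theorem ell_basic (h1 : γ ^ 2 ≤ 1) (hR : 30 ≤ R) (hε : ε ∈ Ell (8 / R)) :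
    ε ∈ UU ∧ 8 / R ≤ A0 ε ∧ A0 ε ≤ 3 / 4 + 8 / R ∧ ‖ε‖ ≤ A0 ε ∧ ε.re ≤ 0 ∧ -3 / 4 ≤ ε.re ∧
    ε.im ≤ 8 / R ∧ 1 / 2 ≤ (Ec γ ε).re ∧ (Ec γ ε).re ≤ 1.01 ∧ ‖Ec γ ε‖ ≤ 1.02 := by
  have hT : 0 < 8 / R := by positivity
  have hT' : 8 / R ≤ 4 / 15 := by rw [div_le_iff₀ (by linarith)]; linarith
  have hU := Sides_subset hT (Ell_subset hε)
  have hy : 0 < ε.im := hU.2
  have k : -3 / 4 ≤ ε.re ∧ ε.re ≤ 0 ∧ ε.im ≤ 8 / R ∧ 8 / R ≤ ε.im - ε.re := by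
    rcases hε with ⟨a, _, c⟩ | ⟨a, b, c⟩
    · exact ⟨a.ge, by linarith, c, by linarith⟩
    · exact ⟨a, b, c.le, by linarith⟩
  obtain ⟨a, b, c, d⟩ := k
  obtain ⟨e1, e2, -, e4, -⟩ := Ec_strip h1 a b hy.le
  have e5 := norm_le_abs_re_add_abs_im ε
  rw [abs_of_nonpos b, abs_of_pos hy] at e5
  have e6 : ε.im ^ 2 ≤ (4 / 15) ^ 2 := pow_le_pow_left₀ hy.le (c.trans hT') 2
  refine ⟨hU, d, ?_, ?_, b, a, c, e1, ?_, ?_⟩
  · rw [A0]; linarith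
  · rw [A0]; linarith
  · linarith
  · linarith

theorem ta_lin (z : ℂ) {c s : ℝ} (h : c ^ 2 + s ^ 2 ≤ 1) : c * z.re - s * z.im ≤ ‖z‖ := by
  refine (le_abs_self _).trans (abs_le_of_sq_le_sq' ?_ (norm_nonneg _) |> abs_le.2)
  rw [Complex.sq_norm, normSq_apply]
  nlinarith [sq_nonneg (s * z.re + c * z.im), mul_nonneg (sub_nonneg.2 h)
    (add_nonneg (sq_nonneg z.re) (sq_nonneg z.im))]

theorem ta_Q (h1 : γ ^ 2 ≤ 1) (hl : 0 ≤ l) (hR : 30 ≤ R) (hε : ε ∈ Ell (8 / R)) {d : ℝ}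
    (hd : 0 < d) (hr : R ≤ d * r) :
    0 < r ∧ -ε.re - 0.2525 * d * (8 / R) ≤ (Qc γ l ε r).re ∧ (Qc γ l ε r).im ≤ -ε.im ∧
      2 * (W0 γ l ε r).re ^ 2 = ‖Qc γ l ε r‖ + (Qc γ l ε r).re := by
  obtain ⟨hU, -, -, -, -, -, -, e1, e2, -⟩ := ell_basic h1 hR hε
  have r0 : 0 < r := (mul_pos_iff_of_pos_left hd).1 (by linarith)
  have i0 := Ec_im_nonneg h1 hU.1 hU.2.le
  refine ⟨r0, ?_, ?_, (sqrt_facts (Qc_im_neg h1 hU r0)).2.2.2.1⟩
  · have a : 0 ≤ l * (l + 1) / r ^ 2 := by positivity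
    have b : 2 * (Ec γ ε).re / r ≤ 0.2525 * d * (8 / R) := by
      rw [div_le_iff₀ r0, show 0.2525 * d * (8 / R) * r = 2.02 * (d * r / R) by ring]
      have : 1 ≤ d * r / R := (one_le_div (by linarith)).2 hr
      linarith
    rw [Qc_re]
    linarith
  · have a : 0 ≤ 2 * (Ec γ ε).im / r := by positivity
    rw [Qc_im]
    linarith

theorem W0_half (h1 : γ ^ 2 ≤ 1) (hl : 0 ≤ l) (hR : 30 ≤ R) (hε : ε ∈ Ell (8 / R))
    (hr : R / 2 ≤ r) : 0.3 * A0 ε ≤ (W0 γ l ε r).re ^ 2 ∧ 0.55 * A0 ε ≤ ‖Qc γ l ε r‖ := by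
  obtain ⟨-, a, b, c⟩ := ta_Q h1 hl hR hε (d := 2) (r := r) two_pos (by linarith)
  have hT : 0 < 8 / R := by positivity
  have hT' : 8 / R ≤ 4 / 15 := by rw [div_le_iff₀ (by linarith)]; linarith
  have q0 := re_le_norm (Qc γ l ε r)
  have q1 := ta_lin (Qc γ l ε r) (c := 0.55) (s := 0.83) (by norm_num)
  have q2 := ta_lin (Qc γ l ε r) (c := -0.4) (s := 0.91) (by norm_num)
  rw [A0]
  rcases hε with ⟨e, f, g⟩ | ⟨e, f, g⟩
  · constructor <;> linarith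
  · constructor <;> linarith

theorem W0_full (h1 : γ ^ 2 ≤ 1) (hl : 0 ≤ l) (hR : 30 ≤ R) (hε : ε ∈ Ell (8 / R))
    (hr : R ≤ r) : 0.385 * A0 ε ≤ (W0 γ l ε r).re ^ 2 ∧ 0.62 * A0 ε ≤ ‖Qc γ l ε r‖ := by
  obtain ⟨-, a, b, c⟩ := ta_Q h1 hl hR hε (d := 1) (r := r) one_pos (by linarith)
  have hT : 0 < 8 / R := by positivity
  have hT' : 8 / R ≤ 4 / 15 := by rw [div_le_iff₀ (by linarith)]; linarith
  have q0 := re_le_norm (Qc γ l ε r)
  have q1 := ta_lin (Qc γ l ε r) (c := 0.62) (s := 0.78) (by norm_num)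
  have q2 := ta_lin (Qc γ l ε r) (c := -0.23) (s := 0.97) (by norm_num)
  rw [A0]
  rcases hε with ⟨e, f, g⟩ | ⟨e, f, g⟩
  · constructor <;> linarith
  · constructor <;> linarith

theorem ta_step (h : TopH γ l R) (hε : ε ∈ Ell (8 / R)) (hr : R ≤ r) {B : ℝ}
    (hB : B = 0.67 * (l * (l + 1) / R + 1.02) / (R ^ 2 * (A0 ε * √(A0 ε)))) :
    0 < B ∧ ‖(Ec γ ε - (l * (l + 1) / r : ℝ)) / (2 * r ^ 2 * Qc γ l ε r)‖ * (1 + B ^ 2)
      < 2 * (W0 γ l ε r).re * B := by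
  obtain ⟨h1, hl, hR, hL, -⟩ := h
  obtain ⟨hU, a1, -, -, -, -, -, -, -, e⟩ := ell_basic h1 hR hε
  obtain ⟨w1, w2⟩ := W0_full h1 hl hR hε hr
  have R0 : 0 < R := by linarith
  have r0 : 0 < r := by linarith
  have hA : 0 < A0 ε := lt_of_lt_of_le (by positivity) a1
  have hs : 0 < √(A0 ε) := Real.sqrt_pos.2 hA
  have ss : √(A0 ε) ^ 2 = A0 ε := Real.sq_sqrt hA.le
  have w0 : 0 < (W0 γ l ε r).re := (sqrt_facts (Qc_im_neg h1 hU r0)).1
  have w3 : 0.62 * √(A0 ε) ≤ (W0 γ l ε r).re := le_of_sq_le_sq (by nlinarith) w0.le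
  have a2 : 8 ≤ R * A0 ε := by rwa [div_le_iff₀' R0] at a1
  have a3 : 15 ≤ R * √(A0 ε) := le_of_sq_le_sq (by rw [mul_pow, ss]; nlinarith) (by positivity)
  have a4 : 120 ≤ R ^ 2 * (A0 ε * √(A0 ε)) := by
    have := mul_le_mul a2 a3 (by norm_num) (by positivity)
    linarith
  have l0 : 0 ≤ l * (l + 1) / R := by positivity
  have l1 : l * (l + 1) / R ≤ 2 := by rwa [div_le_iff₀ R0]
  have l2 : l * (l + 1) / r ≤ l * (l + 1) / R := by gcongr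
  have B0 : 0 < B := by rw [hB]; positivity
  have B1 : B ≤ 0.1 := by
    rw [hB, div_le_iff₀ (by positivity)]
    linarith
  have B2 : B ^ 2 ≤ 0.1 ^ 2 := pow_le_pow_left₀ B0.le B1 2
  have k : ‖(Ec γ ε - (l * (l + 1) / r : ℝ)) / (2 * r ^ 2 * Qc γ l ε r)‖
      ≤ (l * (l + 1) / R + 1.02) / (2 * R ^ 2 * (0.62 * A0 ε)) := by
    rw [norm_div, norm_mul, norm_mul, norm_pow, norm_real, Real.norm_of_nonneg r0.le,
      Complex.norm_two]
    refine div_le_div₀ (by positivity) ((norm_sub_le _ _).trans ?_) (by positivity) (by gcongr)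
    rw [norm_real, Real.norm_of_nonneg (by positivity)]
    linarith
  have k2 : (l * (l + 1) / R + 1.02) / (2 * R ^ 2 * (0.62 * A0 ε))
      = √(A0 ε) * B / (1.24 * 0.67) := by
    rw [hB]
    field_simp
    ring
  rw [k2] at k
  have P : 0 < √(A0 ε) * B := by positivity
  have k3 := mul_le_mul k (show 1 + B ^ 2 ≤ 1.01 by linarith) (by positivity) (by positivity)
  have k4 := mul_le_mul_of_nonneg_right w3 B0.le
  refine ⟨B0, k3.trans_lt ?_⟩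
  generalize (W0 γ l ε r).re = x at *
  have e1 : √(A0 ε) * B / (1.24 * 0.67) * 1.01 = 1.01 / (1.24 * 0.67) * (√(A0 ε) * B) := by ring
  rw [e1]
  norm_num at k4 ⊢
  linarith

theorem rp0_le (h : TopH γ l R) (hε : ε ∈ Ell (8 / R)) :
    ‖rp0 γ l R ε‖ ≤ 0.67 * (l * (l + 1) / R + 1.02) / (R ^ 2 * (A0 ε * √(A0 ε))) := by
  have hb := fun r (hr : R ≤ r) => ta_step (r := r) h hε hr rfl
  obtain ⟨h1, hl, hR, hL, -⟩ := h
  have hU := (ell_basic h1 hR hε).1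
  have R0 : 0 < R := by linarith
  obtain ⟨q, hq, lim⟩ := approx h1 hl hU (fun M => if 0 < M then W0 γ l ε M else 0) fun M => by
    by_cases c : 0 < M
    · rw [if_pos c]
      exact (wf_W0 h1 hU c).le
    · rw [if_neg c]
      exact le_rfl
  have hne : W0 γ l ε R + mp γ l R ε ≠ 0 :=
    wf_ne (add_neg (wf_W0 h1 hU R0) (mp_im_neg h1 hl hU R0))
  have T : Tendsto (fun M => ‖rf (W0 γ l ε R) (q M R)‖) atTop (𝓝 ‖rp0 γ l R ε‖) :=
    ((tendsto_const_nhds.sub (lim R R0)).div (tendsto_const_nhds.add (lim R R0)) hne).norm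
  refine le_of_tendsto T ((eventually_ge_atTop R).mono fun M hM => ?_)
  obtain ⟨q1, q2⟩ := hq M (by linarith)
  generalize 0.67 * (l * (l + 1) / R + 1.02) / (R ^ 2 * (A0 ε * √(A0 ε))) = B at hb ⊢
  have B0 := (hb R le_rfl).1
  refine fence_bwd (ρ := fun r => rf (W0 γ l ε r) (q M r)) (B := fun _ => B) (B' := fun _ => 0)
    (ρ' := fun r => 2 * W0 γ l ε r * rf (W0 γ l ε r) (q M r)
      + (Ec γ ε - (l * (l + 1) / r : ℝ)) / (2 * r ^ 2 * Qc γ l ε r)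
        * (1 - rf (W0 γ l ε r) (q M r) ^ 2)) (a := R) (b := M) (fun r hr => ?_)
    (fun r _ => hasDerivAt_const r B) (fun _ _ => B0) ?_ (fun r hr e => ?_) R ⟨le_rfl, hM⟩
  · have r0 : 0 < r := by linarith [hr.1]
    obtain ⟨d, i, -⟩ := q2 r ⟨r0, hr.2⟩
    refine (rf_deriv (h := -1) (W0_deriv h1 hU r0) (d.congr_deriv (by rw [W0_sq]; ring))
      (wf_ne (wf_W0 h1 hU r0))
      (wf_ne (add_neg_of_neg_of_nonpos (wf_W0 h1 hU r0) i))).congr_deriv ?_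
    rw [← W0_sq]
    ring
  · rw [q1, if_pos (by linarith), rf, sub_self, zero_div, norm_zero]
    exact B0.le
  · refine lt_of_lt_of_le ?_ (rf_re_ge _ _ _)
    rw [e, mul_zero]
    exact mul_pos B0 (sub_pos.2 (hb r hr.1).2)

theorem rm0_im (h1 : γ ^ 2 ≤ 1) (hl : 0 ≤ l) (hε : ε ∈ UU) (hr : 0 < r) :
    ‖rm0 γ l r ε‖ ≤ 1 + 4 * ‖Qc γ l ε r‖ / ε.im := by
  obtain ⟨a, b, -, c, -, d, -⟩ := sqrt_facts (Qc_im_neg (l := l) h1 hε hr)
  have hy : 0 < ε.im := hε.2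
  have i0 := Ec_im_nonneg h1 hε.1 hy.le
  have i1 : 0 ≤ 2 * (Ec γ ε).im / r := by positivity
  have q0 := re_le_norm (Qc γ l ε r)
  refine (rf_le_im b (mm_im_neg h1 hl hε hr).le a.le).trans (add_le_add le_rfl ?_)
  rw [Qc_im] at d
  rw [div_le_div_iff₀ (by linarith) hy]
  generalize (Complex.sqrt (Qc γ l ε r)).re = x at *
  generalize (Complex.sqrt (Qc γ l ε r)).im = p at *
  have k1 : x * ε.im ≤ x * (2 * x * -p) := mul_le_mul_of_nonneg_left (by linarith) a.le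
  have k2 : x ^ 2 * -p ≤ ‖Qc γ l ε r‖ * -p := mul_le_mul_of_nonneg_right (by linarith) (by linarith)
  linarith

theorem rm0_left (h : TopH γ l R) (hε : ε ∈ Ell (8 / R)) (hre : ε.re = -3 / 4) (hr : R / 2 ≤ r) :
    ‖rm0 γ l r ε‖ ≤ 7.7 := by
  obtain ⟨h1, hl, hR, -, hc⟩ := h
  obtain ⟨r0, a, -, c⟩ := ta_Q h1 hl hR hε (d := 2) (r := r) two_pos (by linarith)
  obtain ⟨hU, -, -, -, b1, b2, b3, -⟩ := ell_basic h1 hR hε
  have hT' : 8 / R ≤ 4 / 15 := by rw [div_le_iff₀ (by linarith)]; linarith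
  have q0 := re_le_norm (Qc γ l ε r)
  have w0 : 0 < (W0 γ l ε r).re := (sqrt_facts (Qc_im_neg h1 hU r0)).1
  have w1 : 0.78 ≤ (W0 γ l ε r).re := le_of_sq_le_sq (by linarith) w0.le
  have e := (Ec_strip h1 b2 b1 hU.2.le).2.2.2.2.2.2
  have e1 : ‖Ec γ ε‖ ≤ 0.6 * (l + 1) := le_of_sq_le_sq (by rw [hre] at e; linarith) (by positivity)
  have m := mm_re_ge h1 hl hU r0 (c := 0.6) ((re_le_norm _).trans e1) (by rw [hre]; norm_num)
  have m1 : 0 ≤ (l + 1) / r := by positivity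
  exact (rf_le_re (a := 0.78) (c := 0.6) (by norm_num) (by norm_num) w1 (wf_W0 h1 hU r0).le
    (mm_im_neg h1 hl hU r0).le (by linarith)).trans (by norm_num)

theorem tb_k {k q e r R A ρ : ℝ} (hk : 0 ≤ k) (hA : 0 < A) (h1 : k * (2 * r ^ 2 * q) ≤ e)
    (hq : 0.55 * A ≤ q) (hr : R / 2 ≤ r) (hAR : 8 ≤ A * R) (hR : 30 ≤ R)
    (hρ : ρ ≤ 1 + q * R / 2 ∨ ρ ≤ 7.7 ∧ 3 / 4 ≤ A) :
    k * ρ * R ≤ 1.46 * e ∧ k * (1.1 * r ^ 2 * A) ≤ e := by
  have hq0 : 0 < q := by linarith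
  have hR0 : 0 < R := by linarith
  have h2 : R ^ 2 ≤ 4 * r ^ 2 := by nlinarith
  have h3 : k * q * R ^ 2 ≤ 2 * e := by
    have := mul_le_mul_of_nonneg_left h2 (mul_nonneg hk hq0.le)
    linarith
  have h4 : k * R ^ 2 * (0.55 * A) ≤ 2 * e := by
    have := mul_le_mul_of_nonneg_left hq (mul_nonneg hk (sq_nonneg R))
    linarith
  have hkR : 0 ≤ k * R := mul_nonneg hk hR0.le
  refine ⟨?_, ?_⟩
  · rcases hρ with h | ⟨h, h'⟩
    · have h5 := mul_le_mul_of_nonneg_left hAR hkR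
      have h6 := mul_le_mul_of_nonneg_left h hkR
      linarith
    · have h5 : 22.5 ≤ A * R := by nlinarith
      have h6 := mul_le_mul_of_nonneg_left h5 hkR
      have h7 := mul_le_mul_of_nonneg_left h hkR
      linarith
  · have := mul_le_mul_of_nonneg_left hq (mul_nonneg hk (sq_nonneg r))
    linarith

theorem tb_contact {k r s c w lam e R : ℝ} (hs : 0 < s) (hr0 : 0 < r) (hc0 : 0 < c) (hw0 : 0 < w)
    (h1 : k * (1.1 * r ^ 2 * s ^ 2) ≤ e) (hr : R / 2 ≤ r) (hw : w ≤ R * s)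
    (hc : e * w < 1.1 * c * (lam * w - 4)) :
    k < lam * s * (c / s ^ 3 / r ^ 2) - 2 * (c / s ^ 3) / r ^ 3 := by
  have e1 : lam * s * (c / s ^ 3 / r ^ 2) - 2 * (c / s ^ 3) / r ^ 3
      = c * (lam * (s * r) - 2) / (s * r) ^ 3 := by field_simp
  have ht : 0 < s * r := mul_pos hs hr0
  have h2 : w ≤ 2 * (s * r) := by nlinarith
  have h3 : 4.4 * c < w * (1.1 * c * lam - e) := by linarith
  have h4 : 0 < 1.1 * c * lam - e := by
    by_contra h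
    have := mul_nonpos_of_nonneg_of_nonpos hw0.le (not_lt.1 h)
    linarith
  have h5 := mul_le_mul_of_nonneg_right h2 h4.le
  have h6 := mul_le_mul_of_nonneg_right h1 ht.le
  rw [e1, lt_div_iff₀ (pow_pos ht 3)]
  linarith

theorem tb_exp {x : ℝ} (hx : 0 ≤ x) : (0.54 * x) ^ 5 ≤ Real.exp x := by
  have h1 := Real.add_one_le_exp (x / 5 - 1)
  have h2 := Real.exp_one_gt_d9
  have h3 : Real.exp (x / 5) = Real.exp (x / 5 - 1) * Real.exp 1 := by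
    rw [← Real.exp_add]; ring_nf
  have h4 : 0.54 * x ≤ Real.exp (x / 5) := by
    rw [h3]; nlinarith [Real.exp_pos (x / 5 - 1)]
  have h5 : Real.exp x = Real.exp (x / 5) ^ 5 := by
    rw [← Real.exp_nat_mul]; ring_nf
  rw [h5]
  exact pow_le_pow_left₀ (by positivity) h4 5

theorem tb_E {E : ℂ} {x e : ℝ} (h1 : 1 / 2 ≤ E.re) (h2 : ‖E‖ ≤ 1.02) (hx : 0 ≤ x) (he : 0 ≤ e)
    (h : 1.0404 - x + x ^ 2 ≤ e ^ 2) : ‖E - x‖ ≤ e := by
  refine (sq_le_sq₀ (norm_nonneg _) he).1 ?_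
  have h3 : ‖E‖ ^ 2 ≤ 1.0404 := by nlinarith [norm_nonneg E]
  rw [Complex.sq_norm, normSq_apply] at h3 ⊢
  rw [sub_re, sub_im, ofReal_re, ofReal_im]
  nlinarith

theorem tb_ap (h : TopH γ l R) (hε : ε ∈ Ell (8 / R)) (hr : R / 2 ≤ r) :
    ‖rm0 γ l r ε‖ ≤ 1 + ‖Qc γ l ε r‖ * R / 2 ∨ ‖rm0 γ l r ε‖ ≤ 7.7 ∧ 3 / 4 ≤ A0 ε := by
  have hR := h.hR
  rcases id hε with h1 | h1
  · refine .inr ⟨rm0_left h hε h1.1 hr, ?_⟩
    unfold A0
    linarith [h1.1, h1.2.1]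
  · have h2 := rm0_im h.h1 h.hl (ell_basic h.h1 hR hε).1 (show 0 < r by linarith)
    have e1 : 4 * ‖Qc γ l ε r‖ / (8 / R) = ‖Qc γ l ε r‖ * R / 2 := by field_simp; ring
    rw [h1.2.2, e1] at h2
    exact .inl h2

theorem tb_init (h : TopH γ l R) (hε : ε ∈ Ell (8 / R)) :
    ‖rm0 γ l (R / 2) ε‖ ≤ 1.4 * (A0 ε * R) := by
  have hR := h.hR
  have hR0 : 0 < R := by linarith
  obtain ⟨-, hA1, -, hn, -, -, -, -, -, hE⟩ := ell_basic h.h1 hR hε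
  have hAR : 8 ≤ A0 ε * R := (div_le_iff₀ hR0).1 hA1
  rcases tb_ap h hε le_rfl with h1 | ⟨h1, -⟩
  · have e1 : Qc γ l ε (R / 2)
        = ((4 * (l * (l + 1)) / R ^ 2 : ℝ) : ℂ) - ((4 / R : ℝ) : ℂ) * Ec γ ε - ε := by
      have h0 : (R : ℂ) ≠ 0 := ofReal_ne_zero.2 hR0.ne'
      unfold Qc; push_cast; field_simp; ring
    have hL0 : 0 ≤ l * (l + 1) := mul_nonneg h.hl (by linarith [h.hl])
    have h2 : ‖Qc γ l ε (R / 2)‖ ≤ 4 * (l * (l + 1)) / R ^ 2 + 4 / R * ‖Ec γ ε‖ + ‖ε‖ := by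
      rw [e1]
      refine (norm_sub_le _ _).trans (add_le_add ((norm_sub_le _ _).trans ?_) le_rfl)
      rw [norm_mul, norm_real, norm_real, Real.norm_of_nonneg (by positivity),
        Real.norm_of_nonneg (by positivity)]
    have h3 : (4 * (l * (l + 1)) / R ^ 2 + 4 / R * ‖Ec γ ε‖ + ‖ε‖) * R
        = 4 * (l * (l + 1) / R) + 4 * ‖Ec γ ε‖ + ‖ε‖ * R := by field_simp
    have h4 : l * (l + 1) / R ≤ 2 := (div_le_iff₀ hR0).2 h.hL
    have h5 := mul_le_mul_of_nonneg_right h2 hR0.le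
    have h6 := mul_le_mul_of_nonneg_right hn hR0.le
    linarith
  · linarith

theorem tb_gen (h : TopH γ l R) (hε : ε ∈ Ell (8 / R)) {e w lam c d : ℝ}
    (he : ∀ r ∈ Icc (R / 2) R, ‖Ec γ ε - (l * (l + 1) / r : ℝ)‖ ≤ e) (hw0 : 0 < w)
    (hw : w ^ 2 ≤ 8 * R) (hl0 : 0 < lam) (hl1 : lam ≤ 1.095)
    (hlam : lam * w + 1.46 * e ≤ 1.095 * w) (hc0 : 0 < c)
    (hc : e * w < 1.1 * c * (lam * w - 4)) (hd0 : 0 ≤ d)
    (hd : 1.4 ≤ d * (0.27 * lam) ^ 5 * R ^ 2) :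
    ‖rm0 γ l R ε‖ ≤ (c + d) / (R ^ 2 * (A0 ε * √(A0 ε))) := by
  have hR := h.hR
  have hR0 : 0 < R := by linarith
  obtain ⟨hU, hA1, -⟩ := ell_basic h.h1 hR hε
  have hAR : 8 ≤ A0 ε * R := (div_le_iff₀ hR0).1 hA1
  have hA : 0 < A0 ε := lt_of_lt_of_le (by positivity) hA1
  have hi := tb_init h hε
  obtain ⟨s, hs0, hs, hs'⟩ : ∃ s : ℝ, 0 < s ∧ A0 ε = s ^ 2 ∧ √(A0 ε) = s :=
    ⟨_, Real.sqrt_pos.2 hA, (Real.sq_sqrt hA.le).symm, rfl⟩
  have hws : w ≤ R * s := by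
    refine (sq_le_sq₀ hw0.le (by positivity)).1 ?_
    rw [hs] at hAR
    nlinarith
  obtain ⟨ρ0, hρ0⟩ : ∃ ρ0, ρ0 = 1.4 * (A0 ε * R) := ⟨_, rfl⟩
  have hρp : 0 < ρ0 := by rw [hρ0]; positivity
  have hf := fence_fwd (a := R / 2) (b := R) (ρ := fun r => rm0 γ l r ε)
    (B := fun r => c / s ^ 3 / r ^ 2 + ρ0 * Real.exp (-(lam * s) * (r - R / 2)))
    (B' := fun r => -(2 * (c / s ^ 3) / r ^ 3)
      + ρ0 * (Real.exp (-(lam * s) * (r - R / 2)) * -(lam * s)))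
    (fun r hr => rm0_deriv h.h1 h.hl hU (show 0 < r by linarith [hr.1])) ?_ ?_ ?_ ?_ R
    ⟨by linarith, le_rfl⟩
  · refine hf.trans ?_
    have hx := tb_exp (x := lam * s * (R / 2)) (by positivity)
    have e1 : -(lam * s) * (R - R / 2) = -(lam * s * (R / 2)) := by ring
    have e2 : c / s ^ 3 / R ^ 2 = c / (R ^ 2 * (s ^ 2 * s)) := by field_simp
    rw [hs', hρ0, hs, add_div, e1, e2, Real.exp_neg, ← div_eq_mul_inv]
    refine add_le_add le_rfl ?_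
    rw [div_le_div_iff₀ (Real.exp_pos _) (by positivity)]
    have h1 := mul_le_mul_of_nonneg_left hx hd0
    have h2 := mul_le_mul_of_nonneg_right hd (show 0 ≤ s ^ 5 * R ^ 3 by positivity)
    linarith
  · intro r hr
    have hr0 : 0 < r := by linarith [hr.1]
    have d1 : HasDerivAt (fun r : ℝ => c / s ^ 3 / r ^ 2) (-(2 * (c / s ^ 3) / r ^ 3)) r := by
      refine ((hasDerivAt_const r (c / s ^ 3)).div (hasDerivAt_pow 2 r)
        (pow_ne_zero 2 hr0.ne')).congr_deriv ?_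
      field_simp
      ring
    have d2 : HasDerivAt (fun r : ℝ => -(lam * s) * (r - R / 2)) (-(lam * s)) r :=
      (((hasDerivAt_id' r).sub_const (R / 2)).const_mul (-(lam * s))).congr_deriv (mul_one _)
    exact d1.add (d2.exp.const_mul ρ0)
  · intro r hr
    have hr0 : 0 < r := by linarith [hr.1]
    positivity
  · have h1 : 0 ≤ c / s ^ 3 / (R / 2) ^ 2 := by positivity
    simp only [sub_self, mul_zero, Real.exp_zero]
    linarith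
  · intro r hr hB
    have hr0 : 0 < r := by linarith [hr.1]
    obtain ⟨hW, hQ⟩ := W0_half h.h1 h.hl hR hε hr.1
    have hW0 : 0 < (W0 γ l ε r).re := (sqrt_facts (Qc_im_neg h.h1 hU hr0)).1
    have ha : 0.5475 * s ≤ (W0 γ l ε r).re := by
      refine (sq_le_sq₀ (by positivity) hW0.le).1 ?_
      rw [hs] at hW
      nlinarith
    have hq0 : 0 < ‖Qc γ l ε r‖ := by linarith
    refine (rf_re_le _ _ _).trans_lt ?_
    obtain ⟨k, hk⟩ : ∃ k, k = ‖(Ec γ ε - (l * (l + 1) / r : ℝ)) / (2 * r ^ 2 * Qc γ l ε r)‖ :=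
      ⟨_, rfl⟩
    have hk0 : 0 ≤ k := hk ▸ norm_nonneg _
    have hk1 : k * (2 * r ^ 2 * ‖Qc γ l ε r‖) ≤ e := by
      rw [hk, norm_div, norm_mul, norm_mul, norm_pow, norm_real, Real.norm_of_nonneg hr0.le,
        Complex.norm_ofNat, div_mul_cancel₀ _ (by positivity)]
      exact he r hr
    obtain ⟨h2, h3⟩ := tb_k hk0 hA hk1 hQ hr.1 hAR hR (tb_ap h hε hr.1)
    rw [hs] at h3
    have h4 := tb_contact hs0 hr0 hc0 hw0 h3 hr.1 hws hc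
    have h5 : k * ‖rm0 γ l r ε‖ ≤ (1.095 - lam) * s := by
      have h6 := mul_le_mul_of_nonneg_left hws (show 0 ≤ 1.095 - lam by linarith)
      refine le_of_mul_le_mul_right ?_ hR0
      linarith
    rw [← hk]
    have hB' : ‖rm0 γ l r ε‖
        = c / s ^ 3 / r ^ 2 + ρ0 * Real.exp (-(lam * s) * (r - R / 2)) := hB
    have hp : 0 < ‖rm0 γ l r ε‖ := by rw [hB']; positivity
    show _ < (c / s ^ 3 / r ^ 2 + ρ0 * Real.exp (-(lam * s) * (r - R / 2))) * _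
    rw [← hB']
    refine mul_lt_mul_of_pos_left ?_ hp
    have h7 := mul_le_mul_of_nonneg_right h5 hp.le
    have h8 := mul_le_mul_of_nonneg_right ha hp.le
    have h9 : lam * s * ‖rm0 γ l r ε‖ = lam * s * (c / s ^ 3 / r ^ 2)
        + lam * s * (ρ0 * Real.exp (-(lam * s) * (r - R / 2))) := by rw [hB']; ring
    linarith

theorem rm0_le2 (h : TopH γ l R) (hε : ε ∈ Ell (8 / R)) :
    ‖rm0 γ l R ε‖ ≤ 24 / (R ^ 2 * (A0 ε * √(A0 ε))) := by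
  have hR := h.hR
  obtain ⟨-, -, -, -, -, -, -, hE1, -, hE⟩ := ell_basic h.h1 hR hε
  have hL0 : 0 ≤ l * (l + 1) := mul_nonneg h.hl (by linarith [h.hl])
  have h1 := tb_gen h hε (e := 3.62) (w := 15.4) (lam := 0.75) (c := 7) (d := 17) ?_ (by norm_num)
    (by linarith) (by norm_num) (by norm_num) (by norm_num) (by norm_num) (by norm_num)
    (by norm_num) (by nlinarith)
  · rwa [show (7 : ℝ) + 17 = 24 by norm_num] at h1
  · intro r hr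
    have hr0 : 0 < r := by linarith [hr.1]
    have h2 : l * (l + 1) / r ≤ 4 := (div_le_iff₀ hr0).2 (by linarith [h.hL, hr.1])
    have h3 : 0 ≤ l * (l + 1) / r := by positivity
    exact tb_E hE1 hE h3 (by norm_num) (by nlinarith)

theorem rm0_le1 (h : TopH γ l R) (hR : 100 ≤ R) (hL : l * (l + 1) ≤ R / 2)
    (hε : ε ∈ Ell (8 / R)) : ‖rm0 γ l R ε‖ ≤ 2.2 / (R ^ 2 * (A0 ε * √(A0 ε))) := by
  obtain ⟨-, -, -, -, -, -, -, hE1, -, hE⟩ := ell_basic h.h1 h.hR hε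
  have hL0 : 0 ≤ l * (l + 1) := mul_nonneg h.hl (by linarith [h.hl])
  have h1 := tb_gen h hε (e := 1.02) (w := 28) (lam := 1.04) (c := 1.1) (d := 1.1) ?_ (by norm_num)
    (by linarith) (by norm_num) (by norm_num) (by norm_num) (by norm_num) (by norm_num)
    (by norm_num) (by nlinarith)
  · rwa [show (1.1 : ℝ) + 1.1 = 2.2 by norm_num] at h1
  · intro r hr
    have hr0 : 0 < r := by linarith [hr.1]
    have h2 : l * (l + 1) / r ≤ 1 := (div_le_iff₀ hr0).2 (by linarith [hr.1])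
    have h3 : 0 ≤ l * (l + 1) / r := by positivity
    exact tb_E hE1 hE h3 (by norm_num) (by nlinarith)

end Pool.Agent.Lib.MP_2347b2_mp.F
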