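import Pool.Agent.Lib.MP_2347b2_mp.F.WF

namespace Pool.Agent.Lib.MP_2347b2_mp.F

open MeasureTheory Set Filter Topology Complex

theorem vla_real {u Y p V : ℝ} (hV : 1 ≤ V) (hp : 0 < p) (hY : 0 < Y)
    (h : (u ^ 2 + (Y - p) ^ 2) / (2 * (Y * p)) ≤ (V - 1) ^ 2 / (2 * V)) :
    p / V ≤ Y ∧ Y ≤ p * V ∧ u ^ 2 + (Y - p) ^ 2 ≤ (p * (V - 1)) ^ 2 := by
  have V0 : 0 < V := by linarith
  rw [div_le_div_iff₀ (by positivity) (by positivity)] at h
  have hu : 0 ≤ u ^ 2 * V := by positivity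
  have k : (V * Y - p) * (Y - V * p) ≤ 0 := by nlinarith
  have a : Y ≤ p * V := by
    by_contra c
    have c1 : 0 < Y - V * p := by linarith
    have c2 : 0 < V * Y - p := by
      linarith [mul_le_mul_of_nonneg_right hV hY.le, mul_le_mul_of_nonneg_right hV hp.le]
    linarith [mul_pos c2 c1]
  refine ⟨?_, a, ?_⟩
  · rw [div_le_iff₀ V0]
    by_contra c
    have c1 : V * Y - p < 0 := by linarith
    have c2 : Y - V * p < 0 := by
      linarith [mul_le_mul_of_nonneg_right hV hY.le, mul_le_mul_of_nonneg_right hV hp.le]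
    linarith [mul_pos_of_neg_of_neg c1 c2]
  · refine le_of_mul_le_mul_right ?_ (show 0 < 2 * V by positivity)
    refine h.trans ?_
    have := mul_le_mul_of_nonneg_left a (show 0 ≤ (V - 1) ^ 2 * (2 * p) by positivity)
    nlinarith

theorem vla_ball {w n : ℂ} {V : ℝ} (hV : 1 ≤ V) (hw : w.im < 0) (hn : n.im < 0)
    (h : ‖n - w‖ ^ 2 / (2 * (n.im * w.im)) ≤ (V - 1) ^ 2 / (2 * V)) :
    -w.im / V ≤ -n.im ∧ -n.im ≤ -w.im * V ∧ ‖n - w‖ ≤ -w.im * (V - 1) := by
  have e : ‖n - w‖ ^ 2 = (n.re - w.re) ^ 2 + (-n.im - -w.im) ^ 2 := by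
    rw [Complex.sq_norm, normSq_apply, sub_re, sub_im]; ring
  obtain ⟨a, b, c⟩ := vla_real (u := n.re - w.re) (Y := -n.im) (p := -w.im) hV (by linarith)
    (by linarith) (by rwa [← e, neg_mul_neg])
  refine ⟨a, b, ?_⟩
  rw [← e] at c
  exact (pow_le_pow_iff_left₀ (norm_nonneg _)
    (mul_nonneg (by linarith) (by linarith)) two_ne_zero).1 c

/-- the inequality at a contact point -/
theorem vla_contact {u Y a p V s a' p' β θ P m c : ℝ} (hp : 0 < p) (hY : 0 < Y) (ha : 0 < a)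
    (hs : 0 < s) (hβ : 0 ≤ β) (hθ : 0 < θ) (hP : 0 < P) (hPp : P ≤ p ^ 2) (hm : p ≤ m)
    (hd : a' ^ 2 + p' ^ 2 ≤ ((β + θ) / (2 * m)) ^ 2) (hap : θ * s ^ 2 ≤ 2 * a * p)
    (hc : 1 / 2 < c) (hcs : c ≤ s * m) (hV : c < V * (c - 1 / 2))
    (hZ : (u ^ 2 + (Y - p) ^ 2) / (2 * (Y * p)) = (V - 1) ^ 2 / (2 * V)) :
    (V ^ 2 - 1) / (2 * V) * (-(β / (2 * P)))
      < 2 * a * (1 + p / Y) * ((u ^ 2 + (Y - p) ^ 2) / (2 * (Y * p))) / s
        + (-(u / (Y * p)) * a' + (p ^ 2 - u ^ 2 - Y ^ 2) / (2 * Y * p ^ 2) * p') := by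
  have V1 : 1 < V := by
    by_contra h
    nlinarith [mul_le_mul_of_nonneg_right (not_lt.1 h) (show 0 ≤ c - 1 / 2 by linarith)]
  have V0 : 0 < V := by linarith
  have m0 : 0 < m := by linarith
  obtain ⟨-, b, -⟩ := vla_real V1.le hp hY hZ.le
  have g : (-(u / (Y * p))) ^ 2 + ((p ^ 2 - u ^ 2 - Y ^ 2) / (2 * Y * p ^ 2)) ^ 2
      = ((V ^ 2 - 1) / (2 * V) / p) ^ 2 := by
    have e1 : (-(u / (Y * p))) ^ 2 + ((p ^ 2 - u ^ 2 - Y ^ 2) / (2 * Y * p ^ 2)) ^ 2
        = (((u ^ 2 + (Y - p) ^ 2) / (2 * (Y * p)) + 1) ^ 2 - 1) / p ^ 2 := by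
      field_simp; ring
    rw [e1, hZ]; field_simp; ring
  rw [hZ]
  generalize -(u / (Y * p)) = g1 at g ⊢
  generalize (p ^ 2 - u ^ 2 - Y ^ 2) / (2 * Y * p ^ 2) = g2 at g ⊢
  have S0 : 0 < (V ^ 2 - 1) / (2 * V) := div_pos (by nlinarith) (by positivity)
  have cs : -((V ^ 2 - 1) / (2 * V) / p * ((β + θ) / (2 * m))) ≤ g1 * a' + g2 * p' := by
    refine (abs_le_of_sq_le_sq' ?_ (by positivity)).1
    rw [mul_pow, ← g]
    have := mul_le_mul_of_nonneg_left hd (show 0 ≤ g1 ^ 2 + g2 ^ 2 by positivity)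
    nlinarith [sq_nonneg (g1 * p' - g2 * a')]
  have k1 : (V ^ 2 - 1) / (2 * V) * (2 * a * (1 - 1 / V) / s)
      ≤ 2 * a * (1 + p / Y) * ((V - 1) ^ 2 / (2 * V)) / s := by
    have e : (V ^ 2 - 1) / (2 * V) * (2 * a * (1 - 1 / V) / s)
        = 2 * a * (1 + 1 / V) * ((V - 1) ^ 2 / (2 * V)) / s := by field_simp; ring
    have : 1 / V ≤ p / Y := by rw [div_le_div_iff₀ V0 hY]; linarith
    rw [e]; gcongr
  have k2 : β / (2 * m) / p ≤ β / (2 * P) := by
    rw [div_div]
    refine div_le_div_of_nonneg_left hβ (by positivity) ?_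
    nlinarith [mul_le_mul_of_nonneg_right hm hp.le]
  have k3 : θ / (2 * m) / p < 2 * a * (1 - 1 / V) / s := by
    have t1 : 1 < 2 * (s * m) * (1 - 1 / V) := by
      have t0 : 1 < 2 * c * (1 - 1 / V) := by
        have : 2 * c * (1 - 1 / V) = (2 * c * (V - 1)) / V := by field_simp
        rw [this, lt_div_iff₀ V0]; linarith
      have : 0 ≤ 1 - 1 / V := by rw [sub_nonneg, div_le_one V0]; exact V1.le
      nlinarith [mul_le_mul_of_nonneg_right hcs this]
    have t2 : 0 < 1 - 1 / V := by rw [sub_pos, div_lt_one V0]; exact V1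
    generalize 1 - 1 / V = δ at t1 t2
    rw [div_div, div_lt_div_iff₀ (by positivity) hs]
    have t3 := mul_le_mul_of_nonneg_right hap (show 0 ≤ 2 * m * δ by positivity)
    have t4 := mul_lt_mul_of_pos_left t1 (mul_pos hθ hs)
    nlinarith
  have k4 := mul_le_mul_of_nonneg_left k2 S0.le
  have k5 := mul_lt_mul_of_pos_left k3 S0
  have e : (V ^ 2 - 1) / (2 * V) / p * ((β + θ) / (2 * m))
      = (V ^ 2 - 1) / (2 * V) * (β / (2 * m) / p) + (V ^ 2 - 1) / (2 * V) * (θ / (2 * m) / p) := by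
    field_simp
  rw [e] at cs
  linarith

/-- derivative of the hyperbolic distance -/
theorem vla_deriv {n w : ℝ → ℂ} {w' : ℂ} {r s : ℝ} (hs : 0 < s) (hw : HasDerivAt w w' r)
    (hn : HasDerivAt n ((-(1 / s) : ℝ) * (w r ^ 2 - n r ^ 2)) r) (h1 : (w r).im < 0)
    (h2 : (n r).im < 0) :
    HasDerivAt (fun r => (((n r).re - (w r).re) ^ 2 + (-(n r).im - -(w r).im) ^ 2)
        / (2 * (-(n r).im * -(w r).im)))
      (2 * (w r).re * (1 + -(w r).im / -(n r).im)
          * ((((n r).re - (w r).re) ^ 2 + (-(n r).im - -(w r).im) ^ 2)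
            / (2 * (-(n r).im * -(w r).im))) / s
        + (-(((n r).re - (w r).re) / (-(n r).im * -(w r).im)) * w'.re
          + ((-(w r).im) ^ 2 - ((n r).re - (w r).re) ^ 2 - (-(n r).im) ^ 2)
            / (2 * -(n r).im * (-(w r).im) ^ 2) * -w'.im)) r := by
  have a1 : HasDerivAt (fun r => (w r).re) w'.re r := reCLM.hasFDerivAt.comp_hasDerivAt r hw
  have a2 : HasDerivAt (fun r => (w r).im) w'.im r := imCLM.hasFDerivAt.comp_hasDerivAt r hw
  have a3 : HasDerivAt (fun r => (n r).re) ((-(1 / s) : ℝ) * (w r ^ 2 - n r ^ 2) : ℂ).re r :=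
    reCLM.hasFDerivAt.comp_hasDerivAt r hn
  have a4 : HasDerivAt (fun r => (n r).im) ((-(1 / s) : ℝ) * (w r ^ 2 - n r ^ 2) : ℂ).im r :=
    imCLM.hasFDerivAt.comp_hasDerivAt r hn
  rw [re_ofReal_mul, sub_re, sq, sq, mul_re, mul_re] at a3
  rw [im_ofReal_mul, sub_im, sq, sq, mul_im, mul_im] at a4
  have b1 := h1.ne
  have b2 := h2.ne
  refine ((((a3.sub a1).pow 2).add ((a4.neg.sub a2.neg).pow 2)).div
    ((a4.neg.mul a2.neg).const_mul 2) ?_).congr_deriv ?_
  · simp [b1, b2]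
  · simp only [Pi.add_apply, Pi.pow_apply, Pi.sub_apply, Pi.neg_apply, Pi.mul_apply]
    field_simp
    ring

variable {γ l R B θ : ℝ}

theorem vla_main (h1 : γ ^ 2 ≤ 1) (hl : 0 ≤ l) (hθ : 0 < θ) (hB : 1 / 4 < B)
    (hb : B ≤ 2 * R - bb l) :
    -(ww γ l (θ * I) R).im / VV R B ≤ -(np γ l R (θ * I)).im ∧
    ‖np γ l R (θ * I) - ww γ l (θ * I) R‖ ≤ -(ww γ l (θ * I) R).im * (VV R B - 1) := by
  have r0 : (θ * I : ℂ).re = 0 := by simp
  have i0 : (θ * I : ℂ).im = θ := by simp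
  have hε : (θ * I : ℂ) ∈ UU := ⟨by rw [r0]; norm_num, by rw [i0]; exact hθ⟩
  have nε : ‖(θ * I : ℂ)‖ = θ := by simp [hθ.le]
  obtain ⟨x1, -, y0, -⟩ := Ec_right h1 hθ.le
  have b0 : 0 < bb l := by unfold bb; positivity
  have R0 : 0 < R := by linarith
  have B0 : 0 < B := by linarith
  have c0 : 1 / 2 < √B := Real.lt_sqrt_of_sq_lt (by linarith)
  have sf := fun r (hr : 0 < r) => sqrt_facts (wq_im_neg (l := l) h1 hε hr)
  have wre := wq_re γ l (θ * I)
  have wim := wq_im γ l (θ * I)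
  have wd := fun r (hr : 0 < r) => ww_deriv (l := l) h1 hε hr
  rw [r0] at wre
  rw [i0] at wim
  generalize (Ec γ (θ * I)).re = x at x1 wre
  generalize (Ec γ (θ * I)).im = y at y0 wim
  have wi : ∀ r, 0 < r → (ww γ l (θ * I) r).im < 0 := fun r hr => (sf r hr).2.1
  obtain ⟨q, hq, hlim⟩ := approx h1 hl hε
    (fun M => if 0 < M then ww γ l (θ * I) M / (√M : ℝ) - 1 / (4 * M) else 0) (fun M => by
      split_ifs with hM
      · have e : (1 / (4 * M) : ℂ) = ((1 / (4 * M) : ℝ) : ℂ) := by push_cast; rfl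
        rw [sub_im, div_ofReal_im, e, ofReal_im, sub_zero]
        exact div_nonpos_of_nonpos_of_nonneg (wi M hM).le (Real.sqrt_nonneg _)
      · exact le_rfl)
  have rP : ∀ r, R ≤ r → B ≤ r * (2 * x - bb l / r) := fun r hr => by
    have r0 : 0 < r := by linarith
    have : r * (2 * x - bb l / r) = 2 * (x * r) - bb l := by field_simp
    linarith [mul_le_mul_of_nonneg_right x1 r0.le]
  have P0 : ∀ r, R ≤ r → 0 < 2 * x - bb l / r := fun r hr =>
    pos_of_mul_pos_left ((B0.trans_le (rP r hr)).trans_eq (mul_comm _ _)) (by linarith)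
  let V : ℝ → ℝ := fun r => √(2 * x * B) / (√B - 1 / 2) / √(2 * x - bb l / r)
  have hV : ∀ r, R ≤ r → √B < V r * (√B - 1 / 2) := fun r hr => by
    have t := Real.sqrt_pos.2 (P0 r hr)
    have e : V r * (√B - 1 / 2) = √(2 * x * B) / √(2 * x - bb l / r) := by
      simp only [V]
      rw [div_right_comm, div_mul_cancel₀ _ (sub_pos.2 c0).ne']
    rw [e, lt_div_iff₀ t, ← Real.sqrt_mul B0.le]
    refine Real.sqrt_lt_sqrt (mul_pos B0 (P0 r hr)).le ?_
    have : 0 < B * (bb l / r) := mul_pos B0 (div_pos b0 (by linarith))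
    linarith
  have V1 : ∀ r, R ≤ r → 1 < V r := fun r hr => by
    by_contra h
    linarith [hV r hr, mul_le_mul_of_nonneg_right (not_lt.1 h) (show 0 ≤ √B - 1 / 2 by linarith)]
  have Vd : ∀ r, R ≤ r → HasDerivAt (fun r => (V r - 1) ^ 2 / (2 * V r))
      ((V r ^ 2 - 1) / (2 * V r) * (-(bb l / r ^ 2 / (2 * (2 * x - bb l / r))))) r := fun r hr => by
    have r0 : r ≠ 0 := (R0.trans_le hr).ne'
    have t := Real.sqrt_pos.2 (P0 r hr)
    have t2 := Real.sq_sqrt (P0 r hr).le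
    have d1 : HasDerivAt (fun r => 2 * x - bb l / r) (bb l / r ^ 2) r :=
      (((hasDerivAt_const r (bb l)).div (hasDerivAt_id r) r0).const_sub (2 * x)).congr_deriv
        (by simp only [id]; ring)
    have d2 : HasDerivAt V (V r * (-(bb l / r ^ 2 / (2 * (2 * x - bb l / r))))) r := by
      refine ((hasDerivAt_const r (√(2 * x * B) / (√B - 1 / 2))).div (d1.sqrt (P0 r hr).ne')
        t.ne').congr_deriv ?_
      simp only [V]
      generalize √(2 * x * B) / (√B - 1 / 2) = K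
      generalize √(2 * x - bb l / r) = τ at t t2 ⊢
      rw [← t2]
      field_simp
      ring
    have v0 : V r ≠ 0 := (one_pos.trans (V1 r hr)).ne'
    refine (((d2.sub_const 1).pow 2).div (d2.const_mul 2) (by simpa using v0)).congr_deriv ?_
    simp only [Pi.pow_apply]
    field_simp
    ring
  have VR : V R ≤ VV R B := by
    have t := Real.sqrt_pos.2 (P0 R le_rfl)
    simp only [V, VV]
    rw [div_right_comm]
    refine div_le_div_of_nonneg_right ?_ (by linarith)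
    rw [div_le_iff₀ t, ← Real.sqrt_mul (by linarith)]
    refine Real.sqrt_le_sqrt ?_
    have e : 2 * R * (2 * x - bb l / R) = 2 * (2 * (x * R) - bb l) := by field_simp
    have := mul_le_mul_of_nonneg_right x1 (show 0 ≤ 2 * R - B by linarith)
    linarith
  have key : ∀ M, R ≤ M → -(ww γ l (θ * I) R).im / VV R B
        ≤ -((√R : ℝ) * (q M R + 1 / (4 * R)) : ℂ).im ∧
      ‖(√R : ℝ) * (q M R + 1 / (4 * R)) - ww γ l (θ * I) R‖
        ≤ -(ww γ l (θ * I) R).im * (VV R B - 1) := fun M hM => by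
    have M0 : 0 < M := by linarith
    obtain ⟨qM, qd⟩ := hq M M0
    rw [if_pos M0] at qM
    let n : ℝ → ℂ := fun r => (√r : ℝ) * (q M r + 1 / (4 * r))
    have nM : n M = ww γ l (θ * I) M := by
      have : ((√M : ℝ) : ℂ) ≠ 0 := by exact_mod_cast (Real.sqrt_pos.2 M0).ne'
      simp only [n, qM]; field_simp; ring
    have ni : ∀ r ∈ Icc R M, (n r).im < 0 := fun r hr => by
      rcases hr.2.eq_or_lt with h | h
      · rw [h, nM]; exact wi M M0
      · have r0 : 0 < r := by linarith [hr.1]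
        have e : (1 / (4 * r) : ℂ) = ((1 / (4 * r) : ℝ) : ℂ) := by push_cast; rfl
        simp only [n]
        rw [im_ofReal_mul, add_im, e, ofReal_im, add_zero]
        exact mul_neg_of_pos_of_neg (Real.sqrt_pos.2 r0) ((qd r ⟨r0, hr.2⟩).2.2 h)
    have fz := fence_real_bwd (a := R) (b := M)
      (fun r hr => vla_deriv (n := n) (Real.sqrt_pos.2 (R0.trans_le hr.1)) (wd r (R0.trans_le hr.1))
        (nq_deriv (R0.trans_le hr.1) (qd r ⟨R0.trans_le hr.1, hr.2⟩).1) (wi r (R0.trans_le hr.1))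
        (ni r hr))
      (fun r hr => Vd r hr.1)
      (by
        have := V1 M hM
        rw [nM, sub_self, sub_self, zero_pow two_ne_zero, add_zero, zero_div]
        positivity)
      (fun r hr hc => by
        have r0 : 0 < r := R0.trans_le hr.1
        obtain ⟨f1, f2, -, f4, f5, f6, f7⟩ := sf r r0
        change 0 < (ww γ l (θ * I) r).re at f1
        change 2 * (ww γ l (θ * I) r).re ^ 2 = _ at f4
        change 2 * (ww γ l (θ * I) r).im ^ 2 = _ at f5
        change 2 * (ww γ l (θ * I) r).re * (ww γ l (θ * I) r).im = _ at f6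
        have p0 := wi r r0
        have pm : -(ww γ l (θ * I) r).im ≤ ‖ww γ l (θ * I) r‖ :=
          (neg_le_abs _).trans (abs_im_le_norm _)
        have Pp : 2 * x - bb l / r ≤ (-(ww γ l (θ * I) r).im) ^ 2 := by
          rw [wre] at f4 f5
          linarith [sq_nonneg (ww γ l (θ * I) r).re, neg_sq (ww γ l (θ * I) r).im]
        have s2 := Real.sq_sqrt r0.le
        refine vla_contact (c := √B) (θ := θ) (m := ‖ww γ l (θ * I) r‖) (by linarith)
          (by linarith [ni r hr]) f1 (Real.sqrt_pos.2 r0) (by positivity) hθ (P0 r hr.1) Pp pm ?_ ?_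
          c0 ?_ (hV r hr.1) hc
        · have e : ∀ z : ℂ, z.re ^ 2 + (-z.im) ^ 2 = ‖z‖ ^ 2 := fun z => by
            rw [Complex.sq_norm, normSq_apply]; ring
          rw [e]
          refine pow_le_pow_left₀ (norm_nonneg _) ?_ 2
          rw [norm_div, norm_mul, Complex.norm_two]
          refine div_le_div_of_nonneg_right ((norm_sub_le _ _).trans ?_) (by positivity)
          rw [norm_neg, nε, norm_real, Real.norm_of_nonneg (by positivity)]
        · rw [wim] at f6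
          rw [s2]
          linarith
        · refine Real.sqrt_le_iff.2 ⟨by positivity, (rP r hr.1).trans ?_⟩
          rw [mul_pow, s2]
          exact mul_le_mul_of_nonneg_left (Pp.trans (pow_le_pow_left₀ (by linarith) pm 2)) r0.le)
      R ⟨le_rfl, hM⟩
    have e : ‖n R - ww γ l (θ * I) R‖ ^ 2 = ((n R).re - (ww γ l (θ * I) R).re) ^ 2
        + (-(n R).im - -(ww γ l (θ * I) R).im) ^ 2 := by
      rw [Complex.sq_norm, normSq_apply, sub_re, sub_im]; ring
    rw [← e, neg_mul_neg] at fz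
    obtain ⟨a, -, c⟩ := vla_ball (V1 R le_rfl).le (wi R R0) (ni R ⟨le_rfl, hM⟩) fz
    have p0 : 0 ≤ -(ww γ l (θ * I) R).im := by linarith [wi R R0]
    exact ⟨(div_le_div_of_nonneg_left p0 (by linarith [V1 R le_rfl]) VR).trans a,
      c.trans (mul_le_mul_of_nonneg_left (by linarith) p0)⟩
  have lim : Tendsto (fun M => ((√R : ℝ) * (q M R + 1 / (4 * R)) : ℂ)) atTop
      (𝓝 (np γ l R (θ * I))) := ((hlim R R0).add_const _).const_mul _
  exact ⟨ge_of_tendsto ((continuous_im.tendsto _).comp lim).neg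
      ((eventually_ge_atTop R).mono fun M hM => (key M hM).1),
    le_of_tendsto (lim.sub_const _).norm ((eventually_ge_atTop R).mono fun M hM => (key M hM).2)⟩

end Pool.Agent.Lib.MP_2347b2_mp.F
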