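import Pool.Agent.Lib.MP_2347b2_mp.F.WF
import Pool.Agent.Lib.MP_2347b2_mp.F.G5
import Pool.Agent.Lib.MP_2347b2_mp.F.VLemA

namespace Pool.Agent.Lib.MP_2347b2_mp.F

open MeasureTheory Set Filter Topology Complex

variable {γ l l' R B θ : ℝ}

theorem one_lt_VV (hB : 1 / 4 < B) (hBR : B ≤ 2 * R) : 1 < VV R B := by
  have h1 : 1 / 2 < √B := Real.lt_sqrt_of_sq_lt (by linarith)
  have h2 : √B ≤ √(2 * R) := Real.sqrt_le_sqrt hBR
  rw [VV, lt_div_iff₀ (by linarith)]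
  linarith

/-- a point at bounded hyperbolic distance -/
theorem hyp_ball {w n : ℂ} {V : ℝ} (hV : 1 ≤ V) (hw : w.im < 0) (hn : n.im < 0)
    (h : ‖n - w‖ ^ 2 / (2 * (n.im * w.im)) ≤ (V - 1) ^ 2 / (2 * V)) :
    -w.im / V ≤ -n.im ∧ -n.im ≤ -w.im * V ∧ ‖n - w‖ ≤ -w.im * (V - 1) :=
  vla_ball hV hw hn h

/-- the subdominant solution follows the comparison function on the imaginary axis -/
theorem vlem (h1 : γ ^ 2 ≤ 1) (hl : 0 ≤ l) (hθ : 0 < θ) (hB : 1 / 4 < B) (hb : B ≤ 2 * R - bb l) :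
    -(ww γ l (θ * I) R).im / VV R B ≤ -(np γ l R (θ * I)).im ∧
    ‖np γ l R (θ * I) - ww γ l (θ * I) R‖ ≤ -(ww γ l (θ * I) R).im * (VV R B - 1) :=
  vla_main h1 hl hθ hB hb

theorem vb_UU (hθ : 0 < θ) : (θ * I : ℂ) ∈ UU := ⟨by simp, by simpa using hθ⟩

theorem vb_bb (hl : 0 ≤ l) : 0 < bb l := by
  unfold bb
  positivity

theorem vb_sq {a b : ℝ} (hb : b < 0) (h : a ^ 2 ≤ b ^ 2) : a ≤ -b :=
  le_of_sq_le_sq (by rwa [neg_sq]) (by linarith)

theorem ww_im_sq (h1 : γ ^ 2 ≤ 1) (hθ : 0 < θ) {r : ℝ} (hr : 0 < r) (hb : bb l ≤ 2 * r) :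
    (2 * r - bb l) / r ≤ (ww γ l (θ * I) r).im ^ 2 ∧ θ * r / 2 ≤ (ww γ l (θ * I) r).im ^ 2 ∧
    (ww γ l (θ * I) r).re ≤ -(ww γ l (θ * I) r).im := by
  have hε : (θ * I : ℂ) ∈ UU := vb_UU hθ
  obtain ⟨a1, a2, -, a4, a5, -, -⟩ := sqrt_facts (wq_im_neg (l := l) h1 hε hr)
  obtain ⟨e1, -, e3, -⟩ := Ec_right h1 hθ.le
  have b1 := wq_re γ l (θ * I) r
  have b2 := wq_im γ l (θ * I) r
  have c1 : (θ * I : ℂ).re = 0 := by simp
  have c2 : (θ * I : ℂ).im = θ := by simp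
  rw [c1] at b1
  rw [c2] at b2
  have d1 : (2 * r - bb l) / r = 2 - bb l / r := by field_simp
  have d2 : 0 ≤ (2 * r - bb l) / r := div_nonneg (by linarith) hr.le
  have d3 := (abs_le.1 (abs_re_le_norm (wq γ l (θ * I) r))).1
  have d4 := (abs_le.1 (abs_im_le_norm (wq γ l (θ * I) r))).1
  unfold ww
  refine ⟨by linarith, by linarith, ?_⟩
  exact vb_sq a2 (by linarith)

theorem vb_data (h1 : γ ^ 2 ≤ 1) (hl : 0 ≤ l) (hθ : 0 < θ) (hB : 1 / 4 < B)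
    (hb : B ≤ 2 * R - bb l) : 0 < R ∧ 1 < VV R B ∧ 0 < -(ww γ l (θ * I) R).im ∧
    -(ww γ l (θ * I) R).im / VV R B ≤ -(np γ l R (θ * I)).im ∧
    ‖np γ l R (θ * I) - ww γ l (θ * I) R‖ ≤ -(ww γ l (θ * I) R).im * (VV R B - 1) ∧
    (nm γ l R (θ * I)).im < 0 ∧
    gg γ l R (θ * I) = (√R : ℝ) / (nm γ l R (θ * I) + np γ l R (θ * I)) ∧
    B / R ≤ (ww γ l (θ * I) R).im ^ 2 ∧ θ * R / 2 ≤ (ww γ l (θ * I) R).im ^ 2 := by
  have hbb := vb_bb hl
  have hR : 0 < R := by linarith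
  obtain ⟨v1, v2⟩ := vlem h1 hl hθ hB hb
  obtain ⟨g1, g2, -⟩ := gg_n h1 hl (vb_UU hθ) hR
  obtain ⟨w1, w2, -⟩ := ww_im_sq (l := l) h1 hθ hR (by linarith)
  have w0 : (ww γ l (θ * I) R).im < 0 := (sqrt_facts (wq_im_neg h1 (vb_UU hθ) hR)).2.1
  exact ⟨hR, one_lt_VV hB (by linarith), by linarith, v1, v2, g2, g1,
    (div_le_div_of_nonneg_right hb hR.le).trans w1, w2⟩

theorem out_of (h1 : γ ^ 2 ≤ 1) (hl : 0 ≤ l) (hB : 1 / 4 < 2 * R - bb l) (T : ℝ) : Out γ l R T := by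
  obtain ⟨B, hBd⟩ : ∃ B, B = 2 * R - bb l := ⟨_, rfl⟩
  rw [← hBd] at hB
  have hb : B ≤ 2 * R - bb l := hBd.le
  have hbb := vb_bb hl
  have hR : 0 < R := by linarith
  have hV := one_lt_VV (R := R) hB (by linarith)
  have hs : 0 < √R := Real.sqrt_pos.2 hR
  have hq : 0 < √(B / R) := Real.sqrt_pos.2 (div_pos (by linarith) hR)
  refine ⟨√(B / R) / VV R B / √R,
    (1 + (bb l / R + 2 * (1 + T / 2) + T * R)) * VV R B / √R + 1 / (4 * R), by positivity,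
    fun θ hθ hT => ?_⟩
  obtain ⟨hR, hV, hp, hn, hd, hm, hg, p1, p2⟩ := vb_data h1 hl hθ hB hb
  have e : mp γ l R (θ * I) = np γ l R (θ * I) / (√R : ℝ) - (1 / (4 * R) : ℝ) := by
    have : ((√R : ℝ) : ℂ) ≠ 0 := ofReal_ne_zero.2 hs.ne'
    rw [np, mul_div_cancel_left₀ _ this]
    push_cast
    ring
  rw [e]
  constructor
  · have w1 : ‖ww γ l (θ * I) R‖ ^ 2 = ‖wq γ l (θ * I) R‖ :=
      (sqrt_facts (wq_im_neg (l := l) h1 (vb_UU hθ) hR)).2.2.2.2.2.2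
    have w2 : ‖Ec γ (θ * I)‖ ≤ 1 + θ / 2 := by
      have := norm_sub_le (1 : ℂ) (1 - Ec γ (θ * I))
      rw [sub_sub_cancel, norm_one] at this
      linarith [(Ec_right h1 hθ.le).2.2.2.2.1]
    have w3 : ‖wq γ l (θ * I) R‖ ≤ bb l / R + 2 * (1 + T / 2) + T * R := by
      have e2 : wq γ l (θ * I) R = (bb l / R : ℝ) - 2 * Ec γ (θ * I) - (θ * R : ℝ) * I := by
        rw [wq, bb]
        push_cast
        ring
      rw [e2]
      refine (norm_sub_le _ _).trans (add_le_add ((norm_sub_le _ _).trans (add_le_add ?_ ?_)) ?_)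
      · rw [norm_real, Real.norm_of_nonneg (by positivity)]
      · rw [norm_mul, norm_ofNat]
        linarith
      · rw [norm_mul, norm_I, mul_one, norm_real, Real.norm_of_nonneg (by positivity)]
        exact mul_le_mul_of_nonneg_right hT hR.le
    have w4 : ‖ww γ l (θ * I) R‖ ≤ 1 + (bb l / R + 2 * (1 + T / 2) + T * R) := by
      nlinarith [norm_nonneg (ww γ l (θ * I) R), sq_nonneg (‖ww γ l (θ * I) R‖ - 1)]
    have w5 := (abs_le.1 (abs_im_le_norm (ww γ l (θ * I) R))).1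
    have w6 : ‖np γ l R (θ * I)‖ ≤ ‖ww γ l (θ * I) R‖ * VV R B := by
      have := norm_add_le (np γ l R (θ * I) - ww γ l (θ * I) R) (ww γ l (θ * I) R)
      rw [sub_add_cancel] at this
      nlinarith
    refine (norm_sub_le _ _).trans (add_le_add ?_ ?_)
    · rw [norm_div, norm_real, Real.norm_of_nonneg hs.le]
      refine div_le_div_of_nonneg_right (w6.trans ?_) hs.le
      exact mul_le_mul_of_nonneg_right w4 (by linarith)
    · rw [norm_real, Real.norm_of_nonneg (by positivity)]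
  · rw [sub_im, ofReal_im, sub_zero, div_ofReal_im, ← neg_div]
    refine div_le_div_of_nonneg_right ?_ hs.le
    have w1 : √(B / R) ≤ -(ww γ l (θ * I) R).im := vb_sq (by linarith)
      (by rw [Real.sq_sqrt (div_pos (by linarith) hR).le]; exact p1)
    have w2 := div_le_div_of_nonneg_right w1 (show 0 ≤ VV R B by linarith)
    linarith

theorem gg_right (h1 : γ ^ 2 ≤ 1) (hl : 0 ≤ l) (hθ : 0 < θ) (hB : 1 / 4 < B)
    (hb : B ≤ 2 * R - bb l) :
    ‖gg γ l R (θ * I)‖ ≤ GG R B ∧ ‖gg γ l R (θ * I)‖ ^ 2 ≤ 2 * VV R B ^ 2 / θ ∧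
    |(gg γ l R (θ * I)).re| ≤ VV R B / √(2 * θ) ∧
    ‖gg γ l R (θ * I) - (GG R B / 2 : ℝ) * I‖ ≤ GG R B / 2 := by
  obtain ⟨hR, hV, hp, hn, -, hm, hg, p1, p2⟩ := vb_data h1 hl hθ hB hb
  generalize (ww γ l (θ * I) R).im = x at hp hn p1 p2
  obtain ⟨p, rfl⟩ : ∃ p, x = -p := ⟨-x, by ring⟩
  rw [neg_neg] at hp hn
  rw [neg_sq] at p1 p2
  have hs : 0 < √R := Real.sqrt_pos.2 hR
  have hs2 : √R ^ 2 = R := Real.sq_sqrt hR.le
  have hB0 : 0 < B := by linarith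
  have hsB : 0 < √B := Real.sqrt_pos.2 hB0
  have hV0 : 0 < VV R B := by linarith
  have hd := inv_disc (ζ := (nm γ l R (θ * I) + np γ l R (θ * I)) / (√R : ℝ))
    (c := p / VV R B / √R) (by positivity) (by
      rw [div_ofReal_im, add_im, ← neg_div]
      exact div_le_div_of_nonneg_right (by linarith) hs.le)
  rw [one_div_div, ← hg] at hd
  have et : 1 / (2 * (p / VV R B / √R)) = VV R B * √R / (2 * p) := by field_simp
  rw [et] at hd
  obtain ⟨t, ht⟩ : ∃ t, t = VV R B * √R / (2 * p) := ⟨_, rfl⟩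
  rw [← ht] at hd
  have t0 : 0 < t := by rw [ht]; positivity
  have t1 : t ≤ GG R B / 2 := by
    have : √B ≤ p * √R := le_of_sq_le_sq (by
      rw [Real.sq_sqrt hB0.le, mul_pow, hs2]; exact (div_le_iff₀ hR).1 p1) (by positivity)
    rw [ht, GG, div_div, div_le_div_iff₀ (by positivity) (by positivity)]
    have h3 := mul_le_mul_of_nonneg_left this (show 0 ≤ 2 * VV R B * √R by positivity)
    calc VV R B * √R * (√B * 2) = 2 * VV R B * √R * √B := by ring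
      _ ≤ 2 * VV R B * √R * (p * √R) := h3
      _ = √R ^ 2 * VV R B * (2 * p) := by ring
      _ = _ := by rw [hs2]
  have t2 : t ≤ VV R B / √(2 * θ) := by
    have hθ2 : 0 < √(2 * θ) := Real.sqrt_pos.2 (by linarith)
    have : √R * √(2 * θ) ≤ 2 * p := le_of_sq_le_sq (by
      rw [mul_pow, hs2, Real.sq_sqrt (by linarith), mul_pow]; linarith) (by positivity)
    rw [ht, div_le_div_iff₀ (by positivity) hθ2, mul_assoc]
    exact mul_le_mul_of_nonneg_left this hV0.le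
  have n1 : ∀ u : ℝ, 0 ≤ u → ‖(u : ℂ) * I‖ = u := fun u hu => by
    rw [norm_mul, norm_I, mul_one, norm_real, Real.norm_of_nonneg hu]
  have g1 : ‖gg γ l R (θ * I)‖ ≤ 2 * t := by
    have := norm_add_le (gg γ l R (θ * I) - t * I) (t * I)
    rw [sub_add_cancel, n1 t t0.le] at this
    linarith
  refine ⟨by linarith, ?_, ?_, ?_⟩
  · have h3 : t ^ 2 ≤ (VV R B / √(2 * θ)) ^ 2 := pow_le_pow_left₀ t0.le t2 2
    rw [div_pow, Real.sq_sqrt (by linarith)] at h3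
    have h4 : 2 * VV R B ^ 2 / θ = 4 * (VV R B ^ 2 / (2 * θ)) := by field_simp; ring
    have h5 := pow_le_pow_left₀ (norm_nonneg _) g1 2
    rw [h4]
    linarith [h5, show (2 * t) ^ 2 = 4 * t ^ 2 by ring]
  · have := abs_re_le_norm (gg γ l R (θ * I) - t * I)
    have e : (gg γ l R (θ * I) - t * I).re = (gg γ l R (θ * I)).re := by simp
    rw [e] at this
    linarith
  · have := norm_sub_le (gg γ l R (θ * I) - t * I) ((GG R B / 2 - t : ℝ) * I)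
    rw [n1 _ (by linarith)] at this
    have e : gg γ l R (θ * I) - t * I - (GG R B / 2 - t : ℝ) * I
        = gg γ l R (θ * I) - (GG R B / 2 : ℝ) * I := by
      push_cast
      ring
    rw [e] at this
    linarith

theorem gg_right_sub (h1 : γ ^ 2 ≤ 1) (hl : 0 ≤ l) (hl' : 0 ≤ l') (hθ : 0 < θ) (hB : 1 / 4 < B)
    (hb : B ≤ 2 * R - bb l) (hb' : B ≤ 2 * R - bb l') :
    ‖gg γ l R (θ * I) - gg γ l' R (θ * I)‖ ≤ GG R B := by
  have a1 := (gg_right h1 hl hθ hB hb).2.2.2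
  have a2 := (gg_right h1 hl' hθ hB hb').2.2.2
  have := norm_sub_le (gg γ l R (θ * I) - (GG R B / 2 : ℝ) * I)
    (gg γ l' R (θ * I) - (GG R B / 2 : ℝ) * I)
  rw [sub_sub_sub_cancel_right] at this
  linarith

theorem rp1_le (h1 : γ ^ 2 ≤ 1) (hl : 0 ≤ l) (hθ : 0 < θ) (hB : 1 / 4 < B)
    (hb : B ≤ 2 * R - bb l) : ‖rp1 γ l R (θ * I)‖ ≤ VV R B * (VV R B - 1) / (VV R B + 1) := by
  obtain ⟨hR, hV, hp, hn, hd, -⟩ := vb_data h1 hl hθ hB hb
  have a1 := (abs_le.1 (abs_im_le_norm (ww γ l (θ * I) R + np γ l R (θ * I)))).1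
  rw [add_im] at a1
  rw [rp1, rf, norm_div, norm_sub_rev]
  generalize (ww γ l (θ * I) R).im = x at hp hn hd a1
  have hV0 : 0 < VV R B := by linarith
  have a2 : 0 < -x / VV R B := div_pos hp hV0
  refine (div_le_div₀ (mul_nonneg hp.le (by linarith)) hd (by linarith : 0 < -x + -x / VV R B)
    (by linarith)).trans (le_of_eq ?_)
  have : x ≠ 0 := by linarith
  have h3 : -x + -x / VV R B = -x * ((VV R B + 1) / VV R B) := by
    field_simp
    ring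
  rw [h3, mul_div_mul_left _ _ hp.ne']
  field_simp

theorem ratio_right (h1 : γ ^ 2 ≤ 1) (hl : 0 ≤ l) (hθ : 0 < θ) (hB : 1 / 4 < B)
    (hb : B ≤ 2 * R - bb l) : ‖ww γ l (θ * I) R + nm γ l R (θ * I)‖
      ≤ (1 + VV R B * (VV R B - 1)) * ‖nm γ l R (θ * I) + np γ l R (θ * I)‖ := by
  obtain ⟨hR, hV, hp, hn, hd, hm, -⟩ := vb_data h1 hl hθ hB hb
  have a1 := (abs_le.1 (abs_im_le_norm (nm γ l R (θ * I) + np γ l R (θ * I)))).1
  rw [add_im] at a1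
  have a2 := norm_sub_le (nm γ l R (θ * I) + np γ l R (θ * I))
    (np γ l R (θ * I) - ww γ l (θ * I) R)
  have e : nm γ l R (θ * I) + np γ l R (θ * I) - (np γ l R (θ * I) - ww γ l (θ * I) R)
      = ww γ l (θ * I) R + nm γ l R (θ * I) := by ring
  rw [e] at a2
  have hV0 : 0 < VV R B := by linarith
  have a3 : -(ww γ l (θ * I) R).im ≤ ‖nm γ l R (θ * I) + np γ l R (θ * I)‖ * VV R B :=
    (div_le_iff₀ hV0).1 (by linarith)
  have a4 := mul_le_mul_of_nonneg_right a3 (show 0 ≤ VV R B - 1 by linarith)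
  linarith

theorem rm1_three (h1 : γ ^ 2 ≤ 1) (hl : 0 ≤ l) (hθ : 0 < θ) {r : ℝ} (hb : bb l ≤ 2 * r) :
    ‖rm1 γ l r (θ * I)‖ ≤ 3 := by
  have hbb := vb_bb hl
  have hr : 0 < r := by linarith
  obtain ⟨a1, a2, -⟩ := sqrt_facts (wq_im_neg (l := l) h1 (vb_UU hθ) hr)
  have a3 := (ww_im_sq (l := l) h1 hθ hr hb).2.2
  have a4 := rf_le_im (w := ww γ l (θ * I) r) a2 (gg_n h1 hl (vb_UU hθ) hr).2.1.le a1.le
  have a5 : 2 * (ww γ l (θ * I) r).re / (-(ww γ l (θ * I) r).im) ≤ 2 :=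
    (div_le_iff₀ (neg_pos.2 (show (ww γ l (θ * I) r).im < 0 from a2))).2 (by linarith)
  rw [rm1]
  linarith

theorem VV_le {U : ℝ} (hR : 100 ≤ R) (hU : 0 ≤ U) (hU' : U ≤ R / 2) :
    VV R (2 * R - U) ≤ 1 + 0.31 * (U / R) + 0.5 / √R := by
  have hR0 : 0 < R := by linarith
  have hs : 10 ≤ √R := Real.le_sqrt_of_sq_le (by linarith)
  have hs0 : 0 < √R := by linarith
  have hs2 : √R ^ 2 = R := Real.sq_sqrt hR0.le
  obtain ⟨k, hk⟩ : ∃ k, k = √(2 * R) / √R := ⟨_, rfl⟩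
  obtain ⟨q, hq⟩ : ∃ q, q = √(2 * R - U) / √R := ⟨_, rfl⟩
  have k0 : 0 ≤ k := by rw [hk]; positivity
  have q0 : 0 ≤ q := by rw [hq]; positivity
  have k2 : k ^ 2 = 2 := by
    rw [hk, div_pow, hs2, Real.sq_sqrt (by linarith)]
    field_simp
  have q2 : q ^ 2 = 2 - U / R := by
    rw [hq, div_pow, hs2, Real.sq_sqrt (by linarith)]
    field_simp
  have t0 : 0 ≤ U / R := by positivity
  have t1 : U / R ≤ 1 / 2 := (div_le_iff₀ hR0).2 (by linarith)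
  have y0 : 0 ≤ 0.5 / √R := by positivity
  have y1 : 0.5 / √R ≤ 0.05 := (div_le_iff₀ hs0).2 (by linarith)
  have q1 : 1.22 ≤ q := le_of_sq_le_sq (by linarith) q0
  have qk : q ≤ k := le_of_sq_le_sq (by linarith) k0
  have qk2 : 1.73 ≤ q * k := le_of_sq_le_sq (by rw [mul_pow, k2]; linarith) (by positivity)
  have e : VV R (2 * R - U) = k / (q - 0.5 / √R) := by
    rw [VV, hk, hq, ← sub_div, div_div_div_cancel_right₀ hs0.ne']
    norm_num
  rw [e, div_le_iff₀ (by linarith)]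
  generalize 0.5 / √R = y at y0 y1
  generalize U / R = t at t0 t1 q2
  have a1 : 0 ≤ y * (q - 1 - 0.31 * t - y) := mul_nonneg y0 (by linarith)
  have a2 : 0 ≤ (k - q) * (0.31 * (q ^ 2 + q * k + k ^ 2) - 1.62) :=
    mul_nonneg (by linarith) (by linarith)
  have a3 : t = 2 - q ^ 2 := by linarith
  have a4 : k ^ 3 = 2 * k := by rw [pow_succ, k2]
  subst a3
  nlinarith

end Pool.Agent.Lib.MP_2347b2_mp.F
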