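import Pool.Agent.Lib.MP_2347b2_mp.F.CWeyl
import Pool.Agent.Lib.MP_2347b2_mp.F.Rho
import Pool.Agent.Lib.MP_2347b2_mp.F.Cost

namespace Pool.Agent.Lib.MP_2347b2_mp.F

open MeasureTheory Set Filter Topology Complex

/-- the shifted centrifugal constant -/
noncomputable def bb (l : ℝ) : ℝ := l * (l + 1) + 3 / 16

/-- the regular solution in the Liouville normalisation -/
noncomputable def yy (γ l : ℝ) (ε : ℂ) (r : ℝ) : ℂ := ph γ l ε r / (r ^ (1 / 4 : ℝ) : ℝ)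

/-- reflection coefficients for the comparison function `ww` -/
noncomputable def rm1 (γ l R : ℝ) (ε : ℂ) : ℂ := rf (ww γ l ε R) (nm γ l R ε)

noncomputable def rp1 (γ l R : ℝ) (ε : ℂ) : ℂ := rf (ww γ l ε R) (np γ l R ε)

/-- reflection coefficients for the comparison function `W0` -/
noncomputable def rm0 (γ l R : ℝ) (ε : ℂ) : ℂ := rf (W0 γ l ε R) (mm γ l R ε)

noncomputable def rp0 (γ l R : ℝ) (ε : ℂ) : ℂ := rf (W0 γ l ε R) (mp γ l R ε)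

/-- the squared weighted norm of a row of the Green function -/
noncomputable def JX (γ l R : ℝ) (ε : ℂ) : ℝ :=
  ‖ps γ l ε R‖ ^ 2 * Im2 γ l ε R + ‖ph γ l ε R‖ ^ 2 * ∫ r in Ioi R, ‖ps γ l ε r‖ ^ 2 / r ^ 2

variable {γ l : ℝ} {ε : ℂ} {r : ℝ}

theorem wq_eq (γ l : ℝ) (ε : ℂ) (hr : 0 < r) : wq γ l ε r = r * Qc γ l ε r + 3 / (16 * r) := by
  have h0 : (r : ℂ) ≠ 0 := ofReal_ne_zero.2 hr.ne'
  rw [wq, Qc]
  field_simp
  ring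

theorem wf_wq (γ l : ℝ) (ε : ℂ) (r : ℝ) :
    wq γ l ε r = ((bb l / r : ℝ) : ℂ) - (2 : ℝ) * Ec γ ε - r * ε := by
  rw [wq, bb]
  push_cast
  ring

theorem wq_re (γ l : ℝ) (ε : ℂ) (r : ℝ) :
    (wq γ l ε r).re = bb l / r - 2 * (Ec γ ε).re - ε.re * r := by
  rw [wf_wq, sub_re, sub_re, ofReal_re, re_ofReal_mul, re_ofReal_mul, mul_comm r]

theorem wq_im (γ l : ℝ) (ε : ℂ) (r : ℝ) : (wq γ l ε r).im = -(2 * (Ec γ ε).im + ε.im * r) := by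
  rw [wf_wq, sub_im, sub_im, ofReal_im, im_ofReal_mul, im_ofReal_mul]
  ring

theorem wq_im_neg (h1 : γ ^ 2 ≤ 1) (hε : ε ∈ UU) (hr : 0 < r) : (wq γ l ε r).im < 0 := by
  have a := Ec_im_nonneg h1 hε.1 hε.2.le
  have b := mul_pos (show 0 < ε.im from hε.2) hr
  rw [wq_im]
  linarith

theorem Qc_im_neg (h1 : γ ^ 2 ≤ 1) (hε : ε ∈ UU) (hr : 0 < r) : (Qc γ l ε r).im < 0 := by
  rw [Qc_im]
  exact neg_neg_of_pos (cfl_coef h1 hε hr)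

theorem wf_sqrt {z : ℂ} (hz : z ∈ slitPlane) :
    HasDerivAt Complex.sqrt (1 / (2 * Complex.sqrt z)) z := by
  refine (Complex.hasDerivAt_sqrt hz).congr_deriv ?_
  rw [show (-1 / 2 : ℂ) = -2⁻¹ by norm_num, cpow_neg, Complex.sqrt]
  ring

theorem wf_id (r : ℝ) : HasDerivAt (fun y : ℝ => (y : ℂ)) 1 r := by
  simpa using (hasDerivAt_id' r).ofReal_comp

theorem wf_Ec (h1 : γ ^ 2 ≤ 1) (hε : ε ∈ UU) : HasDerivAt (Ec γ) (γ ^ 2 / (2 * Ec γ ε)) ε := by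
  refine ((wf_sqrt (z := 1 + γ ^ 2 * ε) (.inl ?_)).comp ε
    (((hasDerivAt_id' ε).const_mul (γ ^ 2 : ℂ)).const_add 1)).congr_deriv ?_
  · simpa [← ofReal_pow] using cb_pos h1 hε.1
  · rw [Ec]
    ring

theorem wf_Ec_ne (h1 : γ ^ 2 ≤ 1) (hε : ε ∈ UU) : Ec γ ε ≠ 0 := fun h => by
  simpa [h] using Ec_re_pos h1 hε.1

theorem wf_ne {w : ℂ} (hw : w.im < 0) : w ≠ 0 := fun h => by simp [h] at hw

theorem wf_ww (h1 : γ ^ 2 ≤ 1) (hε : ε ∈ UU) (hr : 0 < r) : (ww γ l ε r).im < 0 :=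
  (sqrt_facts (wq_im_neg h1 hε hr)).2.1

theorem wf_W0 (h1 : γ ^ 2 ≤ 1) (hε : ε ∈ UU) (hr : 0 < r) : (W0 γ l ε r).im < 0 :=
  (sqrt_facts (Qc_im_neg h1 hε hr)).2.1

theorem wf_wn (h1 : γ ^ 2 ≤ 1) (hl : 0 ≤ l) (hε : ε ∈ UU) (hr : 0 < r) :
    ww γ l ε r + nm γ l r ε ≠ 0 :=
  wf_ne (add_neg (wf_ww h1 hε hr) (gg_n h1 hl hε hr).2.1)

theorem wf_Wm (h1 : γ ^ 2 ≤ 1) (hl : 0 ≤ l) (hε : ε ∈ UU) (hr : 0 < r) :
    W0 γ l ε r + mm γ l r ε ≠ 0 :=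
  wf_ne (add_neg (wf_W0 h1 hε hr) (mm_im_neg h1 hl hε hr))

theorem ww_sq (γ l : ℝ) (ε : ℂ) (r : ℝ) : ww γ l ε r ^ 2 = wq γ l ε r := csqrt_sq _

theorem W0_sq (γ l : ℝ) (ε : ℂ) (r : ℝ) : W0 γ l ε r ^ 2 = Qc γ l ε r := csqrt_sq _

theorem ww_deriv (h1 : γ ^ 2 ≤ 1) (hε : ε ∈ UU) (hr : 0 < r) :
    HasDerivAt (ww γ l ε) ((-(bb l / r ^ 2 : ℝ) - ε) / (2 * ww γ l ε r)) r := by
  have h0 : (r : ℂ) ≠ 0 := ofReal_ne_zero.2 hr.ne'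
  have d : HasDerivAt (wq γ l ε) _ r :=
    (((hasDerivAt_const r (l * (l + 1) + 3 / 16 : ℂ)).div (wf_id r) h0).sub_const
      (2 * Ec γ ε)).sub ((wf_id r).const_mul ε)
  refine ((wf_sqrt (.inr (wq_im_neg h1 hε hr).ne)).comp r d).congr_deriv ?_
  rw [ww, bb]
  push_cast
  ring

theorem W0_deriv (h1 : γ ^ 2 ≤ 1) (hε : ε ∈ UU) (hr : 0 < r) :
    HasDerivAt (W0 γ l ε)
      (2 * (Ec γ ε - (l * (l + 1) / r : ℝ)) / r ^ 2 / (2 * W0 γ l ε r)) r := by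
  have h0 : (r : ℂ) ≠ 0 := ofReal_ne_zero.2 hr.ne'
  have d : HasDerivAt (Qc γ l ε) _ r :=
    (((hasDerivAt_const r (l * (l + 1) : ℂ)).div ((wf_id r).pow 2) (pow_ne_zero 2 h0)).sub
      ((hasDerivAt_const r (2 * Ec γ ε)).div (wf_id r) h0)).sub_const ε
  refine ((wf_sqrt (.inr (Qc_im_neg h1 hε hr).ne)).comp r d).congr_deriv ?_
  rw [W0, one_div_mul_eq_div]
  refine congrArg (· / _) ?_
  simp only [Pi.pow_apply]
  push_cast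
  field_simp
  ring

theorem wf_nq {q : ℝ → ℂ} (hr : 0 < r) (hq : HasDerivAt q (q r ^ 2 - Qc γ l ε r) r) :
    HasDerivAt (fun r : ℝ => (√r : ℝ) * (q r + 1 / (4 * r)))
      ((-(1 / √r) : ℝ) * (ww γ l ε r ^ 2 - ((√r : ℝ) * (q r + 1 / (4 * r))) ^ 2)) r := by
  have h0 : (r : ℂ) ≠ 0 := ofReal_ne_zero.2 hr.ne'
  have h2 : ((√r : ℝ) : ℂ) ≠ 0 := ofReal_ne_zero.2 (Real.sqrt_pos.2 hr).ne'
  have h3 : (r : ℂ) = ((√r : ℝ) : ℂ) ^ 2 := by rw [← ofReal_pow, Real.sq_sqrt hr.le]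
  refine ((Real.hasDerivAt_sqrt hr.ne').ofReal_comp.mul (hq.add ((hasDerivAt_const r (1 : ℂ)).div
    ((wf_id r).const_mul 4) (mul_ne_zero (by norm_num) h0)))).congr_deriv ?_
  rw [ww_sq, wq_eq γ l ε hr]
  simp only [Pi.add_apply, Pi.div_apply]
  push_cast
  generalize ((√r : ℝ) : ℂ) = s at *
  rw [h3]
  field_simp
  ring

theorem nm_deriv (h1 : γ ^ 2 ≤ 1) (hl : 0 ≤ l) (hε : ε ∈ UU) (hr : 0 < r) :
    HasDerivAt (fun r => nm γ l r ε) ((1 / √r : ℝ) * (ww γ l ε r ^ 2 - nm γ l r ε ^ 2)) r := by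
  have e : ∀ r : ℝ, nm γ l r ε = -((√r : ℝ) * (-mm γ l r ε + 1 / (4 * r))) := fun r => by
    rw [nm]
    ring
  simp only [e]
  refine (wf_nq (γ := γ) (l := l) (ε := ε) (q := fun r => -mm γ l r ε) hr
    ((mm_deriv h1 hl hε hr).neg.congr_deriv (by ring))).neg.congr_deriv ?_
  push_cast
  ring

theorem nq_deriv {q : ℝ → ℂ} (hr : 0 < r) (hq : HasDerivAt q (q r ^ 2 - Qc γ l ε r) r) :
    HasDerivAt (fun r : ℝ => (√r : ℝ) * (q r + 1 / (4 * r)))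
      ((-(1 / √r) : ℝ) * (ww γ l ε r ^ 2 - ((√r : ℝ) * (q r + 1 / (4 * r))) ^ 2)) r := by
  exact wf_nq hr hq

theorem yy_deriv (h1 : γ ^ 2 ≤ 1) (hl : 0 ≤ l) (hε : ε ∈ UU) (hr : 0 < r) :
    HasDerivAt (yy γ l ε) ((1 / √r : ℝ) * nm γ l r ε * yy γ l ε r) r := by
  have h0 : (r : ℂ) ≠ 0 := ofReal_ne_zero.2 hr.ne'
  have h2 : ((√r : ℝ) : ℂ) ≠ 0 := ofReal_ne_zero.2 (Real.sqrt_pos.2 hr).ne'
  have h3 : ((r ^ (1 / 4 : ℝ) : ℝ) : ℂ) ≠ 0 := ofReal_ne_zero.2 (Real.rpow_pos_of_pos hr _).ne'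
  have h4 := ph_ne h1 hl hε hr
  refine (((ph_sol (by linarith) γ ε).d1 r hr).div
    (Real.hasDerivAt_rpow_const (p := 1 / 4) (.inl hr.ne')).ofReal_comp h3).congr_deriv ?_
  rw [nm, mm, yy, Real.rpow_sub_one hr.ne']
  push_cast
  field_simp

theorem yy_sq (γ l : ℝ) (ε : ℂ) (hr : 0 < r) : ‖ph γ l ε r‖ ^ 2 = √r * ‖yy γ l ε r‖ ^ 2 := by
  have h : (r ^ (1 / 4 : ℝ)) ^ 2 = √r := by
    rw [← Real.rpow_natCast, ← Real.rpow_mul hr.le, Real.sqrt_eq_rpow]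
    norm_num
  rw [yy, norm_div, div_pow, norm_real, Real.norm_eq_abs, sq_abs, h,
    mul_div_cancel₀ _ (Real.sqrt_pos.2 hr).ne']

theorem rm1_deriv (h1 : γ ^ 2 ≤ 1) (hl : 0 ≤ l) (hε : ε ∈ UU) (hr : 0 < r) :
    HasDerivAt (fun r => rm1 γ l r ε) (-2 * ((1 / √r : ℝ) * ww γ l ε r) * rm1 γ l r ε
      + (-(bb l / r ^ 2 : ℝ) - ε) / (4 * wq γ l ε r) * (1 - rm1 γ l r ε ^ 2)) r := by
  refine (rf_deriv (ww_deriv h1 hε hr) (nm_deriv h1 hl hε hr) (wf_ne (wf_ww h1 hε hr))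
    (wf_wn h1 hl hε hr)).congr_deriv ?_
  rw [← ww_sq, rm1]
  ring

theorem rm0_deriv (h1 : γ ^ 2 ≤ 1) (hl : 0 ≤ l) (hε : ε ∈ UU) (hr : 0 < r) :
    HasDerivAt (fun r => rm0 γ l r ε) (-2 * W0 γ l ε r * rm0 γ l r ε
      + (Ec γ ε - (l * (l + 1) / r : ℝ)) / (2 * r ^ 2 * Qc γ l ε r) * (1 - rm0 γ l r ε ^ 2)) r := by
  refine (rf_deriv (h := 1) (W0_deriv h1 hε hr) ((mm_deriv h1 hl hε hr).congr_deriv
    (by rw [W0_sq, one_mul])) (wf_ne (wf_W0 h1 hε hr)) (wf_Wm h1 hl hε hr)).congr_deriv ?_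
  rw [← W0_sq, rm0]
  ring

theorem wf_al {w n y : ℝ → ℂ} {w' h : ℂ} (hw : HasDerivAt w w' r)
    (hn : HasDerivAt n (h * (w r ^ 2 - n r ^ 2)) r) (hy : HasDerivAt y (h * n r * y r) r)
    (h0 : w r ≠ 0) (h1 : w r + n r ≠ 0) : HasDerivAt (fun r => (w r + n r) * y r)
      ((h * w r + w' / (2 * w r) * (1 + rf (w r) (n r))) * ((w r + n r) * y r)) r := by
  refine ((hw.add hn).mul hy).congr_deriv ?_
  have e : w' / (2 * w r) * (2 * w r) = w' := div_mul_cancel₀ _ (mul_ne_zero two_ne_zero h0)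
  simp only [Pi.add_apply]
  linear_combination -(y r) * e - w' / (2 * w r) * y r * one_add_rf h1

/-- the growing amplitude -/
theorem al1_deriv (h1 : γ ^ 2 ≤ 1) (hl : 0 ≤ l) (hε : ε ∈ UU) (hr : 0 < r) :
    HasDerivAt (fun r => (ww γ l ε r + nm γ l r ε) * yy γ l ε r)
      (((1 / √r : ℝ) * ww γ l ε r + (-(bb l / r ^ 2 : ℝ) - ε) / (4 * wq γ l ε r)
        * (1 + rm1 γ l r ε)) * ((ww γ l ε r + nm γ l r ε) * yy γ l ε r)) r := by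
  refine (wf_al (ww_deriv h1 hε hr) (nm_deriv h1 hl hε hr) (yy_deriv h1 hl hε hr)
    (wf_ne (wf_ww h1 hε hr)) (wf_wn h1 hl hε hr)).congr_deriv ?_
  rw [← ww_sq, rm1]
  ring

theorem al0_deriv (h1 : γ ^ 2 ≤ 1) (hl : 0 ≤ l) (hε : ε ∈ UU) (hr : 0 < r) :
    HasDerivAt (fun r => (W0 γ l ε r + mm γ l r ε) * ph γ l ε r)
      ((W0 γ l ε r + (Ec γ ε - (l * (l + 1) / r : ℝ)) / (2 * r ^ 2 * Qc γ l ε r)
        * (1 + rm0 γ l r ε)) * ((W0 γ l ε r + mm γ l r ε) * ph γ l ε r)) r := by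
  refine (wf_al (h := 1) (W0_deriv h1 hε hr) ((mm_deriv h1 hl hε hr).congr_deriv
    (by rw [W0_sq, one_mul])) (((ph_sol (by linarith) γ ε).d1 r hr).congr_deriv
      (by rw [one_mul, mm, div_mul_cancel₀ _ (ph_ne h1 hl hε hr)]))
    (wf_ne (wf_W0 h1 hε hr)) (wf_Wm h1 hl hε hr)).congr_deriv ?_
  rw [← W0_sq, rm0]
  ring

theorem wf_ww_diff (h1 : γ ^ 2 ≤ 1) (hε : ε ∈ UU) (hr : 0 < r) :
    HasDerivAt (fun ε => ww γ l ε r)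
      (-(r * (1 + γ ^ 2 / (Ec γ ε * r))) / (2 * ww γ l ε r)) ε := by
  have h0 : (r : ℂ) ≠ 0 := ofReal_ne_zero.2 hr.ne'
  have h2 := wf_Ec_ne h1 hε
  have d : HasDerivAt (fun ε => wq γ l ε r) _ ε :=
    (((wf_Ec h1 hε).const_mul 2).const_sub _).sub ((hasDerivAt_id' ε).mul_const (r : ℂ))
  refine ((wf_sqrt (.inr (wq_im_neg h1 hε hr).ne)).comp ε d).congr_deriv ?_
  rw [ww, one_div_mul_eq_div]
  refine congrArg (· / _) ?_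
  field_simp
  ring

theorem rm1_cont (h1 : γ ^ 2 ≤ 1) (hl : 0 ≤ l) (hr : 0 < r) : ContinuousOn (rm1 γ l r) UU := by
  have a : ContinuousOn (fun ε => ww γ l ε r) UU := fun _ hε =>
    (wf_ww_diff h1 hε hr).continuousAt.continuousWithinAt
  have b : ContinuousOn (nm γ l r) UU :=
    continuousOn_const.mul ((mm_diff h1 hl hr).continuousOn.sub continuousOn_const)
  exact (a.sub b).div (a.add b) fun _ hε => wf_wn h1 hl hε hr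

theorem ww_diff (h1 : γ ^ 2 ≤ 1) (hε : ε ∈ UU) (hr : 0 < r) :
    HasDerivAt (fun ε => ww γ l ε r)
      (-(r * (1 + γ ^ 2 / (Ec γ ε * r))) / (2 * ww γ l ε r)) ε := by
  exact wf_ww_diff h1 hε hr

theorem W0_diff (h1 : γ ^ 2 ≤ 1) (hε : ε ∈ UU) (hr : 0 < r) :
    HasDerivAt (fun ε => W0 γ l ε r) (-(1 + γ ^ 2 / (Ec γ ε * r)) / (2 * W0 γ l ε r)) ε := by
  have h0 : (r : ℂ) ≠ 0 := ofReal_ne_zero.2 hr.ne'
  have h2 := wf_Ec_ne h1 hε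
  have d : HasDerivAt (fun ε => Qc γ l ε r) _ ε :=
    ((((wf_Ec h1 hε).const_mul 2).div_const (r : ℂ)).const_sub _).sub (hasDerivAt_id' ε)
  refine ((wf_sqrt (.inr (Qc_im_neg h1 hε hr).ne)).comp (h := fun ε => Qc γ l ε r) ε
    d).congr_deriv ?_
  rw [W0, one_div_mul_eq_div]
  refine congrArg (· / _) ?_
  field_simp
  ring

end Pool.Agent.Lib.MP_2347b2_mp.F
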